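import Mathlib
import Pool.Agent.Work.MP_91e6de_nt.DM.Stmts

/-! Bundle of small proof modules (one section per former module). -/

section

set_option autoImplicit false

namespace Pool.Agent.Work.MP_91e6de_nt.DM

theorem pr_Avg : S_Avg := by
  classical
  intro α β S V bad B hV hbad h2B
  -- double counting
  have hcount : ∑ v ∈ V, (S.filter (fun n => bad n v)).card ≤ B * S.card := by
    have h1 : ∑ v ∈ V, (S.filter (fun n => bad n v)).card
        = ∑ n ∈ S, (V.filter (fun v => bad n v)).card := by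
      simp only [Finset.card_filter]
      rw [Finset.sum_comm]
    rw [h1]
    calc ∑ n ∈ S, (V.filter (fun v => bad n v)).card ≤ ∑ _n ∈ S, B := by
          refine Finset.sum_le_sum fun n hn => ?_
          exact hbad n hn _ (Finset.filter_subset _ _) (fun v hv => (Finset.mem_filter.1 hv).2)
      _ = B * S.card := by simp [mul_comm]
  -- pick the best place
  obtain ⟨v, hv, hmin⟩ := Finset.exists_min_image V (fun v => (S.filter (fun n => bad n v)).card) hV
  refine ⟨v, hv, S.filter (fun n => ¬ bad n v), Finset.filter_subset _ _, ?_,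
    fun n hn => (Finset.mem_filter.1 hn).2⟩
  have h3 : V.card * (S.filter (fun n => bad n v)).card ≤ B * S.card := by
    calc V.card * (S.filter (fun n => bad n v)).card
        = ∑ _v' ∈ V, (S.filter (fun n => bad n v)).card := by simp
      _ ≤ ∑ v' ∈ V, (S.filter (fun n => bad n v')).card :=
          Finset.sum_le_sum fun v' hv' => hmin v' hv'
      _ ≤ _ := hcount
  have hc : 0 < V.card := hV.card_pos
  have h4 : 2 * (S.filter (fun n => bad n v)).card ≤ S.card := by
    have h5 : V.card * (2 * (S.filter (fun n => bad n v)).card) ≤ V.card * S.card := by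
      calc V.card * (2 * (S.filter (fun n => bad n v)).card)
          = 2 * (V.card * (S.filter (fun n => bad n v)).card) := by ring
        _ ≤ 2 * (B * S.card) := by omega
        _ = 2 * B * S.card := by ring
        _ ≤ V.card * S.card := Nat.mul_le_mul_right _ h2B
    exact Nat.le_of_mul_le_mul_left h5 hc
  have h6 := Finset.card_filter_add_card_filter_not (s := S) (fun n => bad n v)
  omega

end Pool.Agent.Work.MP_91e6de_nt.DM

end

section

set_option autoImplicit false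

/-!
# Item Bad: few places where a given number is not a unit
-/

namespace Pool.Agent.Work.MP_91e6de_nt.DM

open MvPolynomial NumberField IsDedekindDomain Height Real

theorem Bad_zpow (K : Type) [Field K] [NumberField K] (v : HeightOneSpectrum (𝓞 K)) (a : K)
    (ha : a ≠ 0) : ∃ n : ℤ, va v a = (nv v : ℝ) ^ n := by
  have h0 : v.valuation K a ≠ 0 := (v.valuation K).ne_zero_iff.2 ha
  refine ⟨Multiplicative.toAdd (WithZero.unzero h0), ?_⟩
  change NumberField.HeightOneSpectrum.adicAbv K v a = _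
  rw [NumberField.HeightOneSpectrum.adicAbv_def, WithZeroMulInt.toNNReal_neg_apply _ h0]
  push_cast
  rfl

theorem Bad_log (K : Type) [Field K] [NumberField K] (v : HeightOneSpectrum (𝓞 K)) (a : K)
    (ha : a ≠ 0) (h1 : va v a ≠ 1) : Real.log 2 ≤ log⁺ (va v a) + log⁺ (va v a⁻¹) := by
  obtain ⟨n, hn⟩ := Bad_zpow K v a ha
  have hnv : (2 : ℝ) ≤ nv v := by
    have : 1 < nv v := NumberField.HeightOneSpectrum.one_lt_absNorm v
    exact_mod_cast this
  have hlog : Real.log 2 ≤ Real.log (nv v) := Real.log_le_log (by norm_num) hnv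
  have hlog0 : 0 ≤ Real.log (nv v) := (Real.log_nonneg (by norm_num)).trans hlog
  have hn0 : n ≠ 0 := by
    rintro rfl
    rw [zpow_zero] at hn
    exact h1 hn
  have hinv : va v a⁻¹ = (va v a)⁻¹ := map_inv₀ _ _
  rw [hinv, hn]
  have e1 : Real.log ((nv v : ℝ) ^ n) = n * Real.log (nv v) := Real.log_zpow _ _
  have e2 : Real.log (((nv v : ℝ) ^ n)⁻¹) = -(n * Real.log (nv v)) := by
    rw [Real.log_inv, e1]
  have p1 : Real.log ((nv v : ℝ) ^ n) ≤ log⁺ ((nv v : ℝ) ^ n) := le_max_right _ _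
  have p2 : Real.log (((nv v : ℝ) ^ n)⁻¹) ≤ log⁺ (((nv v : ℝ) ^ n)⁻¹) := le_max_right _ _
  have q1 : 0 ≤ log⁺ ((nv v : ℝ) ^ n) := le_max_left _ _
  have q2 : 0 ≤ log⁺ (((nv v : ℝ) ^ n)⁻¹) := le_max_left _ _
  rw [e1] at p1
  rw [e2] at p2
  rcases lt_or_gt_of_ne hn0 with h | h
  · have h' : (n : ℝ) ≤ -1 := by exact_mod_cast (show n ≤ -1 by omega)
    nlinarith
  · have h' : (1 : ℝ) ≤ n := by exact_mod_cast (show 1 ≤ n by omega)
    nlinarith

theorem Bad_sum (K : Type) [Field K] [NumberField K] (V : Finset (HeightOneSpectrum (𝓞 K)))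
    (a : K) (ha : a ≠ 0) : ∑ v ∈ V, log⁺ (va v a) ≤ logHeight₁ a := by
  classical
  have hfin : (Function.support fun v : FinitePlace K => log⁺ (v a)).Finite := by
    refine (FinitePlace.hasFiniteMulSupport ha).subset fun v hv => ?_
    rw [Function.mem_support] at hv
    rw [Function.mem_mulSupport]
    intro h1
    apply hv
    rw [h1]
    simp
  have h1 : ∑ v ∈ V, log⁺ (va v a) = ∑ w ∈ V.image FinitePlace.mk, log⁺ (w a) := by
    rw [Finset.sum_image fun x _ y _ h => FinitePlace.mk_eq_iff.1 h]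
    refine Finset.sum_congr rfl fun v _ => ?_
    rw [FinitePlace.mk_apply, FinitePlace.norm_embedding]
  have h2 : ∑ w ∈ V.image FinitePlace.mk, log⁺ (w a) ≤ ∑ᶠ w : FinitePlace K, log⁺ (w a) := by
    rw [finsum_eq_sum_of_support_subset (s := hfin.toFinset ∪ V.image FinitePlace.mk) _
      (by intro v hv; simp only [Finset.coe_union, Set.mem_union]; left; simpa using hv)]
    exact Finset.sum_le_sum_of_subset_of_nonneg Finset.subset_union_right
      fun w _ _ => Real.posLog_nonneg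
  rw [NumberField.logHeight₁_eq, h1]
  refine h2.trans (le_add_of_nonneg_left ?_)
  exact Finset.sum_nonneg fun v _ => mul_nonneg (Nat.cast_nonneg _) Real.posLog_nonneg

theorem pr_Bad : S_Bad := by
  intro K _ _ V a ha hV
  have h1 := Bad_sum K V a ha
  have h2 := Bad_sum K V a⁻¹ (inv_ne_zero ha)
  rw [logHeight₁_inv] at h2
  have h3 : ∑ v ∈ V, Real.log 2 ≤ ∑ v ∈ V, (log⁺ (va v a) + log⁺ (va v a⁻¹)) :=
    Finset.sum_le_sum fun v hv => Bad_log K v a ha (hV v hv)
  rw [Finset.sum_add_distrib, Finset.sum_const, nsmul_eq_mul] at h3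
  linarith

end Pool.Agent.Work.MP_91e6de_nt.DM

end

section

set_option autoImplicit false

/-!
# MP_91e6de, item Chn: the chain of curves is cyclic
-/

namespace Pool.Agent.Work.MP_91e6de_nt.DM

open MvPolynomial

theorem Chn_pull_eval (hHs : S_HsEv) {K : Type} [Field K]
    (p : Fin 3 → MvPolynomial (Fin 2) K) (M : ℕ) (P : ℕ → Fin 2 → K) (hO : IsOrb p M P)
    (H : MvPolynomial (Fin 2) K) (n : ℕ) (hn : n < M) :
    aeval (P n) (pull p H) =
      aeval (P n) (p 2) ^ H.totalDegree * aeval (P (n + 1)) H := by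
  obtain ⟨hw, hc⟩ := hO n hn
  obtain ⟨h1, h2, -⟩ := hHs K K H.totalDegree H le_rfl
  unfold pull
  rw [h2, h1 _ _ _ hw]
  congr 2
  have h0 := hc 0
  have h1' := hc 1
  have e0 : aeval (P n) (p 0) / aeval (P n) (p 2) = P (n + 1) 0 := by
    rw [div_eq_iff hw, mul_comm]
    exact h0.symm
  have e1 : aeval (P n) (p 1) / aeval (P n) (p 2) = P (n + 1) 1 := by
    rw [div_eq_iff hw, mul_comm]
    exact h1'.symm
  rw [e0, e1]
  congr 1
  ext i
  fin_cases i <;> rfl

theorem Chn_irr_deg {K : Type} [Field K] (G : MvPolynomial (Fin 2) K) (hG : Irreducible G) :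
    1 ≤ G.totalDegree := by
  by_contra h
  have h0 : G.totalDegree = 0 := by omega
  rw [MvPolynomial.totalDegree_eq_zero_iff_eq_C] at h0
  have hne : coeff 0 G ≠ 0 := by
    intro hc
    rw [hc, map_zero] at h0
    exact hG.ne_zero h0
  apply hG.not_isUnit
  rw [h0]
  exact (isUnit_iff_ne_zero.mpr hne).map C

theorem Chn_step (hHs : S_HsEv) (hBez : S_Bez) {K : Type} [Field K]
    (p : Fin 3 → MvPolynomial (Fin 2) K) (e N t L : ℕ) (P : ℕ → Fin 2 → K)
    (hp : ∀ i, (p i).totalDegree ≤ e) (hO : IsOrb p (2 * N) P)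
    (hInj : Set.InjOn P (Set.Iic (2 * N))) (hC : Cov P N t L)
    (hN : 4 * L ^ 2 * t ^ 2 * e < N) (S0 : Finset ℕ) (hS0 : ∀ n ∈ S0, n ≤ N)
    (hcard : N + 1 ≤ S0.card * L) (i : ℕ) (hi : i < N) (E : MvPolynomial (Fin 2) K)
    (hE : Irreducible E) (hEd : E.totalDegree ≤ t)
    (hE0 : ∀ n ∈ S0, aeval (P (n + i)) E = 0) :
    ∃ E' : MvPolynomial (Fin 2) K, (Irreducible E' ∧ E'.totalDegree ≤ t ∧
      ∀ n ∈ S0, aeval (P (n + (i + 1))) E' = 0) ∧ E ∣ pull p E' := by
  classical
  have hinjadd : Function.Injective (fun n : ℕ => n + (i + 1)) := fun a b h => by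
    simpa using h
  have hne : S0.Nonempty := by
    rw [← Finset.card_pos]
    by_contra h
    have : S0.card = 0 := by omega
    rw [this] at hcard
    omega
  obtain ⟨E', S2, hirr, hdeg, hsub, hcard2, hz⟩ := hC (S0.image (fun n => n + (i + 1)))
    (hne.image _) (by
      intro n hn
      obtain ⟨m, hm, rfl⟩ := Finset.mem_image.mp hn
      have := hS0 m hm
      omega)
  rw [Finset.card_image_of_injective _ hinjadd] at hcard2
  have hdvd : E ∣ pull p E' := by
    by_contra hnd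
    set Z : Finset (Fin 2 → K) := S2.image (fun n => P (n - 1)) with hZ
    have hZc : Z.card = S2.card := by
      rw [hZ]
      apply Finset.card_image_of_injOn
      intro a ha b hb hab
      obtain ⟨m, hm, rfl⟩ := Finset.mem_image.mp (hsub ha)
      obtain ⟨m', hm', rfl⟩ := Finset.mem_image.mp (hsub hb)
      have h1 := hS0 m hm
      have h2 := hS0 m' hm'
      have h3 : m + (i + 1) - 1 = m' + (i + 1) - 1 := by
        apply hInj _ _ hab
        · simp only [Set.mem_Iic]; omega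
        · simp only [Set.mem_Iic]; omega
      omega
    have hb := hBez K E (pull p E') hE hnd Z (by
      intro Q hQ
      rw [hZ] at hQ
      obtain ⟨a, ha, rfl⟩ := Finset.mem_image.mp hQ
      obtain ⟨m, hm, rfl⟩ := Finset.mem_image.mp (hsub ha)
      have h1 := hS0 m hm
      have e1 : m + (i + 1) - 1 = m + i := by omega
      rw [e1]
      refine ⟨hE0 m hm, ?_⟩
      rw [Chn_pull_eval hHs p (2 * N) P hO E' (m + i) (by omega)]
      have := hz _ ha
      rw [show m + i + 1 = m + (i + 1) by ring, this, mul_zero])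
    have hpd : (pull p E').totalDegree ≤ t * e := by
      obtain ⟨-, -, h3⟩ := hHs K K E'.totalDegree E' le_rfl
      refine (h3 (p 0) (p 1) (p 2) e (hp 0) (hp 1) (hp 2)).trans ?_
      exact Nat.mul_le_mul_right _ hdeg
    have hb2 : S2.card ≤ t * (t * e) := by
      rw [← hZc]
      exact hb.trans (Nat.mul_le_mul hEd hpd)
    have h4 : N + 1 ≤ t * (t * e) * L * L := by
      calc N + 1 ≤ S0.card * L := hcard
        _ ≤ (S2.card * L) * L := Nat.mul_le_mul_right _ hcard2
        _ ≤ _ := by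
          apply Nat.mul_le_mul_right
          exact Nat.mul_le_mul_right _ hb2
    have h5 : t * (t * e) * L * L ≤ 4 * L ^ 2 * t ^ 2 * e := by
      have : 4 * L ^ 2 * t ^ 2 * e = 4 * (t * (t * e) * L * L) := by ring
      rw [this]
      omega
    omega
  refine ⟨E', ⟨hirr, hdeg, ?_⟩, hdvd⟩
  intro n hn
  have h1 := hS0 n hn
  obtain ⟨B, hB⟩ := hdvd
  have h2 := Chn_pull_eval hHs p (2 * N) P hO E' (n + i) (by omega)
  rw [hB, map_mul, hE0 n hn, zero_mul] at h2
  have hw := (hO (n + i) (by omega)).1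
  have h3 := (mul_eq_zero.mp h2.symm).resolve_left (pow_ne_zero _ hw)
  rwa [show n + i + 1 = n + (i + 1) by ring] at h3

theorem pr_Chn (hHs : S_HsEv) (hBez : S_Bez) (hGap : S_Gap) : S_Chn := by
  classical
  intro K _ p e N t L P he hN1 hp hO hInj hC hN
  obtain ⟨G0, S0, hirr, hdeg, hsub, hcard, hz⟩ := hC (Finset.range (N + 1))
    ⟨0, by simp⟩ (by
      intro n hn
      rw [Finset.mem_range] at hn
      omega)
  rw [Finset.card_range] at hcard
  have hS0 : ∀ n ∈ S0, n ≤ N := by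
    intro n hn
    have := Finset.mem_range.mp (hsub hn)
    omega
  have hne : S0.Nonempty := by
    rw [← Finset.card_pos]
    by_contra h
    have : S0.card = 0 := by omega
    rw [this] at hcard
    omega
  -- the chain
  have hchain : ∀ m, m ≤ N → ∃ G : ℕ → MvPolynomial (Fin 2) K, G 0 = G0 ∧
      (∀ i ≤ m, Irreducible (G i) ∧ (G i).totalDegree ≤ t ∧
        ∀ n ∈ S0, aeval (P (n + i)) (G i) = 0) ∧ ∀ i < m, G i ∣ pull p (G (i + 1)) := by
    intro m
    induction m with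
    | zero =>
      intro _
      refine ⟨fun _ => G0, rfl, ?_, ?_⟩
      · intro i hi
        have : i = 0 := by omega
        subst this
        exact ⟨hirr, hdeg, fun n hn => hz n hn⟩
      · intro i hi
        omega
    | succ m ih =>
      intro hm
      obtain ⟨G, hG0, hGi, hGd⟩ := ih (by omega)
      obtain ⟨hirrm, hdegm, hzm⟩ := hGi m le_rfl
      obtain ⟨E', hE', hdvd⟩ := Chn_step hHs hBez p e N t L P hp hO hInj hC hN S0 hS0 hcard m
        (by omega) (G m) hirrm hdegm hzm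
      refine ⟨Function.update G (m + 1) E', ?_, ?_, ?_⟩
      · rw [Function.update_of_ne (by omega)]
        exact hG0
      · intro i hi
        by_cases h : i = m + 1
        · subst h
          rw [Function.update_self]
          exact hE'
        · rw [Function.update_of_ne h]
          exact hGi i (by omega)
      · intro i hi
        by_cases h : i = m
        · subst h
          rw [Function.update_self, Function.update_of_ne (by omega)]
          exact hdvd
        · rw [Function.update_of_ne (by omega), Function.update_of_ne (by omega)]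
          exact hGd i (by omega)
  obtain ⟨G, hG0, hGi, hGd⟩ := hchain N le_rfl
  obtain ⟨g, hg1, hgN, hgc⟩ := hGap N S0 hN1 hS0
  have ht : 1 ≤ t := (Chn_irr_deg G0 hirr).trans hdeg
  set c := S0.card with hc
  set s := (S0.filter (fun n => n + g ∈ S0)).card with hs
  have hL : 1 ≤ L := by
    rcases Nat.eq_zero_or_pos L with h | h
    · rw [h] at hcard
      omega
    · exact h
  -- the number of common zeros
  have hbig : t * t < s := by
    by_contra hcon
    push Not at hcon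
    have hq : (4 * L ^ 2 * t ^ 2 * e : ℝ) < N := by exact_mod_cast hN
    have hcr : (N + 1 : ℝ) ≤ c * L := by exact_mod_cast hcard
    have hLr : (1 : ℝ) ≤ L := by exact_mod_cast hL
    have htr : (1 : ℝ) ≤ t := by exact_mod_cast ht
    have her : (1 : ℝ) ≤ e := by exact_mod_cast he
    have hsr : (s : ℝ) ≤ t * t := by exact_mod_cast hcon
    have hNr : (1 : ℝ) ≤ N := by exact_mod_cast hN1
    have hcge : 1 ≤ c := Finset.card_pos.mpr hne
    have hgr : (c : ℝ) * (c - 1) ≤ 2 * N * s := by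
      have : ((c * (c - 1) : ℕ) : ℝ) ≤ ((2 * N * s : ℕ) : ℝ) := by exact_mod_cast hgc
      rw [Nat.cast_mul, Nat.cast_sub hcge] at this
      push_cast at this
      exact this
    -- c L > N > 4 L^2 t^2 e
    have h1 : (4 * L * t ^ 2 : ℝ) ≤ c := by
      have h2 : (4 * L ^ 2 * t ^ 2 : ℝ) ≤ 4 * L ^ 2 * t ^ 2 * e := by
        have : (0 : ℝ) ≤ 4 * L ^ 2 * t ^ 2 := by positivity
        nlinarith
      have h3 : (4 * L * t ^ 2 : ℝ) * L ≤ c * L := by nlinarith
      exact le_of_mul_le_mul_right h3 (by linarith)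
    have h4 : (4 : ℝ) ≤ c := by
      have h5 : (1 : ℝ) ≤ L * t ^ 2 := by
        have : (1 : ℝ) ≤ t ^ 2 := one_le_pow₀ htr
        nlinarith
      linarith
    have h6 : (3 / 4 * c ^ 2 : ℝ) ≤ 2 * N * (t * t) := by
      have h7 : (c : ℝ) * (c - 1) ≥ 3 / 4 * c ^ 2 := by nlinarith
      have h8 : (2 * N * s : ℝ) ≤ 2 * N * (t * t) := by
        apply mul_le_mul_of_nonneg_left hsr
        positivity
      linarith
    -- multiply by L^2
    have h9 : (3 / 4 * (c * L) ^ 2 : ℝ) ≤ 2 * N * (t * t) * L ^ 2 := by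
      have : (0 : ℝ) ≤ (L : ℝ) ^ 2 := by positivity
      calc (3 / 4 * (c * L) ^ 2 : ℝ) = (3 / 4 * c ^ 2) * L ^ 2 := by ring
        _ ≤ _ := mul_le_mul_of_nonneg_right h6 this
    have h10 : (N : ℝ) ^ 2 ≤ (c * L) ^ 2 := by
      apply pow_le_pow_left₀ (by linarith)
      linarith
    have h11 : (t * t * L ^ 2 : ℝ) * 4 ≤ 4 * L ^ 2 * t ^ 2 * e := by
      have : (0 : ℝ) ≤ 4 * L ^ 2 * t ^ 2 := by positivity
      nlinarith
    nlinarith
  obtain ⟨n0, hn0⟩ := hne
  refine ⟨n0, g, G, hS0 n0 hn0, hg1, hgN, fun i hi => (hGi i (by omega)).1,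
    fun i hi => hGd i (by omega), ?_, ?_⟩
  · by_contra hnd
    obtain ⟨hirrg, hdegg, hzg⟩ := hGi g hgN
    obtain ⟨-, hdeg0, hz0⟩ := hGi 0 (Nat.zero_le _)
    set Z : Finset (Fin 2 → K) := (S0.filter (fun n => n + g ∈ S0)).image (fun n => P (n + g))
      with hZ
    have hZc : Z.card = s := by
      rw [hZ, hs]
      apply Finset.card_image_of_injOn
      intro a ha b hb hab
      have ha' := hS0 a (Finset.mem_filter.mp ha).1
      have hb' := hS0 b (Finset.mem_filter.mp hb).1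
      have h3 : a + g = b + g := by
        apply hInj _ _ hab
        · simp only [Set.mem_Iic]; omega
        · simp only [Set.mem_Iic]; omega
      omega
    have hb := hBez K (G g) (G 0) hirrg hnd Z (by
      intro Q hQ
      rw [hZ] at hQ
      obtain ⟨a, ha, rfl⟩ := Finset.mem_image.mp hQ
      obtain ⟨ha1, ha2⟩ := Finset.mem_filter.mp ha
      exact ⟨hzg a ha1, hz0 _ ha2⟩)
    rw [hZc] at hb
    have := Nat.mul_le_mul hdegg hdeg0
    omega
  · exact (hGi 0 (Nat.zero_le _)).2.2 n0 hn0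

end Pool.Agent.Work.MP_91e6de_nt.DM

end

section

set_option autoImplicit false

/-!
# Item Cls: residue classes (helper27)
-/

namespace Pool.Agent.Work.MP_91e6de_nt.DM

open MvPolynomial NumberField IsDedekindDomain Height

theorem Cls_le_one {K : Type} [Field K] [NumberField K] (v : HeightOneSpectrum (𝓞 K)) {x : K}
    (h : va v x ≤ 1) : v.valuation K x ≤ 1 := by
  rw [va, NumberField.HeightOneSpectrum.adicAbv_def] at h
  by_contra hc
  rw [not_le] at hc
  have h1 := WithZeroMulInt.toNNReal_strictMono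
    (NumberField.HeightOneSpectrum.one_lt_absNorm_nnreal v) hc
  rw [map_one] at h1
  have h2 : (1 : ℝ) < (WithZeroMulInt.toNNReal (NumberField.HeightOneSpectrum.absNorm_ne_zero v)
    (v.valuation K x) : NNReal) := by exact_mod_cast h1
  exact absurd h (not_le.2 h2)

theorem Cls_lt_one {K : Type} [Field K] [NumberField K] (v : HeightOneSpectrum (𝓞 K)) {x : K}
    (h : v.valuation K x < 1) : va v x < 1 := by
  rw [va, NumberField.HeightOneSpectrum.adicAbv_def]
  have h1 := WithZeroMulInt.toNNReal_strictMono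
    (NumberField.HeightOneSpectrum.one_lt_absNorm_nnreal v) h
  rw [map_one] at h1
  exact_mod_cast h1

theorem Cls_approx {K : Type} [Field K] [NumberField K] (v : HeightOneSpectrum (𝓞 K)) {x : K}
    (h : va v x ≤ 1) : ∃ a : 𝓞 K, va v (x - algebraMap (𝓞 K) K a) < 1 := by
  obtain ⟨a, ha⟩ := HeightOneSpectrum.exists_valuation_sub_lt_of_integer v (Cls_le_one v h) 1
  refine ⟨a, ?_⟩
  rw [AbsoluteValue.map_sub]
  exact Cls_lt_one v (by simpa using ha)

theorem pr_Cls : S_Cls := by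
  classical
  intro K _ _ v S P hP
  have hq : Finite (𝓞 K ⧸ v.asIdeal) := v.asIdeal.finiteQuotientOfFreeOfNeBot v.ne_bot
  let _ : Fintype (𝓞 K ⧸ v.asIdeal) := Fintype.ofFinite _
  have hr : ∀ n i, ∃ a : 𝓞 K, n ∈ S → va v (P n i - algebraMap (𝓞 K) K a) < 1 := by
    intro n i
    by_cases hn : n ∈ S
    · obtain ⟨a, ha⟩ := Cls_approx v (hP n hn i)
      exact ⟨a, fun _ => ha⟩
    · exact ⟨0, fun h => absurd h hn⟩
  choose r hr using hr
  let c : ℕ → (Fin 2 → 𝓞 K ⧸ v.asIdeal) := fun n i => Ideal.Quotient.mk v.asIdeal (r n i)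
  have hcard : Fintype.card (Fin 2 → 𝓞 K ⧸ v.asIdeal) = nv v ^ 2 := by
    rw [Fintype.card_fun, Fintype.card_fin, ← Nat.card_eq_fintype_card]
    rfl
  have hpos : 0 < nv v := by
    have := NumberField.HeightOneSpectrum.one_lt_absNorm v
    exact lt_trans one_pos this
  obtain ⟨y, _, hy⟩ := Finset.exists_le_card_fiber_of_nsmul_le_card_of_maps_to
    (s := S) (t := (Finset.univ : Finset (Fin 2 → 𝓞 K ⧸ v.asIdeal))) (f := c)
    (b := (S.card : ℚ) / ((nv v ^ 2 : ℕ) : ℚ)) (fun _ _ => Finset.mem_univ _)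
    ⟨0, Finset.mem_univ _⟩ (by
      rw [Finset.card_univ, hcard, nsmul_eq_mul]
      rw [mul_div_cancel₀]
      exact_mod_cast (pow_pos hpos 2).ne')
  have ha : ∀ i, ∃ a : 𝓞 K, Ideal.Quotient.mk v.asIdeal a = y i :=
    fun i => Ideal.Quotient.mk_surjective (y i)
  choose a ha using ha
  refine ⟨a, S.filter (fun n => c n = y), Finset.filter_subset _ _, ?_, ?_⟩
  · rw [div_le_iff₀ (by exact_mod_cast pow_pos hpos 2)] at hy
    exact_mod_cast hy
  · intro n hn i
    rw [Finset.mem_filter] at hn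
    have h1 : r n i - a i ∈ v.asIdeal := by
      rw [← Ideal.Quotient.eq, ha i, ← hn.2]
    have h2 : va v (algebraMap (𝓞 K) K (r n i - a i)) < 1 :=
      (v.adicAbv_coe_lt_one_iff (K := K)
        (NumberField.HeightOneSpectrum.one_lt_absNorm_nnreal v) _).2 h1
    have h3 : P n i - algebraMap (𝓞 K) K (a i) =
        (P n i - algebraMap (𝓞 K) K (r n i)) + algebraMap (𝓞 K) K (r n i - a i) := by
      rw [map_sub]; ring
    rw [h3]
    exact lt_of_le_of_lt (NumberField.HeightOneSpectrum.adicAbv_add_le_max K v _ _)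
      (max_lt (hr n i hn.1) h2)

end Pool.Agent.Work.MP_91e6de_nt.DM

end

section

set_option autoImplicit false

/-!
# Item Cov: covering
-/

namespace Pool.Agent.Work.MP_91e6de_nt.DM

open MvPolynomial NumberField IsDedekindDomain Height

theorem Cov_bad (hBad : S_Bad) (K : Type) [Field K] [NumberField K]
    (p : Fin 3 → MvPolynomial (Fin 2) (𝓞 K)) (M k m n : ℕ) (P : ℕ → Fin 2 → K)
    (h : ℝ) (hOrb : IsOrb p M P) (hn : n + k ≤ M)
    (hH : ∀ n ≤ M, ∀ i, logHeight₁ (P n i) ≤ h)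
    (hH2 : ∀ n < M, logHeight₁ (aeval (P n) (p 2)) ≤ h) (h12 : 12 * h ≤ m)
    (V' : Finset (HeightOneSpectrum (𝓞 K)))
    (hV : ∀ v ∈ V', (∃ i, 1 < va v (P n i)) ∨ ∃ l < k, va v (aeval (P (n + l)) (p 2)) ≠ 1) :
    V'.card ≤ (k + 2) * m / 2 := by
  classical
  have h0 : 0 ≤ h := (zero_le_logHeight₁ (P n 0)).trans (hH n (by omega) 0)
  have hlog : (0.6931 : ℝ) < Real.log 2 := by
    have := Real.log_two_gt_d9
    linarith
  let W : Fin 2 ⊕ Fin k → Finset (HeightOneSpectrum (𝓞 K)) := fun f =>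
    Sum.elim (fun i => V'.filter fun v => 1 < va v (P n i))
      (fun l => V'.filter fun v => va v (aeval (P (n + (l : ℕ))) (p 2)) ≠ 1) f
  have hW : ∀ f, ((W f).card : ℝ) * Real.log 2 ≤ 2 * h := by
    intro f
    rcases f with i | l
    · by_cases hz : P n i = 0
      · have h1 : W (Sum.inl i) = ∅ := by
          show V'.filter (fun v => 1 < va v (P n i)) = ∅
          rw [Finset.filter_eq_empty_iff]
          intro v _
          rw [hz, map_zero]
          norm_num
        rw [h1, Finset.card_empty]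
        simpa using h0
      · have h1 := hBad K (W (Sum.inl i)) (P n i) hz (fun v hv => by
          have h2 : 1 < va v (P n i) := (Finset.mem_filter.1 hv).2
          exact h2.ne')
        have h2 := hH n (by omega) i
        linarith
    · have hne : aeval (P (n + (l : ℕ))) (p 2) ≠ 0 := (hOrb (n + l) (by omega)).1
      have h1 := hBad K (W (Sum.inr l)) _ hne (fun v hv => (Finset.mem_filter.1 hv).2)
      have h2 := hH2 (n + l) (by omega)
      linarith
  have hsub : V' ⊆ Finset.univ.biUnion W := by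
    intro v hv
    rw [Finset.mem_biUnion]
    rcases hV v hv with ⟨i, hi⟩ | ⟨l, hl, hl'⟩
    · exact ⟨Sum.inl i, Finset.mem_univ _, Finset.mem_filter.2 ⟨hv, hi⟩⟩
    · exact ⟨Sum.inr ⟨l, hl⟩, Finset.mem_univ _, Finset.mem_filter.2 ⟨hv, hl'⟩⟩
  have hcard : V'.card ≤ ∑ f, (W f).card :=
    (Finset.card_le_card hsub).trans Finset.card_biUnion_le
  have h1 : (V'.card : ℝ) * Real.log 2 ≤ (k + 2) * (2 * h) := by
    have h2 : (V'.card : ℝ) ≤ ∑ f, ((W f).card : ℝ) := by exact_mod_cast hcard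
    have h3 : (V'.card : ℝ) * Real.log 2 ≤ ∑ f, ((W f).card : ℝ) * Real.log 2 := by
      rw [← Finset.sum_mul]
      exact mul_le_mul_of_nonneg_right h2 (by linarith)
    refine h3.trans ((Finset.sum_le_card_nsmul _ _ _ fun f _ => hW f).trans (le_of_eq ?_))
    rw [Finset.card_univ, Fintype.card_sum, Fintype.card_fin, Fintype.card_fin, nsmul_eq_mul]
    push_cast
    ring
  rw [Nat.le_div_iff_mul_le (by norm_num)]
  have h2 : (V'.card : ℝ) * 2 ≤ (k + 2) * m := by
    have h3 : (0 : ℝ) ≤ (k : ℝ) + 2 := by positivity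
    have h4 : ((k : ℝ) + 2) * (2 * h) ≤ (k + 2) * (m / 6) := by
      apply mul_le_mul_of_nonneg_left _ h3
      linarith
    have h5 : (V'.card : ℝ) * 0.6931 ≤ (V'.card : ℝ) * Real.log 2 :=
      mul_le_mul_of_nonneg_left hlog.le (by positivity)
    have h6 : (0 : ℝ) ≤ (k + 2) * m := by positivity
    nlinarith
  exact_mod_cast h2

theorem pr_Cov (hBad : S_Bad) (hPlc : S_Plc) (hAvg : S_Avg) (hC : S_Cov1) (hFac : S_Fac) :
    S_Cov := by
  intro K _ _ p e M k m N P i j h he hm hdeg hOrb hM hRD hH hH2 h12 hbig S hS hSN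
  have hkm : 1 ≤ (k + 2) * m := Nat.mul_pos (by omega) hm
  obtain ⟨V, hVc, hV⟩ := hPlc K ((k + 2) * m) hkm
  have hVne : V.Nonempty := by
    rw [← Finset.card_pos, hVc]
    exact hkm
  obtain ⟨v, hv, S1, hS1, hc1, hgood⟩ := hAvg ℕ (HeightOneSpectrum (𝓞 K)) S V
    (fun n v => (∃ i, 1 < va v (P n i)) ∨ ∃ l < k, va v (aeval (P (n + l)) (p 2)) ≠ 1)
    ((k + 2) * m / 2) hVne
    (fun n hn V' _ hV' => Cov_bad hBad K p M k m n P h hOrb
      (by have := hSN n hn; omega) hH hH2 h12 V' hV')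
    (by rw [hVc]; omega)
  obtain ⟨E, S2, hE0, hEd, hS2, hc2, hz2⟩ := hC K p e M k m P i j h v S1 he hm hdeg hOrb hRD hH
    h12 hbig (fun n hn => by
      have h1 := hgood n hn
      push Not at h1
      have h2 := hSN n (hS1 hn)
      exact ⟨by omega, h1.1, h1.2⟩)
  have hS1ne : 0 < S1.card := by
    have := Finset.card_pos.2 hS
    omega
  have hS2ne : S2.Nonempty := by
    rw [← Finset.card_pos]
    by_contra h1
    have h2 : S2.card = 0 := by omega
    rw [h2, zero_mul] at hc2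
    omega
  obtain ⟨G, S3, hG, hGd, hS3, hc3, hz3⟩ := hFac K E _ S2 P hE0 hEd hS2ne hz2
  refine ⟨G, S3, hG, hGd, (hS3.trans hS2).trans hS1, ?_, hz3⟩
  have hQ := hV v hv
  calc S.card ≤ 2 * S1.card := hc1
    _ ≤ 2 * (S2.card * nv v ^ 2) := Nat.mul_le_mul_left _ hc2
    _ ≤ 2 * (S3.card * tt (Module.finrank ℚ K) e m k * nv v ^ 2) :=
        Nat.mul_le_mul_left _ (Nat.mul_le_mul_right _ hc3)
    _ ≤ 2 * (S3.card * tt (Module.finrank ℚ K) e m k *
        ((16 * ((k + 2) * m) ^ 2) ^ Module.finrank ℚ K) ^ 2) :=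
        Nat.mul_le_mul_left _ (Nat.mul_le_mul_left _ (Nat.pow_le_pow_left hQ 2))
    _ = S3.card * LL (Module.finrank ℚ K) e m k := by
        unfold LL
        ring

end Pool.Agent.Work.MP_91e6de_nt.DM

end

section

set_option autoImplicit false

namespace Pool.Agent.Work.MP_91e6de_nt.DM

open MvPolynomial NumberField IsDedekindDomain Height

theorem Cov1_num1 (q m s D T : ℕ) (hq : 2 ≤ q) (hs : D ^ 3 ≤ s) (hs0 : 1 ≤ s) (hT : T = D * m) :
    q ^ T ^ 3 < (q ^ m ^ 3 + 1) ^ s := by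
  calc q ^ T ^ 3 = q ^ (D ^ 3 * m ^ 3) := by rw [hT, mul_pow]
    _ ≤ q ^ (s * m ^ 3) := Nat.pow_le_pow_right (by omega) (Nat.mul_le_mul_right _ hs)
    _ = (q ^ m ^ 3) ^ s := by rw [mul_comm, pow_mul]
    _ < (q ^ m ^ 3 + 1) ^ s := Nat.pow_lt_pow_left (by omega) (by omega)

theorem Cov1_num2 (q m s D T kap : ℕ) (h : ℝ) (y : Fin 3 → ℝ) (hq : 2 ≤ q) (hm : 1 ≤ m)
    (hk : 1 ≤ kap) (hD : D = 4 * kap * m ^ 2) (hT : T = 4 * kap * m ^ 3) (hs : s < 2 ^ m ^ 3)
    (hy : ∀ i, 0 ≤ y i ∧ y i ≤ Real.exp h) (h12 : 12 * h ≤ m) :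
    ((q : ℝ)⁻¹) ^ T * (((s * q ^ m ^ 3 : ℕ) : ℝ) ^ kap * ∏ i, y i ^ D) < 1 := by
  have hq' : (2 : ℝ) ≤ q := by exact_mod_cast hq
  have hq0 : (0 : ℝ) < q := by linarith
  have h1 : ∏ i, y i ^ D ≤ (4 : ℝ) ^ (kap * m ^ 3) := by
    calc ∏ i, y i ^ D ≤ ∏ _i : Fin 3, (Real.exp h) ^ D :=
          Finset.prod_le_prod (fun i _ => pow_nonneg (hy i).1 _)
            (fun i _ => pow_le_pow_left₀ (hy i).1 (hy i).2 _)
      _ = Real.exp ((3 * D : ℕ) * h) := by
          rw [Finset.prod_const, Finset.card_univ, Fintype.card_fin, ← pow_mul, ← Real.exp_nat_mul]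
          congr 2
          push_cast; ring
      _ ≤ Real.exp ((kap * m ^ 3 : ℕ) * 1) := by
          apply Real.exp_le_exp.2
          rw [hD]
          push_cast
          have hkm : (0 : ℝ) ≤ kap * m ^ 2 := by positivity
          nlinarith [mul_le_mul_of_nonneg_left h12 hkm]
      _ = Real.exp 1 ^ (kap * m ^ 3) := by rw [← Real.exp_nat_mul]
      _ ≤ 4 ^ (kap * m ^ 3) := by
          apply pow_le_pow_left₀ (Real.exp_pos 1).le
          have := Real.exp_one_lt_d9
          linarith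
  have h2 : ((s * q ^ m ^ 3 : ℕ) : ℝ) ^ kap < ((q : ℝ) ^ (2 * m ^ 3)) ^ kap := by
    apply pow_lt_pow_left₀ _ (by positivity) (by omega)
    push_cast
    calc (s : ℝ) * q ^ m ^ 3 < q ^ m ^ 3 * q ^ m ^ 3 := by
          apply mul_lt_mul_of_pos_right _ (by positivity)
          calc (s : ℝ) < 2 ^ m ^ 3 := by exact_mod_cast hs
            _ ≤ q ^ m ^ 3 := pow_le_pow_left₀ (by norm_num) hq' _
      _ = (q : ℝ) ^ (2 * m ^ 3) := by rw [two_mul, pow_add]
  have h3 : (4 : ℝ) ^ (kap * m ^ 3) ≤ (q : ℝ) ^ (2 * (kap * m ^ 3)) := by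
    rw [pow_mul (q : ℝ) 2]
    apply pow_le_pow_left₀ (by norm_num)
    nlinarith
  have h4 : ((s * q ^ m ^ 3 : ℕ) : ℝ) ^ kap * ∏ i, y i ^ D < (q : ℝ) ^ T := by
    calc ((s * q ^ m ^ 3 : ℕ) : ℝ) ^ kap * ∏ i, y i ^ D
        ≤ ((s * q ^ m ^ 3 : ℕ) : ℝ) ^ kap * (4 : ℝ) ^ (kap * m ^ 3) :=
          mul_le_mul_of_nonneg_left h1 (by positivity)
      _ < ((q : ℝ) ^ (2 * m ^ 3)) ^ kap * (4 : ℝ) ^ (kap * m ^ 3) :=
          mul_lt_mul_of_pos_right h2 (by positivity)
      _ ≤ ((q : ℝ) ^ (2 * m ^ 3)) ^ kap * (q : ℝ) ^ (2 * (kap * m ^ 3)) :=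
          mul_le_mul_of_nonneg_left h3 (by positivity)
      _ = (q : ℝ) ^ T := by
          rw [hT, ← pow_mul, ← pow_add]
          congr 1
          ring
  have h5 : (0 : ℝ) < (q : ℝ) ^ T := by positivity
  calc ((q : ℝ)⁻¹) ^ T * (((s * q ^ m ^ 3 : ℕ) : ℝ) ^ kap * ∏ i, y i ^ D)
      < ((q : ℝ)⁻¹) ^ T * (q : ℝ) ^ T := by
        apply mul_lt_mul_of_pos_left h4
        positivity
    _ = 1 := by rw [← mul_pow, inv_mul_cancel₀ hq0.ne', one_pow]

theorem Cov1_height {K : Type} [Field K] [NumberField K] (x : K) (h : ℝ)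
    (hx : logHeight₁ x ≤ h) : 0 ≤ mulHeight₁ x ∧ mulHeight₁ x ≤ Real.exp h := by
  have h1 : 0 < mulHeight₁ x := by positivity
  refine ⟨h1.le, ?_⟩
  rw [logHeight₁] at hx
  exact (Real.log_le_iff_le_exp h1).1 hx

/-- exponent vector -/
noncomputable def Cov1_ex (j : Fin 2) (a b : ℕ) : Fin 2 →₀ ℕ :=
  Finsupp.single (1 - j) a + Finsupp.single j b

theorem Cov1_ne (j : Fin 2) : 1 - j ≠ j := by fin_cases j <;> decide

theorem Cov1_ex_j (j : Fin 2) (a b : ℕ) : Cov1_ex j a b j = b := by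
  simp [Cov1_ex, Cov1_ne j]

theorem Cov1_ex_j' (j : Fin 2) (a b : ℕ) : Cov1_ex j a b (1 - j) = a := by
  simp [Cov1_ex, (Cov1_ne j).symm]

theorem Cov1_mono {A : Type} [CommRing A] (j : Fin 2) (a b : ℕ) (r : A) :
    (C r * (X (1 - j) ^ a * X j ^ b) : MvPolynomial (Fin 2) A) = monomial (Cov1_ex j a b) r := by
  rw [Cov1_ex, X_pow_eq_monomial, X_pow_eq_monomial, monomial_mul, C_mul_monomial]
  simp

theorem Cov1_coeff {K : Type} [Field K] (D : ℕ) (j : Fin 2) (c : Fin (D + 1) × Fin D → K)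
    (μ : Fin 2 →₀ ℕ) :
    coeff μ (∑ z, (C (c z) * (X (1 - j) ^ (z.1 : ℕ) * X j ^ (z.2 : ℕ)) :
      MvPolynomial (Fin 2) K)) = ∑ z, if Cov1_ex j z.1 z.2 = μ then c z else 0 := by
  classical
  rw [coeff_sum]
  refine Finset.sum_congr rfl fun z _ => ?_
  rw [Cov1_mono, coeff_monomial]

theorem Cov1_zero {K : Type} [Field K] (D : ℕ) (j : Fin 2) (c : Fin (D + 1) × Fin D → K)
    (h : (∑ z, (C (c z) * (X (1 - j) ^ (z.1 : ℕ) * X j ^ (z.2 : ℕ)) :
      MvPolynomial (Fin 2) K)) = 0) (z : Fin (D + 1) × Fin D) : c z = 0 := by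
  classical
  have h1 := Cov1_coeff D j c (Cov1_ex j z.1 z.2)
  rw [h, coeff_zero, Finset.sum_eq_single z] at h1
  · simpa using h1.symm
  · intro w _ hw
    rw [if_neg]
    intro he
    apply hw
    have e1 := congrArg (fun f => f j) he
    have e2 := congrArg (fun f => f (1 - j)) he
    simp only [Cov1_ex_j, Cov1_ex_j'] at e1 e2
    exact Prod.ext (Fin.ext e2) (Fin.ext e1)
  · intro hz; exact absurd (Finset.mem_univ _) hz

theorem Cov1_deg {K : Type} [Field K] (D : ℕ) (hD : 0 < D) (j : Fin 2)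
    (c : Fin (D + 1) × Fin D → K) :
    (∑ z, (C (c z) * (X (1 - j) ^ (z.1 : ℕ) * X j ^ (z.2 : ℕ)) :
      MvPolynomial (Fin 2) K)).degreeOf j < D := by
  classical
  rw [degreeOf_lt_iff hD]
  intro μ hμ
  rw [mem_support_iff, Cov1_coeff] at hμ
  obtain ⟨z, _, hz⟩ := Finset.exists_ne_zero_of_sum_ne_zero hμ
  have : Cov1_ex j z.1 z.2 = μ := by
    by_contra hne
    exact hz (if_neg hne)
  rw [← this, Cov1_ex_j]
  exact z.2.2

theorem Cov1_map {A B : Type} [CommRing A] [CommRing B] (f : A →+* B)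
    (q : MvPolynomial (Fin 2) A) : (map f q).totalDegree ≤ q.totalDegree := by
  rw [totalDegree, totalDegree]
  exact Finset.sup_mono (support_map_subset f q)

theorem pr_Cov1 (hPig : S_Pig) (hVan : S_Van) (hCls : S_Cls) (_hHs : S_HsEv) (hIte : S_Ite)
    (hDeg : S_Deg) (hInd : S_Ind) : S_Cov1 := by
  classical
  intro K _ _ p e M k m P i j h v S he hm hp hOrb hRD hht h12 hnum hS
  have hκ : 1 ≤ Module.finrank ℚ K := Module.finrank_pos
  obtain ⟨D, hD⟩ : ∃ D, D = 4 * Module.finrank ℚ K * m ^ 2 := ⟨_, rfl⟩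
  obtain ⟨T, hT⟩ : ∃ T, T = 4 * Module.finrank ℚ K * m ^ 3 := ⟨_, rfl⟩
  have hTD : T = D * m := by rw [hT, hD]; ring
  have hD0 : 0 < D := by rw [hD]; positivity
  rw [← hD] at hRD hnum
  have htt : tt (Module.finrank ℚ K) e m k = 2 * D + D * e ^ k := by rw [tt, ← hD]
  rw [htt]
  obtain ⟨a, S', hS'S, hcard, ha⟩ := hCls K v S P (fun n hn => (hS n hn).2.1)
  by_cases hemp : S' = ∅
  · refine ⟨1, ∅, one_ne_zero, by simp, by simp, ?_, by simp⟩
    simpa [hemp] using hcard
  obtain ⟨n0, hn0⟩ := Finset.nonempty_iff_ne_empty.2 hemp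
  have hq : 2 ≤ nv v := NumberField.HeightOneSpectrum.one_lt_absNorm v
  let E : ((Fin (D + 1) × Fin D) × Fin (D + 1)) → MvPolynomial (Fin 2) (𝓞 K) := fun z =>
    X (1 - j) ^ (z.1.1 : ℕ) * X j ^ (z.1.2 : ℕ) * itr e p k i.castSucc ^ (z.2 : ℕ) *
      itr e p k 2 ^ (D - z.2)
  have hcJ : Fintype.card ((Fin (D + 1) × Fin D) × Fin (D + 1)) = (D + 1) * D * (D + 1) := by
    simp
  obtain ⟨c, hc0, hcX, hcP⟩ := hPig K v a ((Fin (D + 1) × Fin D) × Fin (D + 1)) E T
    (nv v ^ m ^ 3) (Cov1_num1 (nv v) m _ D T hq (by rw [hcJ]; nlinarith [hD0])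
      (by rw [hcJ]; exact Nat.mul_pos (Nat.mul_pos (Nat.succ_pos _) hD0) (Nat.succ_pos _)) hTD)
  have key : ∀ n ∈ S', aeval (P n) (∑ z, c z • E z) = (0 : K) := by
    intro n hn
    obtain ⟨hnk, _, hgood⟩ := hS n (hS'S hn)
    obtain ⟨hW0, hUW, hWp⟩ := hIte (𝓞 K) K e p hp M P hOrb n k hnk
    have hvaW : va v (aeval (P n) (itr e p k 2)) = 1 := by
      rw [hWp, map_prod]
      refine Finset.prod_eq_one fun l hl => ?_
      rw [map_pow, hgood l (Finset.mem_range.1 hl), one_pow]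
    let x : Fin 3 → K := ![P n (1 - j), P n j, P (n + k) i]
    let ex : ((Fin (D + 1) × Fin D) × Fin (D + 1)) → Fin 3 → ℕ := fun z =>
      ![(z.1.1 : ℕ), (z.1.2 : ℕ), (z.2 : ℕ)]
    have hsum : aeval (P n) (∑ z, c z • E z) =
        aeval (P n) (itr e p k 2) ^ D * ∑ z, (c z : K) * ∏ i, x i ^ ex z i := by
      rw [map_sum, Finset.mul_sum]
      refine Finset.sum_congr rfl fun z _ => ?_
      rw [map_zsmul, zsmul_eq_mul, Fin.prod_univ_three]
      simp only [E, map_mul, map_pow, aeval_X, hUW i, x, ex, Matrix.cons_val_zero,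
        Matrix.cons_val_one, Matrix.cons_val]
      have hz : (z.2 : ℕ) + (D - z.2) = D := by have := z.2.2; omega
      have hz' : aeval (P n) (itr e p k 2) ^ D = aeval (P n) (itr e p k 2) ^ (z.2 : ℕ) *
          aeval (P n) (itr e p k 2) ^ (D - z.2) := by rw [← pow_add, hz]
      rw [mul_pow, hz']
      ring
    have hva := hcP (P n) (ha n hn)
    rw [hsum, map_mul, map_pow, hvaW, one_pow, one_mul] at hva
    have h0 := hVan K v _ ex c (nv v ^ m ^ 3) D x _ (Nat.one_le_pow _ _ (by omega)) hcX ?_ hva ?_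
    · rw [hsum, h0, mul_zero]
    · intro z l
      have h1 := z.1.1.2
      have h2 := z.1.2.2
      have h3 := z.2.2
      fin_cases l <;> simp [ex] <;> omega
    · refine Cov1_num2 (nv v) m _ D T (Module.finrank ℚ K) h (fun i => mulHeight₁ (x i)) hq hm hκ
        hD hT (by rw [hcJ]; exact hnum) ?_ h12
      intro l
      apply Cov1_height
      fin_cases l
      · exact hht n (by omega) (1 - j)
      · exact hht n (by omega) j
      · exact hht (n + k) hnk i
  refine ⟨map (algebraMap (𝓞 K) K) (∑ z, c z • E z), S', ?_, ?_, hS'S, hcard, ?_⟩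
  · intro hz
    let Q : ℕ → MvPolynomial (Fin 2) K := fun l =>
      ∑ z : Fin (D + 1) × Fin D, C (if hl : l < D + 1 then ((c (z, ⟨l, hl⟩) : ℤ) : K) else 0) *
        (X (1 - j) ^ (z.1 : ℕ) * X j ^ (z.2 : ℕ))
    have hW0 : map (algebraMap (𝓞 K) K) (itr e p k 2) ≠ 0 := by
      intro hW
      obtain ⟨hnk, _, _⟩ := hS n0 (hS'S hn0)
      have h1 := (hIte (𝓞 K) K e p hp M P hOrb n0 k hnk).1
      apply h1
      rw [← aeval_map_algebraMap K (P n0) (itr e p k 2), hW, map_zero]
    have hsumQ : ∑ l ∈ Finset.range (D + 1), Q l *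
        (map (algebraMap (𝓞 K) K) (itr e p k i.castSucc)) ^ l *
          (map (algebraMap (𝓞 K) K) (itr e p k 2)) ^ (D - l) = 0 := by
      rw [← hz, map_sum, Finset.sum_range, Fintype.sum_prod_type_right]
      refine Finset.sum_congr rfl fun l _ => ?_
      simp only [Q, Finset.sum_mul]
      refine Finset.sum_congr rfl fun z _ => ?_
      rw [dif_pos l.2]
      simp only [E, map_mul, map_pow, map_X, zsmul_eq_mul, map_intCast]
      have : (c (z, ⟨(l : ℕ), l.2⟩) : ℤ) = c (z, l) := rfl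
      rw [this]
      ring
    have hQ := hInd K j D D _ _ hW0 hRD Q (fun l => Cov1_deg D hD0 j _) hsumQ
    apply hc0
    funext z
    have h1 := Cov1_zero D j _ (hQ z.2 (by have := z.2.2; omega)) z.1
    rw [dif_pos z.2.2] at h1
    exact_mod_cast h1
  · have hmap : (map (algebraMap (𝓞 K) K) (∑ z, c z • E z)).totalDegree ≤
        (∑ z, c z • E z).totalDegree :=
      Cov1_map _ _
    refine hmap.trans ?_
    refine (totalDegree_finsetSum_le ?_)
    intro z _
    refine (totalDegree_smul_le _ _).trans ?_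
    have d1 := hDeg (𝓞 K) e p he hp k i.castSucc
    have d2 := hDeg (𝓞 K) e p he hp k 2
    have hz1 := z.1.1.2
    have hz2 := z.1.2.2
    have hz3 := z.2.2
    have t1 : (X (1 - j) ^ (z.1.1 : ℕ) : MvPolynomial (Fin 2) (𝓞 K)).totalDegree ≤ z.1.1 := by
      rw [totalDegree_X_pow]
    have t2 : (X j ^ (z.1.2 : ℕ) : MvPolynomial (Fin 2) (𝓞 K)).totalDegree ≤ z.1.2 := by
      rw [totalDegree_X_pow]
    have t3 : (itr e p k i.castSucc ^ (z.2 : ℕ)).totalDegree ≤ z.2 * e ^ k :=
      (totalDegree_pow _ _).trans (Nat.mul_le_mul_left _ d1)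
    have t4 : (itr e p k 2 ^ (D - z.2)).totalDegree ≤ (D - z.2) * e ^ k :=
      (totalDegree_pow _ _).trans (Nat.mul_le_mul_left _ d2)
    have t5 : (z.2 : ℕ) * e ^ k + (D - z.2) * e ^ k = D * e ^ k := by
      rw [← add_mul]
      congr 1
      omega
    have t6 := totalDegree_mul (X (1 - j) ^ (z.1.1 : ℕ) : MvPolynomial (Fin 2) (𝓞 K))
      (X j ^ (z.1.2 : ℕ))
    have t7 := totalDegree_mul ((X (1 - j) ^ (z.1.1 : ℕ) : MvPolynomial (Fin 2) (𝓞 K)) *
      X j ^ (z.1.2 : ℕ)) (itr e p k i.castSucc ^ (z.2 : ℕ))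
    have t8 := totalDegree_mul ((X (1 - j) ^ (z.1.1 : ℕ) : MvPolynomial (Fin 2) (𝓞 K)) *
      X j ^ (z.1.2 : ℕ) * itr e p k i.castSucc ^ (z.2 : ℕ)) (itr e p k 2 ^ (D - z.2))
    change (((X (1 - j) ^ (z.1.1 : ℕ) : MvPolynomial (Fin 2) (𝓞 K)) *
      X j ^ (z.1.2 : ℕ) * itr e p k i.castSucc ^ (z.2 : ℕ)) *
        (itr e p k 2 ^ (D - z.2))).totalDegree ≤ _
    omega
  · intro n hn
    rw [aeval_map_algebraMap]
    exact key n hn

end Pool.Agent.Work.MP_91e6de_nt.DM

end

section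

set_option autoImplicit false

/-! Item Deg: degrees of the iterates. -/

namespace Pool.Agent.Work.MP_91e6de_nt.DM

open MvPolynomial NumberField IsDedekindDomain

theorem Deg_hsub {A : Type} [CommRing A] (e : ℕ) (p : MvPolynomial (Fin 2) A)
    (hp : p.totalDegree ≤ e) (U V W : MvPolynomial (Fin 2) A) (r : ℕ) (hU : U.totalDegree ≤ r)
    (hV : V.totalDegree ≤ r) (hW : W.totalDegree ≤ r) : (hsub e p U V W).totalDegree ≤ e * r := by
  unfold hsub
  refine totalDegree_finsetSum_le fun m hm => ?_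
  have h1 : m 0 + m 1 ≤ e := by
    have h2 := le_totalDegree hm
    rw [Finsupp.sum_fintype _ _ (fun _ => rfl), Fin.sum_univ_two] at h2
    exact h2.trans hp
  rw [MvPolynomial.algebraMap_eq]
  refine (totalDegree_mul _ _).trans ?_
  rw [totalDegree_C, zero_add]
  refine (totalDegree_mul _ _).trans ?_
  refine (Nat.add_le_add (totalDegree_mul _ _) (totalDegree_pow _ _)).trans ?_
  refine (Nat.add_le_add (Nat.add_le_add (totalDegree_pow _ _) (totalDegree_pow _ _))
    le_rfl).trans ?_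
  refine (Nat.add_le_add (Nat.add_le_add (Nat.mul_le_mul_left _ hU) (Nat.mul_le_mul_left _ hV))
    (Nat.mul_le_mul_left _ hW)).trans ?_
  rw [← Nat.add_mul, ← Nat.add_mul, Nat.add_sub_cancel' h1]

theorem Deg_X {A : Type} [CommRing A] (i : Fin 2) :
    (X i : MvPolynomial (Fin 2) A).totalDegree ≤ 1 := by
  rcases subsingleton_or_nontrivial A with h | h
  · rw [Subsingleton.elim (X i : MvPolynomial (Fin 2) A) 0, totalDegree_zero]
    exact Nat.zero_le _
  · rw [totalDegree_X]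

theorem pr_Deg : S_Deg := by
  intro A _ e p he hp k
  induction k with
  | zero =>
    intro i
    rw [pow_zero]
    fin_cases i
    · exact Deg_X 0
    · exact Deg_X 1
    · show (1 : MvPolynomial (Fin 2) A).totalDegree ≤ 1
      rw [totalDegree_one]; exact Nat.zero_le _
  | succ k ih =>
    intro i
    rw [pow_succ, mul_comm]
    exact Deg_hsub e (p i) (hp i) _ _ _ (e ^ k) (ih 0) (ih 1) (ih 2)

end Pool.Agent.Work.MP_91e6de_nt.DM

end

section

set_option autoImplicit false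

/-!
# Item Fac: an irreducible factor with many zeros
-/

namespace Pool.Agent.Work.MP_91e6de_nt.DM

open MvPolynomial

theorem Fac_deg {K : Type} [Field K] {p : MvPolynomial (Fin 2) K} (hp : Irreducible p) :
    1 ≤ p.totalDegree := by
  rcases Nat.eq_zero_or_pos p.totalDegree with h | h
  · exfalso
    rw [totalDegree_eq_zero_iff_eq_C] at h
    have h0 : p.coeff 0 ≠ 0 := by
      intro h1
      rw [h1, C_0] at h
      exact hp.ne_zero h
    apply hp.not_isUnit
    rw [h]
    exact (isUnit_iff_ne_zero.mpr h0).map C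
  · exact h

theorem Fac_mul {K : Type} [Field K] (s : Multiset (MvPolynomial (Fin 2) K)) :
    (∀ p ∈ s, Irreducible p) →
      s.card ≤ s.prod.totalDegree ∧ ∀ p ∈ s, p.totalDegree ≤ s.prod.totalDegree := by
  induction s using Multiset.induction_on with
  | empty =>
    intro _
    refine ⟨by simp, fun p hp => absurd hp (Multiset.notMem_zero p)⟩
  | cons a s ih =>
    intro h
    have ha := h a (Multiset.mem_cons_self a s)
    have hs : ∀ p ∈ s, Irreducible p := fun p hp => h p (Multiset.mem_cons_of_mem hp)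
    obtain ⟨h1, h2⟩ := ih hs
    have hne : s.prod ≠ 0 := by
      intro h0
      rw [Multiset.prod_eq_zero_iff] at h0
      exact (hs 0 h0).ne_zero rfl
    have h3 : (a ::ₘ s).prod.totalDegree = a.totalDegree + s.prod.totalDegree := by
      rw [Multiset.prod_cons, totalDegree_mul_of_isDomain ha.ne_zero hne]
    have h4 := Fac_deg ha
    rw [h3]
    refine ⟨by rw [Multiset.card_cons]; omega, fun p hp => ?_⟩
    rcases Multiset.mem_cons.1 hp with rfl | hp
    · omega
    · have := h2 p hp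
      omega

theorem pr_Fac : S_Fac := by
  classical
  intro K _ E t S P hE ht hS hz
  obtain ⟨u, hu⟩ := UniqueFactorizationMonoid.factors_prod hE
  obtain ⟨f, hf⟩ : ∃ f, f = UniqueFactorizationMonoid.factors E := ⟨_, rfl⟩
  rw [← hf] at hu
  have hirr : ∀ p ∈ f, Irreducible p := fun p hp => by
    rw [hf] at hp
    exact UniqueFactorizationMonoid.irreducible_of_factor p hp
  obtain ⟨h1, h2⟩ := Fac_mul f hirr
  have hf0 : f.prod ≠ 0 := by
    intro h0
    rw [h0, zero_mul] at hu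
    exact hE hu.symm
  have hd : f.prod.totalDegree ≤ t := by
    have h3 : E.totalDegree = f.prod.totalDegree + (u : MvPolynomial (Fin 2) K).totalDegree := by
      rw [← hu, totalDegree_mul_of_isDomain hf0 u.ne_zero]
    omega
  -- every point is a zero of a factor
  have h3 : ∀ n ∈ S, ∃ p ∈ f, aeval (P n) p = 0 := by
    intro n hn
    have h4 := hz n hn
    rw [← hu, map_mul, mul_eq_zero] at h4
    rcases h4 with h4 | h4
    · rw [map_multiset_prod, Multiset.prod_eq_zero_iff] at h4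
      obtain ⟨p, hp, hp0⟩ := Multiset.mem_map.1 h4
      exact ⟨p, hp, hp0⟩
    · exact absurd h4 (u.isUnit.map (aeval (P n) : MvPolynomial (Fin 2) K →ₐ[K] K)).ne_zero
  choose! φ hφ hφ0 using h3
  have hmaps : ∀ n ∈ S, φ n ∈ f.toFinset := fun n hn => Multiset.mem_toFinset.2 (hφ n hn)
  obtain ⟨n₀, hn₀⟩ := hS
  obtain ⟨G, hG, hmax⟩ := Finset.exists_max_image f.toFinset
    (fun p => (S.filter fun n => φ n = p).card) ⟨φ n₀, hmaps n₀ hn₀⟩
  have hGf : G ∈ f := Multiset.mem_toFinset.1 hG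
  refine ⟨G, S.filter fun n => φ n = G, hirr G hGf, (h2 G hGf).trans hd,
    Finset.filter_subset _ _, ?_, fun n hn => ?_⟩
  · rw [Finset.card_eq_sum_card_fiberwise (s := S) (t := f.toFinset) (f := φ) hmaps]
    refine (Finset.sum_le_card_nsmul _ _ _ hmax).trans ?_
    rw [smul_eq_mul, mul_comm]
    refine Nat.mul_le_mul_left _ ?_
    exact (Multiset.toFinset_card_le f).trans (h1.trans hd)
  · obtain ⟨h5, h6⟩ := Finset.mem_filter.1 hn
    rw [← h6]
    exact hφ0 n h5

end Pool.Agent.Work.MP_91e6de_nt.DM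

end

section

set_option autoImplicit false

/-!
# Item Gap
-/

namespace Pool.Agent.Work.MP_91e6de_nt.DM

theorem Gap_pairs (S : Finset ℕ) :
    S.card * (S.card - 1) = 2 * (S.offDiag.filter (fun p => p.1 < p.2)).card := by
  have h1 : (S.offDiag.filter (fun p => p.1 < p.2)).card +
      (S.offDiag.filter (fun p => ¬ p.1 < p.2)).card = S.offDiag.card :=
    Finset.card_filter_add_card_filter_not _
  have h2 : (S.offDiag.filter (fun p => ¬ p.1 < p.2)).card =
      (S.offDiag.filter (fun p => p.1 < p.2)).card := by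
    refine Finset.card_nbij' Prod.swap Prod.swap ?_ ?_ ?_ ?_
    · intro p hp
      simp only [Finset.coe_filter, Finset.mem_offDiag, Set.mem_setOf_eq, Prod.fst_swap,
        Prod.snd_swap] at hp ⊢
      refine ⟨⟨hp.1.2.1, hp.1.1, fun h => hp.1.2.2 h.symm⟩, ?_⟩
      have := hp.1.2.2
      omega
    · intro p hp
      simp only [Finset.coe_filter, Finset.mem_offDiag, Set.mem_setOf_eq, Prod.fst_swap,
        Prod.snd_swap] at hp ⊢
      refine ⟨⟨hp.1.2.1, hp.1.1, fun h => hp.1.2.2 h.symm⟩, ?_⟩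
      omega
    · intro p _; exact Prod.swap_swap p
    · intro p _; exact Prod.swap_swap p
  rw [Finset.offDiag_card] at h1
  have h3 : S.card * (S.card - 1) = S.card * S.card - S.card := by
    rw [Nat.mul_sub, mul_one]
  omega

theorem pr_Gap : S_Gap := by
  intro N S hN hS
  by_contra hcon
  push Not at hcon
  have h1 : (S.offDiag.filter (fun p => p.1 < p.2)).card ≤
      ∑ g ∈ Finset.Icc 1 N, (S.filter (fun n => n + g ∈ S)).card := by
    rw [Finset.card_eq_sum_card_fiberwise (f := fun p : ℕ × ℕ => p.2 - p.1)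
      (t := Finset.Icc 1 N)]
    · refine Finset.sum_le_sum fun g _ => ?_
      refine Finset.card_le_card_of_injOn Prod.fst ?_ ?_
      · intro p hp
        simp only [Finset.coe_filter, Finset.mem_filter, Finset.mem_offDiag,
          Set.mem_setOf_eq] at hp ⊢
        refine ⟨hp.1.1.1, ?_⟩
        have : p.1 + g = p.2 := by omega
        rw [this]; exact hp.1.1.2.1
      · intro p hp q hq h
        simp only [Finset.coe_filter, Finset.mem_filter, Finset.mem_offDiag,
          Set.mem_setOf_eq] at hp hq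
        refine Prod.ext h ?_
        omega
    · intro p hp
      simp only [Finset.coe_filter, Finset.mem_offDiag, Set.mem_setOf_eq] at hp
      have := hS p.2 hp.1.2.1
      simp only [Finset.coe_Icc, Set.mem_Icc]
      omega
  have h2 : ∑ g ∈ Finset.Icc 1 N, 2 * N * (S.filter (fun n => n + g ∈ S)).card <
      ∑ g ∈ Finset.Icc 1 N, S.card * (S.card - 1) := by
    refine Finset.sum_lt_sum_of_nonempty ⟨1, by simp [hN]⟩ fun g hg => ?_
    rw [Finset.mem_Icc] at hg
    exact hcon g hg.1 hg.2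
  rw [← Finset.mul_sum, Finset.sum_const, Nat.card_Icc, smul_eq_mul, Gap_pairs S] at h2
  have h3 : 2 * N * (S.offDiag.filter (fun p => p.1 < p.2)).card ≤
      2 * N * ∑ g ∈ Finset.Icc 1 N, (S.filter (fun n => n + g ∈ S)).card :=
    Nat.mul_le_mul_left _ h1
  have h4 : (N + 1 - 1) * (2 * (S.offDiag.filter (fun p => p.1 < p.2)).card) =
      2 * N * (S.offDiag.filter (fun p => p.1 < p.2)).card := by
    rw [Nat.add_sub_cancel]; ring
  rw [h4] at h2
  exact absurd (lt_of_le_of_lt h3 h2) (lt_irrefl _)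

end Pool.Agent.Work.MP_91e6de_nt.DM

end

section

set_option autoImplicit false

/-!
# Evaluation and degree of `hsub`
-/

namespace Pool.Agent.Work.MP_91e6de_nt.DM

open MvPolynomial

theorem HsEv_le {A : Type} [CommRing A] {e : ℕ} {p : MvPolynomial (Fin 2) A}
    (hp : p.totalDegree ≤ e) {m : Fin 2 →₀ ℕ} (hm : m ∈ p.support) : m 0 + m 1 ≤ e := by
  have h := (le_totalDegree hm).trans hp
  rwa [Finsupp.sum_fintype _ _ (fun _ => rfl), Fin.sum_univ_two] at h

theorem HsEv_pow {K : Type} [Field K] (u v w : K) (hw : w ≠ 0) (e a b : ℕ) (h : a + b ≤ e) :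
    w ^ e * ((u / w) ^ a * (v / w) ^ b) = u ^ a * v ^ b * w ^ (e - (a + b)) := by
  obtain ⟨k, rfl⟩ := Nat.exists_eq_add_of_le h
  rw [Nat.add_sub_cancel_left, div_pow, div_pow, pow_add, pow_add]
  field_simp

theorem pr_HsEv : S_HsEv := by
  intro A K _ _ _ e p hp
  refine ⟨fun u v w hw => ?_, fun P U V W => ?_, fun U V W r hU hV hW => ?_⟩
  · rw [aeval_def, eval₂_eq', hsub, Finset.mul_sum]
    refine Finset.sum_congr rfl fun m hm => ?_
    rw [Fin.prod_univ_two, mul_left_comm (w ^ e)]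
    simp only [Matrix.cons_val_zero, Matrix.cons_val_one]
    rw [HsEv_pow u v w hw e _ _ (HsEv_le hp hm)]
  · rw [hsub, hsub, map_sum]
    refine Finset.sum_congr rfl fun m _ => ?_
    rw [map_mul, map_mul, map_mul, map_pow, map_pow, map_pow, AlgHom.commutes]
  · refine (totalDegree_finsetSum _ _).trans (Finset.sup_le fun m hm => ?_)
    have hle := HsEv_le hp hm
    refine (totalDegree_mul _ _).trans ?_
    have h0 : (algebraMap A (MvPolynomial (Fin 2) A) (p.coeff m)).totalDegree = 0 :=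
      totalDegree_C _
    rw [h0, zero_add]
    refine (totalDegree_mul _ _).trans ?_
    have h1 : (U ^ m 0 * V ^ m 1).totalDegree ≤ m 0 * r + m 1 * r :=
      (totalDegree_mul _ _).trans (add_le_add
        ((totalDegree_pow _ _).trans (Nat.mul_le_mul_left _ hU))
        ((totalDegree_pow _ _).trans (Nat.mul_le_mul_left _ hV)))
    have h2 : (W ^ (e - (m 0 + m 1))).totalDegree ≤ (e - (m 0 + m 1)) * r :=
      (totalDegree_pow _ _).trans (Nat.mul_le_mul_left _ hW)
    calc _ ≤ m 0 * r + m 1 * r + (e - (m 0 + m 1)) * r := add_le_add h1 h2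
      _ = (m 0 + m 1 + (e - (m 0 + m 1))) * r := by ring
      _ = e * r := by rw [Nat.add_sub_cancel' hle]

end Pool.Agent.Work.MP_91e6de_nt.DM

end

section

set_option autoImplicit false

namespace Pool.Agent.Work.MP_91e6de_nt.DM

open MvPolynomial

theorem Ind_aux {K : Type} [Field K] (j : Fin 2) (D : ℕ) (U W : MvPolynomial (Fin 2) K)
    (hW : W ≠ 0) (hrel : IsRelPrime U W) (hD : D ≤ W.degreeOf j) :
    ∀ (g : ℕ) (Q : ℕ → MvPolynomial (Fin 2) K), (∀ l, (Q l).degreeOf j < D) →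
    ∑ l ∈ Finset.range (g + 1), Q l * U ^ l * W ^ (g - l) = 0 → ∀ l ≤ g, Q l = 0 := by
  intro g
  induction g with
  | zero =>
    intro Q _ h l hl
    obtain rfl : l = 0 := by omega
    simpa using h
  | succ g ih =>
    intro Q hQ h
    rw [Finset.sum_range_succ] at h
    have h1 : ∑ l ∈ Finset.range (g + 1), Q l * U ^ l * W ^ (g + 1 - l) =
        W * ∑ l ∈ Finset.range (g + 1), Q l * U ^ l * W ^ (g - l) := by
      rw [Finset.mul_sum]
      refine Finset.sum_congr rfl fun l hl => ?_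
      have hl' : l ≤ g := by
        have := Finset.mem_range.mp hl
        omega
      rw [show g + 1 - l = (g - l) + 1 from by omega, pow_succ]
      ring
    have h2 : Q (g + 1) = 0 := by
      by_contra hne
      have h3 : W ∣ Q (g + 1) * U ^ (g + 1) := by
        rw [h1] at h
        simp only [Nat.sub_self, pow_zero, mul_one] at h
        rw [eq_neg_of_add_eq_zero_right h]
        exact (dvd_mul_right W _).neg_right
      have h4 : W ∣ Q (g + 1) := (hrel.symm.pow_right).dvd_of_dvd_mul_right h3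
      obtain ⟨c, hc⟩ := h4
      have hc0 : c ≠ 0 := by
        rintro rfl
        exact hne (by rw [hc, mul_zero])
      have h5 := hQ (g + 1)
      rw [hc, degreeOf_mul_eq hW hc0] at h5
      omega
    have h6 : ∑ l ∈ Finset.range (g + 1), Q l * U ^ l * W ^ (g - l) = 0 := by
      rw [h2, h1] at h
      simp only [zero_mul, add_zero] at h
      exact (mul_eq_zero.mp h).resolve_left hW
    intro l hl
    rcases Nat.lt_or_ge l (g + 1) with h7 | h7
    · exact ih Q hQ h6 l (by omega)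
    · obtain rfl : l = g + 1 := by omega
      exact h2

theorem pr_Ind : S_Ind := by
  intro K _ j D g U W hW hRD Q hQ hsum
  obtain ⟨U', W', c, hrel, hU, hWc⟩ := UniqueFactorizationMonoid.exists_reduced_factors' U W hW
  have hc : c ≠ 0 := by
    rintro rfl
    exact hW (by rw [← hWc, zero_mul])
  have hW' : W' ≠ 0 := by
    rintro rfl
    exact hW (by rw [← hWc, mul_zero])
  have hsum' : ∑ l ∈ Finset.range (g + 1), Q l * U' ^ l * W' ^ (g - l) = 0 := by
    have h1 : c ^ g * ∑ l ∈ Finset.range (g + 1), Q l * U' ^ l * W' ^ (g - l) = 0 := by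
      rw [← hsum, Finset.mul_sum]
      refine Finset.sum_congr rfl fun l hl => ?_
      have hl' : l ≤ g := by
        have := Finset.mem_range.mp hl
        omega
      rw [← hU, ← hWc, mul_pow, mul_pow]
      have : c ^ g = c ^ l * c ^ (g - l) := by rw [← pow_add]; congr 1; omega
      rw [this]
      ring
    exact (mul_eq_zero.mp h1).resolve_left (pow_ne_zero g hc)
  by_cases hdeg : D ≤ W'.degreeOf j
  · exact Ind_aux j D U' W' hW' hrel hdeg g Q hQ hsum'
  · have hdegU : D ≤ U'.degreeOf j := by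
      by_contra hlt
      have := hRD U' W' (by omega) (by omega) (by rw [← hU, ← hWc]; ring)
      exact hW' this.2
    have hU' : U' ≠ 0 := by
      rintro rfl
      have h0 := hQ 0
      simp only [degreeOf_zero] at hdegU
      omega
    have hsum2 : ∑ l ∈ Finset.range (g + 1), Q (g - l) * W' ^ l * U' ^ (g - l) = 0 := by
      rw [← hsum', ← Finset.sum_range_reflect]
      refine Finset.sum_congr rfl fun l hl => ?_
      have hl' : l ≤ g := by
        have := Finset.mem_range.mp hl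
        omega
      rw [show g + 1 - 1 - l = g - l from by omega, show g - (g - l) = l from by omega]
      ring
    have h3 := Ind_aux j D W' U' hU' hrel.symm hdegU g (fun l => Q (g - l))
      (fun l => hQ (g - l)) hsum2
    intro l hl
    have h4 := h3 (g - l) (by omega)
    simpa [show g - (g - l) = l from by omega] using h4

end Pool.Agent.Work.MP_91e6de_nt.DM

end

section

set_option autoImplicit false

/-!
# Item Ite: iterates along an orbit
-/

namespace Pool.Agent.Work.MP_91e6de_nt.DM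

open MvPolynomial

theorem pr_Ite (h : S_HsEv) : S_Ite := by
  intro A K _ _ _ e p hp M P hP n k
  induction k with
  | zero =>
    intro _
    refine ⟨?_, fun i => ?_, ?_⟩
    · simp [itr]
    · fin_cases i <;> simp [itr]
    · simp [itr]
  | succ k ih =>
    intro hk
    obtain ⟨h1, h2, h3⟩ := ih (by omega)
    obtain ⟨h4, h5⟩ := hP (n + k) (by omega)
    have key : ∀ i : Fin 3, aeval (P n) (itr e p (k + 1) i) =
        aeval (P n) (itr e p k 2) ^ e * aeval (P (n + k)) (p i) := by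
      intro i
      have e0 : itr e p (k + 1) i =
        hsub e (p i) (itr e p k 0) (itr e p k 1) (itr e p k 2) := rfl
      rw [e0, (h A K e (p i) (hp i)).2.1, (h A K e (p i) (hp i)).1 _ _ _ h1]
      have e1 : aeval (P n) (itr e p k 0) / aeval (P n) (itr e p k 2) = P (n + k) 0 := by
        have := h2 0
        rw [Fin.castSucc_zero] at this
        rw [this]
        field_simp
      have e2 : aeval (P n) (itr e p k 1) / aeval (P n) (itr e p k 2) = P (n + k) 1 := by
        have := h2 1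
        have h6 : (1 : Fin 2).castSucc = (1 : Fin 3) := rfl
        rw [h6] at this
        rw [this]
        field_simp
      rw [e1, e2]
      have e3 : ![P (n + k) 0, P (n + k) 1] = P (n + k) := by
        funext i
        fin_cases i <;> rfl
      rw [e3]
    refine ⟨?_, fun i => ?_, ?_⟩
    · rw [key]
      exact mul_ne_zero (pow_ne_zero _ h1) h4
    · rw [key, key, ← h5 i]
      have h6 : n + (k + 1) = n + k + 1 := rfl
      rw [h6]
      ring
    · rw [key, Finset.prod_range_succ]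
      have h7 : k + 1 - 1 - k = 0 := by omega
      rw [h7, pow_zero, pow_one, h3, ← Finset.prod_pow]
      congr 1
      refine Finset.prod_congr rfl fun l hl => ?_
      rw [Finset.mem_range] at hl
      rw [← pow_mul, ← pow_succ]
      congr 2
      omega

end Pool.Agent.Work.MP_91e6de_nt.DM

end

section

set_option autoImplicit false

/-!
# Choice of the parameters
-/

namespace Pool.Agent.Work.MP_91e6de_nt.DM

/-- polynomially bounded functions -/
def ParPB (f : ℕ → ℕ) : Prop := ∃ C B : ℕ, ∀ m, 1 ≤ m → f m ≤ C * m ^ B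

theorem ParPB_const (c : ℕ) : ParPB (fun _ => c) := ⟨c, 0, fun m _ => by simp⟩

theorem ParPB_id : ParPB (fun m => m) := ⟨1, 1, fun m _ => by simp⟩

theorem ParPB_mul {f g : ℕ → ℕ} (hf : ParPB f) (hg : ParPB g) : ParPB (fun m => f m * g m) := by
  obtain ⟨C, B, h⟩ := hf
  obtain ⟨C', B', h'⟩ := hg
  refine ⟨C * C', B + B', fun m hm => ?_⟩
  calc f m * g m ≤ (C * m ^ B) * (C' * m ^ B') := Nat.mul_le_mul (h m hm) (h' m hm)
    _ = C * C' * m ^ (B + B') := by rw [pow_add]; ring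

theorem ParPB_add {f g : ℕ → ℕ} (hf : ParPB f) (hg : ParPB g) : ParPB (fun m => f m + g m) := by
  obtain ⟨C, B, h⟩ := hf
  obtain ⟨C', B', h'⟩ := hg
  refine ⟨C + C', B + B', fun m hm => ?_⟩
  have h1 : m ^ B ≤ m ^ (B + B') := Nat.pow_le_pow_right hm (by omega)
  have h2 : m ^ B' ≤ m ^ (B + B') := Nat.pow_le_pow_right hm (by omega)
  calc f m + g m ≤ C * m ^ B + C' * m ^ B' := Nat.add_le_add (h m hm) (h' m hm)
    _ ≤ C * m ^ (B + B') + C' * m ^ (B + B') :=
        Nat.add_le_add (Nat.mul_le_mul_left _ h1) (Nat.mul_le_mul_left _ h2)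
    _ = (C + C') * m ^ (B + B') := by ring

theorem ParPB_pow {f : ℕ → ℕ} (hf : ParPB f) (n : ℕ) : ParPB (fun m => f m ^ n) := by
  induction n with
  | zero => simpa using ParPB_const 1
  | succ n ih => simpa [pow_succ] using ParPB_mul ih hf

theorem ParPB_k (kap e k0 : ℕ) (lam : ℝ) (hkap : 1 ≤ kap) (he : 1 ≤ e) (hlam : 1 < lam) :
    ∃ k : ℕ → ℕ, ParPB k ∧ ParPB (fun m => e ^ k m) ∧
      ∀ m, 1 ≤ m → k0 ≤ k m ∧ 4 * ((4 * kap * m ^ 2 : ℕ) : ℝ) < lam ^ k m := by
  obtain ⟨r, hr⟩ := pow_unbounded_of_one_lt (e : ℝ) hlam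
  have hex : ∀ m : ℕ, ∃ j : ℕ, 4 * ((4 * kap * m ^ 2 : ℕ) : ℝ) < lam ^ j := fun m =>
    pow_unbounded_of_one_lt _ hlam
  classical
  have hlam0 : 0 < lam := lt_trans one_pos hlam
  obtain ⟨j, hj⟩ : ∃ j : ℕ → ℕ, ∀ m : ℕ, 1 ≤ m → 1 ≤ j m ∧
      lam ^ (j m - 1) ≤ 4 * ((4 * kap * m ^ 2 : ℕ) : ℝ) ∧
      4 * ((4 * kap * m ^ 2 : ℕ) : ℝ) < lam ^ j m := by
    refine ⟨fun m => Nat.find (hex m), fun m hm => ?_⟩
    have h1 : 1 ≤ Nat.find (hex m) := by
      by_contra h
      have h0 : Nat.find (hex m) = 0 := by omega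
      have := Nat.find_spec (hex m)
      rw [h0, pow_zero] at this
      have h2 : (1 : ℝ) ≤ ((4 * kap * m ^ 2 : ℕ) : ℝ) := by
        have : 1 ≤ 4 * kap * m ^ 2 := Nat.mul_pos (by omega) (Nat.pow_pos hm)
        exact_mod_cast this
      linarith
    refine ⟨h1, ?_, Nat.find_spec (hex m)⟩
    have := Nat.find_min (hex m) (m := Nat.find (hex m) - 1) (by omega)
    exact not_lt.1 this
  refine ⟨fun m => k0 + j m, ?_, ?_, ?_⟩
  · refine ParPB_add (ParPB_const k0) ?_
    obtain ⟨c, hc⟩ := exists_nat_ge (1 / (lam - 1))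
    refine ⟨1 + 16 * kap * c, 2, fun m hm => ?_⟩
    obtain ⟨h1, h2, -⟩ := hj m hm
    have hb := one_add_mul_le_pow (a := lam - 1) (by linarith) (j m - 1)
    have h3 : 1 + ((j m - 1 : ℕ) : ℝ) * (lam - 1) ≤ 16 * kap * (m : ℝ) ^ 2 := by
      refine le_trans hb ?_
      have e1 : 1 + (lam - 1) = lam := by ring
      rw [e1]
      refine le_trans h2 (le_of_eq ?_)
      push_cast
      ring
    have hl : 0 < lam - 1 := by linarith
    have h4 : ((j m - 1 : ℕ) : ℝ) ≤ 16 * kap * (m : ℝ) ^ 2 * c := by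
      have h5 : ((j m - 1 : ℕ) : ℝ) ≤ (16 * kap * (m : ℝ) ^ 2) * (1 / (lam - 1)) := by
        rw [mul_one_div, le_div_iff₀ hl]
        linarith
      refine le_trans h5 (mul_le_mul_of_nonneg_left hc (by positivity))
    have h6 : j m - 1 ≤ 16 * kap * m ^ 2 * c := by exact_mod_cast h4
    have h7 : 1 ≤ m ^ 2 := Nat.pow_pos hm
    calc j m ≤ 1 + 16 * kap * m ^ 2 * c := by omega
      _ ≤ m ^ 2 + 16 * kap * m ^ 2 * c := by omega
      _ = (1 + 16 * kap * c) * m ^ 2 := by ring
  · obtain ⟨c, hc⟩ := exists_nat_ge lam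
    refine ⟨e ^ k0 * (c * (16 * kap)) ^ r, 2 * r, fun m hm => ?_⟩
    obtain ⟨h1, h2, -⟩ := hj m hm
    have h3 : lam ^ j m ≤ c * (16 * kap) * (m : ℝ) ^ 2 := by
      have e1 : lam ^ j m = lam * lam ^ (j m - 1) := by
        rw [← pow_succ']
        congr 1
        omega
      rw [e1]
      calc lam * lam ^ (j m - 1) ≤ c * (4 * ((4 * kap * m ^ 2 : ℕ) : ℝ)) :=
            mul_le_mul hc h2 (by positivity) (by positivity)
        _ = c * (16 * kap) * (m : ℝ) ^ 2 := by push_cast; ring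
    have h4 : ((e ^ (k0 + j m) : ℕ) : ℝ) ≤
        ((e ^ k0 * (c * (16 * kap)) ^ r * m ^ (2 * r) : ℕ) : ℝ) := by
      push_cast
      rw [pow_add, mul_assoc ((e : ℝ) ^ k0)]
      refine mul_le_mul_of_nonneg_left ?_ (by positivity)
      calc (e : ℝ) ^ j m ≤ (lam ^ r) ^ j m := pow_le_pow_left₀ (by positivity) hr.le _
        _ = (lam ^ j m) ^ r := by rw [← pow_mul, ← pow_mul, mul_comm]
        _ ≤ (c * (16 * kap) * (m : ℝ) ^ 2) ^ r := pow_le_pow_left₀ (by positivity) h3 _
        _ = (c * (16 * kap)) ^ r * (m : ℝ) ^ (2 * r) := by rw [mul_pow, ← pow_mul]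
    exact_mod_cast h4
  · intro m hm
    refine ⟨Nat.le_add_right _ _, lt_of_lt_of_le (hj m hm).2.2 ?_⟩
    exact pow_le_pow_right₀ hlam.le (Nat.le_add_left _ _)

theorem Par_pow_lt (kap m : ℕ) (hm : 4 * kap + 4 ≤ m) :
    (4 * kap * m ^ 2 + 1) * (4 * kap * m ^ 2) * (4 * kap * m ^ 2 + 1) < 2 ^ m ^ 3 := by
  have h1 : 4 * kap * m ^ 2 + 1 ≤ m ^ 3 := by
    have : 1 ≤ m ^ 2 := Nat.pow_pos (by omega)
    calc 4 * kap * m ^ 2 + 1 ≤ 4 * kap * m ^ 2 + 4 * m ^ 2 := by omega
      _ = (4 * kap + 4) * m ^ 2 := by ring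
      _ ≤ m * m ^ 2 := Nat.mul_le_mul_right _ hm
      _ = m ^ 3 := by ring
  have h2 : (4 * kap * m ^ 2 + 1) * (4 * kap * m ^ 2) * (4 * kap * m ^ 2 + 1) ≤ m ^ 9 := by
    calc (4 * kap * m ^ 2 + 1) * (4 * kap * m ^ 2) * (4 * kap * m ^ 2 + 1)
        ≤ m ^ 3 * m ^ 3 * m ^ 3 :=
          Nat.mul_le_mul (Nat.mul_le_mul h1 (by omega)) h1
      _ = m ^ 9 := by ring
  refine lt_of_le_of_lt h2 ?_
  have h3 : m < 2 ^ m := Nat.lt_two_pow_self
  calc m ^ 9 < (2 ^ m) ^ 9 := Nat.pow_lt_pow_left h3 (by norm_num)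
    _ = 2 ^ (m * 9) := by rw [← pow_mul]
    _ ≤ 2 ^ m ^ 3 := by
        refine Nat.pow_le_pow_right (by norm_num) ?_
        have : 9 ≤ m ^ 2 := by nlinarith
        calc m * 9 ≤ m * m ^ 2 := Nat.mul_le_mul_left _ this
          _ = m ^ 3 := by ring

theorem pr_Par : S_Par := by
  intro kap e k0 lam hkap he hlam
  obtain ⟨k, hk1, hk2, hk3⟩ := ParPB_k kap e k0 lam hkap he hlam
  have htt : ParPB (fun m => tt kap e m (k m)) := by
    unfold tt
    have h1 : ParPB (fun m => 4 * kap * m ^ 2) :=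
      ParPB_mul (ParPB_const (4 * kap)) (ParPB_pow ParPB_id 2)
    exact ParPB_add (ParPB_mul (ParPB_const 2) h1) (ParPB_mul h1 hk2)
  have hLL : ParPB (fun m => LL kap e m (k m)) := by
    unfold LL
    have h1 : ParPB (fun m => 16 * ((k m + 2) * m) ^ 2) :=
      ParPB_mul (ParPB_const 16) (ParPB_pow (ParPB_mul (ParPB_add hk1 (ParPB_const 2)) ParPB_id) 2)
    exact ParPB_mul (ParPB_mul (ParPB_const 2) (ParPB_pow (ParPB_pow h1 kap) 2)) htt
  have hall : ParPB (fun m => 4 * LL kap e m (k m) ^ 2 * tt kap e m (k m) ^ 2 * e + k m) :=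
    ParPB_add (ParPB_mul (ParPB_mul (ParPB_mul (ParPB_const 4) (ParPB_pow hLL 2))
      (ParPB_pow htt 2)) (ParPB_const e)) hk1
  obtain ⟨D, B, hDB⟩ := hall
  refine ⟨1 / ((B : ℝ) + 1), by positivity, fun C => ?_⟩
  obtain ⟨C5, hC5⟩ : ∃ C5 : ℝ, C5 = 12 * |C| + 1 + (4 * kap + 4 : ℕ) := ⟨_, rfl⟩
  have hC50 : 0 < C5 := by rw [hC5]; positivity
  obtain ⟨N0, hN0⟩ := exists_nat_gt (((D : ℝ) * C5 ^ B) ^ (B + 1))
  refine ⟨max N0 1, fun N hN => ?_⟩
  obtain ⟨x, hx⟩ : ∃ x : ℝ, x = (N : ℝ) ^ (1 / ((B : ℝ) + 1)) := ⟨_, rfl⟩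
  have hN1 : (1 : ℝ) ≤ N := by
    have : 1 ≤ N := le_trans (le_max_right _ _) hN
    exact_mod_cast this
  have hx1 : 1 ≤ x := by
    rw [hx]
    exact Real.one_le_rpow hN1 (by positivity)
  have hxN : x ^ (B + 1) = N := by
    rw [hx, ← Real.rpow_natCast, ← Real.rpow_mul (by linarith)]
    have : 1 / ((B : ℝ) + 1) * ((B + 1 : ℕ) : ℝ) = 1 := by
      push_cast
      field_simp
    rw [this, Real.rpow_one]
  have hxD : (D : ℝ) * C5 ^ B < x := by
    have h1 : ((D : ℝ) * C5 ^ B) ^ (B + 1) < x ^ (B + 1) := by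
      rw [hxN]
      refine lt_of_lt_of_le hN0 ?_
      exact_mod_cast le_trans (le_max_left _ _) hN
    exact lt_of_pow_lt_pow_left₀ _ (by linarith) h1
  rw [← hx]
  obtain ⟨m, hm⟩ : ∃ m : ℕ, m = ⌈12 * |C| * x⌉₊ + (4 * kap + 4) := ⟨_, rfl⟩
  have hm1 : 1 ≤ m := by omega
  have hmx : (m : ℝ) ≤ C5 * x := by
    have h1 : (⌈12 * |C| * x⌉₊ : ℝ) ≤ 12 * |C| * x + 1 :=
      (Nat.ceil_lt_add_one (by positivity)).le
    rw [hm, hC5, Nat.cast_add]
    have h2 : ((4 * kap + 4 : ℕ) : ℝ) ≤ ((4 * kap + 4 : ℕ) : ℝ) * x :=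
      le_mul_of_one_le_right (by positivity) hx1
    linarith
  have hlt : 4 * LL kap e m (k m) ^ 2 * tt kap e m (k m) ^ 2 * e + k m < N := by
    have h1 := hDB m hm1
    have h2 : ((D * m ^ B : ℕ) : ℝ) < N := by
      push_cast
      calc (D : ℝ) * (m : ℝ) ^ B ≤ D * (C5 * x) ^ B :=
            mul_le_mul_of_nonneg_left (pow_le_pow_left₀ (by positivity) hmx _) (by positivity)
        _ = (D * C5 ^ B) * x ^ B := by rw [mul_pow]; ring
        _ < x * x ^ B := mul_lt_mul_of_pos_right hxD (by positivity)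
        _ = N := by rw [← pow_succ', hxN]
    have h3 : D * m ^ B < N := by exact_mod_cast h2
    exact lt_of_le_of_lt h1 h3
  obtain ⟨hk4, hk5⟩ := hk3 m hm1
  refine ⟨m, k m, ?_, hm1, hk4, by omega, Par_pow_lt kap m (by omega), hk5, by omega⟩
  have h1 : 12 * |C| * x ≤ ⌈12 * |C| * x⌉₊ := Nat.le_ceil _
  have h2 : (⌈12 * |C| * x⌉₊ : ℝ) ≤ m := by
    rw [hm, Nat.cast_add]
    have : (0 : ℝ) ≤ ((4 * kap + 4 : ℕ) : ℝ) := Nat.cast_nonneg _
    linarith
  have h3 : C * x ≤ |C| * x := mul_le_mul_of_nonneg_right (le_abs_self C) (by linarith)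
  linarith

end Pool.Agent.Work.MP_91e6de_nt.DM

end

section

set_option autoImplicit false

/-!
# Item Pig: pigeonhole with Taylor expansions (helper39)
-/

namespace Pool.Agent.Work.MP_91e6de_nt.DM

open MvPolynomial NumberField IsDedekindDomain Height

/-- the shift `X i ↦ X i + a i` -/
noncomputable def Pig_sh {R : Type} [CommRing R] (a : Fin 2 → R) :
    MvPolynomial (Fin 2) R →ₐ[R] MvPolynomial (Fin 2) R :=
  aeval fun i => X i + C (a i)

lemma Pig_sh_eval {R K : Type} [CommRing R] [CommRing K] [Algebra R K] (a : Fin 2 → R)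
    (P : Fin 2 → K) (F : MvPolynomial (Fin 2) R) :
    aeval P F = aeval (fun i => P i - algebraMap R K (a i)) (Pig_sh a F) := by
  have h : (aeval P : MvPolynomial (Fin 2) R →ₐ[R] K) =
      (aeval fun i => P i - algebraMap R K (a i)).comp (Pig_sh a) := by
    apply MvPolynomial.algHom_ext
    intro i
    simp [Pig_sh]
  rw [h]
  rfl

lemma Pig_exp {K : Type} [Field K] [NumberField K] (v : HeightOneSpectrum (𝓞 K)) (T : ℕ) :
    ((WithZeroMulInt.toNNReal (HeightOneSpectrum.absNorm_ne_zero v)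
      (WithZero.exp (-(T : ℤ))) : NNReal) : ℝ) = ((nv v : ℝ)⁻¹) ^ T := by
  rw [WithZeroMulInt.toNNReal_neg_apply _ WithZero.exp_ne_zero]
  have h : (WithZero.unzero (WithZero.exp_ne_zero (a := -(T : ℤ)))).toAdd = -(T : ℤ) := rfl
  rw [h]
  push_cast
  rw [zpow_neg, zpow_natCast, inv_pow]

lemma Pig_lt {K : Type} [Field K] [NumberField K] (v : HeightOneSpectrum (𝓞 K)) (x : K)
    (hx : va v x < 1) : va v x ≤ (nv v : ℝ)⁻¹ := by
  have hq := HeightOneSpectrum.one_lt_absNorm_nnreal v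
  have h1 : v.valuation K x < 1 := by
    rw [← WithZeroMulInt.toNNReal_lt_one_iff hq]
    exact_mod_cast hx
  have h2 : v.valuation K x ≤ WithZero.exp (-((1 : ℕ) : ℤ)) := by
    rcases eq_or_ne (v.valuation K x) 0 with h0 | h0
    · rw [h0]
      exact zero_le
    · rw [← WithZero.log_le_iff_le_exp h0]
      rw [← WithZero.exp_zero, ← WithZero.log_lt_iff_lt_exp h0] at h1
      push_cast
      omega
  have h3 := Pig_exp v 1
  rw [pow_one] at h3
  rw [← h3]
  have h4 := (WithZeroMulInt.toNNReal_strictMono hq).monotone h2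
  exact_mod_cast h4

lemma Pig_pow {K : Type} [Field K] [NumberField K] (v : HeightOneSpectrum (𝓞 K)) (r : 𝓞 K)
    (T : ℕ) (hr : r ∈ v.asIdeal ^ T) : va v (algebraMap (𝓞 K) K r) ≤ ((nv v : ℝ)⁻¹) ^ T := by
  have hq := HeightOneSpectrum.one_lt_absNorm_nnreal v
  have h1 : v.valuation K (algebraMap (𝓞 K) K r) ≤ WithZero.exp (-(T : ℤ)) := by
    rw [HeightOneSpectrum.valuation_of_algebraMap]
    exact (v.intValuation_le_pow_iff_mem r T).2 hr
  rw [← Pig_exp v T]
  have h4 := (WithZeroMulInt.toNNReal_strictMono hq).monotone h1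
  exact_mod_cast h4

lemma Pig_int {K : Type} [Field K] [NumberField K] (v : HeightOneSpectrum (𝓞 K)) (r : 𝓞 K) :
    va v (algebraMap (𝓞 K) K r) ≤ 1 := by
  have := Pig_pow v r 0 (by simp)
  simpa using this

lemma Pig_sum_le {K : Type} [Field K] [NumberField K] (v : HeightOneSpectrum (𝓞 K)) {J : Type}
    (f : J → K) (B : ℝ) (hB : 0 ≤ B) (s : Finset J) (hf : ∀ j ∈ s, va v (f j) ≤ B) :
    va v (∑ j ∈ s, f j) ≤ B := by
  classical
  induction s using Finset.induction_on with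
  | empty => simpa using hB
  | insert a s ha ih =>
    rw [Finset.sum_insert ha]
    exact (HeightOneSpectrum.adicAbv_add_le_max K v _ _).trans
      (max_le (hf a (Finset.mem_insert_self _ _))
        (ih fun j hj => hf j (Finset.mem_insert_of_mem hj)))

/-- evaluation of a polynomial whose coefficients of low order are divisible by `v ^ T` -/
lemma Pig_eval {K : Type} [Field K] [NumberField K] (v : HeightOneSpectrum (𝓞 K)) (T : ℕ)
    (F : MvPolynomial (Fin 2) (𝓞 K))
    (hF : ∀ m : Fin 2 →₀ ℕ, m 0 < T → m 1 < T → F.coeff m ∈ v.asIdeal ^ T)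
    (P : Fin 2 → K) (hP : ∀ i, va v (P i) ≤ (nv v : ℝ)⁻¹) :
    va v (aeval P F) ≤ ((nv v : ℝ)⁻¹) ^ T := by
  have hq : 1 ≤ (nv v : ℝ) := by
    exact_mod_cast (HeightOneSpectrum.one_lt_absNorm v).le
  have hq0 : 0 ≤ (nv v : ℝ)⁻¹ := inv_nonneg.2 (zero_le_one.trans hq)
  have hq1 : (nv v : ℝ)⁻¹ ≤ 1 := inv_le_one_of_one_le₀ hq
  rw [aeval_def, eval₂_eq']
  refine Pig_sum_le v _ _ (pow_nonneg hq0 _) _ fun m _ => ?_
  rw [map_mul, Fin.prod_univ_two, map_mul, map_pow, map_pow]
  have h1 : ∀ i, va v (P i) ^ m i ≤ ((nv v : ℝ)⁻¹) ^ m i := fun i =>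
    pow_le_pow_left₀ ((va v).nonneg _) (hP i) _
  have h2 : ∀ n : ℕ, ((nv v : ℝ)⁻¹) ^ n ≤ 1 := fun n => pow_le_one₀ hq0 hq1
  have h3 : ∀ n : ℕ, T ≤ n → ((nv v : ℝ)⁻¹) ^ n ≤ ((nv v : ℝ)⁻¹) ^ T := fun n hn =>
    pow_le_pow_of_le_one hq0 hq1 hn
  have h4 : ∀ i, 0 ≤ va v (P i) ^ m i := fun i => pow_nonneg ((va v).nonneg _) _
  have h5 : 0 ≤ ((nv v : ℝ)⁻¹) ^ T := pow_nonneg hq0 _
  have h6 : ∀ i, va v (P i) ^ m i ≤ 1 := fun i => (h1 i).trans (h2 _)
  have h7 := Pig_int v (F.coeff m)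
  by_cases hm0 : m 0 < T
  · by_cases hm1 : m 1 < T
    · have h8 := Pig_pow v _ T (hF m hm0 hm1)
      calc va v (algebraMap (𝓞 K) K (F.coeff m)) * (va v (P 0) ^ m 0 * va v (P 1) ^ m 1) ≤
          ((nv v : ℝ)⁻¹) ^ T * (1 * 1) := mul_le_mul h8
            (mul_le_mul (h6 0) (h6 1) (h4 1) zero_le_one) (mul_nonneg (h4 0) (h4 1)) h5
        _ = _ := by ring
    · calc va v (algebraMap (𝓞 K) K (F.coeff m)) * (va v (P 0) ^ m 0 * va v (P 1) ^ m 1) ≤
          1 * (1 * ((nv v : ℝ)⁻¹) ^ T) := mul_le_mul h7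
            (mul_le_mul (h6 0) ((h1 1).trans (h3 _ (not_lt.1 hm1))) (h4 1) zero_le_one)
            (mul_nonneg (h4 0) (h4 1)) zero_le_one
        _ = _ := by ring
  · calc va v (algebraMap (𝓞 K) K (F.coeff m)) * (va v (P 0) ^ m 0 * va v (P 1) ^ m 1) ≤
          1 * (((nv v : ℝ)⁻¹) ^ T * 1) := mul_le_mul h7
            (mul_le_mul ((h1 0).trans (h3 _ (not_lt.1 hm0))) (h6 1) (h4 1) h5)
            (mul_nonneg (h4 0) (h4 1)) zero_le_one
        _ = _ := by ring

theorem pr_Pig : S_Pig := by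
  classical
  intro K _ _ v a J _ E T X hcard
  set Q := 𝓞 K ⧸ v.asIdeal ^ T with hQ
  have hcardQ : Nat.card Q = nv v ^ T := by
    have h1 : Ideal.absNorm (v.asIdeal ^ T) = nv v ^ T := map_pow _ _ _
    rw [← h1, Ideal.absNorm_apply, Submodule.cardQuot_apply]
  have hq : 1 < nv v := HeightOneSpectrum.one_lt_absNorm v
  have hfinQ : Finite Q := Nat.finite_of_card_ne_zero (by
    rw [hcardQ]; exact pow_ne_zero _ (by omega))
  have : Fintype Q := Fintype.ofFinite Q
  -- the map to classes of coefficients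
  set Ec : (J → Fin (X + 1)) → MvPolynomial (Fin 2) (𝓞 K) := fun c =>
    ∑ j, ((c j : ℕ) : ℤ) • E j with hEc
  set Φ : (J → Fin (X + 1)) → (Fin T × Fin T → Q) := fun c t =>
    Ideal.Quotient.mk (v.asIdeal ^ T)
      ((Pig_sh a (Ec c)).coeff (Finsupp.single 0 (t.1 : ℕ) + Finsupp.single 1 (t.2 : ℕ))) with hΦ
  have hlt : Fintype.card (Fin T × Fin T → Q) < Fintype.card (J → Fin (X + 1)) := by
    rw [Fintype.card_fun, Fintype.card_fun, Fintype.card_prod, Fintype.card_fin,
      Fintype.card_fin, ← Nat.card_eq_fintype_card, hcardQ, ← pow_mul]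
    have : T * (T * T) = T ^ 3 := by ring
    rw [this]
    exact hcard
  obtain ⟨c, c', hne, heq⟩ := Fintype.exists_ne_map_eq_of_card_lt Φ hlt
  refine ⟨fun j => ((c j : ℕ) : ℤ) - ((c' j : ℕ) : ℤ), ?_, ?_, ?_⟩
  · intro h0
    apply hne
    funext j
    have h1 := congrFun h0 j
    simp only [Pi.zero_apply] at h1
    ext
    omega
  · intro j
    have h1 := (c j).2
    have h2 := (c' j).2
    rw [abs_le]
    change -(X : ℤ) ≤ ((c j : ℕ) : ℤ) - ((c' j : ℕ) : ℤ) ∧ ((c j : ℕ) : ℤ) - ((c' j : ℕ) : ℤ) ≤ X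
    constructor <;> omega
  · intro P hP
    rw [Pig_sh_eval a P]
    refine Pig_eval v T _ ?_ _ fun i => Pig_lt v _ (hP i)
    intro m hm0 hm1
    have h1 := congrFun heq (⟨m 0, hm0⟩, ⟨m 1, hm1⟩)
    simp only [hΦ] at h1
    have hm : Finsupp.single 0 (m 0) + Finsupp.single 1 (m 1) = m := by
      ext i
      fin_cases i <;> simp
    rw [hm, Ideal.Quotient.eq, ← coeff_sub, ← map_sub] at h1
    have h2 : Ec c - Ec c' = ∑ j, (((c j : ℕ) : ℤ) - ((c' j : ℕ) : ℤ)) • E j := by
      simp only [hEc, sub_smul, Finset.sum_sub_distrib]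
    rw [h2] at h1
    exact h1

end Pool.Agent.Work.MP_91e6de_nt.DM

end

section

set_option autoImplicit false

/-!
# Item Plc: many places of small norm
-/

namespace Pool.Agent.Work.MP_91e6de_nt.DM

open MvPolynomial NumberField IsDedekindDomain

theorem Plc_norm (K : Type) [Field K] [NumberField K] (p : ℕ) :
    Ideal.absNorm (Ideal.span {(p : 𝓞 K)}) = p ^ Module.finrank ℚ K := by
  rw [Ideal.absNorm_span_singleton]
  have h1 : Algebra.norm ℤ (p : 𝓞 K) = (p : ℤ) ^ Module.finrank ℤ (𝓞 K) := by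
    have h2 : (p : 𝓞 K) = algebraMap ℤ (𝓞 K) (p : ℤ) := by simp
    rw [h2, Algebra.norm_algebraMap]
  rw [h1, Int.natAbs_pow, Int.natAbs_natCast, RingOfIntegers.rank]

theorem Plc_one (K : Type) [Field K] [NumberField K] (p : ℕ) (hp : p.Prime) :
    ∃ v : HeightOneSpectrum (𝓞 K), nv v ∣ p ^ Module.finrank ℚ K := by
  have hn := Plc_norm K p
  have hfr : 0 < Module.finrank ℚ K := Module.finrank_pos
  have hne : Ideal.span {(p : 𝓞 K)} ≠ ⊤ := by
    intro h
    rw [h, Ideal.absNorm_top] at hn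
    have h1 : 1 < p ^ Module.finrank ℚ K := Nat.one_lt_pow hfr.ne' hp.one_lt
    omega
  obtain ⟨P, hP, hle⟩ := Ideal.exists_le_maximal _ hne
  have hP0 : P ≠ ⊥ := by
    intro h
    rw [h, le_bot_iff, Ideal.span_singleton_eq_bot] at hle
    have h1 : (p : 𝓞 K) ≠ 0 := by exact_mod_cast hp.ne_zero
    exact h1 hle
  refine ⟨⟨P, hP.isPrime, hP0⟩, ?_⟩
  rw [← hn]
  exact Ideal.absNorm_dvd_absNorm_of_le hle

theorem pr_Plc (h : S_Prm) : S_Plc := by
  classical
  intro K _ _ M hM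
  obtain ⟨S, hS, hSp⟩ := h M hM
  have h1 : ∀ p : {p // p ∈ S}, ∃ v : HeightOneSpectrum (𝓞 K),
      nv v ∣ (p : ℕ) ^ Module.finrank ℚ K := fun p => Plc_one K p (hSp p p.2).1
  choose v hv using h1
  have hinj : Function.Injective v := by
    intro p q hpq
    by_contra hne
    have hne' : (p : ℕ) ≠ q := fun h => hne (Subtype.ext h)
    have hcop : Nat.Coprime ((p : ℕ) ^ Module.finrank ℚ K) ((q : ℕ) ^ Module.finrank ℚ K) :=
      Nat.Coprime.pow _ _ ((Nat.coprime_primes (hSp p p.2).1 (hSp q q.2).1).2 hne')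
    have h2 : nv (v p) = 1 :=
      Nat.dvd_one.1 (by rw [← hcop]; exact Nat.dvd_gcd (hv p) (by rw [hpq]; exact hv q))
    have h3 : (v p).asIdeal = ⊤ := Ideal.absNorm_eq_one_iff.1 h2
    exact (v p).isPrime.ne_top h3
  refine ⟨S.attach.image v, ?_, ?_⟩
  · rw [Finset.card_image_of_injective _ hinj, Finset.card_attach, hS]
  · intro w hw
    rw [Finset.mem_image] at hw
    obtain ⟨p, -, rfl⟩ := hw
    refine (Nat.le_of_dvd (pow_pos (hSp p p.2).1.pos _) (hv p)).trans ?_
    exact Nat.pow_le_pow_left (hSp p p.2).2 _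

end Pool.Agent.Work.MP_91e6de_nt.DM

end

section

/-!
# Item Prm: many primes
-/

set_option autoImplicit false

namespace Pool.Agent.Work.MP_91e6de_nt.DM

theorem Prm_pi (M : ℕ) (hM : 1 ≤ M) : M ≤ Nat.primeCounting (16 * M ^ 2) := by
  have hM' : (1 : ℝ) ≤ M := by exact_mod_cast hM
  have h1 := Chebyshev.psi_ge (16 * M ^ 2)
  have h2 := Chebyshev.psi_le_primeCounting_mul_log (16 * M ^ 2)
  have hcast : (((16 * M ^ 2 : ℕ) : ℝ)) = 16 * (M : ℝ) ^ 2 := by push_cast; ring
  rw [hcast] at h1 h2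
  have hM0 : (0 : ℝ) < M := by linarith
  have hl2 : Real.log 2 ≤ 0.7 := by have := Real.log_two_lt_d9; linarith
  have hl2' : 0.69 ≤ Real.log 2 := by have := Real.log_two_gt_d9; linarith
  have hlM : Real.log M ≤ M - 1 := Real.log_le_sub_one_of_pos hM0
  have e1 : Real.log (16 * (M : ℝ) ^ 2) = 4 * Real.log 2 + 2 * Real.log M := by
    rw [Real.log_mul (by norm_num) (by positivity), Real.log_pow]
    have : (16 : ℝ) = 2 ^ 4 := by norm_num
    rw [this, Real.log_pow]
    push_cast; ring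
  have e2 : Real.log (16 * (M : ℝ) ^ 2 + 1) ≤ 5 * Real.log 2 + 2 * Real.log M := by
    have h3 : 16 * (M : ℝ) ^ 2 + 1 ≤ 2 ^ 5 * (M : ℝ) ^ 2 := by nlinarith
    refine (Real.log_le_log (by positivity) h3).trans ?_
    rw [Real.log_mul (by norm_num) (by positivity), Real.log_pow, Real.log_pow]
    push_cast
    linarith
  have hlog : 0 < Real.log (16 * (M : ℝ) ^ 2) := Real.log_pos (by nlinarith)
  have h4 : (M : ℝ) * Real.log (16 * (M : ℝ) ^ 2) ≤
      (Nat.primeCounting (16 * M ^ 2) : ℝ) * Real.log (16 * (M : ℝ) ^ 2) := by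
    refine le_trans ?_ (h1.trans h2)
    rw [e1]
    have h5 : (M : ℝ) * (4 * Real.log 2 + 2 * Real.log M) ≤ M * (2.8 + 2 * (M - 1)) :=
      mul_le_mul_of_nonneg_left (by linarith) hM0.le
    have h6 : 16 * (M : ℝ) ^ 2 * 0.69 ≤ 16 * (M : ℝ) ^ 2 * Real.log 2 :=
      mul_le_mul_of_nonneg_left hl2' (by positivity)
    nlinarith
  have h7 := le_of_mul_le_mul_right h4 hlog
  exact_mod_cast h7

theorem pr_Prm : S_Prm := by
  intro M hM
  have h := Prm_pi M hM
  rw [Nat.primeCounting, Nat.primeCounting', Nat.count_eq_card_filter_range] at h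
  obtain ⟨S, hS, hc⟩ := Finset.exists_subset_card_eq h
  refine ⟨S, hc, fun p hp => ?_⟩
  have := hS hp
  rw [Finset.mem_filter, Finset.mem_range] at this
  exact ⟨this.2, by omega⟩

end Pool.Agent.Work.MP_91e6de_nt.DM

end
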