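import Mathlib
import Pool.Agent.Work.MP_91e6de_nt.DM.Stmts
import Pool.Agent.Work.MP_91e6de_nt.DMR.Defs
import Pool.Agent.Work.MP_91e6de_nt.DM.StmtsB

/-! Bundle of small proof modules (one section per former module). -/

section

set_option autoImplicit false

/-!
# A cyclic chain of curves contains the rest of the orbit
-/

namespace Pool.Agent.Work.MP_91e6de_nt.DM

open MvPolynomial

/-- pull back and evaluation along the orbit -/
theorem Tail_step (hHs : S_HsEv) {K : Type} [Field K] (p : Fin 3 → MvPolynomial (Fin 2) K)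
    (P : ℕ → Fin 2 → K) (hP : ∀ M, IsOrb p M P) (n : ℕ) (H : MvPolynomial (Fin 2) K)
    (h : aeval (P n) (pull p H) = 0) : aeval (P (n + 1)) H = 0 := by
  obtain ⟨h1, h2, _⟩ := hHs K K H.totalDegree H le_rfl
  obtain ⟨hw, hc⟩ := hP (n + 1) n (Nat.lt_succ_self n)
  unfold pull at h
  rw [h2, h1 _ _ _ hw] at h
  have hv : (![aeval (P n) (p 0) / aeval (P n) (p 2),
      aeval (P n) (p 1) / aeval (P n) (p 2)] : Fin 2 → K) = P (n + 1) := by
    funext i
    have hi := hc i
    refine Fin.cases ?_ (fun j => ?_) i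
    · have h0 := hc 0
      simp only [Matrix.cons_val_zero]
      rw [div_eq_iff hw, mul_comm]
      exact h0.symm
    · have hj : j = 0 := Subsingleton.elim _ _
      subst hj
      have h0 := hc 1
      simp only [Fin.succ_zero_eq_one, Matrix.cons_val_one]
      rw [Matrix.cons_val_fin_one, div_eq_iff hw, mul_comm]
      exact h0.symm
  rw [hv] at h
  rcases mul_eq_zero.1 h with h3 | h3
  · exact absurd h3 (pow_ne_zero _ hw)
  · exact h3

theorem Tail_dvd {K : Type} [Field K] (x : Fin 2 → K) (A B : MvPolynomial (Fin 2) K)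
    (h : A ∣ B) (hA : aeval x A = 0) : aeval x B = 0 := by
  obtain ⟨C', rfl⟩ := h
  rw [map_mul, hA, zero_mul]

theorem pr_Tail (hHs : S_HsEv) : S_Tail := by
  intro K _ p P n0 g G hP hg hG hcyc h0 n hn
  have key : ∃ i < g, aeval (P n) (G i) = 0 := by
    induction n, hn using Nat.le_induction with
    | base => exact ⟨0, hg, h0⟩
    | succ n _ ih =>
      obtain ⟨i, hi, hz⟩ := ih
      have h1 := Tail_dvd (P n) _ _ (hG i hi) hz
      have h2 := Tail_step hHs p P hP n (G (i + 1)) h1
      by_cases h3 : i + 1 < g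
      · exact ⟨i + 1, h3, h2⟩
      · have h4 : i + 1 = g := by omega
        rw [h4] at h2
        exact ⟨0, hg, Tail_dvd _ _ _ hcyc h2⟩
  obtain ⟨i, hi, hz⟩ := key
  exact Tail_dvd _ _ _ (Finset.dvd_prod_of_mem G (Finset.mem_range.2 hi)) hz

end Pool.Agent.Work.MP_91e6de_nt.DM

end

section

set_option autoImplicit false

/-!
# Item Van: the product formula argument (helper39)
-/

namespace Pool.Agent.Work.MP_91e6de_nt.DM

open MvPolynomial NumberField IsDedekindDomain Height

lemma Van_prod_le {K : Type} [Field K] (w : AbsoluteValue K ℝ) (D : ℕ) (x : Fin 3 → K)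
    (e : Fin 3 → ℕ) (he : ∀ i, e i ≤ D) :
    w (∏ i, x i ^ e i) ≤ ∏ i, max (w (x i)) 1 ^ D := by
  rw [map_prod]
  refine Finset.prod_le_prod (fun i _ => w.nonneg _) fun i _ => ?_
  rw [map_pow]
  exact (pow_le_pow_left₀ (w.nonneg _) (le_max_left _ _) _).trans
    (pow_le_pow_right₀ (le_max_right _ _) (he i))

lemma Van_B_nonneg {K : Type} [Field K] (w : AbsoluteValue K ℝ) (D : ℕ) (x : Fin 3 → K) :
    0 ≤ ∏ i, max (w (x i)) 1 ^ D :=
  Finset.prod_nonneg fun i _ => pow_nonneg (zero_le_one.trans (le_max_right _ _)) _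

lemma Van_arch {K : Type} [Field K] [NumberField K] (v : InfinitePlace K) {J : Type} [Fintype J]
    (ex : J → Fin 3 → ℕ) (c : J → ℤ) (X D : ℕ) (x : Fin 3 → K) (hc : ∀ j, |c j| ≤ X)
    (hex : ∀ j i, ex j i ≤ D) :
    v (∑ j, (c j : K) * ∏ i, x i ^ ex j i) ≤
      (Fintype.card J * X : ℕ) * ∏ i, max (v (x i)) 1 ^ D := by
  have h1 : v.1 (∑ j, (c j : K) * ∏ i, x i ^ ex j i) ≤
      ∑ j : J, v.1 ((c j : K) * ∏ i, x i ^ ex j i) := v.1.sum_le _ _
  refine h1.trans ?_
  have h2 : ∀ j ∈ (Finset.univ : Finset J), v.1 ((c j : K) * ∏ i, x i ^ ex j i) ≤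
      X * ∏ i, max (v (x i)) 1 ^ D := by
    intro j _
    rw [map_mul]
    have h3 : v.1 (c j : K) ≤ X := by
      have h4 : v.1 (c j : K) = ‖v.embedding (c j : K)‖ :=
        (InfinitePlace.norm_embedding_eq v (c j : K)).symm
      rw [h4, map_intCast, Complex.norm_intCast]
      exact_mod_cast hc j
    exact mul_le_mul h3 (Van_prod_le v.1 D x (ex j) (hex j)) (v.1.nonneg _) (Nat.cast_nonneg _)
  refine (Finset.sum_le_sum h2).trans ?_
  rw [Finset.sum_const, Finset.card_univ, nsmul_eq_mul]
  push_cast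
  rw [mul_assoc]

lemma Van_sum_le {K : Type} [Field K] [NumberField K] (w : FinitePlace K) {J : Type}
    (f : J → K) (B : ℝ) (hB : 0 ≤ B) (hf : ∀ j, w (f j) ≤ B) (s : Finset J) :
    w (∑ j ∈ s, f j) ≤ B := by
  classical
  induction s using Finset.induction_on with
  | empty => simpa using hB
  | insert a s ha ih =>
    rw [Finset.sum_insert ha]
    exact (w.add_le _ _).trans (max_le (hf a) ih)

lemma Van_int_le {K : Type} [Field K] [NumberField K] (w : FinitePlace K) (n : ℤ) :
    w (n : K) ≤ 1 := by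
  rw [← FinitePlace.mk_maximalIdeal w, FinitePlace.mk_apply, FinitePlace.norm_embedding]
  exact HeightOneSpectrum.adicAbv_intCast_le_one _ _ n

lemma Van_fin {K : Type} [Field K] [NumberField K] (w : FinitePlace K) {J : Type} [Fintype J]
    (ex : J → Fin 3 → ℕ) (c : J → ℤ) (D : ℕ) (x : Fin 3 → K)
    (hex : ∀ j i, ex j i ≤ D) :
    w (∑ j, (c j : K) * ∏ i, x i ^ ex j i) ≤ ∏ i, max (w (x i)) 1 ^ D := by
  refine Van_sum_le w _ _ (Van_B_nonneg w.1 D x) (fun j => ?_) _
  rw [map_mul]
  calc w (c j : K) * w (∏ i, x i ^ ex j i) ≤ 1 * ∏ i, max (w (x i)) 1 ^ D :=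
        mul_le_mul (Van_int_le w _) (Van_prod_le w.1 D x (ex j) (hex j)) (w.1.nonneg _) zero_le_one
    _ = _ := one_mul _

lemma Van_supp {K : Type} [Field K] [NumberField K] (x : K) :
    (Function.mulSupport fun w : FinitePlace K => max (w x) 1).Finite := by
  rcases eq_or_ne x 0 with rfl | hx
  · convert Set.finite_empty
    ext w
    simp
  · refine (FinitePlace.hasFiniteMulSupport hx).subset ?_
    intro w hw h
    apply hw
    have h' : w x = 1 := h
    change max (w x) 1 = 1
    rw [h', max_self]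

theorem pr_Van : S_Van := by
  classical
  intro K _ _ v J _ ex c X D x θ hX hc hex hθ hlt
  by_contra hg
  set g : K := ∑ j, (c j : K) * ∏ i, x i ^ ex j i with hgdef
  set w0 : FinitePlace K := FinitePlace.mk v with hw0
  have hw0g : w0 g ≤ θ := by
    rw [hw0, FinitePlace.mk_apply, FinitePlace.norm_embedding]
    exact hθ
  have hθ0 : 0 ≤ θ := (w0.1.nonneg g).trans hw0g
  -- a common finite set of finite places
  obtain ⟨S, hS0, hSg, hSx⟩ : ∃ S : Finset (FinitePlace K), w0 ∈ S ∧
      (Function.mulSupport fun w : FinitePlace K => w g) ⊆ S ∧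
      ∀ i, (Function.mulSupport fun w : FinitePlace K => max (w (x i)) 1) ⊆ S := by
    refine ⟨{w0} ∪ (FinitePlace.hasFiniteMulSupport hg).toFinset ∪
      Finset.univ.biUnion fun i => (Van_supp (x i)).toFinset, ?_, ?_, ?_⟩
    · simp
    · intro w hw
      rw [Finset.mem_coe, Finset.mem_union, Finset.mem_union]
      exact Or.inl (Or.inr (by rw [Set.Finite.mem_toFinset]; exact hw))
    · intro i w hw
      rw [Finset.mem_coe, Finset.mem_union]
      refine Or.inr ?_
      rw [Finset.mem_biUnion]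
      exact ⟨i, Finset.mem_univ _, by rw [Set.Finite.mem_toFinset]; exact hw⟩
  have hpf := NumberField.prod_abs_eq_one hg
  have hfin1 : ∏ᶠ w : FinitePlace K, w g = ∏ w ∈ S, w g :=
    finprod_eq_prod_of_mulSupport_subset _ hSg
  have hfin2 : ∀ i, ∏ᶠ w : FinitePlace K, max (w (x i)) 1 = ∏ w ∈ S, max (w (x i)) 1 :=
    fun i => finprod_eq_prod_of_mulSupport_subset _ (hSx i)
  have hfin3 : ∏ w ∈ S, w g ≤ θ * ∏ i, (∏ᶠ w : FinitePlace K, max (w (x i)) 1) ^ D := by
    have h1 : ∏ w ∈ S, w g ≤
        ∏ w ∈ S, ((if w = w0 then θ else 1) * ∏ i, max (w (x i)) 1 ^ D) := by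
      refine Finset.prod_le_prod (fun w _ => w.1.nonneg _) fun w _ => ?_
      split_ifs with h
      · rw [h]
        refine hw0g.trans ?_
        have h2 : (1 : ℝ) ≤ ∏ i, max (w0 (x i)) 1 ^ D := by
          have h3 : ∏ _i : Fin 3, (1 : ℝ) ≤ ∏ i, max (w0 (x i)) 1 ^ D :=
            Finset.prod_le_prod (fun i _ => zero_le_one) fun i _ => one_le_pow₀ (le_max_right _ _)
          rwa [Finset.prod_const_one] at h3
        nlinarith
      · rw [one_mul]
        exact Van_fin w ex c D x hex
    refine h1.trans (le_of_eq ?_)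
    rw [Finset.prod_mul_distrib, Finset.prod_ite_eq' S w0 (fun _ => θ), if_pos hS0,
      Finset.prod_comm]
    congr 1
    refine Finset.prod_congr rfl fun i _ => ?_
    rw [hfin2, Finset.prod_pow]
  have hinf : ∏ v : InfinitePlace K, v g ^ v.mult ≤
      ((Fintype.card J * X : ℕ) : ℝ) ^ Module.finrank ℚ K *
        ∏ i, (∏ v : InfinitePlace K, max (v (x i)) 1 ^ v.mult) ^ D := by
    have h1 : ∏ v : InfinitePlace K, v g ^ v.mult ≤ ∏ v : InfinitePlace K,
        (((Fintype.card J * X : ℕ) : ℝ) * ∏ i, max (v (x i)) 1 ^ D) ^ v.mult := by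
      refine Finset.prod_le_prod (fun w _ => pow_nonneg (w.1.nonneg _) _) fun w _ => ?_
      exact pow_le_pow_left₀ (w.1.nonneg _) (Van_arch w ex c X D x hc hex) _
    refine h1.trans (le_of_eq ?_)
    simp_rw [mul_pow]
    rw [Finset.prod_mul_distrib, Finset.prod_pow_eq_pow_sum, InfinitePlace.sum_mult_eq]
    congr 1
    simp_rw [← Finset.prod_pow]
    rw [Finset.prod_comm]
    refine Finset.prod_congr rfl fun i _ => ?_
    refine Finset.prod_congr rfl fun w _ => ?_
    rw [← pow_mul, ← pow_mul, mul_comm]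
  have hH : ∏ i, mulHeight₁ (x i) ^ D =
      (∏ i, (∏ v : InfinitePlace K, max (v (x i)) 1 ^ v.mult) ^ D) *
        ∏ i, (∏ᶠ w : FinitePlace K, max (w (x i)) 1) ^ D := by
    rw [← Finset.prod_mul_distrib]
    refine Finset.prod_congr rfl fun i _ => ?_
    rw [NumberField.mulHeight₁_eq, mul_pow]
  have hfinal : (1 : ℝ) ≤ θ * (((Fintype.card J * X : ℕ) : ℝ) ^ Module.finrank ℚ K *
      ∏ i, mulHeight₁ (x i) ^ D) := by
    rw [hfin1] at hpf
    rw [← hpf, hH]
    calc (∏ v : InfinitePlace K, v g ^ v.mult) * ∏ w ∈ S, w g ≤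
        (((Fintype.card J * X : ℕ) : ℝ) ^ Module.finrank ℚ K *
          ∏ i, (∏ v : InfinitePlace K, max (v (x i)) 1 ^ v.mult) ^ D) *
          (θ * ∏ i, (∏ᶠ w : FinitePlace K, max (w (x i)) 1) ^ D) := by
          refine mul_le_mul hinf hfin3 (Finset.prod_nonneg fun w _ => w.1.nonneg _) ?_
          refine mul_nonneg (by positivity) (Finset.prod_nonneg fun i _ => pow_nonneg
            (Finset.prod_nonneg fun w _ => pow_nonneg (zero_le_one.trans (le_max_right _ _)) _) _)
      _ = _ := by ring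
  linarith

end Pool.Agent.Work.MP_91e6de_nt.DM

end

section

set_option autoImplicit false

/-!
# The determinant method along orbits (MP_91e6de): statements, Part C (rational self-maps of the
projective plane)
-/

namespace Pool.Agent.Work.MP_91e6de_nt.DM

open MvPolynomial NumberField IsDedekindDomain Height Filter Topology

/-- C01 a line missing a piece of the orbit -/
def S_Wnd : Prop := ∀ (K : Type) [Field K] [CharZero K] (M : ℕ) (P : ℕ → Fin 3 → K),
  (∀ n, P n ≠ 0) → ∃ a b : ℕ, a ≤ M + 1 ∧ b ≤ M + 1 ∧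
    ∀ n ≤ M, P n 2 + a * P n 0 + b * P n 1 ≠ 0

/-- C02 orbits in the chart -/
def S_CoO : Prop := ∀ (A K : Type) [CommRing A] [Field K] [Algebra A K] (e M a b : ℕ)
  (F : Fin 3 → MvPolynomial (Fin 3) A) (P : ℕ → Fin 3 → K), (∀ i, (F i).IsHomogeneous e) →
  (∀ n i, P (n + 1) i = aeval (P n) (F i)) → (∀ n ≤ M, P n 2 + a * P n 0 + b * P n 1 ≠ 0) →
    IsOrb (pF a b F) M (fun n => ch a b (P n))

/-- C03 degrees in the chart -/
def S_CoD : Prop := ∀ (A : Type) [CommRing A] (e a b : ℕ)
  (F : Fin 3 → MvPolynomial (Fin 3) A), (∀ i, (F i).IsHomogeneous e) →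
    ∀ i, (pF a b F i).totalDegree ≤ e

/-- C04 heights of values of polynomials -/
def S_PoH : Prop := ∀ (K : Type) [Field K] [NumberField K] (σ : Type) [Fintype σ]
  (p : MvPolynomial σ K), ∃ C : ℝ, 0 ≤ C ∧
    ∀ x : σ → K, logHeight₁ (aeval x p) ≤ C * (1 + ∑ i, logHeight₁ (x i))

/-- C05 heights in the chart -/
def S_CoH : Prop := ∀ (K : Type) [Field K] [NumberField K]
  (F : Fin 3 → MvPolynomial (Fin 3) (𝓞 K)), ∃ C : ℝ, 0 ≤ C ∧
    ∀ (a b : ℕ) (P : Fin 3 → K), P 2 + a * P 0 + b * P 1 ≠ 0 →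
      (∀ i, logHeight₁ (ch a b P i) ≤ C * (1 + logHeight P + Real.log (a + b + 1))) ∧
      logHeight₁ (aeval (ch a b P) (pF a b F 2)) ≤
        C * (1 + logHeight P + Real.log (a + b + 1))

/-- C06 large degree gives a large partial reduced degree -/
def S_RDF : Prop := ∀ (K : Type) [Field K] [CharZero K] (F : Fin 3 → MvPolynomial (Fin 3) K)
  (e a b k D : ℕ), 1 ≤ D → (∀ i, (F i).IsHomogeneous e) → 4 * D < dgF F k →
  itr e (pF a b F) k 2 ≠ 0 →
    ∃ i j : Fin 2, RD j D (itr e (pF a b F) k i.castSucc) (itr e (pF a b F) k 2)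

/-- C07 homogenisation of the chain -/
def S_Hom : Prop := ∀ (K : Type) [Field K] [CharZero K] (F : Fin 3 → MvPolynomial (Fin 3) K)
  (e a b : ℕ), (∀ i, (F i).IsHomogeneous e) →
    (∀ G : MvPolynomial (Fin 2) K, G ≠ 0 → hG a b G ≠ 0 ∧
      (hG a b G).IsHomogeneous G.totalDegree) ∧
    (∀ (G : MvPolynomial (Fin 2) K) (P : Fin 3 → K), P 2 + a * P 0 + b * P 1 ≠ 0 →
      (aeval P (hG a b G) = 0 ↔ aeval (ch a b P) G = 0)) ∧
    (∀ G G' : MvPolynomial (Fin 2) K, G ∣ G' → hG a b G ∣ hG a b G') ∧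
    (∀ G G' : MvPolynomial (Fin 2) K, G ∣ pull (pF a b F) G' →
      hG a b G ∣ aeval F (hG a b G'))

/-- C08 slow orbits are not dense, integral coefficients -/
def S_T2A : Prop := ∀ (K : Type) [Field K] [NumberField K]
  (F : Fin 3 → MvPolynomial (Fin 3) (𝓞 K)) (e k0 : ℕ) (lam : ℝ), 1 ≤ e →
  (∀ i, (F i).IsHomogeneous e) → 1 < lam →
  (∀ k, k0 ≤ k → lam ^ k ≤ dgF (fun i => map (algebraMap (𝓞 K) K) (F i)) k) →
    ∃ η : ℝ, 0 < η ∧ ∀ (P : ℕ → Fin 3 → K) (C : ℝ), (∀ n, P n ≠ 0) →
      (∀ n i, P (n + 1) i = aeval (P n) (F i)) →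
      (∀ n : ℕ, logHeight (P n) ≤ C * ((n : ℝ) + 1) ^ η) →
        ∃ (r : ℕ) (G : MvPolynomial (Fin 3) K), G ≠ 0 ∧ G.IsHomogeneous r ∧
          ∀ n, aeval (P n) G = 0

/-- C09 THEOREM II: power gap for rational self-maps of the projective plane -/
def S_ThII : Prop := ∀ (K : Type) [Field K] [NumberField K]
  (F : Fin 3 → MvPolynomial (Fin 3) K) (e : ℕ) (δ : ℝ), (∀ i, (F i).IsHomogeneous e) →
  Tendsto (fun n : ℕ => (dgF F n : ℝ) ^ ((1 : ℝ) / n)) atTop (𝓝 δ) → 1 < δ →
    ∃ η : ℝ, 0 < η ∧ ∀ P : ℕ → Fin 3 → K, (∀ n, P n ≠ 0) →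
      (∀ n i, P (n + 1) i = aeval (P n) (F i)) →
      (∀ (r : ℕ) (G : MvPolynomial (Fin 3) K), G.IsHomogeneous r →
        (∀ n, aeval (P n) G = 0) → G = 0) →
        ∀ C : ℝ, ∃ᶠ n : ℕ in atTop, C * (n : ℝ) ^ η < logHeight (P n) / Module.finrank ℚ K

end Pool.Agent.Work.MP_91e6de_nt.DM

end

section

set_option autoImplicit false

/-!
# Basic facts on Hilbert functions (proved)
-/

namespace Pool.Agent.Work.MP_91e6de_nt.DMR

open MvPolynomial

section

set_option linter.unusedSectionVars false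

variable {σ K : Type} [Fintype σ] [Field K]

instance finMap {V : Type} [AddCommGroup V] [Module K V] (f : MvPolynomial σ K →ₗ[K] V) (D : ℕ) :
    Module.Finite K ((restrictTotalDegree σ K D).map f) := by
  infer_instance

/-- The Hilbert function computed with any linear map with the right kernel. -/
theorem HF_eq {V : Type} [AddCommGroup V] [Module K V] (I : Ideal (MvPolynomial σ K)) (D : ℕ)
    (f : MvPolynomial σ K →ₗ[K] V) (h : ∀ F, F.totalDegree ≤ D → (f F = 0 ↔ F ∈ I)) :
    HF I D = Module.finrank K ((restrictTotalDegree σ K D).map f) := by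
  have key : ∀ {W : Type} [AddCommGroup W] [Module K W] (g : MvPolynomial σ K →ₗ[K] W),
      (∀ F, F.totalDegree ≤ D → (g F = 0 ↔ F ∈ I)) →
      Module.finrank K ((restrictTotalDegree σ K D).map g) +
        Module.finrank K (LinearMap.ker (((Ideal.Quotient.mkₐ K I).toLinearMap).domRestrict
          (restrictTotalDegree σ K D))) = Module.finrank K (restrictTotalDegree σ K D) := by
    intro W _ _ g hg
    have h1 := LinearMap.finrank_range_add_finrank_ker (g.domRestrict (restrictTotalDegree σ K D))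
    have h2 : LinearMap.ker (g.domRestrict (restrictTotalDegree σ K D)) =
        LinearMap.ker (((Ideal.Quotient.mkₐ K I).toLinearMap).domRestrict
          (restrictTotalDegree σ K D)) := by
      ext ⟨F, hF⟩
      rw [mem_restrictTotalDegree] at hF
      simp only [LinearMap.mem_ker, LinearMap.domRestrict_apply, AlgHom.toLinearMap_apply,
        Ideal.Quotient.mkₐ_eq_mk, Ideal.Quotient.eq_zero_iff_mem]
      exact hg F hF
    rw [h2, LinearMap.range_domRestrict] at h1
    exact h1
  have a1 := key f h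
  have a2 := key (Ideal.Quotient.mkₐ K I).toLinearMap (by
    intro F _
    simp only [AlgHom.toLinearMap_apply, Ideal.Quotient.mkₐ_eq_mk, Ideal.Quotient.eq_zero_iff_mem])
  unfold HF
  omega

theorem HF_mono (I : Ideal (MvPolynomial σ K)) {D D' : ℕ} (h : D ≤ D') : HF I D ≤ HF I D' := by
  apply Submodule.finrank_mono
  apply Submodule.map_mono
  intro F hF
  rw [mem_restrictTotalDegree] at hF ⊢
  omega

/-- Relations: more polynomials of degree `≤ D` than `HF I D` are dependent modulo `I`. -/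
theorem exists_rel (I : Ideal (MvPolynomial σ K)) (D : ℕ) {ι : Type} [Fintype ι]
    (f : ι → MvPolynomial σ K) (hf : ∀ i, (f i).totalDegree ≤ D) (hc : HF I D < Fintype.card ι) :
    ∃ c : ι → K, c ≠ 0 ∧ ∑ i, c i • f i ∈ I := by
  by_contra hcon
  push Not at hcon
  have hli : LinearIndependent K (fun i => (⟨(Ideal.Quotient.mkₐ K I).toLinearMap (f i),
      Submodule.mem_map_of_mem ((mem_restrictTotalDegree σ D (f i)).mpr (hf i))⟩ :
      (restrictTotalDegree σ K D).map (Ideal.Quotient.mkₐ K I).toLinearMap)) := by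
    rw [Fintype.linearIndependent_iff]
    intro c hc0
    by_contra hne
    push Not at hne
    obtain ⟨i, hi⟩ := hne
    apply hcon c (fun h0 => hi (by rw [h0]; rfl))
    have h1 := congrArg Subtype.val hc0
    simp only [AddSubmonoidClass.coe_finset_sum, Submodule.coe_smul, Submodule.coe_zero] at h1
    rw [← Ideal.Quotient.eq_zero_iff_mem, ← Ideal.Quotient.mkₐ_eq_mk K I]
    rw [← AlgHom.toLinearMap_apply, map_sum]
    simpa only [map_smul] using h1
  have := hli.fintype_card_le_finrank
  unfold HF at hc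
  omega

/-- Independent families bound the Hilbert function from below. -/
theorem card_le_HF (I : Ideal (MvPolynomial σ K)) (D : ℕ) {ι : Type} [Fintype ι]
    (f : ι → MvPolynomial σ K) (hf : ∀ i, (f i).totalDegree ≤ D)
    (hc : ∀ c : ι → K, ∑ i, c i • f i ∈ I → c = 0) : Fintype.card ι ≤ HF I D := by
  by_contra hlt
  push Not at hlt
  obtain ⟨c, hne, hm⟩ := exists_rel I D f hf hlt
  exact hne (hc c hm)

/-- There are `HF I D` polynomials of degree `≤ D` which form a basis modulo `I`. -/
theorem exists_basis (I : Ideal (MvPolynomial σ K)) (D : ℕ) :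
    ∃ f : Fin (HF I D) → MvPolynomial σ K, (∀ i, (f i).totalDegree ≤ D) ∧
      (∀ c : Fin (HF I D) → K, ∑ i, c i • f i ∈ I → c = 0) ∧
      ∀ F : MvPolynomial σ K, F.totalDegree ≤ D →
        ∃ c : Fin (HF I D) → K, F - ∑ i, c i • f i ∈ I := by
  classical
  let V := (restrictTotalDegree σ K D).map (Ideal.Quotient.mkₐ K I).toLinearMap
  let b : Module.Basis (Fin (HF I D)) K V := Module.finBasis K V
  have hb : ∀ i, ∃ F : MvPolynomial σ K, F.totalDegree ≤ D ∧
      (Ideal.Quotient.mkₐ K I).toLinearMap F = (b i : MvPolynomial σ K ⧸ I) := by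
    intro i
    obtain ⟨F, hF, hFe⟩ := (b i).2
    exact ⟨F, (mem_restrictTotalDegree σ D F).mp hF, hFe⟩
  choose f hf1 hf2 using hb
  refine ⟨f, hf1, ?_, ?_⟩
  · intro c hc
    rw [← Ideal.Quotient.eq_zero_iff_mem, ← Ideal.Quotient.mkₐ_eq_mk K I,
      ← AlgHom.toLinearMap_apply, map_sum] at hc
    simp only [map_smul, hf2] at hc
    have h3 : ∑ i, c i • b i = 0 := by
      apply Subtype.ext
      simpa only [AddSubmonoidClass.coe_finset_sum, Submodule.coe_smul, Submodule.coe_zero]
        using hc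
    have h4 := Fintype.linearIndependent_iff.mp b.linearIndependent c h3
    funext i
    exact h4 i
  · intro F hF
    have hm : (Ideal.Quotient.mkₐ K I).toLinearMap F ∈ V :=
      Submodule.mem_map_of_mem ((mem_restrictTotalDegree σ D F).mpr hF)
    refine ⟨fun i => b.repr ⟨_, hm⟩ i, ?_⟩
    rw [← Ideal.Quotient.eq_zero_iff_mem, ← Ideal.Quotient.mkₐ_eq_mk K I,
      ← AlgHom.toLinearMap_apply, map_sub, map_sum]
    simp only [map_smul, hf2]
    have h5 := congrArg Subtype.val (b.sum_repr ⟨_, hm⟩)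
    simp only [AddSubmonoidClass.coe_finset_sum, Submodule.coe_smul] at h5
    rw [h5, sub_self]

/-- A family spanning the polynomials of degree `≤ D` modulo `I` bounds the Hilbert function. -/
theorem HF_le_card (I : Ideal (MvPolynomial σ K)) (D : ℕ) {ι : Type} [Fintype ι]
    (f : ι → MvPolynomial σ K)
    (h : ∀ F : MvPolynomial σ K, F.totalDegree ≤ D → ∃ c : ι → K, F - ∑ i, c i • f i ∈ I) :
    HF I D ≤ Fintype.card ι := by
  classical
  have h1 : (restrictTotalDegree σ K D).map (Ideal.Quotient.mkₐ K I).toLinearMap ≤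
      Submodule.span K (Set.range fun i => (Ideal.Quotient.mkₐ K I).toLinearMap (f i)) := by
    rintro _ ⟨F, hF, rfl⟩
    obtain ⟨c, hc⟩ := h F ((mem_restrictTotalDegree σ D F).mp hF)
    rw [← Ideal.Quotient.eq_zero_iff_mem, ← Ideal.Quotient.mkₐ_eq_mk K I,
      ← AlgHom.toLinearMap_apply, map_sub, map_sum, sub_eq_zero] at hc
    rw [hc]
    simp only [map_smul]
    exact Submodule.sum_mem _ fun i _ => Submodule.smul_mem _ _ (Submodule.subset_span ⟨i, rfl⟩)
  have : Module.Finite K (Submodule.span K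
      (Set.range fun i => (Ideal.Quotient.mkₐ K I).toLinearMap (f i))) :=
    FiniteDimensional.span_of_finite K (Set.finite_range _)
  exact (Submodule.finrank_mono h1).trans (finrank_range_le_card _)

theorem HF_anti {I I' : Ideal (MvPolynomial σ K)} (h : I ≤ I') (D : ℕ) : HF I' D ≤ HF I D := by
  obtain ⟨f, _, _, hf⟩ := exists_basis I D
  have := HF_le_card I' D f (fun F hF => by
    obtain ⟨c, hc⟩ := hf F hF
    exact ⟨c, h hc⟩)
  simpa using this

theorem HF_zero_le (I : Ideal (MvPolynomial σ K)) : HF I 0 ≤ 1 := by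
  have := HF_le_card I 0 (fun _ : Fin 1 => (1 : MvPolynomial σ K)) (fun F hF => by
    refine ⟨fun _ => F.coeff 0, ?_⟩
    rw [totalDegree_eq_zero_iff_eq_C.mp (Nat.le_zero.mp hF)]
    simp [MvPolynomial.smul_eq_C_mul])
  simpa using this

theorem HF_le_pow (I : Ideal (MvPolynomial σ K)) (D : ℕ) :
    HF I D ≤ (D + 1) ^ Fintype.card σ := by
  classical
  have := HF_le_card I D (fun a : σ → Fin (D + 1) =>
    monomial (Finsupp.equivFunOnFinite.symm fun i => (a i : ℕ)) (1 : K)) (fun F hF => by
    refine ⟨fun a => F.coeff (Finsupp.equivFunOnFinite.symm fun i => (a i : ℕ)), ?_⟩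
    have : F = ∑ a : σ → Fin (D + 1),
        F.coeff (Finsupp.equivFunOnFinite.symm fun i => (a i : ℕ)) •
          monomial (Finsupp.equivFunOnFinite.symm fun i => (a i : ℕ)) (1 : K) := by
      ext m
      rw [coeff_sum]
      simp only [coeff_smul, coeff_monomial, smul_eq_mul, mul_ite, mul_one, mul_zero]
      by_cases hm : ∀ i, m i < D + 1
      · rw [Finset.sum_eq_single (fun i => (⟨m i, hm i⟩ : Fin (D + 1)))]
        · rw [if_pos]
          · congr 1
            ext i
            simp
          · ext i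
            simp
        · intro a _ ha
          rw [if_neg]
          intro h
          apply ha
          funext i
          apply Fin.ext
          have := DFunLike.congr_fun h i
          simpa using this
        · intro h
          exact absurd (Finset.mem_univ _) h
      · push Not at hm
        obtain ⟨i, hi⟩ := hm
        have h0 : F.coeff m = 0 := by
          by_contra hne
          have h1 := le_totalDegree (mem_support_iff.mpr hne)
          have h2 : m i ≤ m.sum fun _ e => e := by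
            by_cases h3 : m i = 0
            · omega
            · exact Finset.single_le_sum (f := fun i => m i) (fun _ _ => Nat.zero_le _)
                (Finsupp.mem_support_iff.mpr h3)
          omega
        rw [h0]
        symm
        apply Finset.sum_eq_zero
        intro a _
        split_ifs with h
        · rw [h]; exact h0
        · rfl
    rw [← this, sub_self]
    exact I.zero_mem)
  simpa using this

/-- The Hilbert function of the zero ideal. -/
theorem HB_bot : HB (⊥ : Ideal (MvPolynomial σ K)) (2 ^ Fintype.card σ) (Fintype.card σ) := by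
  intro D hD
  refine (HF_le_pow ⊥ D).trans ?_
  rw [← mul_pow]
  exact Nat.pow_le_pow_left (by omega) _

theorem HB_mono {I : Ideal (MvPolynomial σ K)} {B B' d : ℕ} (h : HB I B d) (hB : B ≤ B') :
    HB I B' d := fun D hD => (h D hD).trans (Nat.mul_le_mul_right _ hB)

theorem Dim_uniq {I : Ideal (MvPolynomial σ K)} {d d' : ℕ} (h : Dim I d) (h' : Dim I d') :
    d = d' := by
  obtain ⟨⟨J, hJ, hi⟩, hm⟩ := h
  obtain ⟨⟨J', hJ', hi'⟩, hm'⟩ := h'
  exact le_antisymm (hJ ▸ hm' J hi) (hJ' ▸ hm J' hi')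

theorem Dim_le {I : Ideal (MvPolynomial σ K)} {d : ℕ} (h : Dim I d) : d ≤ Fintype.card σ := by
  obtain ⟨⟨J, hJ, _⟩, _⟩ := h
  exact hJ ▸ Finset.card_le_univ J

theorem Dim_bot : Dim (⊥ : Ideal (MvPolynomial σ K)) (Fintype.card σ) :=
  ⟨⟨Finset.univ, rfl, fun F hF _ => by simpa using hF⟩, fun J _ => Finset.card_le_univ J⟩

theorem ne_top_of_Dim {I : Ideal (MvPolynomial σ K)} {d : ℕ} (h : Dim I d) : I ≠ ⊤ := by
  obtain ⟨⟨J, _, hi⟩, _⟩ := h
  intro ht
  have := hi 1 (ht ▸ Submodule.mem_top) (by simp)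
  exact one_ne_zero this

theorem ne_bot_of_Dim {I : Ideal (MvPolynomial σ K)} {d : ℕ} (h : Dim I d)
    (hd : d < Fintype.card σ) : I ≠ ⊥ := by
  rintro rfl
  exact absurd (Dim_uniq h Dim_bot) hd.ne

theorem Ind_mono {I : Ideal (MvPolynomial σ K)} {J J' : Finset σ} (h : Ind I J) (hJ : J' ⊆ J) :
    Ind I J' := fun F hF hv => h F hF (hv.trans hJ)

theorem Ind_anti {I I' : Ideal (MvPolynomial σ K)} {J : Finset σ} (h : Ind I' J) (hI : I ≤ I') :
    Ind I J := fun F hF hv => h F (hI hF) hv

/-- Evaluation of `hsub`. -/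
theorem hsub_eval {A S : Type} [CommRing A] [Field S] [Algebra A S] (e : ℕ)
    (p : MvPolynomial σ A) (hp : p.totalDegree ≤ e) (u : σ → S) (w : S) (hw : w ≠ 0) :
    hsub e p u w = w ^ e * aeval (fun i => u i / w) p := by
  classical
  rw [aeval_def, eval₂_eq']
  unfold hsub
  rw [Finset.mul_sum]
  apply Finset.sum_congr rfl
  intro m hm
  have h1 : ∑ i, m i ≤ e := by
    refine le_trans ?_ ((le_totalDegree hm).trans hp)
    rw [Finsupp.sum_fintype]
    simp
  simp only [div_pow, Finset.prod_div_distrib, Finset.prod_pow_eq_pow_sum]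
  have h2 : w ^ e = w ^ (e - ∑ i, m i) * w ^ ∑ i, m i := by
    rw [← pow_add]; congr 1; omega
  rw [h2]
  have h3 : w ^ ∑ i, m i ≠ 0 := pow_ne_zero _ hw
  field_simp

/-- `hsub` and ring homomorphisms. -/
theorem map_hsub {A S S' : Type} [CommRing A] [CommRing S] [CommRing S'] [Algebra A S]
    [Algebra A S'] (f : S →ₐ[A] S') (e : ℕ) (p : MvPolynomial σ A) (u : σ → S) (w : S) :
    f (hsub e p u w) = hsub e p (fun i => f (u i)) (f w) := by
  unfold hsub
  simp [map_sum, map_mul, map_prod, map_pow]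

end

end Pool.Agent.Work.MP_91e6de_nt.DMR

namespace Pool.Agent.Work.MP_91e6de_nt.DMR

open MvPolynomial

set_option linter.unusedSectionVars false

theorem exists_Dim {σ K : Type} [Fintype σ] [Field K] (I : Ideal (MvPolynomial σ K))
    (hI : I ≠ ⊤) : ∃ d, Dim I d := by
  classical
  have h0 : Ind I ∅ := by
    intro F hF hv
    have h1 : F.vars = ∅ := Finset.subset_empty.mp hv
    rw [vars_eq_empty_iff_eq_C] at h1
    obtain ⟨c, hc⟩ : ∃ c, C c = F := ⟨_, h1.symm⟩
    by_contra hne
    apply hI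
    rw [Ideal.eq_top_iff_one]
    have hc0 : c ≠ 0 := by
      rintro rfl
      apply hne
      rw [← hc]; simp
    have : (1 : MvPolynomial σ K) = C c⁻¹ * F := by
      rw [← hc]
      rw [← C_mul, inv_mul_cancel₀ hc0, C_1]
    rw [this]
    exact I.mul_mem_left _ hF
  obtain ⟨J, hJ, hmax⟩ := Finset.exists_max_image (Finset.univ.filter fun J : Finset σ => Ind I J)
    Finset.card ⟨∅, by simpa using h0⟩
  refine ⟨J.card, ⟨J, rfl, (Finset.mem_filter.mp hJ).2⟩, fun J' hJ' => hmax J' (by simpa using hJ')⟩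

theorem Lv.mono {σ K : Type} [Fintype σ] [Field K] {P : ℕ → σ → K} {I : Ideal (MvPolynomial σ K)}
    {S : Finset ℕ} {d B L N R B' L' R' : ℕ} (h : Lv P I S d B L N R) (hB : B ≤ B')
    (hL : L ≤ L') (hR : R ≤ R') : Lv P I S d B' L' N R' :=
  ⟨h.prime, h.dim, HB_mono h.hb hB, h.big.trans (Nat.mul_le_mul_left _ hL),
    fun n hn => (h.bd n hn).trans hR, h.on⟩

end Pool.Agent.Work.MP_91e6de_nt.DMR

end

section

set_option autoImplicit false

/-!
# The determinant method along orbits (MP_91e6de): polynomials in the second variable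
-/

namespace Pool.Agent.Work.MP_91e6de_nt.DM

open MvPolynomial

/-- `K[x, y] = K[x][y]`. -/
noncomputable def auxY (K : Type) [Field K] :
    MvPolynomial (Fin 2) K ≃ₐ[K] Polynomial (MvPolynomial (Fin 1) K) :=
  (renameEquiv K (Equiv.swap (0 : Fin 2) 1)).trans (finSuccEquiv K 1)

theorem auxY_natDegree {K : Type} [Field K] (P : MvPolynomial (Fin 2) K) :
    (auxY K P).natDegree = P.degreeOf 1 := by
  unfold auxY
  rw [AlgEquiv.trans_apply, natDegree_finSuccEquiv, renameEquiv_apply]
  have h := degreeOf_rename_of_injective (p := P) (f := (Equiv.swap (0 : Fin 2) 1))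
    (Equiv.injective _) 1
  rw [Equiv.swap_apply_right] at h
  exact h

theorem auxY_X0 (K : Type) [Field K] : auxY K (X 0) = Polynomial.C (X 0) := by
  unfold auxY
  rw [AlgEquiv.trans_apply, renameEquiv_apply, rename_X, Equiv.swap_apply_left]
  exact finSuccEquiv_X_succ (j := 0)

theorem auxY_X1 (K : Type) [Field K] : auxY K (X 1) = Polynomial.X := by
  unfold auxY
  rw [AlgEquiv.trans_apply, renameEquiv_apply, rename_X, Equiv.swap_apply_right]
  exact finSuccEquiv_X_zero

theorem auxY_C {K : Type} [Field K] (c : K) : auxY K (C c) = Polynomial.C (C c) := by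
  have h := (auxY K).commutes c
  rw [← MvPolynomial.algebraMap_eq]
  rw [h]
  rfl

/-- The binary form is compatible with algebra homomorphisms. -/
theorem auxY_bh {K S S' : Type} [Field K] [CommRing S] [Algebra K S] [CommRing S'] [Algebra K S']
    (f : S →ₐ[K] S') (d : ℕ) (A : MvPolynomial (Fin 2) K) (x u w : S) :
    f (bh d A x u w) = bh d A (f x) (f u) (f w) := by
  unfold bh
  rw [map_sum]
  refine Finset.sum_congr rfl ?_
  intro m _
  rw [map_mul, AlgHom.commutes, map_mul, map_mul, map_pow, map_pow, map_pow]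

section poly

variable {K R : Type} [Field K] [CommRing R] [Algebra K R]

theorem auxY_bh_term (d D : ℕ) (q : R) (U W : Polynomial R) (hU : U.natDegree ≤ D)
    (hW : W.natDegree ≤ D) (c : K) (i j : ℕ) (hj : j ≤ d) :
    (algebraMap K (Polynomial R) c * ((Polynomial.C q) ^ i * U ^ j * W ^ (d - j))).natDegree ≤
        d * D ∧
      (algebraMap K (Polynomial R) c * ((Polynomial.C q) ^ i * U ^ j * W ^ (d - j))).coeff
        (d * D) = algebraMap K R c * (q ^ i * (U.coeff D) ^ j * (W.coeff D) ^ (d - j)) := by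
  have hUj : (U ^ j).natDegree ≤ j * D :=
    Polynomial.natDegree_pow_le.trans (Nat.mul_le_mul_left _ hU)
  have hWj : (W ^ (d - j)).natDegree ≤ (d - j) * D :=
    Polynomial.natDegree_pow_le.trans (Nat.mul_le_mul_left _ hW)
  have hsum : j * D + (d - j) * D = d * D := by
    rw [← Nat.add_mul, Nat.add_sub_cancel' hj]
  have hUW : (U ^ j * W ^ (d - j)).natDegree ≤ d * D := by
    rw [← hsum]
    exact Polynomial.natDegree_mul_le_of_le hUj hWj
  have hrew : algebraMap K (Polynomial R) c * ((Polynomial.C q) ^ i * U ^ j * W ^ (d - j)) =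
      Polynomial.C (algebraMap K R c * q ^ i) * (U ^ j * W ^ (d - j)) := by
    rw [Polynomial.algebraMap_apply, map_mul, map_pow]
    ring
  have hcoeff : (U ^ j * W ^ (d - j)).coeff (d * D) = (U.coeff D) ^ j * (W.coeff D) ^ (d - j) := by
    rw [← hsum, Polynomial.coeff_mul_add_eq_of_natDegree_le hUj hWj,
      Polynomial.coeff_pow_of_natDegree_le hU, Polynomial.coeff_pow_of_natDegree_le hW]
  rw [hrew]
  refine ⟨(Polynomial.natDegree_C_mul_le _ _).trans hUW, ?_⟩
  rw [Polynomial.coeff_C_mul, hcoeff]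
  ring

theorem auxY_bh_natDegree (d D : ℕ) (A : MvPolynomial (Fin 2) K) (hA : A.degreeOf 1 ≤ d) (q : R)
    (U W : Polynomial R) (hU : U.natDegree ≤ D) (hW : W.natDegree ≤ D) :
    (bh d A (Polynomial.C q) U W).natDegree ≤ d * D := by
  unfold bh
  apply Polynomial.natDegree_sum_le_of_forall_le
  intro m hm
  exact (auxY_bh_term d D q U W hU hW _ _ _ ((monomial_le_degreeOf 1 hm).trans hA)).1

theorem auxY_bh_coeff (d D : ℕ) (A : MvPolynomial (Fin 2) K) (hA : A.degreeOf 1 ≤ d) (q : R)
    (U W : Polynomial R) (hU : U.natDegree ≤ D) (hW : W.natDegree ≤ D) :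
    (bh d A (Polynomial.C q) U W).coeff (d * D) = bh d A q (U.coeff D) (W.coeff D) := by
  unfold bh
  rw [Polynomial.finsetSum_coeff]
  refine Finset.sum_congr rfl ?_
  intro m hm
  exact (auxY_bh_term d D q U W hU hW _ _ _ ((monomial_le_degreeOf 1 hm).trans hA)).2

end poly

/-- A nonzero polynomial of positive degree in `y` has a prime factor of positive degree in `y`. -/
theorem auxY_prime {K : Type} [Field K] (G : MvPolynomial (Fin 2) K) (hG : G ≠ 0)
    (hd : G.degreeOf 1 ≠ 0) : ∃ p, Prime p ∧ p ∣ G ∧ p.degreeOf 1 ≠ 0 := by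
  induction G using UniqueFactorizationMonoid.induction_on_prime with
  | h₁ => exact absurd rfl hG
  | h₂ x hx =>
    exfalso
    obtain ⟨y, hy⟩ := hx.exists_right_inv
    have hx0 : x ≠ 0 := hG
    have hy0 : y ≠ 0 := by
      rintro rfl
      rw [mul_zero] at hy
      exact zero_ne_one hy
    have h := degreeOf_mul_eq (n := (1 : Fin 2)) hx0 hy0
    rw [hy] at h
    have h1 : degreeOf (1 : Fin 2) (1 : MvPolynomial (Fin 2) K) = 0 := degreeOf_one _
    omega
  | h₃ a p ha hp ih =>
    by_cases h : p.degreeOf 1 = 0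
    · have h2 := degreeOf_mul_eq (n := (1 : Fin 2)) hp.ne_zero ha
      have h3 : a.degreeOf 1 ≠ 0 := by omega
      obtain ⟨π, h4, h5, h6⟩ := ih ha h3
      exact ⟨π, h4, h5.mul_left p, h6⟩
    · exact ⟨p, hp, dvd_mul_right p a, h⟩

/-- A polynomial in `x + c` does not vanish. -/
theorem auxY_ev_ne {K : Type} [Field K] (n : ℕ) (c : K) (R : Polynomial K) (hR : R ≠ 0) :
    Polynomial.aeval (X 0 + C c : MvPolynomial (Fin (n + 1)) K) R ≠ 0 := by
  intro h
  apply hR
  let f : MvPolynomial (Fin (n + 1)) K →ₐ[K] Polynomial K :=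
    aeval (fun _ => Polynomial.X - Polynomial.C c)
  have h1 := congrArg f h
  rw [← Polynomial.aeval_algHom_apply, map_zero] at h1
  have h2 : f (X 0 + C c) = Polynomial.X := by
    change (aeval _) _ = _
    rw [map_add, aeval_X, ← MvPolynomial.algebraMap_eq, AlgHom.commutes]
    change Polynomial.X - Polynomial.C c + Polynomial.C c = Polynomial.X
    ring
  rw [h2, Polynomial.aeval_X_left_apply] at h1
  exact h1

theorem auxY_ev (K : Type) [Field K] (c : K) (R : Polynomial K) :
    auxY K (Polynomial.aeval (X 0 + C c : MvPolynomial (Fin 2) K) R) =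
      Polynomial.C (Polynomial.aeval (X 0 + C c : MvPolynomial (Fin 1) K) R) := by
  have h1 : auxY K (Polynomial.aeval (X 0 + C c : MvPolynomial (Fin 2) K) R) =
      Polynomial.aeval (auxY K (X 0 + C c)) R :=
    (Polynomial.aeval_algHom_apply (auxY K).toAlgHom _ _).symm
  rw [h1, map_add, auxY_X0, auxY_C, ← map_add]
  have h2 := (Polynomial.aeval_algHom_apply
    (Polynomial.CAlgHom (R := K) (A := MvPolynomial (Fin 1) K)) (X 0 + C c) R)
  exact h2

theorem auxY_ev_degree (K : Type) [Field K] (c : K) (R : Polynomial K) :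
    (Polynomial.aeval (X 0 + C c : MvPolynomial (Fin 2) K) R).degreeOf 1 = 0 := by
  rw [← auxY_natDegree, auxY_ev, Polynomial.natDegree_C]

/-- A prime of positive degree in `y` does not divide a polynomial in `x + c`. -/
theorem auxY_ev_dvd {K : Type} [Field K] (c : K) (R : Polynomial K) (hR : R ≠ 0)
    (p : MvPolynomial (Fin 2) K) (hp : p.degreeOf 1 ≠ 0) :
    ¬ p ∣ Polynomial.aeval (X 0 + C c : MvPolynomial (Fin 2) K) R := by
  rintro ⟨s, hs⟩
  have h0 := auxY_ev_ne 1 c R hR
  rw [hs] at h0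
  have h1 := degreeOf_mul_eq (n := (1 : Fin 2)) (left_ne_zero_of_mul h0) (right_ne_zero_of_mul h0)
  rw [← hs, auxY_ev_degree] at h1
  omega

end Pool.Agent.Work.MP_91e6de_nt.DM

end

section

set_option autoImplicit false

/-!
# Item Bck: back to homogeneous coordinates
-/

namespace Pool.Agent.Work.MP_91e6de_nt.DM

open MvPolynomial

section bck

variable {K S : Type} [Field K] [CommRing S] [Algebra K S]

theorem Bck_eq (d : ℕ) (A : MvPolynomial (Fin 2) K) (x u w : S) (T : Finset (Fin 2 →₀ ℕ))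
    (hT : A.support ⊆ T) :
    bh d A x u w = ∑ m ∈ T, algebraMap K S (A.coeff m) * (x ^ m 0 * u ^ m 1 * w ^ (d - m 1)) := by
  unfold bh
  refine Finset.sum_subset hT fun m _ hm => ?_
  rw [MvPolynomial.notMem_support_iff.1 hm, map_zero, zero_mul]

theorem Bck_add (d : ℕ) (A B : MvPolynomial (Fin 2) K) (x u w : S) :
    bh d (A + B) x u w = bh d A x u w + bh d B x u w := by
  classical
  rw [Bck_eq d (A + B) x u w (A.support ∪ B.support) MvPolynomial.support_add,
    Bck_eq d A x u w (A.support ∪ B.support) Finset.subset_union_left,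
    Bck_eq d B x u w (A.support ∪ B.support) Finset.subset_union_right,
    ← Finset.sum_add_distrib]
  refine Finset.sum_congr rfl fun m _ => ?_
  rw [MvPolynomial.coeff_add, map_add]
  ring

theorem Bck_zero (d : ℕ) (x u w : S) : bh d (0 : MvPolynomial (Fin 2) K) x u w = 0 := by
  simp [bh]

theorem Bck_sum {ι : Type*} (s : Finset ι) (d : ℕ) (A : ι → MvPolynomial (Fin 2) K) (x u w : S) :
    bh d (∑ i ∈ s, A i) x u w = ∑ i ∈ s, bh d (A i) x u w := by
  classical
  induction s using Finset.induction_on with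
  | empty => simp [Bck_zero]
  | insert a s ha ih => rw [Finset.sum_insert ha, Finset.sum_insert ha, Bck_add, ih]

theorem Bck_mono (d : ℕ) (m : Fin 2 →₀ ℕ) (a : K) (x u w : S) :
    bh d (monomial m a) x u w = algebraMap K S a * (x ^ m 0 * u ^ m 1 * w ^ (d - m 1)) := by
  classical
  rw [Bck_eq d (monomial m a) x u w {m} MvPolynomial.support_monomial_subset]
  simp

theorem Bck_mul (d d' : ℕ) (A B : MvPolynomial (Fin 2) K) (x u w : S) (hA : A.degreeOf 1 ≤ d)
    (hB : B.degreeOf 1 ≤ d') : bh (d + d') (A * B) x u w = bh d A x u w * bh d' B x u w := by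
  have h1 : A * B = ∑ m ∈ A.support, ∑ m' ∈ B.support,
      monomial (m + m') (A.coeff m * B.coeff m') := by
    conv_lhs => rw [A.as_sum, B.as_sum]
    rw [Finset.sum_mul_sum]
    refine Finset.sum_congr rfl fun m _ => Finset.sum_congr rfl fun m' _ => ?_
    rw [MvPolynomial.monomial_mul]
  rw [h1, Bck_sum]
  unfold bh
  rw [Finset.sum_mul_sum]
  refine Finset.sum_congr rfl fun m hm => ?_
  have := Bck_sum B.support (d + d') (fun m' => monomial (m + m') (A.coeff m * B.coeff m')) x u w
  unfold bh at this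
  rw [this]
  refine Finset.sum_congr rfl fun m' hm' => ?_
  have h2 := Bck_mono (d + d') (m + m') (A.coeff m * B.coeff m') x u w
  unfold bh at h2
  rw [h2]
  have h3 : m 1 ≤ d := (MvPolynomial.monomial_le_degreeOf 1 hm).trans hA
  have h4 : m' 1 ≤ d' := (MvPolynomial.monomial_le_degreeOf 1 hm').trans hB
  have h5 : d + d' - (m + m') 1 = (d - m 1) + (d' - m' 1) := by
    rw [Finsupp.add_apply]; omega
  rw [h5, map_mul, Finsupp.add_apply, Finsupp.add_apply, pow_add, pow_add, pow_add]
  ring

theorem Bck_one (d : ℕ) (x u w : S) : bh d (1 : MvPolynomial (Fin 2) K) x u w = w ^ d := by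
  have := Bck_mono (K := K) d 0 1 x u w
  simpa using this

theorem Bck_up (d n : ℕ) (A : MvPolynomial (Fin 2) K) (x u w : S) (hA : A.degreeOf 1 ≤ d) :
    bh (d + n) A x u w = bh d A x u w * w ^ n := by
  have h := Bck_mul d n A 1 x u w hA (by simp)
  rwa [mul_one, Bck_one] at h

theorem Bck_lin (L : ℕ) (x u w : S) :
    bh 1 (X 1 - X 0 ^ L : MvPolynomial (Fin 2) K) x u w = u - x ^ L * w := by
  have h1 : (X 1 - X 0 ^ L : MvPolynomial (Fin 2) K) =
      monomial (Finsupp.single 1 1) 1 + monomial (Finsupp.single 0 L) (-1) := by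
    rw [MvPolynomial.X_pow_eq_monomial, map_neg, sub_eq_add_neg]
    rfl
  rw [h1, Bck_add, Bck_mono, Bck_mono]
  simp
  ring

theorem Bck_degL (L : ℕ) : (X 1 - X 0 ^ L : MvPolynomial (Fin 2) K).degreeOf 1 ≤ 1 := by
  refine (MvPolynomial.degreeOf_sub_le _ _ _).trans (max_le ?_ ?_)
  · rw [MvPolynomial.degreeOf_X]; simp
  · refine (MvPolynomial.degreeOf_pow_le _ _ _).trans ?_
    rw [MvPolynomial.degreeOf_X]; simp

theorem Bck_degLn (L n : ℕ) : ((X 1 - X 0 ^ L : MvPolynomial (Fin 2) K) ^ n).degreeOf 1 ≤ n := by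
  refine (MvPolynomial.degreeOf_pow_le _ _ _).trans ?_
  calc n * (X 1 - X 0 ^ L : MvPolynomial (Fin 2) K).degreeOf 1 ≤ n * 1 :=
        Nat.mul_le_mul_left _ (Bck_degL L)
    _ = n := mul_one n

theorem Bck_pow (L n : ℕ) (x u w : S) :
    bh n ((X 1 - X 0 ^ L : MvPolynomial (Fin 2) K) ^ n) x u w = (u - x ^ L * w) ^ n := by
  induction n with
  | zero => rw [pow_zero, pow_zero, Bck_one, pow_zero]
  | succ n ih =>
    rw [pow_succ, Bck_mul n 1 _ _ x u w (Bck_degLn L n) (Bck_degL L), ih, Bck_lin, pow_succ]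

theorem Bck_deg0 (a : K) (k : ℕ) :
    (monomial (Finsupp.single 0 k) a : MvPolynomial (Fin 2) K).degreeOf 1 ≤ 0 := by
  classical
  rw [MvPolynomial.degreeOf_le_iff]
  intro m hm
  have := MvPolynomial.support_monomial_subset hm
  rw [Finset.mem_singleton] at this
  subst this
  simp

/-- the polynomial `G` -/
noncomputable def Bck_G (L : ℕ) (G' : MvPolynomial (Fin 2) K) : MvPolynomial (Fin 2) K :=
  ∑ m ∈ G'.support, monomial (Finsupp.single 0 (m 0)) (G'.coeff m) *
    (X 1 - X 0 ^ L) ^ (G'.degreeOf 1 - m 1)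

theorem Bck_Gbh (L : ℕ) (G' : MvPolynomial (Fin 2) K) (x u w : S) :
    bh (G'.degreeOf 1) (Bck_G L G') x u w = ∑ m ∈ G'.support, algebraMap K S (G'.coeff m) *
      (x ^ m 0 * (u - x ^ L * w) ^ (G'.degreeOf 1 - m 1) * w ^ m 1) := by
  unfold Bck_G
  rw [Bck_sum]
  refine Finset.sum_congr rfl fun m hm => ?_
  have h1 : m 1 ≤ G'.degreeOf 1 := MvPolynomial.monomial_le_degreeOf 1 hm
  have h2 := Bck_mul 0 (G'.degreeOf 1 - m 1) (monomial (Finsupp.single 0 (m 0)) (G'.coeff m))
    ((X 1 - X 0 ^ L) ^ (G'.degreeOf 1 - m 1)) x u w (Bck_deg0 _ _) (Bck_degLn L _)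
  have h3 := Bck_up (0 + (G'.degreeOf 1 - m 1)) (m 1)
    (monomial (Finsupp.single 0 (m 0)) (G'.coeff m) *
      (X 1 - X 0 ^ L) ^ (G'.degreeOf 1 - m 1)) x u w
      ((MvPolynomial.degreeOf_mul_le _ _ _).trans (Nat.add_le_add (Bck_deg0 _ _)
        (Bck_degLn L _)))
  have h4 : 0 + (G'.degreeOf 1 - m 1) + m 1 = G'.degreeOf 1 := by omega
  rw [h4] at h3
  rw [h3, h2, Bck_mono, Bck_pow]
  simp
  ring

theorem Bck_Gdeg (L : ℕ) (G' : MvPolynomial (Fin 2) K) :
    (Bck_G L G').degreeOf 1 ≤ G'.degreeOf 1 := by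
  unfold Bck_G
  refine (MvPolynomial.degreeOf_sum_le _ _ _).trans (Finset.sup_le fun m hm => ?_)
  refine (MvPolynomial.degreeOf_mul_le _ _ _).trans ?_
  have h1 := Bck_deg0 (G'.coeff m) (m 0)
  have h2 := Bck_degLn (K := K) L (G'.degreeOf 1 - m 1)
  omega

theorem Bck_Gne (L : ℕ) (G' : MvPolynomial (Fin 2) K) (h : G' ≠ 0) : Bck_G L G' ≠ 0 := by
  classical
  intro h0
  obtain ⟨m0, hm0⟩ := MvPolynomial.support_nonempty.2 h
  have h1 : aeval (![X 0, X 1 + X 0 ^ L] : Fin 2 → MvPolynomial (Fin 2) K) (Bck_G L G') = 0 := by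
    rw [h0, map_zero]
  unfold Bck_G at h1
  rw [map_sum] at h1
  have h2 : ∀ m ∈ G'.support, aeval (![X 0, X 1 + X 0 ^ L] : Fin 2 → MvPolynomial (Fin 2) K)
      (monomial (Finsupp.single 0 (m 0)) (G'.coeff m) *
        (X 1 - X 0 ^ L) ^ (G'.degreeOf 1 - m 1)) =
      monomial (Finsupp.single 0 (m 0) + Finsupp.single 1 (G'.degreeOf 1 - m 1))
        (G'.coeff m) := by
    intro m _
    rw [map_mul, map_pow, map_sub, map_pow, aeval_X, aeval_X, MvPolynomial.aeval_monomial]
    rw [Finsupp.prod_single_index (by simp)]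
    simp only [Matrix.cons_val_zero, Matrix.cons_val_one, add_sub_cancel_right]
    rw [MvPolynomial.X_pow_eq_monomial, MvPolynomial.X_pow_eq_monomial,
      MvPolynomial.algebraMap_eq, MvPolynomial.C_mul_monomial, MvPolynomial.monomial_mul]
    simp
  rw [Finset.sum_congr rfl h2] at h1
  have h3 := congrArg (MvPolynomial.coeff
    (Finsupp.single 0 (m0 0) + Finsupp.single 1 (G'.degreeOf 1 - m0 1))) h1
  rw [MvPolynomial.coeff_sum, MvPolynomial.coeff_zero, Finset.sum_eq_single m0] at h3
  · rw [MvPolynomial.coeff_monomial, if_pos rfl] at h3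
    exact (MvPolynomial.mem_support_iff.1 hm0) h3
  · intro m hm hne
    rw [MvPolynomial.coeff_monomial, if_neg]
    intro he
    apply hne
    have e0 := DFunLike.congr_fun he 0
    have e1 := DFunLike.congr_fun he 1
    simp at e0 e1
    have k1 : m 1 ≤ G'.degreeOf 1 := MvPolynomial.monomial_le_degreeOf 1 hm
    have k2 : m0 1 ≤ G'.degreeOf 1 := MvPolynomial.monomial_le_degreeOf 1 hm0
    ext i
    refine Fin.cases e0 (fun i => ?_) i
    have : i = 0 := Subsingleton.elim _ _
    subst this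
    change m 1 = m0 1
    omega
  · intro hn
    exact absurd hm0 hn

end bck

theorem pr_Bck : S_Bck := by
  intro K _ L G' hG'
  refine ⟨G'.degreeOf 1, Bck_G L G', Bck_Gne L G' hG', Bck_Gdeg L G', ?_⟩
  intro x u w hne h0
  rw [Bck_Gbh]
  have h1 : (u - x ^ L * w) ^ (G'.degreeOf 1) * aeval ![x, w / (u - x ^ L * w)] G' = 0 := by
    rw [h0, mul_zero]
  rw [← h1, MvPolynomial.aeval_def, MvPolynomial.eval₂_eq', Finset.mul_sum]
  refine Finset.sum_congr rfl fun m hm => ?_
  have h2 : m 1 ≤ G'.degreeOf 1 := MvPolynomial.monomial_le_degreeOf 1 hm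
  rw [Fin.prod_univ_two]
  simp only [Matrix.cons_val_zero, Matrix.cons_val_one]
  have h3 : (u - x ^ L * w) ^ (G'.degreeOf 1) =
      (u - x ^ L * w) ^ (G'.degreeOf 1 - m 1) * (u - x ^ L * w) ^ (m 1) := by
    rw [← pow_add]; congr 1; omega
  rw [h3, div_pow]
  field_simp

end Pool.Agent.Work.MP_91e6de_nt.DM

end

section

/-!
# Item DgG: the degrees of the iterates grow like `d ^ n`
-/

set_option autoImplicit false

namespace Pool.Agent.Work.MP_91e6de_nt.DM

open MvPolynomial

theorem DgG_ne {K : Type} [Field K] (D : ℕ) (hD : 1 ≤ D) (A B : MvPolynomial (Fin 2) K)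
    (h : Sk D A B) : B ≠ 0 := by
  rintro rfl
  have h1 := h.1 A dvd_rfl (dvd_zero A)
  rcases h.2.2.2 with h2 | h2
  · omega
  · rw [degreeOf_zero] at h2
    omega

theorem pr_DgG (hDgY : S_DgY) (hSkIt : S_SkIt) (hSkRD : S_SkRD) : S_DgG := by
  intro K _ d A B b hd hSk
  obtain ⟨C, hC⟩ := hDgY K d A B b hd hSk
  refine ⟨C + 2, fun n => ?_⟩
  have hn := hSkIt K d A B b (by omega) hSk n
  have hpos : 1 ≤ d ^ n := Nat.one_le_pow _ _ (by omega)
  have hQ := DgG_ne (d ^ n) hpos _ _ hn
  have hmem : (1 + max ((itY d A B b n).1.degreeOf 0) ((itY d A B b n).2.degreeOf 0) +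
      max ((itY d A B b n).1.degreeOf 1) ((itY d A B b n).2.degreeOf 1)) ∈
      {r | ∃ P Q : MvPolynomial (Fin 2) K, Q ≠ 0 ∧
        P * (itY d A B b n).2 = Q * (itY d A B b n).1 ∧
        r = 1 + max (P.degreeOf 0) (Q.degreeOf 0) + max (P.degreeOf 1) (Q.degreeOf 1)} :=
    ⟨_, _, hQ, mul_comm _ _, rfl⟩
  constructor
  · obtain ⟨P, Q, hQ0, hPQ, hr⟩ := Nat.sInf_mem ⟨_, hmem⟩
    rw [dgY, hr]
    have hRD := hSkRD K (d ^ n) _ _ hn
    by_contra hlt
    have h1 : P.degreeOf 1 < d ^ n := by
      have := le_max_left (P.degreeOf 1) (Q.degreeOf 1)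
      omega
    have h2 : Q.degreeOf 1 < d ^ n := by
      have := le_max_right (P.degreeOf 1) (Q.degreeOf 1)
      omega
    exact hQ0 (hRD P Q h1 h2 hPQ).2
  · refine (Nat.sInf_le hmem).trans ?_
    have h1 : max ((itY d A B b n).1.degreeOf 0) ((itY d A B b n).2.degreeOf 0) ≤ C * d ^ n :=
      max_le (hC n).1 (hC n).2
    have h2 : max ((itY d A B b n).1.degreeOf 1) ((itY d A B b n).2.degreeOf 1) ≤ d ^ n :=
      max_le hn.2.1 hn.2.2.1
    have h3 : (C + 2) * d ^ n = C * d ^ n + d ^ n + d ^ n := by ring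
    rw [h3]
    omega

end Pool.Agent.Work.MP_91e6de_nt.DM

end

section

set_option autoImplicit false

/-!
# B16: degrees of the iterates in the first variable
-/

namespace Pool.Agent.Work.MP_91e6de_nt.DM

open MvPolynomial NumberField IsDedekindDomain Height Filter Topology

theorem DgY_bh {K : Type} [Field K] (d a M : ℕ) (A : MvPolynomial (Fin 2) K) (c : K)
    (hA0 : A.degreeOf 0 ≤ a) (hA1 : A.degreeOf 1 ≤ d) (U V : MvPolynomial (Fin 2) K)
    (hU : U.degreeOf 0 ≤ M) (hV : V.degreeOf 0 ≤ M) :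
    (bh d A (X 0 + C c) U V).degreeOf 0 ≤ a + d * M := by
  unfold bh
  refine (degreeOf_sum_le _ _ _).trans (Finset.sup_le fun m hm => ?_)
  have h0 : m 0 ≤ a := (monomial_le_degreeOf 0 hm).trans hA0
  have h1 : m 1 ≤ d := (monomial_le_degreeOf 1 hm).trans hA1
  rw [algebraMap_eq]
  refine (degreeOf_C_mul_le _ _ _).trans ?_
  refine (degreeOf_mul_le _ _ _).trans ?_
  have hx : (X 0 + C c : MvPolynomial (Fin 2) K).degreeOf 0 ≤ 1 := by
    refine (degreeOf_add_le _ _ _).trans ?_
    rw [degreeOf_X_self, degreeOf_C]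
    simp
  have e1 : ((X 0 + C c : MvPolynomial (Fin 2) K) ^ m 0).degreeOf 0 ≤ a := by
    refine (degreeOf_pow_le _ _ _).trans ?_
    calc m 0 * (X 0 + C c : MvPolynomial (Fin 2) K).degreeOf 0 ≤ m 0 * 1 :=
          Nat.mul_le_mul_left _ hx
      _ ≤ a := by omega
  have e2 : (U ^ m 1).degreeOf 0 ≤ m 1 * M :=
    (degreeOf_pow_le _ _ _).trans (Nat.mul_le_mul_left _ hU)
  have e3 : (V ^ (d - m 1)).degreeOf 0 ≤ (d - m 1) * M :=
    (degreeOf_pow_le _ _ _).trans (Nat.mul_le_mul_left _ hV)
  have e4 : ((X 0 + C c : MvPolynomial (Fin 2) K) ^ m 0 * U ^ m 1).degreeOf 0 ≤ a + m 1 * M :=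
    (degreeOf_mul_le _ _ _).trans (add_le_add e1 e2)
  have e5 : m 1 * M + (d - m 1) * M = d * M := by
    rw [← add_mul]; congr 1; omega
  omega

theorem pr_DgY : S_DgY := by
  intro K _ d A B b hd hs
  obtain ⟨-, hA, hB, -⟩ := hs
  set a := max (A.degreeOf 0) (B.degreeOf 0) with ha
  have key : ∀ k, (itY d A B b k).1.degreeOf 0 + a ≤ a * d ^ k ∧
      (itY d A B b k).2.degreeOf 0 + a ≤ a * d ^ k := by
    intro k
    induction k with
    | zero =>
      simp only [itY]
      rw [degreeOf_X_of_ne (by decide), degreeOf_one]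
      simp
    | succ k ih =>
      set M := max ((itY d A B b k).1.degreeOf 0) ((itY d A B b k).2.degreeOf 0) with hM
      have hMa : M + a ≤ a * d ^ k := by omega
      have h1 : a + d * M + a ≤ a * d ^ (k + 1) := by
        calc a + d * M + a ≤ d * (M + a) := by nlinarith
          _ ≤ d * (a * d ^ k) := Nat.mul_le_mul_left _ hMa
          _ = a * d ^ (k + 1) := by ring
      have h2 := DgY_bh d a M A ((k : K) * b) (le_max_left _ _) hA (itY d A B b k).1
        (itY d A B b k).2 (le_max_left _ _) (le_max_right _ _)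
      have h3 := DgY_bh d a M B ((k : K) * b) (le_max_right _ _) hB (itY d A B b k).1
        (itY d A B b k).2 (le_max_left _ _) (le_max_right _ _)
      simp only [itY]
      omega
  exact ⟨a, fun k => ⟨by have := (key k).1; omega, by have := (key k).2; omega⟩⟩

end Pool.Agent.Work.MP_91e6de_nt.DM

end

section

set_option autoImplicit false

namespace Pool.Agent.Work.MP_91e6de_nt.DM

open Filter Topology

theorem Dic_log (n : ℕ) : 5 * Real.log ((n : ℝ) + 3) ≤ 8 * Real.log ((n : ℝ) + 2) := by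
  have hn : (0 : ℝ) ≤ n := Nat.cast_nonneg n
  have h1 : ((n : ℝ) + 3) ^ 5 ≤ ((n : ℝ) + 2) ^ 8 := by
    set x : ℝ := (n : ℝ) + 2 with hx
    have hx2 : 2 ≤ x := by linarith
    have e : (n : ℝ) + 3 = x + 1 := by rw [hx]; ring
    rw [e]
    have h2 : (x + 1) ^ 5 ≤ (3 / 2 * x) ^ 5 :=
      pow_le_pow_left₀ (by linarith) (by linarith) 5
    have h3 : (3 / 2 * x) ^ 5 ≤ 8 * x ^ 5 := by
      rw [mul_pow]
      exact mul_le_mul_of_nonneg_right (by norm_num) (by positivity)
    have h4 : (8 : ℝ) ≤ x ^ 3 := by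
      have := pow_le_pow_left₀ (by norm_num : (0 : ℝ) ≤ 2) hx2 3
      linarith
    have h5 : 8 * x ^ 5 ≤ x ^ 3 * x ^ 5 := mul_le_mul_of_nonneg_right h4 (by positivity)
    calc (x + 1) ^ 5 ≤ (3 / 2 * x) ^ 5 := h2
      _ ≤ 8 * x ^ 5 := h3
      _ ≤ x ^ 3 * x ^ 5 := h5
      _ = x ^ 8 := by ring
  have h6 := Real.log_le_log (by positivity) h1
  rw [Real.log_pow, Real.log_pow] at h6
  exact_mod_cast h6

theorem pr_Dic : S_Dic := by
  intro d n1 a C hd hC h
  have hdR : (2 : ℝ) ≤ d := by exact_mod_cast hd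
  have hd0 : (0 : ℝ) < d := by linarith
  have hlog : ∀ n : ℕ, 0 ≤ Real.log ((n : ℝ) + 2) := by
    intro n
    apply Real.log_nonneg
    have : (0 : ℝ) ≤ n := Nat.cast_nonneg n
    linarith
  set C' : ℝ := 3 * C + 1 with hC'
  have hC'0 : 0 ≤ C' := by linarith
  have hstep : ∀ n, n1 ≤ n → d * (a n - C' * Real.log ((n : ℝ) + 2)) ≤
      a (n + 1) - C' * Real.log (((n + 1 : ℕ) : ℝ) + 2) := by
    intro n hn
    have h1 := h n hn
    have h2 := Dic_log n
    have e : ((n + 1 : ℕ) : ℝ) + 2 = (n : ℝ) + 3 := by push_cast; ring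
    rw [e]
    have h3 := hlog n
    set l2 := Real.log ((n : ℝ) + 2)
    set l3 := Real.log ((n : ℝ) + 3)
    have h4 : C' * l3 ≤ C' * (8 / 5 * l2) := mul_le_mul_of_nonneg_left (by linarith) hC'0
    have h5 : 2 * (C' * l2) ≤ d * (C' * l2) :=
      mul_le_mul_of_nonneg_right hdR (mul_nonneg hC'0 h3)
    have h6 : C * l2 ≤ 2 / 5 * (C' * l2) := by
      have h7 : C ≤ 2 / 5 * C' := by linarith
      have := mul_le_mul_of_nonneg_right h7 h3
      linarith
    have h8 : d * (a n - C' * l2) = d * a n - d * (C' * l2) := by ring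
    rw [h8]
    linarith
  by_cases hpos : ∃ n, n1 ≤ n ∧ 0 < a n - C' * Real.log ((n : ℝ) + 2)
  · left
    obtain ⟨n, hn, hb⟩ := hpos
    have hind : ∀ j : ℕ, (d : ℝ) ^ j * (a n - C' * Real.log ((n : ℝ) + 2)) ≤
        a (n + j) - C' * Real.log (((n + j : ℕ) : ℝ) + 2) := by
      intro j
      induction j with
      | zero => simp
      | succ j ih =>
        have h1 := hstep (n + j) (by omega)
        have h2 := mul_le_mul_of_nonneg_left ih hd0.le
        have e : (d : ℝ) ^ (j + 1) * (a n - C' * Real.log ((n : ℝ) + 2)) =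
            d * (d ^ j * (a n - C' * Real.log ((n : ℝ) + 2))) := by ring
        rw [e]
        exact h2.trans h1
    refine ⟨(a n - C' * Real.log ((n : ℝ) + 2)) / d ^ n, by positivity, ?_⟩
    filter_upwards [Filter.eventually_ge_atTop n] with m hm
    obtain ⟨j, rfl⟩ := Nat.exists_eq_add_of_le hm
    have h1 := hind j
    have h2 : 0 ≤ C' * Real.log (((n + j : ℕ) : ℝ) + 2) := mul_nonneg hC'0 (hlog _)
    have e : (a n - C' * Real.log ((n : ℝ) + 2)) / d ^ n * (d : ℝ) ^ (n + j) =
        d ^ j * (a n - C' * Real.log ((n : ℝ) + 2)) := by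
      rw [pow_add]
      field_simp
    rw [e]
    linarith
  · right
    refine ⟨C', hC'0, ?_⟩
    intro n hn
    by_contra hcon
    push Not at hcon
    exact hpos ⟨n, hn, by linarith⟩

end Pool.Agent.Work.MP_91e6de_nt.DM

end

section

set_option autoImplicit false

/-!
# The determinant method along orbits (MP_91e6de): item HU
-/

namespace Pool.Agent.Work.MP_91e6de_nt.DM

open MvPolynomial NumberField IsDedekindDomain Height

/-- the exponent `(i, j)` -/
noncomputable def HU_mk (i j : ℕ) : Fin 2 →₀ ℕ := Finsupp.single 0 i + Finsupp.single 1 j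

theorem HU_mk_zero (i j : ℕ) : HU_mk i j 0 = i := by
  simp [HU_mk]

theorem HU_mk_one (i j : ℕ) : HU_mk i j 1 = j := by
  simp [HU_mk]

theorem HU_mk_eta (m : Fin 2 →₀ ℕ) : HU_mk (m 0) (m 1) = m := by
  ext i
  fin_cases i
  · exact HU_mk_zero _ _
  · exact HU_mk_one _ _

section alg

variable {K S : Type} [Field K] [CommRing S] [Algebra K S]

theorem HU_bh (a d : ℕ) (A : MvPolynomial (Fin 2) K) (h0 : A.degreeOf 0 ≤ a)
    (h1 : A.degreeOf 1 ≤ d) (x u w : S) :
    bh d A x u w = ∑ p : Fin (a + 1) × Fin (d + 1),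
      algebraMap K S (A.coeff (HU_mk p.1 p.2)) * (x ^ (p.1 : ℕ) * (u ^ (p.2 : ℕ) *
        w ^ (d - (p.2 : ℕ)))) := by
  classical
  have hdeg : ∀ m ∈ A.support, m 0 ≤ a ∧ m 1 ≤ d := fun m hm =>
    ⟨(monomial_le_degreeOf 0 hm).trans h0, (monomial_le_degreeOf 1 hm).trans h1⟩
  rw [bh]
  refine Finset.sum_of_injOn (fun m => (Fin.ofNat (a + 1) (m 0), Fin.ofNat (d + 1) (m 1))) ?_ ?_
    ?_ ?_
  · intro m hm m' hm' h
    have h2 := hdeg m hm
    have h3 := hdeg m' hm'
    have h4 := congrArg (fun p : Fin (a + 1) × Fin (d + 1) => (p.1 : ℕ)) h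
    have h5 := congrArg (fun p : Fin (a + 1) × Fin (d + 1) => (p.2 : ℕ)) h
    simp only [Fin.val_ofNat] at h4 h5
    rw [Nat.mod_eq_of_lt (by omega), Nat.mod_eq_of_lt (by omega)] at h4 h5
    rw [← HU_mk_eta m, ← HU_mk_eta m', h4, h5]
  · intro m _
    exact Finset.mem_coe.mpr (Finset.mem_univ _)
  · rintro ⟨i, j⟩ _ hij
    have : A.coeff (HU_mk i j) = 0 := by
      by_contra hne
      apply hij
      refine ⟨HU_mk i j, mem_support_iff.mpr hne, ?_⟩
      simp only [HU_mk_zero, HU_mk_one]
      refine Prod.ext (Fin.ext ?_) (Fin.ext ?_)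
      · simp only [Fin.val_ofNat]
        exact Nat.mod_eq_of_lt i.2
      · simp only [Fin.val_ofNat]
        exact Nat.mod_eq_of_lt j.2
    simp only [this, map_zero, zero_mul]
  · intro m hm
    have h2 := hdeg m hm
    simp only [Fin.val_ofNat]
    rw [Nat.mod_eq_of_lt (by omega), Nat.mod_eq_of_lt (by omega), HU_mk_eta]
    ring

end alg

section heights

variable {K : Type} [Field K] [AdmissibleAbsValues K]

theorem HU_mul {ι ι' : Type} [Finite ι] [Finite ι'] (x : ι → K) (y : ι' → K) :
    logHeight (fun p : ι × ι' => x p.1 * y p.2) ≤ logHeight x + logHeight y := by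
  by_cases hx : x = 0
  · have : (fun p : ι × ι' => x p.1 * y p.2) = 0 := by
      funext p
      rw [hx]
      simp
    rw [this, logHeight_zero]
    exact add_nonneg (logHeight_nonneg _) (logHeight_nonneg _)
  by_cases hy : y = 0
  · have : (fun p : ι × ι' => x p.1 * y p.2) = 0 := by
      funext p
      rw [hy]
      simp
    rw [this, logHeight_zero]
    exact add_nonneg (logHeight_nonneg _) (logHeight_nonneg _)
  exact (logHeight_fun_mul_eq hx hy).le

theorem HU_pow (d : ℕ) (u w : K) :
    logHeight (fun j : Fin (d + 1) => u ^ (j : ℕ) * w ^ (d - (j : ℕ))) ≤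
      d * logHeight ![u, w] := by
  by_cases h : ![u, w] = 0
  · have hu : u = 0 := by simpa using congrFun h 0
    have hw : w = 0 := by simpa using congrFun h 1
    rw [h, logHeight_zero, mul_zero]
    rcases Nat.eq_zero_or_pos d with rfl | hd
    · have : Subsingleton (Fin (0 + 1)) := inferInstanceAs (Subsingleton (Fin 1))
      exact (logHeight_eq_zero_of_subsingleton _).le
    · have : (fun j : Fin (d + 1) => u ^ (j : ℕ) * w ^ (d - (j : ℕ))) = 0 := by
        funext j
        rw [hu, hw, ← pow_add]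
        exact zero_pow (by omega)
      rw [this, logHeight_zero]
  · have h1 := logHeight_fun_prod_eq (α := Fin d) (ι := fun _ => Fin 2)
      (x := fun _ => ![u, w]) (fun _ => h)
    rw [Finset.sum_const, Finset.card_univ, Fintype.card_fin, nsmul_eq_mul] at h1
    rw [← h1]
    refine le_trans (le_of_eq ?_) (logHeight_comp_le
      (fun (j : Fin (d + 1)) (i : Fin d) => if (i : ℕ) < j then (0 : Fin 2) else 1) _)
    congr 1
    funext j
    simp only [Function.comp_apply]
    have h2 : ∀ i : Fin d, (![u, w] : Fin 2 → K) (if (i : ℕ) < j then (0 : Fin 2) else 1) =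
        if (i : ℕ) < j then u else w := by
      intro i
      split_ifs <;> rfl
    rw [Finset.prod_congr rfl fun i _ => h2 i, Finset.prod_ite, Finset.prod_const,
      Finset.prod_const]
    have h3 : (Finset.univ.filter fun i : Fin d => (i : ℕ) < j).card = j := by
      rw [Fin.card_filter_val_lt]
      omega
    have h4 : (Finset.univ.filter fun i : Fin d => ¬ (i : ℕ) < j).card = d - j := by
      have := Finset.card_filter_add_card_filter_not (s := (Finset.univ : Finset (Fin d)))
        (fun i : Fin d => (i : ℕ) < j)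
      rw [h3, Finset.card_univ, Fintype.card_fin] at this
      omega
    rw [h3, h4]

theorem HU_pow1 (a : ℕ) (x : K) :
    logHeight (fun j : Fin (a + 1) => x ^ (j : ℕ)) ≤ a * logHeight₁ x := by
  have h := HU_pow a x 1
  simp only [one_pow, mul_one] at h
  rwa [logHeight₁_eq_logHeight]

theorem HU_z (a d : ℕ) (x u w : K) :
    logHeight (fun p : Fin (a + 1) × Fin (d + 1) => x ^ (p.1 : ℕ) * (u ^ (p.2 : ℕ) *
      w ^ (d - (p.2 : ℕ)))) ≤ a * logHeight₁ x + d * logHeight ![u, w] :=
  (HU_mul (fun j : Fin (a + 1) => x ^ (j : ℕ))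
    (fun j : Fin (d + 1) => u ^ (j : ℕ) * w ^ (d - (j : ℕ)))).trans
    (add_le_add (HU_pow1 a x) (HU_pow d u w))

/-- bound for linear maps, existence form -/
theorem HU_lin {ι ι' : Type} [Fintype ι] [Finite ι'] (M : ι' × ι → K) :
    ∃ C : ℝ, 0 ≤ C ∧ ∀ z : ι → K, logHeight (fun j => ∑ i, M (j, i) * z i) ≤
      C + logHeight z := by
  refine ⟨totalWeight K * Real.log (Nat.card ι) + logHeight M, ?_, fun z =>
    logHeight_linearMap_apply_le M z⟩
  have := Real.log_natCast_nonneg (Nat.card ι)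
  have := logHeight_nonneg M
  positivity

end heights

theorem pr_HU : S_HU := by
  intro K _ _ d A B hA hB
  let a := max (A.degreeOf 0) (B.degreeOf 0)
  let M : Fin 2 × (Fin (a + 1) × Fin (d + 1)) → K := fun q =>
    coeff (HU_mk q.2.1 q.2.2) (![A, B] q.1)
  obtain ⟨C, hC, hM⟩ := HU_lin M
  refine ⟨C + a, by positivity, fun x u w => ?_⟩
  have h1 : (![bh d A x u w, bh d B x u w] : Fin 2 → K) = fun j => ∑ i, M (j, i) *
      (fun p : Fin (a + 1) × Fin (d + 1) => x ^ (p.1 : ℕ) * (u ^ (p.2 : ℕ) *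
      w ^ (d - (p.2 : ℕ)))) i := by
    funext j
    fin_cases j
    · exact HU_bh a d A (le_max_left _ _) hA x u w
    · exact HU_bh a d B (le_max_right _ _) hB x u w
  rw [h1]
  refine (hM _).trans ?_
  have h2 := HU_z a d x u w
  have h3 := zero_le_logHeight₁ x
  have h4 : 0 ≤ C * logHeight₁ x := mul_nonneg hC h3
  have h5 : (0 : ℝ) ≤ a := by positivity
  nlinarith

end Pool.Agent.Work.MP_91e6de_nt.DM

end

section

set_option autoImplicit false

/-!
# Item HX: heights on the base
-/

namespace Pool.Agent.Work.MP_91e6de_nt.DM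

open MvPolynomial NumberField IsDedekindDomain Height Filter Topology

theorem HX_upper {K : Type} [Field K] [NumberField K] (n : ℕ) :
    logHeight₁ (n : K) ≤ totalWeight K * Real.log n := by
  have h := logHeight₁_sum_le (K := K) (Finset.range n) (fun _ => (1 : K))
  simpa using h

theorem HX_lower {K : Type} [Field K] [NumberField K] (n : ℕ) :
    Real.log n ≤ logHeight₁ (n : K) := by
  rw [NumberField.logHeight₁_eq]
  have hv : ∀ v : InfinitePlace K, v (n : K) = n := by
    intro v
    rw [← v.norm_embedding_eq, map_natCast]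
    exact Complex.norm_natCast n
  have hlog : 0 ≤ Real.log n := Real.log_natCast_nonneg n
  have hp : Real.posLog (n : ℝ) = Real.log n := by
    rw [Real.posLog]
    exact max_eq_right hlog
  obtain ⟨v0⟩ : Nonempty (InfinitePlace K) := inferInstance
  have h1 : Real.log n ≤ ∑ v : InfinitePlace K, (v.mult : ℝ) * Real.posLog (v (n : K)) := by
    have h2 : ∀ v ∈ (Finset.univ : Finset (InfinitePlace K)),
        0 ≤ (v.mult : ℝ) * Real.posLog (v (n : K)) := by
      intro v _
      exact mul_nonneg (Nat.cast_nonneg _) Real.posLog_nonneg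
    refine le_trans ?_ (Finset.single_le_sum h2 (Finset.mem_univ v0))
    rw [hv, hp]
    have h3 : (1 : ℝ) ≤ v0.mult := by
      exact_mod_cast v0.mult_pos
    nlinarith
  have h4 : 0 ≤ ∑ᶠ v : FinitePlace K, Real.posLog (v (n : K)) :=
    finsum_nonneg fun v => Real.posLog_nonneg
  linarith

theorem pr_HX : S_HX := by
  intro K _ _ x0 b hb
  have hl2 : 0 < Real.log 2 := Real.log_pos (by norm_num)
  have hx0 := zero_le_logHeight₁ x0
  have hb0 := zero_le_logHeight₁ b
  have hk0 : (0 : ℝ) ≤ totalWeight K := Nat.cast_nonneg _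
  set C1 : ℝ := 2 * totalWeight K + (logHeight₁ x0 + logHeight₁ b) / Real.log 2 with hC1
  set C2 : ℝ := (totalWeight K + 1) * Real.log 2 + logHeight₁ x0 + logHeight₁ b with hC2
  have hC1' : 0 ≤ C1 := by positivity
  have hC2' : 0 ≤ C2 := by positivity
  refine ⟨C1 + C2, by positivity, fun n => ⟨?_, ?_⟩⟩
  · have hn2 : Real.log 2 ≤ Real.log (n + 2) := by
      apply Real.log_le_log (by norm_num)
      have : (0 : ℝ) ≤ n := Nat.cast_nonneg n
      linarith
    have hn1 : Real.log n ≤ Real.log (n + 2) := by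
      rcases Nat.eq_zero_or_pos n with h | h
      · subst h
        simp only [Nat.cast_zero, Real.log_zero, zero_add]
        exact hl2.le
      · apply Real.log_le_log (by exact_mod_cast h)
        linarith
    have h1 := logHeight₁_add_le x0 (n * b)
    have h2 := logHeight₁_mul_le (n : K) b
    have h3 := HX_upper (K := K) n
    have h4 : (logHeight₁ x0 + logHeight₁ b) ≤
        (logHeight₁ x0 + logHeight₁ b) / Real.log 2 * Real.log (n + 2) := by
      rw [div_mul_eq_mul_div, le_div_iff₀ hl2]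
      exact mul_le_mul_of_nonneg_left hn2 (by positivity)
    have h5 : (totalWeight K : ℝ) * Real.log 2 ≤ totalWeight K * Real.log (n + 2) :=
      mul_le_mul_of_nonneg_left hn2 hk0
    have h6 : (totalWeight K : ℝ) * Real.log n ≤ totalWeight K * Real.log (n + 2) :=
      mul_le_mul_of_nonneg_left hn1 hk0
    have h7 : 0 ≤ C2 * Real.log (n + 2) := mul_nonneg hC2' (hl2.le.trans hn2)
    have h8 : C1 * Real.log (n + 2) = 2 * totalWeight K * Real.log (n + 2) +
        (logHeight₁ x0 + logHeight₁ b) / Real.log 2 * Real.log (n + 2) := by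
      rw [hC1]
      ring
    have h9 : (C1 + C2) * Real.log (n + 2) = C1 * Real.log (n + 2) + C2 * Real.log (n + 2) := by
      ring
    rw [h9, h8]
    linarith
  · have hh := zero_le_logHeight₁ (x0 + n * b)
    rcases Nat.eq_zero_or_pos n with h | h
    · subst h
      simp only [Nat.cast_zero, zero_add, Real.log_one]
      simp only [Nat.cast_zero] at hh
      linarith
    · have h1 := HX_lower (K := K) n
      have h2 : ((n : ℕ) : K) = ((x0 + n * b) - x0) * b⁻¹ := by
        field_simp
        ring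
      have h3 := logHeight₁_mul_le ((x0 + n * b) - x0) b⁻¹
      rw [← h2, logHeight₁_inv] at h3
      have h4 := logHeight₁_sub_le (x0 + n * b) x0
      have h5 : Real.log (n + 1) ≤ Real.log n + Real.log 2 := by
        have hn : (1 : ℝ) ≤ n := by exact_mod_cast h
        rw [← Real.log_mul (by positivity) (by norm_num)]
        apply Real.log_le_log (by positivity)
        linarith
      have h6 : C2 = totalWeight K * Real.log 2 + Real.log 2 + logHeight₁ x0 + logHeight₁ b := by
        rw [hC2]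
        ring
      linarith

end Pool.Agent.Work.MP_91e6de_nt.DM

end

section

set_option autoImplicit false

namespace Pool.Agent.Work.MP_91e6de_nt.DM

open MvPolynomial NumberField IsDedekindDomain

theorem ItrY_map_hsub {K R S : Type} [Field K] [CommRing R] [CommRing S] [Algebra K R]
    [Algebra K S] (φ : R →ₐ[K] S) (e : ℕ) (q : MvPolynomial (Fin 2) K) (U V W : R) :
    φ (hsub e q U V W) = hsub e q (φ U) (φ V) (φ W) := by
  unfold hsub
  rw [map_sum]
  refine Finset.sum_congr rfl fun m _ => ?_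
  rw [map_mul, AlgHom.commutes, map_mul, map_mul, map_pow, map_pow, map_pow]

theorem ItrY_map_bh {K R S : Type} [Field K] [CommRing R] [CommRing S] [Algebra K R]
    [Algebra K S] (φ : R →ₐ[K] S) (d : ℕ) (q : MvPolynomial (Fin 2) K) (x u w : R) :
    φ (bh d q x u w) = bh d q (φ x) (φ u) (φ w) := by
  unfold bh
  rw [map_sum]
  refine Finset.sum_congr rfl fun m _ => ?_
  rw [map_mul, AlgHom.commutes, map_mul, map_mul, map_pow, map_pow, map_pow]

theorem ItrY_bh {K F : Type} [Field K] [Field F] [Algebra K F] (d : ℕ)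
    (q : MvPolynomial (Fin 2) K) (hq : q.degreeOf 1 ≤ d) (x u w : F) (hw : w ≠ 0) :
    bh d q x u w = w ^ d * aeval ![x, u / w] q := by
  unfold bh
  rw [aeval_def, eval₂_eq', Finset.mul_sum]
  refine Finset.sum_congr rfl fun m hm => ?_
  have h1 : m 1 ≤ d := le_trans (monomial_le_degreeOf 1 hm) hq
  rw [Fin.prod_univ_two]
  simp only [Matrix.cons_val_zero, Matrix.cons_val_one]
  rw [div_pow]
  obtain ⟨j, hj⟩ := Nat.exists_eq_add_of_le h1
  rw [hj, Nat.add_sub_cancel_left, pow_add]
  have : w ^ m 1 ≠ 0 := pow_ne_zero _ hw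
  field_simp

theorem ItrY_ne {K : Type} [Field K] (D : ℕ) (A B : MvPolynomial (Fin 2) K) (hD : 1 ≤ D)
    (h : Sk D A B) : B ≠ 0 := by
  rintro rfl
  obtain ⟨h1, h2, h3, h4⟩ := h
  have h5 := h1 A dvd_rfl (dvd_zero A)
  rcases h4 with h4 | h4
  · omega
  · rw [degreeOf_zero] at h4
    omega

theorem pr_ItrY (hHs : S_HsEv) (hSk : S_SkIt) : S_ItrY := by
  intro K _ d e A B b c hd hAB hc p hp hdeg k
  have hne : ∀ k, (itY d A B b k).2 ≠ 0 := fun k =>
    ItrY_ne (d ^ k) _ _ (Nat.one_le_pow _ _ (by omega)) (hSk K d A B b hd hAB k)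
  have hAd : A.degreeOf 1 ≤ d := hAB.2.1
  have hBd : B.degreeOf 1 ≤ d := hAB.2.2.1
  have hp0 : p 0 = C c * ((X 0 + C b) * B) := by rw [hp]; rfl
  have hp1 : p 1 = C c * A := by rw [hp]; rfl
  have hp2 : p 2 = C c * B := by rw [hp]; rfl
  let R := MvPolynomial (Fin 2) K
  let F := FractionRing R
  let φ : R →ₐ[K] F := IsScalarTower.toAlgHom K R F
  have hφ : Function.Injective φ := IsFractionRing.injective R F
  have hφ0 : ∀ a : R, a ≠ 0 → φ a ≠ 0 := fun a ha h => ha (hφ (by rw [h, map_zero]))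
  have hφC : ∀ a : K, φ (C a) = algebraMap K F a := fun a => by
    have := φ.commutes a
    rwa [MvPolynomial.algebraMap_eq] at this
  induction k with
  | zero =>
    refine ⟨?_, ?_, ?_⟩
    · simp [itr]
    · simp [itr]
    · simp [itr, itY]
  | succ k ih =>
    obtain ⟨hW, hU, hV⟩ := ih
    set U := itr e p k 0 with hUdef
    set V := itr e p k 1 with hVdef
    set W := itr e p k 2 with hWdef
    set Ak := (itY d A B b k).1 with hAk
    set Bk := (itY d A B b k).2 with hBk
    have hBk0 : φ Bk ≠ 0 := hφ0 _ (hne k)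
    have hW0 : φ W ≠ 0 := hφ0 _ hW
    set ξ : F := φ (X 0 + C (k * b)) with hξ
    have hu : φ U / φ W = ξ := by
      rw [hU, map_mul, mul_div_cancel_left₀ _ hW0]
    have hv : φ V / φ W = φ Ak / φ Bk := by
      rw [div_eq_div_iff hW0 hBk0, ← map_mul, hV, map_mul, mul_comm]
    -- values of hsub
    have key : ∀ q : MvPolynomial (Fin 2) K, q.totalDegree ≤ e →
        φ (hsub e q U V W) = φ W ^ e * aeval ![ξ, φ Ak / φ Bk] q := by
      intro q hq
      rw [ItrY_map_hsub, (hHs K F e q hq).1 _ _ _ hW0, hu, hv]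
    have hA1 : φ (itY d A B b (k + 1)).1 = φ Bk ^ d * aeval ![ξ, φ Ak / φ Bk] A := by
      show φ (bh d A (X 0 + C (k * b)) Ak Bk) = _
      rw [ItrY_map_bh, ItrY_bh d A hAd _ _ _ hBk0]
    have hB1 : φ (itY d A B b (k + 1)).2 = φ Bk ^ d * aeval ![ξ, φ Ak / φ Bk] B := by
      show φ (bh d B (X 0 + C (k * b)) Ak Bk) = _
      rw [ItrY_map_bh, ItrY_bh d B hBd _ _ _ hBk0]
    have i2 : itr e p (k + 1) 2 = hsub e (p 2) U V W := rfl
    have i1 : itr e p (k + 1) 1 = hsub e (p 1) U V W := rfl
    have i0 : itr e p (k + 1) 0 = hsub e (p 0) U V W := rfl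
    have k2 := key (p 2) (hdeg 2)
    have k1 := key (p 1) (hdeg 1)
    have k0 := key (p 0) (hdeg 0)
    rw [← i2] at k2
    rw [← i1] at k1
    rw [← i0] at k0
    have hca : algebraMap K F c ≠ 0 := by
      rw [← hφC]
      exact hφ0 _ (by rwa [Ne, C_eq_zero])
    have e2 : φ (itr e p (k + 1) 2) =
        φ W ^ e * (algebraMap K F c * aeval ![ξ, φ Ak / φ Bk] B) := by
      rw [k2, hp2, map_mul, ← MvPolynomial.algebraMap_eq, AlgHom.commutes]
    have e1 : φ (itr e p (k + 1) 1) =
        φ W ^ e * (algebraMap K F c * aeval ![ξ, φ Ak / φ Bk] A) := by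
      rw [k1, hp1, map_mul, ← MvPolynomial.algebraMap_eq, AlgHom.commutes]
    have e0 : φ (itr e p (k + 1) 0) =
        φ W ^ e * (algebraMap K F c * ((ξ + algebraMap K F b) *
          aeval ![ξ, φ Ak / φ Bk] B)) := by
      rw [k0, hp0, map_mul, map_mul, map_add, ← MvPolynomial.algebraMap_eq, AlgHom.commutes,
        AlgHom.commutes, aeval_X]
      simp only [Matrix.cons_val_zero]
    have hξ1 : ξ + algebraMap K F b = φ (X 0 + C (((k + 1 : ℕ) : K) * b)) := by
      rw [hξ, ← hφC, ← map_add, add_assoc, ← C_add]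
      congr 3
      push_cast
      ring
    have hB1' : aeval ![ξ, φ Ak / φ Bk] B ≠ 0 := by
      intro h
      rw [h, mul_zero] at hB1
      exact hφ0 _ (hne (k + 1)) hB1
    refine ⟨?_, ?_, ?_⟩
    · intro h
      have h0 : φ (itr e p (k + 1) 2) = 0 := by rw [h, map_zero]
      rw [e2] at h0
      exact (mul_ne_zero (pow_ne_zero _ hW0) (mul_ne_zero hca hB1')) h0
    · apply hφ
      rw [map_mul, e0, e2, ← hξ1]
      ring
    · apply hφ
      rw [map_mul, map_mul, e1, e2, hA1, hB1]
      ring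

end Pool.Agent.Work.MP_91e6de_nt.DM

end

section

set_option autoImplicit false

/-!
# Item Lim: roots of exponential sequences
-/

namespace Pool.Agent.Work.MP_91e6de_nt.DM

open MvPolynomial NumberField IsDedekindDomain Height Filter Topology

theorem Lim_const (c d : ℝ) (hc : 0 < c) :
    Tendsto (fun n : ℕ => c ^ ((1 : ℝ) / n) * d) atTop (𝓝 d) := by
  have h1 : Tendsto (fun n : ℕ => (1 : ℝ) / n) atTop (𝓝 0) :=
    tendsto_one_div_atTop_nhds_zero_nat
  have h2 : Tendsto (fun n : ℕ => c ^ ((1 : ℝ) / n)) atTop (𝓝 (c ^ (0 : ℝ))) :=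
    (Real.continuousAt_const_rpow hc.ne').tendsto.comp h1
  rw [Real.rpow_zero] at h2
  have h3 := h2.mul_const d
  rwa [one_mul] at h3

theorem Lim_root (c d : ℝ) (hc : 0 < c) (hd : 0 < d) (n : ℕ) (hn : n ≠ 0) :
    (c * d ^ n) ^ ((1 : ℝ) / n) = c ^ ((1 : ℝ) / n) * d := by
  rw [Real.mul_rpow hc.le (pow_nonneg hd.le n)]
  congr 1
  rw [one_div]
  exact Real.pow_rpow_inv_natCast hd.le hn

theorem pr_Lim : S_Lim := by
  intro d c C a hd hc h1 h2
  have hC : 0 < C := by
    obtain ⟨n, h3, h4⟩ := (h1.and h2).exists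
    have h5 : c * d ^ n ≤ C * d ^ n := h3.trans h4
    have h6 : c ≤ C := le_of_mul_le_mul_right h5 (pow_pos hd n)
    linarith
  refine tendsto_of_tendsto_of_tendsto_of_le_of_le' (Lim_const c d hc) (Lim_const C d hC) ?_ ?_
  · filter_upwards [h1, eventually_ge_atTop 1] with n h3 hn
    rw [← Lim_root c d hc hd n (by omega)]
    refine Real.rpow_le_rpow ?_ h3 (by positivity)
    have := pow_pos hd n
    positivity
  · filter_upwards [h1, h2, eventually_ge_atTop 1] with n h3 h4 hn
    rw [← Lim_root C d hC hd n (by omega)]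
    refine Real.rpow_le_rpow ?_ h4 (by positivity)
    have := pow_pos hd n
    exact le_trans (by positivity) h3

end Pool.Agent.Work.MP_91e6de_nt.DM

end

section

/-!
# B11: iterates and injective homomorphisms of coefficients
-/

set_option autoImplicit false

namespace Pool.Agent.Work.MP_91e6de_nt.DM

open MvPolynomial NumberField IsDedekindDomain

theorem MapI_hsub {A B : Type} [CommRing A] [CommRing B] (φ : A →+* B)
    (hφ : Function.Injective φ) (e : ℕ) (p u v w : MvPolynomial (Fin 2) A) :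
    map φ (hsub e p u v w) = hsub e (map φ p) (map φ u) (map φ v) (map φ w) := by
  unfold hsub
  rw [map_sum, support_map_of_injective _ hφ]
  refine Finset.sum_congr rfl fun m _ => ?_
  rw [map_mul, map_mul, map_mul, map_pow, map_pow, map_pow, coeff_map, algebraMap_eq,
    algebraMap_eq, map_C]

theorem pr_MapI : S_MapI := by
  intro A B _ _ φ hφ e p k
  induction k with
  | zero =>
    intro i
    fin_cases i <;> simp [itr]
  | succ k ih =>
    intro i
    show map φ (hsub e (p i) (itr e p k 0) (itr e p k 1) (itr e p k 2)) =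
      hsub e (map φ (p i)) (itr e (fun i => map φ (p i)) k 0) (itr e (fun i => map φ (p i)) k 1)
        (itr e (fun i => map φ (p i)) k 2)
    rw [MapI_hsub φ hφ, ih, ih, ih]

end Pool.Agent.Work.MP_91e6de_nt.DM

end

section

set_option autoImplicit false

/-! Item PoH: heights of values of polynomials. -/

namespace Pool.Agent.Work.MP_91e6de_nt.DM

open MvPolynomial NumberField IsDedekindDomain Height Filter Topology

theorem pr_PoH : S_PoH := by
  intro K _ _ σ _ p
  have hs : ∀ x : σ → K, 0 ≤ ∑ i, logHeight₁ (x i) := fun x =>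
    Finset.sum_nonneg fun i _ => zero_le_logHeight₁ _
  induction p using MvPolynomial.induction_on with
  | C a =>
    refine ⟨logHeight₁ a, zero_le_logHeight₁ a, fun x => ?_⟩
    rw [aeval_C, Algebra.algebraMap_self, RingHom.id_apply]
    have h1 := hs x
    have h2 := zero_le_logHeight₁ a
    nlinarith
  | add p q hp hq =>
    obtain ⟨C, hC, h1⟩ := hp
    obtain ⟨D, hD, h2⟩ := hq
    have h0 : 0 ≤ (totalWeight K : ℝ) * Real.log 2 :=
      mul_nonneg (Nat.cast_nonneg _) (Real.log_nonneg (by norm_num))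
    refine ⟨(totalWeight K : ℝ) * Real.log 2 + C + D, by positivity, fun x => ?_⟩
    rw [map_add]
    have h3 := logHeight₁_add_le (aeval x p) (aeval x q)
    have h4 := h1 x
    have h5 := h2 x
    have h6 := hs x
    nlinarith
  | mul_X p i hp =>
    obtain ⟨C, hC, h1⟩ := hp
    refine ⟨C + 1, by positivity, fun x => ?_⟩
    rw [map_mul, aeval_X]
    have h3 := logHeight₁_mul_le (aeval x p) (x i)
    have h4 := h1 x
    have h5 : logHeight₁ (x i) ≤ ∑ i, logHeight₁ (x i) :=
      Finset.single_le_sum (fun i _ => zero_le_logHeight₁ (x i)) (Finset.mem_univ i)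
    nlinarith

end Pool.Agent.Work.MP_91e6de_nt.DM

end

section

set_option autoImplicit false

/-!
# The determinant method along orbits (MP_91e6de): item Res
-/

namespace Pool.Agent.Work.MP_91e6de_nt.DM

open MvPolynomial

section conv

variable {K : Type} [Field K]

/-- polynomials in `x, y` as polynomials in `y` over `K[x]` -/
noncomputable def Res_phi : MvPolynomial (Fin 2) K →ₐ[K] Polynomial (Polynomial K) :=
  aeval ![Polynomial.C Polynomial.X, Polynomial.X]

/-- the inverse map -/
noncomputable def Res_psi : Polynomial (Polynomial K) →+* MvPolynomial (Fin 2) K :=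
  Polynomial.eval₂RingHom (Polynomial.aeval (X 0 : MvPolynomial (Fin 2) K)).toRingHom (X 1)

theorem Res_phi_C (c : K) : Res_phi (C c : MvPolynomial (Fin 2) K) =
    Polynomial.C (Polynomial.C c) := by
  rw [Res_phi, aeval_C]
  rfl

theorem Res_phi_X0 : Res_phi (X 0 : MvPolynomial (Fin 2) K) = Polynomial.C Polynomial.X := by
  rw [Res_phi, aeval_X]
  rfl

theorem Res_phi_X1 : Res_phi (X 1 : MvPolynomial (Fin 2) K) = Polynomial.X := by
  rw [Res_phi, aeval_X]
  rfl

theorem Res_psi_C (f : Polynomial K) : Res_psi (Polynomial.C f) =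
    Polynomial.aeval (X 0 : MvPolynomial (Fin 2) K) f := by
  rw [Res_psi, Polynomial.coe_eval₂RingHom, Polynomial.eval₂_C]
  rfl

theorem Res_psi_X : Res_psi (Polynomial.X : Polynomial (Polynomial K)) = X 1 := by
  rw [Res_psi, Polynomial.coe_eval₂RingHom, Polynomial.eval₂_X]

theorem Res_psi_phi (A : MvPolynomial (Fin 2) K) : Res_psi (Res_phi A) = A := by
  induction A using MvPolynomial.induction_on with
  | C a =>
    rw [Res_phi_C, Res_psi_C, Polynomial.aeval_C]
    rfl
  | add p q hp hq => rw [map_add, map_add, hp, hq]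
  | mul_X p i hp =>
    rw [map_mul, map_mul, hp]
    fin_cases i
    · show p * Res_psi (Res_phi (X 0)) = p * X 0
      rw [Res_phi_X0, Res_psi_C, Polynomial.aeval_X]
    · show p * Res_psi (Res_phi (X 1)) = p * X 1
      rw [Res_phi_X1, Res_psi_X]

theorem Res_phi_psi (F : Polynomial (Polynomial K)) : Res_phi (Res_psi F) = F := by
  induction F using Polynomial.induction_on' with
  | add p q hp hq => rw [map_add, map_add, hp, hq]
  | monomial n f =>
    rw [← Polynomial.C_mul_X_pow_eq_monomial, map_mul, map_mul, map_pow, map_pow, Res_psi_X,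
      Res_phi_X1, Res_psi_C]
    congr 1
    induction f using Polynomial.induction_on' with
    | add p q hp hq => rw [map_add, map_add, hp, hq, map_add]
    | monomial m c =>
      rw [← Polynomial.C_mul_X_pow_eq_monomial, map_mul, map_mul, map_pow, map_pow,
        Polynomial.aeval_X, Res_phi_X0, Polynomial.aeval_C]
      rw [map_mul, map_pow]
      congr 1
      exact Res_phi_C c

theorem Res_phi_monomial (m : Fin 2 →₀ ℕ) (c : K) : Res_phi (monomial m c) =
    Polynomial.monomial (m 1) (Polynomial.C c * Polynomial.X ^ (m 0)) := by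
  rw [Res_phi, aeval_monomial, Finsupp.prod_fintype _ _ (fun i => pow_zero _), Fin.prod_univ_two]
  show Polynomial.C (Polynomial.C c) * (Polynomial.C Polynomial.X ^ m 0 * Polynomial.X ^ m 1) = _
  rw [← Polynomial.C_mul_X_pow_eq_monomial, map_mul, map_pow, mul_assoc]

theorem Res_coeff (A : MvPolynomial (Fin 2) K) (m : Fin 2 →₀ ℕ) :
    ((Res_phi A).coeff (m 1)).coeff (m 0) = A.coeff m := by
  classical
  induction A using MvPolynomial.induction_on' with
  | monomial n c =>
    rw [Res_phi_monomial, Polynomial.coeff_monomial, coeff_monomial]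
    by_cases h1 : n 1 = m 1
    · rw [if_pos h1, Polynomial.coeff_C_mul, Polynomial.coeff_X_pow]
      by_cases h0 : m 0 = n 0
      · have : n = m := by
          ext i
          fin_cases i
          · exact h0.symm
          · exact h1
        rw [if_pos h0, if_pos this, mul_one]
      · rw [if_neg h0, if_neg, mul_zero]
        intro h
        exact h0 (by rw [h])
    · rw [if_neg h1, Polynomial.coeff_zero, if_neg]
      intro h
      exact h1 (by rw [h])
  | add p q hp hq =>
    rw [map_add, Polynomial.coeff_add, Polynomial.coeff_add, hp, hq, coeff_add]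

theorem Res_natDegree_le (A : MvPolynomial (Fin 2) K) (n : ℕ) :
    (Res_phi A).natDegree ≤ n ↔ A.degreeOf 1 ≤ n := by
  rw [Polynomial.natDegree_le_iff_coeff_eq_zero, degreeOf_le_iff]
  constructor
  · intro h m hm
    by_contra hlt
    rw [mem_support_iff, ← Res_coeff, h (m 1) (by omega), Polynomial.coeff_zero] at hm
    exact hm rfl
  · intro h N hN
    ext i
    have h1 := Res_coeff A (Finsupp.single 0 i + Finsupp.single 1 N)
    have h2 : (Finsupp.single 0 i + Finsupp.single 1 N : Fin 2 →₀ ℕ) 0 = i := by simp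
    have h3 : (Finsupp.single 0 i + Finsupp.single 1 N : Fin 2 →₀ ℕ) 1 = N := by simp
    rw [h2, h3] at h1
    rw [h1, Polynomial.coeff_zero]
    by_contra hne
    have := h _ (mem_support_iff.mpr hne)
    rw [h3] at this
    omega

theorem Res_natDegree (A : MvPolynomial (Fin 2) K) : (Res_phi A).natDegree = A.degreeOf 1 :=
  le_antisymm ((Res_natDegree_le A _).mpr le_rfl) ((Res_natDegree_le A _).mp le_rfl)

/-- homogenisation and evaluation -/
noncomputable def Res_H {S : Type} [CommRing S] [Algebra K S] (x u w : S) (n : ℕ)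
    (F : Polynomial (Polynomial K)) : S :=
  MvPolynomial.eval₂Hom (Polynomial.aeval x : Polynomial K →ₐ[K] S).toRingHom ![u, w]
    (Polynomial.homogenize F n)

theorem Res_H_add {S : Type} [CommRing S] [Algebra K S] (x u w : S) (n : ℕ)
    (F G : Polynomial (Polynomial K)) :
    Res_H x u w n (F + G) = Res_H x u w n F + Res_H x u w n G := by
  rw [Res_H, Polynomial.homogenize_add, map_add]
  rfl

theorem Res_H_mul {S : Type} [CommRing S] [Algebra K S] (x u w : S) (m n : ℕ)
    (F G : Polynomial (Polynomial K)) (hF : F.natDegree ≤ m) (hG : G.natDegree ≤ n) :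
    Res_H x u w (m + n) (F * G) = Res_H x u w m F * Res_H x u w n G := by
  rw [Res_H, Polynomial.homogenize_mul _ _ hF hG, map_mul]
  rfl

theorem Res_H_C_mul {S : Type} [CommRing S] [Algebra K S] (x u w : S) (n : ℕ) (r : Polynomial K)
    (F : Polynomial (Polynomial K)) :
    Res_H x u w n (Polynomial.C r * F) = Polynomial.aeval x r * Res_H x u w n F := by
  rw [Res_H, Polynomial.homogenize_C_mul, map_mul, coe_eval₂Hom, eval₂_C]
  rfl

theorem Res_H_one {S : Type} [CommRing S] [Algebra K S] (x u w : S) (n : ℕ) :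
    Res_H x u w n (1 : Polynomial (Polynomial K)) = w ^ n := by
  rw [Res_H, Polynomial.homogenize_one, map_pow, coe_eval₂Hom, eval₂_X]
  rfl

theorem Res_H_X_pow {S : Type} [CommRing S] [Algebra K S] (x u w : S) (n : ℕ) :
    Res_H x u w n (Polynomial.X ^ n : Polynomial (Polynomial K)) = u ^ n := by
  rw [Res_H, Polynomial.homogenize_X_pow le_rfl, Nat.sub_self, pow_zero, mul_one, map_pow,
    coe_eval₂Hom, eval₂_X]
  rfl

theorem Res_bh {S : Type} [CommRing S] [Algebra K S] (x u w : S) (d : ℕ)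
    (A : MvPolynomial (Fin 2) K) (hA : A.degreeOf 1 ≤ d) :
    bh d A x u w = Res_H x u w d (Res_phi A) := by
  conv_rhs => rw [A.as_sum]
  rw [map_sum, Res_H, Polynomial.homogenize_finsetSum, map_sum, bh]
  refine Finset.sum_congr rfl fun m hm => ?_
  have hm1 : m 1 ≤ d := (monomial_le_degreeOf 1 hm).trans hA
  rw [Res_phi_monomial, Polynomial.homogenize_monomial hm1, coe_eval₂Hom, eval₂_monomial,
    Finsupp.prod_fintype _ _ (fun i => pow_zero _), Fin.prod_univ_two]
  have e0 : (fun₀ | (0 : Fin 2) => m 1 | 1 => d - m 1) 0 = m 1 := by simp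
  have e1 : (fun₀ | (0 : Fin 2) => m 1 | 1 => d - m 1) 1 = d - m 1 := by simp
  rw [e0, e1]
  show _ = Polynomial.aeval x (Polynomial.C (A.coeff m) * Polynomial.X ^ (m 0)) *
    (u ^ (m 1) * w ^ (d - m 1))
  rw [map_mul, map_pow, Polynomial.aeval_C, Polynomial.aeval_X]
  ring

/-- the resultant is not zero -/
theorem Res_ne (F G : Polynomial (Polynomial K)) (d : ℕ) (hd : 1 ≤ d) (hF : F.natDegree = d)
    (hG : G.natDegree ≤ d)
    (hco : IsCoprime (F.map (algebraMap (Polynomial K) (FractionRing (Polynomial K))))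
      (G.map (algebraMap (Polynomial K) (FractionRing (Polynomial K))))) :
    Polynomial.resultant F G d d ≠ 0 := by
  obtain ⟨k, hk⟩ : ∃ k, d = G.natDegree + k := ⟨d - G.natDegree, by omega⟩
  have hF0 : F ≠ 0 := by
    rintro rfl
    rw [Polynomial.natDegree_zero] at hF
    omega
  have h1 : Polynomial.resultant F G d d =
      F.coeff d ^ k * Polynomial.resultant F G d G.natDegree := by
    conv_lhs => rw [show Polynomial.resultant F G d d =
      Polynomial.resultant F G d (G.natDegree + k) by rw [← hk]]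
    exact Polynomial.resultant_add_right_deg F G d G.natDegree k le_rfl
  rw [h1]
  refine mul_ne_zero (pow_ne_zero _ ?_) ?_
  · rw [← hF, Polynomial.coeff_natDegree]
    exact Polynomial.leadingCoeff_ne_zero.mpr hF0
  · intro h0
    have hinj : Function.Injective (algebraMap (Polynomial K) (FractionRing (Polynomial K))) :=
      IsFractionRing.injective _ _
    have h2 := Polynomial.resultant_map_map F G d G.natDegree
      (algebraMap (Polynomial K) (FractionRing (Polynomial K)))
    rw [h0, map_zero] at h2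
    have h3 : (F.map (algebraMap (Polynomial K) (FractionRing (Polynomial K)))).natDegree = d := by
      rw [Polynomial.natDegree_map_eq_of_injective hinj, hF]
    have h4 : (G.map (algebraMap (Polynomial K) (FractionRing (Polynomial K)))).natDegree =
        G.natDegree := Polynomial.natDegree_map_eq_of_injective hinj G
    have h5 := (Polynomial.resultant_eq_zero_iff
      (f := F.map (algebraMap (Polynomial K) (FractionRing (Polynomial K))))
      (g := G.map (algebraMap (Polynomial K) (FractionRing (Polynomial K))))).mp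
      (by rw [h3, h4]; exact h2)
    exact h5.2 hco

theorem Res_coprime (A B : MvPolynomial (Fin 2) K)
    (hdiv : ∀ G, G ∣ A → G ∣ B → G.degreeOf 1 = 0) (hne : Res_phi A ≠ 0) :
    IsCoprime ((Res_phi A).map (algebraMap (Polynomial K) (FractionRing (Polynomial K))))
      ((Res_phi B).map (algebraMap (Polynomial K) (FractionRing (Polynomial K)))) := by
  have hinj : Function.Injective (algebraMap (Polynomial K) (FractionRing (Polynomial K))) :=
    IsFractionRing.injective _ _
  refine isCoprime_of_dvd _ _ ?_ ?_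
  · rintro ⟨h, -⟩
    exact hne ((Polynomial.map_eq_zero_iff hinj).mp h)
  · intro z hz hz0 hzA hzB
    let _ : NormalizedGCDMonoid (Polynomial K) := Nonempty.some inferInstance
    obtain ⟨c, hc0, hc⟩ := IsLocalization.integerNormalization_spec
      (nonZeroDivisors (Polynomial K)) z
    set h := IsLocalization.integerNormalization (nonZeroDivisors (Polynomial K)) z with hh
    have hg1 : ¬ IsUnit h.primPart := fun hu =>
      hz (Polynomial.isUnit_or_eq_zero_of_isUnit_integerNormalization_primPart hz0 hu)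
    have hgp : h.primPart.IsPrimitive := Polynomial.isPrimitive_primPart h
    have hgz : h.primPart.map (algebraMap (Polynomial K) (FractionRing (Polynomial K))) ∣ z := by
      have h1 : h.primPart.map (algebraMap (Polynomial K) (FractionRing (Polynomial K))) ∣
          h.map (algebraMap (Polynomial K) (FractionRing (Polynomial K))) :=
        Polynomial.map_dvd _ (Polynomial.primPart_dvd h)
      rw [hc, Algebra.smul_def, Polynomial.algebraMap_apply] at h1
      have hu : IsUnit (Polynomial.C (algebraMap (Polynomial K)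
          (FractionRing (Polynomial K)) c)) := by
        rw [Polynomial.isUnit_C, isUnit_iff_ne_zero]
        intro h0
        have : c = 0 := hinj (by rw [h0, map_zero])
        exact nonZeroDivisors.ne_zero hc0 this
      exact (hu.dvd_mul_left).mp h1
    have hgA : h.primPart ∣ Res_phi A :=
      hgp.dvd_of_fraction_map_dvd_fraction_map (hgz.trans hzA)
    have hgB : h.primPart ∣ Res_phi B :=
      hgp.dvd_of_fraction_map_dvd_fraction_map (hgz.trans hzB)
    have h2 := hdiv (Res_psi h.primPart) (by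
      have := map_dvd Res_psi hgA
      rwa [Res_psi_phi] at this) (by
      have := map_dvd Res_psi hgB
      rwa [Res_psi_phi] at this)
    rw [← Res_natDegree, Res_phi_psi] at h2
    rw [Polynomial.eq_C_of_natDegree_eq_zero h2] at hgp hg1
    apply hg1
    rw [Polynomial.isUnit_C]
    exact hgp _ dvd_rfl

end conv

theorem pr_Res : S_Res := by
  intro K _ d A B hd hAB
  obtain ⟨hdiv, hA, hB, hor⟩ := hAB
  set F := Res_phi A with hF
  set G := Res_phi B with hG
  have hFd : F.natDegree ≤ d := (Res_natDegree_le A d).mpr hA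
  have hGd : G.natDegree ≤ d := (Res_natDegree_le B d).mpr hB
  have hA0 : A ≠ 0 := by
    rintro rfl
    have h1 := hdiv B (dvd_zero B) dvd_rfl
    rw [degreeOf_zero] at hor
    omega
  have hB0 : B ≠ 0 := by
    rintro rfl
    have h1 := hdiv A dvd_rfl (dvd_zero A)
    rw [degreeOf_zero] at hor
    omega
  have hphi : ∀ P : MvPolynomial (Fin 2) K, P ≠ 0 → Res_phi P ≠ 0 := by
    intro P hP h0
    apply hP
    rw [← Res_psi_phi P, h0, map_zero]
  have hr : Polynomial.resultant F G d d ≠ 0 := by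
    rcases hor with h | h
    · exact Res_ne F G d hd (by rw [hF, Res_natDegree, h]) hGd
        (Res_coprime A B hdiv (hphi A hA0))
    · rw [Polynomial.resultant_comm]
      refine mul_ne_zero (pow_ne_zero _ (by simp)) ?_
      exact Res_ne G F d hd (by rw [hG, Res_natDegree, h]) hFd
        (Res_coprime B A (fun P h1 h2 => hdiv P h2 h1) (hphi B hB0))
  have key : ∀ T : Polynomial (Polynomial K), T ∈ Polynomial.degreeLT (Polynomial K) (d + d) →
      ∃ P Q : MvPolynomial (Fin 2) K, P.degreeOf 1 ≤ d - 1 ∧ Q.degreeOf 1 ≤ d - 1 ∧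
        ∀ (S : Type) [CommRing S] [Algebra K S] (x u w : S),
          Polynomial.aeval x (Polynomial.resultant F G d d) * Res_H x u w (2 * d - 1) T =
            bh (d - 1) P x u w * bh d A x u w + bh (d - 1) Q x u w * bh d B x u w := by
    intro T hT
    let X := Polynomial.adjSylvester (m := d) (n := d) F G ⟨T, hT⟩
    have h1 : ((Polynomial.sylvesterMap F G hFd hGd X)).1 = _ :=
      congr(($(Polynomial.sylveserMap_comp_adjSylvester F G hFd hGd) _).1)
    have h2 : F * (X.2 : Polynomial (Polynomial K)) + G * (X.1 : Polynomial (Polynomial K)) =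
        Polynomial.C (Polynomial.resultant F G d d) * T := by
      have h3 : ((Polynomial.sylvesterMap F G hFd hGd X)).1 =
          F * (X.2 : Polynomial (Polynomial K)) + G * (X.1 : Polynomial (Polynomial K)) := rfl
      rw [← h3, h1]
      simp [Algebra.smul_def]
    have hq : ∀ q : Polynomial.degreeLT (Polynomial K) d,
        (q : Polynomial (Polynomial K)).natDegree ≤ d - 1 := by
      intro q
      have := Polynomial.mem_degreeLT.mp q.2
      by_cases h0 : (q : Polynomial (Polynomial K)) = 0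
      · rw [h0, Polynomial.natDegree_zero]
        exact Nat.zero_le _
      · have := (Polynomial.natDegree_lt_iff_degree_lt h0).mpr this
        omega
    have hd1 : ∀ q : Polynomial.degreeLT (Polynomial K) d,
        (Res_psi (q : Polynomial (Polynomial K))).degreeOf 1 ≤ d - 1 := by
      intro q
      rw [← Res_natDegree_le, Res_phi_psi]
      exact hq q
    refine ⟨Res_psi X.2, Res_psi X.1, hd1 _, hd1 _, ?_⟩
    intro S _ _ x u w
    have hdd : 2 * d - 1 = (d - 1) + d := by omega
    rw [← Res_H_C_mul, ← h2, Res_bh x u w (d - 1) _ (hd1 _), Res_bh x u w (d - 1) _ (hd1 _),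
      Res_bh x u w d A hA, Res_bh x u w d B hB, Res_phi_psi, Res_phi_psi, Res_H_add,
      mul_comm F, mul_comm G, hdd, Res_H_mul x u w (d - 1) d _ _ (hq _) hFd,
      Res_H_mul x u w (d - 1) d _ _ (hq _) hGd]
  obtain ⟨P1, Q1, h1, h2, h3⟩ := key (Polynomial.X ^ (2 * d - 1)) (by
    rw [Polynomial.mem_degreeLT, Polynomial.degree_X_pow]
    exact_mod_cast (by omega : 2 * d - 1 < d + d))
  obtain ⟨P2, Q2, h4, h5, h6⟩ := key 1 (by
    rw [Polynomial.mem_degreeLT, Polynomial.degree_one]
    exact_mod_cast (by omega : 0 < d + d))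
  refine ⟨Polynomial.resultant F G d d, P1, Q1, P2, Q2, hr, h1, h2, h4, h5, ?_⟩
  intro S _ _ x u w
  refine ⟨?_, ?_⟩
  · rw [← h3 S x u w, Res_H_X_pow]
  · rw [← h6 S x u w, Res_H_one]

end Pool.Agent.Work.MP_91e6de_nt.DM

end
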