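import Mathlib
import Pool.Agent.Work.MP_91e6de_nt.DM.StmtsB
import Pool.Agent.Work.MP_91e6de_nt.Bd.B03
import Pool.Agent.Work.MP_91e6de_nt.DMR.Stmts
import Pool.Agent.Work.MP_91e6de_nt.Bd.B02

/-! Bundle of small proof modules (one section per former module). -/

section

set_option autoImplicit false

/-!
# The determinant method along orbits (MP_91e6de): Sk gives RD
-/

namespace Pool.Agent.Work.MP_91e6de_nt.DM

open MvPolynomial

theorem SkRD_aux {K : Type} [Field K] (D : ℕ) (A B : MvPolynomial (Fin 2) K) (hA : A ≠ 0)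
    (hcop : ∀ G, G ∣ A → G ∣ B → G.degreeOf 1 = 0) (hex : A.degreeOf 1 = D ∨ B.degreeOf 1 = D)
    (A' B' : MvPolynomial (Fin 2) K) (hA' : A'.degreeOf 1 < D) (hB' : B'.degreeOf 1 < D)
    (h : A' * B = B' * A) : A' = 0 ∧ B' = 0 := by
  obtain ⟨a, b, c, hab, hca, hcb⟩ := UniqueFactorizationMonoid.exists_reduced_factors A hA B
  have hc0 : c ≠ 0 := by
    rintro rfl
    rw [zero_mul] at hca
    exact hA hca.symm
  have ha0 : a ≠ 0 := by
    rintro rfl
    rw [mul_zero] at hca
    exact hA hca.symm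
  have hcd : c.degreeOf 1 = 0 := hcop c ⟨a, hca.symm⟩ ⟨b, hcb.symm⟩
  have h1 : A' * b = B' * a := by
    apply mul_left_cancel₀ hc0
    calc c * (A' * b) = A' * (c * b) := by ring
      _ = B' * (c * a) := by rw [hcb, hca, h]
      _ = c * (B' * a) := by ring
  have h2 : a ∣ A' := hab.dvd_of_dvd_mul_right ⟨B', by rw [h1]; ring⟩
  obtain ⟨s, hs⟩ := h2
  have h3 : B' = b * s := by
    apply mul_right_cancel₀ ha0
    rw [← h1, hs]
    ring
  have hs0 : s = 0 := by
    by_contra hs0
    rcases hex with hex | hex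
    · have h4 := degreeOf_mul_eq (n := (1 : Fin 2)) ha0 hs0
      have h5 := degreeOf_mul_eq (n := (1 : Fin 2)) hc0 ha0
      rw [← hs] at h4
      rw [hca] at h5
      omega
    · by_cases hb0 : b = 0
      · rw [← hcb, hb0, mul_zero, degreeOf_zero] at hex
        omega
      · have h4 := degreeOf_mul_eq (n := (1 : Fin 2)) hb0 hs0
        have h5 := degreeOf_mul_eq (n := (1 : Fin 2)) hc0 hb0
        rw [← h3] at h4
        rw [hcb] at h5
        omega
  rw [hs, h3, hs0, mul_zero, mul_zero]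
  exact ⟨rfl, rfl⟩

theorem pr_SkRD : S_SkRD := by
  intro K _ D A B hAB A' B' hA' hB' h
  obtain ⟨hcop, -, -, hex⟩ := hAB
  by_cases hA : A = 0
  · by_cases hB : B = 0
    · have h1 := hcop (X 1) (by rw [hA]; exact dvd_zero _) (by rw [hB]; exact dvd_zero _)
      rw [degreeOf_X] at h1
      simp at h1
    · have := SkRD_aux D B A hB (fun G h1 h2 => hcop G h2 h1) hex.symm B' A' hB' hA' h.symm
      exact ⟨this.2, this.1⟩
  · exact SkRD_aux D A B hA hcop hex A' B' hA' hB' h

end Pool.Agent.Work.MP_91e6de_nt.DM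

end

section

set_option autoImplicit false

/-!
# MP_91e6de, item Slw: slow orbits are not dense
-/

namespace Pool.Agent.Work.MP_91e6de_nt.DM

open MvPolynomial NumberField Height Filter Topology

theorem Slw_bh_eq {K : Type} [Field K] (d : ℕ) (A : MvPolynomial (Fin 2) K) (x u w : K)
    (s : Finset (Fin 2 →₀ ℕ)) (hs : A.support ⊆ s) :
    bh d A x u w = ∑ m ∈ s, A.coeff m * (x ^ m 0 * u ^ m 1 * w ^ (d - m 1)) := by
  unfold bh
  simp only [Algebra.algebraMap_self, RingHom.id_apply]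
  apply Finset.sum_subset hs
  intro m _ hm
  rw [MvPolynomial.notMem_support_iff.mp hm, zero_mul]

theorem Slw_bh_add {K : Type} [Field K] (d : ℕ) (A B : MvPolynomial (Fin 2) K) (x u w : K) :
    bh d (A + B) x u w = bh d A x u w + bh d B x u w := by
  classical
  rw [Slw_bh_eq d (A + B) x u w ((A + B).support ∪ (A.support ∪ B.support))
      Finset.subset_union_left,
    Slw_bh_eq d A x u w ((A + B).support ∪ (A.support ∪ B.support))
      (Finset.subset_union_left.trans Finset.subset_union_right),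
    Slw_bh_eq d B x u w ((A + B).support ∪ (A.support ∪ B.support))
      (Finset.subset_union_right.trans Finset.subset_union_right), ← Finset.sum_add_distrib]
  apply Finset.sum_congr rfl
  intro m _
  rw [coeff_add]
  ring

theorem Slw_bh_mono {K : Type} [Field K] (d : ℕ) (m : Fin 2 →₀ ℕ) (a : K) (x u w : K) :
    bh d (monomial m a) x u w = a * (x ^ m 0 * u ^ m 1 * w ^ (d - m 1)) := by
  classical
  rw [Slw_bh_eq d _ x u w {m} (MvPolynomial.support_monomial_subset), Finset.sum_singleton,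
    coeff_monomial, if_pos rfl]

theorem Slw_bh_mulX {K : Type} [Field K] (d : ℕ) (A : MvPolynomial (Fin 2) K) (c x u w : K) :
    bh d (A * (X 0 - C c)) x u w = (x - c) * bh d A x u w := by
  classical
  induction A using MvPolynomial.induction_on' with
  | monomial m a =>
    have h : (monomial m a * (X 0 - C c) : MvPolynomial (Fin 2) K) =
        monomial (m + Finsupp.single 0 1) a + monomial m (-(a * c)) := by
      rw [mul_sub, X, monomial_mul, mul_one, mul_comm (monomial m a) (C c), C_mul_monomial,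
        map_neg, sub_eq_add_neg, mul_comm c a]
    rw [h, Slw_bh_add, Slw_bh_mono, Slw_bh_mono, Slw_bh_mono]
    simp only [Finsupp.coe_add, Pi.add_apply, Finsupp.single_apply]
    simp only [if_true, Fin.zero_eq_one_iff, OfNat.ofNat_ne_one, if_false, add_zero]
    rw [pow_succ]
    ring
  | add p q hp hq =>
    rw [add_mul, Slw_bh_add, Slw_bh_add, hp, hq]
    ring

theorem Slw_bh_scale {K : Type} [Field K] (d : ℕ) (A : MvPolynomial (Fin 2) K)
    (hA : A.degreeOf 1 ≤ d) (x u w s : K) (hs : s ≠ 0) :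
    bh d A x (u / s) (w / s) = (s ^ d)⁻¹ * bh d A x u w := by
  rw [Slw_bh_eq d A _ _ _ _ subset_rfl, Slw_bh_eq d A _ _ _ _ subset_rfl, Finset.mul_sum]
  apply Finset.sum_congr rfl
  intro m hm
  have h1 : m 1 ≤ d := (monomial_le_degreeOf 1 hm).trans hA
  have h2 : s ^ d = s ^ m 1 * s ^ (d - m 1) := by
    rw [← pow_add]
    congr 1
    omega
  rw [h2, div_pow, div_pow]
  field_simp

theorem Slw_fin {K : Type} [Field K] (e : ℕ) (x u w : ℕ → K) (N1 : ℕ)
    (G : MvPolynomial (Fin 2) K) (hG : G ≠ 0) (hd : G.degreeOf 1 ≤ e)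
    (h : ∀ n, N1 ≤ n → bh e G (x n) (u n) (w n) = 0) :
    ∃ G : MvPolynomial (Fin 2) K, G ≠ 0 ∧ G.degreeOf 1 ≤ e ∧
      ∀ n, bh e G (x n) (u n) (w n) = 0 := by
  classical
  have key : ∀ N : ℕ, ∃ G : MvPolynomial (Fin 2) K, G ≠ 0 ∧ G.degreeOf 1 ≤ e ∧
      (∀ n, N1 ≤ n → bh e G (x n) (u n) (w n) = 0) ∧
      ∀ n, n < N → bh e G (x n) (u n) (w n) = 0 := by
    intro N
    induction N with
    | zero => exact ⟨G, hG, hd, h, fun n hn => absurd hn (by omega)⟩
    | succ N ih =>
      obtain ⟨H, hH, hHd, h1, h2⟩ := ih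
      refine ⟨H * (X 0 - C (x N)), ?_, ?_, ?_, ?_⟩
      · apply mul_ne_zero hH
        intro h0
        have := congrArg (aeval (fun _ : Fin 2 => x N + 1)) h0
        simp at this
      · refine (degreeOf_mul_le _ _ _).trans ?_
        have h3 : (X 0 - C (x N) : MvPolynomial (Fin 2) K).degreeOf 1 = 0 := by
          apply Nat.eq_zero_of_le_zero
          refine (degreeOf_sub_le _ _ _).trans ?_
          rw [degreeOf_C, degreeOf_X_of_ne (by decide)]
          simp
        rw [h3]
        simpa using hHd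
      · intro n hn
        rw [Slw_bh_mulX, h1 n hn, mul_zero]
      · intro n hn
        rw [Slw_bh_mulX]
        rcases Nat.lt_succ_iff_lt_or_eq.mp hn with h3 | h3
        · rw [h2 n h3, mul_zero]
        · rw [h3, sub_self, zero_mul]
  obtain ⟨H, hH, hHd, h1, h2⟩ := key N1
  refine ⟨H, hH, hHd, fun n => ?_⟩
  rcases lt_or_ge n N1 with h3 | h3
  · exact h2 n h3
  · exact h1 n h3

theorem Slw_log (N1 : ℕ) (a b : ℝ) (ha : 0 ≤ a) (hb : 0 ≤ b) (n : ℕ) :
    a * Real.log ((N1 + n : ℕ) + 2) + b ≤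
      (a * (Real.log (N1 + 1) / Real.log 2 + 1) + b / Real.log 2) * Real.log (n + 2) := by
  have hl2 : 0 < Real.log 2 := Real.log_pos (by norm_num)
  have h1 : Real.log 2 ≤ Real.log (n + 2) := by
    apply Real.log_le_log (by norm_num)
    have : (0 : ℝ) ≤ n := Nat.cast_nonneg n
    linarith
  have hN : (0 : ℝ) ≤ N1 := Nat.cast_nonneg N1
  have hn : (0 : ℝ) ≤ n := Nat.cast_nonneg n
  have h2 : Real.log ((N1 + n : ℕ) + 2) ≤ Real.log (N1 + 1) + Real.log (n + 2) := by
    rw [← Real.log_mul (by linarith) (by linarith)]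
    apply Real.log_le_log (by push_cast; linarith)
    push_cast
    nlinarith
  have h3 : Real.log (N1 + 1) ≤ Real.log (N1 + 1) / Real.log 2 * Real.log (n + 2) := by
    have h4 : 0 ≤ Real.log ((N1 : ℝ) + 1) := Real.log_nonneg (by linarith)
    calc Real.log ((N1 : ℝ) + 1) = Real.log (N1 + 1) / Real.log 2 * Real.log 2 := by
          field_simp
      _ ≤ _ := by
          apply mul_le_mul_of_nonneg_left h1
          positivity
  have h5 : b ≤ b / Real.log 2 * Real.log (n + 2) := by
    calc b = b / Real.log 2 * Real.log 2 := by field_simp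
      _ ≤ _ := by
          apply mul_le_mul_of_nonneg_left h1
          positivity
  have h6 : a * Real.log ((N1 + n : ℕ) + 2) ≤
      a * ((Real.log (N1 + 1) / Real.log 2 + 1) * Real.log (n + 2)) := by
    apply mul_le_mul_of_nonneg_left _ ha
    linarith
  nlinarith

theorem pr_Slw (hT : S_T1A) (hChg : S_Chg) (hBck : S_Bck) (hHX : S_HX) : S_Slw := by
  intro K _ _ d A B b x u w C n1 hd hSk hb hx hu hw hne hh
  have hxn : ∀ n : ℕ, x n = x 0 + n * b := by
    intro n
    induction n with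
    | zero => simp
    | succ n ih => rw [hx, ih]; push_cast; ring
  obtain ⟨C0, hC0, hX⟩ := hHX K (x 0) b hb
  obtain ⟨L, hL⟩ := exists_nat_ge (|C| + 1)
  have hl2 : 0 < Real.log 2 := Real.log_pos (by norm_num)
  -- far out, `u n ≠ x n ^ L * w n`
  have hev : ∃ n2 : ℕ, ∀ n : ℕ, n2 ≤ n → C * Real.log (n + 2) < L * logHeight₁ (x n) := by
    have ht : Tendsto (fun n : ℕ => Real.log ((n : ℝ) + 1)) atTop atTop := by
      apply Real.tendsto_log_atTop.comp
      exact tendsto_atTop_add_const_right _ _ tendsto_natCast_atTop_atTop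
    obtain ⟨n2, hn2⟩ := (ht.eventually_gt_atTop (L * C0 + |C| * Real.log 2)).exists_forall_of_atTop
    refine ⟨n2, fun n hn => ?_⟩
    have h1 := hn2 n hn
    have h2 : Real.log (n + 2) ≤ Real.log (n + 1) + Real.log 2 := by
      have hn0 : (0 : ℝ) ≤ n := Nat.cast_nonneg n
      rw [← Real.log_mul (by linarith) (by norm_num)]
      apply Real.log_le_log (by linarith)
      linarith
    have h3 : Real.log (n + 1) - C0 ≤ logHeight₁ (x n) := by
      rw [hxn n]
      have := (hX n).2
      linarith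
    have h4 : C * Real.log (n + 2) ≤ |C| * (Real.log (n + 1) + Real.log 2) := by
      have h5 : 0 ≤ Real.log ((n : ℝ) + 2) := by
        apply Real.log_nonneg
        have hn0 : (0 : ℝ) ≤ n := Nat.cast_nonneg n
        linarith
      calc C * Real.log (n + 2) ≤ |C| * Real.log (n + 2) :=
            mul_le_mul_of_nonneg_right (le_abs_self C) h5
        _ ≤ _ := mul_le_mul_of_nonneg_left h2 (abs_nonneg C)
    have h6 : (L : ℝ) * (Real.log (n + 1) - C0) ≤ L * logHeight₁ (x n) :=
      mul_le_mul_of_nonneg_left h3 (Nat.cast_nonneg L)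
    have h7 : 0 ≤ Real.log ((n : ℝ) + 1) := by
      apply Real.log_nonneg
      have hn0 : (0 : ℝ) ≤ n := Nat.cast_nonneg n
      linarith
    have h8 : (|C| + 1) * Real.log ((n : ℝ) + 1) ≤ L * Real.log ((n : ℝ) + 1) :=
      mul_le_mul_of_nonneg_right hL h7
    nlinarith
  obtain ⟨n2, hn2⟩ := hev
  set N1 := max n1 n2 with hN1
  have hs : ∀ n, N1 ≤ n → u n - x n ^ L * w n ≠ 0 := by
    intro n hn h0
    have hn1 : n1 ≤ n := le_trans (le_max_left _ _) hn
    have hn2' : n2 ≤ n := le_trans (le_max_right _ _) hn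
    have hu0 : u n = x n ^ L * w n := sub_eq_zero.mp h0
    have hw0 : w n ≠ 0 := by
      intro hw0
      apply hne n
      rw [hu0, hw0, mul_zero]
      ext i
      fin_cases i <;> rfl
    have h1 : logHeight ![u n, w n] = L * logHeight₁ (x n) := by
      rw [← logHeight₁_div_eq_logHeight, hu0, mul_div_assoc, div_self hw0, mul_one,
        logHeight₁_pow]
    have h2 := hh n hn1
    rw [h1] at h2
    have h3 := hn2 n hn2'
    linarith
  -- the new coordinate
  obtain ⟨A', B', hSk', hval⟩ := hChg K d L A B b (by omega) hSk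
  set X' : ℕ → K := fun n => x (N1 + n) with hX'
  set s : ℕ → K := fun n => u (N1 + n) - x (N1 + n) ^ L * w (N1 + n) with hsdef
  set Y' : ℕ → K := fun n => w (N1 + n) / s n with hY'
  have hs' : ∀ n, s n ≠ 0 := fun n => hs (N1 + n) (by omega)
  have huy : ∀ n, 1 + X' n ^ L * Y' n = u (N1 + n) / s n := by
    intro n
    have h1 := hs' n
    simp only [hX', hY']
    rw [eq_div_iff h1, add_mul, one_mul, mul_assoc, div_mul_cancel₀ _ h1]
    simp only [hsdef]
    ring
  have hA' : ∀ n, aeval ![X' n, Y' n] A' = (s n ^ d)⁻¹ * w (N1 + n + 1) := by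
    intro n
    rw [(hval (X' n) (Y' n)).1, huy, hw (N1 + n)]
    exact Slw_bh_scale d B hSk.2.2.1 _ _ _ _ (hs' n)
  have hB' : ∀ n, aeval ![X' n, Y' n] B' = (s n ^ d)⁻¹ * s (n + 1) := by
    intro n
    rw [(hval (X' n) (Y' n)).2, huy]
    have e1 : bh d A (X' n) (u (N1 + n) / s n) (Y' n) =
        (s n ^ d)⁻¹ * bh d A (X' n) (u (N1 + n)) (w (N1 + n)) :=
      Slw_bh_scale d A hSk.2.1 _ _ _ _ (hs' n)
    have e2 : bh d B (X' n) (u (N1 + n) / s n) (Y' n) =
        (s n ^ d)⁻¹ * bh d B (X' n) (u (N1 + n)) (w (N1 + n)) :=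
      Slw_bh_scale d B hSk.2.2.1 _ _ _ _ (hs' n)
    rw [e1, e2]
    simp only [hX', hsdef]
    rw [← hu (N1 + n), ← hw (N1 + n), ← hx (N1 + n), show N1 + (n + 1) = N1 + n + 1 by ring]
    ring
  obtain ⟨G', hG', hz⟩ := hT K d A' B' b X' Y'
    ((|C| + L * C0) * (Real.log (N1 + 1) / Real.log 2 + 1) +
      (totalWeight K * Real.log 2) / Real.log 2) hd hSk' hb (fun n => hx (N1 + n))
    (by
      intro n
      have h1 : aeval ![X' n, Y' n] B' ≠ 0 := by
        rw [hB']
        exact mul_ne_zero (inv_ne_zero (pow_ne_zero _ (hs' n))) (hs' (n + 1))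
      refine ⟨h1, ?_⟩
      rw [hB', hA']
      have h2 : Y' (n + 1) = w (N1 + n + 1) / s (n + 1) := by
        simp only [hY']
        rw [show N1 + (n + 1) = N1 + n + 1 by ring]
      rw [h2, mul_assoc, mul_div_cancel₀ _ (hs' (n + 1))])
    (by
      intro n
      refine le_trans ?_ (Slw_log N1 (|C| + L * C0) (totalWeight K * Real.log 2) (by positivity)
        (by positivity) n)
      have hlog0 : 0 ≤ Real.log (((N1 + n : ℕ) : ℝ) + 2) := by
        apply Real.log_nonneg
        have hn0 : (0 : ℝ) ≤ ((N1 + n : ℕ) : ℝ) := Nat.cast_nonneg _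
        linarith
      rcases eq_or_ne (w (N1 + n)) 0 with h0 | h0
      · have : Y' n = 0 := by simp only [hY', h0, zero_div]
        rw [this, logHeight₁_zero]
        positivity
      · have h1 : (Y' n)⁻¹ = u (N1 + n) / w (N1 + n) - x (N1 + n) ^ L := by
          simp only [hY', hsdef]
          rw [inv_div]
          field_simp
        rw [← logHeight₁_inv, h1]
        refine (logHeight₁_sub_le _ _).trans ?_
        rw [logHeight₁_div_eq_logHeight, logHeight₁_pow]
        have h2 := hh (N1 + n) (le_trans (le_max_left _ _) (Nat.le_add_right _ _))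
        have h3 := (hX (N1 + n)).1
        rw [← hxn] at h3
        have h4 : (L : ℝ) * logHeight₁ (x (N1 + n)) ≤
            L * (C0 * Real.log (((N1 + n : ℕ) : ℝ) + 2)) :=
          mul_le_mul_of_nonneg_left h3 (Nat.cast_nonneg L)
        have h5 : C * Real.log (((N1 + n : ℕ) : ℝ) + 2) ≤
            |C| * Real.log (((N1 + n : ℕ) : ℝ) + 2) :=
          mul_le_mul_of_nonneg_right (le_abs_self C) hlog0
        nlinarith)
  obtain ⟨e, G, hG, hGd, hGz⟩ := hBck K L G' hG'
  obtain ⟨G2, hG2, hG2d, hG2z⟩ := Slw_fin e x u w N1 G hG hGd (by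
    intro n hn
    obtain ⟨m, rfl⟩ := Nat.exists_eq_add_of_le hn
    exact hGz _ _ _ (hs (N1 + m) hn) (hz m))
  exact ⟨e, G2, hG2, hG2d, hG2z⟩

end Pool.Agent.Work.MP_91e6de_nt.DM

end

section

set_option autoImplicit false

/-!
# Item T1A: affine slow orbits are not dense
-/

namespace Pool.Agent.Work.MP_91e6de_nt.DM

open MvPolynomial NumberField IsDedekindDomain Height Filter Topology

/-- Clearing denominators in finitely many polynomials. -/
theorem T1A_clear {K : Type} [Field K] [NumberField K] (s : Finset (MvPolynomial (Fin 2) K)) :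
    ∃ c : K, c ≠ 0 ∧ ∀ q ∈ s, ∃ q' : MvPolynomial (Fin 2) (𝓞 K),
      map (algebraMap (𝓞 K) K) q' = C c * q := by
  classical
  obtain ⟨b, hb⟩ := IsLocalization.exist_integer_multiples_of_finset (nonZeroDivisors (𝓞 K))
    (s.biUnion (fun q => q.support.image (fun m => q.coeff m)))
  refine ⟨algebraMap (𝓞 K) K b, ?_, ?_⟩
  · have : (b : 𝓞 K) ≠ 0 := nonZeroDivisors.ne_zero b.2
    simp
  · intro q hq
    have : (C (algebraMap (𝓞 K) K b) * q) ∈ Set.range (map (σ := Fin 2) (algebraMap (𝓞 K) K)) := by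
      rw [mem_range_map_iff_coeffs_subset]
      intro x hx
      rw [Finset.mem_coe, mem_coeffs_iff] at hx
      obtain ⟨m, hm, rfl⟩ := hx
      rw [coeff_C_mul]
      have hm' : m ∈ q.support := by
        rw [mem_support_iff] at hm ⊢
        intro h0
        apply hm
        rw [coeff_C_mul, h0, mul_zero]
      obtain ⟨a, ha⟩ := hb (q.coeff m) (by
        rw [Finset.mem_biUnion]
        exact ⟨q, hq, Finset.mem_image_of_mem _ hm'⟩)
      refine ⟨a, ?_⟩
      rw [ha]
      rw [Algebra.smul_def]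
    obtain ⟨q', hq'⟩ := this
    exact ⟨q', hq'⟩

theorem T1A_log (η : ℝ) (hη : 0 < η) (C : ℝ) (hC : 0 ≤ C) (N n : ℕ) (hN : 1 ≤ N) (hn : n ≤ 3 * N) :
    C * Real.log (n + 2) ≤ (C * (5 ^ η / η)) * (N : ℝ) ^ η := by
  have hN' : (1 : ℝ) ≤ N := by exact_mod_cast hN
  have hn' : (n : ℝ) ≤ 3 * N := by exact_mod_cast hn
  have h1 : Real.log (n + 2) ≤ ((n : ℝ) + 2) ^ η / η :=
    Real.log_le_rpow_div (by positivity) hη
  have h2 : ((n : ℝ) + 2) ^ η ≤ (5 * N) ^ η :=
    Real.rpow_le_rpow (by positivity) (by linarith) hη.le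
  rw [Real.mul_rpow (by norm_num) (by positivity)] at h2
  have h3 : Real.log (n + 2) ≤ 5 ^ η / η * (N : ℝ) ^ η := by
    calc Real.log (n + 2) ≤ ((n : ℝ) + 2) ^ η / η := h1
      _ ≤ (5 ^ η * (N : ℝ) ^ η) / η := by gcongr
      _ = 5 ^ η / η * (N : ℝ) ^ η := by ring
  calc C * Real.log (n + 2) ≤ C * (5 ^ η / η * (N : ℝ) ^ η) := mul_le_mul_of_nonneg_left h3 hC
    _ = _ := by ring

theorem pr_T1A (hCov : S_Cov) (hChn : S_Chn) (hPar : S_Par) (hTail : S_Tail) (hSkIt : S_SkIt)
    (hSkRD : S_SkRD) (hItrY : S_ItrY) (hMapI : S_MapI) (hHX : S_HX) (hPoH : S_PoH) : S_T1A := by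
  intro K _ _ d A B b x y C0 hd hSk hb hx hy hh
  classical
  obtain ⟨c, hc, hcl⟩ := T1A_clear ({(X 0 + C b) * B, A, B} : Finset (MvPolynomial (Fin 2) K))
  obtain ⟨p0, hp0⟩ := hcl ((X 0 + C b) * B) (by simp)
  obtain ⟨p1, hp1⟩ := hcl A (by simp)
  obtain ⟨p2, hp2⟩ := hcl B (by simp)
  set p : Fin 3 → MvPolynomial (Fin 2) (𝓞 K) := ![p0, p1, p2] with hpdef
  set p' : Fin 3 → MvPolynomial (Fin 2) K := fun i => map (algebraMap (𝓞 K) K) (p i) with hp'def
  have hp' : p' = ![C c * ((X 0 + C b) * B), C c * A, C c * B] := by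
    funext i
    fin_cases i
    · exact hp0
    · exact hp1
    · exact hp2
  set e : ℕ := max 1 (Finset.univ.sup (fun i => (p i).totalDegree)) with hedef
  have he1 : 1 ≤ e := le_max_left _ _
  have hpe : ∀ i, (p i).totalDegree ≤ e := fun i =>
    le_trans (Finset.le_sup (f := fun i => (p i).totalDegree) (Finset.mem_univ i))
      (le_max_right _ _)
  have hp'e : ∀ i, (p' i).totalDegree ≤ e := fun i =>
    le_trans (Finset.sup_mono (support_map_subset ..)) (hpe i)
  set P : ℕ → Fin 2 → K := fun n => ![x n, y n] with hPdef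
  have hev : ∀ n i, aeval (P n) (p i) = aeval (P n) (p' i) := fun n i =>
    (aeval_map_algebraMap K (P n) (p i)).symm
  have hP0 : ∀ n, aeval (P n) (p' 0) = c * ((x n + b) * aeval (P n) B) := by
    intro n
    rw [hp']
    simp [hPdef]
  have hP1 : ∀ n, aeval (P n) (p' 1) = c * aeval (P n) A := by
    intro n
    rw [hp']
    simp
  have hP2 : ∀ n, aeval (P n) (p' 2) = c * aeval (P n) B := by
    intro n
    rw [hp']
    simp
  have horb' : ∀ M, IsOrb p' M P := by
    intro M n _
    refine ⟨?_, ?_⟩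
    · rw [hP2]
      exact mul_ne_zero hc (hy n).1
    · intro i
      fin_cases i
      · have : aeval (P n) (p' 2) * P (n + 1) 0 = aeval (P n) (p' 0) := by
          rw [hP2, hP0]
          simp only [hPdef, Matrix.cons_val_zero, hx n]
          ring
        exact this
      · have : aeval (P n) (p' 2) * P (n + 1) 1 = aeval (P n) (p' 1) := by
          rw [hP2, hP1, mul_assoc]
          congr 1
          exact (hy n).2
        exact this
  have horb : ∀ M, IsOrb p M P := by
    intro M n hn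
    have h := horb' M n hn
    refine ⟨?_, ?_⟩
    · rw [hev]
      exact h.1
    · intro i
      rw [hev, hev]
      exact h.2 i
  have hxn : ∀ n, x n = x 0 + n * b := by
    intro n
    induction n with
    | zero => simp
    | succ n ih =>
      rw [hx n, ih]
      push_cast
      ring
  have hinj : Function.Injective P := by
    intro n n' h
    have h1 := congrFun h 0
    simp only [hPdef, Matrix.cons_val_zero] at h1
    rw [hxn n, hxn n'] at h1
    have h2 : (n : K) * b = n' * b := by linear_combination h1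
    have h3 := mul_right_cancel₀ hb h2
    exact_mod_cast h3
  -- heights
  obtain ⟨C1, hC1, hC1x⟩ := hHX K (x 0) b hb
  obtain ⟨C2, hC2, hC2x⟩ := hPoH K (Fin 2) (p' 2)
  have hlog2 : ∀ n : ℕ, Real.log 2 ≤ Real.log (n + 2) := fun n =>
    Real.log_le_log (by norm_num) (by linarith [(Nat.cast_nonneg n : (0 : ℝ) ≤ n)])
  have hl2 : (0 : ℝ) < Real.log 2 := Real.log_pos (by norm_num)
  have hlog1 : ∀ n : ℕ, (1 : ℝ) ≤ (Real.log 2)⁻¹ * Real.log (n + 2) := by
    intro n
    rw [← inv_mul_cancel₀ hl2.ne']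
    exact mul_le_mul_of_nonneg_left (hlog2 n) (by positivity)
  set C3 : ℝ := C1 + |C0| + C2 * ((Real.log 2)⁻¹ + C1 + |C0|) with hC3def
  have hC3 : 0 ≤ C3 := by positivity
  have hhx : ∀ n : ℕ, logHeight₁ (x n) ≤ C1 * Real.log (n + 2) := by
    intro n
    rw [hxn n]
    exact (hC1x n).1
  have hlogn : ∀ n : ℕ, 0 ≤ Real.log ((n : ℝ) + 2) := fun n => le_trans hl2.le (hlog2 n)
  have hhy : ∀ n : ℕ, logHeight₁ (y n) ≤ |C0| * Real.log (n + 2) := fun n =>
    (hh n).trans (mul_le_mul_of_nonneg_right (le_abs_self C0) (hlogn n))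
  have hB1 : ∀ n i, logHeight₁ (P n i) ≤ C3 * Real.log (n + 2) := by
    intro n i
    have hpos : 0 ≤ C2 * ((Real.log 2)⁻¹ + C1 + |C0|) := by positivity
    fin_cases i
    · have : logHeight₁ (x n) ≤ C3 * Real.log (n + 2) :=
        (hhx n).trans (mul_le_mul_of_nonneg_right (by
          rw [hC3def]; linarith [abs_nonneg C0]) (hlogn n))
      exact this
    · have : logHeight₁ (y n) ≤ C3 * Real.log (n + 2) :=
        (hhy n).trans (mul_le_mul_of_nonneg_right (by rw [hC3def]; linarith) (hlogn n))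
      exact this
  have hB2 : ∀ n, logHeight₁ (aeval (P n) (p 2)) ≤ C3 * Real.log (n + 2) := by
    intro n
    rw [hev]
    refine (hC2x (P n)).trans ?_
    have h1 : ∑ i, logHeight₁ (P n i) = logHeight₁ (x n) + logHeight₁ (y n) := by
      simp [hPdef, Fin.sum_univ_two]
    rw [h1]
    have h2 : 1 + (logHeight₁ (x n) + logHeight₁ (y n)) ≤
        ((Real.log 2)⁻¹ + C1 + |C0|) * Real.log (n + 2) := by
      have := hlog1 n
      have := hhx n
      have := hhy n
      nlinarith
    calc C2 * (1 + (logHeight₁ (x n) + logHeight₁ (y n)))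
        ≤ C2 * (((Real.log 2)⁻¹ + C1 + |C0|) * Real.log (n + 2)) :=
          mul_le_mul_of_nonneg_left h2 hC2
      _ ≤ C3 * Real.log (n + 2) := by
        rw [← mul_assoc]
        exact mul_le_mul_of_nonneg_right (by rw [hC3def]; linarith [abs_nonneg C0]) (hlogn n)
  -- parameters
  obtain ⟨η, hη, hpar⟩ := hPar (Module.finrank ℚ K) e 0 d Module.finrank_pos he1
    (by exact_mod_cast (by omega : 1 < d))
  obtain ⟨N0, hN0⟩ := hpar (C3 * (5 ^ η / η))
  set N := max N0 1 with hNdef
  have hN1 : 1 ≤ N := le_max_right _ _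
  obtain ⟨m, k, hm, hm1, _, hkN, hbig, hlam, hLt⟩ := hN0 N (le_max_left _ _)
  set h : ℝ := C3 * (5 ^ η / η) * (N : ℝ) ^ η with hhdef
  have hC4 : ∀ n : ℕ, n ≤ 3 * N → C3 * Real.log (n + 2) ≤ h := fun n hn =>
    T1A_log η hη C3 hC3 N n hN1 hn
  have hD : 4 * Module.finrank ℚ K * m ^ 2 < d ^ k := by
    have h4 : (((4 * Module.finrank ℚ K * m ^ 2 : ℕ)) : ℝ) ≤
        4 * ((4 * Module.finrank ℚ K * m ^ 2 : ℕ) : ℝ) := by
      linarith [(Nat.cast_nonneg (4 * Module.finrank ℚ K * m ^ 2) : (0 : ℝ) ≤ _)]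
    have h5 := lt_of_le_of_lt h4 hlam
    exact_mod_cast h5
  -- reduced degree
  have hRD : RD 1 (4 * Module.finrank ℚ K * m ^ 2)
      (map (algebraMap (𝓞 K) K) (itr e p k (Fin.castSucc 1)))
      (map (algebraMap (𝓞 K) K) (itr e p k 2)) := by
    have hmi := hMapI (𝓞 K) K (algebraMap (𝓞 K) K) (RingOfIntegers.coe_injective) e p k
    rw [hmi, hmi]
    obtain ⟨hW, -, hUW⟩ := hItrY K d e A B b c (by omega) hSk hc p' hp' hp'e k
    have hrd := hSkRD K (d ^ k) _ _ (hSkIt K d A B b (by omega) hSk k)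
    intro A' B' hA' hB' hAB
    refine hrd A' B' (lt_trans hA' hD) (lt_trans hB' hD) ?_
    have hAB' : A' * itr e p' k 2 = B' * itr e p' k 1 := hAB
    have : itr e p' k 2 * (A' * (itY d A B b k).2) = itr e p' k 2 * (B' * (itY d A B b k).1) := by
      calc itr e p' k 2 * (A' * (itY d A B b k).2)
          = (A' * itr e p' k 2) * (itY d A B b k).2 := by ring
        _ = B' * (itr e p' k 1 * (itY d A B b k).2) := by rw [hAB']; ring
        _ = itr e p' k 2 * (B' * (itY d A B b k).1) := by rw [hUW]; ring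
    exact mul_left_cancel₀ hW this
  have hcov : Cov P N (tt (Module.finrank ℚ K) e m k) (LL (Module.finrank ℚ K) e m k) := by
    refine hCov K p e (3 * N) k m N P 1 1 h he1 hm1 hpe (horb _) (by omega) hRD ?_ ?_ hm hbig
    · intro n hn i
      exact (hB1 n i).trans (hC4 n hn)
    · intro n hn
      exact (hB2 n).trans (hC4 n hn.le)
  obtain ⟨n0, g, G, hn0, hg1, hgN, hirr, hdiv, hcyc, hG0⟩ := hChn K p' e N _ _ P he1 hN1 hp'e
    (horb' _) (hinj.injOn) hcov hLt
  have htail := hTail K p' P n0 g G horb' hg1 hdiv hcyc hG0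
  refine ⟨(∏ i ∈ Finset.range g, G i) * ∏ n ∈ Finset.range n0, (X 0 - C (x n)), ?_, ?_⟩
  · apply mul_ne_zero
    · rw [Finset.prod_ne_zero_iff]
      intro i hi
      exact (hirr i (Finset.mem_range.1 hi).le).ne_zero
    · rw [Finset.prod_ne_zero_iff]
      intro n _ h0
      have h1 := congrArg (fun q => aeval (fun _ : Fin 2 => x n + 1) q) h0
      simp at h1
  · intro n
    rw [map_mul]
    by_cases hn : n0 ≤ n
    · have := htail n hn
      simp only [hPdef] at this
      rw [this, zero_mul]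
    · have h0 : aeval (![x n, y n] : Fin 2 → K) (∏ n ∈ Finset.range n0, (X 0 - C (x n))) = 0 := by
        rw [map_prod]
        refine Finset.prod_eq_zero (Finset.mem_range.2 (not_le.1 hn)) ?_
        simp
      rw [h0, mul_zero]

end Pool.Agent.Work.MP_91e6de_nt.DM

end

section

set_option autoImplicit false

/-!
# Item ThI: THEOREM I
-/

namespace Pool.Agent.Work.MP_91e6de_nt.DM

open MvPolynomial NumberField IsDedekindDomain Height Filter Topology

theorem ThI_log (n : ℕ) : 1 ≤ 2 * Real.log ((n : ℝ) + 2) := by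
  have h1 : Real.log 2 ≤ Real.log ((n : ℝ) + 2) := by
    apply Real.log_le_log (by norm_num)
    have : (0 : ℝ) ≤ n := Nat.cast_nonneg n
    linarith
  have h2 := Real.log_two_gt_d9
  linarith

theorem ThI_log_le (d n : ℕ) (hd : 2 ≤ d) : Real.log ((n : ℝ) + 2) ≤ (d : ℝ) ^ n := by
  have h0 : (0 : ℝ) ≤ n := Nat.cast_nonneg n
  have h1 : Real.log ((n : ℝ) + 2) ≤ (n : ℝ) + 2 - 1 :=
    Real.log_le_sub_one_of_pos (by linarith)
  have h2 : n + 1 ≤ 2 ^ n := Nat.lt_two_pow_self
  have h3 : (n : ℝ) + 1 ≤ 2 ^ n := by exact_mod_cast h2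
  have h4 : (2 : ℝ) ^ n ≤ (d : ℝ) ^ n := by
    apply pow_le_pow_left₀ (by norm_num)
    exact_mod_cast hd
  linarith

theorem ThI_x {K : Type} [Field K] (b : K) (x : ℕ → K) (hx : ∀ n, x (n + 1) = x n + b) :
    ∀ n : ℕ, x n = x 0 + n * b := by
  intro n
  induction n with
  | zero => simp
  | succ n ih =>
    rw [hx, ih]
    push_cast
    ring

theorem ThI_roots {K : Type} [Field K] [CharZero K] (b : K) (hb : b ≠ 0) (x : ℕ → K)
    (hx : ∀ n, x (n + 1) = x n + b) (R : Polynomial K) (hR : R ≠ 0) :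
    ∃ n1 : ℕ, ∀ n, n1 ≤ n → R.eval (x n) ≠ 0 := by
  have hinj : Function.Injective x := by
    intro m n h
    rw [ThI_x b x hx m, ThI_x b x hx n] at h
    have h1 : (m : K) * b = n * b := add_left_cancel h
    have h2 := mul_right_cancel₀ hb h1
    exact_mod_cast h2
  have hfin : {n : ℕ | R.eval (x n) = 0}.Finite := by
    have h1 : {n : ℕ | R.eval (x n) = 0} = x ⁻¹' {z | R.IsRoot z} := rfl
    rw [h1]
    exact (Polynomial.finite_setOfPred_isRoot hR).preimage hinj.injOn
  obtain ⟨N, hN⟩ := hfin.bddAbove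
  refine ⟨N + 1, fun n hn h => ?_⟩
  have := hN (show n ∈ {n : ℕ | R.eval (x n) = 0} from h)
  omega

theorem pr_ThI (hHU : S_HU) (hHL : S_HL) (hHX : S_HX) (hDic : S_Dic) (hUB : S_UB) (hLim : S_Lim)
    (hSlw : S_Slw) (hDgG : S_DgG) : S_ThI := by
  intro K _ _ d A B b x u w hd hSk hb hx hu hw hne hdense
  have hd0 : (0 : ℝ) < d := by
    have : 0 < d := by omega
    exact_mod_cast this
  obtain ⟨C1, hC1, h1⟩ := hHX K (x 0) b hb
  obtain ⟨C2, hC2, h2⟩ := hHU K d A B hSk.2.1 hSk.2.2.1
  obtain ⟨R, C3, hR, hC3, h3⟩ := hHL K d A B (by omega) hSk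
  have hxn := ThI_x b x hx
  have hl0 : ∀ n : ℕ, 0 ≤ Real.log ((n : ℝ) + 2) := fun n => by linarith [ThI_log n]
  have hx1 : ∀ n, 1 + logHeight₁ (x n) ≤ (2 + C1) * Real.log ((n : ℝ) + 2) := by
    intro n
    have h4 := (h1 n).1
    rw [← hxn n] at h4
    have h5 := ThI_log n
    linarith
  constructor
  · obtain ⟨C, hC⟩ := hDgG K d A B b hd hSk
    refine hLim d 1 C _ hd0 one_pos (Eventually.of_forall fun n => ?_)
      (Eventually.of_forall fun n => ?_)
    · have := (hC n).1
      rw [one_mul]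
      exact_mod_cast this
    · have := (hC n).2
      exact_mod_cast this
  · set a : ℕ → ℝ := fun n => logHeight ![u n, w n] with ha
    have hup : ∀ n, a (n + 1) ≤ d * a n + C2 * (2 + C1) * Real.log ((n : ℝ) + 2) := by
      intro n
      have h4 := h2 (x n) (u n) (w n)
      have h5 : a (n + 1) = logHeight ![bh d A (x n) (u n) (w n), bh d B (x n) (u n) (w n)] := by
        rw [ha]
        simp only
        rw [hu n, hw n]
      rw [h5]
      have h6 := mul_le_mul_of_nonneg_left (hx1 n) hC2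
      calc _ ≤ d * logHeight ![u n, w n] + C2 * (1 + logHeight₁ (x n)) := h4
        _ ≤ _ := by
          rw [mul_assoc]
          exact add_le_add le_rfl h6
    obtain ⟨n1, hn1⟩ := ThI_roots b hb x hx R hR
    have hlow : ∀ n, n1 ≤ n → d * a n ≤ a (n + 1) + C3 * (2 + C1) * Real.log ((n : ℝ) + 2) := by
      intro n hn
      have h4 := h3 (x n) (u n) (w n) (hn1 n hn) (hne n)
      have h5 : a (n + 1) = logHeight ![bh d A (x n) (u n) (w n), bh d B (x n) (u n) (w n)] := by
        rw [ha]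
        simp only
        rw [hu n, hw n]
      rw [h5]
      have h6 := mul_le_mul_of_nonneg_left (hx1 n) hC3
      calc _ ≤ _ + C3 * (1 + logHeight₁ (x n)) := h4
        _ ≤ _ := by
          rw [mul_assoc]
          exact add_le_add le_rfl h6
    obtain ⟨C', hC', hub⟩ := hUB d a (C2 * (2 + C1)) hd (by positivity) hup
    have hκ : (0 : ℝ) < Module.finrank ℚ K := by
      exact_mod_cast Module.finrank_pos
    rcases hDic d n1 a (C3 * (2 + C1)) hd (by positivity) hlow with ⟨c, hc, hcn⟩ | ⟨C'', _, hC''⟩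
    · refine hLim d (c / Module.finrank ℚ K) ((C1 + C') / Module.finrank ℚ K) _ hd0
        (div_pos hc hκ) ?_ (Eventually.of_forall fun n => ?_)
      · filter_upwards [hcn] with n hn
        rw [div_mul_eq_mul_div]
        apply div_le_div_of_nonneg_right _ hκ.le
        have := zero_le_logHeight₁ (x n)
        linarith
      · rw [div_mul_eq_mul_div]
        apply div_le_div_of_nonneg_right _ hκ.le
        have h4 := (h1 n).1
        rw [← hxn n] at h4
        have h5 := mul_le_mul_of_nonneg_left (ThI_log_le d n hd) hC1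
        have h6 := hub n
        rw [add_mul]
        exact add_le_add (h4.trans h5) h6
    · exfalso
      obtain ⟨e, G, hG, hGe, hG0⟩ := hSlw K d A B b x u w C'' n1 hd hSk hb hx hu hw hne hC''
      exact hG (hdense e G hGe hG0)

end Pool.Agent.Work.MP_91e6de_nt.DM

end

section

set_option autoImplicit false

/-!
# Item UB: upper growth
-/

namespace Pool.Agent.Work.MP_91e6de_nt.DM

open MvPolynomial NumberField IsDedekindDomain Height Filter Topology

theorem pr_UB : S_UB := by
  intro d a C hd hC h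
  have hd' : (2 : ℝ) ≤ d := by exact_mod_cast hd
  have key : ∀ n : ℕ, a n + C * (n + 3) ≤ (a 0 + C * 3) * (d : ℝ) ^ n := by
    intro n
    induction n with
    | zero => simp
    | succ n ih =>
      have h1 := h n
      have h2 : Real.log ((n : ℝ) + 2) ≤ (n : ℝ) + 1 := by
        have h3 := Real.log_le_sub_one_of_pos (x := (n : ℝ) + 2) (by positivity)
        linarith
      have h4 : C * Real.log ((n : ℝ) + 2) ≤ C * ((n : ℝ) + 1) :=
        mul_le_mul_of_nonneg_left h2 hC
      have h5 : (d : ℝ) * (a n + C * (n + 3)) ≤ (d : ℝ) * ((a 0 + C * 3) * (d : ℝ) ^ n) :=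
        mul_le_mul_of_nonneg_left ih (by positivity)
      have h6 : 2 * (C * ((n : ℝ) + 3)) ≤ d * (C * ((n : ℝ) + 3)) :=
        mul_le_mul_of_nonneg_right hd' (by positivity)
      rw [pow_succ]
      push_cast
      nlinarith
  refine ⟨max (a 0 + C * 3) 0, le_max_right _ _, fun n => ?_⟩
  have h1 := key n
  have h2 : (0 : ℝ) ≤ C * (n + 3) := by positivity
  have h3 : (a 0 + C * 3) * (d : ℝ) ^ n ≤ max (a 0 + C * 3) 0 * (d : ℝ) ^ n :=
    mul_le_mul_of_nonneg_right (le_max_left _ _) (by positivity)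
  linarith

end Pool.Agent.Work.MP_91e6de_nt.DM

end

section

set_option autoImplicit false

/-!
# The determinant method along orbits (MP_91e6de): the coordinate 1 / (y - x ^ L)
-/

namespace Pool.Agent.Work.MP_91e6de_nt.DM

open MvPolynomial

theorem pr_Chg (h : S_Res) : S_Chg := by
  intro K _ d L A B b hd hAB
  obtain ⟨R, P1, Q1, P2, Q2, hR, -, -, -, -, hid⟩ := h K d A B hd hAB
  obtain ⟨-, hA, hB, -⟩ := hAB
  set u : MvPolynomial (Fin 2) K := 1 + X 0 ^ L * X 1 with hu
  set w : MvPolynomial (Fin 2) K := X 1 with hw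
  have hx0 : (X 0 : MvPolynomial (Fin 2) K) = X 0 + C 0 := by rw [map_zero, add_zero]
  have hx1 : (X 0 : MvPolynomial (Fin 1) K) = X 0 + C 0 := by rw [map_zero, add_zero]
  have hau : auxY K u = 1 + Polynomial.C (X 0 ^ L) * Polynomial.X := by
    rw [hu, map_add, map_mul, map_pow, auxY_X0, auxY_X1, map_one, map_pow]
  have haw : auxY K w = Polynomial.X := auxY_X1 K
  have hU : (auxY K u).natDegree ≤ 1 := by
    rw [hau]
    refine (Polynomial.natDegree_add_le _ _).trans ?_
    rw [Polynomial.natDegree_one]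
    refine max_le (by omega) ?_
    exact (Polynomial.natDegree_C_mul_le _ _).trans Polynomial.natDegree_X_le
  have hW : (auxY K w).natDegree ≤ 1 := by
    rw [haw]
    exact Polynomial.natDegree_X_le
  have hUc : (auxY K u).coeff 1 = X 0 ^ L := by
    rw [hau, Polynomial.coeff_add, Polynomial.coeff_C_mul, Polynomial.coeff_X_one, mul_one]
    rw [Polynomial.coeff_one]
    simp
  have hWc : (auxY K w).coeff 1 = 1 := by
    rw [haw, Polynomial.coeff_X_one]
  have hmap : ∀ E : MvPolynomial (Fin 2) K, auxY K (bh d E (X 0) u w) =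
      bh d E (Polynomial.C (X 0)) (auxY K u) (auxY K w) := by
    intro E
    rw [← auxY_X0]
    exact auxY_bh (auxY K).toAlgHom d E _ _ _
  have hdeg : ∀ E : MvPolynomial (Fin 2) K, E.degreeOf 1 ≤ d →
      (auxY K (bh d E (X 0) u w)).natDegree ≤ d := by
    intro E hE
    rw [hmap]
    have := auxY_bh_natDegree d 1 E hE (X 0) _ _ hU hW
    rwa [mul_one] at this
  have hcoef : ∀ E : MvPolynomial (Fin 2) K, E.degreeOf 1 ≤ d →
      (auxY K (bh d E (X 0) u w)).coeff d = bh d E (X 0) (X 0 ^ L) 1 := by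
    intro E hE
    rw [hmap]
    have := auxY_bh_coeff d 1 E hE (X 0) _ _ hU hW
    rw [mul_one, hUc, hWc] at this
    exact this
  have hxb : auxY K ((X 0 + C b) ^ L) = Polynomial.C ((X 0 + C b) ^ L) := by
    rw [map_pow, map_add, auxY_X0, auxY_C, ← map_add, ← map_pow]
  have hB'map : auxY K (bh d A (X 0) u w - (X 0 + C b) ^ L * bh d B (X 0) u w) =
      auxY K (bh d A (X 0) u w) - Polynomial.C ((X 0 + C b) ^ L) *
        auxY K (bh d B (X 0) u w) := by
    rw [map_sub, map_mul, hxb]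
  refine ⟨bh d B (X 0) u w, bh d A (X 0) u w - (X 0 + C b) ^ L * bh d B (X 0) u w,
    ⟨?_, ?_, ?_, ?_⟩, ?_⟩
  · intro G hGA hGB
    by_contra hG
    have hG0 : G ≠ 0 := by
      rintro rfl
      exact hG (degreeOf_zero _)
    have hGA' : G ∣ bh d A (X 0) u w := by
      have := dvd_add hGB (hGA.mul_left ((X 0 + C b) ^ L))
      rwa [sub_add_cancel] at this
    obtain ⟨p, hp, hpG, hpd⟩ := auxY_prime G hG0 hG
    obtain ⟨h1, h2⟩ := hid (MvPolynomial (Fin 2) K) (X 0) u w
    have h3 : p ∣ Polynomial.aeval (X 0 : MvPolynomial (Fin 2) K) R * u ^ (2 * d - 1) := by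
      rw [h1]
      exact dvd_add ((hpG.trans hGA').mul_left _) ((hpG.trans hGA).mul_left _)
    have h4 : p ∣ Polynomial.aeval (X 0 : MvPolynomial (Fin 2) K) R * w ^ (2 * d - 1) := by
      rw [h2]
      exact dvd_add ((hpG.trans hGA').mul_left _) ((hpG.trans hGA).mul_left _)
    have hnd := auxY_ev_dvd 0 R hR p hpd
    rw [← hx0] at hnd
    have h5 : p ∣ u := hp.dvd_of_dvd_pow ((hp.dvd_or_dvd h3).resolve_left hnd)
    have h6 : p ∣ w := hp.dvd_of_dvd_pow ((hp.dvd_or_dvd h4).resolve_left hnd)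
    have h7 : p ∣ 1 := by
      have h8 : p ∣ X 0 ^ L * X 1 := h6.mul_left _
      have h9 := dvd_sub h5 h8
      rwa [hu, add_sub_cancel_right] at h9
    exact hp.not_isUnit (isUnit_of_dvd_one h7)
  · rw [← auxY_natDegree]
    exact hdeg B hB
  · rw [← auxY_natDegree, hB'map]
    refine (Polynomial.natDegree_sub_le _ _).trans (max_le (hdeg A hA) ?_)
    exact (Polynomial.natDegree_C_mul_le _ _).trans (hdeg B hB)
  · by_contra hcon
    push Not at hcon
    rw [← auxY_natDegree, ← auxY_natDegree] at hcon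
    have hB0 : bh d B (X 0 : MvPolynomial (Fin 1) K) (X 0 ^ L) 1 = 0 := by
      rw [← hcoef B hB]
      exact Polynomial.coeff_eq_zero_of_natDegree_lt (lt_of_le_of_ne (hdeg B hB) hcon.1)
    have hdB' : (auxY K (bh d A (X 0) u w - (X 0 + C b) ^ L * bh d B (X 0) u w)).natDegree ≤
        d := by
      rw [hB'map]
      refine (Polynomial.natDegree_sub_le _ _).trans (max_le (hdeg A hA) ?_)
      exact (Polynomial.natDegree_C_mul_le _ _).trans (hdeg B hB)
    have hA0 : bh d A (X 0 : MvPolynomial (Fin 1) K) (X 0 ^ L) 1 = 0 := by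
      have h1 := Polynomial.coeff_eq_zero_of_natDegree_lt (lt_of_le_of_ne hdB' hcon.2)
      rw [hB'map, Polynomial.coeff_sub, Polynomial.coeff_C_mul, hcoef A hA, hcoef B hB, hB0,
        mul_zero, sub_zero] at h1
      exact h1
    obtain ⟨-, h2⟩ := hid (MvPolynomial (Fin 1) K) (X 0) (X 0 ^ L) 1
    rw [hA0, hB0, mul_zero, mul_zero, add_zero, one_pow, mul_one] at h2
    have hR0 := auxY_ev_ne 0 0 R hR
    rw [← hx1] at hR0
    exact hR0 h2
  · intro x y
    have hm : ∀ E : MvPolynomial (Fin 2) K, aeval ![x, y] (bh d E (X 0) u w) =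
        bh d E x (1 + x ^ L * y) y := by
      intro E
      have h1 := auxY_bh (aeval ![x, y] : MvPolynomial (Fin 2) K →ₐ[K] K) d E (X 0) u w
      rw [h1, hu, hw]
      simp
    refine ⟨hm B, ?_⟩
    rw [map_sub, map_mul, hm, hm]
    simp

end Pool.Agent.Work.MP_91e6de_nt.DM

end

section

set_option autoImplicit false

/-!
# The determinant method along orbits (MP_91e6de): item HL
-/

namespace Pool.Agent.Work.MP_91e6de_nt.DM

open MvPolynomial NumberField IsDedekindDomain Height

theorem pr_HL (hRes : S_Res) : S_HL := by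
  intro K _ _ d A B hd hAB
  obtain ⟨R, P1, Q1, P2, Q2, hR, hP1, hQ1, hP2, hQ2, hid⟩ := hRes K d A B hd hAB
  let a := max (max (P1.degreeOf 0) (Q1.degreeOf 0)) (max (P2.degreeOf 0) (Q2.degreeOf 0))
  let M : Fin 2 × ((Fin (a + 1) × Fin (d - 1 + 1)) × Fin 2) → K := fun q =>
    coeff (HU_mk q.2.1.1 q.2.1.2) ((![![P1, Q1], ![P2, Q2]] : Fin 2 → Fin 2 → _) q.1 q.2.2)
  obtain ⟨C, hC, hM⟩ := HU_lin M
  refine ⟨R, C + a, hR, by positivity, fun x u w hx huw => ?_⟩
  let z : Fin (a + 1) × Fin (d - 1 + 1) → K := fun p => x ^ (p.1 : ℕ) * (u ^ (p.2 : ℕ) *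
      w ^ (d - 1 - (p.2 : ℕ)))
  have h1 : (R.eval x) • ((![u, w] : Fin 2 → K) ^ (2 * d - 1)) = fun j => ∑ i, M (j, i) *
      (fun p : (Fin (a + 1) × Fin (d - 1 + 1)) × Fin 2 =>
        z p.1 * (![bh d A x u w, bh d B x u w] : Fin 2 → K) p.2) i := by
    have hi := hid K x u w
    rw [Polynomial.coe_aeval_eq_eval] at hi
    have ha1 : P1.degreeOf 0 ≤ a := (le_max_left _ _).trans (le_max_left _ _)
    have ha2 : Q1.degreeOf 0 ≤ a := (le_max_right _ _).trans (le_max_left _ _)
    have ha3 : P2.degreeOf 0 ≤ a := (le_max_left _ _).trans (le_max_right _ _)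
    have ha4 : Q2.degreeOf 0 ≤ a := (le_max_right _ _).trans (le_max_right _ _)
    funext j
    rw [Fintype.sum_prod_type_right]
    rw [Fin.sum_univ_two]
    have e : ∀ (P : MvPolynomial (Fin 2) K), P.degreeOf 0 ≤ a → P.degreeOf 1 ≤ d - 1 →
        ∀ s : K, ∑ p : Fin (a + 1) × Fin (d - 1 + 1), coeff (HU_mk p.1 p.2) P * (z p * s) =
          bh (d - 1) P x u w * s := by
      intro P hP0 hP1 s
      rw [HU_bh a (d - 1) P hP0 hP1 x u w, Finset.sum_mul]
      refine Finset.sum_congr rfl fun p _ => ?_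
      show _ = coeff (HU_mk p.1 p.2) P * z p * s
      ring
    fin_cases j
    · refine hi.1.trans ?_
      rw [← e P1 ha1 hP1, ← e Q1 ha2 hQ1]
      rfl
    · refine hi.2.trans ?_
      rw [← e P2 ha3 hP2, ← e Q2 ha4 hQ2]
      rfl
  have h2 := hM (fun p : (Fin (a + 1) × Fin (d - 1 + 1)) × Fin 2 =>
        z p.1 * (![bh d A x u w, bh d B x u w] : Fin 2 → K) p.2)
  rw [← h1, logHeight_smul_eq_logHeight _ hx, logHeight_pow] at h2
  have h3 := HU_mul z (![bh d A x u w, bh d B x u w] : Fin 2 → K)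
  have h4 := HU_z a (d - 1) x u w
  have h5 := zero_le_logHeight₁ x
  have h6 : 0 ≤ C * logHeight₁ x := mul_nonneg hC h5
  have h7 : (0 : ℝ) ≤ a := by positivity
  have h8 : ((2 * d - 1 : ℕ) : ℝ) = 2 * d - 1 := by
    rw [Nat.cast_sub (by omega)]
    push_cast
    ring
  have h9 : ((d - 1 : ℕ) : ℝ) = d - 1 := by
    rw [Nat.cast_sub hd]
    push_cast
    ring
  rw [h8] at h2
  rw [h9] at h4
  have h10 : logHeight z ≤ a * logHeight₁ x + (d - 1) * logHeight ![u, w] := h4
  nlinarith

end Pool.Agent.Work.MP_91e6de_nt.DM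

end

section

set_option autoImplicit false

/-!
# The determinant method along orbits (MP_91e6de): iterates of skew products are reduced
-/

namespace Pool.Agent.Work.MP_91e6de_nt.DM

open MvPolynomial

/-- Composition of two skew products. -/
theorem SkIt_step (h : S_Res) {K : Type} [Field K] (d D : ℕ) (A B : MvPolynomial (Fin 2) K)
    (c : K) (u w : MvPolynomial (Fin 2) K) (hd : 1 ≤ d) (hD : 1 ≤ D) (hAB : Sk d A B)
    (huw : Sk D u w) :
    Sk (d * D) (bh d A (X 0 + C c) u w) (bh d B (X 0 + C c) u w) := by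
  obtain ⟨R, P1, Q1, P2, Q2, hR, -, -, -, -, hid⟩ := h K d A B hd hAB
  obtain ⟨-, hA, hB, -⟩ := hAB
  obtain ⟨hcop, hu, hw, hex⟩ := huw
  have hU : (auxY K u).natDegree ≤ D := by rw [auxY_natDegree]; exact hu
  have hW : (auxY K w).natDegree ≤ D := by rw [auxY_natDegree]; exact hw
  have hxq : auxY K (X 0 + C c) = Polynomial.C (X 0 + C c) := by
    rw [map_add, auxY_X0, auxY_C, ← map_add]
  have hmap : ∀ E : MvPolynomial (Fin 2) K, auxY K (bh d E (X 0 + C c) u w) =
      bh d E (Polynomial.C (X 0 + C c)) (auxY K u) (auxY K w) := by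
    intro E
    rw [← hxq]
    exact auxY_bh (auxY K).toAlgHom d E _ _ _
  have hdeg : ∀ E : MvPolynomial (Fin 2) K, E.degreeOf 1 ≤ d →
      (bh d E (X 0 + C c) u w).degreeOf 1 ≤ d * D := by
    intro E hE
    rw [← auxY_natDegree, hmap]
    exact auxY_bh_natDegree d D E hE _ _ _ hU hW
  have hcoef : ∀ E : MvPolynomial (Fin 2) K, E.degreeOf 1 ≤ d →
      (bh d E (X 0 + C c) u w).degreeOf 1 ≠ d * D →
      bh d E (X 0 + C c : MvPolynomial (Fin 1) K) ((auxY K u).coeff D) ((auxY K w).coeff D) =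
        0 := by
    intro E hE hne
    have h1 : (bh d E (X 0 + C c) u w).degreeOf 1 < d * D := lt_of_le_of_ne (hdeg E hE) hne
    rw [← auxY_natDegree] at h1
    have h2 := Polynomial.coeff_eq_zero_of_natDegree_lt h1
    rw [hmap, auxY_bh_coeff d D E hE _ _ _ hU hW] at h2
    exact h2
  refine ⟨?_, hdeg A hA, hdeg B hB, ?_⟩
  · intro G hGA hGB
    by_contra hG
    have hG0 : G ≠ 0 := by
      rintro rfl
      exact hG (degreeOf_zero _)
    obtain ⟨p, hp, hpG, hpd⟩ := auxY_prime G hG0 hG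
    obtain ⟨h1, h2⟩ := hid (MvPolynomial (Fin 2) K) (X 0 + C c) u w
    have h3 : p ∣ Polynomial.aeval (X 0 + C c : MvPolynomial (Fin 2) K) R * u ^ (2 * d - 1) := by
      rw [h1]
      exact dvd_add ((hpG.trans hGA).mul_left _) ((hpG.trans hGB).mul_left _)
    have h4 : p ∣ Polynomial.aeval (X 0 + C c : MvPolynomial (Fin 2) K) R * w ^ (2 * d - 1) := by
      rw [h2]
      exact dvd_add ((hpG.trans hGA).mul_left _) ((hpG.trans hGB).mul_left _)
    have hnd := auxY_ev_dvd c R hR p hpd
    have h5 : p ∣ u := hp.dvd_of_dvd_pow ((hp.dvd_or_dvd h3).resolve_left hnd)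
    have h6 : p ∣ w := hp.dvd_of_dvd_pow ((hp.dvd_or_dvd h4).resolve_left hnd)
    exact hpd (hcop p h5 h6)
  · by_contra hcon
    push Not at hcon
    have hA0 := hcoef A hA hcon.1
    have hB0 := hcoef B hB hcon.2
    obtain ⟨h1, h2⟩ := hid (MvPolynomial (Fin 1) K) (X 0 + C c) ((auxY K u).coeff D)
      ((auxY K w).coeff D)
    rw [hA0, hB0, mul_zero, mul_zero, add_zero] at h1 h2
    have hR0 := auxY_ev_ne 0 c R hR
    have h3 : (auxY K u).coeff D = 0 :=
      pow_eq_zero_iff (by omega) |>.1 ((mul_eq_zero.1 h1).resolve_left hR0)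
    have h4 : (auxY K w).coeff D = 0 :=
      pow_eq_zero_iff (by omega) |>.1 ((mul_eq_zero.1 h2).resolve_left hR0)
    have key : ∀ v : MvPolynomial (Fin 2) K, v.degreeOf 1 = D → (auxY K v).coeff D ≠ 0 := by
      intro v hv hv0
      rw [← auxY_natDegree] at hv
      rw [← hv] at hv0
      have h5 : (auxY K v).leadingCoeff = 0 := hv0
      rw [Polynomial.leadingCoeff_eq_zero] at h5
      rw [h5, Polynomial.natDegree_zero] at hv
      omega
    rcases hex with h5 | h5
    · exact key u h5 h3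
    · exact key w h5 h4

theorem pr_SkIt (h : S_Res) : S_SkIt := by
  intro K _ d A B b hd hAB k
  induction k with
  | zero =>
    refine ⟨?_, ?_, ?_, ?_⟩
    · intro G _ hG
      have hu : IsUnit G := isUnit_of_dvd_one hG
      by_contra hG1
      have hG0 : G ≠ 0 := hu.ne_zero
      obtain ⟨p, hp, hpG, -⟩ := auxY_prime G hG0 hG1
      exact hp.not_isUnit (isUnit_of_dvd_unit hpG hu)
    · change (X 1 : MvPolynomial (Fin 2) K).degreeOf 1 ≤ _
      rw [← auxY_natDegree, auxY_X1, Polynomial.natDegree_X, pow_zero]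
    · change (1 : MvPolynomial (Fin 2) K).degreeOf 1 ≤ _
      rw [degreeOf_one]
      exact Nat.zero_le _
    · left
      change (X 1 : MvPolynomial (Fin 2) K).degreeOf 1 = _
      rw [← auxY_natDegree, auxY_X1, Polynomial.natDegree_X, pow_zero]
  | succ k ih =>
    have h1 := SkIt_step h d (d ^ k) A B (k * b) (itY d A B b k).1 (itY d A B b k).2 hd
      (Nat.one_le_pow _ _ hd) hAB ih
    have h2 : d ^ (k + 1) = d * d ^ k := pow_succ' d k
    rw [h2]
    exact h1

end Pool.Agent.Work.MP_91e6de_nt.DM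

end

section

set_option autoImplicit false

/-!
# The chain is cyclic
-/

namespace Pool.Agent.Work.MP_91e6de_nt.DMR

open MvPolynomial NumberField IsDedekindDomain Height
open Pool.Agent.Work.MP_91e6de_nt.DM (va nv)

open Classical in
theorem chain_exists {α : Type} (Pr : ℕ → α → Prop) (Rl : α → α → Prop) (g : ℕ) (x0 : α)
    (h0 : Pr 0 x0) (hs : ∀ i < g, ∀ x, Pr i x → ∃ y, Rl x y ∧ Pr (i + 1) y) :
    ∃ f : ℕ → α, f 0 = x0 ∧ (∀ i ≤ g, Pr i (f i)) ∧ ∀ i < g, Rl (f i) (f (i + 1)) := by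
  let f : ℕ → α := fun n => Nat.rec x0
    (fun i x => if h : i < g ∧ Pr i x then (hs i h.1 x h.2).choose else x) n
  have hf0 : f 0 = x0 := rfl
  have hfs : ∀ i (h : i < g) (hp : Pr i (f i)), f (i + 1) = (hs i h (f i) hp).choose := by
    intro i h hp
    change (if h : i < g ∧ Pr i (f i) then (hs i h.1 (f i) h.2).choose else f i) = _
    rw [dif_pos ⟨h, hp⟩]
  have hP : ∀ i ≤ g, Pr i (f i) := by
    intro i
    induction i with
    | zero => intro _; rw [hf0]; exact h0
    | succ i ih =>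
      intro hi
      have hp := ih (by omega)
      rw [hfs i (by omega) hp]
      exact (hs i (by omega) (f i) hp).choose_spec.2
  refine ⟨f, hf0, hP, ?_⟩
  intro i hi
  have hp := hP i hi.le
  rw [hfs i hi hp]
  exact (hs i hi (f i) hp).choose_spec.1

theorem chain_LG_mono (kap r h G G' : ℕ) (hG : G ≤ G') : LG kap r G h ≤ LG kap r G' h := by
  unfold LG
  gcongr

theorem pr_Chain (h1 : S_Gap2) (h2 : S_Good) (h3 : S_Step) (h4 : S_EE) (h5 : S_Down) :
    S_Chain := by
  intro K σ _ _ _ p q e h M P I S d B L N R R' hs hd hdr hB hL hLv hS4 hRN hRR' hR'M hlow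
  obtain ⟨g, hg1, hg12, hgS⟩ := h1 N L R S hL hS4 hLv.bd hRN hLv.big
  set S1 := S.filter (fun n => n + g ∈ S) with hS1
  have hS1S : ∀ n ∈ S1, n ∈ S ∧ n + g ∈ S := fun n hn => Finset.mem_filter.mp hn
  obtain ⟨v, a, S2, hS2S1, hS2c, hgood⟩ := h2 K σ p q e h M g P S1 hs (by omega) (by
    intro n hn
    have := hLv.bd _ (hS1S n hn).2
    omega)
  set kap := Module.finrank ℚ K with hkap
  set r := Fintype.card σ with hr
  set L2 := L * (24 * L) * LG kap r (12 * L) h with hL2
  have hS2S : ∀ n ∈ S2, n ∈ S ∧ n + g ∈ S := fun n hn => hS1S n (hS2S1 hn)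
  have hc2 : S.card ≤ S2.card * LG kap r (12 * L) h * (24 * L) := by
    refine hgS.trans (Nat.mul_le_mul_right _ (hS2c.trans (Nat.mul_le_mul_left _ ?_)))
    exact chain_LG_mono kap r h g (12 * L) hg12
  have hbig : N ≤ S2.card * L2 := by
    calc N ≤ S.card * L := hLv.big
      _ ≤ S2.card * LG kap r (12 * L) h * (24 * L) * L := Nat.mul_le_mul_right _ hc2
      _ = S2.card * L2 := by rw [hL2]; ring
  have hne : S2.Nonempty := by
    rw [Finset.nonempty_iff_ne_empty]
    intro h0
    rw [h0, Finset.card_empty, Nat.zero_mul, Nat.zero_mul] at hc2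
    omega
  have hlow' : ∀ d' < d, ∀ (I' : Ideal (MvPolynomial σ K)) (S' : Finset ℕ),
      ¬ Lv P I' S' d' (BS kap r e d B h) (L2 * ((d - 1).factorial * BS kap r e d B h)) N R' := by
    intro d' hd' I' S'
    exact hlow d' hd' I' S'
  obtain ⟨f, hf0, hfP, hfR⟩ := chain_exists (fun i (J : Ideal (MvPolynomial σ K)) =>
      J.IsPrime ∧ Dim J d ∧ HB J (B + B1 kap r d B h) d ∧ ∀ n ∈ S2, On J (P (n + i)))
    (fun I J => Push (fun i => map (algebraMap (𝓞 K) K) (p i)) (map (algebraMap (𝓞 K) K) q) I J)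
    g I ⟨hLv.prime, hLv.dim, HB_mono hLv.hb (by omega), fun n hn => hLv.on n (hS2S n hn).1⟩ (by
      intro i hi J hJ
      obtain ⟨hJp, hJd, hJb, hJon⟩ := hJ
      obtain ⟨J', hJ'p, hpush, hJ'd, hJ'b, hJ'on⟩ := h3 K σ p q e h M P v a I J S2 g i d B L2 N R
        R' (B + B1 kap r d B h) hs hgood hB hd hLv.hb (fun n hn => hLv.on n (hS2S n hn).1) hne
        (by
          intro n hn
          have a1 := hLv.bd _ (hS2S n hn).2
          have a2 := hLv.bd _ (hS2S n hn).1
          exact ⟨by omega, a2⟩)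
        (by omega) hbig hi hJp hJd hJb le_rfl hJon hlow'
      exact ⟨J', hpush, hJ'p, hJ'd, HB_mono hJ'b (Nat.le_add_left _ _), hJ'on⟩)
  have hrel : ∀ F ∈ I, F.totalDegree ≤ QQ d B → F ∈ f g := by
    intro F hF hFd
    by_contra hFg
    obtain ⟨hgp, hgd, hgb, hgon⟩ := hfP g le_rfl
    have hinj : Function.Injective (fun n : ℕ => n + g) := fun x y hxy => by simpa using hxy
    obtain ⟨d0, rfl⟩ : ∃ d0, d = d0 + 1 := ⟨d - 1, by omega⟩
    have hBW : B + B1 kap r (d0 + 1) B h ≤ BW kap r e (d0 + 1) B h := by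
      unfold BW
      rw [mul_assoc]
      apply Nat.le_mul_of_pos_right
      positivity
    have hlv : Lv P (f g) (S2.image (fun n => n + g)) (d0 + 1) (BW kap r e (d0 + 1) B h) L2 N
        R' := by
      refine ⟨hgp, hgd, HB_mono hgb hBW, ?_, ?_, ?_⟩
      · rw [Finset.card_image_of_injective _ hinj]
        exact hbig
      · intro n hn
        obtain ⟨m, hm, rfl⟩ := Finset.mem_image.mp hn
        have := hLv.bd _ (hS2S m hm).2
        omega
      · intro n hn
        obtain ⟨m, hm, rfl⟩ := Finset.mem_image.mp hn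
        exact hgon m hm
    obtain ⟨I', S', hlv'⟩ := h5 σ K P (f g) F (S2.image (fun n => n + g)) d0
      (BW kap r e (d0 + 1) B h) L2 N R' (TT kap (d0 + 1) B h + QQ (d0 + 1) B) hlv
      (hne.image _) (by omega) (by
        intro n hn
        obtain ⟨m, hm, rfl⟩ := Finset.mem_image.mp hn
        exact hLv.on _ (hS2S m hm).2 F hF) hFg
    exact hlow' d0 (by omega) I' S' hlv'
  have hIg : I = f g := by
    obtain ⟨hgp, hgd, hgb, hgon⟩ := hfP g le_rfl
    exact h4 σ K I (f g) B d hLv.prime hgp hLv.dim hgd hLv.hb hrel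
  obtain ⟨n0, hn0⟩ := hne
  refine ⟨n0, g, f, ?_, hg1, ?_, hfR, ?_, ?_⟩
  · have := hLv.bd _ (hS2S n0 hn0).1
    omega
  · intro i hi
    obtain ⟨hgp, hgd, hgb, hgon⟩ := hfP i hi
    exact ⟨hgp, ne_bot_of_Dim hgd hdr⟩
  · rw [← hIg, hf0]
  · rw [hf0]
    exact hLv.on _ (hS2S n0 hn0).1

end Pool.Agent.Work.MP_91e6de_nt.DMR

end

section

set_option autoImplicit false

/-!
# Item ClsG: residue classes (helper55, generalising DM/I_Cls.lean of helper27)
-/

namespace Pool.Agent.Work.MP_91e6de_nt.DMR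

open MvPolynomial NumberField IsDedekindDomain Height
open Pool.Agent.Work.MP_91e6de_nt.DM (va nv)

theorem ClsG_le_one {K : Type} [Field K] [NumberField K] (v : HeightOneSpectrum (𝓞 K)) {x : K}
    (h : va v x ≤ 1) : v.valuation K x ≤ 1 := by
  rw [va, NumberField.HeightOneSpectrum.adicAbv_def] at h
  by_contra hc
  rw [not_le] at hc
  have h1 := WithZeroMulInt.toNNReal_strictMono
    (NumberField.HeightOneSpectrum.one_lt_absNorm_nnreal v) hc
  rw [map_one] at h1
  have h2 : (1 : ℝ) < (WithZeroMulInt.toNNReal (NumberField.HeightOneSpectrum.absNorm_ne_zero v)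
    (v.valuation K x) : NNReal) := by exact_mod_cast h1
  exact absurd h (not_le.2 h2)

theorem ClsG_lt_one {K : Type} [Field K] [NumberField K] (v : HeightOneSpectrum (𝓞 K)) {x : K}
    (h : v.valuation K x < 1) : va v x < 1 := by
  rw [va, NumberField.HeightOneSpectrum.adicAbv_def]
  have h1 := WithZeroMulInt.toNNReal_strictMono
    (NumberField.HeightOneSpectrum.one_lt_absNorm_nnreal v) h
  rw [map_one] at h1
  exact_mod_cast h1

theorem ClsG_approx {K : Type} [Field K] [NumberField K] (v : HeightOneSpectrum (𝓞 K)) {x : K}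
    (h : va v x ≤ 1) : ∃ a : 𝓞 K, va v (x - algebraMap (𝓞 K) K a) < 1 := by
  obtain ⟨a, ha⟩ := HeightOneSpectrum.exists_valuation_sub_lt_of_integer v (ClsG_le_one v h) 1
  refine ⟨a, ?_⟩
  rw [AbsoluteValue.map_sub]
  exact ClsG_lt_one v (by simpa using ha)

theorem pr_ClsG : S_ClsG := by
  classical
  intro K σ _ _ _ v S P hP
  have hq : Finite (𝓞 K ⧸ v.asIdeal) := v.asIdeal.finiteQuotientOfFreeOfNeBot v.ne_bot
  let _ : Fintype (𝓞 K ⧸ v.asIdeal) := Fintype.ofFinite _
  have hr : ∀ n i, ∃ a : 𝓞 K, n ∈ S → va v (P n i - algebraMap (𝓞 K) K a) < 1 := by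
    intro n i
    by_cases hn : n ∈ S
    · obtain ⟨a, ha⟩ := ClsG_approx v (hP n hn i)
      exact ⟨a, fun _ => ha⟩
    · exact ⟨0, fun h => absurd h hn⟩
  choose r hr using hr
  let c : ℕ → (σ → 𝓞 K ⧸ v.asIdeal) := fun n i => Ideal.Quotient.mk v.asIdeal (r n i)
  have hcard : Fintype.card (σ → 𝓞 K ⧸ v.asIdeal) = nv v ^ Fintype.card σ := by
    rw [Fintype.card_fun, ← Nat.card_eq_fintype_card]
    rfl
  have hpos : 0 < nv v := by
    have := NumberField.HeightOneSpectrum.one_lt_absNorm v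
    exact lt_trans one_pos this
  obtain ⟨y, _, hy⟩ := Finset.exists_le_card_fiber_of_nsmul_le_card_of_maps_to
    (s := S) (t := (Finset.univ : Finset (σ → 𝓞 K ⧸ v.asIdeal))) (f := c)
    (b := (S.card : ℚ) / ((nv v ^ Fintype.card σ : ℕ) : ℚ)) (fun _ _ => Finset.mem_univ _)
    ⟨0, Finset.mem_univ _⟩ (by
      rw [Finset.card_univ, hcard, nsmul_eq_mul]
      rw [mul_div_cancel₀]
      exact_mod_cast (pow_pos hpos (Fintype.card σ)).ne')
  have ha : ∀ i, ∃ a : 𝓞 K, Ideal.Quotient.mk v.asIdeal a = y i :=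
    fun i => Ideal.Quotient.mk_surjective (y i)
  choose a ha using ha
  refine ⟨a, S.filter (fun n => c n = y), Finset.filter_subset _ _, ?_, ?_⟩
  · rw [div_le_iff₀ (by exact_mod_cast pow_pos hpos (Fintype.card σ))] at hy
    exact_mod_cast hy
  · intro n hn i
    rw [Finset.mem_filter] at hn
    have h1 : r n i - a i ∈ v.asIdeal := by
      rw [← Ideal.Quotient.eq, ha i, ← hn.2]
    have h2 : va v (algebraMap (𝓞 K) K (r n i - a i)) < 1 :=
      (v.adicAbv_coe_lt_one_iff (K := K)
        (NumberField.HeightOneSpectrum.one_lt_absNorm_nnreal v) _).2 h1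
    have h3 : P n i - algebraMap (𝓞 K) K (a i) =
        (P n i - algebraMap (𝓞 K) K (r n i)) + algebraMap (𝓞 K) K (r n i - a i) := by
      rw [map_sub]; ring
    rw [h3]
    exact lt_of_le_of_lt (NumberField.HeightOneSpectrum.adicAbv_add_le_max K v _ _)
      (max_lt (hr n i hn.1) h2)

end Pool.Agent.Work.MP_91e6de_nt.DMR

end

section

set_option autoImplicit false

/-!
# Core: the main theorem of the determinant method

By induction on the dimension `d` of the level: a level of dimension `d = r - 1 - t` with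
constants `X ^ (a t)` gives a cyclic chain, or a level of smaller dimension with larger constants.
-/

namespace Pool.Agent.Work.MP_91e6de_nt.DMR

open MvPolynomial NumberField IsDedekindDomain Height
open Pool.Agent.Work.MP_91e6de_nt.DM (va nv)

theorem Core_ind (h2 : S_Chain) (h5 : S_Lev0) {kap r e : ℕ} (a : ℕ → ℕ)
    (K σ : Type) [Field K] [NumberField K] [Fintype σ]
    (p : σ → MvPolynomial σ (𝓞 K)) (q : MvPolynomial σ (𝓞 K)) (h M N X W : ℕ)
    (P : ℕ → σ → K) (hkap : Module.finrank ℚ K = kap) (hr : Fintype.card σ = r)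
    (hs : Setup p q e h M P) (hNM : 3 * N ≤ M) (hX : 2 ≤ X) (hmono : Monotone a)
    (hexp : ∀ t d, d ≤ r → BS kap r e d (X ^ a t) h ≤ X ^ a (t + 1) ∧
      LS kap r e d (X ^ a t) (X ^ a t) h ≤ X ^ a (t + 1))
    (hW : W = 12 * X ^ a r) (hrW : r * W ≤ N) (h4N : 4 * X ^ a r ≤ N) (hr1 : 1 ≤ r) :
    ∀ d t : ℕ, t + d = r - 1 →
      (∃ (I : Ideal (MvPolynomial σ K)) (S : Finset ℕ),
        Lv P I S d (X ^ a t) (X ^ a t) N (N + t * W)) →
      Cyc (fun i => map (algebraMap (𝓞 K) K) (p i)) (map (algebraMap (𝓞 K) K) q) M P := by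
  intro d
  induction d using Nat.strong_induction_on with
  | _ d ih =>
    rintro t htd ⟨I, S, hL⟩
    have htr : t ≤ r := by omega
    have hXp : ∀ m, 0 < X ^ m := fun m => Nat.pow_pos (by omega)
    have hat : X ^ a t ≤ X ^ a r := Nat.pow_le_pow_right (by omega) (hmono htr)
    have hrW' : ∀ s, s ≤ r → s * W ≤ N := fun s hs' => (Nat.mul_le_mul_right W hs').trans hrW
    have h4t : 4 * X ^ a t ≤ N := (Nat.mul_le_mul_left 4 hat).trans h4N
    rcases Nat.eq_zero_or_pos d with hd | hd
    · exfalso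
      subst hd
      have hcard : S.card ≤ 1 := by
        rw [Finset.card_le_one]
        intro n hn n' hn'
        have e1 : P n = P n' := h5 σ K I (P n) (P n') hL.prime hL.dim (hL.on n hn) (hL.on n' hn')
        have b1 := hL.bd n hn
        have b2 := hL.bd n' hn'
        have b3 := hrW' t htr
        exact hs.inj (Set.mem_Iic.mpr (by omega)) (Set.mem_Iic.mpr (by omega)) e1
      have h1 := hL.big
      have h2' : S.card * X ^ a t ≤ 1 * X ^ a t := Nat.mul_le_mul_right _ hcard
      have h3 := hXp (a t)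
      omega
    · by_contra hc
      refine hc ?_
      have hb := hL.big
      have hcard : 4 ≤ S.card := by
        have h3 : 4 * X ^ a t ≤ S.card * X ^ a t := h4t.trans hb
        exact Nat.le_of_mul_le_mul_right h3 (hXp (a t))
      have hW12 : 12 * X ^ a t ≤ W := by
        rw [hW]
        exact Nat.mul_le_mul_left 12 hat
      have e1 : (t + 1) * W = t * W + W := by ring
      have b3 := hrW' t htr
      have b4 := hrW' (t + 1) (by omega)
      refine h2 K σ p q e h M P I S d (X ^ a t) (X ^ a t) N (N + t * W) (N + (t + 1) * W) hs hd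
        (by omega) (hXp _) (hXp _) hL hcard (by omega) (by omega) (by omega) ?_
      intro d' hd' I' S' hL'
      rw [hkap, hr] at hL'
      apply hc
      obtain ⟨t', ht'⟩ : ∃ t', t' + d' = r - 1 := ⟨r - 1 - d', by omega⟩
      have htt : t + 1 ≤ t' := by omega
      have hle := hexp t d (by omega)
      have hpow : X ^ a (t + 1) ≤ X ^ a t' := Nat.pow_le_pow_right (by omega) (hmono htt)
      refine ih d' hd' t' ht' ⟨I', S', hL'.mono (hle.1.trans hpow) (hle.2.trans hpow) ?_⟩
      exact Nat.add_le_add_left (Nat.mul_le_mul_right W htt) N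

theorem pr_Core (h1 : S_Start) (h2 : S_Chain) (h3 : S_Exp) (h4 : S_Exp0) (h5 : S_Lev0) :
    S_Core := by
  intro kap r e hk1 hr1 he1
  obtain ⟨a0, ha0⟩ := h4 kap r e hk1 hr1 he1
  have h3' : ∀ a, ∃ a', a ≤ a' ∧ ∀ X h d : ℕ, 2 ≤ X → h ≤ X → d ≤ r →
      BS kap r e d (X ^ a) h ≤ X ^ a' ∧ LS kap r e d (X ^ a) (X ^ a) h ≤ X ^ a' :=
    fun a => h3 kap r e a hk1 hr1 he1
  choose f hf1 hf2 using h3'
  obtain ⟨a, hadef⟩ : ∃ a : ℕ → ℕ, a = fun t => f^[t] a0 := ⟨_, rfl⟩
  have ha_succ : ∀ t, a (t + 1) = f (a t) := fun t => by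
    rw [hadef]
    exact Function.iterate_succ_apply' f t a0
  have ha_zero : a 0 = a0 := by rw [hadef]; rfl
  have hmono : Monotone a := monotone_nat_of_le_succ fun t => by
    rw [ha_succ]
    exact hf1 _
  refine ⟨a r + 12 * r + 16, ?_⟩
  intro K σ _ _ _ p q h M N k X P i j hkap hr hs hNM hX hhX hkX hekX hXN hRD
  have hXA : ∀ m, m ≤ a r + 12 * r + 16 → X ^ m ≤ N := fun m hm =>
    (Nat.pow_le_pow_right (by omega) hm).trans hXN
  have hkN : k ≤ N := by
    have := hXA 1 (by omega)
    rw [pow_one] at this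
    omega
  have hrW : r * (12 * X ^ a r) ≤ N := by
    have e1 : 12 * r ≤ X ^ (12 * r) :=
      (Nat.lt_two_pow_self).le.trans (Nat.pow_le_pow_left hX _)
    calc r * (12 * X ^ a r) = (12 * r) * X ^ a r := by ring
      _ ≤ X ^ (12 * r) * X ^ a r := Nat.mul_le_mul_right _ e1
      _ = X ^ (12 * r + a r) := (pow_add _ _ _).symm
      _ ≤ N := hXA _ (by omega)
  have h4N : 4 * X ^ a r ≤ N := by
    have e1 : 4 ≤ X ^ 2 := by nlinarith
    calc 4 * X ^ a r ≤ X ^ 2 * X ^ a r := Nat.mul_le_mul_right _ e1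
      _ = X ^ (2 + a r) := (pow_add _ _ _).symm
      _ ≤ N := hXA _ (by omega)
  obtain ⟨I, S, hL⟩ := h1 K σ p q e h M N k P i j hs (by omega) (by rw [hkap, hr]; exact hRD)
  rw [hkap, hr] at hL
  obtain ⟨c1, c2⟩ := ha0 X h k hX hhX hkX hekX
  refine Core_ind h2 h5 a K σ p q h M N X (12 * X ^ a r) P hkap hr hs hNM hX hmono ?_ rfl hrW
    h4N hr1 (r - 1) 0 (by omega) ⟨I, S, hL.mono ?_ ?_ ?_⟩
  · intro t d hd
    rw [ha_succ]
    exact hf2 (a t) X h d hX hhX hd
  · rw [ha_zero]
    exact c1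
  · rw [ha_zero]
    exact c2
  · omega

end Pool.Agent.Work.MP_91e6de_nt.DMR

end

section

set_option autoImplicit false

/-!
# Item Cut: the Hilbert function of a hypersurface section
-/

namespace Pool.Agent.Work.MP_91e6de_nt.DMR

open MvPolynomial

theorem Cut_one {σ K : Type} [Fintype σ] [Field K] (I : Ideal (MvPolynomial σ K))
    (G : MvPolynomial σ K) (T : ℕ) (hI : I.IsPrime) (hG : G ∉ I) (hGT : G.totalDegree ≤ T)
    (D : ℕ) : HF (I ⊔ Ideal.span {G}) (D + T) + HF I D ≤ HF I (D + T) := by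
  classical
  obtain ⟨f, hf1, hf2, -⟩ := exists_basis I D
  obtain ⟨g, hg1, hg2, -⟩ := exists_basis (I ⊔ Ideal.span {G}) (D + T)
  have h := card_le_HF I (D + T)
    (Sum.elim g (fun i => G * f i) : Fin (HF (I ⊔ Ideal.span {G}) (D + T)) ⊕ Fin (HF I D) →
      MvPolynomial σ K) (by
      rintro (i | i)
      · exact hg1 i
      · refine (totalDegree_mul _ _).trans ?_
        have := hf1 i
        omega) (by
      intro c hc
      rw [Fintype.sum_sum_type] at hc
      simp only [Sum.elim_inl, Sum.elim_inr] at hc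
      have h1 : ∑ i, c (Sum.inr i) • (G * f i) = G * ∑ i, c (Sum.inr i) • f i := by
        rw [Finset.mul_sum]
        apply Finset.sum_congr rfl
        intro i _
        rw [mul_smul_comm]
      rw [h1] at hc
      have h2 : (fun i => c (Sum.inl i)) = 0 := by
        apply hg2
        have h3 : G * ∑ i, c (Sum.inr i) • f i ∈ I ⊔ Ideal.span {G} :=
          Ideal.mul_mem_right _ _ (Ideal.mem_sup_right (Ideal.mem_span_singleton_self G))
        have h4 := Ideal.sub_mem _ (Ideal.mem_sup_left hc) h3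
        rwa [add_sub_cancel_right] at h4
      have h3 : ∀ i, c (Sum.inl i) = 0 := fun i => congrFun h2 i
      simp only [h3, zero_smul, Finset.sum_const_zero, zero_add] at hc
      have h4 : (fun i => c (Sum.inr i)) = 0 := by
        apply hf2
        exact (hI.mem_or_mem hc).resolve_left hG
      funext x
      rcases x with i | i
      · exact h3 i
      · exact congrFun h4 i)
  simpa using h

theorem pr_Cut : S_Cut := by
  intro σ K _ _ I G B d T hI hG hGT hB D hD
  have h1 : ∀ m : ℕ, m * HF (I ⊔ Ideal.span {G}) D + HF I D ≤ HF I (D + m * T) := by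
    intro m
    induction m with
    | zero => simp
    | succ m ih =>
      have h2 := Cut_one I G T hI hG hGT (D + m * T)
      have h3 : HF (I ⊔ Ideal.span {G}) D ≤ HF (I ⊔ Ideal.span {G}) (D + m * T + T) :=
        HF_mono _ (by omega)
      have h4 : D + (m + 1) * T = D + m * T + T := by ring
      rw [h4, Nat.add_mul, one_mul]
      omega
  have h2 := h1 D
  have h3 := hB (D + D * T) (by omega)
  have h4 : B * (D + D * T) ^ (d + 1) = D * ((T + 1) ^ (d + 1) * B * D ^ d) := by
    have : D + D * T = D * (T + 1) := by ring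
    rw [this, mul_pow, pow_succ D d]
    ring
  have h5 : D * HF (I ⊔ Ideal.span {G}) D ≤ D * ((T + 1) ^ (d + 1) * B * D ^ d) := by
    rw [← h4]
    omega
  exact Nat.le_of_mul_le_mul_left h5 (by omega)

end Pool.Agent.Work.MP_91e6de_nt.DMR

end

section

set_option autoImplicit false

/-!
# DegG: degrees of the iterates
-/

namespace Pool.Agent.Work.MP_91e6de_nt.DMR

open MvPolynomial

theorem DegG_X {σ A : Type} [CommRing A] (i : σ) :
    (X i : MvPolynomial σ A).totalDegree ≤ 1 := by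
  cases subsingleton_or_nontrivial A with
  | inl h =>
    have : (X i : MvPolynomial σ A) = 0 := Subsingleton.elim _ _
    rw [this, totalDegree_zero]
    exact Nat.zero_le _
  | inr h => exact (totalDegree_X i).le

theorem pr_DegG (h1 : S_HsDeg) : S_DegG := by
  intro σ A _ _ e p q he hp hq k
  induction k with
  | zero =>
    refine ⟨fun i => ?_, ?_⟩
    · rw [pow_zero]
      exact DegG_X i
    · change (1 : MvPolynomial σ A).totalDegree ≤ e ^ 0
      rw [totalDegree_one]
      exact Nat.zero_le _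
  | succ k ih =>
    have h2 : e * e ^ k = e ^ (k + 1) := (pow_succ' e k).symm
    refine ⟨fun i => ?_, ?_⟩
    · rw [← h2]
      exact h1 σ A e (e ^ k) (p i) _ _ (hp i) ih.1 ih.2
    · rw [← h2]
      exact h1 σ A e (e ^ k) q _ _ hq ih.1 ih.2

end Pool.Agent.Work.MP_91e6de_nt.DMR

end

section

set_option autoImplicit false

/-!
# Item Det: divisibility of the determinants (helper17)
-/

namespace Pool.Agent.Work.MP_91e6de_nt.DMR

open MvPolynomial NumberField IsDedekindDomain Height
open Pool.Agent.Work.MP_91e6de_nt.DM (va nv Pig_lt Pig_int Pig_sum_le)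

/-- the shift `X i ↦ X i + a i` -/
noncomputable def Det_sh {σ R : Type} [CommRing R] (a : σ → R) :
    MvPolynomial σ R →ₐ[R] MvPolynomial σ R :=
  aeval fun i => X i + C (a i)

lemma Det_sh_eval {σ R K : Type} [CommRing R] [CommRing K] [Algebra R K] (a : σ → R)
    (P : σ → K) (F : MvPolynomial σ R) :
    aeval P F = aeval (fun i => P i - algebraMap R K (a i)) (Det_sh a F) := by
  have h : (aeval P : MvPolynomial σ R →ₐ[R] K) =
      (aeval fun i => P i - algebraMap R K (a i)).comp (Det_sh a) := by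
    apply MvPolynomial.algHom_ext
    intro i
    simp [Det_sh]
  rw [h]
  rfl

/-- the bound from the Leibniz formula -/
lemma Det_leib {K σ : Type} [Field K] [NumberField K] [Fintype σ] (v : HeightOneSpectrum (𝓞 K))
    (ρ : ℕ) (m : Fin ρ → σ →₀ ℕ) (y : Fin ρ → σ → K)
    (hy : ∀ b i, va v (y b i) ≤ (nv v : ℝ)⁻¹) :
    va v (Matrix.det (Matrix.of fun x b : Fin ρ => ∏ i, y b i ^ m x i)) ≤
      ((nv v : ℝ)⁻¹) ^ ∑ x, ∑ i, m x i := by
  have hq : 1 ≤ (nv v : ℝ) := by
    exact_mod_cast (HeightOneSpectrum.one_lt_absNorm v).le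
  have hq0 : 0 ≤ (nv v : ℝ)⁻¹ := inv_nonneg.2 (zero_le_one.trans hq)
  rw [Matrix.det_apply]
  refine Pig_sum_le v _ _ (pow_nonneg hq0 _) _ fun π _ => ?_
  have h1 : va v (Equiv.Perm.sign π • ∏ b, (Matrix.of fun x b : Fin ρ =>
      ∏ i, y b i ^ m x i) (π b) b) = va v (∏ b, ∏ i, y b i ^ m (π b) i) := by
    rcases Int.units_eq_one_or (Equiv.Perm.sign π) with h | h
    · rw [h]; simp
    · rw [h]; simp
  rw [h1, map_prod]
  have h2 : ∑ x, ∑ i, m x i = ∑ b, ∑ i, m (π b) i :=
    (Equiv.sum_comp π fun x => ∑ i, m x i).symm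
  rw [h2, ← Finset.prod_pow_eq_pow_sum]
  refine Finset.prod_le_prod (fun b _ => (va v).nonneg _) fun b _ => ?_
  rw [map_prod, ← Finset.prod_pow_eq_pow_sum]
  refine Finset.prod_le_prod (fun i _ => (va v).nonneg _) fun i _ => ?_
  rw [map_pow]
  exact pow_le_pow_left₀ ((va v).nonneg _) (hy b i) _

/-- few rows of small degree -/
lemma Det_rows {K σ : Type} [Field K] [Fintype σ] (I : Ideal (MvPolynomial σ K)) (a : σ → K)
    (ρ k : ℕ) (m : Fin ρ → σ →₀ ℕ) (Q : Fin ρ → σ → K) (hQ : ∀ b, On I (Q b))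
    (hdet : Matrix.det (Matrix.of fun x b : Fin ρ => ∏ i, (Q b i - a i) ^ m x i) ≠ 0) :
    (Finset.univ.filter fun x : Fin ρ => ∑ i, m x i ≤ k).card ≤ HF I k := by
  classical
  rw [← Fintype.card_subtype]
  refine card_le_HF I k (fun x : {x : Fin ρ // ∑ i, m x i ≤ k} =>
    ∏ i, (X i - C (a i)) ^ m x.1 i) ?_ ?_
  · intro x
    refine (totalDegree_finset_prod _ _).trans (le_trans ?_ x.2)
    refine Finset.sum_le_sum fun i _ => ?_
    refine (totalDegree_pow _ _).trans ?_
    have h1 : (X i - C (a i) : MvPolynomial σ K).totalDegree ≤ 1 := by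
      refine (totalDegree_sub _ _).trans ?_
      rw [totalDegree_X, totalDegree_C]
      simp
    calc m x.1 i * (X i - C (a i) : MvPolynomial σ K).totalDegree ≤ m x.1 i * 1 :=
          Nat.mul_le_mul_left _ h1
      _ = m x.1 i := mul_one _
  · intro c hc
    have hli := Matrix.linearIndependent_rows_of_det_ne_zero hdet
    have hli' := hli.comp (Subtype.val : {x : Fin ρ // ∑ i, m x i ≤ k} → Fin ρ)
      Subtype.val_injective
    have h2 := Fintype.linearIndependent_iff.mp hli' c (by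
      funext b
      have h3 := hQ b _ hc
      rw [map_sum] at h3
      simp only [map_smul, map_prod, map_pow, map_sub, aeval_X, aeval_C, smul_eq_mul] at h3
      simp only [Finset.sum_apply, Pi.smul_apply, Function.comp_apply, Matrix.row_apply,
        Matrix.of_apply, smul_eq_mul, Pi.zero_apply]
      exact h3)
    funext x
    exact h2 x

/-- counting -/
lemma Det_count (ρ K0 : ℕ) (s : Fin ρ → ℕ) (H : ℕ → ℕ)
    (h : ∀ k, (Finset.univ.filter fun x : Fin ρ => s x ≤ k).card ≤ H k) :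
    ∑ k ∈ Finset.range K0, (ρ - H k) ≤ ∑ x, s x := by
  classical
  have h1 : ∀ k, ρ - H k ≤ (Finset.univ.filter fun x : Fin ρ => k < s x).card := by
    intro k
    have h2 := Finset.card_filter_add_card_filter_not (s := (Finset.univ : Finset (Fin ρ)))
      (fun x => s x ≤ k)
    simp only [not_le, Finset.card_univ, Fintype.card_fin] at h2
    have h3 := h k
    omega
  calc ∑ k ∈ Finset.range K0, (ρ - H k)
      ≤ ∑ k ∈ Finset.range K0, (Finset.univ.filter fun x : Fin ρ => k < s x).card :=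
        Finset.sum_le_sum fun k _ => h1 k
    _ = ∑ k ∈ Finset.range K0, ∑ x, (if k < s x then 1 else 0) := by
        simp only [Finset.card_filter]
    _ = ∑ x, ∑ k ∈ Finset.range K0, (if k < s x then 1 else 0) := Finset.sum_comm
    _ ≤ ∑ x, s x := by
        refine Finset.sum_le_sum fun x _ => ?_
        rw [← Finset.card_filter]
        have : ((Finset.range K0).filter fun k => k < s x) ⊆ Finset.range (s x) := by
          intro k hk
          rw [Finset.mem_filter] at hk
          exact Finset.mem_range.2 hk.2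
        simpa using Finset.card_le_card this

theorem pr_Det : S_Det := by
  classical
  intro K σ _ _ _ v I a ρ K0 φ Q hQ hQa
  have hq : 1 ≤ (nv v : ℝ) := by
    exact_mod_cast (HeightOneSpectrum.one_lt_absNorm v).le
  have hq0 : 0 ≤ (nv v : ℝ)⁻¹ := inv_nonneg.2 (zero_le_one.trans hq)
  have hq1 : (nv v : ℝ)⁻¹ ≤ 1 := inv_le_one_of_one_le₀ hq
  have hB : 0 ≤ ((nv v : ℝ)⁻¹) ^ ∑ k ∈ Finset.range K0, (ρ - HF I k) := pow_nonneg hq0 _
  -- the monomial determinants
  have key : ∀ m : Fin ρ → σ →₀ ℕ,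
      va v (Matrix.det (Matrix.of fun x b : Fin ρ =>
        ∏ i, (Q b i - algebraMap (𝓞 K) K (a i)) ^ m x i)) ≤
        ((nv v : ℝ)⁻¹) ^ ∑ k ∈ Finset.range K0, (ρ - HF I k) := by
    intro m
    by_cases h0 : Matrix.det (Matrix.of fun x b : Fin ρ =>
        ∏ i, (Q b i - algebraMap (𝓞 K) K (a i)) ^ m x i) = 0
    · rw [h0, map_zero]
      exact hB
    · refine (Det_leib v ρ m _ fun b i => Pig_lt v _ (hQa b i)).trans ?_
      refine pow_le_pow_of_le_one hq0 hq1 ?_
      exact Det_count ρ K0 (fun x => ∑ i, m x i) (HF I) fun k =>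
        Det_rows I (fun i => algebraMap (𝓞 K) K (a i)) ρ k m Q hQ h0
  -- the expansion of the rows
  have hrow : (Matrix.of fun x b : Fin ρ => aeval (Q b) (φ x)) =
      fun x => ∑ m ∈ (Det_sh a (φ x)).support, fun b : Fin ρ =>
        algebraMap (𝓞 K) K ((Det_sh a (φ x)).coeff m) *
          ∏ i, (Q b i - algebraMap (𝓞 K) K (a i)) ^ m i := by
    funext x b
    rw [Matrix.of_apply, Det_sh_eval a (Q b) (φ x), aeval_def, eval₂_eq']
    rw [Finset.sum_apply]
  have hexp := (Matrix.detRowAlternating (n := Fin ρ) (R := K)).toMultilinearMap.map_sum_finset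
    (fun (x : Fin ρ) (m : σ →₀ ℕ) => fun b : Fin ρ =>
        algebraMap (𝓞 K) K ((Det_sh a (φ x)).coeff m) *
          ∏ i, (Q b i - algebraMap (𝓞 K) K (a i)) ^ m i)
    (fun x => (Det_sh a (φ x)).support)
  have hdet : Matrix.det (Matrix.of fun x b : Fin ρ => aeval (Q b) (φ x)) =
      ∑ r ∈ Fintype.piFinset fun x => (Det_sh a (φ x)).support,
        Matrix.det (Matrix.of fun x b : Fin ρ =>
          algebraMap (𝓞 K) K ((Det_sh a (φ x)).coeff (r x)) *
          ∏ i, (Q b i - algebraMap (𝓞 K) K (a i)) ^ r x i) := by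
    rw [hrow]
    exact hexp
  rw [hdet]
  refine Pig_sum_le v _ _ hB _ fun r _ => ?_
  have h3 := Matrix.det_mul_column
    (fun x => algebraMap (𝓞 K) K ((Det_sh a (φ x)).coeff (r x)))
    (Matrix.of fun x b : Fin ρ => ∏ i, (Q b i - algebraMap (𝓞 K) K (a i)) ^ r x i)
  simp only [Matrix.of_apply] at h3
  rw [h3, map_mul, map_prod]
  have h4 : ∏ x, va v (algebraMap (𝓞 K) K ((Det_sh a (φ x)).coeff (r x))) ≤ 1 :=
    Finset.prod_le_one (fun x _ => (va v).nonneg _) fun x _ => Pig_int v _
  calc _ ≤ 1 * ((nv v : ℝ)⁻¹) ^ ∑ k ∈ Finset.range K0, (ρ - HF I k) :=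
        mul_le_mul h4 (key r) ((va v).nonneg _) zero_le_one
    _ = _ := one_mul _

end Pool.Agent.Work.MP_91e6de_nt.DMR

end

section

set_option autoImplicit false

/-!
# Item DimLt: larger primes have smaller dimension
-/

namespace Pool.Agent.Work.MP_91e6de_nt.DMR

open MvPolynomial

/-- elements of the subalgebra generated by the coordinates in `J` -/
theorem DimLt_lift {σ K : Type} [Field K] (I : Ideal (MvPolynomial σ K)) (J : Finset σ)
    (r : MvPolynomial σ K ⧸ I)
    (hr : r ∈ Algebra.adjoin K (Set.range fun i : J => Ideal.Quotient.mk I (X (i : σ)))) :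
    ∃ F : MvPolynomial σ K, Ideal.Quotient.mk I F = r ∧ F.vars ⊆ J := by
  classical
  rw [Algebra.adjoin_range_eq_range_aeval] at hr
  obtain ⟨p, hp⟩ := hr
  refine ⟨rename (fun i : J => (i : σ)) p, ?_, ?_⟩
  · rw [← hp]
    have h : ((Ideal.Quotient.mkₐ K I).comp (rename (fun i : J => (i : σ)))) =
        aeval (fun i : J => Ideal.Quotient.mk I (X (i : σ) : MvPolynomial σ K)) := by
      refine algHom_ext fun i => ?_
      simp
    exact DFunLike.congr_fun h p
  · refine (vars_rename _ p).trans ?_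
    intro x hx
    obtain ⟨y, _, rfl⟩ := Finset.mem_image.1 hx
    exact y.2

theorem pr_DimLt (h1 : S_DimTr) : S_DimLt := by
  intro σ K _ _ I I' d d' hI hI' hlt hd hd'
  by_contra hcon
  push Not at hcon
  obtain ⟨J, hJ, hi'⟩ := hd'.1
  have hi : Ind I J := Ind_anti hi' hlt.le
  have hJd : J.card = d := le_antisymm (hd.2 J hi) (by rw [hJ]; exact hcon)
  obtain ⟨h2, h3⟩ := h1 σ K I hI
  have hai := (h2 J).1 hi
  have htr := (h3 d).1 hd
  have hdom : IsDomain (MvPolynomial σ K ⧸ I) := (Ideal.Quotient.isDomain_iff_prime I).2 hI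
  have hb : IsTranscendenceBasis K (fun i : J => Ideal.Quotient.mk I (X (i : σ))) :=
    hai.isTranscendenceBasis_of_trdeg_le_of_finite (by rw [htr]; simp [hJd])
  have halg := hb.isAlgebraic
  obtain ⟨G, hG', hG⟩ := SetLike.exists_of_lt hlt
  have hg : Ideal.Quotient.mk I G ≠ 0 := by rwa [Ne, Ideal.Quotient.eq_zero_iff_mem]
  obtain ⟨r, hr, hdvd⟩ := (halg.isAlgebraic (Ideal.Quotient.mk I G)).exists_nonzero_dvd
    (mem_nonZeroDivisors_of_ne_zero hg)
  obtain ⟨F, hF, hFv⟩ := DimLt_lift I J r r.2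
  obtain ⟨s, hs⟩ := hdvd
  obtain ⟨S, rfl⟩ := Ideal.Quotient.mk_surjective s
  have h5 : F - G * S ∈ I := by
    rw [← Ideal.Quotient.eq_zero_iff_mem, map_sub, map_mul, hF, ← hs]
    exact sub_self _
  have h6 : F ∈ I' := by
    have := I'.add_mem (hlt.le h5) (I'.mul_mem_right S hG')
    simpa using this
  have h7 := hi' F h6 hFv
  apply hr
  apply Subtype.ext
  rw [← hF, h7, map_zero]
  rfl

end Pool.Agent.Work.MP_91e6de_nt.DMR

end

section

set_option autoImplicit false

/-!
# Independence and transcendence degree (MP_91e6de, DMR, item DimTr)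
-/

namespace Pool.Agent.Work.MP_91e6de_nt.DMR

open MvPolynomial

theorem DimTr_aeval {σ K : Type} [Fintype σ] [Field K] (I : Ideal (MvPolynomial σ K))
    (J : Finset σ) (F : MvPolynomial J K) :
    aeval (fun i : J => Ideal.Quotient.mk I (X (i : σ))) F =
      Ideal.Quotient.mk I (rename ((↑) : J → σ) F) := by
  have h : (aeval (fun i : J => Ideal.Quotient.mk I (X (i : σ) : MvPolynomial σ K)) :
      MvPolynomial J K →ₐ[K] MvPolynomial σ K ⧸ I) =
      (Ideal.Quotient.mkₐ K I).comp (rename ((↑) : J → σ)) := by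
    apply MvPolynomial.algHom_ext
    intro i
    simp
  rw [h]
  rfl

theorem DimTr_ind {σ K : Type} [Fintype σ] [Field K] (I : Ideal (MvPolynomial σ K))
    (J : Finset σ) : Ind I J ↔
      AlgebraicIndependent K (fun i : J => Ideal.Quotient.mk I (X (i : σ))) := by
  rw [algebraicIndependent_iff]
  constructor
  · intro h F hF
    rw [DimTr_aeval, Ideal.Quotient.eq_zero_iff_mem] at hF
    have hv : (rename ((↑) : J → σ) F).vars ⊆ J := by
      classical
      intro x hx
      have h1 := MvPolynomial.vars_rename ((↑) : J → σ) F hx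
      obtain ⟨y, -, rfl⟩ := Finset.mem_image.mp h1
      exact y.2
    have h0 := h _ hF hv
    exact (rename_injective _ Subtype.val_injective) (by rw [h0, map_zero])
  · intro h F hF hv
    obtain ⟨q, rfl⟩ := exists_rename_eq_of_vars_subset_range F ((↑) : J → σ)
      Subtype.val_injective (by
        intro x hx
        exact ⟨⟨x, hv hx⟩, rfl⟩)
    have h1 := h q (by rw [DimTr_aeval, Ideal.Quotient.eq_zero_iff_mem]; exact hF)
    rw [h1, map_zero]

theorem DimTr_trdeg {σ K : Type} [Fintype σ] [Field K] (I : Ideal (MvPolynomial σ K))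
    (hI : I.IsPrime) (d : ℕ) (hd : Dim I d) :
    Algebra.trdeg K (MvPolynomial σ K ⧸ I) = d := by
  classical
  obtain ⟨⟨J, hJ, hi⟩, hm⟩ := hd
  have : IsDomain (MvPolynomial σ K ⧸ I) := Ideal.Quotient.isDomain I
  let f : σ → MvPolynomial σ K ⧸ I := fun i => Ideal.Quotient.mk I (X i)
  have hx : AlgebraicIndependent K (fun i : J => f i) := (DimTr_ind I J).mp hi
  have hinj : Function.Injective (fun i : J => f i) := hx.injective
  -- the set `s`
  have hs : AlgebraicIndepOn K id (Set.range (fun i : J => f i)) := by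
    have := hx.to_subtype_range
    exact this
  have htop : Algebra.adjoin K (Set.range f) = ⊤ := by
    have h1 : Set.range f = (Ideal.Quotient.mkₐ K I) '' Set.range (X : σ → MvPolynomial σ K) := by
      rw [← Set.range_comp]
      rfl
    rw [h1, ← AlgHom.map_adjoin, MvPolynomial.adjoin_range_X, Algebra.map_top,
      AlgHom.range_eq_top]
    exact Ideal.Quotient.mkₐ_surjective K I
  have halg : Algebra.IsAlgebraic (Algebra.adjoin K (Set.range f)) (MvPolynomial σ K ⧸ I) := by
    constructor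
    intro a
    have ha : a ∈ Algebra.adjoin K (Set.range f) := by rw [htop]; trivial
    exact isAlgebraic_algebraMap (⟨a, ha⟩ : Algebra.adjoin K (Set.range f))
  obtain ⟨u, hsu, hut, hu⟩ := exists_isTranscendenceBasis_between
    (R := K) (Set.range (fun i : J => f i)) (Set.range f)
    (by rintro _ ⟨i, rfl⟩; exact ⟨i, rfl⟩) hs
  have hufin : u.Finite := (Set.finite_range f).subset hut
  -- lower bound
  have hlow : d ≤ u.ncard := by
    rw [← hJ, ← Fintype.card_coe, ← Nat.card_eq_fintype_card,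
      ← Set.ncard_range_of_injective hinj]
    exact Set.ncard_le_ncard hsu hufin
  -- upper bound
  have hup : u.ncard ≤ d := by
    choose g hg using hut
    have : Fintype u := hufin.fintype
    let J' : Finset σ := Finset.univ.image (fun y : u => g y.2)
    have hginj : Function.Injective (fun y : u => g y.2) := by
      intro y z hyz
      apply Subtype.ext
      rw [← hg y.2, ← hg z.2]
      exact congrArg f hyz
    have hc : J'.card = u.ncard := by
      rw [Finset.card_image_of_injective _ hginj, Finset.card_univ, ← Nat.card_eq_fintype_card]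
      rfl
    rw [← hc]
    apply hm
    rw [DimTr_ind]
    have hmem : ∀ i : J', f i ∈ u := by
      rintro ⟨i, hi'⟩
      obtain ⟨y, -, rfl⟩ := Finset.mem_image.mp hi'
      show f (g y.2) ∈ u
      rw [hg]
      exact y.2
    have hcomp := hu.1.comp (fun i : J' => (⟨f i, hmem i⟩ : u)) (by
      rintro ⟨i, hi1⟩ ⟨j, hj1⟩ hij
      obtain ⟨y, -, rfl⟩ := Finset.mem_image.mp hi1
      obtain ⟨z, -, rfl⟩ := Finset.mem_image.mp hj1
      have h2 : f (g y.2) = f (g z.2) := congrArg Subtype.val hij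
      rw [hg, hg] at h2
      have h3 : y = z := Subtype.ext h2
      subst h3
      rfl)
    exact hcomp
  have h3 : u.ncard = d := le_antisymm hup hlow
  rw [← hu.cardinalMk_eq_trdeg, ← h3]
  have : Fintype u := hufin.fintype
  rw [Cardinal.mk_fintype, ← Nat.card_eq_fintype_card]
  rfl

theorem pr_DimTr : S_DimTr := by
  intro σ K _ _ I hI
  refine ⟨fun J => DimTr_ind I J, fun d => ⟨DimTr_trdeg I hI d, fun h => ?_⟩⟩
  obtain ⟨d', hd'⟩ := exists_Dim I hI.ne_top
  have h1 := DimTr_trdeg I hI d' hd'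
  rw [h1] at h
  have h2 : d' = d := by exact_mod_cast h
  exact h2 ▸ hd'

end Pool.Agent.Work.MP_91e6de_nt.DMR

end
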