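import Mathlib
import Pool.Agent.Work.MP_91e6de_nt.DMR.Stmts

/-! Bundle of small proof modules (one section per former module). -/

section

set_option autoImplicit false

namespace Pool.Agent.Work.MP_91e6de_nt.DMR

open MvPolynomial

theorem pr_Down (h1 : S_Cut) (h2 : S_Krull) (h3 : S_Num) : S_Down := by
  classical
  intro σ K _ _ P I G S d B L N R T hL hS hT hG hGI
  have hprime := hL.prime
  have hQ : ∀ n ∈ S, ∃ Q : Ideal (MvPolynomial σ K),
      Q ∈ (I ⊔ Ideal.span {G}).minimalPrimes ∧ On Q (P n) := by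
    intro n hn
    have hm : (RingHom.ker (aeval (P n) : MvPolynomial σ K →ₐ[K] K)).IsPrime :=
      RingHom.ker_isPrime _
    have hle : I ⊔ Ideal.span {G} ≤
        RingHom.ker (aeval (P n) : MvPolynomial σ K →ₐ[K] K) := by
      refine sup_le (fun F hF => ?_) ?_
      · exact (RingHom.mem_ker).2 (hL.on n hn F hF)
      · rw [Ideal.span_le]
        rintro F hF
        rw [Set.mem_singleton_iff] at hF
        subst hF
        exact (RingHom.mem_ker).2 (hG n hn)
    obtain ⟨Q, hQ, hQm⟩ := Ideal.exists_minimalPrimes_le hle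
    exact ⟨Q, hQ, fun F hF => (RingHom.mem_ker).1 (hQm hF)⟩
  choose! Q hQ1 hQ2 using hQ
  have hb1 : HB (I ⊔ Ideal.span {G}) ((T + 1) ^ (d + 1) * B) d :=
    h1 σ K I G B d T hprime hGI hT hL.hb
  have hdim : ∀ n ∈ S, Dim (Q n) d := fun n hn =>
    h2 σ K I (Q n) G d hprime hL.dim hGI (hQ1 n hn)
  have hcard : (S.image Q).card ≤ d.factorial * ((T + 1) ^ (d + 1) * B) := by
    apply h3 σ K (I ⊔ Ideal.span {G}) ((T + 1) ^ (d + 1) * B) d (S.image Q) hb1
    intro Q' hQ'
    obtain ⟨n, hn, rfl⟩ := Finset.mem_image.1 hQ'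
    exact ⟨(hQ1 n hn).1.1, (hQ1 n hn).1.2, hdim n hn⟩
  obtain ⟨Q0, hQ0, hmax⟩ := Finset.exists_max_image (S.image Q)
    (fun Q' => (S.filter (fun n => Q n = Q')).card) (hS.image Q)
  obtain ⟨n0, hn0, hn0Q⟩ := Finset.mem_image.1 hQ0
  refine ⟨Q0, S.filter (fun n => Q n = Q0), ?_⟩
  have hfib : S.card ≤ (S.filter (fun n => Q n = Q0)).card * (S.image Q).card :=
    Finset.card_le_mul_card_image S _ hmax
  constructor
  · rw [← hn0Q]
    exact (hQ1 n0 hn0).1.1
  · rw [← hn0Q]
    exact hdim n0 hn0
  · intro D hD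
    refine le_trans (HF_anti ?_ D) (hb1 D hD)
    rw [← hn0Q]
    exact (hQ1 n0 hn0).1.2
  · calc N ≤ S.card * L := hL.big
      _ ≤ (S.filter (fun n => Q n = Q0)).card * (S.image Q).card * L :=
          Nat.mul_le_mul_right _ hfib
      _ ≤ (S.filter (fun n => Q n = Q0)).card *
          (d.factorial * ((T + 1) ^ (d + 1) * B)) * L := by gcongr
      _ = _ := by ring
  · intro n hn
    exact hL.bd n (Finset.mem_filter.1 hn).1
  · intro n hn
    obtain ⟨hn1, hn2⟩ := Finset.mem_filter.1 hn
    rw [← hn2]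
    exact hQ2 n hn1

end Pool.Agent.Work.MP_91e6de_nt.DMR

end

section

set_option autoImplicit false

/-!
# Item E1: dependent coordinates have a relation of small degree
-/

namespace Pool.Agent.Work.MP_91e6de_nt.DMR

open MvPolynomial

section

variable {σ : Type} [Fintype σ] [DecidableEq σ]

/-- the exponent with the entries `α` at `J` -/
noncomputable def E1_e (J : Finset σ) (D : ℕ) (α : J → Fin (D + 1)) : σ →₀ ℕ :=
  Finsupp.equivFunOnFinite.symm (fun i => if h : i ∈ J then ((α ⟨i, h⟩ : Fin (D + 1)) : ℕ) else 0)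

theorem E1_e_apply (J : Finset σ) (D : ℕ) (α : J → Fin (D + 1)) (i : σ) :
    E1_e J D α i = if h : i ∈ J then ((α ⟨i, h⟩ : Fin (D + 1)) : ℕ) else 0 := rfl

theorem E1_inj (J : Finset σ) (D : ℕ) : Function.Injective (E1_e J D) := by
  intro α β h
  funext ⟨i, hi⟩
  have := DFunLike.congr_fun h i
  rw [E1_e_apply, E1_e_apply, dif_pos hi, dif_pos hi] at this
  exact Fin.ext this

theorem E1_sum (J : Finset σ) (D : ℕ) (α : J → Fin (D + 1)) :
    ((E1_e J D α).sum fun _ e => e) ≤ J.card * D := by
  rw [Finsupp.sum_fintype _ _ (by simp)]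
  calc ∑ i, E1_e J D α i ≤ ∑ i, (if i ∈ J then D else 0) := by
        apply Finset.sum_le_sum
        intro i _
        rw [E1_e_apply]
        by_cases h : i ∈ J
        · rw [dif_pos h, if_pos h]
          have := (α ⟨i, h⟩).2
          omega
        · rw [dif_neg h, if_neg h]
    _ = J.card * D := by
        rw [← Finset.sum_filter]
        simp

theorem E1_supp (J : Finset σ) (D : ℕ) (α : J → Fin (D + 1)) : (E1_e J D α).support ⊆ J := by
  intro i hi
  by_contra h
  rw [Finsupp.mem_support_iff, E1_e_apply, dif_neg h] at hi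
  exact hi rfl

/-- a combination of the monomials in the coordinates `J` -/
noncomputable def E1_Q {K : Type} [Field K] (J : Finset σ) (D : ℕ)
    (c : (J → Fin (D + 1)) → K) : MvPolynomial σ K := ∑ α, monomial (E1_e J D α) (c α)

theorem E1_Q_vars {K : Type} [Field K] (J : Finset σ) (D : ℕ) (c : (J → Fin (D + 1)) → K) :
    (E1_Q J D c).vars ⊆ J := by
  unfold E1_Q
  refine (vars_sum_subset _ _).trans ?_
  rw [Finset.biUnion_subset]
  intro α _
  by_cases h : c α = 0
  · rw [h]
    simp
  · rw [vars_monomial h]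
    exact E1_supp J D α

theorem E1_Q_deg {K : Type} [Field K] (J : Finset σ) (D : ℕ) (c : (J → Fin (D + 1)) → K) :
    (E1_Q J D c).totalDegree ≤ J.card * D := by
  unfold E1_Q
  apply totalDegree_finsetSum_le
  intro α _
  exact (totalDegree_monomial_le _ _).trans (E1_sum J D α)

theorem E1_Q_zero {K : Type} [Field K] (J : Finset σ) (D : ℕ) (c : (J → Fin (D + 1)) → K)
    (h : E1_Q J D c = 0) : c = 0 := by
  funext β
  have h1 := congrArg (coeff (E1_e J D β)) h
  unfold E1_Q at h1
  rw [coeff_sum, coeff_zero, Finset.sum_eq_single β] at h1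
  · rwa [coeff_monomial, if_pos rfl] at h1
  · intro α _ hα
    rw [coeff_monomial, if_neg (fun he => hα (E1_inj J D he))]
  · intro h2
    exact absurd (Finset.mem_univ _) h2

end

theorem pr_E1 (h1 : S_Trans) : S_E1 := by
  classical
  intro σ K _ _ I B d J hI hdim hHB hJ hnot
  by_contra hcon
  push Not at hcon
  obtain ⟨i, hiJ, htr⟩ := h1 σ K I d J hI hdim hJ.le hnot
  have hB : 1 ≤ B := by
    have h2 := hHB 1 le_rfl
    have h3 := card_le_HF I 1 (fun _ : Fin 1 => (1 : MvPolynomial σ K)) (fun _ => by simp) (by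
      intro c hc
      rw [Fin.sum_univ_one] at hc
      funext j
      by_contra hne
      have hj : j = 0 := Subsingleton.elim _ _
      subst hj
      apply hI.ne_top
      rw [Ideal.eq_top_iff_one]
      have h4 : (1 : MvPolynomial σ K) = C (c 0)⁻¹ * (c 0 • 1) := by
        rw [smul_eq_C_mul, mul_one, ← C_mul, inv_mul_cancel₀ hne, C_1]
      rw [h4]
      exact I.mul_mem_left _ hc)
    rw [Fintype.card_fin] at h3
    rw [one_pow, mul_one] at h2
    omega
  set D := B * (d + 1) ^ d with hD
  have hD1 : 1 ≤ D := Nat.mul_pos hB (pow_pos (Nat.succ_pos d) d)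
  -- no relations
  have hno : ∀ c : (J → Fin (D + 1)) → K, E1_Q J D c ∈ I → c = 0 := by
    intro c hc
    apply E1_Q_zero J D c
    by_contra hne
    have h2 := hcon _ hc hne (E1_Q_vars J D c)
    have h3 := E1_Q_deg J D c
    have h4 : J.card * D ≤ QQ d B := by
      rw [hJ, hD]
      unfold QQ
      calc d * (B * (d + 1) ^ d) ≤ (d + 1) * (B * (d + 1) ^ d) :=
            Nat.mul_le_mul_right _ (Nat.le_succ d)
        _ = B * (d + 1) ^ (d + 1) := by ring
    omega
  -- the family
  have hfam := card_le_HF I ((d + 1) * D)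
    (fun z : Fin (D + 1) × (J → Fin (D + 1)) =>
      (monomial (E1_e J D z.2) (1 : K) : MvPolynomial σ K) * X i ^ (z.1 : ℕ))
    (by
      intro z
      refine (totalDegree_mul _ _).trans ?_
      have h2 := (totalDegree_monomial_le (E1_e J D z.2) (1 : K)).trans (E1_sum J D z.2)
      have h3 : (X i ^ (z.1 : ℕ) : MvPolynomial σ K).totalDegree ≤ D := by
        rw [totalDegree_X_pow]
        have := z.1.2
        omega
      rw [hJ] at h2
      calc _ ≤ d * D + D := Nat.add_le_add h2 h3
        _ = (d + 1) * D := by ring)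
    (by
      intro c hc
      have h2 : ∑ z : Fin (D + 1) × (J → Fin (D + 1)), c z •
          ((monomial (E1_e J D z.2) (1 : K) : MvPolynomial σ K) * X i ^ (z.1 : ℕ)) =
          ∑ l ∈ Finset.range (D + 1), (if h : l < D + 1 then
            E1_Q J D (fun α => c (⟨l, h⟩, α)) else 0) * X i ^ l := by
        rw [Finset.sum_range, Fintype.sum_prod_type]
        apply Finset.sum_congr rfl
        intro b _
        rw [dif_pos b.2]
        unfold E1_Q
        rw [Finset.sum_mul]
        apply Finset.sum_congr rfl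
        intro α _
        rw [← smul_mul_assoc, smul_monomial, smul_eq_mul, mul_one]
      rw [h2] at hc
      have h3 := htr D (fun l => if h : l < D + 1 then
            E1_Q J D (fun α => c (⟨l, h⟩, α)) else 0) (by
        intro l
        split_ifs with h
        · exact E1_Q_vars J D _
        · simp) hc
      funext z
      obtain ⟨b, α⟩ := z
      have h4 := h3 b (by have := b.2; omega)
      rw [dif_pos b.2] at h4
      exact congrFun (hno _ h4) α)
  have h5 := hHB ((d + 1) * D) (Nat.mul_pos (Nat.succ_pos d) hD1)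
  rw [Fintype.card_prod, Fintype.card_fun, Fintype.card_fin, Fintype.card_coe, hJ] at hfam
  have h6 : B * ((d + 1) * D) ^ d = D ^ (d + 1) := by
    rw [mul_pow, pow_succ, ← mul_assoc, ← hD, mul_comm]
  have h7 : (D + 1) * (D + 1) ^ d = (D + 1) ^ (d + 1) := by ring
  have h8 : D ^ (d + 1) < (D + 1) ^ (d + 1) :=
    Nat.pow_lt_pow_left (Nat.lt_succ_self D) (Nat.succ_ne_zero d)
  omega

end Pool.Agent.Work.MP_91e6de_nt.DMR

end

section

set_option autoImplicit false

/-!
# Two primes with a common independent set (item E2)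
-/

namespace Pool.Agent.Work.MP_91e6de_nt.DMR

open MvPolynomial

namespace E2

/-- the abstract part: an embedding with prescribed values on the coordinates -/
theorem E2_abs {k F1 F2 : Type} [Field k] [Field F1] [Field F2] [Algebra k F1] [Algebra k F2]
    [CharZero F2] {ι : Type} [Fintype ι] (pos : ι → ℕ) (hpos : Function.Injective pos)
    (x : ι → F1) (y : ι → F2) [Algebra.IsAlgebraic k F1]
    (h : ∀ c : ℕ, Polynomial.aeval (∑ i, (c : F2) ^ pos i * y i)
      (minpoly k (∑ i, (c : F1) ^ pos i * x i)) = 0) :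
    ∃ ψ : F1 →ₐ[k] AlgebraicClosure F2, ∀ i, ψ (x i) = algebraMap F2 _ (y i) := by
  classical
  have hψ : ∀ c : ℕ, ∃ ψ : F1 →ₐ[k] AlgebraicClosure F2,
      ψ (∑ i, (c : F1) ^ pos i * x i) =
        algebraMap F2 (AlgebraicClosure F2) (∑ i, (c : F2) ^ pos i * y i) := by
    intro c
    have h1 := Algebra.IsAlgebraic.range_eval_eq_rootSet_minpoly (F := k) (K := F1)
      (AlgebraicClosure F2) (∑ i, (c : F1) ^ pos i * x i)
    have h2 : algebraMap F2 (AlgebraicClosure F2) (∑ i, (c : F2) ^ pos i * y i) ∈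
        (minpoly k (∑ i, (c : F1) ^ pos i * x i)).rootSet (AlgebraicClosure F2) := by
      rw [Polynomial.mem_rootSet]
      refine ⟨minpoly.ne_zero (Algebra.IsIntegral.isIntegral _), ?_⟩
      rw [Polynomial.aeval_algebraMap_apply, h c, map_zero]
    rw [← h1] at h2
    exact h2
  choose ψ hψ using hψ
  have hmem : ∀ (c : ℕ) (i : ι), ψ c (x i) ∈ (minpoly k (x i)).rootSet (AlgebraicClosure F2) := by
    intro c i
    rw [Polynomial.mem_rootSet]
    refine ⟨minpoly.ne_zero (Algebra.IsIntegral.isIntegral _), ?_⟩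
    rw [Polynomial.aeval_algHom_apply, minpoly.aeval, map_zero]
  obtain ⟨s, hs⟩ := Finite.exists_infinite_fiber (fun c : ℕ =>
    (fun i => ⟨ψ c (x i), hmem c i⟩ :
      ∀ i, ((minpoly k (x i)).rootSet (AlgebraicClosure F2) : Set (AlgebraicClosure F2))))
  have hval : ∀ c : ℕ, c ∈ ((fun c : ℕ =>
    (fun i => ⟨ψ c (x i), hmem c i⟩ :
      ∀ i, ((minpoly k (x i)).rootSet (AlgebraicClosure F2) : Set (AlgebraicClosure F2)))) ⁻¹' {s}) →
      ∀ i, ψ c (x i) = (s i : AlgebraicClosure F2) := by
    intro c hc i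
    have h1 := congrFun (show _ = s from hc) i
    exact congrArg Subtype.val h1
  have hQ : ∑ i, Polynomial.C ((s i : AlgebraicClosure F2) - algebraMap F2 _ (y i)) *
      Polynomial.X ^ pos i = 0 := by
    apply Polynomial.eq_zero_of_infinite_isRoot
    have h1 : Set.Infinite ((fun c : ℕ => (c : AlgebraicClosure F2)) '' ((fun c : ℕ =>
      (fun i => ⟨ψ c (x i), hmem c i⟩ :
      ∀ i, ((minpoly k (x i)).rootSet (AlgebraicClosure F2) : Set (AlgebraicClosure F2)))) ⁻¹' {s})) :=
      Set.Infinite.image (Nat.cast_injective.injOn) (Set.infinite_coe_iff.mp hs)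
    apply h1.mono
    rintro _ ⟨c, hc, rfl⟩
    have h2 := hval c hc
    have h3 := hψ c
    rw [map_sum, map_sum] at h3
    simp only [map_mul, map_pow, map_natCast, h2] at h3
    simp only [Set.mem_ofPred_eq, Polynomial.IsRoot.def, Polynomial.eval_finsetSum,
      Polynomial.eval_mul, Polynomial.eval_C, Polynomial.eval_pow, Polynomial.eval_X, sub_mul,
      Finset.sum_sub_distrib]
    rw [sub_eq_zero]
    simpa only [mul_comm] using h3
  have hcoef : ∀ i, (s i : AlgebraicClosure F2) = algebraMap F2 _ (y i) := by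
    intro i
    have h1 := congrArg (fun q => Polynomial.coeff q (pos i)) hQ
    simp only [Polynomial.finsetSum_coeff, Polynomial.coeff_C_mul, Polynomial.coeff_X_pow,
      Polynomial.coeff_zero] at h1
    rw [Finset.sum_eq_single i] at h1
    · rw [if_pos rfl, mul_one, sub_eq_zero] at h1
      exact h1
    · intro j _ hj
      rw [if_neg (fun h => hj (hpos h.symm)), mul_zero]
    · intro h
      exact absurd (Finset.mem_univ _) h
  obtain ⟨c, hc⟩ := (Set.infinite_coe_iff.mp hs).nonempty
  exact ⟨ψ c, fun i => (hval c hc i).trans (hcoef i)⟩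

variable {σ K : Type} [Field K]

/-- substitution of polynomials of degree `≤ 1` -/
theorem E2_deg {τ : Type} [Fintype τ] (f : τ → MvPolynomial σ K)
    (hf : ∀ i, (f i).totalDegree ≤ 1) (M : MvPolynomial τ K) :
    (aeval f M).totalDegree ≤ M.totalDegree := by
  classical
  rw [aeval_def, eval₂_eq']
  apply totalDegree_finsetSum_le
  intro m hm
  have h1 : (∏ i, f i ^ m i).totalDegree ≤ ∑ i, m i := by
    refine (totalDegree_finsetProd _ _).trans (Finset.sum_le_sum fun i _ => ?_)
    refine (totalDegree_pow _ _).trans ?_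
    calc m i * (f i).totalDegree ≤ m i * 1 := Nat.mul_le_mul_left _ (hf i)
      _ = m i := mul_one _
  have h2 : ∑ i, m i ≤ M.totalDegree := by
    refine le_trans (le_of_eq ?_) (le_totalDegree hm)
    rw [Finsupp.sum_fintype _ _ (fun _ => rfl)]
  have h3 : (algebraMap K (MvPolynomial σ K) (coeff m M)).totalDegree = 0 := totalDegree_C _
  refine (totalDegree_mul _ _).trans ?_
  omega

/-- the map to the function field -/
noncomputable def ph (I : Ideal (MvPolynomial σ K)) :
    MvPolynomial σ K →+* FractionRing (MvPolynomial σ K ⧸ I) :=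
  (algebraMap (MvPolynomial σ K ⧸ I) (FractionRing (MvPolynomial σ K ⧸ I))).comp
    (Ideal.Quotient.mk I)

theorem ph_eq_zero (I : Ideal (MvPolynomial σ K)) (G : MvPolynomial σ K) :
    ph I G = 0 ↔ G ∈ I := by
  unfold ph
  rw [RingHom.comp_apply, ← Ideal.Quotient.eq_zero_iff_mem]
  exact (IsFractionRing.injective (MvPolynomial σ K ⧸ I)
    (FractionRing (MvPolynomial σ K ⧸ I))).eq_iff' (map_zero _)

/-- the map from the polynomials in the coordinates in `J` -/
noncomputable def th (I : Ideal (MvPolynomial σ K)) (J : Finset σ) :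
    MvPolynomial J K →+* FractionRing (MvPolynomial σ K ⧸ I) :=
  (ph I).comp (rename (fun j : J => (j : σ))).toRingHom

theorem th_inj (I : Ideal (MvPolynomial σ K)) (J : Finset σ) (h : Ind I J) :
    Function.Injective (th I J) := by
  classical
  rw [injective_iff_map_eq_zero]
  intro g hg
  have h1 : rename (fun j : J => (j : σ)) g ∈ I := (ph_eq_zero I _).1 hg
  have h2 : (rename (fun j : J => (j : σ)) g).vars ⊆ J := by
    intro i hi
    obtain ⟨j, _, hj⟩ := mem_vars_rename _ _ hi
    rw [← hj]
    exact j.2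
  have h3 := h _ h1 h2
  exact (rename_injective _ Subtype.val_injective) (h3.trans (map_zero _).symm)

/-- evaluation of the polynomial in one variable -/
theorem opt_eval (I : Ideal (MvPolynomial σ K)) (J : Finset σ) (u : MvPolynomial σ K)
    (M : MvPolynomial (Option J) K) :
    Polynomial.eval₂ (th I J) (ph I u) (optionEquivLeft K J M) =
      ph I (aeval (fun o : Option J => o.elim u (fun j => X (j : σ))) M) := by
  induction M using MvPolynomial.induction_on with
  | C a =>
    rw [optionEquivLeft_C, Polynomial.eval₂_C]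
    simp [th]
  | add p q hp hq =>
    rw [map_add, Polynomial.eval₂_add, hp, hq, map_add, map_add]
  | mul_X p o hp =>
    rw [map_mul, Polynomial.eval₂_mul, hp, map_mul, map_mul]
    congr 1
    cases o with
    | none =>
      rw [optionEquivLeft_X_none, Polynomial.eval₂_X]
      simp
    | some j =>
      rw [optionEquivLeft_X_some, Polynomial.eval₂_C]
      simp [th]

theorem opt_rename (J : Finset σ) (q : MvPolynomial J K) :
    optionEquivLeft K J (rename some q) = Polynomial.C q := by
  rw [optionEquivLeft_apply, aeval_rename]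
  have h1 : ((fun o : Option J => o.elim Polynomial.X fun s => Polynomial.C (X s)) ∘ some :
      J → Polynomial (MvPolynomial J K)) = fun s => Polynomial.C (X s) := rfl
  rw [h1]
  have h2 : (aeval (fun s : J => (Polynomial.C (X s) : Polynomial (MvPolynomial J K)))) =
      (Polynomial.CAlgHom : MvPolynomial J K →ₐ[MvPolynomial J K]
        Polynomial (MvPolynomial J K)).restrictScalars K := by
    apply MvPolynomial.algHom_ext
    intro i
    simp
  rw [h2]
  rfl

theorem E2_key (I I' : Ideal (MvPolynomial σ K)) [I.IsPrime] (T d : ℕ)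
    (J : Finset σ) (hJ : J.card = d) (hI : Ind I J)
    (hyp : ∀ f : Fin (d + 1) → MvPolynomial σ K, (∀ i, (f i).totalDegree ≤ 1) →
      ∃ F : MvPolynomial (Fin (d + 1)) K, F ≠ 0 ∧ F.totalDegree ≤ T ∧ aeval f F ∈ I)
    (hcomp : ∀ F ∈ I, F.totalDegree ≤ T → F ∈ I') (u : MvPolynomial σ K)
    (hu : u.totalDegree ≤ 1) :
    ∃ p : Polynomial (MvPolynomial J K),
      Irreducible (p.map (algebraMap (MvPolynomial J K) (FractionRing (MvPolynomial J K)))) ∧
      Polynomial.eval₂ (th I J) (ph I u) p = 0 ∧
      Polynomial.eval₂ (th I' J) (ph I' u) p = 0 := by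
  classical
  set g : Option J → MvPolynomial σ K := fun o => o.elim u (fun j => X (j : σ)) with hg
  have hgd : ∀ o, (g o).totalDegree ≤ 1 := by
    intro o
    cases o with
    | none => exact hu
    | some j => exact (totalDegree_X (R := K) (j : σ)).le
  have e : Fin (d + 1) ≃ Option J := Fintype.equivOfCardEq (by simp [hJ])
  obtain ⟨F, hF0, hFT, hFI⟩ := hyp (g ∘ e) (fun i => hgd _)
  have hF1 : aeval g (rename e F) ∈ I := by
    rw [aeval_rename]
    exact hFI
  have hF2 : rename e F ≠ 0 := by
    intro h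
    exact hF0 ((rename_injective _ e.injective) (h.trans (map_zero _).symm))
  have hne : {n : ℕ | ∃ M : MvPolynomial (Option J) K, aeval g M ∈ I ∧ M ≠ 0 ∧
      M.totalDegree = n}.Nonempty := ⟨_, rename e F, hF1, hF2, rfl⟩
  obtain ⟨M, hMI, hM0, hMd⟩ := Nat.sInf_mem hne
  have hmin : ∀ M' : MvPolynomial (Option J) K, aeval g M' ∈ I → M' ≠ 0 →
      M.totalDegree ≤ M'.totalDegree := by
    intro M' h1 h2
    rw [hMd]
    exact Nat.sInf_le ⟨M', h1, h2, rfl⟩
  have hMT : M.totalDegree ≤ T :=
    (hmin _ hF1 hF2).trans ((totalDegree_rename_le _ _).trans hFT)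
  have hunit : ∀ b : MvPolynomial (Option J) K, b ≠ 0 → b.totalDegree = 0 → IsUnit b := by
    intro b hb0 hb
    rw [totalDegree_eq_zero_iff_eq_C.mp hb] at hb0 ⊢
    have hc : coeff 0 b ≠ 0 := by
      intro h
      rw [h] at hb0
      exact hb0 (map_zero _)
    exact (isUnit_iff_ne_zero.2 hc).map C
  have hirr : Irreducible M := by
    refine ⟨?_, ?_⟩
    · intro hu'
      have h1 : IsUnit (aeval g M) := hu'.map _
      exact (Ideal.IsPrime.ne_top inferInstance) (Ideal.eq_top_of_isUnit_mem I hMI h1)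
    · intro a b hab
      have ha0 : a ≠ 0 := by
        rintro rfl
        exact hM0 (hab.trans (zero_mul _))
      have hb0 : b ≠ 0 := by
        rintro rfl
        exact hM0 (hab.trans (mul_zero _))
      have hdeg : M.totalDegree = a.totalDegree + b.totalDegree := by
        rw [hab]
        exact totalDegree_mul_of_isDomain ha0 hb0
      have hmem : aeval g a * aeval g b ∈ I := by
        rw [← map_mul, ← hab]
        exact hMI
      rcases (Ideal.IsPrime.mem_or_mem inferInstance hmem) with h | h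
      · right
        have := hmin a h ha0
        exact hunit b hb0 (by omega)
      · left
        have := hmin b h hb0
        exact hunit a ha0 (by omega)
  have hpirr : Irreducible (optionEquivLeft K J M) :=
    (MulEquiv.irreducible_iff (optionEquivLeft K J)).2 hirr
  have hnat : (optionEquivLeft K J M).natDegree ≠ 0 := by
    intro h
    have h1 := Polynomial.eq_C_of_natDegree_eq_zero h
    rw [← opt_rename] at h1
    have h2 := (optionEquivLeft K J).injective h1
    rw [h2, aeval_rename] at hMI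
    have h3 : (g ∘ some) = fun j : J => (X (j : σ) : MvPolynomial σ K) := rfl
    rw [h3] at hMI
    have h4 : aeval (fun j : J => (X (j : σ) : MvPolynomial σ K))
        ((optionEquivLeft K J M).coeff 0) =
        rename (fun j : J => (j : σ)) ((optionEquivLeft K J M).coeff 0) :=
      (aeval_rename (fun j : J => (j : σ)) X _).symm.trans (aeval_X_left_apply _)
    rw [h4] at hMI
    have h5 : (rename (fun j : J => (j : σ)) ((optionEquivLeft K J M).coeff 0)).vars ⊆ J := by
      intro i hi
      obtain ⟨j, _, hj⟩ := mem_vars_rename _ _ hi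
      rw [← hj]
      exact j.2
    have h6 := hI _ hMI h5
    have h7 : (optionEquivLeft K J M).coeff 0 = 0 :=
      (rename_injective _ Subtype.val_injective) (h6.trans (map_zero _).symm)
    rw [h7, map_zero] at h2
    exact hM0 h2
  have hprim := hpirr.isPrimitive hnat
  refine ⟨optionEquivLeft K J M, (hprim.irreducible_iff_irreducible_map_fraction_map
    (K := FractionRing (MvPolynomial J K))).1 hpirr, ?_, ?_⟩
  · rw [opt_eval, ph_eq_zero]
    exact hMI
  · rw [opt_eval, ph_eq_zero]
    exact hcomp _ hMI ((E2_deg g hgd M).trans hMT)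

end E2

open E2 in
theorem pr_E2 (_h1 : S_DimTr) : S_E2 := by
  intro σ K _ _ _ I I' T d J hIp hIp' hId hId' hJ hI hI' hyp hcomp
  classical
  have := hIp
  have := hIp'
  -- the fields
  let k := FractionRing (MvPolynomial J K)
  let F1 := FractionRing (MvPolynomial σ K ⧸ I)
  let F2 := FractionRing (MvPolynomial σ K ⧸ I')
  let a1 : Algebra k F1 := (IsFractionRing.lift (th_inj I J hI)).toAlgebra
  let a2 : Algebra k F2 := (IsFractionRing.lift (th_inj I' J hI')).toAlgebra
  have m1 : ∀ z : MvPolynomial J K, algebraMap k F1 (algebraMap (MvPolynomial J K) k z) =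
      th I J z := fun z => IsFractionRing.lift_algebraMap (th_inj I J hI) z
  have m2 : ∀ z : MvPolynomial J K, algebraMap k F2 (algebraMap (MvPolynomial J K) k z) =
      th I' J z := fun z => IsFractionRing.lift_algebraMap (th_inj I' J hI') z
  have c1 : (algebraMap k F1).comp (algebraMap (MvPolynomial J K) k) = th I J :=
    RingHom.ext m1
  have c2 : (algebraMap k F2).comp (algebraMap (MvPolynomial J K) k) = th I' J :=
    RingHom.ext m2
  have key : ∀ u : MvPolynomial σ K, u.totalDegree ≤ 1 →
      IsIntegral k (ph I u) ∧ Polynomial.aeval (ph I' u) (minpoly k (ph I u)) = 0 := by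
    intro u hu
    obtain ⟨p, hirr, h2, h3⟩ := E2_key I I' T d J hJ hI hyp hcomp u hu
    have h4 : Polynomial.aeval (ph I u) (p.map (algebraMap (MvPolynomial J K) k)) = 0 := by
      rw [Polynomial.aeval_def, Polynomial.eval₂_map, c1]
      exact h2
    have h5 : Polynomial.aeval (ph I' u) (p.map (algebraMap (MvPolynomial J K) k)) = 0 := by
      rw [Polynomial.aeval_def, Polynomial.eval₂_map, c2]
      exact h3
    have hint : IsIntegral k (ph I u) := by
      rw [← isAlgebraic_iff_isIntegral]
      exact ⟨_, hirr.ne_zero, h4⟩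
    refine ⟨hint, ?_⟩
    have h6 := (minpoly.irreducible hint).associated_of_dvd hirr (minpoly.dvd k _ h4)
    exact Polynomial.aeval_eq_zero_of_dvd_aeval_eq_zero h6.dvd' h5
  -- algebraicity
  have hint : ∀ G : MvPolynomial σ K, IsIntegral k (ph I G) := by
    intro G
    induction G using MvPolynomial.induction_on with
    | C a =>
      have : ph I (C a) = algebraMap k F1 (algebraMap (MvPolynomial J K) k (C a)) := by
        rw [m1]
        simp [th]
      rw [this]
      exact isIntegral_algebraMap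
    | add p q hp hq =>
      rw [map_add]
      exact hp.add hq
    | mul_X p i hp =>
      rw [map_mul]
      exact hp.mul (key (X i) (totalDegree_X (R := K) i).le).1
  have halg : Algebra.IsAlgebraic k F1 := by
    refine ⟨fun z => ?_⟩
    rw [isAlgebraic_iff_isIntegral]
    obtain ⟨a, b, _, hz⟩ := IsFractionRing.div_surjective (MvPolynomial σ K ⧸ I) (K := F1) z
    obtain ⟨a, rfl⟩ := Ideal.Quotient.mk_surjective a
    obtain ⟨b, rfl⟩ := Ideal.Quotient.mk_surjective b
    rw [← hz, div_eq_mul_inv]
    exact (hint a).mul (hint b).inv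
  have hchar : CharZero F2 :=
    charZero_of_injective_ringHom ((ph I').comp C).injective
  -- the embedding
  obtain ⟨ψ, hψ⟩ := E2_abs (k := k) (F1 := F1) (F2 := F2) (ι := {i : σ // i ∉ J})
    (fun i => (Fintype.equivFin {i : σ // i ∉ J} i : ℕ))
    (fun i j h => (Fintype.equivFin _).injective (Fin.val_injective h))
    (fun i => ph I (X (i : σ))) (fun i => ph I' (X (i : σ))) (by
      intro c
      have h1 := (key (∑ i : {i : σ // i ∉ J},
        (c : MvPolynomial σ K) ^ (Fintype.equivFin {i : σ // i ∉ J} i : ℕ) * X (i : σ)) (by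
          apply totalDegree_finsetSum_le
          intro i _
          refine (totalDegree_mul _ _).trans ?_
          have h2 : ((c : MvPolynomial σ K) ^
              (Fintype.equivFin {i : σ // i ∉ J} i : ℕ)).totalDegree = 0 := by
            have h3 : (c : MvPolynomial σ K) ^ (Fintype.equivFin {i : σ // i ∉ J} i : ℕ) =
                C ((c : K) ^ (Fintype.equivFin {i : σ // i ∉ J} i : ℕ)) := by
              rw [map_pow, map_natCast]
            rw [h3]
            exact totalDegree_C _
          rw [h2, totalDegree_X])).2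
      simpa only [map_sum, map_mul, map_pow, map_natCast] using h1)
  -- compare the two maps
  have hcompare : (ψ.toRingHom).comp (ph I) =
      (algebraMap F2 (AlgebraicClosure F2)).comp (ph I') := by
    have hk : ∀ z : MvPolynomial J K, ψ (th I J z) =
        algebraMap F2 (AlgebraicClosure F2) (th I' J z) := by
      intro z
      rw [← m1, ← m2, ψ.commutes]
      exact IsScalarTower.algebraMap_apply k F2 (AlgebraicClosure F2) _
    apply MvPolynomial.ringHom_ext
    · intro a
      have := hk (C a)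
      simpa [th] using this
    · intro i
      by_cases hi : i ∈ J
      · have := hk (X ⟨i, hi⟩)
        simpa [th] using this
      · exact hψ ⟨i, hi⟩
  ext G
  rw [← ph_eq_zero I, ← ph_eq_zero I']
  have h1 := RingHom.congr_fun hcompare G
  have h2 : ψ (ph I G) = algebraMap F2 (AlgebraicClosure F2) (ph I' G) := h1
  constructor
  · intro h
    rw [h, map_zero] at h2
    exact (map_eq_zero (algebraMap F2 (AlgebraicClosure F2))).1 h2.symm
  · intro h
    rw [h, map_zero] at h2
    exact (map_eq_zero ψ).1 h2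

end Pool.Agent.Work.MP_91e6de_nt.DMR

end

section

set_option autoImplicit false

namespace Pool.Agent.Work.MP_91e6de_nt.DMR

open MvPolynomial

theorem pr_EE (h1 : S_HBRel) (h2 : S_E1) (h3 : S_E2) : S_EE := by
  intro σ K _ _ _ I I' B d hI hI' hd hd' hB hF
  obtain ⟨J, hJd, hJ⟩ := hd'.1
  have hJI : Ind I J := by
    by_contra h
    obtain ⟨F, hFI, hF0, hFv, hFd⟩ := h2 σ K I B d J hI hd hB hJd h
    exact hF0 (hJ F (hF F hFI hFd) hFv)
  exact h3 σ K I I' (QQ d B) d J hI hI' hd hd' hJd hJI hJ
    (fun f hf => h1 σ K I B d f hB hf) hF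

end Pool.Agent.Work.MP_91e6de_nt.DMR

end

section

set_option autoImplicit false

/-!
# Item Exp: exponents, one step down
-/

namespace Pool.Agent.Work.MP_91e6de_nt.DMR

/-- polynomially bounded functions of `X`, for `h ≤ X`, `d ≤ r` -/
def ExpBd (r : ℕ) (f : ℕ → ℕ → ℕ → ℕ) : Prop :=
  ∃ n, ∀ X h d : ℕ, 2 ≤ X → h ≤ X → d ≤ r → f X h d ≤ X ^ n

theorem exp_mono {r : ℕ} {f g : ℕ → ℕ → ℕ → ℕ} (hg : ExpBd r g)
    (h : ∀ X h d, 2 ≤ X → h ≤ X → d ≤ r → f X h d ≤ g X h d) : ExpBd r f := by
  obtain ⟨n, hn⟩ := hg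
  exact ⟨n, fun X y d h1 h2 h3 => (h X y d h1 h2 h3).trans (hn X y d h1 h2 h3)⟩

theorem exp_const (r c : ℕ) : ExpBd r (fun _ _ _ => c) :=
  ⟨c, fun X _ _ h1 _ _ => (Nat.lt_two_pow_self (n := c)).le.trans (Nat.pow_le_pow_left h1 c)⟩

theorem exp_X (r : ℕ) : ExpBd r (fun X _ _ => X) :=
  ⟨1, fun X _ _ _ _ _ => by rw [pow_one]⟩

theorem exp_h (r : ℕ) : ExpBd r (fun _ h _ => h) :=
  ⟨1, fun X _ _ _ h2 _ => by rw [pow_one]; exact h2⟩

theorem exp_d (r : ℕ) : ExpBd r (fun _ _ d => d) :=
  exp_mono (exp_const r r) fun _ _ _ _ _ h => h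

theorem exp_add {r : ℕ} {f g : ℕ → ℕ → ℕ → ℕ} (hf : ExpBd r f) (hg : ExpBd r g) :
    ExpBd r (fun X h d => f X h d + g X h d) := by
  obtain ⟨n, hn⟩ := hf
  obtain ⟨m, hm⟩ := hg
  refine ⟨max n m + 1, fun X h d h1 h2 h3 => ?_⟩
  have hX : 0 < X := by omega
  have e1 : X ^ n ≤ X ^ max n m := Nat.pow_le_pow_right hX (le_max_left _ _)
  have e2 : X ^ m ≤ X ^ max n m := Nat.pow_le_pow_right hX (le_max_right _ _)
  have e3 := hn X h d h1 h2 h3
  have e4 := hm X h d h1 h2 h3
  have e5 : 2 * X ^ max n m ≤ X * X ^ max n m := Nat.mul_le_mul_right _ h1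
  rw [pow_succ']
  change f X h d + g X h d ≤ _
  omega

theorem exp_mul {r : ℕ} {f g : ℕ → ℕ → ℕ → ℕ} (hf : ExpBd r f) (hg : ExpBd r g) :
    ExpBd r (fun X h d => f X h d * g X h d) := by
  obtain ⟨n, hn⟩ := hf
  obtain ⟨m, hm⟩ := hg
  refine ⟨n + m, fun X h d h1 h2 h3 => ?_⟩
  rw [pow_add]
  exact Nat.mul_le_mul (hn X h d h1 h2 h3) (hm X h d h1 h2 h3)

theorem exp_pow {r c : ℕ} {f g : ℕ → ℕ → ℕ → ℕ} (hf : ExpBd r f)
    (hg : ∀ X h d, d ≤ r → g X h d ≤ c) : ExpBd r (fun X h d => f X h d ^ g X h d) := by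
  obtain ⟨n, hn⟩ := hf
  refine ⟨n * c, fun X h d h1 h2 h3 => ?_⟩
  have hX : 0 < X := by omega
  calc f X h d ^ g X h d ≤ (X ^ n) ^ g X h d := Nat.pow_le_pow_left (hn X h d h1 h2 h3) _
    _ = X ^ (n * g X h d) := by rw [pow_mul]
    _ ≤ X ^ (n * c) := Nat.pow_le_pow_right hX (Nat.mul_le_mul_left n (hg X h d h3))

theorem exp_powd {r : ℕ} {f : ℕ → ℕ → ℕ → ℕ} (hf : ExpBd r f) :
    ExpBd r (fun X h d => f X h d ^ d) :=
  exp_pow (c := r) hf fun _ _ _ h => h

theorem exp_powc {r : ℕ} (c : ℕ) {f : ℕ → ℕ → ℕ → ℕ} (hf : ExpBd r f) :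
    ExpBd r (fun X h d => f X h d ^ c) :=
  exp_pow (c := c) (g := fun _ _ _ => c) hf fun _ _ _ _ => le_rfl

theorem exp_TT (kap r a : ℕ) : ExpBd r (fun X h d => TT kap d (X ^ a) h) := by
  unfold TT
  exact exp_mul (exp_add (exp_d r) (exp_const r 1))
    (exp_mul (exp_mul (exp_const r 2) (exp_powc a (exp_X r)))
      (exp_powd (exp_mul (exp_mul (exp_const r (7 * kap)) (exp_add (exp_d r) (exp_const r 1)))
        (exp_h r))))

theorem exp_QQ (r a : ℕ) : ExpBd r (fun X _ d => QQ d (X ^ a)) := by
  unfold QQ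
  exact exp_mul (exp_powc a (exp_X r))
    (exp_pow (c := r + 1) (g := fun _ _ d => d + 1) (exp_add (exp_d r) (exp_const r 1))
      fun _ _ _ h => Nat.succ_le_succ h)

theorem exp_B1 (kap r a : ℕ) : ExpBd r (fun X h d => B1 kap r d (X ^ a) h) := by
  unfold B1
  exact exp_mul (exp_const r _) (exp_powc r (exp_TT kap r a))

theorem exp_BW (kap r e a : ℕ) : ExpBd r (fun X h d => BW kap r e d (X ^ a) h) := by
  unfold BW
  refine exp_mul (exp_mul (exp_add (exp_powc a (exp_X r)) (exp_B1 kap r a))
    (exp_powd (exp_const r (e + 1)))) ?_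
  exact exp_mono (exp_const r r.factorial) fun _ _ _ _ _ h => Nat.factorial_le h

theorem exp_BS (kap r e a : ℕ) : ExpBd r (fun X h d => BS kap r e d (X ^ a) h) := by
  unfold BS
  exact exp_mul (exp_powd (exp_add (exp_add (exp_TT kap r a) (exp_QQ r a)) (exp_const r 1)))
    (exp_BW kap r e a)

theorem exp_LG (kap r a : ℕ) : ExpBd r (fun X h _ => LG kap r (12 * X ^ a) h) := by
  unfold LG
  exact exp_mul (exp_const r 2) (exp_powc r (exp_powc kap (exp_mul (exp_const r 16)
    (exp_powc 2 (exp_mul (exp_mul (exp_const r 6) (exp_add (exp_const r r)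
      (exp_mul (exp_const r 12) (exp_powc a (exp_X r))))) (exp_h r))))))

theorem exp_LS (kap r e a : ℕ) : ExpBd r (fun X h d => LS kap r e d (X ^ a) (X ^ a) h) := by
  unfold LS
  refine exp_mul (exp_mul (exp_mul (exp_powc a (exp_X r)) (exp_mul (exp_const r 24)
    (exp_powc a (exp_X r)))) (exp_LG kap r a)) (exp_mul ?_ (exp_BS kap r e a))
  exact exp_mono (exp_const r r.factorial) fun _ _ d _ _ h =>
    Nat.factorial_le ((Nat.sub_le d 1).trans h)

theorem pr_Exp : S_Exp := by
  intro kap r e a _ _ _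
  obtain ⟨n, hn⟩ := exp_BS kap r e a
  obtain ⟨m, hm⟩ := exp_LS kap r e a
  refine ⟨max a (max n m), le_max_left _ _, fun X h d h1 h2 h3 => ⟨?_, ?_⟩⟩
  · exact (hn X h d h1 h2 h3).trans (Nat.pow_le_pow_right (by omega)
      ((le_max_left n m).trans (le_max_right _ _)))
  · exact (hm X h d h1 h2 h3).trans (Nat.pow_le_pow_right (by omega)
      ((le_max_right n m).trans (le_max_right _ _)))

end Pool.Agent.Work.MP_91e6de_nt.DMR

end

section

set_option autoImplicit false

namespace Pool.Agent.Work.MP_91e6de_nt.DMR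

theorem Exp0_const (X c : ℕ) (hX : 2 ≤ X) : c ≤ X ^ c :=
  (Nat.lt_two_pow_self (n := c)).le.trans (Nat.pow_le_pow_left hX c)

theorem Exp0_mul {X a b x y : ℕ} (hx : x ≤ X ^ a) (hy : y ≤ X ^ b) : x * y ≤ X ^ (a + b) := by
  rw [pow_add]; exact Nat.mul_le_mul hx hy

theorem Exp0_pow {X a x : ℕ} (r : ℕ) (hx : x ≤ X ^ a) : x ^ r ≤ X ^ (a * r) := by
  rw [pow_mul]; exact Nat.pow_le_pow_left hx r

theorem Exp0_add {X a b x y : ℕ} (hX : 2 ≤ X) (hx : x ≤ X ^ a) (hy : y ≤ X ^ b) :
    x + y ≤ X ^ (a + b + 1) := by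
  have h1 : X ^ a ≤ X ^ (a + b) := Nat.pow_le_pow_right (by omega) (by omega)
  have h2 : X ^ b ≤ X ^ (a + b) := Nat.pow_le_pow_right (by omega) (by omega)
  calc x + y ≤ X ^ (a + b) + X ^ (a + b) := by omega
    _ = X ^ (a + b) * 2 := by ring
    _ ≤ X ^ (a + b) * X := Nat.mul_le_mul_left _ hX
    _ = X ^ (a + b + 1) := by rw [pow_succ]

theorem Exp0_h {X h : ℕ} (hh : h ≤ X) : h ≤ X ^ 1 := by simpa using hh

theorem pr_Exp0 : S_Exp0 := by
  intro kap r e _ _ _
  -- the exponents
  let c1 : ℕ := 7 * kap * (r + 1)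
  let aD : ℕ := 2 ^ (r + 1) + (c1 + 1) * r
  let aB : ℕ := (aD + (r + 1 + 1) + 1 + 1) * r + 2 ^ r
  let aL : ℕ := 2 + (16 + (6 + (r + 1 + 1) + 1) * 2) * kap * r
  let a2 : ℕ := aL + ((r - 1).factorial + aB)
  refine ⟨aB + a2, ?_⟩
  intro X h k hX hh hk hek
  have hX1 : 1 ≤ X := by omega
  have hDZ : DZ kap r h ≤ X ^ aD := by
    unfold DZ
    refine Exp0_mul (Exp0_const X _ hX) ?_
    exact Exp0_pow r (Exp0_mul (Exp0_const X _ hX) (Exp0_h hh))
  have hBZ : BZ kap r e k h ≤ X ^ aB := by
    unfold BZ
    refine Exp0_mul (Exp0_pow r ?_) (Exp0_const X _ hX)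
    refine (Exp0_add (b := 0) hX (Exp0_mul hDZ
      (Exp0_add hX (Exp0_const X r hX) (Exp0_h hek))) (by simp)).trans ?_
    exact Nat.pow_le_pow_right hX1 (by omega)
  have hLG : LG kap r k h ≤ X ^ aL := by
    unfold LG
    refine Exp0_mul (Exp0_const X 2 hX) ?_
    refine Exp0_pow r (Exp0_pow kap ?_)
    refine Exp0_mul (Exp0_const X 16 hX) (Exp0_pow 2 ?_)
    exact Exp0_mul (Exp0_mul (Exp0_const X 6 hX)
      (Exp0_add hX (Exp0_const X r hX) (Exp0_h hk))) (Exp0_h hh)
  constructor
  · exact hBZ.trans (Nat.pow_le_pow_right hX1 (Nat.le_add_right aB a2))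
  · refine (Exp0_mul hLG (Exp0_mul (Exp0_const X _ hX) hBZ)).trans ?_
    exact Nat.pow_le_pow_right hX1 (Nat.le_add_left a2 aB)

end Pool.Agent.Work.MP_91e6de_nt.DMR

end

section

set_option autoImplicit false

/-!
# Item Gap2: a small gap (helper55)
-/

namespace Pool.Agent.Work.MP_91e6de_nt.DMR

theorem pr_Gap2 : S_Gap2 := by
  classical
  intro N L R S hL hS4 hR hRN hN
  set W : ℕ := 12 * L with hW
  have hWpos : 0 < W := by omega
  set last : Finset ℕ := S.filter (fun n => ∀ n' ∈ S, n < n' → n' / W ≠ n / W) with hlast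
  set rest : Finset ℕ := S.filter (fun n => ¬ ∀ n' ∈ S, n < n' → n' / W ≠ n / W) with hrest
  have hsum : last.card + rest.card = S.card := Finset.card_filter_add_card_filter_not _
  -- the last elements of the blocks
  have hinj : Set.InjOn (fun n => n / W) (last : Set ℕ) := by
    intro a ha b hb hab
    rw [Finset.mem_coe, hlast, Finset.mem_filter] at ha hb
    have hab' : a / W = b / W := hab
    rcases lt_trichotomy a b with h | h | h
    · exact absurd hab'.symm (ha.2 b hb.1 h)
    · exact h
    · exact absurd hab' (hb.2 a ha.1 h)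
  have hmaps : ∀ n ∈ last, n / W ∈ Finset.range (R / W + 1) := by
    intro n hn
    rw [hlast, Finset.mem_filter] at hn
    rw [Finset.mem_range]
    have := Nat.div_le_div_right (c := W) (hR n hn.1)
    omega
  have hlc : last.card ≤ R / W + 1 := by
    have h := Finset.card_le_card_of_injOn (fun n => n / W) hmaps hinj
    rwa [Finset.card_range] at h
  have hRW : 4 * (R / W) ≤ S.card := by
    have h1 : W * (R / W) ≤ R := Nat.mul_div_le R W
    have h2 : W * (R / W) ≤ 3 * (S.card * L) := h1.trans (hRN.trans (Nat.mul_le_mul_left 3 hN))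
    rw [hW] at h2
    have h3 : (3 * L) * (4 * (R / (12 * L))) ≤ (3 * L) * S.card := by
      calc (3 * L) * (4 * (R / (12 * L))) = 12 * L * (R / (12 * L)) := by ring
        _ ≤ 3 * (S.card * L) := h2
        _ = (3 * L) * S.card := by ring
    have h4 := Nat.le_of_mul_le_mul_left h3 (by omega)
    rw [hW]
    exact h4
  have hrc : S.card ≤ 2 * rest.card := by omega
  -- the gaps
  have hg : ∀ n ∈ rest, ∃ g, g ∈ Finset.Icc 1 W ∧ n + g ∈ S := by
    intro n hn
    rw [hrest, Finset.mem_filter] at hn
    obtain ⟨hnS, hn2⟩ := hn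
    push Not at hn2
    obtain ⟨n', hn'S, hlt, heq⟩ := hn2
    refine ⟨n' - n, ?_, ?_⟩
    · rw [Finset.mem_Icc]
      refine ⟨by omega, ?_⟩
      have h1 := Nat.div_add_mod n' W
      have h2 := Nat.div_add_mod n W
      have h3 := Nat.mod_lt n' hWpos
      rw [heq] at h1
      omega
    · have : n + (n' - n) = n' := by omega
      rw [this]; exact hn'S
  have hcov : rest ⊆ (Finset.Icc 1 W).biUnion (fun g => S.filter (fun n => n + g ∈ S)) := by
    intro n hn
    obtain ⟨g, hg1, hg2⟩ := hg n hn
    rw [Finset.mem_biUnion]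
    refine ⟨g, hg1, ?_⟩
    rw [Finset.mem_filter]
    exact ⟨(Finset.mem_filter.1 hn).1, hg2⟩
  have hle : rest.card ≤ ∑ g ∈ Finset.Icc 1 W, (S.filter (fun n => n + g ∈ S)).card :=
    (Finset.card_le_card hcov).trans Finset.card_biUnion_le
  by_contra hcon
  push Not at hcon
  have hall : ∀ g ∈ Finset.Icc 1 W, 2 * W * (S.filter (fun n => n + g ∈ S)).card < S.card := by
    intro g hg
    rw [Finset.mem_Icc] at hg
    have h := hcon g hg.1 (by omega)
    have h2 : 2 * W * (S.filter (fun n => n + g ∈ S)).card =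
        (S.filter (fun n => n + g ∈ S)).card * (24 * L) := by rw [hW]; ring
    rw [h2]; exact h
  have hne : (Finset.Icc 1 W).Nonempty := ⟨1, by rw [Finset.mem_Icc]; omega⟩
  have hs : ∑ g ∈ Finset.Icc 1 W, 2 * W * (S.filter (fun n => n + g ∈ S)).card <
      ∑ g ∈ Finset.Icc 1 W, S.card := Finset.sum_lt_sum_of_nonempty hne hall
  rw [← Finset.mul_sum, Finset.sum_const, Nat.card_Icc, smul_eq_mul] at hs
  have h5 : 2 * W * rest.card ≤ 2 * W * ∑ g ∈ Finset.Icc 1 W, (S.filter (fun n => n + g ∈ S)).card :=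
    Nat.mul_le_mul_left _ hle
  have h6 : W * S.card ≤ 2 * W * rest.card := by
    calc W * S.card ≤ W * (2 * rest.card) := Nat.mul_le_mul_left _ hrc
      _ = 2 * W * rest.card := by ring
  have h7 : (W + 1 - 1) * S.card = W * S.card := by simp
  omega

end Pool.Agent.Work.MP_91e6de_nt.DMR

end

section

set_option autoImplicit false

/-!
# Item Good: a good place
-/

namespace Pool.Agent.Work.MP_91e6de_nt.DMR

open MvPolynomial NumberField IsDedekindDomain Height
open Pool.Agent.Work.MP_91e6de_nt.DM (va nv)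

theorem Good_bad (hBad : DM.S_Bad) (K σ : Type) [Field K] [NumberField K] [Fintype σ]
    (p : σ → MvPolynomial σ (𝓞 K)) (q : MvPolynomial σ (𝓞 K)) (e h M G n : ℕ)
    (P : ℕ → σ → K) (hS : Setup p q e h M P) (hn : n + G ≤ M)
    (V' : Finset (HeightOneSpectrum (𝓞 K)))
    (hV : ∀ v ∈ V', (∃ i, 1 < va v (P n i)) ∨ ∃ l < G, va v (aeval (P (n + l)) q) ≠ 1) :
    V'.card ≤ 3 * (Fintype.card σ + G) * h := by
  classical
  have hlog : (0.6931 : ℝ) < Real.log 2 := by
    have := Real.log_two_gt_d9
    linarith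
  let W : σ ⊕ Fin G → Finset (HeightOneSpectrum (𝓞 K)) := fun f =>
    Sum.elim (fun i => V'.filter fun v => 1 < va v (P n i))
      (fun l => V'.filter fun v => va v (aeval (P (n + (l : ℕ))) q) ≠ 1) f
  have hW : ∀ f, ((W f).card : ℝ) * Real.log 2 ≤ 2 * h := by
    intro f
    rcases f with i | l
    · by_cases hz : P n i = 0
      · have h1 : W (Sum.inl i) = ∅ := by
          show V'.filter (fun v => 1 < va v (P n i)) = ∅
          rw [Finset.filter_eq_empty_iff]
          intro v _
          rw [hz, map_zero]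
          norm_num
        rw [h1, Finset.card_empty]
        simp
      · have h1 := hBad K (W (Sum.inl i)) (P n i) hz (fun v hv => by
          have h2 : 1 < va v (P n i) := (Finset.mem_filter.1 hv).2
          exact h2.ne')
        have h2 := hS.ht n (by omega) i
        linarith
    · have hne : aeval (P (n + (l : ℕ))) q ≠ 0 := (hS.orb (n + l) (by omega)).1
      have h1 := hBad K (W (Sum.inr l)) _ hne (fun v hv => (Finset.mem_filter.1 hv).2)
      have h2 := hS.htq (n + l) (by omega)
      linarith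
  have hsub : V' ⊆ Finset.univ.biUnion W := by
    intro v hv
    rw [Finset.mem_biUnion]
    rcases hV v hv with ⟨i, hi⟩ | ⟨l, hl, hl'⟩
    · exact ⟨Sum.inl i, Finset.mem_univ _, Finset.mem_filter.2 ⟨hv, hi⟩⟩
    · exact ⟨Sum.inr ⟨l, hl⟩, Finset.mem_univ _, Finset.mem_filter.2 ⟨hv, hl'⟩⟩
  have hcard : V'.card ≤ ∑ f, (W f).card :=
    (Finset.card_le_card hsub).trans Finset.card_biUnion_le
  have h1 : (V'.card : ℝ) * Real.log 2 ≤ (Fintype.card σ + G) * (2 * h) := by
    have h2 : (V'.card : ℝ) ≤ ∑ f, ((W f).card : ℝ) := by exact_mod_cast hcard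
    have h3 : (V'.card : ℝ) * Real.log 2 ≤ ∑ f, ((W f).card : ℝ) * Real.log 2 := by
      rw [← Finset.sum_mul]
      exact mul_le_mul_of_nonneg_right h2 (by linarith)
    refine h3.trans ((Finset.sum_le_card_nsmul _ _ _ fun f _ => hW f).trans (le_of_eq ?_))
    rw [Finset.card_univ, Fintype.card_sum, Fintype.card_fin, nsmul_eq_mul]
    push_cast
    ring
  have h2 : (V'.card : ℝ) ≤ 3 * (Fintype.card σ + G) * h := by
    have h3 : (0 : ℝ) ≤ (Fintype.card σ + G) * h := by positivity
    have h5 : (V'.card : ℝ) * 0.6931 ≤ (V'.card : ℝ) * Real.log 2 :=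
      mul_le_mul_of_nonneg_left hlog.le (by positivity)
    nlinarith
  exact_mod_cast h2

theorem pr_Good (h1 : Pool.Agent.Work.MP_91e6de_nt.DM.S_Bad)
    (h2 : Pool.Agent.Work.MP_91e6de_nt.DM.S_Plc) (h3 : Pool.Agent.Work.MP_91e6de_nt.DM.S_Avg)
    (h4 : S_ClsG) : S_Good := by
  intro K σ _ _ _ p q e h M G P S hS hσ hSG
  have hh := hS.hh
  have hpos : 1 ≤ 6 * (Fintype.card σ + G) * h := Nat.mul_pos (by omega) (by omega)
  obtain ⟨V, hVc, hV⟩ := h2 K (6 * (Fintype.card σ + G) * h) hpos
  have hVne : V.Nonempty := by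
    rw [← Finset.card_pos, hVc]
    exact hpos
  obtain ⟨v, hv, S1, hS1, hc1, hgood⟩ := h3 ℕ (HeightOneSpectrum (𝓞 K)) S V
    (fun n v => (∃ i, 1 < va v (P n i)) ∨ ∃ l < G, va v (aeval (P (n + l)) q) ≠ 1)
    (3 * (Fintype.card σ + G) * h) hVne
    (fun n hn V' _ hV' => Good_bad h1 K σ p q e h M G n P hS (hSG n hn) V' hV')
    (by rw [hVc]; exact le_of_eq (by ring))
  have hgood' : ∀ n ∈ S1, (∀ i, va v (P n i) ≤ 1) ∧
      ∀ l < G, va v (aeval (P (n + l)) q) = 1 := by
    intro n hn
    have h5 := hgood n hn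
    push Not at h5
    exact h5
  obtain ⟨a, S', hS', hc2, hcong⟩ := h4 K σ v S1 P (fun n hn => (hgood' n hn).1)
  refine ⟨v, a, S', hS'.trans hS1, ?_, ⟨fun n hn => (hgood' n (hS' hn)).1, hcong,
    fun n hn => (hgood' n (hS' hn)).2⟩⟩
  have hQ := hV v hv
  calc S.card ≤ 2 * S1.card := hc1
    _ ≤ 2 * (S'.card * nv v ^ Fintype.card σ) := Nat.mul_le_mul_left _ hc2
    _ ≤ 2 * (S'.card * ((16 * (6 * (Fintype.card σ + G) * h) ^ 2) ^
        Module.finrank ℚ K) ^ Fintype.card σ) :=
        Nat.mul_le_mul_left _ (Nat.mul_le_mul_left _ (Nat.pow_le_pow_left hQ _))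
    _ = S'.card * LG (Module.finrank ℚ K) (Fintype.card σ) G h := by
        unfold LG
        ring

end Pool.Agent.Work.MP_91e6de_nt.DMR

end

section

set_option autoImplicit false

/-!
# Item HBRel: a bound for the Hilbert function gives relations
-/

namespace Pool.Agent.Work.MP_91e6de_nt.DMR

open MvPolynomial

theorem pr_HBRel : S_HBRel := by
  intro σ K _ _ I B d f hB hf
  classical
  obtain ⟨D, hD⟩ : ∃ D, D = B * (d + 1) ^ d := ⟨_, rfl⟩
  have hlt : HF I ((d + 1) * D) < Fintype.card (Fin (d + 1) → Fin (D + 1)) := by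
    simp only [Fintype.card_fun, Fintype.card_fin]
    rcases Nat.eq_zero_or_pos D with h0 | h0
    · have hB0 : B = 0 := by
        rcases Nat.eq_zero_or_pos B with h | h
        · exact h
        · have : 0 < B * (d + 1) ^ d := by positivity
          omega
      have h1 := HF_mono I (Nat.zero_le 1)
      have h2 := hB 1 le_rfl
      rw [hB0, zero_mul] at h2
      rw [h0]
      simp only [mul_zero, zero_add, one_pow]
      omega
    · have h1 := hB ((d + 1) * D) (Nat.succ_le_of_lt (by positivity))
      have h2 : B * ((d + 1) * D) ^ d = D ^ (d + 1) := by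
        rw [mul_pow, ← mul_assoc, ← hD, pow_succ]; ring
      have h3 : D ^ (d + 1) < (D + 1) ^ (d + 1) := Nat.pow_lt_pow_left (by omega) (by omega)
      omega
  obtain ⟨c, hc, hm⟩ := exists_rel I ((d + 1) * D)
    (fun a : Fin (d + 1) → Fin (D + 1) => ∏ l, f l ^ (a l : ℕ)) (by
      intro a
      refine (totalDegree_finsetProd _ _).trans ?_
      calc ∑ l, (f l ^ (a l : ℕ)).totalDegree ≤ ∑ _l : Fin (d + 1), D := by
            apply Finset.sum_le_sum
            intro l _
            refine (totalDegree_pow _ _).trans ?_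
            have h1 := hf l
            have h2 := (a l).2
            nlinarith
        _ = (d + 1) * D := by simp) hlt
  refine ⟨∑ a, c a • monomial (Finsupp.equivFunOnFinite.symm fun i => (a i : ℕ)) (1 : K),
    ?_, ?_, ?_⟩
  · intro h0
    apply hc
    funext a
    have h1 := congrArg (coeff (Finsupp.equivFunOnFinite.symm fun i => (a i : ℕ))) h0
    rw [coeff_sum] at h1
    simp only [coeff_smul, coeff_monomial, smul_eq_mul, mul_ite, mul_one, mul_zero,
      coeff_zero] at h1
    rw [Finset.sum_eq_single a] at h1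
    · simpa using h1
    · intro b _ hb
      rw [if_neg]
      intro h
      apply hb
      funext i
      apply Fin.ext
      have := DFunLike.congr_fun h i
      simpa using this
    · intro h
      exact absurd (Finset.mem_univ _) h
  · refine (totalDegree_finsetSum _ _).trans ?_
    apply Finset.sup_le
    intro a _
    refine (totalDegree_smul_le _ _).trans ?_
    refine (totalDegree_monomial_le _ _).trans ?_
    rw [Finsupp.sum_fintype _ _ (fun _ => rfl)]
    calc ∑ i, (Finsupp.equivFunOnFinite.symm fun i => ((a i : ℕ))) i ≤ ∑ _i : Fin (d + 1), D := by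
          apply Finset.sum_le_sum
          intro i _
          have := (a i).2
          simp only [Finsupp.equivFunOnFinite_symm_apply_apply]
          omega
      _ = QQ d B := by
          unfold QQ
          rw [hD]
          simp only [Finset.sum_const, Finset.card_univ, Fintype.card_fin, smul_eq_mul]
          rw [pow_succ]; ring
  · have h1 : aeval f (∑ a : Fin (d + 1) → Fin (D + 1),
        c a • monomial (Finsupp.equivFunOnFinite.symm fun i => (a i : ℕ)) (1 : K)) =
        ∑ a : Fin (d + 1) → Fin (D + 1), c a • ∏ l, f l ^ (a l : ℕ) := by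
      rw [map_sum]
      apply Finset.sum_congr rfl
      intro a _
      rw [map_smul, aeval_monomial, map_one, one_mul, Finsupp.prod_fintype _ _ (fun _ => pow_zero _)]
      simp
    rw [h1]
    exact hm

end Pool.Agent.Work.MP_91e6de_nt.DMR

end

section

set_option autoImplicit false

/-!
# Item HFlow: independent coordinates bound the Hilbert function from below
-/

namespace Pool.Agent.Work.MP_91e6de_nt.DMR

open MvPolynomial

/-- the exponent of a multiset of `D` elements of `J` and one extra symbol -/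
noncomputable def HFlow_expo {σ : Type} (J : Finset σ) (D : ℕ) [DecidableEq σ]
    (s : Sym (Option J) D) : σ →₀ ℕ :=
  ∑ j : J, Finsupp.single (j : σ) (Multiset.count (some j) (s : Multiset (Option J)))

theorem HFlow_expo_apply {σ : Type} (J : Finset σ) (D : ℕ) [DecidableEq σ]
    (s : Sym (Option J) D) (j : J) :
    HFlow_expo J D s (j : σ) = Multiset.count (some j) (s : Multiset (Option J)) := by
  unfold HFlow_expo
  rw [Finsupp.finsetSum_apply, Finset.sum_eq_single j]
  · simp
  · intro b _ hb
    rw [Finsupp.single_apply, if_neg]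
    exact fun h => hb (Subtype.ext h)
  · intro h
    exact absurd (Finset.mem_univ j) h

theorem HFlow_expo_support {σ : Type} (J : Finset σ) (D : ℕ) [DecidableEq σ]
    (s : Sym (Option J) D) : (HFlow_expo J D s).support ⊆ J := by
  intro i hi
  by_contra hn
  rw [Finsupp.mem_support_iff] at hi
  apply hi
  unfold HFlow_expo
  rw [Finsupp.finsetSum_apply]
  apply Finset.sum_eq_zero
  intro j _
  rw [Finsupp.single_apply, if_neg]
  intro h
  exact hn (h ▸ j.2)

theorem HFlow_count {σ : Type} (J : Finset σ) (D : ℕ) [DecidableEq σ]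
    (s : Sym (Option J) D) :
    Multiset.count none (s : Multiset (Option J)) +
      ∑ j : J, Multiset.count (some j) (s : Multiset (Option J)) = D := by
  have h1 : ∑ x : Option J, Multiset.count x (s : Multiset (Option J)) = D := by
    have h2 := Multiset.sum_count_eq_card (s := (Finset.univ : Finset (Option J)))
      (m := (s : Multiset (Option J))) (fun a _ => Finset.mem_univ a)
    rw [h2]
    exact s.2
  rw [Fintype.sum_option] at h1
  exact h1

theorem HFlow_expo_inj {σ : Type} (J : Finset σ) (D : ℕ) [DecidableEq σ] :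
    Function.Injective (HFlow_expo J D) := by
  intro s s' h
  have h1 : ∀ j : J, Multiset.count (some j) (s : Multiset (Option J)) =
      Multiset.count (some j) (s' : Multiset (Option J)) := by
    intro j
    rw [← HFlow_expo_apply, ← HFlow_expo_apply, h]
  apply Sym.coe_injective
  apply Multiset.ext.mpr
  intro x
  cases x with
  | some j => exact h1 j
  | none =>
    have h2 := HFlow_count J D s
    have h3 := HFlow_count J D s'
    have h4 : ∑ j : J, Multiset.count (some j) (s : Multiset (Option J)) =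
      ∑ j : J, Multiset.count (some j) (s' : Multiset (Option J)) :=
      Finset.sum_congr rfl fun j _ => h1 j
    omega

theorem HFlow_expo_deg {σ : Type} (J : Finset σ) (D : ℕ) [DecidableEq σ]
    (s : Sym (Option J) D) : ((HFlow_expo J D s).sum fun _ e => e) ≤ D := by
  have h1 : ((HFlow_expo J D s).sum fun _ e => e) =
      ∑ j : J, Multiset.count (some j) (s : Multiset (Option J)) := by
    rw [Finsupp.sum_of_support_subset (HFlow_expo J D s) (HFlow_expo_support J D s) _
      (fun _ _ => rfl), ← Finset.sum_coe_sort J]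
    exact Finset.sum_congr rfl fun j _ => HFlow_expo_apply J D s j
  have h2 := HFlow_count J D s
  omega

theorem pr_HFlow : S_HFlow := by
  classical
  intro σ K _ _ I J D hJ
  have hcard : Fintype.card (Sym (Option J) D) = (D + J.card).choose J.card := by
    rw [Sym.card_sym_eq_choose, Fintype.card_option, Fintype.card_coe]
    have h1 : J.card + 1 + D - 1 = D + J.card := by omega
    rw [h1, ← Nat.choose_symm_add]
  rw [← hcard]
  apply card_le_HF I D (fun s : Sym (Option J) D => monomial (HFlow_expo J D s) (1 : K))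
  · intro s
    exact (totalDegree_monomial_le _ _).trans (HFlow_expo_deg J D s)
  · intro c hc
    have hv : (∑ s, c s • monomial (HFlow_expo J D s) (1 : K)).vars ⊆ J := by
      refine (vars_sum_subset _ _).trans ?_
      intro i hi
      rw [Finset.mem_biUnion] at hi
      obtain ⟨s, _, hs⟩ := hi
      rw [smul_monomial] at hs
      by_cases h0 : c s • (1 : K) = 0
      · rw [h0] at hs
        simp at hs
      · rw [vars_monomial h0] at hs
        exact HFlow_expo_support J D s hs
    have h0 := hJ _ hc hv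
    funext s
    have h1 := congrArg (coeff (HFlow_expo J D s)) h0
    rw [coeff_sum, Finset.sum_eq_single s] at h1
    · simpa using h1
    · intro b _ hb
      rw [smul_monomial, coeff_monomial, if_neg]
      exact fun h => hb (HFlow_expo_inj J D h)
    · intro h
      exact absurd (Finset.mem_univ s) h

end Pool.Agent.Work.MP_91e6de_nt.DMR

end

section

set_option autoImplicit false

namespace Pool.Agent.Work.MP_91e6de_nt.DMR

open MvPolynomial

theorem HsAlg_superset {σ A S : Type} [Fintype σ] [CommRing A] [CommRing S] [Algebra A S]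
    (u : σ → S) (w : S) (e : ℕ) (p : MvPolynomial σ A) (T : Finset (σ →₀ ℕ))
    (hT : p.support ⊆ T) :
    hsub e p u w =
      ∑ m ∈ T, algebraMap A S (p.coeff m) * ((∏ i, u i ^ m i) * w ^ (e - ∑ i, m i)) := by
  unfold hsub
  refine Finset.sum_subset hT ?_
  intro m _ hm
  rw [MvPolynomial.notMem_support_iff.mp hm, map_zero, zero_mul]

theorem HsAlg_add {σ A S : Type} [Fintype σ] [CommRing A] [CommRing S] [Algebra A S]
    (u : σ → S) (w : S) (e : ℕ) (p p' : MvPolynomial σ A) :
    hsub e (p + p') u w = hsub e p u w + hsub e p' u w := by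
  classical
  rw [HsAlg_superset u w e (p + p') (p.support ∪ p'.support) MvPolynomial.support_add,
    HsAlg_superset u w e p (p.support ∪ p'.support) Finset.subset_union_left,
    HsAlg_superset u w e p' (p.support ∪ p'.support) Finset.subset_union_right,
    ← Finset.sum_add_distrib]
  refine Finset.sum_congr rfl fun m _ => ?_
  rw [coeff_add, map_add, add_mul]

theorem HsAlg_sum {σ A S ι : Type} [Fintype σ] [CommRing A] [CommRing S] [Algebra A S]
    (u : σ → S) (w : S) (e : ℕ) (s : Finset ι) (f : ι → MvPolynomial σ A) :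
    hsub e (∑ i ∈ s, f i) u w = ∑ i ∈ s, hsub e (f i) u w := by
  classical
  induction s using Finset.induction_on with
  | empty => simp [hsub]
  | insert a s ha ih => rw [Finset.sum_insert ha, Finset.sum_insert ha, HsAlg_add, ih]

theorem HsAlg_monomial {σ A S : Type} [Fintype σ] [CommRing A] [CommRing S] [Algebra A S]
    (u : σ → S) (w : S) (e : ℕ) (m : σ →₀ ℕ) (c : A) :
    hsub e (monomial m c) u w =
      algebraMap A S c * ((∏ i, u i ^ m i) * w ^ (e - ∑ i, m i)) := by
  classical
  rw [HsAlg_superset u w e (monomial m c) {m} support_monomial_subset, Finset.sum_singleton,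
    coeff_monomial, if_pos rfl]

theorem HsAlg_le {σ A : Type} [Fintype σ] [CommRing A] {e : ℕ} {p : MvPolynomial σ A}
    (hp : p.totalDegree ≤ e) {m : σ →₀ ℕ} (hm : m ∈ p.support) : ∑ i, m i ≤ e := by
  have h := MvPolynomial.le_totalDegree hm
  rw [Finsupp.sum_fintype _ _ (fun _ => rfl)] at h
  exact h.trans hp

/-- algebra of `hsub` -/
theorem pr_HsAlg : S_HsAlg := by
  classical
  intro σ A S _ _ _ _ u w
  refine ⟨?_, fun e p p' => HsAlg_add u w e p p', ?_, ?_, ?_⟩
  · intro e k p hp
    unfold hsub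
    rw [Finset.mul_sum]
    refine Finset.sum_congr rfl fun m hm => ?_
    have h := HsAlg_le hp hm
    have h2 : e + k - ∑ i, m i = k + (e - ∑ i, m i) := by omega
    rw [h2, pow_add]
    ring
  · intro e e' p p' hp hp'
    have h1 : p * p' = ∑ x ∈ p.support ×ˢ p'.support,
        monomial (x.1 + x.2) (p.coeff x.1 * p'.coeff x.2) := by
      conv_lhs => rw [p.as_sum, p'.as_sum]
      rw [Finset.sum_mul_sum, Finset.sum_product]
      refine Finset.sum_congr rfl fun m _ => Finset.sum_congr rfl fun m' _ => ?_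
      rw [monomial_mul]
    rw [h1, HsAlg_sum]
    unfold hsub
    rw [Finset.sum_mul_sum, Finset.sum_product]
    refine Finset.sum_congr rfl fun m hm => Finset.sum_congr rfl fun m' hm' => ?_
    have h := HsAlg_le hp hm
    have h' := HsAlg_le hp' hm'
    have h3 := HsAlg_monomial u w (e + e') (m + m') (p.coeff m * p'.coeff m')
    unfold hsub at h3
    simp only at h3 ⊢
    rw [h3, map_mul]
    have h4 : ∑ i, (m + m') i = ∑ i, m i + ∑ i, m' i := by
      rw [← Finset.sum_add_distrib]
      rfl
    have h5 : ∏ i, u i ^ (m + m') i = (∏ i, u i ^ m i) * ∏ i, u i ^ m' i := by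
      rw [← Finset.prod_mul_distrib]
      refine Finset.prod_congr rfl fun i _ => ?_
      rw [Finsupp.add_apply, pow_add]
    have h6 : e + e' - ∑ i, (m + m') i = (e - ∑ i, m i) + (e' - ∑ i, m' i) := by
      rw [h4]
      omega
    rw [h5, h6, pow_add]
    ring
  · intro e a
    have h := HsAlg_monomial u w e 0 a
    rw [show (C a : MvPolynomial σ A) = monomial 0 a from rfl, h]
    simp
  · intro e i
    have h := HsAlg_monomial u w (e + 1) (Finsupp.single i 1) (1 : A)
    rw [show (X i : MvPolynomial σ A) = monomial (Finsupp.single i 1) 1 from rfl, h]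
    have h1 : ∑ j, (Finsupp.single i 1 : σ →₀ ℕ) j = 1 := by
      rw [Finset.sum_eq_single i]
      · simp
      · intro j _ hj
        simp [Finsupp.single_apply, hj.symm]
      · simp
    have h2 : ∏ j, u j ^ (Finsupp.single i 1 : σ →₀ ℕ) j = u i := by
      rw [Finset.prod_eq_single i]
      · simp
      · intro j _ hj
        simp [Finsupp.single_apply, hj.symm]
      · simp
    rw [h1, h2]
    simp

end Pool.Agent.Work.MP_91e6de_nt.DMR

end

section

set_option autoImplicit false

/-!
# Degree of `hsub`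
-/

namespace Pool.Agent.Work.MP_91e6de_nt.DMR

open MvPolynomial

theorem HsDeg_le {σ A : Type} [Fintype σ] [CommRing A] {e : ℕ} {p : MvPolynomial σ A}
    (hp : p.totalDegree ≤ e) {m : σ →₀ ℕ} (hm : m ∈ p.support) : ∑ i, m i ≤ e := by
  have h := (le_totalDegree hm).trans hp
  rwa [Finsupp.sum_fintype _ _ (fun _ => rfl)] at h

theorem pr_HsDeg : S_HsDeg := by
  intro σ A _ _ e r p U W hp hU hW
  refine (totalDegree_finsetSum _ _).trans (Finset.sup_le fun m hm => ?_)
  have hle := HsDeg_le hp hm
  refine (totalDegree_mul _ _).trans ?_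
  have h0 : (algebraMap A (MvPolynomial σ A) (p.coeff m)).totalDegree = 0 := totalDegree_C _
  rw [h0, zero_add]
  refine (totalDegree_mul _ _).trans ?_
  have h1 : (∏ i, U i ^ m i).totalDegree ≤ (∑ i, m i) * r := by
    refine (totalDegree_finsetProd _ _).trans ?_
    rw [Finset.sum_mul]
    exact Finset.sum_le_sum fun i _ =>
      (totalDegree_pow _ _).trans (Nat.mul_le_mul_left _ (hU i))
  have h2 : (W ^ (e - ∑ i, m i)).totalDegree ≤ (e - ∑ i, m i) * r :=
    (totalDegree_pow _ _).trans (Nat.mul_le_mul_left _ hW)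
  calc _ ≤ (∑ i, m i) * r + (e - ∑ i, m i) * r := add_le_add h1 h2
    _ = (∑ i, m i + (e - ∑ i, m i)) * r := by ring
    _ = e * r := by rw [Nat.add_sub_cancel' hle]

end Pool.Agent.Work.MP_91e6de_nt.DMR

end

section

set_option autoImplicit false

namespace Pool.Agent.Work.MP_91e6de_nt.DMR

open MvPolynomial

theorem IndG_aux {σ K : Type} [Field K] (j : σ) (D : ℕ) (U W : MvPolynomial σ K)
    (hW : W ≠ 0) (hrel : IsRelPrime U W) (hD : D ≤ W.degreeOf j) :
    ∀ (g : ℕ) (Q : ℕ → MvPolynomial σ K), (∀ l, (Q l).degreeOf j < D) →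
    ∑ l ∈ Finset.range (g + 1), Q l * U ^ l * W ^ (g - l) = 0 → ∀ l ≤ g, Q l = 0 := by
  intro g
  induction g with
  | zero =>
    intro Q _ h l hl
    obtain rfl : l = 0 := by omega
    simpa using h
  | succ g ih =>
    intro Q hQ h
    rw [Finset.sum_range_succ] at h
    have h1 : ∑ l ∈ Finset.range (g + 1), Q l * U ^ l * W ^ (g + 1 - l) =
        W * ∑ l ∈ Finset.range (g + 1), Q l * U ^ l * W ^ (g - l) := by
      rw [Finset.mul_sum]
      refine Finset.sum_congr rfl fun l hl => ?_
      have hl' : l ≤ g := by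
        have := Finset.mem_range.mp hl
        omega
      rw [show g + 1 - l = (g - l) + 1 from by omega, pow_succ]
      ring
    have h2 : Q (g + 1) = 0 := by
      by_contra hne
      have h3 : W ∣ Q (g + 1) * U ^ (g + 1) := by
        rw [h1] at h
        simp only [Nat.sub_self, pow_zero, mul_one] at h
        rw [eq_neg_of_add_eq_zero_right h]
        exact (dvd_mul_right W _).neg_right
      have h4 : W ∣ Q (g + 1) := (hrel.symm.pow_right).dvd_of_dvd_mul_right h3
      obtain ⟨c, hc⟩ := h4
      have hc0 : c ≠ 0 := by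
        rintro rfl
        exact hne (by rw [hc, mul_zero])
      have h5 := hQ (g + 1)
      rw [hc, degreeOf_mul_eq hW hc0] at h5
      omega
    have h6 : ∑ l ∈ Finset.range (g + 1), Q l * U ^ l * W ^ (g - l) = 0 := by
      rw [h2, h1] at h
      simp only [zero_mul, add_zero] at h
      exact (mul_eq_zero.mp h).resolve_left hW
    intro l hl
    rcases Nat.lt_or_ge l (g + 1) with h7 | h7
    · exact ih Q hQ h6 l (by omega)
    · obtain rfl : l = g + 1 := by omega
      exact h2

theorem pr_IndG : S_IndG := by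
  intro σ K _ j D g U W hW hRD Q hQ hsum
  obtain ⟨U', W', c, hrel, hU, hWc⟩ := UniqueFactorizationMonoid.exists_reduced_factors' U W hW
  have hc : c ≠ 0 := by
    rintro rfl
    exact hW (by rw [← hWc, zero_mul])
  have hW' : W' ≠ 0 := by
    rintro rfl
    exact hW (by rw [← hWc, mul_zero])
  have hsum' : ∑ l ∈ Finset.range (g + 1), Q l * U' ^ l * W' ^ (g - l) = 0 := by
    have h1 : c ^ g * ∑ l ∈ Finset.range (g + 1), Q l * U' ^ l * W' ^ (g - l) = 0 := by
      rw [← hsum, Finset.mul_sum]
      refine Finset.sum_congr rfl fun l hl => ?_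
      have hl' : l ≤ g := by
        have := Finset.mem_range.mp hl
        omega
      rw [← hU, ← hWc, mul_pow, mul_pow]
      have : c ^ g = c ^ l * c ^ (g - l) := by rw [← pow_add]; congr 1; omega
      rw [this]
      ring
    exact (mul_eq_zero.mp h1).resolve_left (pow_ne_zero g hc)
  by_cases hdeg : D ≤ W'.degreeOf j
  · exact IndG_aux j D U' W' hW' hrel hdeg g Q hQ hsum'
  · have hdegU : D ≤ U'.degreeOf j := by
      by_contra hlt
      have := hRD U' W' (by omega) (by omega) (by rw [← hU, ← hWc]; ring)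
      exact hW' this.2
    have hU' : U' ≠ 0 := by
      rintro rfl
      have h0 := hQ 0
      simp only [degreeOf_zero] at hdegU
      omega
    have hsum2 : ∑ l ∈ Finset.range (g + 1), Q (g - l) * W' ^ l * U' ^ (g - l) = 0 := by
      rw [← hsum', ← Finset.sum_range_reflect]
      refine Finset.sum_congr rfl fun l hl => ?_
      have hl' : l ≤ g := by
        have := Finset.mem_range.mp hl
        omega
      rw [show g + 1 - 1 - l = g - l from by omega, show g - (g - l) = l from by omega]
      ring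
    have h3 := IndG_aux j D W' U' hU' hrel.symm hdegU g (fun l => Q (g - l))
      (fun l => hQ (g - l)) hsum2
    intro l hl
    have h4 := h3 (g - l) (by omega)
    simpa [show g - (g - l) = l from by omega] using h4

end Pool.Agent.Work.MP_91e6de_nt.DMR

end

section

set_option autoImplicit false

/-!
# Item IteG: iterates along an orbit
-/

namespace Pool.Agent.Work.MP_91e6de_nt.DMR

open MvPolynomial

theorem pr_IteG : S_IteG := by
  intro σ A K _ _ _ _ e p q hp hq M P hP n k
  induction k with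
  | zero =>
    intro _
    refine ⟨?_, fun i => ?_, ?_⟩
    · simp [itr]
    · simp [itr]
    · simp [itr]
  | succ k ih =>
    intro hk
    obtain ⟨h1, h2, h3⟩ := ih (by omega)
    obtain ⟨h4, h5⟩ := hP (n + k) (by omega)
    have e1 : (fun i => aeval (P n) ((itr e p q k).1 i) / aeval (P n) (itr e p q k).2) =
        P (n + k) := by
      funext i
      rw [h2 i]
      field_simp
    have key : ∀ r : MvPolynomial σ A, r.totalDegree ≤ e →
        aeval (P n) (hsub e r (itr e p q k).1 (itr e p q k).2) =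
        aeval (P n) (itr e p q k).2 ^ e * aeval (P (n + k)) r := by
      intro r hr
      rw [map_hsub (aeval (P n)) e r, hsub_eval e r hr _ _ h1, e1]
    have kp : ∀ i, aeval (P n) ((itr e p q (k + 1)).1 i) =
        aeval (P n) (itr e p q k).2 ^ e * aeval (P (n + k)) (p i) := fun i => key (p i) (hp i)
    have kq : aeval (P n) (itr e p q (k + 1)).2 =
        aeval (P n) (itr e p q k).2 ^ e * aeval (P (n + k)) q := key q hq
    refine ⟨?_, fun i => ?_, ?_⟩
    · rw [kq]
      exact mul_ne_zero (pow_ne_zero _ h1) h4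
    · rw [kp, kq, ← h5 i]
      have h6 : n + (k + 1) = n + k + 1 := rfl
      rw [h6]
      ring
    · rw [kq, Finset.prod_range_succ]
      have h7 : k + 1 - 1 - k = 0 := by omega
      rw [h7, pow_zero, pow_one, h3, ← Finset.prod_pow]
      congr 1
      refine Finset.prod_congr rfl fun l hl => ?_
      rw [Finset.mem_range] at hl
      rw [← pow_mul, ← pow_succ]
      congr 2
      omega

end Pool.Agent.Work.MP_91e6de_nt.DMR

end

section

set_option autoImplicit false

/-!
# Item Krull: Krull's principal ideal theorem for `Dim`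
-/

namespace Pool.Agent.Work.MP_91e6de_nt.DMR

open MvPolynomial

private lemma Krull_core {K R : Type} [Field K] [CommRing R] [IsDomain R] [Algebra K R]
    [IsNoetherianRing R] (s : ℕ) (g : MvPolynomial (Fin s) K →ₐ[K] R)
    (hg : Function.Injective g) (hint : g.toRingHom.IsIntegral) (G : R) (hG : G ≠ 0)
    (Q : Ideal R) (hQ : Q ∈ (Ideal.span {G}).minimalPrimes) :
    ∃ i : Fin s, AlgebraicIndependent K
      (fun j : {j : Fin s // j ≠ i} => Ideal.Quotient.mk Q (g (X (j : Fin s)))) := by
  classical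
  let : Algebra (MvPolynomial (Fin s) K) R := g.toRingHom.toAlgebra
  have hinj : Function.Injective (algebraMap (MvPolynomial (Fin s) K) R) := hg
  have : Algebra.IsIntegral (MvPolynomial (Fin s) K) R := ⟨hint⟩
  have : FaithfulSMul (MvPolynomial (Fin s) K) R :=
    (faithfulSMul_iff_algebraMap_injective _ _).mpr hinj
  have hQp : Q.IsPrime := hQ.1.1
  have hGQ : G ∈ Q := hQ.1.2 (Ideal.subset_span rfl)
  have hht : Q.height ≤ 1 :=
    Ideal.height_le_one_of_isPrincipal_of_mem_minimalPrimes (Ideal.span {G}) Q hQ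
  have hPne : Q.under (MvPolynomial (Fin s) K) ≠ ⊥ :=
    Ideal.comap_ne_bot_of_integral_mem hG hGQ (Algebra.IsIntegral.isIntegral G)
  have hPp : (Q.under (MvPolynomial (Fin s) K)).IsPrime := inferInstance
  obtain ⟨f, hfP, hfp⟩ := Ideal.IsPrime.exists_mem_prime_of_ne_bot hPp hPne
  have hspan : Ideal.span {f} = Q.under (MvPolynomial (Fin s) K) := by
    by_contra hne
    have hlt : Ideal.span {f} < Q.under (MvPolynomial (Fin s) K) :=
      lt_of_le_of_ne ((Ideal.span_singleton_le_iff_mem _).mpr hfP) hne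
    have : (Ideal.span {f}).IsPrime := (Ideal.span_singleton_prime hfp.ne_zero).mpr hfp
    obtain ⟨P1, hP1lt, hP1p, hP1o⟩ := Ideal.exists_ideal_lt_liesOver_of_lt Q hlt
    have hP1ne : P1 ≠ ⊥ := by
      rintro rfl
      have h1 := hP1o.over
      have h2 : f ∈ Ideal.span {f} := Ideal.subset_span rfl
      rw [h1, Ideal.under_def, Ideal.mem_comap, Ideal.mem_bot] at h2
      exact hfp.ne_zero (hinj (by rw [h2, map_zero]))
    have h1 : (⊥ : Ideal R).height + 1 ≤ P1.height :=
      Ideal.height_add_one_le_of_lt_of_isPrime (bot_lt_iff_ne_bot.mpr hP1ne)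
    have h2 : P1.height + 1 ≤ Q.height := Ideal.height_add_one_le_of_lt_of_isPrime hP1lt
    rw [Ideal.height_bot, zero_add] at h1
    have h3 : (1 : ℕ∞) + 1 ≤ 1 := (add_le_add_left h1 1).trans (h2.trans hht)
    exact absurd h3 (by decide)
  obtain ⟨i, hi⟩ : ∃ i, i ∈ f.vars := by
    by_contra hcon
    push Not at hcon
    have h1 : f.vars = ∅ := Finset.eq_empty_of_forall_notMem hcon
    rw [vars_eq_empty_iff_eq_C] at h1
    apply hfp.not_isUnit
    rw [h1]
    apply IsUnit.map
    rw [isUnit_iff_ne_zero]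
    intro h2
    apply hfp.ne_zero
    rw [h1, h2, C_0]
  refine ⟨i, ?_⟩
  rw [algebraicIndependent_iff]
  intro F hF
  by_contra hF0
  have h1 : (aeval (fun j : {j : Fin s // j ≠ i} => Ideal.Quotient.mk Q (g (X (j : Fin s))))) F =
      Ideal.Quotient.mk Q (g (rename Subtype.val F)) := by
    have h2 : (aeval (fun j : {j : Fin s // j ≠ i} =>
        Ideal.Quotient.mk Q (g (X (j : Fin s)))) : MvPolynomial {j : Fin s // j ≠ i} K →ₐ[K] R ⧸ Q) =
        ((Ideal.Quotient.mkₐ K Q).comp g).comp (rename Subtype.val) := by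
      ext j
      simp
    rw [h2]
    rfl
  rw [h1, Ideal.Quotient.eq_zero_iff_mem] at hF
  have h2 : rename Subtype.val F ∈ Ideal.span {f} := by
    rw [hspan]
    exact hF
  rw [Ideal.mem_span_singleton] at h2
  obtain ⟨h, hh⟩ := h2
  have h3 : rename (Subtype.val : {j : Fin s // j ≠ i} → Fin s) F ≠ 0 := by
    intro h4
    apply hF0
    exact rename_injective _ Subtype.val_injective (by rw [h4, map_zero])
  have h4 : h ≠ 0 := by
    rintro rfl
    exact h3 (by rw [hh, mul_zero])
  have h5 : degreeOf i (rename (Subtype.val : {j : Fin s // j ≠ i} → Fin s) F) = 0 := by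
    rw [← Nat.le_zero, degreeOf_le_iff]
    intro m hm
    rw [support_rename_of_injective Subtype.val_injective, Finset.mem_image] at hm
    obtain ⟨m', -, rfl⟩ := hm
    rw [Finsupp.mapDomain_of_notMem_range]
    rintro ⟨j, hj⟩
    exact j.2 hj
  rw [hh, degreeOf_mul_eq hfp.ne_zero h4] at h5
  have h6 : 0 < degreeOf i f := by
    rw [Nat.pos_iff_ne_zero]
    intro h7
    rw [← Nat.le_zero, degreeOf_le_iff] at h7
    rw [mem_vars_iff_mem_support] at hi
    obtain ⟨m, hm, hmi⟩ := hi
    exact (Finsupp.mem_support_iff.mp hmi) (Nat.le_zero.mp (h7 m hm))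
  omega

theorem pr_Krull (h1 : S_DimTr) (h2 : S_DimLt) : S_Krull := by
  classical
  intro σ K _ _ I Q G d hI hdim hG hQ
  have hI' : I.IsPrime := hI
  have hQp : Q.IsPrime := hQ.1.1
  have hIQ : I ≤ Q := le_sup_left.trans hQ.1.2
  have hGQ : G ∈ Q := hQ.1.2 (Ideal.mem_sup_right (Ideal.subset_span rfl))
  have hlt : I < Q := lt_of_le_of_ne hIQ (fun h => hG (h ▸ hGQ))
  have htr := ((h1 σ K I hI).2 (d + 1)).mp hdim
  have : IsDomain (MvPolynomial σ K ⧸ I) := Ideal.Quotient.isDomain I
  obtain ⟨s, g, hg, hint⟩ := exists_integral_inj_algHom_of_fg K (MvPolynomial σ K ⧸ I)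
  have hs : Algebra.trdeg K (MvPolynomial σ K ⧸ I) = s := by
    let : Algebra (MvPolynomial (Fin s) K) (MvPolynomial σ K ⧸ I) := g.toRingHom.toAlgebra
    have : IsScalarTower K (MvPolynomial (Fin s) K) (MvPolynomial σ K ⧸ I) :=
      IsScalarTower.of_algebraMap_eq' (by
        ext x
        exact (g.commutes x).symm)
    have hinj : Function.Injective
        (algebraMap (MvPolynomial (Fin s) K) (MvPolynomial σ K ⧸ I)) := hg
    have : Algebra.IsIntegral (MvPolynomial (Fin s) K) (MvPolynomial σ K ⧸ I) := ⟨hint⟩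
    have : FaithfulSMul (MvPolynomial (Fin s) K) (MvPolynomial σ K ⧸ I) :=
      (faithfulSMul_iff_algebraMap_injective _ _).mpr hinj
    have h3 := _root_.trdeg_add_eq K (MvPolynomial (Fin s) K) (A := MvPolynomial σ K ⧸ I)
    have h4 : Algebra.trdeg (MvPolynomial (Fin s) K) (MvPolynomial σ K ⧸ I) = 0 :=
      _root_.trdeg_eq_zero
    rw [← h3, h4, add_zero, MvPolynomial.trdeg_of_isDomain]
    simp
  have hsd : s = d + 1 := by
    rw [hs] at htr
    exact_mod_cast htr
  set Q' : Ideal (MvPolynomial σ K ⧸ I) := Q.map (Ideal.Quotient.mkₐ K I) with hQ'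
  have hmin : Q' ∈ (Ideal.span {Ideal.Quotient.mk I G}).minimalPrimes := by
    have h3 : (Ideal.span {G}).map (Ideal.Quotient.mk I) = Ideal.span {Ideal.Quotient.mk I G} := by
      rw [Ideal.map_span, Set.image_singleton]
    rw [← h3, Ideal.minimalPrimes_map_of_surjective Ideal.Quotient.mk_surjective, Ideal.mk_ker,
      sup_comm]
    exact ⟨Q, hQ, rfl⟩
  have hG0 : Ideal.Quotient.mk I G ≠ 0 := by
    rw [Ne, Ideal.Quotient.eq_zero_iff_mem]
    exact hG
  obtain ⟨i, hind⟩ := Krull_core s g hg hint _ hG0 Q' hmin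
  have hle := hind.cardinalMk_le_trdeg
  have heq : Algebra.trdeg K ((MvPolynomial σ K ⧸ I) ⧸ Q') =
      Algebra.trdeg K (MvPolynomial σ K ⧸ Q) :=
    (DoubleQuot.quotQuotEquivQuotOfLEₐ K hIQ).trdeg_eq
  rw [heq] at hle
  obtain ⟨e, he⟩ := exists_Dim Q hQp.ne_top
  have he1 := h2 σ K I Q (d + 1) e hI hQp hlt hdim he
  have he2 := ((h1 σ K Q hQp).2 e).mp he
  rw [he2] at hle
  have hcard : Fintype.card {j : Fin s // j ≠ i} = s - 1 := by
    simp [Fintype.card_subtype_compl]
  rw [Cardinal.mk_fintype, hcard] at hle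
  have hle' : s - 1 ≤ e := by exact_mod_cast hle
  have hed : e = d := by omega
  rw [← hed]
  exact he

end Pool.Agent.Work.MP_91e6de_nt.DMR

end

section

set_option autoImplicit false

/-!
# Item Lev0: dimension zero
-/

namespace Pool.Agent.Work.MP_91e6de_nt.DMR

open MvPolynomial

theorem Lev0_coord {σ K : Type} [Fintype σ] [Field K] (I : Ideal (MvPolynomial σ K))
    (P : σ → K) (hI : I.IsPrime) (hd : Dim I 0) (hP : On I P) (i : σ) :
    (X i - C (P i) : MvPolynomial σ K) ∈ I := by
  classical
  have h1 : ¬ Ind I {i} := by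
    intro h
    have := hd.2 {i} h
    simp at this
  unfold Ind at h1
  push Not at h1
  obtain ⟨F, hF, hv, hF0⟩ := h1
  -- `F` is a polynomial in `X i`
  have h2 : ∃ f : Polynomial K, F = Polynomial.aeval (X i : MvPolynomial σ K) f := by
    have h3 : F ∈ MvPolynomial.supported K (({i} : Finset σ) : Set σ) := by
      rw [MvPolynomial.mem_supported]
      exact_mod_cast hv
    rw [Finset.coe_singleton, MvPolynomial.supported_eq_adjoin_X, Set.image_singleton,
      Algebra.adjoin_singleton_eq_range_aeval] at h3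
    obtain ⟨f, hf⟩ := h3
    exact ⟨f, hf.symm⟩
  obtain ⟨f, rfl⟩ := h2
  have hf0 : f ≠ 0 := by
    rintro rfl
    exact hF0 (by simp)
  obtain ⟨g, hg, hgd⟩ := Polynomial.exists_eq_pow_rootMultiplicity_mul_and_not_dvd f hf0 (P i)
  have hgi : g.eval (P i) ≠ 0 := by
    intro h
    exact hgd (Polynomial.dvd_iff_isRoot.mpr h)
  have h4 : Polynomial.aeval (X i : MvPolynomial σ K) f =
      (X i - C (P i)) ^ (f.rootMultiplicity (P i)) *
        Polynomial.aeval (X i : MvPolynomial σ K) g := by
    conv_lhs => rw [hg]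
    rw [map_mul, map_pow, map_sub, Polynomial.aeval_X, Polynomial.aeval_C]
    rfl
  rw [h4] at hF
  have h5 : Polynomial.aeval (X i : MvPolynomial σ K) g ∉ I := by
    intro h
    have h6 := hP _ h
    apply hgi
    have h7 : aeval P (Polynomial.aeval (X i : MvPolynomial σ K) g) = g.eval (P i) := by
      rw [← Polynomial.aeval_algHom_apply, aeval_X, Polynomial.coe_aeval_eq_eval]
    rw [← h7, h6]
  exact hI.mem_of_pow_mem _ ((hI.mem_or_mem hF).resolve_right h5)

theorem pr_Lev0 : S_Lev0 := by
  intro σ K _ _ I P P' hI hd hP hP'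
  funext i
  have h1 := hP' _ (Lev0_coord I P hI hd hP i)
  rw [map_sub, aeval_X, aeval_C, sub_eq_zero] at h1
  exact h1.symm

end Pool.Agent.Work.MP_91e6de_nt.DMR

end
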