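import Mathlib
import Pool.Agent.Work.MP_91e6de_nt.DMR.Stmts
import Pool.Agent.Work.MP_91e6de_nt.DM.StmtsB
import Pool.Agent.Work.MP_91e6de_nt.Bd.B03
import Pool.Agent.Work.MP_91e6de_nt.Bd.B02
import Pool.Agent.Work.MP_91e6de_nt.DM.I_Bez
import Pool.Agent.Work.MP_91e6de_nt.Bd.B07
import Pool.Agent.Work.MP_91e6de_nt.DMR.StmtsP
import Pool.Agent.Work.MP_91e6de_nt.DMR.BasicP

/-! Bundle of small proof modules (one section per former module). -/

section

/-!
# MapG: iterates and injective homomorphisms of coefficients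
-/

set_option autoImplicit false

namespace Pool.Agent.Work.MP_91e6de_nt.DMR

open MvPolynomial NumberField IsDedekindDomain

theorem MapG_hsub {σ A B : Type} [Fintype σ] [CommRing A] [CommRing B] (φ : A →+* B)
    (hφ : Function.Injective φ) (e : ℕ) (p : MvPolynomial σ A) (u : σ → MvPolynomial σ A)
    (w : MvPolynomial σ A) :
    map φ (hsub e p u w) = hsub e (map φ p) (fun i => map φ (u i)) (map φ w) := by
  unfold hsub
  rw [map_sum, support_map_of_injective _ hφ]
  refine Finset.sum_congr rfl fun m _ => ?_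
  rw [map_mul, map_mul, map_pow, map_prod, coeff_map, algebraMap_eq, algebraMap_eq, map_C]
  simp only [map_pow]

theorem pr_MapG : S_MapG := by
  intro σ A B _ _ _ φ hφ e p q k
  induction k with
  | zero =>
    refine ⟨fun i => ?_, ?_⟩
    · simp [itr]
    · simp [itr]
  | succ k ih =>
    obtain ⟨ih1, ih2⟩ := ih
    have h1 : (fun i => map φ ((itr e p q k).1 i)) =
        (itr e (fun i => map φ (p i)) (map φ q) k).1 := funext ih1
    refine ⟨fun i => ?_, ?_⟩
    · show map φ (hsub e (p i) (itr e p q k).1 (itr e p q k).2) =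
        hsub e (map φ (p i)) (itr e (fun i => map φ (p i)) (map φ q) k).1
          (itr e (fun i => map φ (p i)) (map φ q) k).2
      rw [MapG_hsub φ hφ, h1, ih2]
    · show map φ (hsub e q (itr e p q k).1 (itr e p q k).2) =
        hsub e (map φ q) (itr e (fun i => map φ (p i)) (map φ q) k).1
          (itr e (fun i => map φ (p i)) (map φ q) k).2
      rw [MapG_hsub φ hφ, h1, ih2]

end Pool.Agent.Work.MP_91e6de_nt.DMR

end

section

set_option autoImplicit false

/-!
# Item Num: the number of components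
-/

namespace Pool.Agent.Work.MP_91e6de_nt.DMR

open MvPolynomial

theorem Num_sep {R : Type} [CommRing R] (Z : Finset (Ideal R))
    (hp : ∀ Q ∈ Z, Q.IsPrime) (hinc : ∀ Q ∈ Z, ∀ Q' ∈ Z, Q' ≠ Q → ¬ Q' ≤ Q) :
    ∀ Q ∈ Z, ∃ f : R, f ∉ Q ∧ ∀ Q' ∈ Z, Q' ≠ Q → f ∈ Q' := by
  classical
  intro Q hQ
  have h1 : ∀ Q' : Ideal R, ∃ g : R, (Q' ∈ Z ∧ Q' ≠ Q) → (g ∈ Q' ∧ g ∉ Q) := by
    intro Q'
    by_cases h : Q' ∈ Z ∧ Q' ≠ Q
    · obtain ⟨g, hg1, hg2⟩ := SetLike.not_le_iff_exists.mp (hinc Q hQ Q' h.1 h.2)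
      exact ⟨g, fun _ => ⟨hg1, hg2⟩⟩
    · exact ⟨0, fun h' => absurd h' h⟩
  choose g hg using h1
  refine ⟨∏ Q' ∈ Z.erase Q, g Q', ?_, ?_⟩
  · intro hm
    have := hp Q hQ
    rw [Ideal.IsPrime.prod_mem_iff] at hm
    obtain ⟨Q', hQ', hm'⟩ := hm
    rw [Finset.mem_erase] at hQ'
    exact (hg Q' ⟨hQ'.2, hQ'.1⟩).2 hm'
  · intro Q' hQ' hne
    exact Ideal.mem_of_dvd _ (Finset.dvd_prod_of_mem g (Finset.mem_erase.mpr ⟨hne, hQ'⟩))
      (hg Q' ⟨hQ', hne⟩).1

theorem Num_lim (c N Δ d : ℕ) (h : ∀ D : ℕ, 1 ≤ D → N * D ^ d ≤ c * (D + Δ) ^ d) : N ≤ c := by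
  have h1 : Filter.Tendsto (fun D : ℕ => (c : ℝ) * (1 + (Δ : ℝ) / (D : ℝ)) ^ d) Filter.atTop
      (nhds ((c : ℝ) * (1 + 0) ^ d)) :=
    ((tendsto_const_nhds.add (tendsto_const_div_atTop_nhds_zero_nat (Δ : ℝ))).pow d).const_mul _
  have h2 : (N : ℝ) ≤ (c : ℝ) * (1 + 0) ^ d := by
    refine ge_of_tendsto h1 ?_
    filter_upwards [Filter.eventually_ge_atTop 1] with D hD
    have hD0 : (0 : ℝ) < (D : ℝ) := by exact_mod_cast hD
    have h3 : (N : ℝ) * (D : ℝ) ^ d ≤ (c : ℝ) * ((D : ℝ) + (Δ : ℝ)) ^ d := by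
      exact_mod_cast h D hD
    have h4 : (1 + (Δ : ℝ) / (D : ℝ)) = ((D : ℝ) + (Δ : ℝ)) / (D : ℝ) := by
      field_simp
    rw [h4, div_pow, ← mul_div_assoc, le_div_iff₀ (pow_pos hD0 d)]
    exact h3
  rw [add_zero, one_pow, mul_one] at h2
  exact_mod_cast h2

theorem Num_step {σ K : Type} [Fintype σ] [Field K] (I : Ideal (MvPolynomial σ K))
    (Z : Finset (Ideal (MvPolynomial σ K))) (f : Z → MvPolynomial σ K) (Δ : ℕ)
    (hI : ∀ Q ∈ Z, I ≤ Q) (hp : ∀ Q ∈ Z, Q.IsPrime)
    (hf1 : ∀ Q : Z, f Q ∉ Q.1) (hf2 : ∀ Q Q' : Z, Q' ≠ Q → f Q ∈ Q'.1)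
    (hΔ : ∀ Q : Z, (f Q).totalDegree ≤ Δ) (D : ℕ) :
    ∑ Q : Z, HF Q.1 D ≤ HF I (D + Δ) := by
  classical
  choose b hb1 hb2 _ using fun Q : Z => exists_basis Q.1 D
  have h := card_le_HF I (D + Δ) (ι := Σ Q : Z, Fin (HF Q.1 D))
    (fun x => f x.1 * b x.1 x.2) (fun x => by
      refine (totalDegree_mul _ _).trans ?_
      have := hΔ x.1
      have := hb1 x.1 x.2
      omega) (fun c hc => by
      funext x
      obtain ⟨Q0, i0⟩ := x
      have h1 : ∑ x : (Σ Q : Z, Fin (HF Q.1 D)), c x • (f x.1 * b x.1 x.2) ∈ Q0.1 :=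
        hI Q0.1 Q0.2 hc
      rw [Fintype.sum_sigma, ← Finset.add_sum_erase _ _ (Finset.mem_univ Q0)] at h1
      have h2 : ∑ Q ∈ Finset.univ.erase Q0, ∑ i, c ⟨Q, i⟩ • (f Q * b Q i) ∈ Q0.1 := by
        refine Ideal.sum_mem _ fun Q hQ => Ideal.sum_mem _ fun i _ => ?_
        rw [MvPolynomial.smul_eq_C_mul]
        refine Ideal.mul_mem_left _ _ (Ideal.mul_mem_right _ _ ?_)
        exact hf2 Q Q0 (Ne.symm (Finset.ne_of_mem_erase hQ))
      have h3 : ∑ i, c ⟨Q0, i⟩ • (f Q0 * b Q0 i) ∈ Q0.1 :=
        (Ideal.add_mem_iff_left _ h2).mp h1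
      have h4 : f Q0 * ∑ i, c ⟨Q0, i⟩ • b Q0 i ∈ Q0.1 := by
        rw [Finset.mul_sum]
        simpa only [mul_smul_comm] using h3
      have h5 := ((hp Q0.1 Q0.2).mem_or_mem h4).resolve_left (hf1 Q0)
      have h6 := hb2 Q0 (fun i => c ⟨Q0, i⟩) h5
      exact congrFun h6 i0)
  simpa using h

theorem Num_low {σ K : Type} [Fintype σ] [Field K] (h2 : S_HFlow)
    (Q : Ideal (MvPolynomial σ K)) (d D : ℕ) (hd : Dim Q d) :
    D ^ d ≤ d.factorial * HF Q D := by
  obtain ⟨⟨J, hJ, hi⟩, _⟩ := hd
  have h3 := h2 σ K Q J D hi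
  rw [hJ] at h3
  calc D ^ d ≤ (D + 1) ^ d := Nat.pow_le_pow_left (Nat.le_succ D) d
    _ ≤ (D + 1).ascFactorial d := Nat.pow_succ_le_ascFactorial (D + 1) d
    _ = d.factorial * (D + d).choose d := Nat.ascFactorial_eq_factorial_mul_choose D d
    _ ≤ d.factorial * HF Q D := Nat.mul_le_mul_left _ h3

theorem pr_Num (h1 : S_DimLt) (h2 : S_HFlow) : S_Num := by
  classical
  intro σ K _ _ I B d Z hHB hZ
  have hinc : ∀ Q ∈ Z, ∀ Q' ∈ Z, Q' ≠ Q → ¬ Q' ≤ Q := by
    intro Q hQ Q' hQ' hne hle
    exact absurd (h1 σ K Q' Q d d (hZ Q' hQ').1 (hZ Q hQ).1 (lt_of_le_of_ne hle hne)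
      (hZ Q' hQ').2.2 (hZ Q hQ).2.2) (lt_irrefl d)
  have hsep := Num_sep Z (fun Q hQ => (hZ Q hQ).1) hinc
  choose! f hf using hsep
  let f' : Z → MvPolynomial σ K := fun Q => f Q.1
  let Δ : ℕ := Finset.univ.sup fun Q : Z => (f' Q).totalDegree
  have hΔ : ∀ Q : Z, (f' Q).totalDegree ≤ Δ := fun Q =>
    Finset.le_sup (f := fun Q : Z => (f' Q).totalDegree) (Finset.mem_univ Q)
  refine Num_lim _ _ Δ d fun D hD => ?_
  have h3 := Num_step I Z f' Δ (fun Q hQ => (hZ Q hQ).2.1) (fun Q hQ => (hZ Q hQ).1)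
    (fun Q => (hf Q.1 Q.2).1)
    (fun Q Q' hne => (hf Q.1 Q.2).2 Q'.1 Q'.2 (fun h => hne (Subtype.ext h))) hΔ D
  have h4 : HF I (D + Δ) ≤ B * (D + Δ) ^ d := hHB (D + Δ) (by omega)
  have h5 : Z.card * D ^ d ≤ d.factorial * ∑ Q : Z, HF Q.1 D := by
    rw [Finset.mul_sum]
    calc Z.card * D ^ d = ∑ _Q : Z, D ^ d := by simp
      _ ≤ ∑ Q : Z, d.factorial * HF Q.1 D :=
        Finset.sum_le_sum fun Q _ => Num_low h2 Q.1 d D (hZ Q.1 Q.2).2.2
  calc Z.card * D ^ d ≤ d.factorial * ∑ Q : Z, HF Q.1 D := h5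
    _ ≤ d.factorial * (B * (D + Δ) ^ d) := Nat.mul_le_mul_left _ (h3.trans h4)
    _ = d.factorial * B * (D + Δ) ^ d := by ring

end Pool.Agent.Work.MP_91e6de_nt.DMR

end

section

set_option autoImplicit false

/-!
# Dimension and Hilbert function of the image (MP_91e6de, DMR, item PushDim)
-/

namespace Pool.Agent.Work.MP_91e6de_nt.DMR

open MvPolynomial

/-- the exponent of a multiset of `D` elements of `u` and one extra symbol -/
noncomputable def PushDim_expo {u : Type} [Fintype u] [DecidableEq u] (D : ℕ)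
    (s : Sym (Option u) D) : u →₀ ℕ :=
  Finsupp.equivFunOnFinite.symm fun y => Multiset.count (some y) (s : Multiset (Option u))

theorem PushDim_count {u : Type} [Fintype u] [DecidableEq u] (D : ℕ) (s : Sym (Option u) D) :
    Multiset.count none (s : Multiset (Option u)) +
      ∑ j : u, Multiset.count (some j) (s : Multiset (Option u)) = D := by
  have h1 : ∑ x : Option u, Multiset.count x (s : Multiset (Option u)) = D := by
    have h2 := Multiset.sum_count_eq_card (s := (Finset.univ : Finset (Option u)))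
      (m := (s : Multiset (Option u))) (fun a _ => Finset.mem_univ a)
    rw [h2]
    exact s.2
  rw [Fintype.sum_option] at h1
  exact h1

theorem PushDim_inj {u : Type} [Fintype u] [DecidableEq u] (D : ℕ) :
    Function.Injective (PushDim_expo (u := u) D) := by
  intro s s' h
  have h1 : ∀ j : u, Multiset.count (some j) (s : Multiset (Option u)) =
      Multiset.count (some j) (s' : Multiset (Option u)) := by
    intro j
    exact DFunLike.congr_fun h j
  apply Sym.coe_injective
  apply Multiset.ext.mpr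
  intro x
  cases x with
  | some j => exact h1 j
  | none =>
    have h2 := PushDim_count D s
    have h3 := PushDim_count D s'
    have h4 : ∑ j : u, Multiset.count (some j) (s : Multiset (Option u)) =
      ∑ j : u, Multiset.count (some j) (s' : Multiset (Option u)) :=
      Finset.sum_congr rfl fun j _ => h1 j
    omega

theorem PushDim_card {u : Type} [Fintype u] [DecidableEq u] (D : ℕ) :
    D ^ Fintype.card u ≤ (Fintype.card u).factorial * Fintype.card (Sym (Option u) D) := by
  have hcard : Fintype.card (Sym (Option u) D) =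
      (D + Fintype.card u).choose (Fintype.card u) := by
    rw [Sym.card_sym_eq_choose, Fintype.card_option]
    have h1 : Fintype.card u + 1 + D - 1 = D + Fintype.card u := by omega
    rw [h1, ← Nat.choose_symm_add]
  rw [hcard, ← Nat.descFactorial_eq_factorial_mul_choose]
  refine le_trans ?_ (Nat.pow_sub_le_descFactorial _ _)
  exact Nat.pow_le_pow_left (by omega) _

theorem PushDim_hsub_one {σ K : Type} [Fintype σ] [Field K] (p : σ → MvPolynomial σ K)
    (q : MvPolynomial σ K) : hsub 1 (1 : MvPolynomial σ K) p q = q := by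
  classical
  unfold hsub
  have h : (1 : MvPolynomial σ K).support = {0} := by
    rw [← C_1, C_apply]
    rw [support_monomial, if_neg one_ne_zero]
  rw [h]
  simp

/-- the independence count -/
theorem PushDim_main (h2 : S_HsDeg) {σ K L : Type} [Fintype σ] [Field K] [Field L] [Algebra K L]
    (p : σ → MvPolynomial σ K) (q : MvPolynomial σ K) (e B d : ℕ)
    (I J : Ideal (MvPolynomial σ K)) (hp : ∀ i, (p i).totalDegree ≤ e) (hq : q.totalDegree ≤ e)
    (hB : HB I B d) (π φ : MvPolynomial σ K →ₐ[K] L) (hπ : ∀ F, π F = 0 ↔ F ∈ I)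
    (hφ : ∀ F, φ F = 0 ↔ F ∈ J)
    (hπφ : ∀ (F : MvPolynomial σ K) (D : ℕ), F.totalDegree ≤ D →
      π (hsub D F p q) = π q ^ D * φ F)
    (hq0 : π q ≠ 0) {u : Type} [Fintype u] (g : u → σ)
    (hg : AlgebraicIndependent φ.range (fun y => π (X (g y)))) (D : ℕ) (hD : 1 ≤ D) :
    D ^ Fintype.card u * HF J D ≤
      (Fintype.card u).factorial * (B * ((e + 1) * D) ^ d) := by
  classical
  obtain ⟨f, hf1, hf2, -⟩ := exists_basis J D
  let P : Sym (Option u) D → MvPolynomial σ K := fun s =>
    ∏ y : u, X (g y) ^ (Multiset.count (some y) (s : Multiset (Option u)))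
  have hP : ∀ s, (P s).totalDegree ≤ D := by
    intro s
    refine (totalDegree_finsetProd _ _).trans ?_
    refine (Finset.sum_le_sum fun y _ => totalDegree_pow _ _).trans ?_
    have h3 := PushDim_count D s
    simp only [totalDegree_X, mul_one]
    omega
  have hcard := card_le_HF I ((e + 1) * D)
    (fun x : Sym (Option u) D × Fin (HF J D) => P x.1 * hsub D (f x.2) p q)
    (by
      intro x
      refine (totalDegree_mul _ _).trans ?_
      have h3 := h2 σ K D e (f x.2) p q (hf1 _) hp hq
      have h4 := hP x.1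
      calc _ ≤ D + D * e := add_le_add h4 h3
        _ = (e + 1) * D := by ring)
    (by
      intro c hc
      -- the element of the subring
      let r : Sym (Option u) D → φ.range := fun s =>
        ⟨φ (∑ j, c (s, j) • f j), ⟨_, rfl⟩⟩
      have h5 : ∑ s : Sym (Option u) D, ((r s : φ.range) : L) * π (P s) = 0 := by
        have h6 : π (∑ x : Sym (Option u) D × Fin (HF J D),
            c x • (P x.1 * hsub D (f x.2) p q)) = 0 := (hπ _).2 hc
        rw [map_sum, Fintype.sum_prod_type] at h6
        have h7 : ∀ s : Sym (Option u) D, ∑ j, π (c (s, j) • (P s * hsub D (f j) p q)) =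
            π q ^ D * ((r s : L) * π (P s)) := by
          intro s
          have h8 : (r s : L) = ∑ j, c (s, j) • φ (f j) := by
            show φ (∑ j, c (s, j) • f j) = _
            rw [map_sum]
            simp only [map_smul]
          rw [h8, Finset.sum_mul, Finset.mul_sum]
          apply Finset.sum_congr rfl
          intro j _
          rw [map_smul, map_mul, hπφ (f j) D (hf1 j)]
          simp only [Algebra.smul_def]
          ring
        simp only [h7] at h6
        rw [← Finset.mul_sum] at h6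
        exact (mul_eq_zero.1 h6).resolve_left (pow_ne_zero _ hq0)
      have h9 : aeval (fun y : u => π (X (g y)))
          (∑ s : Sym (Option u) D, monomial (PushDim_expo D s) (r s)) = 0 := by
        rw [map_sum, ← h5]
        apply Finset.sum_congr rfl
        intro s _
        rw [aeval_monomial]
        congr 1
        rw [Finsupp.prod_fintype _ _ (fun _ => pow_zero _)]
        show _ = π (∏ y : u, X (g y) ^ (Multiset.count (some y) (s : Multiset (Option u))))
        rw [map_prod]
        apply Finset.prod_congr rfl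
        intro y _
        rw [map_pow]
        rfl
      have h10 := (algebraicIndependent_iff.1 hg) _ h9
      have h11 : ∀ s, r s = 0 := by
        intro s
        have h12 := congrArg (coeff (PushDim_expo D s)) h10
        rw [coeff_sum, Finset.sum_eq_single s] at h12
        · simpa using h12
        · intro b _ hb
          rw [coeff_monomial, if_neg]
          exact fun h => hb (PushDim_inj D h)
        · intro h
          exact absurd (Finset.mem_univ s) h
      funext x
      obtain ⟨s, j⟩ := x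
      have h13 : φ (∑ j, c (s, j) • f j) = 0 := congrArg Subtype.val (h11 s)
      have h14 := hf2 (fun j => c (s, j)) ((hφ _).1 h13)
      exact congrFun h14 j)
  rw [Fintype.card_prod, Fintype.card_fin] at hcard
  have h15 := hB ((e + 1) * D) (by nlinarith)
  have h16 := PushDim_card (u := u) D
  calc D ^ Fintype.card u * HF J D ≤
      ((Fintype.card u).factorial * Fintype.card (Sym (Option u) D)) * HF J D :=
        Nat.mul_le_mul_right _ h16
    _ = (Fintype.card u).factorial * (Fintype.card (Sym (Option u) D) * HF J D) := by ring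
    _ ≤ _ := Nat.mul_le_mul_left _ (hcard.trans h15)

/-- a transcendence basis over the image, made of coordinates -/
theorem PushDim_basis {σ K L : Type} [Fintype σ] [Field K] [Field L] [Algebra K L]
    (π φ : MvPolynomial σ K →ₐ[K] L)
    (hfrac : ∀ z : L, ∃ a b : MvPolynomial σ K, π b ≠ 0 ∧ z * π b = π a) (d d' : ℕ)
    (hR : Algebra.trdeg K φ.range = d') (hL : Algebra.trdeg K L = d) :
    ∃ (u : Type) (_ : Fintype u) (g : u → σ),
      AlgebraicIndependent φ.range (fun y : u => π (X (g y))) ∧ d' + Fintype.card u = d := by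
  classical
  have hadd := _root_.trdeg_add_eq K φ.range (A := L)
  rw [hR, hL] at hadd
  let x : σ → L := fun i => π (X i)
  have hmem : ∀ a : MvPolynomial σ K, π a ∈ Algebra.adjoin φ.range (Set.range x) := by
    intro a
    induction a using MvPolynomial.induction_on with
    | C a =>
      have : π (C a) = algebraMap φ.range L (algebraMap K φ.range a) := by
        rw [← IsScalarTower.algebraMap_apply K φ.range L]
        exact π.commutes a
      rw [this]
      exact Subalgebra.algebraMap_mem _ _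
    | add a b ha hb => rw [map_add]; exact add_mem ha hb
    | mul_X a i ha =>
      rw [map_mul]
      exact mul_mem ha (Algebra.subset_adjoin ⟨i, rfl⟩)
  have halg : Algebra.IsAlgebraic (Algebra.adjoin φ.range (Set.range x)) L := by
    constructor
    intro z
    obtain ⟨a, b, hb, hz⟩ := hfrac z
    let a' : Algebra.adjoin φ.range (Set.range x) := ⟨π a, hmem a⟩
    let b' : Algebra.adjoin φ.range (Set.range x) := ⟨π b, hmem b⟩
    refine ⟨Polynomial.C b' * Polynomial.X - Polynomial.C a', ?_, ?_⟩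
    · intro h
      have h3 := congrArg (fun P => Polynomial.coeff P 1) h
      have h4 : b' = 0 := by simpa [Polynomial.coeff_C] using h3
      exact hb (congrArg Subtype.val h4)
    · simp only [map_sub, map_mul, Polynomial.aeval_C, Polynomial.aeval_X]
      show π b * z - π a = 0
      rw [← hz]; ring
  obtain ⟨u, hut, hu⟩ := exists_isTranscendenceBasis_subset (R := φ.range) (Set.range x)
  have hufin : u.Finite := (Set.finite_range x).subset hut
  let _ : Fintype u := hufin.fintype
  have huc : Algebra.trdeg φ.range L = Fintype.card u := by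
    rw [← hu.cardinalMk_eq_trdeg, Cardinal.mk_fintype]
  rw [huc] at hadd
  have hadd' : d' + Fintype.card u = d := by exact_mod_cast hadd
  choose g hg using hut
  refine ⟨u, inferInstance, fun y => g y.2, ?_, hadd'⟩
  have h4 : (fun y : u => π (X (g y.2))) = ((↑) : u → L) := by
    funext y
    exact hg y.2
  rw [h4]
  exact hu.1

theorem pr_PushDim (h1 : S_DimTr) (h2 : S_HsDeg) : S_PushDim := by
  classical
  intro σ K _ _ p q e B d I J hp hq hI hJ hpush hdim hB
  have := hI
  have := hJ
  have : IsDomain (MvPolynomial σ K ⧸ I) := Ideal.Quotient.isDomain I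
  have hqI : q ∉ I := by
    intro h
    apply hJ.ne_top
    rw [Ideal.eq_top_iff_one, hpush 1 1 (by simp), PushDim_hsub_one]
    exact h
  let L := FractionRing (MvPolynomial σ K ⧸ I)
  let π : MvPolynomial σ K →ₐ[K] L :=
    (IsScalarTower.toAlgHom K (MvPolynomial σ K ⧸ I) L).comp (Ideal.Quotient.mkₐ K I)
  have hinj : Function.Injective (algebraMap (MvPolynomial σ K ⧸ I) L) :=
    IsFractionRing.injective _ _
  have hπ : ∀ x, π x = algebraMap (MvPolynomial σ K ⧸ I) L (Ideal.Quotient.mk I x) := by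
    intro x; rfl
  have hπ0 : ∀ x, π x = 0 ↔ x ∈ I := by
    intro x
    rw [hπ, ← Ideal.Quotient.eq_zero_iff_mem]
    constructor
    · intro h
      exact hinj (by rw [h, map_zero])
    · intro h
      rw [h, map_zero]
  have hq0 : π q ≠ 0 := fun h => hqI ((hπ0 q).1 h)
  let φ : MvPolynomial σ K →ₐ[K] L := aeval (fun i => π (p i) / π q)
  have hπφ : ∀ (F : MvPolynomial σ K) (D : ℕ), F.totalDegree ≤ D →
      π (hsub D F p q) = π q ^ D * φ F := by
    intro F D hF
    rw [map_hsub π, hsub_eval D F hF _ _ hq0]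
  have hφ0 : ∀ F, φ F = 0 ↔ F ∈ J := by
    intro F
    rw [hpush F F.totalDegree le_rfl, ← hπ0, hπφ F _ le_rfl]
    constructor
    · intro h
      rw [h, mul_zero]
    · intro h
      exact (mul_eq_zero.1 h).resolve_left (pow_ne_zero _ hq0)
  have hker : J = RingHom.ker φ := by
    ext F
    rw [RingHom.mem_ker, hφ0]
  -- dimension of `J`
  obtain ⟨d', hd'⟩ := exists_Dim J hJ.ne_top
  have hR : Algebra.trdeg K φ.range = d' := by
    rw [← ((h1 σ K J hJ).2 d').1 hd']
    exact (((Ideal.quotientEquivAlgOfEq K hker).trans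
      (Ideal.quotientKerEquivRange φ)).trdeg_eq).symm
  have hL : Algebra.trdeg K L = d := by
    rw [← ((h1 σ K I hI).2 d).1 hdim]
    have halg : Algebra.IsAlgebraic (MvPolynomial σ K ⧸ I) L :=
      IsLocalization.isAlgebraic _ (nonZeroDivisors (MvPolynomial σ K ⧸ I))
    have hz : Algebra.trdeg (MvPolynomial σ K ⧸ I) L = 0 := trdeg_eq_zero
    rw [← _root_.trdeg_add_eq K (MvPolynomial σ K ⧸ I) (A := L), hz, add_zero]
  have hfrac : ∀ z : L, ∃ a b : MvPolynomial σ K, π b ≠ 0 ∧ z * π b = π a := by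
    intro z
    obtain ⟨a, b, hb, rfl⟩ := IsFractionRing.div_surjective (A := MvPolynomial σ K ⧸ I) z
    obtain ⟨a, rfl⟩ := Ideal.Quotient.mk_surjective a
    obtain ⟨b, rfl⟩ := Ideal.Quotient.mk_surjective b
    have hb0 : π b ≠ 0 := by
      rw [hπ]
      intro h
      exact (nonZeroDivisors.ne_zero hb) (hinj (by rw [h, map_zero]))
    refine ⟨a, b, hb0, ?_⟩
    rw [← hπ, ← hπ, div_mul_cancel₀ _ hb0]
  obtain ⟨u, _, g, hind, hadd'⟩ := PushDim_basis π φ hfrac d d' hR hL
  refine ⟨d', by omega, hd', ?_⟩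
  intro D hD
  have h5 := PushDim_main h2 p q e B d I J hp hq hB π φ hπ0 hφ0 hπφ hq0
    g hind D hD
  have h6 : d - d' = Fintype.card u := by omega
  rw [h6]
  have h7 : (B * ((e + 1) * D) ^ d) = B * (e + 1) ^ d * (D ^ d' * D ^ Fintype.card u) := by
    rw [← pow_add, hadd', mul_pow]; ring
  rw [h7] at h5
  have h8 : 0 < D ^ Fintype.card u := Nat.pow_pos hD
  apply Nat.le_of_mul_le_mul_left _ h8
  calc _ ≤ _ := h5
    _ = _ := by ring

end Pool.Agent.Work.MP_91e6de_nt.DMR

end

section

set_option autoImplicit false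

/-!
# The image of a prime under a rational map
-/

namespace Pool.Agent.Work.MP_91e6de_nt.DMR

open MvPolynomial

theorem pr_PushEx : S_PushEx := by
  intro σ K _ _ p q I hI hq
  have := hI
  have : IsDomain (MvPolynomial σ K ⧸ I) := Ideal.Quotient.isDomain I
  let L := FractionRing (MvPolynomial σ K ⧸ I)
  let π : MvPolynomial σ K →ₐ[K] L :=
    (IsScalarTower.toAlgHom K (MvPolynomial σ K ⧸ I) L).comp (Ideal.Quotient.mkₐ K I)
  have hinj : Function.Injective (algebraMap (MvPolynomial σ K ⧸ I) L) :=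
    IsFractionRing.injective _ _
  have hπ : ∀ x, π x = algebraMap (MvPolynomial σ K ⧸ I) L (Ideal.Quotient.mk I x) := by
    intro x; rfl
  have hπ0 : ∀ x, π x = 0 ↔ x ∈ I := by
    intro x
    rw [hπ, ← Ideal.Quotient.eq_zero_iff_mem]
    constructor
    · intro h
      exact hinj (by rw [h, map_zero])
    · intro h
      rw [h, map_zero]
  have hq0 : π q ≠ 0 := fun h => hq ((hπ0 q).1 h)
  let φ : MvPolynomial σ K →ₐ[K] L := aeval (fun i => π (p i) / π q)
  refine ⟨RingHom.ker φ, RingHom.ker_isPrime _, ?_⟩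
  intro F D hF
  rw [← hπ0, map_hsub π, hsub_eval D F hF _ _ hq0, RingHom.mem_ker]
  constructor
  · intro h
    have h' : aeval (fun i => π (p i) / π q) F = 0 := h
    rw [h', mul_zero]
  · intro h
    rcases mul_eq_zero.1 h with h | h
    · exact absurd h (pow_ne_zero _ hq0)
    · exact h

end Pool.Agent.Work.MP_91e6de_nt.DMR

end

section

set_option autoImplicit false

/-!
# Item PushPt: the image of a point
-/

namespace Pool.Agent.Work.MP_91e6de_nt.DMR

open MvPolynomial

theorem pr_PushPt : S_PushPt := by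
  intro σ K _ _ p q I J P P' hpush hon hq hP' F hF
  have h1 : hsub F.totalDegree F p q ∈ I := (hpush F F.totalDegree le_rfl).1 hF
  have h2 := hon _ h1
  rw [map_hsub, hsub_eval _ F le_rfl _ _ hq] at h2
  have h3 : (fun i => aeval P (p i) / aeval P q) = P' := by
    funext i
    rw [div_eq_iff hq, mul_comm]
    exact (hP' i).symm
  rw [h3] at h2
  exact (mul_eq_zero.1 h2).resolve_left (pow_ne_zero _ hq)

end Pool.Agent.Work.MP_91e6de_nt.DMR

end

section

set_option autoImplicit false

/-!
# Item Rank: the rank of the evaluation matrix is small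
-/

namespace Pool.Agent.Work.MP_91e6de_nt.DMR

open MvPolynomial NumberField IsDedekindDomain Height
open Pool.Agent.Work.MP_91e6de_nt.DM (va nv)

/-- a nonzero maximal minor -/
theorem Rank_minor {K : Type} [Field K] (ρ : ℕ) (S : Finset ℕ) (f : Fin ρ → ℕ → K)
    (h : ∀ c : Fin ρ → K, (∀ n ∈ S, ∑ i, c i * f i n = 0) → c = 0) :
    ∃ g : Fin ρ → ℕ, (∀ b, g b ∈ S) ∧
      (Matrix.of fun x b : Fin ρ => f x (g b)).det ≠ 0 := by
  classical
  let col : ℕ → (Fin ρ → K) := fun n x => f x n
  let R : Set (Fin ρ → K) := col '' (S : Set ℕ)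
  have hspan : Submodule.span K R = ⊤ := by
    by_contra hne
    obtain ⟨ψ, hψ0, hψ⟩ := Submodule.exists_le_ker_of_lt_top (Submodule.span K R)
      (lt_top_iff_ne_top.mpr hne)
    apply hψ0
    have hc : (fun i => ψ (Pi.single i 1)) = 0 := by
      apply h
      intro n hn
      have h1 : col n ∈ Submodule.span K R := Submodule.subset_span ⟨n, hn, rfl⟩
      have h2 : ψ (col n) = 0 := hψ h1
      have h3 : col n = ∑ i, f i n • (Pi.single i (1 : K) : Fin ρ → K) := by
        funext x
        simp [col, Finset.sum_apply, Pi.single_apply]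
      rw [h3, map_sum] at h2
      rw [← h2]
      refine Finset.sum_congr rfl fun i _ => ?_
      rw [map_smul, smul_eq_mul, mul_comm]
    refine LinearMap.pi_ext' fun i => LinearMap.ext_ring ?_
    have := congrFun hc i
    simpa using this
  obtain ⟨B, hBR, hBspan, hBli⟩ := exists_linearIndependent K R
  let bas : Module.Basis B K (Fin ρ → K) := Module.Basis.mk hBli (by
    rw [Subtype.range_coe_subtype, Set.ofPred_mem_eq, hBspan, hspan])
  have : Fintype B := FiniteDimensional.fintypeBasisIndex bas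
  have hcard : Fintype.card B = ρ := by
    have := Module.finrank_eq_card_basis bas
    rw [Module.finrank_fin_fun] at this
    exact this.symm
  let e : Fin ρ ≃ B := (Fintype.equivFinOfCardEq hcard).symm
  have hch : ∀ b : Fin ρ, ∃ n, n ∈ S ∧ col n = (e b : Fin ρ → K) := by
    intro b
    obtain ⟨n, hn, hn2⟩ := hBR (e b).2
    exact ⟨n, hn, hn2⟩
  choose g hg1 hg2 using hch
  refine ⟨g, hg1, ?_⟩
  have hli : LinearIndependent K (fun b : Fin ρ => ((e b : B) : Fin ρ → K)) :=
    hBli.comp e e.injective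
  have hM : (Matrix.of fun x b : Fin ρ => f x (g b)).col = fun b => ((e b : B) : Fin ρ → K) := by
    funext b
    rw [← hg2 b]
    rfl
  have hu : IsUnit (Matrix.of fun x b : Fin ρ => f x (g b)) := by
    rw [← Matrix.linearIndependent_cols_iff_isUnit, hM]
    exact hli
  exact ((Matrix.isUnit_iff_isUnit_det _).mp hu).ne_zero

theorem Rank_ineq (N Sg ρ κ s D h : ℕ) (Hs : ℝ) (hN : 2 ≤ N) (hκ : 1 ≤ κ) (hs : 1 ≤ s)
    (hD : 1 ≤ D) (hh : 1 ≤ h) (hρ : 1 ≤ ρ) (hρ2 : ρ ≤ (D + 1) ^ s)
    (hSg : (7 * κ * s * D * h + 1) * ρ ≤ 2 * Sg) (hH0 : 0 ≤ Hs)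
    (hH : Hs ≤ Real.exp ((ρ : ℝ) * s * D * h)) :
    ((N : ℝ)⁻¹) ^ Sg * (((ρ.factorial * 1 : ℕ) : ℝ) ^ κ * Hs) < 1 := by
  have hNr : (2 : ℝ) ≤ N := by exact_mod_cast hN
  have hκr : (1 : ℝ) ≤ κ := by exact_mod_cast hκ
  have hsr : (1 : ℝ) ≤ s := by exact_mod_cast hs
  have hDr : (1 : ℝ) ≤ D := by exact_mod_cast hD
  have hhr : (1 : ℝ) ≤ h := by exact_mod_cast hh
  have hρr : (1 : ℝ) ≤ ρ := by exact_mod_cast hρ
  have h1 : ((N : ℝ)⁻¹) ^ Sg ≤ Real.exp (-(Real.log 2 * Sg)) := by
    have e1 : Real.exp (-(Real.log 2 * Sg)) = ((2 : ℝ)⁻¹) ^ Sg := by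
      rw [Real.exp_neg, mul_comm, Real.exp_nat_mul, Real.exp_log (by norm_num), inv_pow]
    rw [e1]
    apply pow_le_pow_left₀ (by positivity)
    exact inv_anti₀ (by norm_num) hNr
  have h2 : ((ρ.factorial * 1 : ℕ) : ℝ) ^ κ ≤ Real.exp ((κ : ℝ) * (ρ * (s * D))) := by
    have e1 : ((ρ.factorial * 1 : ℕ) : ℝ) ≤ Real.exp ((ρ : ℝ) * (s * D)) := by
      have e2 : ((ρ.factorial * 1 : ℕ) : ℝ) ≤ (ρ : ℝ) ^ ρ := by
        rw [mul_one]; exact_mod_cast Nat.factorial_le_pow ρ
      have e3 : (ρ : ℝ) ≤ Real.exp ((s : ℝ) * D) := by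
        have e4 : (ρ : ℝ) ≤ ((D : ℝ) + 1) ^ s := by exact_mod_cast hρ2
        rw [Real.exp_nat_mul]
        exact e4.trans (pow_le_pow_left₀ (by positivity) (Real.add_one_le_exp _) s)
      rw [Real.exp_nat_mul]
      exact e2.trans (pow_le_pow_left₀ (by positivity) e3 ρ)
    rw [Real.exp_nat_mul]
    exact pow_le_pow_left₀ (by positivity) e1 κ
  have h3 : ((N : ℝ)⁻¹) ^ Sg * (((ρ.factorial * 1 : ℕ) : ℝ) ^ κ * Hs) ≤
      Real.exp (-(Real.log 2 * Sg)) * (Real.exp ((κ : ℝ) * (ρ * (s * D))) *
        Real.exp ((ρ : ℝ) * s * D * h)) := by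
    apply mul_le_mul h1 _ (by positivity) (by positivity)
    exact mul_le_mul h2 hH hH0 (by positivity)
  refine lt_of_le_of_lt h3 ?_
  rw [← Real.exp_add, ← Real.exp_add, Real.exp_lt_one_iff]
  have hSgr : (7 * κ * s * D * h + 1) * (ρ : ℝ) ≤ 2 * Sg := by exact_mod_cast hSg
  have hl := Real.log_two_gt_d9
  have hpos : 0 < (κ : ℝ) * s * D * h * ρ := by positivity
  have a1 : (κ : ℝ) * (ρ * (s * D)) ≤ κ * s * D * h * ρ := by
    have : (κ : ℝ) * (ρ * (s * D)) * 1 ≤ (κ : ℝ) * (ρ * (s * D)) * h :=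
      mul_le_mul_of_nonneg_left hhr (by positivity)
    nlinarith
  have a2 : (ρ : ℝ) * s * D * h ≤ κ * s * D * h * ρ := by
    have : 1 * ((ρ : ℝ) * s * D * h) ≤ κ * ((ρ : ℝ) * s * D * h) :=
      mul_le_mul_of_nonneg_right hκr (by positivity)
    nlinarith
  have a3 : 7 * ((κ : ℝ) * s * D * h * ρ) ≤ 2 * Sg := by nlinarith
  have a4 : (0.69 : ℝ) * Sg ≤ Real.log 2 * Sg :=
    mul_le_mul_of_nonneg_right (by linarith) (by positivity)
  linarith

theorem pr_Rank (h1 : S_VanG) (h2 : S_Det) : S_Rank := by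
  intro K σ τ _ _ _ _ v I B d D h E S P a y U W hB hd hD hh hs hHB hE hcard hOn hcong hW hU hht
  classical
  by_contra hcon
  push Not at hcon
  set ρ := E.card with hρdef
  set κ := Module.finrank ℚ K with hκdef
  set s := Fintype.card τ with hsdef
  have hκ : 1 ≤ κ := Module.finrank_pos
  have hk1 : 1 ≤ 7 * κ * s * D * h := by
    have : 0 < 7 * κ * s * D * h := by positivity
    exact this
  -- size of `ρ`
  have hρ2B : 2 * B * (7 * κ * s * D * h) ^ d ≤ ρ := hcard
  have hpow : 7 * κ * s * D * h ≤ (7 * κ * s * D * h) ^ d :=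
    Nat.le_self_pow (by omega) _
  have h7 : 7 ≤ 7 * κ * s * D * h := by
    have : 1 ≤ κ * s * D * h := by
      have : 0 < κ * s * D * h := by positivity
      exact this
    calc 7 = 7 * 1 := rfl
      _ ≤ 7 * (κ * s * D * h) := Nat.mul_le_mul_left 7 this
      _ = 7 * κ * s * D * h := by ring
  have hρ14 : 2 ≤ ρ := by
    calc 2 ≤ 2 * 1 * 7 := by norm_num
      _ ≤ 2 * B * (7 * κ * s * D * h) ^ d :=
        Nat.mul_le_mul (Nat.mul_le_mul_left 2 hB) (h7.trans hpow)
      _ ≤ ρ := hρ2B
  -- enumeration of `E`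
  obtain ⟨en, hen1, hen2, hen3⟩ : ∃ en : Fin ρ → (τ → ℕ), (∀ x, en x ∈ E) ∧
      Function.Injective en ∧ ∀ F : (τ → ℕ) → K, ∑ α ∈ E, F α = ∑ x, F (en x) := by
    refine ⟨fun x => (E.equivFin.symm x : τ → ℕ), fun x => (E.equivFin.symm x).2, ?_, ?_⟩
    · intro x x' hx
      exact E.equivFin.symm.injective (Subtype.ext hx)
    · intro F
      rw [← Finset.sum_coe_sort E F]
      exact (Equiv.sum_comp E.equivFin.symm (fun i : E => F i)).symm
  -- a nonzero minor
  obtain ⟨g, hgS, hdet⟩ := Rank_minor ρ S (fun x n => ∏ l, y n l ^ en x l) (by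
    intro c hc
    by_contra hne
    obtain ⟨x0, hx0⟩ : ∃ x, c x ≠ 0 := by
      by_contra h'
      push Not at h'
      exact hne (funext h')
    let c' : (τ → ℕ) → K := fun α => ∑ x, if en x = α then c x else 0
    have hc' : ∀ x, c' (en x) = c x := by
      intro x
      show ∑ x', (if en x' = en x then c x' else 0) = c x
      rw [Finset.sum_eq_single x]
      · rw [if_pos rfl]
      · intro x' _ hx'
        rw [if_neg (fun h' => hx' (hen2 h'))]
      · intro h'; exact absurd (Finset.mem_univ _) h'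
    obtain ⟨n, hn, hn2⟩ := hcon c' ⟨en x0, hen1 x0, by rw [hc']; exact hx0⟩
    apply hn2
    rw [hen3]
    simp only [hc']
    exact hc n hn)
  -- the polynomials
  set D1 := s * D with hD1
  let φ : Fin ρ → MvPolynomial σ (𝓞 K) := fun x =>
    (∏ l, U l ^ en x l) * W ^ (D1 - ∑ l, en x l)
  have hsum : ∀ x, ∑ l, en x l ≤ D1 := by
    intro x
    calc ∑ l, en x l ≤ ∑ _l : τ, D := Finset.sum_le_sum fun l _ => hE _ (hen1 x) l
      _ = D1 := by rw [Finset.sum_const, Finset.card_univ, smul_eq_mul]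
  have hφ : ∀ x b, aeval (P (g b)) (φ x) =
      aeval (P (g b)) W ^ D1 * ∏ l, y (g b) l ^ en x l := by
    intro x b
    show aeval (P (g b)) ((∏ l, U l ^ en x l) * W ^ (D1 - ∑ l, en x l)) = _
    rw [map_mul, map_prod, map_pow]
    have e1 : ∀ l, aeval (P (g b)) (U l ^ en x l) =
        aeval (P (g b)) W ^ en x l * y (g b) l ^ en x l := by
      intro l
      rw [map_pow, hU _ (hgS b), mul_pow]
    rw [Finset.prod_congr rfl fun l _ => e1 l, Finset.prod_mul_distrib,
      Finset.prod_pow_eq_pow_sum]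
    have e2 : aeval (P (g b)) W ^ D1 = aeval (P (g b)) W ^ (∑ l, en x l) *
        aeval (P (g b)) W ^ (D1 - ∑ l, en x l) := by
      rw [← pow_add, Nat.add_sub_cancel' (hsum x)]
    rw [e2]; ring
  have hval : va v (Matrix.det (Matrix.of fun x b : Fin ρ => ∏ l, y (g b) l ^ en x l)) ≤
      ((nv v : ℝ)⁻¹) ^ ∑ k ∈ Finset.range (7 * κ * s * D * h + 1), (ρ - HF I k) := by
    have e1 := h2 K σ v I a ρ (7 * κ * s * D * h + 1) φ (fun b => P (g b))
      (fun b => hOn _ (hgS b)) (fun b i => hcong _ (hgS b) i)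
    have e2 : (Matrix.of fun x b : Fin ρ => aeval (P (g b)) (φ x)) =
        Matrix.of fun x b : Fin ρ => aeval (P (g b)) W ^ D1 *
          (Matrix.of fun x b : Fin ρ => ∏ l, y (g b) l ^ en x l) x b := by
      ext x b
      exact hφ x b
    rw [e2, Matrix.det_mul_row, map_mul, map_prod] at e1
    have e3 : ∏ b : Fin ρ, va v (aeval (P (g b)) W ^ D1) = 1 := by
      refine Finset.prod_eq_one fun b _ => ?_
      rw [map_pow, hW _ (hgS b), one_pow]
    rw [e3, one_mul] at e1
    exact e1
  -- the exponent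
  have hSg : (7 * κ * s * D * h + 1) * ρ ≤
      2 * ∑ k ∈ Finset.range (7 * κ * s * D * h + 1), (ρ - HF I k) := by
    have hk : ∀ k ∈ Finset.range (7 * κ * s * D * h + 1), ρ ≤ 2 * (ρ - HF I k) := by
      intro k hk
      rw [Finset.mem_range] at hk
      have h2HF : 2 * HF I k ≤ ρ := by
        rcases Nat.eq_zero_or_pos k with h0 | h0
        · subst h0
          have := HF_zero_le I
          omega
        · have e1 := hHB k h0
          have e2 : k ^ d ≤ (7 * κ * s * D * h) ^ d := Nat.pow_le_pow_left (by omega) d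
          calc 2 * HF I k ≤ 2 * (B * k ^ d) := Nat.mul_le_mul_left 2 e1
            _ ≤ 2 * (B * (7 * κ * s * D * h) ^ d) :=
              Nat.mul_le_mul_left 2 (Nat.mul_le_mul_left B e2)
            _ = 2 * B * (7 * κ * s * D * h) ^ d := by ring
            _ ≤ ρ := hρ2B
      omega
    calc (7 * κ * s * D * h + 1) * ρ =
        ∑ _k ∈ Finset.range (7 * κ * s * D * h + 1), ρ := by
          rw [Finset.sum_const, Finset.card_range, smul_eq_mul]
      _ ≤ ∑ k ∈ Finset.range (7 * κ * s * D * h + 1), 2 * (ρ - HF I k) := Finset.sum_le_sum hk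
      _ = _ := by rw [Finset.mul_sum]
  -- the number of exponents
  have hρbox : ρ ≤ (D + 1) ^ s := by
    have hsub : E ⊆ Fintype.piFinset fun _ : τ => Finset.range (D + 1) := by
      intro α hα
      rw [Fintype.mem_piFinset]
      intro l
      rw [Finset.mem_range]
      have := hE α hα l
      omega
    have := Finset.card_le_card hsub
    rw [Fintype.card_piFinset] at this
    simpa [Finset.prod_const, Finset.card_univ] using this
  -- the determinant is zero
  have hdet' : (Matrix.of fun x b : Fin ρ => ∏ l, y (g b) l ^ en x l).det =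
      ∑ j : Equiv.Perm (Fin ρ), (((Equiv.Perm.sign j : ℤˣ) : ℤ) : K) *
        ∏ i : Fin ρ × τ, y (g i.1) i.2 ^ en (j i.1) i.2 := by
    rw [Matrix.det_apply']
    refine Finset.sum_congr rfl fun j _ => ?_
    rw [Fintype.prod_prod_type]
    rfl
  apply hdet
  rw [hdet']
  refine h1 K (Fin ρ × τ) (Equiv.Perm (Fin ρ)) v (fun j i => en (j i.1) i.2)
    (fun j => ((Equiv.Perm.sign j : ℤˣ) : ℤ)) 1 D (fun i => y (g i.1) i.2)
    (((nv v : ℝ)⁻¹) ^ ∑ k ∈ Finset.range (7 * κ * s * D * h + 1), (ρ - HF I k))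
    le_rfl ?_ ?_ ?_ ?_
  · intro j
    rcases Int.units_eq_one_or (Equiv.Perm.sign j) with h' | h' <;> rw [h'] <;> simp
  · intro j i
    exact hE _ (hen1 _) _
  · rw [← hdet']
    exact hval
  · rw [Fintype.card_perm, Fintype.card_fin]
    have hnv : 2 ≤ nv v := NumberField.HeightOneSpectrum.one_lt_absNorm v
    refine Rank_ineq (nv v) _ ρ κ s D h _ hnv hκ hs hD hh (by omega) hρbox hSg ?_ ?_
    · exact Finset.prod_nonneg fun i _ => pow_nonneg (zero_le_one.trans (one_le_mulHeight₁ _)) _
    · have e1 : ∀ i ∈ (Finset.univ : Finset (Fin ρ × τ)),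
          mulHeight₁ (y (g i.1) i.2) ^ D ≤ Real.exp ((D : ℝ) * h) := by
        intro i _
        have e2 : mulHeight₁ (y (g i.1) i.2) ≤ Real.exp h := by
          have e3 := hht _ (hgS i.1) i.2
          rw [logHeight₁_eq_log_mulHeight₁] at e3
          exact (Real.log_le_iff_le_exp (lt_of_lt_of_le one_pos (one_le_mulHeight₁ _))).mp e3
        rw [Real.exp_nat_mul]
        exact pow_le_pow_left₀ (zero_le_one.trans (one_le_mulHeight₁ _)) e2 D
      refine (Finset.prod_le_prod (fun i _ =>
        pow_nonneg (zero_le_one.trans (one_le_mulHeight₁ _)) _) e1).trans ?_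
      rw [Finset.prod_const, Finset.card_univ, Fintype.card_prod, Fintype.card_fin,
        ← Real.exp_nat_mul]
      apply le_of_eq
      congr 1
      push_cast
      rw [← hsdef]
      ring

end Pool.Agent.Work.MP_91e6de_nt.DMR

end

section

set_option autoImplicit false

/-!
# Relations between the coordinates of the shifted points
-/

namespace Pool.Agent.Work.MP_91e6de_nt.DMR

open MvPolynomial NumberField IsDedekindDomain Height
open Pool.Agent.Work.MP_91e6de_nt.DM (va nv)

/-- extension by zero of an exponent vector -/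
noncomputable def rel_ext {σ : Type} [Fintype σ] (J : Finset σ) (α : J → ℕ) : σ →₀ ℕ :=
  ∑ l : J, Finsupp.single (l : σ) (α l)

theorem rel_ext_apply {σ : Type} [Fintype σ] (J : Finset σ) (α : J → ℕ) (l : J) :
    rel_ext J α (l : σ) = α l := by
  classical
  unfold rel_ext
  rw [Finsupp.finsetSum_apply]
  simp only [Finsupp.single_apply]
  rw [Finset.sum_eq_single l]
  · simp
  · intro b _ hb
    rw [if_neg]
    intro h
    exact hb (Subtype.ext h)
  · intro h
    exact absurd (Finset.mem_univ _) h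

theorem rel_ext_apply_not {σ : Type} [Fintype σ] (J : Finset σ) (α : J → ℕ) (i : σ)
    (hi : i ∉ J) : rel_ext J α i = 0 := by
  classical
  unfold rel_ext
  rw [Finsupp.finsetSum_apply]
  apply Finset.sum_eq_zero
  intro l _
  rw [Finsupp.single_apply, if_neg]
  intro h
  exact hi (h ▸ l.2)

theorem rel_ext_inj {σ : Type} [Fintype σ] (J : Finset σ) (α β : J → ℕ)
    (h : rel_ext J α = rel_ext J β) : α = β := by
  funext l
  rw [← rel_ext_apply J α l, ← rel_ext_apply J β l, h]

theorem pr_Rel (h1 : S_Rank) (h2 : S_IteG) : S_Rel := by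
  classical
  intro K σ _ _ _ p q e h M G B d k P v a I S J hs hg hB hd hHB hk hM hon hJ
  set kap := Module.finrank ℚ K with hkap
  have hkap1 : 1 ≤ kap := Module.finrank_pos
  set DD := 2 * B * (7 * kap * (d + 1) * h) ^ d with hDD
  have hh : 1 ≤ h := hs.hh
  have hDD1 : 1 ≤ DD := by
    rw [hDD]
    have : 0 < 2 * B * (7 * kap * (d + 1) * h) ^ d := by positivity
    omega
  have hcard : Fintype.card J = d + 1 := by simpa using hJ
  set E : Finset (J → ℕ) := Fintype.piFinset (fun _ : J => Finset.range (DD + 1)) with hE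
  have hEc : E.card = (DD + 1) ^ (d + 1) := by
    rw [hE, Fintype.card_piFinset]
    simp [hJ]
  have key := fun n (hn : n ∈ S) => h2 σ (𝓞 K) K e p q hs.hp hs.hq M P hs.orb n k
    ((Nat.add_le_add_left hk n).trans (hM n hn))
  obtain ⟨c, ⟨α0, hα0, hc0⟩, hc⟩ := h1 K σ J v I B d DD h E S P a (fun n l => P (n + k) l)
    (fun l => (itr e p q k).1 l) (itr e p q k).2 hB hd hDD1 hh (by rw [hcard]; omega) hHB
    (by
      intro α hα l
      have := (Fintype.mem_piFinset.mp hα) l
      rw [Finset.mem_range] at this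
      omega)
    (by
      rw [hEc, hcard]
      calc 2 * B * (7 * kap * (d + 1) * DD * h) ^ d
          = (2 * B * (7 * kap * (d + 1) * h) ^ d) * DD ^ d := by
            rw [show 7 * kap * (d + 1) * DD * h = (7 * kap * (d + 1) * h) * DD by ring, mul_pow,
              ← mul_assoc]
        _ = DD ^ (d + 1) := by rw [← hDD]; ring
        _ ≤ (DD + 1) ^ (d + 1) := Nat.pow_le_pow_left (by omega) _)
    hon hg.cong
    (by
      intro n hn
      rw [(key n hn).2.2, map_prod]
      apply Finset.prod_eq_one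
      intro l hl
      rw [map_pow, hg.unit n hn l (lt_of_lt_of_le (Finset.mem_range.mp hl) hk), one_pow])
    (fun n hn l => (key n hn).2.1 l)
    (fun n hn l => hs.ht (n + k) ((Nat.add_le_add_left hk n).trans (hM n hn)) l)
  set F : MvPolynomial σ K := ∑ α ∈ E, monomial (rel_ext J α) (c α) with hF
  have hcoeff : coeff (rel_ext J α0) F = c α0 := by
    rw [hF, coeff_sum, Finset.sum_eq_single α0]
    · simp
    · intro β _ hβ
      rw [coeff_monomial, if_neg]
      intro h
      exact hβ (rel_ext_inj J _ _ h)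
    · intro h
      exact absurd hα0 h
  have hsupp : ∀ m ∈ F.support, ∃ α ∈ E, m = rel_ext J α := by
    intro m hm
    by_contra hcon
    push Not at hcon
    rw [mem_support_iff] at hm
    apply hm
    rw [hF, coeff_sum]
    apply Finset.sum_eq_zero
    intro β hβ
    rw [coeff_monomial, if_neg]
    intro h
    exact hcon β hβ h.symm
  refine ⟨F, ?_, ?_, ?_, ?_⟩
  · intro h0
    rw [h0, coeff_zero] at hcoeff
    exact hc0 hcoeff.symm
  · intro i hi
    rw [mem_vars_iff_mem_support] at hi
    obtain ⟨m, hm, him⟩ := hi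
    obtain ⟨α, _, rfl⟩ := hsupp m hm
    by_contra hiJ
    rw [Finsupp.mem_support_iff] at him
    exact him (rel_ext_apply_not J α i hiJ)
  · rw [totalDegree_eq]
    apply Finset.sup_le
    intro m hm
    obtain ⟨α, hα, rfl⟩ := hsupp m hm
    have h3 : (rel_ext J α).toMultiset.card = ∑ l : J, α l := by
      unfold rel_ext
      rw [map_sum, Multiset.card_sum]
      apply Finset.sum_congr rfl
      intro l _
      rw [Finsupp.toMultiset_single]
      simp
    rw [h3]
    unfold TT
    calc ∑ l : J, α l ≤ ∑ l : J, DD := by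
          apply Finset.sum_le_sum
          intro l _
          have := (Fintype.mem_piFinset.mp hα) l
          rw [Finset.mem_range] at this
          omega
      _ = (d + 1) * DD := by simp [hJ]
      _ = _ := by rw [hDD]
  · intro n hn
    rw [hF, map_sum]
    rw [← hc n hn]
    apply Finset.sum_congr rfl
    intro α _
    rw [aeval_monomial]
    congr 1
    rw [Finsupp.prod_fintype _ _ (fun i => pow_zero _)]
    have h4 : ∀ i : σ, P (n + k) i ^ (rel_ext J α) i =
        ∏ l : J, (if (l : σ) = i then P (n + k) i ^ α l else 1) := by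
      intro i
      unfold rel_ext
      rw [Finsupp.finsetSum_apply, ← Finset.prod_pow_eq_pow_sum]
      apply Finset.prod_congr rfl
      intro l _
      rw [Finsupp.single_apply]
      split_ifs <;> simp
    rw [Finset.prod_congr rfl (fun i _ => h4 i), Finset.prod_comm]
    apply Finset.prod_congr rfl
    intro l _
    rw [Finset.prod_ite_eq]
    simp

end Pool.Agent.Work.MP_91e6de_nt.DMR

end

section

set_option autoImplicit false

/-!
# Item RelHB: relations give a bound for the Hilbert function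
-/

namespace Pool.Agent.Work.MP_91e6de_nt.DMR

open MvPolynomial

/-- decomposition with respect to one variable -/
theorem RelHB_dec {σ K : Type} [DecidableEq σ] [Field K] (J : Finset σ) (i : σ) (T : ℕ)
    (F : MvPolynomial σ K) (hv : F.vars ⊆ insert i J) (hT : F.totalDegree ≤ T) :
    ∃ c : ℕ → MvPolynomial σ K, (∀ b, (c b).vars ⊆ J) ∧ (∀ b ≤ T, (c b).totalDegree ≤ T - b) ∧
      F = ∑ b ∈ Finset.range (T + 1), c b * X i ^ b := by
  classical
  refine ⟨fun b => ∑ m ∈ F.support.filter (fun m => m i = b), monomial (m.erase i) (coeff m F),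
    ?_, ?_, ?_⟩
  · intro b
    refine (vars_sum_subset _ _).trans ?_
    intro x hx
    rw [Finset.mem_biUnion] at hx
    obtain ⟨m, hm, hx⟩ := hx
    rw [Finset.mem_filter] at hm
    rw [vars_monomial (mem_support_iff.mp hm.1)] at hx
    have h1 : x ≠ i := by
      rintro rfl
      simp at hx
    have h2 : x ∈ F.vars := by
      rw [mem_vars_iff_mem_support]
      refine ⟨m, hm.1, ?_⟩
      rw [Finsupp.mem_support_iff] at hx ⊢
      rwa [Finsupp.erase_ne h1] at hx
    have h3 := hv h2
    rw [Finset.mem_insert] at h3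
    exact h3.resolve_left h1
  · intro b hb
    refine (totalDegree_finsetSum _ _).trans ?_
    apply Finset.sup_le
    intro m hm
    rw [Finset.mem_filter] at hm
    refine (totalDegree_monomial_le _ _).trans ?_
    have h1 := (le_totalDegree hm.1).trans hT
    have h2 : m.sum (fun _ e => e) = (m.erase i).sum (fun _ e => e) + m i := by
      conv_lhs => rw [← Finsupp.erase_add_single i m]
      rw [Finsupp.sum_add_index' (fun _ => rfl) (fun _ _ _ => rfl), Finsupp.sum_single_index rfl]
    have h3 := hm.2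
    change (m.erase i).sum (fun _ e => e) ≤ T - b
    omega
  · conv_lhs => rw [← support_sum_monomial_coeff F]
    have h1 : ∀ b, (∑ m ∈ F.support.filter (fun m => m i = b),
        monomial (m.erase i) (coeff m F)) * (X i : MvPolynomial σ K) ^ b =
        ∑ m ∈ F.support.filter (fun m => m i = b), monomial m (coeff m F) := by
      intro b
      rw [Finset.sum_mul]
      apply Finset.sum_congr rfl
      intro m hm
      rw [Finset.mem_filter] at hm
      rw [X_pow_eq_monomial, monomial_mul, mul_one, ← hm.2, Finsupp.erase_add_single]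
    simp only [h1]
    symm
    apply Finset.sum_fiberwise_of_maps_to
    intro m hm
    rw [Finset.mem_range]
    have h1 := (le_totalDegree hm).trans hT
    have h2 : m i ≤ m.sum fun _ e => e := by
      by_cases h3 : m i = 0
      · omega
      · exact Finset.single_le_sum (f := fun i => m i) (fun _ _ => Nat.zero_le _)
          (Finsupp.mem_support_iff.mpr h3)
    omega

/-- reduction of the powers of one variable -/
theorem RelHB_red {σ K : Type} [DecidableEq σ] [Field K] (I : Ideal (MvPolynomial σ K))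
    (J : Finset σ) (i : σ) (T t : ℕ) (ht1 : 1 ≤ t) (htT : t ≤ T) (L : MvPolynomial σ K)
    (hLv : L.vars ⊆ J) (hLT : L.totalDegree ≤ T) (c : ℕ → MvPolynomial σ K)
    (hcv : ∀ b, (c b).vars ⊆ J) (hcT : ∀ b ≤ T, (c b).totalDegree ≤ T - b)
    (hrel : L * X i ^ t + ∑ b ∈ Finset.range t, c b * X i ^ b ∈ I) :
    ∀ a n : ℕ, a ≤ n → ∃ e : ℕ → MvPolynomial σ K, (∀ b, (e b).vars ⊆ J) ∧
      (∀ b, (e b).totalDegree ≤ n * T + a) ∧
      L ^ n * X i ^ a - ∑ b ∈ Finset.range T, e b * X i ^ b ∈ I := by
  intro a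
  induction a using Nat.strong_induction_on with
  | _ a ih =>
    intro n han
    by_cases haT : a < T
    · refine ⟨fun b => if b = a then L ^ n else 0, ?_, ?_, ?_⟩
      · intro b
        dsimp only
        split_ifs
        · exact (vars_pow _ _).trans hLv
        · simp
      · intro b
        dsimp only
        split_ifs
        · refine (totalDegree_pow _ _).trans ?_
          have := Nat.mul_le_mul_left n hLT
          omega
        · simp
      · simp only [ite_mul, zero_mul]
        rw [Finset.sum_ite_eq' (Finset.range T) a, if_pos (Finset.mem_range.mpr haT), sub_self]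
        exact I.zero_mem
    · push Not at haT
      have h0 : ∀ b : ℕ, ∃ e : ℕ → MvPolynomial σ K, b < t → (∀ b, (e b).vars ⊆ J) ∧
          (∀ b', (e b').totalDegree ≤ (n - 1) * T + (a - t + b)) ∧
          L ^ (n - 1) * X i ^ (a - t + b) - ∑ b ∈ Finset.range T, e b * X i ^ b ∈ I := by
        intro b
        by_cases hb : b < t
        · obtain ⟨e, he⟩ := ih (a - t + b) (by omega) (n - 1) (by omega)
          exact ⟨e, fun _ => he⟩
        · exact ⟨0, fun h => absurd h hb⟩
      choose e he using h0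
      refine ⟨fun b' => - ∑ b ∈ Finset.range t, c b * e b b', ?_, ?_, ?_⟩
      · intro b'
        rw [vars_neg]
        refine (vars_sum_subset _ _).trans ?_
        intro x hx
        rw [Finset.mem_biUnion] at hx
        obtain ⟨b, hb, hx⟩ := hx
        have h1 := vars_mul _ _ hx
        rw [Finset.mem_union] at h1
        rcases h1 with h1 | h1
        · exact hcv b h1
        · exact (he b (Finset.mem_range.mp hb)).1 b' h1
      · intro b'
        rw [totalDegree_neg]
        refine (totalDegree_finsetSum _ _).trans ?_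
        apply Finset.sup_le
        intro b hb
        rw [Finset.mem_range] at hb
        refine (totalDegree_mul _ _).trans ?_
        have h1 := hcT b (by omega)
        have h2 := (he b hb).2.1 b'
        have h3 : n * T = (n - 1) * T + T := by
          obtain ⟨k, rfl⟩ : ∃ k, n = k + 1 := ⟨n - 1, by omega⟩
          simp only [Nat.add_sub_cancel]; ring
        omega
      · have h1 : L ^ (n - 1) * X i ^ (a - t) *
            (L * X i ^ t + ∑ b ∈ Finset.range t, c b * X i ^ b) ∈ I := I.mul_mem_left _ hrel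
        have h2 : ∑ b ∈ Finset.range t, c b * (L ^ (n - 1) * X i ^ (a - t + b) -
            ∑ b' ∈ Finset.range T, e b b' * X i ^ b') ∈ I := by
          apply Ideal.sum_mem
          intro b hb
          exact I.mul_mem_left _ (he b (Finset.mem_range.mp hb)).2.2
        have h3 : L ^ n * X i ^ a - ∑ b' ∈ Finset.range T,
            (- ∑ b ∈ Finset.range t, c b * e b b') * X i ^ b' =
            L ^ (n - 1) * X i ^ (a - t) *
            (L * X i ^ t + ∑ b ∈ Finset.range t, c b * X i ^ b) -
            ∑ b ∈ Finset.range t, c b * (L ^ (n - 1) * X i ^ (a - t + b) -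
            ∑ b' ∈ Finset.range T, e b b' * X i ^ b') := by
          have e1 : L ^ n * X i ^ a = L ^ (n - 1) * X i ^ (a - t) * (L * X i ^ t) := by
            have : L ^ n = L ^ (n - 1) * L := by
              rw [← pow_succ]; congr 1; omega
            rw [this]
            have : (X i : MvPolynomial σ K) ^ a = X i ^ (a - t) * X i ^ t := by
              rw [← pow_add]; congr 1; omega
            rw [this]; ring
          have e2 : ∑ b' ∈ Finset.range T, (- ∑ b ∈ Finset.range t, c b * e b b') * X i ^ b' =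
              - ∑ b ∈ Finset.range t, ∑ b' ∈ Finset.range T, c b * (e b b' * X i ^ b') := by
            rw [Finset.sum_comm, ← Finset.sum_neg_distrib]
            apply Finset.sum_congr rfl
            intro b' _
            rw [neg_mul, Finset.sum_mul]
            congr 1
            apply Finset.sum_congr rfl
            intro b _
            ring
          have e3 : ∑ b ∈ Finset.range t, c b * (L ^ (n - 1) * X i ^ (a - t + b) -
              ∑ b' ∈ Finset.range T, e b b' * X i ^ b') =
              L ^ (n - 1) * X i ^ (a - t) * ∑ b ∈ Finset.range t, c b * X i ^ b -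
              ∑ b ∈ Finset.range t, ∑ b' ∈ Finset.range T, c b * (e b b' * X i ^ b') := by
            rw [Finset.mul_sum, ← Finset.sum_sub_distrib]
            apply Finset.sum_congr rfl
            intro b _
            rw [mul_sub, Finset.mul_sum, pow_add]
            ring
          rw [e1, e2, e3]; ring
        rw [h3]
        exact I.sub_mem h1 h2

/-- a multiple of everything in the span of a finite family -/
theorem RelHB_cnt {σ K : Type} [Fintype σ] [Field K] (I : Ideal (MvPolynomial σ K))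
    (hI : I.IsPrime) (L : MvPolynomial σ K) (hL : L ∉ I) (D : ℕ) (s : Finset (σ →₀ ℕ))
    (h : ∀ F : MvPolynomial σ K, F.totalDegree ≤ D →
      L * F ∈ (Submodule.span K ((fun m => monomial m (1 : K)) '' (s : Set (σ →₀ ℕ)))) ⊔
        I.restrictScalars K) : HF I D ≤ s.card := by
  classical
  let f : MvPolynomial σ K →ₗ[K] (MvPolynomial σ K ⧸ I) :=
    (Ideal.Quotient.mkₐ K I).toLinearMap ∘ₗ LinearMap.mulLeft K L
  have hf : ∀ F, f F = Ideal.Quotient.mk I (L * F) := fun F => rfl
  rw [HF_eq I D f (by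
    intro F _
    rw [hf, Ideal.Quotient.eq_zero_iff_mem]
    exact ⟨fun h => (hI.mem_or_mem h).resolve_left hL, fun h => I.mul_mem_left _ h⟩)]
  have h1 : (restrictTotalDegree σ K D).map f ≤ Submodule.span K
      (((s.image fun m => Ideal.Quotient.mk I (monomial m (1 : K))) :
        Finset (MvPolynomial σ K ⧸ I)) : Set (MvPolynomial σ K ⧸ I)) := by
    rintro _ ⟨F, hF, rfl⟩
    have h2 := h F ((mem_restrictTotalDegree σ D F).mp hF)
    obtain ⟨y, hy, z, hz, hyz⟩ := Submodule.mem_sup.mp h2
    rw [hf, ← hyz, map_add, Ideal.Quotient.eq_zero_iff_mem.mpr hz, add_zero]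
    have h3 : (Ideal.Quotient.mkₐ K I).toLinearMap y ∈ Submodule.map
      (Ideal.Quotient.mkₐ K I).toLinearMap (Submodule.span K
        ((fun m => monomial m (1 : K)) '' (s : Set (σ →₀ ℕ)))) := Submodule.mem_map_of_mem hy
    rw [Submodule.map_span] at h3
    refine Submodule.span_mono ?_ h3
    rintro _ ⟨_, ⟨m, hm, rfl⟩, rfl⟩
    rw [Finset.coe_image]
    exact ⟨m, hm, rfl⟩
  have : Module.Finite K (Submodule.span K
      (((s.image fun m => Ideal.Quotient.mk I (monomial m (1 : K))) :
        Finset (MvPolynomial σ K ⧸ I)) : Set (MvPolynomial σ K ⧸ I))) :=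
    FiniteDimensional.span_finset K _
  refine (Submodule.finrank_mono h1).trans ?_
  exact (finrank_span_finset_le_card _).trans Finset.card_image_le

/-- the span -/
theorem RelHB_span {σ K : Type} [DecidableEq σ] [Field K] (J : Finset σ) (s : Set (σ →₀ ℕ))
    (N T : ℕ) (hs : ∀ m : σ →₀ ℕ, (∀ i ∈ J, m i ≤ N) → (∀ i, i ∉ J → m i < T) → m ∈ s)
    (E : MvPolynomial σ K) (hv : E.vars ⊆ J) (hN : E.totalDegree ≤ N) (b : σ →₀ ℕ)
    (hb : ∀ i ∈ J, b i = 0) (hb' : ∀ i, i ∉ J → b i < T) :
    E * monomial b 1 ∈ Submodule.span K ((fun m => monomial m (1 : K)) '' s) := by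
  rw [← support_sum_monomial_coeff E, Finset.sum_mul]
  apply Submodule.sum_mem
  intro m hm
  have h1 : monomial m (coeff m E) * monomial b 1 =
      (coeff m E) • (monomial (m + b) (1 : K)) := by
    rw [monomial_mul, smul_monomial, smul_eq_mul]
  rw [h1]
  apply Submodule.smul_mem
  apply Submodule.subset_span
  refine ⟨m + b, ?_, rfl⟩
  apply hs
  · intro i hi
    rw [Finsupp.add_apply, hb i hi, add_zero]
    refine le_trans ?_ ((le_totalDegree hm).trans hN)
    by_cases h3 : m i = 0
    · omega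
    · exact Finset.single_le_sum (f := fun i => m i) (fun _ _ => Nat.zero_le _)
        (Finsupp.mem_support_iff.mpr h3)
  · intro i hi
    have h2 : m i = 0 := by
      by_contra hne
      apply hi
      apply hv
      rw [mem_vars_iff_mem_support]
      exact ⟨m, hm, Finsupp.mem_support_iff.mpr hne⟩
    rw [Finsupp.add_apply, h2, zero_add]
    exact hb' i hi

theorem pr_RelHB : S_RelHB := by
  intro σ K _ _ I T d hI hT hrel D hD
  classical
  obtain ⟨P, hP⟩ : ∃ P : Finset σ → Prop, P = fun J => ∀ F ∈ I, F.vars ⊆ J →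
    F.totalDegree ≤ T → F = 0 := ⟨_, rfl⟩
  have hP0 : P ∅ := by
    rw [hP]
    intro F hF hv _
    have h1 : F.vars = ∅ := Finset.subset_empty.mp hv
    rw [vars_eq_empty_iff_eq_C] at h1
    obtain ⟨c, hc⟩ : ∃ c, C c = F := ⟨_, h1.symm⟩
    by_contra hne
    apply hI.ne_top
    rw [Ideal.eq_top_iff_one]
    have hc0 : c ≠ 0 := by
      rintro rfl
      apply hne
      rw [← hc]; simp
    have : (1 : MvPolynomial σ K) = C c⁻¹ * F := by
      rw [← hc, ← C_mul, inv_mul_cancel₀ hc0, C_1]
    rw [this]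
    exact I.mul_mem_left _ hF
  obtain ⟨J, hJ, hmax⟩ := Finset.exists_max_image (Finset.univ.filter P) Finset.card
    ⟨∅, by simpa using hP0⟩
  have hJ1 : P J := (Finset.mem_filter.mp hJ).2
  rw [hP] at hJ1
  have hJd : J.card ≤ d := by
    by_contra hlt
    push Not at hlt
    obtain ⟨J', hJ', hc⟩ := Finset.exists_subset_card_eq (show d + 1 ≤ J.card by omega)
    obtain ⟨F, hF, hne, hv, hTF⟩ := hrel J' hc
    exact hne (hJ1 F hF (hv.trans hJ') hTF)
  have key : ∀ i, ∃ (L : MvPolynomial σ K) (e : ℕ → ℕ → ℕ → MvPolynomial σ K), i ∉ J →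
      L ∉ I ∧ ∀ a n, a ≤ n → (∀ b, (e a n b).vars ⊆ J) ∧
        (∀ b, (e a n b).totalDegree ≤ n * T + a) ∧
        L ^ n * X i ^ a - ∑ b ∈ Finset.range T, e a n b * X i ^ b ∈ I := by
    intro i
    by_cases hi : i ∈ J
    · exact ⟨0, 0, fun h => absurd hi h⟩
    have h1 : ¬ P (insert i J) := by
      intro h
      have h2 := hmax (insert i J) (by simpa using h)
      rw [Finset.card_insert_of_notMem hi] at h2
      omega
    rw [hP] at h1
    push Not at h1
    obtain ⟨F, hF, hv, hTF, hne⟩ := h1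
    obtain ⟨c, hcv, hcT, hFc⟩ := RelHB_dec J i T F hv hTF
    have h2 : ∃ b ∈ Finset.range (T + 1), c b ≠ 0 := by
      by_contra hcon
      push Not at hcon
      apply hne
      rw [hFc]
      apply Finset.sum_eq_zero
      intro b hb
      rw [hcon b hb, zero_mul]
    obtain ⟨t, ht, htmax⟩ := Finset.exists_max_image
      ((Finset.range (T + 1)).filter fun b => c b ≠ 0) id (by
        obtain ⟨b, hb, hb'⟩ := h2
        exact ⟨b, Finset.mem_filter.mpr ⟨hb, hb'⟩⟩)
    rw [Finset.mem_filter, Finset.mem_range] at ht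
    have h3 : F = c t * X i ^ t + ∑ b ∈ Finset.range t, c b * X i ^ b := by
      rw [hFc, add_comm (c t * X i ^ t), ← Finset.sum_range_succ (fun b => c b * X i ^ b)]
      symm
      apply Finset.sum_subset
      · intro b hb
        rw [Finset.mem_range] at hb ⊢
        omega
      · intro b hb hb'
        have : c b = 0 := by
          by_contra hne'
          have := htmax b (Finset.mem_filter.mpr ⟨hb, hne'⟩)
          rw [Finset.mem_range] at hb'
          simp only [id] at this
          omega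
        rw [this, zero_mul]
    have ht1 : 1 ≤ t := by
      by_contra h0
      have h0' : t = 0 := by omega
      subst h0'
      apply hne
      apply hJ1 F hF
      · rw [h3]; simpa using hcv 0
      · exact hTF
    have hcI : c t ∉ I := by
      intro h
      exact ht.2 (hJ1 _ h (hcv t) ((hcT t (by omega)).trans (Nat.sub_le _ _)))
    have h4 : ∀ a n : ℕ, ∃ e : ℕ → MvPolynomial σ K, a ≤ n → (∀ b, (e b).vars ⊆ J) ∧
        (∀ b, (e b).totalDegree ≤ n * T + a) ∧
        c t ^ n * X i ^ a - ∑ b ∈ Finset.range T, e b * X i ^ b ∈ I := by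
      intro a n
      by_cases han : a ≤ n
      · obtain ⟨e, he⟩ := RelHB_red I J i T t ht1 (by omega) (c t) (hcv t)
          ((hcT t (by omega)).trans (Nat.sub_le _ _)) c hcv hcT (h3 ▸ hF) a n han
        exact ⟨e, fun _ => he⟩
      · exact ⟨0, fun h => absurd h han⟩
    choose e he using h4
    exact ⟨c t, e, fun _ => ⟨hcI, he⟩⟩
  choose L e hLe using key
  obtain ⟨N, hN⟩ : ∃ N, N = D + Fintype.card σ * (D * T) := ⟨_, rfl⟩
  obtain ⟨s, hs⟩ : ∃ s : Finset (σ →₀ ℕ), s = (Fintype.piFinset fun i =>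
      if i ∈ J then Finset.range (N + 1) else Finset.range T).image
        (fun a => Finsupp.equivFunOnFinite.symm a) := ⟨_, rfl⟩
  have hs1 : ∀ m : σ →₀ ℕ, (∀ i ∈ J, m i ≤ N) → (∀ i, i ∉ J → m i < T) →
      m ∈ (s : Set (σ →₀ ℕ)) := by
    intro m h1 h2
    rw [hs, Finset.coe_image]
    refine ⟨m, ?_, by ext i; simp⟩
    rw [Finset.mem_coe, Fintype.mem_piFinset]
    intro i
    split_ifs with hi
    · exact Finset.mem_range.mpr (by have := h1 i hi; omega)
    · exact Finset.mem_range.mpr (h2 i hi)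
  have hscard : s.card ≤ (Fintype.card σ + 2) ^ Fintype.card σ * T ^ Fintype.card σ * D ^ d := by
    rw [hs]
    refine Finset.card_image_le.trans ?_
    rw [Fintype.card_piFinset]
    have h1 : ∀ i, (if i ∈ J then Finset.range (N + 1) else Finset.range T).card =
        if i ∈ J then N + 1 else T := by
      intro i
      split_ifs <;> simp
    simp only [h1]
    rw [Finset.prod_ite, Finset.prod_const, Finset.prod_const]
    have h2 : (Finset.univ.filter fun i => i ∈ J).card = J.card := by
      congr 1; ext; simp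
    have h3 : (Finset.univ.filter fun i => ¬ i ∈ J).card = Fintype.card σ - J.card := by
      rw [← Finset.card_compl]; congr 1; ext; simp
    rw [h2, h3]
    have hJc : J.card ≤ Fintype.card σ := Finset.card_le_univ J
    have h4 : N + 1 ≤ (Fintype.card σ + 2) * (T * D) := by
      rw [hN]
      nlinarith [Nat.mul_le_mul hT hD, Nat.mul_le_mul_right D hT]
    calc (N + 1) ^ J.card * T ^ (Fintype.card σ - J.card)
        ≤ ((Fintype.card σ + 2) * (T * D)) ^ J.card * T ^ (Fintype.card σ - J.card) :=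
          Nat.mul_le_mul_right _ (Nat.pow_le_pow_left h4 _)
      _ = (Fintype.card σ + 2) ^ J.card * (T ^ J.card * T ^ (Fintype.card σ - J.card)) *
          D ^ J.card := by rw [mul_pow, mul_pow]; ring
      _ = (Fintype.card σ + 2) ^ J.card * T ^ Fintype.card σ * D ^ J.card := by
          rw [← pow_add, Nat.add_sub_cancel' hJc]
      _ ≤ (Fintype.card σ + 2) ^ Fintype.card σ * T ^ Fintype.card σ * D ^ d := by
          apply Nat.mul_le_mul
          · exact Nat.mul_le_mul_right _ (Nat.pow_le_pow_right (by omega) hJc)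
          · exact Nat.pow_le_pow_right hD hJd
  refine le_trans ?_ hscard
  have hLL : (∏ i ∈ Jᶜ, L i) ^ D ∉ I := by
    intro h
    have h1 := hI.mem_of_pow_mem _ h
    rw [hI.prod_mem_iff] at h1
    obtain ⟨i, hi, h2⟩ := h1
    rw [Finset.mem_compl] at hi
    exact (hLe i hi).1 h2
  apply RelHB_cnt I hI ((∏ i ∈ Jᶜ, L i) ^ D) hLL D s
  intro F hF
  rw [← support_sum_monomial_coeff F, Finset.mul_sum]
  apply Submodule.sum_mem
  intro m hm
  have hmD : ∑ i, m i ≤ D := by
    refine le_trans ?_ ((le_totalDegree hm).trans hF)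
    rw [Finsupp.sum_fintype _ _ (fun _ => rfl)]
  have hmi : ∀ i, m i ≤ D := fun i =>
    (Finset.single_le_sum (f := fun i => m i) (fun _ _ => Nat.zero_le _)
      (Finset.mem_univ i)).trans hmD
  have h1 : (∏ i ∈ Jᶜ, L i) ^ D * monomial m (coeff m F) =
      (coeff m F) • ((∏ i ∈ Jᶜ, L i) ^ D * monomial m (1 : K)) := by
    rw [← mul_smul_comm, smul_monomial, smul_eq_mul, mul_one]
  rw [h1]
  apply Submodule.smul_mem
  obtain ⟨g, hg⟩ : ∃ g : σ → ℕ → MvPolynomial σ K,
    g = fun i b => if i ∈ J then X i ^ m i else e i (m i) D b := ⟨_, rfl⟩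
  obtain ⟨t, ht⟩ : ∃ t : σ → Finset ℕ, t = fun i => if i ∈ J then {0} else Finset.range T :=
    ⟨_, rfl⟩
  have h2 : (∏ i ∈ Jᶜ, L i) ^ D * monomial m (1 : K) -
      ∏ i, ∑ b ∈ t i, g i b * X i ^ b ∈ I := by
    rw [← Ideal.Quotient.eq]
    have h3 : (∏ i ∈ Jᶜ, L i) ^ D * monomial m (1 : K) =
        ∏ i, (if i ∈ J then (X i : MvPolynomial σ K) ^ m i else L i ^ D * X i ^ m i) := by
      rw [Finset.prod_ite, Finset.prod_mul_distrib, ← Finset.prod_pow]
      have h4 : (monomial m (1 : K) : MvPolynomial σ K) =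
          (∏ i ∈ Finset.univ.filter (fun i => i ∈ J), (X i : MvPolynomial σ K) ^ m i) *
          ∏ i ∈ Finset.univ.filter (fun i => ¬ i ∈ J), (X i : MvPolynomial σ K) ^ m i := by
        rw [Finset.prod_filter_mul_prod_filter_not, monomial_eq, C_1, one_mul,
          Finsupp.prod_fintype _ _ (fun _ => pow_zero _)]
      have h5 : (Jᶜ : Finset σ) = Finset.univ.filter (fun i => ¬ i ∈ J) := by ext; simp
      rw [h4, h5]; ring
    rw [h3, map_prod, map_prod]
    apply Finset.prod_congr rfl
    intro i _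
    by_cases hi : i ∈ J
    · simp only [hg, ht, if_pos hi, Finset.sum_singleton, pow_zero, mul_one]
    · simp only [hg, ht, if_neg hi]
      rw [Ideal.Quotient.eq]
      exact ((hLe i hi).2 (m i) D (hmi i)).2.2
  have h3 : ∏ i, ∑ b ∈ t i, g i b * X i ^ b ∈
      Submodule.span K ((fun m => monomial m (1 : K)) '' (s : Set (σ →₀ ℕ))) := by
    rw [Finset.prod_univ_sum]
    apply Submodule.sum_mem
    intro b hb
    rw [Fintype.mem_piFinset] at hb
    have hb1 : ∀ i ∈ J, b i = 0 := by
      intro i hi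
      have := hb i
      simpa [ht, hi] using this
    have hb2 : ∀ i, i ∉ J → b i < T := by
      intro i hi
      have := hb i
      simpa [ht, hi] using this
    have h4 : ∏ i, (g i (b i) * (X i : MvPolynomial σ K) ^ b i) =
        (∏ i, g i (b i)) * monomial (Finsupp.equivFunOnFinite.symm b) (1 : K) := by
      rw [Finset.prod_mul_distrib]
      congr 1
      rw [monomial_eq, C_1, one_mul, Finsupp.prod_fintype _ _ (fun _ => pow_zero _)]
      simp
    rw [h4]
    apply RelHB_span J _ N T hs1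
    · refine (vars_prod _).trans ?_
      intro x hx
      rw [Finset.mem_biUnion] at hx
      obtain ⟨i, _, hx⟩ := hx
      by_cases hi : i ∈ J
      · simp only [hg, if_pos hi] at hx
        have := vars_pow _ _ hx
        rw [vars_X, Finset.mem_singleton] at this
        rw [this]; exact hi
      · simp only [hg, if_neg hi] at hx
        exact ((hLe i hi).2 (m i) D (hmi i)).1 _ hx
    · refine (totalDegree_finsetProd _ _).trans ?_
      calc ∑ i, (g i (b i)).totalDegree ≤ ∑ i, (m i + D * T) := by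
            apply Finset.sum_le_sum
            intro i _
            by_cases hi : i ∈ J
            · simp only [hg, if_pos hi]
              refine (totalDegree_X_pow _ _).le.trans ?_
              omega
            · simp only [hg, if_neg hi]
              have := ((hLe i hi).2 (m i) D (hmi i)).2.1 (b i)
              omega
        _ ≤ N := by
            rw [Finset.sum_add_distrib, Finset.sum_const, smul_eq_mul, Finset.card_univ, hN]
            omega
    · intro i hi
      simpa using hb1 i hi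
    · intro i hi
      simpa using hb2 i hi
  have h4 := Submodule.add_mem _ (Submodule.mem_sup_left (T := I.restrictScalars K) h3)
    (Submodule.mem_sup_right (S := Submodule.span K ((fun m => monomial m (1 : K)) ''
      (s : Set (σ →₀ ℕ)))) (show _ ∈ I.restrictScalars K from h2))
  rwa [add_sub_cancel] at h4

end Pool.Agent.Work.MP_91e6de_nt.DMR

end

section

set_option autoImplicit false

/-!
# Item RelZ: the first hypersurface
-/

namespace Pool.Agent.Work.MP_91e6de_nt.DMR

open MvPolynomial NumberField IsDedekindDomain Height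
open Pool.Agent.Work.MP_91e6de_nt.DM (va nv)

section

variable {σ K : Type} [Fintype σ] [Field K]

theorem RelZ_deg_map {τ A B : Type} [CommRing A] [CommRing B] (f : A →+* B)
    (p : MvPolynomial τ A) : (map f p).totalDegree ≤ p.totalDegree :=
  Finset.sup_mono (support_map_subset f p)

/-- the exponent of the monomial with exponents `α (some l)` -/
noncomputable def RelZmon (α : Option σ → ℕ) : σ →₀ ℕ :=
  Finsupp.equivFunOnFinite.symm fun l => α (some l)

theorem RelZmon_apply (α : Option σ → ℕ) (l : σ) : RelZmon α l = α (some l) := rfl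

theorem RelZmon_inj (α β : Option σ → ℕ) (h : RelZmon α = RelZmon β) (h0 : α none = β none) :
    α = β := by
  funext x
  cases x with
  | none => exact h0
  | some l => exact DFunLike.congr_fun h l

/-- the coefficient of `U ^ l` -/
noncomputable def RelZQ (E : Finset (Option σ → ℕ)) (c : (Option σ → ℕ) → K) (l : ℕ) :
    MvPolynomial σ K :=
  ∑ α ∈ E.filter (fun α => α none = l), monomial (RelZmon α) (c α)

theorem RelZQ_coeff (E : Finset (Option σ → ℕ)) (c : (Option σ → ℕ) → K) (α : Option σ → ℕ)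
    (hα : α ∈ E) : (RelZQ E c (α none)).coeff (RelZmon α) = c α := by
  classical
  unfold RelZQ
  rw [coeff_sum, Finset.sum_eq_single α]
  · rw [coeff_monomial, if_pos rfl]
  · intro β hβ hne
    rw [coeff_monomial, if_neg]
    intro h
    exact hne (RelZmon_inj β α h (Finset.mem_filter.mp hβ).2)
  · intro h
    exact (h (Finset.mem_filter.mpr ⟨hα, rfl⟩)).elim

theorem RelZQ_degreeOf (E : Finset (Option σ → ℕ)) (c : (Option σ → ℕ) → K) (l D : ℕ) (j : σ)
    (hE : ∀ α ∈ E, ∀ x, α x ≤ D) : (RelZQ E c l).degreeOf j < D + 1 := by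
  classical
  rw [degreeOf_lt_iff (Nat.succ_pos D)]
  intro m hm
  rw [mem_support_iff] at hm
  unfold RelZQ at hm
  rw [coeff_sum] at hm
  obtain ⟨α, hα, hne⟩ := Finset.exists_ne_zero_of_sum_ne_zero hm
  rw [coeff_monomial] at hne
  have hmα : RelZmon α = m := by
    by_contra h
    rw [if_neg h] at hne
    exact hne rfl
  rw [← hmα, RelZmon_apply]
  have := hE α (Finset.mem_filter.mp hα).1 (some j)
  omega

theorem RelZQ_totalDegree (E : Finset (Option σ → ℕ)) (c : (Option σ → ℕ) → K) (l D : ℕ)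
    (hE : ∀ α ∈ E, ∀ x, α x ≤ D) : (RelZQ E c l).totalDegree ≤ D * Fintype.card σ := by
  unfold RelZQ
  refine (totalDegree_finsetSum _ _).trans (Finset.sup_le fun α hα => ?_)
  refine (totalDegree_monomial_le _ _).trans ?_
  rw [Finsupp.sum_fintype _ _ (fun _ => rfl)]
  calc ∑ l, id (RelZmon α l) ≤ ∑ _l : σ, D := by
        apply Finset.sum_le_sum
        intro l _
        exact hE α (Finset.mem_filter.mp hα).1 (some l)
    _ = D * Fintype.card σ := by
        rw [Finset.sum_const, Finset.card_univ, smul_eq_mul, mul_comm]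

theorem RelZQ_aeval (E : Finset (Option σ → ℕ)) (c : (Option σ → ℕ) → K) (l : ℕ) (P : σ → K) :
    aeval P (RelZQ E c l) =
      ∑ α ∈ E.filter (fun α => α none = l), c α * ∏ x, P x ^ α (some x) := by
  unfold RelZQ
  rw [map_sum]
  apply Finset.sum_congr rfl
  intro α _
  rw [aeval_monomial, Finsupp.prod_fintype _ _ (fun _ => pow_zero _)]
  rfl

/-- the value at a point -/
theorem RelZ_value (E : Finset (Option σ → ℕ)) (c : (Option σ → ℕ) → K) (D : ℕ)
    (hE : ∀ α ∈ E, ∀ x, α x ≤ D) (P : σ → K) (U W : MvPolynomial σ K) (y : Option σ → K)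
    (hs : ∀ l, y (some l) = P l) (hn : aeval P U = aeval P W * y none)
    (h0 : ∑ α ∈ E, c α * ∏ x, y x ^ α x = 0) :
    aeval P (∑ l ∈ Finset.range (D + 1), RelZQ E c l * U ^ l * W ^ (D - l)) = 0 := by
  classical
  rw [map_sum]
  have h1 : ∀ l ∈ Finset.range (D + 1), aeval P (RelZQ E c l * U ^ l * W ^ (D - l)) =
      (aeval P W) ^ D * ∑ α ∈ E.filter (fun α => α none = l), c α * ∏ x, y x ^ α x := by
    intro l hl
    rw [Finset.mem_range] at hl
    rw [map_mul, map_mul, map_pow, map_pow, hn, RelZQ_aeval]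
    have h2 : ∑ α ∈ E.filter (fun α => α none = l), c α * ∏ x, y x ^ α x =
        (∑ α ∈ E.filter (fun α => α none = l), c α * ∏ x, P x ^ α (some x)) * y none ^ l := by
      rw [Finset.sum_mul]
      apply Finset.sum_congr rfl
      intro α hα
      rw [Fintype.prod_option, (Finset.mem_filter.mp hα).2]
      simp only [hs]
      ring
    rw [h2]
    have h3 : (aeval P W) ^ D = (aeval P W) ^ l * (aeval P W) ^ (D - l) := by
      rw [← pow_add]
      congr 1
      omega
    rw [h3]
    ring
  rw [Finset.sum_congr rfl h1, ← Finset.mul_sum]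
  rw [Finset.sum_fiberwise_of_maps_to (g := fun α : Option σ → ℕ => α none)
    (f := fun α => c α * ∏ x, y x ^ α x)]
  · rw [h0, mul_zero]
  · intro α hα
    rw [Finset.mem_range]
    have := hE α hα none
    omega

end

theorem RelZ_num (kap r h D : ℕ) (hD : D = DZ kap r h) :
    2 * 2 ^ r * (7 * kap * (r + 1) * D * h) ^ r ≤ (D + 1) ^ (r + 1) := by
  have e2 : (7 * kap * (r + 1) * D * h) ^ r = (7 * kap * (r + 1) * h) ^ r * D ^ r := by
    rw [← mul_pow]
    congr 1
    ring
  have e1 : 2 * 2 ^ r * (7 * kap * (r + 1) * D * h) ^ r = D ^ (r + 1) := by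
    calc 2 * 2 ^ r * (7 * kap * (r + 1) * D * h) ^ r
        = (2 ^ (r + 1) * (7 * kap * (r + 1) * h) ^ r) * D ^ r := by rw [e2]; ring
      _ = DZ kap r h * D ^ r := rfl
      _ = D * D ^ r := by rw [← hD]
      _ = D ^ (r + 1) := by ring
  rw [e1]
  exact Nat.pow_le_pow_left (by omega) _

theorem pr_RelZ (h1 : S_Rank) (h2 : S_IteG) (h3 : S_IndG) (h4 : S_DegG) : S_RelZ := by
  intro K σ _ _ _ p q e h M k P v a S i j hSet hGood hM hRD
  classical
  set kap := Module.finrank ℚ K with hkap
  set r := Fintype.card σ with hr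
  have hkap1 : 1 ≤ kap := Module.finrank_pos
  have hr1 : 1 ≤ r := Fintype.card_pos_iff.mpr ⟨j⟩
  have hh := hSet.hh
  set D := DZ kap r h with hD
  have hD1 : 1 ≤ D := by
    rw [hD]
    unfold DZ
    have : 0 < 2 ^ (r + 1) * (7 * kap * (r + 1) * h) ^ r := by positivity
    exact this
  set E : Finset (Option σ → ℕ) := Fintype.piFinset (fun _ => Finset.range (D + 1)) with hEdef
  have hE : ∀ α ∈ E, ∀ x, α x ≤ D := by
    intro α hα x
    rw [hEdef, Fintype.mem_piFinset] at hα
    have := hα x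
    rw [Finset.mem_range] at this
    omega
  have hcardE : E.card = (D + 1) ^ (r + 1) := by
    rw [hEdef, Fintype.card_piFinset]
    simp [hr]
  have hbig : 2 * 2 ^ r * (7 * kap * Fintype.card (Option σ) * D * h) ^ r ≤ E.card := by
    rw [hcardE, Fintype.card_option, ← hr]
    exact RelZ_num kap r h D hD
  set W := (itr e p q k).2 with hW
  let U : Option σ → MvPolynomial σ (𝓞 K) := fun x =>
    x.elim ((itr e p q k).1 i) (fun l => X l * W)
  let y : ℕ → Option σ → K := fun n x => x.elim (P (n + k) i) (fun l => P n l)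
  have hite : ∀ n ∈ S, aeval (P n) W ≠ 0 ∧
      (∀ i, aeval (P n) ((itr e p q k).1 i) = aeval (P n) W * P (n + k) i) ∧
      aeval (P n) W = ∏ l ∈ Finset.range k, aeval (P (n + l)) q ^ e ^ (k - 1 - l) := fun n hn =>
    h2 σ (𝓞 K) K e p q hSet.hp hSet.hq M P hSet.orb n k (hM n hn)
  obtain ⟨c, ⟨α0, hα0, hc0⟩, hc⟩ := h1 K σ (Option σ) v ⊥ (2 ^ r) r D h E S P a y U W
    Nat.one_le_two_pow hr1 hD1 hh (by rw [Fintype.card_option]; omega) (by rw [hr]; exact HB_bot)
    hE hbig
    (fun n _ G hG => by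
      rw [Ideal.mem_bot] at hG
      rw [hG, map_zero])
    hGood.cong
    (fun n hn => by
      rw [(hite n hn).2.2, map_prod]
      apply Finset.prod_eq_one
      intro l hl
      rw [map_pow, hGood.unit n hn l (Finset.mem_range.mp hl), one_pow])
    (fun n hn x => by
      cases x with
      | none => exact (hite n hn).2.1 i
      | some l =>
        show aeval (P n) (X l * W) = aeval (P n) W * P n l
        rw [map_mul, aeval_X, mul_comm])
    (fun n hn x => by
      have h5 := hM n hn
      cases x with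
      | none => exact hSet.ht (n + k) h5 i
      | some l => exact hSet.ht n (by omega) l)
  set UK : MvPolynomial σ K := map (algebraMap (𝓞 K) K) ((itr e p q k).1 i) with hUK
  set WK : MvPolynomial σ K := map (algebraMap (𝓞 K) K) W with hWK
  have hWK0 : WK ≠ 0 := by
    intro h0
    have := (hRD 1 0 (by rw [degreeOf_one]; omega) (by rw [degreeOf_zero]; omega)
      (by rw [h0, mul_zero, zero_mul])).1
    exact one_ne_zero this
  refine ⟨∑ l ∈ Finset.range (D + 1), RelZQ E c l * UK ^ l * WK ^ (D - l), ?_, ?_, ?_⟩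
  · intro h0
    have h6 := h3 σ K j (D + 1) D UK WK hWK0 hRD (fun l => RelZQ E c l)
      (fun l => RelZQ_degreeOf E c l D j hE) h0 (α0 none) (hE α0 hα0 none)
    have h7 := RelZQ_coeff E c α0 hα0
    rw [show RelZQ E c (α0 none) = 0 from h6, coeff_zero] at h7
    exact hc0 h7.symm
  · have hdeg := h4 σ (𝓞 K) e p q hSet.he hSet.hp hSet.hq k
    have hUd : UK.totalDegree ≤ e ^ k := (RelZ_deg_map _ _).trans (hdeg.1 i)
    have hWd : WK.totalDegree ≤ e ^ k := (RelZ_deg_map _ _).trans hdeg.2
    refine (totalDegree_finsetSum _ _).trans (Finset.sup_le fun l hl => ?_)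
    rw [Finset.mem_range] at hl
    refine (totalDegree_mul _ _).trans ?_
    have a1 : (RelZQ E c l * UK ^ l).totalDegree ≤ D * r + l * e ^ k := by
      refine (totalDegree_mul _ _).trans ?_
      apply Nat.add_le_add (RelZQ_totalDegree E c l D hE)
      exact (totalDegree_pow _ _).trans (Nat.mul_le_mul_left _ hUd)
    have a2 : (WK ^ (D - l)).totalDegree ≤ (D - l) * e ^ k :=
      (totalDegree_pow _ _).trans (Nat.mul_le_mul_left _ hWd)
    have a3 : l * e ^ k + (D - l) * e ^ k = D * e ^ k := by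
      rw [← Nat.add_mul]
      congr 1
      omega
    calc (RelZQ E c l * UK ^ l).totalDegree + (WK ^ (D - l)).totalDegree
        ≤ (D * r + l * e ^ k) + (D - l) * e ^ k := Nat.add_le_add a1 a2
      _ = D * r + (l * e ^ k + (D - l) * e ^ k) := by ring
      _ = D * (r + e ^ k) := by rw [a3]; ring
  · intro n hn
    refine RelZ_value E c D hE (P n) UK WK (y n) (fun l => rfl) ?_ (hc n hn)
    rw [hUK, hWK, aeval_map_algebraMap, aeval_map_algebraMap]
    exact (hite n hn).2.1 i

end Pool.Agent.Work.MP_91e6de_nt.DMR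

end

section

set_option autoImplicit false

/-!
# Item Start: the first level
-/

namespace Pool.Agent.Work.MP_91e6de_nt.DMR

open MvPolynomial NumberField IsDedekindDomain Height
open Pool.Agent.Work.MP_91e6de_nt.DM (va nv)

theorem pr_Start (h1 : S_Good) (h2 : S_RelZ) (h3 : S_Down) : S_Start := by
  intro K σ _ _ _ p q e h M N k P i j hset hNk hRD
  have hr : 1 ≤ Fintype.card σ := Fintype.card_pos_iff.2 ⟨i⟩
  have hS0 : ∀ n ∈ Finset.range (N + 1), n + k ≤ M := by
    intro n hn
    rw [Finset.mem_range] at hn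
    omega
  obtain ⟨v, a, S', hS', hcard, hgood⟩ := h1 K σ p q e h M k P (Finset.range (N + 1)) hset hr hS0
  rw [Finset.card_range] at hcard
  obtain ⟨E, hE0, hEdeg, hEv⟩ := h2 K σ p q e h M k P v a S' i j hset hgood
    (fun n hn => hS0 n (hS' hn)) hRD
  have hne : S'.Nonempty := by
    rw [Finset.nonempty_iff_ne_empty]
    intro h0
    rw [h0, Finset.card_empty, Nat.zero_mul] at hcard
    omega
  obtain ⟨r, hrr⟩ : ∃ r, Fintype.card σ = r + 1 := ⟨Fintype.card σ - 1, by omega⟩
  have hLv : Lv P (⊥ : Ideal (MvPolynomial σ K)) S' (r + 1) (2 ^ (r + 1))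
      (LG (Module.finrank ℚ K) (Fintype.card σ) k h) N N := by
    refine ⟨Ideal.isPrime_bot, ?_, ?_, by omega, ?_, ?_⟩
    · rw [← hrr]
      exact Dim_bot
    · rw [← hrr]
      exact HB_bot
    · intro n hn
      have := hS' hn
      rw [Finset.mem_range] at this
      omega
    · intro n _ G hG
      rw [Ideal.mem_bot] at hG
      rw [hG, map_zero]
  obtain ⟨I', S'', hI'⟩ := h3 σ K P ⊥ E S' r (2 ^ (r + 1))
    (LG (Module.finrank ℚ K) (Fintype.card σ) k h) N N
    (DZ (Module.finrank ℚ K) (Fintype.card σ) h * (Fintype.card σ + e ^ k)) hLv hne hEdeg hEv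
    (by rw [Ideal.mem_bot]; exact hE0)
  refine ⟨I', S'', ?_⟩
  have e1 : BZ (Module.finrank ℚ K) (Fintype.card σ) e k h =
      (DZ (Module.finrank ℚ K) (Fintype.card σ) h * (Fintype.card σ + e ^ k) + 1) ^ (r + 1) *
        2 ^ (r + 1) := by
    unfold BZ
    rw [← hrr]
  have e2 : Fintype.card σ - 1 = r := by omega
  rw [e1, e2]
  exact hI'

end Pool.Agent.Work.MP_91e6de_nt.DMR

end

section

set_option autoImplicit false

/-!
# Item Step: one step of the chain
-/

namespace Pool.Agent.Work.MP_91e6de_nt.DMR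

open MvPolynomial NumberField IsDedekindDomain Height
open Pool.Agent.Work.MP_91e6de_nt.DM (va nv)

theorem Step_TT_pos {kap d B h : ℕ} (hk : 1 ≤ kap) (hB : 1 ≤ B) (hh : 1 ≤ h) :
    1 ≤ TT kap d B h := by
  unfold TT
  have h1 : 0 < (7 * kap * (d + 1) * h) ^ d := by positivity
  have h2 : 0 < (d + 1) * (2 * B * (7 * kap * (d + 1) * h) ^ d) := by positivity
  exact h2

theorem Step_deg_map {σ A B : Type} [CommRing A] [CommRing B] (f : A →+* B)
    (p : MvPolynomial σ A) : (map f p).totalDegree ≤ p.totalDegree :=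
  Finset.sup_mono (support_map_subset f p)

theorem Step_BW_le_BS (kap r e d B h : ℕ) : BW kap r e d B h ≤ BS kap r e d B h := by
  unfold BS
  have h1 : 1 ≤ (TT kap d B h + QQ d B + 1) ^ d := Nat.one_le_pow _ _ (by omega)
  calc BW kap r e d B h = 1 * BW kap r e d B h := (one_mul _).symm
    _ ≤ (TT kap d B h + QQ d B + 1) ^ d * BW kap r e d B h := Nat.mul_le_mul_right _ h1

theorem Step_BW_pos {kap r e d B h : ℕ} (hB : 1 ≤ B) : 1 ≤ BW kap r e d B h := by
  unfold BW
  have h1 : 0 < (e + 1) ^ d := by positivity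
  have h2 : 0 < d.factorial := Nat.factorial_pos d
  have h3 : 0 < B + B1 kap r d B h := by omega
  have h4 : 0 < (B + B1 kap r d B h) * (e + 1) ^ d * d.factorial := by positivity
  exact h4

theorem pr_Step (h1 : S_PushEx) (h2 : S_PushPt) (h3 : S_PushDim) (h4 : S_Rel) (h5 : S_Down)
    (h6 : S_RelHB) : S_Step := by
  intro K σ _ _ _ p q e h M P v a I0 I S G i d B L N R R' b hSet hGood hB hd hHB0 hOn0 hSne hbd
    hR hN hi hIp hDim hHBI hb hOnI hno
  classical
  have hkap : 1 ≤ Module.finrank ℚ K := Module.finrank_pos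
  have hqK : ∀ m, aeval (P m) (map (algebraMap (𝓞 K) K) q) = aeval (P m) q := fun m =>
    aeval_map_algebraMap K (P m) q
  have hpK : ∀ m l, aeval (P m) (map (algebraMap (𝓞 K) K) (p l)) = aeval (P m) (p l) :=
    fun m l => aeval_map_algebraMap K (P m) (p l)
  have horb : ∀ n ∈ S, aeval (P (n + i)) q ≠ 0 ∧
      ∀ l, aeval (P (n + i)) q * P (n + i + 1) l = aeval (P (n + i)) (p l) := by
    intro n hn
    exact hSet.orb (n + i) (by have := (hbd n hn).1; omega)
  have hqI : map (algebraMap (𝓞 K) K) q ∉ I := by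
    intro hq
    obtain ⟨n0, hn0⟩ := hSne
    have := hOnI n0 hn0 _ hq
    rw [hqK] at this
    exact (horb n0 hn0).1 this
  obtain ⟨J, hJp, hPush⟩ := h1 σ K (fun l => map (algebraMap (𝓞 K) K) (p l))
    (map (algebraMap (𝓞 K) K) q) I hIp hqI
  have hOnJ : ∀ n ∈ S, On J (P (n + (i + 1))) := by
    intro n hn
    have e1 : n + (i + 1) = n + i + 1 := by omega
    rw [e1]
    refine h2 σ K _ _ I J (P (n + i)) (P (n + i + 1)) hPush (hOnI n hn) ?_ ?_
    · rw [hqK]
      exact (horb n hn).1
    · intro l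
      rw [hqK, hpK]
      exact (horb n hn).2 l
  obtain ⟨d', hd', hDimJ, hHBJ⟩ := h3 σ K (fun l => map (algebraMap (𝓞 K) K) (p l))
    (map (algebraMap (𝓞 K) K) q) e b d I J
    (fun l => (Step_deg_map _ _).trans (hSet.hp l))
    ((Step_deg_map _ _).trans hSet.hq) hIp hJp hPush hDim hHBI
  set kap := Module.finrank ℚ K with hkapdef
  set r := Fintype.card σ with hrdef
  have hweak : b * (e + 1) ^ d * (d - d').factorial ≤ BW kap r e d B h := by
    unfold BW
    apply Nat.mul_le_mul
    · exact Nat.mul_le_mul_right _ hb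
    · exact Nat.factorial_le (by omega)
  have hHBW : HB J (BW kap r e d B h) d' := HB_mono hHBJ hweak
  set S1 : Finset ℕ := S.image (fun n => n + (i + 1)) with hS1
  have hS1card : S1.card = S.card :=
    Finset.card_image_of_injective _ (fun x y hxy => by simpa using hxy)
  have hS1bd : ∀ n ∈ S1, n ≤ R' := by
    intro n hn
    rw [hS1, Finset.mem_image] at hn
    obtain ⟨m, hm, rfl⟩ := hn
    have := (hbd m hm).2
    omega
  have hS1on : ∀ n ∈ S1, On J (P n) := by
    intro n hn
    rw [hS1, Finset.mem_image] at hn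
    obtain ⟨m, hm, rfl⟩ := hn
    exact hOnJ m hm
  have hS1ne : S1.Nonempty := hSne.image _
  have hdd : d' = d := by
    by_contra hne
    have hlt : d' < d := lt_of_le_of_ne hd' hne
    apply hno d' hlt J S1
    have hBS : 1 ≤ BS kap r e d B h := (Step_BW_pos hB).trans (Step_BW_le_BS _ _ _ _ _ _)
    refine ⟨hJp, hDimJ, HB_mono hHBW (Step_BW_le_BS _ _ _ _ _ _), ?_, hS1bd, hS1on⟩
    rw [hS1card]
    refine hN.trans (Nat.mul_le_mul_left _ ?_)
    have hf : 1 ≤ (d - 1).factorial * BS kap r e d B h :=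
      Nat.mul_le_mul (Nat.factorial_pos _) hBS
    calc L = L * 1 := (mul_one _).symm
      _ ≤ L * ((d - 1).factorial * BS kap r e d B h) := Nat.mul_le_mul_left _ hf
  subst hdd
  refine ⟨J, hJp, hPush, hDimJ, ?_, hOnJ⟩
  have hTT : 1 ≤ TT kap d' B h := Step_TT_pos hkap hB hSet.hh
  have hfin := h6 σ K J (TT kap d' B h) d' hJp hTT (by
    intro J0 hJ0
    obtain ⟨F, hF0, hFv, hFd, hFP⟩ := h4 K σ p q e h M G B d' (i + 1) P v a I0 S J0 hSet hGood hB
      hd hHB0 (by omega) (fun n hn => (hbd n hn).1) hOn0 hJ0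
    refine ⟨F, ?_, hF0, hFv, hFd⟩
    by_contra hFJ
    obtain ⟨m, rfl⟩ : ∃ m, d' = m + 1 := ⟨d' - 1, by omega⟩
    have hLv : Lv P J S1 (m + 1) (BW kap r e (m + 1) B h) L N R' :=
      ⟨hJp, hDimJ, hHBW, by rw [hS1card]; exact hN, hS1bd, hS1on⟩
    obtain ⟨I', S', hLv'⟩ := h5 σ K P J F S1 m (BW kap r e (m + 1) B h) L N R'
      (TT kap (m + 1) B h + QQ (m + 1) B) hLv hS1ne (hFd.trans (Nat.le_add_right _ _)) (by
        intro n hn
        rw [hS1, Finset.mem_image] at hn
        obtain ⟨n', hn', rfl⟩ := hn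
        exact hFP n' hn') hFJ
    exact hno m (by omega) I' S' hLv')
  exact hfin

end Pool.Agent.Work.MP_91e6de_nt.DMR

end

section

set_option autoImplicit false

namespace Pool.Agent.Work.MP_91e6de_nt.DMR

open MvPolynomial

theorem trans_mem {σ K : Type} [Field K] (I : Ideal (MvPolynomial σ K)) (J : Finset σ)
    (Q : MvPolynomial σ K) (hQ : Q.vars ⊆ J) :
    Ideal.Quotient.mk I Q ∈ Algebra.adjoin K
      (Set.range (fun i : J => Ideal.Quotient.mk I (X (i : σ) : MvPolynomial σ K))) := by
  have h1 : Q ∈ supported K (J : Set σ) := mem_supported.2 (by exact_mod_cast hQ)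
  have h2 : Ideal.Quotient.mkₐ K I Q ∈ (supported K (J : Set σ)).map (Ideal.Quotient.mkₐ K I) :=
    Subalgebra.mem_map.2 ⟨Q, h1, rfl⟩
  rw [supported, AlgHom.map_adjoin] at h2
  refine Algebra.adjoin_mono ?_ h2
  rintro _ ⟨_, ⟨i, hi, rfl⟩, rfl⟩
  exact ⟨⟨i, hi⟩, rfl⟩

theorem pr_Trans (h1 : S_DimTr) : S_Trans := by
  intro σ K _ _ _ I d J hI hd hJd hJ
  by_contra hcon
  push Not at hcon
  have := hI
  obtain ⟨h1a, h1b⟩ := h1 σ K I hI
  apply hJ
  set x : J → MvPolynomial σ K ⧸ I := fun i => Ideal.Quotient.mk I (X (i : σ)) with hx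
  set R := Algebra.adjoin K (Set.range x) with hR
  have hRx : ∀ Q : MvPolynomial σ K, Q.vars ⊆ J → Ideal.Quotient.mk I Q ∈ R :=
    fun Q hQ => trans_mem I J Q hQ
  have halg : ∀ i : σ, IsAlgebraic R (Ideal.Quotient.mk I (X i)) := by
    intro i
    by_cases hi : i ∈ J
    · have : Ideal.Quotient.mk I (X i : MvPolynomial σ K) ∈ R :=
        Algebra.subset_adjoin ⟨⟨i, hi⟩, rfl⟩
      exact isAlgebraic_algebraMap (A := MvPolynomial σ K ⧸ I)
        (⟨Ideal.Quotient.mk I (X i : MvPolynomial σ K), this⟩ : R)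
    · obtain ⟨g, Q, hQv, hsum, l, hl, hQl⟩ := hcon i hi
      refine ⟨∑ l ∈ Finset.range (g + 1), Polynomial.C
        (⟨Ideal.Quotient.mk I (Q l), hRx _ (hQv l)⟩ : R) * Polynomial.X ^ l, ?_, ?_⟩
      · intro h0
        have h2 := congrArg (fun p => Polynomial.coeff p l) h0
        simp only [Polynomial.finsetSum_coeff, Polynomial.coeff_C_mul, Polynomial.coeff_X_pow,
          mul_ite, mul_one, mul_zero, Polynomial.coeff_zero] at h2
        rw [Finset.sum_ite_eq, if_pos (Finset.mem_range.2 (by omega))] at h2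
        apply hQl
        rw [← Ideal.Quotient.eq_zero_iff_mem]
        exact congrArg Subtype.val h2
      · rw [map_sum]
        simp only [map_mul, Polynomial.aeval_C, map_pow, Polynomial.aeval_X]
        have h3 := Ideal.Quotient.eq_zero_iff_mem.2 hsum
        rw [map_sum] at h3
        simp only [map_mul, map_pow] at h3
        exact h3
  have hAlg : Algebra.IsAlgebraic R (MvPolynomial σ K ⧸ I) := by
    constructor
    intro a
    obtain ⟨F, rfl⟩ := Ideal.Quotient.mk_surjective a
    rw [← Subalgebra.mem_algebraicClosure]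
    induction F using MvPolynomial.induction_on with
    | C c =>
      have : (Ideal.Quotient.mk I (C c) : MvPolynomial σ K ⧸ I) =
        algebraMap R (MvPolynomial σ K ⧸ I) (algebraMap K R c) := rfl
      rw [this]
      exact Subalgebra.algebraMap_mem _ _
    | add p q hp hq =>
      rw [map_add]
      exact Subalgebra.add_mem _ hp hq
    | mul_X p i hp =>
      rw [map_mul]
      exact Subalgebra.mul_mem _ hp ((Subalgebra.mem_algebraicClosure _ _).2 (halg i))
  have htr : Algebra.trdeg K (MvPolynomial σ K ⧸ I) = d := (h1b d).1 hd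
  have hb : IsTranscendenceBasis K x := by
    have : Algebra.IsAlgebraic (Algebra.adjoin K (Set.range x)) (MvPolynomial σ K ⧸ I) := hAlg
    apply Algebra.IsAlgebraic.isTranscendenceBasis_of_le_trdeg_of_finite K x
    rw [htr]
    simp only [Cardinal.mk_coe_finset]
    exact_mod_cast hJd
  exact (h1a J).2 hb.1

end Pool.Agent.Work.MP_91e6de_nt.DMR

end

section

set_option autoImplicit false

/-!
# Item VanG: the product formula argument (helper55, generalising DM/I_Van.lean of helper39)
-/

namespace Pool.Agent.Work.MP_91e6de_nt.DMR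

open MvPolynomial NumberField IsDedekindDomain Height
open Pool.Agent.Work.MP_91e6de_nt.DM (va nv)

lemma VanG_prod_le {τ : Type} [Fintype τ] {K : Type} [Field K] (w : AbsoluteValue K ℝ) (D : ℕ) (x : τ → K)
    (e : τ → ℕ) (he : ∀ i, e i ≤ D) :
    w (∏ i, x i ^ e i) ≤ ∏ i, max (w (x i)) 1 ^ D := by
  rw [map_prod]
  refine Finset.prod_le_prod (fun i _ => w.nonneg _) fun i _ => ?_
  rw [map_pow]
  exact (pow_le_pow_left₀ (w.nonneg _) (le_max_left _ _) _).trans
    (pow_le_pow_right₀ (le_max_right _ _) (he i))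

lemma VanG_B_nonneg {τ : Type} [Fintype τ] {K : Type} [Field K] (w : AbsoluteValue K ℝ) (D : ℕ) (x : τ → K) :
    0 ≤ ∏ i, max (w (x i)) 1 ^ D :=
  Finset.prod_nonneg fun i _ => pow_nonneg (zero_le_one.trans (le_max_right _ _)) _

lemma VanG_arch {τ : Type} [Fintype τ] {K : Type} [Field K] [NumberField K] (v : InfinitePlace K) {J : Type} [Fintype J]
    (ex : J → τ → ℕ) (c : J → ℤ) (X D : ℕ) (x : τ → K) (hc : ∀ j, |c j| ≤ X)
    (hex : ∀ j i, ex j i ≤ D) :
    v (∑ j, (c j : K) * ∏ i, x i ^ ex j i) ≤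
      (Fintype.card J * X : ℕ) * ∏ i, max (v (x i)) 1 ^ D := by
  have h1 : v.1 (∑ j, (c j : K) * ∏ i, x i ^ ex j i) ≤
      ∑ j : J, v.1 ((c j : K) * ∏ i, x i ^ ex j i) := v.1.sum_le _ _
  refine h1.trans ?_
  have h2 : ∀ j ∈ (Finset.univ : Finset J), v.1 ((c j : K) * ∏ i, x i ^ ex j i) ≤
      X * ∏ i, max (v (x i)) 1 ^ D := by
    intro j _
    rw [map_mul]
    have h3 : v.1 (c j : K) ≤ X := by
      have h4 : v.1 (c j : K) = ‖v.embedding (c j : K)‖ :=
        (InfinitePlace.norm_embedding_eq v (c j : K)).symm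
      rw [h4, map_intCast, Complex.norm_intCast]
      exact_mod_cast hc j
    exact mul_le_mul h3 (VanG_prod_le v.1 D x (ex j) (hex j)) (v.1.nonneg _) (Nat.cast_nonneg _)
  refine (Finset.sum_le_sum h2).trans ?_
  rw [Finset.sum_const, Finset.card_univ, nsmul_eq_mul]
  push_cast
  rw [mul_assoc]

lemma VanG_sum_le {K : Type} [Field K] [NumberField K] (w : FinitePlace K) {J : Type}
    (f : J → K) (B : ℝ) (hB : 0 ≤ B) (hf : ∀ j, w (f j) ≤ B) (s : Finset J) :
    w (∑ j ∈ s, f j) ≤ B := by
  classical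
  induction s using Finset.induction_on with
  | empty => simpa using hB
  | insert a s ha ih =>
    rw [Finset.sum_insert ha]
    exact (w.add_le _ _).trans (max_le (hf a) ih)

lemma VanG_int_le {K : Type} [Field K] [NumberField K] (w : FinitePlace K) (n : ℤ) :
    w (n : K) ≤ 1 := by
  rw [← FinitePlace.mk_maximalIdeal w, FinitePlace.mk_apply, FinitePlace.norm_embedding]
  exact HeightOneSpectrum.adicAbv_intCast_le_one _ _ n

lemma VanG_fin {τ : Type} [Fintype τ] {K : Type} [Field K] [NumberField K] (w : FinitePlace K) {J : Type} [Fintype J]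
    (ex : J → τ → ℕ) (c : J → ℤ) (D : ℕ) (x : τ → K)
    (hex : ∀ j i, ex j i ≤ D) :
    w (∑ j, (c j : K) * ∏ i, x i ^ ex j i) ≤ ∏ i, max (w (x i)) 1 ^ D := by
  refine VanG_sum_le w _ _ (VanG_B_nonneg w.1 D x) (fun j => ?_) _
  rw [map_mul]
  calc w (c j : K) * w (∏ i, x i ^ ex j i) ≤ 1 * ∏ i, max (w (x i)) 1 ^ D :=
        mul_le_mul (VanG_int_le w _) (VanG_prod_le w.1 D x (ex j) (hex j)) (w.1.nonneg _) zero_le_one
    _ = _ := one_mul _

lemma VanG_supp {K : Type} [Field K] [NumberField K] (x : K) :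
    (Function.mulSupport fun w : FinitePlace K => max (w x) 1).Finite := by
  rcases eq_or_ne x 0 with rfl | hx
  · have h0 : (Function.mulSupport fun w : FinitePlace K => max (w (0 : K)) 1) = ∅ := by
      ext w
      simp
    rw [h0]
    exact Set.finite_empty
  · refine (FinitePlace.hasFiniteMulSupport hx).subset ?_
    intro w hw h
    apply hw
    have h' : w x = 1 := h
    change max (w x) 1 = 1
    rw [h', max_self]

theorem pr_VanG : S_VanG := by
  classical
  intro K τ J _ _ _ _ v ex c X D x θ hX hc hex hθ hlt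
  by_contra hg
  set g : K := ∑ j, (c j : K) * ∏ i, x i ^ ex j i with hgdef
  set w0 : FinitePlace K := FinitePlace.mk v with hw0
  have hw0g : w0 g ≤ θ := by
    rw [hw0, FinitePlace.mk_apply, FinitePlace.norm_embedding]
    exact hθ
  have hθ0 : 0 ≤ θ := (w0.1.nonneg g).trans hw0g
  -- a common finite set of finite places
  obtain ⟨S, hS0, hSg, hSx⟩ : ∃ S : Finset (FinitePlace K), w0 ∈ S ∧
      (Function.mulSupport fun w : FinitePlace K => w g) ⊆ S ∧
      ∀ i, (Function.mulSupport fun w : FinitePlace K => max (w (x i)) 1) ⊆ S := by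
    refine ⟨{w0} ∪ (FinitePlace.hasFiniteMulSupport hg).toFinset ∪
      Finset.univ.biUnion fun i => (VanG_supp (x i)).toFinset, ?_, ?_, ?_⟩
    · simp
    · intro w hw
      rw [Finset.mem_coe, Finset.mem_union, Finset.mem_union]
      exact Or.inl (Or.inr ((Set.Finite.mem_toFinset _).2 hw))
    · intro i w hw
      rw [Finset.mem_coe, Finset.mem_union]
      refine Or.inr ?_
      rw [Finset.mem_biUnion]
      exact ⟨i, Finset.mem_univ _, (Set.Finite.mem_toFinset _).2 hw⟩
  have hpf := NumberField.prod_abs_eq_one hg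
  have hfin1 : ∏ᶠ w : FinitePlace K, w g = ∏ w ∈ S, w g :=
    finprod_eq_prod_of_mulSupport_subset _ hSg
  have hfin2 : ∀ i, ∏ᶠ w : FinitePlace K, max (w (x i)) 1 = ∏ w ∈ S, max (w (x i)) 1 :=
    fun i => finprod_eq_prod_of_mulSupport_subset _ (hSx i)
  have hfin3 : ∏ w ∈ S, w g ≤ θ * ∏ i, (∏ᶠ w : FinitePlace K, max (w (x i)) 1) ^ D := by
    have h1 : ∏ w ∈ S, w g ≤
        ∏ w ∈ S, ((if w = w0 then θ else 1) * ∏ i, max (w (x i)) 1 ^ D) := by
      refine Finset.prod_le_prod (fun w _ => w.1.nonneg _) fun w _ => ?_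
      split_ifs with h
      · rw [h]
        refine hw0g.trans ?_
        have h2 : (1 : ℝ) ≤ ∏ i, max (w0 (x i)) 1 ^ D := by
          have h3 : ∏ _i : τ, (1 : ℝ) ≤ ∏ i, max (w0 (x i)) 1 ^ D :=
            Finset.prod_le_prod (fun i _ => zero_le_one) fun i _ => one_le_pow₀ (le_max_right _ _)
          rwa [Finset.prod_const_one] at h3
        nlinarith
      · rw [one_mul]
        exact VanG_fin w ex c D x hex
    refine h1.trans (le_of_eq ?_)
    rw [Finset.prod_mul_distrib, Finset.prod_ite_eq' S w0 (fun _ => θ), if_pos hS0,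
      Finset.prod_comm]
    congr 1
    refine Finset.prod_congr rfl fun i _ => ?_
    rw [hfin2, Finset.prod_pow]
  have hinf : ∏ v : InfinitePlace K, v g ^ v.mult ≤
      ((Fintype.card J * X : ℕ) : ℝ) ^ Module.finrank ℚ K *
        ∏ i, (∏ v : InfinitePlace K, max (v (x i)) 1 ^ v.mult) ^ D := by
    have h1 : ∏ v : InfinitePlace K, v g ^ v.mult ≤ ∏ v : InfinitePlace K,
        (((Fintype.card J * X : ℕ) : ℝ) * ∏ i, max (v (x i)) 1 ^ D) ^ v.mult := by
      refine Finset.prod_le_prod (fun w _ => pow_nonneg (w.1.nonneg _) _) fun w _ => ?_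
      exact pow_le_pow_left₀ (w.1.nonneg _) (VanG_arch w ex c X D x hc hex) _
    refine h1.trans (le_of_eq ?_)
    simp_rw [mul_pow]
    rw [Finset.prod_mul_distrib, Finset.prod_pow_eq_pow_sum, InfinitePlace.sum_mult_eq]
    congr 1
    simp_rw [← Finset.prod_pow]
    rw [Finset.prod_comm]
    refine Finset.prod_congr rfl fun i _ => ?_
    refine Finset.prod_congr rfl fun w _ => ?_
    rw [← pow_mul, ← pow_mul, mul_comm]
  have hH : ∏ i, mulHeight₁ (x i) ^ D =
      (∏ i, (∏ v : InfinitePlace K, max (v (x i)) 1 ^ v.mult) ^ D) *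
        ∏ i, (∏ᶠ w : FinitePlace K, max (w (x i)) 1) ^ D := by
    rw [← Finset.prod_mul_distrib]
    refine Finset.prod_congr rfl fun i _ => ?_
    rw [NumberField.mulHeight₁_eq, mul_pow]
  have hfinal : (1 : ℝ) ≤ θ * (((Fintype.card J * X : ℕ) : ℝ) ^ Module.finrank ℚ K *
      ∏ i, mulHeight₁ (x i) ^ D) := by
    rw [hfin1] at hpf
    rw [← hpf, hH]
    calc (∏ v : InfinitePlace K, v g ^ v.mult) * ∏ w ∈ S, w g ≤
        (((Fintype.card J * X : ℕ) : ℝ) ^ Module.finrank ℚ K *
          ∏ i, (∏ v : InfinitePlace K, max (v (x i)) 1 ^ v.mult) ^ D) *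
          (θ * ∏ i, (∏ᶠ w : FinitePlace K, max (w (x i)) 1) ^ D) := by
          refine mul_le_mul hinf hfin3 (Finset.prod_nonneg fun w _ => w.1.nonneg _) ?_
          refine mul_nonneg (by positivity) (Finset.prod_nonneg fun i _ => pow_nonneg
            (Finset.prod_nonneg fun w _ => pow_nonneg (zero_le_one.trans (le_max_right _ _)) _) _)
      _ = _ := by ring
  linarith

end Pool.Agent.Work.MP_91e6de_nt.DMR

end

section

set_option autoImplicit false

/-! Assembly: everything without hypotheses. -/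

namespace Pool.Agent.Work.MP_91e6de_nt.DM

theorem all_Plc : S_Plc := pr_Plc pr_Prm
theorem all_Ite : S_Ite := pr_Ite pr_HsEv
theorem all_Cov1 : S_Cov1 := pr_Cov1 pr_Pig pr_Van pr_Cls pr_HsEv all_Ite pr_Deg pr_Ind
theorem all_Cov : S_Cov := pr_Cov pr_Bad all_Plc pr_Avg all_Cov1 pr_Fac
theorem all_Chn : S_Chn := pr_Chn pr_HsEv pr_Bez pr_Gap
theorem all_Tail : S_Tail := pr_Tail pr_HsEv
theorem all_HL : S_HL := pr_HL pr_Res
theorem all_SkIt : S_SkIt := pr_SkIt pr_Res
theorem all_ItrY : S_ItrY := pr_ItrY pr_HsEv all_SkIt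
theorem all_T1A : S_T1A := pr_T1A all_Cov all_Chn pr_Par all_Tail all_SkIt pr_SkRD all_ItrY
  pr_MapI pr_HX pr_PoH
theorem all_Slw : S_Slw := pr_Slw all_T1A (pr_Chg pr_Res) pr_Bck pr_HX
theorem all_DgG : S_DgG := pr_DgG pr_DgY all_SkIt pr_SkRD
theorem all_ThI : S_ThI := pr_ThI pr_HU all_HL pr_HX pr_Dic pr_UB pr_Lim all_Slw all_DgG

end Pool.Agent.Work.MP_91e6de_nt.DM

end

section

set_option autoImplicit false

/-! # DMR, item CoDB: degrees in the chart -/

namespace Pool.Agent.Work.MP_91e6de_nt.DMR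

open MvPolynomial

theorem codb_X {σ A : Type} [CommRing A] (i : σ) :
    (X i : MvPolynomial σ A).totalDegree ≤ 1 := by
  rcases subsingleton_or_nontrivial A with h | h
  · have : (X i : MvPolynomial σ A) = 0 := Subsingleton.elim _ _
    rw [this, totalDegree_zero]
    exact Nat.zero_le _
  · rw [totalDegree_X]

theorem codb_nat {σ A : Type} [CommRing A] (n : ℕ) :
    ((n : ℕ) : MvPolynomial σ A).totalDegree = 0 := by
  have : ((n : ℕ) : MvPolynomial σ A) = C (n : A) := by simp
  rw [this, totalDegree_C]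

theorem codb_natmul {σ A : Type} [CommRing A] (n : ℕ) (p : MvPolynomial σ A) :
    (((n : ℕ) : MvPolynomial σ A) * p).totalDegree ≤ p.totalDegree := by
  refine (totalDegree_mul _ _).trans ?_
  rw [codb_nat, zero_add]

/-- the homogeneous coordinates have degree at most one -/
theorem codb_hc {s m : ℕ} {A : Type} [CommRing A] (a : Fin m → ℕ) (i : Fin (m + 1)) :
    (hc a (fun j => (X (Sum.inr j) : MvPolynomial (Fin s ⊕ Fin m) A)) i).totalDegree ≤ 1 := by
  refine Fin.lastCases ?_ (fun j => ?_) i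
  · simp only [hc, Fin.snoc_last]
    refine (totalDegree_sub _ _).trans (max_le (by simp) ?_)
    refine (totalDegree_finsetSum _ _).trans (Finset.sup_le fun j _ => ?_)
    exact (codb_natmul _ _).trans (codb_X _)
  · simp only [hc, Fin.snoc_castSucc]
    exact codb_X _

/-- degrees of restrictions of forms -/
theorem codb_dh {s m : ℕ} {A : Type} [CommRing A]
    (G : MvPolynomial (Fin (m + 1)) (MvPolynomial (Fin s) A)) :
    ∃ E : ℕ, ∀ a : Fin m → ℕ, (dhB a G).totalDegree ≤ E := by
  refine ⟨G.support.sup fun u => (G.coeff u).totalDegree + ∑ i, u i, fun a => ?_⟩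
  rw [dhB, ev_eq_sum]
  refine (totalDegree_finsetSum _ _).trans (Finset.sup_mono_fun fun u _ => ?_)
  refine (totalDegree_mul _ _).trans (add_le_add ?_ ?_)
  · have : (aeval (fun i => (X (Sum.inl i) : MvPolynomial (Fin s ⊕ Fin m) A))) (G.coeff u)
        = rename Sum.inl (G.coeff u) := by
      rw [rename_eq_aeval]
      rfl
    rw [this]
    exact totalDegree_rename_le _ _
  · refine (totalDegree_finsetProd _ _).trans (Finset.sum_le_sum fun i _ => ?_)
    refine (totalDegree_pow _ _).trans ?_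
    calc u i * _ ≤ u i * 1 := Nat.mul_le_mul_left _ (codb_hc a i)
      _ = u i := mul_one _

theorem pr_CoDB : S_CoDB := by
  intro s m A _ g F
  choose E hE using fun i => codb_dh (F i)
  have hE' : ∀ i, E i ≤ ∑ j, E j := fun i =>
    Finset.single_le_sum (f := E) (fun _ _ => Nat.zero_le _) (Finset.mem_univ i)
  have hq : ∀ a : Fin m → ℕ, (qB a F).totalDegree ≤ ∑ j, E j := by
    intro a
    rw [qB, ell]
    refine (totalDegree_add _ _).trans (max_le ((hE _ a).trans (hE' _)) ?_)
    refine (totalDegree_finsetSum _ _).trans (Finset.sup_le fun j _ => ?_)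
    exact ((codb_natmul _ _).trans (hE _ a)).trans (hE' _)
  refine ⟨1 + ∑ j, E j + ∑ i, (g i).totalDegree, by omega, fun a => ⟨?_, ?_⟩⟩
  · rintro (i | i)
    · rw [pB]
      refine (totalDegree_mul _ _).trans ?_
      have h1 := totalDegree_rename_le (Sum.inl : Fin s → Fin s ⊕ Fin m) (g i)
      have h2 : (g i).totalDegree ≤ ∑ i, (g i).totalDegree :=
        Finset.single_le_sum (f := fun i => (g i).totalDegree) (fun _ _ => Nat.zero_le _)
          (Finset.mem_univ i)
      have h3 := hq a
      omega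
    · rw [pB]
      have h1 := (hE i.castSucc a).trans (hE' _)
      omega
  · have := hq a
    omega

end Pool.Agent.Work.MP_91e6de_nt.DMR

end

section

set_option autoImplicit false

/-!
# Heights in the chart (MP_91e6de, DMR, item CoHB)
-/

namespace Pool.Agent.Work.MP_91e6de_nt.DMR

open MvPolynomial NumberField Height

theorem CoHB_nat {K : Type} [Field K] [NumberField K] (n : ℕ) :
    logHeight₁ (n : K) ≤ totalWeight K * Real.log (n + 1) := by
  have h1 := logHeight₁_sum_le (K := K) (Finset.range n) (fun _ => (1 : K))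
  simp only [Finset.sum_const, Finset.card_range, nsmul_eq_mul, mul_one, logHeight₁_one,
    mul_zero, add_zero] at h1
  refine h1.trans (mul_le_mul_of_nonneg_left ?_ (Nat.cast_nonneg _))
  rcases Nat.eq_zero_or_pos n with h0 | h0
  · rw [h0]; simp
  · apply Real.log_le_log (by exact_mod_cast h0)
    linarith

theorem CoHB_tuple {K : Type} [Field K] [NumberField K] (m : ℕ) (b : Fin m → K) :
    logHeight (fun o : Option (Fin m) => o.elim 1 b) ≤ ∑ j, logHeight₁ (b j) := by
  classical
  have h1 : logHeight (fun p : (j : Fin m) → Fin 2 => ∏ j, (![b j, 1] : Fin 2 → K) (p j)) =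
      ∑ j, logHeight ![b j, 1] := by
    refine logHeight_fun_prod_eq (x := fun j => (![b j, 1] : Fin 2 → K)) ?_
    intro j h
    have := congrFun h 1
    simp at this
  have h2 : (fun o : Option (Fin m) => o.elim 1 b) =
      (fun p : (j : Fin m) → Fin 2 => ∏ j, (![b j, 1] : Fin 2 → K) (p j)) ∘
        (fun o : Option (Fin m) => fun j => o.elim (1 : Fin 2) (fun j' => if j = j' then 0 else 1)) := by
    funext o
    rcases o with _ | j'
    · simp
    · simp only [Option.elim_some, Function.comp_apply]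
      rw [Finset.prod_eq_single j']
      · simp
      · intro j _ hj
        simp [hj]
      · simp
  simp only [logHeight₁_eq_logHeight]
  rw [← h1, h2]
  exact logHeight_comp_le _ _

theorem CoHB_lin {K : Type} [Field K] [NumberField K] (m : ℕ) (a : Fin m → ℕ)
    (y : Fin (m + 1) → K) (i : Fin m) :
    logHeight ![y i.castSucc, ell a y] ≤
      totalWeight K * Real.log (m + 1) + ∑ j, logHeight₁ (a j : K) + logHeight y := by
  classical
  have h1 := logHeight_linearMap_apply_le (K := K)
    (fun ji : Fin 2 × Fin (m + 1) =>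
      (![(fun i' : Fin (m + 1) => if i' = i.castSucc then (1 : K) else 0),
      Fin.snoc (fun j => (a j : K)) 1] : Fin 2 → Fin (m + 1) → K) ji.1 ji.2) y
  have h2 : (fun j : Fin 2 => ∑ i', (![(fun i' : Fin (m + 1) =>
      if i' = i.castSucc then (1 : K) else 0),
      Fin.snoc (fun j => (a j : K)) 1] : Fin 2 → Fin (m + 1) → K) j i' * y i') =
      ![y i.castSucc, ell a y] := by
    funext j
    fin_cases j
    · simp
    · simp [Fin.sum_univ_castSucc, ell]
      ring
  rw [h2] at h1
  have h3 : logHeight (fun ji : Fin 2 × Fin (m + 1) =>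
      (![(fun i' : Fin (m + 1) => if i' = i.castSucc then (1 : K) else 0),
      Fin.snoc (fun j => (a j : K)) 1] : Fin 2 → Fin (m + 1) → K) ji.1 ji.2) ≤
      ∑ j, logHeight₁ (a j : K) := by
    refine le_trans ?_ (CoHB_tuple m (fun j => (a j : K)))
    rw [← logHeight_sumElim_zero_eq (ι' := Unit)
      (fun o : Option (Fin m) => o.elim (1 : K) (fun j => (a j : K)))]
    have h5 : (fun ji : Fin 2 × Fin (m + 1) =>
        (![(fun i' : Fin (m + 1) => if i' = i.castSucc then (1 : K) else 0),
        Fin.snoc (fun j => (a j : K)) 1] : Fin 2 → Fin (m + 1) → K) ji.1 ji.2) =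
        (Sum.elim (fun o : Option (Fin m) => o.elim (1 : K) (fun j => (a j : K)))
          (0 : Unit → K)) ∘
        (fun ji : Fin 2 × Fin (m + 1) => (![(fun i' : Fin (m + 1) =>
          if i' = i.castSucc then (Sum.inl none : Option (Fin m) ⊕ Unit) else Sum.inr ()),
        Fin.snoc (fun j => (Sum.inl (some j) : Option (Fin m) ⊕ Unit)) (Sum.inl none)] :
          Fin 2 → Fin (m + 1) → Option (Fin m) ⊕ Unit) ji.1 ji.2) := by
      funext ⟨j, i'⟩
      fin_cases j
      · by_cases h : i' = i.castSucc <;> simp [h]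
      · refine Fin.lastCases ?_ (fun j => ?_) i' <;> simp
    rw [h5]
    exact logHeight_comp_le _ _
  have h6 : (Nat.card (Fin (m + 1)) : ℝ) = m + 1 := by simp
  rw [h6] at h1
  linarith

/-- the polynomial with the coefficients of the hyperplane as variables -/
noncomputable def CoHB_Q {s m : ℕ} {K : Type} [Field K]
    (F : Fin (m + 1) → MvPolynomial (Fin (m + 1)) (MvPolynomial (Fin s) K)) :
    MvPolynomial ((Fin s ⊕ Fin m) ⊕ Fin m) K :=
  ev (fun i => X (Sum.inl (Sum.inl i)))
    (Fin.snoc (fun i => X (Sum.inl (Sum.inr i)))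
      (1 - ∑ i, X (Sum.inr i) * X (Sum.inl (Sum.inr i)))) (F (Fin.last m)) +
    ∑ j : Fin m, X (Sum.inr j) * ev (fun i => X (Sum.inl (Sum.inl i)))
    (Fin.snoc (fun i => X (Sum.inl (Sum.inr i)))
      (1 - ∑ i, X (Sum.inr i) * X (Sum.inl (Sum.inr i)))) (F j.castSucc)

theorem CoHB_val {s m : ℕ} {K : Type} [Field K]
    (F : Fin (m + 1) → MvPolynomial (Fin (m + 1)) (MvPolynomial (Fin s) K)) (a : Fin m → ℕ)
    (x : Fin s → K) (z : Fin m → K) :
    aeval (Sum.elim x z) (qB a F) =
      aeval (Sum.elim (Sum.elim x z) (fun j => (a j : K))) (CoHB_Q F) := by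
  have h1 : ∀ G : MvPolynomial (Fin (m + 1)) (MvPolynomial (Fin s) K),
      aeval (Sum.elim (Sum.elim x z) (fun j => (a j : K)))
        (ev (fun i => X (Sum.inl (Sum.inl i)))
          (Fin.snoc (fun i => X (Sum.inl (Sum.inr i)))
            (1 - ∑ i, X (Sum.inr i) * X (Sum.inl (Sum.inr i)))) G :
            MvPolynomial ((Fin s ⊕ Fin m) ⊕ Fin m) K) = ev x (hc a z) G := by
    intro G
    rw [map_ev]
    congr 1
    · funext i; simp
    · funext i
      refine Fin.lastCases ?_ (fun j => ?_) i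
      · simp [hc, map_sum]
      · simp [hc]
  rw [aeval_qB, CoHB_Q]
  simp only [map_add, map_sum, map_mul, h1, aeval_X, Sum.elim_inr]
  rfl

theorem pr_CoHB (h1 : Pool.Agent.Work.MP_91e6de_nt.DM.S_PoH) : S_CoHB := by
  intro s m K _ _ F
  obtain ⟨C1, hC1, hQ⟩ := h1 K ((Fin s ⊕ Fin m) ⊕ Fin m) (CoHB_Q F)
  obtain ⟨T, hT⟩ : ∃ T : ℝ, T = totalWeight K := ⟨_, rfl⟩
  have hT0 : 0 ≤ T := by rw [hT]; exact Nat.cast_nonneg _
  obtain ⟨lm, hlm⟩ : ∃ lm : ℝ, lm = Real.log (m + 1) := ⟨_, rfl⟩
  have hlm0 : 0 ≤ lm := by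
    rw [hlm]
    apply Real.log_nonneg
    have : (0 : ℝ) ≤ m := Nat.cast_nonneg m
    linarith
  have hm0 : (0 : ℝ) ≤ m := Nat.cast_nonneg m
  have hTl : 0 ≤ T * lm := mul_nonneg hT0 hlm0
  have hmTl : 0 ≤ m * (T * lm) := mul_nonneg hm0 hTl
  have hmT : 0 ≤ m * T := mul_nonneg hm0 hT0
  refine ⟨(C1 + 1) * (2 + m * (T * lm) + m * T + m + 2 * T + T * lm), by positivity, ?_⟩
  intro a x y hy
  obtain ⟨S, hS⟩ : ∃ S : ℝ, S = ∑ j, Real.log (a j + 1) := ⟨_, rfl⟩
  have hS0 : 0 ≤ S := by
    rw [hS]
    apply Finset.sum_nonneg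
    intro j _
    apply Real.log_nonneg
    have : (0 : ℝ) ≤ a j := Nat.cast_nonneg _
    linarith
  obtain ⟨H, hH⟩ : ∃ H : ℝ, H = logHeight y := ⟨_, rfl⟩
  have hH0 : 0 ≤ H := by rw [hH]; exact logHeight_nonneg y
  have haS : ∑ j, logHeight₁ (a j : K) ≤ T * S := by
    rw [hS, hT, Finset.mul_sum]
    exact Finset.sum_le_sum fun j _ => CoHB_nat (a j)
  have hTS : 0 ≤ T * S := mul_nonneg hT0 hS0
  have key : ∀ i : Fin m, logHeight₁ (ch a y i) ≤ T * lm + T * S + H := by
    intro i
    unfold ch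
    rw [logHeight₁_div_eq_logHeight]
    have h3 := CoHB_lin (K := K) m a y i
    rw [← hT, ← hlm, ← hH] at h3
    linarith
  rw [← hS, ← hH]
  set D : ℝ := 2 + m * (T * lm) + m * T + m + 2 * T + T * lm with hD
  have hD0 : 0 ≤ D := by positivity
  constructor
  · intro i
    refine (key i).trans ?_
    have e1 : T * lm + T * S + H ≤ D * (1 + H + S) := by
      have f1 : T * S ≤ D * S := mul_le_mul_of_nonneg_right (by rw [hD]; linarith) hS0
      have f2 : 1 * H ≤ D * H := mul_le_mul_of_nonneg_right (by rw [hD]; linarith) hH0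
      have f3 : T * lm ≤ D := by rw [hD]; linarith
      linarith
    have e2 : 0 ≤ D * (1 + H + S) := by positivity
    calc T * lm + T * S + H ≤ D * (1 + H + S) := e1
      _ ≤ (C1 + 1) * (D * (1 + H + S)) := by nlinarith [mul_nonneg hC1 e2]
      _ = _ := by ring
  · rw [CoHB_val]
    refine (hQ _).trans ?_
    rw [Fintype.sum_sum_type, Fintype.sum_sum_type]
    simp only [Sum.elim_inl, Sum.elim_inr]
    obtain ⟨Xh, hXh⟩ : ∃ Xh : ℝ, Xh = ∑ i, logHeight₁ (x i) := ⟨_, rfl⟩
    have hX0 : 0 ≤ Xh := by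
      rw [hXh]
      exact Finset.sum_nonneg fun i _ => zero_le_logHeight₁ _
    rw [← hXh]
    have h4 : ∑ i : Fin m, logHeight₁ (ch a y i) ≤ m * (T * lm + T * S + H) := by
      have := Finset.sum_le_sum (s := Finset.univ) (fun i (_ : i ∈ Finset.univ) => key i)
      rw [Finset.sum_const, Finset.card_univ, Fintype.card_fin, nsmul_eq_mul] at this
      exact this
    have e1 : 1 + (Xh + ∑ i : Fin m, logHeight₁ (ch a y i) + ∑ j, logHeight₁ (a j : K)) ≤
        D * (1 + Xh + H + S) := by
      have f1 : (m * T + T) * S ≤ D * S := mul_le_mul_of_nonneg_right (by rw [hD]; linarith) hS0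
      have f2 : m * H ≤ D * H := mul_le_mul_of_nonneg_right (by rw [hD]; linarith) hH0
      have f3 : 1 * Xh ≤ D * Xh := mul_le_mul_of_nonneg_right (by rw [hD]; linarith) hX0
      have f4 : 1 + m * (T * lm) ≤ D := by rw [hD]; linarith
      nlinarith
    have e2 : 0 ≤ D * (1 + Xh + H + S) := by positivity
    calc C1 * (1 + (Xh + ∑ i : Fin m, logHeight₁ (ch a y i) + ∑ j, logHeight₁ (a j : K)))
        ≤ C1 * (D * (1 + Xh + H + S)) := mul_le_mul_of_nonneg_left e1 hC1
      _ ≤ (C1 + 1) * (D * (1 + Xh + H + S)) := by nlinarith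
      _ = _ := by ring

end Pool.Agent.Work.MP_91e6de_nt.DMR

end
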