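import Mathlib
import Pool.Agent.Work.MP_91e6de_nt.DMR.StmtsP

/-! Bundle of small proof modules (one section per former module). -/

section

set_option autoImplicit false

/-!
# Orbits in the chart
-/

namespace Pool.Agent.Work.MP_91e6de_nt.DMR

open MvPolynomial

theorem pr_CoOB : S_CoOB := by
  intro s m M e A K _ _ _ g F a x y hF hx hy hl n hn
  have hl0 := hl n hn.le
  have hl1 := hl (n + 1) hn
  have hq : (ell a fun i => ev (x n) (hc a (ch a (y n))) (F i)) =
      (ell a (y n))⁻¹ ^ e * ell a (y (n + 1)) := by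
    have h1 : (fun i => ev (x n) (hc a (ch a (y n))) (F i)) =
        fun i => (ell a (y n))⁻¹ ^ e * y (n + 1) i := by
      funext i
      rw [hc_ch a (y n) hl0, ev_smul _ _ _ _ _ (hF i), hy n hn i]
    rw [h1, ell_smul]
  refine ⟨?_, ?_⟩
  · rw [aeval_qB, hq]
    exact mul_ne_zero (pow_ne_zero _ (inv_ne_zero hl0)) hl1
  · intro i
    rw [aeval_qB, hq]
    cases i with
    | inl i =>
      rw [aeval_pB_inl, hq]
      simp only [Sum.elim_inl]
      rw [hx n hn i]
      ring
    | inr i =>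
      rw [aeval_pB_inr, hc_ch a (y n) hl0, ev_smul _ _ _ _ _ (hF _), ← hy n hn]
      simp only [Sum.elim_inr, ch]
      field_simp

end Pool.Agent.Work.MP_91e6de_nt.DMR

end

section

set_option autoImplicit false

/-!
# FinB: forms vanishing at finitely many points
-/

namespace Pool.Agent.Work.MP_91e6de_nt.DMR

open MvPolynomial

/-- A linear form vanishing at a nonzero vector. -/
theorem FinB_form {s m : ℕ} {K : Type} [Field K] (hm : 1 ≤ m) (y : Fin (m + 1) → K)
    (hy : y ≠ 0) :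
    ∃ G : MvPolynomial (Fin (m + 1)) (MvPolynomial (Fin s) K), G ≠ 0 ∧ G.IsHomogeneous 1 ∧
      ∀ x : Fin s → K, ev x y G = 0 := by
  classical
  obtain ⟨i, hi⟩ : ∃ i, y i ≠ 0 := by
    by_contra h
    push Not at h
    exact hy (funext h)
  have : Nontrivial (Fin (m + 1)) := Fin.nontrivial_iff_two_le.mpr (by omega)
  obtain ⟨j, hj⟩ := exists_ne i
  refine ⟨C (C (y j)) * X i - C (C (y i)) * X j, ?_, ?_, ?_⟩
  · intro h
    have h1 := congrArg (coeff (Finsupp.single j 1)) h
    have h2 : ¬ (Finsupp.single i 1 = (Finsupp.single j 1 : Fin (m + 1) →₀ ℕ)) := by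
      intro h3
      exact hj (Finsupp.single_left_injective one_ne_zero h3).symm
    rw [coeff_sub, coeff_C_mul, coeff_C_mul, coeff_X', coeff_X', if_neg h2, if_pos rfl, coeff_zero,
      mul_zero, mul_one, zero_sub, neg_eq_zero] at h1
    exact hi ((C_eq_zero).mp h1)
  · have h1 := (isHomogeneous_C (Fin (m + 1)) (C (y j) : MvPolynomial (Fin s) K)).mul
      (isHomogeneous_X (MvPolynomial (Fin s) K) i)
    have h2 := (isHomogeneous_C (Fin (m + 1)) (C (y i) : MvPolynomial (Fin s) K)).mul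
      (isHomogeneous_X (MvPolynomial (Fin s) K) j)
    rw [zero_add] at h1 h2
    exact h1.sub h2
  · intro x
    rw [ev_sub, ev_mul, ev_mul, ev_C, ev_C, ev_X, ev_X, aeval_C, aeval_C]
    simp only [Algebra.algebraMap_self, RingHom.id_apply]
    ring

/-- finite sets of points -/
theorem pr_FinB : S_FinB := by
  intro s m K _ T y hm hy
  classical
  induction T using Finset.induction_on with
  | empty => exact ⟨0, 1, one_ne_zero, isHomogeneous_one _ _, by simp⟩
  | insert n T hn ih =>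
    obtain ⟨t, G, hG, hGh, hGe⟩ := ih (fun k hk => hy k (Finset.mem_insert_of_mem hk))
    obtain ⟨G', hG', hGh', hGe'⟩ := FinB_form (s := s) hm (y n)
      (hy n (Finset.mem_insert_self _ _))
    refine ⟨1 + t, G' * G, mul_ne_zero hG' hG, hGh'.mul hGh, ?_⟩
    intro k hk x
    rw [ev_mul]
    rcases Finset.mem_insert.mp hk with h | h
    · rw [h, hGe' x, zero_mul]
    · rw [hGe k h x, mul_zero]

end Pool.Agent.Work.MP_91e6de_nt.DMR

end

section

set_option autoImplicit false

/-!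
# Item HomT: pull back of forms in the chart
-/

namespace Pool.Agent.Work.MP_91e6de_nt.DMR

open MvPolynomial

theorem HomT_dhB {s m : ℕ} {K : Type} [Field K] {L : Type} [Field L] [Algebra K L]
    (f : MvPolynomial (Fin s ⊕ Fin m) K →ₐ[K] L) (a : Fin m → ℕ)
    (G : MvPolynomial (Fin (m + 1)) (MvPolynomial (Fin s) K)) :
    f (dhB a G) = ev (fun i => f (X (Sum.inl i))) (hc a fun i => f (X (Sum.inr i))) G := by
  unfold dhB
  rw [map_ev, map_hc]

theorem HomT_ren {s m : ℕ} {K : Type} [Field K] {L : Type} [Field L] [Algebra K L]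
    (f : MvPolynomial (Fin s ⊕ Fin m) K →ₐ[K] L) (p : MvPolynomial (Fin s) K) :
    f (rename Sum.inl p) = aeval (fun i => f (X (Sum.inl i))) p := by
  have h : f.comp (rename Sum.inl) = aeval (fun i => f (X (Sum.inl i))) := by
    refine algHom_ext fun i => ?_
    simp
  exact DFunLike.congr_fun h p

theorem pr_HomT : S_HomT := by
  intro s m K _ e t D a g F G hF hG htD hdeg hq
  set L := FractionRing (MvPolynomial (Fin s ⊕ Fin m) K) with hL
  set f : MvPolynomial (Fin s ⊕ Fin m) K →ₐ[K] L :=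
    IsScalarTower.toAlgHom K (MvPolynomial (Fin s ⊕ Fin m) K) L with hf
  have hinj : Function.Injective f :=
    IsFractionRing.injective (MvPolynomial (Fin s ⊕ Fin m) K) L
  have hfq : f (qB a F) ≠ 0 := fun h => hq (hinj (by rw [h, map_zero]))
  set x : Fin s → L := fun i => f (X (Sum.inl i)) with hx
  set z : Fin m → L := fun i => f (X (Sum.inr i)) with hz
  set v : Fin (m + 1) → L := fun i => ev x (hc a z) (F i) with hv
  have hfqv : f (qB a F) = ell a v := by
    unfold qB
    rw [map_ell]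
    congr 1
    funext i
    exact HomT_dhB f a (F i)
  have hell : ell a v ≠ 0 := hfqv ▸ hfq
  apply hinj
  rw [map_hsub, hsub_eval D (dhB a G) hdeg _ _ hfq, map_mul, map_pow]
  have hu : (fun i => f (pB a g F i) / f (qB a F)) =
      Sum.elim (fun i => aeval x (g i)) (ch a v) := by
    funext i
    rcases i with i | i
    · simp only [pB, map_mul, Sum.elim_inl]
      rw [HomT_ren, mul_div_assoc, div_self hfq, mul_one]
    · simp only [pB, Sum.elim_inr, ch]
      rw [HomT_dhB, hfqv]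
  rw [hu]
  have h1 := ev_eq_chart a (fun i => aeval x (g i)) v hell t G hG
  have h2 : f (dhB a (comp g F G)) = ev (fun i => aeval x (g i)) v G := by
    rw [HomT_dhB, ev_comp]
  rw [h2, h1, hfqv, ← mul_assoc, ← pow_add, Nat.sub_add_cancel htD]

end Pool.Agent.Work.MP_91e6de_nt.DMR

end

section

set_option autoImplicit false

/-!
# Hz: homogenisation
-/

namespace Pool.Agent.Work.MP_91e6de_nt.DMR

open MvPolynomial

section

variable {s m : ℕ} {A S : Type} [CommRing A] [CommRing S] [Algebra A S]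

theorem Hz_ev_ell (a : Fin m → ℕ) (x : Fin s → S) (y : Fin (m + 1) → S) :
    ev x y (ell a (X : Fin (m + 1) → MvPolynomial (Fin (m + 1)) (MvPolynomial (Fin s) A))) =
      ell a y := by
  simp [ell, ev_sum]

theorem Hz_ell_homog (a : Fin m → ℕ) :
    (ell a (X : Fin (m + 1) → MvPolynomial (Fin (m + 1))
      (MvPolynomial (Fin s) A))).IsHomogeneous 1 := by
  unfold ell
  refine (isHomogeneous_X _ _).add (IsHomogeneous.sum _ _ _ fun i _ => ?_)
  have h1 := (isHomogeneous_C (Fin (m + 1)) ((a i : ℕ) : MvPolynomial (Fin s) A)).mul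
    (isHomogeneous_X (MvPolynomial (Fin s) A) i.castSucc)
  rw [zero_add, map_natCast] at h1
  exact h1

theorem Hz_ell_ne [Nontrivial A] (a : Fin m → ℕ) :
    ell a (X : Fin (m + 1) → MvPolynomial (Fin (m + 1)) (MvPolynomial (Fin s) A)) ≠ 0 := by
  intro h
  have h1 := Hz_ev_ell (A := A) (S := A) a (fun _ : Fin s => 0) (hc a fun _ => 0)
  rw [h, ell_hc, ev_zero] at h1
  exact zero_ne_one h1

theorem Hz_self (G : MvPolynomial (Fin (m + 1)) (MvPolynomial (Fin s) A)) :
    ev (A := A) (S := MvPolynomial (Fin (m + 1)) (MvPolynomial (Fin s) A))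
      (fun i => C (X i)) X G = G := by
  have h := ev_hom_ext (A := A) (RingHom.id (MvPolynomial (Fin (m + 1)) (MvPolynomial (Fin s) A)))
    (fun i => C (X i)) X (by intro r; rfl) (by intro i; rfl) (by intro i; rfl) G
  rw [← h]
  rfl

end

theorem Hz_sum {s m : ℕ} {K : Type} [Field K] (H : MvPolynomial (Fin s ⊕ Fin m) K) :
    (∑ u ∈ H.support, (C (coeff u H) * ∏ i : Fin s, X (Sum.inl i) ^ u (Sum.inl i)) *
      ∏ j : Fin m, X (Sum.inr j) ^ u (Sum.inr j)) = H := by
  conv_rhs => rw [H.as_sum]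
  apply Finset.sum_congr rfl
  intro u _
  rw [monomial_eq, Finsupp.prod_fintype _ _ (by intro i; exact pow_zero _),
    Fintype.prod_sum_type, mul_assoc]

theorem Hz_one {s m : ℕ} {K : Type} [Field K] (a : Fin m → ℕ) (D : ℕ)
    (H : MvPolynomial (Fin s ⊕ Fin m) K)
    (hH : ∀ u ∈ H.support, ∑ j : Fin m, u (Sum.inr j) ≤ D) :
    ∃ G : MvPolynomial (Fin (m + 1)) (MvPolynomial (Fin s) K), G.IsHomogeneous D ∧
      dhB a G = H := by
  classical
  refine ⟨∑ u ∈ H.support, C (C (coeff u H) * ∏ i : Fin s, X i ^ u (Sum.inl i)) *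
    (∏ j : Fin m, X j.castSucc ^ u (Sum.inr j)) *
      ell a X ^ (D - ∑ j : Fin m, u (Sum.inr j)), ?_, ?_⟩
  · refine IsHomogeneous.sum _ _ _ fun u hu => ?_
    have h1 := isHomogeneous_C (Fin (m + 1)) (C (coeff u H) * ∏ i : Fin s,
      (X i : MvPolynomial (Fin s) K) ^ u (Sum.inl i))
    have h2 : (∏ j : Fin m, (X j.castSucc : MvPolynomial (Fin (m + 1)) (MvPolynomial (Fin s) K))
        ^ u (Sum.inr j)).IsHomogeneous (∑ j : Fin m, u (Sum.inr j)) := by
      refine IsHomogeneous.prod _ _ _ fun j _ => ?_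
      have h3 := (isHomogeneous_X (MvPolynomial (Fin s) K) j.castSucc).pow (u (Sum.inr j))
      rwa [one_mul] at h3
    have h4 := (Hz_ell_homog (s := s) (A := K) a).pow (D - ∑ j : Fin m, u (Sum.inr j))
    have h5 := (h1.mul h2).mul h4
    have h6 : 0 + ∑ j : Fin m, u (Sum.inr j) + 1 * (D - ∑ j : Fin m, u (Sum.inr j)) = D := by
      have := hH u hu
      omega
    rwa [h6] at h5
  · unfold dhB
    rw [ev_sum]
    conv_rhs => rw [← Hz_sum H]
    apply Finset.sum_congr rfl
    intro u _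
    rw [ev_mul, ev_mul, ev_pow, Hz_ev_ell, ell_hc, one_pow, mul_one, ev_C, ev_prod]
    congr 1
    · simp
    · apply Finset.prod_congr rfl
      intro j _
      rw [ev_pow, ev_X]
      simp [hc]

theorem Hz_two {s m : ℕ} {K : Type} [Field K] (a : Fin m → ℕ) (D : ℕ)
    (G : MvPolynomial (Fin (m + 1)) (MvPolynomial (Fin s) K)) (hG : G.IsHomogeneous D)
    (h0 : dhB a G = 0) : G = 0 := by
  let R := MvPolynomial (Fin (m + 1)) (MvPolynomial (Fin s) K)
  let L := FractionRing R
  let f : R →ₐ[K] L := IsScalarTower.toAlgHom K R L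
  have hf : Function.Injective f := IsFractionRing.injective R L
  have h1 : f G = ev (A := K) (fun i => f (C (X i))) (fun i => f (X i)) G := by
    rw [← map_ev f (fun i => C (X i)) X G, Hz_self]
  have h2 : ell a (fun i => f (X i)) ≠ 0 := by
    rw [← map_ell]
    intro h
    exact Hz_ell_ne (s := s) (A := K) a (hf (by rw [h, map_zero]))
  have h3 := ev_eq_chart a (fun i => f (C (X i))) (fun i => f (X i)) h2 D G hG
  rw [h0, map_zero, mul_zero] at h3
  apply hf
  rw [h1, h3, map_zero]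

/-- homogenisation -/
theorem pr_Hz : S_Hz := fun _ _ _ _ a =>
  ⟨fun D H hH => Hz_one a D H hH, fun D G hG h0 => Hz_two a D G hG h0⟩

end Pool.Agent.Work.MP_91e6de_nt.DMR

end

section

set_option autoImplicit false

/-!
# IntB: integral coefficients
-/

namespace Pool.Agent.Work.MP_91e6de_nt.DMR

open MvPolynomial NumberField

/-- common denominators: polynomials -/
theorem IntB_step {R A B σ : Type} [CommRing R] [IsDomain R] [CommRing A] [CommRing B]
    [Algebra R A] [Algebra R B] (φ : A →ₐ[R] B)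
    (h : ∀ b : B, ∃ d : R, d ≠ 0 ∧ ∃ a : A, φ a = algebraMap R B d * b) (f : MvPolynomial σ B) :
    ∃ d : R, d ≠ 0 ∧ ∃ f' : MvPolynomial σ A,
      mapAlgHom φ f' = algebraMap R (MvPolynomial σ B) d * f := by
  induction f using MvPolynomial.induction_on with
  | C b =>
    obtain ⟨d, hd, a, ha⟩ := h b
    refine ⟨d, hd, C a, ?_⟩
    have h1 : mapAlgHom φ (C a : MvPolynomial σ A) = C (φ a) := by
      rw [mapAlgHom_apply, map_C]
      rfl
    rw [h1, ha, C_mul]
    rfl
  | add p q hp hq =>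
    obtain ⟨d, hd, a, ha⟩ := hp
    obtain ⟨d', hd', a', ha'⟩ := hq
    refine ⟨d * d', mul_ne_zero hd hd', algebraMap R _ d' * a + algebraMap R _ d * a', ?_⟩
    rw [map_add, map_mul, map_mul, ha, ha', AlgHom.commutes, AlgHom.commutes, map_mul]
    ring
  | mul_X p i hp =>
    obtain ⟨d, hd, a, ha⟩ := hp
    refine ⟨d, hd, a * X i, ?_⟩
    have h1 : mapAlgHom φ (X i : MvPolynomial σ A) = X i := by
      rw [mapAlgHom_apply, map_X]
    rw [map_mul, ha, h1]
    ring

/-- common denominators: families -/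
theorem IntB_fam {R A B ι : Type} [CommRing R] [IsDomain R] [CommRing A] [CommRing B]
    [Algebra R A] [Algebra R B] [Fintype ι] (φ : A →ₐ[R] B)
    (h : ∀ b : B, ∃ d : R, d ≠ 0 ∧ ∃ a : A, φ a = algebraMap R B d * b) (f : ι → B) :
    ∃ d : R, d ≠ 0 ∧ ∃ f' : ι → A, ∀ i, φ (f' i) = algebraMap R B d * f i := by
  classical
  choose d hd a ha using fun i => h (f i)
  have h1 : ∀ i, ∃ e, ∏ j, d j = d i * e := fun i =>
    Finset.dvd_prod_of_mem d (Finset.mem_univ i)
  choose e he using h1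
  refine ⟨∏ j, d j, Finset.prod_ne_zero_iff.mpr fun j _ => hd j,
    fun i => algebraMap R A (e i) * a i, fun i => ?_⟩
  rw [map_mul, AlgHom.commutes, ha, he i, map_mul]
  ring

/-- base change of `dhB` -/
theorem IntB_dhB {s m : ℕ} {R K : Type} [CommRing R] [CommRing K] [Algebra R K] (a : Fin m → ℕ)
    (G : MvPolynomial (Fin (m + 1)) (MvPolynomial (Fin s) R)) :
    map (algebraMap R K) (dhB a G) = dhB a (map (map (algebraMap R K)) G) := by
  have h1 := ev_hom_ext (A := R) (S := MvPolynomial (Fin s ⊕ Fin m) K)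
    ((map (algebraMap R K)).comp (evHom (A := R) (fun i => X (Sum.inl i))
      (hc a fun i => X (Sum.inr i)))) (fun i => X (Sum.inl i)) (hc a fun i => X (Sum.inr i))
    (by
      intro r
      simp [evHom])
    (by intro i; simp [evHom])
    (by
      intro i
      refine Fin.lastCases ?_ (fun j => ?_) i
      · simp [evHom, hc, map_sum]
      · simp [evHom, hc]) G
  have h2 := ev_hom_ext (A := R) (S := MvPolynomial (Fin s ⊕ Fin m) K)
    ((evHom (A := K) (fun i => X (Sum.inl i)) (hc a fun i => X (Sum.inr i))).comp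
      (map (map (algebraMap R K)))) (fun i => X (Sum.inl i)) (hc a fun i => X (Sum.inr i))
    (by
      intro r
      simp [evHom])
    (by intro i; simp [evHom])
    (by intro i; simp [evHom]) G
  exact h1.trans h2.symm

theorem IntB_ell {m : ℕ} {S S' : Type} [CommRing S] [CommRing S'] (f : S →+* S')
    (a : Fin m → ℕ) (y : Fin (m + 1) → S) : f (ell a y) = ell a fun i => f (y i) := by
  simp [ell, map_sum]

theorem IntB_qB {s m : ℕ} {R K : Type} [CommRing R] [CommRing K] [Algebra R K] (a : Fin m → ℕ)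
    (F : Fin (m + 1) → MvPolynomial (Fin (m + 1)) (MvPolynomial (Fin s) R)) :
    map (algebraMap R K) (qB a F) = qB a fun i => map (map (algebraMap R K)) (F i) := by
  unfold qB
  rw [IntB_ell]
  congr 1
  funext i
  exact IntB_dhB a (F i)

theorem IntB_dhB_C {s m : ℕ} {K : Type} [CommRing K] (a : Fin m → ℕ) (c : K)
    (G : MvPolynomial (Fin (m + 1)) (MvPolynomial (Fin s) K)) :
    dhB a (C (C c) * G) = C c * dhB a G := by
  rw [dhB_mul]
  congr 1
  unfold dhB
  rw [ev_C, aeval_C]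
  rfl

theorem IntB_qB_C {s m : ℕ} {K : Type} [CommRing K] (a : Fin m → ℕ) (c : K)
    (F : Fin (m + 1) → MvPolynomial (Fin (m + 1)) (MvPolynomial (Fin s) K)) :
    (qB a fun i => C (C c) * F i) = C c * qB a F := by
  unfold qB
  rw [← ell_smul]
  congr 1
  funext i
  exact IntB_dhB_C a c (F i)

theorem pr_IntB : S_IntB := by
  intro s m K _ _ g F
  have h0 : ∀ b : K, ∃ d : 𝓞 K, d ≠ 0 ∧ ∃ a : 𝓞 K,
      Algebra.ofId (𝓞 K) K a = algebraMap (𝓞 K) K d * b := by
    intro b
    obtain ⟨x, y, hy, hxy⟩ := IsFractionRing.div_surjective (A := 𝓞 K) b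
    have hy0 : y ≠ 0 := nonZeroDivisors.ne_zero hy
    have hy1 : algebraMap (𝓞 K) K y ≠ 0 := by
      intro h
      exact hy0 (FaithfulSMul.algebraMap_injective (𝓞 K) K (by rw [h, map_zero]))
    refine ⟨y, hy0, x, ?_⟩
    rw [← hxy]
    show algebraMap (𝓞 K) K x = _
    field_simp
  have hs1 := IntB_step (σ := Fin s) (Algebra.ofId (𝓞 K) K) h0
  have hs2 := IntB_step (σ := Fin (m + 1)) (mapAlgHom (σ := Fin s) (Algebra.ofId (𝓞 K) K)) hs1
  obtain ⟨c1, hc1, g', hg'⟩ := IntB_fam _ hs1 g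
  obtain ⟨c2, hc2, F', hF'⟩ := IntB_fam _ hs2 F
  have hg : ∀ i, map (algebraMap (𝓞 K) K) (g' i) = C (algebraMap (𝓞 K) K c1) * g i := hg'
  have hF : ∀ i, map (map (algebraMap (𝓞 K) K)) (F' i) =
      C (C (algebraMap (𝓞 K) K c2)) * F i := hF'
  have hinj := FaithfulSMul.algebraMap_injective (𝓞 K) K
  refine ⟨algebraMap (𝓞 K) K c1 * algebraMap (𝓞 K) K c2, ?_, ?_⟩
  · refine mul_ne_zero ?_ ?_
    · intro h
      exact hc1 (hinj (by rw [h, map_zero]))
    · intro h
      exact hc2 (hinj (by rw [h, map_zero]))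
  intro a
  have hq : map (algebraMap (𝓞 K) K) (qB a F') = C (algebraMap (𝓞 K) K c2) * qB a F := by
    rw [IntB_qB, ← IntB_qB_C]
    congr 1
    funext i
    exact hF i
  refine ⟨Sum.elim (fun i => rename Sum.inl (g' i) * qB a F')
    (fun i => C c1 * dhB a (F' i.castSucc)), C c1 * qB a F', ?_, ?_⟩
  · rintro (i | i)
    · show map (algebraMap (𝓞 K) K) (rename Sum.inl (g' i) * qB a F') =
        C (algebraMap (𝓞 K) K c1 * algebraMap (𝓞 K) K c2) * (rename Sum.inl (g i) * qB a F)
      rw [map_mul, hq, map_rename, hg, map_mul, rename_C, C_mul]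
      ring
    · show map (algebraMap (𝓞 K) K) (C c1 * dhB a (F' i.castSucc)) =
        C (algebraMap (𝓞 K) K c1 * algebraMap (𝓞 K) K c2) * dhB a (F i.castSucc)
      rw [map_mul, map_C, IntB_dhB, hF, IntB_dhB_C, C_mul]
      ring
  · rw [map_mul, map_C, hq, C_mul]
    ring

end Pool.Agent.Work.MP_91e6de_nt.DMR

end

section

set_option autoImplicit false

/-!
# Iterates in the chart (MP_91e6de, DMR, item ItrB)
-/

namespace Pool.Agent.Work.MP_91e6de_nt.DMR

open MvPolynomial

/-- the orbit of a point -/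
noncomputable def ItrB_seq {s m : ℕ} {K L : Type} [Field K] [Field L] [Algebra K L]
    (g : Fin s → MvPolynomial (Fin s) K)
    (F : Fin (m + 1) → MvPolynomial (Fin (m + 1)) (MvPolynomial (Fin s) K))
    (x0 : Fin s → L) (y0 : Fin (m + 1) → L) : ℕ → (Fin s → L) × (Fin (m + 1) → L)
  | 0 => (x0, y0)
  | n + 1 => (fun i => aeval (ItrB_seq g F x0 y0 n).1 (g i),
      fun i => ev (ItrB_seq g F x0 y0 n).1 (ItrB_seq g F x0 y0 n).2 (F i))

theorem pr_ItrB (h1 : S_IteG) (h2 : S_CoOB) : S_ItrB := by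
  intro s m K _ e E k a g F hF hp hq hW
  let R := MvPolynomial (Fin s ⊕ Fin m) K
  let L := FractionRing R
  let ι : R →ₐ[K] L := IsScalarTower.toAlgHom K R L
  have hι : Function.Injective ι := IsFractionRing.injective R L
  let x0 : Fin s → L := fun i => ι (X (Sum.inl i))
  let z0 : Fin m → L := fun i => ι (X (Sum.inr i))
  let x : ℕ → Fin s → L := fun n => (ItrB_seq g F x0 (hc a z0) n).1
  let y : ℕ → Fin (m + 1) → L := fun n => (ItrB_seq g F x0 (hc a z0) n).2
  have hx : ∀ n i, x (n + 1) i = aeval (x n) (g i) := fun n i => rfl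
  have hy : ∀ n i, y (n + 1) i = ev (x n) (y n) (F i) := fun n i => rfl
  have hx0 : x 0 = x0 := rfl
  have hy0 : y 0 = hc a z0 := rfl
  let P : ℕ → (Fin s ⊕ Fin m) → L := fun n => Sum.elim (x n) (ch a (y n))
  have hz0 : ch a (y 0) = z0 := by
    funext i
    simp only [ch, hy0, ell_hc, div_one]
    simp [hc]
  have hgen : ∀ G : R, aeval (Sum.elim x0 z0) G = ι G := by
    intro G
    have h3 : (aeval (Sum.elim x0 z0) : R →ₐ[K] L) = ι := by
      apply MvPolynomial.algHom_ext
      rintro (i | i) <;> simp [x0, z0]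
    rw [h3]
  have hP0 : P 0 = Sum.elim x0 z0 := by
    show Sum.elim (x 0) (ch a (y 0)) = _
    rw [hz0, hx0]
  have horb : ∀ M : ℕ, (∀ n ≤ M, ell a (y n) ≠ 0) → IsOrb (pB a g F) (qB a F) M P :=
    fun M hM => h2 s m M e K L g F a x y hF (fun n _ i => hx n i) (fun n _ i => hy n i) hM
  have hite : ∀ M : ℕ, (∀ n ≤ M, ell a (y n) ≠ 0) →
      ∀ i, ι ((itr E (pB a g F) (qB a F) M).1 i) =
        ι ((itr E (pB a g F) (qB a F) M).2) * P M i := by
    intro M hM i
    have h4 := (h1 (Fin s ⊕ Fin m) K L E (pB a g F) (qB a F) hp hq M P (horb M hM) 0 M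
      (by omega)).2.1 i
    rw [hP0, hgen, hgen, Nat.zero_add] at h4
    exact h4
  have hqP : ∀ n, ell a (y n) ≠ 0 →
      aeval (P n) (qB a F) = ((ell a (y n))⁻¹) ^ e * ell a (y (n + 1)) := by
    intro n hn
    show aeval (Sum.elim (x n) (ch a (y n))) (qB a F) = _
    rw [aeval_qB, hc_ch a _ hn]
    have h5 : (fun i => ev (x n) (fun i => (ell a (y n))⁻¹ * y n i) (F i)) =
        fun i => ((ell a (y n))⁻¹) ^ e * y (n + 1) i := by
      funext i
      rw [ev_smul _ _ _ _ _ (hF i)]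
      rfl
    rw [h5, ell_smul]
  have hell : ∀ n ≤ k, ell a (y n) ≠ 0 := by
    intro n
    induction n using Nat.strong_induction_on with
    | _ n ih =>
      intro hn
      rcases n with _ | n
      · rw [hy0, ell_hc]
        exact one_ne_zero
      · have hM : ∀ l ≤ n, ell a (y l) ≠ 0 := fun l hl => ih l (by omega) (by omega)
        have h6 : ι ((itr E (pB a g F) (qB a F) (n + 1)).2) ≠ 0 := by
          intro h0
          apply hW (n + 1) hn
          apply hι
          rw [h0, map_zero]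
        have h7 : ι ((itr E (pB a g F) (qB a F) (n + 1)).2) =
            ι ((itr E (pB a g F) (qB a F) n).2) ^ E * aeval (P n) (qB a F) := by
          have hWn : ι ((itr E (pB a g F) (qB a F) n).2) ≠ 0 := by
            intro h0
            apply hW n (by omega)
            apply hι
            rw [h0, map_zero]
          have h8 : (itr E (pB a g F) (qB a F) (n + 1)).2 = hsub E (qB a F)
              (itr E (pB a g F) (qB a F) n).1 (itr E (pB a g F) (qB a F) n).2 := rfl
          have h9 : (fun i => ι ((itr E (pB a g F) (qB a F) n).1 i) /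
              ι ((itr E (pB a g F) (qB a F) n).2)) = P n := by
            funext i
            rw [hite n hM i]
            exact mul_div_cancel_left₀ _ hWn
          rw [h8, map_hsub, hsub_eval E (qB a F) hq _ _ hWn, h9]
        rw [h7, hqP n (hM n le_rfl)] at h6
        intro h0
        rw [h0] at h6
        simp at h6
  have hyk : ∀ j, y k j = ι (dhB a ((itB g F k).2 j)) := by
    intro j
    rw [(orb_itB g F x y hx hy k).2 j, ← hgen, aeval_dhB, hx0, hy0]
  have hellk : ell a (y k) = ι (ell a fun i => dhB a ((itB g F k).2 i)) := by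
    rw [map_ell]
    congr 1
    funext j
    exact hyk j
  constructor
  · intro h0
    apply hell k le_rfl
    rw [hellk, h0, map_zero]
  · intro i
    apply hι
    rw [map_mul, map_mul, hite k hell (Sum.inr i), ← hellk, ← hyk]
    show ι ((itr E (pB a g F) (qB a F) k).2) * ch a (y k) i * ell a (y k) = _
    unfold ch
    rw [mul_assoc, div_mul_cancel₀ _ (hell k le_rfl)]

end Pool.Agent.Work.MP_91e6de_nt.DMR

end

section

set_option autoImplicit false

/-!
# Item ParR: choice of the parameters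
-/

namespace Pool.Agent.Work.MP_91e6de_nt.DMR

/-- polynomially bounded functions -/
def ParRPB (f : ℕ → ℕ) : Prop := ∃ C B : ℕ, ∀ m, 1 ≤ m → f m ≤ C * m ^ B

theorem ParRPB_const (c : ℕ) : ParRPB (fun _ => c) := ⟨c, 0, fun m _ => by simp⟩

theorem ParRPB_id : ParRPB (fun m => m) := ⟨1, 1, fun m _ => by simp⟩

theorem ParRPB_le {f g : ℕ → ℕ} (hf : ParRPB f) (h : ∀ m, 1 ≤ m → g m ≤ f m) : ParRPB g := by
  obtain ⟨C, B, h1⟩ := hf
  exact ⟨C, B, fun m hm => (h m hm).trans (h1 m hm)⟩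

theorem ParRPB_mul {f g : ℕ → ℕ} (hf : ParRPB f) (hg : ParRPB g) :
    ParRPB (fun m => f m * g m) := by
  obtain ⟨C, B, h⟩ := hf
  obtain ⟨C', B', h'⟩ := hg
  refine ⟨C * C', B + B', fun m hm => ?_⟩
  calc f m * g m ≤ (C * m ^ B) * (C' * m ^ B') := Nat.mul_le_mul (h m hm) (h' m hm)
    _ = C * C' * m ^ (B + B') := by rw [pow_add]; ring

theorem ParRPB_add {f g : ℕ → ℕ} (hf : ParRPB f) (hg : ParRPB g) :
    ParRPB (fun m => f m + g m) := by
  obtain ⟨C, B, h⟩ := hf
  obtain ⟨C', B', h'⟩ := hg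
  refine ⟨C + C', B + B', fun m hm => ?_⟩
  have h1 : m ^ B ≤ m ^ (B + B') := Nat.pow_le_pow_right hm (by omega)
  have h2 : m ^ B' ≤ m ^ (B + B') := Nat.pow_le_pow_right hm (by omega)
  calc f m + g m ≤ C * m ^ B + C' * m ^ B' := Nat.add_le_add (h m hm) (h' m hm)
    _ ≤ C * m ^ (B + B') + C' * m ^ (B + B') :=
        Nat.add_le_add (Nat.mul_le_mul_left _ h1) (Nat.mul_le_mul_left _ h2)
    _ = (C + C') * m ^ (B + B') := by ring

theorem ParRPB_pow {f : ℕ → ℕ} (hf : ParRPB f) (n : ℕ) : ParRPB (fun m => f m ^ n) := by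
  induction n with
  | zero => simpa using ParRPB_const 1
  | succ n ih => simpa [pow_succ] using ParRPB_mul ih hf

theorem ParR_k (e k0 : ℕ) (lam : ℝ) (hlam : 1 < lam) (f : ℕ → ℕ) (hf : ParRPB f) :
    ∃ k : ℕ → ℕ, ParRPB k ∧ ParRPB (fun m => e ^ k m) ∧
      ∀ m, 1 ≤ m → k0 ≤ k m ∧ ((f m : ℕ) : ℝ) < lam ^ k m := by
  obtain ⟨r, hr⟩ := pow_unbounded_of_one_lt ((e + 1 : ℕ) : ℝ) hlam
  have hex : ∀ m : ℕ, ∃ j : ℕ, ((f m + 1 : ℕ) : ℝ) < lam ^ j := fun m =>
    pow_unbounded_of_one_lt _ hlam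
  classical
  have hlam0 : 0 < lam := lt_trans one_pos hlam
  obtain ⟨j, hj⟩ : ∃ j : ℕ → ℕ, ∀ m : ℕ, 1 ≤ m → 1 ≤ j m ∧
      lam ^ (j m - 1) ≤ ((f m + 1 : ℕ) : ℝ) ∧
      ((f m + 1 : ℕ) : ℝ) < lam ^ j m := by
    refine ⟨fun m => Nat.find (hex m), fun m _ => ?_⟩
    have h1 : 1 ≤ Nat.find (hex m) := by
      by_contra h
      have h0 : Nat.find (hex m) = 0 := by omega
      have := Nat.find_spec (hex m)
      rw [h0, pow_zero] at this
      have h2 : (1 : ℝ) ≤ ((f m + 1 : ℕ) : ℝ) := by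
        push_cast
        have : (0 : ℝ) ≤ f m := Nat.cast_nonneg _
        linarith
      linarith
    refine ⟨h1, ?_, Nat.find_spec (hex m)⟩
    have := Nat.find_min (hex m) (m := Nat.find (hex m) - 1) (by omega)
    exact not_lt.1 this
  have hf1 : ParRPB (fun m => f m + 1) := ParRPB_add hf (ParRPB_const 1)
  refine ⟨fun m => k0 + j m, ?_, ?_, ?_⟩
  · refine ParRPB_add (ParRPB_const k0) ?_
    obtain ⟨c, hc⟩ := exists_nat_ge (1 / (lam - 1))
    refine ParRPB_le (f := fun m => 1 + (f m + 1) * c)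
      (ParRPB_add (ParRPB_const 1) (ParRPB_mul hf1 (ParRPB_const c))) (fun m hm => ?_)
    obtain ⟨h1, h2, -⟩ := hj m hm
    have hb := one_add_mul_le_pow (a := lam - 1) (by linarith) (j m - 1)
    have h3 : 1 + ((j m - 1 : ℕ) : ℝ) * (lam - 1) ≤ ((f m + 1 : ℕ) : ℝ) := by
      refine le_trans hb ?_
      have e1 : 1 + (lam - 1) = lam := by ring
      rw [e1]
      exact h2
    have hl : 0 < lam - 1 := by linarith
    have h4 : ((j m - 1 : ℕ) : ℝ) ≤ ((f m + 1 : ℕ) : ℝ) * c := by
      have h5 : ((j m - 1 : ℕ) : ℝ) ≤ ((f m + 1 : ℕ) : ℝ) * (1 / (lam - 1)) := by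
        rw [mul_one_div, le_div_iff₀ hl]
        linarith
      refine le_trans h5 (mul_le_mul_of_nonneg_left hc (by positivity))
    have h6 : j m - 1 ≤ (f m + 1) * c := by exact_mod_cast h4
    omega
  · obtain ⟨c, hc⟩ := exists_nat_ge lam
    refine ParRPB_le (f := fun m => (e + 1) ^ k0 * (c * (f m + 1)) ^ r)
      (ParRPB_mul (ParRPB_const _) (ParRPB_pow (ParRPB_mul (ParRPB_const c) hf1) r))
      (fun m hm => ?_)
    obtain ⟨h1, h2, -⟩ := hj m hm
    have h3 : lam ^ j m ≤ c * ((f m + 1 : ℕ) : ℝ) := by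
      have e1 : lam ^ j m = lam * lam ^ (j m - 1) := by
        rw [← pow_succ']
        congr 1
        omega
      rw [e1]
      exact mul_le_mul hc h2 (by positivity) (by positivity)
    have h4 : (((e + 1) ^ (k0 + j m) : ℕ) : ℝ) ≤
        (((e + 1) ^ k0 * (c * (f m + 1)) ^ r : ℕ) : ℝ) := by
      rw [pow_add, Nat.cast_mul, Nat.cast_mul]
      refine mul_le_mul_of_nonneg_left ?_ (Nat.cast_nonneg _)
      rw [Nat.cast_pow, Nat.cast_pow, Nat.cast_mul]
      calc (((e + 1 : ℕ) : ℝ)) ^ j m ≤ (lam ^ r) ^ j m :=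
            pow_le_pow_left₀ (by positivity) hr.le _
        _ = (lam ^ j m) ^ r := by rw [← pow_mul, ← pow_mul, mul_comm]
        _ ≤ (c * ((f m + 1 : ℕ) : ℝ)) ^ r := pow_le_pow_left₀ (by positivity) h3 _
    have h5 : (e + 1) ^ (k0 + j m) ≤ (e + 1) ^ k0 * (c * (f m + 1)) ^ r := by
      exact_mod_cast h4
    exact (Nat.pow_le_pow_left (Nat.le_succ e) _).trans h5
  · intro m hm
    refine ⟨Nat.le_add_right _ _, ?_⟩
    have h1 := (hj m hm).2.2
    have h2 : lam ^ j m ≤ lam ^ (k0 + j m) := pow_le_pow_right₀ hlam.le (Nat.le_add_left _ _)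
    have h3 : ((f m : ℕ) : ℝ) ≤ ((f m + 1 : ℕ) : ℝ) := by
      push_cast
      linarith
    linarith

theorem pr_ParR : S_ParR := by
  intro kap r e k0 A m lam _ _ _ hlam
  have hf : ParRPB (fun h => m * (DZ kap r h + 1)) := by
    unfold DZ
    exact ParRPB_mul (ParRPB_const m) (ParRPB_add (ParRPB_mul (ParRPB_const _)
      (ParRPB_pow (ParRPB_mul (ParRPB_const _) ParRPB_id) r)) (ParRPB_const 1))
  obtain ⟨k, hk1, hk2, hk3⟩ := ParR_k e k0 lam hlam _ hf
  have hX : ParRPB (fun h => (2 + h + k h + e ^ k h) ^ A) :=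
    ParRPB_pow (ParRPB_add (ParRPB_add (ParRPB_add (ParRPB_const 2) ParRPB_id) hk1) hk2) A
  obtain ⟨D, B, hDB⟩ := hX
  refine ⟨1 / ((B : ℝ) + 1), by positivity, fun C => ?_⟩
  obtain ⟨C5, hC5⟩ : ∃ C5 : ℝ, C5 = |C| + 2 := ⟨_, rfl⟩
  have hC50 : 0 < C5 := by rw [hC5]; positivity
  obtain ⟨N0, hN0⟩ := exists_nat_gt (((D : ℝ) * C5 ^ B) ^ (B + 1))
  refine ⟨max N0 1, fun N hN => ?_⟩
  obtain ⟨x, hx⟩ : ∃ x : ℝ, x = (N : ℝ) ^ (1 / ((B : ℝ) + 1)) := ⟨_, rfl⟩
  have hN1 : (1 : ℝ) ≤ N := by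
    have : 1 ≤ N := le_trans (le_max_right _ _) hN
    exact_mod_cast this
  have hx1 : 1 ≤ x := by
    rw [hx]
    exact Real.one_le_rpow hN1 (by positivity)
  have hxN : x ^ (B + 1) = N := by
    rw [hx, ← Real.rpow_natCast, ← Real.rpow_mul (by linarith)]
    have : 1 / ((B : ℝ) + 1) * ((B + 1 : ℕ) : ℝ) = 1 := by
      push_cast
      field_simp
    rw [this, Real.rpow_one]
  have hxD : (D : ℝ) * C5 ^ B < x := by
    have h1 : ((D : ℝ) * C5 ^ B) ^ (B + 1) < x ^ (B + 1) := by
      rw [hxN]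
      refine lt_of_lt_of_le hN0 ?_
      exact_mod_cast le_trans (le_max_left _ _) hN
    exact lt_of_pow_lt_pow_left₀ _ (by linarith) h1
  rw [← hx]
  obtain ⟨h, hh⟩ : ∃ h : ℕ, h = ⌈|C| * x⌉₊ + 1 := ⟨_, rfl⟩
  have hh1 : 1 ≤ h := by omega
  have hhx : (h : ℝ) ≤ C5 * x := by
    have h1 : (⌈|C| * x⌉₊ : ℝ) ≤ |C| * x + 1 :=
      (Nat.ceil_lt_add_one (by positivity)).le
    rw [hh, hC5, Nat.cast_add, Nat.cast_one]
    linarith
  have hlt : (2 + h + k h + e ^ k h) ^ A ≤ N := by
    have h1 := hDB h hh1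
    have h2 : ((D * h ^ B : ℕ) : ℝ) ≤ N := by
      push_cast
      calc (D : ℝ) * (h : ℝ) ^ B ≤ D * (C5 * x) ^ B :=
            mul_le_mul_of_nonneg_left (pow_le_pow_left₀ (by positivity) hhx _) (by positivity)
        _ = (D * C5 ^ B) * x ^ B := by rw [mul_pow]; ring
        _ ≤ x * x ^ B := mul_le_mul_of_nonneg_right hxD.le (by positivity)
        _ = N := by rw [← pow_succ', hxN]
    have h3 : D * h ^ B ≤ N := by exact_mod_cast h2
    exact h1.trans h3
  obtain ⟨hk4, hk5⟩ := hk3 h hh1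
  refine ⟨h, k h, 2 + h + k h + e ^ k h, ?_, hh1, hk4, by omega, by omega, by omega, by omega,
    hlt, hk5⟩
  have h1 : |C| * x ≤ ⌈|C| * x⌉₊ := Nat.le_ceil _
  have h2 : (⌈|C| * x⌉₊ : ℝ) ≤ h := by
    rw [hh, Nat.cast_add, Nat.cast_one]
    linarith
  have h3 : C * x ≤ |C| * x := mul_le_mul_of_nonneg_right (le_abs_self C) (by linarith)
  linarith

end Pool.Agent.Work.MP_91e6de_nt.DMR

end

section

set_option autoImplicit false

/-!
# Item RDB: large fibre degree gives a large partial reduced degree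
-/

namespace Pool.Agent.Work.MP_91e6de_nt.DMR

open MvPolynomial

theorem RDB_ell {s m : ℕ} {K : Type} [Field K] (a b : Fin m → ℕ)
    (G : Fin (m + 1) → MvPolynomial (Fin (m + 1)) (MvPolynomial (Fin s) K)) :
    dhB a (ell b G) = ell b fun i => dhB a (G i) := by
  unfold ell dhB
  rw [ev_add, ev_sum]
  congr 1
  refine Finset.sum_congr rfl fun i _ => ?_
  rw [ev_mul, ev_natCast]

theorem RDB_sum {K : Type} [Field K] {s m : ℕ} (p : MvPolynomial (Fin s ⊕ Fin m) K) (N : ℕ)
    (h : ∀ j : Fin m, p.degreeOf (Sum.inr j) ≤ N) :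
    ∀ u ∈ p.support, ∑ j : Fin m, u (Sum.inr j) ≤ m * N := by
  intro u hu
  refine (Finset.sum_le_sum fun j _ => (monomial_le_degreeOf (Sum.inr j) hu).trans (h j)).trans ?_
  simp

theorem pr_RDB (h1 : S_RDc) (h2 : S_Hz) (h3 : S_ItrB) : S_RDB := by
  classical
  intro s m K _ e E k D l a g F hD hF hp hq hitr hGr hl
  by_contra hcon
  push Not at hcon
  set W := (itr E (pB a g F) (qB a F) k).2 with hW
  set U : Fin m → MvPolynomial (Fin s ⊕ Fin m) K :=
    fun i => (itr E (pB a g F) (qB a F) k).1 (Sum.inr i) with hU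
  have hW0 : W ≠ 0 := hitr k le_rfl
  obtain ⟨A, B, hB, hAB, hdeg⟩ := h1 (Fin s ⊕ Fin m) (Fin m) K (Set.range Sum.inr) D U W hW0 hD
    (by
      rintro i j ⟨j', rfl⟩
      exact hcon i j')
  rw [Fintype.card_fin] at hdeg
  have hdB : ∀ j : Fin m, B.degreeOf (Sum.inr j) ≤ m * D := fun j => (hdeg _ ⟨j, rfl⟩).1
  have hdA : ∀ (i : Fin m) (j : Fin m), (A i).degreeOf (Sum.inr j) ≤ m * D :=
    fun i j => (hdeg _ ⟨j, rfl⟩).2 i
  obtain ⟨hz1, hz2⟩ := h2 s m K a
  obtain ⟨G', hG', hG'B⟩ := hz1 (m * (m * D)) B (RDB_sum B _ hdB)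
  have hGi := fun i => hz1 (m * (m * D)) (A i) (RDB_sum (A i) _ (hdA i))
  choose Gi hGi1 hGi2 using hGi
  set G : Fin (m + 1) → MvPolynomial (Fin (m + 1)) (MvPolynomial (Fin s) K) :=
    Fin.snoc Gi (G' - ∑ i, (a i : MvPolynomial (Fin (m + 1)) (MvPolynomial (Fin s) K)) * Gi i)
    with hG
  have hGc : ∀ i : Fin m, G i.castSucc = Gi i := by
    intro i
    rw [hG]
    exact Fin.snoc_castSucc (α := fun _ => MvPolynomial (Fin (m + 1)) (MvPolynomial (Fin s) K)) _ _ _
  have hGl : G (Fin.last m) =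
      G' - ∑ i, (a i : MvPolynomial (Fin (m + 1)) (MvPolynomial (Fin s) K)) * Gi i := by
    rw [hG]
    exact Fin.snoc_last (α := fun _ => MvPolynomial (Fin (m + 1)) (MvPolynomial (Fin s) K)) _ _
  have hGhom : ∀ j, (G j).IsHomogeneous (m * (m * D)) := by
    intro j
    refine Fin.lastCases ?_ (fun i => ?_) j
    · rw [hGl]
      refine hG'.sub (IsHomogeneous.sum _ _ _ fun i _ => ?_)
      have h5 := (isHomogeneous_C (Fin (m + 1)) ((a i : MvPolynomial (Fin s) K))).mul (hGi1 i)
      rw [zero_add] at h5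
      simpa using h5
    · rw [hGc]
      exact hGi1 i
  have hell : ell a G = G' := by
    unfold ell
    rw [hGl]
    simp only [hGc]
    exact sub_add_cancel _ _
  have hG0 : G ≠ 0 := by
    intro h0
    apply hB
    rw [← hG'B, ← hell, h0]
    have : ell a (0 : Fin (m + 1) → MvPolynomial (Fin (m + 1)) (MvPolynomial (Fin s) K)) = 0 := by
      simp [ell]
    rw [this, dhB_zero]
  obtain ⟨hlY, hitU⟩ := h3 s m K e E k a g F hF hp hq hitr
  set Y := (itB g F k).2 with hY
  set lY := ell a fun i => dhB a (Y i) with hlYd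
  have hA : ∀ i : Fin m, A i * lY = B * dhB a (Y i.castSucc) := by
    intro i
    apply mul_right_cancel₀ hW0
    have e1 := hAB i
    have e2 := hitU i
    calc A i * lY * W = (A i * W) * lY := by ring
      _ = B * (U i * lY) := by rw [e1]; ring
      _ = B * (W * dhB a (Y i.castSucc)) := by rw [← e2]
      _ = B * dhB a (Y i.castSucc) * W := by ring
  have hall : ∀ j, dhB a (G j) * lY = B * dhB a (Y j) := by
    intro j
    refine Fin.lastCases ?_ (fun i => ?_) j
    · have e1 : dhB a (G (Fin.last m)) + ∑ i, (a i : MvPolynomial (Fin s ⊕ Fin m) K) * A i = B := by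
        have e2 := RDB_ell a a G
        rw [hell, hG'B] at e2
        rw [e2]
        unfold ell
        congr 1
        refine Finset.sum_congr rfl fun i _ => ?_
        simp only [hGc, hGi2]
      have e3 : lY = dhB a (Y (Fin.last m)) +
          ∑ i : Fin m, (a i : MvPolynomial (Fin s ⊕ Fin m) K) * dhB a (Y i.castSucc) := rfl
      have e4 : (∑ i : Fin m, (a i : MvPolynomial (Fin s ⊕ Fin m) K) * A i) * lY =
          B * ∑ i : Fin m, (a i : MvPolynomial (Fin s ⊕ Fin m) K) * dhB a (Y i.castSucc) := by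
        rw [Finset.sum_mul, Finset.mul_sum]
        refine Finset.sum_congr rfl fun i _ => ?_
        rw [mul_assoc, hA i]
        ring
      have e5 : dhB a (G (Fin.last m)) * lY +
          (∑ i : Fin m, (a i : MvPolynomial (Fin s ⊕ Fin m) K) * A i) * lY = B * lY := by
        rw [← add_mul, e1]
      rw [e4] at e5
      have e6 : B * lY = B * dhB a (Y (Fin.last m)) +
          B * ∑ i : Fin m, (a i : MvPolynomial (Fin s ⊕ Fin m) K) * dhB a (Y i.castSucc) := by
        rw [e3, mul_add]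
      rw [e6] at e5
      exact add_right_cancel e5
    · rw [hGc, hGi2]
      exact hA i
  have hYh : ∀ j, (Y j).IsHomogeneous (e ^ k) := itB_homog g F e hF k
  have hprop : ∀ i j, G i * Y j = G j * Y i := by
    intro i j
    have h5 : dhB a (G i * Y j - G j * Y i) = 0 := by
      apply mul_right_cancel₀ hlY
      rw [dhB_sub, dhB_mul, dhB_mul, zero_mul, sub_mul]
      have e1 : dhB a (G i) * dhB a (Y j) * lY = B * dhB a (Y i) * dhB a (Y j) := by
        rw [← hall i]
        ring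
      have e2 : dhB a (G j) * dhB a (Y i) * lY = B * dhB a (Y i) * dhB a (Y j) := by
        rw [mul_right_comm, hall j]
        ring
      rw [e1, e2, sub_self]
    have h6 := hz2 (m * (m * D) + e ^ k) (G i * Y j - G j * Y i)
      (((hGhom i).mul (hYh j)).sub ((hGhom j).mul (hYh i))) h5
    exact sub_eq_zero.1 h6
  have h7 := hGr (m * (m * D)) G hG0 hGhom hprop
  have h8 : m * (m * D) = m ^ 2 * D := by ring
  rw [h8] at h7
  exact absurd h7 (not_le.2 hl)

end Pool.Agent.Work.MP_91e6de_nt.DMR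

end

section

set_option autoImplicit false

/-!
# Common denominators
-/

namespace Pool.Agent.Work.MP_91e6de_nt.DMR

open MvPolynomial

theorem RDc_one {σ K : Type} [Field K] (Y : Set σ) (D : ℕ) (U W : MvPolynomial σ K)
    (hW : W ≠ 0) (hD : 1 ≤ D) (h : ∀ j ∈ Y, ¬ RD j D U W) :
    ∃ n d : MvPolynomial σ K, d ≠ 0 ∧ n * W = d * U ∧
      ∀ j ∈ Y, d.degreeOf j ≤ D ∧ n.degreeOf j ≤ D := by
  obtain ⟨d, n, c, hrp, hd, hn⟩ := UniqueFactorizationMonoid.exists_reduced_factors W hW U
  have hc : c ≠ 0 := by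
    rintro rfl
    exact hW (by rw [← hd, zero_mul])
  have hd0 : d ≠ 0 := by
    rintro rfl
    exact hW (by rw [← hd, mul_zero])
  refine ⟨n, d, hd0, by rw [← hd, ← hn]; ring, ?_⟩
  intro j hj
  have h1 := h j hj
  unfold RD at h1
  push Not at h1
  obtain ⟨A, B, hA, hB, hAB, h0⟩ := h1
  have h2 : A * d = B * n := by
    apply mul_left_cancel₀ hc
    calc c * (A * d) = A * (c * d) := by ring
      _ = A * W := by rw [hd]
      _ = B * U := hAB
      _ = B * (c * n) := by rw [hn]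
      _ = c * (B * n) := by ring
  have hB0 : B ≠ 0 := by
    rintro rfl
    have h3 : A * W = 0 := by rw [hAB, zero_mul]
    rcases mul_eq_zero.1 h3 with h4 | h4
    · exact h0 h4 rfl
    · exact hW h4
  have h5 : d ∣ B := hrp.dvd_of_dvd_mul_right (z := n) (y := B) ⟨A, by rw [← h2]; ring⟩
  obtain ⟨f, rfl⟩ := h5
  have hf : f ≠ 0 := by
    rintro rfl
    exact hB0 (mul_zero _)
  have h6 : A = n * f := by
    apply mul_right_cancel₀ hd0
    rw [h2]; ring
  constructor
  · rw [degreeOf_mul_eq hd0 hf] at hB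
    omega
  · rcases eq_or_ne n 0 with hn0 | hn0
    · rw [hn0, degreeOf_zero]
      exact Nat.zero_le _
    · rw [h6, degreeOf_mul_eq hn0 hf] at hA
      omega

theorem pr_RDc : S_RDc := by
  intro σ τ K _ _ Y D U W hW hD h
  classical
  have h1 : ∀ i, ∃ n d : MvPolynomial σ K, d ≠ 0 ∧ n * W = d * U i ∧
      ∀ j ∈ Y, d.degreeOf j ≤ D ∧ n.degreeOf j ≤ D := fun i =>
    RDc_one Y D (U i) W hW hD (h i)
  choose n d hd hnd hdeg using h1
  refine ⟨fun i => n i * ∏ l ∈ Finset.univ.erase i, d l, ∏ l, d l,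
    Finset.prod_ne_zero_iff.2 fun l _ => hd l, ?_, ?_⟩
  · intro i
    rw [← Finset.mul_prod_erase Finset.univ d (Finset.mem_univ i)]
    calc n i * (∏ l ∈ Finset.univ.erase i, d l) * W
        = (n i * W) * (∏ l ∈ Finset.univ.erase i, d l) := by ring
      _ = (d i * U i) * (∏ l ∈ Finset.univ.erase i, d l) := by rw [hnd]
      _ = _ := by ring
  · intro j hj
    constructor
    · refine (degreeOf_prod_le j Finset.univ d).trans ?_
      refine (Finset.sum_le_card_nsmul Finset.univ _ D fun l _ => (hdeg l j hj).1).trans ?_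
      rw [Finset.card_univ, smul_eq_mul]
    · intro i
      refine (degreeOf_mul_le j _ _).trans ?_
      have h3 : (∏ l ∈ Finset.univ.erase i, d l).degreeOf j ≤
          (Finset.univ.erase i).card * D := by
        refine (degreeOf_prod_le j _ d).trans ?_
        refine (Finset.sum_le_card_nsmul _ _ D fun l _ => (hdeg l j hj).1).trans ?_
        rw [smul_eq_mul]
      have h4 : (Finset.univ.erase i).card + 1 = Fintype.card τ := by
        rw [Finset.card_erase_add_one (Finset.mem_univ i), Finset.card_univ]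
      calc (n i).degreeOf j + (∏ l ∈ Finset.univ.erase i, d l).degreeOf j
          ≤ D + (Finset.univ.erase i).card * D := Nat.add_le_add (hdeg i j hj).2 h3
        _ = ((Finset.univ.erase i).card + 1) * D := by ring
        _ = Fintype.card τ * D := by rw [h4]

end Pool.Agent.Work.MP_91e6de_nt.DMR

end

section

set_option autoImplicit false

namespace Pool.Agent.Work.MP_91e6de_nt.DMR

open MvPolynomial

theorem ScalI_hs {σ K : Type} [Fintype σ] [Field K] (e N : ℕ) (c : K) (hc : c ≠ 0)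
    (p : MvPolynomial σ K) (hp : p.totalDegree ≤ e) (U : σ → MvPolynomial σ K)
    (W : MvPolynomial σ K) :
    hsub e (C c * p) (fun i => C (c ^ N) * U i) (C (c ^ N) * W) =
      C (c ^ (1 + N * e)) * hsub e p U W := by
  classical
  unfold hsub
  have hs : (C c * p).support = p.support := by
    ext m
    simp [mem_support_iff, coeff_C_mul, hc]
  rw [hs, Finset.mul_sum]
  apply Finset.sum_congr rfl
  intro m hm
  have h1 : ∑ i, m i ≤ e := by
    refine le_trans ?_ ((le_totalDegree hm).trans hp)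
    rw [Finsupp.sum_fintype]
    simp
  have h2 : (∏ i, (C (c ^ N) * U i) ^ m i) * (C (c ^ N) * W) ^ (e - ∑ i, m i) =
      C (c ^ (N * e)) * ((∏ i, U i ^ m i) * W ^ (e - ∑ i, m i)) := by
    simp only [mul_pow, Finset.prod_mul_distrib, Finset.prod_pow_eq_pow_sum]
    have h3 : (C (c ^ (N * e)) : MvPolynomial σ K) =
        C (c ^ N) ^ (∑ i, m i) * C (c ^ N) ^ (e - ∑ i, m i) := by
      rw [← pow_add, ← map_pow, ← pow_mul]
      congr 2
      rw [show ∑ i, m i + (e - ∑ i, m i) = e by omega]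
    rw [h3]
    ring
  rw [h2, coeff_C_mul, algebraMap_eq, map_mul, pow_add, map_mul, pow_one]
  ring

theorem pr_ScalI : S_ScalI := by
  intro σ K _ _ e c p q hc hp hq k
  induction k with
  | zero =>
    refine ⟨0, ?_, ?_⟩
    · intro i
      simp [itr]
    · simp [itr]
  | succ k ih =>
    obtain ⟨N, h1, h2⟩ := ih
    refine ⟨1 + N * e, ?_, ?_⟩
    · intro i
      show hsub e (C c * p i) (itr e (fun i => C c * p i) (C c * q) k).1
        (itr e (fun i => C c * p i) (C c * q) k).2 =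
          C (c ^ (1 + N * e)) * hsub e (p i) (itr e p q k).1 (itr e p q k).2
      rw [funext h1, h2]
      exact ScalI_hs e N c hc (p i) (hp i) _ _
    · show hsub e (C c * q) (itr e (fun i => C c * p i) (C c * q) k).1
        (itr e (fun i => C c * p i) (C c * q) k).2 =
          C (c ^ (1 + N * e)) * hsub e q (itr e p q k).1 (itr e p q k).2
      rw [funext h1, h2]
      exact ScalI_hs e N c hc q hq _ _

end Pool.Agent.Work.MP_91e6de_nt.DMR

end

section

set_option autoImplicit false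

/-!
# Item ScalP: scaling of the numerators and the denominator, images of ideals
-/

namespace Pool.Agent.Work.MP_91e6de_nt.DMR

open MvPolynomial

theorem ScalP_hsub {σ K : Type} [Fintype σ] [Field K] (c : K) (D : ℕ)
    (F p' : MvPolynomial σ K) (p : σ → MvPolynomial σ K) (q : MvPolynomial σ K)
    (hF : F.totalDegree ≤ D) (hp' : p' = hsub D F p q) :
    hsub D F (fun i => C c * p i) (C c * q) = C (c ^ D) * p' := by
  classical
  rw [hp']
  unfold hsub
  rw [Finset.mul_sum]
  refine Finset.sum_congr rfl fun m hm => ?_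
  have h1 : ∑ i, m i ≤ D := by
    refine le_trans ?_ ((le_totalDegree hm).trans hF)
    rw [Finsupp.sum_fintype]
    simp
  have h2 : ∏ i, (C c * p i) ^ m i = (C c) ^ (∑ i, m i) * ∏ i, p i ^ m i := by
    rw [← Finset.prod_pow_eq_pow_sum, ← Finset.prod_mul_distrib]
    exact Finset.prod_congr rfl fun i _ => mul_pow _ _ _
  have h3 : (C (c ^ D) : MvPolynomial σ K) = (C c) ^ (∑ i, m i) * (C c) ^ (D - ∑ i, m i) := by
    rw [← pow_add, C_pow]
    congr 1
    omega
  rw [h2, h3, mul_pow]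
  ring

theorem pr_ScalP : S_ScalP := by
  intro σ K _ _ c p q I J hc h F D hF
  rw [h F D hF, ScalP_hsub c D F _ p q hF rfl]
  have hcD : c ^ D ≠ 0 := pow_ne_zero D hc
  constructor
  · intro h1
    have h2 := I.mul_mem_left (C ((c ^ D)⁻¹)) h1
    rw [← mul_assoc, ← C_mul, inv_mul_cancel₀ hcD, C_1, one_mul] at h2
    exact h2
  · intro h1
    exact I.mul_mem_left _ h1

end Pool.Agent.Work.MP_91e6de_nt.DMR

end

section

set_option autoImplicit false

/-!
# Item T2AG: slow orbits of self-maps of projective space (Theorem U for `s = 0`)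
-/

namespace Pool.Agent.Work.MP_91e6de_nt.DMR

open MvPolynomial NumberField IsDedekindDomain Height

/-- Evaluation of a polynomial with constant coefficients. -/
theorem T2AG_ev {s m : ℕ} {K S : Type} [Field K] [CommRing S] [Algebra K S] (x : Fin s → S)
    (y : Fin (m + 1) → S) (G : MvPolynomial (Fin (m + 1)) K) :
    ev x y (map (C : K →+* MvPolynomial (Fin s) K) G) = aeval y G := by
  have h : (eval₂Hom (algebraMap K S) x).comp (C : K →+* MvPolynomial (Fin s) K) =
      algebraMap K S := by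
    ext r
    simp
  unfold ev
  rw [eval₂_map, h]
  rfl

/-- The constants. -/
noncomputable def T2AG_io (K : Type) [Field K] : MvPolynomial (Fin 0) K →+* K :=
  (isEmptyRingEquiv K (Fin 0)).toRingHom

theorem T2AG_io_C (K : Type) [Field K] (r : K) : T2AG_io K (C r) = r := by
  have := (isEmptyRingEquiv K (Fin 0)).apply_symm_apply r
  rw [isEmptyRingEquiv_symm_apply] at this
  exact this

theorem T2AG_C_io (K : Type) [Field K] (r : MvPolynomial (Fin 0) K) : C (T2AG_io K r) = r := by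
  have := (isEmptyRingEquiv K (Fin 0)).symm_apply_apply r
  rw [isEmptyRingEquiv_symm_apply] at this
  exact this

theorem T2AG_map_C {K : Type} [Field K] {σ : Type} (G : MvPolynomial σ (MvPolynomial (Fin 0) K)) :
    map (C : K →+* MvPolynomial (Fin 0) K) (map (T2AG_io K) G) = G := by
  rw [map_map]
  have h : (C : K →+* MvPolynomial (Fin 0) K).comp (T2AG_io K) = RingHom.id _ := by
    apply RingHom.ext
    intro r
    exact T2AG_C_io K r
  rw [h, map_id]

theorem T2AG_it {r : ℕ} {K : Type} [Field K] (g : Fin 0 → MvPolynomial (Fin 0) K)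
    (F : Fin (r + 1) → MvPolynomial (Fin (r + 1)) K) (k : ℕ) : ∀ i,
    map (T2AG_io K) ((itB g (fun i => map (C : K →+* MvPolynomial (Fin 0) K) (F i)) k).2 i) =
      itF F k i := by
  induction k with
  | zero => intro i; simp [itB, itF]
  | succ k ih =>
    intro i
    simp only [itB, itF]
    rw [T2AG_ev, map_aeval]
    have h : (map (T2AG_io K)).comp (algebraMap K
        (MvPolynomial (Fin (r + 1)) (MvPolynomial (Fin 0) K))) =
        algebraMap K (MvPolynomial (Fin (r + 1)) K) := by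
      apply RingHom.ext
      intro c
      show map (T2AG_io K) (C (C c)) = C c
      rw [map_C, T2AG_io_C]
    rw [h]
    simp only [ih]
    rfl

theorem pr_T2AG (h1 : S_TU) : S_T2AG := by
  intro r K _ _ F e k0 lam hr hF hlam hdeg
  set F' : Fin (r + 1) → MvPolynomial (Fin (r + 1)) (MvPolynomial (Fin 0) K) :=
    fun i => map C (F i) with hF'
  obtain ⟨η, hη, hTU⟩ := h1 0 r K Fin.elim0 F' e k0 lam hr (fun i => (hF i).map _) hlam
    (by
      intro k hk D G hG hGh hprop
      have hinj : ∀ A B : MvPolynomial (Fin (r + 1)) (MvPolynomial (Fin 0) K),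
          map (T2AG_io K) A = map (T2AG_io K) B → A = B := by
        intro A B h
        rw [← T2AG_map_C A, h, T2AG_map_C]
      have h2 : dgF F k ≤ D := by
        apply Nat.sInf_le
        refine ⟨fun i => map (T2AG_io K) (G i), ?_, fun i => (hGh i).map _, ?_⟩
        · intro h0
          apply hG
          funext i
          apply hinj
          rw [Pi.zero_apply, map_zero]
          exact congrFun h0 i
        · intro i j
          have h3 := congrArg (map (T2AG_io K)) (hprop i j)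
          rw [map_mul, map_mul, T2AG_it, T2AG_it] at h3
          exact h3
      refine (hdeg k hk).trans ?_
      exact_mod_cast h2)
  refine ⟨η, hη, fun P C' hP0 hP hht => ?_⟩
  obtain ⟨t, G, hG, hGh, hGz⟩ := hTU (fun _ => Fin.elim0) P C'
    ⟨fun _ i => i.elim0, fun n i => by rw [hP, T2AG_ev], hP0⟩ (fun _ i => i.elim0) hht
  refine ⟨t, map (T2AG_io K) G, ?_, hGh.map _, fun n => ?_⟩
  · intro h0
    apply hG
    rw [← T2AG_map_C G, h0, map_zero]
  · have h2 := hGz n
    rw [← T2AG_map_C G, T2AG_ev] at h2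
    exact h2

end Pool.Agent.Work.MP_91e6de_nt.DMR

end

section

set_option autoImplicit false

/-!
# MP_91e6de DMR: Theorem U
-/

namespace Pool.Agent.Work.MP_91e6de_nt.DMR

open MvPolynomial NumberField IsDedekindDomain Height Filter Topology

theorem TU_prop {m : ℕ} {K : Type} [Field K] (u v : Fin (m + 1) → K) (hu : u ≠ 0) (hv : v ≠ 0)
    (h : ∀ i j, u i * v j = u j * v i) : ∃ c : K, c ≠ 0 ∧ v = fun i => c * u i := by
  obtain ⟨j, hj⟩ := Function.ne_iff.mp hu
  simp only [Pi.zero_apply] at hj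
  have key : v = fun i => (v j / u j) * u i := by
    funext i
    have := h i j
    field_simp
    linear_combination -this
  refine ⟨v j / u j, ?_, key⟩
  intro h0
  apply hv
  rw [key]
  funext i
  simp [h0]

theorem TU_per {s m : ℕ} {K : Type} [Field K]
    (g : Fin s → MvPolynomial (Fin s) K)
    (F : Fin (m + 1) → MvPolynomial (Fin (m + 1)) (MvPolynomial (Fin s) K)) (e : ℕ)
    (hF : ∀ i, (F i).IsHomogeneous e) (x : ℕ → Fin s → K) (y : ℕ → Fin (m + 1) → K)
    (ho : OrbB g F x y) (n n' : ℕ) (hx : x n = x n') (c : K) (hc : c ≠ 0)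
    (hy : y n' = fun i => c * y n i) (l : ℕ) :
    x (n + l) = x (n' + l) ∧ ∃ d : K, d ≠ 0 ∧ y (n' + l) = fun i => d * y (n + l) i := by
  induction l with
  | zero => exact ⟨hx, c, hc, hy⟩
  | succ l ih =>
    obtain ⟨h1, d, hd, h2⟩ := ih
    refine ⟨?_, d ^ e, pow_ne_zero _ hd, ?_⟩
    · funext i
      rw [← add_assoc, ← add_assoc, ho.1, ho.1, h1]
    · funext i
      rw [← add_assoc, ← add_assoc, ho.2.1, ho.2.1, h2, ← h1, ev_smul _ _ _ _ _ (hF i)]

theorem TU_fin {s m : ℕ} {K : Type} [Field K]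
    (g : Fin s → MvPolynomial (Fin s) K)
    (F : Fin (m + 1) → MvPolynomial (Fin (m + 1)) (MvPolynomial (Fin s) K)) (e : ℕ)
    (hF : ∀ i, (F i).IsHomogeneous e) (x : ℕ → Fin s → K) (y : ℕ → Fin (m + 1) → K)
    (ho : OrbB g F x y) (n n' : ℕ) (hn : n < n') (hx : x n = x n') (c : K) (hc : c ≠ 0)
    (hy : y n' = fun i => c * y n i) (N : ℕ) :
    ∃ l < n', ∃ d : K, d ≠ 0 ∧ y N = fun i => d * y l i := by
  induction N using Nat.strong_induction_on with
  | _ N ih =>
    by_cases hN : N < n'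
    · exact ⟨N, hN, 1, one_ne_zero, by simp⟩
    · push Not at hN
      obtain ⟨l, rfl⟩ := Nat.exists_eq_add_of_le hN
      obtain ⟨-, d, hd, h2⟩ := TU_per g F e hF x y ho n n' hx c hc hy l
      obtain ⟨l', hl', d', hd', h3⟩ := ih (n + l) (by omega)
      refine ⟨l', hl', d * d', mul_ne_zero hd hd', ?_⟩
      rw [h2, h3]
      funext i
      ring

theorem TU_num (C C0 η : ℝ) (hη : 0 < η) (hC0 : 0 ≤ C0) (N : ℕ) (hN : 1 ≤ N) :
    C0 * (1 + max (|C| * (3 * (N : ℝ) + 1) ^ η) (Real.log (3 * (N : ℝ) + 2))) ≤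
      C0 * (1 + 5 ^ η * (|C| + 1 / η)) * (N : ℝ) ^ η := by
  have hN1 : (1 : ℝ) ≤ N := by exact_mod_cast hN
  have hNe : (1 : ℝ) ≤ (N : ℝ) ^ η := Real.one_le_rpow hN1 hη.le
  have h5 : ((5 : ℝ) * N) ^ η = 5 ^ η * (N : ℝ) ^ η :=
    Real.mul_rpow (by norm_num) (by positivity)
  have h1 : (3 * (N : ℝ) + 1) ^ η ≤ 5 ^ η * (N : ℝ) ^ η := by
    rw [← h5]
    exact Real.rpow_le_rpow (by positivity) (by linarith) hη.le
  have h2 : Real.log (3 * (N : ℝ) + 2) ≤ 5 ^ η * (N : ℝ) ^ η * (1 / η) := by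
    calc Real.log (3 * (N : ℝ) + 2) ≤ (3 * (N : ℝ) + 2) ^ η / η :=
          Real.log_le_rpow_div (by positivity) hη
      _ ≤ (5 ^ η * (N : ℝ) ^ η) / η := by
          rw [← h5]
          gcongr
          linarith
      _ = _ := by ring
  have hp : 0 ≤ (5 : ℝ) ^ η * (N : ℝ) ^ η := by positivity
  have hi : 0 ≤ 1 / η := by positivity
  have h3 : max (|C| * (3 * (N : ℝ) + 1) ^ η) (Real.log (3 * (N : ℝ) + 2)) ≤
      5 ^ η * (N : ℝ) ^ η * (|C| + 1 / η) := by
    apply max_le
    · calc |C| * (3 * (N : ℝ) + 1) ^ η ≤ |C| * (5 ^ η * (N : ℝ) ^ η) := by gcongr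
        _ ≤ _ := by nlinarith [mul_nonneg hp hi]
    · calc Real.log (3 * (N : ℝ) + 2) ≤ 5 ^ η * (N : ℝ) ^ η * (1 / η) := h2
        _ ≤ _ := by nlinarith [mul_nonneg hp (abs_nonneg C)]
  calc C0 * (1 + max (|C| * (3 * (N : ℝ) + 1) ^ η) (Real.log (3 * (N : ℝ) + 2)))
      ≤ C0 * ((N : ℝ) ^ η + 5 ^ η * (N : ℝ) ^ η * (|C| + 1 / η)) := by gcongr
    _ = _ := by ring

theorem pr_TU (h1 : S_Win) (h2 : S_ParR) (h3 : S_WndG) (h4 : S_TailB) (h5 : S_FinB) : S_TU := by
  intro s m K _ _ g F e k0 lam hm hF hlam hGr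
  obtain ⟨E, A, C0, hE, hC0, hW⟩ := h1 s m K g F e hm hF
  have hfin : 1 ≤ Module.finrank ℚ K := Nat.one_le_iff_ne_zero.mpr Module.finrank_pos.ne'
  obtain ⟨η, hη, hP⟩ := h2 (Module.finrank ℚ K) (s + m) E k0 A (m ^ 2) lam hfin (by omega) hE hlam
  refine ⟨η, hη, ?_⟩
  intro x y C ho hhx hhy
  by_cases hcase : ∃ n n', n < n' ∧ (x n = x n' ∧ ∀ i j, y n i * y n' j = y n j * y n' i)
  · obtain ⟨n, n', hn, hx, hy⟩ := hcase
    obtain ⟨c, hc, hyc⟩ := TU_prop (y n) (y n') (ho.2.2 n) (ho.2.2 n') hy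
    obtain ⟨t, G, hG0, hGh, hGv⟩ := h5 s m K (Finset.range n') y hm (fun n _ => ho.2.2 n)
    refine ⟨t, G, hG0, hGh, ?_⟩
    intro N
    obtain ⟨l, hl, d, hd, h6⟩ := TU_fin g F e hF x y ho n n' hn hx c hc hyc N
    rw [h6, ev_smul _ _ _ _ _ hGh, hGv l (Finset.mem_range.mpr hl), mul_zero]
  · push Not at hcase
    have hcase' : ∀ n n', n < n' → ¬ (x n = x n' ∧ ∀ i j, y n i * y n' j = y n j * y n' i) := by
      intro n n' hn hh
      obtain ⟨i, j, hij⟩ := hcase n n' hn hh.1
      exact hij (hh.2 i j)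
    obtain ⟨N0, hN0⟩ := hP (C0 * (1 + 5 ^ η * (|C| + 1 / η)))
    set N := max N0 1 with hNdef
    have hN1 : 1 ≤ N := le_max_right _ _
    obtain ⟨h, k, X, hh1, hh2, hk0, hX2, hhX, hkX, hEX, hXA, hlamk⟩ := hN0 N (le_max_left _ _)
    obtain ⟨a, ha1, ha2⟩ := h3 K m (3 * N) y ho.2.2
    set H : ℝ := max (|C| * (3 * (N : ℝ) + 1) ^ η) (Real.log (3 * (N : ℝ) + 2)) with hH
    have hCH : ∀ n ≤ 3 * N, C * ((n : ℝ) + 1) ^ η ≤ H := by
      intro n hn
      have hn' : (n : ℝ) ≤ 3 * N := by exact_mod_cast hn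
      calc C * ((n : ℝ) + 1) ^ η ≤ |C| * ((n : ℝ) + 1) ^ η := by
            gcongr
            exact le_abs_self C
        _ ≤ |C| * (3 * (N : ℝ) + 1) ^ η := by gcongr
        _ ≤ H := le_max_left _ _
    have hcyc := hW x y a N h k X H (lam ^ k) ho hcase' ha2
      (fun n hn i => (hhx n i).trans (hCH n hn)) (fun n hn => (hhy n).trans (hCH n hn))
      (fun i => by
        refine le_trans ?_ (le_max_right _ _)
        apply Real.log_le_log (by positivity)
        have : (a i : ℝ) ≤ 3 * N + 1 := by exact_mod_cast ha1 i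
        linarith)
      ((TU_num C C0 η hη hC0 N hN1).trans hh1) hh2 hX2 hhX hkX hEX hXA (hGr k hk0) hlamk
    obtain ⟨n0, t, G, hG0, hGh, hGv⟩ := h4 s m K e (3 * N) a g F x y hF ho ha2 hcyc
    obtain ⟨t', G', hG0', hGh', hGv'⟩ := h5 s m K (Finset.range n0) y hm (fun n _ => ho.2.2 n)
    refine ⟨t + t', G * G', mul_ne_zero hG0 hG0', hGh.mul hGh', ?_⟩
    intro n
    rw [ev_mul]
    by_cases hn : n0 ≤ n
    · rw [hGv n hn, zero_mul]
    · rw [hGv' n (Finset.mem_range.mpr (by omega)), mul_zero]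

end Pool.Agent.Work.MP_91e6de_nt.DMR

end

section

set_option autoImplicit false

/-!
# TailB: a cyclic chain contains the rest of the orbit
-/

namespace Pool.Agent.Work.MP_91e6de_nt.DMR

open MvPolynomial

/-- All forms whose restriction to the chart is in `I` vanish at `(x, y)`. -/
def TailB_Z {s m : ℕ} {K : Type} [Field K] (a : Fin m → ℕ)
    (I : Ideal (MvPolynomial (Fin s ⊕ Fin m) K)) (x : Fin s → K) (y : Fin (m + 1) → K) : Prop :=
  ∀ (t : ℕ) (G : MvPolynomial (Fin (m + 1)) (MvPolynomial (Fin s) K)), G.IsHomogeneous t →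
    dhB a G ∈ I → ev x y G = 0

theorem TailB_hsub_one {σ K : Type} [Fintype σ] [Field K] (p : σ → MvPolynomial σ K)
    (q : MvPolynomial σ K) : hsub 1 (1 : MvPolynomial σ K) p q = q := by
  classical
  unfold hsub
  have h1 : (1 : MvPolynomial σ K).support = {0} := support_one
  rw [h1, Finset.sum_singleton]
  simp

theorem TailB_step (h1 : S_HomT) {s m : ℕ} {K : Type} [Field K] (e : ℕ) (a : Fin m → ℕ)
    (g : Fin s → MvPolynomial (Fin s) K)
    (F : Fin (m + 1) → MvPolynomial (Fin (m + 1)) (MvPolynomial (Fin s) K))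
    (hF : ∀ i, (F i).IsHomogeneous e) (I J : Ideal (MvPolynomial (Fin s ⊕ Fin m) K))
    (hI : I.IsPrime) (hJ : J.IsPrime) (hP : Push (pB a g F) (qB a F) I J)
    (x : Fin s → K) (y : Fin (m + 1) → K) (hZ : TailB_Z a I x y) :
    TailB_Z a J (fun i => aeval x (g i)) (fun i => ev x y (F i)) := by
  have hq : qB a F ∉ I := by
    intro h
    have h2 := (hP 1 1 (by simp)).mpr (by rw [TailB_hsub_one]; exact h)
    exact hJ.ne_top ((Ideal.eq_top_iff_one J).mpr h2)
  have hq0 : qB a F ≠ 0 := fun h => hq (h ▸ I.zero_mem)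
  intro t G hG hGJ
  have h2 := h1 s m K e t (max t (dhB a G).totalDegree) a g F G hF hG (le_max_left _ _)
    (le_max_right _ _) hq0
  have h3 := (hP (dhB a G) (max t (dhB a G).totalDegree) (le_max_right _ _)).mp hGJ
  rw [h2] at h3
  have h4 : dhB a (comp g F G) ∈ I := by
    rcases hI.mem_or_mem h3 with h | h
    · exact absurd (hI.mem_of_pow_mem _ h) hq
    · exact h
  have h5 := hZ (e * t) (comp g F G) (comp_homog g F e t hF G hG) h4
  rwa [ev_comp] at h5

theorem TailB_mod (I : ℕ → Prop) (g0 k : ℕ) (hg : 1 ≤ g0) (h0 : I g0 → I 0)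
    (h : I (k % g0 + 1)) : I ((k + 1) % g0) := by
  have h1 : k % g0 < g0 := Nat.mod_lt _ hg
  have h2 := Nat.div_add_mod k g0
  rcases Nat.lt_or_ge (k % g0 + 1) g0 with h3 | h3
  · have h4 : (k + 1) % g0 = k % g0 + 1 := by
      conv_lhs => rw [← h2, add_assoc, Nat.mul_add_mod]
      exact Nat.mod_eq_of_lt h3
    rw [h4]
    exact h
  · have h4 : k % g0 + 1 = g0 := by omega
    have h5 : (k + 1) % g0 = 0 := by
      conv_lhs => rw [← h2, add_assoc, Nat.mul_add_mod, h4]
      exact Nat.mod_self g0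
    rw [h5]
    rw [h4] at h
    exact h0 h

/-- a cyclic chain contains the rest of the orbit -/
theorem pr_TailB (h1 : S_HomT) (h2 : S_Hz) : S_TailB := by
  intro s m K _ e M a g F x y hF hO hell hC
  classical
  obtain ⟨n0, g0, I, hn0, hg0, hI, hP, hI0, hOn⟩ := hC
  obtain ⟨hx, hy, _⟩ := hO
  have hZ : ∀ k, TailB_Z a (I (k % g0)) (x (n0 + k)) (y (n0 + k)) := by
    intro k
    induction k with
    | zero =>
      intro t G hG hGI
      rw [Nat.zero_mod] at hGI
      rw [Nat.add_zero, ev_eq_chart a (x n0) (y n0) (hell n0 hn0) t G hG, hOn _ hGI, mul_zero]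
    | succ k ih =>
      have hlt : k % g0 < g0 := Nat.mod_lt _ hg0
      have h3 := TailB_step h1 e a g F hF (I (k % g0)) (I (k % g0 + 1)) (hI _ hlt.le).1
        (hI _ hlt).1 (hP _ hlt) _ _ ih
      have h4 : (fun i => aeval (x (n0 + k)) (g i)) = x (n0 + (k + 1)) := by
        funext i
        exact (hx (n0 + k) i).symm
      have h5 : (fun i => ev (x (n0 + k)) (y (n0 + k)) (F i)) = y (n0 + (k + 1)) := by
        funext i
        exact (hy (n0 + k) i).symm
      rw [h4, h5] at h3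
      exact TailB_mod (fun i => TailB_Z a (I i) (x (n0 + (k + 1))) (y (n0 + (k + 1)))) g0 k hg0
        (fun h => by simpa only [hI0] using h) h3
  have hG : ∀ i, ∃ (t : ℕ) (G : MvPolynomial (Fin (m + 1)) (MvPolynomial (Fin s) K)),
      i < g0 → (G ≠ 0 ∧ G.IsHomogeneous t ∧ dhB a G ∈ I i) := by
    intro i
    by_cases hi : i < g0
    · obtain ⟨H, hH, hH0⟩ := (Submodule.ne_bot_iff _).mp (hI i hi.le).2
      obtain ⟨G, hGh, hGd⟩ := (h2 s m K a).1 H.totalDegree H (by
        intro u hu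
        have h3 := le_totalDegree hu
        rw [Finsupp.sum_fintype _ _ (by intro i; rfl), Fintype.sum_sum_type] at h3
        omega)
      refine ⟨_, G, fun _ => ⟨?_, hGh, by rw [hGd]; exact hH⟩⟩
      intro h
      rw [h, dhB_zero] at hGd
      exact hH0 hGd.symm
    · exact ⟨0, 0, fun h => absurd h hi⟩
  choose t G hG using hG
  refine ⟨n0, ∑ i ∈ Finset.range g0, t i, ∏ i ∈ Finset.range g0, G i, ?_, ?_, ?_⟩
  · exact Finset.prod_ne_zero_iff.mpr fun i hi => (hG i (Finset.mem_range.mp hi)).1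
  · exact IsHomogeneous.prod _ _ _ fun i hi => (hG i (Finset.mem_range.mp hi)).2.1
  · intro n hn
    obtain ⟨k, rfl⟩ := Nat.exists_eq_add_of_le hn
    have hlt : k % g0 < g0 := Nat.mod_lt _ hg0
    rw [ev_prod]
    exact Finset.prod_eq_zero (Finset.mem_range.mpr hlt)
      (hZ k _ _ (hG _ hlt).2.1 (hG _ hlt).2.2)

end Pool.Agent.Work.MP_91e6de_nt.DMR

end

section

set_option autoImplicit false

/-!
# MP_91e6de, item ThA: THEOREM A from the determinant method theorem
-/

namespace Pool.Agent.Work.MP_91e6de_nt.DMR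

open MvPolynomial NumberField Height Filter Topology

theorem pr_ThA (h1 : S_T2AG) : S_ThA := by
  intro r K _ _ F e δ hr hF hlim hδ
  -- the growth of the degrees
  set lam : ℝ := (1 + δ) / 2 with hlam
  have hlam1 : 1 < lam := by rw [hlam]; linarith
  have hlamδ : lam < δ := by rw [hlam]; linarith
  obtain ⟨k0, hk0⟩ := (hlim.eventually_const_lt hlamδ).exists_forall_of_atTop
  have hdeg : ∀ k, k0 + 1 ≤ k → lam ^ k ≤ dgF F k := by
    intro k hk
    have h1 := hk0 k (by omega)
    have hk0' : (k : ℝ) ≠ 0 := by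
      have : 0 < k := by omega
      exact_mod_cast this.ne'
    have h2 : lam ^ k ≤ ((dgF F k : ℝ) ^ ((1 : ℝ) / k)) ^ k :=
      pow_le_pow_left₀ (by linarith) h1.le k
    rw [← Real.rpow_natCast ((dgF F k : ℝ) ^ ((1 : ℝ) / k)) k, ← Real.rpow_mul
      (Nat.cast_nonneg _), one_div, inv_mul_cancel₀ hk0', Real.rpow_one] at h2
    exact h2
  obtain ⟨η, hη, hmain⟩ := h1 r K F e (k0 + 1) lam hr hF hlam1 hdeg
  refine ⟨η, hη, fun P hP hO hdense C0 => ?_⟩
  by_contra hfreq
  rw [not_frequently] at hfreq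
  obtain ⟨n0, hn0⟩ := hfreq.exists_forall_of_atTop
  have hfin : (0 : ℝ) < Module.finrank ℚ K := by
    exact_mod_cast Module.finrank_pos
  -- bounds for all heights
  set M : ℝ := ∑ n ∈ Finset.range n0, logHeight (P n) with hM
  have hM0 : 0 ≤ M := Finset.sum_nonneg fun n _ => logHeight_nonneg _
  have hbound : ∀ n : ℕ, logHeight (P n) ≤
      (|C0| * Module.finrank ℚ K + M) * ((n : ℝ) + 1) ^ η := by
    intro n
    have hn' : (0 : ℝ) ≤ n := Nat.cast_nonneg n
    have h1 : 1 ≤ ((n : ℝ) + 1) ^ η := Real.one_le_rpow (by linarith) hη.le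
    rcases lt_or_ge n n0 with h | h
    · have h2 : logHeight (P n) ≤ M :=
        Finset.single_le_sum (f := fun n => logHeight (P n)) (fun n _ => logHeight_nonneg _)
          (Finset.mem_range.mpr h)
      have h3 : 0 ≤ |C0| * Module.finrank ℚ K := by positivity
      nlinarith
    · have h2 := hn0 n h
      rw [not_lt, div_le_iff₀ hfin] at h2
      have h3 : C0 * (n : ℝ) ^ η ≤ |C0| * ((n : ℝ) + 1) ^ η := by
        have h4 : (n : ℝ) ^ η ≤ ((n : ℝ) + 1) ^ η :=
          Real.rpow_le_rpow hn' (by linarith) hη.le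
        have h5 : 0 ≤ (n : ℝ) ^ η := Real.rpow_nonneg hn' η
        calc C0 * (n : ℝ) ^ η ≤ |C0| * (n : ℝ) ^ η :=
              mul_le_mul_of_nonneg_right (le_abs_self C0) h5
          _ ≤ _ := mul_le_mul_of_nonneg_left h4 (abs_nonneg C0)
      have h4 : C0 * (n : ℝ) ^ η * Module.finrank ℚ K ≤
          |C0| * ((n : ℝ) + 1) ^ η * Module.finrank ℚ K :=
        mul_le_mul_of_nonneg_right h3 hfin.le
      nlinarith
  obtain ⟨t, G, hG, hGh, hGz⟩ := hmain P (|C0| * Module.finrank ℚ K + M) hP hO hbound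
  exact hG (hdense t G hGh hGz)

end Pool.Agent.Work.MP_91e6de_nt.DMR

end

section

set_option autoImplicit false

/-!
# Item Win: one window
-/

namespace Pool.Agent.Work.MP_91e6de_nt.DMR

open MvPolynomial NumberField IsDedekindDomain Height

theorem Win_RD {σ K : Type} [Field K] (j : σ) (D : ℕ) (U W : MvPolynomial σ K) (u : K)
    (hu : u ≠ 0) (h : RD j D U W) : RD j D (C u * U) (C u * W) := by
  intro A B hA hB hAB
  apply h A B hA hB
  have h1 : C u * (A * W) = C u * (B * U) := by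
    calc C u * (A * W) = A * (C u * W) := by ring
      _ = B * (C u * U) := hAB
      _ = C u * (B * U) := by ring
  exact mul_left_cancel₀ (by
    intro h0
    apply hu
    rw [← C_0] at h0
    exact C_injective _ _ h0) h1

theorem Win_deg {σ K : Type} [Field K] [NumberField K] (p : MvPolynomial σ (𝓞 K))
    (q : MvPolynomial σ K) (c : K) (E : ℕ) (h : map (algebraMap (𝓞 K) K) p = C c * q)
    (hq : q.totalDegree ≤ E) : p.totalDegree ≤ E := by
  have h1 : (map (algebraMap (𝓞 K) K) p).totalDegree = p.totalDegree := by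
    unfold totalDegree
    rw [support_map_of_injective _ (FaithfulSMul.algebraMap_injective (𝓞 K) K)]
  rw [← h1, h]
  refine (totalDegree_mul _ _).trans ?_
  rw [totalDegree_C, zero_add]
  exact hq

theorem Win_aeval {σ K : Type} [Field K] [NumberField K] (p : MvPolynomial σ (𝓞 K))
    (q : MvPolynomial σ K) (c : K) (h : map (algebraMap (𝓞 K) K) p = C c * q) (x : σ → K) :
    aeval x p = c * aeval x q := by
  rw [← aeval_map_algebraMap K x p, h, map_mul, aeval_C]
  rfl

theorem Win_ch {m : ℕ} {K : Type} [Field K] (a : Fin m → ℕ) (y y' : Fin (m + 1) → K)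
    (h : ell a y ≠ 0) (h' : ell a y' ≠ 0) (he : ch a y = ch a y') (i j : Fin (m + 1)) :
    y i * y' j = y j * y' i := by
  have h1 := hc_ch a y h
  have h2 := hc_ch a y' h'
  rw [he, h2] at h1
  have hi := congrFun h1 i
  have hj := congrFun h1 j
  have e1 : ∀ z w : K, (ell a y')⁻¹ * w = (ell a y)⁻¹ * z → z = ell a y * ((ell a y')⁻¹ * w) := by
    intro z w hz
    rw [hz, ← mul_assoc, mul_inv_cancel₀ h, one_mul]
  rw [e1 _ _ hi, e1 _ _ hj]
  ring

theorem pr_Win (h1 : S_Core) (h2 : S_CoOB) (h3 : S_CoDB) (h4 : S_CoHB) (h5 : S_RDB)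
    (h6 : S_IntB) (h7 : S_ScalI) (h8 : S_ScalP) (h9 : S_MapG) (h10 : S_IteG) : S_Win := by
  classical
  intro s m K _ _ g F e hm hF
  obtain ⟨E, hE1, hE⟩ := h3 s m K g F
  obtain ⟨c, hc0, hc⟩ := h6 s m K g F
  obtain ⟨C0, hC00, hC0⟩ := h4 s m K F
  obtain ⟨A, hA⟩ := h1 (Module.finrank ℚ K) (s + m) E Module.finrank_pos (by omega) hE1
  have hc1 : 0 ≤ logHeight₁ c := zero_le_logHeight₁ c
  refine ⟨E, A + 1, C0 * (m + s + 3) + logHeight₁ c + 1, hE1, by positivity, ?_⟩
  intro x y a N h k X H l horb hdis hell hhx hhy hha hCh hh1 hX hhX hkX hEX hXN hGr hDZ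
  obtain ⟨p, q, hp, hq⟩ := hc a
  have hH : 0 ≤ H := by
    refine le_trans (Real.log_nonneg ?_) (hha ⟨0, hm⟩)
    have : (0 : ℝ) ≤ (a ⟨0, hm⟩ : ℝ) := Nat.cast_nonneg _
    linarith
  have hO : IsOrb (pB a g F) (qB a F) (3 * N) (fun n => Sum.elim (x n) (ch a (y n))) :=
    h2 s m (3 * N) e K K g F a x y hF (fun n _ i => horb.1 n i) (fun n _ i => horb.2.1 n i) hell
  have hsa : ∑ j, Real.log (a j + 1) ≤ m * H := by
    have := Finset.sum_le_sum (s := Finset.univ) (fun j _ => hha j)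
    rwa [Finset.sum_const, Finset.card_univ, Fintype.card_fin, nsmul_eq_mul] at this
  have hsx : ∀ n ≤ 3 * N, ∑ i, logHeight₁ (x n i) ≤ s * H := by
    intro n hn
    have := Finset.sum_le_sum (s := Finset.univ) (fun i _ => hhx n hn i)
    rwa [Finset.sum_const, Finset.card_univ, Fintype.card_fin, nsmul_eq_mul] at this
  have hm0 : (0 : ℝ) ≤ m := Nat.cast_nonneg _
  have hs0 : (0 : ℝ) ≤ s := Nat.cast_nonneg _
  have hmH : 0 ≤ (m : ℝ) * H := mul_nonneg hm0 hH
  have hsH : 0 ≤ (s : ℝ) * H := mul_nonneg hs0 hH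
  -- the three estimates
  have hb : C0 * ((m + s + 3) * (1 + H)) + logHeight₁ c * (1 + H) + (1 + H) ≤ h := by
    refine le_trans (le_of_eq ?_) hCh
    ring
  have hbc : 0 ≤ logHeight₁ c * H := mul_nonneg hc1 hH
  have hb0 : 0 ≤ C0 * ((m + s + 3) * (1 + H)) := by positivity
  have hXk : X ^ A ≤ N := (Nat.pow_le_pow_right (by omega) (Nat.le_succ A)).trans hXN
  have hXN1 : X ≤ N := by
    refine le_trans ?_ hXN
    calc X = X ^ 1 := (pow_one X).symm
      _ ≤ X ^ (A + 1) := Nat.pow_le_pow_right (by omega) (by omega)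
  -- the set up
  have hSet : Setup p q E h (3 * N) (fun n => Sum.elim (x n) (ch a (y n))) := by
    refine ⟨hE1, hh1, fun i => Win_deg _ _ c E (hp i) ((hE a).1 i),
      Win_deg _ _ c E hq (hE a).2, ?_, ?_, ?_, ?_⟩
    · intro n hn
      obtain ⟨o1, o2⟩ := hO n hn
      constructor
      · rw [Win_aeval q _ c hq]
        exact mul_ne_zero hc0 o1
      · intro i
        rw [Win_aeval q _ c hq, Win_aeval (p i) _ c (hp i), ← o2 i]
        ring
    · intro n hn i
      rcases i with i | i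
      · have e1 := hhx n hn i
        simp only [Sum.elim_inl]
        have e2 : logHeight₁ c * (1 + H) = logHeight₁ c + logHeight₁ c * H := by ring
        linarith
      · have e1 := (hC0 a (x n) (y n) (hell n hn)).1 i
        have e3 := hhy n hn
        simp only [Sum.elim_inr]
        have e4 : C0 * (1 + logHeight (y n) + ∑ j, Real.log (a j + 1)) ≤
            C0 * ((m + s + 3) * (1 + H)) := by
          apply mul_le_mul_of_nonneg_left _ hC00
          have : (m + s + 3) * (1 + H) = m + s + 3 + m * H + s * H + 3 * H := by ring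
          rw [this]
          linarith
        have e2 : logHeight₁ c * (1 + H) = logHeight₁ c + logHeight₁ c * H := by ring
        linarith
    · intro n hn
      have e1 := (hC0 a (x n) (y n) (hell n hn.le)).2
      have e3 := hhy n hn.le
      have e5 := hsx n hn.le
      rw [Win_aeval q _ c hq]
      refine (logHeight₁_mul_le _ _).trans ?_
      have e4 : C0 * (1 + ∑ i, logHeight₁ (x n i) + logHeight (y n) +
          ∑ j, Real.log (a j + 1)) ≤ C0 * ((m + s + 3) * (1 + H)) := by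
        apply mul_le_mul_of_nonneg_left _ hC00
        have : (m + s + 3) * (1 + H) = m + s + 3 + m * H + s * H + 3 * H := by ring
        rw [this]
        linarith
      have e2 : logHeight₁ c * (1 + H) = logHeight₁ c + logHeight₁ c * H := by ring
      linarith
    · intro n hn n' hn' hnn
      have key : ∀ n n', n < n' → n ≤ 3 * N → n' ≤ 3 * N →
          (Sum.elim (x n) (ch a (y n)) : Fin s ⊕ Fin m → K) = Sum.elim (x n') (ch a (y n')) →
          False := by
        intro n n' hlt hn hn' he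
        apply hdis n n' hlt
        constructor
        · funext i
          exact congrFun he (Sum.inl i)
        · apply Win_ch a _ _ (hell n hn) (hell n' hn')
          funext i
          exact congrFun he (Sum.inr i)
      rcases lt_trichotomy n n' with hlt | heq | hlt
      · exact (key n n' hlt hn hn' hnn).elim
      · exact heq
      · exact (key n' n hlt hn' hn hnn.symm).elim
  -- reduced degree
  have hne : ∀ l ≤ k, (itr E (pB a g F) (qB a F) l).2 ≠ 0 := by
    intro l hl h0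
    have h11 := (h10 (Fin s ⊕ Fin m) K K E (pB a g F) (qB a F) (hE a).1 (hE a).2 (3 * N) _ hO 0 l
      (by omega)).1
    rw [h0, map_zero] at h11
    exact h11 rfl
  obtain ⟨i, j, hRD⟩ := h5 s m K e E k (DZ (Module.finrank ℚ K) (s + m) h + 1) l a g F
    (by omega) hF (hE a).1 (hE a).2 hne hGr hDZ
  obtain ⟨hM1, hM2⟩ := h9 (Fin s ⊕ Fin m) (𝓞 K) K (algebraMap (𝓞 K) K)
    (FaithfulSMul.algebraMap_injective (𝓞 K) K) E p q k
  have hpe : (fun i => map (algebraMap (𝓞 K) K) (p i)) = fun i => C c * pB a g F i := funext hp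
  obtain ⟨N', hN1, hN2⟩ := h7 (Fin s ⊕ Fin m) K E c (pB a g F) (qB a F) hc0 (hE a).1 (hE a).2 k
  have hRD' : RD (Sum.inr j) (DZ (Module.finrank ℚ K) (s + m) h + 1)
      (map (algebraMap (𝓞 K) K) ((itr E p q k).1 (Sum.inr i)))
      (map (algebraMap (𝓞 K) K) (itr E p q k).2) := by
    rw [hM1, hM2, hpe, hq, hN1, hN2]
    exact Win_RD _ _ _ _ _ (pow_ne_zero _ hc0) hRD
  have hCyc := hA K (Fin s ⊕ Fin m) p q h (3 * N) N k X
    (fun n => Sum.elim (x n) (ch a (y n))) (Sum.inr i) (Sum.inr j) rfl (by simp) hSet le_rfl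
    hX hhX hkX hEX hXk hRD'
  rw [hpe, hq] at hCyc
  obtain ⟨n0, t, I, c1, c2, c3, c4, c5, c6⟩ := hCyc
  exact ⟨n0, t, I, c1, c2, c3,
    fun i hi => h8 (Fin s ⊕ Fin m) K c (pB a g F) (qB a F) (I i) (I (i + 1)) hc0 (c4 i hi),
    c5, c6⟩

end Pool.Agent.Work.MP_91e6de_nt.DMR

end
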