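import Mathlib
import Pool.Agent.Work.MP_91e6de_nt.DMR.StmtsP
import Pool.Agent.Work.MP_91e6de_nt.DMR.StmtsB
import Pool.Agent.Work.MP_91e6de_nt.DMR.StmtsV
import Pool.Agent.Work.MP_91e6de_nt.Bd.B10
import Pool.Agent.Work.MP_91e6de_nt.Bd.B07
import Pool.Agent.Work.MP_91e6de_nt.Bd.B09
import Pool.Agent.Work.MP_91e6de_nt.DMR.BasicP
import Pool.Agent.Work.MP_91e6de_nt.Bd.B08

/-! Bundle of small proof modules (one section per former module). -/

section

set_option autoImplicit false

/-!
# Item WndG: a hyperplane missing a piece of the orbit (helper55)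
-/

namespace Pool.Agent.Work.MP_91e6de_nt.DMR

/-- pigeonhole: at most one bad value for each `n` -/
theorem WndG_pig (M : ℕ) (bad : ℕ → ℕ → Prop)
    (h : ∀ n ≤ M, ∀ c c', bad n c → bad n c' → c = c') :
    ∃ c, c ≤ M + 1 ∧ ∀ n ≤ M, ¬ bad n c := by
  classical
  by_contra hcon
  push Not at hcon
  have hf : ∀ c : ℕ, ∃ n, c ≤ M + 1 → n ≤ M ∧ bad n c := by
    intro c
    by_cases hc : c ≤ M + 1
    · obtain ⟨n, hn, hb⟩ := hcon c hc
      exact ⟨n, fun _ => ⟨hn, hb⟩⟩
    · exact ⟨0, fun h => absurd h hc⟩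
  choose f hf using hf
  have hmaps : ∀ c ∈ Finset.range (M + 2), f c ∈ Finset.range (M + 1) := by
    intro c hc
    rw [Finset.mem_range] at hc ⊢
    have := (hf c (by omega)).1
    omega
  obtain ⟨c, hc, c', hc', hne, heq⟩ := Finset.exists_ne_map_eq_of_card_lt_of_maps_to
    (by rw [Finset.card_range, Finset.card_range]; omega) hmaps
  rw [Finset.mem_range] at hc hc'
  have h1 := hf c (by omega)
  have h2 := hf c' (by omega)
  rw [← heq] at h2
  exact hne (h (f c) h1.1 c c' h1.2 h2.2)

theorem WndG_ind {K : Type} [Field K] [CharZero K] (M : ℕ) :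
    ∀ (m : ℕ) (c : ℕ → K) (z : ℕ → Fin m → K), (∀ n, c n = 0 → z n ≠ 0) →
      ∃ a : Fin m → ℕ, (∀ i, a i ≤ M + 1) ∧ ∀ n ≤ M, c n + ∑ i, (a i : K) * z n i ≠ 0 := by
  intro m
  induction m with
  | zero =>
    intro c z h
    refine ⟨fun i => i.elim0, fun i => i.elim0, fun n _ => ?_⟩
    rw [Finset.univ_eq_empty, Finset.sum_empty, add_zero]
    intro h0
    exact h n h0 (funext fun i => i.elim0)
  | succ m ih =>
    intro c z h
    obtain ⟨a0, ha0, hgood⟩ := WndG_pig M
      (fun n e => c n + (e : K) * z n 0 = 0 ∧ (fun i : Fin m => z n i.succ) = 0) (by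
      intro n _ e e' he he'
      have h1 : ((e : K) - e') * z n 0 = 0 := by linear_combination he.1 - he'.1
      rcases mul_eq_zero.mp h1 with h2 | h2
      · exact_mod_cast sub_eq_zero.mp h2
      · exfalso
        have h3 : c n = 0 := by
          have := he.1
          rw [h2, mul_zero, add_zero] at this
          exact this
        apply h n h3
        funext i
        refine Fin.cases h2 (fun j => ?_) i
        exact congrFun he.2 j)
    -- outside of the window we modify the family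
    obtain ⟨a', ha', hgood'⟩ := ih (fun n => if n ≤ M then c n + (a0 : K) * z n 0 else 1)
      (fun n i => z n i.succ) (by
        intro n h0 h1
        by_cases hn : n ≤ M
        · rw [if_pos hn] at h0
          exact hgood n hn ⟨h0, h1⟩
        · rw [if_neg hn] at h0
          exact one_ne_zero h0)
    refine ⟨Fin.cons a0 a', ?_, ?_⟩
    · intro i
      refine Fin.cases ?_ (fun j => ?_) i
      · simpa using ha0
      · simpa using ha' j
    · intro n hn
      have h1 := hgood' n hn
      simp only [if_pos hn] at h1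
      rw [Fin.sum_univ_succ]
      simp only [Fin.cons_zero, Fin.cons_succ]
      rw [← add_assoc]
      exact h1

theorem pr_WndG : S_WndG := by
  intro K _ _ m M y hy
  obtain ⟨a, ha, hgood⟩ := WndG_ind M m (fun n => y n (Fin.last m)) (fun n i => y n i.castSucc) (by
    intro n h0 h1
    apply hy n
    funext i
    refine Fin.lastCases h0 (fun j => ?_) i
    exact congrFun h1 j)
  exact ⟨a, ha, fun n hn => hgood n hn⟩

end Pool.Agent.Work.MP_91e6de_nt.DMR

end

section

set_option autoImplicit false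

/-!
# Item BNV: non vanishing along a polynomial orbit (helper55)
-/

namespace Pool.Agent.Work.MP_91e6de_nt.DMR

open MvPolynomial

theorem pr_BNV : S_BNV := by
  classical
  intro s K _ _ ξ x R hx hex
  set f : Polynomial K := aeval ξ R with hf
  have hev : ∀ n : ℕ, f.eval (n : K) = aeval (x n) R := by
    intro n
    have h1 : (Polynomial.aeval (n : K)) (aeval ξ R) =
        aeval (fun i => Polynomial.aeval (n : K) (ξ i)) R :=
      MvPolynomial.comp_aeval_apply ξ (Polynomial.aeval (n : K)) R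
    have h2 : (fun i => Polynomial.aeval (n : K) (ξ i)) = x n := by
      funext i
      rw [hx n i, Polynomial.coe_aeval_eq_eval]
    rw [h2] at h1
    rw [hf, ← h1, Polynomial.coe_aeval_eq_eval]
  have hf0 : f ≠ 0 := by
    obtain ⟨n, hn⟩ := hex
    intro h0
    apply hn
    rw [← hev n, h0, Polynomial.eval_zero]
  -- finitely many bad indices
  have hfin : {n : ℕ | f.IsRoot (n : K)}.Finite := by
    have h1 : (f.rootSet K).Finite := Polynomial.rootSet_finite f K
    refine Set.Finite.subset (Set.Finite.preimage (Nat.cast_injective (R := K)).injOn h1) ?_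
    intro n hn
    rw [Set.mem_preimage, Polynomial.mem_rootSet]
    refine ⟨hf0, ?_⟩
    rw [Polynomial.coe_aeval_eq_eval]
    exact hn
  obtain ⟨N, hN⟩ := hfin.bddAbove
  refine ⟨N + 1, fun n hn h0 => ?_⟩
  have h1 : f.IsRoot (n : K) := by
    rw [Polynomial.IsRoot, hev n, h0]
  have h2 := hN h1
  omega

end Pool.Agent.Work.MP_91e6de_nt.DMR

end

section

set_option autoImplicit false

/-!
# Item BPol: orbits of unipotent affine maps are polynomial
-/

namespace Pool.Agent.Work.MP_91e6de_nt.DMR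

open MvPolynomial

/-- The binomial coefficient as a polynomial. -/
noncomputable def BPol_bp (K : Type) [Field K] (j : ℕ) : Polynomial K :=
  Polynomial.C ((j.factorial : K)⁻¹) * descPochhammer K j

theorem BPol_bp_eval {K : Type} [Field K] [CharZero K] (j n : ℕ) :
    (BPol_bp K j).eval (n : K) = (n.choose j : K) := by
  unfold BPol_bp
  rw [Polynomial.eval_mul, Polynomial.eval_C, descPochhammer_eval_eq_descFactorial,
    Nat.descFactorial_eq_factorial_mul_choose]
  push_cast
  rw [← mul_assoc, inv_mul_cancel₀ (by exact_mod_cast j.factorial_ne_zero), one_mul]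

/-- The closed formula. -/
noncomputable def BPol_S {s : ℕ} {K : Type} [Field K] (V : Matrix (Fin s) (Fin s) K)
    (x0 b : Fin s → K) (k n : ℕ) : Fin s → K :=
  ∑ j ∈ Finset.range (k + 1), (n.choose j : K) • ((V ^ j).mulVec x0) +
    ∑ j ∈ Finset.range (k + 1), (n.choose (j + 1) : K) • ((V ^ j).mulVec b)

theorem BPol_shift {s : ℕ} {K : Type} [Field K] (V : Matrix (Fin s) (Fin s) K)
    (z : Fin s → K) (k : ℕ) (hV : V ^ (k + 1) = 0) (c : ℕ → K) :
    V.mulVec (∑ j ∈ Finset.range (k + 1), c j • ((V ^ j).mulVec z)) =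
      ∑ j ∈ Finset.range k, c j • ((V ^ (j + 1)).mulVec z) := by
  rw [Matrix.mulVec_sum, Finset.sum_range_succ]
  have h1 : ∀ j, V.mulVec (c j • (V ^ j).mulVec z) = c j • (V ^ (j + 1)).mulVec z := by
    intro j
    rw [Matrix.mulVec_smul, Matrix.mulVec_mulVec, ← pow_succ']
  simp only [h1]
  rw [hV, Matrix.zero_mulVec, smul_zero, add_zero]

theorem BPol_step {s : ℕ} {K : Type} [Field K] (V : Matrix (Fin s) (Fin s) K)
    (x0 b : Fin s → K) (k : ℕ) (hV : V ^ (k + 1) = 0) (n : ℕ) :
    BPol_S V x0 b k (n + 1) = BPol_S V x0 b k n + V.mulVec (BPol_S V x0 b k n) + b := by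
  unfold BPol_S
  rw [Matrix.mulVec_add, BPol_shift V x0 k hV, BPol_shift V b k hV]
  have h1 : ∑ j ∈ Finset.range (k + 1), ((n + 1).choose j : K) • ((V ^ j).mulVec x0) =
      ∑ j ∈ Finset.range (k + 1), (n.choose j : K) • ((V ^ j).mulVec x0) +
        ∑ j ∈ Finset.range k, (n.choose j : K) • ((V ^ (j + 1)).mulVec x0) := by
    rw [Finset.sum_range_succ' (fun j => ((n + 1).choose j : K) • ((V ^ j).mulVec x0)),
      Finset.sum_range_succ' (fun j => (n.choose j : K) • ((V ^ j).mulVec x0))]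
    simp only [Nat.choose_succ_succ, Nat.cast_add, add_smul, Finset.sum_add_distrib,
      Nat.choose_zero_right]
    abel
  have h2 : ∑ j ∈ Finset.range (k + 1), ((n + 1).choose (j + 1) : K) • ((V ^ j).mulVec b) =
      ∑ j ∈ Finset.range (k + 1), (n.choose (j + 1) : K) • ((V ^ j).mulVec b) +
        ∑ j ∈ Finset.range k, (n.choose (j + 1) : K) • ((V ^ (j + 1)).mulVec b) + b := by
    simp only [Nat.choose_succ_succ n, Nat.cast_add, add_smul, Finset.sum_add_distrib]
    rw [Finset.sum_range_succ' (fun j => (n.choose j : K) • ((V ^ j).mulVec b))]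
    simp only [Nat.choose_zero_right, Nat.cast_one, one_smul, pow_zero, Matrix.one_mulVec]
    abel
  rw [h1, h2]
  abel

theorem pr_BPol : S_BPol := by
  intro s K _ _ U b x hU hx
  obtain ⟨k, hk⟩ := hU
  have hV : (U - 1) ^ (k + 1) = 0 := by rw [pow_succ, hk, zero_mul]
  have hform : ∀ n, x n = BPol_S (U - 1) (x 0) b k n := by
    intro n
    induction n with
    | zero =>
      unfold BPol_S
      rw [Finset.sum_range_succ' (fun j => ((0 : ℕ).choose j : K) • (((U - 1) ^ j).mulVec (x 0)))]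
      simp
    | succ n ih =>
      rw [BPol_step (U - 1) (x 0) b k hV n, ← ih, Matrix.sub_mulVec, Matrix.one_mulVec]
      funext i
      rw [hx]
      simp only [gU, map_add, map_sum, map_mul, aeval_X, algHom_C, Pi.add_apply, Pi.sub_apply,
        Matrix.mulVec, dotProduct, Algebra.algebraMap_self, RingHom.id_apply]
      ring
  refine ⟨fun i => ∑ j ∈ Finset.range (k + 1), BPol_bp K j *
      Polynomial.C ((((U - 1) ^ j).mulVec (x 0)) i) +
    ∑ j ∈ Finset.range (k + 1), BPol_bp K (j + 1) *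
      Polynomial.C ((((U - 1) ^ j).mulVec b) i), fun n i => ?_⟩
  rw [hform n, BPol_S, Polynomial.eval_add, Polynomial.eval_finset_sum,
    Polynomial.eval_finset_sum]
  simp only [Polynomial.eval_mul, Polynomial.eval_C, BPol_bp_eval, Pi.add_apply,
    Finset.sum_apply, Pi.smul_apply, smul_eq_mul]

end Pool.Agent.Work.MP_91e6de_nt.DMR

end

section

set_option autoImplicit false

/-!
# ChI: the ideal of a variety in a chart
-/

namespace Pool.Agent.Work.MP_91e6de_nt.DMR

open MvPolynomial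

theorem ChI_sum_le {s m : ℕ} {K : Type} [Field K] (H : MvPolynomial (Fin s ⊕ Fin m) K) :
    ∀ u ∈ H.support, ∑ j : Fin m, u (Sum.inr j) ≤ H.totalDegree := by
  intro u hu
  refine le_trans ?_ (le_totalDegree hu)
  rw [Finsupp.sum_fintype _ _ (fun _ => rfl), Fintype.sum_sum_type]
  exact Nat.le_add_left _ _

theorem ChI_surj (h1 : S_Hz) {s m : ℕ} {K : Type} [Field K] (a : Fin m → ℕ)
    (H : MvPolynomial (Fin s ⊕ Fin m) K) :
    ∃ (D : ℕ) (G : MvPolynomial (Fin (m + 1)) (MvPolynomial (Fin s) K)), G.IsHomogeneous D ∧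
      dhB a G = H := by
  obtain ⟨G, hG, hH⟩ := (h1 s m K a).1 H.totalDegree H (ChI_sum_le H)
  exact ⟨_, G, hG, hH⟩

theorem ChI_mem {s m : ℕ} {K : Type} [Field K]
    (IV : Ideal (MvPolynomial (Fin (m + 1)) (MvPolynomial (Fin s) K))) (a : Fin m → ℕ)
    (G : MvPolynomial (Fin (m + 1)) (MvPolynomial (Fin s) K)) (hG : G ∈ IV) :
    dhB a G ∈ chI a IV :=
  Ideal.mem_map_of_mem _ hG

theorem ChI_ell {s m : ℕ} {K : Type} [Field K] (a : Fin m → ℕ) :
    dhB a (ell a fun i => (X i : MvPolynomial (Fin (m + 1)) (MvPolynomial (Fin s) K))) = 1 := by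
  unfold dhB
  have h := Hz_ev_ell (A := K) a (fun i : Fin s => (X (Sum.inl i) : MvPolynomial (Fin s ⊕ Fin m) K))
    (hc a fun i => X (Sum.inr i))
  rw [ell_hc] at h
  exact h

theorem ChI_two (h1 : S_Hz) {s m : ℕ} {K : Type} [Field K]
    (IV : Ideal (MvPolynomial (Fin (m + 1)) (MvPolynomial (Fin s) K))) (a : Fin m → ℕ)
    (hV : VarV IV)
    (hl : (ell a fun i => (X i : MvPolynomial (Fin (m + 1)) (MvPolynomial (Fin s) K))) ∉ IV)
    (D : ℕ) (G : MvPolynomial (Fin (m + 1)) (MvPolynomial (Fin s) K)) (hG : G.IsHomogeneous D)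
    (hm : dhB a G ∈ chI a IV) : G ∈ IV := by
  have hsurj : Function.Surjective (evHom (A := K)
      (fun i : Fin s => (X (Sum.inl i) : MvPolynomial (Fin s ⊕ Fin m) K))
      (hc a fun i => X (Sum.inr i))) := by
    intro H
    obtain ⟨_, G, _, hG⟩ := ChI_surj h1 a H
    exact ⟨G, hG⟩
  obtain ⟨G', hG', hE⟩ := (Ideal.mem_map_iff_of_surjective _ hsurj).mp hm
  have hE' : dhB a G' = dhB a G := hE
  set l : MvPolynomial (Fin (m + 1)) (MvPolynomial (Fin s) K) := ell a fun i => X i with hldef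
  have hl1 : l.IsHomogeneous 1 := Hz_ell_homog (s := s) (A := K) a
  have hld : dhB a l = 1 := ChI_ell a
  have hpow : ∀ n : ℕ, dhB a (l ^ n) = 1 := by
    intro n
    have h := ev_pow (A := K) (fun i : Fin s => (X (Sum.inl i) : MvPolynomial (Fin s ⊕ Fin m) K))
      (hc a fun i => X (Sum.inr i)) l n
    have h2 : dhB a (l ^ n) = dhB a l ^ n := h
    rw [h2, hld, one_pow]
  have hz := (h1 s m K a).2 (D + G'.totalDegree)
    (l ^ G'.totalDegree * G - ∑ j ∈ Finset.range (G'.totalDegree + 1),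
      l ^ (D + G'.totalDegree - j) * homogeneousComponent j G') (by
    refine IsHomogeneous.sub ?_ ?_
    · have h := (hl1.pow G'.totalDegree).mul hG
      rwa [one_mul, Nat.add_comm G'.totalDegree D] at h
    · refine IsHomogeneous.sum _ _ _ fun j hj => ?_
      have h := (hl1.pow (D + G'.totalDegree - j)).mul (homogeneousComponent_isHomogeneous j G')
      have h2 : 1 * (D + G'.totalDegree - j) + j = D + G'.totalDegree := by
        have := Finset.mem_range.mp hj
        omega
      rwa [h2] at h) (by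
    rw [dhB_sub, dhB_mul, hpow, one_mul]
    have h2 : dhB a (∑ j ∈ Finset.range (G'.totalDegree + 1),
        l ^ (D + G'.totalDegree - j) * homogeneousComponent j G') = dhB a G' := by
      have h3 : dhB a (∑ j ∈ Finset.range (G'.totalDegree + 1),
          l ^ (D + G'.totalDegree - j) * homogeneousComponent j G') =
          ∑ j ∈ Finset.range (G'.totalDegree + 1),
            dhB a (l ^ (D + G'.totalDegree - j) * homogeneousComponent j G') := ev_sum _ _ _ _
      rw [h3]
      conv_rhs => rw [← sum_homogeneousComponent G']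
      have h4 : dhB a (∑ j ∈ Finset.range (G'.totalDegree + 1), homogeneousComponent j G') =
          ∑ j ∈ Finset.range (G'.totalDegree + 1), dhB a (homogeneousComponent j G') :=
        ev_sum _ _ _ _
      rw [h4]
      refine Finset.sum_congr rfl fun j _ => ?_
      rw [dhB_mul, hpow, one_mul]
    rw [h2, hE', sub_self])
  have hmem : l ^ G'.totalDegree * G ∈ IV := by
    rw [sub_eq_zero.mp hz]
    exact Ideal.sum_mem _ fun j _ => Ideal.mul_mem_left _ _ (hV.hom G' hG' j)
  rcases hV.prime.mem_or_mem hmem with h | h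
  · exact absurd (hV.prime.mem_of_pow_mem _ h) hl
  · exact h

/-- the ideal of `V` in a chart -/
theorem pr_ChI (h1 : S_Hz) : S_ChI := by
  intro s m K _ IV a hV hl
  have h2 : ∀ (D : ℕ) (G : MvPolynomial (Fin (m + 1)) (MvPolynomial (Fin s) K)),
      G.IsHomogeneous D → (dhB a G ∈ chI a IV ↔ G ∈ IV) := fun D G hG =>
    ⟨ChI_two h1 IV a hV hl D G hG, ChI_mem IV a G⟩
  refine ⟨Ideal.isPrime_iff.mpr ⟨?_, ?_⟩, h2⟩
  · intro h
    have h3 : dhB a (1 : MvPolynomial (Fin (m + 1)) (MvPolynomial (Fin s) K)) ∈ chI a IV := by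
      rw [h]
      exact Submodule.mem_top
    exact hV.prime.ne_top ((Ideal.eq_top_iff_one _).mpr ((h2 0 1 (isHomogeneous_one _ _)).mp h3))
  · intro H1 H2 h
    obtain ⟨D1, G1, hG1, rfl⟩ := ChI_surj h1 a H1
    obtain ⟨D2, G2, hG2, rfl⟩ := ChI_surj h1 a H2
    rw [← dhB_mul] at h
    rcases hV.prime.mem_or_mem ((h2 _ _ (hG1.mul hG2)).mp h) with h3 | h3
    · exact Or.inl ((h2 _ _ hG1).mpr h3)
    · exact Or.inr ((h2 _ _ hG2).mpr h3)

end Pool.Agent.Work.MP_91e6de_nt.DMR

end

section

set_option autoImplicit false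

/-!
# The chain is cyclic, with small equations (MP_91e6de, DMR, item Chain2)
-/

namespace Pool.Agent.Work.MP_91e6de_nt.DMR

open MvPolynomial NumberField IsDedekindDomain Height
open Pool.Agent.Work.MP_91e6de_nt.DM (va nv)

theorem Chain2_le_TT {kap d B h : ℕ} (hk : 1 ≤ kap) (hd : 1 ≤ d) (hB : 1 ≤ B) (hh : 1 ≤ h) :
    h ≤ TT kap d B h := by
  unfold TT
  have h1 : h ≤ 7 * kap * (d + 1) * h := Nat.le_mul_of_pos_left _ (by positivity)
  have h2 : 7 * kap * (d + 1) * h ≤ (7 * kap * (d + 1) * h) ^ d :=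
    Nat.le_self_pow (by omega) _
  have h3 : (7 * kap * (d + 1) * h) ^ d ≤ 2 * B * (7 * kap * (d + 1) * h) ^ d :=
    Nat.le_mul_of_pos_left _ (by positivity)
  have h4 : 2 * B * (7 * kap * (d + 1) * h) ^ d ≤
      (d + 1) * (2 * B * (7 * kap * (d + 1) * h) ^ d) :=
    Nat.le_mul_of_pos_left _ (by positivity)
  exact h1.trans (h2.trans (h3.trans h4))

theorem pr_Chain2 (h1 : S_Gap2) (h2 : S_Good) (h3 : S_Step) (h4 : S_EE) (h5 : S_Down) :
    S_Chain2 := by
  intro K σ _ _ _ p q e h M P I S d B L N R R' hs hd hB hL hLv hS4 hRN hRR' hR'M hlow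
  obtain ⟨g, hg1, hg12, hgS⟩ := h1 N L R S hL hS4 hLv.bd hRN hLv.big
  have hcardσ : 1 ≤ Fintype.card σ := hd.trans (Dim_le hLv.dim)
  set S1 := S.filter (fun n => n + g ∈ S) with hS1
  have hS1S : ∀ n ∈ S1, n ∈ S ∧ n + g ∈ S := fun n hn => Finset.mem_filter.mp hn
  obtain ⟨v, a, S2, hS2S1, hS2c, hgood⟩ := h2 K σ p q e h M g P S1 hs hcardσ (by
    intro n hn
    have := hLv.bd _ (hS1S n hn).2
    omega)
  have hkap1 : 1 ≤ Module.finrank ℚ K := Module.finrank_pos
  set kap := Module.finrank ℚ K with hkap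
  set r := Fintype.card σ with hr
  set L2 := L * (24 * L) * LG kap r (12 * L) h with hL2
  have hS2S : ∀ n ∈ S2, n ∈ S ∧ n + g ∈ S := fun n hn => hS1S n (hS2S1 hn)
  have hc2 : S.card ≤ S2.card * LG kap r (12 * L) h * (24 * L) := by
    refine hgS.trans (Nat.mul_le_mul_right _ (hS2c.trans (Nat.mul_le_mul_left _ ?_)))
    exact chain_LG_mono kap r h g (12 * L) hg12
  have hbig : N ≤ S2.card * L2 := by
    calc N ≤ S.card * L := hLv.big
      _ ≤ S2.card * LG kap r (12 * L) h * (24 * L) * L := Nat.mul_le_mul_right _ hc2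
      _ = S2.card * L2 := by rw [hL2]; ring
  have hne : S2.Nonempty := by
    rw [Finset.nonempty_iff_ne_empty]
    intro h0
    rw [h0, Finset.card_empty, Nat.zero_mul, Nat.zero_mul] at hc2
    omega
  have hlow' : ∀ d' < d, ∀ (I' : Ideal (MvPolynomial σ K)) (S' : Finset ℕ),
      ¬ Lv P I' S' d' (BS kap r e d B h) (L2 * ((d - 1).factorial * BS kap r e d B h)) N R' := by
    intro d' hd' I' S'
    exact hlow d' hd' I' S'
  obtain ⟨f, hf0, hfP, hfR⟩ := chain_exists (fun i (J : Ideal (MvPolynomial σ K)) =>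
      J.IsPrime ∧ Dim J d ∧ HB J (B + B1 kap r d B h) d ∧ ∀ n ∈ S2, On J (P (n + i)))
    (fun I J => Push (fun i => map (algebraMap (𝓞 K) K) (p i)) (map (algebraMap (𝓞 K) K) q) I J)
    g I ⟨hLv.prime, hLv.dim, HB_mono hLv.hb (by omega), fun n hn => hLv.on n (hS2S n hn).1⟩ (by
      intro i hi J hJ
      obtain ⟨hJp, hJd, hJb, hJon⟩ := hJ
      obtain ⟨J', hJ'p, hpush, hJ'd, hJ'b, hJ'on⟩ := h3 K σ p q e h M P v a I J S2 g i d B L2 N R
        R' (B + B1 kap r d B h) hs hgood hB hd hLv.hb (fun n hn => hLv.on n (hS2S n hn).1) hne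
        (by
          intro n hn
          have a1 := hLv.bd _ (hS2S n hn).2
          have a2 := hLv.bd _ (hS2S n hn).1
          exact ⟨by omega, a2⟩)
        (by omega) hbig hi hJp hJd hJb le_rfl hJon hlow'
      exact ⟨J', hpush, hJ'p, hJ'd, HB_mono hJ'b (Nat.le_add_left _ _), hJ'on⟩)
  have hgen : ∀ i ≤ g, ∀ F : MvPolynomial σ K, F.totalDegree ≤ TT kap d B h + QQ d B →
      (∀ n ∈ S2, aeval (P (n + i)) F = 0) → F ∈ f i := by
    intro i hi F hFd hF0
    by_contra hFg
    obtain ⟨hgp, hgd, hgb, hgon⟩ := hfP i hi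
    have hinj : Function.Injective (fun n : ℕ => n + i) := fun x y hxy => by simpa using hxy
    obtain ⟨d0, rfl⟩ : ∃ d0, d = d0 + 1 := ⟨d - 1, by omega⟩
    have hBW : B + B1 kap r (d0 + 1) B h ≤ BW kap r e (d0 + 1) B h := by
      unfold BW
      rw [mul_assoc]
      apply Nat.le_mul_of_pos_right
      positivity
    have hlv : Lv P (f i) (S2.image (fun n => n + i)) (d0 + 1) (BW kap r e (d0 + 1) B h) L2 N
        R' := by
      refine ⟨hgp, hgd, HB_mono hgb hBW, ?_, ?_, ?_⟩
      · rw [Finset.card_image_of_injective _ hinj]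
        exact hbig
      · intro n hn
        obtain ⟨m, hm, rfl⟩ := Finset.mem_image.mp hn
        have := hLv.bd _ (hS2S m hm).2
        omega
      · intro n hn
        obtain ⟨m, hm, rfl⟩ := Finset.mem_image.mp hn
        exact hgon m hm
    obtain ⟨I', S', hlv'⟩ := h5 σ K P (f i) F (S2.image (fun n => n + i)) d0
      (BW kap r e (d0 + 1) B h) L2 N R' (TT kap (d0 + 1) B h + QQ (d0 + 1) B) hlv
      (hne.image _) hFd (by
        intro n hn
        obtain ⟨m, hm, rfl⟩ := Finset.mem_image.mp hn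
        exact hF0 m hm) hFg
    exact hlow' d0 (by omega) I' S' hlv'
  have hrel : ∀ F ∈ I, F.totalDegree ≤ QQ d B → F ∈ f g := by
    intro F hF hFd
    exact hgen g le_rfl F (by omega) (fun n hn => hLv.on _ (hS2S n hn).2 F hF)
  have hIg : I = f g := by
    obtain ⟨hgp, hgd, hgb, hgon⟩ := hfP g le_rfl
    exact h4 σ K I (f g) B d hLv.prime hgp hLv.dim hgd hLv.hb hrel
  have hTT := Chain2_le_TT hkap1 hd hB hs.hh
  obtain ⟨n0, hn0⟩ := hne
  refine ⟨n0, g, f, ?_, hg1, ?_, hfR, ?_, ?_⟩
  · have := hLv.bd _ (hS2S n0 hn0).1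
    omega
  · intro i hi
    obtain ⟨hgp, hgd, hgb, hgon⟩ := hfP i hi
    refine ⟨hgp, ⟨d, by omega, hgd⟩, ?_⟩
    intro G hG hG0
    refine hgen i hi G (by omega) (fun n hn => hG0 _ ?_)
    have := hLv.bd _ (hS2S n hn).2
    omega
  · rw [← hIg, hf0]
  · rw [hf0]
    exact hLv.on _ (hS2S n0 hn0).1

end Pool.Agent.Work.MP_91e6de_nt.DMR

end

section

set_option autoImplicit false

/-! # DMR, item CoDV: uniform degrees for combinations of representations -/

namespace Pool.Agent.Work.MP_91e6de_nt.DMR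

open MvPolynomial

theorem CoDV_ell {m l : ℕ} {S : Type} [CommRing S] (a : Fin m → ℕ) (u : Fin (m + 1) → S)
    (c : Fin l → S) (w : Fin l → Fin (m + 1) → S) :
    ell a (fun i => u i + ∑ j, c j * w j i) = ell a u + ∑ j, c j * ell a (w j) := by
  simp only [ell, mul_add, Finset.sum_add_distrib, Finset.mul_sum]
  rw [Finset.sum_comm (s := (Finset.univ : Finset (Fin m))) (t := (Finset.univ : Finset (Fin l)))]
  have h : ∀ (x : Fin l) (x_1 : Fin m), (a x_1 : S) * (c x * w x x_1.castSucc) =
      c x * ((a x_1 : S) * w x x_1.castSucc) := fun x x_1 => by ring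
  simp only [h]
  ring


theorem CoDV_dh {s m l : ℕ} {A : Type} [Field A] (a : Fin m → ℕ)
    (Φ : Fin (l + 1) → Fin (m + 1) → MvPolynomial (Fin (m + 1)) (MvPolynomial (Fin s) A))
    (b : Fin l → ℕ) (i : Fin (m + 1)) :
    dhB a (cmb Φ b i) = dhB a (Φ (Fin.last l) i) +
      ∑ j : Fin l, ((b j : ℕ) : MvPolynomial (Fin s ⊕ Fin m) A) * dhB a (Φ j.castSucc i) := by
  simp only [dhB, cmb, ell]
  rw [ev_add, ev_sum]
  congr 1
  apply Finset.sum_congr rfl
  intro j _
  rw [ev_mul, ev_natCast]

theorem CoDV_qB {s m l : ℕ} {A : Type} [Field A] (a : Fin m → ℕ)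
    (Φ : Fin (l + 1) → Fin (m + 1) → MvPolynomial (Fin (m + 1)) (MvPolynomial (Fin s) A))
    (b : Fin l → ℕ) :
    qB a (cmb Φ b) = qB a (Φ (Fin.last l)) +
      ∑ j : Fin l, ((b j : ℕ) : MvPolynomial (Fin s ⊕ Fin m) A) * qB a (Φ j.castSucc) := by
  simp only [qB]
  rw [← CoDV_ell]
  congr 1
  funext i
  exact CoDV_dh a Φ b i

theorem CoDV_pB {s m l : ℕ} {A : Type} [Field A] (a : Fin m → ℕ)
    (g : Fin s → MvPolynomial (Fin s) A)
    (Φ : Fin (l + 1) → Fin (m + 1) → MvPolynomial (Fin (m + 1)) (MvPolynomial (Fin s) A))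
    (b : Fin l → ℕ) (i : Fin s ⊕ Fin m) :
    pB a g (cmb Φ b) i = pB a g (Φ (Fin.last l)) i +
      ∑ j : Fin l, ((b j : ℕ) : MvPolynomial (Fin s ⊕ Fin m) A) * pB a g (Φ j.castSucc) i := by
  rcases i with i | i
  · have h1 : ∑ j : Fin l, rename Sum.inl (g i) *
        (((b j : ℕ) : MvPolynomial (Fin s ⊕ Fin m) A) * qB a (Φ j.castSucc)) =
        ∑ j : Fin l, ((b j : ℕ) : MvPolynomial (Fin s ⊕ Fin m) A) *
          (rename Sum.inl (g i) * qB a (Φ j.castSucc)) :=
      Finset.sum_congr rfl fun j _ => mul_left_comm _ _ _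
    calc pB a g (cmb Φ b) (Sum.inl i) = rename Sum.inl (g i) * qB a (cmb Φ b) := rfl
      _ = rename Sum.inl (g i) * qB a (Φ (Fin.last l)) + ∑ j : Fin l, rename Sum.inl (g i) *
        (((b j : ℕ) : MvPolynomial (Fin s ⊕ Fin m) A) * qB a (Φ j.castSucc)) := by
          rw [CoDV_qB a Φ b, mul_add, Finset.mul_sum]
      _ = _ := by rw [h1]; rfl
  · exact CoDV_dh a Φ b i.castSucc

theorem CoDV_deg {σ A : Type} [CommRing A] {l E : ℕ} (u : MvPolynomial σ A)
    (w : Fin l → MvPolynomial σ A) (b : Fin l → ℕ) (hu : u.totalDegree ≤ E)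
    (hw : ∀ j, (w j).totalDegree ≤ E) :
    (u + ∑ j, ((b j : ℕ) : MvPolynomial σ A) * w j).totalDegree ≤ E := by
  refine (totalDegree_add _ _).trans (max_le hu ?_)
  refine (totalDegree_finsetSum _ _).trans (Finset.sup_le fun j _ => ?_)
  exact (codb_natmul _ _).trans (hw j)

theorem pr_CoDV : S_CoDV := by
  intro s m l A _ g Φ
  choose E hE1 hE using fun j => pr_CoDB s m A g (Φ j)
  have hE' : ∀ j, E j ≤ ∑ j, E j := fun j =>
    Finset.single_le_sum (f := E) (fun _ _ => Nat.zero_le _) (Finset.mem_univ j)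
  refine ⟨∑ j, E j, (hE1 (Fin.last l)).trans (hE' _), fun a b => ⟨fun i => ?_, ?_⟩⟩
  · rw [CoDV_pB a g Φ b]
    exact CoDV_deg _ _ _ (((hE _ a).1 i).trans (hE' _)) fun j => ((hE _ a).1 i).trans (hE' _)
  · rw [CoDV_qB a Φ b]
    exact CoDV_deg _ _ _ ((hE _ a).2.trans (hE' _)) fun j => (hE _ a).2.trans (hE' _)

end Pool.Agent.Work.MP_91e6de_nt.DMR

end

section

set_option autoImplicit false

/-!
# CoHV: uniform heights
-/

namespace Pool.Agent.Work.MP_91e6de_nt.DMR

open MvPolynomial NumberField Height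

theorem CoHV_ell {K : Type} [Field K] [NumberField K] (l : ℕ) (b : Fin l → ℕ)
    (v : Fin (l + 1) → K) :
    logHeight₁ (ell b v) ≤ totalWeight K * Real.log 2 + totalWeight K * Real.log l +
      ∑ j, logHeight₁ (v j) + totalWeight K * ∑ j, Real.log (b j + 1) := by
  unfold ell
  have h1 := logHeight₁_add_le (K := K) (v (Fin.last l)) (∑ i, (b i : K) * v i.castSucc)
  have h2 := logHeight₁_sum_le (K := K) (Finset.univ : Finset (Fin l))
    (fun i => (b i : K) * v i.castSucc)
  rw [Finset.card_univ, Fintype.card_fin] at h2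
  have h3 : ∑ i : Fin l, logHeight₁ ((b i : K) * v i.castSucc) ≤
      ∑ i : Fin l, (totalWeight K * Real.log (b i + 1) + logHeight₁ (v i.castSucc)) := by
    apply Finset.sum_le_sum
    intro i _
    exact (logHeight₁_mul_le _ _).trans (add_le_add (CoHB_nat (b i)) le_rfl)
  rw [Finset.sum_add_distrib, ← Finset.mul_sum] at h3
  rw [Fin.sum_univ_castSucc (fun j => logHeight₁ (v j))]
  linarith

theorem CoHV_val {s m l : ℕ} {K : Type} [Field K] [NumberField K]
    (Φ : Fin (l + 1) → Fin (m + 1) → MvPolynomial (Fin (m + 1)) (MvPolynomial (Fin s) K))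
    (a : Fin m → ℕ) (b : Fin l → ℕ) (x : Fin s → K) (z : Fin m → K) :
    aeval (Sum.elim x z) (qB a (cmb Φ b)) =
      ell b fun j => aeval (Sum.elim x z) (qB a (Φ j)) := by
  simp only [aeval_qB]
  have h : ∀ i, ev x (hc a z) (cmb Φ b i) = ell b fun j => ev x (hc a z) (Φ j i) := by
    intro i
    unfold cmb ell
    rw [ev_add, ev_sum]
    simp
  simp only [h]
  unfold ell
  simp only [mul_add, Finset.mul_sum, Finset.sum_add_distrib]
  rw [add_add_add_comm]
  congr 1
  congr 1
  rw [Finset.sum_comm]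
  refine Finset.sum_congr rfl fun i _ => Finset.sum_congr rfl fun j _ => ?_
  ring

theorem pr_CoHV (h1 : S_CoHB) : S_CoHV := by
  intro s m l K _ _ Φ
  choose Cj hC0 hCj using fun j => h1 s m K (Φ j)
  obtain ⟨T, hT⟩ : ∃ T : ℝ, T = totalWeight K := ⟨_, rfl⟩
  have hT0 : 0 ≤ T := by rw [hT]; exact Nat.cast_nonneg _
  have hl2 : 0 ≤ T * Real.log 2 := mul_nonneg hT0 (Real.log_nonneg (by norm_num))
  have hll : 0 ≤ T * Real.log l := mul_nonneg hT0 (Real.log_natCast_nonneg l)
  obtain ⟨CC, hCC⟩ : ∃ CC : ℝ, CC = ∑ j, Cj j := ⟨_, rfl⟩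
  have hCC0 : 0 ≤ CC := by rw [hCC]; exact Finset.sum_nonneg fun j _ => hC0 j
  refine ⟨T * Real.log 2 + T * Real.log l + CC + T, by positivity, ?_⟩
  intro a b x y hy
  obtain ⟨S, hS⟩ : ∃ S : ℝ, S = ∑ j, Real.log (a j + 1) := ⟨_, rfl⟩
  obtain ⟨Sb, hSb⟩ : ∃ S : ℝ, S = ∑ j, Real.log (b j + 1) := ⟨_, rfl⟩
  have hS0 : 0 ≤ S := by
    rw [hS]
    refine Finset.sum_nonneg fun j _ => Real.log_nonneg ?_
    have : (0 : ℝ) ≤ a j := Nat.cast_nonneg _
    linarith
  have hSb0 : 0 ≤ Sb := by
    rw [hSb]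
    refine Finset.sum_nonneg fun j _ => Real.log_nonneg ?_
    have : (0 : ℝ) ≤ b j := Nat.cast_nonneg _
    linarith
  obtain ⟨H, hH⟩ : ∃ H : ℝ, H = logHeight y := ⟨_, rfl⟩
  have hH0 : 0 ≤ H := by rw [hH]; exact logHeight_nonneg y
  obtain ⟨Xh, hXh⟩ : ∃ Xh : ℝ, Xh = ∑ i, logHeight₁ (x i) := ⟨_, rfl⟩
  have hX0 : 0 ≤ Xh := by
    rw [hXh]
    exact Finset.sum_nonneg fun i _ => zero_le_logHeight₁ _
  rw [← hS, ← hSb, ← hH, ← hXh]
  constructor
  · intro i
    have h2 := (hCj (Fin.last l) a x y hy).1 i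
    rw [← hS, ← hH] at h2
    refine h2.trans (mul_le_mul_of_nonneg_right ?_ (by positivity))
    have h3 : Cj (Fin.last l) ≤ CC := by
      rw [hCC]
      exact Finset.single_le_sum (fun j _ => hC0 j) (Finset.mem_univ _)
    linarith
  · rw [CoHV_val]
    refine (CoHV_ell l b _).trans ?_
    rw [← hT, ← hSb]
    have h4 : ∑ j, logHeight₁ (aeval (Sum.elim x (ch a y)) (qB a (Φ j))) ≤
        CC * (1 + Xh + H + S) := by
      rw [hCC, Finset.sum_mul]
      refine Finset.sum_le_sum fun j _ => ?_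
      have h5 := (hCj j a x y hy).2
      rwa [← hS, ← hH, ← hXh] at h5
    have e0 : 0 ≤ Xh + H + S + Sb := by positivity
    have e1 : 0 ≤ (T * Real.log 2 + T * Real.log l) * (Xh + H + S + Sb) := by positivity
    have e2 : 0 ≤ CC * Sb := by positivity
    have e3 : 0 ≤ T * (1 + Xh + H + S) := by positivity
    nlinarith

end Pool.Agent.Work.MP_91e6de_nt.DMR

end

section

set_option autoImplicit false

/-!
# Item Cond: the conductor lemma

Functions satisfying a relation of small degree are quotients of polynomials of small degree. The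
proof uses the Rees algebra `S = ⊕ R_n T ^ n ⊆ R[T]` (`R_n` the classes of the polynomials of
degree `≤ n`), a finitely generated domain: there is `Φ ≠ 0` in `S` such that `Φ x ∈ S` for all
elements `x` of the fraction field integral over `S` (Noether normalization).
-/

namespace Pool.Agent.Work.MP_91e6de_nt.DMR

open MvPolynomial nonZeroDivisors

/-- Conductor of a finitely generated domain over a field of characteristic zero. -/
theorem Cond_conductor {K S : Type} [Field K] [CharZero K] [CommRing S] [IsDomain S]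
    [Algebra K S] [Algebra.FiniteType K S] (F : Type) [Field F] [Algebra S F]
    [IsFractionRing S F] :
    ∃ Φ : S, Φ ≠ 0 ∧ ∀ x : F, IsIntegral S x → ∃ s : S,
      algebraMap S F s = algebraMap S F Φ * x := by
  classical
  obtain ⟨n, g, hg, hfin⟩ := exists_finite_inj_algHom_of_fg K S
  let P := MvPolynomial (Fin n) K
  let : Algebra P S := g.toRingHom.toAlgebra
  let : Algebra P F := ((algebraMap S F).comp g.toRingHom).toAlgebra
  have : IsScalarTower P S F := IsScalarTower.of_algebraMap_eq' rfl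
  have hfin' : Module.Finite P S := hfin
  have hinj : Function.Injective (algebraMap P F) :=
    (IsFractionRing.injective S F).comp hg
  have : FaithfulSMul P F := (faithfulSMul_iff_algebraMap_injective P F).mpr hinj
  have hInt : Algebra.IsIntegral P S := Algebra.IsIntegral.of_finite P S
  have : Algebra.IsAlgebraic P S := Algebra.IsIntegral.isAlgebraic
  let := FractionRing.liftAlgebra P F
  have := FractionRing.isScalarTower_liftAlgebra P F
  have : CharZero (FractionRing P) :=
    charZero_of_injective_algebraMap (IsFractionRing.injective P (FractionRing P))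
  have : FiniteDimensional (FractionRing P) F := by
    obtain ⟨T, hT⟩ := hfin'
    have h1 := IsFractionRing.ideal_span_singleton_map_subset (R := P) (K := FractionRing P)
      (L := F) (a := (1 : S)) (b := (T : Set S)) hinj (by rw [hT]; exact Set.subset_univ _)
    rw [map_one, Ideal.span_singleton_one] at h1
    refine ⟨T.image (algebraMap S F), ?_⟩
    rw [Finset.coe_image]
    exact top_le_iff.mp h1
  have : Module.Finite P (integralClosure P F) :=
    IsIntegralClosure.finite P (FractionRing P) F (integralClosure P F)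
  obtain ⟨G, hG⟩ := this
  obtain ⟨b, hb⟩ := IsLocalization.exist_integer_multiples_of_finset S⁰
    (G.image (fun z : integralClosure P F => (z : F)))
  refine ⟨b, nonZeroDivisors.ne_zero b.2, fun x hx => ?_⟩
  have hx' : IsIntegral P x := isIntegral_trans x hx
  have h2 : (⟨x, hx'⟩ : integralClosure P F) ∈ Submodule.span P (G : Set (integralClosure P F)) := by
    rw [hG]; exact Submodule.mem_top
  have h3 : ∀ z ∈ Submodule.span P (G : Set (integralClosure P F)),
      ∃ s : S, algebraMap S F s = algebraMap S F b * (z : F) := by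
    intro z hz
    induction hz using Submodule.span_induction with
    | mem z hz =>
      obtain ⟨s, hs⟩ := hb (z : F) (Finset.mem_image_of_mem _ hz)
      exact ⟨s, by rw [hs, Algebra.smul_def]⟩
    | zero => exact ⟨0, by simp⟩
    | add z w _ _ hz hw =>
      obtain ⟨s, hs⟩ := hz
      obtain ⟨t, ht⟩ := hw
      exact ⟨s + t, by rw [map_add, hs, ht]; push_cast; ring⟩
    | smul p z _ hz =>
      obtain ⟨s, hs⟩ := hz
      refine ⟨algebraMap P S p * s, ?_⟩
      rw [map_mul, hs, ← IsScalarTower.algebraMap_apply P S F]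
      have : ((p • z : integralClosure P F) : F) = algebraMap P F p * (z : F) := by
        rw [Algebra.smul_def]; rfl
      rw [this]; ring
  exact h3 _ h2

section rees

set_option linter.unusedSectionVars false

variable {σ K R : Type} [Fintype σ] [Field K] [CommRing R] [Algebra K R]
  (f : MvPolynomial σ K →ₐ[K] R)

/-- The map onto the Rees algebra. -/
noncomputable def Cond_phi : MvPolynomial (Option σ) K →ₐ[K] Polynomial R :=
  aeval (fun o => match o with
    | none => Polynomial.X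
    | some i => Polynomial.C (f (X i)) * Polynomial.X)

theorem Cond_phi_none : Cond_phi f (X none) = Polynomial.X := by
  unfold Cond_phi
  rw [aeval_X]

theorem Cond_phi_some (i : σ) :
    Cond_phi f (X (some i)) = Polynomial.C (f (X i)) * Polynomial.X := by
  unfold Cond_phi
  rw [aeval_X]

theorem Cond_phi_C (a : K) : Cond_phi f (C a) = Polynomial.C (f (C a)) := by
  unfold Cond_phi
  rw [aeval_C, ← MvPolynomial.algebraMap_eq, AlgHom.commutes]
  rfl

theorem Cond_coeff (p : MvPolynomial (Option σ) K) (n : ℕ) :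
    ∃ G : MvPolynomial σ K, G.totalDegree ≤ n ∧ f G = (Cond_phi f p).coeff n := by
  induction p using MvPolynomial.induction_on generalizing n with
  | C a =>
    rw [Cond_phi_C, Polynomial.coeff_C]
    by_cases hn : n = 0
    · exact ⟨C a, by simp, by rw [if_pos hn]⟩
    · exact ⟨0, by simp, by rw [if_neg hn, map_zero]⟩
  | add p q hp hq =>
    obtain ⟨G, hG1, hG2⟩ := hp n
    obtain ⟨H, hH1, hH2⟩ := hq n
    refine ⟨G + H, (totalDegree_add _ _).trans (max_le hG1 hH1), ?_⟩
    rw [map_add, map_add, Polynomial.coeff_add, hG2, hH2]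
  | mul_X p o hp =>
    rw [map_mul]
    cases o with
    | none =>
      rw [Cond_phi_none]
      cases n with
      | zero => exact ⟨0, by simp, by rw [Polynomial.coeff_mul_X_zero, map_zero]⟩
      | succ n =>
        obtain ⟨G, hG1, hG2⟩ := hp n
        exact ⟨G, by omega, by rw [Polynomial.coeff_mul_X, hG2]⟩
    | some i =>
      rw [Cond_phi_some, ← mul_assoc]
      cases n with
      | zero => exact ⟨0, by simp, by rw [Polynomial.coeff_mul_X_zero, map_zero]⟩
      | succ n =>
        obtain ⟨G, hG1, hG2⟩ := hp n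
        refine ⟨G * X i, (totalDegree_mul _ _).trans ?_, ?_⟩
        · have := totalDegree_X (R := K) i
          omega
        · rw [Polynomial.coeff_mul_X, Polynomial.coeff_mul_C, map_mul, hG2]

theorem Cond_mon (x : σ → R) (m : σ → ℕ) (a : R) (n : ℕ) (h : ∑ i, m i ≤ n) :
    Polynomial.C (a * ∏ i, x i ^ m i) * Polynomial.X ^ n =
      Polynomial.C a * (∏ i, (Polynomial.C (x i) * Polynomial.X) ^ m i) *
        Polynomial.X ^ (n - ∑ i, m i) := by
  have h3 : (Polynomial.X : Polynomial R) ^ n =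
      Polynomial.X ^ (∑ i, m i) * Polynomial.X ^ (n - ∑ i, m i) := by
    rw [← pow_add]; congr 1; omega
  have h4 : ∏ i, (Polynomial.C (x i) * Polynomial.X) ^ m i =
      Polynomial.C (∏ i, x i ^ m i) * Polynomial.X ^ (∑ i, m i) := by
    rw [map_prod, ← Finset.prod_pow_eq_pow_sum, ← Finset.prod_mul_distrib]
    refine Finset.prod_congr rfl fun i _ => ?_
    rw [mul_pow, map_pow]
  rw [h3, h4, map_mul]
  ring

theorem Cond_mem (G : MvPolynomial σ K) (n : ℕ) (hG : G.totalDegree ≤ n) :
    Polynomial.C (f G) * Polynomial.X ^ n ∈ (Cond_phi f).range := by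
  classical
  rw [G.as_sum, map_sum, map_sum, Finset.sum_mul]
  refine Subalgebra.sum_mem _ fun m hm => ?_
  have h1 : ∑ i, m i ≤ n := by
    refine le_trans ?_ ((le_totalDegree hm).trans hG)
    rw [Finsupp.sum_fintype]
    simp
  have h2 : f (monomial m (G.coeff m)) = f (C (G.coeff m)) * ∏ i, f (X i) ^ m i := by
    rw [monomial_eq, Finsupp.prod_fintype _ _ (fun i => pow_zero _), map_mul, map_prod]
    simp only [map_pow]
  have hX : (Polynomial.X : Polynomial R) ∈ (Cond_phi f).range := ⟨X none, Cond_phi_none f⟩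
  have hXi : ∀ i : σ, Polynomial.C (f (X i)) * Polynomial.X ∈ (Cond_phi f).range :=
    fun i => ⟨X (some i), Cond_phi_some f i⟩
  have hC : Polynomial.C (f (C (G.coeff m))) ∈ (Cond_phi f).range :=
    ⟨C (G.coeff m), Cond_phi_C f _⟩
  rw [h2, Cond_mon _ _ _ _ h1]
  exact Subalgebra.mul_mem _ (Subalgebra.mul_mem _ hC
    (Subalgebra.prod_mem _ fun i _ => Subalgebra.pow_mem _ (hXi i) _))
    (Subalgebra.pow_mem _ hX _)

/-- The leading coefficient of a relation. -/
theorem Cond_lead {S F : Type} [CommRing S] [IsDomain S] [Field F] [Algebra S F]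
    [IsFractionRing S F] (e' : ℕ) (sQ : ℕ → S) (sU sW : S) (hsW : sW ≠ 0)
    (hsum : ∑ c ∈ Finset.range (e' + 1), sQ c * sU ^ c * sW ^ (e' - c) = 0)
    (hne : ∃ c ≤ e', sQ c ≠ 0) :
    ∃ j ≤ e', sQ j ≠ 0 ∧ IsIntegral S
      (algebraMap S F (sQ j) * (algebraMap S F sU / algebraMap S F sW)) := by
  classical
  have hsW' : algebraMap S F sW ≠ 0 := by
    rw [Ne, IsFractionRing.to_map_eq_zero_iff]
    exact hsW
  let y : F := algebraMap S F sU / algebraMap S F sW
  let p : Polynomial S := ∑ c ∈ Finset.range (e' + 1), Polynomial.monomial c (sQ c)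
  have hp : Polynomial.aeval y p = 0 := by
    have h1 : algebraMap S F sW ^ e' * Polynomial.aeval y p = 0 := by
      rw [map_sum, Finset.mul_sum]
      have h2 : ∀ c ∈ Finset.range (e' + 1), algebraMap S F sW ^ e' *
          Polynomial.aeval y (Polynomial.monomial c (sQ c)) =
          algebraMap S F (sQ c * sU ^ c * sW ^ (e' - c)) := by
        intro c hc
        rw [Finset.mem_range] at hc
        rw [Polynomial.aeval_monomial, map_mul, map_mul, map_pow, map_pow]
        have h3 : algebraMap S F sW ^ e' =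
            algebraMap S F sW ^ c * algebraMap S F sW ^ (e' - c) := by
          rw [← pow_add]; congr 1; omega
        rw [h3]
        simp only [y, div_pow]
        field_simp
      rw [Finset.sum_congr rfl h2, ← map_sum, hsum, map_zero]
    exact (mul_eq_zero.mp h1).resolve_left (pow_ne_zero _ hsW')
  have hcoef : ∀ j, p.coeff j = if j < e' + 1 then sQ j else 0 := by
    intro j
    simp only [p, Polynomial.finsetSum_coeff, Polynomial.coeff_monomial]
    rw [Finset.sum_ite_eq']
    simp only [Finset.mem_range]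
  obtain ⟨c0, hc0, hQ0⟩ := hne
  have hp0 : p ≠ 0 := by
    intro h
    have h1 := hcoef c0
    rw [h, Polynomial.coeff_zero, if_pos (by omega)] at h1
    exact hQ0 h1.symm
  have h1 : p.leadingCoeff ≠ 0 := Polynomial.leadingCoeff_ne_zero.mpr hp0
  have h2 : p.leadingCoeff = p.coeff p.natDegree := rfl
  have hint := isIntegral_leadingCoeff_smul p y hp
  rw [h2, hcoef] at h1 hint
  by_cases h3 : p.natDegree < e' + 1
  · rw [if_pos h3] at h1 hint
    rw [Algebra.smul_def] at hint
    exact ⟨p.natDegree, by omega, h1, hint⟩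
  · rw [if_neg h3] at h1
    exact absurd rfl h1

theorem Cond_main [IsDomain R] [CharZero K] (I : Ideal (MvPolynomial σ K)) (hI : I.IsPrime)
    (hf : ∀ G, f G = 0 ↔ G ∈ I) :
    ∃ C0 : ℕ, ∀ (D e' : ℕ) (U W : MvPolynomial σ K), W ∉ I → ¬ NR I D e' U W →
      ∃ A B : MvPolynomial σ K, B ∉ I ∧ A.totalDegree ≤ C0 * (D + 1) ∧
        B.totalDegree ≤ C0 * (D + 1) ∧ A * W - B * U ∈ I := by
  classical
  have hft : Algebra.FiniteType K (Cond_phi f).range :=
    Algebra.FiniteType.of_surjective (Cond_phi f).rangeRestrict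
      (AlgHom.rangeRestrict_surjective _)
  obtain ⟨Φ, hΦ0, hΦ⟩ := Cond_conductor (K := K) (S := (Cond_phi f).range)
    (FractionRing (Cond_phi f).range)
  have hΦ1 : (Φ : Polynomial R) ≠ 0 := fun h => hΦ0 (Subtype.ext h)
  obtain ⟨B0, hB01, hB02⟩ : ∃ G : MvPolynomial σ K, G.totalDegree ≤ (Φ : Polynomial R).natDegree ∧
      f G = (Φ : Polynomial R).coeff (Φ : Polynomial R).natDegree := by
    obtain ⟨q, hq⟩ := Φ.2
    have := Cond_coeff f q (Φ : Polynomial R).natDegree
    rw [show Cond_phi f q = (Φ : Polynomial R) from hq] at this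
    exact this
  set n0 := (Φ : Polynomial R).natDegree with hn0
  have hB0 : f B0 ≠ 0 := by
    rw [hB02]
    exact Polynomial.leadingCoeff_ne_zero.mpr hΦ1
  refine ⟨n0 + 1, fun D e' U W hW hNR => ?_⟩
  unfold NR at hNR
  push Not at hNR
  obtain ⟨Q, hQ1, hQ2, c0, hc0, hQ3⟩ := hNR
  set N1 := max U.totalDegree W.totalDegree with hN1
  have hne : ∀ (G : MvPolynomial σ K) (n : ℕ), G ∉ I →
      Polynomial.C (f G) * Polynomial.X ^ n ≠ 0 := by
    intro G n hG
    refine mul_ne_zero ?_ (pow_ne_zero _ Polynomial.X_ne_zero)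
    rw [Ne, Polynomial.C_eq_zero, hf]
    exact hG
  obtain ⟨sQ, hsQ⟩ : ∃ sQ : ℕ → (Cond_phi f).range,
      ∀ c, (sQ c : Polynomial R) = Polynomial.C (f (Q c)) * Polynomial.X ^ D :=
    ⟨fun c => ⟨_, Cond_mem f (Q c) D (hQ1 c)⟩, fun c => rfl⟩
  obtain ⟨sU, hsU⟩ : ∃ sU : (Cond_phi f).range,
      (sU : Polynomial R) = Polynomial.C (f U) * Polynomial.X ^ N1 :=
    ⟨⟨_, Cond_mem f U N1 (le_max_left _ _)⟩, rfl⟩
  obtain ⟨sW, hsW⟩ : ∃ sW : (Cond_phi f).range,
      (sW : Polynomial R) = Polynomial.C (f W) * Polynomial.X ^ N1 :=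
    ⟨⟨_, Cond_mem f W N1 (le_max_right _ _)⟩, rfl⟩
  have hsW0 : sW ≠ 0 := by
    rintro rfl
    exact hne W N1 hW (by rw [← hsW]; rfl)
  have hsum : ∑ c ∈ Finset.range (e' + 1), sQ c * sU ^ c * sW ^ (e' - c) = 0 := by
    apply Subtype.ext
    rw [AddSubmonoidClass.coe_finsetSum]
    have h1 : ∀ c ∈ Finset.range (e' + 1),
        ((sQ c * sU ^ c * sW ^ (e' - c) : (Cond_phi f).range) : Polynomial R) =
        Polynomial.C (f (Q c * U ^ c * W ^ (e' - c))) *
          Polynomial.X ^ (D + N1 * e') := by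
      intro c hc
      rw [Finset.mem_range] at hc
      have h2 : D + N1 * e' = D + N1 * c + N1 * (e' - c) := by
        rw [add_assoc, ← mul_add]; congr 2; omega
      push_cast
      rw [hsQ, hsU, hsW, mul_pow, mul_pow, map_mul, map_mul, map_pow, map_pow, map_mul, map_mul,
        map_pow, map_pow, h2, pow_add, pow_add, pow_mul, pow_mul]
      ring
    rw [Finset.sum_congr rfl h1, ← Finset.sum_mul, ← map_sum, ← map_sum, (hf _).mpr hQ2,
      map_zero, zero_mul]
    rfl
  obtain ⟨j, hj, hQj, hint⟩ := Cond_lead (F := FractionRing (Cond_phi f).range) e' sQ sU sW hsW0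
    hsum ⟨c0, hc0, fun h => hne (Q c0) D hQ3 (by rw [← hsQ, h]; rfl)⟩
  have hQjI : Q j ∉ I := by
    intro h
    apply hQj
    apply Subtype.ext
    rw [hsQ, (hf _).mpr h, map_zero, zero_mul]
    rfl
  obtain ⟨s, hs⟩ := hΦ _ hint
  have hsW' : algebraMap (Cond_phi f).range (FractionRing (Cond_phi f).range) sW ≠ 0 := by
    rw [Ne, IsFractionRing.to_map_eq_zero_iff]
    exact hsW0
  have hs2 : s * sW = Φ * sQ j * sU := by
    apply IsFractionRing.injective (Cond_phi f).range (FractionRing (Cond_phi f).range)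
    rw [map_mul, hs, map_mul, map_mul]
    field_simp
  obtain ⟨A, hA1, hA2⟩ : ∃ G : MvPolynomial σ K, G.totalDegree ≤ n0 + D ∧
      f G = (s : Polynomial R).coeff (n0 + D) := by
    obtain ⟨q, hq⟩ := s.2
    have := Cond_coeff f q (n0 + D)
    rw [show Cond_phi f q = (s : Polynomial R) from hq] at this
    exact this
  have hs4 : f A * f W = f B0 * f (Q j) * f U := by
    have h0 : (s : Polynomial R) * (sW : Polynomial R) =
        (Φ : Polynomial R) * (sQ j : Polynomial R) * (sU : Polynomial R) := by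
      have := congrArg (fun t : (Cond_phi f).range => (t : Polynomial R)) hs2
      simpa using this
    rw [hsW, hsQ, hsU] at h0
    have h1 : (s : Polynomial R) * Polynomial.C (f W) * Polynomial.X ^ N1 =
        (Φ : Polynomial R) * Polynomial.C (f (Q j)) *
          Polynomial.C (f U) * Polynomial.X ^ D * Polynomial.X ^ N1 := by
      calc (s : Polynomial R) * Polynomial.C (f W) * Polynomial.X ^ N1 =
          (s : Polynomial R) * (Polynomial.C (f W) * Polynomial.X ^ N1) := by ring
        _ = _ := h0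
        _ = _ := by ring
    have h2 := congrArg (fun t : Polynomial R => t.coeff (n0 + D + N1)) h1
    simp only [Polynomial.coeff_mul_X_pow, Polynomial.coeff_mul_C] at h2
    rw [← hA2, ← hB02] at h2
    exact h2
  refine ⟨A, B0 * Q j, ?_, ?_, ?_, ?_⟩
  · intro h
    rcases hI.mem_or_mem h with h1 | h1
    · exact hB0 ((hf _).mpr h1)
    · exact hQjI h1
  · refine hA1.trans ?_
    nlinarith
  · refine (totalDegree_mul _ _).trans ?_
    have := hQ1 j
    nlinarith
  · rw [← hf, map_sub, map_mul, map_mul, map_mul, hs4, sub_self]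

end rees

theorem pr_Cond : S_Cond := by
  intro σ K _ _ _ I r hI _ _
  have : IsDomain (MvPolynomial σ K ⧸ I) := Ideal.Quotient.isDomain I
  exact Cond_main (Ideal.Quotient.mkₐ K I) I hI (fun G => by
    rw [Ideal.Quotient.mkₐ_eq_mk]
    exact Ideal.Quotient.eq_zero_iff_mem)

end Pool.Agent.Work.MP_91e6de_nt.DMR

end

section

set_option autoImplicit false

/-!
# Core2: the main theorem of the determinant method, relative version

By induction on the dimension `d` of the level: a level of dimension `d = r - 1 - t` with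
constants `X ^ (a t)` gives a cyclic chain, or a level of smaller dimension with larger constants.
-/

namespace Pool.Agent.Work.MP_91e6de_nt.DMR

open MvPolynomial NumberField IsDedekindDomain Height
open Pool.Agent.Work.MP_91e6de_nt.DM (va nv)

theorem Core2_mono {σ K : Type} [Fintype σ] [Field K] {p : σ → MvPolynomial σ K}
    {q : MvPolynomial σ K} {M h r r' : ℕ} {P : ℕ → σ → K} (hrr : r ≤ r')
    (hc : Cyc2 p q M h r P) : Cyc2 p q M h r' P := by
  obtain ⟨n0, g, I, hn, hg, hI, hP, hIg, hOn⟩ := hc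
  refine ⟨n0, g, I, hn, hg, ?_, hP, hIg, hOn⟩
  intro i hi
  obtain ⟨c1, ⟨d, hd, hD⟩, c3⟩ := hI i hi
  exact ⟨c1, ⟨d, lt_of_lt_of_le hd hrr, hD⟩, c3⟩

theorem Core2_ind (h2 : S_Chain2) (h5 : S_Lev0) {kap n e r : ℕ} (a : ℕ → ℕ)
    (K σ : Type) [Field K] [NumberField K] [Fintype σ]
    (p : σ → MvPolynomial σ (𝓞 K)) (q : MvPolynomial σ (𝓞 K)) (h M N X W : ℕ)
    (P : ℕ → σ → K) (hkap : Module.finrank ℚ K = kap) (hr : Fintype.card σ = n)
    (hs : Setup p q e h M P) (hNM : 3 * N ≤ M) (hX : 2 ≤ X) (hmono : Monotone a)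
    (hexp : ∀ t d, d ≤ n → BS kap n e d (X ^ a t) h ≤ X ^ a (t + 1) ∧
      LS kap n e d (X ^ a t) (X ^ a t) h ≤ X ^ a (t + 1))
    (hW : W = 12 * X ^ a n) (hrW : n * W ≤ N) (h4N : 4 * X ^ a n ≤ N) (hr1 : 1 ≤ r)
    (hrn : r ≤ n) :
    ∀ d t : ℕ, t + d = r - 1 →
      (∃ (I : Ideal (MvPolynomial σ K)) (S : Finset ℕ),
        Lv P I S d (X ^ a t) (X ^ a t) N (N + t * W)) →
      Cyc2 (fun i => map (algebraMap (𝓞 K) K) (p i)) (map (algebraMap (𝓞 K) K) q) M h r P := by
  intro d
  induction d using Nat.strong_induction_on with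
  | _ d ih =>
    rintro t htd ⟨I, S, hL⟩
    have htr : t ≤ n := by omega
    have hXp : ∀ m, 0 < X ^ m := fun m => Nat.pow_pos (by omega)
    have hat : X ^ a t ≤ X ^ a n := Nat.pow_le_pow_right (by omega) (hmono htr)
    have hrW' : ∀ s, s ≤ n → s * W ≤ N := fun s hs' => (Nat.mul_le_mul_right W hs').trans hrW
    have h4t : 4 * X ^ a t ≤ N := (Nat.mul_le_mul_left 4 hat).trans h4N
    rcases Nat.eq_zero_or_pos d with hd | hd
    · exfalso
      subst hd
      have hcard : S.card ≤ 1 := by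
        rw [Finset.card_le_one]
        intro n hn n' hn'
        have e1 : P n = P n' := h5 σ K I (P n) (P n') hL.prime hL.dim (hL.on n hn) (hL.on n' hn')
        have b1 := hL.bd n hn
        have b2 := hL.bd n' hn'
        have b3 := hrW' t htr
        exact hs.inj (Set.mem_Iic.mpr (by omega)) (Set.mem_Iic.mpr (by omega)) e1
      have h1 := hL.big
      have h2' : S.card * X ^ a t ≤ 1 * X ^ a t := Nat.mul_le_mul_right _ hcard
      have h3 := hXp (a t)
      omega
    · by_contra hc
      refine hc ?_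
      have hb := hL.big
      have hcard : 4 ≤ S.card := by
        have h3 : 4 * X ^ a t ≤ S.card * X ^ a t := h4t.trans hb
        exact Nat.le_of_mul_le_mul_right h3 (hXp (a t))
      have hW12 : 12 * X ^ a t ≤ W := by
        rw [hW]
        exact Nat.mul_le_mul_left 12 hat
      have e1 : (t + 1) * W = t * W + W := by ring
      have b3 := hrW' t htr
      have b4 := hrW' (t + 1) (by omega)
      refine Core2_mono (by omega : d + 1 ≤ r) ?_
      refine h2 K σ p q e h M P I S d (X ^ a t) (X ^ a t) N (N + t * W) (N + (t + 1) * W) hs hd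
        (hXp _) (hXp _) hL hcard (by omega) (by omega) (by omega) ?_
      intro d' hd' I' S' hL'
      rw [hkap, hr] at hL'
      apply hc
      obtain ⟨t', ht'⟩ : ∃ t', t' + d' = r - 1 := ⟨r - 1 - d', by omega⟩
      have htt : t + 1 ≤ t' := by omega
      have hle := hexp t d (by omega)
      have hpow : X ^ a (t + 1) ≤ X ^ a t' := Nat.pow_le_pow_right (by omega) (hmono htt)
      refine ih d' hd' t' ht' ⟨I', S', hL'.mono (hle.1.trans hpow) (hle.2.trans hpow) ?_⟩
      exact Nat.add_le_add_left (Nat.mul_le_mul_right W htt) N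

theorem pr_Core2 (h1 : S_Start2) (h2 : S_Chain2) (h3 : S_Exp) (h4 : S_Exp02) (h5 : S_Lev0) :
    S_Core2 := by
  intro kap n e B hk1 hn1 he1 hB1
  obtain ⟨a0, ha0⟩ := h4 kap n e B hk1 hn1 he1 hB1
  have h3' : ∀ a, ∃ a', a ≤ a' ∧ ∀ X h d : ℕ, 2 ≤ X → h ≤ X → d ≤ n →
      BS kap n e d (X ^ a) h ≤ X ^ a' ∧ LS kap n e d (X ^ a) (X ^ a) h ≤ X ^ a' :=
    fun a => h3 kap n e a hk1 hn1 he1
  choose f hf1 hf2 using h3'
  obtain ⟨a, hadef⟩ : ∃ a : ℕ → ℕ, a = fun t => f^[t] a0 := ⟨_, rfl⟩
  have ha_succ : ∀ t, a (t + 1) = f (a t) := fun t => by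
    rw [hadef]
    exact Function.iterate_succ_apply' f t a0
  have ha_zero : a 0 = a0 := by rw [hadef]; rfl
  have hmono : Monotone a := monotone_nat_of_le_succ fun t => by
    rw [ha_succ]
    exact hf1 _
  refine ⟨a n + 12 * n + 16, ?_⟩
  intro K σ _ _ _ p q h M N k X r P I i hkap hcard hs hI hDim hr1 hHB hOn hNM hX hhX hkX hekX
    hXN hNR
  have hrn : r ≤ n := by
    rw [← hcard]
    exact Dim_le hDim
  have hXA : ∀ m, m ≤ a n + 12 * n + 16 → X ^ m ≤ N := fun m hm =>
    (Nat.pow_le_pow_right (by omega) hm).trans hXN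
  have hkN : k ≤ N := by
    have := hXA 1 (by omega)
    rw [pow_one] at this
    omega
  have hrW : n * (12 * X ^ a n) ≤ N := by
    have e1 : 12 * n ≤ X ^ (12 * n) :=
      (Nat.lt_two_pow_self).le.trans (Nat.pow_le_pow_left hX _)
    calc n * (12 * X ^ a n) = (12 * n) * X ^ a n := by ring
      _ ≤ X ^ (12 * n) * X ^ a n := Nat.mul_le_mul_right _ e1
      _ = X ^ (12 * n + a n) := (pow_add _ _ _).symm
      _ ≤ N := hXA _ (by omega)
  have h4N : 4 * X ^ a n ≤ N := by
    have e1 : 4 ≤ X ^ 2 := by nlinarith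
    calc 4 * X ^ a n ≤ X ^ 2 * X ^ a n := Nat.mul_le_mul_right _ e1
      _ = X ^ (2 + a n) := (pow_add _ _ _).symm
      _ ≤ N := hXA _ (by omega)
  obtain ⟨I', S, hL⟩ := h1 K σ p q e h M N k r B P I i hs (by omega) hI hDim hr1 hB1 hHB hOn
    (by rw [hkap]; exact hNR)
  rw [hkap, hcard] at hL
  obtain ⟨c1, c2⟩ := ha0 X h k r hX hhX hkX hekX hrn
  refine Core2_ind h2 h5 a K σ p q h M N X (12 * X ^ a n) P hkap hcard hs hNM hX hmono ?_ rfl hrW
    h4N hr1 hrn (r - 1) 0 (by omega) ⟨I', S, hL.mono ?_ ?_ ?_⟩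
  · intro t d hd
    rw [ha_succ]
    exact hf2 (a t) X h d hX hhX hd
  · rw [ha_zero]
    exact c1
  · rw [ha_zero]
    exact c2
  · omega

end Pool.Agent.Work.MP_91e6de_nt.DMR

end

section

set_option autoImplicit false

/-!
# Item DgGB: the degrees grow like `d ^ n` (helper55)
-/

namespace Pool.Agent.Work.MP_91e6de_nt.DMR

open MvPolynomial

theorem pr_DgGB (h1 : S_DgLow) (h2 : S_DgX) : S_DgGB := by
  intro s m K _ d g F hm hd hinj hg hF hNoZ
  obtain ⟨C, hC⟩ := h2 s m K d g F hd hg hF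
  have hlow := h1 s m K d g F hm (by omega) hinj hF hNoZ
  refine ⟨(1 + C) * (s + m - 1).choose m + (s + m - 1).choose s, fun n => ?_⟩
  obtain ⟨hne, hGr⟩ := hlow n
  have hmem : (1 + C * d ^ n) * (s + m - 1).choose m + d ^ n * (s + m - 1).choose s ∈
      {t | ∃ (δx δy : ℕ) (G : Fin (m + 1) → MvPolynomial (Fin (m + 1)) (MvPolynomial (Fin s) K)),
        G ≠ 0 ∧ (∀ i, (G i).IsHomogeneous δy) ∧ (∀ i u, ((G i).coeff u).totalDegree ≤ δx) ∧
        (∀ i j, G i * (itB g F n).2 j = G j * (itB g F n).2 i) ∧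
        t = (1 + δx) * (s + m - 1).choose m + δy * (s + m - 1).choose s} :=
    ⟨C * d ^ n, d ^ n, (itB g F n).2, hne, itB_homog g F d hF n, hC n,
      fun i j => mul_comm _ _, rfl⟩
  constructor
  · have hs := Nat.sInf_mem ⟨_, hmem⟩
    obtain ⟨δx, δy, G, hG0, hGh, hGc, hprop, ht⟩ := hs
    have h3 := hGr δy G hG0 hGh hprop
    have h4 : d ^ n ≤ δy := by exact_mod_cast h3
    have h5 : 1 ≤ (s + m - 1).choose s := Nat.choose_pos (by omega)
    have h6 : dgB g F n = (1 + δx) * (s + m - 1).choose m + δy * (s + m - 1).choose s := ht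
    rw [h6]
    calc d ^ n ≤ δy * 1 := by rw [mul_one]; exact h4
      _ ≤ δy * (s + m - 1).choose s := Nat.mul_le_mul_left _ h5
      _ ≤ _ := Nat.le_add_left _ _
  · have h3 : dgB g F n ≤ (1 + C * d ^ n) * (s + m - 1).choose m +
        d ^ n * (s + m - 1).choose s := Nat.sInf_le hmem
    refine h3.trans ?_
    have h4 : 1 ≤ d ^ n := Nat.one_le_pow _ _ (by omega)
    have h5 : 1 + C * d ^ n ≤ (1 + C) * d ^ n := by
      rw [add_mul, one_mul]; omega
    calc (1 + C * d ^ n) * (s + m - 1).choose m + d ^ n * (s + m - 1).choose s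
        ≤ ((1 + C) * d ^ n) * (s + m - 1).choose m + d ^ n * (s + m - 1).choose s :=
          Nat.add_le_add_right (Nat.mul_le_mul_right _ h5) _
      _ = ((1 + C) * (s + m - 1).choose m + (s + m - 1).choose s) * d ^ n := by ring

end Pool.Agent.Work.MP_91e6de_nt.DMR

end

section

set_option autoImplicit false

namespace Pool.Agent.Work.MP_91e6de_nt.DMR

open MvPolynomial NumberField IsDedekindDomain Height Filter Topology

section

variable {s m : ℕ} {K : Type} [Field K]

/-- The saturation of an ideal with respect to the nonzero polynomials in `x`. -/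
def DgLow_sat (J : Ideal (MvPolynomial (Fin (m + 1)) (MvPolynomial (Fin s) K))) :
    Ideal (MvPolynomial (Fin (m + 1)) (MvPolynomial (Fin s) K)) where
  carrier := {G | ∃ r : MvPolynomial (Fin s) K, r ≠ 0 ∧ C r * G ∈ J}
  zero_mem' := ⟨1, one_ne_zero, by simp⟩
  add_mem' := by
    rintro a b ⟨r, hr, ha⟩ ⟨r', hr', hb⟩
    refine ⟨r * r', mul_ne_zero hr hr', ?_⟩
    have h1 : C (r * r') * (a + b) = C r' * (C r * a) + C r * (C r' * b) := by
      rw [C_mul]; ring
    rw [h1]
    exact J.add_mem (J.mul_mem_left _ ha) (J.mul_mem_left _ hb)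
  smul_mem' := by
    rintro c a ⟨r, hr, ha⟩
    refine ⟨r, hr, ?_⟩
    have h1 : C r * (c • a) = c * (C r * a) := by rw [smul_eq_mul]; ring
    rw [h1]
    exact J.mul_mem_left _ ha

theorem DgLow_mem (J : Ideal (MvPolynomial (Fin (m + 1)) (MvPolynomial (Fin s) K)))
    (G : MvPolynomial (Fin (m + 1)) (MvPolynomial (Fin s) K)) :
    G ∈ DgLow_sat J ↔ ∃ r : MvPolynomial (Fin s) K, r ≠ 0 ∧ C r * G ∈ J := Iff.rfl

theorem DgLow_le (J : Ideal (MvPolynomial (Fin (m + 1)) (MvPolynomial (Fin s) K))) :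
    J ≤ DgLow_sat J := fun G hG => ⟨1, one_ne_zero, by simpa using hG⟩

theorem DgLow_rad (J J' : Ideal (MvPolynomial (Fin (m + 1)) (MvPolynomial (Fin s) K)))
    (h : J ≤ (DgLow_sat J').radical) : (DgLow_sat J).radical ≤ (DgLow_sat J').radical := by
  have h1 : DgLow_sat J ≤ (DgLow_sat J').radical := by
    rintro G ⟨r, hr, hG⟩
    obtain ⟨L, hL⟩ := h hG
    rw [DgLow_mem] at hL
    obtain ⟨r', hr', hG'⟩ := hL
    refine ⟨L, ?_⟩
    rw [DgLow_mem]
    refine ⟨r' * r ^ L, mul_ne_zero hr' (pow_ne_zero _ hr), ?_⟩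
    have h2 : C (r' * r ^ L) * G ^ L = C r' * (C r * G) ^ L := by
      rw [C_mul, C_pow]; ring
    rw [h2]
    exact hG'
  calc (DgLow_sat J).radical ≤ ((DgLow_sat J').radical).radical := Ideal.radical_mono h1
    _ = (DgLow_sat J').radical := Ideal.radical_idem _

theorem DgLow_inj (g : Fin s → MvPolynomial (Fin s) K)
    (F : Fin (m + 1) → MvPolynomial (Fin (m + 1)) (MvPolynomial (Fin s) K))
    (hg : Function.Injective (aeval g : MvPolynomial (Fin s) K →ₐ[K] MvPolynomial (Fin s) K))
    (k : ℕ) : Function.Injective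
      (aeval (itB g F k).1 : MvPolynomial (Fin s) K →ₐ[K] MvPolynomial (Fin s) K) := by
  induction k with
  | zero =>
    have h1 : (aeval (itB g F 0).1 : MvPolynomial (Fin s) K →ₐ[K] MvPolynomial (Fin s) K) =
        AlgHom.id K _ := by
      apply MvPolynomial.algHom_ext
      intro i
      simp [itB]
    rw [h1]
    exact fun a b h => h
  | succ k ih =>
    have h1 : (aeval (itB g F (k + 1)).1 : MvPolynomial (Fin s) K →ₐ[K] MvPolynomial (Fin s) K) =
        (aeval (itB g F k).1).comp (aeval g) := by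
      apply MvPolynomial.algHom_ext
      intro i
      simp [itB]
    rw [h1]
    intro a b h
    exact hg (ih h)

theorem DgLow_claim (t d : ℕ) (ρ : MvPolynomial (Fin s) K) (g : Fin s → MvPolynomial (Fin s) K)
    (F : Fin (m + 1) → MvPolynomial (Fin (m + 1)) (MvPolynomial (Fin s) K))
    (H : Fin (m + 1) → Fin (m + 1) → MvPolynomial (Fin (m + 1)) (MvPolynomial (Fin s) K))
    (hg : Function.Injective (aeval g : MvPolynomial (Fin s) K →ₐ[K] MvPolynomial (Fin s) K))
    (hρ : ρ ≠ 0) (hH : ∀ i, C ρ * X i ^ (t + d) = ∑ j, H i j * F j) (k : ℕ) :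
    ∀ i, (X i : MvPolynomial (Fin (m + 1)) (MvPolynomial (Fin s) K)) ∈
      (DgLow_sat (Ideal.span (Set.range (itB g F k).2))).radical := by
  induction k with
  | zero =>
    intro i
    apply Ideal.le_radical
    apply DgLow_le
    apply Ideal.subset_span
    exact ⟨i, by simp [itB]⟩
  | succ k ih =>
    intro i
    refine DgLow_rad _ _ ?_ (ih i)
    rw [Ideal.span_le]
    rintro _ ⟨i, rfl⟩
    refine ⟨t + d, ?_⟩
    rw [DgLow_mem]
    refine ⟨aeval (itB g F k).1 ρ, ?_, ?_⟩
    · intro h0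
      apply hρ
      apply DgLow_inj g F hg k
      rw [h0, map_zero]
    · have h1 := congrArg (ev (fun j => C ((itB g F k).1 j)) (itB g F k).2) (hH i)
      rw [ev_mul, ev_C, ev_pow, ev_X, ev_sum] at h1
      have h2 : (aeval (fun j => (C ((itB g F k).1 j) :
          MvPolynomial (Fin (m + 1)) (MvPolynomial (Fin s) K))) ρ) =
            C (aeval (itB g F k).1 ρ) := by
        have := MvPolynomial.comp_aeval_apply (itB g F k).1
          (IsScalarTower.toAlgHom K (MvPolynomial (Fin s) K)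
            (MvPolynomial (Fin (m + 1)) (MvPolynomial (Fin s) K))) ρ
        rw [← MvPolynomial.algebraMap_eq]
        exact this.symm
      rw [h2] at h1
      rw [h1]
      apply Ideal.sum_mem
      intro j _
      rw [ev_mul]
      apply Ideal.mul_mem_left
      apply Ideal.subset_span
      exact ⟨j, rfl⟩

theorem DgLow_dvd {P : Type} [CommRing P] [IsDomain P] [UniqueFactorizationMonoid P]
    (a b u v : P) (h1 : a ∣ b * u) (h2 : a ∣ b * v) (huv : IsRelPrime u v) : a ∣ b := by
  letI := Classical.choice (UniqueFactorizationMonoid.toGCDMonoid P |> fun x => ⟨x⟩ :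
    Nonempty (GCDMonoid P))
  have h3 : a ∣ gcd (b * u) (b * v) := dvd_gcd h1 h2
  have h4 : a ∣ b * gcd u v := h3.trans (gcd_mul_left' b u v).dvd
  have h5 : IsUnit (gcd u v) := gcd_isUnit_iff_isRelPrime.2 huv
  exact (h5.dvd_mul_right).1 h4

end

theorem pr_DgLow (h1 : S_Nul) : S_DgLow := by
  classical
  intro s m K _ d g F hm hd hg hF hZ k
  obtain ⟨t, ρ, H, hρ, _, hH⟩ := h1 s m K F d hd hF hZ
  have hcl := DgLow_claim t d ρ g F H hg hρ hH k
  have hne : (itB g F k).2 ≠ 0 := by
    intro h0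
    obtain ⟨N, hN⟩ := hcl 0
    rw [DgLow_mem] at hN
    obtain ⟨r, hr, h2⟩ := hN
    have h3 : Ideal.span (Set.range (itB g F k).2) = ⊥ := by
      rw [Ideal.span_eq_bot]
      rintro _ ⟨i, rfl⟩
      rw [h0]; rfl
    rw [h3, Ideal.mem_bot] at h2
    have h4 : (C r : MvPolynomial (Fin (m + 1)) (MvPolynomial (Fin s) K)) ≠ 0 := by
      intro h; exact hr (C_injective _ _ (by rw [h, C_0]))
    exact mul_ne_zero h4 (pow_ne_zero _ (X_ne_zero _)) h2
  refine ⟨hne, ?_⟩
  intro D G hG0 hGh hGY
  have : ∃ i, G i ≠ 0 := by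
    by_contra hcon
    push Not at hcon
    exact hG0 (funext hcon)
  obtain ⟨i, hi⟩ := this
  have hYi : (itB g F k).2 i ≠ 0 := by
    intro h0
    apply hne
    funext j
    have h2 := hGY i j
    rw [h0, mul_zero] at h2
    exact (mul_eq_zero.1 h2).resolve_left hi
  have key : ∀ l : Fin (m + 1), ∃ (r : MvPolynomial (Fin s) K) (N : ℕ), r ≠ 0 ∧
      (itB g F k).2 i ∣ C r * X l ^ N * G i := by
    intro l
    obtain ⟨N, hN⟩ := hcl l
    rw [DgLow_mem] at hN
    obtain ⟨r, hr, h2⟩ := hN
    refine ⟨r, N, hr, ?_⟩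
    rw [Ideal.mem_span_range_iff_exists_fun] at h2
    obtain ⟨c, hc⟩ := h2
    rw [← hc, Finset.sum_mul]
    apply Finset.dvd_sum
    intro j _
    have h3 : c j * (itB g F k).2 j * G i = (itB g F k).2 i * (c j * G j) := by
      have := hGY i j
      calc c j * (itB g F k).2 j * G i = c j * (G i * (itB g F k).2 j) := by ring
        _ = c j * (G j * (itB g F k).2 i) := by rw [this]
        _ = _ := by ring
    rw [h3]
    exact dvd_mul_right _ _
  obtain ⟨r0, N0, hr0, hd0⟩ := key 0
  obtain ⟨r1, N1, hr1, hd1⟩ := key (Fin.last m)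
  have hne01 : (0 : Fin (m + 1)) ≠ Fin.last m := by
    intro h
    have := congrArg Fin.val h
    simp at this
    omega
  have hrel : IsRelPrime ((X 0 : MvPolynomial (Fin (m + 1)) (MvPolynomial (Fin s) K)) ^ N0)
      (X (Fin.last m) ^ N1) := by
    apply IsRelPrime.pow
    rw [Irreducible.isRelPrime_iff_not_dvd (X_prime (R := MvPolynomial (Fin s) K)).irreducible]
    rw [X_dvd_X]
    exact hne01
  have hdvd : (itB g F k).2 i ∣ C (r0 * r1) * G i := by
    apply DgLow_dvd _ _ _ _ _ _ hrel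
    · refine hd0.trans ?_
      rw [C_mul]
      exact ⟨C r1, by ring⟩
    · refine hd1.trans ?_
      rw [C_mul]
      exact ⟨C r0, by ring⟩
  have hC : (C (r0 * r1) : MvPolynomial (Fin (m + 1)) (MvPolynomial (Fin s) K)) ≠ 0 := by
    intro h
    exact mul_ne_zero hr0 hr1 (C_injective _ _ (by rw [h, C_0]))
  have hCG : C (r0 * r1) * G i ≠ 0 := mul_ne_zero hC hi
  obtain ⟨Q, hQ⟩ := hdvd
  have hQ0 : Q ≠ 0 := by
    intro h; rw [h, mul_zero] at hQ; exact hCG hQ
  have e1 : (C (r0 * r1) * G i).totalDegree = D := by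
    have := (isHomogeneous_C (Fin (m + 1)) (r0 * r1)).mul (hGh i)
    rw [zero_add] at this
    exact this.totalDegree hCG
  have e2 : ((itB g F k).2 i).totalDegree = d ^ k :=
    (itB_homog g F d hF k i).totalDegree hYi
  have e3 : (C (r0 * r1) * G i).totalDegree =
      ((itB g F k).2 i).totalDegree + Q.totalDegree := by
    rw [hQ]; exact totalDegree_mul_of_isDomain hYi hQ0
  have e4 : d ^ k ≤ D := by omega
  exact_mod_cast e4

end Pool.Agent.Work.MP_91e6de_nt.DMR

end

section

set_option autoImplicit false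

namespace Pool.Agent.Work.MP_91e6de_nt.DMR

open MvPolynomial NumberField IsDedekindDomain Height Filter Topology

section

variable {s m : ℕ} {K : Type} [Field K]

/-- All coefficients have degree at most `a`. -/
def DgX_cb (a : ℕ) (P : MvPolynomial (Fin (m + 1)) (MvPolynomial (Fin s) K)) : Prop :=
  ∀ u, (P.coeff u).totalDegree ≤ a

theorem DgX_mono {a b : ℕ} (h : a ≤ b) {P : MvPolynomial (Fin (m + 1)) (MvPolynomial (Fin s) K)}
    (hP : DgX_cb a P) : DgX_cb b P := fun u => (hP u).trans h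

theorem DgX_C {a : ℕ} {r : MvPolynomial (Fin s) K} (hr : r.totalDegree ≤ a) :
    DgX_cb (m := m) a (C r) := by
  classical
  intro u
  rw [coeff_C]
  split_ifs
  · exact hr
  · simp

theorem DgX_X (i : Fin (m + 1)) : DgX_cb (s := s) (K := K) 0 (X i) := by
  classical
  intro u
  rw [coeff_X']
  split_ifs <;> simp

theorem DgX_one : DgX_cb (s := s) (K := K) (m := m) 0 1 := by
  have := DgX_C (m := m) (a := 0) (r := (1 : MvPolynomial (Fin s) K)) (by simp)
  simpa using this

theorem DgX_mul {a b : ℕ} {P Q : MvPolynomial (Fin (m + 1)) (MvPolynomial (Fin s) K)}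
    (hP : DgX_cb a P) (hQ : DgX_cb b Q) : DgX_cb (a + b) (P * Q) := by
  classical
  intro u
  rw [coeff_mul]
  refine (totalDegree_finset_sum _ _).trans ?_
  apply Finset.sup_le
  intro x _
  exact (totalDegree_mul _ _).trans (Nat.add_le_add (hP _) (hQ _))

theorem DgX_pow {a : ℕ} {P : MvPolynomial (Fin (m + 1)) (MvPolynomial (Fin s) K)}
    (hP : DgX_cb a P) (n : ℕ) : DgX_cb (n * a) (P ^ n) := by
  induction n with
  | zero => simpa using DgX_one
  | succ n ih =>
    rw [pow_succ]
    exact DgX_mono (by ring_nf; rfl) (DgX_mul ih hP)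

theorem DgX_sum {ι : Type} {a : ℕ} (T : Finset ι)
    (P : ι → MvPolynomial (Fin (m + 1)) (MvPolynomial (Fin s) K))
    (hP : ∀ i ∈ T, DgX_cb a (P i)) : DgX_cb a (∑ i ∈ T, P i) := by
  classical
  intro u
  rw [coeff_sum]
  refine (totalDegree_finset_sum _ _).trans ?_
  exact Finset.sup_le fun i hi => hP i hi u

theorem DgX_prod {ι : Type} (a : ι → ℕ) (T : Finset ι)
    (P : ι → MvPolynomial (Fin (m + 1)) (MvPolynomial (Fin s) K))
    (hP : ∀ i ∈ T, DgX_cb (a i) (P i)) : DgX_cb (∑ i ∈ T, a i) (∏ i ∈ T, P i) := by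
  classical
  induction T using Finset.induction_on with
  | empty => simpa using DgX_one
  | insert i T hi ih =>
    rw [Finset.prod_insert hi, Finset.sum_insert hi]
    exact DgX_mul (hP i (Finset.mem_insert_self _ _))
      (ih fun j hj => hP j (Finset.mem_insert_of_mem hj))

theorem DgX_aeval (x : Fin s → MvPolynomial (Fin s) K) (hx : ∀ i, (x i).totalDegree ≤ 1)
    (p : MvPolynomial (Fin s) K) : (aeval x p).totalDegree ≤ p.totalDegree := by
  rw [aeval_def, eval₂_eq']
  refine (totalDegree_finset_sum _ _).trans ?_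
  apply Finset.sup_le
  intro u hu
  refine (totalDegree_mul _ _).trans ?_
  have h1 : (algebraMap K (MvPolynomial (Fin s) K) (coeff u p)).totalDegree = 0 := by
    rw [MvPolynomial.algebraMap_eq, totalDegree_C]
  rw [h1, zero_add]
  refine (totalDegree_finset_prod _ _).trans ?_
  have h2 : ∑ i, u i ≤ p.totalDegree := by
    have := le_totalDegree hu
    rwa [Finsupp.sum_fintype _ _ (fun _ => rfl)] at this
  refine le_trans (Finset.sum_le_sum fun i _ => ?_) h2
  refine (totalDegree_pow _ _).trans ?_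
  calc u i * (x i).totalDegree ≤ u i * 1 := Nat.mul_le_mul_left _ (hx i)
    _ = u i := mul_one _

end

theorem pr_DgX : S_DgX := by
  classical
  intro s m K _ d g F hd hg hF
  set c0 : ℕ := Finset.univ.sup fun i => (F i).support.sup fun w =>
    ((F i).coeff w).totalDegree with hc0
  have hc : ∀ i, ∀ w ∈ (F i).support, ((F i).coeff w).totalDegree ≤ c0 := by
    intro i w hw
    have h1 : ((F i).coeff w).totalDegree ≤ (F i).support.sup fun w =>
        ((F i).coeff w).totalDegree :=
      Finset.le_sup (f := fun w => ((F i).coeff w).totalDegree) hw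
    exact h1.trans (Finset.le_sup (f := fun i => (F i).support.sup fun w =>
      ((F i).coeff w).totalDegree) (Finset.mem_univ i))
  have hx : ∀ k i, ((itB g F k).1 i).totalDegree ≤ 1 := by
    intro k
    induction k with
    | zero => intro i; simp [itB, totalDegree_X]
    | succ k ih =>
      intro i
      simp only [itB]
      exact (DgX_aeval _ ih _).trans (hg i)
  have hmain : ∀ k, ∃ a : ℕ, c0 + a ≤ c0 * d ^ k ∧ ∀ i, DgX_cb a ((itB g F k).2 i) := by
    intro k
    induction k with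
    | zero =>
      refine ⟨0, by simp, fun i => ?_⟩
      simp only [itB]
      exact DgX_X i
    | succ k ih =>
      obtain ⟨a, ha, hY⟩ := ih
      refine ⟨c0 + d * a, ?_, fun i => ?_⟩
      · have h1 : d * (c0 + a) ≤ d * (c0 * d ^ k) := Nat.mul_le_mul_left _ ha
        have h2 : c0 * d ^ (k + 1) = d * (c0 * d ^ k) := by ring
        have h3 : 2 * c0 ≤ d * c0 := Nat.mul_le_mul_right _ hd
        rw [h2]
        nlinarith
      · simp only [itB]
        rw [ev_eq_sum]
        apply DgX_sum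
        intro w hw
        have h1 : ∑ i, w i = d := by
          have := (hF i) (mem_support_iff.mp hw)
          rw [← this]
          simp [Finsupp.weight_apply, Finsupp.sum_fintype]
        have h2 : (aeval (fun j => (C ((itB g F k).1 j) :
            MvPolynomial (Fin (m + 1)) (MvPolynomial (Fin s) K)))
            ((F i).coeff w)) = C (aeval (itB g F k).1 ((F i).coeff w)) := by
          have := MvPolynomial.comp_aeval_apply (itB g F k).1
            (IsScalarTower.toAlgHom K (MvPolynomial (Fin s) K)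
              (MvPolynomial (Fin (m + 1)) (MvPolynomial (Fin s) K))) ((F i).coeff w)
          rw [← MvPolynomial.algebraMap_eq]
          exact this.symm
        rw [h2]
        apply DgX_mul
        · exact DgX_C ((DgX_aeval _ (hx k) _).trans (hc i w hw))
        · have h3 := DgX_prod (fun j => w j * a) Finset.univ
            (fun j => (itB g F k).2 j ^ w j) (fun j _ => DgX_pow (hY j) (w j))
          rw [← Finset.sum_mul, h1] at h3
          exact h3
  refine ⟨c0, fun k i u => ?_⟩
  obtain ⟨a, ha, hY⟩ := hmain k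
  exact (hY i u).trans (by omega)

end Pool.Agent.Work.MP_91e6de_nt.DMR

end

section

set_option autoImplicit false

namespace Pool.Agent.Work.MP_91e6de_nt.DMR

open MvPolynomial

theorem pr_ExHB (h1 : S_RelHB) : S_ExHB := by
  classical
  intro σ K _ _ I r hI hD
  have hex : ∀ J : Finset σ, J.card = r + 1 → ∃ F ∈ I, F ≠ 0 ∧ F.vars ⊆ J := by
    intro J hJ
    by_contra hcon
    push Not at hcon
    have hind : Ind I J := by
      intro F hF hv
      by_contra hne
      exact hcon F hF hne hv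
    have := hD.2 J hind
    omega
  have hex' : ∀ J : Finset σ, ∃ F : MvPolynomial σ K, J.card = r + 1 →
      (F ∈ I ∧ F ≠ 0 ∧ F.vars ⊆ J) := by
    intro J
    by_cases hJ : J.card = r + 1
    · obtain ⟨F, hF, hne, hv⟩ := hex J hJ
      exact ⟨F, fun _ => ⟨hF, hne, hv⟩⟩
    · exact ⟨0, fun h => absurd h hJ⟩
  choose F hF using hex'
  let T : ℕ := 1 + ∑ J : Finset σ, (F J).totalDegree
  have hT : ∀ J : Finset σ, (F J).totalDegree ≤ T := by
    intro J
    have : (F J).totalDegree ≤ ∑ J : Finset σ, (F J).totalDegree :=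
      Finset.single_le_sum (f := fun J : Finset σ => (F J).totalDegree)
        (fun _ _ => Nat.zero_le _) (Finset.mem_univ J)
    omega
  refine ⟨(Fintype.card σ + 2) ^ Fintype.card σ * T ^ Fintype.card σ, ?_,
    h1 σ K I T r hI (by omega) ?_⟩
  · have hT1 : 1 ≤ T := by omega
    exact Nat.mul_pos (pow_pos (by omega) _) (pow_pos hT1 _)
  · intro J hJ
    obtain ⟨a, b, c⟩ := hF J hJ
    exact ⟨F J, a, b, c, hT J⟩

end Pool.Agent.Work.MP_91e6de_nt.DMR

end

section

set_option autoImplicit false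

namespace Pool.Agent.Work.MP_91e6de_nt.DMR

theorem Exp02_aux (kap n e B r : ℕ) : ∃ a,
    ∀ X h k : ℕ, 2 ≤ X → h ≤ X → k ≤ X → e ^ k ≤ X →
      BZ2 kap r B e k h ≤ X ^ a ∧ LG kap n k h * ((r - 1).factorial * BZ2 kap r B e k h) ≤ X ^ a := by
  let c1 : ℕ := 7 * kap * (r + 1)
  let aD : ℕ := 2 * B + (c1 + 1) * r
  let aB : ℕ := (aD + (r + 1 + 1) + 1 + 1) * r + B
  let aL : ℕ := 2 + (16 + (6 + (n + 1 + 1) + 1) * 2) * kap * n
  let a2 : ℕ := aL + ((r - 1).factorial + aB)
  refine ⟨aB + a2, ?_⟩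
  intro X h k hX hh hk hek
  have hX1 : 1 ≤ X := by omega
  have hDZ : DZ2 kap r B h ≤ X ^ aD := by
    unfold DZ2
    refine Exp0_mul (Exp0_const X _ hX) ?_
    exact Exp0_pow r (Exp0_mul (Exp0_const X _ hX) (Exp0_h hh))
  have hBZ : BZ2 kap r B e k h ≤ X ^ aB := by
    unfold BZ2
    refine Exp0_mul (Exp0_pow r ?_) (Exp0_const X _ hX)
    refine (Exp0_add (b := 0) hX (Exp0_mul hDZ
      (Exp0_add hX (Exp0_const X r hX) (Exp0_h hek))) (by simp)).trans ?_
    exact Nat.pow_le_pow_right hX1 (by omega)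
  have hLG : LG kap n k h ≤ X ^ aL := by
    unfold LG
    refine Exp0_mul (Exp0_const X 2 hX) ?_
    refine Exp0_pow n (Exp0_pow kap ?_)
    refine Exp0_mul (Exp0_const X 16 hX) (Exp0_pow 2 ?_)
    exact Exp0_mul (Exp0_mul (Exp0_const X 6 hX)
      (Exp0_add hX (Exp0_const X n hX) (Exp0_h hk))) (Exp0_h hh)
  constructor
  · exact hBZ.trans (Nat.pow_le_pow_right hX1 (Nat.le_add_right aB a2))
  · refine (Exp0_mul hLG (Exp0_mul (Exp0_const X _ hX) hBZ)).trans ?_
    exact Nat.pow_le_pow_right hX1 (Nat.le_add_left a2 aB)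

theorem pr_Exp02 : S_Exp02 := by
  intro kap n e B _ _ _ _
  choose a ha using Exp02_aux kap n e B
  refine ⟨∑ r ∈ Finset.range (n + 1), a r, ?_⟩
  intro X h k r hX hh hk hek hr
  have hX1 : 1 ≤ X := by omega
  have h1 : a r ≤ ∑ r ∈ Finset.range (n + 1), a r :=
    Finset.single_le_sum (f := a) (fun _ _ => Nat.zero_le _) (Finset.mem_range.2 (by omega))
  obtain ⟨h2, h3⟩ := ha r X h k hX hh hk hek
  exact ⟨h2.trans (Nat.pow_le_pow_right hX1 h1), h3.trans (Nat.pow_le_pow_right hX1 h1)⟩

end Pool.Agent.Work.MP_91e6de_nt.DMR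

end

section

set_option autoImplicit false

/-!
# FinV: forms vanishing at finitely many points of a variety
-/

namespace Pool.Agent.Work.MP_91e6de_nt.DMR

open MvPolynomial

/-- A chart containing a given point. -/
theorem FinV_chart {m : ℕ} {K : Type} [Field K] (y : Fin (m + 1) → K) (hy : y ≠ 0) :
    ∃ a : Fin m → ℕ, ell a y ≠ 0 := by
  classical
  by_cases h0 : y (Fin.last m) = 0
  · obtain ⟨i, hi⟩ : ∃ i, y i ≠ 0 := by
      by_contra h
      push Not at h
      exact hy (funext h)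
    have hne : i ≠ Fin.last m := fun h => hi (h ▸ h0)
    obtain ⟨j, rfl⟩ : ∃ j : Fin m, j.castSucc = i :=
      ⟨i.castPred hne, Fin.castSucc_castPred i hne⟩
    refine ⟨Pi.single j 1, ?_⟩
    unfold ell
    rw [h0, zero_add, Finset.sum_eq_single j]
    · simpa using hi
    · intro k _ hk
      rw [Pi.single_eq_of_ne hk]
      simp
    · intro h
      exact absurd (Finset.mem_univ j) h
  · refine ⟨0, ?_⟩
    unfold ell
    simpa using h0

/-- A form vanishing at one point of `V` and not on `V`. -/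
theorem FinV_form {s m : ℕ} {K : Type} [Field K]
    (IV : Ideal (MvPolynomial (Fin (m + 1)) (MvPolynomial (Fin s) K))) (r : ℕ)
    (x : Fin s → K) (y : Fin (m + 1) → K) (hr : 1 ≤ r)
    (hd : ∀ a : Fin m → ℕ,
      (ell a fun i => (X i : MvPolynomial (Fin (m + 1)) (MvPolynomial (Fin s) K))) ∉ IV →
        Dim (chI a IV) r) (hy : y ≠ 0) (hon : ∀ G ∈ IV, ev x y G = 0) :
    ∃ (t : ℕ) (G : MvPolynomial (Fin (m + 1)) (MvPolynomial (Fin s) K)), G ∉ IV ∧
      G.IsHomogeneous t ∧ ev x y G = 0 := by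
  classical
  by_cases h1 : ∃ i : Fin s,
      (C (X i - C (x i)) : MvPolynomial (Fin (m + 1)) (MvPolynomial (Fin s) K)) ∉ IV
  · obtain ⟨i, hi⟩ := h1
    refine ⟨0, _, hi, isHomogeneous_C _ _, ?_⟩
    rw [ev_C]
    simp
  by_cases h2 : ∃ i j : Fin (m + 1), (C (C (y i)) * X j - C (C (y j)) * X i :
      MvPolynomial (Fin (m + 1)) (MvPolynomial (Fin s) K)) ∉ IV
  · obtain ⟨i, j, hij⟩ := h2
    refine ⟨1, _, hij, ?_, ?_⟩
    · have h1 := (isHomogeneous_C (Fin (m + 1)) (C (y i) : MvPolynomial (Fin s) K)).mul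
        (isHomogeneous_X (MvPolynomial (Fin s) K) j)
      have h2 := (isHomogeneous_C (Fin (m + 1)) (C (y j) : MvPolynomial (Fin s) K)).mul
        (isHomogeneous_X (MvPolynomial (Fin s) K) i)
      rw [zero_add] at h1 h2
      exact h1.sub h2
    · rw [ev_sub, ev_mul, ev_mul, ev_C, ev_C, ev_X, ev_X, aeval_C, aeval_C]
      simp only [Algebra.algebraMap_self, RingHom.id_apply]
      ring
  exfalso
  push Not at h1 h2
  obtain ⟨a, ha⟩ := FinV_chart y hy
  have hell : (ell a fun i => (X i : MvPolynomial (Fin (m + 1)) (MvPolynomial (Fin s) K)))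
      ∉ IV := by
    intro h
    apply ha
    have h3 := hon _ h
    unfold ell at h3 ⊢
    rw [ev_add, ev_sum] at h3
    simpa using h3
  have hmem : ∀ G ∈ IV, dhB a G ∈ chI a IV := fun G hG => Ideal.mem_map_of_mem _ hG
  have hl : ∀ i : Fin s, (X (Sum.inl i) - C (x i) : MvPolynomial (Fin s ⊕ Fin m) K)
      ∈ chI a IV := by
    intro i
    have h3 := hmem _ (h1 i)
    unfold dhB at h3
    rw [ev_C] at h3
    simpa using h3
  have hz : ∀ i j : Fin (m + 1), (C (y i) * hc a (fun i => X (Sum.inr i)) j -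
      C (y j) * hc a (fun i => X (Sum.inr i)) i : MvPolynomial (Fin s ⊕ Fin m) K)
      ∈ chI a IV := by
    intro i j
    have h3 := hmem _ (h2 i j)
    unfold dhB at h3
    rw [ev_sub, ev_mul, ev_mul, ev_C, ev_C, ev_X, ev_X, aeval_C, aeval_C] at h3
    exact h3
  have hr' : ∀ j : Fin m, (C (y j.castSucc) - C (ell a y) * X (Sum.inr j) :
      MvPolynomial (Fin s ⊕ Fin m) K) ∈ chI a IV := by
    intro j
    have h3 : (ell a fun k => (C (y j.castSucc) * hc a (fun i => X (Sum.inr i)) k -
        C (y k) * hc a (fun i => X (Sum.inr i)) j.castSucc :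
          MvPolynomial (Fin s ⊕ Fin m) K)) ∈ chI a IV := by
      unfold ell
      refine Ideal.add_mem _ (hz _ _) (Ideal.sum_mem _ fun k _ => Ideal.mul_mem_left _ _ (hz _ _))
    have h4 : (ell a fun k => (C (y j.castSucc) * hc a (fun i => X (Sum.inr i)) k -
        C (y k) * hc a (fun i => X (Sum.inr i)) j.castSucc :
          MvPolynomial (Fin s ⊕ Fin m) K)) = C (y j.castSucc) - C (ell a y) * X (Sum.inr j) := by
      have h5 := ell_hc (S := MvPolynomial (Fin s ⊕ Fin m) K) a (fun i => X (Sum.inr i))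
      have h6 : (hc a (fun i => (X (Sum.inr i) : MvPolynomial (Fin s ⊕ Fin m) K)))
          j.castSucc = X (Sum.inr j) := by simp [hc]
      have h7 : (ell a fun k => (C (y j.castSucc) * hc a (fun i => X (Sum.inr i)) k -
          C (y k) * hc a (fun i => X (Sum.inr i)) j.castSucc :
          MvPolynomial (Fin s ⊕ Fin m) K)) =
          C (y j.castSucc) * ell a (hc a (fun i => X (Sum.inr i))) -
          (ell a fun k => C (y k)) * hc a (fun i => X (Sum.inr i)) j.castSucc := by
        unfold ell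
        rw [mul_add, Finset.mul_sum, add_mul, Finset.sum_mul]
        have h8 : ∀ k : Fin m, ((a k : MvPolynomial (Fin s ⊕ Fin m) K) *
            (C (y j.castSucc) * hc a (fun i => X (Sum.inr i)) k.castSucc -
            C (y k.castSucc) * hc a (fun i => X (Sum.inr i)) j.castSucc)) =
            C (y j.castSucc) * ((a k : MvPolynomial (Fin s ⊕ Fin m) K) *
              hc a (fun i => X (Sum.inr i)) k.castSucc) -
            (a k : MvPolynomial (Fin s ⊕ Fin m) K) * C (y k.castSucc) *
              hc a (fun i => X (Sum.inr i)) j.castSucc := fun k => by ring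
        rw [Finset.sum_congr rfl fun k _ => h8 k, Finset.sum_sub_distrib]
        ring
      rw [h7, h5, h6, mul_one]
      congr 2
      unfold ell
      simp [map_sum]
    rwa [h4] at h3
  obtain ⟨⟨J, hJ, hI⟩, -⟩ := hd a hell
  obtain ⟨u, hu⟩ : J.Nonempty := by
    rw [← Finset.card_pos]
    omega
  have hc0 : ∀ (v : Fin s ⊕ Fin m) (c : K), coeff (Finsupp.single v 1) (C c) = 0 := by
    intro v c
    rw [coeff_C, if_neg]
    intro h
    exact one_ne_zero ((Finsupp.single_eq_zero.mp h.symm))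
  have hx1 : ∀ v : Fin s ⊕ Fin m,
      coeff (Finsupp.single v 1) (X v : MvPolynomial (Fin s ⊕ Fin m) K) = 1 := by
    intro v
    rw [coeff_X, if_pos rfl]
  rcases u with i | j
  · have h3 := hI _ (hl i) (by
      refine Finset.Subset.trans (vars_sub_subset _ ) ?_
      rw [vars_X, vars_C, Finset.union_empty]
      simpa using hu)
    have h4 := congrArg (coeff (Finsupp.single (Sum.inl i) 1)) h3
    rw [coeff_sub, hc0, hx1, coeff_zero, sub_zero] at h4
    exact one_ne_zero h4
  · have h3 := hI _ (hr' j) (by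
      refine Finset.Subset.trans (vars_sub_subset _ ) ?_
      rw [vars_C, Finset.empty_union]
      refine Finset.Subset.trans (vars_mul _ _) ?_
      rw [vars_X, vars_C, Finset.empty_union]
      simpa using hu)
    have h4 := congrArg (coeff (Finsupp.single (Sum.inr j) 1)) h3
    rw [coeff_sub, hc0, coeff_C_mul, hx1, coeff_zero, zero_sub, mul_one, neg_eq_zero] at h4
    exact ha h4

/-- finite sets of points of `V` -/
theorem pr_FinV : S_FinV := by
  intro s m K _ IV r T x y hV hr hd hy hon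
  classical
  induction T using Finset.induction_on with
  | empty =>
    refine ⟨0, 1, ?_, isHomogeneous_one _ _, by simp⟩
    intro h
    exact hV.prime.ne_top ((Ideal.eq_top_iff_one _).mpr h)
  | insert n T hn ih =>
    obtain ⟨t, G, hG, hGh, hGe⟩ := ih (fun k hk => hy k (Finset.mem_insert_of_mem hk))
      (fun k hk => hon k (Finset.mem_insert_of_mem hk))
    obtain ⟨t', G', hG', hGh', hGe'⟩ := FinV_form IV r (x n) (y n) hr hd
      (hy n (Finset.mem_insert_self _ _)) (hon n (Finset.mem_insert_self _ _))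
    refine ⟨t' + t, G' * G, ?_, hGh'.mul hGh, ?_⟩
    · intro h
      rcases hV.prime.mem_or_mem h with h | h
      · exact hG' h
      · exact hG h
    intro k hk
    rw [ev_mul]
    rcases Finset.mem_insert.mp hk with h | h
    · rw [h, hGe', zero_mul]
    · rw [hGe k h, mul_zero]

end Pool.Agent.Work.MP_91e6de_nt.DMR

end

section

set_option autoImplicit false

/-!
# All iterates are nondegenerate (MP_91e6de, DMR, item GrNd)
-/

namespace Pool.Agent.Work.MP_91e6de_nt.DMR

open MvPolynomial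

theorem GrNd_step {s m : ℕ} {K : Type} [Field K]
    (IV : Ideal (MvPolynomial (Fin (m + 1)) (MvPolynomial (Fin s) K)))
    (g : Fin s → MvPolynomial (Fin s) K)
    (F : Fin (m + 1) → MvPolynomial (Fin (m + 1)) (MvPolynomial (Fin s) K)) (e : ℕ)
    (he : 1 ≤ e) (hF : ∀ i, (F i).IsHomogeneous e) (k : ℕ)
    (hk : ∀ i, (itB g F k).2 i ∈ IV) : ∀ i, (itB g F (k + 1)).2 i ∈ IV := by
  intro i
  have h1 : (itB g F (k + 1)).2 i =
      ev (fun j => C ((itB g F k).1 j)) (itB g F k).2 (F i) := rfl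
  rw [h1, ev_eq_sum]
  apply Ideal.sum_mem
  intro u hu
  apply Ideal.mul_mem_left
  have h2 : ∑ i, u i = e := by
    have := hF i (mem_support_iff.mp hu)
    rw [← this]
    simp [Finsupp.weight_apply, Finsupp.sum_fintype]
  obtain ⟨j, -, hj⟩ : ∃ j ∈ Finset.univ, u j ≠ 0 := by
    by_contra hcon
    push Not at hcon
    have : ∑ i, u i = 0 := Finset.sum_eq_zero fun i hi => hcon i hi
    omega
  rw [← Finset.mul_prod_erase Finset.univ (fun i => (itB g F k).2 i ^ u i) (Finset.mem_univ j)]
  apply Ideal.mul_mem_right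
  exact Ideal.pow_mem_of_mem IV (hk j) _ (Nat.pos_of_ne_zero hj)

theorem GrNd_one {s m : ℕ} {K : Type} [Field K]
    (IV : Ideal (MvPolynomial (Fin (m + 1)) (MvPolynomial (Fin s) K))) (hV : VarV IV)
    (g : Fin s → MvPolynomial (Fin s) K)
    (F : Fin (m + 1) → MvPolynomial (Fin (m + 1)) (MvPolynomial (Fin s) K)) (k : ℕ)
    (hk : ∀ i, (itB g F k).2 i ∈ IV) (l : ℝ) (hl : GrV IV g F k l) : l ≤ 0 := by
  have h1 := hl 0 (fun _ => 1) ⟨0, fun h => hV.prime.ne_top ((Ideal.eq_top_iff_one IV).mpr h)⟩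
    (fun _ => isHomogeneous_one _ _) (fun i j => by
      simpa using IV.sub_mem (hk j) (hk i))
  simpa using h1

theorem pr_GrNd : S_GrNd := by
  intro s m K _ IV g F e k0 lam hV hM hlam hgr k
  by_contra hcon
  push Not at hcon
  have hpos : ∀ n : ℕ, 0 < lam ^ n := fun n => pow_pos (by linarith) n
  rcases Nat.eq_zero_or_pos e with he | he
  · -- degree zero
    have hK1 : 1 ≤ max k0 1 := le_max_right _ _
    by_cases hall : ∀ i, (itB g F (max k0 1)).2 i ∈ IV
    · have := GrNd_one IV hV g F _ hall _ (hgr (max k0 1) (le_max_left _ _))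
      have h2 := hpos (max k0 1)
      linarith
    · push Not at hall
      have h1 := hgr (max k0 1) (le_max_left _ _) (e ^ (max k0 1)) (itB g F (max k0 1)).2 hall
        (itB_homog g F e hM.hom (max k0 1)) (fun i j => by
          have : (itB g F (max k0 1)).2 i * (itB g F (max k0 1)).2 j -
            (itB g F (max k0 1)).2 j * (itB g F (max k0 1)).2 i = 0 := by ring
          rw [this]
          exact IV.zero_mem)
      rw [he, zero_pow (by omega)] at h1
      have h2 := hpos (max k0 1)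
      simp only [Nat.cast_zero] at h1
      linarith
  · have hall : ∀ k', k ≤ k' → ∀ i, (itB g F k').2 i ∈ IV := by
      intro k' hk'
      induction k', hk' using Nat.le_induction with
      | base => exact hcon
      | succ n _ ih => exact GrNd_step IV g F e he hM.hom n ih
    have := GrNd_one IV hV g F _ (hall (max k k0) (le_max_left _ _)) _
      (hgr (max k k0) (le_max_right _ _))
    have h2 := hpos (max k k0)
    linarith

end Pool.Agent.Work.MP_91e6de_nt.DMR

end
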