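import Mathlib
import Pool.Agent.Work.MP_91e6de_nt.DMR.StmtsV
import Pool.Agent.Work.MP_91e6de_nt.Bd.B10
import Pool.Agent.Work.MP_91e6de_nt.Bd.B09
import Pool.Agent.Work.MP_91e6de_nt.DMR.StmtsB
import Pool.Agent.Work.MP_91e6de_nt.DMR.BasicP

/-! Bundle of small proof modules (one section per former module). -/

section

set_option autoImplicit false

/-!
# MP_91e6de, item GrPt: `V` is not a point
-/

namespace Pool.Agent.Work.MP_91e6de_nt.DMR

open MvPolynomial

theorem GrPt_coord {σ K : Type} [Fintype σ] [Field K] (I : Ideal (MvPolynomial σ K))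
    (P : σ → K) (hI : I.IsPrime) (hd : Dim I 0) (hP : On I P) (i : σ) :
    (X i - C (P i) : MvPolynomial σ K) ∈ I := by
  classical
  have h1 : ¬ Ind I {i} := by
    intro h
    have := hd.2 {i} h
    simp at this
  unfold Ind at h1
  push Not at h1
  obtain ⟨F, hF, hv, hF0⟩ := h1
  have h2 : ∃ f : Polynomial K, F = Polynomial.aeval (X i : MvPolynomial σ K) f := by
    have h3 : F ∈ MvPolynomial.supported K (({i} : Finset σ) : Set σ) := by
      rw [MvPolynomial.mem_supported]
      exact_mod_cast hv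
    rw [Finset.coe_singleton, MvPolynomial.supported_eq_adjoin_X, Set.image_singleton,
      Algebra.adjoin_singleton_eq_range_aeval] at h3
    obtain ⟨f, hf⟩ := h3
    exact ⟨f, hf.symm⟩
  obtain ⟨f, rfl⟩ := h2
  have hf0 : f ≠ 0 := by
    rintro rfl
    exact hF0 (by simp)
  obtain ⟨g, hg, hgd⟩ := Polynomial.exists_eq_pow_rootMultiplicity_mul_and_not_dvd f hf0 (P i)
  have hgi : g.eval (P i) ≠ 0 := by
    intro h
    exact hgd (Polynomial.dvd_iff_isRoot.mpr h)
  have h4 : Polynomial.aeval (X i : MvPolynomial σ K) f =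
      (X i - C (P i)) ^ (f.rootMultiplicity (P i)) *
        Polynomial.aeval (X i : MvPolynomial σ K) g := by
    conv_lhs => rw [hg]
    rw [map_mul, map_pow, map_sub, Polynomial.aeval_X, Polynomial.aeval_C]
    rfl
  rw [h4] at hF
  have h5 : Polynomial.aeval (X i : MvPolynomial σ K) g ∉ I := by
    intro h
    have h6 := hP _ h
    apply hgi
    have h7 : aeval P (Polynomial.aeval (X i : MvPolynomial σ K) g) = g.eval (P i) := by
      rw [← Polynomial.aeval_algHom_apply, aeval_X, Polynomial.coe_aeval_eq_eval]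
    rw [← h7, h6]
  exact hI.mem_of_pow_mem _ ((hI.mem_or_mem hF).resolve_right h5)

/-- A polynomial is congruent to its value at the point. -/
theorem GrPt_val {σ K : Type} [Fintype σ] [Field K] (I : Ideal (MvPolynomial σ K))
    (P : σ → K) (hI : I.IsPrime) (hd : Dim I 0) (hP : On I P) (H : MvPolynomial σ K) :
    H - C (aeval P H) ∈ I := by
  rw [← Ideal.Quotient.eq_zero_iff_mem, map_sub, sub_eq_zero]
  have key : (Ideal.Quotient.mk I) =
      ((Ideal.Quotient.mk I).comp C).comp (aeval P : MvPolynomial σ K →ₐ[K] K).toRingHom := by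
    apply MvPolynomial.ringHom_ext
    · intro r
      simp
    · intro i
      have h1 := GrPt_coord I P hI hd hP i
      rw [← Ideal.Quotient.eq_zero_iff_mem, map_sub, sub_eq_zero] at h1
      simpa using h1
  have h2 := RingHom.congr_fun key H
  simpa using h2

theorem pr_GrPt (h1 : S_ChI) : S_GrPt := by
  classical
  intro s m K _ IV g F e k r l x y a hV hM hon hell hl hGr hdim
  by_contra hr
  have hr0 : r = 0 := by omega
  subst hr0
  have hellV : (ell a fun i => (X i : MvPolynomial (Fin (m + 1)) (MvPolynomial (Fin s) K))) ∉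
      IV := by
    intro h
    have h2 := hon _ h
    have h3 : ev x y (ell a fun i =>
        (X i : MvPolynomial (Fin (m + 1)) (MvPolynomial (Fin s) K))) = ell a y := by
      unfold ell
      rw [ev_add, ev_sum]
      simp
    rw [h3] at h2
    exact hell h2
  obtain ⟨hprime, hch⟩ := h1 s m K IV a hV hellV
  -- the point lies on the zero set
  have hP : On (chI a IV) (Sum.elim x (ch a y)) := by
    intro H hH
    have hle : chI a IV ≤ RingHom.ker
        (aeval (Sum.elim x (ch a y)) : MvPolynomial (Fin s ⊕ Fin m) K →ₐ[K] K).toRingHom := by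
      unfold chI
      rw [Ideal.map_le_iff_le_comap]
      intro G hG
      rw [Ideal.mem_comap, RingHom.mem_ker]
      change aeval (Sum.elim x (ch a y)) (dhB a G) = 0
      have hsum : G = ∑ j ∈ Finset.range (G.totalDegree + 1), homogeneousComponent j G :=
        (sum_homogeneousComponent G).symm
      rw [aeval_dhB, hsum, ev_sum]
      apply Finset.sum_eq_zero
      intro j _
      rw [hc_ch a y hell, ev_smul _ _ _ j _ (homogeneousComponent_isHomogeneous j G),
        hon _ (hV.hom G hG j), mul_zero]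
    exact hle hH
  -- forms vanishing at the point are in the ideal
  have hform : ∀ (D : ℕ) (G : MvPolynomial (Fin (m + 1)) (MvPolynomial (Fin s) K)),
      G.IsHomogeneous D → ev x y G = 0 → G ∈ IV := by
    intro D G hG h0
    rw [← hch D G hG]
    have h2 := GrPt_val (chI a IV) (Sum.elim x (ch a y)) hprime hdim hP (dhB a G)
    have h3 : aeval (Sum.elim x (ch a y)) (dhB a G) = 0 := by
      rw [ev_eq_chart a x y hell D G hG] at h0
      exact (mul_eq_zero.mp h0).resolve_left (pow_ne_zero _ hell)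
    rw [h3, map_zero, sub_zero] at h2
    exact h2
  have hYh : ∀ i, ((itB g F k).2 i).IsHomogeneous (e ^ k) := itB_homog g F e hM.hom k
  have hCne : ∀ c : K, c ≠ 0 →
      (C (C c) : MvPolynomial (Fin (m + 1)) (MvPolynomial (Fin s) K)) ∉ IV := by
    intro c hc h
    apply hV.prime.ne_top
    apply Ideal.eq_top_of_isUnit_mem _ h
    exact ((isUnit_iff_ne_zero.mpr hc).map C).map C
  by_cases hex : ∃ i, ev x y ((itB g F k).2 i) ≠ 0
  · obtain ⟨i0, hi0⟩ := hex
    have h2 := hGr 0 (fun i => C (C (ev x y ((itB g F k).2 i)))) ⟨i0, hCne _ hi0⟩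
      (fun i => isHomogeneous_C _ _) (by
        intro i j
        apply hform (e ^ k)
        · have a1 := (isHomogeneous_C (Fin (m + 1))
            (C (ev x y ((itB g F k).2 i)) : MvPolynomial (Fin s) K)).mul (hYh j)
          have a2 := (isHomogeneous_C (Fin (m + 1))
            (C (ev x y ((itB g F k).2 j)) : MvPolynomial (Fin s) K)).mul (hYh i)
          rw [zero_add] at a1 a2
          exact a1.sub a2
        · rw [ev_sub, ev_mul, ev_mul, ev_C, ev_C, aeval_C, aeval_C]
          simp only [Algebra.algebraMap_self, RingHom.id_apply]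
          ring)
    simp at h2
    linarith
  · push Not at hex
    have hall : ∀ i, (itB g F k).2 i ∈ IV := fun i => hform _ _ (hYh i) (hex i)
    have h2 := hGr 0 (fun _ => C (C 1)) ⟨0, hCne 1 one_ne_zero⟩
      (fun i => isHomogeneous_C _ _) (by
        intro i j
        exact IV.sub_mem (IV.mul_mem_left _ (hall j)) (IV.mul_mem_left _ (hall i)))
    simp at h2
    linarith

end Pool.Agent.Work.MP_91e6de_nt.DMR

end

section

set_option autoImplicit false

/-!
# HBV: dimension and Hilbert function in all charts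
-/

namespace Pool.Agent.Work.MP_91e6de_nt.DMR

open MvPolynomial

theorem HBV_hc_deg {s m : ℕ} {K : Type} [Field K] (a : Fin m → ℕ) (i : Fin (m + 1)) :
    (hc a (fun i => (X (Sum.inr i) : MvPolynomial (Fin s ⊕ Fin m) K)) i).totalDegree ≤ 1 := by
  refine Fin.lastCases ?_ (fun j => ?_) i
  · simp only [hc, Fin.snoc_last]
    refine (totalDegree_sub _ _).trans (max_le (by simp) ?_)
    refine (totalDegree_finsetSum_le (d := 1) ?_)
    intro j _
    refine (totalDegree_mul _ _).trans ?_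
    have h1 : ((a j : MvPolynomial (Fin s ⊕ Fin m) K)).totalDegree = 0 := by
      rw [← map_natCast (C : K →+* MvPolynomial (Fin s ⊕ Fin m) K), totalDegree_C]
    rw [h1, zero_add]
    exact (totalDegree_X _).le
  · simp only [hc, Fin.snoc_castSucc]
    exact (totalDegree_X _).le

theorem HBV_ell_deg {s m : ℕ} {K : Type} [Field K] (a a' : Fin m → ℕ) :
    (ell a (hc a' (fun i => (X (Sum.inr i) : MvPolynomial (Fin s ⊕ Fin m) K)))).totalDegree
      ≤ 1 := by
  unfold ell
  refine (totalDegree_add _ _).trans (max_le (HBV_hc_deg a' _) ?_)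
  refine (totalDegree_finsetSum_le (d := 1) ?_)
  intro j _
  refine (totalDegree_mul _ _).trans ?_
  have h1 : ((a j : MvPolynomial (Fin s ⊕ Fin m) K)).totalDegree = 0 := by
    rw [← map_natCast (C : K →+* MvPolynomial (Fin s ⊕ Fin m) K), totalDegree_C]
  rw [h1, zero_add]
  exact HBV_hc_deg a' _

/-- Homogenisation with a bound for the degree in all other charts. -/
theorem HBV_hz {s m : ℕ} {K : Type} [Field K] (a : Fin m → ℕ) (D : ℕ)
    (H : MvPolynomial (Fin s ⊕ Fin m) K) (hH : H.totalDegree ≤ D) :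
    ∃ G : MvPolynomial (Fin (m + 1)) (MvPolynomial (Fin s) K), G.IsHomogeneous D ∧
      dhB a G = H ∧ ∀ a' : Fin m → ℕ, (dhB a' G).totalDegree ≤ 2 * D := by
  classical
  have hs : ∀ u ∈ H.support, ∑ i : Fin s, u (Sum.inl i) + ∑ j : Fin m, u (Sum.inr j) ≤ D := by
    intro u hu
    refine le_trans ?_ ((le_totalDegree hu).trans hH)
    rw [Finsupp.sum_fintype _ _ (fun _ => rfl), Fintype.sum_sum_type]
  refine ⟨∑ u ∈ H.support, C (C (coeff u H) * ∏ i : Fin s, X i ^ u (Sum.inl i)) *
    (∏ j : Fin m, X j.castSucc ^ u (Sum.inr j)) *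
      ell a X ^ (D - ∑ j : Fin m, u (Sum.inr j)), ?_, ?_, ?_⟩
  · refine IsHomogeneous.sum _ _ _ fun u hu => ?_
    have h1 := isHomogeneous_C (Fin (m + 1)) (C (coeff u H) * ∏ i : Fin s,
      (X i : MvPolynomial (Fin s) K) ^ u (Sum.inl i))
    have h2 : (∏ j : Fin m, (X j.castSucc : MvPolynomial (Fin (m + 1)) (MvPolynomial (Fin s) K))
        ^ u (Sum.inr j)).IsHomogeneous (∑ j : Fin m, u (Sum.inr j)) := by
      refine IsHomogeneous.prod _ _ _ fun j _ => ?_
      have h3 := (isHomogeneous_X (MvPolynomial (Fin s) K) j.castSucc).pow (u (Sum.inr j))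
      rwa [one_mul] at h3
    have h4 := (Hz_ell_homog (s := s) (A := K) a).pow (D - ∑ j : Fin m, u (Sum.inr j))
    have h5 := (h1.mul h2).mul h4
    have h6 : 0 + ∑ j : Fin m, u (Sum.inr j) + 1 * (D - ∑ j : Fin m, u (Sum.inr j)) = D := by
      have := hs u hu
      omega
    rwa [h6] at h5
  · unfold dhB
    rw [ev_sum]
    conv_rhs => rw [← Hz_sum H]
    apply Finset.sum_congr rfl
    intro u _
    rw [ev_mul, ev_mul, ev_pow, Hz_ev_ell, ell_hc, one_pow, mul_one, ev_C, ev_prod]
    congr 1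
    · simp
    · apply Finset.prod_congr rfl
      intro j _
      rw [ev_pow, ev_X]
      simp [hc]
  · intro a'
    unfold dhB
    rw [ev_sum]
    refine totalDegree_finsetSum_le ?_
    intro u hu
    rw [ev_mul, ev_mul, ev_pow, Hz_ev_ell, ev_C, ev_prod]
    have h1 : (aeval (fun i => (X (Sum.inl i) : MvPolynomial (Fin s ⊕ Fin m) K))
        (C (coeff u H) * ∏ i : Fin s, X i ^ u (Sum.inl i))).totalDegree ≤
        ∑ i : Fin s, u (Sum.inl i) := by
      simp only [map_mul, map_prod, map_pow, aeval_X, aeval_C, MvPolynomial.algebraMap_eq]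
      refine (totalDegree_mul _ _).trans ?_
      rw [totalDegree_C, zero_add]
      refine (totalDegree_finsetProd _ _).trans (Finset.sum_le_sum fun i _ => ?_)
      refine (totalDegree_pow _ _).trans ?_
      rw [totalDegree_X, mul_one]
    have h2 : (∏ j : Fin m, ev (A := K)
        (fun i => (X (Sum.inl i) : MvPolynomial (Fin s ⊕ Fin m) K))
        (hc a' fun i => X (Sum.inr i))
        (X j.castSucc ^ u (Sum.inr j))).totalDegree ≤ ∑ j : Fin m, u (Sum.inr j) := by
      refine (totalDegree_finsetProd _ _).trans (Finset.sum_le_sum fun j _ => ?_)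
      rw [ev_pow, ev_X]
      refine (totalDegree_pow _ _).trans ?_
      have := HBV_hc_deg (s := s) (K := K) a' j.castSucc
      calc _ ≤ u (Sum.inr j) * 1 := Nat.mul_le_mul_left _ this
        _ = _ := mul_one _
    have h3 : (ell a (hc a' (fun i => (X (Sum.inr i) : MvPolynomial (Fin s ⊕ Fin m) K))) ^
        (D - ∑ j : Fin m, u (Sum.inr j))).totalDegree ≤ D - ∑ j : Fin m, u (Sum.inr j) := by
      refine (totalDegree_pow _ _).trans ?_
      have := HBV_ell_deg (s := s) (K := K) a a'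
      calc _ ≤ (D - ∑ j : Fin m, u (Sum.inr j)) * 1 := Nat.mul_le_mul_left _ this
        _ = _ := mul_one _
    have h4 := hs u hu
    refine (totalDegree_mul _ _).trans ?_
    refine (Nat.add_le_add ((totalDegree_mul _ _).trans (Nat.add_le_add h1 h2)) h3).trans ?_
    omega

theorem HBV_smul {s m : ℕ} {K : Type} [Field K] (a : Fin m → ℕ) {ι : Type} [Fintype ι]
    (c : ι → K) (G : ι → MvPolynomial (Fin (m + 1)) (MvPolynomial (Fin s) K)) :
    dhB a (∑ j, C (C (c j)) * G j) = ∑ j, c j • dhB a (G j) := by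
  unfold dhB
  rw [ev_sum]
  refine Finset.sum_congr rfl fun j _ => ?_
  rw [ev_mul, ev_C, aeval_C, Algebra.smul_def]

/-- The Hilbert functions in two charts. -/
theorem HBV_two (h1 : S_ChI) {s m : ℕ} {K : Type} [Field K]
    (IV : Ideal (MvPolynomial (Fin (m + 1)) (MvPolynomial (Fin s) K))) (hV : VarV IV)
    (a a' : Fin m → ℕ)
    (ha : (ell a fun i => (X i : MvPolynomial (Fin (m + 1)) (MvPolynomial (Fin s) K))) ∉ IV)
    (ha' : (ell a' fun i => (X i : MvPolynomial (Fin (m + 1)) (MvPolynomial (Fin s) K))) ∉ IV)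
    (D : ℕ) : HF (chI a IV) D ≤ HF (chI a' IV) (2 * D) := by
  obtain ⟨f, hf1, hf2, _⟩ := exists_basis (chI a IV) D
  choose G hG1 hG2 hG3 using fun j => HBV_hz a D (f j) (hf1 j)
  have h := card_le_HF (chI a' IV) (2 * D) (fun j => dhB a' (G j)) (fun j => hG3 j a') (by
    intro c hc
    apply hf2 c
    have hhom : (∑ j, C (C (c j)) * G j).IsHomogeneous D := by
      refine IsHomogeneous.sum _ _ _ fun j _ => ?_
      have h3 := (isHomogeneous_C (Fin (m + 1)) (C (c j) : MvPolynomial (Fin s) K)).mul (hG1 j)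
      rwa [zero_add] at h3
    rw [← HBV_smul] at hc
    have h4 := ((h1 s m K IV a' hV ha').2 D _ hhom).mp hc
    have h5 := ((h1 s m K IV a hV ha).2 D _ hhom).mpr h4
    rw [HBV_smul] at h5
    simpa only [hG2] using h5)
  simpa using h

theorem HBV_exp (r r' c : ℕ) (h : ∀ D : ℕ, 1 ≤ D → D ^ r' ≤ c * D ^ r) : r' ≤ r := by
  by_contra hlt
  push Not at hlt
  obtain ⟨k, rfl⟩ := Nat.exists_eq_add_of_lt hlt
  have h1 := h (c + 1) (Nat.le_add_left 1 c)
  have h2 : (c + 1) ^ (r + k + 1) = (c + 1) ^ k * (c + 1) * (c + 1) ^ r := by ring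
  rw [h2] at h1
  have h3 := Nat.le_of_mul_le_mul_right h1 (Nat.pow_pos (Nat.succ_pos c))
  have h4 : 1 ≤ (c + 1) ^ k := Nat.one_le_pow _ _ (Nat.succ_pos c)
  nlinarith

/-- There is a chart. -/
theorem HBV_chart {s m : ℕ} {K : Type} [Field K]
    (IV : Ideal (MvPolynomial (Fin (m + 1)) (MvPolynomial (Fin s) K))) (hV : VarV IV) :
    ∃ a : Fin m → ℕ,
      (ell a fun i => (X i : MvPolynomial (Fin (m + 1)) (MvPolynomial (Fin s) K))) ∉ IV := by
  classical
  by_cases hl : (X (Fin.last m) : MvPolynomial (Fin (m + 1)) (MvPolynomial (Fin s) K)) ∈ IV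
  · obtain ⟨i, hi⟩ := hV.ne
    revert hi
    refine Fin.lastCases (fun hi => absurd hl hi) (fun j hi => ?_) i
    refine ⟨Pi.single j 1, fun hm => hi ?_⟩
    unfold ell at hm
    rw [Ideal.add_mem_iff_right _ hl, Finset.sum_eq_single j] at hm
    · simpa using hm
    · intro b _ hb
      simp [Pi.single_eq_of_ne hb]
    · intro h
      exact absurd (Finset.mem_univ j) h
  · refine ⟨0, fun hm => hl ?_⟩
    simpa [ell] using hm

/-- dimension and Hilbert function in all charts -/
theorem pr_HBV (h1 : S_ChI) (h2 : S_ExHB) (h3 : S_HFlow) (_h4 : S_Hz) : S_HBV := by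
  intro s m K _ IV hV
  obtain ⟨a0, ha0⟩ := HBV_chart IV hV
  have hp0 := (h1 s m K IV a0 hV ha0).1
  obtain ⟨r, hr⟩ := exists_Dim (chI a0 IV) hp0.ne_top
  obtain ⟨B0, hB0, hHB0⟩ := h2 _ K (chI a0 IV) r hp0 hr
  have hpos : 1 ≤ B0 * 2 ^ r := Nat.mul_pos hB0 (Nat.pow_pos (by norm_num))
  refine ⟨r, B0 * 2 ^ r, hpos, fun a ha => ?_⟩
  have hHB : HB (chI a IV) (B0 * 2 ^ r) r := by
    intro D hD
    calc HF (chI a IV) D ≤ HF (chI a0 IV) (2 * D) := HBV_two h1 IV hV a a0 ha ha0 D
      _ ≤ B0 * (2 * D) ^ r := hHB0 (2 * D) (by omega)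
      _ = B0 * 2 ^ r * D ^ r := by rw [mul_pow, mul_assoc]
  have hp := (h1 s m K IV a hV ha).1
  obtain ⟨r', hr'⟩ := exists_Dim (chI a IV) hp.ne_top
  obtain ⟨B', hB', hHB'⟩ := h2 _ K (chI a IV) r' hp hr'
  have h5 : r' ≤ r := HBV_exp r r' (r'.factorial * (B0 * 2 ^ r)) fun D hD => by
    calc D ^ r' ≤ r'.factorial * HF (chI a IV) D := Num_low h3 _ r' D hr'
      _ ≤ r'.factorial * (B0 * 2 ^ r * D ^ r) := Nat.mul_le_mul_left _ (hHB D hD)
      _ = _ := by ring
  have h6 : r ≤ r' := HBV_exp r' r (r.factorial * (B' * 2 ^ r')) fun D hD => by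
    calc D ^ r ≤ r.factorial * HF (chI a0 IV) D := Num_low h3 _ r D hr
      _ ≤ r.factorial * HF (chI a IV) (2 * D) :=
        Nat.mul_le_mul_left _ (HBV_two h1 IV hV a0 a ha0 ha D)
      _ ≤ r.factorial * (B' * (2 * D) ^ r') := Nat.mul_le_mul_left _ (hHB' (2 * D) (by omega))
      _ = _ := by rw [mul_pow]; ring
  rw [le_antisymm h6 h5]
  exact ⟨hr', le_antisymm h5 h6 ▸ le_antisymm h6 h5 ▸ hHB⟩

end Pool.Agent.Work.MP_91e6de_nt.DMR

end

section

set_option autoImplicit false

namespace Pool.Agent.Work.MP_91e6de_nt.DMR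

open MvPolynomial NumberField Height

theorem pr_HLm (h1 : S_HUm) : S_HLm := by
  intro s m K _ _ d t F ρ H hH hid
  obtain ⟨C2, hC2, hA⟩ := h1 s m (Fin (m + 1) × Fin (m + 1)) K t (fun p => H p.1 p.2)
    (fun p => hH _ _)
  have hC1 : 0 ≤ (totalWeight K : ℝ) * Real.log (Nat.card (Fin (m + 1))) := by
    apply mul_nonneg
    · positivity
    · exact Real.log_natCast_nonneg _
  refine ⟨(totalWeight K : ℝ) * Real.log (Nat.card (Fin (m + 1))) + C2,
    by positivity, ?_⟩
  intro x y hρ
  have key : (aeval x ρ) • (y ^ (t + d)) =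
      fun i => ∑ j, (fun p : Fin (m + 1) × Fin (m + 1) => ev x y (H p.1 p.2)) (i, j) *
        (fun j => ev x y (F j)) j := by
    funext i
    have h2 := congrArg (ev x y) (hid i)
    rw [ev_mul, ev_C, ev_pow, ev_X, ev_sum] at h2
    simp only [ev_mul] at h2
    simpa [Pi.smul_apply, smul_eq_mul] using h2
  have h3 := logHeight_linearMap_apply_le
    (fun p : Fin (m + 1) × Fin (m + 1) => ev x y (H p.1 p.2)) (fun j => ev x y (F j))
  rw [← key, logHeight_smul_eq_logHeight _ hρ, logHeight_pow] at h3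
  have h4 := hA x y
  have h5 : 0 ≤ ∑ i, logHeight₁ (x i) := Finset.sum_nonneg fun i _ => by positivity
  push_cast at h3
  nlinarith [mul_nonneg hC1 h5]

end Pool.Agent.Work.MP_91e6de_nt.DMR

end

section

set_option autoImplicit false

/-!
# The determinant method along orbits in all dimensions (MP_91e6de): item HUm
-/

namespace Pool.Agent.Work.MP_91e6de_nt.DMR

open MvPolynomial NumberField IsDedekindDomain Height

section heights

variable {K : Type} [Field K] [AdmissibleAbsValues K]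

/-- the height of a tuple is at most the sum of the heights of the entries -/
theorem HUm_sum {ι : Type} [Fintype ι] (x : ι → K) :
    logHeight x ≤ ∑ i, logHeight₁ (x i) := by
  classical
  have hne : ∀ i, (![x i, 1] : Fin 2 → K) ≠ 0 := by
    intro i h
    have := congrFun h 1
    simp at this
  have h1 := logHeight_fun_prod_eq (α := ι) (ι := fun _ => Fin 2)
    (x := fun i => ![x i, 1]) hne
  have h2 : ∑ i, logHeight₁ (x i) = ∑ i, logHeight (![x i, 1] : Fin 2 → K) :=
    Finset.sum_congr rfl fun i _ => logHeight₁_eq_logHeight _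
  rw [h2, ← h1]
  refine le_trans (le_of_eq ?_) (logHeight_comp_le
    (fun (i : ι) (a : ι) => if a = i then (0 : Fin 2) else 1) _)
  congr 1
  funext i
  simp only [Function.comp_apply]
  rw [Finset.prod_eq_single i]
  · simp
  · intro b _ hb
    rw [if_neg hb]
    rfl
  · intro h
    exact absurd (Finset.mem_univ i) h

end heights

theorem pr_HUm (h1 : Pool.Agent.Work.MP_91e6de_nt.DM.S_PoH) : S_HUm := by
  classical
  intro s m ι K _ _ _ d F hF
  set T : Finset (Fin (m + 1) →₀ ℕ) := Finset.univ.biUnion fun i => (F i).support with hT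
  have hTd : ∀ u ∈ T, ∑ j, u j = d := by
    intro u hu
    rw [hT, Finset.mem_biUnion] at hu
    obtain ⟨i, _, hi⟩ := hu
    have h2 := hF i (mem_support_iff.1 hi)
    rw [Finsupp.weight_apply, Finsupp.sum_fintype _ _ (by simp)] at h2
    simpa using h2
  choose Cc hCc0 hCc using fun q : ι × T => h1 K (Fin s) ((F q.1).coeff q.2)
  have hev : ∀ (x : Fin s → K) (y : Fin (m + 1) → K), (fun i => ev x y (F i)) =
      fun i => ∑ u : T, (fun q : ι × T => aeval x ((F q.1).coeff q.2)) (i, u) *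
        (fun u : T => ∏ j, y j ^ (u : Fin (m + 1) →₀ ℕ) j) u := by
    intro x y
    funext i
    rw [ev_eq_sum]
    have h3 : ∑ u : T, (fun q : ι × T => aeval x ((F q.1).coeff q.2)) (i, u) *
        (fun u : T => ∏ j, y j ^ (u : Fin (m + 1) →₀ ℕ) j) u =
        ∑ u ∈ T, aeval x ((F i).coeff u) * ∏ j, y j ^ u j := by
      rw [← Finset.sum_coe_sort T (fun u => aeval x ((F i).coeff u) * ∏ j, y j ^ u j)]
    rw [h3]
    apply Finset.sum_subset
    · intro u hu
      rw [hT, Finset.mem_biUnion]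
      exact ⟨i, Finset.mem_univ i, hu⟩
    · intro u _ hu
      rw [notMem_support_iff.1 hu]
      simp
  have hp : ∀ u : T, (monomial (u : Fin (m + 1) →₀ ℕ) (1 : K)).IsHomogeneous d := by
    intro u
    apply isHomogeneous_monomial
    rw [Finsupp.degree_eq_sum]
    exact hTd u u.2
  obtain ⟨C0, hC0⟩ := logHeight_eval_le' (p := fun u : T => monomial (u : Fin (m + 1) →₀ ℕ) (1 : K))
    hp
  have hz : ∀ y : Fin (m + 1) → K, logHeight (fun u : T => ∏ j, y j ^ (u : Fin (m + 1) →₀ ℕ) j) ≤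
      |C0| + d * logHeight y := by
    intro y
    have h4 := hC0 y
    have h5 : (fun u : T => ∏ j, y j ^ (u : Fin (m + 1) →₀ ℕ) j) =
        fun j : T => (monomial (j : Fin (m + 1) →₀ ℕ) (1 : K)).eval y := by
      funext u
      rw [eval_monomial, one_mul, Finsupp.prod_fintype _ _ (by simp)]
    rw [h5]
    have := le_abs_self C0
    linarith
  have hw : 0 ≤ (totalWeight K : ℝ) * Real.log (Nat.card T) :=
    mul_nonneg (Nat.cast_nonneg _) (Real.log_natCast_nonneg _)
  have hCs : 0 ≤ ∑ q, Cc q := Finset.sum_nonneg fun q _ => hCc0 q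
  refine ⟨totalWeight K * Real.log (Nat.card T) + |C0| + ∑ q, Cc q, by positivity, ?_⟩
  intro x y
  rw [hev x y]
  have h6 := logHeight_linearMap_apply_le (fun q : ι × T => aeval x ((F q.1).coeff q.2))
    (fun u : T => ∏ j, y j ^ (u : Fin (m + 1) →₀ ℕ) j)
  refine h6.trans ?_
  have h7 := HUm_sum (fun q : ι × T => aeval x ((F q.1).coeff q.2))
  have h8 : ∑ q : ι × T, logHeight₁ (aeval x ((F q.1).coeff q.2)) ≤
      (∑ q, Cc q) * (1 + ∑ i, logHeight₁ (x i)) := by
    rw [Finset.sum_mul]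
    exact Finset.sum_le_sum fun q _ => hCc q x
  have h9 := hz y
  have h10 : 0 ≤ ∑ i, logHeight₁ (x i) := Finset.sum_nonneg fun i _ => zero_le_logHeight₁ _
  have h11 : 0 ≤ |C0| := abs_nonneg _
  nlinarith

end Pool.Agent.Work.MP_91e6de_nt.DMR

end

section

set_option autoImplicit false

/-!
# Item HXP: heights of the values of a polynomial at integers
-/

namespace Pool.Agent.Work.MP_91e6de_nt.DMR

open MvPolynomial NumberField IsDedekindDomain Height

theorem HXP_upper {K : Type} [Field K] [NumberField K] (n : ℕ) :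
    logHeight₁ (n : K) ≤ totalWeight K * Real.log n := by
  have h := logHeight₁_sum_le (K := K) (Finset.range n) (fun _ => (1 : K))
  simpa using h

theorem pr_HXP (h1 : Pool.Agent.Work.MP_91e6de_nt.DM.S_PoH) : S_HXP := by
  intro K _ _ ξ
  obtain ⟨C, hC, hC'⟩ := h1 K Unit (Polynomial.aeval (X () : MvPolynomial Unit K) ξ)
  have hl2 : 0 < Real.log 2 := Real.log_pos (by norm_num)
  have hk0 : (0 : ℝ) ≤ totalWeight K := Nat.cast_nonneg _
  refine ⟨C * (1 / Real.log 2 + totalWeight K), by positivity, fun n => ?_⟩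
  have h2 := hC' (fun _ => (n : K))
  have h3 : aeval (fun _ : Unit => (n : K)) (Polynomial.aeval (X () : MvPolynomial Unit K) ξ) =
      ξ.eval (n : K) := by
    rw [← Polynomial.aeval_algHom_apply, aeval_X, Polynomial.coe_aeval_eq_eval]
  rw [h3] at h2
  have hn2 : Real.log 2 ≤ Real.log (n + 2) := by
    apply Real.log_le_log (by norm_num)
    have : (0 : ℝ) ≤ n := Nat.cast_nonneg n
    linarith
  have hn1 : Real.log n ≤ Real.log (n + 2) := by
    rcases Nat.eq_zero_or_pos n with h | h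
    · subst h
      simp only [Nat.cast_zero, Real.log_zero, zero_add]
      exact hl2.le
    · apply Real.log_le_log (by exact_mod_cast h)
      linarith
  have h4 : (1 : ℝ) ≤ 1 / Real.log 2 * Real.log (n + 2) := by
    rw [one_div, inv_mul_eq_div, le_div_iff₀ hl2]
    linarith
  have h5 : logHeight₁ (n : K) ≤ totalWeight K * Real.log (n + 2) :=
    (HXP_upper n).trans (mul_le_mul_of_nonneg_left hn1 hk0)
  have h6 : ∑ _i : Unit, logHeight₁ (n : K) = logHeight₁ (n : K) := by simp
  rw [h6] at h2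
  refine h2.trans ?_
  rw [mul_assoc, add_mul]
  exact mul_le_mul_of_nonneg_left (add_le_add h4 h5) hC

end Pool.Agent.Work.MP_91e6de_nt.DMR

end

section

set_option autoImplicit false

namespace Pool.Agent.Work.MP_91e6de_nt.DMR

open MvPolynomial NumberField IsDedekindDomain Height Filter Topology

theorem pr_HtA : S_HtA := by
  intro s K _ _ x
  have hx : ∀ a : Fin s, (![x a, 1] : Fin 2 → K) ≠ 0 := fun a h => by
    have := congrFun h 1
    simp at this
  have h := logHeight_fun_prod_eq (K := K) (x := fun a : Fin s => (![x a, 1] : Fin 2 → K)) hx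
  have hf : (Fin.cons 1 x : Fin (s + 1) → K) =
      (fun I : Fin s → Fin 2 => ∏ a, (![x a, 1] : Fin 2 → K) (I a)) ∘
        (Fin.cons (fun _ => 1) (fun i => Function.update (fun _ => 1) i 0) :
          Fin (s + 1) → (Fin s → Fin 2)) := by
    funext i
    refine Fin.cases ?_ (fun i => ?_) i
    · simp
    · simp only [Fin.cons_succ, Function.comp_apply]
      rw [Finset.prod_eq_single i]
      · simp
      · intro b _ hb
        simp [Function.update_of_ne hb]
      · simp
  rw [hf]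
  refine (logHeight_comp_le _ _).trans ?_
  rw [h]
  exact (Finset.sum_congr rfl fun a _ => (logHeight₁_eq_logHeight (x a)).symm).le

end Pool.Agent.Work.MP_91e6de_nt.DMR

end

section

set_option autoImplicit false

/-!
# IntV: uniform integrality
-/

namespace Pool.Agent.Work.MP_91e6de_nt.DMR

open MvPolynomial NumberField

theorem pr_IntV : S_IntV := by
  intro s m l K _ _ g Φ
  have h0 : ∀ b : K, ∃ d : 𝓞 K, d ≠ 0 ∧ ∃ a : 𝓞 K,
      Algebra.ofId (𝓞 K) K a = algebraMap (𝓞 K) K d * b := by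
    intro b
    obtain ⟨x, y, hy, hxy⟩ := IsFractionRing.div_surjective (A := 𝓞 K) b
    have hy0 : y ≠ 0 := nonZeroDivisors.ne_zero hy
    have hy1 : algebraMap (𝓞 K) K y ≠ 0 := by
      intro h
      exact hy0 (FaithfulSMul.algebraMap_injective (𝓞 K) K (by rw [h, map_zero]))
    refine ⟨y, hy0, x, ?_⟩
    rw [← hxy]
    show algebraMap (𝓞 K) K x = _
    field_simp
  have hs1 := IntB_step (σ := Fin s) (Algebra.ofId (𝓞 K) K) h0
  have hs2 := IntB_step (σ := Fin (m + 1)) (mapAlgHom (σ := Fin s) (Algebra.ofId (𝓞 K) K)) hs1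
  obtain ⟨c1, hc1, g', hg'⟩ := IntB_fam _ hs1 g
  obtain ⟨c2, hc2, Φ', hΦ'⟩ := IntB_fam _ hs2
    (fun ji : Fin (l + 1) × Fin (m + 1) => Φ ji.1 ji.2)
  have hg : ∀ i, map (algebraMap (𝓞 K) K) (g' i) = C (algebraMap (𝓞 K) K c1) * g i := hg'
  have hΦ : ∀ ji : Fin (l + 1) × Fin (m + 1), map (map (algebraMap (𝓞 K) K)) (Φ' ji) =
      C (C (algebraMap (𝓞 K) K c2)) * Φ ji.1 ji.2 := hΦ'
  have hinj := FaithfulSMul.algebraMap_injective (𝓞 K) K
  refine ⟨algebraMap (𝓞 K) K c1 * algebraMap (𝓞 K) K c2, ?_, ?_⟩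
  · refine mul_ne_zero ?_ ?_
    · intro h
      exact hc1 (hinj (by rw [h, map_zero]))
    · intro h
      exact hc2 (hinj (by rw [h, map_zero]))
  intro a b
  obtain ⟨F', hF'⟩ : ∃ F' : Fin (m + 1) → MvPolynomial (Fin (m + 1)) (MvPolynomial (Fin s) (𝓞 K)),
      F' = fun i => ell b fun j => Φ' (j, i) := ⟨_, rfl⟩
  have hF : ∀ i, map (map (algebraMap (𝓞 K) K)) (F' i) =
      C (C (algebraMap (𝓞 K) K c2)) * cmb Φ b i := by
    intro i
    rw [hF']
    show map (map (algebraMap (𝓞 K) K)) (ell b fun j => Φ' (j, i)) = _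
    rw [IntB_ell]
    unfold cmb
    rw [← ell_smul]
    congr 1
    funext j
    exact hΦ (j, i)
  have hq : map (algebraMap (𝓞 K) K) (qB a F') =
      C (algebraMap (𝓞 K) K c2) * qB a (cmb Φ b) := by
    rw [IntB_qB, ← IntB_qB_C]
    congr 1
    funext i
    exact hF i
  refine ⟨Sum.elim (fun i => rename Sum.inl (g' i) * qB a F')
    (fun i => C c1 * dhB a (F' i.castSucc)), C c1 * qB a F', ?_, ?_⟩
  · rintro (i | i)
    · show map (algebraMap (𝓞 K) K) (rename Sum.inl (g' i) * qB a F') =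
        C (algebraMap (𝓞 K) K c1 * algebraMap (𝓞 K) K c2) *
          (rename Sum.inl (g i) * qB a (cmb Φ b))
      rw [map_mul, hq, map_rename, hg, map_mul, rename_C, C_mul]
      ring
    · show map (algebraMap (𝓞 K) K) (C c1 * dhB a (F' i.castSucc)) =
        C (algebraMap (𝓞 K) K c1 * algebraMap (𝓞 K) K c2) * dhB a (cmb Φ b i.castSucc)
      rw [map_mul, map_C, IntB_dhB, hF, IntB_dhB_C, C_mul]
      ring
  · rw [map_mul, map_C, hq, C_mul]
    ring

end Pool.Agent.Work.MP_91e6de_nt.DMR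

end

section

set_option autoImplicit false

/-!
# Iterates in the chart modulo the ideal of `V` (MP_91e6de, DMR, item ItrV)
-/

namespace Pool.Agent.Work.MP_91e6de_nt.DMR

open MvPolynomial

/-- the orbit of a point -/
noncomputable def ItrV_seq {s m : ℕ} {K L : Type} [Field K] [Field L] [Algebra K L]
    (g : Fin s → MvPolynomial (Fin s) K)
    (F Φ : Fin (m + 1) → MvPolynomial (Fin (m + 1)) (MvPolynomial (Fin s) K))
    (x0 : Fin s → L) (y0 : Fin (m + 1) → L) :
    ℕ → (Fin s → L) × (Fin (m + 1) → L) × (Fin (m + 1) → L)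
  | 0 => (x0, y0, y0)
  | n + 1 => (fun i => aeval (ItrV_seq g F Φ x0 y0 n).1 (g i),
      fun i => ev (ItrV_seq g F Φ x0 y0 n).1 (ItrV_seq g F Φ x0 y0 n).2.1 (F i),
      fun i => ev (ItrV_seq g F Φ x0 y0 n).1 (ItrV_seq g F Φ x0 y0 n).2.2 (Φ i))

theorem ItrV_main (h1 : S_IteG) (h2 : S_CoOB) (s m : ℕ) (K L : Type) [Field K] [Field L]
    [Algebra K L]
    (IV : Ideal (MvPolynomial (Fin (m + 1)) (MvPolynomial (Fin s) K)))
    (g : Fin s → MvPolynomial (Fin s) K)
    (F Φ : Fin (m + 1) → MvPolynomial (Fin (m + 1)) (MvPolynomial (Fin s) K)) (e e' E k : ℕ)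
    (a : Fin m → ℕ) (hMap : MapV IV g F e) (hRep : RepV IV F Φ e')
    (hp : ∀ i, (pB a g Φ i).totalDegree ≤ E) (hq : (qB a Φ).totalDegree ≤ E)
    (ι : MvPolynomial (Fin s ⊕ Fin m) K →ₐ[K] L)
    (hIV : ∀ G ∈ IV, ι (dhB a G) = 0)
    (hne : ∀ l ≤ k, ∃ i, ι (dhB a ((itB g F l).2 i)) ≠ 0)
    (hW : ∀ l ≤ k, ι (itr E (pB a g Φ) (qB a Φ) l).2 ≠ 0) :
    ι (ell a fun i => dhB a ((itB g F k).2 i)) ≠ 0 ∧
    ∀ i : Fin m, ι ((itr E (pB a g Φ) (qB a Φ) k).1 (Sum.inr i)) *
        ι (ell a fun i => dhB a ((itB g F k).2 i)) =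
      ι (itr E (pB a g Φ) (qB a Φ) k).2 * ι (dhB a ((itB g F k).2 i.castSucc)) := by
  let R := MvPolynomial (Fin s ⊕ Fin m) K
  let x0 : Fin s → L := fun i => ι (X (Sum.inl i))
  let z0 : Fin m → L := fun i => ι (X (Sum.inr i))
  let x : ℕ → Fin s → L := fun n => (ItrV_seq g F Φ x0 (hc a z0) n).1
  let w : ℕ → Fin (m + 1) → L := fun n => (ItrV_seq g F Φ x0 (hc a z0) n).2.1
  let y : ℕ → Fin (m + 1) → L := fun n => (ItrV_seq g F Φ x0 (hc a z0) n).2.2
  have hx : ∀ n i, x (n + 1) i = aeval (x n) (g i) := fun n i => rfl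
  have hw : ∀ n i, w (n + 1) i = ev (x n) (w n) (F i) := fun n i => rfl
  have hy : ∀ n i, y (n + 1) i = ev (x n) (y n) (Φ i) := fun n i => rfl
  have hx0 : x 0 = x0 := rfl
  have hw0 : w 0 = hc a z0 := rfl
  have hy0 : y 0 = hc a z0 := rfl
  let P : ℕ → (Fin s ⊕ Fin m) → L := fun n => Sum.elim (x n) (ch a (y n))
  have hz0 : ch a (y 0) = z0 := by
    funext i
    simp only [ch, hy0, ell_hc, div_one]
    simp [hc]
  have hgen : ∀ G : R, aeval (Sum.elim x0 z0) G = ι G := by
    intro G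
    have h3 : (aeval (Sum.elim x0 z0) : R →ₐ[K] L) = ι := by
      apply MvPolynomial.algHom_ext
      rintro (i | i) <;> simp [x0, z0]
    rw [h3]
  have hP0 : P 0 = Sum.elim x0 z0 := by
    show Sum.elim (x 0) (ch a (y 0)) = _
    rw [hz0, hx0]
  -- the ideal vanishes along the true orbit
  have hvan : ∀ n, ∀ G ∈ IV, ev (x n) (w n) G = 0 := by
    intro n
    induction n with
    | zero =>
      intro G hG
      rw [hx0, hw0, ← aeval_dhB, hgen]
      exact hIV G hG
    | succ n ih =>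
      intro G hG
      have h3 := ih _ (hMap.inv G hG)
      rw [ev_comp] at h3
      exact h3
  have hwk : ∀ n j, w n j = ι (dhB a ((itB g F n).2 j)) := by
    intro n j
    rw [(orb_itB g F x w hx hw n).2 j, ← hgen, aeval_dhB, hx0, hw0]
  have hwne : ∀ n ≤ k, ∃ i, w n i ≠ 0 := by
    intro n hn
    obtain ⟨i, hi⟩ := hne n hn
    exact ⟨i, by rw [hwk]; exact hi⟩
  have horb : ∀ M : ℕ, (∀ n ≤ M, ell a (y n) ≠ 0) → IsOrb (pB a g Φ) (qB a Φ) M P :=
    fun M hM => h2 s m M e' K L g Φ a x y hRep.1 (fun n _ i => hx n i) (fun n _ i => hy n i) hM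
  have hite : ∀ M : ℕ, (∀ n ≤ M, ell a (y n) ≠ 0) →
      ∀ i, ι ((itr E (pB a g Φ) (qB a Φ) M).1 i) =
        ι ((itr E (pB a g Φ) (qB a Φ) M).2) * P M i := by
    intro M hM i
    have h4 := (h1 (Fin s ⊕ Fin m) K L E (pB a g Φ) (qB a Φ) hp hq M P (horb M hM) 0 M
      (by omega)).2.1 i
    rw [hP0, hgen, hgen, Nat.zero_add] at h4
    exact h4
  have hqP : ∀ n, ell a (y n) ≠ 0 →
      aeval (P n) (qB a Φ) = ((ell a (y n))⁻¹) ^ e' * ell a (y (n + 1)) := by
    intro n hn
    show aeval (Sum.elim (x n) (ch a (y n))) (qB a Φ) = _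
    rw [aeval_qB, hc_ch a _ hn]
    have h5 : (fun i => ev (x n) (fun i => (ell a (y n))⁻¹ * y n i) (Φ i)) =
        fun i => ((ell a (y n))⁻¹) ^ e' * y (n + 1) i := by
      funext i
      rw [ev_smul _ _ _ _ _ (hRep.1 i)]
      rfl
    rw [h5, ell_smul]
  have hell : ∀ n ≤ k, ell a (y n) ≠ 0 ∧ ∃ c : L, c ≠ 0 ∧ y n = fun i => c * w n i := by
    intro n
    induction n using Nat.strong_induction_on with
    | _ n ih =>
      intro hn
      rcases n with _ | n
      · refine ⟨by rw [hy0, ell_hc]; exact one_ne_zero, 1, one_ne_zero, ?_⟩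
        rw [hy0, hw0]
        funext i
        rw [one_mul]
      · have hM : ∀ l ≤ n, ell a (y l) ≠ 0 := fun l hl => (ih l (by omega) (by omega)).1
        obtain ⟨c, hc0, hc⟩ := (ih n (by omega) (by omega)).2
        have h6 : ι ((itr E (pB a g Φ) (qB a Φ) (n + 1)).2) ≠ 0 := hW (n + 1) hn
        have h7 : ι ((itr E (pB a g Φ) (qB a Φ) (n + 1)).2) =
            ι ((itr E (pB a g Φ) (qB a Φ) n).2) ^ E * aeval (P n) (qB a Φ) := by
          have hWn : ι ((itr E (pB a g Φ) (qB a Φ) n).2) ≠ 0 := hW n (by omega)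
          have h8 : (itr E (pB a g Φ) (qB a Φ) (n + 1)).2 = hsub E (qB a Φ)
              (itr E (pB a g Φ) (qB a Φ) n).1 (itr E (pB a g Φ) (qB a Φ) n).2 := rfl
          have h9 : (fun i => ι ((itr E (pB a g Φ) (qB a Φ) n).1 i) /
              ι ((itr E (pB a g Φ) (qB a Φ) n).2)) = P n := by
            funext i
            rw [hite n hM i]
            exact mul_div_cancel_left₀ _ hWn
          rw [h8, map_hsub, hsub_eval E (qB a Φ) hq _ _ hWn, h9]
        rw [h7, hqP n (hM n le_rfl)] at h6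
        have hellS : ell a (y (n + 1)) ≠ 0 := by
          intro h0
          rw [h0] at h6
          simp at h6
        refine ⟨hellS, ?_⟩
        obtain ⟨j, hj⟩ := hwne (n + 1) hn
        have hrel : ∀ i, ev (x n) (w n) (Φ i) * w (n + 1) j =
            ev (x n) (w n) (Φ j) * w (n + 1) i := by
          intro i
          have h10 := hvan n _ (hRep.2 i j)
          rw [ev_sub, ev_mul, ev_mul, ← hw, ← hw, sub_eq_zero] at h10
          exact h10
        have hyS : ∀ i, y (n + 1) i =
            (c ^ e' * (ev (x n) (w n) (Φ j) / w (n + 1) j)) * w (n + 1) i := by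
          intro i
          rw [hy, hc, ev_smul _ _ _ _ _ (hRep.1 i), mul_assoc]
          congr 1
          rw [div_mul_eq_mul_div, ← hrel i, mul_div_assoc, div_self hj, mul_one]
        refine ⟨c ^ e' * (ev (x n) (w n) (Φ j) / w (n + 1) j), ?_, funext hyS⟩
        intro h0
        apply hellS
        have h11 : y (n + 1) = fun i => 0 * w (n + 1) i := by
          funext i
          rw [hyS i, h0]
        rw [h11, ell_smul, zero_mul]
  obtain ⟨hk, c, hc0, hc⟩ := hell k le_rfl
  have hell' : ell a (y k) = c * ell a (w k) := by rw [hc, ell_smul]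
  have hwell : ell a (w k) ≠ 0 := by
    intro h0
    apply hk
    rw [hell', h0, mul_zero]
  have hellk : ell a (w k) = ι (ell a fun i => dhB a ((itB g F k).2 i)) := by
    rw [map_ell]
    congr 1
    funext j
    exact hwk k j
  constructor
  · rw [← hellk]
    exact hwell
  · intro i
    rw [hite k (fun n hn => (hell n hn).1) (Sum.inr i), ← hellk, ← hwk]
    show ι ((itr E (pB a g Φ) (qB a Φ) k).2) * ch a (y k) i * ell a (w k) = _
    unfold ch
    rw [hell', hc]
    field_simp

theorem pr_ItrV (h1 : S_IteG) (h2 : S_CoOB) (h3 : S_ChI) (_h4 : S_RepA) : S_ItrV := by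
  intro s m K _ IV g F Φ e e' E k a hV hMap hRep hell hp hq hit hW
  obtain ⟨hprime, hch⟩ := h3 s m K IV a hV hell
  haveI := hprime
  let R := MvPolynomial (Fin s ⊕ Fin m) K
  let B := R ⧸ chI a IV
  let L := FractionRing B
  let ι : R →ₐ[K] L := (IsScalarTower.toAlgHom K B L).comp (Ideal.Quotient.mkₐ K (chI a IV))
  have hι : ∀ G : R, ι G = 0 ↔ G ∈ chI a IV := by
    intro G
    have h5 : ι G = algebraMap B L (Ideal.Quotient.mk (chI a IV) G) := rfl
    rw [h5]
    constructor
    · intro h6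
      have h7 : Ideal.Quotient.mk (chI a IV) G = 0 := by
        apply IsFractionRing.injective B L
        rw [h6, map_zero]
      exact Ideal.Quotient.eq_zero_iff_mem.mp h7
    · intro h6
      rw [Ideal.Quotient.eq_zero_iff_mem.mpr h6, map_zero]
  have hmain := ItrV_main h1 h2 s m K L IV g F Φ e e' E k a hMap hRep hp hq ι
    (by
      intro G hG
      rw [hι]
      exact Ideal.mem_map_of_mem _ hG)
    (by
      intro l hl
      obtain ⟨i, hi⟩ := hit l hl
      refine ⟨i, ?_⟩
      rw [Ne, hι, hch _ _ (itB_homog g F e hMap.hom l i)]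
      exact hi)
    (by
      intro l hl
      rw [Ne, hι]
      exact hW l hl)
  constructor
  · intro h0
    exact hmain.1 ((hι _).mpr h0)
  · intro i
    rw [← hι, map_sub, map_mul, map_mul, sub_eq_zero]
    exact hmain.2 i

end Pool.Agent.Work.MP_91e6de_nt.DMR

end

section

set_option autoImplicit false

/-!
# NRV: growth of the degrees gives independence, uniformly in the chart
-/

namespace Pool.Agent.Work.MP_91e6de_nt.DMR

open MvPolynomial

theorem NRV_dhB_sum {s m : ℕ} {A ι : Type} [CommRing A] (a : Fin m → ℕ) (T : Finset ι)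
    (G : ι → MvPolynomial (Fin (m + 1)) (MvPolynomial (Fin s) A)) :
    dhB a (∑ i ∈ T, G i) = ∑ i ∈ T, dhB a (G i) := ev_sum _ _ _ _

theorem NRV_dhB_pow {s m : ℕ} {A : Type} [CommRing A] (a : Fin m → ℕ)
    (G : MvPolynomial (Fin (m + 1)) (MvPolynomial (Fin s) A)) (n : ℕ) :
    dhB a (G ^ n) = dhB a G ^ n := ev_pow _ _ _ _

theorem NRV_dhB_ell {s m : ℕ} {A : Type} [CommRing A] (a b : Fin m → ℕ)
    (Y : Fin (m + 1) → MvPolynomial (Fin (m + 1)) (MvPolynomial (Fin s) A)) :
    dhB b (ell a Y) = ell a fun i => dhB b (Y i) := by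
  unfold dhB ell
  simp only [ev_add, ev_sum, ev_mul, ev_natCast]

theorem NRV_ell_homog {s m : ℕ} {A : Type} [CommRing A] (a : Fin m → ℕ) (n : ℕ)
    (Y : Fin (m + 1) → MvPolynomial (Fin (m + 1)) (MvPolynomial (Fin s) A))
    (hY : ∀ i, (Y i).IsHomogeneous n) : (ell a Y).IsHomogeneous n := by
  unfold ell
  refine (hY _).add (IsHomogeneous.sum _ _ _ fun i _ => ?_)
  have h1 := (isHomogeneous_C (Fin (m + 1)) ((a i : ℕ) : MvPolynomial (Fin s) A)).mul
    (hY i.castSucc)
  rw [zero_add, map_natCast] at h1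
  exact h1

theorem NRV_sum {s m : ℕ} {K : Type} [Field K] (H : MvPolynomial (Fin s ⊕ Fin m) K) :
    (∑ u ∈ H.support, (C (coeff u H) * ∏ i : Fin s, X (Sum.inl i) ^ u (Sum.inl i)) *
      ∏ j : Fin m, X (Sum.inr j) ^ u (Sum.inr j)) = H := by
  conv_rhs => rw [H.as_sum]
  apply Finset.sum_congr rfl
  intro u _
  rw [monomial_eq, Finsupp.prod_fintype _ _ (by intro i; exact pow_zero _),
    Fintype.prod_sum_type, mul_assoc]

theorem NRV_deg {s m : ℕ} {K : Type} [Field K] {H : MvPolynomial (Fin s ⊕ Fin m) K} {D : ℕ}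
    (hH : H.totalDegree ≤ D) {u : (Fin s ⊕ Fin m) →₀ ℕ} (hu : u ∈ H.support) :
    ∑ i : Fin s, u (Sum.inl i) + ∑ j : Fin m, u (Sum.inr j) ≤ D := by
  have h1 := (le_totalDegree hu).trans hH
  rw [Finsupp.sum_fintype _ _ (by intro i; rfl), Fintype.sum_sum_type] at h1
  exact h1

theorem NRV_totell {s m : ℕ} {K : Type} [Field K] (a b : Fin m → ℕ) :
    (ell a (hc b fun i => (X (Sum.inr i) : MvPolynomial (Fin s ⊕ Fin m) K))).totalDegree ≤ 1 := by
  have hX : ∀ i : Fin m, (X (Sum.inr i) : MvPolynomial (Fin s ⊕ Fin m) K).totalDegree ≤ 1 :=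
    fun i => (totalDegree_X _).le
  have hN : ∀ (n : ℕ) (p : MvPolynomial (Fin s ⊕ Fin m) K), p.totalDegree ≤ 1 →
      ((n : MvPolynomial (Fin s ⊕ Fin m) K) * p).totalDegree ≤ 1 := by
    intro n p hp
    have h1 : (n : MvPolynomial (Fin s ⊕ Fin m) K) = C (n : K) := by simp
    rw [h1]
    refine (totalDegree_mul _ _).trans ?_
    rw [totalDegree_C, zero_add]
    exact hp
  unfold ell
  refine (totalDegree_add _ _).trans (max_le ?_ ?_)
  · simp only [hc, Fin.snoc_last]
    refine (totalDegree_sub _ _).trans (max_le ?_ ?_)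
    · simp
    · exact totalDegree_finsetSum_le fun i _ => hN _ _ (hX i)
  · refine totalDegree_finsetSum_le fun i _ => hN _ _ ?_
    simp only [hc, Fin.snoc_castSucc]
    exact hX i

theorem NRV_hom {s m : ℕ} {K : Type} [Field K] (a b : Fin m → ℕ) (D : ℕ)
    (H : MvPolynomial (Fin s ⊕ Fin m) K) (hH : H.totalDegree ≤ D) :
    ∃ G : MvPolynomial (Fin (m + 1)) (MvPolynomial (Fin s) K), G.IsHomogeneous D ∧
      dhB a G = H ∧ (dhB b G).totalDegree ≤ 2 * D := by
  classical
  refine ⟨∑ u ∈ H.support, C (C (coeff u H) * ∏ i : Fin s, X i ^ u (Sum.inl i)) *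
    (∏ j : Fin m, X j.castSucc ^ u (Sum.inr j)) *
      ell a X ^ (D - ∑ j : Fin m, u (Sum.inr j)), ?_, ?_, ?_⟩
  · refine IsHomogeneous.sum _ _ _ fun u hu => ?_
    have h1 := isHomogeneous_C (Fin (m + 1)) (C (coeff u H) * ∏ i : Fin s,
      (X i : MvPolynomial (Fin s) K) ^ u (Sum.inl i))
    have h2 : (∏ j : Fin m, (X j.castSucc : MvPolynomial (Fin (m + 1)) (MvPolynomial (Fin s) K))
        ^ u (Sum.inr j)).IsHomogeneous (∑ j : Fin m, u (Sum.inr j)) := by
      refine IsHomogeneous.prod _ _ _ fun j _ => ?_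
      have h3 := (isHomogeneous_X (MvPolynomial (Fin s) K) j.castSucc).pow (u (Sum.inr j))
      rwa [one_mul] at h3
    have h4 := (NRV_ell_homog (s := s) (A := K) a 1 _
      (fun i => isHomogeneous_X (MvPolynomial (Fin s) K) i)).pow (D - ∑ j : Fin m, u (Sum.inr j))
    have h5 := (h1.mul h2).mul h4
    have h6 : 0 + ∑ j : Fin m, u (Sum.inr j) + 1 * (D - ∑ j : Fin m, u (Sum.inr j)) = D := by
      have := NRV_deg hH hu
      omega
    rwa [h6] at h5
  · rw [NRV_dhB_sum]
    conv_rhs => rw [← NRV_sum H]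
    apply Finset.sum_congr rfl
    intro u _
    rw [dhB_mul, dhB_mul, NRV_dhB_pow, NRV_dhB_ell]
    have h1 : (ell a fun i => dhB a (X i : MvPolynomial (Fin (m + 1)) (MvPolynomial (Fin s) K)))
        = 1 := by
      unfold dhB
      simp only [ev_X]
      exact ell_hc a _
    rw [h1, one_pow, mul_one]
    unfold dhB
    rw [ev_C, ev_prod]
    congr 1
    · simp
    · apply Finset.prod_congr rfl
      intro j _
      rw [ev_pow, ev_X]
      simp [hc]
  · rw [NRV_dhB_sum]
    refine totalDegree_finsetSum_le fun u hu => ?_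
    have h0 := NRV_deg hH hu
    rw [dhB_mul, dhB_mul, NRV_dhB_pow, NRV_dhB_ell]
    have h1 : (ell a fun i => dhB b (X i : MvPolynomial (Fin (m + 1)) (MvPolynomial (Fin s) K)))
        = ell a (hc b fun i => (X (Sum.inr i) : MvPolynomial (Fin s ⊕ Fin m) K)) := by
      unfold dhB
      simp only [ev_X]
    have h2 : (dhB b (C (C (coeff u H) * ∏ i : Fin s, (X i : MvPolynomial (Fin s) K) ^
        u (Sum.inl i)) : MvPolynomial (Fin (m + 1)) (MvPolynomial (Fin s) K))).totalDegree ≤
        ∑ i : Fin s, u (Sum.inl i) := by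
      unfold dhB
      rw [ev_C]
      simp only [map_mul, map_prod, map_pow, aeval_X, aeval_C]
      refine (totalDegree_mul _ _).trans ?_
      rw [MvPolynomial.algebraMap_eq, totalDegree_C, zero_add]
      refine (totalDegree_finsetProd _ _).trans (Finset.sum_le_sum fun i _ => ?_)
      refine (totalDegree_pow _ _).trans ?_
      rw [totalDegree_X, mul_one]
    have h3 : (dhB b (∏ j : Fin m, (X j.castSucc : MvPolynomial (Fin (m + 1))
        (MvPolynomial (Fin s) K)) ^ u (Sum.inr j))).totalDegree ≤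
        ∑ j : Fin m, u (Sum.inr j) := by
      unfold dhB
      rw [ev_prod]
      refine (totalDegree_finsetProd _ _).trans (Finset.sum_le_sum fun j _ => ?_)
      rw [ev_pow, ev_X]
      refine (totalDegree_pow _ _).trans ?_
      simp only [hc, Fin.snoc_castSucc]
      rw [totalDegree_X, mul_one]
    rw [h1]
    refine (totalDegree_mul _ _).trans ?_
    refine (Nat.add_le_add (totalDegree_mul _ _) (totalDegree_pow _ _)).trans ?_
    have h4 := Nat.mul_le_mul_left (D - ∑ j : Fin m, u (Sum.inr j))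
      (NRV_totell (s := s) (K := K) a b)
    omega

/-- removing the auxiliary numerator -/
theorem NRV_mod {R : Type} [CommRing R] (P : Ideal R) (hP : P.IsPrime) (e : ℕ) (Q : ℕ → R)
    (U W Y L : R) (hW : W ∉ P) (hU : U * L - W * Y ∈ P)
    (h : ∑ c ∈ Finset.range (e + 1), Q c * U ^ c * W ^ (e - c) ∈ P) :
    ∑ c ∈ Finset.range (e + 1), Q c * Y ^ c * L ^ (e - c) ∈ P := by
  have hq : ∀ x : R, x ∈ P ↔ Ideal.Quotient.mk P x = 0 := fun x =>
    (Ideal.Quotient.eq_zero_iff_mem).symm
  have hU' : Ideal.Quotient.mk P (U * L) = Ideal.Quotient.mk P (W * Y) := by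
    have := (hq _).1 hU
    rw [map_sub] at this
    exact sub_eq_zero.mp this
  have h1 : W ^ e * ∑ c ∈ Finset.range (e + 1), Q c * Y ^ c * L ^ (e - c) ∈ P := by
    have h2 : L ^ e * ∑ c ∈ Finset.range (e + 1), Q c * U ^ c * W ^ (e - c) ∈ P :=
      P.mul_mem_left _ h
    rw [hq] at h2 ⊢
    rw [← h2]
    rw [Finset.mul_sum, Finset.mul_sum, map_sum, map_sum]
    apply Finset.sum_congr rfl
    intro c hc
    have hc' : c ≤ e := by
      have := Finset.mem_range.mp hc
      omega
    have e1 : W ^ e * (Q c * Y ^ c * L ^ (e - c)) = Q c * (W * Y) ^ c * (W * L) ^ (e - c) := by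
      have : W ^ e = W ^ c * W ^ (e - c) := by rw [← pow_add]; congr 1; omega
      rw [this, mul_pow, mul_pow]
      ring
    have e2 : L ^ e * (Q c * U ^ c * W ^ (e - c)) = Q c * (U * L) ^ c * (W * L) ^ (e - c) := by
      have : L ^ e = L ^ c * L ^ (e - c) := by rw [← pow_add]; congr 1; omega
      rw [this, mul_pow, mul_pow]
      ring
    rw [e1, e2, map_mul, map_mul, map_mul, map_mul, map_pow, map_pow (Ideal.Quotient.mk P) (U * L),
      hU']
  rcases hP.mem_or_mem h1 with h2 | h2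
  · exact absurd (hP.mem_of_pow_mem _ h2) hW
  · exact h2

/-- one relation is transported to the fixed chart -/
theorem NRV_one {s m : ℕ} {K : Type} [Field K]
    {IV : Ideal (MvPolynomial (Fin (m + 1)) (MvPolynomial (Fin s) K))} (h1 : S_ChI)
    (hV : VarV IV) (a b : Fin m → ℕ)
    (ha : (ell a fun i => (X i : MvPolynomial (Fin (m + 1)) (MvPolynomial (Fin s) K))) ∉ IV)
    (hb : (ell b fun i => (X i : MvPolynomial (Fin (m + 1)) (MvPolynomial (Fin s) K))) ∉ IV)
    (n D e'' : ℕ) (Y : Fin (m + 1) → MvPolynomial (Fin (m + 1)) (MvPolynomial (Fin s) K))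
    (hY : ∀ i, (Y i).IsHomogeneous n) (i : Fin (m + 1)) (U W : MvPolynomial (Fin s ⊕ Fin m) K)
    (hW : W ∉ chI a IV)
    (hU : U * (ell a fun i => dhB a (Y i)) - W * dhB a (Y i) ∈ chI a IV)
    (hNR : ¬ NR (chI a IV) D e'' U W) :
    ¬ NR (chI b IV) (2 * D) e'' (dhB b (Y i)) (dhB b (ell a Y)) := by
  obtain ⟨pa, ia⟩ := h1 s m K IV a hV ha
  obtain ⟨pb, ib⟩ := h1 s m K IV b hV hb
  intro hcon
  apply hNR
  intro Q hQ hS c hc
  have hS2 := NRV_mod (chI a IV) pa e'' Q U W (dhB a (Y i)) (ell a fun i => dhB a (Y i)) hW hU hS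
  choose G hG1 hG2 hG3 using fun c => NRV_hom a b D (Q c) (hQ c)
  have hlY := NRV_ell_homog a n Y hY
  have hThom : (∑ c ∈ Finset.range (e'' + 1), G c * Y i ^ c * ell a Y ^ (e'' - c)).IsHomogeneous
      (D + n * e'') := by
    refine IsHomogeneous.sum _ _ _ fun c hc => ?_
    have hc' : c ≤ e'' := by
      have := Finset.mem_range.mp hc
      omega
    have e1 := ((hG1 c).mul ((hY i).pow c)).mul (hlY.pow (e'' - c))
    have e2 : D + n * c + n * (e'' - c) = D + n * e'' := by
      rw [add_assoc, ← mul_add]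
      congr 2
      omega
    rwa [e2] at e1
  have hT : ∑ c ∈ Finset.range (e'' + 1), G c * Y i ^ c * ell a Y ^ (e'' - c) ∈ IV := by
    rw [← ia _ _ hThom, NRV_dhB_sum]
    simp only [dhB_mul, NRV_dhB_pow, hG2, NRV_dhB_ell]
    exact hS2
  rw [← ib _ _ hThom, NRV_dhB_sum] at hT
  simp only [dhB_mul, NRV_dhB_pow] at hT
  have hT2 := hcon (fun c => dhB b (G c)) hG3 hT c hc
  rw [ib _ _ (hG1 c)] at hT2
  rw [← hG2 c, ia _ _ (hG1 c)]
  exact hT2

theorem NRV_prod_deg {σ K ι : Type} [Field K] (T : Finset ι) (B : ι → MvPolynomial σ K) (N : ℕ)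
    (hB : ∀ i ∈ T, (B i).totalDegree ≤ N) : (∏ i ∈ T, B i).totalDegree ≤ T.card * N := by
  refine (totalDegree_finsetProd _ _).trans ?_
  refine (Finset.sum_le_card_nsmul _ _ _ hB).trans ?_
  rw [smul_eq_mul]

/-- growth of the degrees gives independence, uniformly in the chart -/
theorem pr_NRV (h1 : S_ChI) (h2 : S_Cond) (h3 : S_Hz) : S_NRV := by
  classical
  intro s m K _ _ IV r hm hr hV hD
  by_cases hex : ∃ b : Fin m → ℕ,
    (ell b fun i => (X i : MvPolynomial (Fin (m + 1)) (MvPolynomial (Fin s) K))) ∉ IV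
  swap
  · refine ⟨0, ?_⟩
    intro g F e k D e'' l a U W _ ha
    exact absurd ⟨a, ha⟩ hex
  obtain ⟨b, hb⟩ := hex
  obtain ⟨pb, ib⟩ := h1 s m K IV b hV hb
  obtain ⟨C0, hC0⟩ := h2 (Fin s ⊕ Fin m) K (chI b IV) r pb (hD b hb) hr
  refine ⟨2 * m * C0 + 1, ?_⟩
  intro g F e k D e'' l a U W hF ha hW hL hU hGr hl
  obtain ⟨pa, ia⟩ := h1 s m K IV a hV ha
  by_contra hcon
  push Not at hcon
  set Y := (itB g F k).2 with hYdef
  have hY : ∀ i, (Y i).IsHomogeneous (e ^ k) := itB_homog g F e hF k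
  have hlY := NRV_ell_homog a (e ^ k) Y hY
  have hL1 : ell a Y ∉ IV := by
    rw [← ia _ _ hlY, NRV_dhB_ell]
    exact hL
  have hW' : dhB b (ell a Y) ∉ chI b IV := by
    rw [ib _ _ hlY]
    exact hL1
  have hAB : ∀ i : Fin m, ∃ A B : MvPolynomial (Fin s ⊕ Fin m) K, B ∉ chI b IV ∧
      A.totalDegree ≤ C0 * (2 * D + 1) ∧ B.totalDegree ≤ C0 * (2 * D + 1) ∧
      A * dhB b (ell a Y) - B * dhB b (Y i.castSucc) ∈ chI b IV := by
    intro i
    exact hC0 (2 * D) e'' _ _ hW' (NRV_one h1 hV a b ha hb (e ^ k) D e'' Y hY i.castSucc (U i) W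
      hW (hU i) (hcon i))
  choose A B hB0 hA1 hB1 hAB1 using hAB
  -- common denominator
  have hD1 : ∀ H : MvPolynomial (Fin s ⊕ Fin m) K, H.totalDegree ≤ m * (C0 * (2 * D + 1)) →
      ∃ G : MvPolynomial (Fin (m + 1)) (MvPolynomial (Fin s) K),
        G.IsHomogeneous (m * (C0 * (2 * D + 1))) ∧ dhB b G = H := by
    intro H hH
    refine (h3 s m K b).1 _ H fun u hu => ?_
    have := NRV_deg hH hu
    omega
  have hBp : (∏ i, B i).totalDegree ≤ m * (C0 * (2 * D + 1)) := by
    have := NRV_prod_deg Finset.univ B _ (fun i _ => hB1 i)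
    rwa [Finset.card_univ, Fintype.card_fin] at this
  have hAp : ∀ i, (A i * ∏ j ∈ Finset.univ.erase i, B j).totalDegree ≤
      m * (C0 * (2 * D + 1)) := by
    intro i
    refine (totalDegree_mul _ _).trans ?_
    have h5 := NRV_prod_deg (Finset.univ.erase i) B _ (fun i _ => hB1 i)
    rw [Finset.card_erase_of_mem (Finset.mem_univ _), Finset.card_univ, Fintype.card_fin] at h5
    have h6 := Nat.add_le_add (hA1 i) h5
    refine h6.trans ?_
    have h7 : m = 1 + (m - 1) := by omega
    conv_rhs => rw [h7, add_mul, one_mul]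
  obtain ⟨G', hG'1, hG'2⟩ := hD1 _ hBp
  choose G'' hG''1 hG''2 using fun i => hD1 _ (hAp i)
  have hG'0 : G' ∉ IV := by
    rw [← ib _ _ hG'1, hG'2]
    intro h
    obtain ⟨i, -, hi⟩ := (Ideal.IsPrime.prod_mem_iff (hp := pb)).1 h
    exact hB0 i hi
  have hrel : ∀ i : Fin m, G'' i * ell a Y - G' * Y i.castSucc ∈ IV := by
    intro i
    have e1 : (G'' i * ell a Y - G' * Y i.castSucc).IsHomogeneous
        (m * (C0 * (2 * D + 1)) + e ^ k) :=
      ((hG''1 i).mul hlY).sub (hG'1.mul (hY _))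
    rw [← ib _ _ e1, dhB_sub, dhB_mul, dhB_mul, hG'2, hG''2]
    have e2 : A i * (∏ j ∈ Finset.univ.erase i, B j) * dhB b (ell a Y) -
        (∏ i, B i) * dhB b (Y i.castSucc) =
        (∏ j ∈ Finset.univ.erase i, B j) *
          (A i * dhB b (ell a Y) - B i * dhB b (Y i.castSucc)) := by
      rw [← Finset.mul_prod_erase Finset.univ B (Finset.mem_univ i)]
      ring
    rw [e2]
    exact Ideal.mul_mem_left _ _ (hAB1 i)
  -- the new representation
  let G : Fin (m + 1) → MvPolynomial (Fin (m + 1)) (MvPolynomial (Fin s) K) :=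
    Fin.snoc G'' (G' - ∑ i, (a i : MvPolynomial (Fin (m + 1)) (MvPolynomial (Fin s) K)) * G'' i)
  have hGl : G (Fin.last m) =
      G' - ∑ i, (a i : MvPolynomial (Fin (m + 1)) (MvPolynomial (Fin s) K)) * G'' i := by
    simp [G]
  have hGc : ∀ i : Fin m, G i.castSucc = G'' i := by
    intro i
    simp [G]
  have hGell : ell a G = G' := by
    unfold ell
    rw [hGl]
    simp only [hGc]
    ring
  have hG1 : ∃ i, G i ∉ IV := by
    by_contra hno
    push Not at hno
    apply hG'0
    rw [← hGell]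
    unfold ell
    exact IV.add_mem (hno _) (IV.sum_mem fun i _ => IV.mul_mem_left _ (hno _))
  have hG2 : ∀ i, (G i).IsHomogeneous (m * (C0 * (2 * D + 1))) := by
    intro i
    refine Fin.lastCases ?_ (fun j => ?_) i
    · rw [hGl]
      refine hG'1.sub (IsHomogeneous.sum _ _ _ fun i _ => ?_)
      have e1 := (isHomogeneous_C (Fin (m + 1)) ((a i : ℕ) : MvPolynomial (Fin s) K)).mul
        (hG''1 i)
      rw [zero_add, map_natCast] at e1
      exact e1
    · rw [hGc]
      exact hG''1 j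
  have hG3 : ∀ i, G i * ell a Y - G' * Y i ∈ IV := by
    intro i
    refine Fin.lastCases ?_ (fun j => ?_) i
    · have e1 : G (Fin.last m) * ell a Y - G' * Y (Fin.last m) =
          - ∑ i, (a i : MvPolynomial (Fin (m + 1)) (MvPolynomial (Fin s) K)) *
            (G'' i * ell a Y - G' * Y i.castSucc) := by
        rw [hGl]
        have e2 : Y (Fin.last m) = ell a Y - ∑ i,
            (a i : MvPolynomial (Fin (m + 1)) (MvPolynomial (Fin s) K)) * Y i.castSucc := by
          unfold ell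
          ring
        rw [e2]
        simp only [mul_sub, Finset.sum_sub_distrib, sub_mul, Finset.sum_mul, Finset.mul_sum]
        have e3 : ∀ i : Fin m, (a i : MvPolynomial (Fin (m + 1)) (MvPolynomial (Fin s) K)) *
            (G'' i * ell a Y) = a i * G'' i * ell a Y := fun i => by ring
        have e4 : ∀ i : Fin m, (a i : MvPolynomial (Fin (m + 1)) (MvPolynomial (Fin s) K)) *
            (G' * Y i.castSucc) = G' * (a i * Y i.castSucc) := fun i => by ring
        simp only [e3, e4]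
        ring
      rw [e1]
      exact IV.neg_mem (IV.sum_mem fun i _ => IV.mul_mem_left _ (hrel i))
    · rw [hGc]
      exact hrel j
  have hG4 : ∀ i j, G i * Y j - G j * Y i ∈ IV := by
    intro i j
    have e1 : ell a Y * (G i * Y j - G j * Y i) =
        (G i * ell a Y - G' * Y i) * Y j - (G j * ell a Y - G' * Y j) * Y i := by ring
    have e2 : ell a Y * (G i * Y j - G j * Y i) ∈ IV := by
      rw [e1]
      exact IV.sub_mem (IV.mul_mem_right _ (hG3 i)) (IV.mul_mem_right _ (hG3 j))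
    exact (hV.prime.mem_or_mem e2).resolve_left hL1
  have hfin := hGr _ G hG1 hG2 hG4
  have hlast : m * (C0 * (2 * D + 1)) ≤ (2 * m * C0 + 1) * (D + 1) := by nlinarith
  have : ((m * (C0 * (2 * D + 1)) : ℕ) : ℝ) ≤ (((2 * m * C0 + 1) * (D + 1) : ℕ) : ℝ) := by
    exact_mod_cast hlast
  linarith

end Pool.Agent.Work.MP_91e6de_nt.DMR

end

section

set_option autoImplicit false

/-!
# Item Nul: Nullstellensatz with denominators
-/

namespace Pool.Agent.Work.MP_91e6de_nt.DMR

open MvPolynomial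

attribute [local instance] MvPolynomial.algebraMvPolynomial

/-- Homogeneous component of a product with a form. -/
theorem Nul_comp_mul {σ A : Type} [CommRing A] (H F : MvPolynomial σ A) (d N : ℕ)
    (hF : F.IsHomogeneous d) (h : d ≤ N) :
    homogeneousComponent N (H * F) = homogeneousComponent (N - d) H * F := by
  let _ := MvPolynomial.gradedAlgebra (σ := σ) (R := A)
  have h1 := DirectSum.coe_decompose_mul_of_right_mem_of_le (homogeneousSubmodule σ A)
    (a := H) (b := F) (i := d) (n := N) ((mem_homogeneousSubmodule _ _).2 hF) h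
  have h2 : ∀ (p : MvPolynomial σ A) (n : ℕ),
      ((DirectSum.decompose (homogeneousSubmodule σ A) p n : homogeneousSubmodule σ A n) :
        MvPolynomial σ A) = homogeneousComponent n p := fun p n =>
    decomposition.decompose'_apply p n
  rw [h2, h2] at h1
  exact h1

theorem pr_Nul : S_Nul := by
  intro s m K _ F d hd hF hNo
  classical
  let A := MvPolynomial (Fin s) K
  let k := FractionRing A
  let Ω := AlgebraicClosure k
  let f : Fin (m + 1) → MvPolynomial (Fin (m + 1)) k := fun j => map (algebraMap A k) (F j)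
  let I : Ideal (MvPolynomial (Fin (m + 1)) k) := Ideal.span (Set.range f)
  -- the variables are in the radical
  have hrad : ∀ i : Fin (m + 1), (X i : MvPolynomial (Fin (m + 1)) k) ∈ I.radical := by
    intro i
    rw [← vanishingIdeal_zeroLocus_eq_radical (K := Ω) I, mem_vanishingIdeal_iff]
    intro x hx
    have hx0 : x = 0 := by
      apply hNo
      intro j
      have h1 : aeval x (f j) = 0 := hx (f j) (Ideal.subset_span ⟨j, rfl⟩)
      rw [← h1]
      simp only [f, aeval_map_algebraMap]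
    rw [hx0]
    simp
  have hex : ∀ i : Fin (m + 1), ∃ n : ℕ, (X i : MvPolynomial (Fin (m + 1)) k) ^ n ∈ I :=
    fun i => hrad i
  choose n hn using hex
  let N := d + ∑ i, n i
  have hN : ∀ i : Fin (m + 1), (X i : MvPolynomial (Fin (m + 1)) k) ^ N ∈ I := by
    intro i
    have hle : n i ≤ N := le_trans (Finset.single_le_sum (f := n) (fun _ _ => Nat.zero_le _)
      (Finset.mem_univ i)) (Nat.le_add_left _ _)
    obtain ⟨e, he⟩ := Nat.exists_eq_add_of_le hle
    rw [he, pow_add]
    exact I.mul_mem_right _ (hn i)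
  have hlin : ∀ i : Fin (m + 1), ∃ c : Fin (m + 1) → MvPolynomial (Fin (m + 1)) k,
      ∑ j, c j * f j = X i ^ N := fun i => Ideal.mem_span_range_iff_exists_fun.1 (hN i)
  choose c hc using hlin
  -- clear denominators
  obtain ⟨b, hb⟩ := IsLocalization.exist_integer_multiples_of_finite
    ((nonZeroDivisors A).map (C (σ := Fin (m + 1)) : A →+* MvPolynomial (Fin (m + 1)) A))
    (S := MvPolynomial (Fin (m + 1)) k)
    (fun p : Fin (m + 1) × Fin (m + 1) => c p.1 p.2)
  obtain ⟨ρ, hρ, hρb⟩ := b.2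
  have hb' : ∀ i j : Fin (m + 1), ∃ H : MvPolynomial (Fin (m + 1)) A,
      map (algebraMap A k) H = map (algebraMap A k) (C ρ) * c i j := by
    intro i j
    obtain ⟨H, hH⟩ := hb (i, j)
    refine ⟨H, ?_⟩
    have : (algebraMap (MvPolynomial (Fin (m + 1)) A) (MvPolynomial (Fin (m + 1)) k)) H =
      (b : MvPolynomial (Fin (m + 1)) A) • c i j := hH
    rw [Algebra.smul_def, ← hρb] at this
    exact this
  choose H hH using hb'
  have hinj : Function.Injective (map (σ := Fin (m + 1)) (algebraMap A k)) :=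
    map_injective _ (IsFractionRing.injective A k)
  have hid : ∀ i : Fin (m + 1), C ρ * X i ^ N = ∑ j, H i j * F j := by
    intro i
    apply hinj
    rw [map_mul, map_pow, map_X, ← hc i, map_sum, Finset.mul_sum]
    apply Finset.sum_congr rfl
    intro j _
    rw [map_mul, hH, mul_assoc]
  have hdN : d ≤ N := Nat.le_add_right _ _
  refine ⟨N - d, ρ, fun i j => homogeneousComponent (N - d) (H i j),
    nonZeroDivisors.ne_zero hρ, fun i j => homogeneousComponent_isHomogeneous _ _, ?_⟩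
  intro i
  rw [Nat.sub_add_cancel hdN]
  have h1 : homogeneousComponent N (C ρ * X i ^ N : MvPolynomial (Fin (m + 1)) A) =
      C ρ * X i ^ N := by
    apply homogeneousComponent_eq_self
    have := (isHomogeneous_C (Fin (m + 1)) ρ).mul ((isHomogeneous_X A i).pow N)
    simpa using this
  rw [← h1, hid i, map_sum]
  apply Finset.sum_congr rfl
  intro j _
  exact Nul_comp_mul _ _ _ _ (hF j) hdN

end Pool.Agent.Work.MP_91e6de_nt.DMR

end

section

set_option autoImplicit false

/-!
# Item RelZ2: the first hypersurface section, relative version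
-/

namespace Pool.Agent.Work.MP_91e6de_nt.DMR

open MvPolynomial NumberField IsDedekindDomain Height
open Pool.Agent.Work.MP_91e6de_nt.DM (va nv)

section

variable {σ K : Type} [Fintype σ] [DecidableEq σ] [Field K] {J : Finset σ}

theorem RelZ2_deg_map {τ A B : Type} [CommRing A] [CommRing B] (f : A →+* B)
    (p : MvPolynomial τ A) : (map f p).totalDegree ≤ p.totalDegree :=
  Finset.sup_mono (support_map_subset f p)

/-- the exponent of the monomial with exponents `α (some l)`, `l ∈ J` -/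
noncomputable def RelZ2mon (α : Option J → ℕ) : σ →₀ ℕ :=
  Finsupp.equivFunOnFinite.symm fun l => if h : l ∈ J then α (some ⟨l, h⟩) else 0

theorem RelZ2mon_apply (α : Option J → ℕ) (l : σ) :
    RelZ2mon α l = if h : l ∈ J then α (some ⟨l, h⟩) else 0 := rfl

theorem RelZ2mon_inj (α β : Option J → ℕ) (h : RelZ2mon α = RelZ2mon β)
    (h0 : α none = β none) : α = β := by
  funext x
  cases x with
  | none => exact h0
  | some l =>
    obtain ⟨l, hl⟩ := l
    have := DFunLike.congr_fun h l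
    rwa [RelZ2mon_apply, RelZ2mon_apply, dif_pos hl, dif_pos hl] at this

/-- the coefficient of `U ^ l` -/
noncomputable def RelZ2Q (E : Finset (Option J → ℕ)) (c : (Option J → ℕ) → K) (l : ℕ) :
    MvPolynomial σ K :=
  ∑ α ∈ E.filter (fun α => α none = l), monomial (RelZ2mon α) (c α)

theorem RelZ2Q_coeff (E : Finset (Option J → ℕ)) (c : (Option J → ℕ) → K) (α : Option J → ℕ)
    (hα : α ∈ E) : (RelZ2Q E c (α none)).coeff (RelZ2mon α) = c α := by
  classical
  unfold RelZ2Q
  rw [coeff_sum, Finset.sum_eq_single α]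
  · rw [coeff_monomial, if_pos rfl]
  · intro β hβ hne
    rw [coeff_monomial, if_neg]
    intro h
    exact hne (RelZ2mon_inj β α h (Finset.mem_filter.mp hβ).2)
  · intro h
    exact (h (Finset.mem_filter.mpr ⟨hα, rfl⟩)).elim

theorem RelZ2Q_vars (E : Finset (Option J → ℕ)) (c : (Option J → ℕ) → K) (l : ℕ) :
    (RelZ2Q E c l).vars ⊆ J := by
  classical
  unfold RelZ2Q
  refine (vars_sum_subset _ _).trans ?_
  rw [Finset.biUnion_subset]
  intro α _
  by_cases h : c α = 0
  · rw [h]
    simp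
  · rw [vars_monomial h]
    intro i hi
    by_contra hJ
    rw [Finsupp.mem_support_iff, RelZ2mon_apply, dif_neg hJ] at hi
    exact hi rfl

theorem RelZ2Q_totalDegree (E : Finset (Option J → ℕ)) (c : (Option J → ℕ) → K) (l D : ℕ)
    (hE : ∀ α ∈ E, ∀ x, α x ≤ D) : (RelZ2Q E c l).totalDegree ≤ J.card * D := by
  unfold RelZ2Q
  refine (totalDegree_finsetSum _ _).trans (Finset.sup_le fun α hα => ?_)
  refine (totalDegree_monomial_le _ _).trans ?_
  rw [Finsupp.sum_fintype _ _ (fun _ => rfl)]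
  calc ∑ l, id (RelZ2mon α l) ≤ ∑ l, (if l ∈ J then D else 0) := by
        apply Finset.sum_le_sum
        intro l _
        rw [id, RelZ2mon_apply]
        by_cases h : l ∈ J
        · rw [dif_pos h, if_pos h]
          exact hE α (Finset.mem_filter.mp hα).1 _
        · rw [dif_neg h, if_neg h]
    _ = J.card * D := by
        rw [← Finset.sum_filter]
        simp

theorem RelZ2Q_aeval (E : Finset (Option J → ℕ)) (c : (Option J → ℕ) → K) (l : ℕ)
    (P : σ → K) : aeval P (RelZ2Q E c l) =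
      ∑ α ∈ E.filter (fun α => α none = l), c α * ∏ x : J, P x ^ α (some x) := by
  unfold RelZ2Q
  rw [map_sum]
  apply Finset.sum_congr rfl
  intro α _
  rw [aeval_monomial, Finsupp.prod_fintype _ _ (fun _ => pow_zero _)]
  congr 1
  have h1 : ∏ i, P i ^ RelZ2mon α i = ∏ i ∈ J, P i ^ RelZ2mon α i := by
    symm
    apply Finset.prod_subset (Finset.subset_univ J)
    intro i _ hi
    rw [RelZ2mon_apply, dif_neg hi, pow_zero]
  rw [h1, ← Finset.prod_coe_sort J (fun i => P i ^ RelZ2mon α i)]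
  apply Finset.prod_congr rfl
  intro i _
  rw [RelZ2mon_apply, dif_pos i.2]

/-- the value at a point -/
theorem RelZ2_value (E : Finset (Option J → ℕ)) (c : (Option J → ℕ) → K) (D : ℕ)
    (hE : ∀ α ∈ E, ∀ x, α x ≤ D) (P : σ → K) (U W : MvPolynomial σ K) (y : Option J → K)
    (hs : ∀ l : J, y (some l) = P l) (hn : aeval P U = aeval P W * y none)
    (h0 : ∑ α ∈ E, c α * ∏ x, y x ^ α x = 0) :
    aeval P (∑ l ∈ Finset.range (D + 1), RelZ2Q E c l * U ^ l * W ^ (D - l)) = 0 := by
  classical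
  rw [map_sum]
  have h1 : ∀ l ∈ Finset.range (D + 1), aeval P (RelZ2Q E c l * U ^ l * W ^ (D - l)) =
      (aeval P W) ^ D * ∑ α ∈ E.filter (fun α => α none = l), c α * ∏ x, y x ^ α x := by
    intro l hl
    rw [Finset.mem_range] at hl
    rw [map_mul, map_mul, map_pow, map_pow, hn, RelZ2Q_aeval]
    have h2 : ∑ α ∈ E.filter (fun α => α none = l), c α * ∏ x, y x ^ α x =
        (∑ α ∈ E.filter (fun α => α none = l), c α * ∏ x : J, P x ^ α (some x)) *
          y none ^ l := by
      rw [Finset.sum_mul]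
      apply Finset.sum_congr rfl
      intro α hα
      rw [Fintype.prod_option, (Finset.mem_filter.mp hα).2]
      simp only [hs]
      ring
    rw [h2]
    have h3 : (aeval P W) ^ D = (aeval P W) ^ l * (aeval P W) ^ (D - l) := by
      rw [← pow_add]
      congr 1
      omega
    rw [h3]
    ring
  rw [Finset.sum_congr rfl h1, ← Finset.mul_sum]
  rw [Finset.sum_fiberwise_of_maps_to (g := fun α : Option J → ℕ => α none)
    (f := fun α => c α * ∏ x, y x ^ α x)]
  · rw [h0, mul_zero]
  · intro α hα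
    rw [Finset.mem_range]
    have := hE α hα none
    omega

end

theorem RelZ2_num (kap r B h D : ℕ) (hD : D = DZ2 kap r B h) :
    2 * B * (7 * kap * (r + 1) * D * h) ^ r ≤ (D + 1) ^ (r + 1) := by
  have e2 : (7 * kap * (r + 1) * D * h) ^ r = (7 * kap * (r + 1) * h) ^ r * D ^ r := by
    rw [← mul_pow]
    congr 1
    ring
  have e1 : 2 * B * (7 * kap * (r + 1) * D * h) ^ r = D ^ (r + 1) := by
    calc 2 * B * (7 * kap * (r + 1) * D * h) ^ r
        = (2 * B * (7 * kap * (r + 1) * h) ^ r) * D ^ r := by rw [e2]; ring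
      _ = DZ2 kap r B h * D ^ r := rfl
      _ = D * D ^ r := by rw [← hD]
      _ = D ^ (r + 1) := by ring
  rw [e1]
  exact Nat.pow_le_pow_left (by omega) _

theorem pr_RelZ2 (h1 : S_Rank) (h2 : S_IteG) (h4 : S_DegG) : S_RelZ2 := by
  intro K σ _ _ _ p q e h M k r B P v a S I i hSet hGood hM hI hdim hr1 hB hHB hOn hNR
  classical
  set kap := Module.finrank ℚ K with hkap
  have hkap1 : 1 ≤ kap := Module.finrank_pos
  have hh := hSet.hh
  obtain ⟨J, hJr, hJ⟩ := hdim.1
  set D := DZ2 kap r B h with hD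
  have hD1 : 1 ≤ D := by
    rw [hD]
    unfold DZ2
    have : 0 < 2 * B * (7 * kap * (r + 1) * h) ^ r := by positivity
    exact this
  set E : Finset (Option J → ℕ) := Fintype.piFinset (fun _ => Finset.range (D + 1)) with hEdef
  have hE : ∀ α ∈ E, ∀ x, α x ≤ D := by
    intro α hα x
    rw [hEdef, Fintype.mem_piFinset] at hα
    have := hα x
    rw [Finset.mem_range] at this
    omega
  have hcardJ : Fintype.card (Option J) = r + 1 := by
    rw [Fintype.card_option, Fintype.card_coe, hJr]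
  have hcardE : E.card = (D + 1) ^ (r + 1) := by
    rw [hEdef, Fintype.card_piFinset]
    simp only [Finset.card_range, Finset.prod_const, Finset.card_univ]
    rw [hcardJ]
  have hbig : 2 * B * (7 * kap * Fintype.card (Option J) * D * h) ^ r ≤ E.card := by
    rw [hcardE, hcardJ]
    exact RelZ2_num kap r B h D hD
  set W := (itr e p q k).2 with hW
  let U : Option J → MvPolynomial σ (𝓞 K) := fun x =>
    x.elim ((itr e p q k).1 i) (fun l => X (l : σ) * W)
  let y : ℕ → Option J → K := fun n x => x.elim (P (n + k) i) (fun l => P n (l : σ))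
  have hite : ∀ n ∈ S, aeval (P n) W ≠ 0 ∧
      (∀ i, aeval (P n) ((itr e p q k).1 i) = aeval (P n) W * P (n + k) i) ∧
      aeval (P n) W = ∏ l ∈ Finset.range k, aeval (P (n + l)) q ^ e ^ (k - 1 - l) := fun n hn =>
    h2 σ (𝓞 K) K e p q hSet.hp hSet.hq M P hSet.orb n k (hM n hn)
  obtain ⟨c, ⟨α0, hα0, hc0⟩, hc⟩ := h1 K σ (Option J) v I B r D h E S P a y U W
    hB hr1 hD1 hh (by rw [hcardJ]; omega) hHB
    hE hbig hOn
    hGood.cong
    (fun n hn => by
      rw [(hite n hn).2.2, map_prod]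
      apply Finset.prod_eq_one
      intro l hl
      rw [map_pow, hGood.unit n hn l (Finset.mem_range.mp hl), one_pow])
    (fun n hn x => by
      cases x with
      | none => exact (hite n hn).2.1 i
      | some l =>
        show aeval (P n) (X (l : σ) * W) = aeval (P n) W * P n (l : σ)
        rw [map_mul, aeval_X, mul_comm])
    (fun n hn x => by
      have h5 := hM n hn
      cases x with
      | none => exact hSet.ht (n + k) h5 i
      | some l => exact hSet.ht n (by omega) (l : σ))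
  set UK : MvPolynomial σ K := map (algebraMap (𝓞 K) K) ((itr e p q k).1 i) with hUK
  set WK : MvPolynomial σ K := map (algebraMap (𝓞 K) K) W with hWK
  refine ⟨∑ l ∈ Finset.range (D + 1), RelZ2Q E c l * UK ^ l * WK ^ (D - l), ?_, ?_, ?_⟩
  · intro h0
    have h6 := hNR (fun l => RelZ2Q E c l) (fun l => by
      have := RelZ2Q_totalDegree E c l D hE
      rwa [hJr] at this) h0 (α0 none) (hE α0 hα0 none)
    have h7 := RelZ2Q_coeff E c α0 hα0
    rw [hJ _ h6 (RelZ2Q_vars E c _), coeff_zero] at h7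
    exact hc0 h7.symm
  · have hdeg := h4 σ (𝓞 K) e p q hSet.he hSet.hp hSet.hq k
    have hUd : UK.totalDegree ≤ e ^ k := (RelZ2_deg_map _ _).trans (hdeg.1 i)
    have hWd : WK.totalDegree ≤ e ^ k := (RelZ2_deg_map _ _).trans hdeg.2
    refine (totalDegree_finsetSum _ _).trans (Finset.sup_le fun l hl => ?_)
    rw [Finset.mem_range] at hl
    refine (totalDegree_mul _ _).trans ?_
    have a1 : (RelZ2Q E c l * UK ^ l).totalDegree ≤ r * D + l * e ^ k := by
      refine (totalDegree_mul _ _).trans ?_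
      apply Nat.add_le_add
      · have := RelZ2Q_totalDegree E c l D hE
        rwa [hJr] at this
      · exact (totalDegree_pow _ _).trans (Nat.mul_le_mul_left _ hUd)
    have a2 : (WK ^ (D - l)).totalDegree ≤ (D - l) * e ^ k :=
      (totalDegree_pow _ _).trans (Nat.mul_le_mul_left _ hWd)
    have a3 : l * e ^ k + (D - l) * e ^ k = D * e ^ k := by
      rw [← Nat.add_mul]
      congr 1
      omega
    calc (RelZ2Q E c l * UK ^ l).totalDegree + (WK ^ (D - l)).totalDegree
        ≤ (r * D + l * e ^ k) + (D - l) * e ^ k := Nat.add_le_add a1 a2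
      _ = D * r + (l * e ^ k + (D - l) * e ^ k) := by ring
      _ = D * (r + e ^ k) := by rw [a3]; ring
  · intro n hn
    refine RelZ2_value E c D hE (P n) UK WK (y n) (fun l => rfl) ?_ (hc n hn)
    rw [hUK, hWK, aeval_map_algebraMap, aeval_map_algebraMap]
    exact (hite n hn).2.1 i

end Pool.Agent.Work.MP_91e6de_nt.DMR

end

section

set_option autoImplicit false

/-!
# Item RepA: representations, elementary facts (helper17)
-/

namespace Pool.Agent.Work.MP_91e6de_nt.DMR

open MvPolynomial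

/-- symmetry of two representations -/
lemma RepA_sym {s m : ℕ} {K : Type} [Field K]
    (IV : Ideal (MvPolynomial (Fin (m + 1)) (MvPolynomial (Fin s) K)))
    (hp : IV.IsPrime)
    (F Φ Ψ : Fin (m + 1) → MvPolynomial (Fin (m + 1)) (MvPolynomial (Fin s) K))
    (hF : ∃ i, F i ∉ IV) (h1 : ∀ i j, Φ i * F j - Φ j * F i ∈ IV)
    (h2 : ∀ i j, Ψ i * F j - Ψ j * F i ∈ IV) (i j : Fin (m + 1)) :
    Φ i * Ψ j - Φ j * Ψ i ∈ IV := by
  obtain ⟨k, hk⟩ := hF
  have e : F k ^ 2 * (Φ i * Ψ j - Φ j * Ψ i) =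
      (F k * Ψ j * (Φ i * F k - Φ k * F i) + Φ k * F i * (Ψ j * F k - Ψ k * F j)) -
      (F k * Ψ i * (Φ j * F k - Φ k * F j) + Φ k * F j * (Ψ i * F k - Ψ k * F i)) := by
    ring
  have h3 : F k ^ 2 * (Φ i * Ψ j - Φ j * Ψ i) ∈ IV := by
    rw [e]
    exact IV.sub_mem
      (IV.add_mem (IV.mul_mem_left _ (h1 i k)) (IV.mul_mem_left _ (h2 j k)))
      (IV.add_mem (IV.mul_mem_left _ (h1 j k)) (IV.mul_mem_left _ (h2 i k)))
  rcases hp.mem_or_mem h3 with h4 | h4
  · exact absurd (hp.mem_of_pow_mem 2 h4) hk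
  · exact h4

/-- a combination of representations is a representation -/
lemma RepA_cmb {s m l : ℕ} {K : Type} [Field K]
    (IV : Ideal (MvPolynomial (Fin (m + 1)) (MvPolynomial (Fin s) K)))
    (F : Fin (m + 1) → MvPolynomial (Fin (m + 1)) (MvPolynomial (Fin s) K)) (e' : ℕ)
    (Φ : Fin (l + 1) → Fin (m + 1) → MvPolynomial (Fin (m + 1)) (MvPolynomial (Fin s) K))
    (b : Fin l → ℕ) (h : ∀ j, RepV IV F (Φ j) e') : RepV IV F (cmb Φ b) e' := by
  constructor
  · intro i
    unfold cmb ell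
    refine ((h (Fin.last l)).1 i).add ?_
    refine IsHomogeneous.sum _ _ _ fun j _ => ?_
    have h1 := (isHomogeneous_C (Fin (m + 1)) ((b j : ℕ) : MvPolynomial (Fin s) K)).mul
      ((h j.castSucc).1 i)
    rw [zero_add] at h1
    have h2 : (C ((b j : ℕ) : MvPolynomial (Fin s) K) :
        MvPolynomial (Fin (m + 1)) (MvPolynomial (Fin s) K)) = ((b j : ℕ) : _) := map_natCast C _
    rw [h2] at h1
    exact h1
  · intro i j
    unfold cmb ell
    have e : (Φ (Fin.last l) i + ∑ c, ((b c : ℕ) :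
        MvPolynomial (Fin (m + 1)) (MvPolynomial (Fin s) K)) * Φ c.castSucc i) * F j -
        (Φ (Fin.last l) j + ∑ c, ((b c : ℕ) :
        MvPolynomial (Fin (m + 1)) (MvPolynomial (Fin s) K)) * Φ c.castSucc j) * F i =
        (Φ (Fin.last l) i * F j - Φ (Fin.last l) j * F i) +
        ∑ c : Fin l, ((b c : ℕ) : MvPolynomial (Fin (m + 1)) (MvPolynomial (Fin s) K)) *
          (Φ c.castSucc i * F j - Φ c.castSucc j * F i) := by
      rw [add_mul, add_mul, Finset.sum_mul, Finset.sum_mul]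
      have : ∑ c : Fin l, ((b c : ℕ) : MvPolynomial (Fin (m + 1)) (MvPolynomial (Fin s) K)) *
          (Φ c.castSucc i * F j - Φ c.castSucc j * F i) =
          ∑ c : Fin l, (b c : MvPolynomial (Fin (m + 1)) (MvPolynomial (Fin s) K)) *
            Φ c.castSucc i * F j -
          ∑ c : Fin l, (b c : MvPolynomial (Fin (m + 1)) (MvPolynomial (Fin s) K)) *
            Φ c.castSucc j * F i := by
        rw [← Finset.sum_sub_distrib]
        refine Finset.sum_congr rfl fun c _ => ?_
        ring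
      rw [this]
      ring
    rw [e]
    exact IV.add_mem ((h (Fin.last l)).2 i j)
      (IV.sum_mem fun c _ => IV.mul_mem_left _ ((h c.castSucc).2 i j))

/-- the homogeneous components of a member of the ideal -/
lemma RepA_comp {s m : ℕ} {K S : Type} [Field K] [CommRing S] [Algebra K S]
    (IV : Ideal (MvPolynomial (Fin (m + 1)) (MvPolynomial (Fin s) K)))
    (hh : ∀ G ∈ IV, ∀ j, homogeneousComponent j G ∈ IV) (x : Fin s → S) (y : Fin (m + 1) → S)
    (h : ∀ (G : MvPolynomial (Fin (m + 1)) (MvPolynomial (Fin s) K)) (u : ℕ),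
      G.IsHomogeneous u → G ∈ IV → ev x y G = 0)
    (G : MvPolynomial (Fin (m + 1)) (MvPolynomial (Fin s) K)) (hG : G ∈ IV) :
    ev x y G = 0 := by
  have h1 : ev x y (∑ i ∈ Finset.range (G.totalDegree + 1), homogeneousComponent i G) = 0 := by
    rw [ev_sum]
    exact Finset.sum_eq_zero fun i _ =>
      h _ i (homogeneousComponent_isHomogeneous i G) (hh G hG i)
  rwa [sum_homogeneousComponent] at h1

/-- evaluation at congruent tuples -/
lemma RepA_congr {s m : ℕ} {K R : Type} [Field K] [CommRing R] [Algebra K R] (I : Ideal R)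
    (x : Fin s → R) (Y Y' : Fin (m + 1) → R) (h : ∀ i, Y i - Y' i ∈ I)
    (G : MvPolynomial (Fin (m + 1)) (MvPolynomial (Fin s) K)) :
    ev x Y G - ev x Y' G ∈ I := by
  have e : (Ideal.Quotient.mk I).comp (evHom (A := K) x Y) =
      (Ideal.Quotient.mk I).comp (evHom (A := K) x Y') := by
    apply MvPolynomial.ringHom_ext
    · intro r
      simp only [RingHom.comp_apply, ← ev_eq, ev_C]
    · intro i
      simp only [RingHom.comp_apply, ← ev_eq, ev_X]
      exact Ideal.Quotient.eq.2 (h i)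
  have e2 := RingHom.congr_fun e G
  simp only [RingHom.comp_apply, ← ev_eq] at e2
  exact Ideal.Quotient.eq.1 e2

/-- invariance of the ideal for another representation -/
lemma RepA_inv {s m : ℕ} {K : Type} [Field K]
    (IV : Ideal (MvPolynomial (Fin (m + 1)) (MvPolynomial (Fin s) K)))
    (hp : IV.IsPrime) (hh : ∀ G ∈ IV, ∀ j, homogeneousComponent j G ∈ IV)
    (g : Fin s → MvPolynomial (Fin s) K)
    (F Φ : Fin (m + 1) → MvPolynomial (Fin (m + 1)) (MvPolynomial (Fin s) K))
    (hF : ∃ i, F i ∉ IV) (hi : ∀ G ∈ IV, comp g F G ∈ IV)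
    (h1 : ∀ i j, Φ i * F j - Φ j * F i ∈ IV)
    (G : MvPolynomial (Fin (m + 1)) (MvPolynomial (Fin s) K)) (hG : G ∈ IV) :
    comp g Φ G ∈ IV := by
  obtain ⟨k, hk⟩ := hF
  -- homogeneous members
  have key : ∀ (P : MvPolynomial (Fin (m + 1)) (MvPolynomial (Fin s) K)) (u : ℕ),
      P.IsHomogeneous u → P ∈ IV → comp g Φ P ∈ IV := by
    intro P u hu hP
    have e2 : comp g (fun i => F k * Φ i) P = F k ^ u * comp g Φ P :=
      ev_smul (fun i => C (g i)) Φ (F k) u P hu
    have e3 : comp g (fun i => Φ k * F i) P = Φ k ^ u * comp g F P :=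
      ev_smul (fun i => C (g i)) F (Φ k) u P hu
    have e4 : comp g (fun i => F k * Φ i) P - comp g (fun i => Φ k * F i) P ∈ IV := by
      refine RepA_congr IV (fun i => C (g i)) _ _ (fun i => ?_) P
      have e : F k * Φ i - Φ k * F i = Φ i * F k - Φ k * F i := by ring
      rw [e]
      exact h1 i k
    rw [e2, e3] at e4
    have e5 : F k ^ u * comp g Φ P ∈ IV := by
      have := IV.add_mem e4 (IV.mul_mem_left (Φ k ^ u) (hi P hP))
      rwa [sub_add_cancel] at this
    rcases hp.mem_or_mem e5 with h4 | h4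
    · exact absurd (hp.mem_of_pow_mem u h4) hk
    · exact h4
  have h2 : comp g Φ (∑ i ∈ Finset.range (G.totalDegree + 1), homogeneousComponent i G) ∈ IV := by
    unfold comp
    rw [ev_sum]
    exact IV.sum_mem fun i _ =>
      key _ i (homogeneousComponent_isHomogeneous i G) (hh G hG i)
  rwa [sum_homogeneousComponent] at h2

theorem pr_RepA : S_RepA := by
  intro s m K _ IV g F e hV hM
  refine ⟨?_, ?_, ?_, ?_⟩
  · intro t t' Φ Ψ hΦ hΨ i j
    exact RepA_sym IV hV.prime F Φ Ψ hM.ne hΦ.2 hΨ.2 i j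
  · intro l e' Φ b h
    exact RepA_cmb IV F e' Φ b h
  · intro t Φ hΦ hne
    exact ⟨hΦ.1, hne, fun G hG =>
      RepA_inv IV hV.prime hV.hom g F Φ hM.ne hM.inv hΦ.2 G hG⟩
  · intro x y c h G hG
    refine RepA_comp IV hV.hom _ _ ?_ G hG
    intro P u hu hP
    rw [ev_smul x y c u P hu, h P hP, mul_zero]

end Pool.Agent.Work.MP_91e6de_nt.DMR

end

section

set_option autoImplicit false

/-!
# Item RepFin: finitely many representations are enough
-/

namespace Pool.Agent.Work.MP_91e6de_nt.DMR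

open MvPolynomial

theorem RepFin_hc {σ R : Type} [CommRing R] (p F : MvPolynomial σ R) (u e : ℕ)
    (hF : F.IsHomogeneous e) :
    homogeneousComponent (u + e) (p * F) = homogeneousComponent u p * F := by
  classical
  have h1 : ∀ i, homogeneousComponent (u + e) (homogeneousComponent i p * F) =
      if u = i then homogeneousComponent i p * F else 0 := by
    intro i
    rw [homogeneousComponent_of_mem ((homogeneousComponent_isHomogeneous i p).mul hF)]
    by_cases h : u = i
    · rw [if_pos h, if_pos (by rw [h])]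
    · rw [if_neg h, if_neg (by omega)]
  have h2 : p * F = ∑ i ∈ Finset.range (p.totalDegree + 1), homogeneousComponent i p * F := by
    rw [← Finset.sum_mul, sum_homogeneousComponent]
  conv_lhs => rw [h2]
  rw [map_sum]
  simp_rw [h1]
  rw [Finset.sum_ite_eq]
  by_cases h : u ∈ Finset.range (p.totalDegree + 1)
  · rw [if_pos h]
  · rw [if_neg h, homogeneousComponent_eq_zero, zero_mul]
    rw [Finset.mem_range] at h
    omega

/-- the module of representations -/
def RepFinM {R : Type} [CommRing R] {n : ℕ} (I : Ideal R) (F : Fin n → R) :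
    Submodule R (Fin n → R) where
  carrier := {Ψ | ∀ i j, Ψ i * F j - Ψ j * F i ∈ I}
  add_mem' := fun {a b} ha hb i j => by
    have h : (a + b) i * F j - (a + b) j * F i =
        (a i * F j - a j * F i) + (b i * F j - b j * F i) := by
      simp only [Pi.add_apply]
      ring
    rw [h]
    exact I.add_mem (ha i j) (hb i j)
  zero_mem' := fun i j => by simp
  smul_mem' := fun c a ha i j => by
    have h : (c • a) i * F j - (c • a) j * F i = c * (a i * F j - a j * F i) := by
      simp only [Pi.smul_apply, smul_eq_mul]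
      ring
    rw [h]
    exact I.mul_mem_left c (ha i j)

theorem pr_RepFin : S_RepFin := by
  classical
  intro s m K _ IV g F e hV hM
  have hfg : (RepFinM IV F).FG := IsNoetherian.noetherian _
  obtain ⟨S, hS⟩ := hfg
  have hSM : ∀ ψ ∈ S, ψ ∈ RepFinM IV F := fun ψ hψ => by
    rw [← hS]
    exact Submodule.subset_span hψ
  set T : ℕ := S.sup fun ψ => Finset.univ.sup fun i => (ψ i).totalDegree with hT
  have hdeg : ∀ ψ ∈ S, ∀ i, (ψ i).totalDegree ≤ T := by
    intro ψ hψ i
    have h1 : (ψ i).totalDegree ≤ Finset.univ.sup fun i => (ψ i).totalDegree :=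
      Finset.le_sup (f := fun i => (ψ i).totalDegree) (Finset.mem_univ i)
    exact h1.trans (Finset.le_sup (f := fun ψ : Fin (m + 1) →
      MvPolynomial (Fin (m + 1)) (MvPolynomial (Fin s) K) =>
        Finset.univ.sup fun i => (ψ i).totalDegree) hψ)
  set fam : Option (S × Fin (T + 1) × Fin (m + 1)) → Fin (m + 1) →
      MvPolynomial (Fin (m + 1)) (MvPolynomial (Fin s) K) := fun c i =>
    match c with
    | none => 0
    | some (ψ, u, j) => X j ^ (T - u) * homogeneousComponent (u : ℕ) (ψ.1 i) with hfam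
  have hrep : ∀ c, RepV IV F (fam c) T := by
    intro c
    rcases c with _ | ⟨ψ, u, j0⟩
    · refine ⟨fun i => isHomogeneous_zero _ _ _, fun i j => ?_⟩
      simp [hfam]
    · refine ⟨fun i => ?_, fun i j => ?_⟩
      · have h1 := (isHomogeneous_X_pow (R := MvPolynomial (Fin s) K) j0 (T - u)).mul
          (homogeneousComponent_isHomogeneous (u : ℕ) (ψ.1 i))
        have h2 : T - (u : ℕ) + u = T := Nat.sub_add_cancel (Nat.lt_succ_iff.1 u.2)
        rw [h2] at h1
        exact h1
      · have h1 := hSM ψ.1 ψ.2 i j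
        have h2 := hV.hom _ h1 ((u : ℕ) + e)
        rw [map_sub, RepFin_hc _ _ _ _ (hM.hom j), RepFin_hc _ _ _ _ (hM.hom i)] at h2
        have h3 : fam (some (ψ, u, j0)) i * F j - fam (some (ψ, u, j0)) j * F i =
            X j0 ^ (T - (u : ℕ)) * (homogeneousComponent (u : ℕ) (ψ.1 i) * F j -
              homogeneousComponent (u : ℕ) (ψ.1 j) * F i) := by
          simp only [hfam]
          ring
        rw [h3]
        exact IV.mul_mem_left _ h2
  set l := Fintype.card (S × Fin (T + 1) × Fin (m + 1)) with hl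
  have hcard : Fintype.card (Option (S × Fin (T + 1) × Fin (m + 1))) = l + 1 := by
    rw [Fintype.card_option]
  set eq := Fintype.equivFinOfCardEq hcard with heq
  refine ⟨l, T, fun j => fam (eq.symm j), fun j => hrep _, ?_⟩
  intro x y t Ψ hon hy hΨ hex
  by_contra hcon
  push Not at hcon
  have hfam0 : ∀ c i, ev x y (fam c i) = 0 := by
    intro c i
    have h1 := hcon (eq c) i
    rwa [Equiv.symm_apply_apply] at h1
  obtain ⟨j0, hj0⟩ : ∃ j, y j ≠ 0 := by
    by_contra h
    push Not at h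
    exact hy (funext h)
  have hcomp : ∀ ψ : S, ∀ u : ℕ, u ≤ T → ∀ i, ev x y (homogeneousComponent u (ψ.1 i)) = 0 := by
    intro ψ u hu i
    have h1 := hfam0 (some (ψ, ⟨u, Nat.lt_succ_iff.2 hu⟩, j0)) i
    simp only [hfam, ev_mul, ev_pow, ev_X] at h1
    exact (mul_eq_zero.1 h1).resolve_left (pow_ne_zero _ hj0)
  have hgen : ∀ ψ ∈ S, ∀ i, ev x y (ψ i) = 0 := by
    intro ψ hψ i
    rw [← sum_homogeneousComponent (ψ i), ev_sum]
    refine Finset.sum_eq_zero fun u hu => ?_
    have h1 := Finset.mem_range.1 hu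
    have h2 := hdeg ψ hψ i
    exact hcomp ⟨ψ, hψ⟩ u (by omega) i
  have hspan : ∀ ψ ∈ Submodule.span (MvPolynomial (Fin (m + 1)) (MvPolynomial (Fin s) K))
      (S : Set (Fin (m + 1) → MvPolynomial (Fin (m + 1)) (MvPolynomial (Fin s) K))),
      ∀ i, ev x y (ψ i) = 0 := by
    intro ψ hψ
    induction hψ using Submodule.span_induction with
    | mem ψ h => exact hgen ψ h
    | zero => intro i; simp
    | add a b _ _ ha hb =>
      intro i
      rw [Pi.add_apply, ev_add, ha i, hb i, add_zero]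
    | smul c a _ ha =>
      intro i
      rw [Pi.smul_apply, smul_eq_mul, ev_mul, ha i, mul_zero]
  obtain ⟨i, hi⟩ := hex
  apply hi
  refine hspan Ψ ?_ i
  rw [hS]
  exact hΨ.2

end Pool.Agent.Work.MP_91e6de_nt.DMR

end

section

set_option autoImplicit false

/-!
# Item Start2: the first level, relative version
-/

namespace Pool.Agent.Work.MP_91e6de_nt.DMR

open MvPolynomial NumberField IsDedekindDomain Height
open Pool.Agent.Work.MP_91e6de_nt.DM (va nv)

theorem pr_Start2 (h1 : S_Good) (h2 : S_RelZ2) (h3 : S_Down) : S_Start2 := by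
  intro K σ _ _ _ p q e h M N k r B P I i hset hNk hI hdim hr1 hB1 hHB hon hNR
  have hr : 1 ≤ Fintype.card σ := Fintype.card_pos_iff.2 ⟨i⟩
  have hS0 : ∀ n ∈ Finset.range (N + 1), n + k ≤ M := by
    intro n hn
    rw [Finset.mem_range] at hn
    omega
  obtain ⟨v, a, S', hS', hcard, hgood⟩ := h1 K σ p q e h M k P (Finset.range (N + 1)) hset hr hS0
  rw [Finset.card_range] at hcard
  have hSle : ∀ n ∈ S', n ≤ N := by
    intro n hn
    have := hS' hn
    rw [Finset.mem_range] at this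
    omega
  have honS : ∀ n ∈ S', On I (P n) := fun n hn => hon n (by have := hSle n hn; omega)
  obtain ⟨E, hE0, hEdeg, hEv⟩ := h2 K σ p q e h M k r B P v a S' I i hset hgood
    (fun n hn => hS0 n (hS' hn)) hI hdim hr1 hB1 hHB honS hNR
  have hne : S'.Nonempty := by
    rw [Finset.nonempty_iff_ne_empty]
    intro h0
    rw [h0, Finset.card_empty, Nat.zero_mul] at hcard
    omega
  obtain ⟨r', rfl⟩ : ∃ r', r = r' + 1 := ⟨r - 1, by omega⟩
  have hLv : Lv P I S' (r' + 1) B
      (LG (Module.finrank ℚ K) (Fintype.card σ) k h) N N :=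
    ⟨hI, hdim, hHB, by omega, hSle, honS⟩
  obtain ⟨I', S'', hI'⟩ := h3 σ K P I E S' r' B
    (LG (Module.finrank ℚ K) (Fintype.card σ) k h) N N
    (DZ2 (Module.finrank ℚ K) (r' + 1) B h * (r' + 1 + e ^ k)) hLv hne hEdeg hEv hE0
  exact ⟨I', S'', hI'⟩

end Pool.Agent.Work.MP_91e6de_nt.DMR

end

section

set_option autoImplicit false

/-!
# Item T2AX: slow orbits of self-maps of projective varieties (Theorem U for `s = 0`)
-/

namespace Pool.Agent.Work.MP_91e6de_nt.DMR

open MvPolynomial NumberField IsDedekindDomain Height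

theorem T2AX_io_map_C {K : Type} [Field K] {σ : Type} (G : MvPolynomial σ K) :
    map (T2AG_io K) (map (C : K →+* MvPolynomial (Fin 0) K) G) = G := by
  rw [map_map]
  have h : (T2AG_io K).comp (C : K →+* MvPolynomial (Fin 0) K) = RingHom.id _ := by
    apply RingHom.ext
    intro r
    exact T2AG_io_C K r
  rw [h, map_id]

theorem T2AX_hc {R S σ : Type} [CommRing R] [CommRing S] (f : R →+* S) (G : MvPolynomial σ R)
    (j : ℕ) : homogeneousComponent j (map f G) = map f (homogeneousComponent j G) := by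
  classical
  ext m
  rw [coeff_homogeneousComponent, coeff_map, coeff_map, coeff_homogeneousComponent]
  split_ifs
  · rfl
  · rw [map_zero]

theorem T2AX_aeval {r : ℕ} {K : Type} [Field K]
    (F : Fin (r + 1) → MvPolynomial (Fin (r + 1)) K) (H : MvPolynomial (Fin (r + 1)) K) :
    map (T2AG_io K) (aeval (fun i => map (C : K →+* MvPolynomial (Fin 0) K) (F i)) H) =
      aeval F H := by
  rw [map_aeval]
  have h : (map (T2AG_io K)).comp (algebraMap K
      (MvPolynomial (Fin (r + 1)) (MvPolynomial (Fin 0) K))) =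
      algebraMap K (MvPolynomial (Fin (r + 1)) K) := by
    apply RingHom.ext
    intro c
    show map (T2AG_io K) (C (C c)) = C c
    rw [map_C, T2AG_io_C]
  rw [h]
  simp only [T2AX_io_map_C]
  rfl

theorem T2AX_comp {r : ℕ} {K : Type} [Field K] (g : Fin 0 → MvPolynomial (Fin 0) K)
    (F : Fin (r + 1) → MvPolynomial (Fin (r + 1)) K)
    (G : MvPolynomial (Fin (r + 1)) (MvPolynomial (Fin 0) K)) :
    map (T2AG_io K) (comp g (fun i => map (C : K →+* MvPolynomial (Fin 0) K) (F i)) G) =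
      aeval F (map (T2AG_io K) G) := by
  conv_lhs => rw [← T2AG_map_C G]
  unfold comp
  rw [T2AG_ev, T2AX_aeval]

theorem pr_T2AX (h1 : S_TUV) : S_T2AX := by
  intro r K _ _ IX F e k0 lam hr hprime hhom hX hF hF1 hinv hlam hdeg
  set F' : Fin (r + 1) → MvPolynomial (Fin (r + 1)) (MvPolynomial (Fin 0) K) :=
    fun i => map C (F i) with hF'
  set IV : Ideal (MvPolynomial (Fin (r + 1)) (MvPolynomial (Fin 0) K)) :=
    IX.comap (map (T2AG_io K)) with hIV
  have hmem : ∀ G, G ∈ IV ↔ map (T2AG_io K) G ∈ IX := fun G => Ideal.mem_comap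
  have hVar : VarV IV := by
    refine ⟨?_, ?_, ?_⟩
    · exact Ideal.IsPrime.comap _
    · intro G hG j
      rw [hmem, ← T2AX_hc]
      exact hhom _ ((hmem G).1 hG) j
    · obtain ⟨i, hi⟩ := hX
      refine ⟨i, fun h => hi ?_⟩
      have := (hmem _).1 h
      rwa [map_X] at this
  have hMap : MapV IV Fin.elim0 F' e := by
    refine ⟨fun i => (hF i).map _, ?_, ?_⟩
    · obtain ⟨i, hi⟩ := hF1
      refine ⟨i, fun h => hi ?_⟩
      have := (hmem _).1 h
      rwa [hF', T2AX_io_map_C] at this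
    · intro G hG
      rw [hmem, T2AX_comp]
      exact hinv _ ((hmem G).1 hG)
  obtain ⟨η, hη, hTU⟩ := h1 0 r K IV Fin.elim0 F' e k0 lam hr hVar hMap hlam
    (by
      intro k hk D G hG hGh hprop
      have h2 : dgX IX F k ≤ D := by
        apply Nat.sInf_le
        refine ⟨fun i => map (T2AG_io K) (G i), ?_, fun i => (hGh i).map _, ?_⟩
        · obtain ⟨i, hi⟩ := hG
          exact ⟨i, fun h => hi ((hmem _).2 h)⟩
        · intro i j
          have h3 := (hmem _).1 (hprop i j)
          rw [map_sub, map_mul, map_mul, T2AG_it, T2AG_it] at h3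
          exact h3
      refine (hdeg k hk).trans ?_
      exact_mod_cast h2)
  refine ⟨η, hη, fun P C' hP0 hPon hP hht => ?_⟩
  obtain ⟨t, G, hG, hGh, hGz⟩ := hTU (fun _ => Fin.elim0) P C'
    ⟨fun _ i => i.elim0, fun n G hG => by
      rw [← T2AG_map_C G, T2AG_ev]
      exact hPon n _ ((hmem G).1 hG), hP0, fun n => by
      obtain ⟨t, Φ, hΦ, hΦF, hPn⟩ := hP n
      refine ⟨t, fun i => map C (Φ i), ⟨fun i => (hΦ i).map _, fun i j => ?_⟩, fun i => ?_⟩
      · rw [hmem, map_sub, map_mul, map_mul]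
        simp only [hF', T2AX_io_map_C]
        exact hΦF i j
      · rw [T2AG_ev]
        exact hPn i⟩ (fun _ i => i.elim0) hht
  refine ⟨t, map (T2AG_io K) G, fun h => hG ((hmem G).2 h), hGh.map _, fun n => ?_⟩
  have h2 := hGz n
  rw [← T2AG_map_C G, T2AG_ev] at h2
  exact h2

end Pool.Agent.Work.MP_91e6de_nt.DMR

end

section

set_option autoImplicit false

/-!
# MP_91e6de DMR: Theorem U for arbitrary varieties
-/

namespace Pool.Agent.Work.MP_91e6de_nt.DMR

open MvPolynomial NumberField IsDedekindDomain Height Filter Topology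

theorem TUV_ell {s m : ℕ} {K : Type} [Field K]
    (IV : Ideal (MvPolynomial (Fin (m + 1)) (MvPolynomial (Fin s) K))) (a : Fin m → ℕ)
    (x : Fin s → K) (y : Fin (m + 1) → K) (hon : ∀ G ∈ IV, ev x y G = 0) (ha : ell a y ≠ 0) :
    (ell a fun i => (X i : MvPolynomial (Fin (m + 1)) (MvPolynomial (Fin s) K))) ∉ IV := by
  intro h
  apply ha
  have h3 := hon _ h
  unfold ell at h3 ⊢
  rw [ev_add, ev_sum] at h3
  simpa using h3

/-- one step of a periodic orbit -/
theorem TUV_step {s m : ℕ} {K : Type} [Field K]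
    (IV : Ideal (MvPolynomial (Fin (m + 1)) (MvPolynomial (Fin s) K)))
    (g : Fin s → MvPolynomial (Fin s) K)
    (F : Fin (m + 1) → MvPolynomial (Fin (m + 1)) (MvPolynomial (Fin s) K)) (e : ℕ)
    (hV : VarV IV) (hM : MapV IV g F e) (h9 : S_RepA)
    (x : ℕ → Fin s → K) (y : ℕ → Fin (m + 1) → K) (ho : OrbV IV g F x y) (n n' : ℕ)
    (hx : x n = x n') (c : K) (hc : c ≠ 0) (hy : y n' = fun i => c * y n i) :
    x (n + 1) = x (n' + 1) ∧ ∃ d : K, d ≠ 0 ∧ y (n' + 1) = fun i => d * y (n + 1) i := by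
  obtain ⟨hR, -, -, -⟩ := h9 s m K IV g F e hV hM
  refine ⟨?_, ?_⟩
  · funext i
    rw [ho.base, ho.base, hx]
  obtain ⟨t, Φ, hΦ, hΦy⟩ := ho.step n
  obtain ⟨t', Ψ, hΨ, hΨy⟩ := ho.step n'
  apply TU_prop _ _ (ho.ne _) (ho.ne _)
  intro i j
  have h1 := ho.on n _ (hR t t' Φ Ψ hΦ hΨ i j)
  rw [ev_sub, ev_mul, ev_mul] at h1
  rw [hΦy i, hΦy j, hΨy i, hΨy j, hy, ← hx, ev_smul _ _ _ _ _ (hΨ.1 i),
    ev_smul _ _ _ _ _ (hΨ.1 j)]
  linear_combination c ^ t' * h1

theorem TUV_per {s m : ℕ} {K : Type} [Field K]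
    (IV : Ideal (MvPolynomial (Fin (m + 1)) (MvPolynomial (Fin s) K)))
    (g : Fin s → MvPolynomial (Fin s) K)
    (F : Fin (m + 1) → MvPolynomial (Fin (m + 1)) (MvPolynomial (Fin s) K)) (e : ℕ)
    (hV : VarV IV) (hM : MapV IV g F e) (h9 : S_RepA)
    (x : ℕ → Fin s → K) (y : ℕ → Fin (m + 1) → K) (ho : OrbV IV g F x y) (n n' : ℕ)
    (hx : x n = x n') (c : K) (hc : c ≠ 0) (hy : y n' = fun i => c * y n i) (l : ℕ) :
    x (n + l) = x (n' + l) ∧ ∃ d : K, d ≠ 0 ∧ y (n' + l) = fun i => d * y (n + l) i := by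
  induction l with
  | zero => exact ⟨hx, c, hc, hy⟩
  | succ l ih =>
    obtain ⟨h1, d, hd, h2⟩ := ih
    exact TUV_step IV g F e hV hM h9 x y ho (n + l) (n' + l) h1 d hd h2

theorem TUV_fin {s m : ℕ} {K : Type} [Field K]
    (IV : Ideal (MvPolynomial (Fin (m + 1)) (MvPolynomial (Fin s) K)))
    (g : Fin s → MvPolynomial (Fin s) K)
    (F : Fin (m + 1) → MvPolynomial (Fin (m + 1)) (MvPolynomial (Fin s) K)) (e : ℕ)
    (hV : VarV IV) (hM : MapV IV g F e) (h9 : S_RepA)
    (x : ℕ → Fin s → K) (y : ℕ → Fin (m + 1) → K) (ho : OrbV IV g F x y) (n n' : ℕ)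
    (hn : n < n') (hx : x n = x n') (c : K) (hc : c ≠ 0) (hy : y n' = fun i => c * y n i)
    (N : ℕ) :
    ∃ l < n', x N = x l ∧ ∃ d : K, d ≠ 0 ∧ y N = fun i => d * y l i := by
  induction N using Nat.strong_induction_on with
  | _ N ih =>
    by_cases hN : N < n'
    · exact ⟨N, hN, rfl, 1, one_ne_zero, by simp⟩
    · push Not at hN
      obtain ⟨l, rfl⟩ := Nat.exists_eq_add_of_le hN
      obtain ⟨h1, d, hd, h2⟩ := TUV_per IV g F e hV hM h9 x y ho n n' hx c hc hy l
      obtain ⟨l', hl', h3, d', hd', h4⟩ := ih (n + l) (by omega)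
      refine ⟨l', hl', by rw [← h1, h3], d * d', mul_ne_zero hd hd', ?_⟩
      rw [h2, h4]
      funext i
      ring

/-- generators of `IV` and the degrees in the charts -/
theorem TUV_gen {s m : ℕ} {K : Type} [Field K]
    (IV : Ideal (MvPolynomial (Fin (m + 1)) (MvPolynomial (Fin s) K))) :
    ∃ (T : Finset (MvPolynomial (Fin (m + 1)) (MvPolynomial (Fin s) K))) (c : ℕ),
      IV = Ideal.span T ∧ ∀ a : Fin m → ℕ, ∀ G ∈ T, (dhB a G).totalDegree ≤ c := by
  classical
  obtain ⟨T, hT⟩ := (isNoetherianRing_iff_ideal_fg _).mp (inferInstance : IsNoetherianRing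
    (MvPolynomial (Fin (m + 1)) (MvPolynomial (Fin s) K))) IV
  choose E hE using fun G => codb_dh (s := s) (m := m) (A := K) G
  refine ⟨T, ∑ G ∈ T, E G, hT.symm, fun a G hG => (hE G a).trans ?_⟩
  exact Finset.single_le_sum (f := E) (fun _ _ => Nat.zero_le _) hG

theorem pr_TUV (h1 : S_WinV) (h2 : S_ParR) (h3 : S_WndG) (h4 : S_TailV) (h5 : S_FinV)
    (h6 : S_HBV) (h7 : S_RepFin) (h8 : S_WndR) (h9 : S_RepA) (h10 : S_GrPt) (h11 : S_GrNd) :
    S_TUV := by
  intro s m K _ _ IV g F e k0 lam hm hV hM hlam hGr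
  obtain ⟨r, B, hB, hDH⟩ := h6 s m K IV hV
  rcases Nat.eq_zero_or_pos r with hr0 | hr
  · refine ⟨1, one_pos, ?_⟩
    intro x y C ho hhx hhy
    exfalso
    obtain ⟨a, -, ha⟩ := h3 K m 0 y ho.ne
    have ha0 := ha 0 le_rfl
    have hd := (hDH a (TUV_ell IV a (x 0) (y 0) (ho.on 0) ha0)).1
    have := h10 s m K IV g F e k0 r (lam ^ k0) (x 0) (y 0) a hV hM (ho.on 0) ha0
      (pow_pos (by linarith) _) (hGr k0 le_rfl) hd
    omega
  have hdim : ∀ a : Fin m → ℕ,
      (ell a fun i => (X i : MvPolynomial (Fin (m + 1)) (MvPolynomial (Fin s) K))) ∉ IV →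
        Dim (chI a IV) r := fun a ha => (hDH a ha).1
  obtain ⟨l, e', Φ, hΦ, hΦ2⟩ := h7 s m K IV g F e hV hM
  obtain ⟨E, A, C1, C0, hE, hC0, hW⟩ := h1 s m l K IV g F Φ e e' r B hm hr hB hV hM hΦ hDH
  obtain ⟨T, cT, hT, hcT⟩ := TUV_gen IV
  have hfin : 1 ≤ Module.finrank ℚ K := Nat.one_le_iff_ne_zero.mpr Module.finrank_pos.ne'
  obtain ⟨η, hη, hP⟩ := h2 (Module.finrank ℚ K) (s + m) E k0 A C1 lam hfin (by omega) hE hlam
  refine ⟨η, hη, ?_⟩
  intro x y C ho hhx hhy
  obtain ⟨hRA, hRB, -, -⟩ := h9 s m K IV g F e hV hM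
  by_cases hcase : ∃ n n', n < n' ∧ (x n = x n' ∧ ∀ i j, y n i * y n' j = y n j * y n' i)
  · obtain ⟨n, n', hn, hx, hy⟩ := hcase
    obtain ⟨c, hc, hyc⟩ := TU_prop (y n) (y n') (ho.ne n) (ho.ne n') hy
    obtain ⟨t, G, hG0, hGh, hGv⟩ := h5 s m K IV r (Finset.range n') x y hV hr hdim
      (fun n _ => ho.ne n) (fun n _ => ho.on n)
    refine ⟨t, G, hG0, hGh, ?_⟩
    intro N
    obtain ⟨l', hl', h12, d, hd, h13⟩ :=
      TUV_fin IV g F e hV hM h9 x y ho n n' hn hx c hc hyc N
    rw [h13, h12, ev_smul _ _ _ _ _ hGh, hGv l' (Finset.mem_range.mpr hl'), mul_zero]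
  · push Not at hcase
    have hcase' : ∀ n n', n < n' → ¬ (x n = x n' ∧ ∀ i j, y n i * y n' j = y n j * y n' i) := by
      intro n n' hn hh
      obtain ⟨i, j, hij⟩ := hcase n n' hn hh.1
      exact hij (hh.2 i j)
    obtain ⟨N0, hN0⟩ := hP (C0 * (1 + 5 ^ η * (|C| + 1 / η)) + cT)
    set N := max N0 1 with hNdef
    have hN1 : 1 ≤ N := le_max_right _ _
    obtain ⟨h, k, X', hh1, hh2, hk0, hX2, hhX, hkX, hEX, hXA, hlamk⟩ := hN0 N (le_max_left _ _)
    have hNe : (1 : ℝ) ≤ (N : ℝ) ^ η :=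
      Real.one_le_rpow (by exact_mod_cast hN1) hη.le
    have hcN : (cT : ℝ) ≤ cT * (N : ℝ) ^ η := le_mul_of_one_le_right (by positivity) hNe
    have hbig : 0 ≤ C0 * (1 + 5 ^ η * (|C| + 1 / η)) * (N : ℝ) ^ η := by positivity
    have hh3 : C0 * (1 + 5 ^ η * (|C| + 1 / η)) * (N : ℝ) ^ η ≤ h := by
      refine le_trans ?_ hh1
      rw [add_mul]
      linarith
    have hh4 : cT ≤ h := by
      have : (cT : ℝ) ≤ h := by
        refine le_trans ?_ hh1
        rw [add_mul]
        linarith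
      exact_mod_cast this
    obtain ⟨a, ha1, ha2⟩ := h3 K m (3 * N) y ho.ne
    obtain ⟨b, hb1, hb2⟩ := h8 s m l (3 * N) K Φ x y
      (by
        intro n _
        obtain ⟨t, Ψ, hΨ, hΨy⟩ := ho.step n
        apply hΦ2 (x n) (y n) t Ψ (ho.on n) (ho.ne n) hΨ
        by_contra hcon
        push Not at hcon
        apply ho.ne (n + 1)
        funext i
        rw [hΨy i, hcon i]
        rfl)
      (by
        intro n _ j j' i i'
        have h12 := ho.on n _ (hRA e' e' (Φ j) (Φ j') (hΦ j) (hΦ j') i i')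
        rw [ev_sub, ev_mul, ev_mul] at h12
        exact sub_eq_zero.mp h12)
    set H : ℝ := max (|C| * (3 * (N : ℝ) + 1) ^ η) (Real.log (3 * (N : ℝ) + 2)) with hH
    have hCH : ∀ n ≤ 3 * N, C * ((n : ℝ) + 1) ^ η ≤ H := by
      intro n hn
      have hn' : (n : ℝ) ≤ 3 * N := by exact_mod_cast hn
      calc C * ((n : ℝ) + 1) ^ η ≤ |C| * ((n : ℝ) + 1) ^ η := by
            gcongr
            exact le_abs_self C
        _ ≤ |C| * (3 * (N : ℝ) + 1) ^ η := by gcongr
        _ ≤ H := le_max_left _ _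
    have hlog : ∀ z : ℕ, z ≤ 3 * N + 1 → Real.log ((z : ℝ) + 1) ≤ H := by
      intro z hz
      refine le_trans ?_ (le_max_right _ _)
      apply Real.log_le_log (by positivity)
      have : (z : ℝ) ≤ 3 * N + 1 := by exact_mod_cast hz
      linarith
    have hC1 : ((C1 * h ^ (s + m) + C1 : ℕ) : ℝ) < lam ^ k := by
      refine lt_of_le_of_lt ?_ hlamk
      have h12 : C1 * h ^ (s + m) + C1 ≤ C1 * (DZ (Module.finrank ℚ K) (s + m) h + 1) := by
        have h13 : h ^ (s + m) ≤ DZ (Module.finrank ℚ K) (s + m) h := by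
          unfold DZ
          calc h ^ (s + m) ≤ (7 * Module.finrank ℚ K * (s + m + 1) * h) ^ (s + m) := by
                apply Nat.pow_le_pow_left
                apply Nat.le_mul_of_pos_left
                positivity
            _ ≤ _ := Nat.le_mul_of_pos_left _ (by positivity)
        calc C1 * h ^ (s + m) + C1 ≤ C1 * DZ (Module.finrank ℚ K) (s + m) h + C1 := by gcongr
          _ = _ := by ring
      exact_mod_cast h12
    have hcyc := hW x y a b N h k X' H (lam ^ k) ho hcase' ha2 hb2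
      (fun n hn i => (hhx n i).trans (hCH n hn)) (fun n hn => (hhy n).trans (hCH n hn))
      (fun i => hlog _ (ha1 i)) (fun i => hlog _ (hb1 i))
      ((TU_num C C0 η hη hC0 N hN1).trans hh3) hh2 hX2 hhX hkX hEX hXA
      (fun k' _ => h11 s m K IV g F e k0 lam hV hM hlam hGr k') (hGr k hk0) hC1
    have hda := hdim a (TUV_ell IV a (x 0) (y 0) (ho.on 0) (ha2 0 (Nat.zero_le _)))
    obtain ⟨n0, t, G, hG0, hGh, hGv⟩ := h4 s m K IV g F (cmb Φ b) e e' (3 * N) h r a x y hV hM
      (hRB l e' Φ b hΦ) ho ha2 hda ⟨T, hT, fun G hG => (hcT a G hG).trans hh4⟩ hcyc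
    obtain ⟨t', G', hG0', hGh', hGv'⟩ := h5 s m K IV r (Finset.range n0) x y hV hr hdim
      (fun n _ => ho.ne n) (fun n _ => ho.on n)
    refine ⟨t + t', G * G', ?_, hGh.mul hGh', ?_⟩
    · intro hmem
      rcases hV.prime.mem_or_mem hmem with hmem | hmem
      · exact hG0 hmem
      · exact hG0' hmem
    intro n
    rw [ev_mul]
    by_cases hn : n0 ≤ n
    · rw [hGv n hn, zero_mul]
    · rw [hGv' n (Finset.mem_range.mpr (by omega)), mul_zero]

end Pool.Agent.Work.MP_91e6de_nt.DMR

end
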