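import Mathlib
import Pool.Agent.Work.MP_91e6de_nt.DMR.StmtsV
import Pool.Agent.Work.MP_91e6de_nt.DMR.StmtsB
import Pool.Agent.Work.MP_91e6de_nt.DMR.StmtsW
import Pool.Agent.Work.MP_91e6de_nt.Bd.B03

/-! Bundle of small proof modules (one section per former module). -/

section

set_option autoImplicit false

/-!
# TailV: a cyclic chain contains the rest of the orbit, arbitrary varieties
-/

namespace Pool.Agent.Work.MP_91e6de_nt.DMR

open MvPolynomial

/-- All forms whose restriction to the chart is in `I` vanish at `(x, y)`. -/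
def TailV_Z {s m : ℕ} {K : Type} [Field K] (a : Fin m → ℕ)
    (I : Ideal (MvPolynomial (Fin s ⊕ Fin m) K)) (x : Fin s → K) (y : Fin (m + 1) → K) : Prop :=
  ∀ (t : ℕ) (G : MvPolynomial (Fin (m + 1)) (MvPolynomial (Fin s) K)), G.IsHomogeneous t →
    dhB a G ∈ I → ev x y G = 0

theorem TailV_hsub_one {σ K : Type} [Fintype σ] [Field K] (p : σ → MvPolynomial σ K)
    (q : MvPolynomial σ K) : hsub 1 (1 : MvPolynomial σ K) p q = q := by
  classical
  unfold hsub
  have h1 : (1 : MvPolynomial σ K).support = {0} := support_one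
  rw [h1, Finset.sum_singleton]
  simp

theorem TailV_chI {s m : ℕ} {K : Type} [Field K] (a : Fin m → ℕ)
    (IV : Ideal (MvPolynomial (Fin (m + 1)) (MvPolynomial (Fin s) K)))
    (G : MvPolynomial (Fin (m + 1)) (MvPolynomial (Fin s) K)) (hG : G ∈ IV) :
    dhB a G ∈ chI a IV :=
  Ideal.mem_map_of_mem (evHom (A := K) (fun i => X (Sum.inl i)) (hc a fun i => X (Sum.inr i))) hG

/-- Restriction to the chart, modulo `I`. -/
theorem TailV_mk {s m : ℕ} {K : Type} [Field K] (a : Fin m → ℕ)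
    (I : Ideal (MvPolynomial (Fin s ⊕ Fin m) K))
    (G : MvPolynomial (Fin (m + 1)) (MvPolynomial (Fin s) K)) :
    dhB a G ∈ I ↔ ev (fun i => Ideal.Quotient.mkₐ K I (X (Sum.inl i)))
      (fun i => Ideal.Quotient.mkₐ K I (hc a (fun i => X (Sum.inr i)) i)) G = 0 := by
  rw [← map_ev (Ideal.Quotient.mkₐ K I), Ideal.Quotient.mkₐ_eq_mk,
    Ideal.Quotient.eq_zero_iff_mem]
  rfl

/-- Two proportional representations. -/
theorem TailV_rep {s m : ℕ} {K S : Type} [Field K] [CommRing S] [IsDomain S] [Algebra K S]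
    (a : Fin m → ℕ) (x : Fin s → S) (f p : Fin (m + 1) → S)
    (hfp : ∀ i j, f i * p j = f j * p i) (hf : ell a f ≠ 0) (u : ℕ)
    (G : MvPolynomial (Fin (m + 1)) (MvPolynomial (Fin s) K)) (hG : G.IsHomogeneous u)
    (h0 : ev x f G = 0) : ev x p G = 0 := by
  have h1 : (fun j => ell a f * p j) = fun j => ell a p * f j := by
    funext j
    unfold ell
    rw [add_mul, add_mul, Finset.sum_mul, Finset.sum_mul, hfp (Fin.last m) j,
      mul_comm (f j) (p (Fin.last m))]
    congr 1
    refine Finset.sum_congr rfl fun i _ => ?_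
    rw [mul_assoc, hfp i.castSucc j]
    ring
  have h2 := ev_smul x p (ell a f) u G hG
  rw [h1, ev_smul x f (ell a p) u G hG, h0, mul_zero] at h2
  rcases mul_eq_zero.mp h2.symm with h3 | h3
  · exact absurd h3 (pow_ne_zero u hf)
  · exact h3

theorem TailV_step (h1 : S_HomT) {s m : ℕ} {K : Type} [Field K] (e' t : ℕ) (a : Fin m → ℕ)
    (IV : Ideal (MvPolynomial (Fin (m + 1)) (MvPolynomial (Fin s) K)))
    (g : Fin s → MvPolynomial (Fin s) K)
    (Φ Ψ : Fin (m + 1) → MvPolynomial (Fin (m + 1)) (MvPolynomial (Fin s) K))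
    (hΦ : ∀ i, (Φ i).IsHomogeneous e') (hΨ : ∀ i, (Ψ i).IsHomogeneous t)
    (hr : ∀ i j, Φ i * Ψ j - Φ j * Ψ i ∈ IV) (I J : Ideal (MvPolynomial (Fin s ⊕ Fin m) K))
    (hI : I.IsPrime) (hJ : J.IsPrime) (hIV : chI a IV ≤ I)
    (hP : Push (pB a g Φ) (qB a Φ) I J)
    (x : Fin s → K) (y : Fin (m + 1) → K) (hZ : TailV_Z a I x y) :
    TailV_Z a J (fun i => aeval x (g i)) (fun i => ev x y (Ψ i)) := by
  have hq : qB a Φ ∉ I := by
    intro h
    have h2 := (hP 1 1 (by simp)).mpr (by rw [TailV_hsub_one]; exact h)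
    exact hJ.ne_top ((Ideal.eq_top_iff_one J).mpr h2)
  have hq0 : qB a Φ ≠ 0 := fun h => hq (h ▸ I.zero_mem)
  intro u G hG hGJ
  have h2 := h1 s m K e' u (max u (dhB a G).totalDegree) a g Φ G hΦ hG (le_max_left _ _)
    (le_max_right _ _) hq0
  have h3 := (hP (dhB a G) (max u (dhB a G).totalDegree) (le_max_right _ _)).mp hGJ
  rw [h2] at h3
  have h4 : dhB a (comp g Φ G) ∈ I := by
    rcases hI.mem_or_mem h3 with h | h
    · exact absurd (hI.mem_of_pow_mem _ h) hq
    · exact h
  have h5 : dhB a (comp g Ψ G) ∈ I := by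
    have hdom : IsDomain (MvPolynomial (Fin s ⊕ Fin m) K ⧸ I) := Ideal.Quotient.isDomain I
    rw [TailV_mk, ev_comp] at h4 ⊢
    refine TailV_rep a _ _ _ ?_ ?_ u G hG h4
    · intro i j
      have h6 := (TailV_mk a I _).mp (hIV (TailV_chI a IV _ (hr i j)))
      rw [ev_sub, ev_mul, ev_mul] at h6
      exact sub_eq_zero.mp h6
    · intro h6
      apply hq
      have h7 := map_ell (Ideal.Quotient.mkₐ K I) a (fun i => dhB a (Φ i))
      have h8 : (fun i => Ideal.Quotient.mkₐ K I (dhB a (Φ i))) =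
          fun i => ev (fun i => Ideal.Quotient.mkₐ K I (X (Sum.inl i)))
            (fun i => Ideal.Quotient.mkₐ K I (hc a (fun i => X (Sum.inr i)) i)) (Φ i) := by
        funext i
        exact map_ev (Ideal.Quotient.mkₐ K I) _ _ (Φ i)
      rw [h8, h6, Ideal.Quotient.mkₐ_eq_mk, Ideal.Quotient.eq_zero_iff_mem] at h7
      exact h7
  have h6 := hZ (t * u) (comp g Ψ G) (comp_homog g Ψ t u hΨ G hG) h5
  rwa [ev_comp] at h6

theorem TailV_mod (I : ℕ → Prop) (g0 k : ℕ) (hg : 1 ≤ g0) (h0 : I g0 → I 0)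
    (h : I (k % g0 + 1)) : I ((k + 1) % g0) := by
  have h1 : k % g0 < g0 := Nat.mod_lt _ hg
  have h2 := Nat.div_add_mod k g0
  rcases Nat.lt_or_ge (k % g0 + 1) g0 with h3 | h3
  · have h4 : (k + 1) % g0 = k % g0 + 1 := by
      conv_lhs => rw [← h2, add_assoc, Nat.mul_add_mod]
      exact Nat.mod_eq_of_lt h3
    rw [h4]
    exact h
  · have h4 : k % g0 + 1 = g0 := by omega
    have h5 : (k + 1) % g0 = 0 := by
      conv_lhs => rw [← h2, add_assoc, Nat.mul_add_mod, h4]
      exact Nat.mod_self g0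
    rw [h5]
    rw [h4] at h
    exact h0 h

/-- The ideal of `V` in the chart is contained in the members of the chain. -/
theorem TailV_le {s m : ℕ} {K : Type} [Field K] (a : Fin m → ℕ)
    (IV : Ideal (MvPolynomial (Fin (m + 1)) (MvPolynomial (Fin s) K)))
    (h M : ℕ) (x : ℕ → Fin s → K) (y : ℕ → Fin (m + 1) → K)
    (hell : ∀ n ≤ M, ell a (y n) ≠ 0)
    (hon : ∀ n, ∀ c : K, ∀ G ∈ IV, ev (x n) (fun i => c * y n i) G = 0)
    (T : Finset (MvPolynomial (Fin (m + 1)) (MvPolynomial (Fin s) K)))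
    (hT : IV = Ideal.span (T : Set _)) (hTd : ∀ G ∈ T, (dhB a G).totalDegree ≤ h)
    (I : Ideal (MvPolynomial (Fin s ⊕ Fin m) K))
    (hI : ∀ G : MvPolynomial (Fin s ⊕ Fin m) K, G.totalDegree ≤ h →
      (∀ n ≤ M, aeval (Sum.elim (x n) (ch a (y n))) G = 0) → G ∈ I) : chI a IV ≤ I := by
  have hTI : ∀ G ∈ T, G ∈ IV := fun G hG => by
    rw [hT]
    exact Ideal.subset_span hG
  unfold chI
  rw [Ideal.map_le_iff_le_comap]
  conv_lhs => rw [hT]
  rw [Ideal.span_le]
  intro G hG
  rw [SetLike.mem_coe, Ideal.mem_comap]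
  refine hI (dhB a G) (hTd G hG) fun n hn => ?_
  rw [aeval_dhB, hc_ch a (y n) (hell n hn)]
  exact hon n _ G (hTI G hG)

/-- a cyclic chain contains the rest of the orbit -/
theorem pr_TailV (h1 : S_HomT) (h2 : S_Hz) (h4 : S_RepA) : S_TailV := by
  intro s m K _ IV g F Φ e e' M h r a x y hV hM hR hO hell hD hT hC
  classical
  obtain ⟨T, hT, hTd⟩ := hT
  obtain ⟨n0, g0, I, hn0, hg0, hI, hP, hI0, hOn⟩ := hC
  have h4' := h4 s m K IV g F e hV hM
  have hle : ∀ i ≤ g0, chI a IV ≤ I i := fun i hi =>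
    TailV_le a IV h M x y hell (fun n c => h4'.2.2.2 (x n) (y n) c (hO.on n)) T hT hTd (I i)
      (hI i hi).2.2
  have hnle : ∀ i ≤ g0, ∃ H ∈ I i, H ∉ chI a IV := by
    intro i hi
    by_contra hcon
    push Not at hcon
    obtain ⟨d, hd, hDd⟩ := (hI i hi).2.1
    obtain ⟨J, hJ, hJi⟩ := hD.1
    have h5 := hDd.2 J (Ind_anti hJi hcon)
    omega
  have hZ : ∀ k, TailV_Z a (I (k % g0)) (x (n0 + k)) (y (n0 + k)) := by
    intro k
    induction k with
    | zero =>
      intro t G hG hGI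
      rw [Nat.zero_mod] at hGI
      rw [Nat.add_zero, ev_eq_chart a (x n0) (y n0) (hell n0 hn0) t G hG, hOn _ hGI, mul_zero]
    | succ k ih =>
      have hlt : k % g0 < g0 := Nat.mod_lt _ hg0
      obtain ⟨t, Ψ, hΨ, hy⟩ := hO.step (n0 + k)
      have h3 := TailV_step h1 e' t a IV g Φ Ψ hR.1 hΨ.1 (h4'.1 e' t Φ Ψ hR hΨ) (I (k % g0))
        (I (k % g0 + 1)) (hI _ hlt.le).1 (hI _ hlt).1 (hle _ hlt.le) (hP _ hlt) _ _ ih
      have h4 : (fun i => aeval (x (n0 + k)) (g i)) = x (n0 + (k + 1)) := by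
        funext i
        exact (hO.base (n0 + k) i).symm
      have h5 : (fun i => ev (x (n0 + k)) (y (n0 + k)) (Ψ i)) = y (n0 + (k + 1)) := by
        funext i
        exact (hy i).symm
      rw [h4, h5] at h3
      exact TailV_mod (fun i => TailV_Z a (I i) (x (n0 + (k + 1))) (y (n0 + (k + 1)))) g0 k hg0
        (fun h => by simpa only [hI0] using h) h3
  have hG : ∀ i, ∃ (t : ℕ) (G : MvPolynomial (Fin (m + 1)) (MvPolynomial (Fin s) K)),
      i < g0 → (G ∉ IV ∧ G.IsHomogeneous t ∧ dhB a G ∈ I i) := by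
    intro i
    by_cases hi : i < g0
    · obtain ⟨H, hH, hH0⟩ := hnle i hi.le
      obtain ⟨G, hGh, hGd⟩ := (h2 s m K a).1 H.totalDegree H (by
        intro u hu
        have h3 := le_totalDegree hu
        rw [Finsupp.sum_fintype _ _ (by intro i; rfl), Fintype.sum_sum_type] at h3
        omega)
      refine ⟨_, G, fun _ => ⟨?_, hGh, by rw [hGd]; exact hH⟩⟩
      intro h
      apply hH0
      rw [← hGd]
      exact TailV_chI a IV G h
    · exact ⟨0, 0, fun h => absurd h hi⟩
  choose t G hG using hG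
  refine ⟨n0, ∑ i ∈ Finset.range g0, t i, ∏ i ∈ Finset.range g0, G i, ?_, ?_, ?_⟩
  · intro h5
    obtain ⟨i, hi, hGi⟩ := (hV.prime.prod_mem_iff).mp h5
    exact (hG i (Finset.mem_range.mp hi)).1 hGi
  · exact IsHomogeneous.prod _ _ _ fun i hi => (hG i (Finset.mem_range.mp hi)).2.1
  · intro n hn
    obtain ⟨k, rfl⟩ := Nat.exists_eq_add_of_le hn
    have hlt : k % g0 < g0 := Nat.mod_lt _ hg0
    rw [ev_prod]
    exact Finset.prod_eq_zero (Finset.mem_range.mpr hlt)
      (hZ k _ _ (hG _ hlt).2.1 (hG _ hlt).2.2)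

end Pool.Agent.Work.MP_91e6de_nt.DMR

end

section

set_option autoImplicit false

/-!
# MP_91e6de, item ThAX: THEOREM A* from the determinant method theorem
-/

namespace Pool.Agent.Work.MP_91e6de_nt.DMR

open MvPolynomial NumberField Height Filter Topology

theorem ThAX_zero {K : Type} [Field K] (IX : Ideal (MvPolynomial (Fin (0 + 1)) K))
    (F : Fin (0 + 1) → MvPolynomial (Fin (0 + 1)) K) (hI : IX.IsPrime) (n : ℕ) :
    dgX IX F n = 0 := by
  unfold dgX
  rw [Nat.sInf_eq_zero]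
  left
  refine ⟨fun _ => 1, ⟨0, ?_⟩, fun _ => isHomogeneous_one _ _, ?_⟩
  · intro h
    exact hI.ne_top ((Ideal.eq_top_iff_one _).mpr h)
  · intro i j
    have : i = j := by
      apply Fin.ext
      have h1 := i.isLt
      have h2 := j.isLt
      omega
    rw [this, sub_self]
    exact IX.zero_mem

theorem pr_ThAX (h1 : S_T2AX) : S_ThAX := by
  intro r K _ _ IX F e δ hIp hIh hIX hF hF0 hFI hlim hδ
  rcases Nat.eq_zero_or_pos r with hr0 | hr
  · subst hr0
    exfalso
    have h0 : Tendsto (fun n : ℕ => (dgX IX F n : ℝ) ^ ((1 : ℝ) / n)) atTop (𝓝 0) := by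
      apply tendsto_const_nhds.congr'
      filter_upwards [eventually_ge_atTop 1] with n hn
      rw [ThAX_zero IX F hIp n]
      have hn' : (1 : ℝ) / n ≠ 0 := by
        have : (n : ℝ) ≠ 0 := by
          have : n ≠ 0 := by omega
          exact_mod_cast this
        exact one_div_ne_zero this
      rw [Nat.cast_zero, Real.zero_rpow hn']
    have := tendsto_nhds_unique hlim h0
    linarith
  -- the growth of the degrees
  set lam : ℝ := (1 + δ) / 2 with hlam
  have hlam1 : 1 < lam := by rw [hlam]; linarith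
  have hlamδ : lam < δ := by rw [hlam]; linarith
  obtain ⟨k0, hk0⟩ := (hlim.eventually_const_lt hlamδ).exists_forall_of_atTop
  have hdeg : ∀ k, k0 + 1 ≤ k → lam ^ k ≤ dgX IX F k := by
    intro k hk
    have h1 := hk0 k (by omega)
    have hk0' : (k : ℝ) ≠ 0 := by
      have : 0 < k := by omega
      exact_mod_cast this.ne'
    have h2 : lam ^ k ≤ ((dgX IX F k : ℝ) ^ ((1 : ℝ) / k)) ^ k :=
      pow_le_pow_left₀ (by linarith) h1.le k
    rw [← Real.rpow_natCast ((dgX IX F k : ℝ) ^ ((1 : ℝ) / k)) k, ← Real.rpow_mul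
      (Nat.cast_nonneg _), one_div, inv_mul_cancel₀ hk0', Real.rpow_one] at h2
    exact h2
  obtain ⟨η, hη, hmain⟩ := h1 r K IX F e (k0 + 1) lam hr hIp hIh hIX hF hF0 hFI hlam1 hdeg
  refine ⟨η, hη, fun P hP hPI hO hdense C0 => ?_⟩
  by_contra hfreq
  rw [not_frequently] at hfreq
  obtain ⟨n0, hn0⟩ := hfreq.exists_forall_of_atTop
  have hfin : (0 : ℝ) < Module.finrank ℚ K := by
    exact_mod_cast Module.finrank_pos
  -- bounds for all heights
  set M : ℝ := ∑ n ∈ Finset.range n0, logHeight (P n) with hM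
  have hM0 : 0 ≤ M := Finset.sum_nonneg fun n _ => logHeight_nonneg _
  have hbound : ∀ n : ℕ, logHeight (P n) ≤
      (|C0| * Module.finrank ℚ K + M) * ((n : ℝ) + 1) ^ η := by
    intro n
    have hn' : (0 : ℝ) ≤ n := Nat.cast_nonneg n
    have h1 : 1 ≤ ((n : ℝ) + 1) ^ η := Real.one_le_rpow (by linarith) hη.le
    rcases lt_or_ge n n0 with h | h
    · have h2 : logHeight (P n) ≤ M :=
        Finset.single_le_sum (f := fun n => logHeight (P n)) (fun n _ => logHeight_nonneg _)
          (Finset.mem_range.mpr h)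
      have h3 : 0 ≤ |C0| * Module.finrank ℚ K := by positivity
      nlinarith
    · have h2 := hn0 n h
      rw [not_lt, div_le_iff₀ hfin] at h2
      have h3 : C0 * (n : ℝ) ^ η ≤ |C0| * ((n : ℝ) + 1) ^ η := by
        have h4 : (n : ℝ) ^ η ≤ ((n : ℝ) + 1) ^ η :=
          Real.rpow_le_rpow hn' (by linarith) hη.le
        have h5 : 0 ≤ (n : ℝ) ^ η := Real.rpow_nonneg hn' η
        calc C0 * (n : ℝ) ^ η ≤ |C0| * (n : ℝ) ^ η :=
              mul_le_mul_of_nonneg_right (le_abs_self C0) h5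
          _ ≤ _ := mul_le_mul_of_nonneg_left h4 (abs_nonneg C0)
      have h4 : C0 * (n : ℝ) ^ η * Module.finrank ℚ K ≤
          |C0| * ((n : ℝ) + 1) ^ η * Module.finrank ℚ K :=
        mul_le_mul_of_nonneg_right h3 hfin.le
      nlinarith
  obtain ⟨t, G, hG, hGh, hGz⟩ := hmain P (|C0| * Module.finrank ℚ K + M) hP hPI hO hbound
  exact hG (hdense t G hGh hGz)

end Pool.Agent.Work.MP_91e6de_nt.DMR

end

section

set_option autoImplicit false

/-!
# Item ThB: THEOREM B
-/

namespace Pool.Agent.Work.MP_91e6de_nt.DMR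

open MvPolynomial NumberField IsDedekindDomain Height Filter Topology

theorem ThB_log (n : ℕ) : 1 ≤ 2 * Real.log ((n : ℝ) + 2) := by
  have h1 : Real.log 2 ≤ Real.log ((n : ℝ) + 2) := by
    apply Real.log_le_log (by norm_num)
    have : (0 : ℝ) ≤ n := Nat.cast_nonneg n
    linarith
  have h2 := Real.log_two_gt_d9
  linarith

theorem ThB_log_le (d n : ℕ) (hd : 2 ≤ d) : Real.log ((n : ℝ) + 2) ≤ (d : ℝ) ^ n := by
  have h0 : (0 : ℝ) ≤ n := Nat.cast_nonneg n
  have h1 : Real.log ((n : ℝ) + 2) ≤ (n : ℝ) + 2 - 1 :=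
    Real.log_le_sub_one_of_pos (by linarith)
  have h2 : n + 1 ≤ 2 ^ n := Nat.lt_two_pow_self
  have h3 : (n : ℝ) + 1 ≤ 2 ^ n := by exact_mod_cast h2
  have h4 : (2 : ℝ) ^ n ≤ (d : ℝ) ^ n := by
    apply pow_le_pow_left₀ (by norm_num)
    exact_mod_cast hd
  linarith

theorem ThB_log_eta (η : ℝ) (hη : 0 < η) (n : ℕ) :
    Real.log ((n : ℝ) + 2) ≤ (1 + 1 / η) * ((n : ℝ) + 1) ^ η := by
  have h0 : (0 : ℝ) ≤ n := Nat.cast_nonneg n
  have h1 : Real.log ((n : ℝ) + 2) ≤ Real.log (2 * ((n : ℝ) + 1)) := by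
    apply Real.log_le_log (by linarith)
    linarith
  rw [Real.log_mul (by norm_num) (by linarith)] at h1
  have h2 : Real.log ((n : ℝ) + 1) ≤ ((n : ℝ) + 1) ^ η / η :=
    Real.log_le_rpow_div (by linarith) hη
  have h3 : (1 : ℝ) ≤ ((n : ℝ) + 1) ^ η := Real.one_le_rpow (by linarith) hη.le
  have h4 : Real.log 2 ≤ 1 := by
    have := Real.log_two_lt_d9
    linarith
  have h5 : (1 + 1 / η) * ((n : ℝ) + 1) ^ η = ((n : ℝ) + 1) ^ η + ((n : ℝ) + 1) ^ η / η := by
    ring
  linarith

theorem ThB_nonneg {K ι : Type} [Field K] [NumberField K] [Finite ι] (x : ι → K) :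
    0 ≤ logHeight x := Real.log_nonneg (one_le_mulHeight x)

theorem pr_ThB (h1 : S_BPol) (h2 : S_HXP) (h3 : S_BNV) (h4 : S_UInj) (h5 : S_Nul) (h6 : S_HUm)
    (h7 : S_HLm) (h8 : S_DgLow) (h9 : S_DgGB) (h10 : S_HtA) (h11 : S_TU)
    (h12 : Pool.Agent.Work.MP_91e6de_nt.DM.S_Dic) (h13 : Pool.Agent.Work.MP_91e6de_nt.DM.S_UB)
    (h14 : Pool.Agent.Work.MP_91e6de_nt.DM.S_Lim) : S_ThB := by
  intro s m K _ _ d U b F x y hm hd hU hF hNZ horb hdense
  have hd0 : (0 : ℝ) < d := by
    have : 0 < d := by omega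
    exact_mod_cast this
  have hd1 : (1 : ℝ) < d := by
    have : 1 < d := by omega
    exact_mod_cast this
  obtain ⟨ξ, hξ⟩ := h1 s K U b x hU horb.1
  have hC := fun i => h2 K (ξ i)
  choose Cx hC0 hC using hC
  set C1 : ℝ := ∑ i, Cx i with hC1
  have hC1' : 0 ≤ C1 := Finset.sum_nonneg fun i _ => hC0 i
  have hl0 : ∀ n : ℕ, 0 ≤ Real.log ((n : ℝ) + 2) := fun n => by linarith [ThB_log n]
  have hxs : ∀ n, ∑ i, logHeight₁ (x n i) ≤ C1 * Real.log ((n : ℝ) + 2) := by
    intro n
    rw [hC1, Finset.sum_mul]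
    apply Finset.sum_le_sum
    intro i _
    rw [hξ n i]
    exact hC i n
  have hx1 : ∀ n, 1 + ∑ i, logHeight₁ (x n i) ≤ (2 + C1) * Real.log ((n : ℝ) + 2) := by
    intro n
    have e1 := hxs n
    have e2 := ThB_log n
    linarith
  obtain ⟨hinj, hdeg⟩ := h4 s K U b hU
  constructor
  · obtain ⟨D, hD⟩ := h9 s m K d (gU U b) F hm hd hinj hdeg hF hNZ
    refine h14 d 1 D _ hd0 one_pos (Eventually.of_forall fun n => ?_)
      (Eventually.of_forall fun n => ?_)
    · have := (hD n).1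
      rw [one_mul]
      exact_mod_cast this
    · have := (hD n).2
      exact_mod_cast this
  · obtain ⟨C2, hC2, hup0⟩ := h6 s m (Fin (m + 1)) K d F hF
    obtain ⟨t, ρ, H, hρ, hH, hHF⟩ := h5 s m K F d (by omega) hF hNZ
    obtain ⟨C3, hC3, hlow0⟩ := h7 s m K d t F ρ H hH hHF
    have hρn : ∃ n, aeval (x n) ρ ≠ 0 := by
      by_contra hcon
      push Not at hcon
      have e1 : (C ρ : MvPolynomial (Fin (m + 1)) (MvPolynomial (Fin s) K)) = 0 := by
        apply hdense 0 _ (isHomogeneous_C _ ρ)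
        intro n
        rw [ev_C]
        exact hcon n
      rw [C_eq_zero] at e1
      exact hρ e1
    obtain ⟨n1, hn1⟩ := h3 s K ξ x ρ hξ hρn
    set a : ℕ → ℝ := fun n => logHeight (y n) with ha
    have hy : ∀ n, y (n + 1) = fun i => ev (x n) (y n) (F i) := fun n => funext (horb.2.1 n)
    have hup : ∀ n, a (n + 1) ≤ d * a n + C2 * (2 + C1) * Real.log ((n : ℝ) + 2) := by
      intro n
      have e1 := hup0 (x n) (y n)
      have e2 : a (n + 1) = logHeight (fun i => ev (x n) (y n) (F i)) := by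
        rw [ha]
        simp only
        rw [hy n]
      rw [e2]
      have e3 := mul_le_mul_of_nonneg_left (hx1 n) hC2
      rw [← mul_assoc] at e3
      exact e1.trans (add_le_add le_rfl e3)
    have hlow : ∀ n, n1 ≤ n → d * a n ≤ a (n + 1) + C3 * (2 + C1) * Real.log ((n : ℝ) + 2) := by
      intro n hn
      have e1 := hlow0 (x n) (y n) (hn1 n hn)
      have e2 : a (n + 1) = logHeight (fun i => ev (x n) (y n) (F i)) := by
        rw [ha]
        simp only
        rw [hy n]
      rw [e2]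
      have e3 := mul_le_mul_of_nonneg_left (hx1 n) hC3
      rw [← mul_assoc] at e3
      exact e1.trans (add_le_add le_rfl e3)
    obtain ⟨C', hC', hub⟩ := h13 d a (C2 * (2 + C1)) hd (by positivity) hup
    have hκ : (0 : ℝ) < Module.finrank ℚ K := by
      exact_mod_cast Module.finrank_pos
    rcases h12 d n1 a (C3 * (2 + C1)) hd (by positivity) hlow with ⟨c, hc, hcn⟩ | ⟨C'', hC''0, hC''⟩
    · refine h14 d (c / Module.finrank ℚ K) ((C1 + C') / Module.finrank ℚ K) _ hd0
        (div_pos hc hκ) ?_ (Eventually.of_forall fun n => ?_)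
      · filter_upwards [hcn] with n hn
        rw [div_mul_eq_mul_div]
        apply div_le_div_of_nonneg_right _ hκ.le
        have := ThB_nonneg (Fin.cons 1 (x n) : Fin (s + 1) → K)
        linarith
      · rw [div_mul_eq_mul_div]
        apply div_le_div_of_nonneg_right _ hκ.le
        have e4 := (h10 s K (x n)).trans (hxs n)
        have e5 := mul_le_mul_of_nonneg_left (ThB_log_le d n hd) hC1'
        have e6 := hub n
        rw [add_mul]
        exact add_le_add (e4.trans e5) e6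
    · exfalso
      have hgr : ∀ k, 0 ≤ k → Gr (gU U b) F k ((d : ℝ) ^ k) := fun k _ =>
        (h8 s m K d (gU U b) F hm (by omega) hinj hF hNZ k).2
      obtain ⟨η, hη, hTU⟩ := h11 s m K (gU U b) F d 0 d hm hF hd1 hgr
      have hp1 : ∀ n : ℕ, (1 : ℝ) ≤ ((n : ℝ) + 1) ^ η := fun n =>
        Real.one_le_rpow (by have : (0 : ℝ) ≤ n := Nat.cast_nonneg n; linarith) hη.le
      set Q : ℝ := (C1 + C'') * (1 + 1 / η) + C' * (d : ℝ) ^ n1 with hQ
      have hη' : 0 < 1 + 1 / η := by positivity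
      have hA : ∀ n : ℕ, C1 * Real.log ((n : ℝ) + 2) ≤ Q * ((n : ℝ) + 1) ^ η := by
        intro n
        have e1 := mul_le_mul_of_nonneg_left (ThB_log_eta η hη n) hC1'
        have e2 : 0 ≤ C'' * (1 + 1 / η) * ((n : ℝ) + 1) ^ η := by
          have := hp1 n
          positivity
        have e3 : 0 ≤ C' * (d : ℝ) ^ n1 * ((n : ℝ) + 1) ^ η := by
          have := hp1 n
          positivity
        rw [hQ]
        calc C1 * Real.log ((n : ℝ) + 2) ≤ C1 * ((1 + 1 / η) * ((n : ℝ) + 1) ^ η) := e1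
          _ ≤ ((C1 + C'') * (1 + 1 / η) + C' * (d : ℝ) ^ n1) * ((n : ℝ) + 1) ^ η := by
            linarith
      have hB : ∀ n : ℕ, a n ≤ Q * ((n : ℝ) + 1) ^ η := by
        intro n
        have e2 : 0 ≤ C1 * (1 + 1 / η) * ((n : ℝ) + 1) ^ η := by
          have := hp1 n
          positivity
        by_cases hn : n1 ≤ n
        · have e1 := (hC'' n hn).trans (mul_le_mul_of_nonneg_left (ThB_log_eta η hη n) hC''0)
          have e3 : 0 ≤ C' * (d : ℝ) ^ n1 * ((n : ℝ) + 1) ^ η := by
            have := hp1 n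
            positivity
          rw [hQ]
          linarith
        · push Not at hn
          have e1 : a n ≤ C' * (d : ℝ) ^ n1 := (hub n).trans
            (mul_le_mul_of_nonneg_left (pow_le_pow_right₀ hd1.le hn.le) hC')
          have e3 : C' * (d : ℝ) ^ n1 * 1 ≤ C' * (d : ℝ) ^ n1 * ((n : ℝ) + 1) ^ η :=
            mul_le_mul_of_nonneg_left (hp1 n) (by positivity)
          have e4 : 0 ≤ C'' * (1 + 1 / η) * ((n : ℝ) + 1) ^ η := by
            have := hp1 n
            positivity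
          rw [hQ]
          linarith
      obtain ⟨t', G, hG, hGh, hG0⟩ := hTU x y Q horb
        (fun n i => ((Finset.single_le_sum (fun j _ => zero_le_logHeight₁ (x n j))
          (Finset.mem_univ i)).trans (hxs n)).trans (hA n)) hB
      exact hG (hdense t' G hGh hG0)

end Pool.Agent.Work.MP_91e6de_nt.DMR

end

section

set_option autoImplicit false

/-!
# Item UInj: unipotent affine maps are automorphisms
-/

namespace Pool.Agent.Work.MP_91e6de_nt.DMR

open MvPolynomial

theorem UInj_comp {s : ℕ} {K : Type} [Field K] (U V : Matrix (Fin s) (Fin s) K)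
    (b : Fin s → K) (hUV : U * V = 1) (i : Fin s) :
    aeval (gU V (-(V.mulVec b))) (gU U b i) = (X i : MvPolynomial (Fin s) K) := by
  have h1 : aeval (gU V (-(V.mulVec b))) (gU U b i) =
      ∑ j, C (U i j) * gU V (-(V.mulVec b)) j + C (b i) := by
    unfold gU
    simp [map_add, map_sum, map_mul, MvPolynomial.algebraMap_eq]
  have h2 : ∑ j, (C (U i j) : MvPolynomial (Fin s) K) * gU V (-(V.mulVec b)) j =
      X i - C (b i) := by
    have e1 : ∀ j, (C (U i j) : MvPolynomial (Fin s) K) * gU V (-(V.mulVec b)) j =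
        ∑ k, C (U i j * V j k) * X k + C (U i j * -(V.mulVec b) j) := by
      intro j
      unfold gU
      rw [mul_add, Finset.mul_sum]
      congr 1
      · refine Finset.sum_congr rfl fun k _ => ?_
        rw [C_mul, mul_assoc]
      · rw [← C_mul]; rfl
    rw [Finset.sum_congr rfl fun j _ => e1 j, Finset.sum_add_distrib, Finset.sum_comm]
    have e2 : ∀ k, ∑ j, (C (U i j * V j k) : MvPolynomial (Fin s) K) * X k =
        C ((U * V) i k) * X k := by
      intro k
      rw [← Finset.sum_mul, Matrix.mul_apply, map_sum]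
    have e3 : ∑ j, (C (U i j * -(V.mulVec b) j) : MvPolynomial (Fin s) K) = - C (b i) := by
      rw [← map_sum, ← C_neg]
      congr 1
      have e4 : ∑ j, U i j * -(V.mulVec b) j = -(U.mulVec (V.mulVec b)) i := by
        simp only [mul_neg, Finset.sum_neg_distrib]
        rfl
      rw [e4, Matrix.mulVec_mulVec, hUV, Matrix.one_mulVec]
    rw [Finset.sum_congr rfl fun k _ => e2 k, e3, hUV]
    have e5 : ∑ k, (C ((1 : Matrix (Fin s) (Fin s) K) i k) : MvPolynomial (Fin s) K) * X k =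
        X i := by
      rw [Finset.sum_eq_single i]
      · rw [Matrix.one_apply_eq, C_1, one_mul]
      · intro k _ hk
        rw [Matrix.one_apply_ne (Ne.symm hk), C_0, zero_mul]
      · intro h; exact absurd (Finset.mem_univ _) h
    rw [e5, sub_eq_add_neg]
  rw [h1, h2, sub_add_cancel]

theorem pr_UInj : S_UInj := by
  intro s K _ U b hU
  refine ⟨?_, ?_⟩
  · have hu : IsUnit U := by
      have := hU.isUnit_one_add
      rwa [add_sub_cancel] at this
    obtain ⟨V, hUV, -⟩ : ∃ V, U * V = 1 ∧ V * U = 1 := by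
      obtain ⟨u, rfl⟩ := hu
      exact ⟨((u⁻¹ : (Matrix (Fin s) (Fin s) K)ˣ) : Matrix (Fin s) (Fin s) K), by simp, by simp⟩
    have hcomp : ∀ p : MvPolynomial (Fin s) K,
        aeval (gU V (-(V.mulVec b))) (aeval (gU U b) p) = p := by
      intro p
      have : (aeval (gU V (-(V.mulVec b)))).comp (aeval (gU U b)) =
          AlgHom.id K (MvPolynomial (Fin s) K) := by
        refine MvPolynomial.algHom_ext fun i => ?_
        rw [AlgHom.comp_apply, aeval_X, UInj_comp U V b hUV i]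
        rfl
      exact congrArg (fun f => f p) this
    intro p q h
    rw [← hcomp p, ← hcomp q, h]
  · intro i
    unfold gU
    refine (totalDegree_add _ _).trans (max_le ?_ (by simp))
    refine totalDegree_finsetSum_le fun j _ => ?_
    refine (totalDegree_mul _ _).trans ?_
    rw [totalDegree_C, zero_add]
    rw [totalDegree_X]

end Pool.Agent.Work.MP_91e6de_nt.DMR

end

section

set_option autoImplicit false

/-!
# Item WinV: one window, on arbitrary varieties
-/

namespace Pool.Agent.Work.MP_91e6de_nt.DMR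

open MvPolynomial NumberField IsDedekindDomain Height

theorem WinV_NR {σ K : Type} [Field K] (I : Ideal (MvPolynomial σ K)) (D e' : ℕ)
    (U W : MvPolynomial σ K) (u : K) (hu : u ≠ 0) (h : NR I D e' U W) :
    NR I D e' (C u * U) (C u * W) := by
  intro Q hQ hs
  apply h Q hQ
  have h1 : ∑ c ∈ Finset.range (e' + 1), Q c * (C u * U) ^ c * (C u * W) ^ (e' - c) =
      C (u ^ e') * ∑ c ∈ Finset.range (e' + 1), Q c * U ^ c * W ^ (e' - c) := by
    rw [Finset.mul_sum]
    apply Finset.sum_congr rfl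
    intro c hc
    have hc' : c + (e' - c) = e' := by
      have := Finset.mem_range.mp hc
      omega
    have h2 : (C (u ^ e') : MvPolynomial σ K) = C u ^ c * C u ^ (e' - c) := by
      rw [← pow_add, hc', ← C_pow]
    rw [h2, mul_pow, mul_pow]
    ring
  rw [h1] at hs
  have h3 := I.mul_mem_left (C ((u ^ e')⁻¹)) hs
  rwa [← mul_assoc, ← C_mul, inv_mul_cancel₀ (pow_ne_zero _ hu), C_1, one_mul] at h3

theorem WinV_deg {σ K : Type} [Field K] [NumberField K] (p : MvPolynomial σ (𝓞 K))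
    (q : MvPolynomial σ K) (c : K) (E : ℕ) (h : map (algebraMap (𝓞 K) K) p = C c * q)
    (hq : q.totalDegree ≤ E) : p.totalDegree ≤ E := by
  have h1 : (map (algebraMap (𝓞 K) K) p).totalDegree = p.totalDegree := by
    unfold totalDegree
    rw [support_map_of_injective _ (FaithfulSMul.algebraMap_injective (𝓞 K) K)]
  rw [← h1, h]
  refine (totalDegree_mul _ _).trans ?_
  rw [totalDegree_C, zero_add]
  exact hq

theorem WinV_aeval {σ K : Type} [Field K] [NumberField K] (p : MvPolynomial σ (𝓞 K))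
    (q : MvPolynomial σ K) (c : K) (h : map (algebraMap (𝓞 K) K) p = C c * q) (x : σ → K) :
    aeval x p = c * aeval x q := by
  rw [← aeval_map_algebraMap K x p, h, map_mul, aeval_C]
  rfl

theorem WinV_ch {m : ℕ} {K : Type} [Field K] (a : Fin m → ℕ) (y y' : Fin (m + 1) → K)
    (h : ell a y ≠ 0) (h' : ell a y' ≠ 0) (he : ch a y = ch a y') (i j : Fin (m + 1)) :
    y i * y' j = y j * y' i := by
  have h1 := hc_ch a y h
  have h2 := hc_ch a y' h'
  rw [he, h2] at h1
  have hi := congrFun h1 i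
  have hj := congrFun h1 j
  have e1 : ∀ z w : K, (ell a y')⁻¹ * w = (ell a y)⁻¹ * z → z = ell a y * ((ell a y')⁻¹ * w) := by
    intro z w hz
    rw [hz, ← mul_assoc, mul_inv_cancel₀ h, one_mul]
  rw [e1 _ _ hi, e1 _ _ hj]
  ring

theorem WinV_orb {s m : ℕ} {K : Type} [Field K] (g : Fin s → MvPolynomial (Fin s) K)
    (Fb : Fin (m + 1) → MvPolynomial (Fin (m + 1)) (MvPolynomial (Fin s) K)) (e' M : ℕ)
    (a : Fin m → ℕ) (x : ℕ → Fin s → K) (y : ℕ → Fin (m + 1) → K)
    (hF : ∀ i, (Fb i).IsHomogeneous e') (hx : ∀ n i, x (n + 1) i = aeval (x n) (g i))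
    (hy : ∀ n < M, ∃ lam : K, lam ≠ 0 ∧ ∀ i, ev (x n) (y n) (Fb i) = lam * y (n + 1) i)
    (hl : ∀ n ≤ M, ell a (y n) ≠ 0) :
    IsOrb (pB a g Fb) (qB a Fb) M (fun n => Sum.elim (x n) (ch a (y n))) := by
  intro n hn
  obtain ⟨lam, hlam, hyl⟩ := hy n hn
  have hl0 := hl n hn.le
  have hl1 := hl (n + 1) hn
  have hq : (ell a fun i => ev (x n) (hc a (ch a (y n))) (Fb i)) =
      (ell a (y n))⁻¹ ^ e' * lam * ell a (y (n + 1)) := by
    have h1 : (fun i => ev (x n) (hc a (ch a (y n))) (Fb i)) =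
        fun i => ((ell a (y n))⁻¹ ^ e' * lam) * y (n + 1) i := by
      funext i
      rw [hc_ch a (y n) hl0, ev_smul _ _ _ _ _ (hF i), hyl i]
      ring
    rw [h1, ell_smul]
  refine ⟨?_, ?_⟩
  · rw [aeval_qB, hq]
    exact mul_ne_zero (mul_ne_zero (pow_ne_zero _ (inv_ne_zero hl0)) hlam) hl1
  · intro i
    rw [aeval_qB, hq]
    cases i with
    | inl i =>
      rw [aeval_pB_inl, hq]
      simp only [Sum.elim_inl]
      rw [hx n i]
      ring
    | inr i =>
      rw [aeval_pB_inr, hc_ch a (y n) hl0, ev_smul _ _ _ _ _ (hF _), hyl]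
      simp only [Sum.elim_inr, ch]
      field_simp

theorem WinV_on {s m : ℕ} {K : Type} [Field K]
    (IV : Ideal (MvPolynomial (Fin (m + 1)) (MvPolynomial (Fin s) K))) (a : Fin m → ℕ)
    (x : Fin s → K) (y : Fin (m + 1) → K) (hl : ell a y ≠ 0)
    (h : ∀ G ∈ IV, ev x (fun i => (ell a y)⁻¹ * y i) G = 0) :
    On (chI a IV) (Sum.elim x (ch a y)) := by
  have h1 : chI a IV ≤ RingHom.ker (aeval (Sum.elim x (ch a y)) :
      MvPolynomial (Fin s ⊕ Fin m) K →ₐ[K] K).toRingHom := by
    unfold chI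
    rw [Ideal.map_le_iff_le_comap]
    intro G hG
    rw [Ideal.mem_comap, RingHom.mem_ker]
    have h2 := aeval_dhB a x (ch a y) G
    rw [hc_ch a y hl, h G hG] at h2
    exact h2
  intro G hG
  exact (RingHom.mem_ker).mp (h1 hG)

theorem WinV_ell {s m : ℕ} {K : Type} [Field K] (a : Fin m → ℕ)
    (x : Fin s → K) (y : Fin (m + 1) → K) :
    ev x y (ell a fun i => (X i : MvPolynomial (Fin (m + 1)) (MvPolynomial (Fin s) K))) =
      ell a y := by
  unfold ell
  rw [ev_add, ev_X, ev_sum]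
  congr 1
  apply Finset.sum_congr rfl
  intro i _
  rw [ev_mul, ev_natCast, ev_X]

theorem pr_WinV (h1 : S_Core2) (h2 : S_CoDV) (h3 : S_CoHV) (h4 : S_IntV) (h5 : S_NRV)
    (h6 : S_ItrV) (h7 : S_RepA) (h8 : S_ScalI) (h9 : S_ScalP) (h10 : S_MapG) (h11 : S_IteG)
    (h12 : S_ChI) : S_WinV := by
  classical
  intro s m l K _ _ IV g F Φ e e' r B hm hr hB hV hMap hRep hDim
  obtain ⟨E, hE1, hE⟩ := h2 s m l K g Φ
  obtain ⟨c, hc0, hc⟩ := h4 s m l K g Φ
  obtain ⟨C0, hC00, hC0⟩ := h3 s m l K Φ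
  obtain ⟨A, hA⟩ := h1 (Module.finrank ℚ K) (s + m) E B Module.finrank_pos (by omega) hE1 hB
  obtain ⟨C1, hC1⟩ := h5 s m K IV r hm hr hV (fun a ha => (hDim a ha).1)
  have hc1 : 0 ≤ logHeight₁ c := zero_le_logHeight₁ c
  refine ⟨E, A + 1, C1 * (r * (2 * B * (7 * Module.finrank ℚ K * (r + 1)) ^ r) + 1),
    C0 * (m + s + l + 3) + logHeight₁ c + 1, hE1, by positivity, ?_⟩
  intro x y a b N h k X H lr horb hdis hell hnv hhx hhy hha hhb hCh hh1 hX hhX hkX hEX hXN hnd
    hGr hlr
  obtain ⟨p, q, hp, hq⟩ := hc a b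
  obtain ⟨hR1, hR2, hR3, hR4⟩ := h7 s m K IV g F e hV hMap
  have hRb : RepV IV F (cmb Φ b) e' := hR2 l e' Φ b hRep
  -- the linear form is not in the ideal
  have hellX : (ell a fun i => (MvPolynomial.X i :
      MvPolynomial (Fin (m + 1)) (MvPolynomial (Fin s) K))) ∉ IV := by
    intro h0
    have h01 := horb.on 0 _ h0
    rw [WinV_ell] at h01
    exact hell 0 (Nat.zero_le _) h01
  obtain ⟨hchP, _⟩ := h12 s m K IV a hV hellX
  obtain ⟨hchD, hchH⟩ := hDim a hellX
  have hrle : r ≤ s + m := by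
    have := Dim_le hchD
    simpa using this
  -- the orbit in the chart
  have hprop : ∀ n < 3 * N, ∃ lam : K, lam ≠ 0 ∧
      ∀ i, ev (x n) (y n) (cmb Φ b i) = lam * y (n + 1) i := by
    intro n hn
    obtain ⟨t, Ψ, hΨ, hΨy⟩ := horb.step n
    have hrel : ∀ i j, ev (x n) (y n) (cmb Φ b i) * y (n + 1) j =
        ev (x n) (y n) (cmb Φ b j) * y (n + 1) i := by
      intro i j
      have h01 := horb.on n _ (hR1 e' t (cmb Φ b) Ψ hRb hΨ i j)
      rw [ev_sub, ev_mul, ev_mul, ← hΨy, ← hΨy] at h01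
      exact sub_eq_zero.mp h01
    obtain ⟨j0, hj0⟩ : ∃ j, y (n + 1) j ≠ 0 := by
      by_contra hcon
      push Not at hcon
      exact horb.ne (n + 1) (funext hcon)
    refine ⟨ev (x n) (y n) (cmb Φ b j0) / y (n + 1) j0, ?_, ?_⟩
    · intro h0
      have hz : ev (x n) (y n) (cmb Φ b j0) = 0 := by
        rcases div_eq_zero_iff.mp h0 with h0 | h0
        · exact h0
        · exact absurd h0 hj0
      obtain ⟨i0, hi0⟩ := hnv n hn.le
      have := hrel i0 j0
      rw [hz, zero_mul] at this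
      rcases mul_eq_zero.mp this with h0 | h0
      · exact hi0 h0
      · exact hj0 h0
    · intro i
      have := hrel i j0
      field_simp
      exact this
  have hO : IsOrb (pB a g (cmb Φ b)) (qB a (cmb Φ b)) (3 * N)
      (fun n => Sum.elim (x n) (ch a (y n))) :=
    WinV_orb g (cmb Φ b) e' (3 * N) a x y hRb.1 horb.base hprop hell
  have hOn : ∀ n ≤ 3 * N, On (chI a IV) (Sum.elim (x n) (ch a (y n))) := by
    intro n hn
    exact WinV_on IV a (x n) (y n) (hell n hn) (hR4 (x n) (y n) _ (horb.on n))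
  have hH : 0 ≤ H := by
    refine le_trans (Real.log_nonneg ?_) (hha ⟨0, hm⟩)
    have : (0 : ℝ) ≤ (a ⟨0, hm⟩ : ℝ) := Nat.cast_nonneg _
    linarith
  have hsa : ∑ j, Real.log (a j + 1) ≤ m * H := by
    have := Finset.sum_le_sum (s := Finset.univ) (fun j _ => hha j)
    rwa [Finset.sum_const, Finset.card_univ, Fintype.card_fin, nsmul_eq_mul] at this
  have hsb : ∑ j, Real.log (b j + 1) ≤ l * H := by
    have := Finset.sum_le_sum (s := Finset.univ) (fun j _ => hhb j)
    rwa [Finset.sum_const, Finset.card_univ, Fintype.card_fin, nsmul_eq_mul] at this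
  have hsx : ∀ n ≤ 3 * N, ∑ i, logHeight₁ (x n i) ≤ s * H := by
    intro n hn
    have := Finset.sum_le_sum (s := Finset.univ) (fun i _ => hhx n hn i)
    rwa [Finset.sum_const, Finset.card_univ, Fintype.card_fin, nsmul_eq_mul] at this
  have hm0 : (0 : ℝ) ≤ m := Nat.cast_nonneg _
  have hs0 : (0 : ℝ) ≤ s := Nat.cast_nonneg _
  have hl0 : (0 : ℝ) ≤ l := Nat.cast_nonneg _
  have hmH : 0 ≤ (m : ℝ) * H := mul_nonneg hm0 hH
  have hsH : 0 ≤ (s : ℝ) * H := mul_nonneg hs0 hH
  have hlH : 0 ≤ (l : ℝ) * H := mul_nonneg hl0 hH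
  -- the three estimates
  have hb : C0 * ((m + s + l + 3) * (1 + H)) + logHeight₁ c * (1 + H) + (1 + H) ≤ h := by
    refine le_trans (le_of_eq ?_) hCh
    ring
  have hbc : 0 ≤ logHeight₁ c * H := mul_nonneg hc1 hH
  have hb0 : 0 ≤ C0 * ((m + s + l + 3) * (1 + H)) := by positivity
  have hexp : ((m : ℝ) + s + l + 3) * (1 + H) =
      m + s + l + 3 + m * H + s * H + l * H + 3 * H := by ring
  have e2 : logHeight₁ c * (1 + H) = logHeight₁ c + logHeight₁ c * H := by ring
  -- the set up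
  have hSet : Setup p q E h (3 * N) (fun n => Sum.elim (x n) (ch a (y n))) := by
    refine ⟨hE1, hh1, fun i => WinV_deg _ _ c E (hp i) ((hE a b).1 i),
      WinV_deg _ _ c E hq (hE a b).2, ?_, ?_, ?_, ?_⟩
    · intro n hn
      obtain ⟨o1, o2⟩ := hO n hn
      constructor
      · rw [WinV_aeval q _ c hq]
        exact mul_ne_zero hc0 o1
      · intro i
        rw [WinV_aeval q _ c hq, WinV_aeval (p i) _ c (hp i), ← o2 i]
        ring
    · intro n hn i
      rcases i with i | i
      · have e1 := hhx n hn i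
        simp only [Sum.elim_inl]
        linarith
      · have e1 := (hC0 a b (x n) (y n) (hell n hn)).1 i
        have e3 := hhy n hn
        simp only [Sum.elim_inr]
        have e4 : C0 * (1 + logHeight (y n) + ∑ j, Real.log (a j + 1)) ≤
            C0 * ((m + s + l + 3) * (1 + H)) := by
          apply mul_le_mul_of_nonneg_left _ hC00
          rw [hexp]
          linarith
        linarith
    · intro n hn
      have e1 := (hC0 a b (x n) (y n) (hell n hn.le)).2
      have e3 := hhy n hn.le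
      have e5 := hsx n hn.le
      rw [WinV_aeval q _ c hq]
      refine (logHeight₁_mul_le _ _).trans ?_
      have e4 : C0 * (1 + ∑ i, logHeight₁ (x n i) + logHeight (y n) +
          ∑ j, Real.log (a j + 1) + ∑ j, Real.log (b j + 1)) ≤
          C0 * ((m + s + l + 3) * (1 + H)) := by
        apply mul_le_mul_of_nonneg_left _ hC00
        rw [hexp]
        linarith
      linarith
    · intro n hn n' hn' hnn
      have key : ∀ n n', n < n' → n ≤ 3 * N → n' ≤ 3 * N →
          (Sum.elim (x n) (ch a (y n)) : Fin s ⊕ Fin m → K) = Sum.elim (x n') (ch a (y n')) →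
          False := by
        intro n n' hlt hn hn' he
        apply hdis n n' hlt
        constructor
        · funext i
          exact congrFun he (Sum.inl i)
        · apply WinV_ch a _ _ (hell n hn) (hell n' hn')
          funext i
          exact congrFun he (Sum.inr i)
      rcases lt_trichotomy n n' with hlt | heq | hlt
      · exact (key n n' hlt hn hn' hnn).elim
      · exact heq
      · exact (key n' n hlt hn' hn hnn.symm).elim
  have hXk : X ^ A ≤ N := (Nat.pow_le_pow_right (by omega) (Nat.le_succ A)).trans hXN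
  have hkN : k ≤ 3 * N := by
    have hXN1 : X ≤ N := by
      refine le_trans ?_ hXN
      calc X = X ^ 1 := (pow_one X).symm
        _ ≤ X ^ (A + 1) := Nat.pow_le_pow_right (by omega) (by omega)
    omega
  -- iterates are not in the ideal
  have hne : ∀ l ≤ k, (itr E (pB a g (cmb Φ b)) (qB a (cmb Φ b)) l).2 ∉ chI a IV := by
    intro l hl h0
    have h11' := (h11 (Fin s ⊕ Fin m) K K E (pB a g (cmb Φ b)) (qB a (cmb Φ b)) (hE a b).1
      (hE a b).2 (3 * N) _ hO 0 l (by omega)).1
    exact h11' (hOn 0 (Nat.zero_le _) _ h0)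
  obtain ⟨hY, hrel⟩ := h6 s m K IV g F (cmb Φ b) e e' E k a hV hMap hRb hellX (hE a b).1
    (hE a b).2 hnd hne
  have hDlt : ((C1 * (r * DZ2 (Module.finrank ℚ K) r B h + 1) : ℕ) : ℝ) < lr := by
    refine lt_of_le_of_lt ?_ hlr
    have hnat : C1 * (r * DZ2 (Module.finrank ℚ K) r B h + 1) ≤
        C1 * (r * (2 * B * (7 * Module.finrank ℚ K * (r + 1)) ^ r) + 1) * h ^ (s + m) +
          C1 * (r * (2 * B * (7 * Module.finrank ℚ K * (r + 1)) ^ r) + 1) := by
      refine le_trans ?_ (Nat.le_add_right _ _)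
      rw [mul_assoc]
      apply Nat.mul_le_mul_left
      have h01 : h ^ r ≤ h ^ (s + m) := Nat.pow_le_pow_right hh1 hrle
      have h02 : 1 ≤ h ^ (s + m) := Nat.one_le_pow _ _ hh1
      have h03 : DZ2 (Module.finrank ℚ K) r B h =
          2 * B * (7 * Module.finrank ℚ K * (r + 1)) ^ r * h ^ r := by
        unfold DZ2
        rw [mul_pow _ h]
        ring
      rw [h03]
      calc r * (2 * B * (7 * Module.finrank ℚ K * (r + 1)) ^ r * h ^ r) + 1
          = r * (2 * B * (7 * Module.finrank ℚ K * (r + 1)) ^ r) * h ^ r + 1 := by ring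
        _ ≤ r * (2 * B * (7 * Module.finrank ℚ K * (r + 1)) ^ r) * h ^ (s + m) +
            1 * h ^ (s + m) := by
              apply Nat.add_le_add
              · exact Nat.mul_le_mul_left _ h01
              · simpa using h02
        _ = (r * (2 * B * (7 * Module.finrank ℚ K * (r + 1)) ^ r) + 1) * h ^ (s + m) := by ring
    exact_mod_cast hnat
  obtain ⟨i, hNR⟩ := hC1 g F e k (r * DZ2 (Module.finrank ℚ K) r B h)
    (DZ2 (Module.finrank ℚ K) r B h) lr a
    (fun i => (itr E (pB a g (cmb Φ b)) (qB a (cmb Φ b)) k).1 (Sum.inr i))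
    (itr E (pB a g (cmb Φ b)) (qB a (cmb Φ b)) k).2 hMap.hom hellX (hne k le_rfl) hY hrel hGr
    hDlt
  obtain ⟨hM1, hM2⟩ := h10 (Fin s ⊕ Fin m) (𝓞 K) K (algebraMap (𝓞 K) K)
    (FaithfulSMul.algebraMap_injective (𝓞 K) K) E p q k
  have hpe : (fun i => map (algebraMap (𝓞 K) K) (p i)) = fun i => C c * pB a g (cmb Φ b) i :=
    funext hp
  obtain ⟨N', hN1, hN2⟩ := h8 (Fin s ⊕ Fin m) K E c (pB a g (cmb Φ b)) (qB a (cmb Φ b)) hc0
    (hE a b).1 (hE a b).2 k
  have hNR' : NR (chI a IV) (r * DZ2 (Module.finrank ℚ K) r B h)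
      (DZ2 (Module.finrank ℚ K) r B h)
      (map (algebraMap (𝓞 K) K) ((itr E p q k).1 (Sum.inr i)))
      (map (algebraMap (𝓞 K) K) (itr E p q k).2) := by
    rw [hM1, hM2, hpe, hq, hN1, hN2]
    exact WinV_NR _ _ _ _ _ _ (pow_ne_zero _ hc0) hNR
  have hCyc := hA K (Fin s ⊕ Fin m) p q h (3 * N) N k X r
    (fun n => Sum.elim (x n) (ch a (y n))) (chI a IV) (Sum.inr i) rfl (by simp) hSet hchP hchD
    hr hchH hOn le_rfl hX hhX hkX hEX hXk hNR'
  rw [hpe, hq] at hCyc
  obtain ⟨n0, t, I, c1, c2, c3, c4, c5, c6⟩ := hCyc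
  exact ⟨n0, t, I, c1, c2, c3,
    fun i hi => h9 (Fin s ⊕ Fin m) K c (pB a g (cmb Φ b)) (qB a (cmb Φ b)) (I i) (I (i + 1)) hc0
      (c4 i hi), c5, c6⟩

end Pool.Agent.Work.MP_91e6de_nt.DMR

end

section

set_option autoImplicit false

/-!
# Item WndR: a combination of representations which does not vanish on a window
-/

namespace Pool.Agent.Work.MP_91e6de_nt.DMR

open MvPolynomial

theorem WndR_ev {s m l : ℕ} {K : Type} [Field K]
    (Φ : Fin (l + 1) → Fin (m + 1) → MvPolynomial (Fin (m + 1)) (MvPolynomial (Fin s) K))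
    (b : Fin l → ℕ) (x : Fin s → K) (y : Fin (m + 1) → K) (i : Fin (m + 1)) :
    ev x y (cmb Φ b i) = ell b fun j => ev x y (Φ j i) := by
  unfold cmb ell
  rw [ev_add, ev_sum]
  congr 1
  refine Finset.sum_congr rfl fun j _ => ?_
  rw [ev_mul, ev_natCast]

theorem pr_WndR (h1 : S_WndG) : S_WndR := by
  classical
  intro s m l M K _ _ Φ x y hne _
  have h2 : ∀ n, ∃ i, n ≤ M → ∃ j, ev (x n) (y n) (Φ j i) ≠ 0 := by
    intro n
    by_cases hn : n ≤ M
    · obtain ⟨j, i, h⟩ := hne n hn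
      exact ⟨i, fun _ => ⟨j, h⟩⟩
    · exact ⟨0, fun h => absurd h hn⟩
  choose i0 hi0 using h2
  set w : ℕ → Fin (l + 1) → K :=
    fun n => if n ≤ M then fun j => ev (x n) (y n) (Φ j (i0 n)) else fun _ => 1 with hw
  have hw0 : ∀ n, w n ≠ 0 := by
    intro n h0
    by_cases hn : n ≤ M
    · obtain ⟨j, hj⟩ := hi0 n hn
      apply hj
      have h3 := congrFun h0 j
      simpa only [hw, if_pos hn, Pi.zero_apply] using h3
    · have h3 := congrFun h0 0
      simp only [hw, if_neg hn, Pi.zero_apply] at h3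
      exact one_ne_zero h3
  obtain ⟨b, hb, hell⟩ := h1 K l M w hw0
  refine ⟨b, hb, fun n hn => ⟨i0 n, ?_⟩⟩
  rw [WndR_ev]
  have h3 := hell n hn
  simpa only [hw, if_pos hn] using h3

end Pool.Agent.Work.MP_91e6de_nt.DMR

end

section

set_option autoImplicit false

/-!
# The determinant method along orbits in all dimensions (MP_91e6de): statements, Theorem C
(families of regular automorphisms of affine space over unipotent affine maps)

`F = (F_0, ..., F_m)`, polynomials in `y = (y_0, ..., y_m)` of degree `≤ d` whose coefficients are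
polynomials in `x`: a family of self-maps of `𝔸^(m+1)`. `G` is the inverse up to the factor
`r (x)`: `G (x, F (x, y)) = r (x) y`.
-/

namespace Pool.Agent.Work.MP_91e6de_nt.DMR

open MvPolynomial NumberField IsDedekindDomain Height Filter Topology

/-- Homogenisation to degree `d` (the new variable is the last one). -/
noncomputable def hmg {s m : ℕ} {K : Type} [Field K] (d : ℕ)
    (G : MvPolynomial (Fin (m + 1)) (MvPolynomial (Fin s) K)) :
    MvPolynomial (Fin (m + 2)) (MvPolynomial (Fin s) K) :=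
  ∑ u ∈ G.support, C (G.coeff u) * (∏ j, X j.castSucc ^ u j) *
    X (Fin.last (m + 1)) ^ (d - ∑ j, u j)

/-- The family of self-maps of `ℙ^(m+1)` extending `F`. -/
noncomputable def Fh {s m : ℕ} {K : Type} [Field K] (d : ℕ)
    (F : Fin (m + 1) → MvPolynomial (Fin (m + 1)) (MvPolynomial (Fin s) K)) :
    Fin (m + 2) → MvPolynomial (Fin (m + 2)) (MvPolynomial (Fin s) K) :=
  Fin.snoc (fun i => hmg d (F i)) (X (Fin.last (m + 1)) ^ d)

/-- Regularity of the family: for generic `x` the indeterminacy loci (at infinity) of `F (g (x))`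
and of the inverse of `F (x)` are disjoint. -/
def RegC {s m : ℕ} {K : Type} [Field K] (g : Fin s → MvPolynomial (Fin s) K) (d d' : ℕ)
    (F G : Fin (m + 1) → MvPolynomial (Fin (m + 1)) (MvPolynomial (Fin s) K)) : Prop :=
  ∀ y : Fin (m + 1) → AlgebraicClosure (FractionRing (MvPolynomial (Fin s) K)),
    (∀ i, aeval y (map (aeval g).toRingHom (homogeneousComponent d (F i))) = 0) →
    (∀ i, aeval y (homogeneousComponent d' (G i)) = 0) → y = 0

/-- The data of Theorem C. -/
structure FamC {s m : ℕ} {K : Type} [Field K] (g : Fin s → MvPolynomial (Fin s) K) (d d' : ℕ)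
    (F G : Fin (m + 1) → MvPolynomial (Fin (m + 1)) (MvPolynomial (Fin s) K))
    (r : MvPolynomial (Fin s) K) : Prop where
  hd : 2 ≤ d
  hd' : 2 ≤ d'
  degF : ∀ i, (F i).totalDegree ≤ d
  topF : ∃ i, homogeneousComponent d (F i) ≠ 0
  degG : ∀ i, (G i).totalDegree ≤ d'
  hr : r ≠ 0
  inv : ∀ i, comp X F (G i) = C r * X i
  reg : RegC g d d' F G
  inj : Function.Injective (aeval g : MvPolynomial (Fin s) K →ₐ[K] MvPolynomial (Fin s) K)

/-- The degree of the `n`-th iterate of `(x, y) ↦ (g (x), F (x, y))` as a polynomial self-map of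
affine space. -/
noncomputable def dgC {s m : ℕ} {K : Type} [Field K] (g : Fin s → MvPolynomial (Fin s) K)
    (F : Fin (m + 1) → MvPolynomial (Fin (m + 1)) (MvPolynomial (Fin s) K)) (n : ℕ) : ℕ :=
  max (Finset.univ.sup fun i => ((itB g F n).1 i).totalDegree)
    (Finset.univ.sup fun i => (ev (fun j => (X (Sum.inl j) : MvPolynomial (Fin s ⊕ Fin (m + 1)) K))
      (fun j => X (Sum.inr j)) ((itB g F n).2 i)).totalDegree)

/-- The height of a point of affine space. -/
noncomputable def htA {σ K : Type} [Field K] [NumberField K] (P : σ → K) : ℝ :=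
  logHeight (fun o : Option σ => o.elim 1 P)

/-- homogenisation: basic properties -/
def S_HmH : Prop := ∀ (s m : ℕ) (K : Type) [Field K] (d : ℕ),
  (∀ G : MvPolynomial (Fin (m + 1)) (MvPolynomial (Fin s) K), G.totalDegree ≤ d →
    (hmg d G).IsHomogeneous d) ∧
  (∀ (S : Type) [CommRing S] [Algebra K S] (x : Fin s → S) (y : Fin (m + 1) → S)
    (G : MvPolynomial (Fin (m + 1)) (MvPolynomial (Fin s) K)),
    ev x (Fin.snoc y 1 : Fin (m + 2) → S) (hmg d G) = ev x y G) ∧
  (∀ (g : Fin s → MvPolynomial (Fin s) K)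
    (F : Fin (m + 1) → MvPolynomial (Fin (m + 1)) (MvPolynomial (Fin s) K)),
    (∀ i, (F i).totalDegree ≤ d) → ∀ k, (itB g (Fh d F) k).1 = (itB g F k).1 ∧
      (itB g (Fh d F) k).2 = Fin.snoc (fun i => hmg (d ^ k) ((itB g F k).2 i))
        (X (Fin.last (m + 1)) ^ d ^ k))

/-- Nullstellensatz with denominators, forms of different degrees -/
def S_NulG : Prop := ∀ (s m : ℕ) (ι K : Type) [Fintype ι] [Field K] (deg : ι → ℕ)
  (F : ι → MvPolynomial (Fin (m + 1)) (MvPolynomial (Fin s) K)),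
  (∀ i, (F i).IsHomogeneous (deg i)) →
  (∀ y : Fin (m + 1) → AlgebraicClosure (FractionRing (MvPolynomial (Fin s) K)),
    (∀ i, aeval y (F i) = 0) → y = 0) →
    ∃ (t : ℕ) (ρ : MvPolynomial (Fin s) K)
      (H : Fin (m + 1) → ι → MvPolynomial (Fin (m + 1)) (MvPolynomial (Fin s) K)),
      ρ ≠ 0 ∧ (∀ j, deg j ≤ t) ∧ (∀ i j, (H i j).IsHomogeneous (t - deg j)) ∧
      ∀ i, C ρ * X i ^ t = ∑ j, H i j * F j

/-- local to global for heights -/
def S_LocG : Prop := ∀ (K : Type) [Field K] [NumberField K] (ι₁ ι₂ ι₃ τ : Type) [Fintype ι₁]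
  [Fintype ι₂] [Fintype ι₃] [Fintype τ] (A : ι₁ → K) (B : ι₂ → K) (D : ι₃ → K) (u : τ → K)
  (N α β γ E : ℕ), A ≠ 0 → B ≠ 0 → D ≠ 0 → 1 ≤ N →
  (∀ v : InfinitePlace K, (⨆ i, v (A i)) ^ α ≤
    N * (∏ k, max 1 (v (u k))) ^ E * (⨆ i, v (B i)) ^ β * (⨆ i, v (D i)) ^ γ) →
  (∀ v : FinitePlace K, (⨆ i, v (A i)) ^ α ≤
    (∏ k, max 1 (v (u k))) ^ E * (⨆ i, v (B i)) ^ β * (⨆ i, v (D i)) ^ γ) →
    α * logHeight A ≤ Module.finrank ℚ K * Real.log N + E * ∑ k, logHeight₁ (u k) +
      β * logHeight B + γ * logHeight D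

/-- the height inequality along three consecutive points -/
def S_TriC : Prop := ∀ (s m : ℕ) (K : Type) [Field K] [NumberField K] (d d' : ℕ)
  (g : Fin s → MvPolynomial (Fin s) K)
  (F G : Fin (m + 1) → MvPolynomial (Fin (m + 1)) (MvPolynomial (Fin s) K))
  (r : MvPolynomial (Fin s) K), FamC g d d' F G r →
    ∃ (ρ : MvPolynomial (Fin s) K) (C : ℝ), ρ ≠ 0 ∧ 0 ≤ C ∧
      ∀ (x x' : Fin s → K) (z y y' : Fin (m + 1) → K), aeval x ρ ≠ 0 →
        (∀ i, x' i = aeval x (g i)) → (∀ i, y i = ev x z (F i)) → (∀ i, y' i = ev x' y (F i)) →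
        (d * d' + 1 : ℝ) * logHeight (Fin.snoc y 1 : Fin (m + 2) → K) ≤
          d' * logHeight (Fin.snoc y' 1 : Fin (m + 2) → K) +
          d * logHeight (Fin.snoc z 1 : Fin (m + 2) → K) + C * (1 + ∑ i, logHeight₁ (x i))

/-- dichotomy for the second order recursion -/
def S_DicC : Prop := ∀ (d d' n1 : ℕ) (u : ℕ → ℝ) (C : ℝ), 2 ≤ d → 2 ≤ d' → 0 ≤ C →
  (∀ n, 0 ≤ u n) →
  (∀ n, n1 ≤ n → (d * d' + 1 : ℝ) * u (n + 1) ≤ d' * u (n + 2) + d * u n +
    C * Real.log (n + 2)) →
    (∃ c : ℝ, 0 < c ∧ ∀ᶠ n : ℕ in atTop, c * (d : ℝ) ^ n ≤ u n) ∨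
    (∃ C' : ℝ, 0 ≤ C' ∧ ∀ n : ℕ, u n ≤ C' * Real.log (n + 2))

/-- the top forms of the iterates -/
def S_TopIt : Prop := ∀ (s m : ℕ) (K : Type) [Field K] (d d' : ℕ)
  (g : Fin s → MvPolynomial (Fin s) K)
  (F G : Fin (m + 1) → MvPolynomial (Fin (m + 1)) (MvPolynomial (Fin s) K))
  (r : MvPolynomial (Fin s) K), FamC g d d' F G r → ∀ k,
    (∀ i, ((itB g F k).2 i).totalDegree ≤ d ^ k) ∧
    ∃ i, homogeneousComponent (d ^ k) ((itB g F k).2 i) ≠ 0

/-- the fibre degrees of the iterates -/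
def S_GrC : Prop := ∀ (s m : ℕ) (K : Type) [Field K] (d d' : ℕ)
  (g : Fin s → MvPolynomial (Fin s) K)
  (F G : Fin (m + 1) → MvPolynomial (Fin (m + 1)) (MvPolynomial (Fin s) K))
  (r : MvPolynomial (Fin s) K), FamC g d d' F G r → ∀ k, Gr g (Fh d F) k ((d : ℝ) ^ k)

/-- the degrees of the iterates -/
def S_DgC : Prop := ∀ (s m : ℕ) (K : Type) [Field K] (d d' : ℕ)
  (g : Fin s → MvPolynomial (Fin s) K)
  (F G : Fin (m + 1) → MvPolynomial (Fin (m + 1)) (MvPolynomial (Fin s) K))
  (r : MvPolynomial (Fin s) K), FamC g d d' F G r → (∀ i, (g i).totalDegree ≤ 1) →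
    ∃ C : ℕ, ∀ n, d ^ n ≤ dgC g F n ∧ dgC g F n ≤ C * d ^ n

/-- comparison of heights -/
def S_HtC : Prop := ∀ (s m : ℕ) (K : Type) [Field K] [NumberField K] (x : Fin s → K)
  (y : Fin (m + 1) → K),
    logHeight (Fin.snoc y 1 : Fin (m + 2) → K) ≤ htA (Sum.elim x y) ∧
    htA (Sum.elim x y) ≤ logHeight (Fin.snoc y 1 : Fin (m + 2) → K) + ∑ i, logHeight₁ (x i)

/-- THEOREM C: Kawaguchi-Silverman for families of regular automorphisms of affine space over
unipotent affine maps -/
def S_ThC : Prop := ∀ (s m : ℕ) (K : Type) [Field K] [NumberField K] (d d' : ℕ)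
  (U : Matrix (Fin s) (Fin s) K) (b : Fin s → K)
  (F G : Fin (m + 1) → MvPolynomial (Fin (m + 1)) (MvPolynomial (Fin s) K))
  (r : MvPolynomial (Fin s) K) (x : ℕ → Fin s → K) (y : ℕ → Fin (m + 1) → K),
  IsNilpotent (U - 1) → FamC (gU U b) d d' F G r →
  (∀ n i, x (n + 1) i = aeval (x n) (gU U b i)) →
  (∀ n i, y (n + 1) i = ev (x n) (y n) (F i)) →
  (∀ H : MvPolynomial (Fin s ⊕ Fin (m + 1)) K, (∀ n, aeval (Sum.elim (x n) (y n)) H = 0) →
    H = 0) →
    Tendsto (fun n : ℕ => (dgC (gU U b) F n : ℝ) ^ ((1 : ℝ) / n)) atTop (𝓝 d) ∧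
    Tendsto (fun n : ℕ => (htA (Sum.elim (x n) (y n)) / Module.finrank ℚ K) ^ ((1 : ℝ) / n))
      atTop (𝓝 d)

end Pool.Agent.Work.MP_91e6de_nt.DMR

end

section

set_option autoImplicit false

/-!
# MP_91e6de, DMR: item AlgZ
-/

namespace Pool.Agent.Work.MP_91e6de_nt.DMR

open MvPolynomial

theorem AlgZ_bin {s m : ℕ} {K : Type} [Field K]
    (H : MvPolynomial (Fin (1 + 1)) (MvPolynomial (Fin s) K))
    (U V : MvPolynomial (Fin (m + 1)) (MvPolynomial (Fin s) K)) :
    bin H U V = aeval ![U, V] H := by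
  unfold bin ev
  have h : (eval₂Hom (algebraMap K (MvPolynomial (Fin (m + 1)) (MvPolynomial (Fin s) K)))
      (fun l => (C (X l : MvPolynomial (Fin s) K) :
        MvPolynomial (Fin (m + 1)) (MvPolynomial (Fin s) K)))) =
      (C : MvPolynomial (Fin s) K →+* MvPolynomial (Fin (m + 1)) (MvPolynomial (Fin s) K)) := by
    apply MvPolynomial.ringHom_ext
    · intro r
      rw [coe_eval₂Hom, eval₂_C]
      rfl
    · intro i
      rw [coe_eval₂Hom, eval₂_X]
  rw [h, aeval_def]
  rfl

theorem AlgZ_scale {σ R S : Type} [Fintype σ] [CommRing R] [CommRing S] [Algebra R S]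
    {H : MvPolynomial σ R} {t : ℕ} (hH : H.IsHomogeneous t) (c : S) (y : σ → S) :
    aeval (fun i => c * y i) H = c ^ t * aeval y H := by
  rw [aeval_def, aeval_def, eval₂_eq', eval₂_eq', Finset.mul_sum]
  apply Finset.sum_congr rfl
  intro u hu
  have h1 : ∑ i, u i = t := by
    have := hH (mem_support_iff.mp hu)
    rw [← this]
    simp [Finsupp.weight_apply, Finsupp.sum_fintype]
  simp only [mul_pow, Finset.prod_mul_distrib, Finset.prod_pow_eq_pow_sum, h1]
  ring

theorem AlgZ_scale2 {R L : Type} [CommRing R] [Field L] [Algebra R L]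
    {H : MvPolynomial (Fin (1 + 1)) R} {t : ℕ} (hH : H.IsHomogeneous t) (a b : L) (hb : b ≠ 0) :
    aeval ![a, b] H =
      b ^ t * Polynomial.aeval (a / b) (aeval ![Polynomial.X, 1] H : Polynomial R) := by
  have h1 : (![a, b] : Fin (1 + 1) → L) = fun i => b * (![a / b, 1] : Fin (1 + 1) → L) i := by
    funext i
    refine Fin.cases ?_ (fun j => ?_) i
    · simp only [Matrix.cons_val_zero]
      field_simp
    · have : j = 0 := Subsingleton.elim _ _
      subst this
      simp
  rw [h1, AlgZ_scale hH]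
  congr 1
  rw [comp_aeval_apply]
  congr 1
  congr 1
  funext i
  refine Fin.cases ?_ (fun j => ?_) i
  · simp
  · have : j = 0 := Subsingleton.elim _ _
    subst this
    simp

theorem AlgZ_ne {R : Type} [CommRing R] [IsDomain R]
    {H : MvPolynomial (Fin (1 + 1)) R} {t : ℕ} (hH : H.IsHomogeneous t) (h0 : H ≠ 0) :
    (aeval ![Polynomial.X, 1] H : Polynomial R) ≠ 0 := by
  intro hp
  apply h0
  set F := FractionRing (MvPolynomial (Fin (1 + 1)) R)
  have hinj : Function.Injective (algebraMap (MvPolynomial (Fin (1 + 1)) R) F) :=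
    IsFractionRing.injective _ _
  apply hinj
  rw [map_zero]
  have h1 : algebraMap (MvPolynomial (Fin (1 + 1)) R) F H =
      aeval ![algebraMap (MvPolynomial (Fin (1 + 1)) R) F (X 0),
        algebraMap (MvPolynomial (Fin (1 + 1)) R) F (X 1)] H := by
    have h2 := MvPolynomial.aeval_algebraMap_apply F
      (X : Fin (1 + 1) → MvPolynomial (Fin (1 + 1)) R) H
    rw [aeval_X_left_apply] at h2
    rw [← h2]
    congr 1
    congr 1
    funext i
    refine Fin.cases ?_ (fun j => ?_) i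
    · simp
    · have : j = 0 := Subsingleton.elim _ _
      subst this
      simp
  have hx1 : algebraMap (MvPolynomial (Fin (1 + 1)) R) F (X 1) ≠ 0 := by
    intro h
    have := hinj (h.trans (map_zero _).symm)
    exact X_ne_zero _ this
  rw [h1, AlgZ_scale2 hH _ _ hx1, hp, map_zero, mul_zero]

/-- homogenisation of a polynomial in one variable -/
noncomputable def AlgZ_hm {R : Type} [CommRing R] (p : Polynomial R) :
    MvPolynomial (Fin (1 + 1)) R :=
  ∑ a ∈ Finset.range (p.natDegree + 1), C (p.coeff a) * X 0 ^ a * X 1 ^ (p.natDegree - a)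

theorem AlgZ_hm_hom {R : Type} [CommRing R] (p : Polynomial R) :
    (AlgZ_hm p).IsHomogeneous p.natDegree := by
  apply IsHomogeneous.sum
  intro a ha
  have h1 : a ≤ p.natDegree := Nat.lt_succ_iff.1 (Finset.mem_range.1 ha)
  have h2 := (((isHomogeneous_C (Fin (1 + 1)) (p.coeff a)).mul
    ((isHomogeneous_X R (0 : Fin (1 + 1))).pow a)).mul
    ((isHomogeneous_X R (1 : Fin (1 + 1))).pow (p.natDegree - a)))
  have h3 : 0 + 1 * a + 1 * (p.natDegree - a) = p.natDegree := by omega
  rw [h3] at h2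
  exact h2

theorem AlgZ_hm_dehom {R : Type} [CommRing R] (p : Polynomial R) :
    (aeval ![Polynomial.X, 1] (AlgZ_hm p) : Polynomial R) = p := by
  unfold AlgZ_hm
  rw [map_sum]
  conv_rhs => rw [p.as_sum_range_C_mul_X_pow]
  apply Finset.sum_congr rfl
  intro a _
  rw [map_mul, map_mul, map_pow, map_pow, aeval_X, aeval_X, ← MvPolynomial.algebraMap_eq,
    AlgHom.commutes]
  simp

theorem AlgZ_hm_ne {R : Type} [CommRing R] (p : Polynomial R) (hp : p ≠ 0) : AlgZ_hm p ≠ 0 := by
  intro h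
  apply hp
  rw [← AlgZ_hm_dehom p, h, map_zero]

theorem AlgZ_alg {R L : Type} [CommRing R] [IsDomain R] [Field L] [Algebra R L]
    {H : MvPolynomial (Fin (1 + 1)) R} {t : ℕ} (hH : H.IsHomogeneous t) (h0 : H ≠ 0) (a b : L)
    (hb : b ≠ 0) (hab : aeval ![a, b] H = 0) : IsAlgebraic R (a / b) := by
  refine ⟨aeval ![Polynomial.X, 1] H, AlgZ_ne hH h0, ?_⟩
  rw [AlgZ_scale2 hH a b hb] at hab
  rcases mul_eq_zero.1 hab with h | h
  · exact absurd h (pow_ne_zero _ hb)
  · exact h

theorem AlgZ_core {R L : Type} {m : ℕ} [CommRing R] [IsDomain R] [Field L] [Algebra R L]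
    (φ : MvPolynomial (Fin (m + 1)) R →ₐ[R] L) (i0 : Fin (m + 1)) (hi0 : φ (X i0) ≠ 0)
    (hz : ∀ i, IsAlgebraic R (φ (X i) / φ (X i0))) {e : ℕ}
    {U V : MvPolynomial (Fin (m + 1)) R} (hU : U.IsHomogeneous e) (hV : V.IsHomogeneous e) :
    IsAlgebraic R (φ U / φ V) := by
  set z : Fin (m + 1) → L := fun i => φ (X i) / φ (X i0) with hzd
  have hle : Algebra.adjoin R (Set.range z) ≤ Subalgebra.algebraicClosure R L := by
    apply Algebra.adjoin_le
    rintro _ ⟨j, rfl⟩
    exact hz j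
  have hmem : ∀ G : MvPolynomial (Fin (m + 1)) R, IsAlgebraic R (aeval z G) := by
    intro G
    have h1 : aeval z G ∈ Algebra.adjoin R (Set.range z) := by
      rw [Algebra.adjoin_range_eq_range_aeval]
      exact ⟨G, rfl⟩
    exact hle h1
  have hform : ∀ G : MvPolynomial (Fin (m + 1)) R, G.IsHomogeneous e →
      φ G = φ (X i0) ^ e * aeval z G := by
    intro G hG
    rw [← AlgZ_scale hG]
    have h1 : (fun i => φ (X i0) * z i) = fun i => φ (X i) := by
      funext i
      rw [hzd]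
      field_simp
    rw [h1]
    conv_lhs => rw [← aeval_X_left_apply G]
    rw [comp_aeval_apply]
  rw [hform U hU, hform V hV, mul_div_mul_left _ _ (pow_ne_zero _ hi0), div_eq_mul_inv]
  exact (hmem U).mul (hmem V).inv

theorem AlgZ_phi {m : ℕ} {R : Type} [CommRing R] (IW : Ideal (MvPolynomial (Fin (m + 1)) R))
    (h : IW.IsPrime) : ∃ (L : Type) (_ : Field L) (_ : Algebra R L)
      (φ : MvPolynomial (Fin (m + 1)) R →ₐ[R] L), ∀ G, φ G = 0 ↔ G ∈ IW := by
  refine ⟨FractionRing (MvPolynomial (Fin (m + 1)) R ⧸ IW), inferInstance, inferInstance,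
    (IsScalarTower.toAlgHom R (MvPolynomial (Fin (m + 1)) R ⧸ IW)
      (FractionRing (MvPolynomial (Fin (m + 1)) R ⧸ IW))).comp (Ideal.Quotient.mkₐ R IW), ?_⟩
  intro G
  rw [AlgHom.comp_apply, Ideal.Quotient.mkₐ_eq_mk, IsScalarTower.toAlgHom_apply,
    ← Ideal.Quotient.eq_zero_iff_mem]
  constructor
  · intro h
    exact IsFractionRing.injective (MvPolynomial (Fin (m + 1)) R ⧸ IW)
      (FractionRing (MvPolynomial (Fin (m + 1)) R ⧸ IW)) (h.trans (map_zero _).symm)
  · intro h
    rw [h, map_zero]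

theorem pr_AlgZ : S_AlgZ := by
  intro s m K _ IW e U V hvar hhor hrz hU hV
  obtain ⟨L, _, _, φ, hφ⟩ := AlgZ_phi IW hvar.prime
  have hbin : ∀ (H : MvPolynomial (Fin (1 + 1)) (MvPolynomial (Fin s) K))
      (A B : MvPolynomial (Fin (m + 1)) (MvPolynomial (Fin s) K)),
      φ (bin H A B) = aeval ![φ A, φ B] H := by
    intro H A B
    rw [AlgZ_bin, comp_aeval_apply]
    congr 1
    congr 1
    funext i
    refine Fin.cases ?_ (fun j => ?_) i
    · simp
    · have : j = 0 := Subsingleton.elim _ _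
      subst this
      simp
  by_cases hVI : V ∈ IW
  · refine ⟨1, X 1, X_ne_zero _, isHomogeneous_X _ _, ?_⟩
    rw [AlgZ_bin, aeval_X]
    simpa using hVI
  · obtain ⟨i0, hi0⟩ := hvar.ne
    have hi0' : φ (X i0) ≠ 0 := fun h => hi0 ((hφ _).1 h)
    have hz : ∀ i, IsAlgebraic (MvPolynomial (Fin s) K) (φ (X i) / φ (X i0)) := by
      intro i
      obtain ⟨t, H, hH0, hHh, hHI⟩ := hrz i i0
      have h1 := (hφ _).2 hHI
      rw [hbin] at h1
      exact AlgZ_alg hHh hH0 _ _ hi0' h1
    obtain ⟨p, hp, hpw⟩ := AlgZ_core φ i0 hi0' hz hU hV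
    have hV0 : φ V ≠ 0 := fun h => hVI ((hφ _).1 h)
    refine ⟨p.natDegree, AlgZ_hm p, AlgZ_hm_ne p hp, AlgZ_hm_hom p, ?_⟩
    rw [← hφ, hbin, AlgZ_scale2 (AlgZ_hm_hom p) _ _ hV0, AlgZ_hm_dehom, hpw, mul_zero]

end Pool.Agent.Work.MP_91e6de_nt.DMR

end

section

set_option autoImplicit false

/-!
# Orbits of the translation of the affine line
-/

namespace Pool.Agent.Work.MP_91e6de_nt.DMR

open MvPolynomial NumberField IsDedekindDomain Height Filter Topology

theorem BasT_lin {K : Type} [Field K] (b : K) (x : ℕ → Fin 1 → K)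
    (hx : ∀ n i, x (n + 1) i = aeval (x n) (gT b i)) (n : ℕ) : x n 0 = x 0 0 + n * b := by
  induction n with
  | zero => simp
  | succ n ih =>
    rw [hx n 0]
    simp only [gT, map_add, aeval_X, aeval_C, Algebra.algebraMap_self, RingHom.id_apply, ih]
    push_cast
    ring

theorem BasT_inj {K : Type} [Field K] (b : K) : Function.Injective
    (aeval (gT b) : MvPolynomial (Fin 1) K →ₐ[K] MvPolynomial (Fin 1) K) := by
  have h : (aeval (gT (-b)) : MvPolynomial (Fin 1) K →ₐ[K] MvPolynomial (Fin 1) K).comp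
      (aeval (gT b)) = AlgHom.id K _ := by
    refine MvPolynomial.algHom_ext fun i => ?_
    rw [Subsingleton.elim i 0]
    simp only [AlgHom.comp_apply, aeval_X, gT, map_add, aeval_C, AlgHom.id_apply, map_neg]
    show X 0 + -C b + C b = X 0
    ring
  intro p q hpq
  have := congrArg (fun u => (aeval (gT (-b)) : MvPolynomial (Fin 1) K →ₐ[K] _) u) hpq
  simp only [← AlgHom.comp_apply, h, AlgHom.id_apply] at this
  exact this

theorem pr_BasT : S_BasT := by
  intro K _ _ b x hb hx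
  have hlin := BasT_lin b x hx
  have hinj : Function.Injective x := by
    intro n k h
    have h1 := congrFun h 0
    rw [hlin n, hlin k, add_right_inj] at h1
    exact_mod_cast mul_right_cancel₀ hb h1
  obtain ⟨C, hC0, hC⟩ := DM.pr_HX K (x 0 0) b hb
  refine ⟨hinj, ?_, ⟨C, hC0, fun n => ?_⟩, ⟨C, fun n => ?_⟩, BasT_inj b, fun n => ?_⟩
  · intro a ha
    by_contra hinf
    have hinf' : {n : ℕ | aeval (x n) a = 0}.Infinite := hinf
    have himg := hinf'.image (f := fun n => x n 0) (fun n _ k _ h => hinj (by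
      funext i
      rw [Subsingleton.elim i 0]
      exact h))
    refine ha (MvPolynomial.funext_set (fun _ : Fin 1 => (fun n => x n 0) ''
      {n : ℕ | aeval (x n) a = 0}) (fun _ => himg) ?_)
    intro u hu
    obtain ⟨n, hn, hu0⟩ := hu 0 (Set.mem_univ 0)
    have hux : u = x n := by
      funext i
      rw [Subsingleton.elim i 0]
      exact hu0.symm
    have hn' : aeval (x n) a = 0 := by simpa using hn
    rw [hux, map_zero]
    rwa [← MvPolynomial.coe_aeval_eq_eval]
  · rw [hlin n]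
    exact (hC n).1
  · rw [hlin n]
    exact (hC n).2
  · rw [logHeight₁_eq_logHeight, logHeight_swap]
    congr 1
    funext i
    fin_cases i
    · rfl
    · rfl

end Pool.Agent.Work.MP_91e6de_nt.DMR

end

section

set_option autoImplicit false

/-!
# CycW: a periodic subvariety from a cyclic chain
-/

namespace Pool.Agent.Work.MP_91e6de_nt.DMR

open MvPolynomial

section

attribute [local instance] MvPolynomial.gradedAlgebra

variable {s m : ℕ} {K : Type} [Field K]

/-- The ideal generated by the forms whose restriction to the chart is in `I`. -/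
noncomputable def CycW_W (a : Fin m → ℕ) (I : Ideal (MvPolynomial (Fin s ⊕ Fin m) K)) :
    Ideal (MvPolynomial (Fin (m + 1)) (MvPolynomial (Fin s) K)) :=
  ((I.comap (evHom (A := K) (fun i => X (Sum.inl i)) (hc a fun i => X (Sum.inr i)))).homogeneousCore
    (homogeneousSubmodule (Fin (m + 1)) (MvPolynomial (Fin s) K))).toIdeal

theorem CycW_hom (a : Fin m → ℕ) (I : Ideal (MvPolynomial (Fin s ⊕ Fin m) K))
    (G : MvPolynomial (Fin (m + 1)) (MvPolynomial (Fin s) K)) (hG : G ∈ CycW_W a I) (j : ℕ) :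
    homogeneousComponent j G ∈ CycW_W a I := by
  exact homogeneousComponent_mem_of_mem ((I.comap (evHom (A := K) (fun i => X (Sum.inl i))
    (hc a fun i => X (Sum.inr i)))).homogeneousCore
    (homogeneousSubmodule (Fin (m + 1)) (MvPolynomial (Fin s) K))).isHomogeneous hG j

theorem CycW_sub (a : Fin m → ℕ) (I : Ideal (MvPolynomial (Fin s ⊕ Fin m) K))
    (G : MvPolynomial (Fin (m + 1)) (MvPolynomial (Fin s) K)) (hG : G ∈ CycW_W a I) :
    dhB a G ∈ I :=
  Ideal.mem_comap.mp (Ideal.toIdeal_homogeneousCore_le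
    (homogeneousSubmodule (Fin (m + 1)) (MvPolynomial (Fin s) K)) _ hG)

theorem CycW_form (a : Fin m → ℕ) (I : Ideal (MvPolynomial (Fin s ⊕ Fin m) K)) (u : ℕ)
    (G : MvPolynomial (Fin (m + 1)) (MvPolynomial (Fin s) K)) (hu : G.IsHomogeneous u)
    (hG : dhB a G ∈ I) : G ∈ CycW_W a I :=
  Ideal.mem_homogeneousCore_of_homogeneous_of_mem ⟨u, hu⟩ (Ideal.mem_comap.mpr hG)

theorem CycW_prime (a : Fin m → ℕ) (I : Ideal (MvPolynomial (Fin s ⊕ Fin m) K))
    (hI : I.IsPrime) : (CycW_W a I).IsPrime :=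
  Ideal.IsPrime.homogeneousCore (𝒜 := homogeneousSubmodule (Fin (m + 1)) (MvPolynomial (Fin s) K))
    (hI.comap (evHom (A := K) (s := s) (fun i => (X (Sum.inl i) : MvPolynomial (Fin s ⊕ Fin m) K))
      (hc a fun i => X (Sum.inr i))))

theorem CycW_hsub_one {σ : Type} [Fintype σ] (p : σ → MvPolynomial σ K)
    (q : MvPolynomial σ K) : hsub 1 (1 : MvPolynomial σ K) p q = q := by
  classical
  unfold hsub
  have h1 : (1 : MvPolynomial σ K).support = {0} := support_one
  rw [h1, Finset.sum_singleton]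
  simp

/-- one step -/
theorem CycW_step (h1 : S_HomT) (e : ℕ) (a : Fin m → ℕ)
    (g : Fin s → MvPolynomial (Fin s) K)
    (F : Fin (m + 1) → MvPolynomial (Fin (m + 1)) (MvPolynomial (Fin s) K))
    (hF : ∀ i, (F i).IsHomogeneous e) (I J : Ideal (MvPolynomial (Fin s ⊕ Fin m) K))
    (hI : I.IsPrime) (hJ : J.IsPrime) (hP : Push (pB a g F) (qB a F) I J)
    (G : MvPolynomial (Fin (m + 1)) (MvPolynomial (Fin s) K)) (hG : G ∈ CycW_W a J) :
    comp g F G ∈ CycW_W a I := by
  have hq : qB a F ∉ I := by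
    intro h
    have h2 := (hP 1 1 (by simp)).mpr (by rw [CycW_hsub_one]; exact h)
    exact hJ.ne_top ((Ideal.eq_top_iff_one J).mpr h2)
  have hq0 : qB a F ≠ 0 := fun h => hq (h ▸ I.zero_mem)
  have key : ∀ j, comp g F (homogeneousComponent j G) ∈ CycW_W a I := by
    intro j
    have hj := homogeneousComponent_isHomogeneous j G
    have hGJ := CycW_sub a J _ (CycW_hom a J G hG j)
    refine CycW_form a I (e * j) _ (comp_homog g F e j hF _ hj) ?_
    have h2 := h1 s m K e j (max j (dhB a (homogeneousComponent j G)).totalDegree) a g F _ hF hj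
      (le_max_left _ _) (le_max_right _ _) hq0
    have h3 := (hP (dhB a (homogeneousComponent j G))
      (max j (dhB a (homogeneousComponent j G)).totalDegree) (le_max_right _ _)).mp hGJ
    rw [h2] at h3
    rcases hI.mem_or_mem h3 with h | h
    · exact absurd (hI.mem_of_pow_mem _ h) hq
    · exact h
  have h5 : comp g F G = ∑ j ∈ Finset.range (G.totalDegree + 1),
      comp g F (homogeneousComponent j G) := by
    conv_lhs => rw [← sum_homogeneousComponent G]
    exact ev_sum _ _ _ _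
  rw [h5]
  exact Ideal.sum_mem _ fun j _ => key j

theorem CycW_comp_X (G : MvPolynomial (Fin (m + 1)) (MvPolynomial (Fin s) K)) :
    ev (fun i => C (X i : MvPolynomial (Fin s) K))
      (X : Fin (m + 1) → MvPolynomial (Fin (m + 1)) (MvPolynomial (Fin s) K)) G = G := by
  have := ev_hom_ext (A := K) (RingHom.id (MvPolynomial (Fin (m + 1)) (MvPolynomial (Fin s) K)))
    (fun i => C (X i : MvPolynomial (Fin s) K)) X (by intro r; rfl) (by intro i; rfl)
    (by intro i; rfl) G
  exact this.symm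

theorem CycW_it_one (g : Fin s → MvPolynomial (Fin s) K)
    (F : Fin (m + 1) → MvPolynomial (Fin (m + 1)) (MvPolynomial (Fin s) K)) :
    (itB g F 1).1 = g ∧ (itB g F 1).2 = F := by
  constructor
  · funext i
    simp [itB]
  · funext i
    exact CycW_comp_X (F i)

end

/-- a periodic subvariety from a cyclic chain -/
theorem pr_CycW (h1 : S_HomT) (h2 : S_Hz) (h3 : S_ChI) (h4 : S_ItIt) (h5 : S_RepA) :
    S_CycW := by
  intro s m K _ IV g F e M h r a x y hV hM hOn hell hD hT hC
  classical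
  obtain ⟨T, hT, hTd⟩ := hT
  obtain ⟨n0, g0, I, hn0, hg0, hI, hP, hI0, hOn0⟩ := hC
  have h5' := h5 s m K IV g F e hV hM
  -- the ideal of `V` in the chart is contained in the members of the chain
  have hle : ∀ i ≤ g0, chI a IV ≤ I i := by
    intro i hi
    have hTI : ∀ G ∈ T, G ∈ IV := fun G hG => by
      rw [hT]
      exact Ideal.subset_span hG
    unfold chI
    rw [Ideal.map_le_iff_le_comap]
    conv_lhs => rw [hT]
    rw [Ideal.span_le]
    intro G hG
    rw [SetLike.mem_coe, Ideal.mem_comap]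
    refine (hI i hi).2.2 (dhB a G) (hTd G hG) fun n hn => ?_
    rw [aeval_dhB, hc_ch a (y n) (hell n hn)]
    exact h5'.2.2.2 (x n) (y n) _ (hOn n hn) G (hTI G hG)
  have hlV : (ell a fun i => (X i : MvPolynomial (Fin (m + 1)) (MvPolynomial (Fin s) K)))
      ∉ IV := by
    intro hl
    have h6 := hOn n0 hn0 _ hl
    apply hell n0 hn0
    have h7 : ev (x n0) (y n0) (ell a fun i =>
        (X i : MvPolynomial (Fin (m + 1)) (MvPolynomial (Fin s) K))) = ell a (y n0) := by
      unfold ell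
      rw [ev_add, ev_X, ev_sum]
      congr 1
      refine Finset.sum_congr rfl fun i _ => ?_
      rw [ev_mul, ev_X, ev_natCast]
    rw [← h7]
    exact h6
  have hdl : dhB a (ell a fun i =>
      (X i : MvPolynomial (Fin (m + 1)) (MvPolynomial (Fin s) K))) = 1 := by
    have h7 : dhB a (ell a fun i =>
        (X i : MvPolynomial (Fin (m + 1)) (MvPolynomial (Fin s) K))) =
        ell a (hc a fun i => (X (Sum.inr i) : MvPolynomial (Fin s ⊕ Fin m) K)) := by
      unfold ell dhB
      rw [ev_add, ev_X, ev_sum]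
      congr 1
      refine Finset.sum_congr rfl fun i _ => ?_
      rw [ev_mul, ev_X, ev_natCast]
    rw [h7, ell_hc]
  have hpr : ∀ i ≤ g0, (CycW_W a (I i)).IsPrime := fun i hi => CycW_prime a _ (hI i hi).1
  have hVW : ∀ i ≤ g0, IV ≤ CycW_W a (I i) := by
    intro i hi G hG
    rw [← sum_homogeneousComponent G]
    refine Ideal.sum_mem _ fun j _ => ?_
    refine CycW_form a _ j _ (homogeneousComponent_isHomogeneous j G) (hle i hi ?_)
    exact Ideal.mem_map_of_mem
      (evHom (A := K) (fun i => X (Sum.inl i)) (hc a fun i => X (Sum.inr i))) (hV.hom G hG j)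
  have hit : ∀ k ≤ g0, ∀ G ∈ CycW_W a (I g0),
      comp (itB g F k).1 (itB g F k).2 G ∈ CycW_W a (I (g0 - k)) := by
    intro k
    induction k with
    | zero =>
      intro _ G hG
      have h6 : comp (itB g F 0).1 (itB g F 0).2 G = G := CycW_comp_X G
      rw [h6, Nat.sub_zero]
      exact hG
    | succ k ih =>
      intro hk G hG
      have h6 := ih (by omega) G hG
      have h7 := (h4 s m K g F).2 1 k G
      rw [Nat.add_comm 1 k, (CycW_it_one g F).1, (CycW_it_one g F).2] at h7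
      rw [← h7]
      have h8 : g0 - k = g0 - (k + 1) + 1 := by omega
      rw [h8] at h6
      exact CycW_step h1 e a g F hM.hom (I (g0 - (k + 1))) (I (g0 - (k + 1) + 1))
        (hI _ (by omega)).1 (hI _ (by omega)).1 (hP _ (by omega)) _ h6
  refine ⟨n0, g0, CycW_W a (I 0), hg0, ⟨hpr 0 (Nat.zero_le _), CycW_hom a (I 0), ?_⟩, ?_, ?_, ?_⟩
  · -- not all coordinates vanish
    by_contra hcon
    push Not at hcon
    have h6 : (ell a fun i => (X i : MvPolynomial (Fin (m + 1)) (MvPolynomial (Fin s) K))) ∈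
        CycW_W a (I 0) := by
      unfold ell
      exact Ideal.add_mem _ (hcon _) (Ideal.sum_mem _ fun i _ => Ideal.mul_mem_left _ _ (hcon _))
    have h7 := CycW_sub a (I 0) _ h6
    rw [hdl] at h7
    exact (hI 0 (Nat.zero_le _)).1.ne_top ((Ideal.eq_top_iff_one _).mpr h7)
  · -- proper
    refine lt_of_le_of_ne (hVW 0 (Nat.zero_le _)) fun heq => ?_
    have hnle : ∃ H ∈ I 0, H ∉ chI a IV := by
      by_contra hcon
      push Not at hcon
      obtain ⟨d, hd, hDd⟩ := (hI 0 (Nat.zero_le _)).2.1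
      obtain ⟨J, hJ, hJi⟩ := hD.1
      have h5 := hDd.2 J (Ind_anti hJi hcon)
      omega
    obtain ⟨H, hH, hH0⟩ := hnle
    obtain ⟨G, hGh, hGd⟩ := (h2 s m K a).1 H.totalDegree H (by
      intro u hu
      have h3 := le_totalDegree hu
      rw [Finsupp.sum_fintype _ _ (by intro i; rfl), Fintype.sum_sum_type] at h3
      omega)
    have h6 : G ∈ IV := by
      rw [heq]
      exact CycW_form a (I 0) _ G hGh (by rw [hGd]; exact hH)
    apply hH0
    rw [← hGd]
    exact ((h3 s m K IV a hV hlV).2 _ G hGh).mpr h6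
  · intro G hG
    have h6 := hit g0 le_rfl G (by rw [hI0]; exact hG)
    rwa [Nat.sub_self] at h6
  · intro G hG
    have h6 : ev (x n0) (y n0) G = ∑ j ∈ Finset.range (G.totalDegree + 1),
        ev (x n0) (y n0) (homogeneousComponent j G) := by
      conv_lhs => rw [← sum_homogeneousComponent G]
      exact ev_sum _ _ _ _
    rw [h6]
    refine Finset.sum_eq_zero fun j _ => ?_
    rw [ev_eq_chart a (x n0) (y n0) (hell n0 hn0) j _ (homogeneousComponent_isHomogeneous j G)]
    have h7 := hOn0 _ (CycW_sub a (I 0) _ (CycW_hom a (I 0) G hG j))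
    rw [h7, mul_zero]

end Pool.Agent.Work.MP_91e6de_nt.DMR

end

section

set_option autoImplicit false

/-!
# Item DicC: dichotomy for the second order recursion (helper55)
-/

namespace Pool.Agent.Work.MP_91e6de_nt.DMR

open Filter Topology

theorem DicC_log (n : ℕ) : Real.log 2 ≤ Real.log (n + 2) :=
  Real.log_le_log (by norm_num) (by have : (0 : ℝ) ≤ n := Nat.cast_nonneg n; linarith)

theorem pr_DicC (h1 : Pool.Agent.Work.MP_91e6de_nt.DM.S_Dic) : S_DicC := by
  intro d d' n1 u C hd hd' hC hu h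
  have hlog2 : 0 < Real.log 2 := Real.log_pos (by norm_num)
  have hlog : ∀ n : ℕ, 0 < Real.log ((n : ℝ) + 2) := fun n =>
    lt_of_lt_of_le hlog2 (DicC_log n)
  have hd1 : (2 : ℝ) ≤ d := by exact_mod_cast hd
  have hd1' : (2 : ℝ) ≤ d' := by exact_mod_cast hd'
  have hd0' : (0 : ℝ) < d' := by linarith
  have hd0 : (0 : ℝ) < d := by linarith
  have hw : ∀ n, n1 ≤ n → (d : ℝ) * (u (n + 1) - u n / d') ≤
      (u (n + 1 + 1) - u (n + 1) / d') + C * Real.log (n + 2) := by
    intro n hn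
    have h2 := h n hn
    have h3 : (d : ℝ) * (u (n + 1) - u n / d') =
        ((d * d' + 1 : ℝ) * u (n + 1) - d * u n) / d' - u (n + 1) / d' := by
      field_simp
      ring
    have h4 : ((d * d' + 1 : ℝ) * u (n + 1) - d * u n) / d' ≤
        (d' * u (n + 2) + C * Real.log (n + 2)) / d' :=
      div_le_div_of_nonneg_right (by linarith) hd0'.le
    have h5 : (d' * u (n + 2) + C * Real.log (n + 2)) / d' =
        u (n + 2) + C * Real.log (n + 2) / d' := by
      field_simp
    have h6 : C * Real.log (n + 2) / d' ≤ C * Real.log (n + 2) :=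
      div_le_self (mul_nonneg hC (hlog n).le) (by linarith)
    have h7 : u (n + 1 + 1) = u (n + 2) := rfl
    rw [h3, h7]
    linarith
  rcases h1 d n1 (fun n => u (n + 1) - u n / d') C hd hC hw with ⟨c, hc, hev⟩ | ⟨C1, hC1, hb⟩
  · left
    refine ⟨c / d, div_pos hc hd0, ?_⟩
    rw [eventually_atTop] at hev ⊢
    obtain ⟨N, hN⟩ := hev
    refine ⟨N + 1, fun n hn => ?_⟩
    obtain ⟨k, rfl⟩ : ∃ k, n = k + 1 := ⟨n - 1, by omega⟩
    have h2 := hN k (by omega)
    have h3 : 0 ≤ u k / d' := div_nonneg (hu k) hd0'.le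
    have h4 : c / d * (d : ℝ) ^ (k + 1) = c * (d : ℝ) ^ k := by
      rw [pow_succ]
      field_simp
    rw [h4]
    have h5 : c * (d : ℝ) ^ k ≤ u (k + 1) - u k / d' := h2
    linarith
  · right
    set C2 : ℝ := 2 * C1 + u n1 / Real.log 2 with hC2
    have hC2n : 0 ≤ C2 := by
      have := div_nonneg (hu n1) hlog2.le
      linarith
    have hmain : ∀ k : ℕ, u (n1 + k) ≤ C2 * Real.log ((n1 + k : ℕ) + 2) := by
      intro k
      induction k with
      | zero =>
        rw [Nat.add_zero]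
        have h2 : u n1 = u n1 / Real.log 2 * Real.log 2 := by field_simp
        calc u n1 = u n1 / Real.log 2 * Real.log 2 := h2
          _ ≤ C2 * Real.log 2 := mul_le_mul_of_nonneg_right (by linarith) hlog2.le
          _ ≤ C2 * Real.log ((n1 : ℕ) + 2) := mul_le_mul_of_nonneg_left (DicC_log n1) hC2n
      | succ k ih =>
        have h2 := hb (n1 + k) (by omega)
        have h3 : u (n1 + k + 1) - u (n1 + k) / d' ≤ C1 * Real.log ((n1 + k : ℕ) + 2) := h2
        have h4 : u (n1 + k) / d' ≤ u (n1 + k) / 2 :=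
          div_le_div_of_nonneg_left (hu _) (by norm_num) hd1'
        have h5 : 2 * C1 ≤ C2 := by
          have := div_nonneg (hu n1) hlog2.le
          linarith
        have h6 : C1 * Real.log ((n1 + k : ℕ) + 2) ≤ C2 / 2 * Real.log ((n1 + k : ℕ) + 2) :=
          mul_le_mul_of_nonneg_right (by linarith) (hlog _).le
        have h7 : Real.log ((n1 + k : ℕ) + 2) ≤ Real.log ((n1 + (k + 1) : ℕ) + 2) := by
          apply Real.log_le_log
          · have : (0 : ℝ) ≤ ((n1 + k : ℕ) : ℝ) := Nat.cast_nonneg _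
            linarith
          · push_cast
            linarith
        have h8 := mul_le_mul_of_nonneg_left h7 hC2n
        have h9 : u (n1 + (k + 1)) = u (n1 + k + 1) := rfl
        rw [h9]
        linarith
    refine ⟨C2 + (∑ k ∈ Finset.range n1, u k) / Real.log 2, ?_, fun n => ?_⟩
    · have := div_nonneg (Finset.sum_nonneg fun k (_ : k ∈ Finset.range n1) => hu k) hlog2.le
      linarith
    · have hS : 0 ≤ (∑ k ∈ Finset.range n1, u k) / Real.log 2 :=
        div_nonneg (Finset.sum_nonneg fun k _ => hu k) hlog2.le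
      rcases le_or_gt n1 n with hn | hn
      · obtain ⟨k, rfl⟩ : ∃ k, n = n1 + k := ⟨n - n1, by omega⟩
        refine (hmain k).trans (mul_le_mul_of_nonneg_right (by linarith) (hlog _).le)
      · have h2 : u n ≤ ∑ k ∈ Finset.range n1, u k :=
          Finset.single_le_sum (f := u) (fun k _ => hu k) (Finset.mem_range.2 hn)
        calc u n ≤ ∑ k ∈ Finset.range n1, u k := h2
          _ = (∑ k ∈ Finset.range n1, u k) / Real.log 2 * Real.log 2 := by field_simp
          _ ≤ (C2 + (∑ k ∈ Finset.range n1, u k) / Real.log 2) * Real.log 2 :=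
            mul_le_mul_of_nonneg_right (by linarith) hlog2.le
          _ ≤ _ := mul_le_mul_of_nonneg_left (DicC_log n) (by linarith)

end Pool.Agent.Work.MP_91e6de_nt.DMR

end

section

set_option autoImplicit false

/-!
# Item DicW: dichotomy for the heights of the orbits
-/

namespace Pool.Agent.Work.MP_91e6de_nt.DMR

open MvPolynomial NumberField IsDedekindDomain Height Filter Topology

theorem DicW_log (n : ℕ) : 1 ≤ 2 * Real.log ((n : ℝ) + 2) := by
  have h1 : Real.log 2 ≤ Real.log ((n : ℝ) + 2) := by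
    apply Real.log_le_log (by norm_num)
    have : (0 : ℝ) ≤ n := Nat.cast_nonneg n
    linarith
  have h2 := Real.log_two_gt_d9
  linarith

theorem pr_DicW (h1 : S_HUm) (h2 : S_HLm) (h3 : S_BasT)
    (h4 : Pool.Agent.Work.MP_91e6de_nt.DM.S_Dic) (h5 : Pool.Agent.Work.MP_91e6de_nt.DM.S_UB) :
    S_DicW := by
  intro m K _ _ d b F x y hd hb hF hNl horb
  have hd1 : (1 : ℝ) ≤ d := by
    have : 1 ≤ d := by omega
    exact_mod_cast this
  obtain ⟨_, hfin, ⟨C1, hC1, hx⟩, _⟩ := h3 K b x hb horb.1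
  obtain ⟨t, ρ, H, hρ, hH, hHF⟩ := hNl
  obtain ⟨C2, hC2, hup0⟩ := h1 1 m (Fin (m + 1)) K d F hF
  obtain ⟨C3, hC3, hlow0⟩ := h2 1 m K d t F ρ H hH hHF
  have hl0 : ∀ n : ℕ, 0 ≤ Real.log ((n : ℝ) + 2) := fun n => by linarith [DicW_log n]
  have hx1 : ∀ n, 1 + ∑ i, logHeight₁ (x n i) ≤ (2 + C1) * Real.log ((n : ℝ) + 2) := by
    intro n
    have e1 := hx n
    have e2 := DicW_log n
    rw [Fin.sum_univ_one]
    linarith
  obtain ⟨n1, hn1⟩ : ∃ n1 : ℕ, ∀ n, n1 ≤ n → aeval (x n) ρ ≠ 0 := by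
    obtain ⟨N, hN⟩ := (hfin ρ hρ).bddAbove
    refine ⟨N + 1, fun n hn h0 => ?_⟩
    have := hN (show n ∈ {n : ℕ | aeval (x n) ρ = 0} from h0)
    omega
  set a : ℕ → ℝ := fun n => logHeight (y n) with ha
  have hy : ∀ n, y (n + 1) = fun i => ev (x n) (y n) (F i) := fun n => funext (horb.2.1 n)
  have hup : ∀ n, a (n + 1) ≤ d * a n + C2 * (2 + C1) * Real.log ((n : ℝ) + 2) := by
    intro n
    have e1 := hup0 (x n) (y n)
    have e2 : a (n + 1) = logHeight (fun i => ev (x n) (y n) (F i)) := by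
      rw [ha]
      simp only
      rw [hy n]
    rw [e2]
    have e3 := mul_le_mul_of_nonneg_left (hx1 n) hC2
    rw [← mul_assoc] at e3
    exact e1.trans (add_le_add le_rfl e3)
  have hlow : ∀ n, n1 ≤ n → d * a n ≤ a (n + 1) + C3 * (2 + C1) * Real.log ((n : ℝ) + 2) := by
    intro n hn
    have e1 := hlow0 (x n) (y n) (hn1 n hn)
    have e2 : a (n + 1) = logHeight (fun i => ev (x n) (y n) (F i)) := by
      rw [ha]
      simp only
      rw [hy n]
    rw [e2]
    have e3 := mul_le_mul_of_nonneg_left (hx1 n) hC3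
    rw [← mul_assoc] at e3
    exact e1.trans (add_le_add le_rfl e3)
  obtain ⟨C', hC', hub⟩ := h5 d a (C2 * (2 + C1)) hd (by positivity) hup
  refine ⟨⟨C', hC', hub⟩, ?_⟩
  rcases h4 d n1 a (C3 * (2 + C1)) hd (by positivity) hlow with h6 | ⟨C'', hC''0, hC''⟩
  · exact Or.inl h6
  · refine Or.inr ⟨C'' + C' * (d : ℝ) ^ n1 * 2, fun n => ?_⟩
    have h7 : 0 ≤ C' * (d : ℝ) ^ n1 := by positivity
    rw [add_mul]
    by_cases hn : n1 ≤ n
    · have e1 := hC'' n hn
      have e2 : 0 ≤ C' * (d : ℝ) ^ n1 * 2 * Real.log ((n : ℝ) + 2) :=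
        mul_nonneg (by positivity) (hl0 n)
      exact e1.trans (le_add_of_nonneg_right e2)
    · push Not at hn
      have e1 : a n ≤ C' * (d : ℝ) ^ n1 := (hub n).trans
        (mul_le_mul_of_nonneg_left (pow_le_pow_right₀ hd1 hn.le) hC')
      have e2 : C' * (d : ℝ) ^ n1 * 1 ≤ C' * (d : ℝ) ^ n1 * (2 * Real.log ((n : ℝ) + 2)) :=
        mul_le_mul_of_nonneg_left (DicW_log n) h7
      have e3 : 0 ≤ C'' * Real.log ((n : ℝ) + 2) := mul_nonneg hC''0 (hl0 n)
      have e4 : a n ≤ C'' * Real.log ((n : ℝ) + 2) +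
          C' * (d : ℝ) ^ n1 * 2 * Real.log ((n : ℝ) + 2) := by
        linarith
      exact e4

end Pool.Agent.Work.MP_91e6de_nt.DMR

end

section

set_option autoImplicit false

/-!
# Relative dimension zero: a form which does not vanish on `W` vanishes over finitely many points
-/

namespace Pool.Agent.Work.MP_91e6de_nt.DMR

open MvPolynomial

/-- The value of a binary form at two polynomials, as a sum. -/
theorem FinZ_bin {s m : ℕ} {K : Type} [Field K]
    (H : MvPolynomial (Fin (1 + 1)) (MvPolynomial (Fin s) K))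
    (U V : MvPolynomial (Fin (m + 1)) (MvPolynomial (Fin s) K)) :
    bin H U V = ∑ d ∈ H.support, C (H.coeff d) * (U ^ d 0 * V ^ d 1) := by
  rw [bin, ev_eq_sum]
  refine Finset.sum_congr rfl fun d _ => ?_
  rw [Fin.prod_univ_two]
  congr 1
  have h : (aeval (fun l => (C (X l : MvPolynomial (Fin s) K) :
      MvPolynomial (Fin (m + 1)) (MvPolynomial (Fin s) K))) :
      MvPolynomial (Fin s) K →ₐ[K] MvPolynomial (Fin (m + 1)) (MvPolynomial (Fin s) K)) =
      (Algebra.ofId (MvPolynomial (Fin s) K)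
        (MvPolynomial (Fin (m + 1)) (MvPolynomial (Fin s) K))).restrictScalars K := by
    ext i
    simp [Algebra.ofId_apply, MvPolynomial.algebraMap_eq]
  rw [h]
  simp [Algebra.ofId_apply, MvPolynomial.algebraMap_eq]

theorem pr_FinZ (h1 : S_AlgZ) : S_FinZ := by
  intro s m K _ IW e G hW hHor hRZ hG hGW
  have hprime := hW.prime
  have key : ∀ i : Fin (m + 1), ∃ a : MvPolynomial (Fin s) K, a ≠ 0 ∧
      ∀ (x : Fin s → K) (y : Fin (m + 1) → K), OnV IW x y → ev x y G = 0 → y i ≠ 0 →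
        aeval x a = 0 := by
    intro i
    obtain ⟨t, H, hH0, hHt, hHW⟩ := h1 s m K IW e G (X i ^ e) hW hHor hRZ hG
      (by simpa using (isHomogeneous_X (MvPolynomial (Fin s) K) i).pow e)
    have hne : H.support.Nonempty := by
      rw [Finset.nonempty_iff_ne_empty]
      intro h
      exact hH0 (MvPolynomial.support_eq_empty.mp h)
    obtain ⟨d0, hd0, hmin⟩ := H.support.exists_min_image (fun d => d 0) hne
    rw [FinZ_bin] at hHW
    have hsplit : (∑ d ∈ H.support, C (H.coeff d) * (G ^ d 0 * (X i ^ e) ^ d 1) :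
        MvPolynomial (Fin (m + 1)) (MvPolynomial (Fin s) K)) = G ^ d0 0 *
        ∑ d ∈ H.support, C (H.coeff d) * (G ^ (d 0 - d0 0) * (X i ^ e) ^ d 1) := by
      rw [Finset.mul_sum]
      refine Finset.sum_congr rfl fun d hd => ?_
      have h2 : G ^ d 0 = G ^ d0 0 * G ^ (d 0 - d0 0) := by
        rw [← pow_add, Nat.add_sub_cancel' (hmin d hd)]
      rw [h2]
      ring
    rw [hsplit] at hHW
    have hmem : (∑ d ∈ H.support, C (H.coeff d) * (G ^ (d 0 - d0 0) * (X i ^ e) ^ d 1) :
        MvPolynomial (Fin (m + 1)) (MvPolynomial (Fin s) K)) ∈ IW := by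
      rcases hprime.mem_or_mem hHW with h | h
      · exact absurd (hprime.mem_of_pow_mem _ h) hGW
      · exact h
    refine ⟨H.coeff d0, MvPolynomial.mem_support_iff.mp hd0, ?_⟩
    intro x y hon hG0 hyi
    have h3 := hon _ hmem
    rw [ev_sum] at h3
    rw [Finset.sum_eq_single d0] at h3
    · simp only [ev_mul, ev_C, ev_pow, ev_X, Nat.sub_self, pow_zero, one_mul] at h3
      rcases mul_eq_zero.mp h3 with h | h
      · exact h
      · exact absurd h (pow_ne_zero _ (pow_ne_zero _ hyi))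
    · intro d hd hne'
      have hlt : d0 0 < d 0 := by
        refine lt_of_le_of_ne (hmin d hd) fun heq => hne' ?_
        have e1 := hHt (MvPolynomial.mem_support_iff.mp hd)
        have e2 := hHt (MvPolynomial.mem_support_iff.mp hd0)
        rw [Finsupp.weight_apply, Finsupp.sum_fintype _ _ (by simp), Fin.sum_univ_two] at e1 e2
        simp only [Pi.one_apply, smul_eq_mul, mul_one] at e1 e2
        ext j
        fin_cases j
        · exact heq.symm
        · show d 1 = d0 1
          omega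
      simp only [ev_mul, ev_C, ev_pow, ev_X]
      rw [hG0, zero_pow (by omega)]
      ring
    · intro h
      exact absurd hd0 h
  choose a ha0 ha using key
  refine ⟨∏ i, a i, Finset.prod_ne_zero_iff.mpr fun i _ => ha0 i, ?_⟩
  intro x y hy hon hG0
  obtain ⟨i, hi⟩ : ∃ i, y i ≠ 0 := by
    by_contra hcon
    push Not at hcon
    exact hy (funext hcon)
  rw [map_prod]
  exact Finset.prod_eq_zero (Finset.mem_univ i) (ha i x y hon hG0 hi)

end Pool.Agent.Work.MP_91e6de_nt.DMR

end

section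

set_option autoImplicit false

/-!
# Item Fuap: finite unions of arithmetic progressions
-/

namespace Pool.Agent.Work.MP_91e6de_nt.DMR

theorem Fuap_fin {A : Set ℕ} (h : A.Finite) : FUAP A := by
  refine ⟨h.toFinset.image (fun a => (a, 0)), ?_⟩
  ext n
  constructor
  · intro hn
    refine ⟨(n, 0), ?_, 0, by simp⟩
    rw [Finset.mem_image]
    exact ⟨n, h.mem_toFinset.2 hn, rfl⟩
  · rintro ⟨p, hp, k, hk⟩
    rw [Finset.mem_image] at hp
    obtain ⟨a, ha, rfl⟩ := hp
    simp only [zero_mul, add_zero] at hk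
    rw [hk]
    exact h.mem_toFinset.1 ha

theorem Fuap_union {A B : Set ℕ} (hA : FUAP A) (hB : FUAP B) : FUAP (A ∪ B) := by
  obtain ⟨T, hT⟩ := hA
  obtain ⟨U, hU⟩ := hB
  refine ⟨T ∪ U, ?_⟩
  ext n
  rw [Set.mem_union, hT, hU]
  constructor
  · rintro (⟨p, hp, k, hk⟩ | ⟨p, hp, k, hk⟩)
    · exact ⟨p, Finset.mem_union_left _ hp, k, hk⟩
    · exact ⟨p, Finset.mem_union_right _ hp, k, hk⟩
  · rintro ⟨p, hp, k, hk⟩
    rcases Finset.mem_union.1 hp with h | h
    · exact Or.inl ⟨p, h, k, hk⟩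
    · exact Or.inr ⟨p, h, k, hk⟩

theorem Fuap_prog (N c : ℕ) : FUAP {n | ∃ k : ℕ, n = N + c * k} := by
  refine ⟨{(N, c)}, ?_⟩
  ext n
  constructor
  · rintro ⟨k, hk⟩
    exact ⟨(N, c), Finset.mem_singleton_self _, k, hk⟩
  · rintro ⟨p, hp, k, hk⟩
    rw [Finset.mem_singleton.1 hp] at hk
    exact ⟨k, hk⟩

theorem Fuap_class (S : Set ℕ) (c : ℕ) (hc : 1 ≤ c) (r : ℕ) (hr : r < c)
    (h : {n | n ∈ S ∧ n % c = r}.Finite ∨ {n | n ∉ S ∧ n % c = r}.Finite) :
    FUAP {n | n ∈ S ∧ n % c = r} := by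
  rcases h with h | h
  · exact Fuap_fin h
  · obtain ⟨M, hM⟩ := h.bddAbove
    set N : ℕ := r + c * (M + 1) with hN
    have hMN : M < N := by nlinarith
    have hfin : {n | (n ∈ S ∧ n % c = r) ∧ n < N}.Finite :=
      (Set.finite_lt_nat N).subset fun n hn => hn.2
    have he : {n | n ∈ S ∧ n % c = r} =
        {n | (n ∈ S ∧ n % c = r) ∧ n < N} ∪ {n | ∃ k : ℕ, n = N + c * k} := by
      ext n
      simp only [Set.mem_setOf_eq, Set.mem_union]
      constructor
      · intro hn
        by_cases hlt : n < N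
        · exact Or.inl ⟨hn, hlt⟩
        · right
          push Not at hlt
          refine ⟨n / c - (M + 1), ?_⟩
          have h1 := Nat.div_add_mod n c
          rw [hn.2] at h1
          have h2 : M + 1 ≤ n / c := by
            by_contra h3
            push Not at h3
            have h4 : c * (n / c) ≤ c * M := Nat.mul_le_mul_left c (by omega)
            nlinarith
          obtain ⟨k, hk⟩ := Nat.exists_eq_add_of_le h2
          rw [hk, Nat.add_sub_cancel_left, hN]
          rw [hk] at h1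
          rw [← h1]
          ring
      · rintro (hn | ⟨k, hk⟩)
        · exact hn.1
        · have h1 : n % c = r := by
            have : n = r + c * (M + 1 + k) := by rw [hk, hN]; ring
            rw [this, Nat.add_mul_mod_self_left, Nat.mod_eq_of_lt hr]
          refine ⟨?_, h1⟩
          by_contra hnS
          have h2 : n ≤ M := hM ⟨hnS, h1⟩
          have h3 : N ≤ n := by rw [hk]; exact Nat.le_add_right _ _
          omega
    rw [he]
    exact Fuap_union (Fuap_fin hfin) (Fuap_prog N c)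

theorem pr_Fuap : S_Fuap := by
  intro S c hc h
  have key : ∀ m : ℕ, m ≤ c → FUAP {n | n ∈ S ∧ n % c < m} := by
    intro m
    induction m with
    | zero =>
      intro _
      have : {n | n ∈ S ∧ n % c < 0} = (∅ : Set ℕ) := by
        ext n; simp
      rw [this]
      exact Fuap_fin Set.finite_empty
    | succ m ih =>
      intro hm
      have he : {n | n ∈ S ∧ n % c < m + 1} =
          {n | n ∈ S ∧ n % c < m} ∪ {n | n ∈ S ∧ n % c = m} := by
        ext n
        simp only [Set.mem_setOf_eq, Set.mem_union]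
        constructor
        · rintro ⟨h1, h2⟩
          rcases Nat.lt_succ_iff_lt_or_eq.1 h2 with h3 | h3
          · exact Or.inl ⟨h1, h3⟩
          · exact Or.inr ⟨h1, h3⟩
        · rintro (⟨h1, h2⟩ | ⟨h1, h2⟩)
          · exact ⟨h1, by omega⟩
          · exact ⟨h1, by omega⟩
      rw [he]
      exact Fuap_union (ih (by omega)) (Fuap_class S c hc m (by omega) (h m (by omega)))
  have h1 := key c le_rfl
  have he : {n | n ∈ S ∧ n % c < c} = S := by
    ext n
    simp only [Set.mem_setOf_eq, and_iff_left_iff_imp]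
    intro _
    exact Nat.mod_lt _ (by omega)
  rw [he] at h1
  exact h1

end Pool.Agent.Work.MP_91e6de_nt.DMR

end

section

set_option autoImplicit false

/-!
# GlueZ: orbits on a subvariety of relative dimension zero satisfy binary forms
-/

namespace Pool.Agent.Work.MP_91e6de_nt.DMR

open MvPolynomial

/-- Evaluation of a binary form at two polynomials. -/
theorem GlueZ_bin {s m : ℕ} {K : Type} [Field K] (x : Fin s → K) (y : Fin (m + 1) → K)
    (H : MvPolynomial (Fin (1 + 1)) (MvPolynomial (Fin s) K))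
    (U V : MvPolynomial (Fin (m + 1)) (MvPolynomial (Fin s) K)) :
    ev x y (bin H U V) = ev x ![ev x y U, ev x y V] H := by
  unfold bin
  rw [ev_ev]
  congr 1
  · funext l
    simp
  · funext l
    refine Fin.cases ?_ (fun l => ?_) l
    · simp
    · refine Fin.cases ?_ (fun l => ?_) l
      · simp
      · exact Fin.elim0 l

/-- One point satisfies a linear form with constant coefficients. -/
theorem GlueZ_lin {K : Type} [Field K] (x : Fin 1 → K) (u v : K) :
    ∃ H : MvPolynomial (Fin (1 + 1)) (MvPolynomial (Fin 1) K),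
      H ≠ 0 ∧ H.IsHomogeneous 1 ∧ ev x ![u, v] H = 0 := by
  by_cases huv : u = 0 ∧ v = 0
  · refine ⟨X 0, X_ne_zero 0, isHomogeneous_X _ 0, ?_⟩
    rw [ev_X]
    simpa using huv.1
  · refine ⟨C (C v) * X 0 - C (C u) * X 1, ?_, ?_, ?_⟩
    · intro h
      apply huv
      have h1 : ∀ w z : K, v * w - u * z = 0 := by
        intro w z
        have h2 := congrArg (ev (A := K) x ![w, z]) h
        rw [ev_sub, ev_mul, ev_mul, ev_X, ev_X, ev_C, ev_C, ev_zero, aeval_C, aeval_C] at h2
        simpa using h2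
      have h2 := h1 1 0
      have h3 := h1 0 1
      constructor
      · simpa using h3
      · simpa using h2
    · have h1 : (C (C v) * X 0 : MvPolynomial (Fin (1 + 1)) (MvPolynomial (Fin 1) K)).IsHomogeneous
          1 := by
        simpa using (isHomogeneous_C (Fin (1 + 1)) (C v : MvPolynomial (Fin 1) K)).mul
          (isHomogeneous_X _ 0)
      have h2 : (C (C u) * X 1 : MvPolynomial (Fin (1 + 1)) (MvPolynomial (Fin 1) K)).IsHomogeneous
          1 := by
        simpa using (isHomogeneous_C (Fin (1 + 1)) (C u : MvPolynomial (Fin 1) K)).mul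
          (isHomogeneous_X _ 1)
      exact h1.sub h2
    · rw [ev_sub, ev_mul, ev_mul, ev_X, ev_X, ev_C, ev_C, aeval_C, aeval_C]
      simp
      ring

/-- orbits on a subvariety of relative dimension zero satisfy binary forms -/
theorem pr_GlueZ (h1 : S_ImW) (h2 : S_SubO) : S_GlueZ := by
  intro m K _ d b F n0 c IW x y hd hc hF hNl hO hV hH hR hI hOn i j
  classical
  have hsub := (h2 1 m K IW (gT b) F n0 c x y hO).2 hI hOn
  have hr : ∀ r : ℕ, ∃ (t : ℕ) (H : MvPolynomial (Fin (1 + 1)) (MvPolynomial (Fin 1) K)),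
      H ≠ 0 ∧ H.IsHomogeneous t ∧
      ∀ k, ev (x (n0 + c * k + r)) ![y (n0 + c * k + r) i, y (n0 + c * k + r) j] H = 0 := by
    intro r
    obtain ⟨IW', hV', hH', hR', hI', hO'⟩ := h1 m K d b F r c IW hd hF hNl hV hH hR hI
    obtain ⟨t, H, hH0, hHt, hHm⟩ := hR' i j
    refine ⟨t, H, hH0, hHt, fun k => ?_⟩
    have h3 := hO' x y hO (n0 + c * k) (hsub k) _ hHm
    rw [GlueZ_bin, ev_X, ev_X] at h3
    exact h3
  have hl : ∀ n : ℕ, ∃ H : MvPolynomial (Fin (1 + 1)) (MvPolynomial (Fin 1) K),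
      H ≠ 0 ∧ H.IsHomogeneous 1 ∧ ev (x n) ![y n i, y n j] H = 0 := fun n =>
    GlueZ_lin (x n) (y n i) (y n j)
  choose t H hH0 hHt hHe using hr
  choose L hL0 hLt hLe using hl
  refine ⟨∑ r ∈ Finset.range c, t r + ∑ _n ∈ Finset.range n0, 1,
    (∏ r ∈ Finset.range c, H r) * ∏ n ∈ Finset.range n0, L n, ?_, ?_, ?_⟩
  · exact mul_ne_zero (Finset.prod_ne_zero_iff.mpr fun r _ => hH0 r)
      (Finset.prod_ne_zero_iff.mpr fun n _ => hL0 n)
  · exact (IsHomogeneous.prod _ _ _ fun r _ => hHt r).mul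
      (IsHomogeneous.prod _ _ _ fun n _ => hLt n)
  · intro n
    rw [ev_mul, ev_prod, ev_prod]
    rcases Nat.lt_or_ge n n0 with hn | hn
    · rw [Finset.prod_eq_zero (Finset.mem_range.mpr hn) (hLe n), mul_zero]
    · have h3 : n0 + c * ((n - n0) / c) + (n - n0) % c = n := by
        have := Nat.div_add_mod (n - n0) c
        omega
      have h4 := hHe ((n - n0) % c) ((n - n0) / c)
      rw [h3] at h4
      rw [Finset.prod_eq_zero (Finset.mem_range.mpr (Nat.mod_lt _ hc)) h4, zero_mul]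

end Pool.Agent.Work.MP_91e6de_nt.DMR

end

section

set_option autoImplicit false

/-!
# The fibre degrees of the iterates
-/

namespace Pool.Agent.Work.MP_91e6de_nt.DMR

open MvPolynomial

/-- Substituting `0` for the last variable in the homogenisation gives the top component. -/
theorem GrC_sub {s m : ℕ} {K : Type} [Field K] (e : ℕ)
    (f : MvPolynomial (Fin (m + 1)) (MvPolynomial (Fin s) K)) (hf : f.totalDegree ≤ e) :
    aeval (Fin.snoc X 0 : Fin (m + 2) → MvPolynomial (Fin (m + 1)) (MvPolynomial (Fin s) K))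
      (hmg e f) = homogeneousComponent e f := by
  classical
  rw [hmg, map_sum, homogeneousComponent_apply, Finset.sum_filter]
  refine Finset.sum_congr rfl fun u hu => ?_
  have hle : ∑ j, u j ≤ e := by
    have h := (le_totalDegree hu).trans hf
    rwa [Finsupp.sum_fintype _ _ (fun _ => rfl)] at h
  rw [map_mul, map_mul, map_pow, map_prod, aeval_X, Fin.snoc_last]
  have hP : (∏ j, aeval (Fin.snoc X 0 : Fin (m + 2) →
      MvPolynomial (Fin (m + 1)) (MvPolynomial (Fin s) K))
      ((X (Fin.castSucc j) : MvPolynomial (Fin (m + 2)) (MvPolynomial (Fin s) K)) ^ u j)) =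
      ∏ j, X j ^ u j := by
    refine Finset.prod_congr rfl fun j _ => ?_
    rw [map_pow, aeval_X, Fin.snoc_castSucc]
  rw [hP, Finsupp.degree_eq_sum]
  split_ifs with h
  · rw [h, Nat.sub_self, pow_zero, mul_one, monomial_eq, Finsupp.prod_fintype]
    · rw [aeval_C]
      rfl
    · intro i
      exact pow_zero _
  · rw [zero_pow (by omega), mul_zero]

theorem GrC_not_dvd {s m : ℕ} {K : Type} [Field K] (e : ℕ)
    (f : MvPolynomial (Fin (m + 1)) (MvPolynomial (Fin s) K)) (hf : f.totalDegree ≤ e)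
    (hne : homogeneousComponent e f ≠ 0) :
    ¬ (X (Fin.last (m + 1)) : MvPolynomial (Fin (m + 2)) (MvPolynomial (Fin s) K)) ∣
      hmg e f := by
  rintro ⟨Q, hQ⟩
  apply hne
  rw [← GrC_sub e f hf, hQ, map_mul, aeval_X, Fin.snoc_last, zero_mul]

theorem pr_GrC (h1 : S_HmH) (h2 : S_TopIt) : S_GrC := by
  intro s m K _ d d' g F G r hF k D GG hne hhom hprop
  have e2 := ((h1 s m K d).2.2 g F hF.degF k).2
  rw [e2] at hprop
  obtain ⟨hdeg, i, hi⟩ := h2 s m K d d' g F G r hF k
  have hlast : ∀ i : Fin (m + 1), GG i.castSucc * X (Fin.last (m + 1)) ^ d ^ k =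
      GG (Fin.last (m + 1)) * hmg (d ^ k) ((itB g F k).2 i) := by
    intro i
    have := hprop i.castSucc (Fin.last (m + 1))
    rwa [Fin.snoc_last, Fin.snoc_castSucc] at this
  have hL : (X (Fin.last (m + 1)) : MvPolynomial (Fin (m + 2)) (MvPolynomial (Fin s) K)) ^ d ^ k
      ≠ 0 := pow_ne_zero _ (X_ne_zero _)
  have hG : GG (Fin.last (m + 1)) ≠ 0 := by
    intro h0
    apply hne
    funext j
    refine Fin.lastCases ?_ (fun j => ?_) j
    · exact h0
    · have h3 := hlast j
      rw [h0, zero_mul] at h3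
      exact (mul_eq_zero.mp h3).resolve_right hL
  have hdvd : (X (Fin.last (m + 1)) : MvPolynomial (Fin (m + 2)) (MvPolynomial (Fin s) K)) ^ d ^ k
      ∣ GG (Fin.last (m + 1)) := by
    refine (X_prime (R := MvPolynomial (Fin s) K)).pow_dvd_of_dvd_mul_right _
      (GrC_not_dvd (d ^ k) _ (hdeg i) hi) ?_
    exact ⟨GG i.castSucc, by rw [← hlast i, mul_comm]⟩
  obtain ⟨Q, hQ⟩ := hdvd
  have hQ0 : Q ≠ 0 := by
    rintro rfl
    rw [mul_zero] at hQ
    exact hG hQ
  have h4 : (GG (Fin.last (m + 1))).totalDegree = D := (hhom _).totalDegree hG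
  rw [hQ, totalDegree_mul_of_isDomain hL hQ0, totalDegree_X_pow] at h4
  have h5 : d ^ k ≤ D := by omega
  exact_mod_cast h5

end Pool.Agent.Work.MP_91e6de_nt.DMR

end
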