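import Mathlib
import Pool.Agent.Work.MP_91e6de_nt.Bd.B13
import Pool.Agent.Work.MP_91e6de_nt.Bd.B11
import Pool.Agent.Work.MP_91e6de_nt.DMR.StmtsW
import Pool.Agent.Work.MP_91e6de_nt.Bd.B12
import Pool.Agent.Work.MP_91e6de_nt.DMR.BasicP

/-! Bundle of small proof modules (one section per former module). -/

section

set_option autoImplicit false

/-!
# Item DgC: the degrees of the iterates (helper55)
-/

namespace Pool.Agent.Work.MP_91e6de_nt.DMR

open MvPolynomial NumberField IsDedekindDomain Height Filter Topology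

/-- substitution of polynomials of degree at most one -/
theorem DgC_aeval {σ τ R K : Type} [Fintype σ] [Field K] [CommRing R] [Algebra K R]
    (v : σ → MvPolynomial τ R) (hv : ∀ i, (v i).totalDegree ≤ 1) (p : MvPolynomial σ K) :
    (aeval v p).totalDegree ≤ p.totalDegree := by
  rw [aeval_def, eval₂_eq']
  refine (totalDegree_finset_sum _ _).trans ?_
  apply Finset.sup_le
  intro u hu
  refine (totalDegree_mul _ _).trans ?_
  have h1 : (algebraMap K (MvPolynomial τ R) (coeff u p)).totalDegree = 0 := by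
    rw [MvPolynomial.algebraMap_apply, totalDegree_C]
  rw [h1, zero_add]
  refine (totalDegree_finset_prod _ _).trans ?_
  have h2 : ∑ i, u i ≤ p.totalDegree := by
    have := le_totalDegree hu
    rwa [Finsupp.sum_fintype _ _ (fun _ => rfl)] at this
  refine le_trans (Finset.sum_le_sum fun i _ => ?_) h2
  refine (totalDegree_pow _ _).trans ?_
  calc u i * (v i).totalDegree ≤ u i * 1 := Nat.mul_le_mul_left _ (hv i)
    _ = u i := mul_one _

/-- lower bound for the total degree in all variables -/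
theorem DgC_low {s m : ℕ} {K : Type} [Field K]
    (f : MvPolynomial (Fin (m + 1)) (MvPolynomial (Fin s) K)) :
    f.totalDegree ≤ (ev (fun j => (X (Sum.inl j) : MvPolynomial (Fin s ⊕ Fin (m + 1)) K))
      (fun j => X (Sum.inr j)) f).totalDegree := by
  set v : Fin s ⊕ Fin (m + 1) → MvPolynomial (Fin (m + 1)) (MvPolynomial (Fin s) K) :=
    Sum.elim (fun j => C (X j)) (fun j => X j) with hv
  have h1 : aeval v (ev (fun j => (X (Sum.inl j) : MvPolynomial (Fin s ⊕ Fin (m + 1)) K))
      (fun j => X (Sum.inr j)) f) = f := by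
    rw [map_ev]
    have h2 := ev_hom_ext (A := K) (RingHom.id (MvPolynomial (Fin (m + 1)) (MvPolynomial (Fin s) K)))
      (fun i => aeval v (X (Sum.inl i) : MvPolynomial (Fin s ⊕ Fin (m + 1)) K))
      (fun i => aeval v (X (Sum.inr i) : MvPolynomial (Fin s ⊕ Fin (m + 1)) K))
      (by
        intro r
        rw [RingHom.id_apply, MvPolynomial.algebraMap_apply]
        rfl)
      (by intro i; simp [hv]) (by intro i; simp [hv]) f
    rw [← h2, RingHom.id_apply]
  have h3 := DgC_aeval v (by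
    intro i
    rcases i with i | i
    · simp only [hv, Sum.elim_inl]
      rw [totalDegree_C]
      exact Nat.zero_le _
    · simp only [hv, Sum.elim_inr]
      rw [totalDegree_X]) (ev (fun j => (X (Sum.inl j) : MvPolynomial (Fin s ⊕ Fin (m + 1)) K))
      (fun j => X (Sum.inr j)) f)
  rwa [h1] at h3

/-- upper bound for the total degree in all variables -/
theorem DgC_up {s m : ℕ} {K : Type} [Field K]
    (f : MvPolynomial (Fin (m + 1)) (MvPolynomial (Fin s) K)) (a : ℕ) (ha : DgX_cb a f) :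
    (ev (fun j => (X (Sum.inl j) : MvPolynomial (Fin s ⊕ Fin (m + 1)) K))
      (fun j => X (Sum.inr j)) f).totalDegree ≤ a + f.totalDegree := by
  rw [ev_eq_sum]
  refine (totalDegree_finset_sum _ _).trans ?_
  apply Finset.sup_le
  intro u hu
  refine (totalDegree_mul _ _).trans (Nat.add_le_add ?_ ?_)
  · refine (DgC_aeval _ (fun i => ?_) _).trans (ha u)
    rw [totalDegree_X]
  · refine (totalDegree_finset_prod _ _).trans ?_
    have h2 : ∑ i, u i ≤ f.totalDegree := by
      have := le_totalDegree hu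
      rwa [Finsupp.sum_fintype _ _ (fun _ => rfl)] at this
    refine le_trans (Finset.sum_le_sum fun i _ => ?_) h2
    refine (totalDegree_pow _ _).trans ?_
    rw [totalDegree_X, mul_one]

theorem pr_DgC (h1 : S_TopIt) : S_DgC := by
  classical
  intro s m K _ d d' g F G r hFam hg
  have hd := hFam.hd
  set c0 : ℕ := Finset.univ.sup fun i => (F i).support.sup fun w =>
    ((F i).coeff w).totalDegree with hc0
  have hc : ∀ i, ∀ w ∈ (F i).support, ((F i).coeff w).totalDegree ≤ c0 := by
    intro i w hw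
    have h1 : ((F i).coeff w).totalDegree ≤ (F i).support.sup fun w =>
        ((F i).coeff w).totalDegree :=
      Finset.le_sup (f := fun w => ((F i).coeff w).totalDegree) hw
    exact h1.trans (Finset.le_sup (f := fun i => (F i).support.sup fun w =>
      ((F i).coeff w).totalDegree) (Finset.mem_univ i))
  have hx : ∀ k i, ((itB g F k).1 i).totalDegree ≤ 1 := by
    intro k
    induction k with
    | zero => intro i; simp [itB, totalDegree_X]
    | succ k ih =>
      intro i
      simp only [itB]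
      exact (DgX_aeval _ ih _).trans (hg i)
  have hmain : ∀ k, ∃ a : ℕ, c0 + a ≤ c0 * d ^ k ∧ ∀ i, DgX_cb a ((itB g F k).2 i) := by
    intro k
    induction k with
    | zero =>
      refine ⟨0, by simp, fun i => ?_⟩
      simp only [itB]
      exact DgX_X i
    | succ k ih =>
      obtain ⟨a, ha, hY⟩ := ih
      refine ⟨c0 + d * a, ?_, fun i => ?_⟩
      · have h1 : d * (c0 + a) ≤ d * (c0 * d ^ k) := Nat.mul_le_mul_left _ ha
        have h2 : c0 * d ^ (k + 1) = d * (c0 * d ^ k) := by ring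
        have h3 : 2 * c0 ≤ d * c0 := Nat.mul_le_mul_right _ hd
        rw [h2]
        nlinarith
      · simp only [itB]
        rw [ev_eq_sum]
        apply DgX_sum
        intro w hw
        have h1 : ∑ i, w i ≤ d := by
          have := le_totalDegree hw
          rw [Finsupp.sum_fintype _ _ (fun _ => rfl)] at this
          exact this.trans (hFam.degF i)
        have h2 : (aeval (fun j => (C ((itB g F k).1 j) :
            MvPolynomial (Fin (m + 1)) (MvPolynomial (Fin s) K)))
            ((F i).coeff w)) = C (aeval (itB g F k).1 ((F i).coeff w)) := by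
          have := MvPolynomial.comp_aeval_apply (itB g F k).1
            (IsScalarTower.toAlgHom K (MvPolynomial (Fin s) K)
              (MvPolynomial (Fin (m + 1)) (MvPolynomial (Fin s) K))) ((F i).coeff w)
          rw [← MvPolynomial.algebraMap_eq]
          exact this.symm
        rw [h2]
        apply DgX_mul
        · exact DgX_C ((DgX_aeval _ (hx k) _).trans (hc i w hw))
        · have h3 := DgX_prod (fun j => w j * a) Finset.univ
            (fun j => (itB g F k).2 j ^ w j) (fun j _ => DgX_pow (hY j) (w j))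
          rw [← Finset.sum_mul] at h3
          exact DgX_mono (Nat.mul_le_mul_right _ h1) h3
  refine ⟨c0 + 1, fun n => ⟨?_, ?_⟩⟩
  · obtain ⟨_, i, hi⟩ := h1 s m K d d' g F G r hFam n
    have h2 : d ^ n ≤ ((itB g F n).2 i).totalDegree := by
      by_contra hcon
      exact hi (homogeneousComponent_eq_zero _ _ (not_le.1 hcon))
    refine h2.trans ((DgC_low _).trans ?_)
    unfold dgC
    exact (Finset.le_sup (f := fun i => (ev (fun j => (X (Sum.inl j) :
      MvPolynomial (Fin s ⊕ Fin (m + 1)) K)) (fun j => X (Sum.inr j))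
      ((itB g F n).2 i)).totalDegree) (Finset.mem_univ i)).trans (le_max_right _ _)
  · obtain ⟨hdeg, _⟩ := h1 s m K d d' g F G r hFam n
    obtain ⟨a, ha, hY⟩ := hmain n
    have hdn : 1 ≤ d ^ n := Nat.one_le_pow _ _ (by omega)
    unfold dgC
    apply max_le
    · apply Finset.sup_le
      intro i _
      refine (hx n i).trans ?_
      calc 1 ≤ d ^ n := hdn
        _ ≤ (c0 + 1) * d ^ n := Nat.le_mul_of_pos_left _ (by omega)
    · apply Finset.sup_le
      intro i _
      refine (DgC_up _ a (hY i)).trans ?_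
      have h3 := hdeg i
      calc a + ((itB g F n).2 i).totalDegree ≤ c0 * d ^ n + d ^ n := by omega
        _ = (c0 + 1) * d ^ n := by ring

end Pool.Agent.Work.MP_91e6de_nt.DMR

end

section

set_option autoImplicit false

/-! # DMR, item HmH: homogenisation -/

namespace Pool.Agent.Work.MP_91e6de_nt.DMR

open MvPolynomial

section

variable {s m : ℕ} {K : Type} [Field K]

theorem HmH_superset (e : ℕ) (p : MvPolynomial (Fin (m + 1)) (MvPolynomial (Fin s) K))
    (T : Finset (Fin (m + 1) →₀ ℕ)) (hT : p.support ⊆ T) :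
    hmg e p = ∑ u ∈ T, C (p.coeff u) * (∏ j, X j.castSucc ^ u j) *
      X (Fin.last (m + 1)) ^ (e - ∑ j, u j) := by
  unfold hmg
  refine Finset.sum_subset hT ?_
  intro u _ hu
  rw [MvPolynomial.notMem_support_iff.mp hu, C_0, zero_mul, zero_mul]

theorem HmH_add (e : ℕ) (p p' : MvPolynomial (Fin (m + 1)) (MvPolynomial (Fin s) K)) :
    hmg e (p + p') = hmg e p + hmg e p' := by
  classical
  rw [HmH_superset e (p + p') (p.support ∪ p'.support) MvPolynomial.support_add,
    HmH_superset e p (p.support ∪ p'.support) Finset.subset_union_left,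
    HmH_superset e p' (p.support ∪ p'.support) Finset.subset_union_right,
    ← Finset.sum_add_distrib]
  refine Finset.sum_congr rfl fun u _ => ?_
  rw [coeff_add, C_add, add_mul, add_mul]

theorem HmH_sum {ι : Type} (e : ℕ) (T : Finset ι)
    (f : ι → MvPolynomial (Fin (m + 1)) (MvPolynomial (Fin s) K)) :
    hmg e (∑ i ∈ T, f i) = ∑ i ∈ T, hmg e (f i) := by
  classical
  induction T using Finset.induction_on with
  | empty => simp [hmg]
  | insert a T ha ih => rw [Finset.sum_insert ha, Finset.sum_insert ha, HmH_add, ih]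

theorem HmH_monomial (e : ℕ) (u : Fin (m + 1) →₀ ℕ) (c : MvPolynomial (Fin s) K) :
    hmg e (monomial u c) = C c * (∏ j, X j.castSucc ^ u j) *
      X (Fin.last (m + 1)) ^ (e - ∑ j, u j) := by
  classical
  rw [HmH_superset e (monomial u c) {u} support_monomial_subset, Finset.sum_singleton,
    coeff_monomial, if_pos rfl]

theorem HmH_le {e : ℕ} {p : MvPolynomial (Fin (m + 1)) (MvPolynomial (Fin s) K)}
    (hp : p.totalDegree ≤ e) {u : Fin (m + 1) →₀ ℕ} (hu : u ∈ p.support) : ∑ i, u i ≤ e := by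
  have h := MvPolynomial.le_totalDegree hu
  rw [Finsupp.sum_fintype _ _ (fun _ => rfl)] at h
  exact h.trans hp

theorem HmH_mul (e e' : ℕ) (p p' : MvPolynomial (Fin (m + 1)) (MvPolynomial (Fin s) K))
    (hp : p.totalDegree ≤ e) (hp' : p'.totalDegree ≤ e') :
    hmg (e + e') (p * p') = hmg e p * hmg e' p' := by
  classical
  have h1 : p * p' = ∑ x ∈ p.support ×ˢ p'.support,
      monomial (x.1 + x.2) (p.coeff x.1 * p'.coeff x.2) := by
    conv_lhs => rw [p.as_sum, p'.as_sum]
    rw [Finset.sum_mul_sum, Finset.sum_product]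
    refine Finset.sum_congr rfl fun u _ => Finset.sum_congr rfl fun u' _ => ?_
    rw [monomial_mul]
  rw [h1, HmH_sum]
  unfold hmg
  rw [Finset.sum_mul_sum, Finset.sum_product]
  refine Finset.sum_congr rfl fun u hu => Finset.sum_congr rfl fun u' hu' => ?_
  have h := HmH_le hp hu
  have h' := HmH_le hp' hu'
  have h3 := HmH_monomial (e + e') (u + u') (p.coeff u * p'.coeff u')
  unfold hmg at h3
  simp only at h3 ⊢
  rw [h3, C_mul]
  have h4 : ∑ i, (u + u') i = ∑ i, u i + ∑ i, u' i := by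
    rw [← Finset.sum_add_distrib]
    rfl
  have h5 : (∏ j, (X (Fin.castSucc j) : MvPolynomial (Fin (m + 2)) (MvPolynomial (Fin s) K)) ^
      (u + u') j) = (∏ j, X (Fin.castSucc j) ^ u j) * ∏ j, X (Fin.castSucc j) ^ u' j := by
    rw [← Finset.prod_mul_distrib]
    refine Finset.prod_congr rfl fun i _ => ?_
    rw [Finsupp.add_apply, pow_add]
  have h6 : e + e' - ∑ i, (u + u') i = (e - ∑ i, u i) + (e' - ∑ i, u' i) := by
    rw [h4]
    omega
  rw [h5, h6, pow_add]
  ring

theorem HmH_C (e : ℕ) (c : MvPolynomial (Fin s) K) :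
    hmg e (C c : MvPolynomial (Fin (m + 1)) (MvPolynomial (Fin s) K)) =
      C c * X (Fin.last (m + 1)) ^ e := by
  have h := HmH_monomial (m := m) e 0 c
  rw [show (C c : MvPolynomial (Fin (m + 1)) (MvPolynomial (Fin s) K)) = monomial 0 c from rfl, h]
  simp

theorem HmH_one (e : ℕ) :
    hmg e (1 : MvPolynomial (Fin (m + 1)) (MvPolynomial (Fin s) K)) =
      X (Fin.last (m + 1)) ^ e := by
  have h := HmH_C (m := m) (s := s) (K := K) e 1
  rwa [C_1, C_1, one_mul] at h

theorem HmH_X (i : Fin (m + 1)) :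
    hmg 1 (X i : MvPolynomial (Fin (m + 1)) (MvPolynomial (Fin s) K)) = X i.castSucc := by
  have h := HmH_monomial 1 (Finsupp.single i 1) (1 : MvPolynomial (Fin s) K)
  rw [show (X i : MvPolynomial (Fin (m + 1)) (MvPolynomial (Fin s) K)) =
    monomial (Finsupp.single i 1) 1 from rfl, h]
  have h1 : ∑ j, (Finsupp.single i 1 : Fin (m + 1) →₀ ℕ) j = 1 := by
    rw [Finset.sum_eq_single i]
    · simp
    · intro j _ hj
      simp [Finsupp.single_apply, hj.symm]
    · simp
  have h2 : ∏ j, (X (Fin.castSucc j) : MvPolynomial (Fin (m + 2)) (MvPolynomial (Fin s) K)) ^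
      (Finsupp.single i 1 : Fin (m + 1) →₀ ℕ) j = X i.castSucc := by
    rw [Finset.prod_eq_single i]
    · simp
    · intro j _ hj
      simp [Finsupp.single_apply, hj.symm]
    · simp
  rw [h1, h2]
  simp

theorem HmH_shift (e k : ℕ) (p : MvPolynomial (Fin (m + 1)) (MvPolynomial (Fin s) K))
    (hp : p.totalDegree ≤ e) :
    hmg (e + k) p = hmg e p * X (Fin.last (m + 1)) ^ k := by
  have h := HmH_mul e k p 1 hp (by rw [totalDegree_one]; exact Nat.zero_le _)
  rwa [mul_one, HmH_one] at h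

theorem HmH_degpow (n v : ℕ) (p : MvPolynomial (Fin (m + 1)) (MvPolynomial (Fin s) K))
    (hp : p.totalDegree ≤ n) : (p ^ v).totalDegree ≤ n * v := by
  refine (totalDegree_pow _ _).trans ?_
  rw [mul_comm]
  exact Nat.mul_le_mul_right _ hp

theorem HmH_pow (n v : ℕ) (p : MvPolynomial (Fin (m + 1)) (MvPolynomial (Fin s) K))
    (hp : p.totalDegree ≤ n) : hmg (n * v) (p ^ v) = hmg n p ^ v := by
  induction v with
  | zero => rw [mul_zero, pow_zero, pow_zero, HmH_one, pow_zero]
  | succ v ih =>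
    rw [pow_succ, pow_succ, Nat.mul_succ,
      HmH_mul (n * v) n (p ^ v) p (HmH_degpow n v p hp) hp, ih]

theorem HmH_degprod (n : ℕ) (f : Fin (m + 1) → MvPolynomial (Fin (m + 1)) (MvPolynomial (Fin s) K))
    (hf : ∀ i, (f i).totalDegree ≤ n) (v : Fin (m + 1) → ℕ) (T : Finset (Fin (m + 1))) :
    (∏ j ∈ T, f j ^ v j).totalDegree ≤ n * ∑ j ∈ T, v j := by
  refine (totalDegree_finsetProd _ _).trans ?_
  rw [Finset.mul_sum]
  exact Finset.sum_le_sum fun j _ => HmH_degpow n (v j) (f j) (hf j)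

theorem HmH_prod (n : ℕ) (f : Fin (m + 1) → MvPolynomial (Fin (m + 1)) (MvPolynomial (Fin s) K))
    (hf : ∀ i, (f i).totalDegree ≤ n) (v : Fin (m + 1) → ℕ) (T : Finset (Fin (m + 1))) :
    hmg (n * ∑ j ∈ T, v j) (∏ j ∈ T, f j ^ v j) = ∏ j ∈ T, hmg n (f j) ^ v j := by
  classical
  induction T using Finset.induction_on with
  | empty => rw [Finset.sum_empty, Finset.prod_empty, Finset.prod_empty, mul_zero, HmH_one,
      pow_zero]
  | insert a T ha ih =>
    rw [Finset.sum_insert ha, Finset.prod_insert ha, Finset.prod_insert ha, Nat.mul_add,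
      HmH_mul (n * v a) (n * ∑ j ∈ T, v j) _ _ (HmH_degpow n (v a) (f a) (hf a))
        (HmH_degprod n f hf v T), HmH_pow n (v a) (f a) (hf a), ih]

theorem HmH_aeval (ι : Type) (u : Fin s → MvPolynomial (Fin s) K) (c : MvPolynomial (Fin s) K) :
    aeval (fun j => (C (u j) : MvPolynomial ι (MvPolynomial (Fin s) K))) c = C (aeval u c) := by
  have h := MvPolynomial.aeval_algebraMap_apply (R := K) (B := MvPolynomial ι (MvPolynomial (Fin s) K)) u c
  exact h

/-- the key identity -/
theorem HmH_key (n d : ℕ) (u : Fin s → MvPolynomial (Fin s) K)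
    (f : Fin (m + 1) → MvPolynomial (Fin (m + 1)) (MvPolynomial (Fin s) K))
    (hf : ∀ i, (f i).totalDegree ≤ n)
    (P : MvPolynomial (Fin (m + 1)) (MvPolynomial (Fin s) K)) (hP : P.totalDegree ≤ d) :
    ev (A := K) (fun j => (C (u j) : MvPolynomial (Fin (m + 2)) (MvPolynomial (Fin s) K)))
      (Fin.snoc (fun i => hmg n (f i)) (X (Fin.last (m + 1)) ^ n) :
        Fin (m + 2) → MvPolynomial (Fin (m + 2)) (MvPolynomial (Fin s) K)) (hmg d P) =
      hmg (n * d) (ev (A := K) (fun j => C (u j)) f P) := by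
  rw [ev_eq_sum (fun j => C (u j)) f P, HmH_sum]
  conv_lhs => rw [hmg]
  rw [ev_sum]
  refine Finset.sum_congr rfl fun v hv => ?_
  have h1 := HmH_le hP hv
  rw [ev_mul, ev_mul, ev_pow, ev_prod, ev_C, ev_X, HmH_aeval, HmH_aeval]
  have h2 : (∏ j, ev (A := K)
      (fun j => (C (u j) : MvPolynomial (Fin (m + 2)) (MvPolynomial (Fin s) K)))
      (Fin.snoc (fun i => hmg n (f i)) (X (Fin.last (m + 1)) ^ n) :
        Fin (m + 2) → MvPolynomial (Fin (m + 2)) (MvPolynomial (Fin s) K))
      (X (Fin.castSucc j) ^ v j)) = ∏ j, hmg n (f j) ^ v j := by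
    refine Finset.prod_congr rfl fun j _ => ?_
    rw [ev_pow, ev_X]
    simp only [Fin.snoc_castSucc]
  rw [h2, ← HmH_prod n f hf v Finset.univ]
  have h3 : n * d = 0 + (n * ∑ j, v j + n * (d - ∑ j, v j)) := by
    rw [← Nat.mul_add, zero_add]
    congr 1
    omega
  have h4 := HmH_degprod n f hf v Finset.univ
  rw [h3, HmH_mul 0 _ (C _) _ (by rw [totalDegree_C]) (h4.trans (Nat.le_add_right _ _)),
    HmH_shift _ _ _ h4, HmH_C, pow_zero, mul_one]
  simp only [Fin.snoc_last]
  rw [← pow_mul, mul_assoc]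

theorem HmH_deg (n d : ℕ) (u : Fin s → MvPolynomial (Fin s) K)
    (f : Fin (m + 1) → MvPolynomial (Fin (m + 1)) (MvPolynomial (Fin s) K))
    (hf : ∀ i, (f i).totalDegree ≤ n)
    (P : MvPolynomial (Fin (m + 1)) (MvPolynomial (Fin s) K)) (hP : P.totalDegree ≤ d) :
    (ev (A := K) (fun j => C (u j)) f P).totalDegree ≤ n * d := by
  rw [ev_eq_sum]
  refine (totalDegree_finsetSum _ _).trans (Finset.sup_le fun v hv => ?_)
  refine (totalDegree_mul _ _).trans ?_
  rw [HmH_aeval, totalDegree_C, zero_add]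
  exact (HmH_degprod n f hf v Finset.univ).trans (Nat.mul_le_mul_left _ (HmH_le hP hv))

end

theorem pr_HmH : S_HmH := by
  intro s m K _ d
  refine ⟨?_, ?_, ?_⟩
  · intro G hG
    refine IsHomogeneous.sum _ _ _ fun u hu => ?_
    have h1 := isHomogeneous_C (Fin (m + 2)) (G.coeff u)
    have h2 : (∏ j : Fin (m + 1), (X j.castSucc :
        MvPolynomial (Fin (m + 2)) (MvPolynomial (Fin s) K)) ^ u j).IsHomogeneous
          (∑ j : Fin (m + 1), u j) := by
      refine IsHomogeneous.prod _ _ _ fun j _ => ?_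
      have h3 := (isHomogeneous_X (MvPolynomial (Fin s) K) j.castSucc).pow (u j)
      rwa [one_mul] at h3
    have h4 := (isHomogeneous_X (MvPolynomial (Fin s) K) (Fin.last (m + 1))).pow
      (d - ∑ j : Fin (m + 1), u j)
    have h5 := (h1.mul h2).mul h4
    have h6 : 0 + ∑ j : Fin (m + 1), u j + 1 * (d - ∑ j : Fin (m + 1), u j) = d := by
      have := HmH_le hG hu
      omega
    rwa [h6] at h5
  · intro S _ _ x y G
    rw [hmg, ev_sum, ev_eq_sum x y G]
    refine Finset.sum_congr rfl fun u _ => ?_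
    rw [ev_mul, ev_mul, ev_pow, ev_prod, ev_C, ev_X]
    simp only [Fin.snoc_last, one_pow, mul_one]
    congr 1
    refine Finset.prod_congr rfl fun j _ => ?_
    rw [ev_pow, ev_X]
    simp only [Fin.snoc_castSucc]
  · intro g F hF
    have hdeg : ∀ k i, ((itB g F k).2 i).totalDegree ≤ d ^ k := by
      intro k
      induction k with
      | zero =>
        intro i
        simp only [itB, pow_zero]
        rw [totalDegree_X]
      | succ k ih =>
        intro i
        rw [pow_succ]
        exact HmH_deg (d ^ k) d _ _ ih (F i) (hF i)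
    intro k
    induction k with
    | zero =>
      refine ⟨rfl, ?_⟩
      funext i
      refine Fin.lastCases ?_ (fun j => ?_) i
      · simp only [itB, Fin.snoc_last, pow_zero, pow_one]
      · simp only [itB, Fin.snoc_castSucc, pow_zero]
        rw [HmH_X]
    | succ k ih =>
      obtain ⟨ih1, ih2⟩ := ih
      refine ⟨?_, ?_⟩
      · simp only [itB, ih1]
      · funext i
        have hi : (itB g (Fh d F) (k + 1)).2 i =
            ev (A := K) (fun j => C ((itB g F k).1 j))
              (Fin.snoc (fun i => hmg (d ^ k) ((itB g F k).2 i))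
                (X (Fin.last (m + 1)) ^ d ^ k)) (Fh d F i) := by
          rw [← ih2, ← ih1]
          rfl
        rw [hi]
        refine Fin.lastCases ?_ (fun j => ?_) i
        · simp only [Fh, Fin.snoc_last]
          rw [ev_pow, ev_X]
          simp only [Fin.snoc_last]
          rw [← pow_mul, pow_succ]
        · simp only [Fh, Fin.snoc_castSucc]
          rw [HmH_key (d ^ k) d _ _ (hdeg k) (F j) (hF j), pow_succ]
          rfl

end Pool.Agent.Work.MP_91e6de_nt.DMR

end

section

set_option autoImplicit false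

/-!
# Item HtC: comparison of heights (helper55)
-/

namespace Pool.Agent.Work.MP_91e6de_nt.DMR

open MvPolynomial NumberField IsDedekindDomain Height Filter Topology

theorem pr_HtC : S_HtC := by
  intro s m K _ _ x y
  constructor
  · have hf : (Fin.snoc y 1 : Fin (m + 2) → K) =
        (fun o : Option (Fin s ⊕ Fin (m + 1)) => o.elim 1 (Sum.elim x y)) ∘
          (Fin.snoc (fun j => some (Sum.inr j)) none :
            Fin (m + 2) → Option (Fin s ⊕ Fin (m + 1))) := by
      funext i
      refine Fin.lastCases ?_ (fun j => ?_) i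
      · simp
      · simp
    rw [hf]
    exact logHeight_comp_le _ _
  · have hx : ∀ a : Fin s, (![x a, 1] : Fin 2 → K) ≠ 0 := fun a h => by
      have := congrFun h 1
      simp at this
    have hy : (Fin.snoc y 1 : Fin (m + 2) → K) ≠ 0 := fun h => by
      have := congrFun h (Fin.last (m + 1))
      simp at this
    have hp := logHeight_fun_prod_eq (K := K) (x := fun a : Fin s => (![x a, 1] : Fin 2 → K)) hx
    have hp0 : (fun I : Fin s → Fin 2 => ∏ a, (![x a, 1] : Fin 2 → K) (I a)) ≠ 0 := fun h => by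
      have := congrFun h (fun _ => 1)
      simp at this
    have hm := logHeight_fun_mul_eq (K := K) hy hp0
    have hf : (fun o : Option (Fin s ⊕ Fin (m + 1)) => o.elim 1 (Sum.elim x y)) =
        (fun p : Fin (m + 2) × (Fin s → Fin 2) => (Fin.snoc y 1 : Fin (m + 2) → K) p.1 *
          ∏ a, (![x a, 1] : Fin 2 → K) (p.2 a)) ∘
          (fun o : Option (Fin s ⊕ Fin (m + 1)) => o.elim (Fin.last (m + 1), fun _ => 1)
            (Sum.elim (fun i => (Fin.last (m + 1), Function.update (fun _ => 1) i 0))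
              (fun j => (j.castSucc, fun _ => 1)))) := by
      funext o
      rcases o with _ | (i | j)
      · simp
      · simp only [Function.comp_apply, Option.elim_some, Sum.elim_inl, Fin.snoc_last, one_mul]
        rw [Finset.prod_eq_single i]
        · simp
        · intro b _ hb
          simp [Function.update_of_ne hb]
        · simp
      · simp
    unfold htA
    rw [hf]
    refine (logHeight_comp_le _ _).trans ?_
    rw [hm, hp]
    have h3 : ∑ a, logHeight (![x a, 1] : Fin 2 → K) = ∑ a, logHeight₁ (x a) :=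
      Finset.sum_congr rfl fun a _ => (logHeight₁_eq_logHeight (x a)).symm
    rw [h3]

end Pool.Agent.Work.MP_91e6de_nt.DMR

end

section

set_option autoImplicit false

/-!
# The determinant method along orbits (MP_91e6de): item HtCv, heights of the points of relative
curves
-/

namespace Pool.Agent.Work.MP_91e6de_nt.DMR

open MvPolynomial NumberField IsDedekindDomain Height

/-- the exponent `(b, t - b)` -/
noncomputable def HtCvE (t b : ℕ) : Fin (1 + 1) →₀ ℕ := Finsupp.single 0 b + Finsupp.single 1 (t - b)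

theorem HtCvE_zero (t b : ℕ) : HtCvE t b 0 = b := by
  simp [HtCvE]

theorem HtCvE_one (t b : ℕ) : HtCvE t b 1 = t - b := by
  simp [HtCvE]

theorem HtCv_eq {t : ℕ} {u : Fin (1 + 1) →₀ ℕ} (hu : u 0 + u 1 = t) : u = HtCvE t (u 0) := by
  ext l
  refine Fin.cases ?_ (fun l => ?_) l
  · rw [HtCvE_zero]
  · have hl : l = 0 := Subsingleton.elim _ _
    subst hl
    have : (Fin.succ (0 : Fin 1)) = (1 : Fin (1 + 1)) := rfl
    rw [this, HtCvE_one]
    omega

theorem HtCv_supp {s : ℕ} {K : Type} [Field K] {t : ℕ}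
    {H : MvPolynomial (Fin (1 + 1)) (MvPolynomial (Fin s) K)} (hH : H.IsHomogeneous t)
    {u : Fin (1 + 1) →₀ ℕ} (hu : H.coeff u ≠ 0) : u 0 + u 1 = t := by
  have h2 := hH hu
  rw [Finsupp.weight_apply, Finsupp.sum_fintype _ _ (by simp)] at h2
  simpa [Fin.sum_univ_two] using h2

/-- a binary form at `(w, 1)` -/
theorem HtCv_ev {s : ℕ} {K : Type} [Field K] {t : ℕ}
    {H : MvPolynomial (Fin (1 + 1)) (MvPolynomial (Fin s) K)} (hH : H.IsHomogeneous t)
    (x : Fin s → K) (w : K) :
    ev x ![w, 1] H = ∑ b : Fin (t + 1), aeval x (H.coeff (HtCvE t b)) * w ^ (b : ℕ) := by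
  classical
  rw [ev_eq_sum]
  have hf : ∀ u : Fin (1 + 1) →₀ ℕ, ∏ i, (![w, 1] : Fin (1 + 1) → K) i ^ u i = w ^ u 0 := by
    intro u
    rw [Fin.prod_univ_two]
    simp
  have h1 : ∑ u ∈ H.support, aeval x (H.coeff u) * ∏ i, (![w, 1] : Fin (1 + 1) → K) i ^ u i =
      ∑ u ∈ H.support, aeval x (H.coeff u) * w ^ u 0 :=
    Finset.sum_congr rfl fun u _ => by rw [hf]
  rw [h1]
  have hinj : Function.Injective fun b : Fin (t + 1) => HtCvE t b := by
    intro b c h
    have := congrArg (fun u : Fin (1 + 1) →₀ ℕ => u 0) h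
    simp only [HtCvE_zero] at this
    exact Fin.ext this
  have h2 : ∑ b : Fin (t + 1), aeval x (H.coeff (HtCvE t b)) * w ^ (b : ℕ) =
      ∑ u ∈ Finset.univ.image (fun b : Fin (t + 1) => HtCvE t b),
        aeval x (H.coeff u) * w ^ u 0 := by
    rw [Finset.sum_image fun b _ c _ h => hinj h]
    exact Finset.sum_congr rfl fun b _ => by rw [HtCvE_zero]
  rw [h2]
  apply Finset.sum_subset
  · intro u hu
    have h3 := HtCv_supp hH (mem_support_iff.1 hu)
    rw [Finset.mem_image]
    exact ⟨⟨u 0, by omega⟩, Finset.mem_univ _, (HtCv_eq h3).symm⟩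
  · intro u _ hu
    rw [notMem_support_iff.1 hu]
    simp

theorem pr_HtCv (h1 : S_RootH) (h2 : S_HUm) : S_HtCv := by
  classical
  intro s m K _ _ 𝒢 hG
  choose t H hH0 hHh hHz using hG
  have hex : ∀ i j, ∃ u, (H i j).coeff u ≠ 0 := fun i j => by
    by_contra hc
    push Not at hc
    exact hH0 i j (MvPolynomial.ext _ _ fun u => by rw [hc u, coeff_zero])
  choose u hu using hex
  choose C1 hC10 hC1 using fun i j => h1 K (t i j)
  choose C2 hC20 hC2 using fun i j => h2 s 0 (Fin (t i j + 1)) K 0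
    (fun b => C ((H i j).coeff (HtCvE (t i j) b))) (fun b => isHomogeneous_C _ _)
  refine ⟨∏ i, ∏ j, (H i j).coeff (u i j), ∑ i, ∑ j, (C1 i j + C2 i j), ?_, ?_, ?_⟩
  · exact Finset.prod_ne_zero_iff.2 fun i _ => Finset.prod_ne_zero_iff.2 fun j _ => hu i j
  · exact Finset.sum_nonneg fun i _ => Finset.sum_nonneg fun j _ => add_nonneg (hC10 i j) (hC20 i j)
  intro x y hy hz ha
  obtain ⟨j0, hj0⟩ := Function.ne_iff.1 hy
  have hj0' : y j0 ≠ 0 := hj0
  have hne : ∀ i j, aeval x ((H i j).coeff (u i j)) ≠ 0 := by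
    intro i j
    rw [map_prod] at ha
    have h3 := (Finset.prod_ne_zero_iff.1 ha) i (Finset.mem_univ i)
    rw [map_prod] at h3
    exact (Finset.prod_ne_zero_iff.1 h3) j (Finset.mem_univ j)
  have hS : 0 ≤ ∑ i, logHeight₁ (x i) := Finset.sum_nonneg fun i _ => zero_le_logHeight₁ _
  have key : ∀ i, logHeight₁ ((y j0)⁻¹ * y i) ≤ (C1 i j0 + C2 i j0) * (1 + ∑ i, logHeight₁ (x i)) := by
    intro i
    have h4 : ev x ![(y j0)⁻¹ * y i, 1] (H i j0) = 0 := by
      have h5 : (![(y j0)⁻¹ * y i, 1] : Fin (1 + 1) → K) =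
          fun l => (y j0)⁻¹ * (![y i, y j0] : Fin (1 + 1) → K) l := by
        funext l
        refine Fin.cases ?_ (fun l => ?_) l
        · simp
        · have hl : l = 0 := Subsingleton.elim _ _
          subst hl
          simp [hj0']
      rw [h5, ev_smul _ _ _ _ _ (hHh i j0), hHz i j0 x y hy hz, mul_zero]
    rw [HtCv_ev (hHh i j0)] at h4
    have hq : (fun b : Fin (t i j0 + 1) => aeval x ((H i j0).coeff (HtCvE (t i j0) b))) ≠ 0 := by
      intro hc
      have h6 := HtCv_supp (hHh i j0) (hu i j0)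
      have h7 := congrFun hc ⟨u i j0 0, by omega⟩
      simp only [Pi.zero_apply] at h7
      rw [← HtCv_eq h6] at h7
      exact hne i j0 h7
    have h8 := hC1 i j0 _ _ hq h4
    have h9 := hC2 i j0 x (fun _ => 1)
    simp only [ev_C, Nat.cast_zero, zero_mul, zero_add] at h9
    calc logHeight₁ ((y j0)⁻¹ * y i) ≤ _ := h8
      _ ≤ C2 i j0 * (1 + ∑ i, logHeight₁ (x i)) + C1 i j0 := by
          have h10 := h9
          linarith
      _ ≤ (C1 i j0 + C2 i j0) * (1 + ∑ i, logHeight₁ (x i)) := by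
          have := mul_nonneg (hC10 i j0) hS
          nlinarith
  have h11 : logHeight y = logHeight ((y j0)⁻¹ • y) :=
    (logHeight_smul_eq_logHeight y (inv_ne_zero hj0')).symm
  rw [h11]
  refine (HUm_sum _).trans ?_
  calc ∑ i, logHeight₁ (((y j0)⁻¹ • y) i)
      ≤ ∑ i, (C1 i j0 + C2 i j0) * (1 + ∑ i, logHeight₁ (x i)) :=
        Finset.sum_le_sum fun i _ => key i
    _ = (∑ i, (C1 i j0 + C2 i j0)) * (1 + ∑ i, logHeight₁ (x i)) := by rw [Finset.sum_mul]
    _ ≤ (∑ i, ∑ j, (C1 i j + C2 i j)) * (1 + ∑ i, logHeight₁ (x i)) := by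
        apply mul_le_mul_of_nonneg_right _ (by linarith)
        apply Finset.sum_le_sum
        intro i _
        exact Finset.single_le_sum (f := fun j => C1 i j + C2 i j)
          (fun j _ => add_nonneg (hC10 i j) (hC20 i j)) (Finset.mem_univ j0)

end Pool.Agent.Work.MP_91e6de_nt.DMR

end

section

set_option autoImplicit false

/-!
# MP_91e6de, item ImW: the images of `W`
-/

namespace Pool.Agent.Work.MP_91e6de_nt.DMR

open MvPolynomial

/-- The base part of the iterates of the translation. -/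
theorem ImW_itB_one {m : ℕ} {K : Type} [Field K] (b : K)
    (F : Fin (m + 1) → MvPolynomial (Fin (m + 1)) (MvPolynomial (Fin 1) K)) (r : ℕ) :
    (itB (gT b) F r).1 = fun _ => X 0 + C ((r : K) * b) := by
  induction r with
  | zero =>
    funext i
    have : i = 0 := Subsingleton.elim _ _
    simp [itB, this]
  | succ r ih =>
    funext i
    simp only [itB, gT]
    rw [map_add, aeval_X, aeval_C, ih]
    simp only [algebraMap_eq]
    rw [add_assoc, ← C_add]
    congr 2
    push_cast
    ring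

theorem ImW_aeval_inv {K : Type} [Field K] (a : K) (p : MvPolynomial (Fin 1) K) :
    aeval (fun _ : Fin 1 => (X 0 + C a : MvPolynomial (Fin 1) K))
      (aeval (fun _ : Fin 1 => (X 0 - C a : MvPolynomial (Fin 1) K)) p) = p := by
  have h : ((aeval (fun _ : Fin 1 => (X 0 + C a : MvPolynomial (Fin 1) K))).comp
      (aeval (fun _ : Fin 1 => (X 0 - C a : MvPolynomial (Fin 1) K)))) =
      AlgHom.id K (MvPolynomial (Fin 1) K) := by
    apply MvPolynomial.algHom_ext
    intro i
    have : i = 0 := Subsingleton.elim _ _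
    subst this
    simp [algebraMap_eq]
  have := DFunLike.congr_fun h p
  simpa using this

theorem ImW_aeval_inv' {K : Type} [Field K] (a : K) (p : MvPolynomial (Fin 1) K) :
    aeval (fun _ : Fin 1 => (X 0 - C a : MvPolynomial (Fin 1) K))
      (aeval (fun _ : Fin 1 => (X 0 + C a : MvPolynomial (Fin 1) K)) p) = p := by
  have h := ImW_aeval_inv (-a) p
  simpa [sub_eq_add_neg] using h

theorem ImW_inj {K : Type} [Field K] (a : K) :
    Function.Injective (aeval (fun _ : Fin 1 => (X 0 + C a : MvPolynomial (Fin 1) K)) :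
      MvPolynomial (Fin 1) K →ₐ[K] MvPolynomial (Fin 1) K) := by
  intro p q h
  rw [← ImW_aeval_inv' a p, h, ImW_aeval_inv' a q]

theorem ImW_inj' {K : Type} [Field K] (a : K) :
    Function.Injective (aeval (fun _ : Fin 1 => (X 0 - C a : MvPolynomial (Fin 1) K)) :
      MvPolynomial (Fin 1) K →ₐ[K] MvPolynomial (Fin 1) K) := by
  intro p q h
  rw [← ImW_aeval_inv a p, h, ImW_aeval_inv a q]

theorem pr_ImW (h1 : S_AlgZ) (h2 : S_NlIt) (h3 : S_ItIt) : S_ImW := by
  classical
  intro m K _ d b F r c IW hd hF hNl hV hHor hRZ hInv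
  set gr := (itB (gT b) F r).1 with hgr
  set Yr := (itB (gT b) F r).2 with hYr
  have hgr' : gr = fun _ => X 0 + C ((r : K) * b) := ImW_itB_one b F r
  have hYh : ∀ i, (Yr i).IsHomogeneous (d ^ r) := itB_homog (gT b) F d hF r
  have hginj : Function.Injective (aeval (gT b) :
      MvPolynomial (Fin 1) K →ₐ[K] MvPolynomial (Fin 1) K) := ImW_inj b
  have hgrinj : Function.Injective (aeval gr :
      MvPolynomial (Fin 1) K →ₐ[K] MvPolynomial (Fin 1) K) := by
    rw [hgr']; exact ImW_inj _
  set φ : MvPolynomial (Fin (m + 1)) (MvPolynomial (Fin 1) K) →+*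
      MvPolynomial (Fin (m + 1)) (MvPolynomial (Fin 1) K) :=
    evHom (A := K) (fun i => C (gr i)) Yr with hφ
  have hφe : ∀ G, φ G = comp gr Yr G := fun G => rfl
  have hmem : ∀ G, G ∈ IW.comap φ ↔ comp gr Yr G ∈ IW := fun G => Iff.rfl
  have hdr : 1 ≤ d ^ r := Nat.one_le_pow _ _ hd
  refine ⟨IW.comap φ, ⟨?_, ?_, ?_⟩, ?_, ?_, ?_, ?_⟩
  · have := hV.prime
    exact Ideal.comap_isPrime φ IW
  · intro G hG j
    rw [hmem] at hG ⊢
    have hform : ∀ i, (comp gr Yr (homogeneousComponent i G)).IsHomogeneous (d ^ r * i) :=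
      fun i => ev_homog gr Yr (d ^ r) i hYh _ (homogeneousComponent_isHomogeneous i G)
    have hsum : comp gr Yr G =
        ∑ i ∈ Finset.range (G.totalDegree + 1), comp gr Yr (homogeneousComponent i G) := by
      conv_lhs => rw [← sum_homogeneousComponent G]
      rw [← hφe, map_sum]
      rfl
    have hcomp : homogeneousComponent (d ^ r * j) (comp gr Yr G) =
        comp gr Yr (homogeneousComponent j G) := by
      rw [hsum, map_sum]
      have hterm : ∀ i, homogeneousComponent (d ^ r * j)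
          (comp gr Yr (homogeneousComponent i G)) =
          if i = j then comp gr Yr (homogeneousComponent j G) else 0 := by
        intro i
        rw [homogeneousComponent_of_mem (hform i)]
        by_cases hij : i = j
        · rw [if_pos hij, if_pos (by rw [hij]), hij]
        · rw [if_neg hij, if_neg]
          intro h
          exact hij (Nat.eq_of_mul_eq_mul_left (by omega) h.symm)
      rw [Finset.sum_congr rfl (fun i _ => hterm i), Finset.sum_ite_eq']
      split_ifs with hj
      · rfl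
      · rw [Finset.mem_range, not_lt] at hj
        rw [homogeneousComponent_eq_zero j G (by omega)]
        rw [← hφe, map_zero]
    rw [← hcomp]
    exact hV.hom _ hG _
  · by_contra hne
    push Not at hne
    have hY : ∀ i, Yr i ∈ IW := by
      intro i
      have := (hmem (X i)).mp (hne i)
      unfold comp at this
      rwa [ev_X] at this
    obtain ⟨t, ρ, H, hρ, _, hid⟩ := h2 1 m K (gT b) F d hd hginj hF hNl r
    obtain ⟨i, hi⟩ := hV.ne
    have h4 : C ρ * X i ^ (t + d ^ r) ∈ IW := by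
      rw [hid i]
      exact IW.sum_mem fun j _ => IW.mul_mem_left _ (hY j)
    rcases hV.prime.mem_or_mem h4 with h5 | h5
    · exact hρ (hHor ρ h5)
    · exact hi (hV.prime.mem_of_pow_mem _ h5)
  · intro a ha
    rw [hmem] at ha
    unfold comp at ha
    rw [ev_C] at ha
    have h4 : aeval (fun i => (C (gr i) : MvPolynomial (Fin (m + 1)) (MvPolynomial (Fin 1) K)))
        a = C (aeval gr a) := by
      have := MvPolynomial.comp_aeval_apply gr
        (IsScalarTower.toAlgHom K (MvPolynomial (Fin 1) K)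
          (MvPolynomial (Fin (m + 1)) (MvPolynomial (Fin 1) K))) a
      rw [← MvPolynomial.algebraMap_eq]
      exact this.symm
    rw [h4] at ha
    have h5 := hHor _ ha
    apply hgrinj
    rw [h5, map_zero]
  · intro i j
    obtain ⟨t, H, hH0, hHh, hHm⟩ := h1 1 m K IW (d ^ r) (Yr i) (Yr j) hV hHor hRZ (hYh i) (hYh j)
    set ψ : MvPolynomial (Fin 1) K →+* MvPolynomial (Fin 1) K :=
      (aeval (fun _ : Fin 1 => (X 0 - C ((r : K) * b) : MvPolynomial (Fin 1) K)) :
        MvPolynomial (Fin 1) K →ₐ[K] MvPolynomial (Fin 1) K).toRingHom with hψ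
    have hψinj : Function.Injective ψ := ImW_inj' _
    refine ⟨t, map ψ H, ?_, hHh.map ψ, ?_⟩
    · intro h0
      apply hH0
      apply map_injective ψ hψinj
      rw [h0, map_zero]
    · rw [hmem]
      have h6 : comp gr Yr (bin (map ψ H) (X i) (X j)) = bin H (Yr i) (Yr j) := by
        unfold comp bin
        rw [ev_ev]
        have e1 : (fun l => aeval (fun i => (C (gr i) :
            MvPolynomial (Fin (m + 1)) (MvPolynomial (Fin 1) K)))
            (X l : MvPolynomial (Fin 1) K)) = fun l => C (gr l) := by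
          funext l; rw [aeval_X]
        have e2 : (fun k => ev (fun i => (C (gr i) :
            MvPolynomial (Fin (m + 1)) (MvPolynomial (Fin 1) K))) Yr
            ((![X i, X j] : Fin (1 + 1) →
              MvPolynomial (Fin (m + 1)) (MvPolynomial (Fin 1) K)) k)) = ![Yr i, Yr j] := by
          funext k
          fin_cases k
          · simp
          · simp
        rw [e1, e2]
        unfold ev
        rw [eval₂_map]
        congr 1
        apply MvPolynomial.ringHom_ext
        · intro a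
          simp [hψ]
        · intro l
          have hl : l = 0 := Subsingleton.elim _ _
          subst hl
          simp only [hψ, RingHom.comp_apply, AlgHom.toRingHom_eq_coe, RingHom.coe_coe, aeval_X,
            coe_eval₂Hom, eval₂_sub, eval₂_X, eval₂_C, hgr']
          rw [C_add]
          simp [MvPolynomial.algebraMap_apply]
      rw [h6]
      exact hHm
  · intro G hG
    rw [hmem] at hG ⊢
    have h4 := (h3 1 m K (gT b) F).2
    rw [hgr, hYr, h4 r c G, add_comm r c, ← h4 c r G]
    exact hInv _ hG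
  · intro x y hO n hon G hG
    rw [hmem] at hG
    have h5 := hon _ hG
    rw [ev_comp] at h5
    have h6 := orb_itB (gT b) F (fun k => x (n + k)) (fun k => y (n + k))
      (fun k i => hO.1 (n + k) i) (fun k i => hO.2.1 (n + k) i) r
    obtain ⟨a1, a2⟩ := h6
    have e1 : (fun i => aeval (x n) (gr i)) = x (n + r) := by
      funext i
      exact (a1 i).symm
    have e2 : (fun i => ev (x n) (y n) (Yr i)) = y (n + r) := by
      funext i
      exact (a2 i).symm
    rw [e1, e2] at h5
    exact h5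

end Pool.Agent.Work.MP_91e6de_nt.DMR

end

section

set_option autoImplicit false

/-!
# Iterates of iterates (MP_91e6de, DMR, block W)
-/

namespace Pool.Agent.Work.MP_91e6de_nt.DMR

open MvPolynomial

section

variable {s m : ℕ} {K : Type} [Field K]

theorem ItIt_C (u : Fin s → MvPolynomial (Fin s) K) (G : MvPolynomial (Fin s) K) :
    aeval (fun i => (C (u i) : MvPolynomial (Fin (m + 1)) (MvPolynomial (Fin s) K))) G =
      C (aeval u G) := by
  have := MvPolynomial.comp_aeval_apply u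
    (IsScalarTower.toAlgHom K (MvPolynomial (Fin s) K)
      (MvPolynomial (Fin (m + 1)) (MvPolynomial (Fin s) K))) G
  rw [← MvPolynomial.algebraMap_eq]
  exact this.symm

theorem ItIt_add (g : Fin s → MvPolynomial (Fin s) K)
    (F : Fin (m + 1) → MvPolynomial (Fin (m + 1)) (MvPolynomial (Fin s) K)) (k l : ℕ) :
    (∀ i, (itB g F (k + l)).1 i = aeval (itB g F k).1 ((itB g F l).1 i)) ∧
      ∀ i, (itB g F (k + l)).2 i = comp (itB g F k).1 (itB g F k).2 ((itB g F l).2 i) := by
  induction l with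
  | zero =>
    constructor
    · intro i
      simp [itB]
    · intro i
      simp [itB, comp]
  | succ l ih =>
    obtain ⟨h1, h2⟩ := ih
    have e1 : (itB g F (k + l)).1 = fun j => aeval (itB g F k).1 ((itB g F l).1 j) :=
      funext h1
    have e2 : (itB g F (k + l)).2 =
        fun j => comp (itB g F k).1 (itB g F k).2 ((itB g F l).2 j) := funext h2
    constructor
    · intro i
      change aeval (itB g F (k + l)).1 (g i) =
        aeval (itB g F k).1 (aeval (itB g F l).1 (g i))
      rw [MvPolynomial.comp_aeval_apply (itB g F l).1 (aeval (itB g F k).1) (g i), e1]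
    · intro i
      change ev (fun j => C ((itB g F (k + l)).1 j)) (itB g F (k + l)).2 (F i) =
        ev (fun j => C ((itB g F k).1 j)) (itB g F k).2
          (ev (fun j => C ((itB g F l).1 j)) (itB g F l).2 (F i))
      rw [ev_ev]
      simp only [ItIt_C]
      rw [e1, e2]
      rfl

end

theorem pr_ItIt : S_ItIt := by
  intro s m K _ g F
  constructor
  · intro c k
    induction k with
    | zero => rfl
    | succ k ih =>
      have h := ItIt_add g F (c * k) c
      have e : itB (itB g F c).1 (itB g F c).2 (k + 1) =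
          (fun i => aeval (itB (itB g F c).1 (itB g F c).2 k).1 ((itB g F c).1 i),
            fun i => ev (fun j => C ((itB (itB g F c).1 (itB g F c).2 k).1 j))
              (itB (itB g F c).1 (itB g F c).2 k).2 ((itB g F c).2 i)) := rfl
      rw [e, ih, Nat.mul_succ]
      apply Prod.ext
      · funext i
        exact (h.1 i).symm
      · funext i
        exact (h.2 i).symm
  · intro k l G
    obtain ⟨h1, h2⟩ := ItIt_add g F k l
    have e1 : (itB g F (k + l)).1 = fun j => aeval (itB g F k).1 ((itB g F l).1 j) :=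
      funext h1
    have e2 : (itB g F (k + l)).2 =
        fun j => comp (itB g F k).1 (itB g F k).2 ((itB g F l).2 j) := funext h2
    rw [e1, e2]
    change ev (fun j => C ((itB g F k).1 j)) (itB g F k).2
      (ev (fun j => C ((itB g F l).1 j)) (itB g F l).2 G) = _
    rw [ev_ev]
    simp only [ItIt_C]
    rfl

end Pool.Agent.Work.MP_91e6de_nt.DMR

end

section

set_option autoImplicit false

/-!
# Item LocG: local to global for heights
-/

namespace Pool.Agent.Work.MP_91e6de_nt.DMR

open MvPolynomial NumberField IsDedekindDomain Height Height.AdmissibleAbsValues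

theorem LocG_max {K : Type} [Field K] [NumberField K] (a : K) :
    (fun v : nonarchAbsVal (K := K) => max 1 (v.val a)).HasFiniteMulSupport := by
  rcases eq_or_ne a 0 with rfl | ha
  · have : (fun v : nonarchAbsVal (K := K) => max 1 (v.val (0 : K))) = fun _ => 1 := by
      funext v; simp
    rw [this]
    exact Function.hasFiniteMulSupport_one
  · refine Set.Finite.subset (hasFiniteMulSupport (K := K) ha) ?_
    intro v hv
    simp only [Function.mem_mulSupport] at hv ⊢
    intro h
    apply hv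
    rw [h, max_self]

theorem LocG_sup {K : Type} [Field K] [NumberField K] {ι : Type} [Fintype ι] (x : ι → K)
    (hx : x ≠ 0) :
    (fun v : nonarchAbsVal (K := K) => ⨆ i, v.val (x i)).HasFiniteMulSupport := by
  classical
  have hfin : (⋃ j ∈ (Finset.univ.filter fun j : ι => x j ≠ 0 : Finset ι),
      Function.mulSupport fun v : nonarchAbsVal (K := K) => v.val (x j)).Finite := by
    apply Set.Finite.biUnion (Finset.finite_toSet _)
    intro j hj
    rw [Finset.mem_coe, Finset.mem_filter] at hj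
    exact hasFiniteMulSupport (K := K) hj.2
  refine Set.Finite.subset hfin ?_
  intro v hv
  rw [Function.mem_mulSupport] at hv
  by_contra hcon
  apply hv
  have h1 : ∀ j, x j ≠ 0 → v.val (x j) = 1 := by
    intro j hj
    by_contra hne
    apply hcon
    rw [Set.mem_iUnion₂]
    exact ⟨j, Finset.mem_filter.mpr ⟨Finset.mem_univ j, hj⟩, hne⟩
  obtain ⟨j, hj⟩ := Function.ne_iff.mp hx
  have : Nonempty ι := ⟨j⟩
  apply le_antisymm
  · apply ciSup_le
    intro i
    by_cases h : x i = 0
    · rw [h, map_zero]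
      exact zero_le_one
    · exact (h1 i h).le
  · rw [← h1 j hj]
    exact Finite.le_ciSup_of_le j le_rfl

theorem LocG_pos {K : Type} [Field K] {ι : Type} [Fintype ι] (x : ι → K)
    (v : AbsoluteValue K ℝ) : 0 ≤ ⨆ i, v (x i) :=
  Real.iSup_nonneg fun _ => v.nonneg _

/-- the part at infinity -/
noncomputable def LocG_P {K : Type} [Field K] [NumberField K] {ι : Type} (x : ι → K) : ℝ :=
  ∏ v : InfinitePlace K, (⨆ i, v (x i)) ^ v.mult

/-- the finite part -/
noncomputable def LocG_Q {K : Type} [Field K] [NumberField K] {ι : Type} (x : ι → K) : ℝ :=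
  ∏ᶠ v : nonarchAbsVal (K := K), ⨆ i, v.val (x i)

theorem LocG_H {K : Type} [Field K] [NumberField K] {ι : Type} (x : ι → K) (hx : x ≠ 0) :
    mulHeight x = LocG_P x * LocG_Q x := by
  rw [NumberField.mulHeight_eq hx]
  rfl

theorem LocG_H1 {K : Type} [Field K] [NumberField K] (x : K) :
    mulHeight₁ x = (∏ v : InfinitePlace K, (max 1 (v x)) ^ v.mult) *
      ∏ᶠ v : nonarchAbsVal (K := K), max 1 (v.val x) := by
  rw [NumberField.mulHeight₁_eq]
  congr 1
  · exact Finset.prod_congr rfl fun v _ => by rw [max_comm]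
  · have : ∀ v : FinitePlace K, max (v x) 1 = max 1 (v x) := fun v => max_comm _ _
    simp only [this]
    rfl

theorem LocG_mul {K : Type} [Field K] [NumberField K] {ι₁ ι₂ ι₃ τ : Type} [Fintype ι₁]
    [Fintype ι₂] [Fintype ι₃] [Fintype τ] (A : ι₁ → K) (B : ι₂ → K) (D : ι₃ → K) (u : τ → K)
    (N α β γ E : ℕ) (hA : A ≠ 0) (hB : B ≠ 0) (hD : D ≠ 0)
    (h1 : ∀ v : InfinitePlace K, (⨆ i, v (A i)) ^ α ≤
      N * (∏ k, max 1 (v (u k))) ^ E * (⨆ i, v (B i)) ^ β * (⨆ i, v (D i)) ^ γ)
    (h2 : ∀ v : FinitePlace K, (⨆ i, v (A i)) ^ α ≤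
      (∏ k, max 1 (v (u k))) ^ E * (⨆ i, v (B i)) ^ β * (⨆ i, v (D i)) ^ γ) :
    mulHeight A ^ α ≤ (N : ℝ) ^ Module.finrank ℚ K * (∏ k, mulHeight₁ (u k)) ^ E *
      mulHeight B ^ β * mulHeight D ^ γ := by
  classical
  -- infinite places
  have hP : LocG_P A ^ α ≤ (N : ℝ) ^ Module.finrank ℚ K *
      (∏ k, ∏ v : InfinitePlace K, (max 1 (v (u k))) ^ v.mult) ^ E *
      LocG_P B ^ β * LocG_P D ^ γ := by
    unfold LocG_P
    rw [← Finset.prod_pow]
    have e1 : ∏ v : InfinitePlace K, ((⨆ i, v (A i)) ^ v.mult) ^ α ≤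
        ∏ v : InfinitePlace K, (N * (∏ k, max 1 (v (u k))) ^ E * (⨆ i, v (B i)) ^ β *
          (⨆ i, v (D i)) ^ γ) ^ v.mult := by
      apply Finset.prod_le_prod
      · intro v _
        have := LocG_pos A v.1
        exact pow_nonneg (pow_nonneg this _) _
      · intro v _
        rw [← pow_mul, mul_comm, pow_mul]
        exact pow_le_pow_left₀ (pow_nonneg (LocG_pos A v.1) _) (h1 v) _
    refine e1.trans (le_of_eq ?_)
    simp only [mul_pow, Finset.prod_mul_distrib]
    congr 1
    · congr 1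
      · congr 1
        · rw [Finset.prod_pow_eq_pow_sum, InfinitePlace.sum_mult_eq]
        · rw [Finset.prod_comm, ← Finset.prod_pow]
          refine Finset.prod_congr rfl fun v _ => ?_
          rw [← pow_mul, mul_comm, pow_mul, Finset.prod_pow]
      · rw [← Finset.prod_pow]
        refine Finset.prod_congr rfl fun v _ => ?_
        rw [← pow_mul, mul_comm, pow_mul]
    · rw [← Finset.prod_pow]
      refine Finset.prod_congr rfl fun v _ => ?_
      rw [← pow_mul, mul_comm, pow_mul]
  -- finite places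
  have hfu : ∀ k, (fun v : nonarchAbsVal (K := K) => max 1 (v.val (u k))).HasFiniteMulSupport :=
    fun k => LocG_max (u k)
  have hfA := LocG_sup A hA
  have hfB := LocG_sup B hB
  have hfD := LocG_sup D hD
  have hfm : (fun v : nonarchAbsVal (K := K) => ∏ k, max 1 (v.val (u k))).HasFiniteMulSupport := by
    have hsub : (Function.mulSupport fun v : nonarchAbsVal (K := K) => ∏ k, max 1 (v.val (u k))) ⊆
        ⋃ k, Function.mulSupport fun v : nonarchAbsVal (K := K) => max 1 (v.val (u k)) := by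
      intro v hv
      by_contra hcon
      rw [Set.mem_iUnion] at hcon
      push Not at hcon
      apply hv
      apply Finset.prod_eq_one
      intro k _
      have := hcon k
      rwa [Function.mem_mulSupport, not_not] at this
    exact Set.Finite.subset (Set.finite_iUnion hfu) hsub
  have hpw : ∀ (f : nonarchAbsVal (K := K) → ℝ) (n : ℕ), f.HasFiniteMulSupport →
      (fun v => f v ^ n).HasFiniteMulSupport := by
    intro f n hf
    refine Set.Finite.subset hf ?_
    intro v hv
    rw [Function.mem_mulSupport] at hv ⊢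
    intro h
    apply hv
    rw [h, one_pow]
  have hml : ∀ (f g : nonarchAbsVal (K := K) → ℝ), f.HasFiniteMulSupport →
      g.HasFiniteMulSupport → (fun v => f v * g v).HasFiniteMulSupport := by
    intro f g hf hg
    refine Set.Finite.subset (hf.union hg) ?_
    intro v hv
    rw [Set.mem_union]
    by_contra hcon
    push Not at hcon
    apply hv
    have a1 := hcon.1
    have a2 := hcon.2
    rw [Function.mem_mulSupport, not_not] at a1 a2
    show f v * g v = 1
    rw [a1, a2, one_mul]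
  have hQ : LocG_Q A ^ α ≤
      (∏ k, ∏ᶠ v : nonarchAbsVal (K := K), max 1 (v.val (u k))) ^ E *
      LocG_Q B ^ β * LocG_Q D ^ γ := by
    unfold LocG_Q
    rw [finprod_pow hfA, finprod_pow hfB, finprod_pow hfD,
      ← finprod_prod_comm Finset.univ _ (fun k _ => hfu k), finprod_pow hfm,
      ← finprod_mul_distrib (hpw _ _ hfm) (hpw _ _ hfB),
      ← finprod_mul_distrib (hml _ _ (hpw _ _ hfm) (hpw _ _ hfB)) (hpw _ _ hfD)]
    apply finprod_le_finprod (hpw _ _ hfA)
    · intro v
      exact pow_nonneg (LocG_pos A v.1) _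
    · exact hml _ _ (hml _ _ (hpw _ _ hfm) (hpw _ _ hfB)) (hpw _ _ hfD)
    · intro v
      exact h2 ⟨v.1, v.2⟩
  have hQ0 : ∀ {ι : Type} [Fintype ι] (x : ι → K), 0 ≤ LocG_Q x := by
    intro ι _ x
    exact finprod_nonneg fun v => LocG_pos x v.1
  have hP0 : ∀ {ι : Type} [Fintype ι] (x : ι → K), 0 ≤ LocG_P x := by
    intro ι _ x
    exact Finset.prod_nonneg fun v _ => pow_nonneg (LocG_pos x v.1) _
  have hm : (∏ k, mulHeight₁ (u k)) =
      (∏ k, ∏ v : InfinitePlace K, (max 1 (v (u k))) ^ v.mult) *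
        ∏ k, ∏ᶠ v : nonarchAbsVal (K := K), max 1 (v.val (u k)) := by
    rw [← Finset.prod_mul_distrib]
    exact Finset.prod_congr rfl fun k _ => LocG_H1 (u k)
  rw [LocG_H A hA, LocG_H B hB, LocG_H D hD, hm, mul_pow]
  have hkey := mul_le_mul hP hQ (pow_nonneg (hQ0 A) _) (by
    have a1 := hP0 B
    have a2 := hP0 D
    positivity)
  refine hkey.trans (le_of_eq ?_)
  simp only [mul_pow]
  ring

theorem pr_LocG : S_LocG := by
  intro K _ _ ι₁ ι₂ ι₃ τ _ _ _ _ A B D u N α β γ E hA hB hD hN h1 h2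
  have h := LocG_mul A B D u N α β γ E hA hB hD h1 h2
  have hN0 : (0 : ℝ) < N := by exact_mod_cast hN
  have hA0 := mulHeight_pos A
  have hB0 := mulHeight_pos B
  have hD0 := mulHeight_pos D
  have hu0 : 0 < ∏ k, mulHeight₁ (u k) := Finset.prod_pos fun k _ => mulHeight₁_pos _
  have h3 := Real.log_le_log (by positivity) h
  rw [Real.log_pow, Real.log_mul (by positivity) (by positivity),
    Real.log_mul (by positivity) (by positivity), Real.log_mul (by positivity) (by positivity),
    Real.log_pow, Real.log_pow, Real.log_pow, Real.log_pow,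
    Real.log_prod fun k _ => (mulHeight₁_pos (u k)).ne'] at h3
  exact h3

end Pool.Agent.Work.MP_91e6de_nt.DMR

end

section

set_option autoImplicit false

/-!
# Item MaxP: slow orbits lie on a periodic subvariety of relative dimension zero
-/

namespace Pool.Agent.Work.MP_91e6de_nt.DMR

open MvPolynomial NumberField IsDedekindDomain Height Filter Topology

theorem MaxP_log_eta (η : ℝ) (hη : 0 < η) (n n0 c : ℕ) :
    Real.log (((n0 + c * n : ℕ) : ℝ) + 2) ≤
      (Real.log ((n0 : ℝ) + c + 1) + (1 + 1 / η)) * ((n : ℝ) + 1) ^ η := by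
  have h0 : (0 : ℝ) ≤ n := Nat.cast_nonneg n
  have h0' : (0 : ℝ) ≤ n0 := Nat.cast_nonneg n0
  have h0c : (0 : ℝ) ≤ c := Nat.cast_nonneg c
  have h1 : Real.log (((n0 + c * n : ℕ) : ℝ) + 2) ≤
      Real.log (((n0 : ℝ) + c + 1) * (2 * ((n : ℝ) + 1))) := by
    apply Real.log_le_log
    · positivity
    · push_cast
      nlinarith [mul_nonneg h0' h0, mul_nonneg h0c h0]
  rw [Real.log_mul (by positivity) (by positivity), Real.log_mul (by norm_num) (by positivity)]
    at h1
  have h2 : Real.log ((n : ℝ) + 1) ≤ ((n : ℝ) + 1) ^ η / η :=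
    Real.log_le_rpow_div (by linarith) hη
  have h3 : (1 : ℝ) ≤ ((n : ℝ) + 1) ^ η := Real.one_le_rpow (by linarith) hη.le
  have h4 : Real.log 2 ≤ 1 := by
    have := Real.log_two_lt_d9
    linarith
  have h6 : 0 ≤ Real.log ((n0 : ℝ) + c + 1) := Real.log_nonneg (by linarith)
  have h5 : (Real.log ((n0 : ℝ) + c + 1) + (1 + 1 / η)) * ((n : ℝ) + 1) ^ η =
      Real.log ((n0 : ℝ) + c + 1) * ((n : ℝ) + 1) ^ η + (((n : ℝ) + 1) ^ η +
        ((n : ℝ) + 1) ^ η / η) := by
    ring
  have h7 : Real.log ((n0 : ℝ) + c + 1) * 1 ≤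
      Real.log ((n0 : ℝ) + c + 1) * ((n : ℝ) + 1) ^ η := mul_le_mul_of_nonneg_left h3 h6
  rw [h5]
  linarith

theorem MaxP_bot {m : ℕ} {K : Type} [Field K] :
    VarV (⊥ : Ideal (MvPolynomial (Fin (m + 1)) (MvPolynomial (Fin 1) K))) := by
  refine ⟨Ideal.isPrime_bot, ?_, ?_⟩
  · intro G hG j
    rw [Ideal.mem_bot] at hG
    rw [hG, map_zero]
    exact Ideal.zero_mem _
  · refine ⟨0, fun h => ?_⟩
    rw [Ideal.mem_bot] at h
    exact X_ne_zero _ h

theorem pr_MaxP (h1 : S_TUP) (h2 : S_GrVB) (h3 : S_NlIt) (h4 : S_SubO) (h5 : S_BasT)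
    (h6 : S_ItIt) : S_MaxP := by
  intro m K _ _ d b F x y hm hd hb hF hN horb hC
  obtain ⟨C, hC⟩ := hC
  obtain ⟨hxinj, hfin, ⟨C1, hC10, hC1⟩, -, hinj, -⟩ := h5 K b x hb horb.1
  set ST : Set (Ideal (MvPolynomial (Fin (m + 1)) (MvPolynomial (Fin 1) K))) :=
    {IW | VarV IW ∧ ∃ n0 c, 1 ≤ c ∧ InvV IW (gT b) F c ∧ OnV IW (x n0) (y n0)} with hST
  have hbot : (⊥ : Ideal (MvPolynomial (Fin (m + 1)) (MvPolynomial (Fin 1) K))) ∈ ST := by
    refine ⟨MaxP_bot, 0, 1, le_refl 1, ?_, ?_⟩
    · intro G hG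
      rw [Ideal.mem_bot] at hG
      rw [hG]
      unfold comp
      rw [ev_zero]
      exact Ideal.zero_mem _
    · intro G hG
      rw [Ideal.mem_bot] at hG
      rw [hG, ev_zero]
  have hnoeth : IsNoetherian (MvPolynomial (Fin (m + 1)) (MvPolynomial (Fin 1) K))
      (MvPolynomial (Fin (m + 1)) (MvPolynomial (Fin 1) K)) := inferInstance
  obtain ⟨IW, hIW, hmax⟩ := set_has_maximal_iff_noetherian.2 hnoeth ST ⟨⊥, hbot⟩
  obtain ⟨hVar, n0, c, hc, hInv, hOn⟩ := hIW
  obtain ⟨horb', hOn'⟩ := h4 1 m K IW (gT b) F n0 c x y horb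
  have hOn'' := hOn' hInv hOn
  have hinjk : Function.Injective fun k : ℕ => n0 + c * k := by
    intro k l hkl
    have h : c * k = c * l := by
      simp only at hkl
      omega
    exact Nat.eq_of_mul_eq_mul_left (by omega) h
  have hHor : Hor IW := by
    intro a ha
    by_contra hne
    refine Set.infinite_of_injective_forall_mem (s := {n : ℕ | aeval (x n) a = 0}) hinjk ?_
      (hfin a hne)
    intro k
    have := hOn'' k _ ha
    rw [ev_C] at this
    exact this
  refine ⟨n0, c, IW, hc, hVar, hHor, ?_, hInv, hOn⟩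
  by_contra hRZ
  set g' := (itB (gT b) F c).1 with hg'
  set F' := (itB (gT b) F c).2 with hF'
  have hd1 : 1 ≤ d := by omega
  have hd' : 2 ≤ d ^ c := by
    calc 2 ≤ d := hd
      _ = d ^ 1 := (pow_one d).symm
      _ ≤ d ^ c := Nat.pow_le_pow_right hd1 hc
  have hFh : ∀ i, (F' i).IsHomogeneous (d ^ c) := itB_homog (gT b) F d hF c
  have hg'inj : Function.Injective
      (aeval g' : MvPolynomial (Fin 1) K →ₐ[K] MvPolynomial (Fin 1) K) :=
    DgLow_inj (gT b) F hinj c
  have hNl : NlF F' (d ^ c) := h3 1 m K (gT b) F d hd1 hinj hF hN c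
  have hGr := h2 1 m K IW g' F' (d ^ c) (by omega) hVar hHor hg'inj hFh hNl hRZ
  have hMap : MapV IW g' F' (d ^ c) := by
    refine ⟨hFh, ?_, hInv⟩
    by_contra hcon
    push Not at hcon
    obtain ⟨t, ρ, H, hρ, -, hH⟩ := hNl
    obtain ⟨i, hi⟩ := hVar.ne
    have hmem : MvPolynomial.C ρ * X i ^ (t + d ^ c) ∈ IW := by
      rw [hH i]
      exact Ideal.sum_mem _ fun j _ => Ideal.mul_mem_left _ _ (hcon j)
    rcases hVar.prime.mem_or_mem hmem with h | h
    · exact hρ (hHor ρ h)
    · exact hi (hVar.prime.mem_of_pow_mem _ h)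
  obtain ⟨η, hη, hTU⟩ := h1 1 m K IW g' F' (d ^ c) 0 ((d ^ c : ℕ) : ℝ) hm hVar hMap
    (by
      have : 1 < d ^ c := by omega
      exact_mod_cast this) (fun k _ => hGr k)
  set A : ℝ := Real.log ((n0 : ℝ) + c + 1) + (1 + 1 / η) with hA
  have hpos : ∀ n : ℕ, 0 ≤ Real.log ((n : ℝ) + 2) := fun n =>
    Real.log_nonneg (by have : (0 : ℝ) ≤ n := Nat.cast_nonneg n; linarith)
  have hAn : ∀ n : ℕ, 0 ≤ A * ((n : ℝ) + 1) ^ η := fun n =>
    (hpos (n0 + c * n)).trans (MaxP_log_eta η hη n n0 c)
  obtain ⟨n0', c', IW', hc', hVar', hlt, hInv', hOnW⟩ := hTU (fun k => x (n0 + c * k))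
    (fun k => y (n0 + c * k)) ((C1 + |C|) * A) horb' hOn''
    (fun k l hkl => hinjk (hxinj hkl))
    (by
      intro n i
      have hi : i = 0 := Subsingleton.elim _ _
      rw [hi]
      have e1 := hC1 (n0 + c * n)
      have e2 := mul_le_mul_of_nonneg_left (MaxP_log_eta η hη n n0 c) hC10
      have e3 := mul_nonneg (abs_nonneg C) (hAn n)
      have e4 : (C1 + |C|) * A * ((n : ℝ) + 1) ^ η =
          C1 * (A * ((n : ℝ) + 1) ^ η) + |C| * (A * ((n : ℝ) + 1) ^ η) := by ring
      rw [e4]
      linarith)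
    (by
      intro n
      have e1 := hC (n0 + c * n)
      have e1' : C * Real.log (((n0 + c * n : ℕ) : ℝ) + 2) ≤
          |C| * Real.log (((n0 + c * n : ℕ) : ℝ) + 2) :=
        mul_le_mul_of_nonneg_right (le_abs_self C) (hpos _)
      have e2 := mul_le_mul_of_nonneg_left (MaxP_log_eta η hη n n0 c) (abs_nonneg C)
      have e3 := mul_nonneg hC10 (hAn n)
      have e4 : (C1 + |C|) * A * ((n : ℝ) + 1) ^ η =
          C1 * (A * ((n : ℝ) + 1) ^ η) + |C| * (A * ((n : ℝ) + 1) ^ η) := by ring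
      rw [e4]
      linarith)
  refine hmax IW' ⟨hVar', n0 + c * n0', c * c', Nat.one_le_iff_ne_zero.2
    (Nat.mul_ne_zero (by omega) (by omega)), ?_, hOnW⟩ hlt
  intro G hG
  have h := hInv' G hG
  rw [(h6 1 m K (gT b) F).1 c c'] at h
  exact h

end Pool.Agent.Work.MP_91e6de_nt.DMR

end

section

set_option autoImplicit false

namespace Pool.Agent.Work.MP_91e6de_nt.DMR

open MvPolynomial NumberField

/-- The homogeneous component of a product with a form. -/
theorem NlIt_hc {σ R : Type} [CommRing R] {e : ℕ} {Y : MvPolynomial σ R}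
    (hY : Y.IsHomogeneous e) (c : MvPolynomial σ R) (n : ℕ) :
    homogeneousComponent (n + e) (c * Y) = homogeneousComponent n c * Y := by
  classical
  conv_lhs => rw [← sum_homogeneousComponent c]
  rw [Finset.sum_mul, map_sum]
  have h1 : ∀ i ∈ Finset.range (c.totalDegree + 1),
      homogeneousComponent (n + e) (homogeneousComponent i c * Y) =
        if i = n then homogeneousComponent n c * Y else 0 := by
    intro i _
    have h2 : (homogeneousComponent i c * Y).IsHomogeneous (i + e) :=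
      (homogeneousComponent_isHomogeneous i c).mul hY
    rw [homogeneousComponent_of_mem ((mem_homogeneousSubmodule _ _).2 h2)]
    by_cases h : i = n
    · subst h; simp
    · rw [if_neg h, if_neg (by omega)]
  rw [Finset.sum_congr rfl h1, Finset.sum_ite_eq']
  split_ifs with h
  · rfl
  · rw [homogeneousComponent_eq_zero _ _ (by
      rw [Finset.mem_range, not_lt] at h; omega), zero_mul]

theorem pr_NlIt : S_NlIt := by
  classical
  intro s m K _ g F d hd hg hF hN k
  obtain ⟨t, ρ, H, hρ, _, hH⟩ := hN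
  have hcl := DgLow_claim t d ρ g F H hg hρ hH k
  have h1 : ∀ i : Fin (m + 1), ∃ (N : ℕ) (r : MvPolynomial (Fin s) K)
      (c : Fin (m + 1) → MvPolynomial (Fin (m + 1)) (MvPolynomial (Fin s) K)), r ≠ 0 ∧
      ∑ j, c j * (itB g F k).2 j = C r * X i ^ N := by
    intro i
    obtain ⟨N, hN⟩ := hcl i
    rw [DgLow_mem] at hN
    obtain ⟨r, hr, h2⟩ := hN
    rw [Ideal.mem_span_range_iff_exists_fun] at h2
    obtain ⟨c, hc⟩ := h2
    exact ⟨N, r, c, hr, hc⟩
  choose N r c hr hc using h1
  have hNle : ∀ i, N i ≤ ∑ j, N j := fun i =>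
    Finset.single_le_sum (f := N) (fun j _ => Nat.zero_le _) (Finset.mem_univ i)
  refine ⟨∑ j, N j, ∏ i, r i, fun i j => homogeneousComponent (∑ j, N j)
    (C (∏ l ∈ Finset.univ.erase i, r l) * X i ^ (∑ j, N j + d ^ k - N i) * c i j), ?_, ?_, ?_⟩
  · exact Finset.prod_ne_zero_iff.2 fun i _ => hr i
  · intro i j
    exact homogeneousComponent_isHomogeneous _ _
  · intro i
    have e1 : C (∏ l, r l) * X i ^ (∑ j, N j + d ^ k) =
        ∑ j, (C (∏ l ∈ Finset.univ.erase i, r l) * X i ^ (∑ j, N j + d ^ k - N i) * c i j) *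
          (itB g F k).2 j := by
      have e2 : ∑ j, (C (∏ l ∈ Finset.univ.erase i, r l) * X i ^ (∑ j, N j + d ^ k - N i) *
          c i j) * (itB g F k).2 j =
          (C (∏ l ∈ Finset.univ.erase i, r l) * X i ^ (∑ j, N j + d ^ k - N i)) *
            ∑ j, c i j * (itB g F k).2 j := by
        rw [Finset.mul_sum]
        refine Finset.sum_congr rfl fun j _ => by ring
      have e3 : ∏ l, r l = r i * ∏ l ∈ Finset.univ.erase i, r l :=
        (Finset.mul_prod_erase _ _ (Finset.mem_univ i)).symm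
      have e4 : ∑ j, N j + d ^ k = (∑ j, N j + d ^ k - N i) + N i := by
        have := hNle i; omega
      rw [e2, hc i, e3, C_mul]
      conv_lhs => rw [e4, pow_add]
      ring
    have e5 : (C (∏ l, r l) * X i ^ (∑ j, N j + d ^ k) :
        MvPolynomial (Fin (m + 1)) (MvPolynomial (Fin s) K)).IsHomogeneous
          (∑ j, N j + d ^ k) := by
      have := (isHomogeneous_C (Fin (m + 1)) (∏ l, r l)).mul
        (isHomogeneous_X_pow (R := MvPolynomial (Fin s) K) i (∑ j, N j + d ^ k))
      rwa [zero_add] at this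
    have e6 := congrArg (homogeneousComponent (∑ j, N j + d ^ k)) e1
    rw [homogeneousComponent_eq_self e5, map_sum] at e6
    rw [e6]
    refine Finset.sum_congr rfl fun j _ => ?_
    exact NlIt_hc (itB_homog g F d hF k j) _ _

end Pool.Agent.Work.MP_91e6de_nt.DMR

end

section

set_option autoImplicit false

/-!
# Item NulG: Nullstellensatz with denominators, forms of different degrees
-/

namespace Pool.Agent.Work.MP_91e6de_nt.DMR

open MvPolynomial

attribute [local instance] MvPolynomial.algebraMvPolynomial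

/-- Homogeneous component of a product with a form. -/
theorem NulG_comp_mul {σ A : Type} [CommRing A] (H F : MvPolynomial σ A) (d N : ℕ)
    (hF : F.IsHomogeneous d) (h : d ≤ N) :
    homogeneousComponent N (H * F) = homogeneousComponent (N - d) H * F := by
  let _ := MvPolynomial.gradedAlgebra (σ := σ) (R := A)
  have h1 := DirectSum.coe_decompose_mul_of_right_mem_of_le (homogeneousSubmodule σ A)
    (a := H) (b := F) (i := d) (n := N) ((mem_homogeneousSubmodule _ _).2 hF) h
  have h2 : ∀ (p : MvPolynomial σ A) (n : ℕ),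
      ((DirectSum.decompose (homogeneousSubmodule σ A) p n : homogeneousSubmodule σ A n) :
        MvPolynomial σ A) = homogeneousComponent n p := fun p n =>
    decomposition.decompose'_apply p n
  rw [h2, h2] at h1
  exact h1

theorem pr_NulG : S_NulG := by
  intro s m ι K _ _ deg F hF hNo
  classical
  let A := MvPolynomial (Fin s) K
  let k := FractionRing A
  let Ω := AlgebraicClosure k
  let f : ι → MvPolynomial (Fin (m + 1)) k := fun j => map (algebraMap A k) (F j)
  let I : Ideal (MvPolynomial (Fin (m + 1)) k) := Ideal.span (Set.range f)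
  -- the variables are in the radical
  have hrad : ∀ i : Fin (m + 1), (X i : MvPolynomial (Fin (m + 1)) k) ∈ I.radical := by
    intro i
    rw [← vanishingIdeal_zeroLocus_eq_radical (K := Ω) I, mem_vanishingIdeal_iff]
    intro x hx
    have hx0 : x = 0 := by
      apply hNo
      intro j
      have h1 : aeval x (f j) = 0 := hx (f j) (Ideal.subset_span ⟨j, rfl⟩)
      rw [← h1]
      simp only [f, aeval_map_algebraMap]
    rw [hx0]
    simp
  have hex : ∀ i : Fin (m + 1), ∃ n : ℕ, (X i : MvPolynomial (Fin (m + 1)) k) ^ n ∈ I :=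
    fun i => hrad i
  choose n hn using hex
  let N := (∑ j, deg j) + ∑ i, n i
  have hN : ∀ i : Fin (m + 1), (X i : MvPolynomial (Fin (m + 1)) k) ^ N ∈ I := by
    intro i
    have hle : n i ≤ N := le_trans (Finset.single_le_sum (f := n) (fun _ _ => Nat.zero_le _)
      (Finset.mem_univ i)) (Nat.le_add_left _ _)
    obtain ⟨e, he⟩ := Nat.exists_eq_add_of_le hle
    rw [he, pow_add]
    exact I.mul_mem_right _ (hn i)
  have hlin : ∀ i : Fin (m + 1), ∃ c : ι → MvPolynomial (Fin (m + 1)) k,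
      ∑ j, c j * f j = X i ^ N := fun i => Ideal.mem_span_range_iff_exists_fun.1 (hN i)
  choose c hc using hlin
  -- clear denominators
  obtain ⟨b, hb⟩ := IsLocalization.exist_integer_multiples_of_finite
    ((nonZeroDivisors A).map (C (σ := Fin (m + 1)) : A →+* MvPolynomial (Fin (m + 1)) A))
    (S := MvPolynomial (Fin (m + 1)) k)
    (fun p : Fin (m + 1) × ι => c p.1 p.2)
  obtain ⟨ρ, hρ, hρb⟩ := b.2
  have hb' : ∀ (i : Fin (m + 1)) (j : ι), ∃ H : MvPolynomial (Fin (m + 1)) A,
      map (algebraMap A k) H = map (algebraMap A k) (C ρ) * c i j := by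
    intro i j
    obtain ⟨H, hH⟩ := hb (i, j)
    refine ⟨H, ?_⟩
    have : (algebraMap (MvPolynomial (Fin (m + 1)) A) (MvPolynomial (Fin (m + 1)) k)) H =
      (b : MvPolynomial (Fin (m + 1)) A) • c i j := hH
    rw [Algebra.smul_def, ← hρb] at this
    exact this
  choose H hH using hb'
  have hinj : Function.Injective (map (σ := Fin (m + 1)) (algebraMap A k)) :=
    map_injective _ (IsFractionRing.injective A k)
  have hid : ∀ i : Fin (m + 1), C ρ * X i ^ N = ∑ j, H i j * F j := by
    intro i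
    apply hinj
    rw [map_mul, map_pow, map_X, ← hc i, map_sum, Finset.mul_sum]
    apply Finset.sum_congr rfl
    intro j _
    rw [map_mul, hH, mul_assoc]
  have hdN : ∀ j, deg j ≤ N := fun j => le_trans (Finset.single_le_sum (f := deg)
    (fun _ _ => Nat.zero_le _) (Finset.mem_univ j)) (Nat.le_add_right _ _)
  refine ⟨N, ρ, fun i j => homogeneousComponent (N - deg j) (H i j),
    nonZeroDivisors.ne_zero hρ, hdN, fun i j => homogeneousComponent_isHomogeneous _ _, ?_⟩
  intro i
  have h1 : homogeneousComponent N (C ρ * X i ^ N : MvPolynomial (Fin (m + 1)) A) =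
      C ρ * X i ^ N := by
    apply homogeneousComponent_eq_self
    have := (isHomogeneous_C (Fin (m + 1)) ρ).mul ((isHomogeneous_X A i).pow N)
    simpa using this
  rw [← h1, hid i, map_sum]
  apply Finset.sum_congr rfl
  intro j _
  exact NulG_comp_mul _ _ _ _ (hF j) (hdN j)

end Pool.Agent.Work.MP_91e6de_nt.DMR

end

section

set_option autoImplicit false

/-!
# SubO: sub-orbits
-/

namespace Pool.Agent.Work.MP_91e6de_nt.DMR

open MvPolynomial

/-- the iterates from the time `N` -/
theorem SubO_step {s m : ℕ} {K : Type} [Field K]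
    {g : Fin s → MvPolynomial (Fin s) K}
    {F : Fin (m + 1) → MvPolynomial (Fin (m + 1)) (MvPolynomial (Fin s) K)}
    {x : ℕ → Fin s → K} {y : ℕ → Fin (m + 1) → K} (h : OrbB g F x y) (N c : ℕ) :
    (∀ i, x (N + c) i = aeval (x N) ((itB g F c).1 i)) ∧
      ∀ i, y (N + c) i = ev (x N) (y N) ((itB g F c).2 i) := by
  obtain ⟨hx, hy, _⟩ := h
  exact orb_itB g F (fun n => x (N + n)) (fun n => y (N + n)) (fun n i => hx (N + n) i)
    (fun n i => hy (N + n) i) c

theorem pr_SubO : S_SubO := by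
  intro s m K _ IW g F n0 c x y h
  refine ⟨⟨?_, ?_, ?_⟩, ?_⟩
  · intro n i
    have h1 := (SubO_step h (n0 + c * n) c).1 i
    have e : n0 + c * (n + 1) = n0 + c * n + c := by ring
    show x (n0 + c * (n + 1)) i = _
    rw [e]
    exact h1
  · intro n i
    have h1 := (SubO_step h (n0 + c * n) c).2 i
    have e : n0 + c * (n + 1) = n0 + c * n + c := by ring
    show y (n0 + c * (n + 1)) i = _
    rw [e]
    exact h1
  · intro n
    exact h.2.2 _
  · intro hinv hon k
    induction k with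
    | zero => simpa using hon
    | succ k ih =>
      intro G hG
      have e : n0 + c * (k + 1) = n0 + c * k + c := by ring
      rw [e]
      have h1 := SubO_step h (n0 + c * k) c
      have h2 := ih _ (hinv G hG)
      rw [ev_comp] at h2
      have hx : x (n0 + c * k + c) = fun i => aeval (x (n0 + c * k)) ((itB g F c).1 i) :=
        funext h1.1
      have hy : y (n0 + c * k + c) =
          fun i => ev (x (n0 + c * k)) (y (n0 + c * k)) ((itB g F c).2 i) := funext h1.2
      rw [hx, hy]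
      exact h2

end Pool.Agent.Work.MP_91e6de_nt.DMR

end

section

set_option autoImplicit false

/-!
# MP_91e6de DMR: Theorem U, single representation
-/

namespace Pool.Agent.Work.MP_91e6de_nt.DMR

open MvPolynomial NumberField IsDedekindDomain Height Filter Topology

theorem TUP_cmb {s m : ℕ} {K : Type} [Field K]
    (F : Fin (m + 1) → MvPolynomial (Fin (m + 1)) (MvPolynomial (Fin s) K)) (b : Fin 0 → ℕ) :
    cmb (fun _ : Fin (0 + 1) => F) b = F := by
  funext i
  simp [cmb, ell]

theorem TUP_rep {s m : ℕ} {K : Type} [Field K]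
    (IV : Ideal (MvPolynomial (Fin (m + 1)) (MvPolynomial (Fin s) K)))
    (F : Fin (m + 1) → MvPolynomial (Fin (m + 1)) (MvPolynomial (Fin s) K)) (e : ℕ)
    (hF : ∀ i, (F i).IsHomogeneous e) : RepV IV F F e := by
  refine ⟨hF, fun i j => ?_⟩
  have : F i * F j - F j * F i = 0 := by ring
  rw [this]
  exact IV.zero_mem

theorem pr_TUP (h1 : S_WinV) (h2 : S_ParR) (h3 : S_WndG) (h4 : S_CycW) (h5 : S_HBV)
    (h6 : S_GrPt) (h7 : S_GrNd) : S_TUP := by
  intro s m K _ _ IV g F e k0 lam hm hV hM hlam hGr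
  obtain ⟨r, B, hB, hDH⟩ := h5 s m K IV hV
  rcases Nat.eq_zero_or_pos r with hr0 | hr
  · refine ⟨1, one_pos, ?_⟩
    intro x y C ho hon hinj hhx hhy
    exfalso
    obtain ⟨a, -, ha⟩ := h3 K m 0 y ho.2.2
    have ha0 := ha 0 le_rfl
    have hd := (hDH a (TUV_ell IV a (x 0) (y 0) (hon 0) ha0)).1
    have := h6 s m K IV g F e k0 r (lam ^ k0) (x 0) (y 0) a hV hM (hon 0) ha0
      (pow_pos (by linarith) _) (hGr k0 le_rfl) hd
    omega
  have hdim : ∀ a : Fin m → ℕ,
      (ell a fun i => (X i : MvPolynomial (Fin (m + 1)) (MvPolynomial (Fin s) K))) ∉ IV →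
        Dim (chI a IV) r := fun a ha => (hDH a ha).1
  obtain ⟨E, A, C1, C0, hE, hC0, hW⟩ := h1 s m 0 K IV g F (fun _ => F) e e r B hm hr hB hV hM
    (fun _ => TUP_rep IV F e hM.hom) hDH
  obtain ⟨T, cT, hT, hcT⟩ := TUV_gen IV
  have hfin : 1 ≤ Module.finrank ℚ K := Nat.one_le_iff_ne_zero.mpr Module.finrank_pos.ne'
  obtain ⟨η, hη, hP⟩ := h2 (Module.finrank ℚ K) (s + m) E k0 A C1 lam hfin (by omega) hE hlam
  refine ⟨η, hη, ?_⟩
  intro x y C ho hon hinj hhx hhy
  have hoV : OrbV IV g F x y := ⟨ho.1, hon, ho.2.2,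
    fun n => ⟨e, F, TUP_rep IV F e hM.hom, fun i => ho.2.1 n i⟩⟩
  have hcase' : ∀ n n', n < n' → ¬ (x n = x n' ∧ ∀ i j, y n i * y n' j = y n j * y n' i) := by
    intro n n' hn hh
    exact hn.ne (hinj hh.1)
  obtain ⟨N0, hN0⟩ := hP (C0 * (1 + 5 ^ η * (|C| + 1 / η)) + cT)
  set N := max N0 1 with hNdef
  have hN1 : 1 ≤ N := le_max_right _ _
  obtain ⟨h, k, X', hh1, hh2, hk0, hX2, hhX, hkX, hEX, hXA, hlamk⟩ := hN0 N (le_max_left _ _)
  have hNe : (1 : ℝ) ≤ (N : ℝ) ^ η :=
    Real.one_le_rpow (by exact_mod_cast hN1) hη.le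
  have hcN : (cT : ℝ) ≤ cT * (N : ℝ) ^ η := le_mul_of_one_le_right (by positivity) hNe
  have hbig : 0 ≤ C0 * (1 + 5 ^ η * (|C| + 1 / η)) * (N : ℝ) ^ η := by positivity
  have hh3 : C0 * (1 + 5 ^ η * (|C| + 1 / η)) * (N : ℝ) ^ η ≤ h := by
    refine le_trans ?_ hh1
    rw [add_mul]
    linarith
  have hh4 : cT ≤ h := by
    have : (cT : ℝ) ≤ h := by
      refine le_trans ?_ hh1
      rw [add_mul]
      linarith
    exact_mod_cast this
  obtain ⟨a, ha1, ha2⟩ := h3 K m (3 * N) y ho.2.2
  set H : ℝ := max (|C| * (3 * (N : ℝ) + 1) ^ η) (Real.log (3 * (N : ℝ) + 2)) with hH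
  have hCH : ∀ n ≤ 3 * N, C * ((n : ℝ) + 1) ^ η ≤ H := by
    intro n hn
    have hn' : (n : ℝ) ≤ 3 * N := by exact_mod_cast hn
    calc C * ((n : ℝ) + 1) ^ η ≤ |C| * ((n : ℝ) + 1) ^ η := by
          gcongr
          exact le_abs_self C
      _ ≤ |C| * (3 * (N : ℝ) + 1) ^ η := by gcongr
      _ ≤ H := le_max_left _ _
  have hlog : ∀ z : ℕ, z ≤ 3 * N + 1 → Real.log ((z : ℝ) + 1) ≤ H := by
    intro z hz
    refine le_trans ?_ (le_max_right _ _)
    apply Real.log_le_log (by positivity)
    have : (z : ℝ) ≤ 3 * N + 1 := by exact_mod_cast hz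
    linarith
  have hC1 : ((C1 * h ^ (s + m) + C1 : ℕ) : ℝ) < lam ^ k := by
    refine lt_of_le_of_lt ?_ hlamk
    have h12 : C1 * h ^ (s + m) + C1 ≤ C1 * (DZ (Module.finrank ℚ K) (s + m) h + 1) := by
      have h13 : h ^ (s + m) ≤ DZ (Module.finrank ℚ K) (s + m) h := by
        unfold DZ
        calc h ^ (s + m) ≤ (7 * Module.finrank ℚ K * (s + m + 1) * h) ^ (s + m) := by
              apply Nat.pow_le_pow_left
              apply Nat.le_mul_of_pos_left
              positivity
          _ ≤ _ := Nat.le_mul_of_pos_left _ (by positivity)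
      calc C1 * h ^ (s + m) + C1 ≤ C1 * DZ (Module.finrank ℚ K) (s + m) h + C1 := by gcongr
        _ = _ := by ring
    exact_mod_cast h12
  let b : Fin 0 → ℕ := fun i => i.elim0
  have hne : ∀ n ≤ 3 * N, ∃ i, ev (x n) (y n) (cmb (fun _ : Fin (0 + 1) => F) b i) ≠ 0 := by
    intro n _
    by_contra hcon
    push Not at hcon
    apply ho.2.2 (n + 1)
    funext i
    have h14 := hcon i
    rw [TUP_cmb] at h14
    rw [ho.2.1 n i, h14]
    rfl
  have hcyc := hW x y a b N h k X' H (lam ^ k) hoV hcase' ha2 hne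
    (fun n hn i => (hhx n i).trans (hCH n hn)) (fun n hn => (hhy n).trans (hCH n hn))
    (fun i => hlog _ (ha1 i)) (fun i => i.elim0)
    ((TU_num C C0 η hη hC0 N hN1).trans hh3) hh2 hX2 hhX hkX hEX hXA
    (fun k' _ => h7 s m K IV g F e k0 lam hV hM hlam hGr k') (hGr k hk0) hC1
  rw [TUP_cmb] at hcyc
  have hda := hdim a (TUV_ell IV a (x 0) (y 0) (hon 0) (ha2 0 (Nat.zero_le _)))
  exact h4 s m K IV g F e (3 * N) h r a x y hV hM (fun n _ => hon n) ha2 hda
    ⟨T, hT, fun G hG => (hcT a G hG).trans hh4⟩ hcyc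

end Pool.Agent.Work.MP_91e6de_nt.DMR

end

section

set_option autoImplicit false

/-!
# MP_91e6de DMR: Theorem U for arbitrary varieties, windows
-/

namespace Pool.Agent.Work.MP_91e6de_nt.DMR

open MvPolynomial NumberField IsDedekindDomain Height Filter Topology

/-- THEOREM U, arbitrary varieties, windows -/
def S_TUVw : Prop := ∀ (s m : ℕ) (K : Type) [Field K] [NumberField K]
  (IV : Ideal (MvPolynomial (Fin (m + 1)) (MvPolynomial (Fin s) K)))
  (g : Fin s → MvPolynomial (Fin s) K)
  (F : Fin (m + 1) → MvPolynomial (Fin (m + 1)) (MvPolynomial (Fin s) K)) (e k0 : ℕ)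
  (lam : ℝ), 1 ≤ m → VarV IV → MapV IV g F e → 1 < lam →
  (∀ k, k0 ≤ k → GrV IV g F k (lam ^ k)) →
    ∃ η : ℝ, 0 < η ∧ ∀ C : ℝ, ∃ N0 : ℕ, ∀ (x : ℕ → Fin s → K) (y : ℕ → Fin (m + 1) → K),
      OrbV IV g F x y → ∀ M N : ℕ, N0 ≤ N →
      (∀ n, M ≤ n → n ≤ M + 3 * N → ∀ i : Fin s, logHeight₁ (x n i) ≤ C * (N : ℝ) ^ η) →
      (∀ n, M ≤ n → n ≤ M + 3 * N → logHeight (y n) ≤ C * (N : ℝ) ^ η) →
        ∃ (t : ℕ) (G : MvPolynomial (Fin (m + 1)) (MvPolynomial (Fin s) K)), G ∉ IV ∧
          G.IsHomogeneous t ∧ ∀ n, ev (x n) (y n) G = 0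

/-- the shifted orbit -/
theorem TUVw_shift {s m : ℕ} {K : Type} [Field K]
    (IV : Ideal (MvPolynomial (Fin (m + 1)) (MvPolynomial (Fin s) K)))
    (g : Fin s → MvPolynomial (Fin s) K)
    (F : Fin (m + 1) → MvPolynomial (Fin (m + 1)) (MvPolynomial (Fin s) K))
    (x : ℕ → Fin s → K) (y : ℕ → Fin (m + 1) → K) (ho : OrbV IV g F x y) (M : ℕ) :
    OrbV IV g F (fun n => x (M + n)) (fun n => y (M + n)) :=
  ⟨fun n i => ho.base (M + n) i, fun n => ho.on (M + n), fun n => ho.ne (M + n),
    fun n => ho.step (M + n)⟩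

theorem pr_TUVw (h1 : S_WinV) (h2 : S_ParR) (h3 : S_WndG) (h4 : S_TailV) (h5 : S_FinV)
    (h6 : S_HBV) (h7 : S_RepFin) (h8 : S_WndR) (h9 : S_RepA) (h10 : S_GrPt) (h11 : S_GrNd) :
    S_TUVw := by
  intro s m K _ _ IV g F e k0 lam hm hV hM hlam hGr
  obtain ⟨r, B, hB, hDH⟩ := h6 s m K IV hV
  rcases Nat.eq_zero_or_pos r with hr0 | hr
  · refine ⟨1, one_pos, ?_⟩
    intro C
    refine ⟨0, ?_⟩
    intro x y ho M N _ hhx hhy
    exfalso
    obtain ⟨a, -, ha⟩ := h3 K m 0 y ho.ne
    have ha0 := ha 0 le_rfl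
    have hd := (hDH a (TUV_ell IV a (x 0) (y 0) (ho.on 0) ha0)).1
    have := h10 s m K IV g F e k0 r (lam ^ k0) (x 0) (y 0) a hV hM (ho.on 0) ha0
      (pow_pos (by linarith) _) (hGr k0 le_rfl) hd
    omega
  have hdim : ∀ a : Fin m → ℕ,
      (ell a fun i => (X i : MvPolynomial (Fin (m + 1)) (MvPolynomial (Fin s) K))) ∉ IV →
        Dim (chI a IV) r := fun a ha => (hDH a ha).1
  obtain ⟨l, e', Φ, hΦ, hΦ2⟩ := h7 s m K IV g F e hV hM
  obtain ⟨E, A, C1, C0, hE, hC0, hW⟩ := h1 s m l K IV g F Φ e e' r B hm hr hB hV hM hΦ hDH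
  obtain ⟨T, cT, hT, hcT⟩ := TUV_gen IV
  have hfin : 1 ≤ Module.finrank ℚ K := Nat.one_le_iff_ne_zero.mpr Module.finrank_pos.ne'
  obtain ⟨η, hη, hP⟩ := h2 (Module.finrank ℚ K) (s + m) E k0 A C1 lam hfin (by omega) hE hlam
  refine ⟨η, hη, ?_⟩
  intro C
  obtain ⟨N0, hN0⟩ := hP (C0 * (1 + 5 ^ η * (|C| + 1 / η)) + cT)
  refine ⟨max N0 1, ?_⟩
  intro x y ho M N hNN hhx hhy
  obtain ⟨hRA, hRB, -, -⟩ := h9 s m K IV g F e hV hM
  by_cases hcase : ∃ n n', n < n' ∧ (x n = x n' ∧ ∀ i j, y n i * y n' j = y n j * y n' i)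
  · obtain ⟨n, n', hn, hx, hy⟩ := hcase
    obtain ⟨c, hc, hyc⟩ := TU_prop (y n) (y n') (ho.ne n) (ho.ne n') hy
    obtain ⟨t, G, hG0, hGh, hGv⟩ := h5 s m K IV r (Finset.range n') x y hV hr hdim
      (fun n _ => ho.ne n) (fun n _ => ho.on n)
    refine ⟨t, G, hG0, hGh, ?_⟩
    intro N
    obtain ⟨l', hl', h12, d, hd, h13⟩ :=
      TUV_fin IV g F e hV hM h9 x y ho n n' hn hx c hc hyc N
    rw [h13, h12, ev_smul _ _ _ _ _ hGh, hGv l' (Finset.mem_range.mpr hl'), mul_zero]
  · push Not at hcase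
    have hcase' : ∀ n n', n < n' → ¬ (x n = x n' ∧ ∀ i j, y n i * y n' j = y n j * y n' i) := by
      intro n n' hn hh
      obtain ⟨i, j, hij⟩ := hcase n n' hn hh.1
      exact hij (hh.2 i j)
    have hN1 : 1 ≤ N := (le_max_right _ _).trans hNN
    obtain ⟨h, k, X', hh1, hh2, hk0, hX2, hhX, hkX, hEX, hXA, hlamk⟩ :=
      hN0 N ((le_max_left _ _).trans hNN)
    set x' : ℕ → Fin s → K := fun n => x (M + n) with hx'
    set y' : ℕ → Fin (m + 1) → K := fun n => y (M + n) with hy'
    have ho' : OrbV IV g F x' y' := TUVw_shift IV g F x y ho M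
    have hNe : (1 : ℝ) ≤ (N : ℝ) ^ η :=
      Real.one_le_rpow (by exact_mod_cast hN1) hη.le
    have hcN : (cT : ℝ) ≤ cT * (N : ℝ) ^ η := le_mul_of_one_le_right (by positivity) hNe
    have hbig : 0 ≤ C0 * (1 + 5 ^ η * (|C| + 1 / η)) * (N : ℝ) ^ η := by positivity
    have hh3 : C0 * (1 + 5 ^ η * (|C| + 1 / η)) * (N : ℝ) ^ η ≤ h := by
      refine le_trans ?_ hh1
      rw [add_mul]
      linarith
    have hh4 : cT ≤ h := by
      have : (cT : ℝ) ≤ h := by
        refine le_trans ?_ hh1
        rw [add_mul]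
        linarith
      exact_mod_cast this
    obtain ⟨a, ha1, ha2⟩ := h3 K m (3 * N) y' ho'.ne
    obtain ⟨b, hb1, hb2⟩ := h8 s m l (3 * N) K Φ x' y'
      (by
        intro n _
        obtain ⟨t, Ψ, hΨ, hΨy⟩ := ho'.step n
        apply hΦ2 (x' n) (y' n) t Ψ (ho'.on n) (ho'.ne n) hΨ
        by_contra hcon
        push Not at hcon
        apply ho'.ne (n + 1)
        funext i
        rw [hΨy i, hcon i]
        rfl)
      (by
        intro n _ j j' i i'
        have h12 := ho'.on n _ (hRA e' e' (Φ j) (Φ j') (hΦ j) (hΦ j') i i')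
        rw [ev_sub, ev_mul, ev_mul] at h12
        exact sub_eq_zero.mp h12)
    set H : ℝ := max (|C| * (3 * (N : ℝ) + 1) ^ η) (Real.log (3 * (N : ℝ) + 2)) with hH
    have hCH : C * (N : ℝ) ^ η ≤ H := by
      have hN' : (0 : ℝ) ≤ N := Nat.cast_nonneg N
      calc C * (N : ℝ) ^ η ≤ |C| * (N : ℝ) ^ η := by
            gcongr
            exact le_abs_self C
        _ ≤ |C| * (3 * (N : ℝ) + 1) ^ η := by
            gcongr
            linarith
        _ ≤ H := le_max_left _ _
    have hlog : ∀ z : ℕ, z ≤ 3 * N + 1 → Real.log ((z : ℝ) + 1) ≤ H := by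
      intro z hz
      refine le_trans ?_ (le_max_right _ _)
      apply Real.log_le_log (by positivity)
      have : (z : ℝ) ≤ 3 * N + 1 := by exact_mod_cast hz
      linarith
    have hC1 : ((C1 * h ^ (s + m) + C1 : ℕ) : ℝ) < lam ^ k := by
      refine lt_of_le_of_lt ?_ hlamk
      have h12 : C1 * h ^ (s + m) + C1 ≤ C1 * (DZ (Module.finrank ℚ K) (s + m) h + 1) := by
        have h13 : h ^ (s + m) ≤ DZ (Module.finrank ℚ K) (s + m) h := by
          unfold DZ
          calc h ^ (s + m) ≤ (7 * Module.finrank ℚ K * (s + m + 1) * h) ^ (s + m) := by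
                apply Nat.pow_le_pow_left
                apply Nat.le_mul_of_pos_left
                positivity
            _ ≤ _ := Nat.le_mul_of_pos_left _ (by positivity)
        calc C1 * h ^ (s + m) + C1 ≤ C1 * DZ (Module.finrank ℚ K) (s + m) h + C1 := by gcongr
          _ = _ := by ring
      exact_mod_cast h12
    have hcyc := hW x' y' a b N h k X' H (lam ^ k) ho'
      (fun n n' hnn => hcase' (M + n) (M + n') (by omega)) ha2 hb2
      (fun n hn i => (hhx (M + n) (by omega) (by omega) i).trans hCH)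
      (fun n hn => (hhy (M + n) (by omega) (by omega)).trans hCH)
      (fun i => hlog _ (ha1 i)) (fun i => hlog _ (hb1 i))
      ((TU_num C C0 η hη hC0 N hN1).trans hh3) hh2 hX2 hhX hkX hEX hXA
      (fun k' _ => h11 s m K IV g F e k0 lam hV hM hlam hGr k') (hGr k hk0) hC1
    have hda := hdim a (TUV_ell IV a (x' 0) (y' 0) (ho'.on 0) (ha2 0 (Nat.zero_le _)))
    obtain ⟨n0, t, G, hG0, hGh, hGv⟩ := h4 s m K IV g F (cmb Φ b) e e' (3 * N) h r a x' y' hV hM
      (hRB l e' Φ b hΦ) ho' ha2 hda ⟨T, hT, fun G hG => (hcT a G hG).trans hh4⟩ hcyc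
    obtain ⟨t', G', hG0', hGh', hGv'⟩ := h5 s m K IV r (Finset.range (M + n0)) x y hV hr hdim
      (fun n _ => ho.ne n) (fun n _ => ho.on n)
    refine ⟨t + t', G * G', ?_, hGh.mul hGh', ?_⟩
    · intro hmem
      rcases hV.prime.mem_or_mem hmem with hmem | hmem
      · exact hG0 hmem
      · exact hG0' hmem
    intro n
    rw [ev_mul]
    by_cases hn : M + n0 ≤ n
    · have h12 := hGv (n - M) (by omega)
      simp only [hx', hy'] at h12
      rw [show M + (n - M) = n by omega] at h12
      rw [h12, zero_mul]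
    · rw [hGv' n (Finset.mem_range.mpr (by omega)), mul_zero]

end Pool.Agent.Work.MP_91e6de_nt.DMR

end

section

set_option autoImplicit false

/-!
# Item ThBS: THEOREM B*
-/

namespace Pool.Agent.Work.MP_91e6de_nt.DMR

open MvPolynomial NumberField IsDedekindDomain Height Filter Topology

theorem ThBS_log (n : ℕ) : 0 ≤ Real.log ((n : ℝ) + 2) := by
  apply Real.log_nonneg
  have : (0 : ℝ) ≤ n := Nat.cast_nonneg n
  linarith

theorem ThBS_log_le (d n : ℕ) (hd : 2 ≤ d) : Real.log ((n : ℝ) + 2) ≤ (d : ℝ) ^ n := by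
  have h0 : (0 : ℝ) ≤ n := Nat.cast_nonneg n
  have h1 : Real.log ((n : ℝ) + 2) ≤ (n : ℝ) + 2 - 1 :=
    Real.log_le_sub_one_of_pos (by linarith)
  have h2 : n + 1 ≤ 2 ^ n := Nat.lt_two_pow_self
  have h3 : (n : ℝ) + 1 ≤ 2 ^ n := by exact_mod_cast h2
  have h4 : (2 : ℝ) ^ n ≤ (d : ℝ) ^ n := by
    apply pow_le_pow_left₀ (by norm_num)
    exact_mod_cast hd
  linarith

theorem ThBS_nonneg {K ι : Type} [Field K] [NumberField K] [Finite ι] (x : ι → K) :
    0 ≤ logHeight x := Real.log_nonneg (one_le_mulHeight x)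

/-- slow sequences -/
theorem ThBS_one (a : ℕ → ℝ) (C C2 κ : ℝ) (hκ : 0 < κ)
    (h1 : ∀ n : ℕ, Real.log ((n : ℝ) + 1) ≤ κ * a n + C2)
    (h2 : ∀ n : ℕ, a n ≤ C * Real.log ((n : ℝ) + 2)) :
    Tendsto (fun n : ℕ => a n ^ ((1 : ℝ) / n)) atTop (𝓝 1) := by
  have hlow : ∀ᶠ n : ℕ in atTop, 1 ≤ a n := by
    have h3 : Tendsto (fun n : ℕ => Real.log ((n : ℝ) + 1)) atTop atTop :=
      Real.tendsto_log_atTop.comp
        (tendsto_atTop_add_const_right _ _ tendsto_natCast_atTop_atTop)
    filter_upwards [h3.eventually_ge_atTop (κ + C2)] with n hn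
    have h4 := h1 n
    have h5 : κ * 1 ≤ κ * a n := by linarith
    exact le_of_mul_le_mul_left h5 hκ
  have hup : ∀ᶠ n : ℕ in atTop, a n ≤ (n : ℝ) ^ 2 := by
    have h3 : Tendsto (fun n : ℕ => (n : ℝ)) atTop atTop := tendsto_natCast_atTop_atTop
    filter_upwards [h3.eventually_ge_atTop (2 * |C|), h3.eventually_ge_atTop 1] with n hn hn1
    have h4 : Real.log ((n : ℝ) + 2) ≤ (n : ℝ) + 2 - 1 :=
      Real.log_le_sub_one_of_pos (by linarith)
    calc a n ≤ C * Real.log ((n : ℝ) + 2) := h2 n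
      _ ≤ |C| * Real.log ((n : ℝ) + 2) :=
          mul_le_mul_of_nonneg_right (le_abs_self C) (ThBS_log n)
      _ ≤ |C| * (2 * n) := mul_le_mul_of_nonneg_left (by linarith) (abs_nonneg C)
      _ = 2 * |C| * n := by ring
      _ ≤ n * n := mul_le_mul_of_nonneg_right hn (by linarith)
      _ = (n : ℝ) ^ 2 := by ring
  have hlim : Tendsto (fun n : ℕ => (((n : ℝ)) ^ ((1 : ℝ) / n)) ^ 2) atTop (𝓝 1) := by
    have h3 : Tendsto (fun n : ℕ => ((n : ℝ)) ^ ((1 : ℝ) / n)) atTop (𝓝 1) :=
      tendsto_rpow_div.comp tendsto_natCast_atTop_atTop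
    simpa using h3.pow 2
  refine tendsto_of_tendsto_of_tendsto_of_le_of_le' tendsto_const_nhds hlim ?_ ?_
  · filter_upwards [hlow] with n hn
    exact Real.one_le_rpow hn (by positivity)
  · filter_upwards [hlow, hup] with n hn hn2
    have h3 : a n ^ ((1 : ℝ) / n) ≤ ((n : ℝ) ^ 2) ^ ((1 : ℝ) / n) :=
      Real.rpow_le_rpow (by linarith) hn2 (by positivity)
    refine h3.trans (le_of_eq ?_)
    have h0 : (0 : ℝ) ≤ n := Nat.cast_nonneg n
    rw [← Real.rpow_natCast, ← Real.rpow_mul h0, ← Real.rpow_natCast, ← Real.rpow_mul h0,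
      mul_comm]

theorem pr_ThBS (h1 : S_MaxP) (h2 : S_DicW) (h3 : S_GlueZ) (h4 : S_BasT) (h5 : S_DgGB)
    (h6 : S_Nul) (h7 : Pool.Agent.Work.MP_91e6de_nt.DM.S_Lim) : S_ThBS := by
  intro m K _ _ d b F x y hm hd hb hF hNZ horb
  have hd0 : (0 : ℝ) < d := by
    have : 0 < d := by omega
    exact_mod_cast this
  have hNl : NlF F d := h6 1 m K F d (by omega) hF hNZ
  obtain ⟨_, _, ⟨C1, hC1, hx1⟩, ⟨C2, hx2⟩, hinj, hcons⟩ := h4 K b x hb horb.1
  have hκ : (0 : ℝ) < Module.finrank ℚ K := by
    exact_mod_cast Module.finrank_pos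
  have hdeg : ∀ i, (gT b i).totalDegree ≤ 1 := by
    intro i
    unfold gT
    refine (totalDegree_add _ _).trans ?_
    rw [totalDegree_X, totalDegree_C]
    exact le_of_eq (by norm_num)
  refine ⟨?_, ?_⟩
  · obtain ⟨D, hD⟩ := h5 1 m K d (gT b) F hm hd hinj hdeg hF hNZ
    refine h7 d 1 D _ hd0 one_pos (Eventually.of_forall fun n => ?_)
      (Eventually.of_forall fun n => ?_)
    · have := (hD n).1
      rw [one_mul]
      exact_mod_cast this
    · have := (hD n).2
      exact_mod_cast this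
  · obtain ⟨⟨C', hC', hub⟩, hdic⟩ := h2 m K d b F x y hd hb hF hNl horb
    rcases hdic with ⟨c, hc, hcn⟩ | ⟨C3, hC3⟩
    · left
      refine h7 d (c / Module.finrank ℚ K) ((C1 + C') / Module.finrank ℚ K) _ hd0
        (div_pos hc hκ) ?_ (Eventually.of_forall fun n => ?_)
      · filter_upwards [hcn] with n hn
        rw [div_mul_eq_mul_div]
        apply div_le_div_of_nonneg_right _ hκ.le
        have := ThBS_nonneg (Fin.cons 1 (x n) : Fin (1 + 1) → K)
        linarith
      · rw [div_mul_eq_mul_div]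
        apply div_le_div_of_nonneg_right _ hκ.le
        have e5 := mul_le_mul_of_nonneg_left (ThBS_log_le d n hd) hC1
        have e6 := hub n
        rw [add_mul, hcons n]
        exact add_le_add ((hx1 n).trans e5) e6
    · right
      have hsum : ∀ n : ℕ, logHeight (Fin.cons 1 (x n) : Fin (1 + 1) → K) +
          logHeight (y n) ≤ (C1 + C3) * Real.log (n + 2) := by
        intro n
        rw [add_mul, hcons n]
        exact add_le_add (hx1 n) (hC3 n)
      refine ⟨?_, ⟨C1 + C3, hsum⟩, ?_⟩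
      · apply ThBS_one _ ((C1 + C3) / Module.finrank ℚ K) C2 (Module.finrank ℚ K) hκ
        · intro n
          rw [mul_div_cancel₀ _ hκ.ne', hcons n]
          have e1 := hx2 n
          have e2 := ThBS_nonneg (y n)
          linarith
        · intro n
          rw [div_mul_eq_mul_div]
          exact div_le_div_of_nonneg_right (hsum n) hκ.le
      · obtain ⟨n0, c, IW, hc, hV, hH, hR, hI, hO⟩ :=
          h1 m K d b F x y hm hd hb hF hNl horb ⟨C3, hC3⟩
        exact h3 m K d b F n0 c IW x y (by omega) hc hF hNl horb hV hH hR hI hO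

end Pool.Agent.Work.MP_91e6de_nt.DMR

end

section

set_option autoImplicit false

/-!
# MP_91e6de, item ThC: Theorem C
-/

namespace Pool.Agent.Work.MP_91e6de_nt.DMR

open MvPolynomial NumberField Height Filter Topology

theorem ThC_log (n : ℕ) : (1 : ℝ) ≤ 2 * Real.log (n + 2) := by
  have h1 : Real.log 2 ≤ Real.log (n + 2) :=
    Real.log_le_log (by norm_num) (by have : (0 : ℝ) ≤ n := Nat.cast_nonneg n; linarith)
  have h2 := Real.log_two_gt_d9
  linarith

theorem ThC_logpow (d n : ℕ) (hd : 2 ≤ d) : Real.log (n + 2) ≤ (d : ℝ) ^ n := by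
  have h0 : (0 : ℝ) ≤ n := Nat.cast_nonneg n
  have h1 : Real.log (n + 2) ≤ (n + 2 : ℝ) - 1 := Real.log_le_sub_one_of_pos (by linarith)
  have h2 : n + 1 ≤ 2 ^ n := Nat.lt_two_pow_self
  have h3 : (n : ℝ) + 1 ≤ 2 ^ n := by exact_mod_cast h2
  have h4 : (2 : ℝ) ^ n ≤ (d : ℝ) ^ n :=
    pow_le_pow_left₀ (by norm_num) (by exact_mod_cast hd) n
  linarith

theorem ThC_logeta (η : ℝ) (hη : 0 < η) (n : ℕ) :
    Real.log (n + 2) ≤ (2 : ℝ) ^ η / η * ((n : ℝ) + 1) ^ η := by
  have h0 : (0 : ℝ) ≤ n := Nat.cast_nonneg n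
  have h1 : Real.log (n + 2) ≤ ((n : ℝ) + 2) ^ η / η :=
    Real.log_le_rpow_div (by linarith) hη
  have h2 : ((n : ℝ) + 2) ^ η ≤ (2 * ((n : ℝ) + 1)) ^ η :=
    Real.rpow_le_rpow (by linarith) (by linarith) hη.le
  rw [Real.mul_rpow (by norm_num) (by linarith)] at h2
  calc Real.log (n + 2) ≤ ((n : ℝ) + 2) ^ η / η := h1
    _ ≤ ((2 : ℝ) ^ η * ((n : ℝ) + 1) ^ η) / η := by gcongr
    _ = _ := by ring

theorem ThC_Fh_hom (h6 : S_HmH) {s m : ℕ} {K : Type} [Field K] (d : ℕ)
    (F : Fin (m + 1) → MvPolynomial (Fin (m + 1)) (MvPolynomial (Fin s) K))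
    (hF : ∀ i, (F i).totalDegree ≤ d) (i : Fin (m + 2)) : (Fh d F i).IsHomogeneous d := by
  refine Fin.lastCases ?_ (fun j => ?_) i
  · simp only [Fh, Fin.snoc_last]
    simpa using (isHomogeneous_X (MvPolynomial (Fin s) K) (Fin.last (m + 1))).pow d
  · simp only [Fh, Fin.snoc_castSucc]
    exact (h6 s m K d).1 (F j) (hF j)

theorem ThC_Fh_ev (h6 : S_HmH) {s m : ℕ} {K : Type} [Field K] (d : ℕ)
    (F : Fin (m + 1) → MvPolynomial (Fin (m + 1)) (MvPolynomial (Fin s) K))
    (x : Fin s → K) (y : Fin (m + 1) → K) (i : Fin (m + 2)) :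
    ev x (Fin.snoc y 1 : Fin (m + 2) → K) (Fh d F i) =
      (Fin.snoc (fun j => ev x y (F j)) 1 : Fin (m + 2) → K) i := by
  refine Fin.lastCases ?_ (fun j => ?_) i
  · simp only [Fh, Fin.snoc_last, ev_pow, ev_X, one_pow]
  · simp only [Fh, Fin.snoc_castSucc]
    exact (h6 s m K d).2.1 K x y (F j)

theorem pr_ThC (h1 : S_BPol) (h2 : S_HXP) (h3 : S_BNV) (h4 : S_UInj) (h5 : S_HUm)
    (h6 : S_HmH) (h7 : S_TriC) (h8 : S_DicC) (h9 : S_GrC) (h10 : S_DgC) (h11 : S_HtC)
    (h12 : S_TU) (h13 : Pool.Agent.Work.MP_91e6de_nt.DM.S_UB)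
    (h14 : Pool.Agent.Work.MP_91e6de_nt.DM.S_Lim) (h15 : S_Hz) : S_ThC := by
  classical
  intro s m K _ _ d d' U b F G r x y hU hfam hx hy hdens
  have hd := hfam.hd
  have hd' := hfam.hd'
  have hdR : (0 : ℝ) < d := by
    have : 0 < d := by omega
    exact_mod_cast this
  have hkap : (0 : ℝ) < Module.finrank ℚ K := by
    exact_mod_cast Module.finrank_pos
  -- the base orbit
  obtain ⟨ξ, hξ⟩ := h1 s K U b x hU hx
  choose Cx hCx0 hCx using fun i => h2 K (ξ i)
  set CX : ℝ := ∑ i, Cx i with hCXdef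
  have hCX0 : 0 ≤ CX := Finset.sum_nonneg fun i _ => hCx0 i
  have hsum : ∀ n : ℕ, ∑ i, logHeight₁ (x n i) ≤ CX * Real.log (n + 2) := by
    intro n
    rw [hCXdef, Finset.sum_mul]
    refine Finset.sum_le_sum fun i _ => ?_
    rw [hξ n i]
    exact hCx i n
  have hone : ∀ (n : ℕ) (i : Fin s), logHeight₁ (x n i) ≤ CX * Real.log (n + 2) := fun n i =>
    (Finset.single_le_sum (f := fun i => logHeight₁ (x n i))
      (fun i _ => zero_le_logHeight₁ _) (Finset.mem_univ i)).trans (hsum n)
  -- the heights in the fibre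
  set Y : ℕ → Fin (m + 2) → K := fun n => Fin.snoc (y n) 1 with hYdef
  set u : ℕ → ℝ := fun n => logHeight (Y n) with hudef
  have hu0 : ∀ n, 0 ≤ u n := fun n => logHeight_nonneg _
  have hYs : ∀ n, Y (n + 1) = fun i => ev (x n) (Y n) (Fh d F i) := by
    intro n
    funext i
    rw [ThC_Fh_ev h6 d F (x n) (y n) i]
    show (Fin.snoc (y (n + 1)) 1 : Fin (m + 2) → K) i = _
    congr 1
    funext j
    exact hy n j
  -- upper bound
  obtain ⟨C1, hC1, hup⟩ := h5 s (m + 1) (Fin (m + 2)) K d (Fh d F)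
    (ThC_Fh_hom h6 d F hfam.degF)
  have hupper : ∀ n, u (n + 1) ≤ d * u n + C1 * (2 + CX) * Real.log (n + 2) := by
    intro n
    have e1 := hup (x n) (Y n)
    rw [← hYs n] at e1
    have e2 := ThC_log n
    have e3 := hsum n
    have e4 : C1 * (1 + ∑ i, logHeight₁ (x n i)) ≤ C1 * (2 + CX) * Real.log (n + 2) := by
      rw [mul_assoc]
      refine mul_le_mul_of_nonneg_left ?_ hC1
      rw [add_mul]
      linarith
    exact e1.trans (add_le_add le_rfl e4)
  obtain ⟨C', hC'0, hC'⟩ := h13 d u (C1 * (2 + CX)) hd (by positivity) hupper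
  -- lower bound
  obtain ⟨ρ, C3, hρ, hC3, htri⟩ := h7 s m K d d' (gU U b) F G r hfam
  have hρex : ∃ n, aeval (x n) ρ ≠ 0 := by
    by_contra hcon
    push Not at hcon
    have e1 : rename (Sum.inl : Fin s → Fin s ⊕ Fin (m + 1)) ρ = 0 := by
      apply hdens
      intro n
      rw [aeval_rename]
      have : (Sum.elim (x n) (y n)) ∘ (Sum.inl : Fin s → Fin s ⊕ Fin (m + 1)) = x n := by
        funext i; rfl
      rw [this]
      exact hcon n
    apply hρ
    exact (rename_injective _ Sum.inl_injective) (by rw [e1, map_zero])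
  obtain ⟨n1, hn1⟩ := h3 s K ξ x ρ hξ hρex
  have hlower : ∀ n, n1 ≤ n → (d * d' + 1 : ℝ) * u (n + 1) ≤ d' * u (n + 2) + d * u n +
      C3 * (2 + CX) * Real.log (n + 2) := by
    intro n hn
    have e1 := htri (x n) (x (n + 1)) (y n) (y (n + 1)) (y (n + 2)) (hn1 n hn)
      (fun i => hx n i) (fun i => hy n i) (fun i => hy (n + 1) i)
    have e2 := ThC_log n
    have e3 := hsum n
    have e4 : C3 * (1 + ∑ i, logHeight₁ (x n i)) ≤ C3 * (2 + CX) * Real.log (n + 2) := by
      rw [mul_assoc]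
      refine mul_le_mul_of_nonneg_left ?_ hC3
      rw [add_mul]
      linarith
    exact e1.trans (add_le_add le_rfl e4)
  -- the degrees
  obtain ⟨CD, hCD⟩ := h10 s m K d d' (gU U b) F G r hfam (h4 s K U b hU).2
  refine ⟨?_, ?_⟩
  · refine h14 d 1 CD _ hdR one_pos ?_ ?_
    · refine Eventually.of_forall fun n => ?_
      rw [one_mul]
      exact_mod_cast (hCD n).1
    · refine Eventually.of_forall fun n => ?_
      exact_mod_cast (hCD n).2
  · rcases h8 d d' n1 u (C3 * (2 + CX)) hd hd' (by positivity) hu0 hlower with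
      ⟨c, hc, hcu⟩ | ⟨C5, hC5, hslow⟩
    · -- first case
      refine h14 d (c / Module.finrank ℚ K) ((C' + CX) / Module.finrank ℚ K) _ hdR
        (by positivity) ?_ ?_
      · filter_upwards [hcu] with n hn
        have e1 := (h11 s m K (x n) (y n)).1
        rw [div_mul_eq_mul_div]
        exact div_le_div_of_nonneg_right (hn.trans e1) hkap.le
      · refine Eventually.of_forall fun n => ?_
        have e1 := (h11 s m K (x n) (y n)).2
        rw [div_mul_eq_mul_div]
        refine div_le_div_of_nonneg_right ?_ hkap.le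
        have e2 := hC' n
        have e3 := hsum n
        have e4 := mul_le_mul_of_nonneg_left (ThC_logpow d n hd) hCX0
        have e5 : logHeight (Fin.snoc (y n) 1 : Fin (m + 2) → K) = u n := rfl
        rw [e5] at e1
        rw [add_mul]
        linarith
    · -- second case
      exfalso
      obtain ⟨η, hη, hTU⟩ := h12 s (m + 1) K (gU U b) (Fh d F) d 0 (d : ℝ) (by omega)
        (ThC_Fh_hom h6 d F hfam.degF) (by exact_mod_cast (by omega : 1 < d))
        (fun k _ => h9 s m K d d' (gU U b) F G r hfam k)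
      have hOrb : OrbB (gU U b) (Fh d F) x Y := by
        refine ⟨hx, fun n i => by rw [hYs n], fun n h0 => ?_⟩
        have e1 := congrFun h0 (Fin.last (m + 1))
        simp [hYdef] at e1
      have hB : ∀ (n : ℕ) (A : ℝ), 0 ≤ A → A ≤ CX + C5 → A * Real.log (n + 2) ≤
          (CX + C5) * ((2 : ℝ) ^ η / η) * ((n : ℝ) + 1) ^ η := by
        intro n A hA0 hA
        have e1 := ThC_logeta η hη n
        have e2 : 0 ≤ Real.log (n + 2) := by linarith [ThC_log n]
        calc A * Real.log (n + 2) ≤ (CX + C5) * Real.log (n + 2) :=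
              mul_le_mul_of_nonneg_right hA e2
          _ ≤ (CX + C5) * ((2 : ℝ) ^ η / η * ((n : ℝ) + 1) ^ η) :=
              mul_le_mul_of_nonneg_left e1 (by positivity)
          _ = _ := by ring
      obtain ⟨t, Hh, hHh, hhom, hzero⟩ := hTU x Y ((CX + C5) * ((2 : ℝ) ^ η / η)) hOrb
        (fun n i => (hone n i).trans (hB n CX hCX0 (by linarith)))
        (fun n => (hslow n).trans (hB n C5 hC5 (by linarith)))
      apply hHh
      refine (h15 s (m + 1) K (fun _ => 0)).2 t Hh hhom ?_
      apply hdens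
      intro n
      rw [aeval_dhB]
      have e1 : hc (fun _ : Fin (m + 1) => 0) (y n) = Y n := by
        simp [hc, hYdef]
      rw [e1]
      exact hzero n

end Pool.Agent.Work.MP_91e6de_nt.DMR

end

section

set_option autoImplicit false

/-!
# THEOREM D: dynamical Mordell-Lang (MP_91e6de, DMR, item ThD)
-/

namespace Pool.Agent.Work.MP_91e6de_nt.DMR

open MvPolynomial NumberField IsDedekindDomain Height Filter Topology

theorem ThD_growth (c C C1 : ℝ) (d : ℕ) (hc : 0 < c) (hC : 0 ≤ C) (hC1 : 0 ≤ C1)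
    (hd : 2 ≤ d) : ∀ᶠ n : ℕ in atTop, C * (1 + C1 * Real.log (n + 2)) < c * (d : ℝ) ^ n := by
  have h0 := tendsto_pow_const_div_const_pow_of_one_lt 0 (r := (2 : ℝ)) one_lt_two
  have h1 := tendsto_pow_const_div_const_pow_of_one_lt 1 (r := (2 : ℝ)) one_lt_two
  have h2 : Tendsto (fun n : ℕ => (C + 2 * C * C1) * ((n : ℝ) ^ 0 / 2 ^ n) +
      C * C1 * ((n : ℝ) ^ 1 / 2 ^ n)) atTop (𝓝 0) := by
    have := (h0.const_mul (C + 2 * C * C1)).add (h1.const_mul (C * C1))
    simpa using this
  filter_upwards [h2.eventually_lt_const hc] with n hn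
  have h3 : (0 : ℝ) < 2 ^ n := by positivity
  have hlog : Real.log (n + 2) ≤ n + 2 := by
    have h4 : (0 : ℝ) ≤ (n : ℝ) + 2 := by positivity
    exact Real.log_le_self h4
  have h5 : (C + 2 * C * C1) * ((n : ℝ) ^ 0 / 2 ^ n) + C * C1 * ((n : ℝ) ^ 1 / 2 ^ n) =
      (C * (1 + C1 * (n + 2))) / 2 ^ n := by
    rw [pow_zero, pow_one]
    field_simp
    ring
  rw [h5, div_lt_iff₀ h3] at hn
  have h6 : (2 : ℝ) ^ n ≤ (d : ℝ) ^ n := pow_le_pow_left₀ (by norm_num) (by exact_mod_cast hd) _
  calc C * (1 + C1 * Real.log (n + 2)) ≤ C * (1 + C1 * (n + 2)) := by gcongr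
    _ < c * 2 ^ n := hn
    _ ≤ c * (d : ℝ) ^ n := by gcongr

theorem pr_ThD (h1 : S_MaxP) (h2 : S_DicW) (h3 : S_HtCv) (h4 : S_ImW) (h5 : S_FinZ)
    (h6 : S_BasT) (h7 : S_SubO) (h8 : S_Fuap) (h9 : S_Nul) : S_ThD := by
  intro m K _ _ d b F x y GG hm hd hb hF hNoZ horb hhom hyp
  have hNl : NlF F d := h9 1 m K F d (by omega) hF hNoZ
  obtain ⟨hxinj, hzero, ⟨C1, hC1, hxht⟩, -, hginj, -⟩ := h6 K b x hb horb.1
  obtain ⟨-, hdic⟩ := h2 m K d b F x y hd hb hF hNl horb
  rcases hdic with hfast | hslow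
  · -- the heights grow as fast as possible
    have hcv : CvV GG := hyp.resolve_right (fun h => h hfast)
    obtain ⟨c, hc, hcd⟩ := hfast
    obtain ⟨a, C, ha, hC, hh⟩ := h3 1 m K GG hcv
    have hfin : {n : ℕ | ∀ G ∈ GG, ev (x n) (y n) G = 0}.Finite := by
      have hev := (hcd.and (ThD_growth c C C1 d hc hC hC1 hd))
      obtain ⟨N, hN⟩ := eventually_atTop.1 hev
      refine ((hzero a ha).union (Set.finite_lt_nat N)).subset ?_
      intro n hn
      by_cases h0 : aeval (x n) a = 0
      · exact Or.inl h0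
      · right
        show n < N
        by_contra hge
        obtain ⟨g1, g2⟩ := hN n (not_lt.1 hge)
        have g3 := hh (x n) (y n) (horb.2.2 n) hn h0
        have g4 : ∑ i : Fin 1, logHeight₁ (x n i) = logHeight₁ (x n 0) := by simp
        rw [g4] at g3
        have g5 : C * (1 + logHeight₁ (x n 0)) ≤ C * (1 + C1 * Real.log (n + 2)) := by
          gcongr
          exact hxht n
        linarith
    refine h8 _ 1 le_rfl (fun r _ => Or.inl ?_)
    exact hfin.subset (fun n hn => hn.1)
  · -- slow orbits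
    obtain ⟨n0, c, IW, hc, hV, hHor, hRZ, hInv, hOn⟩ :=
      h1 m K d b F x y hm hd hb hF hNl horb hslow
    have hOnk := (h7 1 m K IW (gT b) F n0 c x y horb).2 hInv hOn
    refine h8 _ c hc (fun r' hr' => ?_)
    -- the shift
    obtain ⟨r, hrc, hr⟩ : ∃ r < c, (n0 + r) % c = r' := by
      refine ⟨(r' + (c - n0 % c)) % c, Nat.mod_lt _ hc, ?_⟩
      have e1 : n0 % c < c := Nat.mod_lt _ hc
      rw [Nat.add_mod, Nat.mod_mod, ← Nat.add_mod]
      have e2 : n0 + (r' + (c - n0 % c)) = r' + c * (n0 / c + 1) := by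
        have := Nat.div_add_mod n0 c
        rw [mul_add, mul_one]
        omega
      rw [e2, Nat.add_mul_mod_self_left]
      exact Nat.mod_eq_of_lt hr'
    have hk : ∀ n, n % c = r' → n0 + r ≤ n → ∃ k, n = n0 + c * k + r := by
      intro n hn hle
      have e1 : (n0 + r) ≡ n [MOD c] := by
        show (n0 + r) % c = n % c
        rw [hr, hn]
      obtain ⟨k, hk⟩ := (Nat.modEq_iff_dvd' hle).1 e1
      exact ⟨k, by omega⟩
    obtain ⟨IW', hV', hHor', hRZ', hInv', hOn'⟩ :=
      h4 m K d b F r c IW (by omega) hF hNl hV hHor hRZ hInv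
    have hOnr : ∀ k, OnV IW' (x (n0 + c * k + r)) (y (n0 + c * k + r)) :=
      fun k => hOn' x y horb _ (hOnk k)
    by_cases hall : ∀ G ∈ GG, G ∈ IW'
    · right
      refine (Set.finite_lt_nat (n0 + r)).subset ?_
      rintro n ⟨hnS, hnr⟩
      show n < n0 + r
      by_contra hge
      obtain ⟨k, rfl⟩ := hk n hnr (not_lt.1 hge)
      exact hnS (fun G hG => hOnr k G (hall G hG))
    · left
      push Not at hall
      obtain ⟨G, hG, hGW⟩ := hall
      obtain ⟨t, ht⟩ := hhom G hG
      obtain ⟨a, ha, haz⟩ := h5 1 m K IW' t G hV' hHor' hRZ' ht hGW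
      refine ((hzero a ha).union (Set.finite_lt_nat (n0 + r))).subset ?_
      rintro n ⟨hnS, hnr⟩
      by_cases hlt : n < n0 + r
      · exact Or.inr hlt
      · left
        obtain ⟨k, rfl⟩ := hk n hnr (not_lt.1 hlt)
        exact haz _ _ (horb.2.2 _) (hOnr k) (hnS G hG)

end Pool.Agent.Work.MP_91e6de_nt.DMR

end
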