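import Mathlib
import Pool.Agent.Work.MP_91e6de_nt.Bd.B13
import Pool.Agent.Work.MP_91e6de_nt.DMR.StmtsW
import Pool.Agent.Work.MP_91e6de_nt.KS.Defs

/-! Bundle of small proof modules (one section per former module). -/

section

set_option autoImplicit false

/-!
# Item TopIt: the top forms of the iterates
-/

namespace Pool.Agent.Work.MP_91e6de_nt.DMR

open MvPolynomial

/-! ### top parts -/

theorem TopIt_mul {τ R : Type} [CommRing R] (p q : MvPolynomial τ R) (a b : ℕ)
    (hp : p.totalDegree ≤ a) (hq : q.totalDegree ≤ b) :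
    homogeneousComponent (a + b) (p * q) =
      homogeneousComponent a p * homogeneousComponent b q := by
  classical
  have hz : ∀ v : τ →₀ ℕ, a < v.degree → coeff v p = 0 := by
    intro v hv
    exact coeff_eq_zero_of_totalDegree_lt (lt_of_le_of_lt hp hv)
  have hw : ∀ v : τ →₀ ℕ, b < v.degree → coeff v q = 0 := by
    intro v hv
    exact coeff_eq_zero_of_totalDegree_lt (lt_of_le_of_lt hq hv)
  ext u
  rw [coeff_homogeneousComponent, coeff_mul, coeff_mul]
  split_ifs with h
  · apply Finset.sum_congr rfl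
    rintro ⟨v, w⟩ hvw
    rw [Finset.HasAntidiagonal.mem_antidiagonal] at hvw
    have hdeg : v.degree + w.degree = a + b := by
      rw [← h, ← hvw]
      simp
    simp only [coeff_homogeneousComponent]
    rcases lt_trichotomy v.degree a with hlt | heq | hgt
    · rw [if_neg hlt.ne, zero_mul, hw w (by omega), mul_zero]
    · rw [if_pos heq, if_pos (by omega)]
    · rw [if_neg hgt.ne', zero_mul, hz v hgt, zero_mul]
  · symm
    apply Finset.sum_eq_zero
    rintro ⟨v, w⟩ hvw
    rw [Finset.HasAntidiagonal.mem_antidiagonal] at hvw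
    simp only [coeff_homogeneousComponent]
    by_cases h1 : v.degree = a
    · rw [if_neg (c := w.degree = b), mul_zero]
      intro h2
      apply h
      rw [← hvw]
      simp [h1, h2]
    · rw [if_neg h1, zero_mul]

theorem TopIt_one {τ R : Type} [CommRing R] :
    homogeneousComponent 0 (1 : MvPolynomial τ R) = 1 := by
  rw [homogeneousComponent_zero]
  simp

theorem TopIt_pow {τ R : Type} [CommRing R] (p : MvPolynomial τ R) (a : ℕ)
    (hp : p.totalDegree ≤ a) (e : ℕ) : (p ^ e).totalDegree ≤ a * e ∧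
    homogeneousComponent (a * e) (p ^ e) = homogeneousComponent a p ^ e := by
  induction e with
  | zero => simp
  | succ e ih =>
    constructor
    · rw [pow_succ]
      refine (totalDegree_mul _ _).trans ?_
      rw [Nat.mul_succ]
      exact Nat.add_le_add ih.1 hp
    · rw [pow_succ, Nat.mul_succ, TopIt_mul _ _ _ _ ih.1 hp, ih.2, pow_succ]

theorem TopIt_prod {τ R ι : Type} [CommRing R] (T : Finset ι) (p : ι → MvPolynomial τ R)
    (a : ι → ℕ) (hp : ∀ i, (p i).totalDegree ≤ a i) :
    (∏ i ∈ T, p i).totalDegree ≤ ∑ i ∈ T, a i ∧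
    homogeneousComponent (∑ i ∈ T, a i) (∏ i ∈ T, p i) =
      ∏ i ∈ T, homogeneousComponent (a i) (p i) := by
  classical
  induction T using Finset.induction_on with
  | empty => simp
  | insert i T hi ih =>
    rw [Finset.prod_insert hi, Finset.sum_insert hi, Finset.prod_insert hi]
    refine ⟨(totalDegree_mul _ _).trans (Nat.add_le_add (hp i) ih.1), ?_⟩
    rw [TopIt_mul _ _ _ _ (hp i) ih.1, ih.2]

section

variable {s m : ℕ} {K : Type} [Field K]

/-- values of coefficients -/
theorem TopIt_C (x : Fin s → MvPolynomial (Fin s) K) (p : MvPolynomial (Fin s) K) :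
    (aeval (fun i => (C (x i) : MvPolynomial (Fin (m + 1)) (MvPolynomial (Fin s) K))) p) =
      C (aeval x p) := by
  have := MvPolynomial.comp_aeval_apply x
    (IsScalarTower.toAlgHom K (MvPolynomial (Fin s) K)
      (MvPolynomial (Fin (m + 1)) (MvPolynomial (Fin s) K))) p
  rw [← MvPolynomial.algebraMap_eq]
  exact this.symm

theorem TopIt_ev (x : Fin s → MvPolynomial (Fin s) K)
    (f : Fin (m + 1) → MvPolynomial (Fin (m + 1)) (MvPolynomial (Fin s) K))
    (G : MvPolynomial (Fin (m + 1)) (MvPolynomial (Fin s) K))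
    (T : Finset (Fin (m + 1) →₀ ℕ)) (hT : G.support ⊆ T) :
    ev (fun i => C (x i)) f G = ∑ u ∈ T, C (aeval x (G.coeff u)) * ∏ i, f i ^ u i := by
  rw [ev_eq_sum]
  simp only [TopIt_C]
  apply Finset.sum_subset hT
  intro u _ hu
  rw [notMem_support_iff.mp hu]
  simp

theorem TopIt_wt (u : Fin (m + 1) →₀ ℕ) : u.degree = ∑ i, u i := by
  rw [Finsupp.degree_eq_sum]

/-- degree of a composition -/
theorem TopIt_deg (x : Fin s → MvPolynomial (Fin s) K)
    (f : Fin (m + 1) → MvPolynomial (Fin (m + 1)) (MvPolynomial (Fin s) K)) (n D : ℕ)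
    (hf : ∀ i, (f i).totalDegree ≤ n)
    (G : MvPolynomial (Fin (m + 1)) (MvPolynomial (Fin s) K)) (hG : G.totalDegree ≤ D) :
    (ev (fun i => C (x i)) f G).totalDegree ≤ n * D := by
  rw [TopIt_ev x f G G.support subset_rfl]
  apply totalDegree_finsetSum_le
  intro u hu
  refine (totalDegree_mul _ _).trans ?_
  rw [totalDegree_C, zero_add]
  refine (TopIt_prod Finset.univ (fun i => f i ^ u i) (fun i => n * u i)
    (fun i => (TopIt_pow (f i) n (hf i) (u i)).1)).1.trans ?_
  rw [← Finset.mul_sum, ← TopIt_wt]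
  exact Nat.mul_le_mul_left _ ((le_totalDegree hu).trans hG)

/-- top part of a composition -/
theorem TopIt_top (x : Fin s → MvPolynomial (Fin s) K)
    (f : Fin (m + 1) → MvPolynomial (Fin (m + 1)) (MvPolynomial (Fin s) K)) (n D : ℕ)
    (hn : 1 ≤ n) (hf : ∀ i, (f i).totalDegree ≤ n)
    (G : MvPolynomial (Fin (m + 1)) (MvPolynomial (Fin s) K)) (hG : G.totalDegree ≤ D) :
    homogeneousComponent (n * D) (ev (fun i => C (x i)) f G) =
      ev (fun i => C (x i)) (fun i => homogeneousComponent n (f i))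
        (homogeneousComponent D G) := by
  classical
  rw [TopIt_ev x f G G.support subset_rfl, TopIt_ev x _ (homogeneousComponent D G) G.support (by
    rw [support_homogeneousComponent]
    exact Finset.filter_subset _ _), map_sum]
  apply Finset.sum_congr rfl
  intro u hu
  rw [homogeneousComponent_C_mul, coeff_homogeneousComponent]
  obtain ⟨h1, h2⟩ := TopIt_prod Finset.univ (fun i => f i ^ u i) (fun i => n * u i)
    (fun i => (TopIt_pow (f i) n (hf i) (u i)).1)
  rw [← Finset.mul_sum, ← TopIt_wt] at h1 h2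
  have hle : u.degree ≤ D := (le_totalDegree hu).trans hG
  split_ifs with h
  · rw [← h, h2]
    congr 1
    apply Finset.prod_congr rfl
    intro i _
    exact (TopIt_pow (f i) n (hf i) (u i)).2
  · rw [homogeneousComponent_eq_zero]
    · simp
    · refine lt_of_le_of_lt h1 ?_
      exact Nat.mul_lt_mul_of_pos_left (lt_of_le_of_ne hle h) (by omega)

/-- coefficients transported by `g` -/
theorem TopIt_map (g x x' : Fin s → MvPolynomial (Fin s) K)
    (hx : ∀ i, x' i = aeval x (g i))
    (f : Fin (m + 1) → MvPolynomial (Fin (m + 1)) (MvPolynomial (Fin s) K))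
    (G : MvPolynomial (Fin (m + 1)) (MvPolynomial (Fin s) K)) :
    ev (fun i => C (x i)) f (map (aeval g).toRingHom G) = ev (fun i => C (x' i)) f G := by
  have h1 := ev_hom_ext ((evHom (A := K) (fun i => C (x i)) f).comp
    (map (σ := Fin (m + 1)) ((aeval g : MvPolynomial (Fin s) K →ₐ[K] MvPolynomial (Fin s) K).toRingHom)))
    (fun i => C (x' i)) f
    (by
      intro r
      simp only [RingHom.comp_apply, map_C, ← ev_eq, ev_C]
      simp)
    (by
      intro i
      simp only [RingHom.comp_apply, map_C, ← ev_eq, ev_C]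
      simp only [AlgHom.toRingHom_eq_coe, RingHom.coe_coe, aeval_X]
      rw [TopIt_C, hx])
    (by
      intro i
      simp only [RingHom.comp_apply, map_X, ← ev_eq, ev_X])
    G
  rw [← h1]
  rfl

end

/-! ### the iterates -/

section

variable {s m : ℕ} {K : Type} [Field K] {d d' : ℕ} {g : Fin s → MvPolynomial (Fin s) K}
  {F G : Fin (m + 1) → MvPolynomial (Fin (m + 1)) (MvPolynomial (Fin s) K)}
  {r : MvPolynomial (Fin s) K}

theorem TopIt_itdeg (h : FamC g d d' F G r) (k : ℕ) :
    ∀ i, ((itB g F k).2 i).totalDegree ≤ d ^ k := by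
  induction k with
  | zero =>
    intro i
    simp only [itB, pow_zero]
    rw [totalDegree_X]
  | succ k ih =>
    intro i
    rw [pow_succ]
    exact TopIt_deg _ _ _ _ ih _ (h.degF i)

theorem TopIt_inj (h : FamC g d d' F G r) (k : ℕ) :
    Function.Injective (aeval (itB g F k).1 :
      MvPolynomial (Fin s) K →ₐ[K] MvPolynomial (Fin s) K) := by
  induction k with
  | zero =>
    have h1 : (aeval (itB g F 0).1 : MvPolynomial (Fin s) K →ₐ[K] MvPolynomial (Fin s) K) =
        AlgHom.id K _ := by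
      apply MvPolynomial.algHom_ext
      intro i
      rw [aeval_X]
      rfl
    rw [h1]
    exact fun a b h => h
  | succ k ih =>
    have h1 : (aeval (itB g F (k + 1)).1 :
        MvPolynomial (Fin s) K →ₐ[K] MvPolynomial (Fin s) K) =
        (aeval (itB g F k).1).comp (aeval g) := by
      apply MvPolynomial.algHom_ext
      intro i
      rw [aeval_X, AlgHom.comp_apply, aeval_X]
      rfl
    rw [h1]
    exact ih.comp h.inj

/-- top parts of the iterates -/
noncomputable def TopIt_T (g : Fin s → MvPolynomial (Fin s) K)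
    (F : Fin (m + 1) → MvPolynomial (Fin (m + 1)) (MvPolynomial (Fin s) K)) (d k : ℕ) :
    Fin (m + 1) → MvPolynomial (Fin (m + 1)) (MvPolynomial (Fin s) K) :=
  fun i => homogeneousComponent (d ^ k) ((itB g F k).2 i)

theorem TopIt_succ (h : FamC g d d' F G r) (k : ℕ) (i : Fin (m + 1)) :
    TopIt_T g F d (k + 1) i = ev (fun j => C ((itB g F k).1 j)) (TopIt_T g F d k)
      (homogeneousComponent d (F i)) := by
  have h1 := TopIt_top (itB g F k).1 (itB g F k).2 (d ^ k) d
    (Nat.one_le_pow _ _ (by have := h.hd; omega)) (TopIt_itdeg h k) (F i) (h.degF i)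
  rw [← pow_succ] at h1
  exact h1

theorem TopIt_G (h : FamC g d d' F G r) (k : ℕ) (i : Fin (m + 1)) :
    ev (fun j => C ((itB g F k).1 j)) (TopIt_T g F d (k + 1))
      (homogeneousComponent d' (G i)) = 0 := by
  have hd := h.hd
  have hd' := h.hd'
  have h1 : ev (fun j => C ((itB g F k).1 j)) (itB g F (k + 1)).2 (G i) =
      C (aeval (itB g F k).1 r) * (itB g F k).2 i := by
    have h2 := congrArg (ev (fun j => (C ((itB g F k).1 j) :
      MvPolynomial (Fin (m + 1)) (MvPolynomial (Fin s) K))) (itB g F k).2) (h.inv i)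
    unfold comp at h2
    rw [ev_ev, ev_mul, ev_C, ev_X, TopIt_C] at h2
    simp only [aeval_X] at h2
    exact h2
  have h3 := TopIt_top (itB g F k).1 (itB g F (k + 1)).2 (d ^ (k + 1)) d'
    (Nat.one_le_pow _ _ (by omega)) (TopIt_itdeg h (k + 1)) (G i) (h.degG i)
  rw [h1] at h3
  refine h3.symm.trans ?_
  apply homogeneousComponent_eq_zero
  refine lt_of_le_of_lt (totalDegree_mul _ _) ?_
  rw [totalDegree_C, zero_add]
  refine lt_of_le_of_lt (TopIt_itdeg h k i) ?_
  have h4 : 0 < d ^ k := Nat.pow_pos (by omega)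
  calc d ^ k < d ^ k * 4 := by omega
    _ ≤ d ^ k * (d * d') := Nat.mul_le_mul_left _ (Nat.mul_le_mul hd hd')
    _ = d ^ (k + 1) * d' := by ring

end

theorem pr_TopIt (h1 : S_NulG) : S_TopIt := by
  classical
  intro s m K _ d d' g F G r h k
  refine ⟨TopIt_itdeg h k, ?_⟩
  have hmain : ∀ k, ∃ i, TopIt_T g F d k i ≠ 0 := by
    intro k
    rcases k with _ | k
    · refine ⟨0, ?_⟩
      unfold TopIt_T
      simp only [itB, pow_zero]
      rw [homogeneousComponent_eq_self (isHomogeneous_X _ _)]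
      exact X_ne_zero _
    induction k with
    | zero =>
      obtain ⟨i, hi⟩ := h.topF
      refine ⟨i, ?_⟩
      have h2 : (itB g F 1).2 i = F i := by
        have h3 := ev_hom_ext (RingHom.id
          (MvPolynomial (Fin (m + 1)) (MvPolynomial (Fin s) K))) (fun j => C (X j)) X
          (by intro r; rfl) (by intro i; rfl) (by intro i; rfl) (F i)
        exact h3.symm
      unfold TopIt_T
      rw [h2, zero_add, pow_one]
      exact hi
    | succ k ih =>
      by_contra hcon
      push Not at hcon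
      obtain ⟨i, hi⟩ := ih
      obtain ⟨t, ρ, H, hρ, _, _, hH⟩ := h1 s m (Fin (m + 1) ⊕ Fin (m + 1)) K
        (Sum.elim (fun _ => d) (fun _ => d'))
        (Sum.elim (fun j => map (aeval g).toRingHom (homogeneousComponent d (F j)))
          (fun j => homogeneousComponent d' (G j)))
        (by
          rintro (j | j)
          · exact (homogeneousComponent_isHomogeneous d (F j)).map _
          · exact homogeneousComponent_isHomogeneous d' (G j))
        (by
          intro y hy
          exact h.reg y (fun j => hy (Sum.inl j)) (fun j => hy (Sum.inr j)))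
      have h2 := congrArg (ev (fun j => (C ((itB g F k).1 j) :
        MvPolynomial (Fin (m + 1)) (MvPolynomial (Fin s) K))) (TopIt_T g F d (k + 1))) (hH i)
      rw [ev_mul, ev_C, ev_pow, ev_X, ev_sum, Finset.sum_eq_zero, TopIt_C] at h2
      · rcases mul_eq_zero.mp h2 with h3 | h3
        · apply hρ
          apply TopIt_inj h k
          rw [map_zero]
          rw [← C_0] at h3
          exact C_injective _ _ h3
        · exact pow_ne_zero t hi h3
      · rintro (j | j) _
        · rw [ev_mul, Sum.elim_inl, TopIt_map g (itB g F k).1 (itB g F (k + 1)).1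
            (fun i => rfl), ← TopIt_succ h (k + 1) j, hcon j, mul_zero]
        · rw [ev_mul, Sum.elim_inr, TopIt_G h k j, mul_zero]
  exact hmain k

end Pool.Agent.Work.MP_91e6de_nt.DMR

end

section

set_option autoImplicit false

/-!
# The height inequality along three consecutive points (MP_91e6de, DMR, item TriC)
-/

namespace Pool.Agent.Work.MP_91e6de_nt.DMR

open MvPolynomial NumberField IsDedekindDomain Height

/-- sums of at most `N0` terms -/
def TriC_V {K : Type} [Field K] (v : AbsoluteValue K ℝ) (n : ℝ) (N0 : ℕ) : Prop :=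
  ∀ (ι : Type) (T : Finset ι) (f : ι → K) (B : ℝ), T.card ≤ N0 → 0 ≤ B →
    (∀ i ∈ T, v (f i) ≤ B) → v (∑ i ∈ T, f i) ≤ n * B

theorem TriC_inf {K : Type} [Field K] (v : AbsoluteValue K ℝ) (N0 : ℕ) :
    TriC_V v N0 N0 := by
  intro ι T f B hT hB hf
  refine (v.sum_le _ _).trans ?_
  refine (Finset.sum_le_card_nsmul T _ B hf).trans ?_
  rw [nsmul_eq_mul]
  exact mul_le_mul_of_nonneg_right (by exact_mod_cast hT) hB

theorem TriC_fin {K : Type} [Field K] [NumberField K] (v : FinitePlace K) (N0 : ℕ) :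
    TriC_V v.1 1 N0 := by
  classical
  intro ι T f B hT hB hf
  clear hT
  rw [one_mul]
  induction T using Finset.induction_on with
  | empty => simpa using hB
  | insert a T ha ih =>
    rw [Finset.sum_insert ha]
    refine (v.add_le _ _).trans (max_le (hf a (Finset.mem_insert_self _ _)) ?_)
    exact ih (fun i hi => hf i (Finset.mem_insert_of_mem hi))

theorem TriC_deg {s m : ℕ} {K : Type} [Field K]
    {P : MvPolynomial (Fin (m + 1)) (MvPolynomial (Fin s) K)} {D : ℕ} (hP : P.totalDegree ≤ D)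
    {u : Fin (m + 1) →₀ ℕ} (hu : u ∈ P.support) : ∑ i, u i ≤ D := by
  have h := (le_totalDegree hu).trans hP
  rwa [Finsupp.sum_fintype _ _ (fun _ => rfl)] at h

/-- values of polynomials -/
theorem TriC_ev {s m : ℕ} {K : Type} [Field K] (v : AbsoluteValue K ℝ) (n M a : ℝ) (N0 : ℕ)
    (hv : TriC_V v n N0) (hM : 1 ≤ M) (ha : 1 ≤ a) (x : Fin s → K) (y : Fin (m + 1) → K)
    (hy : ∀ i, v (y i) ≤ a) (P : MvPolynomial (Fin (m + 1)) (MvPolynomial (Fin s) K)) (D : ℕ)
    (hP : P.totalDegree ≤ D) (hc : P.support.card ≤ N0)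
    (hMc : ∀ u ∈ P.support, v (aeval x (P.coeff u)) ≤ M) :
    v (ev x y P) ≤ n * (M * a ^ D) := by
  rw [ev_eq_sum]
  apply hv _ _ _ _ hc (by positivity)
  intro u hu
  rw [map_mul]
  refine mul_le_mul (hMc u hu) ?_ (v.nonneg _) (by positivity)
  rw [map_prod]
  have h1 : ∏ i, v (y i ^ u i) ≤ ∏ i, a ^ u i := by
    apply Finset.prod_le_prod
    · intro i _; exact v.nonneg _
    · intro i _
      rw [map_pow]
      exact pow_le_pow_left₀ (v.nonneg _) (hy i) _
  refine h1.trans ?_
  rw [Finset.prod_pow_eq_pow_sum]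
  exact pow_le_pow_right₀ ha (TriC_deg hP hu)

/-- the lower part -/
noncomputable def TriC_low {s m : ℕ} {K : Type} [Field K] (d : ℕ)
    (P : MvPolynomial (Fin (m + 1)) (MvPolynomial (Fin s) K)) :
    MvPolynomial (Fin (m + 1)) (MvPolynomial (Fin s) K) :=
  P - homogeneousComponent d P

theorem TriC_low_deg {s m : ℕ} {K : Type} [Field K] (d : ℕ)
    (P : MvPolynomial (Fin (m + 1)) (MvPolynomial (Fin s) K)) (hP : P.totalDegree ≤ d) :
    (TriC_low d P).totalDegree ≤ d - 1 := by
  show ((TriC_low d P).support.sup fun s => s.sum fun _ e => e) ≤ d - 1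
  apply Finset.sup_le
  intro u hu
  rw [mem_support_iff, TriC_low, coeff_sub, coeff_homogeneousComponent] at hu
  have h1 : u.degree ≠ d := by
    intro h
    apply hu
    rw [if_pos h, sub_self]
  rw [if_neg h1, sub_zero] at hu
  have h2 := (le_totalDegree (mem_support_iff.2 hu)).trans hP
  have h3 : (u.sum fun _ e => e) = u.degree := by
    rw [Finsupp.degree_apply]
    rfl
  rw [h3] at h2 ⊢
  omega

theorem TriC_arith {a b c Q : ℝ} {d d' t : ℕ} (ha : 1 ≤ a) (hb : 1 ≤ b) (hc : 1 ≤ c)
    (hQ : 1 ≤ Q) (hd : 2 ≤ d) (hd' : 2 ≤ d') (ht : d ≤ t) (ht' : d' ≤ t)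
    (h1 : a ≤ Q * c ^ d) (h2 : a ≤ Q * b ^ d')
    (h3 : a ^ t ≤ Q * max (a ^ (t - d) * b) (max (a ^ (t - d') * c) (a ^ (t - 1)))) :
    a ^ (d * d' + 1) ≤ Q ^ (d * d' + 1) * b ^ d' * c ^ d := by
  have ha0 : 0 < a := by linarith
  have hQ0 : 0 < Q := by linarith
  have hb0 : 0 < b := by linarith
  have hc0 : 0 < c := by linarith
  have hbp : 1 ≤ b ^ d' := one_le_pow₀ hb
  have hcp : 1 ≤ c ^ d := one_le_pow₀ hc
  rcases le_total (a ^ (t - d) * b) (max (a ^ (t - d') * c) (a ^ (t - 1))) with h4 | h4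
  · rw [max_eq_right h4] at h3
    rcases le_total (a ^ (t - d') * c) (a ^ (t - 1)) with h5 | h5
    · rw [max_eq_right h5] at h3
      have h6 : a ≤ Q := by
        have h7 : a ^ t = a ^ (t - 1) * a := by
          rw [← pow_succ]; congr 1; omega
        rw [h7] at h3
        have h8 : a ^ (t - 1) * a ≤ a ^ (t - 1) * Q := by linarith
        exact le_of_mul_le_mul_left h8 (by positivity)
      calc a ^ (d * d' + 1) ≤ Q ^ (d * d' + 1) := pow_le_pow_left₀ ha0.le h6 _
        _ = Q ^ (d * d' + 1) * 1 * 1 := by ring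
        _ ≤ Q ^ (d * d' + 1) * b ^ d' * c ^ d := by gcongr
    · rw [max_eq_left h5] at h3
      have h6 : a ^ d' ≤ Q * c := by
        have h7 : a ^ t = a ^ (t - d') * a ^ d' := by
          rw [← pow_add]; congr 1; omega
        rw [h7] at h3
        have h8 : a ^ (t - d') * a ^ d' ≤ a ^ (t - d') * (Q * c) := by linarith
        exact le_of_mul_le_mul_left h8 (by positivity)
      have h9 : a ^ (d * d' + 1) = (a ^ d') ^ d * a := by
        rw [← pow_mul, ← pow_succ, mul_comm d' d]
      rw [h9]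
      calc (a ^ d') ^ d * a ≤ (Q * c) ^ d * (Q * b ^ d') := by gcongr
        _ = Q ^ (d + 1) * (b ^ d' * c ^ d) := by rw [mul_pow, pow_succ]; ring
        _ ≤ Q ^ (d * d' + 1) * (b ^ d' * c ^ d) := by
          gcongr
          nlinarith
        _ = _ := by ring
  · rw [max_eq_left h4] at h3
    have h6 : a ^ d ≤ Q * b := by
      have h7 : a ^ t = a ^ (t - d) * a ^ d := by
        rw [← pow_add]; congr 1; omega
      rw [h7] at h3
      have h8 : a ^ (t - d) * a ^ d ≤ a ^ (t - d) * (Q * b) := by linarith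
      exact le_of_mul_le_mul_left h8 (by positivity)
    have h9 : a ^ (d * d' + 1) = (a ^ d) ^ d' * a := by
      rw [← pow_mul, ← pow_succ]
    rw [h9]
    calc (a ^ d) ^ d' * a ≤ (Q * b) ^ d' * (Q * c ^ d) := by gcongr
      _ = Q ^ (d' + 1) * (b ^ d' * c ^ d) := by rw [mul_pow, pow_succ]; ring
      _ ≤ Q ^ (d * d' + 1) * (b ^ d' * c ^ d) := by
        gcongr
        nlinarith
      _ = _ := by ring

/-- evaluation of a polynomial whose coefficients are composed with `g` -/
theorem TriC_ev_map {s m : ℕ} {K : Type} [Field K] (g : Fin s → MvPolynomial (Fin s) K)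
    (x x' : Fin s → K) (y : Fin (m + 1) → K) (hx : ∀ i, x' i = aeval x (g i))
    (P : MvPolynomial (Fin (m + 1)) (MvPolynomial (Fin s) K)) :
    ev x y (map (aeval g).toRingHom P) = ev x' y P := by
  have := ev_hom_ext ((evHom (A := K) x y).comp (map (aeval g).toRingHom)) x' y
    (by intro r; simp [evHom]) (by intro i; simp [← ev_eq, hx]) (by intro i; simp [evHom]) P
  rw [← this]
  rfl

/-- the local inequality -/
theorem TriC_loc {s m : ℕ} {K : Type} [Field K] (d d' t : ℕ)
    (g : Fin s → MvPolynomial (Fin s) K)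
    (F G : Fin (m + 1) → MvPolynomial (Fin (m + 1)) (MvPolynomial (Fin s) K))
    (r ρ : MvPolynomial (Fin s) K) (hFam : FamC g d d' F G r)
    (H : Fin (m + 1) → Fin (m + 1) ⊕ Fin (m + 1) →
      MvPolynomial (Fin (m + 1)) (MvPolynomial (Fin s) K))
    (ht : d ≤ t) (ht' : d' ≤ t) (hH : ∀ i j, (H i (Sum.inl j)).totalDegree ≤ t - d)
    (hH' : ∀ i j, (H i (Sum.inr j)).totalDegree ≤ t - d')
    (hrel : ∀ i, C ρ * X i ^ t =
      ∑ j, H i (Sum.inl j) * map (aeval g).toRingHom (homogeneousComponent d (F j)) +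
      ∑ j, H i (Sum.inr j) * homogeneousComponent d' (G j))
    (v : AbsoluteValue K ℝ) (n M : ℝ) (N0 : ℕ) (hv : TriC_V v n N0) (hn : 1 ≤ n) (hM : 1 ≤ M)
    (hN0 : 2 ≤ N0) (hNm : m + 1 ≤ N0)
    (x x' : Fin s → K) (z y y' : Fin (m + 1) → K) (hx' : ∀ i, x' i = aeval x (g i))
    (hy : ∀ i, y i = ev x z (F i)) (hy' : ∀ i, y' i = ev x' y (F i))
    (cF : ∀ j, (F j).support.card ≤ N0) (cG : ∀ j, (G j).support.card ≤ N0)
    (cH : ∀ i j, (H i j).support.card ≤ N0) (cFl : ∀ j, (TriC_low d (F j)).support.card ≤ N0)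
    (cGl : ∀ j, (TriC_low d' (G j)).support.card ≤ N0)
    (mF : ∀ j, ∀ u ∈ (F j).support, v (aeval x ((F j).coeff u)) ≤ M)
    (mG : ∀ j, ∀ u ∈ (G j).support, v (aeval x' ((G j).coeff u)) ≤ M)
    (mH : ∀ i j, ∀ u ∈ (H i j).support, v (aeval x ((H i j).coeff u)) ≤ M)
    (mFl : ∀ j, ∀ u ∈ (TriC_low d (F j)).support,
      v (aeval x' ((TriC_low d (F j)).coeff u)) ≤ M)
    (mGl : ∀ j, ∀ u ∈ (TriC_low d' (G j)).support,
      v (aeval x ((TriC_low d' (G j)).coeff u)) ≤ M)
    (mr : v (aeval x r) ≤ M) (mr' : (v (aeval x' r))⁻¹ ≤ M) (hr' : aeval x' r ≠ 0)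
    (mρ : (v (aeval x ρ))⁻¹ ≤ M) (hρ : aeval x ρ ≠ 0) (a b c : ℝ) (ha : 1 ≤ a) (hb : 1 ≤ b)
    (hc : 1 ≤ c) (hya : ∀ i, v (y i) ≤ a) (hyb : ∀ i, v (y' i) ≤ b) (hyc : ∀ i, v (z i) ≤ c)
    (hatt : a = 1 ∨ ∃ i, a = v (y i)) :
    a ^ (d * d' + 1) ≤ (n ^ 5 * M ^ 3) ^ (d * d' + 1) * b ^ d' * c ^ d := by
  have hd := hFam.hd
  have hd' := hFam.hd'
  have ha0 : 0 < a := by linarith
  have hb0 : 0 < b := by linarith
  have hc0 : 0 < c := by linarith
  have hn0 : 0 < n := by linarith
  have hM0 : 0 < M := by linarith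
  have hQ : 1 ≤ n ^ 5 * M ^ 3 := one_le_mul_of_one_le_of_one_le (one_le_pow₀ hn) (one_le_pow₀ hM)
  have hQ1 : n * M ≤ n ^ 5 * M ^ 3 := by
    calc n * M = n ^ 1 * M ^ 1 := by ring
      _ ≤ n ^ 5 * M ^ 3 := by
        gcongr
        · norm_num
        · norm_num
  have hQ2 : n * M ^ 2 ≤ n ^ 5 * M ^ 3 := by
    calc n * M ^ 2 = n ^ 1 * M ^ 2 := by ring
      _ ≤ n ^ 5 * M ^ 3 := by
        gcongr
        · norm_num
        · norm_num
  have hone : (1 : ℝ) ≤ max (a ^ (t - d) * b) (max (a ^ (t - d') * c) (a ^ (t - 1))) :=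
    (one_le_pow₀ ha).trans ((le_max_right _ _).trans (le_max_right _ _))
  -- (i)
  have h1 : a ≤ n ^ 5 * M ^ 3 * c ^ d := by
    rcases hatt with h | ⟨i, hi⟩
    · rw [h]
      exact one_le_mul_of_one_le_of_one_le hQ (one_le_pow₀ hc)
    · rw [hi, hy i]
      refine (TriC_ev v n M c N0 hv hM hc x z hyc (F i) d (hFam.degF i) (cF i) (mF i)).trans ?_
      rw [← mul_assoc]
      gcongr
  -- (ii)
  have hry : ∀ i, aeval x' r * y i = ev x' y' (G i) := by
    intro i
    have h := congrArg (ev x' y) (hFam.inv i)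
    have h2 : y' = fun i => ev x' y (F i) := funext hy'
    have h3 : comp X F (G i) = ev (fun i => C (X i)) F (G i) := rfl
    rw [h3, ev_ev, ← h2, ev_mul, ev_C, ev_X] at h
    simp only [aeval_X] at h
    exact h.symm
  have hvr' : 0 < v (aeval x' r) := v.pos hr'
  have h2 : a ≤ n ^ 5 * M ^ 3 * b ^ d' := by
    rcases hatt with h | ⟨i, hi⟩
    · rw [h]
      exact one_le_mul_of_one_le_of_one_le hQ (one_le_pow₀ hb)
    · have h4 := TriC_ev v n M b N0 hv hM hb x' y' hyb (G i) d' (hFam.degG i) (cG i) (mG i)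
      rw [← hry i, map_mul, ← hi] at h4
      have h5 : a = (v (aeval x' r))⁻¹ * (v (aeval x' r) * a) := by
        rw [← mul_assoc, inv_mul_cancel₀ hvr'.ne', one_mul]
      rw [h5]
      calc (v (aeval x' r))⁻¹ * (v (aeval x' r) * a) ≤ M * (n * (M * b ^ d')) := by gcongr
        _ = n * M ^ 2 * b ^ d' := by ring
        _ ≤ _ := by gcongr
  -- (iii)
  have hvρ : 0 < v (aeval x ρ) := v.pos hρ
  have two : ∀ (p q : K) (B : ℝ), 0 ≤ B → v p ≤ B → v q ≤ B → v (p - q) ≤ n * B := by
    intro p q B hB hp hq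
    have h := hv Bool Finset.univ (fun i => cond i p (-q)) B (by simpa using hN0) hB (by
      intro i _
      cases i
      · simpa using hq
      · simpa using hp)
    rw [Fintype.sum_bool] at h
    simpa [sub_eq_add_neg] using h
  have h3 : a ^ t ≤ n ^ 5 * M ^ 3 *
      max (a ^ (t - d) * b) (max (a ^ (t - d') * c) (a ^ (t - 1))) := by
    rcases hatt with h | ⟨i, hi⟩
    · have : a ^ t = 1 := by rw [h, one_pow]
      rw [this]
      exact one_le_mul_of_one_le_of_one_le hQ hone
    · set Mx := max (a ^ (t - d) * b) (max (a ^ (t - d') * c) (a ^ (t - 1))) with hMx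
      have hMx0 : 0 < Mx := by linarith
      have h4 := congrArg (ev x y) (hrel i)
      rw [ev_mul, ev_C, ev_pow, ev_X, ev_add, ev_sum, ev_sum] at h4
      simp only [ev_mul] at h4
      have hFp : ∀ j, ev x y (map (aeval g).toRingHom (homogeneousComponent d (F j))) =
          y' j - ev x' y (TriC_low d (F j)) := by
        intro j
        rw [TriC_ev_map g x x' y hx', TriC_low, ev_sub, hy' j]
        ring
      have hrz : ∀ j, ev x y (G j) = aeval x r * z j := by
        intro j
        have h := congrArg (ev x z) (hFam.inv j)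
        have h2 : y = fun i => ev x z (F i) := funext hy
        have h3 : comp X F (G j) = ev (fun i => C (X i)) F (G j) := rfl
        rw [h3, ev_ev, ← h2, ev_mul, ev_C, ev_X] at h
        simp only [aeval_X] at h
        exact h
      have hGp : ∀ j, ev x y (homogeneousComponent d' (G j)) =
          aeval x r * z j - ev x y (TriC_low d' (G j)) := by
        intro j
        rw [TriC_low, ev_sub, hrz j]
        ring
      simp only [hFp, hGp] at h4
      have ea : a ^ (t - d) * a ^ (d - 1) = a ^ (t - 1) := by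
        rw [← pow_add]; congr 1; omega
      have ea' : a ^ (t - d') * a ^ (d' - 1) = a ^ (t - 1) := by
        rw [← pow_add]; congr 1; omega
      have b1 : ∀ j, v (ev x y (H i (Sum.inl j)) * (y' j - ev x' y (TriC_low d (F j)))) ≤
          n ^ 3 * M ^ 2 * Mx := by
        intro j
        rw [map_mul]
        have e1 := TriC_ev v n M a N0 hv hM ha x y hya (H i (Sum.inl j)) (t - d) (hH i j)
          (cH i _) (mH i _)
        have e2 := TriC_ev v n M a N0 hv hM ha x' y hya (TriC_low d (F j)) (d - 1)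
          (TriC_low_deg d (F j) (hFam.degF j)) (cFl j) (mFl j)
        have e3 := two (y' j) (ev x' y (TriC_low d (F j))) (n * (M * max b (a ^ (d - 1))))
          (by positivity)
          (by
            calc v (y' j) ≤ b := hyb j
              _ ≤ max b (a ^ (d - 1)) := le_max_left _ _
              _ = 1 * (1 * max b (a ^ (d - 1))) := by ring
              _ ≤ n * (M * max b (a ^ (d - 1))) := by gcongr)
          (e2.trans (by gcongr; exact le_max_right _ _))
        calc v (ev x y (H i (Sum.inl j))) * v (y' j - ev x' y (TriC_low d (F j))) ≤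
            (n * (M * a ^ (t - d))) * (n * (n * (M * max b (a ^ (d - 1))))) :=
              mul_le_mul e1 e3 (v.nonneg _) (by positivity)
          _ = n ^ 3 * M ^ 2 * (a ^ (t - d) * max b (a ^ (d - 1))) := by ring
          _ = n ^ 3 * M ^ 2 * max (a ^ (t - d) * b) (a ^ (t - 1)) := by
            rw [mul_max_of_nonneg _ _ (by positivity : (0 : ℝ) ≤ a ^ (t - d)), ea]
          _ ≤ n ^ 3 * M ^ 2 * Mx := by
            gcongr
            exact max_le (le_max_left _ _) ((le_max_right _ _).trans (le_max_right _ _))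
      have b2 : ∀ j, v (ev x y (H i (Sum.inr j)) *
          (aeval x r * z j - ev x y (TriC_low d' (G j)))) ≤ n ^ 3 * M ^ 2 * Mx := by
        intro j
        rw [map_mul]
        have e1 := TriC_ev v n M a N0 hv hM ha x y hya (H i (Sum.inr j)) (t - d') (hH' i j)
          (cH i _) (mH i _)
        have e2 := TriC_ev v n M a N0 hv hM ha x y hya (TriC_low d' (G j)) (d' - 1)
          (TriC_low_deg d' (G j) (hFam.degG j)) (cGl j) (mGl j)
        have e3 := two (aeval x r * z j) (ev x y (TriC_low d' (G j)))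
          (n * (M * max c (a ^ (d' - 1)))) (by positivity)
          (by
            rw [map_mul]
            calc v (aeval x r) * v (z j) ≤ M * c := by gcongr; exact hyc j
              _ ≤ M * max c (a ^ (d' - 1)) := by gcongr; exact le_max_left _ _
              _ = 1 * (M * max c (a ^ (d' - 1))) := by ring
              _ ≤ n * (M * max c (a ^ (d' - 1))) := by gcongr)
          (e2.trans (by gcongr; exact le_max_right _ _))
        calc v (ev x y (H i (Sum.inr j))) * v (aeval x r * z j - ev x y (TriC_low d' (G j))) ≤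
            (n * (M * a ^ (t - d'))) * (n * (n * (M * max c (a ^ (d' - 1))))) :=
              mul_le_mul e1 e3 (v.nonneg _) (by positivity)
          _ = n ^ 3 * M ^ 2 * (a ^ (t - d') * max c (a ^ (d' - 1))) := by ring
          _ = n ^ 3 * M ^ 2 * max (a ^ (t - d') * c) (a ^ (t - 1)) := by
            rw [mul_max_of_nonneg _ _ (by positivity : (0 : ℝ) ≤ a ^ (t - d')), ea']
          _ ≤ n ^ 3 * M ^ 2 * Mx := by
            gcongr
            exact le_max_right _ _
      have c1 := hv _ Finset.univ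
        (fun j => ev x y (H i (Sum.inl j)) * (y' j - ev x' y (TriC_low d (F j))))
        (n ^ 3 * M ^ 2 * Mx) (by simpa using hNm) (by positivity) (fun j _ => b1 j)
      have c2 := hv _ Finset.univ
        (fun j => ev x y (H i (Sum.inr j)) * (aeval x r * z j - ev x y (TriC_low d' (G j))))
        (n ^ 3 * M ^ 2 * Mx) (by simpa using hNm) (by positivity) (fun j _ => b2 j)
      have c3 := two _ (-(∑ j, ev x y (H i (Sum.inr j)) *
          (aeval x r * z j - ev x y (TriC_low d' (G j))))) (n * (n ^ 3 * M ^ 2 * Mx))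
        (by positivity) c1 (by rw [v.map_neg]; exact c2)
      rw [sub_neg_eq_add, ← h4, map_mul, map_pow, ← hi] at c3
      have h5 : a ^ t = (v (aeval x ρ))⁻¹ * (v (aeval x ρ) * a ^ t) := by
        rw [← mul_assoc, inv_mul_cancel₀ hvρ.ne', one_mul]
      rw [h5]
      calc (v (aeval x ρ))⁻¹ * (v (aeval x ρ) * a ^ t) ≤ M * (n * (n * (n ^ 3 * M ^ 2 * Mx))) := by
            gcongr
        _ = n ^ 5 * M ^ 3 * Mx := by ring
  exact TriC_arith ha hb hc hQ hd hd' ht ht' h1 h2 h3

theorem TriC_prod {τ : Type} [Fintype τ] (f : τ → ℝ) (hf : ∀ k, 1 ≤ f k) :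
    1 ≤ ∏ k, f k ∧ ∀ k, f k ≤ ∏ k, f k := by
  classical
  have h1 : ∀ T : Finset τ, 1 ≤ ∏ k ∈ T, f k := by
    intro T
    induction T using Finset.induction_on with
    | empty => simp
    | insert a T ha ih =>
      rw [Finset.prod_insert ha]
      exact one_le_mul_of_one_le_of_one_le (hf a) ih
  refine ⟨h1 _, fun k => ?_⟩
  rw [← Finset.mul_prod_erase Finset.univ f (Finset.mem_univ k)]
  exact le_mul_of_one_le_right (zero_le_one.trans (hf k)) (h1 _)

theorem TriC_sup {m : ℕ} {K : Type} [Field K] (v : AbsoluteValue K ℝ) (y : Fin (m + 1) → K) :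
    1 ≤ (⨆ i, v ((Fin.snoc y 1 : Fin (m + 2) → K) i)) ∧
    (∀ i, v (y i) ≤ ⨆ i, v ((Fin.snoc y 1 : Fin (m + 2) → K) i)) ∧
    ((⨆ i, v ((Fin.snoc y 1 : Fin (m + 2) → K) i)) = 1 ∨
      ∃ i, (⨆ i, v ((Fin.snoc y 1 : Fin (m + 2) → K) i)) = v (y i)) := by
  have hb : BddAbove (Set.range fun i => v ((Fin.snoc y 1 : Fin (m + 2) → K) i)) :=
    (Set.finite_range _).bddAbove
  refine ⟨?_, fun i => ?_, ?_⟩
  · have := le_ciSup hb (Fin.last (m + 1))
    simpa using this
  · have := le_ciSup hb i.castSucc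
    simpa using this
  · obtain ⟨j, hj⟩ := exists_eq_ciSup_of_finite
      (f := fun i => v ((Fin.snoc y 1 : Fin (m + 2) → K) i))
    rw [← hj]
    refine Fin.lastCases ?_ (fun i => ?_) j
    · left; simp
    · right; exact ⟨i, by simp⟩

theorem TriC_ne {m : ℕ} {K : Type} [Field K] (y : Fin (m + 1) → K) :
    (Fin.snoc y 1 : Fin (m + 2) → K) ≠ 0 := by
  intro h
  have := congrFun h (Fin.last (m + 1))
  simp at this

theorem pr_TriC (h1 : S_NulG) (h2 : S_LocG) (h3 : Pool.Agent.Work.MP_91e6de_nt.DM.S_PoH) :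
    S_TriC := by
  classical
  intro s m K _ _ d d' g F G r hFam
  have hd := hFam.hd
  have hd' := hFam.hd'
  obtain ⟨t, ρ0, H, hρ0, hdeg, hH, hrel⟩ := h1 s m (Fin (m + 1) ⊕ Fin (m + 1)) K
    (Sum.elim (fun _ => d) (fun _ => d'))
    (Sum.elim (fun j => map (aeval g).toRingHom (homogeneousComponent d (F j)))
      (fun j => homogeneousComponent d' (G j)))
    (by
      rintro (j | j)
      · exact (homogeneousComponent_isHomogeneous _ _).map _
      · exact homogeneousComponent_isHomogeneous _ _)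
    (by
      intro y hy
      exact hFam.reg y (fun i => hy (Sum.inl i)) (fun i => hy (Sum.inr i)))
  let Ps : Finset (MvPolynomial (Fin (m + 1)) (MvPolynomial (Fin s) K)) :=
    Finset.univ.image F ∪ (Finset.univ.image G ∪
      (Finset.univ.image (fun q : Fin (m + 1) × (Fin (m + 1) ⊕ Fin (m + 1)) => H q.1 q.2) ∪
      (Finset.univ.image (fun j => TriC_low d (F j)) ∪
        Finset.univ.image (fun j => TriC_low d' (G j)))))
  let Φ : Finset (MvPolynomial (Fin s) K) :=
    insert r (insert (aeval g r) (insert ρ0 (Ps.biUnion fun P =>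
      P.support.image (fun u => P.coeff u) ∪
        P.support.image (fun u => aeval g (P.coeff u)))))
  let N0 : ℕ := 2 + (m + 1) + ∑ P ∈ Ps, P.support.card
  have hPs : ∀ P ∈ Ps, P.support.card ≤ N0 := by
    intro P hP
    have := Finset.single_le_sum (f := fun P => P.support.card) (fun _ _ => Nat.zero_le _) hP
    show _ ≤ 2 + (m + 1) + ∑ P ∈ Ps, P.support.card
    omega
  have hPF : ∀ j, F j ∈ Ps := fun j =>
    Finset.mem_union_left _ (Finset.mem_image_of_mem _ (Finset.mem_univ j))
  have hPG : ∀ j, G j ∈ Ps := fun j => Finset.mem_union_right _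
    (Finset.mem_union_left _ (Finset.mem_image_of_mem _ (Finset.mem_univ j)))
  have hPH : ∀ i j, H i j ∈ Ps := fun i j => Finset.mem_union_right _
    (Finset.mem_union_right _ (Finset.mem_union_left _
      (Finset.mem_image.2 ⟨(i, j), Finset.mem_univ _, rfl⟩)))
  have hPFl : ∀ j, TriC_low d (F j) ∈ Ps := fun j => Finset.mem_union_right _
    (Finset.mem_union_right _ (Finset.mem_union_right _ (Finset.mem_union_left _
      (Finset.mem_image.2 ⟨j, Finset.mem_univ _, rfl⟩))))
  have hPGl : ∀ j, TriC_low d' (G j) ∈ Ps := fun j => Finset.mem_union_right _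
    (Finset.mem_union_right _ (Finset.mem_union_right _ (Finset.mem_union_right _
      (Finset.mem_image.2 ⟨j, Finset.mem_univ _, rfl⟩))))
  have hΦ1 : ∀ P ∈ Ps, ∀ u ∈ P.support, P.coeff u ∈ Φ := fun P hP u hu =>
    Finset.mem_insert_of_mem (Finset.mem_insert_of_mem (Finset.mem_insert_of_mem
      (Finset.mem_biUnion.2 ⟨P, hP, Finset.mem_union_left _ (Finset.mem_image.2 ⟨u, hu, rfl⟩)⟩)))
  have hΦ2 : ∀ P ∈ Ps, ∀ u ∈ P.support, aeval g (P.coeff u) ∈ Φ := fun P hP u hu =>
    Finset.mem_insert_of_mem (Finset.mem_insert_of_mem (Finset.mem_insert_of_mem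
      (Finset.mem_biUnion.2 ⟨P, hP, Finset.mem_union_right _ (Finset.mem_image.2 ⟨u, hu, rfl⟩)⟩)))
  have hΦr : r ∈ Φ := Finset.mem_insert_self _ _
  have hΦr' : aeval g r ∈ Φ := Finset.mem_insert_of_mem (Finset.mem_insert_self _ _)
  have hΦρ : ρ0 ∈ Φ :=
    Finset.mem_insert_of_mem (Finset.mem_insert_of_mem (Finset.mem_insert_self _ _))
  choose Cc hCc0 hCc using fun c : Φ => h3 K (Fin s) (c : MvPolynomial (Fin s) K)
  have hCs : 0 ≤ ∑ c, Cc c := Finset.sum_nonneg fun c _ => hCc0 c
  have hN01 : 1 ≤ N0 := by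
    show 1 ≤ 2 + (m + 1) + ∑ P ∈ Ps, P.support.card
    omega
  have hN02 : 2 ≤ N0 := by
    show 2 ≤ 2 + (m + 1) + ∑ P ∈ Ps, P.support.card
    omega
  have hN03 : m + 1 ≤ N0 := by
    show m + 1 ≤ 2 + (m + 1) + ∑ P ∈ Ps, P.support.card
    omega
  have hlog : 0 ≤ (Module.finrank ℚ K : ℝ) * Real.log ((N0 ^ (5 * (d * d' + 1)) : ℕ) : ℝ) :=
    mul_nonneg (Nat.cast_nonneg _) (Real.log_natCast_nonneg _)
  have hagr : aeval g r ≠ 0 := by
    intro h
    exact hFam.hr (hFam.inj (by rw [h, map_zero]))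
  refine ⟨ρ0 * aeval g r, Module.finrank ℚ K * Real.log ((N0 ^ (5 * (d * d' + 1)) : ℕ) : ℝ) +
    ((3 * (d * d' + 1) : ℕ) : ℝ) * (2 * ∑ c, Cc c), mul_ne_zero hρ0 hagr, by positivity, ?_⟩
  intro x x' z y y' hx hx' hy hy'
  rw [map_mul] at hx
  have hρx : aeval x ρ0 ≠ 0 := left_ne_zero_of_mul hx
  have hcomp : ∀ c : MvPolynomial (Fin s) K, aeval x (aeval g c) = aeval x' c := by
    intro c
    have h : x' = fun i => aeval x (g i) := funext hx'
    rw [h]
    exact MvPolynomial.comp_aeval_apply g (aeval x) c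
  have hrx : aeval x' r ≠ 0 := by
    rw [← hcomp]
    exact right_ne_zero_of_mul hx
  let u : Φ ⊕ Φ → K := Sum.elim (fun c => aeval x (c : MvPolynomial (Fin s) K))
    (fun c => (aeval x (c : MvPolynomial (Fin s) K))⁻¹)
  have hu1 : ∀ (v : AbsoluteValue K ℝ) (c : MvPolynomial (Fin s) K), c ∈ Φ →
      v (aeval x c) ≤ ∏ k, max 1 (v (u k)) := by
    intro v c hc
    refine le_trans ?_ ((TriC_prod (fun k => max 1 (v (u k))) (fun k => le_max_left _ _)).2
      (Sum.inl ⟨c, hc⟩))
    exact le_max_right _ _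
  have hu2 : ∀ (v : AbsoluteValue K ℝ) (c : MvPolynomial (Fin s) K), c ∈ Φ →
      (v (aeval x c))⁻¹ ≤ ∏ k, max 1 (v (u k)) := by
    intro v c hc
    refine le_trans ?_ ((TriC_prod (fun k => max 1 (v (u k))) (fun k => le_max_left _ _)).2
      (Sum.inr ⟨c, hc⟩))
    have : v (u (Sum.inr ⟨c, hc⟩)) = (v (aeval x c))⁻¹ := map_inv₀ v _
    rw [this]
    exact le_max_right _ _
  have hrel' : ∀ i, C ρ0 * X i ^ t =
      ∑ j, H i (Sum.inl j) * map (aeval g).toRingHom (homogeneousComponent d (F j)) +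
      ∑ j, H i (Sum.inr j) * homogeneousComponent d' (G j) := by
    intro i
    rw [hrel i, Fintype.sum_sum_type]
    rfl
  have key : ∀ (v : AbsoluteValue K ℝ) (n : ℝ), 1 ≤ n → TriC_V v n N0 →
      (⨆ i, v ((Fin.snoc y 1 : Fin (m + 2) → K) i)) ^ (d * d' + 1) ≤
        (n ^ 5 * (∏ k, max 1 (v (u k))) ^ 3) ^ (d * d' + 1) *
          (⨆ i, v ((Fin.snoc y' 1 : Fin (m + 2) → K) i)) ^ d' *
          (⨆ i, v ((Fin.snoc z 1 : Fin (m + 2) → K) i)) ^ d := by
    intro v n hn hv
    obtain ⟨a1, a2, a3⟩ := TriC_sup v y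
    obtain ⟨b1, b2, -⟩ := TriC_sup v y'
    obtain ⟨c1, c2, -⟩ := TriC_sup v z
    refine TriC_loc d d' t g F G r ρ0 hFam H (hdeg (Sum.inl 0)) (hdeg (Sum.inr 0))
      (fun i j => (hH i (Sum.inl j)).totalDegree_le) (fun i j => (hH i (Sum.inr j)).totalDegree_le)
      hrel' v n _ N0 hv hn (TriC_prod (fun k => max 1 (v (u k))) (fun k => le_max_left _ _)).1
      hN02 hN03 x x' z y y' hx' hy hy' (fun j => hPs _ (hPF j)) (fun j => hPs _ (hPG j))
      (fun i j => hPs _ (hPH i j)) (fun j => hPs _ (hPFl j)) (fun j => hPs _ (hPGl j))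
      (fun j w hw => hu1 v _ (hΦ1 _ (hPF j) w hw)) ?_
      (fun i j w hw => hu1 v _ (hΦ1 _ (hPH i j) w hw)) ?_
      (fun j w hw => hu1 v _ (hΦ1 _ (hPGl j) w hw)) (hu1 v _ hΦr) ?_ hrx (hu2 v _ hΦρ) hρx
      _ _ _ a1 b1 c1 a2 b2 c2 a3
    · intro j w hw
      rw [← hcomp]
      exact hu1 v _ (hΦ2 _ (hPG j) w hw)
    · intro j w hw
      rw [← hcomp]
      exact hu1 v _ (hΦ2 _ (hPFl j) w hw)
    · rw [← hcomp]
      exact hu2 v _ hΦr'
  have hfinal := h2 K (Fin (m + 2)) (Fin (m + 2)) (Fin (m + 2)) (Φ ⊕ Φ) (Fin.snoc y 1)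
    (Fin.snoc y' 1) (Fin.snoc z 1) u (N0 ^ (5 * (d * d' + 1))) (d * d' + 1) d' d
    (3 * (d * d' + 1)) (TriC_ne y) (TriC_ne y') (TriC_ne z) (Nat.one_le_pow _ _ hN01)
    (by
      intro v
      have h := key v.1 N0 (by exact_mod_cast hN01) (TriC_inf v.1 N0)
      refine h.trans (le_of_eq ?_)
      rw [mul_pow, ← pow_mul, ← pow_mul]
      push_cast
      rfl)
    (by
      intro v
      have h := key v.1 1 le_rfl (TriC_fin v N0)
      refine h.trans (le_of_eq ?_)
      rw [one_pow, one_mul, ← pow_mul]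
      rfl)
  have hsum : ∑ k, logHeight₁ (u k) ≤ (2 * ∑ c, Cc c) * (1 + ∑ i, logHeight₁ (x i)) := by
    rw [Fintype.sum_sum_type]
    have e1 : ∀ c : Φ, logHeight₁ (u (Sum.inr c)) =
        logHeight₁ (aeval x (c : MvPolynomial (Fin s) K)) := fun c => logHeight₁_inv _
    have e2 : ∑ c : Φ, logHeight₁ (u (Sum.inl c)) ≤ (∑ c, Cc c) * (1 + ∑ i, logHeight₁ (x i)) := by
      rw [Finset.sum_mul]
      exact Finset.sum_le_sum fun c _ => hCc c x
    have e3 : ∑ c : Φ, logHeight₁ (u (Sum.inr c)) ≤ (∑ c, Cc c) * (1 + ∑ i, logHeight₁ (x i)) := by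
      rw [Finset.sum_mul]
      refine Finset.sum_le_sum fun c _ => ?_
      rw [e1]
      exact hCc c x
    linarith
  have hS : 0 ≤ ∑ i, logHeight₁ (x i) := Finset.sum_nonneg fun i _ => zero_le_logHeight₁ _
  have hE : ((3 * (d * d' + 1) : ℕ) : ℝ) * ∑ k, logHeight₁ (u k) ≤
      ((3 * (d * d' + 1) : ℕ) : ℝ) * ((2 * ∑ c, Cc c) * (1 + ∑ i, logHeight₁ (x i))) :=
    mul_le_mul_of_nonneg_left hsum (Nat.cast_nonneg _)
  have hL : (Module.finrank ℚ K : ℝ) * Real.log ((N0 ^ (5 * (d * d' + 1)) : ℕ) : ℝ) ≤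
      (Module.finrank ℚ K : ℝ) * Real.log ((N0 ^ (5 * (d * d' + 1)) : ℕ) : ℝ) *
        (1 + ∑ i, logHeight₁ (x i)) := le_mul_of_one_le_right hlog (by linarith)
  have hcast : (((d * d' + 1 : ℕ) : ℝ)) = (d * d' + 1 : ℝ) := by push_cast; ring
  rw [hcast] at hfinal
  refine hfinal.trans ?_
  rw [add_mul]
  linarith

end Pool.Agent.Work.MP_91e6de_nt.DMR

end

section

set_option autoImplicit false

/-!
# Final statements (MP_91e6de) over `Polynomial K`
-/

namespace Pool.Agent.Work.MP_91e6de_nt.DMR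

open MvPolynomial NumberField Filter Topology
open Pool.Agent.Work.MP_91e6de_nt

/-- Theorem B*, final form -/
def S_XB : Prop := ∀ (m : ℕ) (K : Type) [Field K] [NumberField K] (d : ℕ) (b : K)
  (F : Fin (m + 1) → MvPolynomial (Fin (m + 1)) (Polynomial K)), 1 ≤ m → 2 ≤ d → b ≠ 0 →
  (∀ i, (F i).IsHomogeneous d) → KS.NoCommonZero F →
    Tendsto (fun n : ℕ => (KS.degIter b F n : ℝ) ^ ((1 : ℝ) / n)) atTop (𝓝 d) ∧
    ∀ (x : ℕ → K) (y : ℕ → Fin (m + 1) → K), KS.IsOrbit b F x y →
      (KS.DenseSeq x y →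
        Tendsto (fun n : ℕ => KS.height (x n) (y n) ^ ((1 : ℝ) / n)) atTop (𝓝 d)) ∧
      (Tendsto (fun n : ℕ => KS.height (x n) (y n) ^ ((1 : ℝ) / n)) atTop (𝓝 d) ∨
        Tendsto (fun n : ℕ => KS.height (x n) (y n) ^ ((1 : ℝ) / n)) atTop (𝓝 1) ∧
        (∃ C : ℝ, ∀ n : ℕ, KS.height (x n) (y n) ≤ C * Real.log (n + 2)) ∧
        KS.InCurve x y)

/-- Theorem C, final form -/
def S_XC : Prop := ∀ (m : ℕ) (K : Type) [Field K] [NumberField K] (d d' : ℕ) (b : K)
  (F G : Fin (m + 1) → MvPolynomial (Fin (m + 1)) (Polynomial K)) (r : Polynomial K), b ≠ 0 →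
  KS.RegularFamily b d d' F G r →
    Tendsto (fun n : ℕ => (KS.degIterA b F n : ℝ) ^ ((1 : ℝ) / n)) atTop (𝓝 d) ∧
    ∀ (x : ℕ → K) (y : ℕ → Fin (m + 1) → K), (∀ n, x (n + 1) = x n + b) →
      (∀ n i, y (n + 1) i = KS.val (x n) (y n) (F i)) →
      (∀ H : MvPolynomial (Fin (m + 1)) (Polynomial K), (∀ n, KS.val (x n) (y n) H = 0) →
        H = 0) →
        Tendsto (fun n : ℕ => KS.heightA (x n) (y n) ^ ((1 : ℝ) / n)) atTop (𝓝 d)

end Pool.Agent.Work.MP_91e6de_nt.DMR

end

section

set_option autoImplicit false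

/-!
# Theorem B*, final form (MP_91e6de, DMR, item XB): transfer between `MvPolynomial (Fin 1) K` and
`Polynomial K`
-/

namespace Pool.Agent.Work.MP_91e6de_nt.DMR

open MvPolynomial NumberField Height Filter Topology
open Pool.Agent.Work.MP_91e6de_nt

section

variable {K : Type} [Field K]

/-- from `MvPolynomial (Fin 1) K` to `Polynomial K` -/
noncomputable def XB_phi (K : Type) [Field K] : MvPolynomial (Fin 1) K →ₐ[K] Polynomial K :=
  aeval fun _ => Polynomial.X

/-- from `Polynomial K` to `MvPolynomial (Fin 1) K` -/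
noncomputable def XB_psi (K : Type) [Field K] : Polynomial K →ₐ[K] MvPolynomial (Fin 1) K :=
  Polynomial.aeval (X 0)

theorem XB_phi_psi (a : Polynomial K) : XB_phi K (XB_psi K a) = a := by
  have h : (XB_phi K).comp (XB_psi K) = AlgHom.id K _ := by
    apply Polynomial.algHom_ext
    simp [XB_phi, XB_psi]
  exact DFunLike.congr_fun h a

theorem XB_psi_phi (a : MvPolynomial (Fin 1) K) : XB_psi K (XB_phi K a) = a := by
  have h : (XB_psi K).comp (XB_phi K) = AlgHom.id K _ := by
    apply MvPolynomial.algHom_ext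
    intro i
    rw [Subsingleton.elim i 0]
    simp [XB_phi, XB_psi]
  exact DFunLike.congr_fun h a

theorem XB_psi_C (c : K) : XB_psi K (Polynomial.C c) = C c := by
  simp [XB_psi, MvPolynomial.algebraMap_eq]

theorem XB_psi_X : XB_psi K Polynomial.X = X 0 := by
  simp [XB_psi]

theorem XB_phi_inj : Function.Injective (XB_phi K) :=
  Function.LeftInverse.injective XB_psi_phi

theorem XB_psi_inj : Function.Injective (XB_psi K) :=
  Function.LeftInverse.injective XB_phi_psi

variable {σ : Type}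

/-- on polynomials in `y` -/
noncomputable def XB_up : MvPolynomial σ (Polynomial K) →+* MvPolynomial σ (MvPolynomial (Fin 1) K) :=
  map (XB_psi K : Polynomial K →+* MvPolynomial (Fin 1) K)

/-- on polynomials in `y` -/
noncomputable def XB_dn : MvPolynomial σ (MvPolynomial (Fin 1) K) →+* MvPolynomial σ (Polynomial K) :=
  map (XB_phi K : MvPolynomial (Fin 1) K →+* Polynomial K)

theorem XB_dn_up (G : MvPolynomial σ (Polynomial K)) : XB_dn (XB_up G) = G := by
  unfold XB_dn XB_up
  rw [MvPolynomial.map_map]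
  have : (XB_phi K : MvPolynomial (Fin 1) K →+* Polynomial K).comp
      (XB_psi K : Polynomial K →+* MvPolynomial (Fin 1) K) = RingHom.id _ := by
    exact RingHom.ext XB_phi_psi
  rw [this, MvPolynomial.map_id]

theorem XB_up_dn (G : MvPolynomial σ (MvPolynomial (Fin 1) K)) : XB_up (XB_dn G) = G := by
  unfold XB_dn XB_up
  rw [MvPolynomial.map_map]
  have : (XB_psi K : Polynomial K →+* MvPolynomial (Fin 1) K).comp
      (XB_phi K : MvPolynomial (Fin 1) K →+* Polynomial K) = RingHom.id _ := by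
    exact RingHom.ext XB_psi_phi
  rw [this, MvPolynomial.map_id]

theorem XB_up_inj : Function.Injective
    (XB_up : MvPolynomial σ (Polynomial K) →+* MvPolynomial σ (MvPolynomial (Fin 1) K)) :=
  Function.LeftInverse.injective XB_dn_up

theorem XB_dn_inj : Function.Injective
    (XB_dn : MvPolynomial σ (MvPolynomial (Fin 1) K) →+* MvPolynomial σ (Polynomial K)) :=
  Function.LeftInverse.injective XB_up_dn

theorem XB_up_hom {G : MvPolynomial σ (Polynomial K)} {d : ℕ} (h : G.IsHomogeneous d) :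
    (XB_up G).IsHomogeneous d := h.map _

theorem XB_dn_hom {G : MvPolynomial σ (MvPolynomial (Fin 1) K)} {d : ℕ} (h : G.IsHomogeneous d) :
    (XB_dn G).IsHomogeneous d := h.map _

theorem XB_phi_deg (a : MvPolynomial (Fin 1) K) : (XB_phi K a).natDegree ≤ a.totalDegree := by
  unfold XB_phi
  rw [aeval_def, eval₂_eq']
  apply Polynomial.natDegree_sum_le_of_forall_le
  intro u hu
  have h1 : ∑ i, u i ≤ a.totalDegree := by
    have := le_totalDegree hu
    rwa [Finsupp.sum_fintype _ _ (fun _ => rfl)] at this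
  refine Polynomial.natDegree_mul_le.trans ?_
  rw [Fin.prod_univ_one, ← Polynomial.C_eq_algebraMap, Polynomial.natDegree_C, zero_add,
    Polynomial.natDegree_X_pow]
  rwa [Fin.sum_univ_one] at h1

theorem XB_psi_deg (a : Polynomial K) : (XB_psi K a).totalDegree ≤ a.natDegree := by
  unfold XB_psi
  rw [Polynomial.aeval_eq_sum_range]
  apply totalDegree_finsetSum_le
  intro i hi
  rw [Finset.mem_range] at hi
  refine (totalDegree_smul_le _ _).trans ?_
  rw [totalDegree_X_pow]
  omega

variable {m : ℕ}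

theorem XB_ev (x : K) (y : Fin (m + 1) → K) (G : MvPolynomial (Fin (m + 1)) (Polynomial K)) :
    ev (fun _ => x) y (XB_up G) = KS.val x y G := by
  unfold ev KS.val XB_up
  rw [eval₂_map, eval_map]
  congr 1
  apply Polynomial.ringHom_ext
  · intro a
    simp [XB_psi_C]
  · simp [XB_psi_X]

theorem XB_it1 (b : K) (F : Fin (m + 1) → MvPolynomial (Fin (m + 1)) (MvPolynomial (Fin 1) K))
    (n : ℕ) : (itB (gT b) F n).1 = fun _ => X 0 + C ((n : K) * b) := by
  induction n with
  | zero =>
    funext i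
    rw [Subsingleton.elim i 0]
    simp [itB]
  | succ n ih =>
    funext i
    simp only [itB, ih, gT, map_add, aeval_X, aeval_C]
    rw [MvPolynomial.algebraMap_eq, add_assoc, ← C_add]
    congr 2
    push_cast
    ring

theorem XB_it2 (b : K) (F : Fin (m + 1) → MvPolynomial (Fin (m + 1)) (Polynomial K)) (n : ℕ) :
    (itB (gT b) (fun i => XB_up (F i)) n).2 = fun i => XB_up (KS.iter b F n i) := by
  induction n with
  | zero =>
    funext i
    simp [itB, KS.iter, XB_up]
  | succ n ih =>
    funext i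
    simp only [itB, ih, XB_it1, KS.iter]
    generalize F i = G
    rw [ev_eq]
    have : ((evHom (A := K) (fun _ : Fin 1 => (C (X 0 + C ((n : K) * b)) :
          MvPolynomial (Fin (m + 1)) (MvPolynomial (Fin 1) K)))
        (fun i => XB_up (KS.iter b F n i))).comp XB_up) =
      (XB_up.comp ((bind₁ (KS.iter b F n)).toRingHom.comp
        (map (Polynomial.compRingHom (Polynomial.X + Polynomial.C ((n : K) * b)))))) := by
      apply MvPolynomial.ringHom_ext
      · intro a
        have h2 : (((evHom (A := K) (fun _ : Fin 1 => (C (X 0 + C ((n : K) * b)) :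
              MvPolynomial (Fin (m + 1)) (MvPolynomial (Fin 1) K)))
            (fun i => XB_up (KS.iter b F n i))).comp XB_up).comp C) =
          ((XB_up.comp ((bind₁ (KS.iter b F n)).toRingHom.comp
            (map (Polynomial.compRingHom (Polynomial.X + Polynomial.C ((n : K) * b)))))).comp
              C) := by
          apply Polynomial.ringHom_ext
          · intro c
            simp only [RingHom.comp_apply, XB_up, map_C]
            rw [← ev_eq, ev_C]
            simp [XB_psi_C, MvPolynomial.algebraMap_apply]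
          · simp only [RingHom.comp_apply, XB_up, map_C]
            rw [← ev_eq, ev_C]
            simp [XB_psi_C, XB_psi_X]
        exact RingHom.congr_fun h2 a
      · intro j
        simp only [RingHom.comp_apply, XB_up, map_X]
        rw [← ev_eq, ev_X]
        simp
    exact RingHom.congr_fun this G

/-- degrees -/
theorem XB_deg (b : K) (F : Fin (m + 1) → MvPolynomial (Fin (m + 1)) (Polynomial K)) (n : ℕ) :
    dgB (gT b) (fun i => XB_up (F i)) n = KS.degIter b F n := by
  unfold dgB KS.degIter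
  congr 1
  ext t
  simp only [Set.mem_setOf_eq]
  have hch1 : (1 + m - 1).choose m = 1 := by
    rw [Nat.add_sub_cancel_left, Nat.choose_self]
  have hch2 : (1 + m - 1).choose 1 = m := by
    rw [Nat.add_sub_cancel_left, Nat.choose_one_right]
  rw [hch1, hch2, XB_it2]
  constructor
  · rintro ⟨dx, dy, G, hG, hGh, hGd, hGp, ht⟩
    refine ⟨dx, dy, fun i => XB_dn (G i), ?_, fun i => XB_dn_hom (hGh i), ?_, ?_, ?_⟩
    · intro h
      apply hG
      funext i
      have := congrFun h i
      apply XB_dn_inj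
      rw [Pi.zero_apply, map_zero]
      exact this
    · intro i u
      unfold XB_dn
      rw [coeff_map]
      exact (XB_phi_deg _).trans (hGd i u)
    · intro i j
      apply XB_up_inj
      rw [map_mul, map_mul, XB_up_dn, XB_up_dn]
      exact hGp i j
    · rw [ht]
      ring
  · rintro ⟨dx, dy, G, hG, hGh, hGd, hGp, ht⟩
    refine ⟨dx, dy, fun i => XB_up (G i), ?_, fun i => XB_up_hom (hGh i), ?_, ?_, ?_⟩
    · intro h
      apply hG
      funext i
      have := congrFun h i
      apply XB_up_inj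
      rw [Pi.zero_apply, map_zero]
      exact this
    · intro i u
      unfold XB_up
      rw [coeff_map]
      exact (XB_psi_deg _).trans (hGd i u)
    · intro i j
      rw [← map_mul, ← map_mul, hGp i j]
    · rw [ht]
      ring

/-- common zeros -/
theorem XB_NoZ (F : Fin (m + 1) → MvPolynomial (Fin (m + 1)) (Polynomial K))
    (hF : KS.NoCommonZero F) : NoZ (fun i => XB_up (F i)) := by
  intro z hz
  have hinj : Function.Injective ((algebraMap (Polynomial K) (RatFunc K)).comp
      (XB_phi K : MvPolynomial (Fin 1) K →+* Polynomial K)) := by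
    intro a a' h
    exact XB_phi_inj (RatFunc.algebraMap_injective K h)
  set e : FractionRing (MvPolynomial (Fin 1) K) →+* RatFunc K :=
    IsFractionRing.lift hinj with he
  letI alg : Algebra (FractionRing (MvPolynomial (Fin 1) K)) (AlgebraicClosure (RatFunc K)) :=
    ((algebraMap (RatFunc K) (AlgebraicClosure (RatFunc K))).comp e).toAlgebra
  set L : AlgebraicClosure (FractionRing (MvPolynomial (Fin 1) K)) →ₐ[FractionRing
    (MvPolynomial (Fin 1) K)] AlgebraicClosure (RatFunc K) := IsAlgClosed.lift with hL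
  have hLz : (fun i => L (z i)) = 0 := by
    apply hF
    intro i
    have h1 := hz i
    have h2 : L (aeval z (XB_up (F i))) = 0 := by rw [h1, map_zero]
    rw [← h2]
    unfold XB_up
    rw [aeval_def, aeval_def, eval₂_map]
    rw [← AlgHom.coe_toRingHom L, MvPolynomial.hom_eval₂]
    congr 1
    apply RingHom.ext
    intro a
    simp only [RingHom.comp_apply, AlgHom.coe_toRingHom]
    rw [IsScalarTower.algebraMap_apply (MvPolynomial (Fin 1) K)
      (FractionRing (MvPolynomial (Fin 1) K))
      (AlgebraicClosure (FractionRing (MvPolynomial (Fin 1) K)))]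
    rw [AlgHom.commutes]
    rw [IsScalarTower.algebraMap_apply (Polynomial K) (RatFunc K)
      (AlgebraicClosure (RatFunc K))]
    show _ = algebraMap (RatFunc K) (AlgebraicClosure (RatFunc K)) (e _)
    congr 1
    rw [he, IsFractionRing.lift_algebraMap]
    show _ = algebraMap (Polynomial K) (RatFunc K) (XB_phi K (XB_psi K a))
    rw [XB_phi_psi]
  funext i
  have := congrFun hLz i
  simp only [Pi.zero_apply] at this
  rwa [map_eq_zero] at this

end

theorem pr_XB (h1 : S_ThBS) (h2 : S_DgGB) (h3 : Pool.Agent.Work.MP_91e6de_nt.DM.S_Lim) :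
    S_XB := by
  intro m K _ _ d b F hm hd hb hF hNZ
  have hd0 : (0 : ℝ) < d := by
    have : 0 < d := by omega
    exact_mod_cast this
  have hF' : ∀ i, (XB_up (F i)).IsHomogeneous d := fun i => XB_up_hom (hF i)
  have hNZ' := XB_NoZ F hNZ
  constructor
  · have hdeg : ∀ i, (gT b i).totalDegree ≤ 1 := by
      intro i
      unfold gT
      refine (totalDegree_add _ _).trans (max_le ?_ ?_)
      · rw [totalDegree_X]
      · rw [totalDegree_C]
        exact zero_le_one
    obtain ⟨D, hD⟩ := h2 1 m K d (gT b) (fun i => XB_up (F i)) hm hd (BasT_inj b) hdeg hF' hNZ'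
    refine h3 d 1 D _ hd0 one_pos (Eventually.of_forall fun n => ?_)
      (Eventually.of_forall fun n => ?_)
    · have := (hD n).1
      rw [one_mul, ← XB_deg]
      exact_mod_cast this
    · have := (hD n).2
      rw [← XB_deg]
      exact_mod_cast this
  · intro x y horb
    have horb' : OrbB (gT b) (fun i => XB_up (F i)) (fun n (_ : Fin 1) => x n) y := by
      refine ⟨?_, ?_, horb.ne⟩
      · intro n i
        simp only [gT, map_add, aeval_X, aeval_C, Algebra.algebraMap_self, RingHom.id_apply]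
        exact horb.base n
      · intro n i
        rw [XB_ev]
        exact horb.step n i
    have hht : ∀ n, (logHeight (Fin.cons 1 (fun _ : Fin 1 => x n) : Fin (1 + 1) → K) +
        logHeight (y n)) / Module.finrank ℚ K = KS.height (x n) (y n) := by
      intro n
      unfold KS.height
      congr 2
      rw [logHeight₁_eq_logHeight, logHeight_swap]
      congr 1
      funext i
      fin_cases i
      · rfl
      · rfl
    have hκ : (0 : ℝ) < Module.finrank ℚ K := by
      exact_mod_cast Module.finrank_pos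
    have hκ1 : (1 : ℝ) ≤ Module.finrank ℚ K := by
      have : 0 < Module.finrank ℚ K := Module.finrank_pos
      exact_mod_cast this
    obtain ⟨-, hmain⟩ := h1 m K d b (fun i => XB_up (F i)) (fun n (_ : Fin 1) => x n) y hm hd hb
      hF' hNZ' horb'
    simp only [hht] at hmain
    have hdich : Tendsto (fun n : ℕ => KS.height (x n) (y n) ^ ((1 : ℝ) / n)) atTop (𝓝 d) ∨
        Tendsto (fun n : ℕ => KS.height (x n) (y n) ^ ((1 : ℝ) / n)) atTop (𝓝 1) ∧
        (∃ C : ℝ, ∀ n : ℕ, KS.height (x n) (y n) ≤ C * Real.log (n + 2)) ∧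
        KS.InCurve x y := by
      rcases hmain with h | ⟨h, ⟨C, hC⟩, hcv⟩
      · exact Or.inl h
      · refine Or.inr ⟨h, ⟨C, fun n => ?_⟩, ?_⟩
        · rw [← hht n]
          refine le_trans ?_ (hC n)
          apply div_le_self _ hκ1
          exact add_nonneg (logHeight_nonneg _) (logHeight_nonneg _)
        · intro i j
          obtain ⟨t, H, hH, hHh, hH0⟩ := hcv i j
          refine ⟨t, XB_dn H, ?_, XB_dn_hom hHh, fun n => ?_⟩
          · intro h
            apply hH
            apply XB_dn_inj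
            rw [h, map_zero]
          · rw [← XB_ev, XB_up_dn]
            exact hH0 n
    refine ⟨fun hdense => ?_, hdich⟩
    rcases hdich with h | ⟨-, -, hcv⟩
    · exact h
    · exfalso
      obtain ⟨t, H, hH, hHh, hH0⟩ := hcv 0 (Fin.last m)
      have hinj : Function.Injective (![0, Fin.last m] : Fin 2 → Fin (m + 1)) := by
        intro i j hij
        have h0 : (0 : Fin (m + 1)) ≠ Fin.last m := by
          intro h
          have := congrArg Fin.val h
          simp at this
          omega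
        fin_cases i <;> fin_cases j
        · rfl
        · exact absurd hij h0
        · exact absurd hij.symm h0
        · rfl
      have hG := hdense t (rename ![0, Fin.last m] H) (hHh.rename_isHomogeneous) (by
        intro n
        rw [← hH0 n]
        unfold KS.val
        rw [map_rename, eval_rename]
        congr 2
        funext i
        fin_cases i
        · rfl
        · rfl)
      apply hH
      apply rename_injective _ hinj
      rw [hG, map_zero]

end Pool.Agent.Work.MP_91e6de_nt.DMR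

end
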