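import Mathlib
import Pool.Agent.Work.MP_91e6de_nt.DMR.StmtsW
import Pool.Agent.Work.MP_91e6de_nt.Bd.B14
import Pool.Agent.Work.MP_91e6de_nt.Bd.B12
import Pool.Agent.Work.MP_91e6de_nt.Bd.B13
import Pool.Agent.Work.MP_91e6de_nt.Bd.B15

/-! Bundle of small proof modules (one section per former module). -/

section

set_option autoImplicit false

/-!
# Heights of roots of binary forms (MP_91e6de, DMR, item RootH)
-/

namespace Pool.Agent.Work.MP_91e6de_nt.DMR

open MvPolynomial NumberField IsDedekindDomain Height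

/-- sums -/
def RootH_V {K : Type} [Field K] (v : AbsoluteValue K ℝ) (n : ℝ) (N0 : ℕ) : Prop :=
  ∀ (ι : Type) (T : Finset ι) (f : ι → K) (B : ℝ), T.card ≤ N0 → 0 ≤ B →
    (∀ i ∈ T, v (f i) ≤ B) → v (∑ i ∈ T, f i) ≤ n * B

theorem RootH_inf {K : Type} [Field K] (v : AbsoluteValue K ℝ) (N0 : ℕ) :
    RootH_V v N0 N0 := by
  intro ι T f B hT hB hf
  refine (v.sum_le _ _).trans ?_
  refine (Finset.sum_le_card_nsmul T _ B hf).trans ?_
  rw [nsmul_eq_mul]
  exact mul_le_mul_of_nonneg_right (by exact_mod_cast hT) hB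

theorem RootH_fin {K : Type} [Field K] [NumberField K] (v : FinitePlace K) (N0 : ℕ) :
    RootH_V v.1 1 N0 := by
  classical
  intro ι T f B hT hB hf
  clear hT
  rw [one_mul]
  induction T using Finset.induction_on with
  | empty => simpa using hB
  | insert a T ha ih =>
    rw [Finset.sum_insert ha]
    refine (v.add_le _ _).trans (max_le (hf a (Finset.mem_insert_self _ _)) ?_)
    exact ih (fun i hi => hf i (Finset.mem_insert_of_mem hi))

/-- one absolute value -/
theorem RootH_loc {K : Type} [Field K] (v : AbsoluteValue K ℝ) (n : ℝ) (t : ℕ) (hn : 1 ≤ n)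
    (hv : RootH_V v n (t + 1)) (B : Fin (t + 1) → K) (w : K) (a0 : Fin (t + 1))
    (h1 : B a0 = 1) (h2 : ∀ a, a0 < a → B a = 0) (h3 : (0 : ℕ) < a0)
    (h0 : ∑ a, B a * w ^ (a : ℕ) = 0) : (⨆ i, v (![w, 1] i)) ≤ n * ⨆ i, v (B i) := by
  classical
  set S := ⨆ i, v (B i) with hS
  have hle : ∀ i, v (B i) ≤ S := fun i => Finite.le_ciSup_of_le i le_rfl
  have hS1 : 1 ≤ S := by
    have := hle a0
    rwa [h1, map_one] at this
  have hw : v w ≤ n * S := by
    by_cases hw : v w ≤ 1
    · exact hw.trans (one_le_mul_of_one_le_of_one_le hn hS1)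
    · push Not at hw
      have hw0 : 0 < v w := by linarith
      have e1 : w ^ (a0 : ℕ) = - ∑ a ∈ Finset.univ.erase a0, B a * w ^ (a : ℕ) := by
        rw [← Finset.add_sum_erase _ _ (Finset.mem_univ a0), h1, one_mul] at h0
        exact eq_neg_of_add_eq_zero_left h0
      have e2 : v w ^ (a0 : ℕ) ≤ n * (S * v w ^ ((a0 : ℕ) - 1)) := by
        rw [← map_pow, e1, v.map_neg]
        apply hv
        · exact (Finset.card_le_univ _).trans (by simp)
        · have : 0 ≤ v w ^ ((a0 : ℕ) - 1) := by positivity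
          have : 0 ≤ S := by linarith
          positivity
        · intro a ha
          rw [map_mul, map_pow]
          rcases lt_trichotomy a a0 with h | h | h
          · apply mul_le_mul (hle a) _ (by positivity) (by linarith)
            apply pow_le_pow_right₀ hw.le
            have : (a : ℕ) < a0 := h
            omega
          · exact absurd h (Finset.ne_of_mem_erase ha)
          · rw [h2 a h, map_zero, zero_mul]
            have : 0 ≤ v w ^ ((a0 : ℕ) - 1) := by positivity
            have : 0 ≤ S := by linarith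
            positivity
      have e3 : v w ^ (a0 : ℕ) = v w * v w ^ ((a0 : ℕ) - 1) := by
        rw [← pow_succ']
        congr 1
        omega
      rw [e3, ← mul_assoc] at e2
      exact le_of_mul_le_mul_right e2 (by positivity)
  apply ciSup_le
  intro i
  fin_cases i
  · exact hw
  · show v 1 ≤ n * S
    rw [map_one]
    exact one_le_mul_of_one_le_of_one_le hn hS1

theorem pr_RootH : S_RootH := by
  classical
  intro K _ _ t
  refine ⟨Module.finrank ℚ K * Real.log ((t + 1 : ℕ) : ℝ), ?_, ?_⟩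
  · have : 0 ≤ Real.log ((t + 1 : ℕ) : ℝ) := Real.log_natCast_nonneg _
    positivity
  intro q w hq h0
  obtain ⟨a0, ha0, hmax⟩ : ∃ a0, q a0 ≠ 0 ∧ ∀ a, a0 < a → q a = 0 := by
    have hne : (Finset.univ.filter fun a => q a ≠ 0).Nonempty := by
      obtain ⟨a, ha⟩ := Function.ne_iff.mp hq
      exact ⟨a, Finset.mem_filter.mpr ⟨Finset.mem_univ _, ha⟩⟩
    refine ⟨(Finset.univ.filter fun a => q a ≠ 0).max' hne, ?_, ?_⟩
    · exact (Finset.mem_filter.mp (Finset.max'_mem _ hne)).2
    · intro a ha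
      by_contra hcon
      have := Finset.le_max' (Finset.univ.filter fun a => q a ≠ 0) a
        (Finset.mem_filter.mpr ⟨Finset.mem_univ _, hcon⟩)
      exact absurd ha (not_lt.mpr this)
  set B : Fin (t + 1) → K := (q a0)⁻¹ • q with hB
  have hinv : (q a0)⁻¹ ≠ 0 := inv_ne_zero ha0
  have h1 : B a0 = 1 := by
    rw [hB, Pi.smul_apply, smul_eq_mul, inv_mul_cancel₀ ha0]
  have h2 : ∀ a, a0 < a → B a = 0 := by
    intro a ha
    rw [hB, Pi.smul_apply, hmax a ha, smul_zero]
  have h0' : ∑ a, B a * w ^ (a : ℕ) = 0 := by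
    have : ∑ a, B a * w ^ (a : ℕ) = (q a0)⁻¹ * ∑ a, q a * w ^ (a : ℕ) := by
      rw [Finset.mul_sum]
      refine Finset.sum_congr rfl fun a _ => ?_
      rw [hB, Pi.smul_apply, smul_eq_mul, mul_assoc]
    rw [this, h0, mul_zero]
  have h3 : (0 : ℕ) < a0 := by
    rcases Nat.eq_zero_or_pos (a0 : ℕ) with h | h
    · exfalso
      have ha : a0 = 0 := Fin.ext h
      rw [Fin.sum_univ_succ] at h0'
      rw [Finset.sum_eq_zero (s := Finset.univ) (f := fun i : Fin t => B i.succ * w ^ ((i.succ : Fin (t + 1)) : ℕ))] at h0'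
      · rw [← ha, h1, ha] at h0'
        simp at h0'
      · intro i _
        rw [h2 i.succ (by rw [ha]; exact Fin.succ_pos i), zero_mul]
    · exact h
  have hB0 : B ≠ 0 := by
    intro h
    rw [h] at h1
    exact zero_ne_one h1
  have hA0 : (![w, 1] : Fin 2 → K) ≠ 0 := by
    intro h
    have := congrFun h 1
    simp at this
  have key := pr_LocG K (Fin 2) (Fin (t + 1)) (Fin (t + 1)) (Fin 0) ![w, 1] B B (fun _ => 0)
    (t + 1) 1 1 0 0 hA0 hB0 hB0 (by omega) (by
      intro v
      have := RootH_loc v.1 ((t + 1 : ℕ) : ℝ) t (by simp) (RootH_inf v.1 (t + 1)) B w a0 h1 h2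
        h3 h0'
      simp only [pow_one, pow_zero, mul_one]
      exact this) (by
      intro v
      have := RootH_loc v.1 1 t le_rfl (RootH_fin v (t + 1)) B w a0 h1 h2 h3 h0'
      simp only [pow_one, pow_zero, mul_one, one_mul] at this ⊢
      exact this)
  rw [hB, logHeight_smul_eq_logHeight q hinv] at key
  rw [logHeight₁_eq_logHeight]
  simp only [Nat.cast_one, one_mul, Nat.cast_zero, zero_mul, add_zero] at key
  linarith

end Pool.Agent.Work.MP_91e6de_nt.DMR

end

section

set_option autoImplicit false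

/-!
# MP_91e6de DMR: slow windows of orbits on projective varieties
-/

namespace Pool.Agent.Work.MP_91e6de_nt.DMR

open MvPolynomial NumberField IsDedekindDomain Height Filter Topology

/-- slow orbits on projective varieties are not dense, windows -/
def S_T2AXw : Prop := ∀ (r : ℕ) (K : Type) [Field K] [NumberField K]
  (IX : Ideal (MvPolynomial (Fin (r + 1)) K))
  (F : Fin (r + 1) → MvPolynomial (Fin (r + 1)) K) (e k0 : ℕ) (lam : ℝ), 1 ≤ r →
  IX.IsPrime → (∀ G ∈ IX, ∀ j, homogeneousComponent j G ∈ IX) → (∃ i, X i ∉ IX) →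
  (∀ i, (F i).IsHomogeneous e) → (∃ i, F i ∉ IX) → (∀ G ∈ IX, aeval F G ∈ IX) → 1 < lam →
  (∀ k, k0 ≤ k → lam ^ k ≤ dgX IX F k) →
    ∃ η : ℝ, 0 < η ∧ ∀ C : ℝ, ∃ N0 : ℕ, ∀ P : ℕ → Fin (r + 1) → K, (∀ n, P n ≠ 0) →
      (∀ n, ∀ G ∈ IX, aeval (P n) G = 0) →
      (∀ n, ∃ (t : ℕ) (Φ : Fin (r + 1) → MvPolynomial (Fin (r + 1)) K),
        (∀ i, (Φ i).IsHomogeneous t) ∧ (∀ i j, Φ i * F j - Φ j * F i ∈ IX) ∧
        ∀ i, P (n + 1) i = aeval (P n) (Φ i)) → ∀ M N : ℕ, N0 ≤ N →
      (∀ n, M ≤ n → n ≤ M + 3 * N → logHeight (P n) ≤ C * (N : ℝ) ^ η) →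
        ∃ (t : ℕ) (G : MvPolynomial (Fin (r + 1)) K), G ∉ IX ∧ G.IsHomogeneous t ∧
          ∀ n, aeval (P n) G = 0

theorem pr_T2AXw (h1 : S_TUVw) : S_T2AXw := by
  intro r K _ _ IX F e k0 lam hr hprime hhom hX hF hF1 hinv hlam hdeg
  set F' : Fin (r + 1) → MvPolynomial (Fin (r + 1)) (MvPolynomial (Fin 0) K) :=
    fun i => MvPolynomial.map C (F i) with hF'
  set IV : Ideal (MvPolynomial (Fin (r + 1)) (MvPolynomial (Fin 0) K)) :=
    IX.comap (MvPolynomial.map (T2AG_io K)) with hIV
  have hmem : ∀ G, G ∈ IV ↔ MvPolynomial.map (T2AG_io K) G ∈ IX := fun G => Ideal.mem_comap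
  have hVar : VarV IV := by
    refine ⟨?_, ?_, ?_⟩
    · exact Ideal.IsPrime.comap _
    · intro G hG j
      rw [hmem, ← T2AX_hc]
      exact hhom _ ((hmem G).1 hG) j
    · obtain ⟨i, hi⟩ := hX
      refine ⟨i, fun h => hi ?_⟩
      have := (hmem _).1 h
      rwa [map_X] at this
  have hMap : MapV IV Fin.elim0 F' e := by
    refine ⟨fun i => (hF i).map _, ?_, ?_⟩
    · obtain ⟨i, hi⟩ := hF1
      refine ⟨i, fun h => hi ?_⟩
      have := (hmem _).1 h
      rwa [hF', T2AX_io_map_C] at this
    · intro G hG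
      rw [hmem, T2AX_comp]
      exact hinv _ ((hmem G).1 hG)
  obtain ⟨η, hη, hTU⟩ := h1 0 r K IV Fin.elim0 F' e k0 lam hr hVar hMap hlam
    (by
      intro k hk D G hG hGh hprop
      have h2 : dgX IX F k ≤ D := by
        apply Nat.sInf_le
        refine ⟨fun i => MvPolynomial.map (T2AG_io K) (G i), ?_, fun i => (hGh i).map _, ?_⟩
        · obtain ⟨i, hi⟩ := hG
          exact ⟨i, fun h => hi ((hmem _).2 h)⟩
        · intro i j
          have h3 := (hmem _).1 (hprop i j)
          rw [map_sub, map_mul, map_mul, T2AG_it, T2AG_it] at h3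
          exact h3
      refine (hdeg k hk).trans ?_
      exact_mod_cast h2)
  refine ⟨η, hη, fun C' => ?_⟩
  obtain ⟨N0, hTU⟩ := hTU C'
  refine ⟨N0, fun P hP0 hPon hP M N hN hht => ?_⟩
  obtain ⟨t, G, hG, hGh, hGz⟩ := hTU (fun _ => Fin.elim0) P
    ⟨fun _ i => i.elim0, fun n G hG => by
      rw [← T2AG_map_C G, T2AG_ev]
      exact hPon n _ ((hmem G).1 hG), hP0, fun n => by
      obtain ⟨t, Φ, hΦ, hΦF, hPn⟩ := hP n
      refine ⟨t, fun i => MvPolynomial.map C (Φ i), ⟨fun i => (hΦ i).map _, fun i j => ?_⟩, fun i => ?_⟩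
      · rw [hmem, map_sub, map_mul, map_mul]
        simp only [hF', T2AX_io_map_C]
        exact hΦF i j
      · rw [T2AG_ev]
        exact hPn i⟩ M N hN (fun _ _ _ i => i.elim0) hht
  refine ⟨t, MvPolynomial.map (T2AG_io K) G, fun h => hG ((hmem G).2 h), hGh.map _, fun n => ?_⟩
  have h2 := hGz n
  rw [← T2AG_map_C G, T2AG_ev] at h2
  exact h2

end Pool.Agent.Work.MP_91e6de_nt.DMR

end

section

set_option autoImplicit false

/-!
# MP_91e6de DMR: Theorem A*, windows
-/

namespace Pool.Agent.Work.MP_91e6de_nt.DMR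

open MvPolynomial NumberField IsDedekindDomain Height Filter Topology

/-- THEOREM A*, windows -/
def S_ThAXw : Prop := ∀ (r : ℕ) (K : Type) [Field K] [NumberField K]
  (IX : Ideal (MvPolynomial (Fin (r + 1)) K))
  (F : Fin (r + 1) → MvPolynomial (Fin (r + 1)) K) (e : ℕ) (δ : ℝ),
  IX.IsPrime → (∀ G ∈ IX, ∀ j, homogeneousComponent j G ∈ IX) → (∃ i, X i ∉ IX) →
  (∀ i, (F i).IsHomogeneous e) → (∃ i, F i ∉ IX) → (∀ G ∈ IX, aeval F G ∈ IX) →
  Tendsto (fun n : ℕ => (dgX IX F n : ℝ) ^ ((1 : ℝ) / n)) atTop (𝓝 δ) → 1 < δ →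
    ∃ η : ℝ, 0 < η ∧ ∀ C : ℝ, ∃ N0 : ℕ, ∀ P : ℕ → Fin (r + 1) → K, (∀ n, P n ≠ 0) →
      (∀ n, ∀ G ∈ IX, aeval (P n) G = 0) →
      (∀ n, ∃ (t : ℕ) (Φ : Fin (r + 1) → MvPolynomial (Fin (r + 1)) K),
        (∀ i, (Φ i).IsHomogeneous t) ∧ (∀ i j, Φ i * F j - Φ j * F i ∈ IX) ∧
        ∀ i, P (n + 1) i = aeval (P n) (Φ i)) →
      (∀ (t : ℕ) (G : MvPolynomial (Fin (r + 1)) K), G.IsHomogeneous t →
        (∀ n, aeval (P n) G = 0) → G ∈ IX) →
        ∀ M N : ℕ, N0 ≤ N → ∃ n, M ≤ n ∧ n ≤ M + N ∧
          C * (N : ℝ) ^ η < logHeight (P n) / Module.finrank ℚ K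

theorem pr_ThAXw (h1 : S_T2AXw) : S_ThAXw := by
  intro r K _ _ IX F e δ hIp hIh hIX hF hF0 hFI hlim hδ
  rcases Nat.eq_zero_or_pos r with hr0 | hr
  · subst hr0
    exfalso
    have h0 : Tendsto (fun n : ℕ => (dgX IX F n : ℝ) ^ ((1 : ℝ) / n)) atTop (𝓝 0) := by
      apply tendsto_const_nhds.congr'
      filter_upwards [eventually_ge_atTop 1] with n hn
      rw [ThAX_zero IX F hIp n]
      have hn' : (1 : ℝ) / n ≠ 0 := by
        have : (n : ℝ) ≠ 0 := by
          have : n ≠ 0 := by omega
          exact_mod_cast this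
        exact one_div_ne_zero this
      rw [Nat.cast_zero, Real.zero_rpow hn']
    have := tendsto_nhds_unique hlim h0
    linarith
  -- the growth of the degrees
  set lam : ℝ := (1 + δ) / 2 with hlam
  have hlam1 : 1 < lam := by rw [hlam]; linarith
  have hlamδ : lam < δ := by rw [hlam]; linarith
  obtain ⟨k0, hk0⟩ := (hlim.eventually_const_lt hlamδ).exists_forall_of_atTop
  have hdeg : ∀ k, k0 + 1 ≤ k → lam ^ k ≤ dgX IX F k := by
    intro k hk
    have h1 := hk0 k (by omega)
    have hk0' : (k : ℝ) ≠ 0 := by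
      have : 0 < k := by omega
      exact_mod_cast this.ne'
    have h2 : lam ^ k ≤ ((dgX IX F k : ℝ) ^ ((1 : ℝ) / k)) ^ k :=
      pow_le_pow_left₀ (by linarith) h1.le k
    rw [← Real.rpow_natCast ((dgX IX F k : ℝ) ^ ((1 : ℝ) / k)) k, ← Real.rpow_mul
      (Nat.cast_nonneg _), one_div, inv_mul_cancel₀ hk0', Real.rpow_one] at h2
    exact h2
  obtain ⟨η, hη, hmain⟩ := h1 r K IX F e (k0 + 1) lam hr hIp hIh hIX hF hF0 hFI hlam1 hdeg
  refine ⟨η, hη, fun C0 => ?_⟩
  have hfin : (0 : ℝ) < Module.finrank ℚ K := by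
    exact_mod_cast Module.finrank_pos
  obtain ⟨N0, hmain⟩ := hmain (|C0| * Module.finrank ℚ K * 5 ^ η)
  refine ⟨3 * (N0 + 1), fun P hP hPI hO hdense M N hN => ?_⟩
  by_contra hcon
  push Not at hcon
  obtain ⟨t, G, hG, hGh, hGz⟩ := hmain P hP hPI hO M (N / 3) (by omega) (by
    intro n hn1 hn2
    have h2 := hcon n hn1 (by omega)
    rw [div_le_iff₀ hfin] at h2
    have h3 : ((N : ℕ) : ℝ) ≤ 5 * ((N / 3 : ℕ) : ℝ) := by
      have : N ≤ 5 * (N / 3) := by omega
      exact_mod_cast this
    have h4 : (N : ℝ) ^ η ≤ 5 ^ η * ((N / 3 : ℕ) : ℝ) ^ η := by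
      rw [← Real.mul_rpow (by norm_num) (Nat.cast_nonneg _)]
      exact Real.rpow_le_rpow (Nat.cast_nonneg _) h3 hη.le
    have h5 : 0 ≤ (N : ℝ) ^ η := Real.rpow_nonneg (Nat.cast_nonneg _) η
    calc logHeight (P n) ≤ C0 * (N : ℝ) ^ η * Module.finrank ℚ K := h2
      _ ≤ |C0| * (N : ℝ) ^ η * Module.finrank ℚ K := by
        gcongr
        exact le_abs_self C0
      _ ≤ |C0| * (5 ^ η * ((N / 3 : ℕ) : ℝ) ^ η) * Module.finrank ℚ K := by gcongr
      _ = _ := by ring)
  exact hG (hdense t G hGh hGz)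

end Pool.Agent.Work.MP_91e6de_nt.DMR

end

section

set_option autoImplicit false

/-!
# Theorem C, final form (MP_91e6de, DMR, item XC): transfer between `MvPolynomial (Fin 1) K` and
`Polynomial K`
-/

namespace Pool.Agent.Work.MP_91e6de_nt.DMR

open MvPolynomial NumberField Height Filter Topology
open Pool.Agent.Work.MP_91e6de_nt

section

variable {K : Type} [Field K] {m : ℕ}

theorem XC_gU (b : K) : gU (1 : Matrix (Fin 1) (Fin 1) K) (fun _ => b) = gT b := by
  funext i
  rw [Subsingleton.elim i 0]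
  simp [gU, gT]

theorem XC_deg {σ : Type} (G : MvPolynomial σ (Polynomial K)) :
    (XB_up G).totalDegree ≤ G.totalDegree := by
  unfold XB_up totalDegree
  exact Finset.sup_mono (support_map_subset _ _)

theorem XC_hc {σ : Type} (d : ℕ) (G : MvPolynomial σ (Polynomial K)) :
    homogeneousComponent d (XB_up G) = XB_up (homogeneousComponent d G) := by
  ext1 u
  unfold XB_up
  rw [coeff_map, coeff_homogeneousComponent, coeff_homogeneousComponent, coeff_map]
  split_ifs
  · rfl
  · rw [map_zero]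

theorem XC_shift (b : K) (G : MvPolynomial (Fin (m + 1)) (Polynomial K)) :
    map (aeval (gT b) : MvPolynomial (Fin 1) K →ₐ[K] MvPolynomial (Fin 1) K).toRingHom (XB_up G) =
      XB_up (KS.shift b G) := by
  unfold XB_up KS.shift
  rw [MvPolynomial.map_map, MvPolynomial.map_map]
  congr 2
  apply Polynomial.ringHom_ext
  · intro a
    simp [XB_psi_C]
  · simp [XB_psi_X, XB_psi_C, gT]

theorem XC_comp (F : Fin (m + 1) → MvPolynomial (Fin (m + 1)) (Polynomial K))
    (G : MvPolynomial (Fin (m + 1)) (Polynomial K)) :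
    comp X (fun i => XB_up (F i)) (XB_up G) = XB_up (bind₁ F G) := by
  unfold comp
  rw [ev_eq]
  have : ((evHom (A := K) (fun i : Fin 1 => (C (X i) :
        MvPolynomial (Fin (m + 1)) (MvPolynomial (Fin 1) K)))
      (fun i => XB_up (F i))).comp XB_up) = (XB_up.comp (bind₁ F).toRingHom) := by
    apply MvPolynomial.ringHom_ext
    · intro a
      have h2 : (((evHom (A := K) (fun i : Fin 1 => (C (X i) :
            MvPolynomial (Fin (m + 1)) (MvPolynomial (Fin 1) K)))
          (fun i => XB_up (F i))).comp XB_up).comp C) =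
        ((XB_up.comp (bind₁ F).toRingHom).comp C) := by
        apply Polynomial.ringHom_ext
        · intro c
          simp only [RingHom.comp_apply, XB_up, map_C]
          rw [← ev_eq, ev_C]
          simp [XB_psi_C, MvPolynomial.algebraMap_apply]
        · simp only [RingHom.comp_apply, XB_up, map_C]
          rw [← ev_eq, ev_C]
          simp [XB_psi_X]
      exact RingHom.congr_fun h2 a
    · intro j
      simp only [RingHom.comp_apply, XB_up, map_X]
      rw [← ev_eq, ev_X]
      simp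
  exact RingHom.congr_fun this G

/-- transfer of zeros -/
theorem XC_zero (K : Type) [Field K] (m : ℕ) :
    ∃ L : AlgebraicClosure (FractionRing (MvPolynomial (Fin 1) K)) →+*
      AlgebraicClosure (RatFunc K),
      ∀ (z : Fin (m + 1) → AlgebraicClosure (FractionRing (MvPolynomial (Fin 1) K)))
        (G : MvPolynomial (Fin (m + 1)) (Polynomial K)),
        L (aeval z (XB_up G)) = aeval (fun i => L (z i)) G := by
  have hinj : Function.Injective ((algebraMap (Polynomial K) (RatFunc K)).comp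
      (XB_phi K : MvPolynomial (Fin 1) K →+* Polynomial K)) := by
    intro a a' h
    exact XB_phi_inj (RatFunc.algebraMap_injective K h)
  set e : FractionRing (MvPolynomial (Fin 1) K) →+* RatFunc K :=
    IsFractionRing.lift hinj with he
  let alg : Algebra (FractionRing (MvPolynomial (Fin 1) K)) (AlgebraicClosure (RatFunc K)) :=
    ((algebraMap (RatFunc K) (AlgebraicClosure (RatFunc K))).comp e).toAlgebra
  set L : AlgebraicClosure (FractionRing (MvPolynomial (Fin 1) K)) →ₐ[FractionRing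
    (MvPolynomial (Fin 1) K)] AlgebraicClosure (RatFunc K) := IsAlgClosed.lift with hL
  refine ⟨L.toRingHom, fun z G => ?_⟩
  unfold XB_up
  rw [aeval_def, aeval_def, eval₂_map]
  have h0 : ∀ w, L.toRingHom w = L w := fun _ => rfl
  rw [h0, ← AlgHom.coe_toRingHom L, MvPolynomial.hom_eval₂]
  congr 1
  apply RingHom.ext
  intro a
  simp only [RingHom.comp_apply, AlgHom.coe_toRingHom]
  rw [IsScalarTower.algebraMap_apply (MvPolynomial (Fin 1) K)
    (FractionRing (MvPolynomial (Fin 1) K))
    (AlgebraicClosure (FractionRing (MvPolynomial (Fin 1) K)))]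
  rw [AlgHom.commutes]
  rw [IsScalarTower.algebraMap_apply (Polynomial K) (RatFunc K)
    (AlgebraicClosure (RatFunc K))]
  show algebraMap (RatFunc K) (AlgebraicClosure (RatFunc K)) (e _) = _
  congr 1
  rw [he, IsFractionRing.lift_algebraMap]
  show algebraMap (Polynomial K) (RatFunc K) (XB_phi K (XB_psi K a)) = _
  rw [XB_phi_psi]

theorem XC_FamC (b : K) (d d' : ℕ)
    (F G : Fin (m + 1) → MvPolynomial (Fin (m + 1)) (Polynomial K)) (r : Polynomial K)
    (h : KS.RegularFamily b d d' F G r) :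
    FamC (gT b) d d' (fun i => XB_up (F i)) (fun i => XB_up (G i)) (XB_psi K r) := by
  refine ⟨h.two_le, h.two_le', fun i => (XC_deg _).trans (h.deg i), ?_,
    fun i => (XC_deg _).trans (h.deg' i), ?_, ?_, ?_, BasT_inj b⟩
  · obtain ⟨i, hi⟩ := h.top
    refine ⟨i, fun h0 => hi ?_⟩
    rw [XC_hc] at h0
    apply XB_up_inj
    rw [h0, map_zero]
  · intro h0
    apply h.ne
    apply XB_psi_inj
    rw [h0, map_zero]
  · intro i
    rw [XC_comp, h.inv i]
    simp [XB_up]
  · intro z hz1 hz2
    obtain ⟨L, hL⟩ := XC_zero K m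
    have h1 : (fun i => L (z i)) = 0 := by
      apply h.reg
      · intro i
        have := hz1 i
        rw [XC_hc, XC_shift] at this
        rw [← hL, this, map_zero]
      · intro i
        have := hz2 i
        rw [XC_hc] at this
        rw [← hL, this, map_zero]
    funext i
    have := congrFun h1 i
    simp only [Pi.zero_apply] at this
    rwa [map_eq_zero] at this

/-! ## polynomials in all variables -/

/-- all variables -/
noncomputable def XC_fw (G : MvPolynomial (Fin (m + 1)) (Polynomial K)) :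
    MvPolynomial (Fin 1 ⊕ Fin (m + 1)) K :=
  ev (fun j => (X (Sum.inl j) : MvPolynomial (Fin 1 ⊕ Fin (m + 1)) K))
    (fun j => X (Sum.inr j)) (XB_up G)

/-- back -/
noncomputable def XC_bk (H : MvPolynomial (Fin 1 ⊕ Fin (m + 1)) K) :
    MvPolynomial (Fin (m + 1)) (Polynomial K) :=
  aeval (Sum.elim (fun _ => C Polynomial.X) (fun j => X j)) H

theorem XC_fw_bk (H : MvPolynomial (Fin 1 ⊕ Fin (m + 1)) K) : XC_fw (XC_bk H) = H := by
  have : (((evHom (A := K) (fun j => (X (Sum.inl j) : MvPolynomial (Fin 1 ⊕ Fin (m + 1)) K))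
      (fun j => X (Sum.inr j))).comp XB_up).comp
      (aeval (Sum.elim (fun _ => C Polynomial.X) (fun j => X j)) :
        MvPolynomial (Fin 1 ⊕ Fin (m + 1)) K →ₐ[K]
          MvPolynomial (Fin (m + 1)) (Polynomial K)).toRingHom) = RingHom.id _ := by
    apply MvPolynomial.ringHom_ext
    · intro a
      simp only [RingHom.comp_apply, AlgHom.toRingHom_eq_coe, RingHom.coe_coe, algHom_C,
        MvPolynomial.algebraMap_apply, XB_up, map_C]
      rw [← ev_eq, ev_C, ← Polynomial.C_eq_algebraMap]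
      simp [XB_psi_C, MvPolynomial.algebraMap_eq]
    · intro i
      rcases i with i | i
      · simp only [RingHom.comp_apply, AlgHom.toRingHom_eq_coe, RingHom.coe_coe, aeval_X,
          Sum.elim_inl, XB_up, map_C]
        rw [← ev_eq, ev_C, Subsingleton.elim i 0]
        simp [XB_psi_X]
      · simp only [RingHom.comp_apply, AlgHom.toRingHom_eq_coe, RingHom.coe_coe, aeval_X,
          Sum.elim_inr, XB_up, map_X]
        rw [← ev_eq, ev_X]
        simp
  exact RingHom.congr_fun this H

theorem XC_bk_fw (G : MvPolynomial (Fin (m + 1)) (Polynomial K)) : XC_bk (XC_fw G) = G := by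
  unfold XC_bk XC_fw
  rw [map_ev]
  have : (evHom (A := K) (fun i : Fin 1 => (aeval (Sum.elim (fun _ => C Polynomial.X)
        (fun j => X j)) (X (Sum.inl i) : MvPolynomial (Fin 1 ⊕ Fin (m + 1)) K) :
          MvPolynomial (Fin (m + 1)) (Polynomial K)))
      (fun i : Fin (m + 1) => (aeval (Sum.elim (fun _ => C Polynomial.X)
        (fun j => X j)) (X (Sum.inr i) : MvPolynomial (Fin 1 ⊕ Fin (m + 1)) K) :
          MvPolynomial (Fin (m + 1)) (Polynomial K)))).comp XB_up = RingHom.id _ := by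
    apply MvPolynomial.ringHom_ext
    · intro a
      have h2 : ((evHom (A := K) (fun i : Fin 1 => (aeval (Sum.elim (fun _ => C Polynomial.X)
        (fun j => X j)) (X (Sum.inl i) : MvPolynomial (Fin 1 ⊕ Fin (m + 1)) K) :
          MvPolynomial (Fin (m + 1)) (Polynomial K)))
      (fun i : Fin (m + 1) => (aeval (Sum.elim (fun _ => C Polynomial.X)
        (fun j => X j)) (X (Sum.inr i) : MvPolynomial (Fin 1 ⊕ Fin (m + 1)) K) :
          MvPolynomial (Fin (m + 1)) (Polynomial K)))).comp XB_up).comp C =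
          (RingHom.id _).comp C := by
        apply Polynomial.ringHom_ext
        · intro c
          simp only [RingHom.comp_apply, XB_up, map_C, RingHom.id_apply]
          rw [← ev_eq, ev_C]
          simp [XB_psi_C, MvPolynomial.algebraMap_apply]
        · simp only [RingHom.comp_apply, XB_up, map_C, RingHom.id_apply]
          rw [← ev_eq, ev_C]
          simp [XB_psi_X]
      exact RingHom.congr_fun h2 a
    · intro j
      simp only [RingHom.comp_apply, XB_up, map_X, RingHom.id_apply]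
      rw [← ev_eq, ev_X]
      simp
  exact RingHom.congr_fun this G

theorem XC_val (x : K) (y : Fin (m + 1) → K) (H : MvPolynomial (Fin 1 ⊕ Fin (m + 1)) K) :
    KS.val x y (XC_bk H) = aeval (Sum.elim (fun _ => x) y) H := by
  rw [← XB_ev]
  conv_rhs => rw [← XC_fw_bk H]
  unfold XC_fw
  rw [map_ev]
  simp

/-! ## degrees -/

/-- the degree in all variables is at most `D` -/
def XC_TD (D : ℕ) (G : MvPolynomial (Fin (m + 1)) (Polynomial K)) : Prop :=
  ∀ u : Fin (m + 1) →₀ ℕ, G.coeff u ≠ 0 → (G.coeff u).natDegree + ∑ i, u i ≤ D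

theorem XC_TD_add (D : ℕ) (G H : MvPolynomial (Fin (m + 1)) (Polynomial K)) (hG : XC_TD D G)
    (hH : XC_TD D H) : XC_TD D (G + H) := by
  intro u hu
  rw [coeff_add] at hu ⊢
  by_cases h1 : G.coeff u = 0
  · rw [h1, zero_add] at hu ⊢
    exact hH u hu
  · by_cases h2 : H.coeff u = 0
    · rw [h2, add_zero] at hu ⊢
      exact hG u hu
    · have e1 := hG u h1
      have e2 := hH u h2
      have e3 := Polynomial.natDegree_add_le (G.coeff u) (H.coeff u)
      rcases le_total (G.coeff u).natDegree (H.coeff u).natDegree with h | h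
      · rw [max_eq_right h] at e3
        omega
      · rw [max_eq_left h] at e3
        omega

theorem XC_TD_zero (D : ℕ) : XC_TD D (0 : MvPolynomial (Fin (m + 1)) (Polynomial K)) := by
  intro u hu
  exact absurd (coeff_zero u) hu

theorem XC_TD_sum {ι : Type} (D : ℕ) (T : Finset ι)
    (G : ι → MvPolynomial (Fin (m + 1)) (Polynomial K)) (hG : ∀ i ∈ T, XC_TD D (G i)) :
    XC_TD D (∑ i ∈ T, G i) := by
  classical
  induction T using Finset.induction_on with
  | empty =>
    rw [Finset.sum_empty]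
    exact XC_TD_zero D
  | insert a T ha ih =>
    rw [Finset.sum_insert ha]
    exact XC_TD_add D _ _ (hG a (Finset.mem_insert_self a T))
      (ih fun i hi => hG i (Finset.mem_insert_of_mem hi))

theorem XC_tot_le (D : ℕ) (G : MvPolynomial (Fin (m + 1)) (Polynomial K)) (h : XC_TD D G) :
    KS.totDeg G ≤ D := by
  unfold KS.totDeg
  apply Finset.sup_le
  intro u hu
  exact h u (mem_support_iff.1 hu)

theorem XC_bk_TD (H : MvPolynomial (Fin 1 ⊕ Fin (m + 1)) K) : XC_TD H.totalDegree (XC_bk H) := by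
  classical
  unfold XC_bk
  rw [aeval_def, eval₂_eq']
  apply XC_TD_sum
  intro w hw
  have h1 : ∑ i, w i ≤ H.totalDegree := by
    have := le_totalDegree hw
    rwa [Finsupp.sum_fintype _ _ (fun _ => rfl)] at this
  rw [Fintype.sum_sum_type] at h1
  rw [Fintype.prod_sum_type]
  simp only [Sum.elim_inl, Sum.elim_inr]
  rw [Fin.prod_univ_one]
  rw [Fin.sum_univ_one] at h1
  set v : Fin (m + 1) →₀ ℕ := Finsupp.equivFunOnFinite.symm fun j => w (Sum.inr j) with hv
  have h2 : (∏ j : Fin (m + 1), (X j : MvPolynomial (Fin (m + 1)) (Polynomial K)) ^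
      w (Sum.inr j)) = monomial v 1 := by
    rw [monomial_eq, C_1, one_mul, Finsupp.prod_fintype _ _ (fun _ => by simp)]
    rfl
  rw [h2, MvPolynomial.algebraMap_apply, ← mul_assoc, ← C_pow, ← C_mul, C_mul_monomial]
  intro u hu
  rw [coeff_monomial] at hu ⊢
  by_cases huv : v = u
  · rw [if_pos huv]
    subst huv
    rw [mul_one]
    have h3 : ∑ i, v i = ∑ j, w (Sum.inr j) := by
      apply Finset.sum_congr rfl
      intro j _
      rw [hv]
      rfl
    rw [h3]
    refine le_trans (Nat.add_le_add_right ?_ _) h1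
    refine Polynomial.natDegree_mul_le.trans ?_
    rw [← Polynomial.C_eq_algebraMap, Polynomial.natDegree_C, zero_add,
      Polynomial.natDegree_X_pow]
  · rw [if_neg huv] at hu
    exact absurd rfl hu

theorem XC_fw_le (G : MvPolynomial (Fin (m + 1)) (Polynomial K)) :
    (XC_fw G).totalDegree ≤ KS.totDeg G := by
  unfold XC_fw
  rw [ev_eq_sum]
  refine (totalDegree_finsetSum _ _).trans ?_
  apply Finset.sup_le
  intro u hu
  have hu' : u ∈ G.support := by
    have : (XB_up G).support ⊆ G.support := support_map_subset _ _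
    exact this hu
  have h1 : (G.coeff u).natDegree + ∑ i, u i ≤ KS.totDeg G :=
    Finset.le_sup (f := fun u => (G.coeff u).natDegree + ∑ i, u i) hu'
  refine le_trans ((totalDegree_mul _ _).trans (Nat.add_le_add ?_ ?_)) h1
  · refine (DgC_aeval _ (fun i => ?_) _).trans ?_
    · rw [totalDegree_X]
    · unfold XB_up
      rw [coeff_map]
      exact XB_psi_deg _
  · refine (totalDegree_finsetProd _ _).trans ?_
    refine Finset.sum_le_sum fun i _ => ?_
    refine (totalDegree_pow _ _).trans ?_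
    rw [totalDegree_X, mul_one]

theorem XC_tot (G : MvPolynomial (Fin (m + 1)) (Polynomial K)) :
    (XC_fw G).totalDegree = KS.totDeg G := by
  apply le_antisymm (XC_fw_le G)
  have := XC_tot_le _ _ (XC_bk_TD (XC_fw G))
  rwa [XC_bk_fw] at this

theorem XC_dg (b : K) (F : Fin (m + 1) → MvPolynomial (Fin (m + 1)) (Polynomial K)) (n : ℕ)
    (h : 1 ≤ dgC (gT b) (fun i => XB_up (F i)) n) :
    KS.degIterA b F n = dgC (gT b) (fun i => XB_up (F i)) n := by
  have e1 : (Finset.univ.sup fun i => (ev (fun j => (X (Sum.inl j) :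
      MvPolynomial (Fin 1 ⊕ Fin (m + 1)) K)) (fun j => X (Sum.inr j))
      ((itB (gT b) (fun i => XB_up (F i)) n).2 i)).totalDegree) =
      Finset.univ.sup fun i => KS.totDeg (KS.iter b F n i) := by
    rw [XB_it2]
    apply Finset.sup_congr rfl
    intro i _
    exact XC_tot _
  have e2 : (Finset.univ.sup fun i =>
      ((itB (gT b) (fun i => XB_up (F i)) n).1 i).totalDegree) ≤ 1 := by
    rw [XB_it1]
    apply Finset.sup_le
    intro i _
    refine (totalDegree_add _ _).trans (max_le ?_ ?_)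
    · rw [totalDegree_X]
    · rw [totalDegree_C]
      exact zero_le_one
  unfold KS.degIterA
  unfold dgC at h ⊢
  rw [e1] at h ⊢
  apply le_antisymm
  · exact max_le h (le_max_right _ _)
  · exact max_le (e2.trans (le_max_left _ _)) (le_max_right _ _)

end

theorem XC_ht {K : Type} [Field K] [NumberField K] {m : ℕ} (x : K) (y : Fin (m + 1) → K) :
    htA (Sum.elim (fun _ : Fin 1 => x) y) =
      Height.logHeight (Fin.cons 1 (Fin.cons x y) : Fin (m + 3) → K) := by
  unfold htA
  apply le_antisymm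
  · have hf : (fun o : Option (Fin 1 ⊕ Fin (m + 1)) => o.elim 1 (Sum.elim (fun _ : Fin 1 => x) y)) =
        (Fin.cons 1 (Fin.cons x y) : Fin (m + 3) → K) ∘
          (fun o : Option (Fin 1 ⊕ Fin (m + 1)) =>
            o.elim (0 : Fin (m + 3)) (Sum.elim (fun _ => (0 : Fin (m + 2)).succ)
              (fun j => j.succ.succ))) := by
      funext o
      rcases o with _ | (i | j)
      · simp
      · simp
      · simp
    rw [hf]
    exact logHeight_comp_le _ _
  · have hf : (Fin.cons 1 (Fin.cons x y) : Fin (m + 3) → K) =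
        (fun o : Option (Fin 1 ⊕ Fin (m + 1)) => o.elim 1 (Sum.elim (fun _ : Fin 1 => x) y)) ∘
          (Fin.cons none (Fin.cons (some (Sum.inl 0)) (fun j => some (Sum.inr j))) :
            Fin (m + 3) → Option (Fin 1 ⊕ Fin (m + 1))) := by
      funext i
      refine Fin.cases ?_ (fun i => ?_) i
      · simp
      · refine Fin.cases ?_ (fun i => ?_) i
        · simp
        · simp
    rw [hf]
    exact logHeight_comp_le _ _

theorem pr_XC (h1 : S_ThC) (h2 : S_DgC) (h3 : Pool.Agent.Work.MP_91e6de_nt.DM.S_Lim) :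
    S_XC := by
  intro m K _ _ d d' b F G r hb hR
  have hFam := XC_FamC b d d' F G r hR
  have hd := hR.two_le
  have hd0 : (0 : ℝ) < d := by
    have : 0 < d := by omega
    exact_mod_cast this
  have hdeg : ∀ i, (gT b i).totalDegree ≤ 1 := by
    intro i
    unfold gT
    refine (totalDegree_add _ _).trans (max_le ?_ ?_)
    · rw [totalDegree_X]
    · rw [totalDegree_C]
      exact zero_le_one
  constructor
  · obtain ⟨D, hD⟩ := h2 1 m K d d' (gT b) _ _ _ hFam hdeg
    have hpos : ∀ n, 1 ≤ dgC (gT b) (fun i => XB_up (F i)) n := fun n =>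
      (Nat.one_le_pow _ _ (by omega)).trans (hD n).1
    refine h3 d 1 D _ hd0 one_pos (Eventually.of_forall fun n => ?_)
      (Eventually.of_forall fun n => ?_)
    · have := (hD n).1
      rw [one_mul, XC_dg b F n (hpos n)]
      exact_mod_cast this
    · have := (hD n).2
      rw [XC_dg b F n (hpos n)]
      exact_mod_cast this
  · intro x y hx hy hdense
    have hFam' : FamC (gU (1 : Matrix (Fin 1) (Fin 1) K) (fun _ => b)) d d'
        (fun i => XB_up (F i)) (fun i => XB_up (G i)) (XB_psi K r) := by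
      rw [XC_gU]
      exact hFam
    have hmain := (h1 1 m K d d' (1 : Matrix (Fin 1) (Fin 1) K) (fun _ => b)
      (fun i => XB_up (F i)) (fun i => XB_up (G i)) (XB_psi K r) (fun n (_ : Fin 1) => x n) y
      (by rw [sub_self]; exact IsNilpotent.zero) hFam'
      (by
        intro n i
        rw [XC_gU]
        simp only [gT, map_add, aeval_X, aeval_C, Algebra.algebraMap_self, RingHom.id_apply]
        exact hx n)
      (by
        intro n i
        rw [XB_ev]
        exact hy n i)
      (by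
        intro H hH
        have h0 : XC_bk H = 0 := by
          apply hdense
          intro n
          rw [XC_val]
          exact hH n
        rw [← XC_fw_bk H, h0]
        simp [XC_fw])).2
    have hht : ∀ n, htA (Sum.elim (fun _ : Fin 1 => x n) (y n)) / Module.finrank ℚ K =
        KS.heightA (x n) (y n) := by
      intro n
      unfold KS.heightA
      rw [XC_ht]
    simp only [hht] at hmain
    exact hmain

end Pool.Agent.Work.MP_91e6de_nt.DMR

end
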