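import Pool.Agent.Work.MP_91e6de_nt.Stmts
import Pool.Agent.Work.MP_91e6de_nt.Stmts2

/-! Bundle of small proof modules (one section per former module). -/

section

open Polynomial

namespace Pool.Agent.Work.MP_91e6de_nt

namespace NE1

/-- grouping by prefixes -/
lemma grp {ι β : Type*} [DecidableEq β] (E : Finset ι) (r : ι → β) (ρ : β → ℝ) (ν : ι → ℝ) :
    ∑ w ∈ E, ∑ w' ∈ E, ν w * ν w' * (if r w = r w' then ρ (r w) else 0) =
      ∑ u ∈ E.image r, ρ u * (∑ w ∈ E with r w = u, ν w) ^ 2 := by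
  rw [← Finset.sum_fiberwise_of_maps_to (s := E) (t := E.image r) (g := r)
    (fun w hw => Finset.mem_image_of_mem r hw)]
  refine Finset.sum_congr rfl fun u _ => ?_
  rw [sq, Finset.sum_mul_sum, Finset.mul_sum]
  refine Finset.sum_congr rfl fun w hw => ?_
  have hw' := (Finset.mem_filter.1 hw).2
  rw [Finset.mul_sum, Finset.sum_filter]
  refine Finset.sum_congr rfl fun w' _ => ?_
  rw [hw']
  by_cases h : r w' = u
  · rw [if_pos h, if_pos h.symm]; ring
  · rw [if_neg h, if_neg (fun h' => h h'.symm)]; ring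

/-- Cauchy-Schwarz -/
lemma cs {ι β : Type*} [DecidableEq β] (E : Finset ι) (r : ι → β) (ρ : β → ℝ) (ν : ι → ℝ)
    (hρ : ∀ u ∈ E.image r, 0 < ρ u) (hν : ∑ w ∈ E, ν w = 1) :
    1 ≤ (∑ w ∈ E, ∑ w' ∈ E, ν w * ν w' * (if r w = r w' then ρ (r w) else 0)) *
      ∑ u ∈ E.image r, (ρ u)⁻¹ := by
  rw [grp]
  have h1 : ∑ u ∈ E.image r, (∑ w ∈ E with r w = u, ν w) = 1 := by
    rw [← hν]
    exact Finset.sum_fiberwise_of_maps_to (fun w hw => Finset.mem_image_of_mem r hw) _
  have := Finset.sum_sq_le_sum_mul_sum_of_sq_le_mul (E.image r)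
    (r := fun u => ∑ w ∈ E with r w = u, ν w)
    (f := fun u => ρ u * (∑ w ∈ E with r w = u, ν w) ^ 2) (g := fun u => (ρ u)⁻¹)
    (fun u hu => mul_nonneg (hρ u hu).le (sq_nonneg _))
    (fun u hu => inv_nonneg.2 (hρ u hu).le)
    (fun u hu => by
      have := (hρ u hu).ne'
      refine le_of_eq ?_
      field_simp)
  rw [h1] at this
  simpa using this

/-- the part of the kernel of level `i` -/
lemma level {α : Type} (E : Finset (ℕ → α)) (m : ℕ → α → ℕ) (e : ℕ) (he : 1 ≤ e)
    (hm : ∀ w ∈ E, ∀ l, 1 ≤ m l (w l)) (ν : (ℕ → α) → ℝ) (hν0 : ∀ w ∈ E, 0 ≤ ν w)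
    (hν : ∑ w ∈ E, ν w = 1) (i : ℕ) (B : ℝ) (hB : 0 < B) [DecidableEq (Fin (i + 1) → α)]
    [∀ w w' : ℕ → α, Decidable (∀ l ≤ i, w l = w' l)]
    (hD : ((∑ u ∈ E.image (fun w (l : Fin (i + 1)) => w l), ∏ l : Fin (i + 1), m l (u l) : ℕ) : ℝ) ≤ B) :
    (e : ℝ) ^ (i + 1) / B ≤ ∑ w ∈ E, ∑ w' ∈ E, ν w * ν w' *
      (if ∀ l ≤ i, w l = w' l then ∏ l ∈ Finset.range (i + 1), (e : ℝ) / (m l (w l)) else 0) := by
  have he' : (0 : ℝ) < e := by exact_mod_cast he
  set r : (ℕ → α) → (Fin (i + 1) → α) := fun w l => w l with hr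
  set ρ : (Fin (i + 1) → α) → ℝ := fun u => ∏ l : Fin (i + 1), (e : ℝ) / (m l (u l)) with hρdef
  have hρ : ∀ u ∈ E.image r, 0 < ρ u := by
    intro u hu
    obtain ⟨w, hw, rfl⟩ := Finset.mem_image.1 hu
    refine Finset.prod_pos fun l _ => div_pos he' ?_
    exact_mod_cast hm w hw l
  have hcs := cs E r ρ ν hρ hν
  have h1 : ∑ w ∈ E, ∑ w' ∈ E, ν w * ν w' * (if r w = r w' then ρ (r w) else 0) =
      ∑ w ∈ E, ∑ w' ∈ E, ν w * ν w' *
      (if ∀ l ≤ i, w l = w' l then ∏ l ∈ Finset.range (i + 1), (e : ℝ) / (m l (w l)) else 0) := by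
    refine Finset.sum_congr rfl fun w _ => Finset.sum_congr rfl fun w' _ => ?_
    have hiff : r w = r w' ↔ ∀ l ≤ i, w l = w' l := by
      constructor
      · intro h l hl
        exact congrFun h ⟨l, by omega⟩
      · intro h
        funext l
        exact h l (by omega)
    have hp : ρ (r w) = ∏ l ∈ Finset.range (i + 1), (e : ℝ) / (m l (w l)) := by
      rw [hρdef, hr, ← Fin.prod_univ_eq_prod_range (fun l => (e : ℝ) / (m l (w l)))]
    by_cases h : r w = r w'
    · rw [if_pos h, if_pos (hiff.1 h), hp]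
    · rw [if_neg h, if_neg (fun h' => h (hiff.2 h'))]
  rw [h1] at hcs
  set T := ∑ w ∈ E, ∑ w' ∈ E, ν w * ν w' *
      (if ∀ l ≤ i, w l = w' l then ∏ l ∈ Finset.range (i + 1), (e : ℝ) / (m l (w l)) else 0) with hT
  have hT0 : 0 ≤ T := by
    refine Finset.sum_nonneg fun w hw => Finset.sum_nonneg fun w' hw' => ?_
    refine mul_nonneg (mul_nonneg (hν0 w hw) (hν0 w' hw')) ?_
    split_ifs
    · exact Finset.prod_nonneg fun l _ => by positivity
    · exact le_rfl
  have h2 : ∑ u ∈ E.image r, (ρ u)⁻¹ =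
      ((∑ u ∈ E.image r, ∏ l : Fin (i + 1), m l (u l) : ℕ) : ℝ) / (e : ℝ) ^ (i + 1) := by
    rw [Nat.cast_sum, Finset.sum_div]
    refine Finset.sum_congr rfl fun u _ => ?_
    rw [hρdef]
    simp only [Finset.prod_div_distrib, Finset.prod_const, Finset.card_univ, Fintype.card_fin,
      inv_div, Nat.cast_prod]
  rw [h2] at hcs
  have h3 : 1 ≤ T * (B / (e : ℝ) ^ (i + 1)) :=
    hcs.trans (mul_le_mul_of_nonneg_left (div_le_div_of_nonneg_right hD (by positivity)) hT0)
  rw [div_le_iff₀ hB]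
  rw [← mul_div_assoc, le_div_iff₀ (by positivity), one_mul] at h3
  exact h3

lemma geo (θ : ℝ) (k : ℕ) : (1 - θ) * ∑ i ∈ Finset.range k, θ ^ (i + 1) = θ * (1 - θ ^ k) := by
  induction k with
  | zero => simp
  | succ k ih =>
    rw [Finset.sum_range_succ, mul_add, ih]
    ring

end NE1

open NE1 in
theorem pr_E1 : S_E1 := by
  classical
  intro α E m d e hE he hed hm hD
  have he' : (0 : ℝ) < e := by exact_mod_cast he
  have hd0 : 0 < d := by omega
  have hd' : (0 : ℝ) < d := by exact_mod_cast hd0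
  have hde : (0 : ℝ) < (d : ℝ) - e := by
    have : (e : ℝ) < d := by exact_mod_cast hed
    linarith
  have hm1 : ∀ w ∈ E, ∀ l, 1 ≤ m l (w l) := fun w hw l => (hm w hw l).1
  set θ : ℝ := (e : ℝ) / d with hθ
  have hθ0 : 0 < θ := div_pos he' hd'
  have hθ1 : θ < 1 := by
    rw [hθ, div_lt_one hd']; linarith
  -- the level `i0`
  obtain ⟨i0, hi0⟩ : ∃ i0 : ℕ, (E.card : ℝ) * ((d : ℝ) - 1) ^ (i0 + 1) ≤ (d : ℝ) ^ (i0 + 1) / 2 := by
    have hq0 : 0 ≤ ((d : ℝ) - 1) / d := by
      have : (1 : ℝ) ≤ d := by exact_mod_cast hd0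
      exact div_nonneg (by linarith) hd'.le
    have hq1 : ((d : ℝ) - 1) / d < 1 := by
      rw [div_lt_one hd']; linarith
    have hc : (0 : ℝ) < E.card := by exact_mod_cast hE.card_pos
    obtain ⟨n, hn⟩ := exists_pow_lt_of_lt_one (show (0 : ℝ) < 1 / (2 * E.card) by positivity) hq1
    refine ⟨n, ?_⟩
    have h1 : (((d : ℝ) - 1) / d) ^ (n + 1) ≤ 1 / (2 * E.card) := by
      refine le_trans ?_ hn.le
      exact pow_le_pow_of_le_one hq0 hq1.le (Nat.le_succ n)
    rw [div_pow, div_le_iff₀ (by positivity)] at h1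
    calc (E.card : ℝ) * ((d : ℝ) - 1) ^ (n + 1) ≤ E.card * (1 / (2 * E.card) * (d : ℝ) ^ (n + 1)) :=
          mul_le_mul_of_nonneg_left h1 hc.le
      _ = (d : ℝ) ^ (n + 1) / 2 := by
          field_simp
  obtain ⟨k1, hk1⟩ := exists_pow_lt_of_lt_one
    (show (0 : ℝ) < ((d : ℝ) - e) / e * θ ^ (i0 + 1) by positivity) hθ1
  refine ⟨max k1 (i0 + 1), fun k hk ν hν0 hν => ?_⟩
  have hkk : k1 ≤ k := (le_max_left _ _).trans hk
  have hki : i0 < k := lt_of_lt_of_le (Nat.lt_succ_self _) ((le_max_right _ _).trans hk)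
  set T : ℕ → ℝ := fun i => ∑ w ∈ E, ∑ w' ∈ E, ν w * ν w' *
      (if ∀ l ≤ i, w l = w' l then ∏ l ∈ Finset.range (i + 1), (e : ℝ) / (m l (w l)) else 0) with hT
  have hen : ∑ w ∈ E, ∑ w' ∈ E, ν w * ν w' * kap m d e k w w' =
      1 - ((d : ℝ) - e) / e * ∑ i ∈ Finset.range k, T i := by
    have h1 : ∑ w ∈ E, ∑ w' ∈ E, ν w * ν w' = 1 := by
      rw [← Finset.sum_mul_sum, hν, one_mul]
    have h2 : ∑ i ∈ Finset.range k, T i = ∑ w ∈ E, ∑ w' ∈ E, ν w * ν w' *
        ∑ i ∈ Finset.range k, (if ∀ l ≤ i, w l = w' l then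
          ∏ l ∈ Finset.range (i + 1), (e : ℝ) / (m l (w l)) else 0) := by
      rw [hT, Finset.sum_comm]
      refine Finset.sum_congr rfl fun w _ => ?_
      rw [Finset.sum_comm]
      refine Finset.sum_congr rfl fun w' _ => ?_
      rw [Finset.mul_sum]
    rw [h2, ← h1, Finset.mul_sum, ← Finset.sum_sub_distrib]
    refine Finset.sum_congr rfl fun w _ => ?_
    rw [Finset.mul_sum, ← Finset.sum_sub_distrib]
    refine Finset.sum_congr rfl fun w' _ => ?_
    have : kap m d e k w w' = 1 - ((d : ℝ) - e) / e *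
        ∑ i ∈ Finset.range k, (if ∀ l ≤ i, w l = w' l then
          ∏ l ∈ Finset.range (i + 1), (e : ℝ) / (m l (w l)) else 0) := by
      unfold kap
      congr!
    rw [this]
    ring
  rw [hen]
  have hlow : ∀ i, θ ^ (i + 1) ≤ T i := by
    intro i
    have := level E m e he hm1 ν hν0 hν i ((d : ℝ) ^ (i + 1)) (by positivity) (by
      have := hD (i + 1)
      have h3 : ((∑ u ∈ E.image (fun w (l : Fin (i + 1)) => w l),
        ∏ l : Fin (i + 1), m l (u l) : ℕ) : ℝ) ≤ ((d ^ (i + 1) : ℕ) : ℝ) := by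
        exact_mod_cast (by convert this)
      simpa using h3)
    rw [hθ, div_pow]
    exact this
  have hlow0 : 2 * θ ^ (i0 + 1) ≤ T i0 := by
    have := level E m e he hm1 ν hν0 hν i0 ((d : ℝ) ^ (i0 + 1) / 2) (by positivity) (by
      refine le_trans ?_ hi0
      have h3 : (∑ u ∈ E.image (fun w (l : Fin (i0 + 1)) => w l),
        ∏ l : Fin (i0 + 1), m l (u l)) ≤ E.card * (d - 1) ^ (i0 + 1) := by
        calc (∑ u ∈ E.image (fun w (l : Fin (i0 + 1)) => w l), ∏ l : Fin (i0 + 1), m l (u l))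
            ≤ ∑ u ∈ E.image (fun w (l : Fin (i0 + 1)) => w l), (d - 1) ^ (i0 + 1) := by
              refine Finset.sum_le_sum fun u hu => ?_
              obtain ⟨w, hw, rfl⟩ := Finset.mem_image.1 hu
              calc ∏ l : Fin (i0 + 1), m l (w l) ≤ ∏ _l : Fin (i0 + 1), (d - 1) :=
                    Finset.prod_le_prod' fun l _ => by
                      have := (hm w hw l).2
                      omega
                _ = (d - 1) ^ (i0 + 1) := by simp
          _ = (E.image (fun w (l : Fin (i0 + 1)) => w l)).card * (d - 1) ^ (i0 + 1) := by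
              rw [Finset.sum_const, smul_eq_mul]
          _ ≤ E.card * (d - 1) ^ (i0 + 1) := Nat.mul_le_mul_right _ Finset.card_image_le
      have h4 : ((∑ u ∈ E.image (fun w (l : Fin (i0 + 1)) => w l),
        ∏ l : Fin (i0 + 1), m l (u l) : ℕ) : ℝ) ≤ ((E.card * (d - 1) ^ (i0 + 1) : ℕ) : ℝ) := by
        exact_mod_cast h3
      rw [Nat.cast_mul, Nat.cast_pow, Nat.cast_sub hd0, Nat.cast_one] at h4
      exact h4)
    calc 2 * θ ^ (i0 + 1) = (e : ℝ) ^ (i0 + 1) / ((d : ℝ) ^ (i0 + 1) / 2) := by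
          rw [hθ, div_pow]; field_simp
      _ ≤ T i0 := this
  have hsum : ∑ i ∈ Finset.range k, θ ^ (i + 1) + θ ^ (i0 + 1) ≤ ∑ i ∈ Finset.range k, T i := by
    have hmem : i0 ∈ Finset.range k := Finset.mem_range.2 hki
    rw [← Finset.add_sum_erase _ _ hmem, ← Finset.add_sum_erase _ T hmem]
    have : ∑ i ∈ (Finset.range k).erase i0, θ ^ (i + 1) ≤ ∑ i ∈ (Finset.range k).erase i0, T i :=
      Finset.sum_le_sum fun i _ => hlow i
    linarith
  have hc0 : 0 < ((d : ℝ) - e) / e := div_pos hde he'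
  have hgeo : ((d : ℝ) - e) / e * ∑ i ∈ Finset.range k, θ ^ (i + 1) = 1 - θ ^ k := by
    have h1 := geo θ k
    have h2 : 1 - θ = ((d : ℝ) - e) / e * θ := by
      rw [hθ]; field_simp
    rw [h2, mul_assoc, mul_left_comm] at h1
    exact mul_left_cancel₀ hθ0.ne' h1
  have hθk : θ ^ k < ((d : ℝ) - e) / e * θ ^ (i0 + 1) :=
    lt_of_le_of_lt (pow_le_pow_of_le_one hθ0.le hθ1.le hkk) hk1
  have := mul_le_mul_of_nonneg_left hsum hc0.le
  rw [mul_add, hgeo] at this
  linarith

end Pool.Agent.Work.MP_91e6de_nt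

end

section

/-! Item FD: degree of a fibre. -/

open Polynomial

namespace Pool.Agent.Work.MP_91e6de_nt

namespace NFD

variable {K W : Type} [Field K] [Field W]

theorem fib_coeff (F : K[X][X]) (φ : K →+* W) (y : W) (i : ℕ) :
    (fib F φ y).coeff i = (F.coeff i).eval₂ φ y := by
  simp [fib, coeff_map]

theorem le_d {g : K[X]} {F : K[X][X]} {d e p q : ℕ} (h : Good g F d e p q) : 2 ≤ d := by
  have h1 := h.he
  have h2 := h.hed
  omega

theorem sub_coeff {F : K[X][X]} (φ : K →+* W) (y b : W) {i : ℕ} (hi : i ≠ 0) :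
    (fib F φ y - C b).coeff i = (F.coeff i).eval₂ φ y := by
  rw [coeff_sub, fib_coeff, coeff_C, if_neg hi, sub_zero]

theorem natDegree_le {F : K[X][X]} (φ : K →+* W) (y b : W) :
    (fib F φ y - C b).natDegree ≤ F.natDegree := by
  refine (natDegree_sub_le _ _).trans (max_le ?_ ?_)
  · exact natDegree_map_le
  · rw [natDegree_C]; exact Nat.zero_le _

end NFD

theorem pr_FD : S_FD := by
  intro K W _ _ φ hφ g F d e p q h y b
  obtain ⟨c, hc, hlead⟩ := h.lead
  have hd := NFD.le_d h
  have hcoef : (fib F φ y - C b).coeff d = φ c := by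
    rw [NFD.sub_coeff φ y b (by omega), hlead, eval₂_C]
  have hne : φ c ≠ 0 := fun h0 => hc ((map_eq_zero φ).1 h0)
  have hdeg : (fib F φ y - C b).natDegree = d := by
    refine natDegree_eq_of_le_of_coeff_ne_zero ?_ (by rw [hcoef]; exact hne)
    rw [← h.hF]
    exact NFD.natDegree_le φ y b
  refine ⟨hdeg, ?_⟩
  rw [leadingCoeff, hdeg, hcoef]
  exact hφ c hc

end Pool.Agent.Work.MP_91e6de_nt

end

section

/-!
# MP_91e6de: item FO, the Galois orbit of a choice of centres is finite
-/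

set_option autoImplicit false

open Polynomial

namespace Pool.Agent.Work.MP_91e6de_nt

namespace NFO

theorem xs_map {K L W : Type} [Field K] [Field L] [Field W] [Algebra L W] (φ : K →+* L)
    (g : K[X]) (x : L) (j : ℕ) :
    xs g ((algebraMap L W).comp φ) (algebraMap L W x) j = algebraMap L W (xs g φ x j) := by
  induction j with
  | zero => rfl
  | succ j ih =>
    have e : xs g ((algebraMap L W).comp φ) (algebraMap L W x) (j + 1) =
      g.eval₂ ((algebraMap L W).comp φ) (xs g ((algebraMap L W).comp φ) (algebraMap L W x) j) := rfl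
    rw [e, ih]
    have e2 : xs g φ x (j + 1) = g.eval₂ φ (xs g φ x j) := rfl
    rw [e2, Polynomial.hom_eval₂]

/-- A root close to `u`. -/
theorem exists_root {W : Type} [NormedField W] [IsAlgClosed W] (q : ℕ) (hq : 0 < q) (y u : W)
    (ρ : ℝ) (h0 : 0 ≤ ρ) (h : ‖u ^ q - y‖ < ρ ^ q) : ∃ t : W, t ^ q = y ∧ ‖u - t‖ < ρ := by
  classical
  by_contra hcon
  push Not at hcon
  set P : W[X] := X ^ q - C y with hP
  have hmon : P.Monic := monic_X_pow_sub_C y hq.ne'
  have hdeg : P.natDegree = q := natDegree_X_pow_sub_C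
  have hsp : P.Splits := IsAlgClosed.splits P
  have hprod : P = (P.roots.map fun a => X - C a).prod := by
    have := hsp.eq_prod_roots
    rw [hmon.leadingCoeff, C_1, one_mul] at this
    exact this
  have hcard : P.roots.card = q := by
    rw [← hsp.natDegree_eq_card_roots, hdeg]
  have hev : u ^ q - y = (P.roots.map fun a => u - a).prod := by
    have : P.eval u = u ^ q - y := by simp [hP]
    rw [← this]
    conv_lhs => rw [hprod]
    rw [eval_multiset_prod, Multiset.map_map]
    congr 1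
    refine Multiset.map_congr rfl fun a _ => ?_
    simp
  have hroots : ∀ a ∈ P.roots, a ^ q = y := by
    intro a ha
    have := (mem_roots'.1 ha).2
    rw [IsRoot.def, hP] at this
    simp only [eval_sub, eval_pow, eval_X, eval_C] at this
    exact sub_eq_zero.1 this
  have hge : ∀ m : Multiset W, (∀ a ∈ m, ρ ≤ ‖u - a‖) →
      ρ ^ m.card ≤ ‖(m.map fun a => u - a).prod‖ := by
    intro m
    induction m using Multiset.induction_on with
    | empty => intro _; simp
    | cons a m ih =>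
      intro hm
      rw [Multiset.map_cons, Multiset.prod_cons, norm_mul, Multiset.card_cons, pow_succ, mul_comm]
      exact mul_le_mul (hm a (Multiset.mem_cons_self a m))
        (ih fun b hb => hm b (Multiset.mem_cons_of_mem hb)) (pow_nonneg h0 _) (norm_nonneg _)
  have := hge P.roots fun a ha => hcon a (hroots a ha)
  rw [hcard, ← hev] at this
  exact absurd h (not_lt.2 this)

/-- The range of a map on automorphisms which depends on the values at finitely many algebraic
elements only is finite. -/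
theorem finite_of {L W α : Type} [Field L] [Field W] [Algebra L W] [Algebra.IsAlgebraic L W]
    (S : Finset W) (f : (W ≃ₐ[L] W) → α)
    (h : ∀ σ τ : W ≃ₐ[L] W, (∀ a ∈ S, σ a = τ a) → f σ = f τ) : (Set.range f).Finite := by
  classical
  -- the values at the elements of `S`
  let Φ : (W ≃ₐ[L] W) → (S → W) := fun σ a => σ a
  have hfin : (Set.range Φ).Finite := by
    have hR : (Set.univ.pi fun a : S =>
        (((minpoly L (a : W)).map (algebraMap L W)).roots.toFinset : Set W)).Finite :=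
      Set.Finite.pi fun a => Finset.finite_toSet _
    refine hR.subset ?_
    rintro _ ⟨σ, rfl⟩ a _
    have halg : IsAlgebraic L (a : W) := Algebra.IsAlgebraic.isAlgebraic _
    have hne : minpoly L (a : W) ≠ 0 := minpoly.ne_zero halg.isIntegral
    simp only [Finset.mem_coe, Multiset.mem_toFinset]
    rw [mem_roots (map_ne_zero hne), IsRoot.def, eval_map_algebraMap]
    have h1 := minpoly.aeval L (a : W)
    have h2 : aeval (σ (a : W)) (minpoly L (a : W)) = σ (aeval (a : W) (minpoly L (a : W))) :=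
      aeval_algHom_apply (σ : W →ₐ[L] W) (a : W) (minpoly L (a : W))
    rw [h2, h1, map_zero]
  have hne : Nonempty α := ⟨f AlgEquiv.refl⟩
  let Ψ : (S → W) → α := fun v => if hv : ∃ σ, Φ σ = v then f hv.choose else Classical.arbitrary α
  refine (hfin.image Ψ).subset ?_
  rintro _ ⟨σ, rfl⟩
  refine ⟨Φ σ, ⟨σ, rfl⟩, ?_⟩
  have hv : ∃ τ, Φ τ = Φ σ := ⟨σ, rfl⟩
  have e : Ψ (Φ σ) = f hv.choose := dif_pos hv
  rw [e]
  refine h _ _ fun a ha => ?_
  exact congrFun hv.choose_spec ⟨a, ha⟩

end NFO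

open NFO in
theorem pr_FO (h1 : S_X1) (h0 : S_TV) (h2 : S_LP2) : S_FO := by
  classical
  intro K L W _ _ _ _ _ _ _ _ φ hφ hLW hσ x hx g F d e p q hG c hc
  set ψ : K →+* W := (algebraMap L W).comp φ with hψ
  have hψ1 : ∀ a : K, a ≠ 0 → ‖ψ a‖ = 1 := by
    intro a ha
    have : ψ a = algebraMap L W (φ a) := rfl
    rw [this, hLW, hφ a ha]
  set y : ℕ → W := fun j => xs g ψ (algebraMap L W x) j with hy
  have hys : ∀ j, y (j + 1) = g.eval₂ ψ (y j) := fun j => rfl
  have hfix : ∀ (σ : W ≃ₐ[L] W) (j : ℕ), σ (y j) = y j := by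
    intro σ j
    have : y j = algebraMap L W (xs g φ x j) := xs_map φ g x j
    rw [this, σ.commutes]
  have hg0 : g ≠ 0 := by
    rintro rfl
    have := hG.hg
    have := hG.he
    simp at *
    omega
  have hge : g.natDegree = e := hG.hg
  have hq := hG.hq
  have hynorm : ∀ j, 1 < ‖y j‖ := by
    intro j
    induction j with
    | zero =>
      have : y 0 = algebraMap L W x := rfl
      rw [this, hLW, hx]
      exact Real.one_lt_exp_iff.2 one_pos
    | succ j ih =>
      rw [hys, (h1 K W ψ hψ1 g (y j) ih hg0).1, hge]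
      exact one_lt_pow₀ ih (by have := hG.he; omega)
  obtain ⟨z0, hz0⟩ := IsAlgClosed.exists_pow_nat_eq (y 0) hq
  obtain ⟨gam, hgam⟩ := IsAlgClosed.exists_pow_nat_eq (ψ g.leadingCoeff) hq
  have hlc : g.leadingCoeff ≠ 0 := leadingCoeff_ne_zero.2 hg0
  have hgam1 : ‖gam‖ = 1 := by
    have : ‖gam‖ ^ q = 1 := by rw [← norm_pow, hgam, hψ1 _ hlc]
    exact (pow_eq_one_iff_of_nonneg (norm_nonneg _) hq.ne').1 this
  -- the claim
  have claim : ∀ j, ∃ z : W, z ^ q = y j ∧
      ∀ σ : W ≃ₐ[L] W, σ z0 = z0 → σ gam = gam → σ z = z := by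
    intro j
    induction j with
    | zero => exact ⟨z0, hz0, fun σ h _ => h⟩
    | succ j ih =>
      obtain ⟨z, hz, hzσ⟩ := ih
      have hzn : ‖z‖ ^ q = ‖y j‖ := by rw [← norm_pow, hz]
      have hyj := hynorm j
      have hz0' : 0 < ‖z‖ := by
        rcases (norm_nonneg z).eq_or_lt with h | h
        · rw [← h, zero_pow hq.ne'] at hzn
          linarith
        · exact h
      set ρ : ℝ := ‖z‖ ^ e with hρ
      have hρ0 : 0 < ρ := pow_pos hz0' e
      have hρq : ρ ^ q = ‖y j‖ ^ e := by rw [hρ, ← pow_mul, mul_comm, pow_mul, hzn]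
      set u : W := gam * z ^ e with hu
      have huq : u ^ q = ψ g.leadingCoeff * y j ^ e := by
        rw [hu, mul_pow, hgam, ← pow_mul, mul_comm e q, pow_mul, hz]
      obtain ⟨hX1, hX2⟩ := h1 K W ψ hψ1 g (y j) hyj hg0
      rw [hge] at hX1 hX2
      have hlt : ‖u ^ q - y (j + 1)‖ < ρ ^ q := by
        rw [huq, hρq, hys, norm_sub_rev]
        exact hX2
      obtain ⟨t, ht, htu⟩ := exists_root q hq (y (j + 1)) u ρ hρ0.le hlt
      have hnorm : ∀ t : W, t ^ q = y (j + 1) → ‖t‖ = ρ := by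
        intro t ht
        have : ‖t‖ ^ q = ρ ^ q := by rw [← norm_pow, ht, hys, hX1, hρq]
        exact (pow_left_inj₀ (norm_nonneg _) hρ0.le hq.ne').1 this
      have huniq : ∀ t' : W, t' ^ q = y (j + 1) → ‖u - t'‖ < ρ → t' = t := by
        intro t' ht' htu'
        by_contra hne
        have ht0 : t ≠ 0 := by
          rintro rfl
          have := hnorm 0 ht
          rw [norm_zero] at this
          linarith
        have hdist : ‖t' - t‖ < ρ := by
          have e1 : t' - t = (u - t) - (u - t') := by ring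
          rw [e1, sub_eq_add_neg]
          refine lt_of_le_of_lt (IsUltrametricDist.norm_add_le_max _ _) (max_lt htu ?_)
          rw [norm_neg]
          exact htu'
        set w : W := t' / t with hw
        have hwq : w ^ q = 1 := by
          rw [hw, div_pow, ht', ht]
          refine div_self ?_
          intro h
          have := hynorm (j + 1)
          rw [h, norm_zero] at this
          linarith
        have hP0 : (X ^ q - 1 : K[X]) ≠ 0 := X_pow_sub_C_ne_zero hq 1
        have hmem : ∀ v : W, v ^ q = 1 → v ∈ ((X ^ q - 1 : K[X]).map ψ).roots := by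
          intro v hv
          rw [mem_roots (map_ne_zero hP0), IsRoot.def]
          simp [hv]
        have hw1 : w ≠ 1 := by
          intro h
          rw [hw, div_eq_one_iff_eq ht0] at h
          exact hne h
        have h3 := (h0 K W ψ hψ1 (X ^ q - 1) hP0 w (hmem w hwq) 1 (hmem 1 (one_pow q))).2 hw1
        have h4 : t' - t = t * (w - 1) := by
          rw [hw]
          field_simp
        rw [h4, norm_mul, h3, mul_one, hnorm t ht] at hdist
        exact lt_irrefl _ hdist
      refine ⟨t, ht, fun σ hs1 hs2 => ?_⟩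
      have hσz := hzσ σ hs1 hs2
      have hσu : σ u = u := by rw [hu, map_mul, map_pow, hs2, hσz]
      refine huniq (σ t) ?_ ?_
      · rw [← map_pow, ht, hfix]
      · have : u - σ t = σ (u - t) := by rw [map_sub, hσu]
        rw [this, hσ]
        exact htu
  choose z hz hzσ using claim
  have hz0' : ∀ j, z j ≠ 0 := by
    intro j h
    have h3 := hz j
    rw [h, zero_pow hq.ne'] at h3
    have := hynorm j
    rw [← h3, norm_zero] at this
    linarith
  have hcz : ∀ j, ∃ ζ ∈ ((leadK F p q d).map ψ).roots, c j = z j ^ p * ζ := by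
    intro j
    have h3 := hc j
    rw [h2 K W ψ g F d e p q hG (y j) (z j) (hz0' j) (hz j)] at h3
    obtain ⟨ζ, hζ, h4⟩ := Multiset.mem_map.1 h3
    exact ⟨ζ, hζ, h4.symm⟩
  choose ζ hζ hcζ using hcz
  have hset : {c' : ℕ → W | ∃ σ : W ≃ₐ[L] W, c' = fun j => σ (c j)} =
      Set.range (fun (σ : W ≃ₐ[L] W) (j : ℕ) => σ (c j)) := by
    ext c'
    constructor
    · rintro ⟨σ, h⟩
      exact ⟨σ, h.symm⟩
    · rintro ⟨σ, h⟩
      exact ⟨σ, h.symm⟩
  rw [hset]
  refine finite_of (L := L) ({z0, gam} ∪ ((leadK F p q d).map ψ).roots.toFinset) _ ?_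
  intro σ τ hστ
  funext j
  have a1 : σ z0 = τ z0 := hστ z0 (by simp)
  have a2 : σ gam = τ gam := hστ gam (by simp)
  have a3 : σ (ζ j) = τ (ζ j) := hστ (ζ j) (by simp [-mem_roots', hζ j])
  have a4 : σ (z j) = τ (z j) := by
    have h5 := hzσ j (σ.trans τ.symm) (by simp [a1]) (by simp [a2])
    have h6 : τ.symm (σ (z j)) = z j := h5
    rw [← h6, τ.apply_symm_apply, h6]
  rw [hcζ j, map_mul, map_mul, map_pow, map_pow, a3, a4]

end Pool.Agent.Work.MP_91e6de_nt

end

section

/-! item FS: the system of fibres -/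

open Polynomial

namespace Pool.Agent.Work.MP_91e6de_nt

open Classical in
theorem pr_FS (hx : S_X2) (hf : S_FD) (hr : S_RB) (h1 : S_LP1) (hl : S_LP) (hd : S_DF)
    (hc : S_CR) : S_FS := by
  intro K W _ _ _ _ _ φ hφ g F d e p q hG x hxn
  have hy : ∀ j, ‖xs g φ x j‖ = Real.exp ((e : ℝ) ^ j) := by
    intro j
    have := hx K W φ hφ g x (by rw [hG.hg]; exact hG.he) hxn j
    rwa [hG.hg] at this
  have he0 : (0 : ℝ) < e := by exact_mod_cast hG.he
  have hq0 : (0 : ℝ) < q := by exact_mod_cast hG.hq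
  have hp0 : (0 : ℝ) < p := by exact_mod_cast hG.hp
  have hy1 : ∀ j, 1 < ‖xs g φ x j‖ := by
    intro j
    rw [hy, Real.one_lt_exp_iff]
    positivity
  have hr0 : ∀ j, 0 < rad ((p : ℝ) / q) e j := fun j => Real.exp_pos _
  have hrq : ∀ j, rad ((p : ℝ) / q) e j ^ q = ‖xs g φ x j‖ ^ p := by
    intro j
    rw [hy]
    unfold rad
    rw [← Real.exp_nat_mul, ← Real.exp_nat_mul]
    congr 1
    field_simp
  have hrs : ∀ j, rad ((p : ℝ) / q) e (j + 1) = rad ((p : ℝ) / q) e j ^ e := by
    intro j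
    unfold rad
    rw [← Real.exp_nat_mul]
    congr 1
    ring
  have hLP : ∀ j, _ := fun j => hl K W φ hφ g F d e p q hG (xs g φ x j)
    (rad ((p : ℝ) / q) e j) (hy1 j) (hr0 j) (hrq j)
  have hroots_le : ∀ j b, ‖b‖ ≤ rad ((p : ℝ) / q) e (j + 1) →
      ∀ β ∈ (fib F φ (xs g φ x j) - C b).roots, ‖β‖ ≤ rad ((p : ℝ) / q) e j := by
    intro j b hb
    exact hr K W φ hφ g F d e p q hG (xs g φ x j) b (rad ((p : ℝ) / q) e j) (hy1 j) (hr0 j)
      (hrq j) (by rw [← hrs]; exact hb)
  have hcont : ∀ j b, ‖b‖ ≤ rad ((p : ℝ) / q) e (j + 1) →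
      ∀ c ∈ (leadP F p q d φ (xs g φ x j)).roots,
      (disc (fib F φ (xs g φ x j) - C b).roots c (rad ((p : ℝ) / q) e j)).card =
        mcount (leadP F p q d φ (xs g φ x j)).roots c := by
    intro j b hb c hcc
    obtain ⟨z, hz⟩ := IsAlgClosed.exists_pow_nat_eq (xs g φ x j) hG.hq
    have hz1 : ‖z‖ ^ q = ‖xs g φ x j‖ := by rw [← hz, norm_pow]
    have hrz : rad ((p : ℝ) / q) e j = ‖z ^ p‖ := by
      have h : rad ((p : ℝ) / q) e j ^ q = (‖z ^ p‖) ^ q := by
        rw [hrq, ← hz1, norm_pow, ← pow_mul, ← pow_mul, mul_comm]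
      exact (pow_left_inj₀ (hr0 j).le (norm_nonneg _) hG.hq.ne').1 h
    have hz0 : z ^ p ≠ 0 := by
      rw [← norm_pos_iff, ← hrz]; exact hr0 j
    have h2 := hf K W φ hφ g F d e p q hG (xs g φ x j) b
    have h3 := h1 K W φ hφ g F d e p q hG (xs g φ x j)
    have h4 := hc W d (fib F φ (xs g φ x j) - C b) (leadP F p q d φ (xs g φ x j)) (z ^ p) c hz0
      h2.1 h3.1 h2.2 h3.2 (by rw [← hrz]; exact hroots_le j b hb)
      (by rw [← hrz]; exact (hLP j).2.1)
      (by
        rw [← hrz]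
        exact hd K W φ hφ g F d e p q hG (xs g φ x j) b (rad ((p : ℝ) / q) e j) (hy1 j) (hr0 j)
          (hrq j) (by rw [← hrs]; exact hb))
      (by rw [← hrz]; exact (hLP j).2.1 c hcc)
    rw [← hrz] at h4
    rw [h4]
    unfold disc mcount
    rw [Multiset.count_eq_card_filter_eq]
    congr 1
    apply Multiset.filter_congr
    intro β hβ
    constructor
    · intro hlt
      by_contra hne
      have := (hLP j).2.2.1 β hβ c hcc (fun h => hne h.symm)
      rw [this] at hlt
      exact lt_irrefl _ hlt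
    · rintro rfl
      rw [sub_self, norm_zero]
      exact hr0 j
  have hf0 : ∀ j, (fib F φ (xs g φ x j)).natDegree = d ∧
      ‖(fib F φ (xs g φ x j)).leadingCoeff‖ = 1 := by
    intro j
    have := hf K W φ hφ g F d e p q hG (xs g φ x j) 0
    simpa using this
  exact ⟨{ A := fun j => fib F φ (xs g φ x j)
           cen := fun j => (leadP F p q d φ (xs g φ x j)).roots
           deg := fun j => (hf0 j).1
           lead := fun j => (hf0 j).2
           cen_card := fun j => (hLP j).1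
           cen_le := fun j => (hLP j).2.1
           cen_sep := fun j => (hLP j).2.2.1
           cen_count := fun j => (hLP j).2.2.2
           roots_le := hroots_le
           cont := hcont }, rfl, rfl⟩

end Pool.Agent.Work.MP_91e6de_nt

end

section

/-!
# MP_91e6de: item G1 (automorphisms and `Cset`)
-/

set_option autoImplicit false

open Polynomial

namespace Pool.Agent.Work.MP_91e6de_nt

namespace NG1

theorem roots_map_equiv {W : Type} [Field W] (σ : W ≃+* W) (p : W[X]) :
    (p.map (σ : W →+* W)).roots = p.roots.map σ := by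
  apply le_antisymm
  · have h := map_roots_le_of_injective (p.map (σ : W →+* W)) (f := (σ.symm : W →+* W))
      σ.symm.injective
    have h1 : (p.map (σ : W →+* W)).map (σ.symm : W →+* W) = p := by
      rw [Polynomial.map_map]
      have : (σ.symm : W →+* W).comp (σ : W →+* W) = RingHom.id W := by
        ext a
        simp
      rw [this, Polynomial.map_id]
    rw [h1] at h
    have h2 := Multiset.map_le_map (f := σ) h
    rw [Multiset.map_map] at h2
    have h3 : (⇑σ ∘ ⇑(σ.symm : W →+* W)) = id := by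
      funext a
      simp
    rw [h3, Multiset.map_id] at h2
    exact h2
  · exact map_roots_le_of_injective p (f := (σ : W →+* W)) σ.injective

end NG1

open NG1 in
theorem pr_G1 : S_G1 := by
  intro W _ d e s S σ hσ hA c n
  induction n with
  | zero =>
    intro j
    simp [FSys.Cset]
  | succ n ih =>
    intro j
    rw [FSys.Cset, FSys.Cset, Multiset.map_bind, ← ih (j + 1), Multiset.bind_map]
    refine Multiset.bind_congr fun b _ => ?_
    have h1 : (S.A j - C (σ b)).roots = (S.A j - C b).roots.map σ := by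
      rw [← roots_map_equiv]
      congr 1
      rw [Polynomial.map_sub, hA, Polynomial.map_C]
      rfl
    unfold disc
    rw [h1, Multiset.filter_map]
    congr 1
    refine Multiset.filter_congr fun β _ => ?_
    rw [Function.comp_apply, ← map_sub, hσ]

end Pool.Agent.Work.MP_91e6de_nt

end

section

open Polynomial

namespace Pool.Agent.Work.MP_91e6de_nt

theorem pr_G2 : S_G2 := by
  intro L W _ _ _ _ _ _ Q hQ
  have : Normal L W := by
    refine ⟨fun x => ?_⟩
    exact IsAlgClosed.splits _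
  have : IsGalois L W := {}
  have h : Q ∈ Polynomial.lifts (algebraMap L W) := by
    rw [Polynomial.lifts_iff_coeff_lifts]
    intro n
    have h1 : ∀ σ : W ≃ₐ[L] W, σ (Q.coeff n) = Q.coeff n := by
      intro σ
      conv_rhs => rw [← hQ σ]
      rw [coeff_map]
      rfl
    have h2 := (InfiniteGalois.mem_bot_iff_fixed (k := L) (K := W) (Q.coeff n)).2 h1
    rw [IntermediateField.mem_bot] at h2
    exact h2
  rw [Polynomial.mem_lifts] at h
  exact h

end Pool.Agent.Work.MP_91e6de_nt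

end

section

/-!
# MP_91e6de, item G3: everything is defined over the base (helper69)
-/

open Polynomial

namespace Pool.Agent.Work.MP_91e6de_nt

namespace NG3

theorem xs_map {K L W : Type} [Field K] [Field L] [Field W] (ρ : L →+* W) (φ : K →+* L)
    (x : L) (g : K[X]) (j : ℕ) : xs g (ρ.comp φ) (ρ x) j = ρ (xs g φ x j) := by
  induction j with
  | zero => rfl
  | succ j ih =>
    show g.eval₂ (ρ.comp φ) (xs g (ρ.comp φ) (ρ x) j) = ρ (g.eval₂ φ (xs g φ x j))
    rw [ih, hom_eval₂]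

theorem fib_map {K L W : Type} [Field K] [Field L] [Field W] (ρ : L →+* W) (φ : K →+* L)
    (t : L) (F : K[X][X]) : fib F (ρ.comp φ) (ρ t) = (fib F φ t).map ρ := by
  unfold fib
  rw [Polynomial.map_map]
  congr 1
  refine RingHom.ext fun P => ?_
  simp only [coe_eval₂RingHom, RingHom.coe_comp, Function.comp_apply]
  rw [hom_eval₂]

theorem leadP_map {K L W : Type} [Field K] [Field L] [Field W] (ρ : L →+* W) (φ : K →+* L)
    (t : L) (F : K[X][X]) (p q d : ℕ) :
    leadP F p q d (ρ.comp φ) (ρ t) = (leadP F p q d φ t).map ρ := by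
  unfold leadP
  rw [Polynomial.map_sum]
  refine Finset.sum_congr rfl fun i _ => ?_
  split_ifs
  · rw [Polynomial.map_mul, Polynomial.map_pow, Polynomial.map_C, Polynomial.map_X]
    congr 2
    rw [map_mul, map_pow]
    rfl
  · rw [Polynomial.map_zero]

theorem fix {L W : Type} [Field L] [Field W] [Algebra L W] (σ : W ≃ₐ[L] W) (P : L[X]) :
    (P.map (algebraMap L W)).map (σ : W →+* W) = P.map (algebraMap L W) := by
  rw [Polynomial.map_map]
  congr 1
  refine RingHom.ext fun a => ?_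
  exact σ.commutes a

end NG3

open NG3 in
theorem pr_G3 : S_G3 := by
  classical
  intro K L W _ _ _ _ φ x g F d p q σ j
  rw [xs_map]
  refine ⟨?_, fun c => ?_⟩
  · rw [fib_map, fix]
  · rw [leadP_map]
    unfold mcount
    rw [count_roots, count_roots]
    conv_lhs => rw [← fix σ]
    exact (eq_rootMultiplicity_map (f := (σ : W →+* W)) σ.injective c).symm

end Pool.Agent.Work.MP_91e6de_nt

end

section

/-!
# MP_91e6de: item H1, comparison of heights
-/

open Polynomial Filter Topology Height Height.AdmissibleAbsValues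

namespace Pool.Agent.Work.MP_91e6de_nt

namespace NH1

variable {K : Type} [Field K] [NumberField K]

theorem fin_supp (x : K) :
    (Function.support fun v : nonarchAbsVal (K := K) => Real.posLog (v.val x)).Finite := by
  rcases eq_or_ne x 0 with rfl | hx
  · simp
  · have h : (fun v : nonarchAbsVal (K := K) => v.val x).HasFiniteMulSupport := by fun_prop
    refine Set.Finite.subset h fun v hv => ?_
    intro h1
    apply hv
    simp only at h1
    simp [h1]

theorem log_le (x : K) (v : AbsoluteValue K ℝ) (hv : IsPl v) : Real.log (v x) ≤ logHeight₁ x := by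
  have h0 : Real.log (v x) ≤ Real.posLog (v x) := le_max_right _ _
  refine h0.trans ?_
  rw [logHeight₁_eq]
  have hs1 : 0 ≤ (archAbsVal.map fun v : AbsoluteValue K ℝ => Real.posLog (v x)).sum :=
    Multiset.sum_nonneg fun a ha => by
      obtain ⟨w, -, rfl⟩ := Multiset.mem_map.mp ha
      exact Real.posLog_nonneg
  have hs2 : 0 ≤ ∑ᶠ v : nonarchAbsVal (K := K), Real.posLog (v.val x) :=
    finsum_nonneg fun v => Real.posLog_nonneg
  rcases hv with hv | hv
  · have : Real.posLog (v x) ≤ (archAbsVal.map fun v : AbsoluteValue K ℝ =>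
        Real.posLog (v x)).sum := by
      refine Multiset.single_le_sum (fun a ha => ?_) _
        (Multiset.mem_map_of_mem (fun v : AbsoluteValue K ℝ => Real.posLog (v x)) hv)
      obtain ⟨w, -, rfl⟩ := Multiset.mem_map.mp ha
      exact Real.posLog_nonneg
    linarith
  · have : Real.posLog (v x) ≤ ∑ᶠ v : nonarchAbsVal (K := K), Real.posLog (v.val x) :=
      single_le_finsum (f := fun v : nonarchAbsVal (K := K) => Real.posLog (v.val x))
        (⟨v, hv⟩ : nonarchAbsVal (K := K)) (fin_supp x) (fun _ => Real.posLog_nonneg)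
    linarith

end NH1

theorem pr_H1 : S_H1 := by
  intro K _ _ P
  refine ⟨fun v hv => ⟨NH1.log_le P.1 v hv, NH1.log_le P.2 v hv⟩, ?_, ?_, ?_⟩
  · rw [logHeight₁_eq_logHeight]
    have h := logHeight_comp_le (![0, 2] : Fin 2 → Fin 3) ![P.1, P.2, 1]
    have h1 : ![P.1, P.2, 1] ∘ (![0, 2] : Fin 2 → Fin 3) = ![P.1, 1] := by
      ext i
      fin_cases i <;> rfl
    rwa [h1] at h
  · rw [logHeight₁_eq_logHeight]
    have h := logHeight_comp_le (![1, 2] : Fin 2 → Fin 3) ![P.1, P.2, 1]
    have h1 : ![P.1, P.2, 1] ∘ (![1, 2] : Fin 2 → Fin 3) = ![P.2, 1] := by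
      ext i
      fin_cases i <;> rfl
    rwa [h1] at h
  · rw [logHeight₁_eq_logHeight, logHeight₁_eq_logHeight]
    have hx : ![P.1, 1] ≠ 0 := by
      intro h
      have := congrFun h 1
      simp at this
    have hy : ![P.2, 1] ≠ 0 := by
      intro h
      have := congrFun h 1
      simp at this
    rw [← logHeight_fun_mul_eq hx hy]
    have h := logHeight_comp_le (![(0, 1), (1, 0), (1, 1)] : Fin 3 → Fin 2 × Fin 2)
      (fun a : Fin 2 × Fin 2 => ![P.1, 1] a.1 * ![P.2, 1] a.2)
    have h1 : (fun a : Fin 2 × Fin 2 => ![P.1, 1] a.1 * ![P.2, 1] a.2) ∘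
        (![(0, 1), (1, 0), (1, 1)] : Fin 3 → Fin 2 × Fin 2) = ![P.1, P.2, 1] := by
      ext i
      fin_cases i <;> simp
    rwa [h1] at h

end Pool.Agent.Work.MP_91e6de_nt

end

section

/-!
# HB: lower bound of heights in the base
-/

open Polynomial Filter Topology Height Height.AdmissibleAbsValues

namespace Pool.Agent.Work.MP_91e6de_nt

namespace NHB

/-- bad places of an element -/
theorem bad1 {K : Type} [Field K] [NumberField K] (x : K) : ∃ T : Finset (AbsoluteValue K ℝ),
    ∀ v ∈ nonarchAbsVal (K := K), v ∉ T → v x ≤ 1 ∧ (x ≠ 0 → v x = 1) := by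
  classical
  by_cases hx : x = 0
  · refine ⟨∅, fun v _ _ => ⟨?_, fun h => absurd hx h⟩⟩
    rw [hx, map_zero]
    exact zero_le_one
  · have h1 : (Function.mulSupport fun v : nonarchAbsVal (K := K) => v.val x).Finite :=
      hasFiniteMulSupport hx
    refine ⟨(h1.image Subtype.val).toFinset, fun v hv hvT => ?_⟩
    have h2 : v x = 1 := by
      by_contra hne
      apply hvT
      rw [Set.Finite.mem_toFinset]
      exact ⟨⟨v, hv⟩, hne, rfl⟩
    exact ⟨h2.le, fun _ => h2⟩

theorem bad {K : Type} [Field K] [NumberField K] (g : K[X]) :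
    ∃ T : Finset (AbsoluteValue K ℝ), ∀ v ∈ nonarchAbsVal (K := K), v ∉ T → ∀ i ≤ g.natDegree,
      v (g.coeff i) ≤ 1 ∧ (g.coeff i ≠ 0 → v (g.coeff i) = 1) := by
  classical
  choose T hT using fun i : ℕ => bad1 (g.coeff i)
  refine ⟨(Finset.range (g.natDegree + 1)).biUnion T, fun v hv hvT i hi => hT i v hv fun h => ?_⟩
  exact hvT (Finset.mem_biUnion.2 ⟨i, Finset.mem_range.2 (by omega), h⟩)

/-- the split of the value -/
theorem eval_split {K : Type} [Field K] (g : K[X]) (x : K) : g.eval x =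
    (∑ i ∈ Finset.range g.natDegree, g.coeff i * x ^ i) + g.leadingCoeff * x ^ g.natDegree := by
  rw [eval_eq_sum_range, Finset.sum_range_succ]
  rfl

/-- the local constant -/
noncomputable def Bv {K : Type} [Field K] (g : K[X]) (v : AbsoluteValue K ℝ) : ℝ :=
  max (2 / v g.leadingCoeff) (max 1 (2 * (∑ i ∈ Finset.range g.natDegree, v (g.coeff i)) /
    v g.leadingCoeff) ^ g.natDegree)

theorem Bv_one {K : Type} [Field K] (g : K[X]) (v : AbsoluteValue K ℝ) : 1 ≤ Bv g v :=
  le_max_of_le_right (one_le_pow₀ (le_max_left _ _))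

theorem local1 {K : Type} [Field K] (g : K[X]) (hg : 1 ≤ g.natDegree) (v : AbsoluteValue K ℝ)
    (x : K) : max 1 (v x) ^ g.natDegree ≤ Bv g v * max 1 (v (g.eval x)) := by
  have hg0 : g ≠ 0 := by
    rintro rfl
    simp at hg
  have hl : 0 < v g.leadingCoeff := v.pos (leadingCoeff_ne_zero.2 hg0)
  obtain ⟨l, hld⟩ : ∃ l, l = v g.leadingCoeff := ⟨_, rfl⟩
  obtain ⟨S, hSd⟩ : ∃ S, S = ∑ i ∈ Finset.range g.natDegree, v (g.coeff i) := ⟨_, rfl⟩
  obtain ⟨X, hX⟩ : ∃ X, X = max 1 (v x) := ⟨_, rfl⟩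
  have hX1 : 1 ≤ X := by rw [hX]; exact le_max_left _ _
  have hm1 : 1 ≤ max 1 (v (g.eval x)) := le_max_left _ _
  rw [← hX]
  rw [← hld] at hl
  by_cases hbig : 2 * S / l ≤ X ∧ 1 ≤ v x
  · obtain ⟨hb, h1⟩ := hbig
    have hXv : X = v x := by rw [hX]; exact max_eq_right h1
    -- lower bound
    have h2 : v (∑ i ∈ Finset.range g.natDegree, g.coeff i * x ^ i) ≤ S * X ^ (g.natDegree - 1) := by
      refine (v.sum_le _ _).trans ?_
      rw [hSd, Finset.sum_mul]
      refine Finset.sum_le_sum fun i hi => ?_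
      rw [map_mul, map_pow, ← hXv]
      have hi' := Finset.mem_range.1 hi
      exact mul_le_mul_of_nonneg_left (pow_le_pow_right₀ hX1 (by omega)) (v.nonneg _)
    have h3 : l * X ^ g.natDegree ≤ v (g.eval x) + S * X ^ (g.natDegree - 1) := by
      have h4 : g.leadingCoeff * x ^ g.natDegree = g.eval x -
          ∑ i ∈ Finset.range g.natDegree, g.coeff i * x ^ i := by
        rw [eval_split]
        ring
      have h5 : l * X ^ g.natDegree = v (g.leadingCoeff * x ^ g.natDegree) := by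
        rw [map_mul, map_pow, hld, hXv]
      rw [h5, h4]
      exact (v.sub_le_add _ _).trans (by gcongr)
    have h6 : 2 * S ≤ l * X := by
      rw [div_le_iff₀ hl] at hb
      linarith
    have h7 : X ^ g.natDegree = X * X ^ (g.natDegree - 1) := by
      rw [← pow_succ']
      congr 1
      omega
    have hXp : 0 < X ^ (g.natDegree - 1) := by positivity
    have h8 : l * X ^ g.natDegree ≤ 2 * v (g.eval x) := by
      have h9 : S * X ^ (g.natDegree - 1) ≤ l * X ^ g.natDegree / 2 := by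
        rw [h7]
        nlinarith
      linarith
    have h10 : X ^ g.natDegree ≤ 2 / l * v (g.eval x) := by
      rw [div_mul_eq_mul_div, le_div_iff₀ hl]
      linarith
    refine h10.trans (mul_le_mul ?_ (le_max_right _ _) (v.nonneg _) (zero_le_one.trans (Bv_one g v)))
    rw [hld]
    exact le_max_left _ _
  · have h1 : X ≤ max 1 (2 * S / l) := by
      by_cases h2 : 2 * S / l ≤ X
      · have h3 : v x < 1 := by
          by_contra hc
          exact hbig ⟨h2, not_lt.1 hc⟩
        rw [hX, max_eq_left h3.le]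
        exact le_max_left _ _
      · exact le_max_of_le_right (not_le.1 h2).le
    have h2 : X ^ g.natDegree ≤ Bv g v := by
      refine (pow_le_pow_left₀ (zero_le_one.trans hX1) h1 _).trans ?_
      rw [hSd, hld]
      exact le_max_right _ _
    calc X ^ g.natDegree ≤ Bv g v := h2
      _ = Bv g v * 1 := (mul_one _).symm
      _ ≤ _ := mul_le_mul_of_nonneg_left hm1 (zero_le_one.trans (Bv_one g v))

theorem local2 {K : Type} [Field K] (g : K[X]) (hg : 1 ≤ g.natDegree) (v : AbsoluteValue K ℝ)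
    (hv : IsNonarchimedean v) (hc : ∀ i ≤ g.natDegree,
      v (g.coeff i) ≤ 1 ∧ (g.coeff i ≠ 0 → v (g.coeff i) = 1)) (x : K) :
    max 1 (v x) ^ g.natDegree ≤ max 1 (v (g.eval x)) := by
  have hg0 : g ≠ 0 := by
    rintro rfl
    simp at hg
  rcases le_or_gt (v x) 1 with h1 | h1
  · rw [max_eq_left h1, one_pow]
    exact le_max_left _ _
  · rw [max_eq_right h1.le]
    have hl : v g.leadingCoeff = 1 := (hc _ le_rfl).2 (leadingCoeff_ne_zero.2 hg0)
    have h2 : ∀ n ≤ g.natDegree, v (∑ i ∈ Finset.range n, g.coeff i * x ^ i) ≤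
        v x ^ (g.natDegree - 1) := by
      intro n
      induction n with
      | zero =>
        intro _
        rw [Finset.range_zero, Finset.sum_empty, map_zero]
        exact pow_nonneg (v.nonneg _) _
      | succ n ih =>
        intro hn
        rw [Finset.sum_range_succ]
        refine (hv _ _).trans (max_le (ih (by omega)) ?_)
        rw [map_mul, map_pow]
        calc v (g.coeff n) * v x ^ n ≤ 1 * v x ^ n :=
              mul_le_mul_of_nonneg_right (hc n (by omega)).1 (pow_nonneg (v.nonneg _) _)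
          _ = v x ^ n := one_mul _
          _ ≤ v x ^ (g.natDegree - 1) := pow_le_pow_right₀ h1.le (by omega)
    have h3 : v x ^ (g.natDegree - 1) < v x ^ g.natDegree :=
      pow_lt_pow_right₀ h1 (by omega)
    have h4 : v (g.leadingCoeff * x ^ g.natDegree) = v x ^ g.natDegree := by
      rw [map_mul, map_pow, hl, one_mul]
    have h5 : v (g.leadingCoeff * x ^ g.natDegree) ≤ max (v (g.eval x))
        (v (∑ i ∈ Finset.range g.natDegree, g.coeff i * x ^ i)) := by
      have h6 : g.leadingCoeff * x ^ g.natDegree = g.eval x +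
          -∑ i ∈ Finset.range g.natDegree, g.coeff i * x ^ i := by
        rw [eval_split]
        ring
      rw [h6]
      refine (hv _ _).trans ?_
      rw [v.map_neg]
    rw [h4] at h5
    rcases le_max_iff.1 h5 with h6 | h6
    · exact le_max_of_le_right h6
    · exact absurd (h6.trans (h2 _ le_rfl)) (not_le.2 h3)

theorem lower (hm : S_MH) {K : Type} [Field K] [NumberField K] (g : K[X])
    (hg : 1 ≤ g.natDegree) : ∃ C : ℝ, 0 ≤ C ∧ ∀ x : K,
      (g.natDegree : ℝ) * logHeight₁ x ≤ C + logHeight₁ (g.eval x) := by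
  classical
  obtain ⟨T, hT⟩ := bad g
  obtain ⟨B, hB⟩ : ∃ B : ℝ, B = 1 + ∑ v ∈ (archAbsVal (K := K)).toFinset ∪ T, Bv g v := ⟨_, rfl⟩
  have hBv : ∀ v ∈ (archAbsVal (K := K)).toFinset ∪ T, Bv g v ≤ B := by
    intro v hv
    rw [hB]
    have := Finset.single_le_sum (f := fun v => Bv g v)
      (fun v _ => (zero_le_one.trans (Bv_one g v))) hv
    linarith
  have hB1 : 1 ≤ B := by
    rw [hB]
    have := Finset.sum_nonneg (f := fun v => Bv g v)
      (fun v (_ : v ∈ (archAbsVal (K := K)).toFinset ∪ T) => (zero_le_one.trans (Bv_one g v)))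
    linarith
  obtain ⟨C, hC⟩ := hm K T B hB1
  refine ⟨max C 0, le_max_right _ _, fun x => ?_⟩
  have hpw : ∀ v : AbsoluteValue K ℝ, max 1 (v (x ^ g.natDegree)) ≤ max 1 (v x) ^ g.natDegree := by
    intro v
    refine max_le (one_le_pow₀ (le_max_left _ _)) ?_
    rw [map_pow]
    exact pow_le_pow_left₀ (v.nonneg _) (le_max_right _ _) _
  have hno : ∀ v ∈ nonarchAbsVal (K := K), v ∉ T →
      max 1 (v (x ^ g.natDegree)) ≤ max 1 (v (g.eval x)) := fun v hv hvT =>
    (hpw v).trans (local2 g hg v (isNonarchimedean v hv) (hT v hv hvT) x)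
  have h1 := hC (x ^ g.natDegree) (g.eval x) 1 1 0 (fun v hv => by
    rw [pow_one, pow_zero, mul_one]
    by_cases hvT : v ∈ (archAbsVal (K := K)).toFinset ∪ T
    · refine (hpw v).trans ((local1 g hg v x).trans ?_)
      exact mul_le_mul_of_nonneg_right (hBv v hvT) (zero_le_one.trans (le_max_left _ _))
    · rw [Finset.mem_union, not_or, Multiset.mem_toFinset] at hvT
      have hvn : v ∈ nonarchAbsVal (K := K) := hv.resolve_left hvT.1
      refine (hno v hvn hvT.2).trans ?_
      exact le_mul_of_one_le_left (zero_le_one.trans (le_max_left _ _)) hB1) (fun v hv hvT => by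
    rw [pow_one, pow_zero, mul_one]
    exact hno v hv hvT)
  rw [logHeight₁_pow] at h1
  simp only [Nat.cast_one, one_mul, Nat.cast_zero, zero_mul, add_zero] at h1
  refine h1.trans ?_
  have := le_max_left C 0
  linarith

end NHB

theorem pr_HB (hm : S_MH) : S_HB := by
  intro K _ _ g F P hg hinf
  obtain ⟨C, hC0, hC⟩ := NHB.lower hm g (by omega)
  obtain ⟨e, he⟩ : ∃ e : ℝ, e = (g.natDegree : ℝ) := ⟨_, rfl⟩
  have he2 : 2 ≤ e := by
    rw [he]
    exact_mod_cast hg
  obtain ⟨X, hX⟩ : ∃ X : ℕ → ℝ, X = fun n => logHeight₁ (orb g F P n).1 := ⟨_, rfl⟩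
  have hstep : ∀ n, e * X n ≤ C + X (n + 1) := by
    intro n
    rw [hX, he]
    exact hC (orb g F P n).1
  obtain ⟨n0, hn0⟩ : ∃ n0, C + 1 < X n0 := by
    by_contra hc
    push Not at hc
    refine hinf ((NumberField.finite_setOfPred_logHeight₁_le K (C + 1)).subset ?_)
    rintro _ ⟨n, rfl⟩
    have := hc n
    rw [hX] at this
    exact this
  have hgrow : ∀ j : ℕ, e ^ j ≤ X (n0 + j) - C := by
    intro j
    induction j with
    | zero =>
      rw [pow_zero, add_zero]
      linarith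
    | succ j ih =>
      have h1 := hstep (n0 + j)
      rw [← add_assoc, pow_succ]
      have h2 : e ^ j * e ≤ (X (n0 + j) - C) * e :=
        mul_le_mul_of_nonneg_right ih (by linarith)
      nlinarith
  refine ⟨1 / e ^ n0, by positivity, ?_⟩
  filter_upwards [eventually_ge_atTop n0] with n hn
  obtain ⟨j, rfl⟩ := Nat.exists_eq_add_of_le hn
  have h1 := hgrow j
  have h2 : 1 / e ^ n0 * (g.natDegree : ℝ) ^ (n0 + j) = e ^ j := by
    rw [← he, pow_add]
    have : e ^ n0 ≠ 0 := by positivity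
    field_simp
  rw [h2]
  have h3 : X (n0 + j) = logHeight₁ (orb g F P (n0 + j)).1 := by rw [hX]
  rw [← h3]
  linarith

end Pool.Agent.Work.MP_91e6de_nt

end

section

/-! Item HF (helper68): boundedness at all places gives finitely many values. -/

open Polynomial Filter Topology Height Height.AdmissibleAbsValues

namespace Pool.Agent.Work.MP_91e6de_nt

namespace NHF

lemma fin_max {K : Type} [Field K] [NumberField K] (a : K) :
    (fun v : nonarchAbsVal (K := K) => max (v.val a) 1).HasFiniteMulSupport := by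
  rcases eq_or_ne a 0 with rfl | ha
  · have : (fun v : nonarchAbsVal (K := K) => max (v.val (0 : K)) 1) = fun _ => 1 := by
      funext v; simp
    rw [this]
    exact Function.hasFiniteMulSupport_one
  · refine Set.Finite.subset (hasFiniteMulSupport (K := K) ha) ?_
    intro v hv
    simp only [Function.mem_mulSupport] at hv ⊢
    intro h
    apply hv
    rw [h, max_self]

end NHF

theorem pr_HF : S_HF := by
  intro K _ _ T B
  classical
  obtain ⟨G, hG⟩ : ∃ G : nonarchAbsVal (K := K) → ℝ,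
    G = fun v => if v.val ∈ T then max (B v.val) 1 else 1 := ⟨_, rfl⟩
  have hGf : G.HasFiniteMulSupport := by
    refine Set.Finite.subset (Set.Finite.preimage (Subtype.val_injective.injOn)
      (T.finite_toSet)) ?_
    intro v hv
    simp only [Function.mem_mulSupport, hG] at hv
    by_contra hcon
    apply hv
    have : v.val ∉ T := fun h => hcon (by simpa using h)
    rw [if_neg this]
  refine Set.Finite.subset (NumberField.finite_setOfPred_mulHeight₁_le K
    (((archAbsVal (K := K)).map fun v => max (B v) 1).prod * ∏ᶠ v : nonarchAbsVal (K := K), G v)) ?_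
  rintro a ⟨ha1, ha2⟩
  change mulHeight₁ a ≤ _
  rw [Height.mulHeight₁_eq]
  have hA : ((archAbsVal (K := K)).map fun v => max (v a) 1).prod ≤
      ((archAbsVal (K := K)).map fun v => max (B v) 1).prod := by
    apply Multiset.prod_map_le_prod_map₀
    · intro v _; positivity
    · intro v hv
      exact max_le_max (ha1 v (Or.inl hv)) le_rfl
  have hB : ∏ᶠ v : nonarchAbsVal (K := K), max (v.val a) 1 ≤
      ∏ᶠ v : nonarchAbsVal (K := K), G v := by
    apply finprod_le_finprod (NHF.fin_max a) (fun _ => by positivity) hGf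
    intro v
    simp only [hG]
    split_ifs with h
    · exact max_le_max (ha1 v.val (Or.inr v.2)) le_rfl
    · exact max_le (ha2 v.val v.2 h) le_rfl
  exact mul_le_mul hA hB (finprod_nonneg fun _ => by positivity)
    (Multiset.prod_map_nonneg fun _ _ => by positivity)

end Pool.Agent.Work.MP_91e6de_nt

end

section

/-! Item HN (helper68): heights tend to infinity along an infinite orbit. -/

open Polynomial Filter Topology Height Height.AdmissibleAbsValues

namespace Pool.Agent.Work.MP_91e6de_nt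

namespace NHN

lemma orb_add {K : Type} [Field K] (g : K[X]) (F : K[X][X]) (P : K × K) (m n : ℕ)
    (h : orb g F P m = orb g F P n) : ∀ k, orb g F P (m + k) = orb g F P (n + k) := by
  intro k
  induction k with
  | zero => simpa using h
  | succ k ih =>
    rw [← add_assoc, ← add_assoc]
    simp only [orb, ih]

lemma inj {K : Type} [Field K] (g : K[X]) (F : K[X][X]) (P : K × K)
    (hinf : (Set.range (orb g F P)).Infinite) : Function.Injective (orb g F P) := by
  classical
  have key : ∀ m n, m < n → orb g F P m ≠ orb g F P n := by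
    intro m n hmn h
    apply hinf
    have h2 : ∀ j, orb g F P j ∈ (Finset.range n).image (orb g F P) := by
      intro j
      induction j using Nat.strong_induction_on with
      | _ j ih =>
        by_cases hj : j < n
        · exact Finset.mem_image_of_mem _ (Finset.mem_range.2 hj)
        · push Not at hj
          obtain ⟨k, rfl⟩ := Nat.exists_eq_add_of_le hj
          rw [← orb_add g F P m n h k]
          exact ih (m + k) (by omega)
    refine Set.Finite.subset (Finset.finite_toSet ((Finset.range n).image (orb g F P))) ?_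
    rintro _ ⟨j, rfl⟩
    exact h2 j
  intro m n h
  rcases lt_trichotomy m n with h1 | h1 | h1
  · exact absurd h (key m n h1)
  · exact h1
  · exact absurd h.symm (key n m h1)

end NHN

theorem pr_HN (h1 : S_H1) : S_HN := by
  intro K _ _ g F P hinf
  have hinj := NHN.inj g F P hinf
  have hfin : ∀ B : ℝ, Set.Finite {Q : K × K | hP Q ≤ B} := by
    intro B
    have hS := NumberField.finite_setOfPred_logHeight₁_le K B
    refine Set.Finite.subset (hS.prod hS) ?_
    intro Q hQ
    obtain ⟨_, h2, h3, _⟩ := h1 K Q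
    have hQ' : hP Q ≤ B := hQ
    exact ⟨le_trans h2 hQ', le_trans h3 hQ'⟩
  rw [tendsto_atTop]
  intro B
  rw [← Nat.cofinite_eq_atTop]
  have hB : Set.Finite {n : ℕ | hP (orb g F P n) ≤ B} :=
    Set.Finite.preimage hinj.injOn (hfin B)
  rw [eventually_cofinite]
  refine Set.Finite.subset hB ?_
  intro n hn
  have hn' : ¬ B ≤ hP (orb g F P n) := hn
  exact (not_le.1 hn').le

end Pool.Agent.Work.MP_91e6de_nt

end

section

/-!
# MP_91e6de: HU, upper bound for the heights along the orbit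
-/

open Polynomial Filter Topology Height Height.AdmissibleAbsValues

namespace Pool.Agent.Work.MP_91e6de_nt

namespace NHU

theorem sum_le {K : Type} [Field K] (v : AbsoluteValue K ℝ) (hv : IsNonarchimedean v)
    {ι : Type} (s : Finset ι) (f : ι → K) (M : ℝ) (hM : 0 ≤ M) (h : ∀ i ∈ s, v (f i) ≤ M) :
    v (∑ i ∈ s, f i) ≤ M := by
  classical
  induction s using Finset.induction_on with
  | empty => simpa using hM
  | insert a s ha ih =>
    rw [Finset.sum_insert ha]
    refine le_trans (hv _ _) (max_le (h a (Finset.mem_insert_self a s)) ?_)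
    exact ih fun i hi => h i (Finset.mem_insert_of_mem hi)

theorem pow_le_max {a : ℝ} (ha : 0 ≤ a) {i n : ℕ} (hi : i ≤ n) : a ^ i ≤ max 1 a ^ n :=
  le_trans (pow_le_pow_left₀ ha (le_max_right _ _) i) (pow_le_pow_right₀ (le_max_left _ _) hi)

theorem eval_na {K : Type} [Field K] (v : AbsoluteValue K ℝ) (hv : IsNonarchimedean v) (a : K[X])
    (ha : ∀ i ∈ Finset.range (a.natDegree + 1), v (a.coeff i) ≤ 1) (x : K) (n : ℕ)
    (hn : a.natDegree ≤ n) : v (a.eval x) ≤ max 1 (v x) ^ n := by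
  rw [Polynomial.eval_eq_sum_range]
  refine sum_le v hv _ _ _ (by positivity) fun i hi => ?_
  rw [map_mul, map_pow]
  have h1 := ha i hi
  have h2 := Finset.mem_range.1 hi
  have h3 : v x ^ i ≤ max 1 (v x) ^ n := pow_le_max (v.nonneg x) (by omega)
  calc v (a.coeff i) * v x ^ i ≤ 1 * v x ^ i :=
        mul_le_mul_of_nonneg_right h1 (pow_nonneg (v.nonneg x) i)
    _ = v x ^ i := one_mul _
    _ ≤ _ := h3

theorem evalEval_sum {K : Type} [Field K] (R : K[X][X]) (x y : K) :
    R.evalEval x y = ∑ i ∈ Finset.range (R.natDegree + 1), (R.coeff i).eval x * y ^ i := by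
  unfold Polynomial.evalEval
  rw [Polynomial.eval_eq_sum_range (p := R), Polynomial.eval_finsetSum]
  simp

theorem evalEval_na {K : Type} [Field K] (v : AbsoluteValue K ℝ) (hv : IsNonarchimedean v)
    (R : K[X][X]) (m : ℕ)
    (hR : ∀ i ∈ Finset.range (R.natDegree + 1),
      ∀ j ∈ Finset.range ((R.coeff i).natDegree + 1), v ((R.coeff i).coeff j) ≤ 1)
    (hm : ∀ i ∈ Finset.range (R.natDegree + 1), (R.coeff i).natDegree ≤ m) (x y : K) :
    v (R.evalEval x y) ≤ max 1 (v x) ^ m * max 1 (v y) ^ R.natDegree := by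
  rw [evalEval_sum]
  refine sum_le v hv _ _ _ (by positivity) fun i hi => ?_
  rw [map_mul, map_pow]
  have h2 := Finset.mem_range.1 hi
  exact mul_le_mul (eval_na v hv _ (hR i hi) x m (hm i hi))
    (pow_le_max (v.nonneg y) (by omega)) (pow_nonneg (v.nonneg y) i) (by positivity)

theorem unif {α : Type} (s : Finset α) (Q : α → ℝ → ℕ → Prop)
    (mono : ∀ a B m B' m', B ≤ B' → m ≤ m' → 1 ≤ B → Q a B m → Q a B' m')
    (h : ∀ a ∈ s, ∃ (B : ℝ) (m : ℕ), 1 ≤ B ∧ Q a B m) (m0 : ℕ) :
    ∃ (B : ℝ) (m : ℕ), 1 ≤ B ∧ m0 ≤ m ∧ ∀ a ∈ s, Q a B m := by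
  classical
  induction s using Finset.induction_on with
  | empty => exact ⟨1, m0, le_refl _, le_refl _, by simp⟩
  | insert a s ha ih =>
    obtain ⟨B, m, hB, hm, hs⟩ := ih fun b hb => h b (Finset.mem_insert_of_mem hb)
    obtain ⟨B', m', hB', ha'⟩ := h a (Finset.mem_insert_self a s)
    refine ⟨max B B', max m m', le_trans hB (le_max_left _ _), le_trans hm (le_max_left _ _), ?_⟩
    intro b hb
    rcases Finset.mem_insert.1 hb with rfl | hb
    · exact mono _ _ _ _ _ (le_max_right _ _) (le_max_right _ _) hB' ha'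
    · exact mono _ _ _ _ _ (le_max_left _ _) (le_max_left _ _) hB (hs b hb)

theorem core (hm : S_MH) {K : Type} [Field K] [NumberField K] (T S : Finset (AbsoluteValue K ℝ))
    (hS : ∀ v ∈ archAbsVal (K := K), v ∈ S) (hTS : T ⊆ S)
    (f : K → K → K) (m d : ℕ) (B : ℝ) (hB : 1 ≤ B)
    (h1 : ∀ v ∈ S, ∀ x y, v (f x y) ≤ B * max 1 (v x) ^ m * max 1 (v y) ^ d)
    (h2 : ∀ v ∈ nonarchAbsVal (K := K), v ∉ T → ∀ x y,
      v (f x y) ≤ max 1 (v x) ^ m * max 1 (v y) ^ d) :
    ∃ C : ℝ, ∀ x y, logHeight₁ (f x y) ≤ C + m * logHeight₁ x + d * logHeight₁ y := by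
  obtain ⟨C, hC⟩ := hm K T B hB
  refine ⟨C, fun x y => hC _ _ _ m d ?_ ?_⟩
  · intro v hv
    have h0 : 1 ≤ max 1 (v x) ^ m * max 1 (v y) ^ d :=
      one_le_mul_of_one_le_of_one_le (one_le_pow₀ (le_max_left _ _)) (one_le_pow₀ (le_max_left _ _))
    have h0' : max 1 (v x) ^ m * max 1 (v y) ^ d ≤ B * max 1 (v x) ^ m * max 1 (v y) ^ d := by
      rw [mul_assoc]
      exact le_mul_of_one_le_left (by positivity) hB
    refine max_le (le_trans h0 h0') ?_
    by_cases hvS : v ∈ S
    · exact h1 v hvS x y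
    · rcases hv with hv | hv
      · exact absurd (hS v hv) hvS
      · exact le_trans (h2 v hv (fun h => hvS (hTS h)) x y) h0'
  · intro v hv hvT
    have h0 : 1 ≤ max 1 (v x) ^ m * max 1 (v y) ^ d :=
      one_le_mul_of_one_le_of_one_le (one_le_pow₀ (le_max_left _ _)) (one_le_pow₀ (le_max_left _ _))
    exact max_le h0 (h2 v hv hvT x y)

theorem stepG (hb : S_PB) (hi : S_IN) (hm : S_MH) {K : Type} [Field K] [NumberField K]
    (g : K[X]) : ∃ C : ℝ, ∀ x, logHeight₁ (g.eval x) ≤ C + g.natDegree * logHeight₁ x := by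
  classical
  choose T hT using fun c : K => hi K g (0 : K[X][X]) (c, 0)
  set T' : Finset (AbsoluteValue K ℝ) :=
    (Finset.range (g.natDegree + 1)).biUnion fun i => T (g.coeff i) with hT'
  set S : Finset (AbsoluteValue K ℝ) := (archAbsVal (K := K)).toFinset ∪ T' with hS
  obtain ⟨B, m, hB, -, hBS⟩ := unif S (fun v B _ => ∀ x, v (g.eval x) ≤
    B * max 1 (v x) ^ g.natDegree) (by
      intro v B m B' m' hBB _ _ h x
      exact le_trans (h x) (mul_le_mul_of_nonneg_right hBB (by positivity))) (by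
      intro v _
      obtain ⟨B, hB, h⟩ := (hb K v).1 g
      exact ⟨B, 0, hB, h⟩) 0
  obtain ⟨C, hC⟩ := core hm T' S (fun v hv => by
      rw [hS]
      exact Finset.mem_union_left _ (Multiset.mem_toFinset.2 hv))
    Finset.subset_union_right (fun x _ => g.eval x) g.natDegree 0 B hB (by
      intro v hv x y
      simpa using hBS v hv x) (by
      intro v hv hvT x y
      rw [pow_zero, mul_one]
      refine eval_na v (isNonarchimedean v hv) g (fun i hi => ?_) x _ le_rfl
      exact (hT (g.coeff i) v hv (fun h => hvT (Finset.mem_biUnion.2 ⟨i, hi, h⟩)) 0).1)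
  refine ⟨C, fun x => ?_⟩
  have := hC x 0
  simpa using this

theorem stepF (hb : S_PB) (hi : S_IN) (hm : S_MH) {K : Type} [Field K] [NumberField K]
    (F : K[X][X]) : ∃ (C : ℝ) (m : ℕ), ∀ x y, logHeight₁ (F.evalEval x y) ≤
      C + m * logHeight₁ x + F.natDegree * logHeight₁ y := by
  classical
  choose T hT using fun c : K => hi K (0 : K[X]) (0 : K[X][X]) (c, 0)
  set T' : Finset (AbsoluteValue K ℝ) :=
    (Finset.range (F.natDegree + 1)).biUnion fun i =>
      (Finset.range ((F.coeff i).natDegree + 1)).biUnion fun j => T ((F.coeff i).coeff j) with hT'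
  set S : Finset (AbsoluteValue K ℝ) := (archAbsVal (K := K)).toFinset ∪ T' with hS
  obtain ⟨B, m, hB, hm0, hBS⟩ := unif S (fun v B m => ∀ x y, v (F.evalEval x y) ≤
    B * max 1 (v x) ^ m * max 1 (v y) ^ F.natDegree) (by
      intro v B m B' m' hBB hmm hB1 h x y
      refine le_trans (h x y) (mul_le_mul_of_nonneg_right ?_ (by positivity))
      exact mul_le_mul hBB (pow_le_pow_right₀ (le_max_left _ _) hmm) (by positivity)
        (by linarith)) (by
      intro v _
      obtain ⟨B, m, hB, h⟩ := (hb K v).2 F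
      exact ⟨B, m, hB, h⟩) ((Finset.range (F.natDegree + 1)).sup fun i => (F.coeff i).natDegree)
  obtain ⟨C, hC⟩ := core hm T' S (fun v hv => by
      rw [hS]
      exact Finset.mem_union_left _ (Multiset.mem_toFinset.2 hv))
    Finset.subset_union_right (fun x y => F.evalEval x y) m F.natDegree B hB hBS (by
      intro v hv hvT x y
      refine evalEval_na v (isNonarchimedean v hv) F m (fun i hi j hj => ?_) (fun i hi => ?_) x y
      · refine (hT ((F.coeff i).coeff j) v hv (fun h => hvT ?_) 0).1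
        exact Finset.mem_biUnion.2 ⟨i, hi, Finset.mem_biUnion.2 ⟨j, hj, h⟩⟩
      · exact le_trans (Finset.le_sup (f := fun i => (F.coeff i).natDegree) hi) hm0)
  exact ⟨C, m, hC⟩

theorem recX {X : ℕ → ℝ} {C e : ℝ} (he : 1 ≤ e) (h : ∀ n, X (n + 1) ≤ C + e * X n) :
    ∃ C' : ℝ, 0 ≤ C' ∧ ∀ n, X n ≤ C' * ((n : ℝ) + 1) * e ^ n := by
  refine ⟨max (max C (X 0)) 0, le_max_right _ _, fun n => ?_⟩
  set D := max (max C (X 0)) 0 with hD
  have hD0 : 0 ≤ D := le_max_right _ _
  have hDC : C ≤ D := le_trans (le_max_left _ _) (le_max_left _ _)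
  have hDX : X 0 ≤ D := le_trans (le_max_right _ _) (le_max_left _ _)
  induction n with
  | zero => simpa using hDX
  | succ n ih =>
    have h1 : (1 : ℝ) ≤ e ^ (n + 1) := one_le_pow₀ he
    have h2 : e * X n ≤ e * (D * ((n : ℝ) + 1) * e ^ n) :=
      mul_le_mul_of_nonneg_left ih (by linarith)
    have h3 : D * 1 ≤ D * e ^ (n + 1) := mul_le_mul_of_nonneg_left h1 hD0
    have h4 : D * (((n + 1 : ℕ) : ℝ) + 1) * e ^ (n + 1) =
        e * (D * ((n : ℝ) + 1) * e ^ n) + D * e ^ (n + 1) := by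
      push_cast
      ring
    rw [h4]
    linarith [h n]

theorem recY {X Y : ℕ → ℝ} {C C' m d e M : ℝ} (he : 0 ≤ e) (hm : 0 ≤ m)
    (heM : e ≤ M) (hdM : d ≤ M) (hM : 1 ≤ M) (hC' : 0 ≤ C')
    (hX : ∀ n, X n ≤ C' * ((n : ℝ) + 1) * e ^ n) (hY0 : ∀ n, 0 ≤ Y n)
    (h : ∀ n, Y (n + 1) ≤ C + m * X n + d * Y n) :
    ∃ C'' : ℝ, 0 ≤ C'' ∧ ∀ n, Y n ≤ C'' * ((n : ℝ) + 1) ^ 2 * M ^ n := by
  refine ⟨max (max C (Y 0)) 0 + m * C', add_nonneg (le_max_right _ _) (by positivity),
    fun n => ?_⟩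
  set D := max (max C (Y 0)) 0 with hD
  have hD0 : 0 ≤ D := le_max_right _ _
  have hDC : C ≤ D := le_trans (le_max_left _ _) (le_max_left _ _)
  have hDX : Y 0 ≤ D := le_trans (le_max_right _ _) (le_max_left _ _)
  have hmC : 0 ≤ m * C' := by positivity
  induction n with
  | zero =>
    have : Y 0 ≤ D + m * C' := by linarith
    simpa using this
  | succ n ih =>
    have h1 : (1 : ℝ) ≤ M ^ (n + 1) := one_le_pow₀ hM
    have h2 : d * Y n ≤ M * ((D + m * C') * ((n : ℝ) + 1) ^ 2 * M ^ n) :=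
      mul_le_mul hdM ih (hY0 n) (by linarith)
    have h5 : e ^ n ≤ M ^ n := pow_le_pow_left₀ he heM n
    have h6 : M ^ n ≤ M ^ (n + 1) := pow_le_pow_right₀ hM (Nat.le_succ n)
    have h7 : m * X n ≤ m * (C' * ((n : ℝ) + 1) * M ^ (n + 1)) := by
      refine mul_le_mul_of_nonneg_left (le_trans (hX n) ?_) hm
      exact mul_le_mul_of_nonneg_left (le_trans h5 h6) (by positivity)
    have h3 : D * 1 ≤ D * M ^ (n + 1) := mul_le_mul_of_nonneg_left h1 hD0
    have h4 : (D + m * C') * (((n + 1 : ℕ) : ℝ) + 1) ^ 2 * M ^ (n + 1) =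
        M * ((D + m * C') * ((n : ℝ) + 1) ^ 2 * M ^ n) + (D + m * C') * (2 * n + 3) * M ^ (n + 1) := by
      push_cast
      ring
    have h8 : D * M ^ (n + 1) + m * (C' * ((n : ℝ) + 1) * M ^ (n + 1)) ≤
        (D + m * C') * (2 * n + 3) * M ^ (n + 1) := by
      have h9 : (D + m * C') * (2 * n + 3) * M ^ (n + 1) = D * M ^ (n + 1) +
          m * (C' * ((n : ℝ) + 1) * M ^ (n + 1)) + (D * (2 * n + 2) + m * C' * (n + 2)) *
          M ^ (n + 1) := by ring
      rw [h9]
      have : 0 ≤ (D * (2 * (n : ℝ) + 2) + m * C' * (n + 2)) * M ^ (n + 1) := by positivity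
      linarith
    rw [h4]
    linarith [h n]

end NHU

open NHU in
theorem pr_HU (hb : S_PB) (hi : S_IN) (hm : S_MH) (h1 : S_H1) : S_HU := by
  intro K _ _ g F P hg hF
  obtain ⟨C1, hC1⟩ := stepG hb hi hm g
  obtain ⟨C2, m, hC2⟩ := stepF hb hi hm F
  have hg' : (1 : ℝ) ≤ (g.natDegree : ℝ) := by exact_mod_cast hg
  obtain ⟨C3, hC30, hC3⟩ := recX (X := fun n => logHeight₁ (orb g F P n).1) hg'
    (fun n => hC1 (orb g F P n).1)
  have hM1 : (g.natDegree : ℝ) ≤ ((max g.natDegree F.natDegree : ℕ) : ℝ) := by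
    exact_mod_cast le_max_left _ _
  have hM2 : (F.natDegree : ℝ) ≤ ((max g.natDegree F.natDegree : ℕ) : ℝ) := by
    exact_mod_cast le_max_right _ _
  obtain ⟨C4, hC40, hC4⟩ := recY (X := fun n => logHeight₁ (orb g F P n).1)
    (Y := fun n => logHeight₁ (orb g F P n).2) (C := C2) (C' := C3) (m := m)
    (d := F.natDegree) (e := g.natDegree) (M := ((max g.natDegree F.natDegree : ℕ) : ℝ))
    (by positivity) (by positivity) hM1 hM2 (le_trans hg' hM1) hC30 hC3
    (fun n => zero_le_logHeight₁ _) (fun n => hC2 (orb g F P n).1 (orb g F P n).2)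
  refine ⟨⟨C3 + C4, fun n => ?_⟩, ⟨C3, hC3⟩⟩
  refine le_trans (h1 K (orb g F P n)).2.2.2 ?_
  have h5 : (g.natDegree : ℝ) ^ n ≤ ((max g.natDegree F.natDegree : ℕ) : ℝ) ^ n :=
    pow_le_pow_left₀ (by positivity) hM1 n
  have h6 : ((n : ℝ) + 1) ≤ ((n : ℝ) + 1) ^ 2 := by nlinarith [(Nat.cast_nonneg n : (0 : ℝ) ≤ n)]
  have h7 : C3 * ((n : ℝ) + 1) * (g.natDegree : ℝ) ^ n ≤
      C3 * ((n : ℝ) + 1) ^ 2 * ((max g.natDegree F.natDegree : ℕ) : ℝ) ^ n :=
    mul_le_mul (mul_le_mul_of_nonneg_left h6 hC30) h5 (by positivity) (by positivity)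
  have h8 := hC3 n
  have h9 := hC4 n
  have h10 : (C3 + C4) * ((n : ℝ) + 1) ^ 2 * ((max g.natDegree F.natDegree : ℕ) : ℝ) ^ n =
      C3 * ((n : ℝ) + 1) ^ 2 * ((max g.natDegree F.natDegree : ℕ) : ℝ) ^ n +
      C4 * ((n : ℝ) + 1) ^ 2 * ((max g.natDegree F.natDegree : ℕ) : ℝ) ^ n := by ring
  rw [h10]
  linarith

end Pool.Agent.Work.MP_91e6de_nt

end

section

/-! Item K1 (helper68): an equilibrium measure. -/

open Polynomial

namespace Pool.Agent.Work.MP_91e6de_nt

namespace NK1

lemma expand {E : Type} [Fintype E] [DecidableEq E] (κ : E → E → ℝ)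
    (hsym : ∀ w w', κ w w' = κ w' w) (ν : E → ℝ) (w0 : E) (t : ℝ) :
    ∑ w, ∑ w', ((1 - t) * ν w + t * (if w = w0 then 1 else 0)) *
      ((1 - t) * ν w' + t * (if w' = w0 then 1 else 0)) * κ w w' =
    (1 - t) ^ 2 * (∑ w, ∑ w', ν w * ν w' * κ w w') + 2 * t * (1 - t) * (∑ w', ν w' * κ w0 w') +
      t ^ 2 * κ w0 w0 := by
  have h1 : ∀ w w', ((1 - t) * ν w + t * (if w = w0 then 1 else 0)) *
      ((1 - t) * ν w' + t * (if w' = w0 then 1 else 0)) * κ w w' =
      (1 - t) ^ 2 * (ν w * ν w' * κ w w') + (t * (1 - t)) * (if w = w0 then ν w' * κ w w' else 0) +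
      (t * (1 - t)) * (if w' = w0 then ν w * κ w w' else 0) +
      t ^ 2 * (if w = w0 then (if w' = w0 then κ w w' else 0) else 0) := by
    intro w w'
    by_cases h : w = w0 <;> by_cases h' : w' = w0 <;> simp [h, h'] <;> ring
  simp_rw [h1, Finset.sum_add_distrib, ← Finset.mul_sum]
  have e1 : ∑ w, ∑ w', (if w = w0 then ν w' * κ w w' else 0) = ∑ w', ν w' * κ w0 w' := by
    rw [Finset.sum_comm]
    apply Finset.sum_congr rfl
    intro w' _
    simp
  have e2 : ∑ w, ∑ w', (if w' = w0 then ν w * κ w w' else 0) = ∑ w', ν w' * κ w0 w' := by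
    apply Finset.sum_congr rfl
    intro w _
    simp [hsym w w0]
  have e3 : ∑ w, ∑ w', (if w = w0 then (if w' = w0 then κ w w' else 0) else 0) = κ w0 w0 := by
    rw [Finset.sum_eq_single w0]
    · simp
    · intro b _ hb; simp [hb]
    · intro h; exact absurd (Finset.mem_univ _) h
  rw [e1, e2, e3]
  ring

end NK1

theorem pr_K1 : S_K1 := by
  intro E _ _ κ hsym hneg
  classical
  obtain ⟨f, hf⟩ : ∃ f : (E → ℝ) → ℝ, f = fun ν => ∑ w, ∑ w', ν w * ν w' * κ w w' := ⟨_, rfl⟩
  have hfc : Continuous f := by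
    rw [hf]; fun_prop
  have hne : (stdSimplex ℝ E).Nonempty := ⟨_, single_mem_stdSimplex ℝ (Classical.arbitrary E)⟩
  obtain ⟨ν, hν, hmax⟩ := (isCompact_stdSimplex ℝ E).exists_isMaxOn hne hfc.continuousOn
  refine ⟨ν, hν.1, hν.2, ?_⟩
  intro w0
  by_contra hcon
  push Not at hcon
  have hfneg : f ν < 0 := by rw [hf]; exact hneg ν hν.1 hν.2
  obtain ⟨p, hp⟩ : ∃ p, p = ∑ w', ν w' * κ w0 w' := ⟨_, rfl⟩
  rw [← hp] at hcon
  have key : ∀ t : ℝ, 0 ≤ t → t ≤ 1 →
      (1 - t) ^ 2 * f ν + 2 * t * (1 - t) * p + t ^ 2 * κ w0 w0 ≤ f ν := by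
    intro t ht0 ht1
    have hmem : (fun w => (1 - t) * ν w + t * (if w = w0 then 1 else 0)) ∈ stdSimplex ℝ E := by
      constructor
      · intro w
        have := hν.1 w
        have h1 : (0 : ℝ) ≤ (if w = w0 then 1 else 0) := by split_ifs <;> norm_num
        have h2 : 0 ≤ (1 - t) * ν w := mul_nonneg (by linarith) this
        have h3 : 0 ≤ t * (if w = w0 then (1 : ℝ) else 0) := mul_nonneg ht0 h1
        simp only
        linarith
      · simp only [Finset.sum_add_distrib, ← Finset.mul_sum, hν.2]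
        simp
    have h := hmax hmem
    change f _ ≤ f ν at h
    rw [hf] at h ⊢
    simp only at h ⊢
    rw [NK1.expand κ hsym ν w0 t, ← hp] at h
    exact h
  have ha : 0 < p - f ν := by linarith
  obtain ⟨c, hc⟩ : ∃ c, c = f ν - 2 * p + κ w0 w0 := ⟨_, rfl⟩
  obtain ⟨t, ht⟩ : ∃ t, t = min 1 ((p - f ν) / (|c| + 1)) := ⟨_, rfl⟩
  have hc1 : 0 < |c| + 1 := by positivity
  have ht0 : 0 < t := by rw [ht]; exact lt_min one_pos (div_pos ha hc1)
  have ht1 : t ≤ 1 := by rw [ht]; exact min_le_left _ _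
  have ht2 : t * (|c| + 1) ≤ p - f ν := by
    rw [← le_div_iff₀ hc1, ht]; exact min_le_right _ _
  have h1 := key t ht0.le ht1
  have h2 : t * (2 * (p - f ν) + t * c) ≤ 0 := by rw [hc]; nlinarith
  have h3 : 0 < 2 * (p - f ν) + t * c := by
    have := neg_abs_le c
    nlinarith
  have := mul_pos ht0 h3
  linarith

end Pool.Agent.Work.MP_91e6de_nt

end

section

/-! Item K2 (helper68): integer invariant weights. -/

open Polynomial

namespace Pool.Agent.Work.MP_91e6de_nt

theorem pr_K2 : S_K2 := by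
  intro E _ κ cc ν H hcc hν hneg hκ hccH
  classical
  rcases isEmpty_or_nonempty E with hE | hE
  · exact ⟨fun _ => 0, fun _ _ _ => rfl, fun w => (hE.false w).elim⟩
  -- uniform gap
  obtain ⟨δ, hδ0, hδ⟩ : ∃ δ : ℝ, 0 < δ ∧ ∀ w, ∑ w', ν w' * κ w w' ≤ -δ := by
    obtain ⟨w1, _, h1⟩ := Finset.exists_max_image Finset.univ
      (fun w => ∑ w', ν w' * κ w w') Finset.univ_nonempty
    refine ⟨-∑ w', ν w' * κ w1 w', by linarith [hneg w1], fun w => ?_⟩
    have := h1 w (Finset.mem_univ _)
    linarith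
  obtain ⟨M, hM⟩ : ∃ M : ℝ, M = ∑ w, ∑ w', (cc w' : ℝ) * |κ w w'| := ⟨_, rfl⟩
  have hMw : ∀ w, ∑ w', (cc w' : ℝ) * |κ w w'| ≤ M := by
    intro w
    rw [hM]
    exact Finset.single_le_sum (f := fun w => ∑ w', (cc w' : ℝ) * |κ w w'|)
      (fun i _ => Finset.sum_nonneg fun j _ => by positivity) (Finset.mem_univ w)
  have hM0 : 0 ≤ M := by
    rw [hM]; exact Finset.sum_nonneg fun i _ => Finset.sum_nonneg fun j _ => by positivity
  obtain ⟨T, hT⟩ : ∃ T : ℝ, T = (M + 1) / δ := ⟨_, rfl⟩
  have hT0 : 0 ≤ T := by rw [hT]; positivity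
  have hTδ : T * δ = M + 1 := by rw [hT]; field_simp
  obtain ⟨n0, hn0⟩ : ∃ n0 : E → ℕ, n0 = fun w => ⌈T * ν w / cc w⌉₊ := ⟨_, rfl⟩
  have hth : ∀ w, T * ν w ≤ (n0 w : ℝ) * cc w ∧ (n0 w : ℝ) * cc w ≤ T * ν w + cc w := by
    intro w
    have hc : (0 : ℝ) < cc w := by exact_mod_cast hcc w
    have h1 := Nat.le_ceil (T * ν w / cc w)
    have h2 := (Nat.ceil_lt_add_one (a := T * ν w / cc w)
      (div_nonneg (mul_nonneg hT0 (hν w)) hc.le)).le
    rw [hn0]
    constructor
    · rw [div_le_iff₀ hc] at h1; exact h1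
    · have h3 : (⌈T * ν w / cc w⌉₊ : ℝ) * cc w ≤ (T * ν w / cc w + 1) * cc w :=
        mul_le_mul_of_nonneg_right h2 hc.le
      have h4 : (T * ν w / cc w + 1) * cc w = T * ν w + cc w := by field_simp
      linarith
  have hmain : ∀ w, ∑ w', (n0 w' : ℝ) * cc w' * κ w w' < 0 := by
    intro w
    have h1 : ∑ w', (n0 w' : ℝ) * cc w' * κ w w' ≤
        ∑ w', (T * (ν w' * κ w w') + (cc w' : ℝ) * |κ w w'|) := by
      apply Finset.sum_le_sum
      intro w' _
      have h2 := (hth w').1
      have h3 := (hth w').2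
      have h4 : ((n0 w' : ℝ) * cc w' - T * ν w') * κ w w' ≤ (cc w' : ℝ) * |κ w w'| := by
        refine le_trans (le_abs_self _) ?_
        rw [abs_mul, abs_of_nonneg (by linarith)]
        exact mul_le_mul_of_nonneg_right (by linarith) (abs_nonneg _)
      linarith
    rw [Finset.sum_add_distrib, ← Finset.mul_sum] at h1
    have h5 := mul_le_mul_of_nonneg_left (hδ w) hT0
    have h6 := hMw w
    linarith
  haveI : Fintype H := Fintype.ofFinite H
  refine ⟨fun w => ∑ h : H, n0 ((h : Equiv.Perm E) w), ?_, ?_⟩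
  · intro h' hh' w
    refine Fintype.sum_equiv (Equiv.mulRight (⟨h', hh'⟩ : H)) _ _ ?_
    intro h
    simp [Equiv.Perm.mul_apply]
  · intro w
    have h1 : ∑ w', ((∑ h : H, n0 ((h : Equiv.Perm E) w') : ℕ) : ℝ) * cc w' * κ w w' =
        ∑ h : H, ∑ w', (n0 w' : ℝ) * cc w' * κ ((h : Equiv.Perm E) w) w' := by
      push_cast
      simp_rw [Finset.sum_mul]
      rw [Finset.sum_comm]
      apply Finset.sum_congr rfl
      intro h _
      rw [← Equiv.sum_comp (h : Equiv.Perm E)
        (fun w' => (n0 w' : ℝ) * cc w' * κ ((h : Equiv.Perm E) w) w')]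
      apply Finset.sum_congr rfl
      intro w' _
      rw [hccH h h.2 w', hκ h h.2 w w']
    simp only
    rw [h1]
    apply Finset.sum_neg
    · intro h _
      exact hmain _
    · exact Finset.univ_nonempty

end Pool.Agent.Work.MP_91e6de_nt

end

section

/-! item LP: the centres of a fibre -/

open Polynomial

namespace Pool.Agent.Work.MP_91e6de_nt

theorem pr_LP (h0 : S_TV) (h1 : S_LP1) (h2 : S_LP2) (h3 : S_LP3) : S_LP := by
  intro K W _ _ _ _ _ φ hφ g F d e p q hG y r hy hr hrq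
  obtain ⟨z, hz⟩ := IsAlgClosed.exists_pow_nat_eq y hG.hq
  have hy0 : y ≠ 0 := by
    rintro rfl
    simp at hy
    linarith
  have hz0 : z ≠ 0 := by
    rintro rfl
    apply hy0
    rw [← hz, zero_pow hG.hq.ne']
  have hrz : r = ‖z‖ ^ p := by
    have : r ^ q = (‖z‖ ^ p) ^ q := by
      rw [hrq, ← hz, norm_pow, ← pow_mul, ← pow_mul, mul_comm]
    exact (pow_left_inj₀ hr.le (by positivity) hG.hq.ne').1 this
  have hroots := h2 K W φ g F d e p q hG y z hz0 hz
  have hzp : z ^ p ≠ 0 := pow_ne_zero _ hz0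
  have hzn : ‖z ^ p‖ = r := by rw [norm_pow, hrz]
  have hd1 := h1 K W φ hφ g F d e p q hG y
  have hcard : (leadP F p q d φ y).roots.card = d := by
    rw [IsAlgClosed.card_roots_eq_natDegree, hd1.1]
  have hd : 0 < d := lt_of_le_of_lt (Nat.zero_le _) hG.hed
  have hlK : leadK F p q d ≠ 0 := by
    intro hzero
    rw [hzero, Polynomial.map_zero, Polynomial.roots_zero, Multiset.map_zero] at hroots
    rw [hroots] at hcard
    simp at hcard
    omega
  have hTV := h0 K W φ hφ (leadK F p q d) hlK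
  refine ⟨hcard, ?_, ?_, ?_⟩
  · intro c hc
    rw [hroots, Multiset.mem_map] at hc
    obtain ⟨ζ, hζ, rfl⟩ := hc
    rw [norm_mul, hzn]
    by_cases h : ζ = 0
    · rw [h, norm_zero, mul_zero]; exact hr.le
    · rw [(hTV ζ hζ ζ hζ).1 h, mul_one]
  · intro c hc c' hc' hne
    rw [hroots, Multiset.mem_map] at hc hc'
    obtain ⟨ζ, hζ, rfl⟩ := hc
    obtain ⟨ζ', hζ', rfl⟩ := hc'
    have hne' : ζ ≠ ζ' := by rintro rfl; exact hne rfl
    rw [← mul_sub, norm_mul, hzn, (hTV ζ hζ ζ' hζ').2 hne', mul_one]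
  · intro c hc
    rw [hroots, Multiset.mem_map] at hc
    obtain ⟨ζ, hζ, rfl⟩ := hc
    have h4 := h3 K W φ g F d e p q hG ζ
    have h5 : mcount (leadP F p q d φ y).roots (z ^ p * ζ) =
        mcount ((leadK F p q d).map φ).roots ζ := by
      unfold mcount
      rw [hroots]
      classical
      exact Multiset.count_map_eq_count' _ _ (mul_right_injective₀ hzp) ζ
    rw [h5]
    exact h4

end Pool.Agent.Work.MP_91e6de_nt

end

section

/-! Item LP1: degree of the leading form. -/

open Polynomial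

namespace Pool.Agent.Work.MP_91e6de_nt

namespace NLP1

theorem sum_coeff {R : Type} [Semiring R] (d : ℕ) (P : ℕ → Prop) [DecidablePred P] (a : ℕ → R)
    (n : ℕ) : (∑ i ∈ Finset.range (d + 1), if P i then C (a i) * X ^ i else 0 : R[X]).coeff n =
      if n < d + 1 ∧ P n then a n else 0 := by
  rw [finset_sum_coeff]
  have h1 : ∀ i ∈ Finset.range (d + 1), (if P i then C (a i) * X ^ i else 0 : R[X]).coeff n =
      if n = i then (if P n then a n else 0) else 0 := by
    intro i _
    by_cases hi : n = i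
    · subst hi
      by_cases hP : P n
      · simp [hP]
      · simp [hP]
    · by_cases hP : P i
      · simp [hP, hi, coeff_X_pow]
      · simp [hP, hi]
  rw [Finset.sum_congr rfl h1, Finset.sum_ite_eq]
  simp only [Finset.mem_range]
  by_cases h2 : n < d + 1 <;> simp [h2]

variable {K W : Type} [Field K] [Field W]

theorem leadP_coeff (F : K[X][X]) (p q d : ℕ) (φ : K →+* W) (y : W) (n : ℕ) :
    (leadP F p q d φ y).coeff n = if n < d + 1 ∧ q * (F.coeff n).natDegree = p * (d - n) then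
      φ (F.coeff n).leadingCoeff * y ^ (F.coeff n).natDegree else 0 :=
  sum_coeff d (fun i => q * (F.coeff i).natDegree = p * (d - i))
    (fun i => φ (F.coeff i).leadingCoeff * y ^ (F.coeff i).natDegree) n

theorem leadK_coeff (F : K[X][X]) (p q d : ℕ) (n : ℕ) :
    (leadK F p q d).coeff n = if n < d + 1 ∧ q * (F.coeff n).natDegree = p * (d - n) then
      (F.coeff n).leadingCoeff else 0 :=
  sum_coeff d (fun i => q * (F.coeff i).natDegree = p * (d - i))
    (fun i => (F.coeff i).leadingCoeff) n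

theorem deg {φ : K →+* W} {g : K[X]} {F : K[X][X]} {d e p q : ℕ} (h : Good g F d e p q) (y : W) :
    ∃ c : K, c ≠ 0 ∧ F.coeff d = C c ∧ (leadP F p q d φ y).coeff d = φ c ∧
      (leadP F p q d φ y).natDegree = d := by
  obtain ⟨c, hc, hlead⟩ := h.lead
  have hcoef : (leadP F p q d φ y).coeff d = φ c := by
    rw [leadP_coeff, hlead]
    simp
  have hne : φ c ≠ 0 := fun h0 => hc ((map_eq_zero φ).1 h0)
  refine ⟨c, hc, hlead, hcoef, natDegree_eq_of_le_of_coeff_ne_zero ?_ (by rw [hcoef]; exact hne)⟩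
  rw [natDegree_le_iff_coeff_eq_zero]
  intro n hn
  rw [leadP_coeff, if_neg (by omega)]

end NLP1

theorem pr_LP1 : S_LP1 := by
  intro K W _ _ φ hφ g F d e p q h y
  obtain ⟨c, hc, -, hcoef, hdeg⟩ := NLP1.deg (φ := φ) h y
  refine ⟨hdeg, ?_⟩
  rw [leadingCoeff, hdeg, hcoef]
  exact hφ c hc

end Pool.Agent.Work.MP_91e6de_nt

end
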