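import Pool.Agent.Work.MP_91e6de_nt.Stmts2
import Pool.Agent.Work.MP_91e6de_nt.Stmts

/-! Bundle of small proof modules (one section per former module). -/

section

/-!
# MP_91e6de: item MH (heights from local inequalities)
-/

open Polynomial Filter Topology Height Height.AdmissibleAbsValues

namespace Pool.Agent.Work.MP_91e6de_nt

namespace NMH

open Real

lemma supp_fin {K : Type} [Field K] [NumberField K] (a : K) :
    (Function.support fun v : nonarchAbsVal (K := K) => log⁺ (v.val a)).Finite := by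
  by_cases ha : a = 0
  · subst ha
    have : (fun v : nonarchAbsVal (K := K) => log⁺ (v.val 0)) = fun _ => 0 := by
      funext v
      simp
    rw [this]
    simp
  · have h := hasFiniteMulSupport (K := K) ha
    refine Set.Finite.subset h ?_
    intro v hv hv'
    apply hv
    simp only at hv'
    simp [hv']

lemma loc {A B b c : ℝ} {m d : ℕ} (hA : 0 ≤ A) (hb : 0 ≤ b) (hc : 0 ≤ c) (hB : 1 ≤ B)
    (h : max 1 A ≤ B * max 1 b ^ m * max 1 c ^ d) :
    log⁺ A ≤ log B + m * log⁺ b + d * log⁺ c := by
  have hB0 : 0 < B := by linarith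
  have hb1 : 0 < max 1 b := lt_of_lt_of_le one_pos (le_max_left _ _)
  have hc1 : 0 < max 1 c := lt_of_lt_of_le one_pos (le_max_left _ _)
  have hA1 : 0 < max 1 A := lt_of_lt_of_le one_pos (le_max_left _ _)
  rw [posLog_eq_log_max_one hA, posLog_eq_log_max_one hb, posLog_eq_log_max_one hc]
  have h2 := Real.log_le_log hA1 h
  rw [Real.log_mul (by positivity) (by positivity), Real.log_mul (by positivity) (by positivity),
    Real.log_pow, Real.log_pow] at h2
  exact h2

end NMH

open Real in
theorem pr_MH : S_MH := by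
  classical
  intro K _ _ T B hB
  refine ⟨((archAbsVal (K := K)).card + T.card) * Real.log B, ?_⟩
  intro a b c m d h1 h2
  have hlB : 0 ≤ Real.log B := Real.log_nonneg hB
  rw [logHeight₁_eq, logHeight₁_eq, logHeight₁_eq]
  -- archimedean part
  have harch : ((archAbsVal (K := K)).map fun v ↦ log⁺ (v a)).sum ≤
      (archAbsVal (K := K)).card * Real.log B + m * ((archAbsVal (K := K)).map fun v ↦ log⁺ (v b)).sum
        + d * ((archAbsVal (K := K)).map fun v ↦ log⁺ (v c)).sum := by
    have hs : ((archAbsVal (K := K)).map fun v ↦ log⁺ (v a)).sum ≤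
        ((archAbsVal (K := K)).map fun v ↦ (Real.log B + m * log⁺ (v b) + d * log⁺ (v c))).sum := by
      apply Multiset.sum_map_le_sum_map
      intro v hv
      exact NMH.loc (v.nonneg _) (v.nonneg _) (v.nonneg _) hB (h1 v (Or.inl hv))
    refine hs.trans (le_of_eq ?_)
    rw [Multiset.sum_map_add, Multiset.sum_map_add, Multiset.sum_map_mul_left,
      Multiset.sum_map_mul_left]
    simp
  -- nonarchimedean part
  have hnon : (∑ᶠ v : nonarchAbsVal (K := K), log⁺ (v.val a)) ≤
      T.card * Real.log B + m * (∑ᶠ v : nonarchAbsVal (K := K), log⁺ (v.val b))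
        + d * (∑ᶠ v : nonarchAbsVal (K := K), log⁺ (v.val c)) := by
    set S : Finset (nonarchAbsVal (K := K)) :=
      (NMH.supp_fin a).toFinset ∪ (NMH.supp_fin b).toFinset ∪ (NMH.supp_fin c).toFinset with hS
    have ea : (∑ᶠ v : nonarchAbsVal (K := K), log⁺ (v.val a)) = ∑ v ∈ S, log⁺ (v.val a) := by
      apply finsum_eq_sum_of_support_subset
      intro v hv
      simp only [hS, Finset.coe_union, Set.mem_union, Set.Finite.coe_toFinset]
      exact Or.inl (Or.inl hv)
    have eb : (∑ᶠ v : nonarchAbsVal (K := K), log⁺ (v.val b)) = ∑ v ∈ S, log⁺ (v.val b) := by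
      apply finsum_eq_sum_of_support_subset
      intro v hv
      simp only [hS, Finset.coe_union, Set.mem_union, Set.Finite.coe_toFinset]
      exact Or.inl (Or.inr hv)
    have ec : (∑ᶠ v : nonarchAbsVal (K := K), log⁺ (v.val c)) = ∑ v ∈ S, log⁺ (v.val c) := by
      apply finsum_eq_sum_of_support_subset
      intro v hv
      simp only [hS, Finset.coe_union, Set.mem_union, Set.Finite.coe_toFinset]
      exact Or.inr hv
    rw [ea, eb, ec]
    have hle : ∑ v ∈ S, log⁺ (v.val a) ≤
        ∑ v ∈ S, ((if v.val ∈ T then Real.log B else 0) + m * log⁺ (v.val b)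
          + d * log⁺ (v.val c)) := by
      apply Finset.sum_le_sum
      intro v _
      by_cases hvT : v.val ∈ T
      · rw [if_pos hvT]
        exact NMH.loc (v.val.nonneg _) (v.val.nonneg _) (v.val.nonneg _) hB (h1 v.val (Or.inr v.2))
      · rw [if_neg hvT]
        have := NMH.loc (B := 1) (v.val.nonneg a) (v.val.nonneg b) (v.val.nonneg c) le_rfl
          (m := m) (d := d) (by simpa using h2 v.val v.2 hvT)
        simpa using this
    refine hle.trans ?_
    rw [Finset.sum_add_distrib, Finset.sum_add_distrib, ← Finset.mul_sum, ← Finset.mul_sum]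
    have hc : ∑ v ∈ S, (if v.val ∈ T then Real.log B else 0) ≤ T.card * Real.log B := by
      rw [← Finset.sum_filter, Finset.sum_const, nsmul_eq_mul]
      apply mul_le_mul_of_nonneg_right _ hlB
      have : (S.filter fun v => v.val ∈ T).card ≤ T.card := by
        apply Finset.card_le_card_of_injOn (fun v => v.val)
        · intro v hv
          have := (Finset.mem_filter.1 (Finset.mem_coe.1 hv)).2
          exact this
        · intro v _ w _ hvw
          exact Subtype.ext hvw
      exact_mod_cast this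
    linarith
  have e1 : ((archAbsVal (K := K)).map fun v ↦ log⁺ (v a)).sum +
      (∑ᶠ v : nonarchAbsVal (K := K), log⁺ (v.val a)) ≤ _ := add_le_add harch hnon
  refine e1.trans (le_of_eq ?_)
  ring

end Pool.Agent.Work.MP_91e6de_nt

end

section

/-!
# MP_91e6de: OR, the iterates as polynomials
-/

open Polynomial

namespace Pool.Agent.Work.MP_91e6de_nt

namespace NOR

theorem evalEval_map_comp {K : Type*} [Field K] (p : K[X]) (F G : K[X][X]) (x y : K) :
    ((F.map (compRingHom p)).comp G).evalEval x y = F.evalEval (p.eval x) (G.evalEval x y) := by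
  have h : ∀ (H : K[X][X]) (a b : K), H.evalEval a b = eval₂ (evalRingHom a) b H :=
    fun H a b => by rw [eval₂_evalRingHom]
  simp only [h, eval₂_comp, eval₂_map]
  congr 1
  ext q
  · simp
  · simp

end NOR

theorem pr_OR : S_OR := by
  intro K _ g F P n k
  induction k with
  | zero => simp [gN, FN]
  | succ k ih =>
    obtain ⟨h1, h2, h3⟩ := ih
    refine ⟨?_, ?_, ?_⟩
    · rw [← add_assoc, orb, gN, eval_comp, ← h1]
    · rw [← add_assoc, orb, FN, NOR.evalEval_map_comp, ← h1, ← h2]
    · rw [gN, natDegree_comp, h3, pow_succ, mul_comm]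

end Pool.Agent.Work.MP_91e6de_nt

end

section

/-!
# P0: dimension count
-/

open Polynomial

namespace Pool.Agent.Work.MP_91e6de_nt

namespace NP0

variable {K L : Type} [Field K] [NormedField L] [IsUltrametricDist L]

/-- Values are powers of `e`. -/
theorem val (φ : K →+* L) (x : L) (hφ : ∀ a, a ≠ 0 → ‖φ a‖ = 1) (hx : ‖x‖ = Real.exp 1)
    (r : L) (n : ℤ) (a : K) (ha : a ≠ 0) (h : ‖r - φ a * x ^ n‖ < ‖r‖) : ‖r‖ = Real.exp n := by
  have h1 : ‖φ a * x ^ n‖ = Real.exp n := by
    rw [norm_mul, hφ a ha, one_mul, norm_zpow, hx, ← Real.rpow_intCast,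
      Real.exp_one_rpow]
  rw [← h1]
  have h2 : φ a * x ^ n = r - (r - φ a * x ^ n) := by ring
  rw [h2]
  have h3 : ‖r - (r - φ a * x ^ n)‖ = max ‖r‖ ‖r - φ a * x ^ n‖ := by
    rw [sub_eq_add_neg r, ← norm_neg (r - φ a * x ^ n)]
    exact IsUltrametricDist.norm_add_eq_max_of_norm_ne_norm (by rw [norm_neg]; exact h.ne')
  rw [h3, max_eq_left h.le]

/-- The subspace of the small vectors. -/
def sub (φ : K →+* L) (hφ : ∀ a, a ≠ 0 → ‖φ a‖ = 1) (V : Type) [AddCommGroup V] [Module K V]
    (T : V →+ L) (hT : ∀ (t : K) v, T (t • v) = φ t * T v) (m : ℤ) : Submodule K V where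
  carrier := {v | ‖T v‖ ≤ Real.exp m}
  zero_mem' := by
    simp only [Set.mem_ofPred_eq, map_zero, norm_zero]
    positivity
  add_mem' := by
    intro u v hu hv
    simp only [Set.mem_ofPred_eq] at hu hv ⊢
    rw [map_add]
    exact (IsUltrametricDist.norm_add_le_max _ _).trans (max_le hu hv)
  smul_mem' := by
    intro t v hv
    simp only [Set.mem_ofPred_eq] at hv ⊢
    rw [hT, norm_mul]
    rcases eq_or_ne t 0 with rfl | ht
    · simp only [map_zero, norm_zero, zero_mul]
      positivity
    · rw [hφ t ht, one_mul]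
      exact hv

theorem step (φ : K →+* L) (x : L) (hφ : ∀ a, a ≠ 0 → ‖φ a‖ = 1) (hx : ‖x‖ = Real.exp 1)
    (hr : ∀ r : L, r ≠ 0 → ∃ (n : ℤ) (a : K), a ≠ 0 ∧ ‖r - φ a * x ^ n‖ < ‖r‖)
    (V : Type) [AddCommGroup V] [Module K V] [FiniteDimensional K V]
    (T : V →+ L) (hT : ∀ (t : K) v, T (t • v) = φ t * T v) (n : ℤ)
    (hn : ∀ v, ‖T v‖ ≤ Real.exp n) :
    Module.finrank K V ≤ Module.finrank K (sub φ hφ V T hT (n - 1)) + 1 := by
  obtain ⟨S, hS⟩ : ∃ S, S = sub φ hφ V T hT (n - 1) := ⟨_, rfl⟩
  have hmem : ∀ v, v ∈ S ↔ ‖T v‖ ≤ Real.exp ((n - 1 : ℤ) : ℝ) := by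
    intro v
    rw [hS]
    rfl
  rw [← hS]
  -- values which are less than `exp n` are at most `exp (n - 1)`
  have hlt : ∀ r : L, ‖r‖ < Real.exp n → ‖r‖ ≤ Real.exp ((n - 1 : ℤ) : ℝ) := by
    intro r hrn
    rcases eq_or_ne r 0 with rfl | h0
    · rw [norm_zero]
      positivity
    · obtain ⟨l, a, ha, hl⟩ := hr r h0
      have h1 := val φ x hφ hx r l a ha hl
      rw [h1] at hrn ⊢
      rw [Real.exp_lt_exp] at hrn
      have h2 : l < n := by exact_mod_cast hrn
      rw [Real.exp_le_exp]
      exact_mod_cast (by omega : l ≤ n - 1)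
  -- the leading coefficient of a vector outside
  have hout : ∀ v, v ∉ S → ∃ a : K, a ≠ 0 ∧ ‖T v - φ a * x ^ n‖ < Real.exp n := by
    intro v hv
    rw [hmem] at hv
    have h0 : T v ≠ 0 := by
      intro h0
      apply hv
      rw [h0, norm_zero]
      positivity
    obtain ⟨l, a, ha, hl⟩ := hr _ h0
    have h1 := val φ x hφ hx _ l a ha hl
    have h2 : ‖T v‖ = Real.exp n := by
      by_contra hne
      exact hv (hlt _ (lt_of_le_of_ne (hn v) hne))
    have h3 : l = n := by
      rw [h1, Real.exp_eq_exp] at h2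
      exact_mod_cast h2
    subst h3
    exact ⟨a, ha, by rwa [h1] at hl⟩
  have hq : Module.finrank K (V ⧸ S) ≤ 1 := by
    by_cases hall : ∀ v, v ∈ S
    · have h1 : S = ⊤ := by
        rw [eq_top_iff]
        exact fun v _ => hall v
      rw [h1]
      have : Subsingleton (V ⧸ (⊤ : Submodule K V)) :=
        Submodule.Quotient.subsingleton_iff.2 rfl
      rw [Module.finrank_zero_of_subsingleton]
      omega
    · push Not at hall
      obtain ⟨v0, hv0⟩ := hall
      obtain ⟨a0, ha0, h0⟩ := hout v0 hv0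
      refine finrank_le_one (Submodule.Quotient.mk v0) fun w => ?_
      obtain ⟨w, rfl⟩ := Submodule.Quotient.mk_surjective S w
      by_cases hw : w ∈ S
      · refine ⟨0, ?_⟩
        rw [zero_smul, eq_comm]
        exact (Submodule.Quotient.mk_eq_zero S).2 hw
      · obtain ⟨a, ha, h1⟩ := hout w hw
        refine ⟨a / a0, ?_⟩
        rw [← Submodule.Quotient.mk_smul, Submodule.Quotient.eq, ← neg_mem_iff, hmem]
        refine hlt _ ?_
        have e1 : T (-((a / a0) • v0 - w)) =
            (T w - φ a * x ^ n) + -(φ (a / a0) * (T v0 - φ a0 * x ^ n)) := by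
          rw [map_neg, map_sub, hT]
          have e2 : φ (a / a0) * φ a0 = φ a := by
            rw [← map_mul, div_mul_cancel₀ _ ha0]
          linear_combination (-(x ^ n)) * e2
        rw [e1]
        refine (IsUltrametricDist.norm_add_le_max _ _).trans_lt (max_lt h1 ?_)
        rw [norm_neg, norm_mul, hφ _ (div_ne_zero ha ha0), one_mul]
        exact h0
  have h5 := Submodule.finrank_quotient_add_finrank S
  omega

theorem main (φ : K →+* L) (x : L) (hφ : ∀ a, a ≠ 0 → ‖φ a‖ = 1) (hx : ‖x‖ = Real.exp 1)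
    (hr : ∀ r : L, r ≠ 0 → ∃ (n : ℤ) (a : K), a ≠ 0 ∧ ‖r - φ a * x ^ n‖ < ‖r‖)
    (ι : Type) [Fintype ι] (b : ι → ℤ) : ∀ (N : ℕ)
    (V : Type) [AddCommGroup V] [Module K V] [FiniteDimensional K V]
    (T : ι → V →+ L) (a : ι → ℤ), (∀ α (t : K) v, T α (t • v) = φ t * T α v) →
    (∀ α v, ‖T α v‖ ≤ Real.exp (a α)) → ∑ α, (a α - b α).toNat = N → N < Module.finrank K V →
    ∃ v : V, v ≠ 0 ∧ ∀ α, ‖T α v‖ ≤ Real.exp (b α) := by
  classical
  intro N
  induction N with
  | zero =>
    intro V _ _ _ T a hT ha hN hV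
    have h1 : Nontrivial V := Module.nontrivial_of_finrank_pos (R := K) hV
    obtain ⟨v, hv⟩ := exists_ne (0 : V)
    refine ⟨v, hv, fun α => (ha α v).trans ?_⟩
    rw [Finset.sum_eq_zero_iff] at hN
    have h2 := hN α (Finset.mem_univ α)
    rw [Real.exp_le_exp]
    exact_mod_cast (by omega : a α ≤ b α)
  | succ N ih =>
    intro V _ _ _ T a hT ha hN hV
    obtain ⟨α, hα⟩ : ∃ α, b α < a α := by
      by_contra hc
      push Not at hc
      have : ∑ α, (a α - b α).toNat = 0 := Finset.sum_eq_zero fun α _ => by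
        have := hc α
        omega
      omega
    have h1 := step φ x hφ hx hr V (T α) (hT α) (a α) (ha α)
    obtain ⟨S, hS⟩ : ∃ S, S = sub φ hφ V (T α) (hT α) (a α - 1) := ⟨_, rfl⟩
    have hmem : ∀ v, v ∈ S ↔ ‖T α v‖ ≤ Real.exp ((a α - 1 : ℤ) : ℝ) := by
      intro v
      rw [hS]
      rfl
    rw [← hS] at h1
    have hsum : ∑ β, (Function.update a α (a α - 1) β - b β).toNat = N := by
      have h2 : ∑ β, (a β - b β).toNat = (∑ β, (Function.update a α (a α - 1) β - b β).toNat) + 1 := by
        rw [← Finset.add_sum_erase _ _ (Finset.mem_univ α),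
          ← Finset.add_sum_erase (a := α) _ (fun β => (Function.update a α (a α - 1) β - b β).toNat)
          (Finset.mem_univ α)]
        have h3 : ∑ β ∈ Finset.univ.erase α, (Function.update a α (a α - 1) β - b β).toNat =
            ∑ β ∈ Finset.univ.erase α, (a β - b β).toNat := by
          refine Finset.sum_congr rfl fun β hβ => ?_
          rw [Function.update_of_ne (Finset.ne_of_mem_erase hβ)]
        rw [h3, Function.update_self]
        omega
      omega
    obtain ⟨v, hv, hv2⟩ := ih S (fun β => (T β).comp S.subtype.toAddMonoidHom)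
      (Function.update a α (a α - 1)) (fun β t v => hT β t v) (fun β v => by
        by_cases hβ : β = α
        · subst hβ
          rw [Function.update_self]
          exact (hmem v).1 v.2
        · rw [Function.update_of_ne hβ]
          exact ha β v) hsum (by omega)
    exact ⟨v, fun h0 => hv (Subtype.ext h0), fun β => hv2 β⟩

end NP0

theorem pr_P0 : S_P0 := by
  intro K L _ _ _ φ x hφ hx hr V _ _ _ ι _ T a b hT ha hs
  exact NP0.main φ x hφ hx hr ι b _ V T a hT ha rfl hs

end Pool.Agent.Work.MP_91e6de_nt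

end

section

/-!
# Item P1: division by a monic polynomial and Gauss norms
-/

open Polynomial

namespace Pool.Agent.Work.MP_91e6de_nt

theorem pr_P1 : S_P1 := by
  intro L _ _ s M Q A hQ hQc
  induction A using degree_lt_wf.induction with
  | _ A ih =>
  intro hA n
  have hE : ∀ x : ℝ, 0 ≤ Real.exp x := fun x => (Real.exp_pos x).le
  by_cases hd : A.degree < Q.degree
  · rw [(divByMonic_eq_zero_iff hQ).2 hd, (modByMonic_eq_self_iff hQ).2 hd]
    refine ⟨?_, hA n⟩
    rw [coeff_zero, norm_zero]
    exact hE _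
  · have hd' : Q.degree ≤ A.degree := not_lt.1 hd
    have hA0 : A ≠ 0 := by
      rintro rfl
      rw [degree_zero, le_bot_iff] at hd'
      exact hQ.ne_zero (degree_eq_bot.1 hd')
    have hk : Q.natDegree ≤ A.natDegree := natDegree_le_natDegree hd'
    set k : ℕ := A.natDegree - Q.natDegree with hkdef
    have hkD : A.natDegree = Q.natDegree + k := by omega
    set c : L := A.leadingCoeff with hc
    set A' : L[X] := A - Q * (C c * X ^ k) with hA'
    have hlt : A'.degree < A.degree := div_wf_lemma ⟨hd', hA0⟩ hQ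
    have hcn : ‖c‖ ≤ Real.exp (M - s * (Q.natDegree + k : ℝ)) := by
      have := hA A.natDegree
      rw [hkD] at this
      push_cast at this
      rwa [← hkD] at this
    have hA'c : ∀ n, ‖A'.coeff n‖ ≤ Real.exp (M - s * n) := by
      intro n
      rw [hA', coeff_sub, sub_eq_add_neg]
      refine (IsUltrametricDist.norm_add_le_max (A.coeff n) _).trans (max_le (hA n) ?_)
      rw [norm_neg]
      have e : Q * (C c * X ^ k) = (C c * Q) * X ^ k := by ring
      rw [e, coeff_mul_X_pow']
      split_ifs with hkn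
      · rw [coeff_C_mul, norm_mul]
        by_cases hl : n - k ≤ Q.natDegree
        · calc ‖c‖ * ‖Q.coeff (n - k)‖ ≤ Real.exp (M - s * (Q.natDegree + k : ℝ)) *
                Real.exp (s * ((Q.natDegree : ℝ) - ((n - k : ℕ) : ℝ))) :=
              mul_le_mul hcn (hQc _ hl) (norm_nonneg _) (hE _)
            _ = Real.exp (M - s * n) := by
              rw [← Real.exp_add]
              congr 1
              rw [Nat.cast_sub hkn]
              ring
        · rw [coeff_eq_zero_of_natDegree_lt (not_le.1 hl), norm_zero, mul_zero]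
          exact hE _
      · rw [norm_zero]
        exact hE _
    have hI := ih A' hlt hA'c
    have hu := div_modByMonic_unique (f := A) (g := Q) (C c * X ^ k + A' /ₘ Q) (A' %ₘ Q) hQ
      ⟨by
        have := modByMonic_add_div A' Q
        calc A' %ₘ Q + Q * (C c * X ^ k + A' /ₘ Q) =
              (A' %ₘ Q + Q * (A' /ₘ Q)) + Q * (C c * X ^ k) := by ring
          _ = A' + Q * (C c * X ^ k) := by rw [this]
          _ = A := by rw [hA']; ring, degree_modByMonic_lt _ hQ⟩
    rw [hu.1, hu.2]
    refine ⟨?_, (hI n).2⟩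
    rw [coeff_add, coeff_C_mul, coeff_X_pow]
    refine (IsUltrametricDist.norm_add_le_max _ _).trans (max_le ?_ (hI n).1)
    split_ifs with hnk
    · rw [mul_one, hnk]
      refine hcn.trans (le_of_eq ?_)
      congr 1
      ring
    · rw [mul_zero, norm_zero]
      exact hE _

end Pool.Agent.Work.MP_91e6de_nt

end

section

set_option autoImplicit false

/-!
# P2: `Q`-adic digits
-/

open Polynomial

namespace Pool.Agent.Work.MP_91e6de_nt

namespace NP2

variable {L : Type} [Field L]

theorem div_div (Q R A : L[X]) (hQ : Q.Monic) (hR : R.Monic) :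
    (A /ₘ Q) /ₘ R = A /ₘ (Q * R) := by
  refine (div_modByMonic_unique ((A /ₘ Q) /ₘ R) (Q * ((A /ₘ Q) %ₘ R) + A %ₘ Q) (hQ.mul hR)
    ⟨?_, ?_⟩).1.symm
  · have h1 := modByMonic_add_div A Q
    have h2 := modByMonic_add_div (A /ₘ Q) R
    calc Q * ((A /ₘ Q) %ₘ R) + A %ₘ Q + Q * R * ((A /ₘ Q) /ₘ R)
        = A %ₘ Q + Q * ((A /ₘ Q) %ₘ R + R * ((A /ₘ Q) /ₘ R)) := by ring
      _ = A := by rw [h2, h1]
  · have hQ0 : Q.degree ≠ ⊥ := fun h => hQ.ne_zero (degree_eq_bot.1 h)
    have h3 : degree (Q * R) = degree Q + degree R := degree_mul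
    rw [h3]
    refine lt_of_le_of_lt (degree_add_le _ _) (max_lt ?_ ?_)
    · rw [degree_mul]
      have h4 := degree_modByMonic_lt (A /ₘ Q) hR
      exact WithBot.add_lt_add_left hQ0 h4
    · have h4 := degree_modByMonic_lt A hQ
      refine lt_of_lt_of_le h4 ?_
      have h5 : (0 : WithBot ℕ) ≤ R.degree := zero_le_degree_iff.2 hR.ne_zero
      calc Q.degree = Q.degree + 0 := (add_zero _).symm
        _ ≤ Q.degree + R.degree := by gcongr

theorem div_pow (Q A : L[X]) (hQ : Q.Monic) (j : ℕ) :
    (A /ₘ Q) /ₘ Q ^ j = A /ₘ Q ^ (j + 1) := by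
  rw [div_div Q (Q ^ j) A hQ (hQ.pow j), ← pow_succ']

theorem digit_succ (Q A : L[X]) (hQ : Q.Monic) (j l : ℕ) :
    digit Q j l (A /ₘ Q) = digit Q (j + 1) l A := by
  unfold digit
  rw [div_pow Q A hQ]

theorem digit_zero (Q A : L[X]) (l : ℕ) : digit Q 0 l A = (A %ₘ Q).coeff l := by
  unfold digit
  rw [pow_zero, divByMonic_one]

theorem div_add (Q A B : L[X]) (hQ : Q.Monic) : (A + B) /ₘ Q = A /ₘ Q + B /ₘ Q := by
  refine (div_modByMonic_unique (A /ₘ Q + B /ₘ Q) (A %ₘ Q + B %ₘ Q) hQ ⟨?_, ?_⟩).1
  · calc A %ₘ Q + B %ₘ Q + Q * (A /ₘ Q + B /ₘ Q)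
        = (A %ₘ Q + Q * (A /ₘ Q)) + (B %ₘ Q + Q * (B /ₘ Q)) := by ring
      _ = A + B := by rw [modByMonic_add_div, modByMonic_add_div]
  · exact lt_of_le_of_lt (degree_add_le _ _)
      (max_lt (degree_modByMonic_lt A hQ) (degree_modByMonic_lt B hQ))

theorem div_C_mul (Q A : L[X]) (t : L) (hQ : Q.Monic) :
    (C t * A) /ₘ Q = C t * (A /ₘ Q) ∧ (C t * A) %ₘ Q = C t * (A %ₘ Q) := by
  refine div_modByMonic_unique (C t * (A /ₘ Q)) (C t * (A %ₘ Q)) hQ ⟨?_, ?_⟩
  · calc C t * (A %ₘ Q) + Q * (C t * (A /ₘ Q)) = C t * (A %ₘ Q + Q * (A /ₘ Q)) := by ring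
      _ = C t * A := by rw [modByMonic_add_div]
  · refine lt_of_le_of_lt ?_ (degree_modByMonic_lt A hQ)
    rw [degree_mul]
    by_cases ht : t = 0
    · subst ht
      rw [C_0, degree_zero, WithBot.bot_add]
      exact bot_le
    · rw [degree_C ht, zero_add]

theorem expand (Q : L[X]) (hQ : Q.Monic) (hQ1 : 1 ≤ Q.natDegree) : ∀ (J : ℕ) (A : L[X]),
    A.degree < ((J * Q.natDegree : ℕ) : WithBot ℕ) →
    A = ∑ j ∈ Finset.range J, ∑ l ∈ Finset.range Q.natDegree,
      C (digit Q j l A) * X ^ l * Q ^ j := by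
  intro J
  induction J with
  | zero =>
    intro A hA
    rw [zero_mul] at hA
    have : A = 0 := by
      rw [← degree_eq_bot]
      rwa [Nat.cast_zero, Nat.WithBot.lt_zero_iff] at hA
    rw [this, Finset.range_zero, Finset.sum_empty]
  | succ J ih =>
    intro A hA
    have hdeg : (A /ₘ Q).degree < ((J * Q.natDegree : ℕ) : WithBot ℕ) := by
      by_cases h0 : A /ₘ Q = 0
      · rw [h0, degree_zero]
        exact WithBot.bot_lt_coe _
      · have h1 : Q.degree ≤ A.degree := by
          by_contra hc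
          exact h0 ((divByMonic_eq_zero_iff hQ).2 (not_le.1 hc))
        have h2 := degree_add_divByMonic hQ h1
        rw [← h2, degree_eq_natDegree hQ.ne_zero, degree_eq_natDegree h0] at hA
        rw [degree_eq_natDegree h0]
        have h3 : Q.natDegree + (A /ₘ Q).natDegree < (J + 1) * Q.natDegree := by
          exact_mod_cast hA
        have h4 : (A /ₘ Q).natDegree < J * Q.natDegree := by
          rw [Nat.succ_mul] at h3
          omega
        exact_mod_cast h4
    have h1 := ih (A /ₘ Q) hdeg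
    have h2 : A %ₘ Q = ∑ l ∈ Finset.range Q.natDegree, C ((A %ₘ Q).coeff l) * X ^ l := by
      have h3 := (A %ₘ Q).as_sum_range' Q.natDegree (natDegree_modByMonic_lt A hQ (by
        intro h
        rw [h, natDegree_one] at hQ1
        omega))
      conv_lhs => rw [h3]
      exact Finset.sum_congr rfl fun l _ => (C_mul_X_pow_eq_monomial).symm
    rw [Finset.sum_range_succ']
    have h4 : ∑ l ∈ Finset.range Q.natDegree, C (digit Q 0 l A) * X ^ l * Q ^ 0 = A %ₘ Q := by
      rw [h2]
      refine Finset.sum_congr rfl fun l _ => ?_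
      rw [digit_zero, pow_zero, mul_one]
    have h5 : ∑ j ∈ Finset.range J, ∑ l ∈ Finset.range Q.natDegree,
        C (digit Q (j + 1) l A) * X ^ l * Q ^ (j + 1) = Q * (A /ₘ Q) := by
      conv_rhs => rw [h1]
      rw [Finset.mul_sum]
      refine Finset.sum_congr rfl fun j _ => ?_
      rw [Finset.mul_sum]
      refine Finset.sum_congr rfl fun l _ => ?_
      rw [digit_succ Q A hQ, pow_succ]
      ring
    rw [h4, h5, add_comm, modByMonic_add_div]

end NP2

open NP2 in
theorem pr_P2 (hP1 : S_P1) : S_P2 := by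
  intro L _ _ Q hQ hQ1
  refine ⟨expand Q hQ hQ1, ?_, ?_, ?_⟩
  · intro j l A B
    unfold digit
    rw [div_add _ _ _ (hQ.pow j), add_modByMonic, coeff_add]
  · intro j l t A
    unfold digit
    rw [(div_C_mul _ _ t (hQ.pow j)).1, (div_C_mul _ _ t hQ).2, coeff_C_mul]
  · intro s M A hq hA j l
    have key : ∀ (j : ℕ) (M : ℝ) (A : L[X]), (∀ n : ℕ, ‖A.coeff n‖ ≤ Real.exp (M - s * n)) →
        ∀ n : ℕ, ‖(A /ₘ Q ^ j).coeff n‖ ≤ Real.exp (M - s * Q.natDegree * j - s * n) := by
      intro j
      induction j with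
      | zero =>
        intro M A hA n
        rw [pow_zero, divByMonic_one, Nat.cast_zero, mul_zero, sub_zero]
        exact hA n
      | succ j ih =>
        intro M A hA n
        rw [← div_pow Q A hQ]
        have h1 := ih (M - s * Q.natDegree) (A /ₘ Q)
          (fun n => (hP1 L s M Q A hQ hq hA n).1) n
        refine h1.trans (le_of_eq ?_)
        congr 1
        push_cast
        ring
    unfold digit
    have h1 := (hP1 L s (M - s * Q.natDegree * j) Q (A /ₘ Q ^ j) hQ hq (key j M A hA) l).2
    refine h1.trans (le_of_eq ?_)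
    congr 1
    ring

end Pool.Agent.Work.MP_91e6de_nt

end

section

/-!
# MP_91e6de, item P3: the auxiliary polynomial
-/

open Polynomial

namespace Pool.Agent.Work.MP_91e6de_nt

namespace NP3

theorem N_zero {W : Type*} [NormedField W] (N : BPt W) : N.N 0 = 0 := by
  have := N.map_C 0
  simpa using this

theorem N_one {W : Type*} [NormedField W] (N : BPt W) : N.N 1 = 1 := by
  have := N.map_C 1
  simpa using this

theorem N_pow {W : Type*} [NormedField W] (N : BPt W) (f : W[X]) (k : ℕ) :
    N.N (f ^ k) = N.N f ^ k := by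
  induction k with
  | zero => simpa using N_one N
  | succ k ih => rw [pow_succ, N.map_mul, ih, pow_succ]

theorem N_sum_lt {W : Type*} [NormedField W] (N : BPt W) {ι : Type*} (t : Finset ι)
    (f : ι → W[X]) (h : ∀ i ∈ t, N.N (f i) < 1) : N.N (∑ i ∈ t, f i) < 1 := by
  classical
  induction t using Finset.induction_on with
  | empty => simp [N_zero]
  | insert a t ha ih =>
    rw [Finset.sum_insert ha]
    refine lt_of_le_of_lt (N.add_le _ _) (max_lt ?_ ?_)
    · exact h a (Finset.mem_insert_self a t)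
    · exact ih fun i hi => h i (Finset.mem_insert_of_mem hi)

theorem sum_lin (M s : ℝ) (n : ℕ) :
    ∑ i ∈ Finset.range n, (M - s * (i : ℝ)) = n * M - s * (n * (n - 1) / 2) := by
  induction n with
  | zero => simp
  | succ n ih =>
    rw [Finset.sum_range_succ, ih]
    push_cast
    ring

/-- index set of the coefficients -/
abbrev Idx (J D : ℕ) (m : ℕ → ℕ) : Type := (n : Fin (J * D)) × Fin (m n.val + 1)

/-- the polynomial with given coefficients -/
noncomputable def Rc {K : Type} [Field K] {J D : ℕ} {m : ℕ → ℕ} (c : Idx J D m → K) : K[X][X] :=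
  ∑ p : Idx J D m, monomial p.1.val (monomial p.2.val (c p))

/-- its specialisation -/
noncomputable def Ac {K L : Type} [Field K] [Field L] (φ : K →+* L) (x : L) {J D : ℕ}
    {m : ℕ → ℕ} (c : Idx J D m → K) : L[X] :=
  ∑ p : Idx J D m, monomial p.1.val (φ (c p) * x ^ p.2.val)

theorem Rc_map {K L : Type} [Field K] [Field L] (φ : K →+* L) (x : L) {J D : ℕ}
    {m : ℕ → ℕ} (c : Idx J D m → K) : (Rc c).map (eval₂RingHom φ x) = Ac φ x c := by
  unfold Rc Ac
  rw [Polynomial.map_sum]
  apply Finset.sum_congr rfl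
  intro p _
  rw [Polynomial.map_monomial]
  congr 1
  rw [coe_eval₂RingHom, eval₂_monomial]

theorem Rc_ne {K : Type} [Field K] {J D : ℕ} {m : ℕ → ℕ} (c : Idx J D m → K) (hc : c ≠ 0) :
    Rc c ≠ 0 := by
  classical
  intro h
  apply hc
  funext p
  have h1 : ((Rc c).coeff p.1.val).coeff p.2.val = c p := by
    unfold Rc
    rw [Polynomial.finsetSum_coeff, Polynomial.finsetSum_coeff, Finset.sum_eq_single p]
    · simp
    · intro q _ hq
      rw [Polynomial.coeff_monomial]
      split_ifs with h2
      · rw [Polynomial.coeff_monomial]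
        split_ifs with h3
        · exfalso
          apply hq
          obtain ⟨⟨q1, hq1⟩, ⟨q2, hq2⟩⟩ := q
          obtain ⟨⟨p1, hp1⟩, ⟨p2, hp2⟩⟩ := p
          simp only at h2 h3
          subst h2
          subst h3
          rfl
        · rfl
      · simp
    · intro h2
      exact absurd (Finset.mem_univ p) h2
  rw [← h1, h]
  simp

theorem Ac_add {K L : Type} [Field K] [Field L] (φ : K →+* L) (x : L) {J D : ℕ}
    {m : ℕ → ℕ} (c c' : Idx J D m → K) : Ac φ x (c + c') = Ac φ x c + Ac φ x c' := by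
  unfold Ac
  rw [← Finset.sum_add_distrib]
  apply Finset.sum_congr rfl
  intro p _
  rw [← LinearMap.map_add, Pi.add_apply, map_add φ, add_mul]

theorem Ac_smul {K L : Type} [Field K] [Field L] (φ : K →+* L) (x : L) {J D : ℕ}
    {m : ℕ → ℕ} (t : K) (c : Idx J D m → K) : Ac φ x (t • c) = C (φ t) * Ac φ x c := by
  unfold Ac
  rw [Finset.mul_sum]
  apply Finset.sum_congr rfl
  intro p _
  rw [Polynomial.C_mul_monomial, Pi.smul_apply, smul_eq_mul, map_mul φ, mul_assoc]

theorem Ac_deg {K L : Type} [Field K] [Field L] (φ : K →+* L) (x : L) {J D : ℕ}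
    {m : ℕ → ℕ} (c : Idx J D m → K) : (Ac φ x c).degree < ((J * D : ℕ) : WithBot ℕ) := by
  rw [Polynomial.degree_lt_iff_coeff_zero]
  intro n hn
  unfold Ac
  rw [Polynomial.finsetSum_coeff]
  apply Finset.sum_eq_zero
  intro p _
  rw [Polynomial.coeff_monomial, if_neg]
  have := p.1.isLt
  omega

theorem Ac_bound {K L : Type} [Field K] [NormedField L] [IsUltrametricDist L] (φ : K →+* L)
    (x : L) (h1 : ∀ a, a ≠ 0 → ‖φ a‖ = 1) (hx : ‖x‖ = Real.exp 1) {J D : ℕ} {m : ℕ → ℕ}
    (M s : ℝ) (hm : ∀ n, n < J * D → (m n : ℝ) ≤ M - s * n)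
    (c : Idx J D m → K) (n : ℕ) : ‖(Ac φ x c).coeff n‖ ≤ Real.exp (M - s * n) := by
  unfold Ac
  rw [Polynomial.finsetSum_coeff]
  apply IsUltrametricDist.norm_sum_le_of_forall_le_of_nonneg (Real.exp_pos _).le
  intro p _
  rw [Polynomial.coeff_monomial]
  split_ifs with h
  · rw [norm_mul, norm_pow, hx]
    have h2 : ‖φ (c p)‖ ≤ 1 := by
      by_cases h3 : c p = 0
      · rw [h3]; simp
      · exact (h1 _ h3).le
    have h4 : Real.exp 1 ^ (p.2.val) ≤ Real.exp (M - s * n) := by
      rw [← Real.exp_nat_mul]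
      apply Real.exp_le_exp.2
      have h5 : (p.2.val : ℝ) ≤ (m p.1.val : ℝ) := by
        have := p.2.isLt
        exact_mod_cast Nat.lt_succ_iff.1 this
      have h6 := hm p.1.val p.1.isLt
      have h7 : (p.1.val : ℝ) = n := by rw [h]
      rw [h7] at h6
      linarith
    calc ‖φ (c p)‖ * Real.exp 1 ^ (p.2.val) ≤ 1 * Real.exp 1 ^ (p.2.val) := by
          apply mul_le_mul_of_nonneg_right h2
          positivity
      _ ≤ _ := by rw [one_mul]; exact h4
  · rw [norm_zero]
    exact (Real.exp_pos _).le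

end NP3

open NP3 in
theorem pr_P3 (h0 : S_P0) (h2 : S_P2) : S_P3 := by
  classical
  intro K L _ _ _ φ x h1 hx hres s η hs hη Q hQ hD hQc
  obtain ⟨hexp, hadd, hsmul, hbd⟩ := h2 L Q hQ hD
  set D := Q.natDegree with hDdef
  -- choice of J and M
  obtain ⟨J, hJ⟩ := exists_nat_gt (1 + (s * D + 4) / η)
  have hDr : (1 : ℝ) ≤ D := by exact_mod_cast hD
  have hJ1 : s * D + 4 < η * (J - 1) := by
    have : (s * D + 4) / η < J - 1 := by linarith
    rw [div_lt_iff₀ hη] at this
    linarith
  have hJpos : (1 : ℝ) < J := by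
    have : 0 < η * (J - 1) := by nlinarith
    nlinarith [this, hη]
  obtain ⟨M, hM⟩ := exists_nat_gt ((s * D + η) * J + s * D * J)
  have hMn : ∀ n : ℕ, n < J * D → 0 ≤ (M : ℝ) - s * n := by
    intro n hn
    have h3 : (n : ℝ) ≤ J * D := by exact_mod_cast hn.le
    have h4 : s * n ≤ s * (J * D) := mul_le_mul_of_nonneg_left h3 hs.le
    have h5 : 0 ≤ (s * D + η) * J := by positivity
    nlinarith
  let m : ℕ → ℕ := fun n => ⌊(M : ℝ) - s * n⌋₊
  have hm : ∀ n, n < J * D → (m n : ℝ) ≤ M - s * n := fun n hn => Nat.floor_le (hMn n hn)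
  have hm2 : ∀ n : ℕ, (M : ℝ) - s * n ≤ m n + 1 := fun n => (Nat.lt_floor_add_one _).le
  -- the maps
  let T : Fin J × Fin D → ((Idx J D m → K) →+ L) := fun α =>
    AddMonoidHom.mk' (fun c => digit Q α.1.val α.2.val (Ac φ x c))
      (fun c c' => by rw [Ac_add, hadd])
  let a : Fin J × Fin D → ℤ := fun α => ⌈(M : ℝ) - s * ((D : ℝ) * α.1.val + α.2.val)⌉
  let b : Fin J × Fin D → ℤ := fun α => ⌈η * (α.1.val : ℝ) - s * (α.2.val : ℝ)⌉ - 1
  have hTs : ∀ α (t : K) c, T α (t • c) = φ t * T α c := by
    intro α t c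
    show digit Q α.1.val α.2.val (Ac φ x (t • c)) = φ t * digit Q α.1.val α.2.val (Ac φ x c)
    rw [Ac_smul, hsmul]
  have hTb : ∀ α c, ‖T α c‖ ≤ Real.exp (a α) := by
    intro α c
    refine le_trans (hbd s M (Ac φ x c) hQc (Ac_bound φ x h1 hx M s hm c) α.1.val α.2.val) ?_
    exact Real.exp_le_exp.2 (Int.le_ceil _)
  -- counting
  have hcount : ∑ α, (a α - b α).toNat < Module.finrank K (Idx J D m → K) := by
    have hfr : Module.finrank K (Idx J D m → K) = ∑ n : Fin (J * D), (m n.val + 1) := by
      rw [Module.finrank_fintype_fun_eq_card, Fintype.card_sigma]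
      simp
    rw [hfr]
    have hreal : ((∑ α : Fin J × Fin D, (a α - b α).toNat : ℕ) : ℝ) <
        ((∑ n : Fin (J * D), (m n.val + 1) : ℕ) : ℝ) := by
      push_cast
      have hub : ∀ α : Fin J × Fin D, (((a α - b α).toNat : ℕ) : ℝ) ≤
          (M + 2 : ℝ) - (s * D + η) * (α.1.val : ℝ) := by
        intro α
        have hj : (α.1.val : ℝ) ≤ J := by exact_mod_cast α.1.isLt.le
        have hnn : 0 ≤ (M + 2 : ℝ) - (s * D + η) * (α.1.val : ℝ) := by
          have h3 : (s * D + η) * (α.1.val : ℝ) ≤ (s * D + η) * J :=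
            mul_le_mul_of_nonneg_left hj (by positivity)
          have h4 : 0 ≤ s * D * J := by positivity
          linarith
        have hab : ((a α - b α : ℤ) : ℝ) ≤ (M + 2 : ℝ) - (s * D + η) * (α.1.val : ℝ) := by
          have e1 : ((a α : ℤ) : ℝ) < (M : ℝ) - s * ((D : ℝ) * α.1.val + α.2.val) + 1 :=
            Int.ceil_lt_add_one _
          have e2 : η * (α.1.val : ℝ) - s * (α.2.val : ℝ) ≤ ((b α : ℤ) : ℝ) + 1 := by
            have := Int.le_ceil (η * (α.1.val : ℝ) - s * (α.2.val : ℝ))
            show _ ≤ (((⌈η * (α.1.val : ℝ) - s * (α.2.val : ℝ)⌉ - 1 : ℤ)) : ℝ) + 1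
            push_cast
            linarith
          push_cast
          nlinarith
        rcases le_total 0 (a α - b α) with h3 | h3
        · have : (((a α - b α).toNat : ℕ) : ℝ) = ((a α - b α : ℤ) : ℝ) := by
            have h4 := Int.toNat_of_nonneg h3
            exact_mod_cast congrArg (Int.cast : ℤ → ℝ) h4
          rw [this]
          exact hab
        · rw [Int.toNat_of_nonpos h3]
          simpa using hnn
      have hL : ∑ α : Fin J × Fin D, (((a α - b α).toNat : ℕ) : ℝ) ≤
          D * (J * (M + 2 : ℝ) - (s * D + η) * (J * (J - 1) / 2)) := by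
        refine le_trans (Finset.sum_le_sum fun α _ => hub α) ?_
        rw [Fintype.sum_prod_type]
        simp only [Finset.sum_const, Finset.card_univ, Fintype.card_fin, nsmul_eq_mul]
        rw [← Finset.mul_sum, ← Finset.sum_range (fun i : ℕ => (M + 2 : ℝ) - (s * D + η) * (i : ℝ)),
          sum_lin]
      have hR : (((J * D : ℕ) : ℝ) * M - s * (((J * D : ℕ) : ℝ) * (((J * D : ℕ) : ℝ) - 1) / 2)) ≤
          ∑ n : Fin (J * D), ((m n.val : ℝ) + 1) := by
        rw [← sum_lin, Finset.sum_range (fun i : ℕ => (M : ℝ) - s * (i : ℝ))]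
        exact Finset.sum_le_sum fun n _ => hm2 n.val
      refine lt_of_le_of_lt hL (lt_of_lt_of_le ?_ hR)
      push_cast
      have hJD : 0 < (J : ℝ) * D := by nlinarith
      have key : 0 < (J : ℝ) * D / 2 * (s - s * D + η * (J - 1) - 4) := by
        apply mul_pos (by linarith)
        linarith
      nlinarith [key]
    exact_mod_cast hreal
  obtain ⟨c, hc, hcb⟩ := h0 K L φ x h1 hx hres (Idx J D m → K) (Fin J × Fin D) T a b hTs hTb
    hcount
  refine ⟨Rc c, Rc_ne c hc, ?_⟩
  intro N hNX hNQ
  rw [Rc_map]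
  rw [hexp J (Ac φ x c) (Ac_deg φ x c)]
  apply N_sum_lt
  intro j hj
  apply N_sum_lt
  intro l hl
  rw [Finset.mem_range] at hj hl
  rw [N.map_mul, N.map_mul, N.map_C, N_pow, N_pow]
  have hb := hcb (⟨j, hj⟩, ⟨l, hl⟩)
  have hb1 : ‖digit Q j l (Ac φ x c)‖ ≤ Real.exp ((b (⟨j, hj⟩, ⟨l, hl⟩) : ℤ) : ℝ) := hb
  have hb2 : ((b (⟨j, hj⟩, ⟨l, hl⟩) : ℤ) : ℝ) < η * j - s * l := by
    show (((⌈η * (j : ℝ) - s * (l : ℝ)⌉ - 1 : ℤ)) : ℝ) < _
    push_cast
    have := Int.ceil_lt_add_one (η * (j : ℝ) - s * (l : ℝ))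
    linarith
  have hb3 : ‖digit Q j l (Ac φ x c)‖ < Real.exp (η * j - s * l) :=
    lt_of_le_of_lt hb1 (Real.exp_lt_exp.2 hb2)
  have hX : N.N X ^ l ≤ Real.exp (s * l) := by
    calc N.N X ^ l ≤ Real.exp s ^ l := pow_le_pow_left₀ (N.nonneg _) hNX l
      _ = Real.exp (s * l) := by rw [← Real.exp_nat_mul]; ring_nf
  have hQj : N.N Q ^ j ≤ Real.exp (-η * j) := by
    calc N.N Q ^ j ≤ Real.exp (-η) ^ j := pow_le_pow_left₀ (N.nonneg _) hNQ j
      _ = Real.exp (-η * j) := by rw [← Real.exp_nat_mul]; ring_nf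
  have hXn : 0 ≤ N.N X ^ l := pow_nonneg (N.nonneg _) _
  have hQn : 0 ≤ N.N Q ^ j := pow_nonneg (N.nonneg _) _
  calc ‖digit Q j l (Ac φ x c)‖ * N.N X ^ l * N.N Q ^ j
      ≤ ‖digit Q j l (Ac φ x c)‖ * Real.exp (s * l) * Real.exp (-η * j) := by
        apply mul_le_mul _ hQj hQn (by positivity)
        exact mul_le_mul_of_nonneg_left hX (norm_nonneg _)
    _ < Real.exp (η * j - s * l) * Real.exp (s * l) * Real.exp (-η * j) := by
        apply mul_lt_mul_of_pos_right _ (Real.exp_pos _)
        exact mul_lt_mul_of_pos_right hb3 (Real.exp_pos _)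
    _ = 1 := by
        rw [← Real.exp_add, ← Real.exp_add]
        have : η * (j : ℝ) - s * l + s * l + -η * j = 0 := by ring
        rw [this, Real.exp_zero]

end Pool.Agent.Work.MP_91e6de_nt

end

section

set_option autoImplicit false

/-!
# PB: upper bounds for values of polynomials
-/

open Polynomial Filter Topology

namespace Pool.Agent.Work.MP_91e6de_nt

namespace NPB

theorem one_var {K : Type} [Field K] (v : AbsoluteValue K ℝ) (a : K[X]) :
    ∃ B : ℝ, 1 ≤ B ∧ ∀ x, v (a.eval x) ≤ B * max 1 (v x) ^ a.natDegree := by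
  refine ⟨1 + ∑ i ∈ Finset.range (a.natDegree + 1), v (a.coeff i), ?_, fun x => ?_⟩
  · have : 0 ≤ ∑ i ∈ Finset.range (a.natDegree + 1), v (a.coeff i) :=
      Finset.sum_nonneg fun i _ => v.nonneg _
    linarith
  · have h1 : (1 : ℝ) ≤ max 1 (v x) := le_max_left _ _
    rw [Polynomial.eval_eq_sum_range]
    calc v (∑ i ∈ Finset.range (a.natDegree + 1), a.coeff i * x ^ i)
        ≤ ∑ i ∈ Finset.range (a.natDegree + 1), v (a.coeff i * x ^ i) := v.sum_le _ _
      _ ≤ ∑ i ∈ Finset.range (a.natDegree + 1), v (a.coeff i) * max 1 (v x) ^ a.natDegree := by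
          refine Finset.sum_le_sum fun i hi => ?_
          rw [map_mul, map_pow]
          refine mul_le_mul_of_nonneg_left ?_ (v.nonneg _)
          calc v x ^ i ≤ max 1 (v x) ^ i := pow_le_pow_left₀ (v.nonneg _) (le_max_right _ _) i
            _ ≤ max 1 (v x) ^ a.natDegree :=
                pow_le_pow_right₀ h1 (Nat.lt_succ_iff.1 (Finset.mem_range.1 hi))
      _ = (∑ i ∈ Finset.range (a.natDegree + 1), v (a.coeff i)) * max 1 (v x) ^ a.natDegree := by
          rw [Finset.sum_mul]
      _ ≤ (1 + ∑ i ∈ Finset.range (a.natDegree + 1), v (a.coeff i)) *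
            max 1 (v x) ^ a.natDegree := by
          refine mul_le_mul_of_nonneg_right ?_ (by positivity)
          linarith

theorem evalEval_eq {K : Type} [Field K] (R : K[X][X]) (x y : K) :
    R.evalEval x y =
      ∑ i ∈ Finset.range (R.natDegree + 1), (R.coeff i).eval x * y ^ i := by
  unfold Polynomial.evalEval
  rw [Polynomial.eval_eq_sum_range (p := R) (C y), Polynomial.eval_finsetSum]
  refine Finset.sum_congr rfl fun i _ => ?_
  rw [Polynomial.eval_mul, Polynomial.eval_pow, Polynomial.eval_C]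

end NPB

open NPB in
theorem pr_PB : S_PB := by
  intro K _ v
  refine ⟨one_var v, fun R => ?_⟩
  choose B hB1 hB using fun i : ℕ => one_var v (R.coeff i)
  set m : ℕ := (Finset.range (R.natDegree + 1)).sup fun i => (R.coeff i).natDegree with hm
  refine ⟨1 + ∑ i ∈ Finset.range (R.natDegree + 1), B i, m, ?_, fun x y => ?_⟩
  · have : 0 ≤ ∑ i ∈ Finset.range (R.natDegree + 1), B i :=
      Finset.sum_nonneg fun i _ => zero_le_one.trans (hB1 i)
    linarith
  · have h1 : (1 : ℝ) ≤ max 1 (v x) := le_max_left _ _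
    have h2 : (1 : ℝ) ≤ max 1 (v y) := le_max_left _ _
    rw [evalEval_eq]
    calc v (∑ i ∈ Finset.range (R.natDegree + 1), (R.coeff i).eval x * y ^ i)
        ≤ ∑ i ∈ Finset.range (R.natDegree + 1), v ((R.coeff i).eval x * y ^ i) := v.sum_le _ _
      _ ≤ ∑ i ∈ Finset.range (R.natDegree + 1),
            B i * (max 1 (v x) ^ m * max 1 (v y) ^ R.natDegree) := by
          refine Finset.sum_le_sum fun i hi => ?_
          have h3 : (R.coeff i).natDegree ≤ m :=
            Finset.le_sup (f := fun i => (R.coeff i).natDegree) hi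
          have h4 : i ≤ R.natDegree := Nat.lt_succ_iff.1 (Finset.mem_range.1 hi)
          have hBi : 0 ≤ B i := zero_le_one.trans (hB1 i)
          rw [map_mul, map_pow, ← mul_assoc]
          refine mul_le_mul ?_ ?_ (pow_nonneg (v.nonneg _) _) (by positivity)
          · refine (hB i x).trans (mul_le_mul_of_nonneg_left ?_ hBi)
            exact pow_le_pow_right₀ h1 h3
          · exact (pow_le_pow_left₀ (v.nonneg _) (le_max_right _ _) i).trans
              (pow_le_pow_right₀ h2 h4)
      _ = (∑ i ∈ Finset.range (R.natDegree + 1), B i) *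
            (max 1 (v x) ^ m * max 1 (v y) ^ R.natDegree) := by
          rw [Finset.sum_mul]
      _ ≤ (1 + ∑ i ∈ Finset.range (R.natDegree + 1), B i) *
            (max 1 (v x) ^ m * max 1 (v y) ^ R.natDegree) := by
          refine mul_le_mul_of_nonneg_right ?_ (by positivity)
          linarith
      _ = _ := by rw [mul_assoc]

end Pool.Agent.Work.MP_91e6de_nt

end

section

set_option autoImplicit false

/-!
# PH: iterates and fibres (helper26)
-/

open Polynomial

namespace Pool.Agent.Work.MP_91e6de_nt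

namespace NPH

variable {K W : Type} [Field K] [NormedField W]

theorem gN_eval (φ : K →+* W) (g : K[X]) (x : W) (k : ℕ) : (gN g k).eval₂ φ x = xs g φ x k := by
  induction k with
  | zero => simp [gN, xs]
  | succ k ih => rw [gN, eval₂_comp, ih, xs]

theorem hom (φ : K →+* W) (g : K[X]) (x : W) (k : ℕ) :
    (eval₂RingHom φ x).comp (compRingHom (gN g k)) = eval₂RingHom φ (xs g φ x k) := by
  ext a
  · simp
  · simp [gN_eval]

end NPH

theorem pr_PH : S_PH := by
  intro K W _ _ φ g F x d e s S hS k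
  induction k with
  | zero => simp [FN, FSys.Phi]
  | succ k ih =>
    rw [FN, FSys.Phi, Polynomial.map_comp, ih, Polynomial.map_map, NPH.hom, hS]
    rfl

end Pool.Agent.Work.MP_91e6de_nt

end

section

/-!
# MP_91e6de: QB, coefficients of a product
-/

open Polynomial

namespace Pool.Agent.Work.MP_91e6de_nt

theorem pr_QB : S_QB := by
  intro W _ _ M r hr
  induction M using Multiset.induction_on with
  | empty =>
    intro _ l hl
    have : l = 0 := by simpa using hl
    subst this
    simp
  | cons β M ih =>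
    intro hM l hl
    have hβ : ‖β‖ ≤ r := hM β (Multiset.mem_cons_self β M)
    have ih' := ih fun γ hγ => hM γ (Multiset.mem_cons_of_mem hγ)
    rw [Multiset.card_cons] at hl ⊢
    rw [Multiset.map_cons, Multiset.prod_cons]
    set P := (M.map fun β => X - C β).prod with hP
    have hdeg : P.natDegree = M.card := natDegree_multiset_prod_X_sub_C_eq_card M
    have hmonic : P.Monic := monic_multiset_prod_of_monic _ _ fun a _ => monic_X_sub_C a
    have h1 : ‖β * P.coeff l‖ ≤ r ^ (M.card + 1 - l) := by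
      rcases Nat.lt_or_ge M.card l with h | h
      · rw [coeff_eq_zero_of_natDegree_lt (by omega)]
        simp only [mul_zero, norm_zero]
        positivity
      · rw [norm_mul, Nat.sub_add_comm h, pow_succ, mul_comm]
        exact mul_le_mul (ih' l h) hβ (norm_nonneg _) (by positivity)
    rcases Nat.eq_zero_or_pos l with h0 | h0
    · subst h0
      rw [sub_mul, coeff_sub, coeff_X_mul_zero, coeff_C_mul, zero_sub, norm_neg]
      exact h1
    · obtain ⟨k, rfl⟩ : ∃ k, l = k + 1 := ⟨l - 1, by omega⟩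
      rw [sub_mul, coeff_sub, coeff_X_mul, coeff_C_mul]
      have h2 : ‖P.coeff k‖ ≤ r ^ (M.card + 1 - (k + 1)) := by
        rw [Nat.add_sub_add_right]
        exact ih' k (by omega)
      rw [sub_eq_add_neg]
      exact (IsUltrametricDist.norm_add_le_max _ _).trans (max_le h2 (by rwa [norm_neg]))

end Pool.Agent.Work.MP_91e6de_nt

end

section

set_option autoImplicit false

/-!
# RT: root test
-/

namespace Pool.Agent.Work.MP_91e6de_nt

open Filter Topology

namespace NRT

theorem lim_const (a : ℝ) (ha : 0 < a) :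
    Tendsto (fun n : ℕ => a ^ ((1 : ℝ) / n)) atTop (𝓝 1) := by
  have h := (tendsto_const_nhds (x := a)).rpow tendsto_one_div_atTop_nhds_zero_nat (Or.inl ha.ne')
  rw [Real.rpow_zero] at h
  exact h

theorem lim_succ : Tendsto (fun n : ℕ => ((n : ℝ) + 1) ^ ((1 : ℝ) / n)) atTop (𝓝 1) := by
  have h1 := tendsto_rpow_div_mul_add 1 1 (-1) (by norm_num)
  have h2 : Tendsto (fun n : ℕ => (n : ℝ) + 1) atTop atTop :=
    tendsto_atTop_add_const_right _ _ tendsto_natCast_atTop_atTop
  have h3 := h1.comp h2
  refine h3.congr fun n => ?_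
  simp only [Function.comp]
  congr 2
  ring

theorem root (M : ℝ) (hM : 0 ≤ M) (n : ℕ) (hn : n ≠ 0) : (M ^ n) ^ ((1 : ℝ) / n) = M := by
  rw [one_div]
  exact Real.pow_rpow_inv_natCast hM hn

end NRT

open NRT in
theorem pr_RT : S_RT := by
  intro h M κ C hM hκ hlo hup
  have hM0 : 0 ≤ M := by linarith
  set C' := max C 1 with hC'
  have hC0 : 0 < C' := lt_of_lt_of_le one_pos (le_max_right _ _)
  have hL : Tendsto (fun n : ℕ => κ ^ ((1 : ℝ) / n) * M) atTop (𝓝 M) := by
    have := (lim_const κ hκ).mul_const M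
    rwa [one_mul] at this
  have hU : Tendsto (fun n : ℕ => C' ^ ((1 : ℝ) / n) * (((n : ℝ) + 1) ^ ((1 : ℝ) / n)) ^ 2 * M)
      atTop (𝓝 M) := by
    have := ((lim_const C' hC0).mul (lim_succ.pow 2)).mul_const M
    rwa [one_pow, one_mul, one_mul] at this
  refine tendsto_of_tendsto_of_tendsto_of_le_of_le' hL hU ?_ ?_
  · filter_upwards [hlo, eventually_ge_atTop 1] with n hn hn1
    have e : κ ^ ((1 : ℝ) / n) * M = (κ * M ^ n) ^ ((1 : ℝ) / n) := by
      rw [Real.mul_rpow hκ.le (by positivity), root M hM0 n (by omega)]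
    rw [e]
    exact Real.rpow_le_rpow (by positivity) hn (by positivity)
  · filter_upwards [hlo, eventually_ge_atTop 1] with n hn hn1
    have e : C' ^ ((1 : ℝ) / n) * (((n : ℝ) + 1) ^ ((1 : ℝ) / n)) ^ 2 * M =
        (C' * ((n : ℝ) + 1) ^ 2 * M ^ n) ^ ((1 : ℝ) / n) := by
      rw [Real.mul_rpow (by positivity) (by positivity), Real.mul_rpow hC0.le (by positivity),
        root M hM0 n (by omega), ← Real.rpow_natCast (((n : ℝ) + 1) ^ ((1 : ℝ) / n)) 2,
        ← Real.rpow_natCast ((n : ℝ) + 1) 2, ← Real.rpow_mul (by positivity),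
        ← Real.rpow_mul (by positivity), mul_comm ((1 : ℝ) / n)]
    rw [e]
    refine Real.rpow_le_rpow (le_trans (by positivity) hn) ((hup n).trans ?_) (by positivity)
    refine mul_le_mul_of_nonneg_right (mul_le_mul_of_nonneg_right (le_max_left _ _) ?_) ?_
    · positivity
    · positivity

end Pool.Agent.Work.MP_91e6de_nt

end

section

/-!
# MP_91e6de: SL, existence of the slope
-/

open Polynomial

namespace Pool.Agent.Work.MP_91e6de_nt

theorem pr_SL : S_SL := by
  intro K _ g F d e c hg he hed hF hc hc0 hcent ⟨i₀, hi₀, hpos⟩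
  set f : ℕ → ℕ := fun i => (F.coeff i).natDegree * (d.factorial / (d - i)) with hf
  have hdiv : ∀ i < d, d.factorial / (d - i) * (d - i) = d.factorial := fun i hi =>
    Nat.div_mul_cancel (Nat.dvd_factorial (by omega) (by omega))
  have hqpos : ∀ i < d, 0 < d.factorial / (d - i) := fun i hi => by
    have := hdiv i hi
    rcases Nat.eq_zero_or_pos (d.factorial / (d - i)) with h | h
    · rw [h, zero_mul] at this
      exact absurd this.symm (Nat.factorial_ne_zero d)
    · exact h
  obtain ⟨j, hj, hmax⟩ := Finset.exists_max_image (Finset.range d) f ⟨i₀, Finset.mem_range.2 hi₀⟩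
  rw [Finset.mem_range] at hj
  have hfpos : 0 < f j :=
    lt_of_lt_of_le (Nat.mul_pos hpos (hqpos i₀ hi₀)) (hmax i₀ (Finset.mem_range.2 hi₀))
  have hjpos : 0 < (F.coeff j).natDegree := Nat.pos_of_mul_pos_right hfpos
  refine ⟨f j, d.factorial, hg, he, hed, hF, ⟨c, hc0, hc⟩, hcent, hfpos, Nat.factorial_pos d,
    fun i hi => ?_, j, hj, ?_, ?_⟩
  · calc d.factorial * (F.coeff i).natDegree
        = (F.coeff i).natDegree * (d.factorial / (d - i)) * (d - i) := by
          rw [mul_assoc, hdiv i hi, mul_comm]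
      _ ≤ f j * (d - i) := Nat.mul_le_mul_right _ (hmax i (Finset.mem_range.2 hi))
  · intro h
    rw [h] at hjpos
    simp at hjpos
  · rw [hf]
    simp only
    rw [mul_assoc, hdiv j hj, mul_comm]

end Pool.Agent.Work.MP_91e6de_nt

end

section

/-!
# MP_91e6de: T1, the multiset `Cset`
-/

open Polynomial

namespace Pool.Agent.Work.MP_91e6de_nt

/-- T1: the multiset `Cset` -/
theorem pr_T1 : S_T1 := by
  intro W _ d e s S c hc n
  classical
  induction n with
  | zero =>
    intro j
    constructor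
    · intro β hβ
      have h1 : S.Cset c 0 j = {0} := rfl
      rw [h1, Multiset.mem_singleton] at hβ
      rw [hβ, norm_zero]
      exact (Real.exp_pos _).le
    · have h1 : S.Cset c 0 j = {0} := rfl
      rw [h1]
      simp
  | succ n ih =>
    intro j
    obtain ⟨ih1, ih2⟩ := ih (j + 1)
    have h1 : S.Cset c (n + 1) j =
      (S.Cset c n (j + 1)).bind fun b => disc (S.A j - C b).roots (c j) (rad s e j) := rfl
    constructor
    · intro β hβ
      rw [h1, Multiset.mem_bind] at hβ
      obtain ⟨b, hb, hβb⟩ := hβ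
      unfold disc at hβb
      rw [Multiset.mem_filter] at hβb
      exact S.roots_le j b (ih1 b hb) β hβb.1
    · rw [h1, Multiset.card_bind]
      have h2 : (S.Cset c n (j + 1)).map
          (Multiset.card ∘ fun b => disc (S.A j - C b).roots (c j) (rad s e j)) =
          (S.Cset c n (j + 1)).map (fun _ => S.mlt j (c j)) := by
        refine Multiset.map_congr rfl ?_
        intro b hb
        exact S.cont j b (ih1 b hb) (c j) (hc j)
      rw [h2, Multiset.map_const', Multiset.sum_replicate, ih2, smul_eq_mul,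
        Finset.prod_range_succ']
      congr 1
      refine Finset.prod_congr rfl ?_
      intro i _
      have h3 : j + 1 + i = j + (i + 1) := by ring
      rw [h3]

end Pool.Agent.Work.MP_91e6de_nt

end

section

set_option autoImplicit false

/-!
# T4: one step, different centres (helper59)
-/

open Polynomial

namespace Pool.Agent.Work.MP_91e6de_nt

namespace NT4

variable {W : Type} [NormedField W]

theorem N_neg (N : BPt W) (f : W[X]) : N.N (-f) = N.N f := by
  have h : -f = C (-1) * f := by simp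
  rw [h, N.map_mul, N.map_C]
  simp

theorem N_sub_le (N : BPt W) (f g : W[X]) : N.N (f - g) ≤ max (N.N f) (N.N g) := by
  rw [sub_eq_add_neg]
  refine (N.add_le f (-g)).trans ?_
  rw [N_neg]

theorem N_add_eq (N : BPt W) {f g : W[X]} (h : N.N f < N.N g) : N.N (f + g) = N.N g := by
  refine le_antisymm ((N.add_le f g).trans (max_le h.le le_rfl)) ?_
  have h1 := N_sub_le N (f + g) f
  rw [add_sub_cancel_left] at h1
  rcases le_max_iff.1 h1 with h2 | h2
  · exact h2
  · exact absurd h2 (not_le.2 h)

theorem N_shift (N : BPt W) {Ψ : W[X]} {c β : W} {r : ℝ} (h : N.N (Ψ - C c) < r)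
    (h' : ‖c - β‖ = r) : N.N (Ψ - C β) = r := by
  have h1 : Ψ - C β = (Ψ - C c) + C (c - β) := by
    rw [C_sub]
    ring
  rw [h1, N_add_eq N, N.map_C, h']
  rw [N.map_C, h']
  exact h

theorem norm_add_eq [IsUltrametricDist W] {a b : W} (h : ‖a‖ < ‖b‖) : ‖a + b‖ = ‖b‖ := by
  refine le_antisymm ((IsUltrametricDist.norm_add_le_max a b).trans (max_le h.le le_rfl)) ?_
  have h1 := IsUltrametricDist.norm_add_le_max (a + b) (-a)
  rw [norm_neg, add_neg_cancel_comm] at h1
  rcases le_max_iff.1 h1 with h2 | h2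
  · exact h2
  · exact absurd h2 (not_le.2 h)

end NT4

open NT4 in
theorem pr_T4 : S_T4 := by
  intro W _ _ d e s S N Ψ j c c' β hc hc' hne h1 h2
  refine N_shift N h1 ?_
  have h3 : c - β = -(β - c') + (c - c') := by ring
  have h4 := S.cen_sep j c hc c' hc' hne
  rw [h3, norm_add_eq, h4]
  rw [norm_neg, h4]
  exact h2

end Pool.Agent.Work.MP_91e6de_nt

end

section

/-!
# MP_91e6de, T5: value at a point, recursive form
-/

open Polynomial

namespace Pool.Agent.Work.MP_91e6de_nt

namespace NT5

variable {W : Type} [NormedField W]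

theorem rad_pow (s : ℝ) (e j n : ℕ) : rad s e j ^ n = Real.exp (s * (e : ℝ) ^ j * n) := by
  unfold rad
  rw [← Real.exp_nat_mul]
  congr 1
  ring

theorem prod_mul_pow {α : Type*} (M : Multiset α) (f g : α → ℝ) (r : ℝ)
    (h : ∀ a ∈ M, f a * r = g a) : (M.map f).prod * r ^ M.card = (M.map g).prod := by
  induction M using Multiset.induction_on with
  | empty => simp
  | cons a M ih =>
    have h1 := ih fun b hb => h b (Multiset.mem_cons_of_mem hb)
    have h2 := h a (Multiset.mem_cons_self a M)
    rw [Multiset.map_cons, Multiset.prod_cons, Multiset.card_cons, Multiset.map_cons,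
      Multiset.prod_cons, ← h1, ← h2, pow_succ]
    ring

theorem prod_const {α : Type*} (M : Multiset α) (f : α → ℝ) (r : ℝ)
    (h : ∀ a ∈ M, f a = r) : (M.map f).prod = r ^ M.card := by
  rw [Multiset.map_congr rfl h, Multiset.map_const', Multiset.prod_replicate]

end NT5

theorem pr_T5 (h1 : S_T1) (h3 : S_T3) (h4 : S_T4) : S_T5 := by
  intro W _ _ _ d e s S N c c' hc hc' hN hP n
  induction n with
  | zero =>
    intro j
    change (Multiset.map (fun β => N.N (S.Phi j - C β)) {0}).prod ≤ Real.exp (s * (e : ℝ) ^ j)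
    rw [Multiset.map_singleton, Multiset.prod_singleton, C_0, sub_zero]
    exact hP j
  | succ n ih =>
    intro j
    obtain ⟨hle, hcard⟩ := h1 W d e s S c' hc' n (j + 1)
    have hb : ((S.Cset c' (n + 1) j).map fun β => N.N (S.Phi j - C β)).prod =
        ((S.Cset c' n (j + 1)).map fun b =>
          ((disc (S.A j - C b).roots (c' j) (rad s e j)).map
            fun β => N.N (S.Phi j - C β)).prod).prod := by
      change (Multiset.map (fun β => N.N (S.Phi j - C β)) ((S.Cset c' n (j + 1)).bind
        fun b => disc (S.A j - C b).roots (c' j) (rad s e j))).prod = _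
      rw [Multiset.map_bind, Multiset.prod_bind]
    by_cases hcj : c j = c' j
    · have hU : Ufun S.mlt d e s c c' (n + 1) j =
          Ufun S.mlt d e s c c' n (j + 1) - s * (e : ℝ) ^ j * ((d : ℝ) - S.mlt j (c j)) *
            ∏ i ∈ Finset.range n, (S.mlt (j + 1 + i) (c' (j + 1 + i)) : ℝ) := if_pos hcj
      have hm : S.mlt j (c j) ≤ d := (Nat.le_succ _).trans (S.cen_count j (c j) (hc j))
      have h5 := NT5.prod_mul_pow (S.Cset c' n (j + 1))
        (fun b => ((disc (S.A j - C b).roots (c' j) (rad s e j)).map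
            fun β => N.N (S.Phi j - C β)).prod)
        (fun b => N.N (S.Phi (j + 1) - C b)) (rad s e j ^ (d - S.mlt j (c j))) (by
          intro b hb
          have := h3 W d e s S N (S.Phi j) j (c j) b (hc j) (hN j) (hle b hb)
          rw [hcj] at this ⊢
          exact this)
      have h6 := ih (j + 1)
      rw [← h5, ← hb, hcard, ← pow_mul, NT5.rad_pow] at h6
      rw [hU, Real.exp_sub, le_div_iff₀ (Real.exp_pos _)]
      refine le_trans (le_of_eq ?_) h6
      congr 2
      push_cast [Nat.cast_sub hm]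
      ring
    · have hU : Ufun S.mlt d e s c c' (n + 1) j =
          s * (e : ℝ) ^ j * ∏ i ∈ Finset.range (n + 1), (S.mlt (j + i) (c' (j + i)) : ℝ) :=
        if_neg hcj
      have h5 := NT5.prod_const (S.Cset c' (n + 1) j) (fun β => N.N (S.Phi j - C β))
        (rad s e j) (by
          intro β hβ
          have h6 : β ∈ (S.Cset c' n (j + 1)).bind
            fun b => disc (S.A j - C b).roots (c' j) (rad s e j) := hβ
          obtain ⟨b, -, hb2⟩ := Multiset.mem_bind.1 h6
          have h7 : ‖β - c' j‖ < rad s e j := by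
            unfold disc at hb2
            exact (Multiset.mem_filter.1 hb2).2
          exact h4 W d e s S N (S.Phi j) j (c j) (c' j) β (hc j) (hc' j) hcj (hN j) h7)
      rw [h5, (h1 W d e s S c' hc' (n + 1) j).2, NT5.rad_pow, hU]
      push_cast
      exact le_rfl

end Pool.Agent.Work.MP_91e6de_nt

end

section

set_option autoImplicit false

/-!
# T6: closed form of the exponent (helper59)
-/

open Polynomial

namespace Pool.Agent.Work.MP_91e6de_nt

theorem pr_T6 : S_T6 := by
  classical
  intro W m d e s c c' he hm n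
  induction n with
  | zero =>
    intro j
    simp [Ufun, kap]
  | succ n ih =>
    intro j
    have he0 : (e : ℝ) ≠ 0 := by
      have : 0 < e := he
      positivity
    by_cases hcc : c j = c' j
    · have h1 : Ufun m d e s c c' (n + 1) j = Ufun m d e s c c' n (j + 1) -
          s * (e : ℝ) ^ j * ((d : ℝ) - m j (c j)) *
            ∏ i ∈ Finset.range n, (m (j + 1 + i) (c' (j + 1 + i)) : ℝ) := by
        rw [Ufun, if_pos hcc]
      rw [h1, ih (j + 1)]
      have hM : (m j (c j) : ℝ) ≠ 0 := by
        have := hm j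
        have : 0 < m j (c j) := by omega
        positivity
      set P : ℝ := ∏ i ∈ Finset.range n, (m (j + 1 + i) (c' (j + 1 + i)) : ℝ) with hP
      have h2 : (∏ i ∈ Finset.range (n + 1), (m (j + i) (c' (j + i)) : ℝ)) = m j (c j) * P := by
        rw [Finset.prod_range_succ', hcc, mul_comm]
        congr 1
        refine Finset.prod_congr rfl fun i _ => ?_
        rw [show j + (i + 1) = j + 1 + i by omega]
      rw [h2]
      set S : ℝ := ∑ i ∈ Finset.range n, if ∀ l ≤ i, c (j + 1 + l) = c' (j + 1 + l) then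
        ∏ l ∈ Finset.range (i + 1), (e : ℝ) / (m (j + 1 + l) (c (j + 1 + l))) else 0 with hS
      have h3 : kap (fun l => m (j + 1 + l)) d e n (fun l => c (j + 1 + l))
          (fun l => c' (j + 1 + l)) = 1 - ((d : ℝ) - e) / e * S := by
        unfold kap
        rw [hS]
      have h4 : kap (fun l => m (j + l)) d e (n + 1) (fun l => c (j + l)) (fun l => c' (j + l)) =
          1 - ((d : ℝ) - e) / e * (e / m j (c j) * S + e / m j (c j)) := by
        unfold kap
        rw [Finset.sum_range_succ']
        congr 2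
        congr 1
        · rw [hS, Finset.mul_sum]
          refine Finset.sum_congr rfl fun i _ => ?_
          by_cases h5 : ∀ l ≤ i, c (j + 1 + l) = c' (j + 1 + l)
          · have h6 : ∀ l ≤ i + 1, c (j + l) = c' (j + l) := by
              intro l hl
              rcases Nat.eq_zero_or_pos l with rfl | hl0
              · simpa using hcc
              · have := h5 (l - 1) (by omega)
                rwa [show j + 1 + (l - 1) = j + l by omega] at this
            rw [if_pos h5, if_pos h6, Finset.prod_range_succ', mul_comm]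
            congr 1
            refine Finset.prod_congr rfl fun l _ => ?_
            show (e : ℝ) / (m (j + (l + 1)) (c (j + (l + 1)))) = _
            rw [show j + (l + 1) = j + 1 + l by omega]
          · have h6 : ¬ ∀ l ≤ i + 1, c (j + l) = c' (j + l) := by
              intro h7
              apply h5
              intro l hl
              have := h7 (l + 1) (by omega)
              rwa [show j + (l + 1) = j + 1 + l by omega] at this
            rw [if_neg h5, if_neg h6, mul_zero]
        · have h6 : ∀ l ≤ 0, c (j + l) = c' (j + l) := by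
            intro l hl
            have : l = 0 := by omega
            rw [this]
            simpa using hcc
          rw [if_pos h6]
          simp
      rw [h3, h4]
      field_simp
      ring
    · have h1 : Ufun m d e s c c' (n + 1) j = s * (e : ℝ) ^ j *
          ∏ i ∈ Finset.range (n + 1), (m (j + i) (c' (j + i)) : ℝ) := by
        rw [Ufun, if_neg hcc]
      have h2 : kap (fun l => m (j + l)) d e (n + 1) (fun l => c (j + l))
          (fun l => c' (j + l)) = 1 := by
        unfold kap
        rw [Finset.sum_eq_zero, mul_zero, sub_zero]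
        intro i _
        rw [if_neg]
        intro h3
        apply hcc
        simpa using h3 0 (Nat.zero_le i)
      rw [h1, h2, mul_one]

end Pool.Agent.Work.MP_91e6de_nt

end

section

/-!
# Item TV: algebraic elements over a trivially valued field
-/

open Polynomial

namespace Pool.Agent.Work.MP_91e6de_nt

namespace NTV

variable {K W : Type} [Field K] [NormedField W] [IsUltrametricDist W] (φ : K →+* W)

lemma le_one (hφ : ∀ a, a ≠ 0 → ‖φ a‖ = 1) (z : W) (p : K[X]) (hp : p.Monic)
    (hz : p.eval₂ φ z = 0) : ‖z‖ ≤ 1 := by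
  by_contra hlt
  push Not at hlt
  have hc : ∀ a, ‖φ a‖ ≤ 1 := by
    intro a
    by_cases ha : a = 0
    · simp [ha]
    · exact (hφ a ha).le
  rw [eval₂_eq_sum_range, Finset.sum_range_succ, hp.coeff_natDegree, map_one, one_mul] at hz
  have h1 : z ^ p.natDegree = - ∑ i ∈ Finset.range p.natDegree, φ (p.coeff i) * z ^ i := by
    rw [eq_neg_iff_add_eq_zero, add_comm]; exact hz
  rcases Nat.eq_zero_or_pos p.natDegree with h0 | h0
  · rw [h0] at h1
    simp at h1
  · have h2 : ‖∑ i ∈ Finset.range p.natDegree, φ (p.coeff i) * z ^ i‖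
        ≤ ‖z‖ ^ (p.natDegree - 1) := by
      apply IsUltrametricDist.norm_sum_le_of_forall_le_of_nonneg (by positivity)
      intro i hi
      rw [norm_mul, norm_pow]
      have hi' : i ≤ p.natDegree - 1 := by
        have := Finset.mem_range.mp hi
        omega
      calc ‖φ (p.coeff i)‖ * ‖z‖ ^ i ≤ 1 * ‖z‖ ^ i := by
            gcongr
            exact hc _
        _ = ‖z‖ ^ i := one_mul _
        _ ≤ ‖z‖ ^ (p.natDegree - 1) := pow_le_pow_right₀ hlt.le hi'
    have h3 : ‖z‖ ^ p.natDegree ≤ ‖z‖ ^ (p.natDegree - 1) := by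
      rw [← norm_pow, h1, norm_neg]
      exact h2
    have h4 : ‖z‖ ^ (p.natDegree - 1) < ‖z‖ ^ p.natDegree :=
      pow_lt_pow_right₀ hlt (by omega)
    exact absurd h3 (not_le.mpr h4)

lemma eq_one [Algebra K W] (hφ : ∀ a : K, a ≠ 0 → ‖algebraMap K W a‖ = 1) (z : W)
    (hz : IsAlgebraic K z) (h0 : z ≠ 0) : ‖z‖ = 1 := by
  apply le_antisymm
  · have hi : IsIntegral K z := isAlgebraic_iff_isIntegral.mp hz
    obtain ⟨p, hp, hp2⟩ := hi
    exact le_one _ hφ z p hp hp2
  · have hi : IsIntegral K z⁻¹ := isAlgebraic_iff_isIntegral.mp hz.inv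
    obtain ⟨p, hp, hp2⟩ := hi
    have := le_one _ hφ z⁻¹ p hp hp2
    rw [norm_inv] at this
    have hpos : 0 < ‖z‖ := norm_pos_iff.mpr h0
    exact (inv_le_one₀ hpos).mp this

end NTV

theorem pr_TV : S_TV := by
  intro K W _ _ _ φ hφ P hP ζ hζ ζ' hζ'
  let _ : Algebra K W := φ.toAlgebra
  have hφ' : ∀ a : K, a ≠ 0 → ‖algebraMap K W a‖ = 1 := hφ
  have alg : ∀ z ∈ (P.map φ).roots, IsAlgebraic K z := by
    intro z hz
    refine ⟨P, hP, ?_⟩
    have h := (mem_roots'.mp hz).2
    rw [IsRoot.def, eval_map] at h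
    exact h
  refine ⟨fun h0 => NTV.eq_one hφ' ζ (alg ζ hζ) h0, fun hne => ?_⟩
  exact NTV.eq_one hφ' (ζ - ζ') ((alg ζ hζ).sub (alg ζ' hζ')) (sub_ne_zero.mpr hne)

end Pool.Agent.Work.MP_91e6de_nt

end
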