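import Pool.Agent.Work.MP_91e6de_nt.Stmts2
import Pool.Agent.Work.MP_91e6de_nt.Stmts
import Pool.Agent.Work.MP_91e6de_nt.Bd.B04
import Pool.Agent.Work.MP_91e6de_nt.Bd.B05

/-! Bundle of small proof modules (one section per former module). -/

section

open Polynomial Filter

namespace Pool.Agent.Work.MP_91e6de_nt

theorem pr_UF : S_UF := by
  intro K _ P hP
  -- the sets `A_R`
  have hne : ∀ R : K[X][X], R ≠ 0 → {n : ℕ | R.evalEval (P n).1 (P n).2 ≠ 0}.Nonempty := by
    intro R hR
    by_contra h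
    rw [Set.not_nonempty_iff_eq_empty] at h
    apply hR
    refine hP R fun n => ?_
    by_contra hn
    have : n ∈ ({n : ℕ | R.evalEval (P n).1 (P n).2 ≠ 0} : Set ℕ) := hn
    rw [h] at this
    exact this
  have hint : ∀ R R' : K[X][X], {n : ℕ | (R * R').evalEval (P n).1 (P n).2 ≠ 0} =
      {n : ℕ | R.evalEval (P n).1 (P n).2 ≠ 0} ∩ {n : ℕ | R'.evalEval (P n).1 (P n).2 ≠ 0} := by
    intro R R'
    ext n
    simp only [Set.mem_ofPred_eq, Set.mem_inter_iff]
    rw [evalEval_mul, mul_ne_zero_iff]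
  let G : Filter ℕ :=
    { sets := {s | ∃ R : K[X][X], R ≠ 0 ∧ {n : ℕ | R.evalEval (P n).1 (P n).2 ≠ 0} ⊆ s}
      univ_sets := ⟨1, one_ne_zero, Set.subset_univ _⟩
      sets_of_superset := by
        rintro x y ⟨R, hR, h⟩ hxy
        exact ⟨R, hR, h.trans hxy⟩
      inter_sets := by
        rintro x y ⟨R, hR, h⟩ ⟨R', hR', h'⟩
        refine ⟨R * R', mul_ne_zero hR hR', ?_⟩
        rw [hint]
        exact Set.inter_subset_inter h h' }
  have hG : G.NeBot := by
    rw [neBot_iff]
    intro h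
    have h1 : (∅ : Set ℕ) ∈ G := by rw [h]; exact mem_bot
    obtain ⟨R, hR, h2⟩ := h1
    obtain ⟨n, hn⟩ := hne R hR
    exact h2 hn
  refine ⟨Ultrafilter.of G, fun R hR => ?_⟩
  exact Ultrafilter.of_le G ⟨R, hR, subset_rfl⟩

end Pool.Agent.Work.MP_91e6de_nt

end

section

/-! item X1: values of polynomials at a large element -/

open Polynomial

namespace Pool.Agent.Work.MP_91e6de_nt

namespace NX1

lemma norm_le_one {K W : Type} [Field K] [NormedField W] (φ : K →+* W)
    (h : ∀ a, a ≠ 0 → ‖φ a‖ = 1) (a : K) : ‖φ a‖ ≤ 1 := by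
  by_cases ha : a = 0
  · simp [ha]
  · exact (h a ha).le

lemma diff_lt {K W : Type} [Field K] [NormedField W] [IsUltrametricDist W] (φ : K →+* W)
    (h : ∀ a, a ≠ 0 → ‖φ a‖ = 1) (a : K[X]) (y : W) (hy : 1 < ‖y‖) :
    ‖a.eval₂ φ y - φ a.leadingCoeff * y ^ a.natDegree‖ < ‖y‖ ^ a.natDegree := by
  have h0 : 0 < ‖y‖ ^ a.natDegree := by positivity
  rw [Polynomial.eval₂_eq_sum_range, Finset.sum_range_succ]
  have : (∑ x ∈ Finset.range a.natDegree, φ (a.coeff x) * y ^ x +
      φ (a.coeff a.natDegree) * y ^ a.natDegree) - φ a.leadingCoeff * y ^ a.natDegree =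
      ∑ x ∈ Finset.range a.natDegree, φ (a.coeff x) * y ^ x := by
    rw [Polynomial.leadingCoeff, add_sub_cancel_right]
  rw [this]
  rcases Nat.eq_zero_or_pos a.natDegree with hz | hpos
  · rw [hz]; simp
  have key : ‖∑ x ∈ Finset.range a.natDegree, φ (a.coeff x) * y ^ x‖ ≤
      ‖y‖ ^ (a.natDegree - 1) := by
    apply IsUltrametricDist.norm_sum_le_of_forall_le_of_nonneg (by positivity)
    intro i hi
    rw [norm_mul, norm_pow]
    have hi' : i ≤ a.natDegree - 1 := by
      have := Finset.mem_range.1 hi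
      omega
    calc ‖φ (a.coeff i)‖ * ‖y‖ ^ i ≤ 1 * ‖y‖ ^ i := by
          gcongr
          exact norm_le_one φ h _
      _ = ‖y‖ ^ i := one_mul _
      _ ≤ ‖y‖ ^ (a.natDegree - 1) := pow_le_pow_right₀ hy.le hi'
  refine key.trans_lt ?_
  exact pow_lt_pow_right₀ hy (by omega)

end NX1

theorem pr_X1 : S_X1 := by
  intro K W _ _ _ φ h a y hy ha
  have hd := NX1.diff_lt φ h a y hy
  refine ⟨?_, hd⟩
  have hl : ‖φ a.leadingCoeff * y ^ a.natDegree‖ = ‖y‖ ^ a.natDegree := by
    rw [norm_mul, norm_pow, h _ (by simpa using ha), one_mul]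
  have hne : ‖a.eval₂ φ y - φ a.leadingCoeff * y ^ a.natDegree‖ ≠
      ‖φ a.leadingCoeff * y ^ a.natDegree‖ := by
    rw [hl]; exact hd.ne
  have := IsUltrametricDist.norm_add_eq_max_of_norm_ne_norm hne
  rw [sub_add_cancel, hl, max_eq_right hd.le] at this
  exact this

end Pool.Agent.Work.MP_91e6de_nt

end

section

/-!
# MP_91e6de, X2: orbit of the base point
-/

open Polynomial

namespace Pool.Agent.Work.MP_91e6de_nt

theorem pr_X2 (h : S_X1) : S_X2 := by
  intro K W _ _ _ φ hφ g x hg hx j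
  have hg0 : g ≠ 0 := by
    rintro rfl
    simp at hg
  induction j with
  | zero =>
    change ‖x‖ = _
    rw [hx, pow_zero]
  | succ j ih =>
    have h1 : 1 < ‖xs g φ x j‖ := by
      rw [ih, Real.one_lt_exp_iff]
      have : (0 : ℝ) < g.natDegree := by exact_mod_cast hg
      positivity
    have h2 := (h K W φ hφ g _ h1 hg0).1
    change ‖g.eval₂ φ (xs g φ x j)‖ = _
    rw [h2, ih, ← Real.exp_nat_mul, pow_succ']

end Pool.Agent.Work.MP_91e6de_nt

end

section

/-! Item LP2: homogeneity of the leading form. -/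

open Polynomial

namespace Pool.Agent.Work.MP_91e6de_nt

theorem pr_LP2 (_h1 : S_LP1) : S_LP2 := by
  intro K W _ _ φ g F d e p q h y z hz hzy
  obtain ⟨c, hc, hlead, -, -⟩ := NLP1.deg (φ := φ) h y
  have hcoefK : ((leadK F p q d).map φ).coeff d = φ c := by
    rw [coeff_map, NLP1.leadK_coeff, hlead]
    simp
  have hne : φ c ≠ 0 := fun h0 => hc ((map_eq_zero φ).1 h0)
  have hdeg : ((leadK F p q d).map φ).natDegree = d := by
    refine natDegree_eq_of_le_of_coeff_ne_zero ?_ (by rw [hcoefK]; exact hne)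
    rw [natDegree_le_iff_coeff_eq_zero]
    intro n hn
    rw [coeff_map, NLP1.leadK_coeff, if_neg (by omega), map_zero]
  have hsc : leadP F p q d φ y = ((leadK F p q d).map φ).scaleRoots (z ^ p) := by
    ext n
    rw [coeff_scaleRoots, hdeg, coeff_map, NLP1.leadK_coeff, NLP1.leadP_coeff]
    by_cases hn : n < d + 1 ∧ q * (F.coeff n).natDegree = p * (d - n)
    · rw [if_pos hn, if_pos hn, ← hzy, ← pow_mul, ← pow_mul, hn.2]
    · rw [if_neg hn, if_neg hn, map_zero, zero_mul]
  rw [hsc, roots_scaleRoots _ (isUnit_iff_ne_zero.2 (pow_ne_zero p hz))]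

end Pool.Agent.Work.MP_91e6de_nt

end

section

/-! Item LP3: two different roots. -/

open Polynomial

namespace Pool.Agent.Work.MP_91e6de_nt

theorem pr_LP3 : S_LP3 := by
  classical
  intro K W _ _ _ φ g F d e p q h ζ
  have hCZ : CharZero W := charZero_of_injective_ringHom φ.injective
  obtain ⟨c, hc, hlead, -, -⟩ := NLP1.deg (φ := φ) h (0 : W)
  have hd : 2 ≤ d := by
    have h1 := h.he
    have h2 := h.hed
    omega
  set P := (leadK F p q d).map φ with hP
  have hcoef : ∀ n, P.coeff n = if n < d + 1 ∧ q * (F.coeff n).natDegree = p * (d - n) then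
      φ (F.coeff n).leadingCoeff else 0 := by
    intro n
    rw [hP, coeff_map, NLP1.leadK_coeff]
    split_ifs
    · rfl
    · exact map_zero φ
  have hcoefd : P.coeff d = φ c := by
    rw [hcoef, hlead]
    simp
  have hne : φ c ≠ 0 := fun h0 => hc ((map_eq_zero φ).1 h0)
  have hdeg : P.natDegree = d := by
    refine natDegree_eq_of_le_of_coeff_ne_zero ?_ (by rw [hcoefd]; exact hne)
    rw [natDegree_le_iff_coeff_eq_zero]
    intro n hn
    rw [hcoef, if_neg (by omega)]
  have hP0 : P ≠ 0 := fun h0 => hne (by rw [← hcoefd, h0, coeff_zero])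
  have hcount : mcount P.roots ζ = rootMultiplicity ζ P := by
    unfold mcount
    exact count_roots P
  rw [hcount]
  by_contra hcon
  have hge : d ≤ rootMultiplicity ζ P := by omega
  rw [le_rootMultiplicity_iff hP0] at hge
  obtain ⟨Q, hQ⟩ := hge
  have hQ0 : Q ≠ 0 := fun h0 => hP0 (by rw [hQ, h0, mul_zero])
  have hQdeg : Q.natDegree = 0 := by
    have h1 : P.natDegree = d + Q.natDegree := by
      conv_lhs => rw [hQ]
      rw [natDegree_mul (pow_ne_zero d (X_sub_C_ne_zero ζ)) hQ0, natDegree_pow, natDegree_X_sub_C,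
        mul_one]
    omega
  obtain ⟨k, hk⟩ := natDegree_eq_zero.1 hQdeg
  have hk0 : k ≠ 0 := fun h0 => hQ0 (by rw [← hk, h0, C_0])
  have hcf : ∀ n, P.coeff n = (-ζ) ^ (d - n) * (d.choose n : W) * k := by
    intro n
    have e0 : (X - C ζ : W[X]) = X + C (-ζ) := by rw [C_neg, sub_eq_add_neg]
    rw [hQ, ← hk, coeff_mul_C, e0, coeff_X_add_C_pow]
  have hz : ζ = 0 := by
    have h1 := hcf (d - 1)
    rw [hcoef, h.cent] at h1
    have e1 : d - (d - 1) = 1 := by omega
    have e2 : d.choose (d - 1) = d := by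
      rw [Nat.choose_symm (show 1 ≤ d by omega), Nat.choose_one_right]
    rw [e1, e2, pow_one, leadingCoeff_zero, map_zero, ite_self] at h1
    have hdW : (d : W) ≠ 0 := Nat.cast_ne_zero.2 (by omega)
    have h2 : -ζ * (d : W) * k = 0 := h1.symm
    rcases mul_eq_zero.1 h2 with h3 | h3
    · rcases mul_eq_zero.1 h3 with h4 | h4
      · exact neg_eq_zero.1 h4
      · exact absurd h4 hdW
    · exact absurd h3 hk0
  obtain ⟨i, hi, hFi, hatt⟩ := h.attained
  have h1 := hcf i
  rw [hcoef, if_pos ⟨by omega, hatt⟩, hz, neg_zero, zero_pow (by omega), zero_mul, zero_mul] at h1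
  exact hFi (leadingCoeff_eq_zero.1 ((map_eq_zero φ).1 h1))

end Pool.Agent.Work.MP_91e6de_nt

end

section

/-! Item RB: bound for the roots. -/

open Polynomial

namespace Pool.Agent.Work.MP_91e6de_nt

namespace NRB

theorem sum_lt {W ι : Type} [NormedField W] [IsUltrametricDist W] (s : Finset ι) (f : ι → W)
    {B : ℝ} (hB : 0 < B) (h : ∀ i ∈ s, ‖f i‖ < B) : ‖∑ i ∈ s, f i‖ < B := by
  classical
  induction s using Finset.induction_on with
  | empty => simpa using hB
  | insert a s ha ih =>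
    rw [Finset.sum_insert ha]
    refine (IsUltrametricDist.norm_add_le_max _ _).trans_lt (max_lt (h a (by simp)) ?_)
    exact ih fun i hi => h i (Finset.mem_insert_of_mem hi)

theorem sub_lt {W : Type} [NormedField W] [IsUltrametricDist W] {a b : W} {B : ℝ}
    (ha : ‖a‖ < B) (hb : ‖b‖ < B) : ‖a - b‖ < B := by
  rw [sub_eq_add_neg]
  refine (IsUltrametricDist.norm_add_le_max _ _).trans_lt (max_lt ha ?_)
  rwa [norm_neg]

theorem one_lt {r y : ℝ} {p q : ℕ} (hy : 1 < y) (hr : 0 < r) (hp : 0 < p) (h : r ^ q = y ^ p) :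
    1 < r := by
  by_contra hc
  push Not at hc
  have h1 : r ^ q ≤ 1 := pow_le_one₀ hr.le hc
  have h2 : 1 < y ^ p := one_lt_pow₀ hy (by omega)
  linarith

theorem pow_le {r y : ℝ} {p q n m : ℕ} (hy : 1 < y) (hr : 0 < r) (hq : 0 < q)
    (h : r ^ q = y ^ p) (hnm : q * n ≤ p * m) : y ^ n ≤ r ^ m := by
  have h1 : (y ^ n) ^ q ≤ (r ^ m) ^ q := by
    rw [← pow_mul, ← pow_mul, mul_comm m q, pow_mul r q m, h, ← pow_mul, mul_comm n q]
    exact pow_le_pow_right₀ hy.le hnm
  exact le_of_pow_le_pow_left₀ (by omega) (by positivity) h1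

theorem pow_lt {r y : ℝ} {p q n m : ℕ} (hy : 1 < y) (hr : 0 < r)
    (h : r ^ q = y ^ p) (hnm : q * n < p * m) : y ^ n < r ^ m := by
  have h1 : (y ^ n) ^ q < (r ^ m) ^ q := by
    rw [← pow_mul, ← pow_mul, mul_comm m q, pow_mul r q m, h, ← pow_mul, mul_comm n q]
    exact pow_lt_pow_right₀ hy hnm
  exact lt_of_pow_lt_pow_left₀ q (by positivity) h1

theorem coef_le {K W : Type} [Field K] [NormedField W] [IsUltrametricDist W] {φ : K →+* W}
    (hX : S_X1) (hφ : ∀ a, a ≠ 0 → ‖φ a‖ = 1) {g : K[X]} {F : K[X][X]} {d e p q : ℕ}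
    (h : Good g F d e p q) {y : W} {r : ℝ} (hy : 1 < ‖y‖) (hr : 0 < r) (hry : r ^ q = ‖y‖ ^ p)
    {i : ℕ} (hi : i < d) : ‖(F.coeff i).eval₂ φ y‖ ≤ r ^ (d - i) := by
  by_cases h0 : F.coeff i = 0
  · rw [h0, eval₂_zero, norm_zero]
    positivity
  · rw [(hX K W φ hφ (F.coeff i) y hy h0).1]
    exact pow_le hy hr h.hq hry (h.slope i hi)

end NRB

theorem pr_RB (hX : S_X1) : S_RB := by
  intro K W _ _ _ φ hφ g F d e p q h y b r hy hr hry hb β hβ
  by_contra hcon
  push Not at hcon
  obtain ⟨c, hc, hlead⟩ := h.lead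
  have hd := NFD.le_d h
  have hr1 : 1 < r := NRB.one_lt hy hr h.hp hry
  have hβ1 : 1 < ‖β‖ := hr1.trans hcon
  have hβ0 : 0 < ‖β‖ := by linarith
  have hroot : (fib F φ y).eval β - b = 0 := by
    have h1 := isRoot_of_mem_roots hβ
    rw [IsRoot, eval_sub, eval_C] at h1
    exact h1
  have hdeg : (fib F φ y).natDegree < d + 1 := by
    have h1 : (fib F φ y).natDegree ≤ F.natDegree := natDegree_map_le
    rw [h.hF] at h1
    omega
  have hsum : (fib F φ y).eval β = ∑ i ∈ Finset.range d, (F.coeff i).eval₂ φ y * β ^ i +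
      φ c * β ^ d := by
    rw [eval_eq_sum_range' hdeg, Finset.sum_range_succ]
    congr 1
    · exact Finset.sum_congr rfl fun i _ => by rw [NFD.fib_coeff]
    · rw [NFD.fib_coeff, hlead, eval₂_C]
  have h1 : ‖∑ i ∈ Finset.range d, (F.coeff i).eval₂ φ y * β ^ i‖ < ‖β‖ ^ d := by
    refine NRB.sum_lt _ _ (by positivity) fun i hi => ?_
    rw [Finset.mem_range] at hi
    rw [norm_mul, norm_pow]
    have h2 := NRB.coef_le hX hφ h hy hr hry hi
    have h3 : r ^ (d - i) < ‖β‖ ^ (d - i) := pow_lt_pow_left₀ hcon hr.le (by omega)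
    calc ‖(F.coeff i).eval₂ φ y‖ * ‖β‖ ^ i ≤ r ^ (d - i) * ‖β‖ ^ i :=
          mul_le_mul_of_nonneg_right h2 (by positivity)
      _ < ‖β‖ ^ (d - i) * ‖β‖ ^ i := mul_lt_mul_of_pos_right h3 (by positivity)
      _ = ‖β‖ ^ d := by rw [← pow_add]; congr 1; omega
  have h2 : ‖b‖ < ‖β‖ ^ d := by
    calc ‖b‖ ≤ r ^ e := hb
      _ < r ^ d := pow_lt_pow_right₀ hr1 h.hed
      _ ≤ ‖β‖ ^ d := pow_le_pow_left₀ hr.le hcon.le d
  have h3 : φ c * β ^ d = b - ∑ i ∈ Finset.range d, (F.coeff i).eval₂ φ y * β ^ i := by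
    rw [hsum] at hroot
    linear_combination hroot
  have h4 : ‖φ c * β ^ d‖ = ‖β‖ ^ d := by rw [norm_mul, hφ c hc, one_mul, norm_pow]
  have h5 := NRB.sub_lt h2 h1
  rw [← h3, h4] at h5
  exact lt_irrefl _ h5

end Pool.Agent.Work.MP_91e6de_nt

end

section

set_option autoImplicit false

/-!
# T3: one step, same centre (helper59)
-/

open Polynomial

namespace Pool.Agent.Work.MP_91e6de_nt

namespace NT3

variable {W : Type} [NormedField W]

theorem N_one (N : BPt W) : N.N 1 = 1 := by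
  have := N.map_C 1
  rw [C_1] at this
  rw [this, norm_one]

theorem N_prod (N : BPt W) (m : Multiset W[X]) : N.N m.prod = (m.map N.N).prod := by
  induction m using Multiset.induction_on with
  | empty => simp [N_one]
  | cons a m ih => rw [Multiset.prod_cons, N.map_mul, ih, Multiset.map_cons, Multiset.prod_cons]

end NT3

open NT3 NT4 in
theorem pr_T3 : S_T3 := by
  classical
  intro W _ _ _ d e s S N Ψ j c b hc h1 hb
  have hd : 0 < d := by
    have := S.cen_count j c hc
    omega
  set A := S.A j - C b with hA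
  have hdeg : A.natDegree = d := by
    rw [hA, natDegree_sub_C, S.deg j]
  have hlead : ‖A.leadingCoeff‖ = 1 := by
    rw [← S.lead j]
    congr 1
    rw [leadingCoeff, leadingCoeff, hdeg, S.deg j, hA, coeff_sub, coeff_C, if_neg (by omega),
      sub_zero]
  have hsp := IsAlgClosed.splits A
  have hprod := hsp.eq_prod_roots
  have hcard : A.roots.card = d := by
    rw [splits_iff_card_roots.1 hsp, hdeg]
  have h2 : (S.A j).comp Ψ - C b = C A.leadingCoeff * (A.roots.map fun β => Ψ - C β).prod := by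
    have h3 : (S.A j).comp Ψ - C b = A.comp Ψ := by
      rw [hA, sub_comp, C_comp]
    rw [h3]
    conv_lhs => rw [hprod]
    rw [mul_comp, C_comp, multiset_prod_comp, Multiset.map_map]
    congr 2
    refine Multiset.map_congr rfl fun β _ => ?_
    simp
  rw [h2, N.map_mul, N.map_C, hlead, one_mul, N_prod, Multiset.map_map]
  have h4 := Multiset.filter_add_not (fun β => ‖β - c‖ < rad s e j) A.roots
  have h5 : (Multiset.map (N.N ∘ fun β => Ψ - C β) A.roots).prod =
      (((A.roots.filter fun β => ‖β - c‖ < rad s e j).map (N.N ∘ fun β => Ψ - C β)).prod) *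
      (((A.roots.filter fun β => ¬ ‖β - c‖ < rad s e j).map (N.N ∘ fun β => Ψ - C β)).prod) := by
    conv_lhs => rw [← h4]
    rw [Multiset.map_add, Multiset.prod_add]
  rw [h5]
  have h5' : disc A.roots c (rad s e j) = A.roots.filter fun β => ‖β - c‖ < rad s e j := by
    unfold disc
    congr
  rw [h5']
  refine congrArg₂ (· * ·) rfl ?_
  · have hc1 := S.cen_le j c hc
    have h6 : ∀ β ∈ A.roots.filter (fun β => ¬ ‖β - c‖ < rad s e j),
        (N.N ∘ fun β => Ψ - C β) β = rad s e j := by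
      intro β hβ
      obtain ⟨h7, h8⟩ := Multiset.mem_filter.1 hβ
      have h9 := S.roots_le j b hb β h7
      refine N_shift N h1 ?_
      have h10 : ‖β - c‖ ≤ rad s e j := by
        have := IsUltrametricDist.norm_add_le_max β (-c)
        rw [norm_neg, ← sub_eq_add_neg] at this
        exact this.trans (max_le h9 hc1)
      rw [norm_sub_rev]
      exact le_antisymm h10 (not_lt.1 h8)
    rw [Multiset.map_congr rfl h6, Multiset.map_const', Multiset.prod_replicate]
    congr 1
    have h7 := congrArg Multiset.card h4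
    rw [Multiset.card_add, hcard] at h7
    have h8 := S.cont j b hb c hc
    unfold disc at h8
    have h9 : (A.roots.filter fun β => ‖β - c‖ < rad s e j).card = S.mlt j c := by
      unfold FSys.mlt
      rw [← h8]
    omega

end Pool.Agent.Work.MP_91e6de_nt

end

section

/-! Item DF: a fibre against its leading form. -/

open Polynomial

namespace Pool.Agent.Work.MP_91e6de_nt

theorem pr_DF (hX : S_X1) : S_DF := by
  intro K W _ _ _ φ hφ g F d e p q h y b r hy hr hry hb i hi
  obtain ⟨c, hc, hlead⟩ := h.lead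
  have hd := NFD.le_d h
  have hr1 : 1 < r := NRB.one_lt hy hr h.hp hry
  rw [coeff_sub, NLP1.leadP_coeff]
  by_cases hid : i = d
  · subst hid
    rw [NFD.sub_coeff φ y b (by omega), hlead, eval₂_C]
    simp
  have hi' : i < d := by omega
  -- the difference without b
  have key : ‖(F.coeff i).eval₂ φ y - (if i < d + 1 ∧ q * (F.coeff i).natDegree = p * (d - i) then
      φ (F.coeff i).leadingCoeff * y ^ (F.coeff i).natDegree else 0)‖ < r ^ (d - i) := by
    by_cases h0 : F.coeff i = 0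
    · rw [h0, eval₂_zero, natDegree_zero, mul_zero, if_neg]
      · rw [sub_zero, norm_zero]
        positivity
      · rintro ⟨-, h1⟩
        have h2 : 0 < p * (d - i) := Nat.mul_pos h.hp (by omega)
        omega
    · obtain ⟨h1, h2⟩ := hX K W φ hφ (F.coeff i) y hy h0
      by_cases hatt : q * (F.coeff i).natDegree = p * (d - i)
      · rw [if_pos ⟨by omega, hatt⟩]
        refine h2.trans_le (NRB.pow_le hy hr h.hq hry hatt.le)
      · rw [if_neg (fun hh => hatt hh.2), sub_zero, h1]
        exact NRB.pow_lt hy hr hry (lt_of_le_of_ne (h.slope i hi') hatt)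
  by_cases hi0 : i = 0
  · subst hi0
    rw [coeff_sub, NFD.fib_coeff, coeff_C_zero, sub_right_comm]
    refine NRB.sub_lt key ?_
    calc ‖b‖ ≤ r ^ e := hb
      _ < r ^ (d - 0) := pow_lt_pow_right₀ hr1 (by have := h.hed; omega)
  · rw [NFD.sub_coeff φ y b hi0]
    exact key

end Pool.Agent.Work.MP_91e6de_nt

end

section

set_option autoImplicit false

/-!
# T7: value at a point, closed form (helper59)
-/

open Polynomial

namespace Pool.Agent.Work.MP_91e6de_nt

open NT3 in
theorem pr_T7 (h1 : S_T1) (h5 : S_T5) (h6 : S_T6) : S_T7 := by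
  classical
  intro W _ _ _ d e s S N c c' he hc hc' hN1 hN2 k
  have e1 : N.N ((S.Cset c' k 0).map fun β => X - C β).prod =
      ((S.Cset c' k 0).map fun β => N.N (S.Phi 0 - C β)).prod := by
    rw [N_prod, Multiset.map_map]
    rfl
  rw [e1]
  refine (h5 W d e s S N c c' hc hc' hN1 hN2 k 0).trans ?_
  rw [h6 W S.mlt d e s c c' he (fun j => ?_) k 0, (h1 W d e s S c' hc' k 0).2]
  · simp only [zero_add, pow_zero, mul_one, Nat.cast_prod]
    exact le_rfl
  · unfold FSys.mlt mcount
    exact Multiset.one_le_count_iff_mem.2 (hc j)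

end Pool.Agent.Work.MP_91e6de_nt

end
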