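import Pool.Agent.Work.MP_91e6de_nt.Stmts2
import Pool.Agent.Work.MP_91e6de_nt.Stmts

/-! Bundle of small proof modules (one section per former module). -/

section

/-!
# MP_91e6de: assembly of the final statement
-/

open Polynomial Filter Topology Height Height.AdmissibleAbsValues

namespace Pool.Agent.Work.MP_91e6de_nt

namespace NFin

lemma dense_infinite {K : Type} [Field K] (P : ℕ → K × K) (h : Dense2 P) :
    (Set.range fun n => (P n).1).Infinite := by
  classical
  intro hfin
  have := h (C (∏ a ∈ hfin.toFinset, (X - C a))) (by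
    intro n
    have : (C (∏ a ∈ hfin.toFinset, (X - C a)) : K[X][X]).evalEval (P n).1 (P n).2 =
        ∏ a ∈ hfin.toFinset, ((P n).1 - a) := by
      rw [evalEval, eval_C, eval_prod]
      simp
    rw [this]
    exact Finset.prod_eq_zero (hfin.mem_toFinset.2 ⟨n, rfl⟩) (sub_self _))
  rw [C_eq_zero] at this
  exact (Finset.prod_ne_zero_iff.2 fun a _ => X_sub_C_ne_zero a) this

end NFin

open NFin in
theorem asm_FIN (hDI : S_DI) (hHU : S_HU) (hHB : S_HB) (hHN : S_HN) (hH1 : S_H1) (hRT : S_RT)
    (hDG : S_DG) (hM1 : S_M1) : S_FIN := by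
  classical
  intro K _ _ g F c P he hd hc hc0 hdense
  set M : ℕ := max g.natDegree F.natDegree with hM
  have hM1' : 1 ≤ M := he.trans (le_max_left _ _)
  have hM1r : (1 : ℝ) ≤ (M : ℝ) := by exact_mod_cast hM1'
  refine ⟨?_, ?_⟩
  · obtain ⟨B, hB⟩ := hDG K g F c he hd hc hc0
    refine hRT (fun n => ((max (gN g n).natDegree (totDeg (FN g F n)) : ℕ) : ℝ)) M 1 B hM1r
      one_pos (Eventually.of_forall fun n => ?_) (fun n => (hB n).2)
    rw [one_mul]
    exact (hB n).1
  · have hW : (0 : ℝ) < totalWeight K := by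
      exact_mod_cast NumberField.totalWeight_pos K
    obtain ⟨⟨C1, hC1⟩, C2, hC2⟩ := hHU K g F P he hd
    -- the lower bound for the height
    have hlow : ∃ κ : ℝ, 0 < κ ∧ ∀ᶠ n in atTop, κ * (M : ℝ) ^ n ≤ hP (orb g F P n) := by
      have hinf := dense_infinite _ hdense
      rcases Nat.lt_or_ge g.natDegree F.natDegree with hlt | hge
      · have hMd : M = F.natDegree := max_eq_right hlt.le
        by_cases hs : ∀ v, IsPl v → SlowAt g F P v
        · exact absurd hdense (hM1 K g F F.natDegree g.natDegree c P rfl he hlt rfl hc hc0 hs)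
        · push Not at hs
          obtain ⟨v, hv, hv'⟩ := hs
          rcases hDI K v g F F.natDegree c (by omega) hlt.le rfl hc hc0 P with h | ⟨κ, hκ, h⟩
          · exact absurd h hv'
          · refine ⟨κ, hκ, ?_⟩
            filter_upwards [h] with n hn
            rw [hMd]
            have h1 := hH1 K (orb g F P n)
            exact hn.trans (((h1.1 v hv).2).trans h1.2.2.1)
      · have hMe : M = g.natDegree := max_eq_left hge
        rcases Nat.lt_or_ge 1 g.natDegree with h2 | h2
        · obtain ⟨κ, hκ, h⟩ := hHB K g F P h2 hinf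
          refine ⟨κ, hκ, ?_⟩
          filter_upwards [h] with n hn
          rw [hMe]
          exact hn.trans (hH1 K (orb g F P n)).2.1
        · have hMe1 : M = 1 := by omega
          have hinf' : (Set.range (orb g F P)).Infinite := by
            intro hfin
            apply hinf
            have : (Set.range fun n => (orb g F P n).1) = Prod.fst '' (Set.range (orb g F P)) := by
              ext a; simp
            rw [this]
            exact hfin.image _
          have := hHN K g F P hinf'
          refine ⟨1, one_pos, ?_⟩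
          filter_upwards [this.eventually (eventually_ge_atTop 1)] with n hn
          rw [hMe1]
          simpa using hn
    obtain ⟨κ, hκ, hlow⟩ := hlow
    refine hRT (fun n => hP (orb g F P n) / totalWeight K) M (κ / totalWeight K)
      (C1 / totalWeight K) hM1r (div_pos hκ hW) ?_ ?_
    · filter_upwards [hlow] with n hn
      rw [div_mul_eq_mul_div]
      exact div_le_div_of_nonneg_right hn hW.le
    · intro n
      have := hC1 n
      calc hP (orb g F P n) / totalWeight K ≤ (C1 * ((n : ℝ) + 1) ^ 2 * (M : ℝ) ^ n) / totalWeight K :=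
            div_le_div_of_nonneg_right this hW.le
        _ = C1 / totalWeight K * ((n : ℝ) + 1) ^ 2 * (M : ℝ) ^ n := by ring

end Pool.Agent.Work.MP_91e6de_nt

end

section

/-!
# MP_91e6de: assembly of the arithmetic part
-/

open Polynomial Filter Topology Height Height.AdmissibleAbsValues

namespace Pool.Agent.Work.MP_91e6de_nt

theorem asm_M0 (hUF : S_UF) (hLM : S_LM) (hOR : S_OR) (hPB : S_PB) (hIN : S_IN) (hHF : S_HF)
    (hA : S_ThmA) (hPF : S_PF) : S_M0 := by
  classical
  intro K _ _ g F d e p q P hG hslow hdense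
  obtain ⟨U, hU⟩ := hUF K (orb g F P) hdense
  obtain ⟨T, hT⟩ := hIN K g F P
  set u : ℕ → K := fun n => (orb g F P n).1 with hu
  set w : ℕ → K := fun n => (orb g F P n).2 with hw
  have halt : ∀ v : AbsoluteValue K ℝ, (∃ B : ℝ, ∀ᶠ n in (U : Filter ℕ), v (u n) ≤ B) ∨
      Tendsto (fun n => v (u n)) U atTop := by
    intro v
    by_cases h : ∃ B : ℝ, ∀ᶠ n in (U : Filter ℕ), v (u n) ≤ B
    · exact Or.inl h
    · right
      rw [tendsto_atTop]
      intro B
      have h1 : ¬ ∀ᶠ n in (U : Filter ℕ), v (u n) ≤ B := fun h' => h ⟨B, h'⟩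
      rw [← Ultrafilter.eventually_not] at h1
      filter_upwards [h1] with n hn
      exact (not_le.1 hn).le
  -- finitely many places where the first coordinate tends to infinity
  have hfinι : Set.Finite {v : AbsoluteValue K ℝ | IsPl v ∧ Tendsto (fun n => v (u n)) U atTop} := by
    apply Set.Finite.subset ((archAbsVal (K := K)).toFinset ∪ T).finite_toSet
    rintro v ⟨hv | hv, hv'⟩
    · simp [hv]
    · by_contra hcon
      have hvT : v ∉ T := fun h => hcon (by simp [h])
      have h1 := hv'.eventually (eventually_gt_atTop (1 : ℝ))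
      obtain ⟨n, hn⟩ := h1.exists
      exact absurd (hT v hv hvT n).1 (not_le.2 hn)
  set ι : Type := {v : AbsoluteValue K ℝ // IsPl v ∧ Tendsto (fun n => v (u n)) U atTop} with hι
  have : Finite ι := hfinι.to_subtype
  have hN : ∀ i : ι, ∃ (A : ℝ) (N : LimSn K), (∀ k, N.N (FN g F k) ≤ Real.exp (A * (e : ℝ) ^ k)) ∧
      ∀ R : K[X][X], N.N R < 1 → ∃ η : ℝ, 0 < η ∧
      ∀ᶠ n in (U : Filter ℕ), i.1 (R.evalEval (u n) (w n)) ≤ i.1 (u n) ^ (-η) := by
    rintro ⟨v, hv, hv'⟩
    obtain ⟨A, B, hAB⟩ := hslow v hv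
    have hge : ∀ᶠ n in (U : Filter ℕ), (1 : ℝ) ≤ v (u n) := hv'.eventually (eventually_ge_atTop 1)
    obtain ⟨N, hN1, hN2⟩ := hLM K v U u w A B hv' (by
      filter_upwards [hge] with n hn
      have := hAB n
      rwa [max_eq_right hn] at this)
    refine ⟨A, N, fun k => ?_, hN1⟩
    obtain ⟨Bk, hBk1, hBk⟩ := (hPB K v).1 (gN g k)
    have hdegk : (gN g k).natDegree = e ^ k := by
      rw [(hOR K g F P 0 k).2.2, hG.hg]
    refine hN2 (FN g F k) (A * (e : ℝ) ^ k) (|B| * Bk ^ A) ?_
    filter_upwards [hge] with n hn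
    have e1 : (FN g F k).evalEval (u n) (w n) = (orb g F P (n + k)).2 := (hOR K g F P n k).2.1.symm
    have e2 : (orb g F P (n + k)).1 = (gN g k).eval (u n) := (hOR K g F P n k).1
    rw [e1]
    have h3 := hAB (n + k)
    have h4 : max 1 (v (orb g F P (n + k)).1) ≤ Bk * v (u n) ^ (e ^ k) := by
      apply max_le
      · exact one_le_mul_of_one_le_of_one_le hBk1 (one_le_pow₀ hn)
      · rw [e2]
        have := hBk (u n)
        rwa [max_eq_right hn, hdegk] at this
    have hpos : (0 : ℝ) ≤ max 1 (v (orb g F P (n + k)).1) := le_trans zero_le_one (le_max_left _ _)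
    calc v (orb g F P (n + k)).2 ≤ B * max 1 (v (orb g F P (n + k)).1) ^ A := h3
      _ ≤ |B| * max 1 (v (orb g F P (n + k)).1) ^ A :=
          mul_le_mul_of_nonneg_right (le_abs_self B) (pow_nonneg hpos _)
      _ ≤ |B| * (Bk * v (u n) ^ (e ^ k)) ^ A :=
          mul_le_mul_of_nonneg_left (pow_le_pow_left₀ hpos h4 _) (abs_nonneg _)
      _ = |B| * Bk ^ A * v (u n) ^ ((A : ℝ) * (e : ℝ) ^ k) := by
          have : ((A : ℝ) * (e : ℝ) ^ k) = ((e ^ k * A : ℕ) : ℝ) := by push_cast; ring
          rw [this, Real.rpow_natCast, mul_pow, ← pow_mul]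
          ring
  choose A N hN1 hN2 using hN
  obtain ⟨M, hM⟩ := Finite.exists_le A
  obtain ⟨R, hR0, hR⟩ := hA K g F d e p q hG ι N M (fun i k => (hN1 i k).trans (by
    apply Real.exp_le_exp.2
    exact mul_le_mul_of_nonneg_right (hM i) (by positivity)))
  have hbd : ∀ v : AbsoluteValue K ℝ, IsPl v → (∃ B : ℝ, ∀ᶠ n in (U : Filter ℕ), v (u n) ≤ B) →
      ∃ B : ℝ, ∀ᶠ n in (U : Filter ℕ), v (u n) ≤ B ∧ v (w n) ≤ B := by
    rintro v hv ⟨B, hB⟩
    obtain ⟨A', B', hAB⟩ := hslow v hv
    refine ⟨max B (|B'| * max 1 B ^ A'), ?_⟩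
    filter_upwards [hB] with n hn
    refine ⟨hn.trans (le_max_left _ _), le_trans ?_ (le_max_right _ _)⟩
    have hpos : (0 : ℝ) ≤ max 1 (v (u n)) := le_trans zero_le_one (le_max_left _ _)
    calc v (w n) ≤ B' * max 1 (v (u n)) ^ A' := hAB n
      _ ≤ |B'| * max 1 (v (u n)) ^ A' :=
          mul_le_mul_of_nonneg_right (le_abs_self B') (pow_nonneg hpos _)
      _ ≤ |B'| * max 1 B ^ A' := mul_le_mul_of_nonneg_left
          (pow_le_pow_left₀ hpos (max_le_max le_rfl hn) _) (abs_nonneg _)
  by_cases hne : Nonempty ι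
  · obtain ⟨i0⟩ := hne
    have hfin := hPF K u w U R T hT (fun v hv => by
      rcases halt v with h | h
      · exact Or.inl (hbd v hv h)
      · exact Or.inr ⟨h, hN2 ⟨v, hv, h⟩ R (hR _)⟩)
      ⟨i0.1, i0.2.1, i0.2.2, hN2 i0 R (hR i0)⟩
    have hU' := hU R hR0
    obtain ⟨n, hn1, hn2⟩ := (hfin.and hU').exists
    exact hn2 hn1
  · -- bounded at all places
    have hbd' : ∀ v : AbsoluteValue K ℝ, ∃ B : ℝ, IsPl v → ∀ᶠ n in (U : Filter ℕ), v (u n) ≤ B := by
      intro v
      by_cases hv : IsPl v
      · rcases halt v with ⟨B, hB⟩ | h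
        · exact ⟨B, fun _ => hB⟩
        · exact absurd ⟨⟨v, hv, h⟩⟩ hne
      · exact ⟨0, fun h => absurd h hv⟩
    choose Bf hBf using hbd'
    have hfin := hHF K T (fun v => max 1 (Bf v))
    have hev : ∀ᶠ n in (U : Filter ℕ), u n ∈ {a : K | (∀ v, IsPl v → v a ≤ max 1 (Bf v)) ∧
        ∀ v ∈ nonarchAbsVal (K := K), v ∉ T → v a ≤ 1} := by
      have h1 : ∀ᶠ n in (U : Filter ℕ), ∀ v ∈ (archAbsVal (K := K)).toFinset ∪ T,
          IsPl v → v (u n) ≤ Bf v := by
        rw [Filter.eventually_all_finset]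
        intro v _
        by_cases hv : IsPl v
        · filter_upwards [hBf v hv] with n hn _
          exact hn
        · exact Eventually.of_forall fun n h => absurd h hv
      filter_upwards [h1] with n hn
      refine ⟨fun v hv => ?_, fun v hv hvT => (hT v hv hvT n).1⟩
      by_cases hmem : v ∈ (archAbsVal (K := K)).toFinset ∪ T
      · exact (hn v hmem hv).trans (le_max_right _ _)
      · rcases hv with hv | hv
        · exact absurd (by simp [hv]) hmem
        · exact ((hT v hv (fun h => hmem (by simp [h])) n).1).trans (le_max_left _ _)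
    set R0 : K[X][X] := C (∏ a ∈ hfin.toFinset, (X - C a)) with hR0'
    have hR0ne : R0 ≠ 0 := by
      rw [hR0', Ne, C_eq_zero]
      exact Finset.prod_ne_zero_iff.2 fun a _ => X_sub_C_ne_zero a
    obtain ⟨n, hn1, hn2⟩ := (hev.and (hU R0 hR0ne)).exists
    apply hn2
    have : R0.evalEval (orb g F P n).1 (orb g F P n).2 =
        ∏ a ∈ hfin.toFinset, ((orb g F P n).1 - a) := by
      rw [hR0', evalEval, eval_C, eval_prod]
      simp
    rw [this]
    exact Finset.prod_eq_zero (hfin.mem_toFinset.2 hn1) (sub_self _)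

theorem asm_M1 (hCN : S_CN) (hDT : S_DT) (hSL : S_SL) (hAU : S_AU) (hPB : S_PB) (hM0 : S_M0) :
    S_M1 := by
  classical
  intro K _ _ g F d e c P hg he hed hF hc hc0 hslow hdense
  obtain ⟨b, hb1, hb2, hb3, hb4⟩ := hCN K g F d c (by omega) hF hc hc0
  set F' := shiftF g F b with hF'
  set P' : K × K := (P.1, P.2 + b.eval P.1) with hP'
  have horb : ∀ n, orb g F' P' n = ((orb g F P n).1, (orb g F P n).2 + b.eval (orb g F P n).1) :=
    fun n => hb4 P n
  have hdense' : Dense2 (orb g F' P') := by
    have := hDT K b (orb g F P) hdense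
    have h2 : orb g F' P' = fun n => ((orb g F P n).1, (orb g F P n).2 + b.eval (orb g F P n).1) :=
      funext horb
    rw [h2]
    exact this
  have hslow' : ∀ v, IsPl v → SlowAt g F' P' v := by
    intro v hv
    obtain ⟨A, B, hAB⟩ := hslow v hv
    obtain ⟨B1, hB11, hB1⟩ := (hPB K v).1 b
    refine ⟨A + b.natDegree, |B| + B1, fun n => ?_⟩
    rw [horb]
    simp only
    set X1 := max 1 (v (orb g F P n).1) with hX1
    have hX1' : 1 ≤ X1 := le_max_left _ _
    calc v ((orb g F P n).2 + b.eval (orb g F P n).1)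
        ≤ v (orb g F P n).2 + v (b.eval (orb g F P n).1) := v.add_le _ _
      _ ≤ |B| * X1 ^ A + B1 * X1 ^ b.natDegree := by
          apply add_le_add
          · exact (hAB n).trans (mul_le_mul_of_nonneg_right (le_abs_self B) (by positivity))
          · exact hB1 _
      _ ≤ |B| * X1 ^ (A + b.natDegree) + B1 * X1 ^ (A + b.natDegree) := by
          apply add_le_add
          · exact mul_le_mul_of_nonneg_left (pow_le_pow_right₀ hX1' (by omega)) (abs_nonneg _)
          · exact mul_le_mul_of_nonneg_left (pow_le_pow_right₀ hX1' (by omega)) (by linarith)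
      _ = (|B| + B1) * X1 ^ (A + b.natDegree) := by ring
  by_cases haut : ∀ i, (F'.coeff i).natDegree = 0
  · have hfin := hAU K g F' P' d c (by omega) (by omega) hb1 hb2 hc0 haut hslow'
    have := hdense' (∏ a ∈ hfin.toFinset, (X - C (C a))) (by
      intro n
      rw [evalEval, eval_prod, eval_prod]
      apply Finset.prod_eq_zero (i := (orb g F' P' n).2)
      · exact hfin.mem_toFinset.2 ⟨n, rfl⟩
      · simp)
    exact (Finset.prod_ne_zero_iff.2 fun a _ => X_sub_C_ne_zero (C a)) this
  · push Not at haut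
    obtain ⟨i, hi⟩ := haut
    have hid : i < d := by
      by_contra hcon
      rcases Nat.lt_or_eq_of_le (not_lt.1 hcon) with h | h
      · apply hi
        rw [coeff_eq_zero_of_natDegree_lt (by rw [hb1]; exact h)]
        simp
      · apply hi
        rw [← h, hb2]
        simp
    obtain ⟨p, q, hG⟩ := hSL K g F' d e c hg he hed hb1 hb2 hc0 hb3
      ⟨i, hid, Nat.pos_of_ne_zero hi⟩
    exact hM0 K g F' d e p q P' hG hslow' hdense'

end Pool.Agent.Work.MP_91e6de_nt

end

section

/-!
# MP_91e6de: assembly of the formal theorem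
-/

open Polynomial

namespace Pool.Agent.Work.MP_91e6de_nt

theorem asm_ThmA (h1 : S_B1) (h2 : S_B2) (h3 : S_B3) (hC : S_Core) : S_ThmA := by
  intro K _ _ g F d e p q hG ι _ N B hB
  obtain ⟨L, iL1, iL2, iL3, φ, x, hφ, hx, hlead, huniv⟩ := h1 K
  obtain ⟨W, iW1, iW2, iW3, iW4, iW5, hiso, hσ, hemb⟩ := h2 L ⟨x, by
    rw [hx]; exact Real.one_lt_exp_iff.2 one_pos⟩
  have key : ∀ i, ∃ N' : BPt W, ∀ R : K[X][X],
      N'.N (R.map (eval₂RingHom ((algebraMap L W).comp φ) (algebraMap L W x))) = (N i).N R := by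
    intro i
    obtain ⟨k, ik1, ik2, ik3, ψ, hψ⟩ := h3 K (N i)
    obtain ⟨θ, hθ, hθφ, hθx⟩ := huniv k ik1 ik2 ik3 (ψ.comp (C.comp C)) (ψ (C X))
      (fun a ha => by
        rw [RingHom.comp_apply, RingHom.comp_apply, hψ]
        exact (N i).map_CC a ha)
      (by rw [hψ]; exact (N i).map_X)
    obtain ⟨N', hN'⟩ := hemb k ik1 ik2 ik3 θ hθ (ψ X)
    refine ⟨N', fun R => ?_⟩
    have e1 : R.map (eval₂RingHom ((algebraMap L W).comp φ) (algebraMap L W x)) =
        (R.map (eval₂RingHom φ x)).map (algebraMap L W) := by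
      rw [Polynomial.map_map]
      congr 1
      apply Polynomial.ringHom_ext
      · intro a; simp
      · simp
    rw [e1, hN', Polynomial.map_map, ← hψ R]
    congr 1
    have e2 : ∀ R : K[X][X], (R.map (θ.comp (eval₂RingHom φ x))).eval (ψ X) = ψ R := by
      intro R
      have : (evalRingHom (ψ X)).comp (mapRingHom (θ.comp (eval₂RingHom φ x))) = ψ := by
        apply Polynomial.ringHom_ext'
        · apply Polynomial.ringHom_ext'
          · ext a
            simp [hθφ]
          · simp [hθx]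
        · simp
      have h := RingHom.congr_fun this R
      simpa using h
    exact e2 R
  choose N' hN' using key
  obtain ⟨R, hR0, hR⟩ := hC K L W φ x hφ hx hlead hiso hσ g F d e p q hG ι N' B
    (fun i k => by rw [hN']; exact hB i k)
  exact ⟨R, hR0, fun i => by rw [← hN']; exact hR i⟩

end Pool.Agent.Work.MP_91e6de_nt

end

section

/-!
# MP_91e6de: assembly of the formal core
-/

open Polynomial

namespace Pool.Agent.Work.MP_91e6de_nt

namespace NCore

/-- restriction of a point along an isometric embedding -/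
noncomputable def restr {L W : Type} [NormedField L] [NormedField W] [Algebra L W]
    (hiso : ∀ r : L, ‖algebraMap L W r‖ = ‖r‖) (N : BPt W) : BPt L where
  N A := N.N (A.map (algebraMap L W))
  nonneg _ := N.nonneg _
  map_C a := by simp [N.map_C, hiso]
  map_mul f g := by simp [N.map_mul]
  add_le f g := by simpa using N.add_le _ _

lemma N_one {W : Type} [NormedField W] (N : BPt W) : N.N 1 = 1 := by
  have := N.map_C 1
  simpa using this

lemma N_pow {W : Type} [NormedField W] (N : BPt W) (f : W[X]) (n : ℕ) :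
    N.N (f ^ n) = N.N f ^ n := by
  induction n with
  | zero => simp [N_one]
  | succ n ih => rw [pow_succ, N.map_mul, ih, pow_succ]

lemma N_prod {W ι : Type} [NormedField W] (N : BPt W) (s : Finset ι) (f : ι → W[X]) :
    N.N (∏ i ∈ s, f i) = ∏ i ∈ s, N.N (f i) := by
  classical
  induction s using Finset.induction_on with
  | empty => simp [N_one]
  | insert a s ha ih => rw [Finset.prod_insert ha, Finset.prod_insert ha, N.map_mul, ih]

lemma kap_symm {α : Type} (m : ℕ → α → ℕ) (d e k : ℕ) (w w' : ℕ → α) :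
    kap m d e k w w' = kap m d e k w' w := by
  classical
  unfold kap
  congr 1; congr 1
  apply Finset.sum_congr rfl
  intro i _
  by_cases h : ∀ l ≤ i, w l = w' l
  · rw [if_pos h, if_pos (fun l hl => (h l hl).symm)]
    apply Finset.prod_congr rfl
    intro l hl
    rw [h l (by simpa [Nat.lt_succ_iff] using hl)]
  · rw [if_neg h, if_neg (fun h' => h (fun l hl => (h' l hl).symm))]

lemma kap_map {α : Type} (m : ℕ → α → ℕ) (d e k : ℕ) (f : α → α) (hf : Function.Injective f)
    (hm : ∀ l a, m l (f a) = m l a) (w w' : ℕ → α) :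
    kap m d e k (fun l => f (w l)) (fun l => f (w' l)) = kap m d e k w w' := by
  classical
  unfold kap
  congr 1; congr 1
  apply Finset.sum_congr rfl
  intro i _
  by_cases h : ∀ l ≤ i, w l = w' l
  · rw [if_pos h, if_pos (fun l hl => by show f (w l) = f (w' l); rw [h l hl])]
    apply Finset.prod_congr rfl
    intro l hl
    rw [hm]
  · rw [if_neg h, if_neg (fun h' => h (fun l hl => hf (h' l hl)))]

lemma mprod_sum {E A W : Type} [Fintype E] [CommMonoid W] (n : E → ℕ) (M : E → Multiset A)
    (f : A → W) :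
    ((∑ w : E, n w • M w).map f).prod = ∏ w, ((M w).map f).prod ^ n w := by
  rw [← Multiset.coe_mapAddMonoidHom, map_sum, Multiset.prod_sum]
  simp [Multiset.map_nsmul, Multiset.prod_nsmul]

end NCore

open NCore in
theorem asm_Core (hFS : S_FS) (hPH : S_PH) (hFO : S_FO) (hCE : S_CE) (hBO : S_BO) (hT1 : S_T1)
    (hT7 : S_T7) (hG1 : S_G1) (hG2 : S_G2) (hG3 : S_G3) (hQB : S_QB) (hE0 : S_E0) (hE1 : S_E1)
    (hK1 : S_K1) (hK2 : S_K2) (hP3 : S_P3) : S_Core := by
  classical
  intro K L W _ _ _ _ _ _ _ _ _ φ x hφ hx hlead hiso hσ g F d e p q hG ι _ N B hB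
  rcases isEmpty_or_nonempty ι with hι | hι
  · exact ⟨1, one_ne_zero, fun i => (hι.false i).elim⟩
  set ψ : K →+* W := (algebraMap L W).comp φ with hψdef
  set X0 : W := algebraMap L W x with hX0def
  have hψ : ∀ a, a ≠ 0 → ‖ψ a‖ = 1 := by
    intro a ha
    rw [hψdef, RingHom.comp_apply, hiso, hφ a ha]
  have hX0 : ‖X0‖ = Real.exp 1 := by rw [hX0def, hiso, hx]
  obtain ⟨s, hs, S, hSA, hSc⟩ : ∃ s : ℝ, 0 < s ∧ ∃ S : FSys W d e s,
      (S.A = fun j => fib F ψ (xs g ψ X0 j)) ∧
      S.cen = fun j => (leadP F p q d ψ (xs g ψ X0 j)).roots :=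
    ⟨(p : ℝ) / q, div_pos (by exact_mod_cast hG.hp) (by exact_mod_cast hG.hq),
      hFS K W ψ hψ g F d e p q hG X0 hX0⟩
  have he := hG.he
  have hed := hG.hed
  have hPhi : ∀ k, (FN g F k).map (eval₂RingHom ψ X0) = S.Phi k :=
    hPH K W ψ g F X0 d e _ S hSA
  have hb : ∀ i j, (N i).N (S.Phi j) ≤ rad s e j := fun i =>
    hBO W d e _ S (N i) B hs he hed (fun k => by rw [← hPhi]; exact hB i k)
  choose c hc hcN using fun i => hCE W d e _ S (N i) hs he hed (hb i)
  -- the finite set of itineraries
  set Eset : Set (ℕ → W) := ⋃ i, {c' | ∃ σ : W ≃ₐ[L] W, c' = fun j => σ (c i j)} with hEset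
  have hfin : Eset.Finite := Set.finite_iUnion fun i =>
    hFO K L W φ hφ hiso hσ x hx g F d e p q hG (c i) (fun j => by
      have := hc i j; rw [hSc] at this; exact this)
  set E : Finset (ℕ → W) := hfin.toFinset with hE
  have hEmem : ∀ w, w ∈ E ↔ ∃ i, ∃ σ : W ≃ₐ[L] W, w = fun j => σ (c i j) := by
    intro w; rw [hE, Set.Finite.mem_toFinset, hEset]; simp
  have hmlt : ∀ (σ : W ≃ₐ[L] W) j w, S.mlt j (σ w) = S.mlt j w := by
    intro σ j w
    unfold FSys.mlt
    rw [hSc]
    exact (hG3 K L W φ x g F d p q σ j).2 w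
  have hmem : ∀ j w, w ∈ S.cen j ↔ 1 ≤ S.mlt j w := by
    intro j w
    unfold FSys.mlt mcount
    exact Multiset.one_le_count_iff_mem.symm
  have hEcen : ∀ w ∈ E, ∀ j, w j ∈ S.cen j := by
    intro w hw j
    obtain ⟨i, σ, rfl⟩ := (hEmem w).1 hw
    rw [hmem, hmlt, ← hmem]
    exact hc i j
  have hEσ : ∀ (σ : W ≃ₐ[L] W), ∀ w ∈ E, (fun j => σ (w j)) ∈ E := by
    intro σ w hw
    obtain ⟨i, τ, rfl⟩ := (hEmem w).1 hw
    exact (hEmem _).2 ⟨i, τ.trans σ, by ext j; simp⟩
  have hcE : ∀ i, c i ∈ E := fun i => (hEmem _).2 ⟨i, AlgEquiv.refl, by ext j; simp⟩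
  have hEne : E.Nonempty := ⟨c hι.some, hcE _⟩
  have hm1 : ∀ w ∈ E, ∀ l, 1 ≤ S.mlt l (w l) ∧ S.mlt l (w l) + 1 ≤ d := by
    intro w hw l
    have := hEcen w hw l
    exact ⟨(hmem l _).1 this, S.cen_count l _ this⟩
  obtain ⟨k, hk⟩ := hE1 W E S.mlt d e hEne he hed hm1 (fun i => by
    have := hE0 W S.cen d S.cen_card E (fun w hw l => hEcen w hw l) i
    exact this)
  have hk' := hk k le_rfl
  clear hk
  have : Nonempty E := ⟨⟨_, hcE hι.some⟩⟩
  have : CharZero L := charZero_of_injective_ringHom φ.injective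
  obtain ⟨ν, hν0, hν1, hν⟩ := hK1 E (fun w w' => kap S.mlt d e k w.1 w'.1)
    (fun w w' => kap_symm _ _ _ _ _ _) (by
      intro ν hν0 hν1
      have key := hk' (fun w => if h : w ∈ E then ν ⟨w, h⟩ else 0)
        (by intro w hw; simp only [hw, dif_pos]; exact hν0 _)
        (by
          rw [← Finset.sum_coe_sort E, ← hν1]
          apply Finset.sum_congr rfl
          intro w _
          simp)
      rw [← Finset.sum_coe_sort E] at key
      refine lt_of_le_of_lt (le_of_eq ?_) key
      apply Finset.sum_congr rfl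
      intro w _
      rw [← Finset.sum_coe_sort E]
      apply Finset.sum_congr rfl
      intro w' _
      simp)
  -- the group
  let H : Subgroup (Equiv.Perm E) :=
    { carrier := {h | ∃ σ : W ≃ₐ[L] W, ∀ w : E, (h w).1 = fun j => σ (w.1 j)}
      mul_mem' := by
        rintro a b ⟨σ, hσ'⟩ ⟨τ, hτ⟩
        exact ⟨τ.trans σ, fun w => by rw [Equiv.Perm.mul_apply, hσ', hτ]; ext j; simp⟩
      one_mem' := ⟨AlgEquiv.refl, fun w => by ext j; simp⟩
      inv_mem' := by
        rintro a ⟨σ, hσ'⟩
        refine ⟨σ.symm, fun w => ?_⟩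
        have h1 := hσ' (a⁻¹ w)
        rw [show a (a⁻¹ w) = w from Equiv.apply_symm_apply a w] at h1
        ext j
        rw [h1]
        simp }
  have hHσ : ∀ σ : W ≃ₐ[L] W, ∃ h ∈ H, ∀ w : E, (h w).1 = fun j => σ (w.1 j) := by
    intro σ
    refine ⟨⟨fun w => ⟨_, hEσ σ w.1 w.2⟩, fun w => ⟨_, hEσ σ.symm w.1 w.2⟩, ?_, ?_⟩, ⟨σ, ?_⟩, ?_⟩
    · intro w; apply Subtype.ext; ext j; simp
    · intro w; apply Subtype.ext; ext j; simp
    · intro w; rfl
    · intro w; rfl
  obtain ⟨n, hn1, hn2⟩ := hK2 E (fun w w' => kap S.mlt d e k w.1 w'.1)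
    (fun w => ∏ i ∈ Finset.range k, S.mlt i (w.1 i)) ν H
    (fun w => Nat.one_le_iff_ne_zero.2 (Finset.prod_ne_zero_iff.2 fun i _ =>
      Nat.one_le_iff_ne_zero.1 (hm1 w.1 w.2 i).1)) hν0 hν
    (by
      rintro h ⟨σ, hσ'⟩ w w'
      simp only [hσ']
      exact kap_map S.mlt d e k σ σ.injective (fun l a => hmlt σ l a) _ _)
    (by
      rintro h ⟨σ, hσ'⟩ w
      simp only [hσ']
      exact Finset.prod_congr rfl fun i _ => hmlt σ i _)
  -- the multiset of roots
  have hcard : ∀ w : E, (S.Cset w.1 k 0).card = ∏ i ∈ Finset.range k, S.mlt i (w.1 i) := by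
    intro w
    have := (hT1 W d e s S w.1 (hEcen w.1 w.2) k 0).2
    simpa using this
  set M : Multiset W := ∑ w : E, n w • S.Cset w.1 k 0 with hM
  set Q : W[X] := (M.map fun β => X - C β).prod with hQ
  have hMσ : ∀ σ : W ≃ₐ[L] W, M.map σ = M := by
    intro σ
    have h1 : ∀ w : E, (S.Cset w.1 k 0).map σ = S.Cset (fun i => σ (w.1 i)) k 0 := by
      intro w
      have := hG1 W d e s S σ.toRingEquiv (fun a => hσ σ a) (fun j => by
        rw [hSA]
        exact (hG3 K L W φ x g F d p q σ j).1) w.1 k 0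
      exact this
    obtain ⟨h, hh, hh'⟩ := hHσ σ
    rw [hM, ← Multiset.coe_mapAddMonoidHom, map_sum]
    simp only [Multiset.coe_mapAddMonoidHom, Multiset.map_nsmul]
    rw [← Equiv.sum_comp h (fun w : E => n w • S.Cset w.1 k 0)]
    apply Finset.sum_congr rfl
    intro w _
    rw [hn1 h hh w, h1 w, ← hh' w]
  have hQσ : ∀ σ : W ≃ₐ[L] W, Q.map (σ : W →+* W) = Q := by
    intro σ
    rw [hQ, Polynomial.map_multiset_prod, Multiset.map_map]
    conv_rhs => rw [← hMσ σ]
    rw [Multiset.map_map]
    congr 1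
    apply Multiset.map_congr rfl
    intro β _
    simp
  obtain ⟨Q', hQ'⟩ := hG2 L W Q hQσ
  have hQmonic : Q.Monic := Polynomial.monic_multiset_prod_of_monic _ _ fun a _ => monic_X_sub_C a
  have hQ'monic : Q'.Monic := by
    apply Polynomial.monic_of_injective (algebraMap L W).injective
    rw [hQ']; exact hQmonic
  have hMcard : M.card = ∑ w : E, n w * ∏ i ∈ Finset.range k, S.mlt i (w.1 i) := by
    rw [hM, Multiset.card_sum]
    apply Finset.sum_congr rfl
    intro w _
    rw [Multiset.card_nsmul, hcard]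
  have hQdeg : Q.natDegree = M.card := by
    rw [hQ]; exact Polynomial.natDegree_multiset_prod_X_sub_C_eq_card M
  have hQ'deg : Q'.natDegree = M.card := by
    rw [← hQdeg, ← hQ', Polynomial.natDegree_map]
  have hMpos : 1 ≤ M.card := by
    by_contra hcon
    have h0 : M.card = 0 := by omega
    rw [hMcard, Finset.sum_eq_zero_iff] at h0
    have hn := hn2 ⟨_, hcE hι.some⟩
    have hz : ∀ w : E, n w = 0 := by
      intro w
      have := h0 w (Finset.mem_univ _)
      rcases Nat.mul_eq_zero.1 this with h | h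
      · exact h
      · exact absurd h (Finset.prod_ne_zero_iff.2 fun i _ =>
          Nat.one_le_iff_ne_zero.1 (hm1 w.1 w.2 i).1)
    simp [hz] at hn
  have hMle : ∀ β ∈ M, ‖β‖ ≤ Real.exp s := by
    intro β hβ
    rw [hM, Multiset.mem_sum] at hβ
    obtain ⟨w, _, hw⟩ := hβ
    have hw' := Multiset.mem_of_mem_nsmul hw
    have := (hT1 W d e s S w.1 (hEcen w.1 w.2) k 0).1 β hw'
    simpa [rad] using this
  have hcoef : ∀ l ≤ Q'.natDegree, ‖Q'.coeff l‖ ≤ Real.exp (s * ((Q'.natDegree : ℝ) - l)) := by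
    intro l hl
    rw [hQ'deg] at hl
    have h1 := hQB W M (Real.exp s) (Real.exp_pos _) hMle l hl
    rw [← hQ, ← hQ', coeff_map, hiso] at h1
    refine h1.trans (le_of_eq ?_)
    rw [← Real.exp_nat_mul, hQ'deg, Nat.cast_sub hl]
    congr 1
    ring
  -- values at the points
  have hval : ∀ i, (N i).N Q ≤ Real.exp (s * ∑ w : E, (n w : ℝ) *
      (∏ j ∈ Finset.range k, S.mlt j (w.1 j) : ℕ) * kap S.mlt d e k (c i) w.1) := by
    intro i
    rw [hQ, hM, mprod_sum, N_prod, Finset.mul_sum, Real.exp_sum]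
    apply Finset.prod_le_prod
    · intro w _; exact (N i).nonneg _
    intro w _
    rw [N_pow]
    have h7 := hT7 W d e s S (N i) (c i) w.1 he (hc i) (hEcen w.1 w.2) (hcN i) (hb i) k
    rw [hcard] at h7
    refine (pow_le_pow_left₀ ((N i).nonneg _) h7 (n w)).trans (le_of_eq ?_)
    rw [← Real.exp_nat_mul]
    congr 1
    ring
  have hneg : ∃ η : ℝ, 0 < η ∧ ∀ i, s * ∑ w : E, (n w : ℝ) *
      (∏ j ∈ Finset.range k, S.mlt j (w.1 j) : ℕ) * kap S.mlt d e k (c i) w.1 ≤ -η := by
    have := Fintype.ofFinite ι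
    obtain ⟨i0, _, hi0⟩ := Finset.exists_max_image (Finset.univ : Finset ι)
      (fun i => s * ∑ w : E, (n w : ℝ) *
      (∏ j ∈ Finset.range k, S.mlt j (w.1 j) : ℕ) * kap S.mlt d e k (c i) w.1)
      ⟨hι.some, Finset.mem_univ _⟩
    refine ⟨-(s * ∑ w : E, (n w : ℝ) *
      (∏ j ∈ Finset.range k, S.mlt j (w.1 j) : ℕ) * kap S.mlt d e k (c i0) w.1), ?_, ?_⟩
    · have := hn2 ⟨c i0, hcE i0⟩
      rw [neg_pos]
      exact mul_neg_of_pos_of_neg hs this
    · intro i
      rw [neg_neg]
      exact hi0 i (Finset.mem_univ _)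
  obtain ⟨η, hη, hηi⟩ := hneg
  obtain ⟨R, hR0, hR⟩ := hP3 K L φ x hφ hx hlead s η hs hη Q' hQ'monic (by rw [hQ'deg]; exact hMpos)
    hcoef
  refine ⟨R, hR0, fun i => ?_⟩
  have h1 := hR (restr hiso (N i)) (by
    show (N i).N (X.map (algebraMap L W)) ≤ _
    have := hb i 0
    simpa [rad, FSys.Phi] using this) (by
    show (N i).N (Q'.map (algebraMap L W)) ≤ _
    rw [hQ']
    exact (hval i).trans (Real.exp_le_exp.2 (hηi i)))
  have h2 : (restr hiso (N i)).N (R.map (eval₂RingHom φ x)) = (N i).N (R.map (eval₂RingHom ψ X0)) := by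
    show (N i).N ((R.map (eval₂RingHom φ x)).map (algebraMap L W)) = _
    rw [Polynomial.map_map]
    congr 2
    apply Polynomial.ringHom_ext
    · intro a; simp [hψdef]
    · simp [hX0def]
  rw [← h2]
  exact h1

end Pool.Agent.Work.MP_91e6de_nt

end

section

/-!
# MP_91e6de: item AU, autonomous fibre maps
-/

open Polynomial Filter Topology Height Height.AdmissibleAbsValues

namespace Pool.Agent.Work.MP_91e6de_nt

namespace NAU

/-- growth of a polynomial at a large element -/
theorem grow {K : Type} [Field K] (v : AbsoluteValue K ℝ) (f : K[X]) (d : ℕ) (hd : 1 ≤ d)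
    (hf : f.natDegree = d) (hf0 : f.coeff d ≠ 0) :
    ∃ C0 : ℝ, 1 ≤ C0 ∧ ∀ y, C0 < v y → v (f.coeff d) / 2 * v y ^ d ≤ v (f.eval y) := by
  have hc : 0 < v (f.coeff d) := v.pos hf0
  set S : ℝ := ∑ i ∈ Finset.range d, v (f.coeff i) with hS
  have hS0 : 0 ≤ S := Finset.sum_nonneg fun i _ => v.nonneg _
  refine ⟨max 1 (2 * S / v (f.coeff d)), le_max_left _ _, fun y hy => ?_⟩
  have hy1 : 1 < v y := (le_max_left _ _).trans_lt hy
  have hy2 : 2 * S / v (f.coeff d) < v y := (le_max_right _ _).trans_lt hy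
  rw [div_lt_iff₀ hc] at hy2
  have h1 : f.eval y = f.coeff d * y ^ d + ∑ i ∈ Finset.range d, f.coeff i * y ^ i := by
    rw [eval_eq_sum_range, hf, Finset.sum_range_succ, add_comm]
  have h2 : v (∑ i ∈ Finset.range d, f.coeff i * y ^ i) ≤ S * v y ^ (d - 1) := by
    refine (v.sum_le _ _).trans ?_
    rw [hS, Finset.sum_mul]
    refine Finset.sum_le_sum fun i hi => ?_
    rw [v.map_mul, v.map_pow]
    refine mul_le_mul_of_nonneg_left ?_ (v.nonneg _)
    have : i ≤ d - 1 := by
      have := Finset.mem_range.1 hi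
      omega
    exact pow_le_pow_right₀ hy1.le this
  have h3 : v (f.coeff d * y ^ d) - v (∑ i ∈ Finset.range d, f.coeff i * y ^ i)
      ≤ v (f.eval y) := by
    rw [h1]
    have h4 := v.add_le (f.coeff d * y ^ d + ∑ i ∈ Finset.range d, f.coeff i * y ^ i)
      (-∑ i ∈ Finset.range d, f.coeff i * y ^ i)
    rw [add_neg_cancel_right, v.map_neg] at h4
    linarith
  rw [v.map_mul, v.map_pow] at h3
  have h5 : v y ^ d = v y * v y ^ (d - 1) := by
    rw [← pow_succ']
    congr 1
    omega
  have h6 : 0 ≤ v y ^ (d - 1) := by positivity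
  have h7 : S * v y ^ (d - 1) ≤ v (f.coeff d) / 2 * v y ^ d := by
    rw [h5, ← mul_assoc]
    refine mul_le_mul_of_nonneg_right ?_ h6
    linarith
  linarith

/-- a sequence with slow growth is bounded -/
theorem bdd {K : Type} [Field K] (v : AbsoluteValue K ℝ) (y : ℕ → K) (f : K[X]) (d e : ℕ)
    (hd : 2 ≤ d) (hf : f.natDegree = d) (hf0 : f.coeff d ≠ 0)
    (hy : ∀ n, y (n + 1) = f.eval (y n)) (hed : e < d) (D D' : ℝ)
    (hup : ∀ n, Real.log (v (y n)) ≤ D' + D * ((n : ℝ) + 1) * (e : ℝ) ^ n) :
    ∃ C0 : ℝ, ∀ n, v (y n) ≤ C0 := by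
  have hc : 0 < v (f.coeff d) := v.pos hf0
  obtain ⟨C1, hC1, hg⟩ := grow v f d (by omega) hf hf0
  set c2 : ℝ := v (f.coeff d) / 2 with hc2
  have hc20 : 0 < c2 := by positivity
  set C0 : ℝ := max C1 (2 / c2) with hC0
  have hC01 : 1 ≤ C0 := hC1.trans (le_max_left _ _)
  refine ⟨C0, ?_⟩
  by_contra hcon
  push Not at hcon
  obtain ⟨n0, hn0⟩ := hcon
  have hd1 : (0 : ℝ) < (d : ℝ) - 1 := by
    have : (2 : ℝ) ≤ d := by exact_mod_cast hd
    linarith
  set κ : ℝ := Real.log c2 / ((d : ℝ) - 1) with hκ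
  have hκd : ((d : ℝ) - 1) * κ = Real.log c2 := by
    rw [hκ]; field_simp
  -- one step
  have step : ∀ z : K, C0 < v z → C0 < v (f.eval z) ∧
      (d : ℝ) * (Real.log (v z) + κ) ≤ Real.log (v (f.eval z)) + κ := by
    intro z hz
    have hz1 : 1 < v z := hC01.trans_lt hz
    have hz0 : 0 < v z := by linarith
    have h1 := hg z ((le_max_left _ _).trans_lt hz)
    have h2 : 2 < c2 * v z := by
      have : 2 / c2 < v z := (le_max_right _ _).trans_lt hz
      rw [div_lt_iff₀ hc20] at this
      linarith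
    have h3 : v z ≤ v z ^ (d - 1) := le_self_pow₀ hz1.le (by omega)
    have h4 : c2 * v z ^ d = (c2 * v z) * v z ^ (d - 1) := by
      rw [mul_assoc, ← pow_succ']
      congr 2
      omega
    constructor
    · have h5 : 2 * v z ≤ c2 * v z ^ d := by
        rw [h4]
        exact mul_le_mul h2.le h3 hz0.le (by positivity)
      linarith
    · have h6 : Real.log (c2 * v z ^ d) ≤ Real.log (v (f.eval z)) :=
        Real.log_le_log (by positivity) h1
      rw [Real.log_mul hc20.ne' (by positivity), Real.log_pow] at h6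
      nlinarith
  have hind : ∀ k : ℕ, C0 < v (y (n0 + k)) ∧
      (d : ℝ) ^ k * (Real.log (v (y n0)) + κ) ≤ Real.log (v (y (n0 + k))) + κ := by
    intro k
    induction k with
    | zero => exact ⟨hn0, by simp⟩
    | succ k ih =>
      have h1 := step _ ih.1
      rw [← hy (n0 + k)] at h1
      refine ⟨h1.1, le_trans ?_ h1.2⟩
      have h2 := mul_le_mul_of_nonneg_left ih.2 (Nat.cast_nonneg (α := ℝ) d)
      rw [pow_succ]
      linarith
  set t0 : ℝ := Real.log (v (y n0)) + κ with ht0
  have ht0pos : 0 < t0 := by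
    have h1 : 1 < v (y n0) := hC01.trans_lt hn0
    have h2 : 2 < c2 * v (y n0) := by
      have : 2 / c2 < v (y n0) := (le_max_right _ _).trans_lt hn0
      rw [div_lt_iff₀ hc20] at this
      linarith
    have h3 : 0 < Real.log c2 + Real.log (v (y n0)) := by
      rw [← Real.log_mul hc20.ne' (by positivity)]
      exact Real.log_pos (by linarith)
    have h4 : 0 < Real.log (v (y n0)) := Real.log_pos h1
    have h5 : 0 < ((d : ℝ) - 1) * t0 := by
      rw [ht0, mul_add, hκd]
      have h6 : Real.log (v (y n0)) ≤ ((d : ℝ) - 1) * Real.log (v (y n0)) := by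
        have : (1 : ℝ) ≤ (d : ℝ) - 1 := by
          have : (2 : ℝ) ≤ d := by exact_mod_cast hd
          linarith
        nlinarith
      linarith
    exact pos_of_mul_pos_right h5 hd1.le
  -- contradiction
  have hdpos : (0 : ℝ) < d := by linarith
  have hr0 : (0 : ℝ) ≤ (e : ℝ) / d := by positivity
  have hr1 : (e : ℝ) / d < 1 := by
    rw [div_lt_one hdpos]; exact_mod_cast hed
  have hle : ∀ k : ℕ, t0 ≤ (D' + κ) * (1 / (d : ℝ)) ^ k
      + D * (e : ℝ) ^ n0 * ((k : ℝ) * ((e : ℝ) / d) ^ k)
      + D * (e : ℝ) ^ n0 * ((n0 : ℝ) + 1) * ((e : ℝ) / d) ^ k := by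
    intro k
    have h1 := (hind k).2
    have h2 := hup (n0 + k)
    have h3 : (d : ℝ) ^ k * t0 ≤ D' + D * (((n0 + k : ℕ) : ℝ) + 1) * (e : ℝ) ^ (n0 + k) + κ := by
      linarith
    have hdk : (0 : ℝ) < (d : ℝ) ^ k := by positivity
    have h4 : t0 ≤ (D' + D * (((n0 + k : ℕ) : ℝ) + 1) * (e : ℝ) ^ (n0 + k) + κ) / (d : ℝ) ^ k := by
      rw [le_div_iff₀ hdk, mul_comm]
      exact h3
    refine h4.trans (le_of_eq ?_)
    rw [div_pow, div_pow, one_pow]
    push_cast
    rw [pow_add]
    field_simp
    ring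
  have hlim : Tendsto (fun k : ℕ => (D' + κ) * (1 / (d : ℝ)) ^ k
      + D * (e : ℝ) ^ n0 * ((k : ℝ) * ((e : ℝ) / d) ^ k)
      + D * (e : ℝ) ^ n0 * ((n0 : ℝ) + 1) * ((e : ℝ) / d) ^ k) atTop (𝓝 (0 + 0 + 0)) := by
    refine Tendsto.add (Tendsto.add ?_ ?_) ?_
    · have h1 : (1 : ℝ) / d < 1 := by
        rw [div_lt_one hdpos]
        have : (2 : ℝ) ≤ d := by exact_mod_cast hd
        linarith
      have := (tendsto_pow_atTop_nhds_zero_of_lt_one (by positivity) h1).const_mul (D' + κ)
      rwa [mul_zero] at this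
    · have := (tendsto_self_mul_const_pow_of_lt_one hr0 hr1).const_mul (D * (e : ℝ) ^ n0)
      rwa [mul_zero] at this
    · have := (tendsto_pow_atTop_nhds_zero_of_lt_one hr0 hr1).const_mul
        (D * (e : ℝ) ^ n0 * ((n0 : ℝ) + 1))
      rwa [mul_zero] at this
  have := ge_of_tendsto' hlim hle
  linarith

end NAU

theorem pr_AU (hu : S_HU) (h1 : S_H1) (hi : S_IN) (hf : S_HF) : S_AU := by
  intro K _ _ g F P d c hg hgd hFd hFc hc0 hconst hslow
  set f0 : K[X] := F.map (evalRingHom 0) with hf0
  have hF : F = f0.map C := by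
    ext1 i
    rw [hf0, coeff_map, coeff_map, coe_evalRingHom]
    conv_lhs => rw [eq_C_of_natDegree_eq_zero (hconst i)]
    rw [← coeff_zero_eq_eval_zero]
  have hcoef : f0.coeff d = c := by
    rw [hf0, coeff_map, hFc, coe_evalRingHom, eval_C]
  have hdeg : f0.natDegree = d := by
    have h := congrArg natDegree hF
    rw [natDegree_map_eq_of_injective C_injective, hFd] at h
    exact h.symm
  have hy : ∀ n, (orb g F P (n + 1)).2 = f0.eval (orb g F P n).2 := by
    intro n
    have e1 : (orb g F P (n + 1)).2 = F.evalEval (orb g F P n).1 (orb g F P n).2 := rfl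
    rw [e1]
    generalize (orb g F P n).1 = x1
    generalize (orb g F P n).2 = x2
    conv_lhs => rw [hF]
    exact Polynomial.evalEval_map_C x1 x2 f0
  obtain ⟨C, hC⟩ := (hu K g F P hg (by omega)).2
  obtain ⟨T, hT⟩ := hi K g F P
  have hbdd : ∀ v : AbsoluteValue K ℝ, ∃ B : ℝ, IsPl v → ∀ n, v (orb g F P n).2 ≤ B := by
    intro v
    by_cases hv : IsPl v
    · obtain ⟨A, B, hAB⟩ := hslow v hv
      have hup : ∀ n, Real.log (v (orb g F P n).2) ≤ Real.log (max B 1)
          + (A * C) * ((n : ℝ) + 1) * (g.natDegree : ℝ) ^ n := by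
        intro n
        have hh := hC n
        have h2 := ((h1 K (orb g F P n)).1 v hv).1
        have h3 : Real.log (max 1 (v (orb g F P n).1)) ≤ logHeight₁ (orb g F P n).1 := by
          rcases le_total 1 (v (orb g F P n).1) with h | h
          · rw [max_eq_right h]; exact h2
          · rw [max_eq_left h, Real.log_one]; exact zero_le_logHeight₁ _
        have hB : 0 < max B 1 := lt_max_of_lt_right one_pos
        have hm : 0 < max 1 (v (orb g F P n).1) := lt_max_of_lt_left one_pos
        have h4 : v (orb g F P n).2 ≤ max B 1 * max 1 (v (orb g F P n).1) ^ A :=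
          (hAB n).trans (mul_le_mul_of_nonneg_right (le_max_left _ _) (by positivity))
        have h5 : Real.log (v (orb g F P n).2) ≤ Real.log (max B 1)
            + A * Real.log (max 1 (v (orb g F P n).1)) := by
          rcases (v.nonneg (orb g F P n).2).eq_or_lt with h | h
          · rw [← h, Real.log_zero]
            have e1 : 0 ≤ Real.log (max B 1) := Real.log_nonneg (le_max_right _ _)
            have e2 : 0 ≤ Real.log (max 1 (v (orb g F P n).1)) :=
              Real.log_nonneg (le_max_left _ _)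
            positivity
          · rw [← Real.log_pow, ← Real.log_mul hB.ne' (by positivity)]
            exact Real.log_le_log h h4
        have h6 : (A : ℝ) * Real.log (max 1 (v (orb g F P n).1))
            ≤ A * (C * ((n : ℝ) + 1) * (g.natDegree : ℝ) ^ n) :=
          mul_le_mul_of_nonneg_left (h3.trans hh) (Nat.cast_nonneg _)
        linarith
      obtain ⟨C0, hC0⟩ := NAU.bdd v (fun n => (orb g F P n).2) f0 d g.natDegree (by omega) hdeg
        (by rw [hcoef]; exact hc0) hy hgd (A * C) (Real.log (max B 1)) hup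
      exact ⟨C0, fun _ => hC0⟩
    · exact ⟨0, fun h => absurd h hv⟩
  choose B hB using hbdd
  refine (hf K T B).subset ?_
  rintro _ ⟨n, rfl⟩
  exact ⟨fun v hv => hB v hv n, fun v hv hvT => (hT v hv hvT n).2⟩

end Pool.Agent.Work.MP_91e6de_nt

end

section

/-!
# B1: the completion of `K(x)` at infinity
-/

open Polynomial Filter Topology UniformSpace

namespace Pool.Agent.Work.MP_91e6de_nt

namespace NB1

/-- partial sums are smaller than the leading term -/
theorem partial_lt {K k : Type} [Field K] [NormedField k] [IsUltrametricDist k] (φ : K →+* k)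
    (x : k) (hφ : ∀ a, a ≠ 0 → ‖φ a‖ = 1) (hx : ‖x‖ = Real.exp 1) (P : K[X]) (n m : ℕ)
    (hm : m ≤ n) :
    ‖∑ i ∈ Finset.range m, φ (P.coeff i) * x ^ i‖ < Real.exp n := by
  induction m with
  | zero =>
    simp only [Finset.range_zero, Finset.sum_empty, norm_zero]
    positivity
  | succ m ih =>
    rw [Finset.sum_range_succ]
    refine lt_of_le_of_lt (IsUltrametricDist.norm_add_le_max _ _) (max_lt (ih (by omega)) ?_)
    have h1 : ‖φ (P.coeff m)‖ ≤ 1 := by
      by_cases h : P.coeff m = 0
      · rw [h, map_zero, norm_zero]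
        exact zero_le_one
      · exact (hφ _ h).le
    rw [norm_mul, norm_pow, hx, ← Real.exp_nat_mul, mul_one]
    calc ‖φ (P.coeff m)‖ * Real.exp m ≤ 1 * Real.exp m :=
          mul_le_mul_of_nonneg_right h1 (Real.exp_pos _).le
      _ = Real.exp m := one_mul _
      _ < Real.exp n := Real.exp_lt_exp.2 (by exact_mod_cast hm)

theorem poly_lead {K k : Type} [Field K] [NormedField k] [IsUltrametricDist k] (φ : K →+* k)
    (x : k) (hφ : ∀ a, a ≠ 0 → ‖φ a‖ = 1) (hx : ‖x‖ = Real.exp 1) (P : K[X]) :
    ‖P.eval₂ φ x - φ P.leadingCoeff * x ^ P.natDegree‖ < Real.exp P.natDegree := by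
  rw [Polynomial.eval₂_eq_sum_range, Finset.sum_range_succ]
  show ‖_ + φ P.leadingCoeff * x ^ P.natDegree - _‖ < _
  rw [add_sub_cancel_right]
  exact partial_lt φ x hφ hx P _ _ le_rfl

theorem lead_norm {K k : Type} [Field K] [NormedField k] (φ : K →+* k)
    (x : k) (hφ : ∀ a, a ≠ 0 → ‖φ a‖ = 1) (hx : ‖x‖ = Real.exp 1) (P : K[X]) (hP : P ≠ 0) :
    ‖φ P.leadingCoeff * x ^ P.natDegree‖ = Real.exp P.natDegree := by
  rw [norm_mul, norm_pow, hx, ← Real.exp_nat_mul, mul_one,
    hφ _ (Polynomial.leadingCoeff_ne_zero.2 hP), one_mul]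

theorem norm_eq_of_sub_lt {k : Type} [NormedField k] [IsUltrametricDist k] (a b : k)
    (h : ‖a - b‖ < ‖b‖) : ‖a‖ = ‖b‖ := by
  have h1 : a = (a - b) + b := by ring
  rw [h1, IsUltrametricDist.norm_add_eq_max_of_norm_ne_norm h.ne, max_eq_right h.le]

theorem poly_norm {K k : Type} [Field K] [NormedField k] [IsUltrametricDist k] (φ : K →+* k)
    (x : k) (hφ : ∀ a, a ≠ 0 → ‖φ a‖ = 1) (hx : ‖x‖ = Real.exp 1) (P : K[X]) (hP : P ≠ 0) :
    ‖P.eval₂ φ x‖ = Real.exp P.natDegree := by
  rw [← lead_norm φ x hφ hx P hP]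
  apply norm_eq_of_sub_lt
  rw [lead_norm φ x hφ hx P hP]
  exact poly_lead φ x hφ hx P

theorem quot_lead {K k : Type} [Field K] [NormedField k] [IsUltrametricDist k] (φ : K →+* k)
    (x : k) (hφ : ∀ a, a ≠ 0 → ‖φ a‖ = 1) (hx : ‖x‖ = Real.exp 1) (P Q : K[X]) (hP : P ≠ 0)
    (hQ : Q ≠ 0) :
    ‖P.eval₂ φ x / Q.eval₂ φ x - φ (P.leadingCoeff / Q.leadingCoeff) *
      x ^ ((P.natDegree : ℤ) - Q.natDegree)‖ < ‖P.eval₂ φ x / Q.eval₂ φ x‖ := by
  have hx0 : x ≠ 0 := by
    rw [← norm_pos_iff, hx]
    positivity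
  have hlP := lead_norm φ x hφ hx P hP
  have hlQ := lead_norm φ x hφ hx Q hQ
  have hnP := poly_norm φ x hφ hx P hP
  have hnQ := poly_norm φ x hφ hx Q hQ
  have hsP := poly_lead φ x hφ hx P
  have hsQ := poly_lead φ x hφ hx Q
  set p := P.eval₂ φ x
  set q := Q.eval₂ φ x
  have e1 : φ (P.leadingCoeff / Q.leadingCoeff) * x ^ ((P.natDegree : ℤ) - Q.natDegree) =
      (φ P.leadingCoeff * x ^ P.natDegree) / (φ Q.leadingCoeff * x ^ Q.natDegree) := by
    rw [map_div₀, zpow_sub₀ hx0, zpow_natCast, zpow_natCast]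
    field_simp
  rw [e1]
  set lp := φ P.leadingCoeff * x ^ P.natDegree
  set lq := φ Q.leadingCoeff * x ^ Q.natDegree
  have hq0 : q ≠ 0 := by
    rw [← norm_pos_iff, hnQ]
    positivity
  have hlq0 : lq ≠ 0 := by
    rw [← norm_pos_iff, hlQ]
    positivity
  have e2 : p / q - lp / lq = ((p - lp) * lq - lp * (q - lq)) / (q * lq) := by
    field_simp
    ring
  rw [e2, norm_div, norm_div, norm_mul, hnP, hnQ, hlQ, div_lt_div_iff₀ (by positivity) (by positivity)]
  have h1 : ‖(p - lp) * lq - lp * (q - lq)‖ < Real.exp P.natDegree * Real.exp Q.natDegree := by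
    rw [sub_eq_add_neg]
    refine lt_of_le_of_lt (IsUltrametricDist.norm_add_le_max _ _) (max_lt ?_ ?_)
    · rw [norm_mul, hlQ]
      exact mul_lt_mul_of_pos_right hsP (by positivity)
    · rw [norm_neg, norm_mul, hlP]
      exact mul_lt_mul_of_pos_left hsQ (by positivity)
  have h2 : (0 : ℝ) < Real.exp Q.natDegree := by positivity
  nlinarith

open Classical in
/-- the absolute value of `K(x)` at infinity -/
noncomputable def aR (K : Type) [Field K] : AbsoluteValue (RatFunc K) ℝ where
  toFun f := if f = 0 then 0 else Real.exp f.intDegree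
  map_mul' f g := by
    by_cases hf : f = 0
    · simp [hf]
    by_cases hg : g = 0
    · simp [hg]
    rw [if_neg hf, if_neg hg, if_neg (mul_ne_zero hf hg), RatFunc.intDegree_mul hf hg,
      ← Real.exp_add]
    push_cast
    rfl
  nonneg' f := by
    split_ifs
    · exact le_rfl
    · positivity
  eq_zero' f := by
    constructor
    · intro h
      by_contra hf
      rw [if_neg hf] at h
      exact (Real.exp_pos _).ne' h
    · intro h
      rw [if_pos h]
  add_le' f g := by
    by_cases hf : f = 0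
    · simp [hf]
    by_cases hg : g = 0
    · simp [hg]
    by_cases hfg : f + g = 0
    · rw [if_neg hf, if_neg hg, if_pos hfg]
      positivity
    rw [if_neg hf, if_neg hg, if_neg hfg]
    have h1 := RatFunc.intDegree_add_le hg hfg
    rcases le_total f.intDegree g.intDegree with h | h
    · rw [max_eq_right h] at h1
      have : Real.exp (f + g).intDegree ≤ Real.exp g.intDegree :=
        Real.exp_le_exp.2 (by exact_mod_cast h1)
      linarith [Real.exp_pos (f.intDegree : ℝ)]
    · rw [max_eq_left h] at h1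
      have : Real.exp (f + g).intDegree ≤ Real.exp f.intDegree :=
        Real.exp_le_exp.2 (by exact_mod_cast h1)
      linarith [Real.exp_pos (g.intDegree : ℝ)]

theorem aR_apply {K : Type} [Field K] (f : RatFunc K) (hf : f ≠ 0) :
    aR K f = Real.exp f.intDegree := if_neg hf

theorem aR_add {K : Type} [Field K] (f g : RatFunc K) : aR K (f + g) ≤ max (aR K f) (aR K g) := by
  by_cases hf : f = 0
  · simp [hf]
  by_cases hg : g = 0
  · simp [hg]
  by_cases hfg : f + g = 0
  · rw [hfg, map_zero]
    exact le_max_of_le_left ((aR K).nonneg _)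
  rw [aR_apply _ hf, aR_apply _ hg, aR_apply _ hfg]
  have h1 := RatFunc.intDegree_add_le hg hfg
  rcases le_total f.intDegree g.intDegree with h | h
  · rw [max_eq_right h] at h1
    exact le_max_of_le_right (Real.exp_le_exp.2 (by exact_mod_cast h1))
  · rw [max_eq_left h] at h1
    exact le_max_of_le_left (Real.exp_le_exp.2 (by exact_mod_cast h1))

end NB1

open NB1 in
theorem pr_B1 : S_B1 := by
  intro K _
  classical
  let F := WithAbs (aR K)
  let ee : RatFunc K ≃+* F := (WithAbs.equiv (aR K)).symm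
  have hnorm : ∀ f : RatFunc K, ‖ee f‖ = aR K f := fun f => rfl
  have hsurj : ∀ g : F, ∃ f, ee f = g := fun g => ee.surjective g
  have hu0 : IsUltrametricDist F := by
    apply IsUltrametricDist.isUltrametricDist_of_forall_norm_add_le_max_norm
    intro f g
    obtain ⟨f, rfl⟩ := hsurj f
    obtain ⟨g, rfl⟩ := hsurj g
    rw [← map_add, hnorm, hnorm, hnorm]
    exact aR_add f g
  let L := Completion F
  have hu : IsUltrametricDist L := by
    apply IsUltrametricDist.isUltrametricDist_of_forall_norm_add_le_max_norm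
    intro a b
    induction a, b using Completion.induction_on₂ with
    | hp => exact isClosed_le (by fun_prop) (by fun_prop)
    | ih a b =>
      rw [← Completion.coe_add, Completion.norm_coe, Completion.norm_coe, Completion.norm_coe]
      exact IsUltrametricDist.norm_add_le_max a b
  let co : RatFunc K →+* L := (Completion.coeRingHom : F →+* L).comp (ee : RatFunc K →+* F)
  have hco : ∀ f, ‖co f‖ = aR K f := fun f => Completion.norm_coe (ee f)
  let φ : K →+* L := co.comp (RatFunc.C : K →+* RatFunc K)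
  let x : L := co RatFunc.X
  have hφ : ∀ a, a ≠ 0 → ‖φ a‖ = 1 := by
    intro a ha
    show ‖co (RatFunc.C a)‖ = 1
    have h1 : (RatFunc.C a : RatFunc K) ≠ 0 := by
      rwa [Ne, map_eq_zero]
    rw [hco, aR_apply _ h1, RatFunc.intDegree_C]
    simp
  have hx : ‖x‖ = Real.exp 1 := by
    show ‖co RatFunc.X‖ = _
    rw [hco, aR_apply _ RatFunc.X_ne_zero, RatFunc.intDegree_X]
    simp
  have hpoly : ∀ P : K[X], co (algebraMap K[X] (RatFunc K) P) = P.eval₂ φ x := by
    intro P
    have h1 : co.comp (algebraMap K[X] (RatFunc K)) = eval₂RingHom φ x := by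
      apply Polynomial.ringHom_ext
      · intro a
        simp [φ, RatFunc.algebraMap_C]
      · simp [x, RatFunc.algebraMap_X]
    exact RingHom.congr_fun h1 P
  refine ⟨L, inferInstance, inferInstance, hu, φ, x, hφ, hx, ?_, ?_⟩
  · intro r hr
    obtain ⟨g, hf⟩ := Completion.denseRange_coe.exists_dist_lt r (norm_pos_iff.2 hr)
    obtain ⟨f, rfl⟩ := hsurj g
    rw [dist_eq_norm] at hf
    have hf' : ‖r - co f‖ < ‖r‖ := hf
    have h1 : ‖co f‖ = ‖r‖ := by
      apply norm_eq_of_sub_lt
      rw [← norm_neg, neg_sub]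
      exact hf'
    have hf0 : f ≠ 0 := by
      intro h
      rw [h, map_zero, norm_zero] at h1
      exact hr (norm_eq_zero.1 h1.symm)
    have hnum := RatFunc.num_ne_zero hf0
    have hden := f.denom_ne_zero
    have hfe : co f = f.num.eval₂ φ x / f.denom.eval₂ φ x := by
      rw [← hpoly, ← hpoly, ← map_div₀, RatFunc.num_div_denom]
    have h2 := quot_lead φ x hφ hx f.num f.denom hnum hden
    rw [← hfe] at h2
    refine ⟨(f.num.natDegree : ℤ) - f.denom.natDegree, f.num.leadingCoeff / f.denom.leadingCoeff,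
      div_ne_zero (Polynomial.leadingCoeff_ne_zero.2 hnum)
        (Polynomial.leadingCoeff_ne_zero.2 hden), ?_⟩
    have h3 : r - φ (f.num.leadingCoeff / f.denom.leadingCoeff) *
        x ^ ((f.num.natDegree : ℤ) - f.denom.natDegree) = (r - co f) + (co f -
        φ (f.num.leadingCoeff / f.denom.leadingCoeff) *
        x ^ ((f.num.natDegree : ℤ) - f.denom.natDegree)) := by ring
    rw [h3]
    refine lt_of_le_of_lt (IsUltrametricDist.norm_add_le_max _ _) (max_lt hf' ?_)
    rw [← h1]
    exact h2
  · intro k _ _ _ φ' x' hφ' hx'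
    have hinj : Function.Injective (eval₂RingHom φ' x') := by
      rw [injective_iff_map_eq_zero]
      intro P hP
      by_contra h
      have h1 := poly_norm φ' x' hφ' hx' P h
      rw [coe_eval₂RingHom] at hP
      rw [hP, norm_zero] at h1
      exact (Real.exp_pos _).ne h1
    let θ1 : RatFunc K →+* k := IsFractionRing.lift (A := K[X]) (K := RatFunc K) hinj
    have hθ1 : ∀ P : K[X], θ1 (algebraMap K[X] (RatFunc K) P) = P.eval₂ φ' x' := fun P =>
      IsFractionRing.lift_algebraMap hinj P
    let θ0 : F →+* k := θ1.comp (ee.symm : F →+* RatFunc K)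
    have hθ0 : ∀ f, θ0 (ee f) = θ1 f := by
      intro f
      show θ1 (ee.symm (ee f)) = _
      rw [RingEquiv.symm_apply_apply]
    have hiso0 : ∀ g, ‖θ0 g‖ = ‖g‖ := by
      intro g
      obtain ⟨f, rfl⟩ := hsurj g
      rw [hθ0, hnorm]
      by_cases hf0 : f = 0
      · rw [hf0, map_zero, norm_zero, map_zero]
      have hnum := RatFunc.num_ne_zero hf0
      have hden := f.denom_ne_zero
      have hfe : θ1 f = f.num.eval₂ φ' x' / f.denom.eval₂ φ' x' := by
        rw [← hθ1, ← hθ1, ← map_div₀, RatFunc.num_div_denom]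
      rw [hfe, norm_div, poly_norm φ' x' hφ' hx' _ hnum, poly_norm φ' x' hφ' hx' _ hden,
        aR_apply _ hf0, ← Real.exp_sub, RatFunc.intDegree]
      push_cast
      rfl
    have hiso : Isometry θ0 := AddMonoidHomClass.isometry_of_norm θ0 hiso0
    let θ : L →+* k := Completion.extensionHom θ0 hiso.continuous
    have hθ : ∀ f : RatFunc K, θ (co f) = θ1 f := fun f =>
      (Completion.extensionHom_coe θ0 hiso.continuous (ee f)).trans (hθ0 f)
    have hθc : Continuous θ := Completion.continuous_extension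
    refine ⟨θ, ?_, ?_, ?_⟩
    · intro r
      induction r using Completion.induction_on with
      | hp => exact isClosed_eq (by fun_prop) (by fun_prop)
      | ih g =>
        obtain ⟨f, rfl⟩ := hsurj g
        have := hθ f
        show ‖θ (co f)‖ = ‖co f‖
        rw [this, hco, ← hθ0, hiso0, hnorm]
    · intro a
      show θ (co (RatFunc.C a)) = _
      rw [hθ, ← RatFunc.algebraMap_C, hθ1, eval₂_C]
    · show θ (co RatFunc.X) = _
      rw [hθ, ← RatFunc.algebraMap_X, hθ1, eval₂_X]

end Pool.Agent.Work.MP_91e6de_nt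

end

section

/-!
# MP_91e6de: item B2 (algebraic closure of a complete field and its Berkovich points)
-/

open Polynomial

namespace Pool.Agent.Work.MP_91e6de_nt

namespace NB2

/-- an embedding of complete fields extends to the algebraic closures and keeps the norms -/
theorem ext_closure (L : Type) [NontriviallyNormedField L] [CompleteSpace L]
    [IsUltrametricDist L] (k : Type) [NontriviallyNormedField k] [CompleteSpace k]
    [IsUltrametricDist k] (θ : L →+* k) (hθ : ∀ r, ‖θ r‖ = ‖r‖) :
    ∃ θ' : AlgebraicClosure L →+* AlgebraicClosure k,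
      (∀ r : L, θ' (algebraMap L (AlgebraicClosure L) r) =
        algebraMap k (AlgebraicClosure k) (θ r)) ∧
      ∀ a, spectralNorm k (AlgebraicClosure k) (θ' a) =
        spectralNorm L (AlgebraicClosure L) a := by
  let _ : Algebra L (AlgebraicClosure k) := ((algebraMap k (AlgebraicClosure k)).comp θ).toAlgebra
  let θ' : AlgebraicClosure L →ₐ[L] AlgebraicClosure k := IsAlgClosed.lift
  have h1 : ∀ r : L, θ' (algebraMap L (AlgebraicClosure L) r) =
      algebraMap k (AlgebraicClosure k) (θ r) := fun r => θ'.commutes r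
  refine ⟨θ'.toRingHom, h1, fun a => ?_⟩
  let f : AbsoluteValue (AlgebraicClosure L) ℝ :=
    { toFun := fun a => spectralNorm k (AlgebraicClosure k) (θ' a)
      map_mul' := fun x y => by
        rw [map_mul, ← spectralMulAlgNorm_def, map_mul]
        rfl
      nonneg' := fun x => spectralNorm_nonneg _
      eq_zero' := fun x => by
        rw [← spectralMulAlgNorm_def, map_eq_zero_iff_eq_zero, map_eq_zero]
      add_le' := fun x y => by
        rw [map_add]
        exact (isNonarchimedean_spectralNorm (K := k) (L := AlgebraicClosure k)).add_le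
          spectralNorm_nonneg }
  have hf : ∀ x : L, f (algebraMap L (AlgebraicClosure L) x) = ‖x‖ := fun x => by
    change spectralNorm k (AlgebraicClosure k) (θ' (algebraMap L (AlgebraicClosure L) x)) = _
    rw [h1, spectralNorm_extends, hθ]
  exact spectralNorm_unique_field_norm_ext hf a

/-- the statement for nontrivially normed fields -/
theorem main (L : Type) [inst : NontriviallyNormedField L] [CompleteSpace L]
    [IsUltrametricDist L] :
    ∃ (W : Type) (_ : NormedField W) (_ : IsUltrametricDist W)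
    (_ : IsAlgClosed W) (_ : Algebra L W) (_ : Algebra.IsAlgebraic L W),
    (∀ r : L, ‖algebraMap L W r‖ = ‖r‖) ∧ (∀ (σ : W ≃ₐ[L] W) (a : W), ‖σ a‖ = ‖a‖) ∧
    ∀ (k : Type) (_ : NormedField k) (_ : CompleteSpace k) (_ : IsUltrametricDist k)
      (θ : L →+* k), (∀ r, ‖θ r‖ = ‖r‖) → ∀ y : k, ∃ N : BPt W, ∀ A : L[X],
        N.N (A.map (algebraMap L W)) = ‖(A.map θ).eval y‖ := by
  let nf : NormedField (AlgebraicClosure L) := spectralNorm.normedField L (AlgebraicClosure L)
  have hna := isNonarchimedean_spectralNorm (K := L) (L := AlgebraicClosure L)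
  have hnorm : ∀ a : AlgebraicClosure L, ‖a‖ = spectralNorm L (AlgebraicClosure L) a :=
    fun a => rfl
  refine ⟨AlgebraicClosure L, nf,
    IsUltrametricDist.isUltrametricDist_of_forall_norm_add_le_max_norm (fun x y => hna x y),
    inferInstance, inferInstance, inferInstance, fun r => ?_, fun σ a => ?_, ?_⟩
  · rw [hnorm, spectralNorm_extends]
  · rw [hnorm, hnorm]
    exact (spectralNorm_eq_of_equiv σ a).symm
  intro k nk ck uk θ hθ y
  obtain ⟨x, hx⟩ := inst.non_trivial
  let nk' : NontriviallyNormedField k :=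
    { nk with non_trivial := ⟨θ x, by rw [hθ]; exact hx⟩ }
  obtain ⟨θ', h1, h2⟩ := @ext_closure L _ _ _ k nk' ck uk θ hθ
  refine ⟨{ N := fun A => spectralNorm k (AlgebraicClosure k)
              ((A.map θ').eval (algebraMap k (AlgebraicClosure k) y))
            nonneg := fun f => spectralNorm_nonneg _
            map_C := fun a => ?_
            map_mul := fun f g => ?_
            add_le := fun f g => ?_ }, fun A => ?_⟩
  · rw [Polynomial.map_C, Polynomial.eval_C]
    exact h2 a
  · rw [Polynomial.map_mul, Polynomial.eval_mul, ← spectralMulAlgNorm_def, map_mul]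
    rfl
  · rw [Polynomial.map_add, Polynomial.eval_add]
    exact isNonarchimedean_spectralNorm (K := k) (L := AlgebraicClosure k) _ _
  · have h3 : ((A.map (algebraMap L (AlgebraicClosure L))).map θ').eval
        (algebraMap k (AlgebraicClosure k) y) =
        algebraMap k (AlgebraicClosure k) ((A.map θ).eval y) := by
      have h4 : θ'.comp (algebraMap L (AlgebraicClosure L)) =
          (algebraMap k (AlgebraicClosure k)).comp θ := RingHom.ext h1
      rw [Polynomial.map_map, h4, ← Polynomial.map_map, Polynomial.eval_map_algebraMap,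
        Polynomial.aeval_algebraMap_apply, Polynomial.coe_aeval_eq_eval]
    change spectralNorm k (AlgebraicClosure k)
      (((A.map (algebraMap L (AlgebraicClosure L))).map θ').eval
        (algebraMap k (AlgebraicClosure k) y)) = _
    rw [h3, spectralNorm_extends]

end NB2

theorem pr_B2 : S_B2 := by
  intro L nL cL uL h
  exact @NB2.main L { nL with non_trivial := h } cL uL

end Pool.Agent.Work.MP_91e6de_nt

end

section

/-!
# MP_91e6de: BO, bounded orbits
-/

open Polynomial

namespace Pool.Agent.Work.MP_91e6de_nt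

namespace NBO

theorem N_sub {W : Type} [NormedField W] (N : BPt W) (Ψ : W[X]) (β : W) (h : ‖β‖ < N.N Ψ) :
    N.N (Ψ - C β) = N.N Ψ := by
  have h1 : N.N (Ψ - C β) ≤ N.N Ψ := by
    have := N.add_le Ψ (C (-β))
    rw [N.map_C, norm_neg, C_neg, ← sub_eq_add_neg] at this
    exact this.trans (max_le le_rfl h.le)
  have h2 : N.N Ψ ≤ max (N.N (Ψ - C β)) ‖β‖ := by
    have := N.add_le (Ψ - C β) (C β)
    rwa [N.map_C, sub_add_cancel] at this
  rcases le_max_iff.mp h2 with h3 | h3
  · exact le_antisymm h1 h3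
  · exact absurd h3 (not_le.mpr h)

theorem N_prod {W : Type} [NormedField W] (N : BPt W) (m : Multiset W[X]) :
    N.N m.prod = (m.map N.N).prod := by
  induction m using Multiset.induction with
  | empty =>
    simp only [Multiset.prod_zero, Multiset.map_zero]
    rw [← C_1, N.map_C, norm_one]
  | cons a m ih =>
    rw [Multiset.prod_cons, N.map_mul, ih, Multiset.map_cons, Multiset.prod_cons]

theorem step {W : Type} [NormedField W] [IsAlgClosed W] {d e : ℕ} {s : ℝ} (S : FSys W d e s)
    (N : BPt W) (j : ℕ) (Ψ : W[X]) (h : rad s e j < N.N Ψ) :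
    N.N ((S.A j).comp Ψ) = N.N Ψ ^ d := by
  have hsplit : (S.A j).roots.card = (S.A j).natDegree :=
    splits_iff_card_roots.mp (IsAlgClosed.splits (S.A j))
  have hr : ∀ β ∈ (S.A j).roots, ‖β‖ ≤ rad s e j := by
    intro β hβ
    have h0 : ‖(0 : W)‖ ≤ rad s e (j + 1) := by
      rw [norm_zero]
      exact (Real.exp_pos _).le
    have := S.roots_le j 0 h0 β
    rw [C_0, sub_zero] at this
    exact this hβ
  have hAp : S.A j = C (S.A j).leadingCoeff * ((S.A j).roots.map fun a => X - C a).prod :=
    (C_leadingCoeff_mul_prod_multiset_X_sub_C hsplit).symm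
  conv_lhs => rw [hAp]
  rw [mul_comp, C_comp, multiset_prod_comp, Multiset.map_map, N.map_mul, N.map_C, S.lead j,
    one_mul, N_prod, Multiset.map_map]
  have h1 : (S.A j).roots.map (N.N ∘ ((fun p : W[X] => p.comp Ψ) ∘ fun a => X - C a)) =
      (S.A j).roots.map (fun _ => N.N Ψ) := by
    refine Multiset.map_congr rfl ?_
    intro β hβ
    simp only [Function.comp, sub_comp, X_comp, C_comp]
    exact N_sub N Ψ β (lt_of_le_of_lt (hr β hβ) h)
  rw [h1, Multiset.map_const', Multiset.prod_replicate, hsplit, S.deg j]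

theorem iter {W : Type} [NormedField W] [IsAlgClosed W] {d e : ℕ} {s : ℝ} (S : FSys W d e s)
    (N : BPt W) (hs : 0 < s) (hed : e < d) (j : ℕ) (h : rad s e j < N.N (S.Phi j)) (n : ℕ) :
    N.N (S.Phi (j + n)) = N.N (S.Phi j) ^ (d ^ n) ∧ rad s e (j + n) < N.N (S.Phi (j + n)) := by
  induction n with
  | zero => exact ⟨by simp, h⟩
  | succ n ih =>
    obtain ⟨ih1, ih2⟩ := ih
    have h1 : N.N (S.Phi (j + (n + 1))) = N.N (S.Phi (j + n)) ^ d :=
      step S N (j + n) (S.Phi (j + n)) ih2
    constructor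
    · rw [h1, ih1, ← pow_mul, pow_succ]
    · rw [h1]
      have hr1 : 1 ≤ rad s e (j + n) := by
        unfold rad
        exact Real.one_le_exp (by positivity)
      have hr0 : 0 < rad s e (j + n) := lt_of_lt_of_le one_pos hr1
      have h2 : rad s e (j + (n + 1)) = rad s e (j + n) ^ e := by
        unfold rad
        rw [← Real.exp_nat_mul]
        congr 1
        rw [← add_assoc, pow_succ]
        ring
      rw [h2]
      calc rad s e (j + n) ^ e ≤ rad s e (j + n) ^ d := pow_le_pow_right₀ hr1 hed.le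
        _ < N.N (S.Phi (j + n)) ^ d := pow_lt_pow_left₀ ih2 hr0.le (by omega)

end NBO

open NBO in
/-- BO: bounded orbits -/
theorem pr_BO : S_BO := by
  intro W _ _ _ d e s S N B hs he hed hB j
  by_contra hcon
  have hcon := not_le.mp hcon
  have hit := iter S N hs hed j hcon
  have he0 : (0 : ℝ) < e := by exact_mod_cast he
  have hv0 : 0 < N.N (S.Phi j) := lt_trans (Real.exp_pos _) hcon
  have hlog : s * (e : ℝ) ^ j < Real.log (N.N (S.Phi j)) := by
    rw [Real.lt_log_iff_exp_lt hv0]
    exact hcon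
  have hlog0 : 0 < Real.log (N.N (S.Phi j)) := lt_trans (by positivity) hlog
  have hde : 1 < (d : ℝ) / e := by
    rw [one_lt_div he0]
    exact_mod_cast hed
  obtain ⟨n, hn⟩ := pow_unbounded_of_one_lt (B * (e : ℝ) ^ j / Real.log (N.N (S.Phi j))) hde
  have h1 := hB (j + n)
  rw [(hit n).1] at h1
  have h2 : (d : ℝ) ^ n * Real.log (N.N (S.Phi j)) ≤ B * (e : ℝ) ^ (j + n) := by
    have h3 := Real.log_le_log (pow_pos hv0 _) h1
    rw [Real.log_pow, Real.log_exp] at h3
    push_cast at h3
    exact h3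
  rw [div_pow, div_lt_div_iff₀ hlog0 (pow_pos he0 n)] at hn
  rw [pow_add] at h2
  nlinarith

end Pool.Agent.Work.MP_91e6de_nt

end

section

/-! item CE: the itinerary of a bounded point -/

open Polynomial

namespace Pool.Agent.Work.MP_91e6de_nt

namespace NCE

variable {W : Type} [NormedField W]

lemma N_one (N : BPt W) : N.N 1 = 1 := by
  have := N.map_C 1
  simpa using this

lemma N_neg (N : BPt W) (f : W[X]) : N.N (-f) = N.N f := by
  have h : -f = C (-1) * f := by simp
  rw [h, N.map_mul, N.map_C]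
  simp

lemma N_sub_le (N : BPt W) (f g : W[X]) : N.N (f - g) ≤ max (N.N f) (N.N g) := by
  rw [sub_eq_add_neg, ← N_neg N g]
  exact N.add_le _ _

lemma N_prod (N : BPt W) (m : Multiset W[X]) : N.N m.prod = (m.map N.N).prod := by
  induction m using Multiset.induction_on with
  | empty => simp [N_one]
  | cons a m ih => rw [Multiset.prod_cons, N.map_mul, ih, Multiset.map_cons, Multiset.prod_cons]

lemma comp_prod (A Φ : W[X]) (hs : A.roots.card = A.natDegree) :
    A.comp Φ = C A.leadingCoeff * (A.roots.map fun β => Φ - C β).prod := by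
  conv_lhs => rw [← Polynomial.C_leadingCoeff_mul_prod_multiset_X_sub_C hs]
  rw [Polynomial.mul_comp, Polynomial.C_comp, Polynomial.multiset_prod_comp, Multiset.map_map]
  congr 2
  apply Multiset.map_congr rfl
  intro β _
  simp

end NCE

open NCE in
theorem pr_CE (h : S_CV) : S_CE := by
  intro W _ _ _ d e s S N hs he hed hb j
  have hr : 1 < rad s e j := by
    unfold rad
    rw [Real.one_lt_exp_iff]
    have : 0 < (e : ℝ) := by exact_mod_cast he
    positivity
  have hr0 : 0 < rad s e j := by linarith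
  have hrs : rad s e (j + 1) = rad s e j ^ e := by
    unfold rad
    rw [← Real.exp_nat_mul]
    congr 1
    ring
  have hroots : (S.A j).roots.card = (S.A j).natDegree :=
    IsAlgClosed.card_roots_eq_natDegree
  have hcomp : N.N (S.Phi (j + 1)) =
      ((S.A j).roots.map fun β => N.N (S.Phi j - C β)).prod := by
    have : S.Phi (j + 1) = (S.A j).comp (S.Phi j) := rfl
    rw [this, comp_prod _ _ hroots, N.map_mul, N.map_C, S.lead, one_mul, N_prod,
      Multiset.map_map]
    rfl
  have hAz : (S.A j - C (0 : W)).roots = (S.A j).roots := by simp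
  have hle : ∀ β ∈ (S.A j).roots, ‖β‖ ≤ rad s e j := by
    intro β hβ
    apply S.roots_le j 0 (by rw [norm_zero]; exact (Real.exp_pos _).le)
    rw [hAz]; exact hβ
  have hex : ∃ β ∈ (S.A j).roots, N.N (S.Phi j - C β) < rad s e j := by
    by_contra hcon
    push Not at hcon
    have hlow : rad s e j ^ (S.A j).roots.card ≤
        ((S.A j).roots.map fun β => N.N (S.Phi j - C β)).prod := by
      have := Multiset.prod_map_le_prod_map₀ (s := (S.A j).roots) (fun _ => rad s e j)
        (fun β => N.N (S.Phi j - C β)) (fun β _ => hr0.le) (fun β hβ => hcon β hβ)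
      simpa using this
    rw [← hcomp, hroots, S.deg j] at hlow
    have h2 := hb (j + 1)
    rw [hrs] at h2
    have h3 : rad s e j ^ e < rad s e j ^ d := pow_lt_pow_right₀ hr hed
    linarith
  obtain ⟨β, hβ, hβ2⟩ := hex
  obtain ⟨c, hc, hc2⟩ := h W d e s S j 0 (by rw [norm_zero]; exact (Real.exp_pos _).le) β
    (by rw [hAz]; exact hβ)
  refine ⟨c, hc, ?_⟩
  have h5 : S.Phi j - C c = (S.Phi j - C β) + C (β - c) := by
    rw [C_sub]; ring
  rw [h5]
  refine (N.add_le _ _).trans_lt (max_lt hβ2 ?_)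
  rw [N.map_C]; exact hc2

end Pool.Agent.Work.MP_91e6de_nt

end

section

/-!
# MP_91e6de: CN, centring
-/

open Polynomial

namespace Pool.Agent.Work.MP_91e6de_nt

namespace NCN

theorem evalEval_shiftF {K : Type*} [Field K] (g : K[X]) (F : K[X][X]) (b : K[X]) (x y : K) :
    (shiftF g F b).evalEval x (y + b.eval x) = F.evalEval x y + b.eval (g.eval x) := by
  have h : ∀ (H : K[X][X]) (a b : K), H.evalEval a b = eval₂ (evalRingHom a) b H :=
    fun H a b => by rw [eval₂_evalRingHom]
  simp only [h, shiftF, eval₂_add, eval₂_comp, eval₂_C]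
  congr 1
  · congr 1
    simp
  · simp

theorem coeff_comp_top {R : Type*} [CommRing R] [IsDomain R] (F : R[X]) (b : R) (n : ℕ)
    (hF : F.natDegree = n + 1) :
    (F.comp (X - C b)).coeff (n + 1) = F.coeff (n + 1) ∧
    (F.comp (X - C b)).coeff n = F.coeff n - (n + 1) * b * F.coeff (n + 1) := by
  have h : F.comp (X - C b) = ∑ i ∈ Finset.range (n + 2), C (F.coeff i) * (X - C b) ^ i := by
    conv_lhs => rw [F.as_sum_range_C_mul_X_pow, hF]
    simp [Polynomial.sum_comp]
  have hdeg : ∀ i, ((X - C b) ^ i).natDegree = i := fun i => by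
    rw [natDegree_pow, natDegree_X_sub_C, mul_one]
  have hmon : ∀ i, ((X - C b) ^ i).coeff i = 1 := fun i => by
    have := ((monic_X_sub_C b).pow i).coeff_natDegree
    rwa [hdeg] at this
  have hnext : ((X - C b) ^ (n + 1)).coeff n = -((n + 1) * b) := by
    rw [sub_eq_add_neg, ← C_neg, coeff_X_add_C_pow]
    simp
    ring
  have hz : ∀ i j, i < j → ((X - C b) ^ i).coeff j = 0 := fun i j hij =>
    coeff_eq_zero_of_natDegree_lt (by rw [hdeg]; exact hij)
  constructor
  · rw [h, finsetSum_coeff, Finset.sum_range_succ]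
    have : ∑ x ∈ Finset.range (n + 1), (C (F.coeff x) * (X - C b) ^ x).coeff (n + 1) = 0 :=
      Finset.sum_eq_zero fun i hi => by
        rw [coeff_C_mul, hz i (n + 1) (Finset.mem_range.1 hi), mul_zero]
    rw [this, coeff_C_mul, hmon]
    ring
  · rw [h, finsetSum_coeff, Finset.sum_range_succ, Finset.sum_range_succ]
    have : ∑ x ∈ Finset.range n, (C (F.coeff x) * (X - C b) ^ x).coeff n = 0 :=
      Finset.sum_eq_zero fun i hi => by
        rw [coeff_C_mul, hz i n (Finset.mem_range.1 hi), mul_zero]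
    rw [this, coeff_C_mul, coeff_C_mul, hmon, hnext]
    ring

end NCN

theorem pr_CN : S_CN := by
  intro K _ _ g F d c hd hF hc hc0
  obtain ⟨n, rfl⟩ : ∃ n, d = n + 1 := ⟨d - 1, by omega⟩
  have hn : 1 ≤ n := by omega
  refine ⟨C (((n + 1 : ℕ) : K)⁻¹ * c⁻¹) * F.coeff n, ?_, ?_, ?_, ?_⟩
  · set b : K[X] := C (((n + 1 : ℕ) : K)⁻¹ * c⁻¹) * F.coeff n
    have h1 : (F.comp (X - C b)).natDegree = n + 1 := by
      rw [natDegree_comp, natDegree_X_sub_C, hF, mul_one]
    rw [shiftF, natDegree_add_C, h1]
  · rw [shiftF, coeff_add, coeff_C, if_neg (by omega), add_zero, (NCN.coeff_comp_top F _ n hF).1,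
      hc]
  · rw [shiftF, coeff_add, Nat.add_sub_cancel, coeff_C, if_neg (by omega), add_zero,
      (NCN.coeff_comp_top F _ n hF).2, hc]
    have hne : ((n : K) + 1) ≠ 0 := by exact_mod_cast Nat.succ_ne_zero n
    have h2 : ((n : K[X]) + 1) * (C (((n + 1 : ℕ) : K)⁻¹ * c⁻¹) * F.coeff n) * C c = F.coeff n := by
      have h3 : ((n : K[X]) + 1) = C ((n : K) + 1) := by simp
      calc ((n : K[X]) + 1) * (C (((n + 1 : ℕ) : K)⁻¹ * c⁻¹) * F.coeff n) * C c
          = C (((n : K) + 1) * (((n + 1 : ℕ) : K)⁻¹ * c⁻¹) * c) * F.coeff n := by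
            rw [h3]
            simp only [C_mul]
            ring
        _ = F.coeff n := by
            have : ((n : K) + 1) * (((n + 1 : ℕ) : K)⁻¹ * c⁻¹) * c = 1 := by
              push_cast
              field_simp
            rw [this, C_1, one_mul]
    rw [h2, sub_self]
  · intro P m
    induction m with
    | zero => rfl
    | succ m ih =>
      rw [orb, orb, ih]
      simp only [Prod.mk.injEq, true_and]
      exact NCN.evalEval_shiftF g F _ _ _

end Pool.Agent.Work.MP_91e6de_nt

end

section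

/-!
# MP_91e6de: CR, continuity of roots
-/

open Polynomial

namespace Pool.Agent.Work.MP_91e6de_nt

namespace NCR

variable {W : Type} [NormedField W] [IsUltrametricDist W]

/-- the closed unit ball as a valuation subring -/
noncomputable def VO (W : Type) [NormedField W] [IsUltrametricDist W] : ValuationSubring W where
  carrier := {x | ‖x‖ ≤ 1}
  mul_mem' := by
    intro a b ha hb
    simp only [Set.mem_ofPred_eq] at *
    rw [norm_mul]
    exact mul_le_one₀ ha (norm_nonneg b) hb
  one_mem' := by simp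
  add_mem' := by
    intro a b ha hb
    simp only [Set.mem_ofPred_eq] at *
    exact (IsUltrametricDist.norm_add_le_max a b).trans (max_le ha hb)
  zero_mem' := by simp
  neg_mem' := by
    intro a ha
    simp only [Set.mem_ofPred_eq] at *
    rwa [norm_neg]
  mem_or_inv_mem' := by
    intro x
    simp only [Set.mem_ofPred_eq]
    rcases le_total ‖x‖ 1 with h | h
    · exact Or.inl h
    · right
      rw [norm_inv]
      exact inv_le_one_of_one_le₀ h

theorem mem_VO {x : W} : x ∈ VO W ↔ ‖x‖ ≤ 1 := Iff.rfl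

theorem res_eq_zero (u : VO W) : IsLocalRing.residue (VO W) u = 0 ↔ ‖(u : W)‖ < 1 := by
  rw [IsLocalRing.residue_eq_zero_iff, IsLocalRing.mem_maximalIdeal, mem_nonunits_iff]
  constructor
  · intro h
    by_contra h1
    apply h
    have h2 : ‖(u : W)‖ = 1 := le_antisymm (mem_VO.mp u.2) (not_lt.mp h1)
    have h0 : (u : W) ≠ 0 := by
      intro h0
      rw [h0] at h2
      simp at h2
    have h3 : (u : W)⁻¹ ∈ VO W := by
      rw [mem_VO, norm_inv, h2]
      norm_num
    refine IsUnit.of_mul_eq_one ⟨(u : W)⁻¹, h3⟩ ?_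
    apply Subtype.ext
    exact mul_inv_cancel₀ h0
  · intro h hu
    obtain ⟨v, hv⟩ := hu.exists_right_inv
    have h1 : (u : W) * (v : W) = 1 := by
      have := congrArg Subtype.val hv
      exact this
    have h2 : ‖(u : W)‖ * ‖(v : W)‖ = 1 := by rw [← norm_mul, h1, norm_one]
    have h3 : ‖(v : W)‖ ≤ 1 := mem_VO.mp v.2
    nlinarith [norm_nonneg (u : W), norm_nonneg (v : W)]

theorem scaled [IsAlgClosed W] (d : ℕ) (A : W[X]) (τ : W) (hτ : τ ≠ 0) (hA : A.natDegree = d)
    (hl : ‖A.leadingCoeff‖ = 1) (hr : ∀ β ∈ A.roots, ‖β‖ ≤ ‖τ‖) :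
    ∃ (a : VO W) (U : Multiset (VO W)), IsLocalRing.residue (VO W) a ≠ 0 ∧
      U.map (fun u : VO W => τ * (u : W)) = A.roots ∧
      ∀ i, ((C a * (U.map fun u => X - C u).prod).coeff i : W) = A.coeff i * τ ^ i / τ ^ d := by
  classical
  have hτ0 : 0 < ‖τ‖ := norm_pos_iff.mpr hτ
  have hmem : ∀ x ∈ A.roots.map (fun β => β / τ), x ∈ VO W := by
    intro x hx
    rw [Multiset.mem_map] at hx
    obtain ⟨β, hβ, rfl⟩ := hx
    rw [mem_VO, norm_div]
    exact (div_le_one hτ0).mpr (hr β hβ)
  obtain ⟨U, hU⟩ : ∃ U : Multiset (VO W), U.map (fun u : VO W => (u : W)) =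
      A.roots.map (fun β => β / τ) := by
    have := Multiset.canLift (fun u : VO W => (u : W)) (fun x => x ∈ VO W)
    exact this.prf _ hmem
  refine ⟨⟨A.leadingCoeff, mem_VO.mpr hl.le⟩, U, ?_, ?_, ?_⟩
  · rw [Ne, res_eq_zero]
    simp only [hl, lt_irrefl, not_false_iff]
  · have h1 : U.map (fun u : VO W => τ * (u : W)) =
        (U.map (fun u : VO W => (u : W))).map (fun x => τ * x) := by
      rw [Multiset.map_map]
      rfl
    rw [h1, hU, Multiset.map_map]
    conv_rhs => rw [← Multiset.map_id A.roots]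
    refine Multiset.map_congr rfl ?_
    intro β _
    simp only [Function.comp, id]
    field_simp
  · intro i
    have hsplit : A.roots.card = A.natDegree := by
      have := IsAlgClosed.splits A
      exact (splits_iff_card_roots.mp this)
    have hAp : A = C A.leadingCoeff * (A.roots.map fun a => X - C a).prod :=
      (C_leadingCoeff_mul_prod_multiset_X_sub_C hsplit).symm
    -- the polynomial over `W`
    have hmap : ((C (⟨A.leadingCoeff, mem_VO.mpr hl.le⟩ : VO W) *
        (U.map fun u => X - C u).prod).map (VO W).subtype) =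
        C A.leadingCoeff * ((A.roots.map (fun β => β / τ)).map fun x => X - C x).prod := by
      rw [Polynomial.map_mul, map_C, Polynomial.map_multiset_prod, ← hU, Multiset.map_map,
        Multiset.map_map]
      congr 1
      congr 1
      refine Multiset.map_congr rfl ?_
      intro u _
      simp only [Function.comp, Polynomial.map_sub, map_X, map_C]
      rfl
    have hcomp : C A.leadingCoeff * ((A.roots.map (fun β => β / τ)).map fun x => X - C x).prod =
        C ((τ ^ d)⁻¹) * A.comp (C τ * X) := by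
      conv_rhs => rw [hAp]
      rw [mul_comp, C_comp, multiset_prod_comp, Multiset.map_map, Multiset.map_map]
      have h2 : (A.roots.map ((fun p : W[X] => p.comp (C τ * X)) ∘ fun a => X - C a)).prod =
          C (τ ^ d) * (A.roots.map ((fun x : W => (X : W[X]) - C x) ∘ fun β => β / τ)).prod := by
        have h3 : ∀ β ∈ A.roots, ((fun p : W[X] => p.comp (C τ * X)) ∘ fun a => X - C a) β =
            C τ * (((fun x : W => (X : W[X]) - C x) ∘ fun β => β / τ) β) := by
          intro β _
          simp only [Function.comp, sub_comp, X_comp, C_comp]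
          rw [mul_sub, ← C_mul]
          congr 2
          field_simp
        rw [Multiset.map_congr rfl h3, Multiset.prod_map_mul, Multiset.map_const',
          Multiset.prod_replicate, hsplit, hA, ← C_pow]
      rw [h2]
      have h4 : C ((τ ^ d)⁻¹) * C (τ ^ d) = (1 : W[X]) := by
        rw [← C_mul, inv_mul_cancel₀ (pow_ne_zero _ hτ), C_1]
      calc C A.leadingCoeff *
            (A.roots.map ((fun x : W => (X : W[X]) - C x) ∘ fun β => β / τ)).prod
          = (C ((τ ^ d)⁻¹) * C (τ ^ d)) * (C A.leadingCoeff *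
            (A.roots.map ((fun x : W => (X : W[X]) - C x) ∘ fun β => β / τ)).prod) := by
            rw [h4, one_mul]
        _ = _ := by ring
    have hfin := congrArg (fun P : W[X] => P.coeff i) (hmap.trans hcomp)
    simp only [coeff_map, coeff_C_mul] at hfin
    have h5 : (A.comp (C τ * X)).coeff i = A.coeff i * τ ^ i := by
      rw [comp_C_mul_X_coeff]
    rw [h5] at hfin
    change (VO W).subtype _ = _
    rw [show ((C (⟨A.leadingCoeff, mem_VO.mpr hl.le⟩ : VO W) *
        (U.map fun u => X - C u).prod).coeff i) = (⟨A.leadingCoeff, mem_VO.mpr hl.le⟩ : VO W) *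
        ((U.map fun u => X - C u).prod).coeff i from coeff_C_mul _, hfin]
    field_simp

theorem card_disc (m : Multiset W) (U : Multiset (VO W)) (τ c : W) (hτ : τ ≠ 0) (γ : VO W)
    (hγ : c = τ * γ) (hU : U.map (fun u : VO W => τ * (u : W)) = m) :
    (disc m c ‖τ‖).card =
      mcount (U.map (IsLocalRing.residue (VO W))) (IsLocalRing.residue (VO W) γ) := by
  classical
  have hτ0 : 0 < ‖τ‖ := norm_pos_iff.mpr hτ
  unfold disc mcount
  rw [← hU]
  have h1 : ∀ u : VO W, (‖τ * (u : W) - c‖ < ‖τ‖) ↔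
      IsLocalRing.residue (VO W) γ = IsLocalRing.residue (VO W) u := by
    intro u
    rw [hγ, ← mul_sub, norm_mul]
    constructor
    · intro h
      have h2 : ‖(u : W) - γ‖ < 1 := by
        by_contra h3
        have := not_lt.mp h3
        nlinarith
      have h3 : IsLocalRing.residue (VO W) (u - γ) = 0 := (res_eq_zero _).mpr h2
      rw [map_sub, sub_eq_zero] at h3
      exact h3.symm
    · intro h
      have h3 : IsLocalRing.residue (VO W) (u - γ) = 0 := by rw [map_sub, h, sub_self]
      have h2 : ‖((u - γ : VO W) : W)‖ < 1 := (res_eq_zero _).mp h3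
      have h4 : ‖(u : W) - γ‖ < 1 := h2
      nlinarith
  rw [Multiset.filter_map, Multiset.card_map, Multiset.count, Multiset.countP_map]
  congr 1
  refine Multiset.filter_congr ?_
  intro u _
  exact h1 u

end NCR

open NCR in
/-- CR: continuity of roots -/
theorem pr_CR : S_CR := by
  intro W _ _ _ d A B τ c hτ hA hB hlA hlB hrA hrB hdiff hc
  classical
  have hτ0 : 0 < ‖τ‖ := norm_pos_iff.mpr hτ
  obtain ⟨a, U, ha, hU, hcU⟩ := scaled d A τ hτ hA hlA hrA
  obtain ⟨b, V, hb, hV, hcV⟩ := scaled d B τ hτ hB hlB hrB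
  have hcm : c / τ ∈ VO W := by
    rw [mem_VO, norm_div]
    exact (div_le_one hτ0).mpr hc
  have hγ : c = τ * ((⟨c / τ, hcm⟩ : VO W) : W) := by
    change c = τ * (c / τ)
    field_simp
  rw [card_disc A.roots U τ c hτ _ hγ hU, card_disc B.roots V τ c hτ _ hγ hV]
  congr 1
  have heq : (C a * (U.map fun u => X - C u).prod).map (IsLocalRing.residue (VO W)) =
      (C b * (V.map fun u => X - C u).prod).map (IsLocalRing.residue (VO W)) := by
    ext i
    rw [coeff_map, coeff_map, ← sub_eq_zero, ← map_sub, res_eq_zero]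
    have h1 : (((C a * (U.map fun u => X - C u).prod).coeff i -
        (C b * (V.map fun u => X - C u).prod).coeff i : VO W) : W) =
        (A - B).coeff i * τ ^ i / τ ^ d := by
      have : (((C a * (U.map fun u => X - C u).prod).coeff i -
        (C b * (V.map fun u => X - C u).prod).coeff i : VO W) : W) =
        ((C a * (U.map fun u => X - C u).prod).coeff i : W) -
        ((C b * (V.map fun u => X - C u).prod).coeff i : W) := rfl
      rw [this, hcU, hcV, coeff_sub]
      ring
    rw [h1]
    rcases le_or_gt i d with hi | hi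
    · rw [norm_div, norm_mul, norm_pow, norm_pow, div_lt_one (pow_pos hτ0 d)]
      have h2 := hdiff i hi
      calc ‖(A - B).coeff i‖ * ‖τ‖ ^ i < ‖τ‖ ^ (d - i) * ‖τ‖ ^ i :=
            mul_lt_mul_of_pos_right h2 (pow_pos hτ0 i)
        _ = ‖τ‖ ^ d := by rw [← pow_add, Nat.sub_add_cancel hi]
    · have h2 : (A - B).coeff i = 0 := by
        rw [coeff_sub, coeff_eq_zero_of_natDegree_lt (by omega),
          coeff_eq_zero_of_natDegree_lt (by omega), sub_zero]
      rw [h2]
      simp
  have hroots := congrArg Polynomial.roots heq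
  have hm : ∀ (a : VO W) (U : Multiset (VO W)), IsLocalRing.residue (VO W) a ≠ 0 →
      ((C a * (U.map fun u => X - C u).prod).map (IsLocalRing.residue (VO W))).roots =
      U.map (IsLocalRing.residue (VO W)) := by
    intro a U ha
    rw [Polynomial.map_mul, map_C, Polynomial.map_multiset_prod, Multiset.map_map,
      roots_C_mul _ ha]
    have : (Multiset.map (Polynomial.map (IsLocalRing.residue (VO W)) ∘
        fun u : VO W => X - C u) U) =
        (U.map (IsLocalRing.residue (VO W))).map (fun x => X - C x) := by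
      rw [Multiset.map_map]
      refine Multiset.map_congr rfl ?_
      intro u _
      simp only [Function.comp, Polynomial.map_sub, map_X, map_C]
    rw [this, roots_multiset_prod_X_sub_C]
  rw [hm a U ha, hm b V hb] at hroots
  exact hroots

end Pool.Agent.Work.MP_91e6de_nt

end

section

/-! item CV: every root lies in the disc of a centre -/

open Polynomial

namespace Pool.Agent.Work.MP_91e6de_nt

open Classical in
theorem pr_CV : S_CV := by
  intro W _ _ _ d e s S j b hb β hβ
  by_contra hcon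
  push Not at hcon
  set R : Multiset W := (S.A j - C b).roots with hR
  have hr : 0 < rad s e j := Real.exp_pos _
  -- number of roots
  have hcard : R.card ≤ d := by
    have h1 : R.card ≤ (S.A j - C b).natDegree := Polynomial.card_roots' _
    have h2 : (S.A j - C b).natDegree ≤ d := by
      rw [Polynomial.natDegree_sub_C, S.deg j]
    exact h1.trans h2
  -- disjointness
  have key : ∀ D : Finset W, (∀ c ∈ D, c ∈ S.cen j) →
      ∑ c ∈ D, (disc R c (rad s e j)).card ≤
        (R.filter (fun x => ∃ c ∈ D, ‖x - c‖ < rad s e j)).card := by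
    intro D
    induction D using Finset.induction_on with
    | empty => intro _; simp
    | insert c D hc ih =>
      intro hD
      rw [Finset.sum_insert hc]
      have ih' := ih (fun c' hc' => hD c' (Finset.mem_insert_of_mem hc'))
      have hsplit : (R.filter (fun x => ∃ c' ∈ insert c D, ‖x - c'‖ < rad s e j)) =
          disc R c (rad s e j) + R.filter (fun x => ∃ c' ∈ D, ‖x - c'‖ < rad s e j) := by
        unfold disc
        rw [Multiset.filter_add_filter]
        have hz : R.filter (fun x => ‖x - c‖ < rad s e j ∧ ∃ c' ∈ D, ‖x - c'‖ < rad s e j) = 0 := by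
          rw [Multiset.filter_eq_nil]
          rintro x _ ⟨h1, c', hc', h2⟩
          have hne : c ≠ c' := by rintro rfl; exact hc hc'
          have h3 := S.cen_sep j c (hD c (Finset.mem_insert_self _ _)) c'
            (hD c' (Finset.mem_insert_of_mem hc')) hne
          have h4 : ‖c - c'‖ ≤ max ‖c - x‖ ‖x - c'‖ := by
            have := IsUltrametricDist.norm_add_le_max (c - x) (x - c')
            simpa using this
          rw [norm_sub_rev c x] at h4
          have h5 := h4.trans_lt (max_lt h1 h2)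
          rw [h3] at h5
          exact lt_irrefl _ h5
        rw [hz, add_zero]
        apply Multiset.filter_congr
        intro x _
        simp [Finset.mem_insert]
      rw [hsplit, Multiset.card_add]
      omega
  have hk := key (S.cen j).toFinset (fun c hc => Multiset.mem_toFinset.1 hc)
  have hsum : ∑ c ∈ (S.cen j).toFinset, (disc R c (rad s e j)).card = d := by
    refine Eq.trans ?_ ((Multiset.toFinset_sum_count_eq (S.cen j)).trans (S.cen_card j))
    apply Finset.sum_congr rfl
    intro c hc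
    rw [hR, S.cont j b hb c (Multiset.mem_toFinset.1 hc)]
    unfold mcount
    rfl
  have hlt : (R.filter (fun x => ∃ c ∈ (S.cen j).toFinset, ‖x - c‖ < rad s e j)).card < R.card := by
    apply Multiset.card_lt_card
    refine lt_of_le_of_ne (Multiset.filter_le _ _) ?_
    intro heq
    rw [Multiset.filter_eq_self] at heq
    obtain ⟨c, hc, hc2⟩ := heq β hβ
    exact absurd hc2 (not_lt.2 (hcon c (Multiset.mem_toFinset.1 hc)))
  omega

end Pool.Agent.Work.MP_91e6de_nt

end

section

/-!
# MP_91e6de: item DG (degrees of the iterates)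
-/

open Polynomial Filter Topology Height Height.AdmissibleAbsValues

namespace Pool.Agent.Work.MP_91e6de_nt

namespace NDG

variable {K : Type} [Field K]

lemma totDeg_le_iff (A : K[X][X]) (N : ℕ) :
    totDeg A ≤ N ↔ ∀ i, A.coeff i ≠ 0 → i + (A.coeff i).natDegree ≤ N := by
  unfold totDeg
  rw [Finset.sup_le_iff]
  constructor
  · intro h i hi
    exact h i (mem_support_iff.2 hi)
  · intro h i hi
    exact h i (mem_support_iff.1 hi)

lemma le_totDeg (A : K[X][X]) (i : ℕ) (hi : A.coeff i ≠ 0) :
    i + (A.coeff i).natDegree ≤ totDeg A := (totDeg_le_iff A _).1 le_rfl i hi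

lemma natDegree_le_totDeg (A : K[X][X]) : A.natDegree ≤ totDeg A := by
  by_cases h : A = 0
  · simp [h]
  · have := le_totDeg A A.natDegree (by
      rw [coeff_natDegree]
      exact leadingCoeff_ne_zero.2 h)
    omega

lemma totDeg_sum {ι : Type*} (s : Finset ι) (f : ι → K[X][X]) (N : ℕ)
    (h : ∀ i ∈ s, totDeg (f i) ≤ N) : totDeg (∑ i ∈ s, f i) ≤ N := by
  rw [totDeg_le_iff]
  intro j hj
  rw [finsetSum_coeff] at hj ⊢
  obtain ⟨i0, hi0, hne⟩ := Finset.exists_ne_zero_of_sum_ne_zero hj
  have hjN : j ≤ N := by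
    have := le_totDeg (f i0) j hne
    have := h i0 hi0
    omega
  have : (∑ i ∈ s, (f i).coeff j).natDegree ≤ N - j := by
    apply natDegree_sum_le_of_forall_le
    intro i hi
    by_cases h0 : (f i).coeff j = 0
    · simp [h0]
    · have := le_totDeg (f i) j h0
      have := h i hi
      omega
  omega

lemma totDeg_mul (A B : K[X][X]) : totDeg (A * B) ≤ totDeg A + totDeg B := by
  rw [totDeg_le_iff]
  intro j hj
  rw [coeff_mul] at hj ⊢
  have key : ∀ x ∈ Finset.HasAntidiagonal.antidiagonal j, A.coeff x.1 * B.coeff x.2 ≠ 0 →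
      j + (A.coeff x.1 * B.coeff x.2).natDegree ≤ totDeg A + totDeg B := by
    intro x hx hne
    have h1 := le_totDeg A x.1 (left_ne_zero_of_mul hne)
    have h2 := le_totDeg B x.2 (right_ne_zero_of_mul hne)
    have h3 := natDegree_mul_le (p := A.coeff x.1) (q := B.coeff x.2)
    have h4 := Finset.HasAntidiagonal.mem_antidiagonal.1 hx
    omega
  obtain ⟨x0, hx0, hne⟩ := Finset.exists_ne_zero_of_sum_ne_zero hj
  have hjN := key x0 hx0 hne
  have : (∑ x ∈ Finset.HasAntidiagonal.antidiagonal j, A.coeff x.1 * B.coeff x.2).natDegree ≤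
      totDeg A + totDeg B - j := by
    apply natDegree_sum_le_of_forall_le
    intro x hx
    by_cases h0 : A.coeff x.1 * B.coeff x.2 = 0
    · simp [h0]
    · have := key x hx h0
      omega
  omega

lemma totDeg_C (a : K[X]) : totDeg (C a) ≤ a.natDegree := by
  rw [totDeg_le_iff]
  intro i hi
  rw [coeff_C] at hi ⊢
  by_cases h : i = 0
  · simp [h]
  · simp [h] at hi

lemma totDeg_pow (A : K[X][X]) (n : ℕ) : totDeg (A ^ n) ≤ n * totDeg A := by
  induction n with
  | zero =>
    have : (A ^ 0 : K[X][X]) = C 1 := by simp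
    rw [this]
    refine (totDeg_C _).trans ?_
    simp
  | succ n ih =>
    rw [pow_succ]
    refine (totDeg_mul _ _).trans ?_
    rw [Nat.succ_mul]
    omega

lemma natDegree_gN (g : K[X]) (n : ℕ) : (gN g n).natDegree = g.natDegree ^ n := by
  induction n with
  | zero => simp [gN]
  | succ n ih =>
    rw [gN, natDegree_comp, ih, pow_succ]
    ring

lemma natDegree_mapF (F : K[X][X]) (h : K[X]) (c : K) (hc : F.coeff F.natDegree = C c)
    (hc0 : c ≠ 0) : (F.map (compRingHom h)).natDegree = F.natDegree := by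
  apply natDegree_map_of_leadingCoeff_ne_zero
  rw [leadingCoeff, hc]
  simp [hc0]

lemma natDegree_FN (g : K[X]) (F : K[X][X]) (c : K) (hc : F.coeff F.natDegree = C c)
    (hc0 : c ≠ 0) (n : ℕ) : (FN g F n).natDegree = F.natDegree ^ n := by
  induction n with
  | zero => simp [FN]
  | succ n ih =>
    rw [FN, natDegree_comp, ih, natDegree_mapF F _ c hc hc0, pow_succ]
    ring

lemma totDeg_step (g : K[X]) (F : K[X][X]) (n : ℕ) (m : ℕ)
    (hm : ∀ i, (F.coeff i).natDegree ≤ m) :
    totDeg (FN g F (n + 1)) ≤ m * g.natDegree ^ n + F.natDegree * totDeg (FN g F n) := by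
  rw [FN, comp, eval₂_eq_sum_range]
  apply totDeg_sum
  intro i hi
  have hi' : i ≤ F.natDegree := by
    have := Finset.mem_range.1 hi
    have h2 := natDegree_map_le (f := compRingHom (gN g n)) (p := F)
    omega
  refine (totDeg_mul _ _).trans ?_
  have h1 : totDeg (C ((F.map (compRingHom (gN g n))).coeff i)) ≤ m * g.natDegree ^ n := by
    refine (totDeg_C _).trans ?_
    rw [coeff_map, coe_compRingHom_apply, natDegree_comp, natDegree_gN]
    exact Nat.mul_le_mul_right _ (hm i)
  have h2 : totDeg (FN g F n ^ i) ≤ F.natDegree * totDeg (FN g F n) :=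
    (totDeg_pow _ _).trans (Nat.mul_le_mul_right _ hi')
  exact Nat.add_le_add h1 h2

end NDG

open NDG in
theorem pr_DG : S_DG := by
  intro K _ g F c hg hF hc hc0
  set m : ℕ := F.support.sup fun i => (F.coeff i).natDegree with hm
  have hm' : ∀ i, (F.coeff i).natDegree ≤ m := by
    intro i
    by_cases h : F.coeff i = 0
    · simp [h]
    · exact Finset.le_sup (f := fun i => (F.coeff i).natDegree) (mem_support_iff.2 h)
  set M : ℕ := max g.natDegree F.natDegree with hM
  have hgM : g.natDegree ≤ M := le_max_left _ _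
  have hFM : F.natDegree ≤ M := le_max_right _ _
  have hM1 : 1 ≤ M := hg.trans hgM
  have hT : ∀ n, totDeg (FN g F n) ≤ (m + 1) * (n + 1) * M ^ n := by
    intro n
    induction n with
    | zero =>
      have h1 : totDeg (FN g F 0) ≤ 1 := by
        rw [FN, totDeg_le_iff]
        intro i hi
        rw [coeff_X] at hi ⊢
        by_cases h : 1 = i
        · subst h
          simp
        · simp [h] at hi
      refine h1.trans ?_
      simp
    | succ n ih =>
      refine (totDeg_step g F n m hm').trans ?_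
      have h1 : m * g.natDegree ^ n ≤ (m + 1) * M ^ (n + 1) := by
        apply Nat.mul_le_mul (Nat.le_succ m)
        calc g.natDegree ^ n ≤ M ^ n := Nat.pow_le_pow_left hgM n
          _ ≤ M ^ (n + 1) := Nat.pow_le_pow_right hM1 (Nat.le_succ n)
      have h2 : F.natDegree * totDeg (FN g F n) ≤ M * ((m + 1) * (n + 1) * M ^ n) :=
        Nat.mul_le_mul hFM ih
      calc m * g.natDegree ^ n + F.natDegree * totDeg (FN g F n)
          ≤ (m + 1) * M ^ (n + 1) + M * ((m + 1) * (n + 1) * M ^ n) := Nat.add_le_add h1 h2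
        _ = (m + 1) * (n + 1 + 1) * M ^ (n + 1) := by ring
  refine ⟨(m : ℝ) + 1, fun n => ⟨?_, ?_⟩⟩
  · have h1 : M ^ n ≤ max (gN g n).natDegree (totDeg (FN g F n)) := by
      rw [natDegree_gN]
      rcases le_total g.natDegree F.natDegree with h | h
      · have : M = F.natDegree := max_eq_right h
        rw [this]
        refine le_trans ?_ (le_max_right _ _)
        rw [← natDegree_FN g F c hc hc0 n]
        exact natDegree_le_totDeg _
      · have : M = g.natDegree := max_eq_left h
        rw [this]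
        exact le_max_left _ _
    exact_mod_cast h1
  · have h1 : max (gN g n).natDegree (totDeg (FN g F n)) ≤ (m + 1) * (n + 1) ^ 2 * M ^ n := by
      apply max_le
      · rw [natDegree_gN]
        calc g.natDegree ^ n ≤ M ^ n := Nat.pow_le_pow_left hgM n
          _ ≤ (m + 1) * (n + 1) ^ 2 * M ^ n := by
            apply Nat.le_mul_of_pos_left
            positivity
      · refine (hT n).trans ?_
        apply Nat.mul_le_mul_right
        apply Nat.mul_le_mul_left
        nlinarith
    exact_mod_cast h1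

end Pool.Agent.Work.MP_91e6de_nt

end

section

/-!
# Item DI: dichotomy at an absolute value
-/

open Polynomial Filter Topology Height Height.AdmissibleAbsValues

namespace Pool.Agent.Work.MP_91e6de_nt

namespace NDI

/-- elementary part: from a superlinear recursion to double exponential growth -/
theorem growth (d : ℕ) (hd : 2 ≤ d) (κ B : ℝ) (hκ : 0 < κ) (hB : 1 ≤ B) (hκB : 2 ≤ κ * B)
    (y : ℕ → ℝ) (n0 : ℕ) (hy : ∀ n, n0 ≤ n → B < y n) (hs : ∀ n, n0 ≤ n → κ * y n ^ d ≤ y (n + 1)) :
    ∃ κ' : ℝ, 0 < κ' ∧ ∀ᶠ n in atTop, κ' * (d : ℝ) ^ n ≤ Real.log (y n) := by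
  have hd1 : (0 : ℝ) < (d : ℝ) - 1 := by
    have : (2 : ℝ) ≤ d := by exact_mod_cast hd
    linarith
  have hdp : (0 : ℝ) < d := by linarith
  set t : ℕ → ℝ := fun n => Real.log (y n) + Real.log κ / ((d : ℝ) - 1) with ht
  have hstep : ∀ n, n0 ≤ n → (d : ℝ) * t n ≤ t (n + 1) := by
    intro n hn
    have h1 : 0 < y n := by linarith [hy n hn]
    have h2 : Real.log κ + d * Real.log (y n) ≤ Real.log (y (n + 1)) := by
      rw [← Real.log_pow, ← Real.log_mul hκ.ne' (by positivity)]
      exact Real.log_le_log (by positivity) (hs n hn)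
    have h3 : Real.log κ + Real.log κ / ((d : ℝ) - 1) = d * (Real.log κ / ((d : ℝ) - 1)) := by
      field_simp
      ring
    simp only [ht]
    rw [mul_add]
    linarith
  have ht0 : 0 < t n0 := by
    have h1 := hy n0 le_rfl
    have h2 : Real.log B < Real.log (y n0) := Real.log_lt_log (by linarith) h1
    have h3 : 0 ≤ Real.log B := Real.log_nonneg hB
    simp only [ht]
    rcases le_total 1 κ with h | h
    · have : 0 ≤ Real.log κ / ((d : ℝ) - 1) := div_nonneg (Real.log_nonneg h) hd1.le
      linarith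
    · have h4 : Real.log 2 ≤ Real.log κ + Real.log B := by
        rw [← Real.log_mul hκ.ne' (by linarith)]
        exact Real.log_le_log (by norm_num) hκB
      have h5 : 0 < Real.log 2 := Real.log_pos (by norm_num)
      have h6 : Real.log κ ≤ 0 := Real.log_nonpos hκ.le h
      have h7 : Real.log κ ≤ Real.log κ / ((d : ℝ) - 1) := by
        rw [le_div_iff₀ hd1]
        have : (2 : ℝ) ≤ d := by exact_mod_cast hd
        nlinarith
      linarith
  have hgrow : ∀ k, (d : ℝ) ^ k * t n0 ≤ t (n0 + k) := by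
    intro k
    induction k with
    | zero => simp
    | succ k ih =>
      calc (d : ℝ) ^ (k + 1) * t n0 = d * ((d : ℝ) ^ k * t n0) := by ring
        _ ≤ d * t (n0 + k) := by gcongr
        _ ≤ t (n0 + k + 1) := hstep _ (by omega)
  refine ⟨t n0 / (2 * (d : ℝ) ^ n0), by positivity, ?_⟩
  have hlim : Tendsto (fun n : ℕ => (d : ℝ) ^ n) atTop atTop :=
    tendsto_pow_atTop_atTop_of_one_lt (by
      have : (2 : ℝ) ≤ d := by exact_mod_cast hd
      linarith)
  filter_upwards [hlim.eventually_ge_atTop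
    (2 * (d : ℝ) ^ n0 / t n0 * (Real.log κ / ((d : ℝ) - 1))), eventually_ge_atTop n0] with n h1 h2
  obtain ⟨k, rfl⟩ := Nat.exists_eq_add_of_le h2
  have h3 := hgrow k
  simp only [ht] at h3
  have h4 : Real.log κ / ((d : ℝ) - 1) ≤ (d : ℝ) ^ (n0 + k) * (t n0 / (2 * (d : ℝ) ^ n0)) := by
    have : 2 * (d : ℝ) ^ n0 / t n0 * (Real.log κ / ((d : ℝ) - 1)) * (t n0 / (2 * (d : ℝ) ^ n0)) ≤
        (d : ℝ) ^ (n0 + k) * (t n0 / (2 * (d : ℝ) ^ n0)) := by gcongr
    refine le_trans (le_of_eq ?_) this
    field_simp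
  have h5 : t n0 / (2 * (d : ℝ) ^ n0) * (d : ℝ) ^ (n0 + k) = (d : ℝ) ^ k * t n0 / 2 := by
    rw [pow_add]
    field_simp
  have h6 : (d : ℝ) ^ (n0 + k) * (t n0 / (2 * (d : ℝ) ^ n0)) = (d : ℝ) ^ k * t n0 / 2 := by
    rw [mul_comm]
    exact h5
  rw [h5]
  rw [h6] at h4
  have h7 : (d : ℝ) ^ k * t n0 ≤ Real.log (y (n0 + k)) + Real.log κ / ((d : ℝ) - 1) := h3
  linarith

end NDI

theorem pr_DI (hPB : S_PB) : S_DI := by
  intro K _ v g F d c hd hg hF hFc hc P
  obtain ⟨hPB1, hPB2⟩ := hPB K v
  obtain ⟨B2, hB2, hB2'⟩ := hPB1 g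
  obtain ⟨B1, m, hB1, hB1'⟩ := hPB2 F.eraseLead
  have hvc : 0 < v c := v.pos hc
  set κ : ℝ := v c / 2 with hκ
  have hκ0 : 0 < κ := by positivity
  set B : ℝ := 1 + B1 / κ + B2 ^ m / κ + 2 / κ with hB
  have hB2m : 1 ≤ B2 ^ m := one_le_pow₀ hB2
  have hB1' : ∀ x y, v (F.eraseLead.evalEval x y) ≤ B1 * max 1 (v x) ^ m * max 1 (v y) ^ (d - 1) := by
    intro x y
    refine (hB1' x y).trans ?_
    gcongr
    · exact le_max_left _ _
    · rw [← hF]
      exact eraseLead_natDegree_le F
  have hB2' : ∀ x, v (g.eval x) ≤ B2 * max 1 (v x) ^ d := by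
    intro x
    refine (hB2' x).trans ?_
    gcongr
    exact le_max_left _ _
  have hB0 : 1 ≤ B := by
    have : 0 ≤ B1 / κ + B2 ^ m / κ + 2 / κ := by positivity
    linarith
  have hκB1 : B1 ≤ κ * B := by
    have : κ * B = κ + B1 + B2 ^ m + 2 := by
      rw [hB]
      field_simp
    rw [this]
    linarith
  have hκB2 : B2 ^ m ≤ κ * B := by
    have : κ * B = κ + B1 + B2 ^ m + 2 := by
      rw [hB]
      field_simp
    rw [this]
    linarith
  have hκB3 : 2 ≤ κ * B := by
    have : κ * B = κ + B1 + B2 ^ m + 2 := by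
      rw [hB]
      field_simp
    rw [this]
    linarith
  have hev : ∀ x y, F.evalEval x y = F.eraseLead.evalEval x y + c * y ^ d := by
    intro x y
    have h1 : F = F.eraseLead + C (C c) * X ^ d := by
      conv_lhs => rw [← eraseLead_add_C_mul_X_pow F]
      rw [hF, leadingCoeff, hF, hFc]
    conv_lhs => rw [h1]
    simp [evalEval]
  -- one step
  have step : ∀ x y, B * max 1 (v x) ^ m < v y → κ * v y ^ d ≤ v (F.evalEval x y) ∧
      B * max 1 (v (g.eval x)) ^ m < v (F.evalEval x y) ∧ B < v y := by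
    intro x y hxy
    have hX : 1 ≤ max 1 (v x) := le_max_left _ _
    have hXm : 1 ≤ max 1 (v x) ^ m := one_le_pow₀ hX
    have hBy : B < v y := lt_of_le_of_lt (le_mul_of_one_le_right (by linarith) hXm) hxy
    have hy1 : 1 ≤ v y := by linarith
    have hmax : max 1 (v y) = v y := max_eq_right hy1
    have hd' : v y ^ d = v y * v y ^ (d - 1) := by
      rw [← pow_succ']
      congr 1
      omega
    have h1 : v (F.eraseLead.evalEval x y) ≤ κ * v y ^ d := by
      refine (hB1' x y).trans ?_
      rw [hmax, hd']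
      calc B1 * max 1 (v x) ^ m * v y ^ (d - 1) ≤ κ * B * max 1 (v x) ^ m * v y ^ (d - 1) := by
            gcongr
        _ = κ * ((B * max 1 (v x) ^ m) * v y ^ (d - 1)) := by ring
        _ ≤ κ * (v y * v y ^ (d - 1)) := by gcongr
    have h2 : κ * v y ^ d ≤ v (F.evalEval x y) := by
      rw [hev]
      have h3 := v.add_le (F.eraseLead.evalEval x y + c * y ^ d) (-(F.eraseLead.evalEval x y))
      have h4 : F.eraseLead.evalEval x y + c * y ^ d + -(F.eraseLead.evalEval x y) = c * y ^ d := by
        ring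
      rw [h4, v.map_neg, v.map_mul, v.map_pow] at h3
      have h5 : v c * v y ^ d = 2 * (κ * v y ^ d) := by
        rw [hκ]
        ring
      linarith
    refine ⟨h2, ?_, hBy⟩
    refine lt_of_lt_of_le ?_ h2
    have h6 : max 1 (v (g.eval x)) ≤ B2 * max 1 (v x) ^ d := by
      refine max_le ?_ (hB2' x)
      exact one_le_mul_of_one_le_of_one_le hB2 (one_le_pow₀ hX)
    calc B * max 1 (v (g.eval x)) ^ m ≤ B * (B2 * max 1 (v x) ^ d) ^ m := by gcongr
      _ = B * B2 ^ m * (max 1 (v x) ^ m) ^ d := by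
          rw [mul_pow, ← pow_mul, ← pow_mul, mul_comm d m]
          ring
      _ ≤ B * (κ * B ^ (d - 1)) * (max 1 (v x) ^ m) ^ d := by
          gcongr
          refine hκB2.trans ?_
          gcongr
          calc B = B ^ 1 := (pow_one B).symm
            _ ≤ B ^ (d - 1) := pow_le_pow_right₀ hB0 (by omega)
      _ = κ * (B * max 1 (v x) ^ m) ^ d := by
          rw [mul_pow]
          have : B ^ d = B * B ^ (d - 1) := by
            rw [← pow_succ']
            congr 1
            omega
          rw [this]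
          ring
      _ < κ * v y ^ d := by
          apply mul_lt_mul_of_pos_left _ hκ0
          exact pow_lt_pow_left₀ hxy (by positivity) (by omega)
  by_cases hsl : ∀ n, v (orb g F P n).2 ≤ B * max 1 (v (orb g F P n).1) ^ m
  · exact Or.inl ⟨m, B, hsl⟩
  · right
    push Not at hsl
    obtain ⟨n0, hn0⟩ := hsl
    have hall : ∀ k, B * max 1 (v (orb g F P (n0 + k)).1) ^ m < v (orb g F P (n0 + k)).2 := by
      intro k
      induction k with
      | zero => exact hn0
      | succ k ih => exact (step _ _ ih).2.1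
    have hall' : ∀ n, n0 ≤ n → B * max 1 (v (orb g F P n).1) ^ m < v (orb g F P n).2 := by
      intro n hn
      obtain ⟨k, rfl⟩ := Nat.exists_eq_add_of_le hn
      exact hall k
    exact NDI.growth d hd κ B hκ0 hB0 hκB3 (fun n => v (orb g F P n).2) n0
      (fun n hn => (step _ _ (hall' n hn)).2.2) (fun n hn => (step _ _ (hall' n hn)).1)

end Pool.Agent.Work.MP_91e6de_nt

end

section

/-!
# MP_91e6de: DT, density is invariant under the change of coordinates
-/

open Polynomial

namespace Pool.Agent.Work.MP_91e6de_nt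

namespace NDT

theorem evalEval_comp_shift {K : Type*} [Field K] (R : K[X][X]) (b : K[X]) (x y : K) :
    (R.comp (X + C b)).evalEval x y = R.evalEval x (y + b.eval x) := by
  have h : ∀ (H : K[X][X]) (a b : K), H.evalEval a b = eval₂ (evalRingHom a) b H :=
    fun H a b => by rw [eval₂_evalRingHom]
  simp only [h, eval₂_comp]
  congr 1
  simp

end NDT

theorem pr_DT : S_DT := by
  intro K _ b P hP R hR
  have h1 : R.comp (X + C b) = 0 := hP _ fun n => by
    rw [NDT.evalEval_comp_shift]
    exact hR n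
  have h2 : (R.comp (X + C b)).comp (X - C b) = R := by
    rw [comp_assoc]
    simp
  rw [← h2, h1, zero_comp]

end Pool.Agent.Work.MP_91e6de_nt

end

section

/-!
# MP_91e6de: E0, sums over prefixes
-/

open Polynomial

namespace Pool.Agent.Work.MP_91e6de_nt

open Classical in
theorem pr_E0 : S_E0 := by
  intro α cen d hd E hE i
  have hsub : E.image (fun w (l : Fin i) => w l) ⊆
      Fintype.piFinset fun l : Fin i => (cen l).toFinset := by
    intro u hu
    obtain ⟨w, hw, rfl⟩ := Finset.mem_image.1 hu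
    exact Fintype.mem_piFinset.2 fun l => Multiset.mem_toFinset.2 (hE w hw l)
  calc ∑ u ∈ E.image (fun w (l : Fin i) => w l), ∏ l : Fin i, mcount (cen l) (u l)
      ≤ ∑ u ∈ Fintype.piFinset fun l : Fin i => (cen l).toFinset,
        ∏ l : Fin i, mcount (cen l) (u l) := Finset.sum_le_sum_of_subset hsub
    _ = ∏ l : Fin i, ∑ a ∈ (cen l).toFinset, mcount (cen l) a := by
        rw [Finset.prod_univ_sum]
    _ = ∏ _l : Fin i, d := by
        refine Finset.prod_congr rfl fun l _ => ?_
        rw [← hd l, ← Multiset.toFinset_sum_count_eq]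
        rfl
    _ = d ^ i := by simp

end Pool.Agent.Work.MP_91e6de_nt

end
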